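import Pool.Agent.Lib.MP_e2dbb5_co.TCDefs

/-!
# Row K: four-connected hypergraphs satisfy (K); certificates give connected even choices
(helper69)
-/

set_option autoImplicit false

open Finset

noncomputable section

namespace Pool.Agent.ClawHam

open Classical

namespace Kx

variable {B I : Type} [Fintype B] [Fintype I]

theorem crosses_class (s : Finset B) (c : B → B) (y : B) :
    Crosses s (univ.filter fun b => c b = y) ↔ y ∈ s.image c ∧ 2 ≤ (s.image c).card := by
  constructor
  · rintro ⟨⟨a, ha, ha'⟩, b, hb, hb'⟩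
    have h1 : c a = y := (Finset.mem_filter.1 ha').2
    have h2 : c b ≠ y := fun h => hb' (Finset.mem_filter.2 ⟨Finset.mem_univ _, h⟩)
    refine ⟨Finset.mem_image.2 ⟨a, ha, h1⟩, ?_⟩
    exact Finset.one_lt_card.2 ⟨c a, Finset.mem_image_of_mem _ ha, c b,
      Finset.mem_image_of_mem _ hb, by rw [h1]; exact fun h => h2 h.symm⟩
  · rintro ⟨h1, h2⟩
    obtain ⟨a, ha, ha'⟩ := Finset.mem_image.1 h1
    obtain ⟨z, hz, hzy⟩ := Finset.exists_mem_ne h2 y
    obtain ⟨b, hb, hb'⟩ := Finset.mem_image.1 hz
    refine ⟨⟨a, ha, Finset.mem_filter.2 ⟨Finset.mem_univ _, ha'⟩⟩, b, hb, fun h => ?_⟩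
    exact hzy (hb' ▸ (Finset.mem_filter.1 h).2)

theorem kcond4 (e : I → Finset B) (h : FourConn univ e) : KCond4 e := by
  intro c hc
  have h1 : ∀ y ∈ univ.image c,
      4 ≤ (univ.filter fun i => Crosses (e i) (univ.filter fun b => c b = y)).card := by
    intro y hy
    obtain ⟨a, -, ha⟩ := Finset.mem_image.1 hy
    refine h _ (Finset.subset_univ _) ⟨a, Finset.mem_filter.2 ⟨Finset.mem_univ _, ha⟩⟩ ?_
    intro h2
    obtain ⟨z, hz, hzy⟩ := Finset.exists_mem_ne hc y
    obtain ⟨b, -, hb⟩ := Finset.mem_image.1 hz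
    have h3 : b ∈ (univ.filter fun b => c b = y) := by rw [h2]; exact Finset.mem_univ _
    exact hzy (hb ▸ (Finset.mem_filter.1 h3).2)
  have h2 : ∀ i, ∑ y ∈ univ.image c,
      (if Crosses (e i) (univ.filter fun b => c b = y) then 1 else 0) =
      wt ((e i).image c).card := by
    intro i
    rw [← Finset.card_filter]
    unfold wt
    split_ifs with h3
    · rw [Finset.card_eq_zero, Finset.filter_eq_empty_iff]
      intro y _ h4
      have := ((crosses_class _ _ _).1 h4).2
      omega
    · congr 1
      ext y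
      rw [Finset.mem_filter, crosses_class]
      constructor
      · exact fun h4 => h4.2.1
      · exact fun h4 => ⟨Finset.image_subset_image (Finset.subset_univ _) h4, h4, by omega⟩
  calc 4 * (univ.image c).card = ∑ _y ∈ univ.image c, 4 := by
        rw [Finset.sum_const, smul_eq_mul, mul_comm]
    _ ≤ ∑ y ∈ univ.image c,
        (univ.filter fun i => Crosses (e i) (univ.filter fun b => c b = y)).card :=
        Finset.sum_le_sum h1
    _ = ∑ y ∈ univ.image c, ∑ i,
        (if Crosses (e i) (univ.filter fun b => c b = y) then 1 else 0) := by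
        refine Finset.sum_congr rfl fun y _ => ?_
        rw [Finset.card_filter]
    _ = ∑ i, ∑ y ∈ univ.image c,
        (if Crosses (e i) (univ.filter fun b => c b = y) then 1 else 0) := Finset.sum_comm
    _ = _ := Finset.sum_congr rfl fun i _ => h2 i

theorem kcond (e : I → Finset B) (h : FourConn univ e) : KCond e := by
  intro c
  by_cases hc : 2 ≤ (univ.image c).card
  · have := kcond4 e h c hc
    omega
  · have : (univ.image c).card - 1 = 0 := by omega
    rw [this]
    exact Nat.zero_le _

/-! ### T-joins -/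

/-- indicator of a finite set, modulo two -/
def ind (s : Finset B) (K : B) : ZMod 2 := if K ∈ s then 1 else 0

omit [Fintype B] in
theorem ind_symm (s t : Finset B) (K : B) : ind (symmDiff s t) K = ind s K + ind t K := by
  unfold ind
  by_cases h1 : K ∈ s <;> by_cases h2 : K ∈ t <;> simp [Finset.mem_symmDiff, h1, h2]
  decide

theorem tjoin (D : I → Finset B) (hD : Pairs D) (hc : Conn D) (t : B → ZMod 2)
    (ht : ∑ K, t K = 0) : ∃ s : I → ZMod 2, ∀ K, ∑ i, s i * ind (D i) K = t K := by
  rcases isEmpty_or_nonempty B with hB | ⟨⟨b₀⟩⟩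
  · exact ⟨0, fun K => isEmptyElim K⟩
  have key : ∀ a : B, ∃ s : I → ZMod 2, ∀ K, ∑ i, s i * ind (D i) K =
      ind {a} K + ind {b₀} K := by
    let X : Finset B := univ.filter fun a => ∃ s : I → ZMod 2, ∀ K,
      ∑ i, s i * ind (D i) K = ind {a} K + ind {b₀} K
    have hX : X = univ := by
      by_contra hne
      have h0 : b₀ ∈ X := by
        refine Finset.mem_filter.2 ⟨Finset.mem_univ _, 0, fun K => ?_⟩
        simp only [Pi.zero_apply, zero_mul, Finset.sum_const_zero]
        exact (CharTwo.add_self_eq_zero _).symm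
      obtain ⟨i, ⟨u, hu, hu'⟩, v, hv, hv'⟩ := hc X ⟨b₀, h0⟩ hne
      apply hv'
      obtain ⟨s, hs⟩ := (Finset.mem_filter.1 hu').2
      refine Finset.mem_filter.2 ⟨Finset.mem_univ _, s + Pi.single i 1, fun K => ?_⟩
      have huv : u ≠ v := fun h => hv' (h ▸ hu')
      have h2 : D i = {u, v} := by
        rcases hD i with h | h
        · rw [h] at hu
          exact absurd hu (Finset.notMem_empty _)
        · symm
          apply Finset.eq_of_subset_of_card_le
          · intro x hx
            rcases Finset.mem_insert.1 hx with h | h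
            · exact h ▸ hu
            · exact (Finset.mem_singleton.1 h) ▸ hv
          · rw [h, Finset.card_pair huv]
      have h3 : ∑ j, (s + Pi.single i (1 : ZMod 2) : I → ZMod 2) j * ind (D j) K =
          ∑ j, s j * ind (D j) K + ind (D i) K := by
        simp only [Pi.add_apply, add_mul, Finset.sum_add_distrib]
        congr 1
        rw [Finset.sum_eq_single i]
        · rw [Pi.single_eq_same, one_mul]
        · intro j _ hj
          rw [Pi.single_eq_of_ne hj, zero_mul]
        · exact fun h => absurd (Finset.mem_univ _) h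
      have h4 : ind (D i) K = ind {u} K + ind {v} K := by
        rw [h2]
        unfold ind
        by_cases h5 : K = u
        · subst h5
          simp [huv]
        · by_cases h6 : K = v
          · subst h6
            simp [h5]
          · simp [h5, h6]
      rw [h3, hs, h4]
      have h5 : ind {u} K + ind {u} K = 0 := CharTwo.add_self_eq_zero _
      linear_combination h5
    intro a
    have : a ∈ X := by rw [hX]; exact Finset.mem_univ _
    exact (Finset.mem_filter.1 this).2
  choose s hs using key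
  refine ⟨fun i => ∑ a, t a * s a i, fun K => ?_⟩
  have h1 : ∑ i, (∑ a, t a * s a i) * ind (D i) K =
      ∑ a, t a * ∑ i, s a i * ind (D i) K := by
    simp only [Finset.sum_mul, Finset.mul_sum]
    rw [Finset.sum_comm]
    refine Finset.sum_congr rfl fun a _ => Finset.sum_congr rfl fun i _ => ?_
    ring
  rw [h1]
  simp only [hs, mul_add, Finset.sum_add_distrib]
  have h2 : ∑ a, t a * ind {b₀} K = 0 := by
    rw [← Finset.sum_mul, ht, zero_mul]
  have h3 : ∑ a, t a * ind {a} K = t K := by
    rw [Finset.sum_eq_single K]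
    · simp [ind]
    · intro a _ ha
      have : K ∉ ({a} : Finset B) := by
        rw [Finset.mem_singleton]
        exact fun h => ha h.symm
      simp [ind, this]
    · exact fun h => absurd (Finset.mem_univ _) h
  rw [h2, h3, add_zero]

theorem card_cast (P : I → Prop) [DecidablePred P] :
    (((univ.filter P).card : ℕ) : ZMod 2) = ∑ i, if P i then (1 : ZMod 2) else 0 := by
  rw [Finset.card_filter, Nat.cast_sum]
  refine Finset.sum_congr rfl fun i _ => ?_
  split_ifs <;> simp

theorem evenConn (e : I → Finset B) (h : GCert e) : EvenConn univ e := by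
  obtain ⟨f0, f1, hp0, hp1, hs0, hs1, hD, hcon, hDc⟩ := h
  obtain ⟨s, hs⟩ := tjoin (fun i => symmDiff (f0 i) (f1 i)) hD hDc (fun K => ∑ i, ind (f0 i) K) (by
    rw [Finset.sum_comm]
    refine Finset.sum_eq_zero fun i _ => ?_
    have h1 : ∑ K, ind (f0 i) K = ((f0 i).card : ZMod 2) := by
      unfold ind
      rw [Finset.sum_ite_mem, Finset.univ_inter, Finset.sum_const, nsmul_eq_mul, mul_one]
    rw [h1]
    rcases hp0 i with h | h
    · rw [h, Finset.card_empty, Nat.cast_zero]
    · rw [h]
      decide)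
  refine ⟨fun i => if s i = 1 then f1 i else f0 i, fun i => ?_, fun K => ?_, fun X _ hX hX' => ?_⟩
  · by_cases h : s i = 1
    · simp only [h, if_true]
      exact ⟨hs1 i, hp1 i⟩
    · simp only [h, if_false]
      exact ⟨hs0 i, hp0 i⟩
  · rw [← ZMod.natCast_eq_zero_iff_even]
    show ((univ.filter fun i => K ∈ (if s i = 1 then f1 i else f0 i)).card : ZMod 2) = 0
    rw [card_cast]
    trans ∑ i, (ind (f0 i) K + s i * ind (symmDiff (f0 i) (f1 i)) K)
    · refine Finset.sum_congr rfl fun i _ => ?_
      rw [ind_symm]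
      have h5 : ind (f0 i) K + ind (f0 i) K = 0 := CharTwo.add_self_eq_zero _
      have h01 : s i = 1 ∨ s i = 0 := by
        generalize s i = x
        revert x
        decide
      rcases h01 with h | h
      · have h6 : ind (f0 i) K + s i * (ind (f0 i) K + ind (f1 i) K) = ind (f1 i) K := by
          rw [h, one_mul, ← add_assoc, h5, zero_add]
        rw [h6, h]
        unfold ind
        simp
      · have h6 : ind (f0 i) K + s i * (ind (f0 i) K + ind (f1 i) K) = ind (f0 i) K := by
          rw [h, zero_mul, add_zero]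
        rw [h6, h]
        unfold ind
        simp
    rw [Finset.sum_add_distrib, hs]
    exact CharTwo.add_self_eq_zero _
  · obtain ⟨i, hi⟩ := hcon (fun i => decide (s i = 1)) X hX hX'
    refine ⟨i, ?_⟩
    by_cases h : s i = 1
    · simpa [h] using hi
    · simpa [h] using hi

/-! ### The vertex version -/

omit [Fintype I] in
theorem gcert_of_cert (e : I → Finset B) (h : Cert e) : GCert e := by
  obtain ⟨v₀, r, g, D, hg, hv, hDp, hDs, hDg, hDc⟩ := h
  -- for every `v ≠ v₀` two pairs
  have key : ∀ v, v ≠ v₀ → ∃ a b : B, a ∈ e (g v) ∧ b ∈ e (g v) ∧ r a < r v ∧ r b < r v ∧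
      D (g v) = symmDiff {v, a} {v, b} := by
    intro v hne
    obtain ⟨h1, u, hu, hur⟩ := hv v hne
    rcases hDg v hne with h2 | ⟨h2, h3⟩
    · exact ⟨u, u, hu, hu, hur, hur, by rw [h2, symmDiff_self]; rfl⟩
    · have h4 : u ∈ D (g v) := by
        rw [h2]
        exact Finset.mem_erase.2 ⟨fun h => by rw [h] at hur; exact lt_irrefl _ hur, hu⟩
      rcases hDp (g v) with h5 | h5
      · rw [h5] at h4
        exact absurd h4 (Finset.notMem_empty _)
      · obtain ⟨a, b, hab, hD2⟩ := Finset.card_eq_two.1 h5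
        have ha : a ∈ D (g v) := by rw [hD2]; exact Finset.mem_insert_self _ _
        have hb : b ∈ D (g v) := by
          rw [hD2]; exact Finset.mem_insert_of_mem (Finset.mem_singleton_self _)
        have ha' := h2 ▸ ha
        have hb' := h2 ▸ hb
        refine ⟨a, b, (Finset.mem_erase.1 ha').2, (Finset.mem_erase.1 hb').2, h3 a ha, h3 b hb, ?_⟩
        rw [hD2]
        have hav : a ≠ v := (Finset.mem_erase.1 ha').1
        have hbv : b ≠ v := (Finset.mem_erase.1 hb').1
        ext x
        simp only [Finset.mem_symmDiff, Finset.mem_insert, Finset.mem_singleton]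
        constructor
        · rintro (rfl | rfl)
          · exact Or.inl ⟨Or.inr rfl, by rintro (h | h); exacts [hav h, hab h]⟩
          · exact Or.inr ⟨Or.inr rfl, by rintro (h | h); exacts [hbv h, hab h.symm]⟩
        · rintro (⟨h | h, h'⟩ | ⟨h | h, h'⟩)
          · exact absurd (Or.inl h) h'
          · exact Or.inl h
          · exact absurd (Or.inl h) h'
          · exact Or.inr h
  choose! α β hα hβ hrα hrβ hαβ using key
  -- the vertex of a used hyperedge
  let Used : I → Prop := fun i => ∃ v, v ≠ v₀ ∧ g v = i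
  let vx : I → B := fun i => if h : Used i then h.choose else v₀
  have hvx : ∀ v, v ≠ v₀ → vx (g v) = v := by
    intro v hne
    have h : Used (g v) := ⟨v, hne, rfl⟩
    have h1 : vx (g v) = h.choose := dif_pos h
    rw [h1]
    exact hg _ _ h.choose_spec.1 hne h.choose_spec.2
  let f0 : I → Finset B := fun i => if Used i then {vx i, α (vx i)} else ∅
  let f1 : I → Finset B := fun i => if Used i then {vx i, β (vx i)} else D i
  have hf0 : ∀ v, v ≠ v₀ → f0 (g v) = {v, α v} := by
    intro v hne
    have h : Used (g v) := ⟨v, hne, rfl⟩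
    show (if Used (g v) then _ else _) = _
    rw [if_pos h, hvx v hne]
  have hf1 : ∀ v, v ≠ v₀ → f1 (g v) = {v, β v} := by
    intro v hne
    have h : Used (g v) := ⟨v, hne, rfl⟩
    show (if Used (g v) then _ else _) = _
    rw [if_pos h, hvx v hne]
  have hf0' : ∀ i, ¬ Used i → f0 i = ∅ := fun i h => if_neg h
  have hf1' : ∀ i, ¬ Used i → f1 i = D i := fun i h => if_neg h
  have hαv : ∀ v, v ≠ v₀ → v ≠ α v := fun v hne h => by
    have := hrα v hne
    rw [← h] at this
    exact lt_irrefl _ this
  have hβv : ∀ v, v ≠ v₀ → v ≠ β v := fun v hne h => by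
    have := hrβ v hne
    rw [← h] at this
    exact lt_irrefl _ this
  have hsub : ∀ (v a : B), v ≠ v₀ → a ∈ e (g v) → ({v, a} : Finset B) ⊆ e (g v) := by
    intro v a hne ha x hx
    rcases Finset.mem_insert.1 hx with h | h
    · exact h ▸ (hv v hne).1
    · exact (Finset.mem_singleton.1 h) ▸ ha
  have hunused : ∀ i, ¬ Used i → ∀ v, v ≠ v₀ → g v ≠ i := fun i h v hne h' => h ⟨v, hne, h'⟩
  have hDe : ∀ i, symmDiff (f0 i) (f1 i) = D i := by
    intro i
    by_cases h : Used i
    · obtain ⟨v, hne, rfl⟩ := h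
      rw [hf0 v hne, hf1 v hne, ← hαβ v hne]
    · rw [hf0' i h, hf1' i h]
      exact bot_symmDiff _
  refine ⟨f0, f1, fun i => ?_, fun i => ?_, fun i => ?_, fun i => ?_, fun i => ?_, fun s => ?_, ?_⟩
  · by_cases h : Used i
    · obtain ⟨v, hne, rfl⟩ := h
      exact Or.inr (by rw [hf0 v hne, Finset.card_pair (hαv v hne)])
    · exact Or.inl (hf0' i h)
  · by_cases h : Used i
    · obtain ⟨v, hne, rfl⟩ := h
      exact Or.inr (by rw [hf1 v hne, Finset.card_pair (hβv v hne)])
    · rw [hf1' i h]
      exact hDp i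
  · by_cases h : Used i
    · obtain ⟨v, hne, rfl⟩ := h
      rw [hf0 v hne]
      exact hsub v _ hne (hα v hne)
    · rw [hf0' i h]
      exact Finset.empty_subset _
  · by_cases h : Used i
    · obtain ⟨v, hne, rfl⟩ := h
      rw [hf1 v hne]
      exact hsub v _ hne (hβ v hne)
    · rw [hf1' i h]
      exact hDs i (hunused i h)
  · show symmDiff (f0 i) (f1 i) = ∅ ∨ (symmDiff (f0 i) (f1 i)).card = 2
    rw [hDe]
    exact hDp i
  · -- every mixture is connected
    intro X hX hX'
    have main : ∀ Y : Finset B, Y.Nonempty → v₀ ∉ Y →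
        ∃ i, ∃ a ∈ (if s i then f1 i else f0 i), a ∈ Y ∧ ∃ b ∈ (if s i then f1 i else f0 i),
          b ∉ Y := by
      intro Y hY h0
      obtain ⟨v, hvY, hmin⟩ := Finset.exists_min_image Y r hY
      have hne : v ≠ v₀ := fun h => h0 (h ▸ hvY)
      refine ⟨g v, ?_⟩
      by_cases hs : s (g v) = true
      · rw [if_pos hs, hf1 v hne]
        exact ⟨v, Finset.mem_insert_self _ _, hvY, β v,
          Finset.mem_insert_of_mem (Finset.mem_singleton_self _),
          fun h => absurd (hmin _ h) (not_le.2 (hrβ v hne))⟩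
      · rw [if_neg hs, hf0 v hne]
        exact ⟨v, Finset.mem_insert_self _ _, hvY, α v,
          Finset.mem_insert_of_mem (Finset.mem_singleton_self _),
          fun h => absurd (hmin _ h) (not_le.2 (hrα v hne))⟩
    by_cases h0 : v₀ ∈ X
    · have h1 : (univ \ X).Nonempty := by
        rw [Finset.sdiff_nonempty]
        exact fun h => hX' (Finset.eq_univ_iff_forall.2 fun x => h (Finset.mem_univ x))
      obtain ⟨i, a, ha, haY, b, hb, hbY⟩ := main (univ \ X) h1 (by simp [h0])
      refine ⟨i, ⟨b, hb, ?_⟩, a, ha, (Finset.mem_sdiff.1 haY).2⟩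
      by_contra hbX
      exact hbY (Finset.mem_sdiff.2 ⟨Finset.mem_univ _, hbX⟩)
    · obtain ⟨i, a, ha, haY, b, hb, hbY⟩ := main X hX h0
      exact ⟨i, ⟨a, ha, haY⟩, b, hb, hbY⟩
  · intro X hX hX'
    obtain ⟨i, hi⟩ := hDc X hX hX'
    refine ⟨i, ?_⟩
    show Crosses (symmDiff (f0 i) (f1 i)) X
    rw [hDe]
    exact hi

/-! ### The merging version -/

omit [Fintype B] [Fintype I] in
theorem ftree_conn (f0 f1 : I → Finset B) (s : I → Bool) (A : Finset B) (T : Finset I)
    (h : FTree f0 f1 A T) : ∀ X : Finset B, (∃ a ∈ A, a ∈ X) → (∃ a ∈ A, a ∉ X) →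
      ∃ i ∈ T, Crosses (if s i then f1 i else f0 i) X := by
  induction h with
  | single v =>
    rintro X ⟨a, ha, haX⟩ ⟨b, hb, hbX⟩
    rw [Finset.mem_singleton] at ha hb
    exact absurd (ha ▸ haX) (hb ▸ hbX)
  | join A A' T T' i a b c _ _ _ _ _ _ ha hb hc h0 h1 ih1 ih2 =>
    rintro X ⟨x, hx, hxX⟩ ⟨y, hy, hyX⟩
    by_cases hA : (∃ a ∈ A, a ∈ X) ∧ ∃ a ∈ A, a ∉ X
    · obtain ⟨j, hj, hj'⟩ := ih1 X hA.1 hA.2
      exact ⟨j, Finset.mem_insert_of_mem (Finset.mem_union_left _ hj), hj'⟩
    by_cases hA' : (∃ a ∈ A', a ∈ X) ∧ ∃ a ∈ A', a ∉ X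
    · obtain ⟨j, hj, hj'⟩ := ih2 X hA'.1 hA'.2
      exact ⟨j, Finset.mem_insert_of_mem (Finset.mem_union_right _ hj), hj'⟩
    -- `A` and `A'` are on different sides
    refine ⟨i, Finset.mem_insert_self _ _, ?_⟩
    have hA1 : ∀ p ∈ A, ∀ q ∈ A, p ∈ X → q ∈ X := by
      intro p hp q hq hpX
      by_contra hqX
      exact hA ⟨⟨p, hp, hpX⟩, q, hq, hqX⟩
    have hA2 : ∀ p ∈ A', ∀ q ∈ A', p ∈ X → q ∈ X := by
      intro p hp q hq hpX
      by_contra hqX
      exact hA' ⟨⟨p, hp, hpX⟩, q, hq, hqX⟩
    have hd : (a ∈ X ∧ b ∉ X ∧ c ∉ X) ∨ (a ∉ X ∧ b ∈ X ∧ c ∈ X) := by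
      rcases Finset.mem_union.1 hx with hx | hx
      · have haX := hA1 x hx a ha hxX
        rcases Finset.mem_union.1 hy with hy | hy
        · exact absurd (hA1 x hx y hy hxX) hyX
        · exact Or.inl ⟨haX, fun h => hyX (hA2 b hb y hy h), fun h => hyX (hA2 c hc y hy h)⟩
      · have hbX := hA2 x hx b hb hxX
        have hcX := hA2 x hx c hc hxX
        rcases Finset.mem_union.1 hy with hy | hy
        · exact Or.inr ⟨fun h => hyX (hA1 a ha y hy h), hbX, hcX⟩
        · exact absurd (hA2 x hx y hy hxX) hyX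
    have h2 : (if s i then f1 i else f0 i) = if s i then {a, c} else {a, b} := by rw [h0, h1]
    rw [h2]
    rcases hd with ⟨h3, h4, h5⟩ | ⟨h3, h4, h5⟩
    · split_ifs
      · exact ⟨⟨a, Finset.mem_insert_self _ _, h3⟩, c,
          Finset.mem_insert_of_mem (Finset.mem_singleton_self _), h5⟩
      · exact ⟨⟨a, Finset.mem_insert_self _ _, h3⟩, b,
          Finset.mem_insert_of_mem (Finset.mem_singleton_self _), h4⟩
    · split_ifs
      · exact ⟨⟨c, Finset.mem_insert_of_mem (Finset.mem_singleton_self _), h5⟩, a,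
          Finset.mem_insert_self _ _, h3⟩
      · exact ⟨⟨b, Finset.mem_insert_of_mem (Finset.mem_singleton_self _), h4⟩, a,
          Finset.mem_insert_self _ _, h3⟩

omit [Fintype B] [Fintype I] in
theorem ftree_symm (f0 f1 : I → Finset B) (A : Finset B) (T : Finset I)
    (h : FTree f0 f1 A T) : ∀ i ∈ T, symmDiff (f0 i) (f1 i) = ∅ ∨
      (symmDiff (f0 i) (f1 i)).card = 2 := by
  induction h with
  | single v =>
    intro i hi
    exact absurd hi (Finset.notMem_empty _)
  | join A A' T T' i a b c _ _ hd _ _ _ ha hb hc h0 h1 ih1 ih2 =>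
    intro j hj
    rcases Finset.mem_insert.1 hj with rfl | hj
    · rw [h0, h1]
      have hab : a ≠ b := fun h => Finset.disjoint_left.1 hd ha (h ▸ hb)
      have hac : a ≠ c := fun h => Finset.disjoint_left.1 hd ha (h ▸ hc)
      by_cases hbc : b = c
      · left
        rw [hbc, symmDiff_self]
        rfl
      · right
        have : symmDiff ({a, b} : Finset B) {a, c} = {b, c} := by
          ext x
          simp only [Finset.mem_symmDiff, Finset.mem_insert, Finset.mem_singleton]
          constructor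
          · rintro (⟨h | h, h'⟩ | ⟨h | h, h'⟩)
            · exact absurd (Or.inl h) h'
            · exact Or.inl h
            · exact absurd (Or.inl h) h'
            · exact Or.inr h
          · rintro (rfl | rfl)
            · exact Or.inl ⟨Or.inr rfl, by rintro (h | h); exacts [hab h.symm, hbc h]⟩
            · exact Or.inr ⟨Or.inr rfl, by rintro (h | h); exacts [hac h.symm, hbc h.symm]⟩
        rw [this, Finset.card_pair hbc]
    · rcases Finset.mem_union.1 hj with hj | hj
      · exact ih1 j hj
      · exact ih2 j hj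

omit [Fintype I] in
theorem gcert_of_certM (e : I → Finset B) (h : CertM e) : GCert e := by
  obtain ⟨f0, f1, T, hT, hp0, hp1, hs0, hs1, hun, hDc⟩ := h
  refine ⟨f0, f1, hp0, hp1, hs0, hs1, fun i => ?_, fun s X hX hX' => ?_, hDc⟩
  · by_cases hi : i ∈ T
    · exact ftree_symm f0 f1 _ T hT i hi
    · simp only [hun i hi]
      have h1 : symmDiff (∅ : Finset B) (f1 i) = f1 i := bot_symmDiff _
      rw [h1]
      exact hp1 i
  · obtain ⟨i, -, hi⟩ := ftree_conn f0 f1 s _ T hT X
      (by obtain ⟨x, hx⟩ := hX; exact ⟨x, Finset.mem_univ _, hx⟩)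
      (by
        by_contra h
        push Not at h
        exact hX' (Finset.eq_univ_iff_forall.2 fun x => h x (Finset.mem_univ _)))
    exact ⟨i, hi⟩

end Kx

theorem rowk : RowK := by
  refine ⟨fun h B I _ _ e he h4 => ?_, fun h B I _ _ _ e he h4 => ?_, fun h B I _ _ _ e he h4 => ?_⟩
  · rcases isEmpty_or_nonempty B with hB | hB
    · refine ⟨fun _ => ∅, fun i => ⟨Finset.empty_subset _, Or.inl rfl⟩, fun K => isEmptyElim K,
        fun X _ hX _ => ?_⟩
      obtain ⟨x, -⟩ := hX
      exact isEmptyElim x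
    · exact Kx.evenConn e (h B I e he h4)
  · exact Kx.gcert_of_cert e (h B I e he (Kx.kcond e h4))
  · exact Kx.gcert_of_certM e (h B I e he (Kx.kcond e h4))

end Pool.Agent.ClawHam
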