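import Pool.Agent.Lib.MP_e2dbb5_co.AG2
import Pool.Agent.Lib.MP_e2dbb5_co.K

/-!
# The algebraic certificate gives connected choices with all parities (helper69, row K'')

`AlgC e`: some product of blocks, one for every hyperedge, has an odd top coefficient.
-/

set_option autoImplicit false
set_option linter.unusedSectionVars false

open Finset MvPolynomial

noncomputable section

namespace Pool.Agent.ClawHam

open Classical

/-- polynomials in the variables `t_v = (v, false)` and `q_v = (v, true)` -/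
abbrev Ply (B : Type) : Type := MvPolynomial (B × Bool) (ZMod 2)

/-- `t_a + t_b` -/
def tt {B : Type} (a b : B) : Ply B := X (a, false) + X (b, false)

/-- `q_a + q_b` -/
def qq {B : Type} (a b : B) : Ply B := X (a, true) + X (b, true)

/-- the blocks of a hyperedge -/
inductive Block {B : Type} (e : Finset B) : Ply B → Prop
  | one : Block e 1
  | t (a b : B) : a ∈ e → b ∈ e → Block e (tt a b)
  | q (a b : B) : a ∈ e → b ∈ e → Block e (qq a b)
  | beta (a b c : B) : a ∈ e → b ∈ e → c ∈ e → Block e (tt a b * qq b c + tt b c * qq a b)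
  | pl (a b c : B) : a ∈ e → b ∈ e → c ∈ e → Block e (qq a b * qq b c)

/-- the monomial `∏ t_v q_v`, `v ≠ r` -/
def topM {B : Type} [Fintype B] (r : B) : (B × Bool) →₀ ℕ :=
  AG.sqf (univ.filter fun x : B × Bool => x.1 ≠ r)

/-- the algebraic certificate -/
def AlgC {B I : Type} [Fintype B] [Fintype I] (e : I → Finset B) : Prop :=
  ∃ (r : B) (g : I → Ply B), (∀ i, Block (e i) (g i)) ∧ coeff (topM r) (∏ i, g i) ≠ 0

namespace AG

/-- the data of a block -/
inductive BD (B : Type) : Type
  | one : BD B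
  | t (a b : B) : BD B
  | q (a b : B) : BD B
  | beta (a b c : B) : BD B
  | pl (a b c : B) : BD B

namespace BD

variable {B : Type}

/-- the polynomial -/
def poly : BD B → Ply B
  | one => 1
  | t a b => tt a b
  | q a b => qq a b
  | beta a b c => tt a b * qq b c + tt b c * qq a b
  | pl a b c => qq a b * qq b c

/-- the vertices of the block belong to `e` -/
def inn (e : Finset B) : BD B → Prop
  | one => True
  | t a b => a ∈ e ∧ b ∈ e
  | q a b => a ∈ e ∧ b ∈ e
  | beta a b c => a ∈ e ∧ b ∈ e ∧ c ∈ e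
  | pl a b c => a ∈ e ∧ b ∈ e ∧ c ∈ e

/-- kinds -/
def isJ : BD B → Prop
  | beta _ _ _ => True
  | _ => False

/-- kinds -/
def isT : BD B → Prop
  | t _ _ => True
  | _ => False

/-- kinds -/
def isQ : BD B → Prop
  | q _ _ => True
  | _ => False

/-- kinds -/
def isP : BD B → Prop
  | pl _ _ _ => True
  | _ => False

/-- first vertex -/
def va (r : B) : BD B → B
  | one => r
  | t a _ => a
  | q a _ => a
  | beta a _ _ => a
  | pl a _ _ => a

/-- second vertex -/
def vb (r : B) : BD B → B
  | one => r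
  | t _ b => b
  | q _ b => b
  | beta _ b _ => b
  | pl _ b _ => b

/-- third vertex -/
def vc (r : B) : BD B → B
  | one => r
  | t _ _ => r
  | q _ _ => r
  | beta _ _ c => c
  | pl _ _ c => c

/-- the three pairs -/
def pr (r : B) (d : BD B) : Fin 3 → B × B
  | 0 => (d.va r, d.vb r)
  | 1 => (d.vb r, d.vc r)
  | 2 => (d.vc r, d.va r)

end BD

variable {B I : Type} [Fintype B] [Fintype I]

theorem block_data {e : Finset B} {P : Ply B} (h : Block e P) : ∃ d : BD B, d.inn e ∧ d.poly = P := by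
  cases h with
  | one => exact ⟨BD.one, trivial, rfl⟩
  | t a b ha hb => exact ⟨BD.t a b, ⟨ha, hb⟩, rfl⟩
  | q a b ha hb => exact ⟨BD.q a b, ⟨ha, hb⟩, rfl⟩
  | beta a b c ha hb hc => exact ⟨BD.beta a b c, ⟨ha, hb, hc⟩, rfl⟩
  | pl a b c ha hb hc => exact ⟨BD.pl a b c, ⟨ha, hb, hc⟩, rfl⟩

/-- the vector of a pair -/
def vec (p : B × B) : B → ZMod 2 := fun v => (if v = p.1 then 1 else 0) + if v = p.2 then 1 else 0

/-- in the first world -/
def tvec (w : B → ZMod 2) : B × Bool → ZMod 2 := fun x => if x.2 = false then w x.1 else 0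

/-- in the second world -/
def qvec (w : B → ZMod 2) : B × Bool → ZMod 2 := fun x => if x.2 = true then w x.1 else 0

theorem lin_add {σ : Type} [Fintype σ] (m m' : σ → ZMod 2) : lin (m + m') = lin m + lin m' := by
  unfold lin
  rw [← Finset.sum_add_distrib]
  refine Finset.sum_congr rfl fun x _ => ?_
  rw [Pi.add_apply, C_add, add_mul]

theorem lin_single {σ : Type} [Fintype σ] [DecidableEq σ] (x : σ) :
    lin (Pi.single x 1 : σ → ZMod 2) = X x := by
  unfold lin
  rw [Finset.sum_eq_single x]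
  · rw [Pi.single_eq_same, C_1, one_mul]
  · intro y _ hy
    rw [Pi.single_eq_of_ne hy, C_0, zero_mul]
  · intro h
    exact absurd (mem_univ x) h

theorem lin_tvec (p : B × B) : lin (tvec (vec p)) = tt p.1 p.2 := by
  have h : tvec (vec p) = Pi.single (p.1, false) 1 + Pi.single (p.2, false) 1 := by
    funext x
    obtain ⟨v, b⟩ := x
    simp only [tvec, vec, Pi.add_apply, Pi.single_apply, Prod.mk.injEq]
    cases b <;> simp
  rw [h, lin_add, lin_single, lin_single]
  rfl

theorem lin_qvec (p : B × B) : lin (qvec (vec p)) = qq p.1 p.2 := by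
  have h : qvec (vec p) = Pi.single (p.1, true) 1 + Pi.single (p.2, true) 1 := by
    funext x
    obtain ⟨v, b⟩ := x
    simp only [qvec, vec, Pi.add_apply, Pi.single_apply, Prod.mk.injEq]
    cases b <;> simp
  rw [h, lin_add, lin_single, lin_single]
  rfl

theorem char2 (x : Ply B) : x + x = 0 := CharTwo.add_self_eq_zero x

theorem beta_eq (a b c : B) : (tt a b * qq b c + tt b c * qq a b : Ply B) =
    tt a b * qq a b + tt b c * qq b c + tt c a * qq c a := by
  have h1 : (tt c a : Ply B) = tt a b + tt b c := by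
    unfold tt
    linear_combination -(char2 (X (b, false) : Ply B))
  have h2 : (qq c a : Ply B) = qq a b + qq b c := by
    unfold qq
    linear_combination -(char2 (X (b, true) : Ply B))
  rw [h1, h2]
  linear_combination -(char2 (tt a b * qq a b : Ply B)) - (char2 (tt b c * qq b c : Ply B))

theorem prod_kind {M : Type} [CommMonoid M] (p : I → Prop) (f : I → M) :
    ∏ i, (if p i then f i else 1) = ∏ i : {i // p i}, f i := by
  rw [← Finset.prod_filter]
  exact Finset.prod_subtype _ (fun x => by simp) _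

theorem sum_kind {M : Type} [AddCommMonoid M] (p : I → Prop) (f : I → M) :
    ∑ i, (if p i then f i else 0) = ∑ i : {i // p i}, f i := by
  rw [← Finset.sum_filter]
  exact Finset.sum_subtype _ (fun x => by simp) _

section main

variable (r : B) (d : I → BD B)

/-- the hyperedges of a kind -/
abbrev JJ : Type := {i : I // (d i).isJ}
/-- the hyperedges of a kind -/
abbrev CC : Type := {i : I // (d i).isT}
/-- the hyperedges of a kind -/
abbrev QT : Type := {i : I // (d i).isQ}
/-- the hyperedges of a kind -/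
abbrev PP : Type := {i : I // (d i).isP}

/-- the toggles -/
abbrev TT : Type := QT d ⊕ (PP d × Bool)

/-- the pair of a toggle -/
def tog : TT d → B × B
  | Sum.inl i => ((d i.1).va r, (d i.1).vb r)
  | Sum.inr (i, false) => ((d i.1).va r, (d i.1).vb r)
  | Sum.inr (i, true) => ((d i.1).vb r, (d i.1).vc r)

/-- rows of the first world -/
def rowsT (s : JJ d → Fin 3) : JJ d ⊕ CC d → B → ZMod 2 :=
  Sum.elim (fun e => vec ((d e.1).pr r (s e))) (fun c => vec ((d c.1).va r, (d c.1).vb r))

/-- rows of the second world -/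
def rowsQ (s : JJ d → Fin 3) : JJ d ⊕ TT d → B → ZMod 2 :=
  Sum.elim (fun e => vec ((d e.1).pr r (s e))) (fun c => vec (tog r d c))

/-- all rows -/
def rows (s : JJ d → Fin 3) : (JJ d ⊕ CC d) ⊕ (JJ d ⊕ TT d) → B × Bool → ZMod 2 :=
  Sum.elim (fun k => tvec (rowsT r d s k)) (fun k => qvec (rowsQ r d s k))

theorem poly_eq (i : I) : (d i).poly =
    (if (d i).isJ then ∑ k, tt ((d i).pr r k).1 ((d i).pr r k).2 *
      qq ((d i).pr r k).1 ((d i).pr r k).2 else 1) *
    (if (d i).isT then tt ((d i).va r) ((d i).vb r) else 1) *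
    ((if (d i).isQ then qq ((d i).va r) ((d i).vb r) else 1) *
    (if (d i).isP then qq ((d i).va r) ((d i).vb r) * qq ((d i).vb r) ((d i).vc r) else 1)) := by
  cases h : d i with
  | one => simp [BD.poly, BD.isJ, BD.isT, BD.isQ, BD.isP]
  | t a b => simp [BD.poly, BD.isJ, BD.isT, BD.isQ, BD.isP, BD.va, BD.vb]
  | q a b => simp [BD.poly, BD.isJ, BD.isT, BD.isQ, BD.isP, BD.va, BD.vb]
  | beta a b c =>
    rw [if_pos (show BD.isJ (BD.beta a b c) from trivial),
      if_neg (show ¬ BD.isT (BD.beta a b c) from id), if_neg (show ¬ BD.isQ (BD.beta a b c) from id),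
      if_neg (show ¬ BD.isP (BD.beta a b c) from id), mul_one, mul_one, mul_one,
      Fin.sum_univ_three]
    exact beta_eq a b c
  | pl a b c => simp [BD.poly, BD.isJ, BD.isT, BD.isQ, BD.isP, BD.va, BD.vb, BD.vc]

theorem prod_poly : ∏ i, (d i).poly = ∑ s : JJ d → Fin 3, ∏ k, lin (rows r d s k) := by
  have h1 : ∏ i, (d i).poly =
      (∏ i : JJ d, ∑ k, tt ((d i.1).pr r k).1 ((d i.1).pr r k).2 *
        qq ((d i.1).pr r k).1 ((d i.1).pr r k).2) *
      (∏ i : CC d, tt ((d i.1).va r) ((d i.1).vb r)) *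
      ((∏ i : QT d, qq ((d i.1).va r) ((d i.1).vb r)) *
      (∏ i : PP d, qq ((d i.1).va r) ((d i.1).vb r) * qq ((d i.1).vb r) ((d i.1).vc r))) := by
    rw [← prod_kind (fun i => (d i).isJ) (fun i => ∑ k, tt ((d i).pr r k).1 ((d i).pr r k).2 *
        qq ((d i).pr r k).1 ((d i).pr r k).2),
      ← prod_kind (fun i => (d i).isT) (fun i => tt ((d i).va r) ((d i).vb r)),
      ← prod_kind (fun i => (d i).isQ) (fun i => qq ((d i).va r) ((d i).vb r)),
      ← prod_kind (fun i => (d i).isP)
        (fun i => qq ((d i).va r) ((d i).vb r) * qq ((d i).vb r) ((d i).vc r)),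
      ← Finset.prod_mul_distrib, ← Finset.prod_mul_distrib, ← Finset.prod_mul_distrib]
    exact Finset.prod_congr rfl fun i _ => poly_eq r d i
  have h2 := Finset.prod_univ_sum (fun _ : JJ d => (univ : Finset (Fin 3)))
    (fun i k => (tt ((d i.1).pr r k).1 ((d i.1).pr r k).2 *
        qq ((d i.1).pr r k).1 ((d i.1).pr r k).2 : Ply B))
  rw [Fintype.piFinset_univ] at h2
  rw [h1, h2, Finset.sum_mul, Finset.sum_mul]
  refine Finset.sum_congr rfl fun s _ => ?_
  rw [Finset.prod_mul_distrib, Fintype.prod_sum_type, Fintype.prod_sum_type,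
    Fintype.prod_sum_type, Fintype.prod_sum_type, Fintype.prod_prod_type]
  have h3 : ∀ i : JJ d, lin (rows r d s (Sum.inl (Sum.inl i))) =
      tt ((d i.1).pr r (s i)).1 ((d i.1).pr r (s i)).2 := fun i => lin_tvec _
  have h4 : ∀ i : CC d, lin (rows r d s (Sum.inl (Sum.inr i))) =
      tt ((d i.1).va r) ((d i.1).vb r) := fun i => lin_tvec _
  have h5 : ∀ i : JJ d, lin (rows r d s (Sum.inr (Sum.inl i))) =
      qq ((d i.1).pr r (s i)).1 ((d i.1).pr r (s i)).2 := fun i => lin_qvec _
  have h6 : ∀ i : QT d, lin (rows r d s (Sum.inr (Sum.inr (Sum.inl i)))) =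
      qq ((d i.1).va r) ((d i.1).vb r) := fun i => lin_qvec _
  have h7 : ∀ (i : PP d), ∏ b, lin (rows r d s (Sum.inr (Sum.inr (Sum.inr (i, b))))) =
      qq ((d i.1).va r) ((d i.1).vb r) * qq ((d i.1).vb r) ((d i.1).vc r) := by
    intro i
    rw [Fintype.prod_bool, mul_comm]
    exact congrArg₂ (· * ·) (lin_qvec _) (lin_qvec _)
  simp only [h3, h4, h5, h6, h7]
  ring

/-- the vertices different from the root -/
abbrev VV : Type := {v : B // v ≠ r}

/-- the vectors of the full triples -/
def uu : JJ d → Fin 3 → VV r → ZMod 2 := fun e k v => vec ((d e.1).pr r k) v.1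

/-- the fixed vectors of the first world -/
def aa : CC d → VV r → ZMod 2 := fun c v => vec ((d c.1).va r, (d c.1).vb r) v.1

/-- the toggles as vectors -/
def bb : TT d → VV r → ZMod 2 := fun t v => vec (tog r d t) v.1

theorem uu_sum (e : JJ d) (v : VV r) : ∑ k, uu r d e k v = 0 := by
  rw [Fin.sum_univ_three]
  change vec ((d e.1).va r, (d e.1).vb r) v.1 + vec ((d e.1).vb r, (d e.1).vc r) v.1 +
    vec ((d e.1).vc r, (d e.1).va r) v.1 = 0
  unfold vec
  generalize (if v.1 = (d e.1).va r then (1 : ZMod 2) else 0) = x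
  generalize (if v.1 = (d e.1).vb r then (1 : ZMod 2) else 0) = y
  generalize (if v.1 = (d e.1).vc r then (1 : ZMod 2) else 0) = z
  revert x y z
  decide

theorem tvec_ne {w : B → ZMod 2} {x : B × Bool} (h : tvec w x ≠ 0) : x.2 = false := by
  by_contra h2
  exact h (if_neg h2)

theorem qvec_ne {w : B → ZMod 2} {x : B × Bool} (h : qvec w x ≠ 0) : x.2 = true := by
  by_contra h2
  exact h (if_neg h2)

/-- the bijections with the vertices -/
theorem exists_equiv (s : JJ d → Fin 3)
    (h : coeff (topM r) (∏ k, lin (rows r d s k)) ≠ 0) :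
    Nonempty (JJ d ⊕ CC d ≃ VV r) ∧ Nonempty (JJ d ⊕ TT d ≃ VV r) := by
  obtain ⟨φ, hφ, him, hne⟩ := exists_of_coeff _ _ h
  have hr : ∀ k, (φ k).1 ≠ r := by
    intro k
    exact (Finset.mem_filter.1 ((him _).2 ⟨k, rfl⟩)).2
  have hl : ∀ k, (φ (Sum.inl k)).2 = false := fun k => tvec_ne (hne (Sum.inl k))
  have hq : ∀ k, (φ (Sum.inr k)).2 = true := fun k => qvec_ne (hne (Sum.inr k))
  have hsurj : ∀ x : B × Bool, x.1 ≠ r → ∃ k, φ k = x := by
    intro x hx
    exact (him _).1 (Finset.mem_filter.2 ⟨mem_univ _, hx⟩)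
  constructor
  · refine ⟨Equiv.ofBijective (fun k => ⟨(φ (Sum.inl k)).1, hr _⟩) ⟨fun k k' hk => ?_, fun v => ?_⟩⟩
    · have h1 : (φ (Sum.inl k)).1 = (φ (Sum.inl k')).1 := congrArg Subtype.val hk
      exact Sum.inl_injective (hφ (Prod.ext h1 ((hl k).trans (hl k').symm)))
    · obtain ⟨k, hk⟩ := hsurj (v.1, false) v.2
      rcases k with k | k
      · exact ⟨k, Subtype.ext (congrArg Prod.fst hk)⟩
      · have h1 := hq k
        rw [hk] at h1
        exact absurd h1 (by simp)
  · refine ⟨Equiv.ofBijective (fun k => ⟨(φ (Sum.inr k)).1, hr _⟩) ⟨fun k k' hk => ?_, fun v => ?_⟩⟩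
    · have h1 : (φ (Sum.inr k)).1 = (φ (Sum.inr k')).1 := congrArg Subtype.val hk
      exact Sum.inr_injective (hφ (Prod.ext h1 ((hq k).trans (hq k').symm)))
    · obtain ⟨k, hk⟩ := hsurj (v.1, true) v.2
      rcases k with k | k
      · have h1 := hl k
        rw [hk] at h1
        exact absurd h1 (by simp)
      · exact ⟨k, Subtype.ext (congrArg Prod.fst hk)⟩

theorem coeff_rows (E1 : JJ d ⊕ CC d ≃ VV r) (E2 : JJ d ⊕ TT d ≃ VV r) (s : JJ d → Fin 3) :
    coeff (topM r) (∏ k, lin (rows r d s k)) =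
      dmat (uu r d) (aa r d) E1 s * dmat (uu r d) (bb r d) E2 s := by
  let E : (JJ d ⊕ CC d) ⊕ (JJ d ⊕ TT d) → B × Bool :=
    Sum.elim (fun k => ((E1 k).1, false)) (fun k => ((E2 k).1, true))
  have hE : Function.Injective E := by
    rintro (k | k) (l | l) h
    · have h1 : (E1 k).1 = (E1 l).1 := congrArg Prod.fst h
      rw [E1.injective (Subtype.ext h1)]
    · exact absurd (congrArg Prod.snd h) (by simp [E])
    · exact absurd (congrArg Prod.snd h) (by simp [E])
    · have h1 : (E2 k).1 = (E2 l).1 := congrArg Prod.fst h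
      rw [E2.injective (Subtype.ext h1)]
  have hS : ∀ x, x ∈ (univ.filter fun x : B × Bool => x.1 ≠ r) ↔ ∃ k, E k = x := by
    intro x
    simp only [mem_univ, true_and, Finset.mem_filter]
    constructor
    · intro hx
      obtain ⟨v, b⟩ := x
      cases b with
      | false => exact ⟨Sum.inl (E1.symm ⟨v, hx⟩), by simp [E]⟩
      | true => exact ⟨Sum.inr (E2.symm ⟨v, hx⟩), by simp [E]⟩
    · rintro ⟨k, rfl⟩
      rcases k with k | k
      · exact (E1 k).2
      · exact (E2 k).2
  unfold topM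
  rw [coeff_eq_det' _ _ E hE hS]
  have h1 : (Matrix.of fun k l => rows r d s k (E l)) =
      Matrix.fromBlocks (mat (uu r d) (aa r d) E1 s) 0 0 (mat (uu r d) (bb r d) E2 s) := by
    ext k l
    rcases k with k | k <;> rcases l with l | l
    · rw [Matrix.fromBlocks_apply₁₁]
      change tvec (rowsT r d s k) ((E1 l).1, false) = _
      unfold tvec
      rw [if_pos rfl]
      rcases k with k | k <;> rfl
    · rw [Matrix.fromBlocks_apply₁₂]
      rfl
    · rw [Matrix.fromBlocks_apply₂₁]
      rfl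
    · rw [Matrix.fromBlocks_apply₂₂]
      change qvec (rowsQ r d s k) ((E2 l).1, true) = _
      unfold qvec
      rw [if_pos rfl]
      rcases k with k | k <;> rfl
  exact det_two _ _ _ E1 E2 s _ h1

/-- the odd count -/
theorem odd_count (h : coeff (topM r) (∏ i, (d i).poly) ≠ 0) :
    ∃ (E1 : JJ d ⊕ CC d ≃ VV r) (E2 : JJ d ⊕ TT d ≃ VV r),
      cnt (uu r d) (aa r d) (bb r d) E1 E2 ≠ 0 := by
  rw [prod_poly, coeff_sum] at h
  obtain ⟨s, -, hs⟩ := Finset.exists_ne_zero_of_sum_ne_zero h
  obtain ⟨⟨E1⟩, ⟨E2⟩⟩ := exists_equiv r d s hs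
  refine ⟨E1, E2, ?_⟩
  simp only [coeff_rows r d E1 E2] at h
  rw [cnt_eq (uu r d) (aa r d) (bb r d) E1 E2 univ mem_univ]
  exact h

/-- a pair, or nothing -/
def pset (p : B × B) : Finset B := if p.1 = p.2 then ∅ else {p.1, p.2}

theorem pset_card (p : B × B) : pset p = ∅ ∨ (pset p).card = 2 := by
  unfold pset
  split_ifs with h
  · exact Or.inl rfl
  · exact Or.inr (Finset.card_pair h)

theorem pset_vec (p : B × B) (v : B) : (if v ∈ pset p then (1 : ZMod 2) else 0) = vec p v := by
  unfold pset vec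
  by_cases h : p.1 = p.2
  · rw [if_pos h, h, if_neg (Finset.notMem_empty v)]
    exact (CharTwo.add_self_eq_zero _).symm
  · rw [if_neg h]
    by_cases h1 : v = p.1
    · have h2 : v ≠ p.2 := fun h3 => h (h1.symm.trans h3)
      rw [if_pos (by rw [h1]; simp), if_pos h1, if_neg h2, add_zero]
    · by_cases h2 : v = p.2
      · rw [if_pos (by rw [h2]; simp), if_neg h1, if_pos h2, zero_add]
      · rw [if_neg (by simp [h1, h2]), if_neg h1, if_neg h2, zero_add]

theorem pset_subset {e : Finset B} {p : B × B} (h1 : p.1 ∈ e) (h2 : p.2 ∈ e) : pset p ⊆ e := by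
  unfold pset
  split_ifs
  · exact Finset.empty_subset e
  · intro x hx
    rcases Finset.mem_insert.1 hx with h | h
    · rw [h]; exact h1
    · rw [Finset.mem_singleton.1 h]; exact h2

theorem vec_zero_of_not_crosses {p : B × B} {X : Finset B} (h : ¬ Crosses (pset p) X) :
    ∑ v ∈ X, vec p v = 0 := by
  by_cases hp : p.1 = p.2
  · refine Finset.sum_eq_zero fun v _ => ?_
    unfold vec
    rw [hp]
    exact CharTwo.add_self_eq_zero _
  · have h1 : ∑ v ∈ X, vec p v = (if p.1 ∈ X then 1 else 0) + if p.2 ∈ X then 1 else 0 := by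
      unfold vec
      rw [Finset.sum_add_distrib, Finset.sum_ite_eq' X p.1 (fun _ => (1 : ZMod 2)),
        Finset.sum_ite_eq' X p.2 (fun _ => (1 : ZMod 2))]
    rw [h1]
    have h2 : p.1 ∈ pset p := by unfold pset; rw [if_neg hp]; simp
    have h3 : p.2 ∈ pset p := by unfold pset; rw [if_neg hp]; simp
    by_cases h4 : p.1 ∈ X
    · by_cases h5 : p.2 ∈ X
      · rw [if_pos h4, if_pos h5]
        decide
      · exact absurd ⟨⟨p.1, h2, h4⟩, p.2, h3, h5⟩ h
    · by_cases h5 : p.2 ∈ X
      · exact absurd ⟨⟨p.2, h3, h5⟩, p.1, h2, h4⟩ h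
      · rw [if_neg h4, if_neg h5, add_zero]

theorem sum_dkind {M : Type} [AddCommMonoid M] (p : I → Prop) (f : {i // p i} → M) :
    ∑ i, (if h : p i then f ⟨i, h⟩ else 0) = ∑ i, f i := by
  have h2 := sum_kind p (fun i => if h : p i then f ⟨i, h⟩ else 0)
  have h3 : ∑ i : {i // p i}, (if h : p i.1 then f ⟨i.1, h⟩ else 0) = ∑ i, f i :=
    Finset.sum_congr rfl fun i _ => dif_pos i.2
  rw [← h3, ← h2]
  refine Finset.sum_congr rfl fun i _ => ?_
  by_cases h : p i
  · rw [if_pos h]
  · rw [if_neg h, dif_neg h]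

/-- the choice in an unused triple -/
def comb (x y : ZMod 2) (a b c : B) : Finset B :=
  if x = 0 then (if y = 0 then ∅ else pset (b, c)) else if y = 0 then pset (a, b) else pset (a, c)

theorem comb_vec (x y : ZMod 2) (a b c v : B) : (if v ∈ comb x y a b c then (1 : ZMod 2) else 0) =
    x * vec (a, b) v + y * vec (b, c) v := by
  have hx : x = 0 ∨ x = 1 := by revert x; decide
  have hy : y = 0 ∨ y = 1 := by revert y; decide
  have h10 : (1 : ZMod 2) ≠ 0 := one_ne_zero
  unfold comb
  rcases hx with rfl | rfl <;> rcases hy with rfl | rfl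
  · rw [if_pos rfl, if_pos rfl, if_neg (Finset.notMem_empty v)]
    ring
  · rw [if_pos rfl, if_neg h10, pset_vec]
    ring
  · rw [if_neg h10, if_pos rfl, pset_vec]
    ring
  · rw [if_neg h10, if_neg h10, pset_vec]
    unfold vec
    generalize (if v = (a, b).1 then (1 : ZMod 2) else 0) = p
    generalize (if v = (a, b).2 then (1 : ZMod 2) else 0) = q
    generalize (if v = (b, c).2 then (1 : ZMod 2) else 0) = w
    revert p q w
    decide

theorem comb_card (x y : ZMod 2) (a b c : B) :
    comb x y a b c = ∅ ∨ (comb x y a b c).card = 2 := by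
  unfold comb
  split_ifs
  · exact Or.inl rfl
  · exact pset_card _
  · exact pset_card _
  · exact pset_card _

theorem comb_subset (x y : ZMod 2) {a b c : B} {e : Finset B} (ha : a ∈ e) (hb : b ∈ e)
    (hc : c ∈ e) : comb x y a b c ⊆ e := by
  unfold comb
  split_ifs
  · exact Finset.empty_subset e
  · exact pset_subset hb hc
  · exact pset_subset ha hb
  · exact pset_subset ha hc

/-- the choice -/
def cho (s : JJ d → Fin 3) (x : TT d → ZMod 2) (i : I) : Finset B :=
  if h : (d i).isJ then pset ((d i).pr r (s ⟨i, h⟩))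
  else if (d i).isT then pset ((d i).va r, (d i).vb r)
  else if h : (d i).isQ then comb (x (Sum.inl ⟨i, h⟩)) 0 ((d i).va r) ((d i).vb r) ((d i).vb r)
  else if h : (d i).isP then comb (x (Sum.inr (⟨i, h⟩, false))) (x (Sum.inr (⟨i, h⟩, true)))
    ((d i).va r) ((d i).vb r) ((d i).vc r)
  else ∅

theorem cho_card (s : JJ d → Fin 3) (x : TT d → ZMod 2) (i : I) :
    cho r d s x i = ∅ ∨ (cho r d s x i).card = 2 := by
  unfold cho
  split_ifs
  · exact pset_card _
  · exact pset_card _
  · exact comb_card _ _ _ _ _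
  · exact comb_card _ _ _ _ _
  · exact Or.inl rfl

theorem cho_subset (s : JJ d → Fin 3) (x : TT d → ZMod 2) (i : I) (e : Finset B)
    (h : (d i).inn e) : cho r d s x i ⊆ e := by
  unfold cho
  split_ifs with h1 h2 h3 h4
  · generalize s ⟨i, h1⟩ = k
    cases hd : d i with
    | beta a b c =>
      rw [hd] at h
      obtain ⟨ha, hb, hc⟩ := h
      match k with
      | 0 => exact pset_subset ha hb
      | 1 => exact pset_subset hb hc
      | 2 => exact pset_subset hc ha
    | one => rw [hd] at h1; exact h1.elim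
    | t a b => rw [hd] at h1; exact h1.elim
    | q a b => rw [hd] at h1; exact h1.elim
    | pl a b c => rw [hd] at h1; exact h1.elim
  · cases hd : d i with
    | t a b =>
      rw [hd] at h
      exact pset_subset h.1 h.2
    | one => rw [hd] at h2; exact h2.elim
    | beta a b c => rw [hd] at h2; exact h2.elim
    | q a b => rw [hd] at h2; exact h2.elim
    | pl a b c => rw [hd] at h2; exact h2.elim
  · generalize x (Sum.inl ⟨i, h3⟩) = k
    cases hd : d i with
    | q a b =>
      rw [hd] at h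
      exact comb_subset _ _ h.1 h.2 h.2
    | one => rw [hd] at h3; exact h3.elim
    | beta a b c => rw [hd] at h3; exact h3.elim
    | t a b => rw [hd] at h3; exact h3.elim
    | pl a b c => rw [hd] at h3; exact h3.elim
  · generalize x (Sum.inr (⟨i, h4⟩, false)) = k
    generalize x (Sum.inr (⟨i, h4⟩, true)) = l
    cases hd : d i with
    | pl a b c =>
      rw [hd] at h
      exact comb_subset _ _ h.1 h.2.1 h.2.2
    | one => rw [hd] at h4; exact h4.elim
    | beta a b c => rw [hd] at h4; exact h4.elim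
    | t a b => rw [hd] at h4; exact h4.elim
    | q a b => rw [hd] at h4; exact h4.elim
  · exact Finset.empty_subset e

theorem cho_vec (s : JJ d → Fin 3) (x : TT d → ZMod 2) (i : I) (v : B) :
    (if v ∈ cho r d s x i then (1 : ZMod 2) else 0) =
      (if h : (d i).isJ then vec ((d i).pr r (s ⟨i, h⟩)) v else 0) +
      (if h : (d i).isT then vec ((d i).va r, (d i).vb r) v else 0) +
      ((if h : (d i).isQ then x (Sum.inl ⟨i, h⟩) * vec ((d i).va r, (d i).vb r) v else 0) +
      (if h : (d i).isP then (x (Sum.inr (⟨i, h⟩, true)) * vec ((d i).vb r, (d i).vc r) v +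
        x (Sum.inr (⟨i, h⟩, false)) * vec ((d i).va r, (d i).vb r) v) else 0)) := by
  have e1 : ∀ D : BD B, D.isJ → ¬ D.isT ∧ ¬ D.isQ ∧ ¬ D.isP := by
    intro D h
    cases D <;> simp_all [BD.isJ, BD.isT, BD.isQ, BD.isP]
  have e2 : ∀ D : BD B, D.isT → ¬ D.isJ ∧ ¬ D.isQ ∧ ¬ D.isP := by
    intro D h
    cases D <;> simp_all [BD.isJ, BD.isT, BD.isQ, BD.isP]
  have e3 : ∀ D : BD B, D.isQ → ¬ D.isJ ∧ ¬ D.isT ∧ ¬ D.isP := by
    intro D h
    cases D <;> simp_all [BD.isJ, BD.isT, BD.isQ, BD.isP]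
  unfold cho
  by_cases h1 : (d i).isJ
  · obtain ⟨g1, g2, g3⟩ := e1 _ h1
    rw [dif_pos h1, dif_pos h1, dif_neg g1, dif_neg g2, dif_neg g3, pset_vec]
    ring
  by_cases h2 : (d i).isT
  · obtain ⟨g1, g2, g3⟩ := e2 _ h2
    rw [dif_neg h1, if_pos h2, dif_neg h1, dif_pos h2, dif_neg g2, dif_neg g3, pset_vec]
    ring
  by_cases h3 : (d i).isQ
  · obtain ⟨g1, g2, g3⟩ := e3 _ h3
    rw [dif_neg h1, if_neg h2, dif_pos h3, dif_neg h1, dif_neg h2, dif_pos h3, dif_neg g3,
      comb_vec]
    ring
  by_cases h4 : (d i).isP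
  · rw [dif_neg h1, if_neg h2, dif_neg h3, dif_pos h4, dif_neg h1, dif_neg h2, dif_neg h3,
      dif_pos h4, comb_vec]
    ring
  · rw [dif_neg h1, if_neg h2, dif_neg h3, dif_neg h4, dif_neg h1, dif_neg h2, dif_neg h3,
      dif_neg h4, if_neg (Finset.notMem_empty v)]
    ring

theorem sum_cho (s : JJ d → Fin 3) (x : TT d → ZMod 2) (v : B) :
    ∑ i, (if v ∈ cho r d s x i then (1 : ZMod 2) else 0) =
      ∑ e : JJ d, vec ((d e.1).pr r (s e)) v +
      ∑ c : CC d, vec ((d c.1).va r, (d c.1).vb r) v + ∑ t, x t * vec (tog r d t) v := by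
  simp only [cho_vec]
  rw [Finset.sum_add_distrib, Finset.sum_add_distrib, Finset.sum_add_distrib,
    sum_dkind (fun i => (d i).isJ) (fun e => vec ((d e.1).pr r (s e)) v),
    sum_dkind (fun i => (d i).isT) (fun e => vec ((d e.1).va r, (d e.1).vb r) v),
    sum_dkind (fun i => (d i).isQ) (fun e => x (Sum.inl e) * vec ((d e.1).va r, (d e.1).vb r) v),
    sum_dkind (fun i => (d i).isP) (fun e => x (Sum.inr (e, true)) *
      vec ((d e.1).vb r, (d e.1).vc r) v + x (Sum.inr (e, false)) *
      vec ((d e.1).va r, (d e.1).vb r) v), Fintype.sum_sum_type, Fintype.sum_prod_type]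
  congr 1
  congr 1
  refine Finset.sum_congr rfl fun i _ => ?_
  rw [Fintype.sum_bool]
  rfl

theorem crosses_compl {p X : Finset B} (h : Crosses p Xᶜ) : Crosses p X := by
  obtain ⟨⟨a, ha, ha'⟩, b, hb, hb'⟩ := h
  rw [Finset.mem_compl] at ha' hb'
  rw [not_not] at hb'
  exact ⟨⟨b, hb, hb'⟩, a, ha, ha'⟩

theorem sum_inst {α : Type} (i1 i2 : Fintype α) (f : α → ZMod 2) :
    @Finset.sum α (ZMod 2) _ (@Finset.univ α i1) f =
      @Finset.sum α (ZMod 2) _ (@Finset.univ α i2) f := by
  rw [Subsingleton.elim i1 i2]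

theorem cho_conn (E1 : JJ d ⊕ CC d ≃ VV r) (s : JJ d → Fin 3) (x : TT d → ZMod 2)
    (h : dmat (uu r d) (aa r d) E1 s ≠ 0) : Conn (cho r d s x) := by
  -- sets which do not contain the root
  have key : ∀ X : Finset B, X.Nonempty → r ∉ X → ∃ i, Crosses (cho r d s x i) X := by
    intro X hX hr
    by_contra hne
    push Not at hne
    apply h
    refine exists_mulVec _ _ E1 s (fun j => if (E1 j).1 ∈ X then 1 else 0) ?_ ?_
    · obtain ⟨v, hv⟩ := hX
      have hvr : v ≠ r := fun h1 => hr (h1 ▸ hv)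
      intro h1
      have h2 := congrFun h1 (E1.symm ⟨v, hvr⟩)
      simp only [E1.apply_symm_apply, Pi.zero_apply] at h2
      rw [if_pos hv] at h2
      exact one_ne_zero h2
    · funext k
      have hsum : ∀ w : B → ZMod 2, ∑ j, w (E1 j).1 * (if (E1 j).1 ∈ X then 1 else 0) =
          ∑ v ∈ X, w v := by
        intro w
        rw [E1.sum_comp (fun v : VV r => w v.1 * (if v.1 ∈ X then 1 else 0))]
        have h3 : ∑ v ∈ X, w v = ∑ v, w v * (if v ∈ X then 1 else 0) := by
          simp only [mul_ite, mul_one, mul_zero]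
          rw [← Finset.sum_filter]
          exact Finset.sum_congr (by ext; simp) fun _ _ => rfl
        have h5 : ∑ v : VV r, w v.1 * (if v.1 ∈ X then 1 else 0) =
            ∑ v, if v ≠ r then w v * (if v ∈ X then 1 else 0) else 0 := by
          have h6 := (sum_kind (fun v => v ≠ r) (fun v => w v * (if v ∈ X then 1 else 0))).symm
          refine (sum_inst _ _ _).trans (h6.trans ?_)
          refine Finset.sum_congr rfl fun v _ => ?_
          by_cases hv : v ≠ r
          · rw [if_pos hv, if_pos hv]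
          · rw [if_neg hv, if_neg hv]
        rw [h3, h5]
        refine Finset.sum_congr rfl fun v _ => ?_
        by_cases hv : v ≠ r
        · rw [if_pos hv]
        · rw [if_neg hv]
          rw [not_not] at hv
          rw [if_neg (by rw [hv]; exact hr), mul_zero]
      rcases k with e | c
      · change ∑ j, vec ((d e.1).pr r (s e)) (E1 j).1 * (if (E1 j).1 ∈ X then 1 else 0) = 0
        rw [hsum]
        refine vec_zero_of_not_crosses ?_
        have h4 := hne e.1
        unfold cho at h4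
        rw [dif_pos e.2] at h4
        exact h4
      · change ∑ j, vec ((d c.1).va r, (d c.1).vb r) (E1 j).1 *
          (if (E1 j).1 ∈ X then 1 else 0) = 0
        rw [hsum]
        refine vec_zero_of_not_crosses ?_
        have h4 := hne c.1
        have h5 : ¬ (d c.1).isJ := by
          have h6 := c.2
          intro h7
          generalize d c.1 = D at h6 h7
          cases D <;> simp_all [BD.isJ, BD.isT]
        unfold cho at h4
        rw [dif_neg h5, if_pos c.2] at h4
        exact h4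
  intro X hX hX'
  by_cases hr : r ∈ X
  · have h1 : (Xᶜ).Nonempty := by
      rw [Finset.nonempty_iff_ne_empty]
      intro h2
      apply hX'
      rw [← compl_compl X, h2, Finset.compl_empty]
    obtain ⟨i, hi⟩ := key Xᶜ h1 (by simp [hr])
    exact ⟨i, crosses_compl hi⟩
  · exact key X hX hr

end main

end AG

variable {B I : Type} [Fintype B] [Fintype I]

theorem AG.parity (r : B) (R : Finset B) (hR : Even R.card) (p : I → Finset B)
    (hp : ∀ i, p i = ∅ ∨ (p i).card = 2)
    (h1 : ∀ v, v ≠ r → ∑ i, (if v ∈ p i then (1 : ZMod 2) else 0) = if v ∈ R then 1 else 0)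
    (v : B) : Odd (univ.filter fun i => v ∈ p i).card ↔ v ∈ R := by
  have hcast : ∀ v, ((univ.filter fun i => v ∈ p i).card : ZMod 2) =
      ∑ i, (if v ∈ p i then (1 : ZMod 2) else 0) := by
    intro v
    rw [Finset.card_filter]
    push_cast
    rfl
  have h2 : ∑ v, ∑ i, (if v ∈ p i then (1 : ZMod 2) else 0) = 0 := by
    rw [Finset.sum_comm]
    refine Finset.sum_eq_zero fun i _ => ?_
    have h3 : ∑ v, (if v ∈ p i then (1 : ZMod 2) else 0) = ((p i).card : ZMod 2) := by
      rw [← Finset.sum_filter, Finset.sum_const, nsmul_eq_mul, mul_one]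
      congr 2
      ext
      simp
    rw [h3, ZMod.natCast_eq_zero_iff_even]
    rcases hp i with h4 | h4
    · rw [h4, Finset.card_empty]
      exact Even.zero
    · rw [h4]
      exact even_two
  have h3 : ∑ v, (if v ∈ R then (1 : ZMod 2) else 0) = 0 := by
    rw [← Finset.sum_filter, Finset.sum_const, nsmul_eq_mul, mul_one]
    have h4 : (univ.filter fun v => v ∈ R) = R := by
      ext
      simp
    rw [h4]
    exact (ZMod.natCast_eq_zero_iff_even).2 hR
  have h4 : ∀ v, ∑ i, (if v ∈ p i then (1 : ZMod 2) else 0) = if v ∈ R then 1 else 0 := by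
    intro v
    by_cases hv : v = r
    · rw [hv]
      have h5 := Finset.add_sum_erase univ
        (fun v => ∑ i, (if v ∈ p i then (1 : ZMod 2) else 0)) (mem_univ r)
      have h6 := Finset.add_sum_erase univ
        (fun v => if v ∈ R then (1 : ZMod 2) else 0) (mem_univ r)
      have h7 : ∑ v ∈ univ.erase r, ∑ i, (if v ∈ p i then (1 : ZMod 2) else 0) =
          ∑ v ∈ univ.erase r, if v ∈ R then (1 : ZMod 2) else 0 :=
        Finset.sum_congr rfl fun v hv => h1 v (Finset.ne_of_mem_erase hv)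
      rw [h2, h7] at h5
      rw [h3] at h6
      exact add_right_cancel (h5.trans h6.symm)
    · exact h1 v hv
  rw [← ZMod.natCast_eq_one_iff_odd, hcast, h4]
  by_cases hv : v ∈ R
  · rw [if_pos hv]
    exact ⟨fun _ => hv, fun _ => rfl⟩
  · rw [if_neg hv]
    exact ⟨fun h5 => absurd h5 zero_ne_one, fun h5 => absurd h5 hv⟩

/-- **the algebraic certificate gives connected choices with every even set of odd vertices** -/
theorem algC_odd (e : I → Finset B) (h : AlgC e) (R : Finset B) (hR : Even R.card) :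
    ∃ p : I → Finset B, Pairs p ∧ (∀ i, p i ⊆ e i) ∧ Conn p ∧
      ∀ v, Odd (univ.filter fun i => v ∈ p i).card ↔ v ∈ R := by
  obtain ⟨r, g, hg, hc⟩ := h
  choose d hd hdg using fun i => AG.block_data (hg i)
  have hc' : coeff (topM r) (∏ i, (d i).poly) ≠ 0 := by
    have h1 : ∏ i, (d i).poly = ∏ i, g i := Finset.prod_congr rfl fun i _ => hdg i
    rw [h1]
    exact hc
  obtain ⟨E1, E2, hN⟩ := AG.odd_count r d hc'
  obtain ⟨s, x, hdet, hpar⟩ := AG.core (AG.uu r d) (AG.uu_sum r d) (AG.aa r d) (AG.bb r d) E1 E2 hN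
    (fun v => if v.1 ∈ R then 1 else 0)
  refine ⟨AG.cho r d s x, AG.cho_card r d s x, fun i => AG.cho_subset r d s x i (e i) (hd i),
    AG.cho_conn r d E1 s x hdet, AG.parity r R hR _ (AG.cho_card r d s x) fun v hv => ?_⟩
  rw [AG.sum_cho]
  exact hpar ⟨v, hv⟩

/-- **ROW K''** -/
theorem evenConn_of_algC (e : I → Finset B) (h : AlgC e) : EvenConn univ e := by
  obtain ⟨p, h1, h2, h3, h4⟩ := algC_odd e h ∅ (by simp)
  refine ⟨p, fun i => ⟨h2 i, h1 i⟩, fun K => ?_, fun X _ hX hX' => h3 X hX hX'⟩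
  rw [← Nat.not_odd_iff_even, h4]
  exact Finset.notMem_empty K

end Pool.Agent.ClawHam
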