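import Mathlib

/-!
# The odd count: linear algebra over the field with two elements (helper69, row K'')
-/

set_option autoImplicit false
set_option linter.unusedSectionVars false

open Finset

noncomputable section

namespace Pool.Agent.ClawHam.AG

open Classical

section key

variable {J : Type} [Fintype J]

theorem sum_update (F : (J → Fin 3) → ZMod 2) (e : J) :
    ∑ s, ∑ k, F (Function.update s e k) = ∑ s, F s := by
  have h1 : ∑ x : (J → Fin 3) × Fin 3, F (Function.update x.1 e x.2) =
      ∑ x : (J → Fin 3) × Fin 3, F x.1 := by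
    refine Finset.sum_bij' (fun x _ => (Function.update x.1 e x.2, x.1 e))
      (fun x _ => (Function.update x.1 e x.2, x.1 e)) (fun _ _ => mem_univ _)
      (fun _ _ => mem_univ _) ?_ ?_ ?_
    · intro x _
      simp
    · intro x _
      simp
    · intro x _
      rfl
  rw [Fintype.sum_prod_type, Fintype.sum_prod_type] at h1
  rw [h1]
  refine Finset.sum_congr rfl fun s _ => ?_
  change ∑ _y : Fin 3, F s = F s
  rw [Finset.sum_const]
  simp only [card_univ, Fintype.card_fin]
  generalize F s = z
  revert z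
  decide

/-- terms which do not depend on one coordinate vanish -/
theorem sum_indep (A G : (J → Fin 3) → ZMod 2) (e : J)
    (hA : ∀ s, ∑ k, A (Function.update s e k) = 0)
    (hG : ∀ s k, G (Function.update s e k) = G s) : ∑ s, A s * G s = 0 := by
  rw [← sum_update (fun s => A s * G s) e]
  refine Finset.sum_eq_zero fun s _ => ?_
  simp only [hG]
  rw [← Finset.sum_mul, hA, zero_mul]

/-- the key identity -/
theorem key (A : (J → Fin 3) → ZMod 2) (hA : ∀ s e, ∑ k, A (Function.update s e k) = 0)
    (c : J → ZMod 2) (y : J → Fin 3 → J → ZMod 2) :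
    ∑ s, A s * ∏ e, (c e + ∑ f, y f (s f) e) =
      ∑ s, A s * Matrix.det (Matrix.of fun f e => y f (s f) e) := by
  let h : J → Option J → (J → Fin 3) → ZMod 2 := fun e o s =>
    match o with
    | none => c e
    | some f => y f (s f) e
  have h1 : ∀ s, ∏ e, (c e + ∑ f, y f (s f) e) = ∑ φ : J → Option J, ∏ e, h e (φ e) s := by
    intro s
    have h11 := Finset.prod_univ_sum (fun _ : J => (univ : Finset (Option J)))
      (fun e o => h e o s)
    rw [Fintype.piFinset_univ] at h11
    rw [← h11]
    refine Finset.prod_congr rfl fun e _ => ?_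
    rw [Fintype.sum_option]
  simp only [h1, Finset.mul_sum]
  rw [Finset.sum_comm]
  have h2 : ∀ s, A s * Matrix.det (Matrix.of fun f e => y f (s f) e) =
      ∑ σ : Equiv.Perm J, A s * ∏ e, y (σ e) (s (σ e)) e := by
    intro s
    rw [Matrix.det_apply, Finset.mul_sum]
    refine Finset.sum_congr rfl fun σ _ => ?_
    congr 1
    have h3 : ∀ z : ZMod 2, Equiv.Perm.sign σ • z = z := by
      intro z
      rcases Int.units_eq_one_or (Equiv.Perm.sign σ) with h | h
      · rw [h, one_smul]
      · rw [h]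
        revert z
        decide
    rw [h3]
    rfl
  simp only [h2]
  rw [Finset.sum_comm (s := (univ : Finset (J → Fin 3)))]
  -- the sum over all `φ` reduces to the bijections
  symm
  let F : (J → Option J) → ZMod 2 := fun φ => ∑ s, A s * ∏ e, h e (φ e) s
  have h4 : ∀ σ : Equiv.Perm J, ∑ s, A s * ∏ e, y (σ e) (s (σ e)) e = F (fun e => some (σ e)) :=
    fun σ => rfl
  simp only [h4]
  change ∑ σ : Equiv.Perm J, F (fun e => some (σ e)) = ∑ φ, F φ
  have hinj : Function.Injective (fun σ : Equiv.Perm J => fun e => some (σ e)) := by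
    intro σ τ hst
    ext e
    have := congrFun hst e
    exact Option.some_injective _ this
  rw [← Finset.sum_image (s := univ) (g := fun σ : Equiv.Perm J => fun e => some (σ e)) (f := F)
    (fun a _ b _ hab => hinj hab)]
  refine Finset.sum_subset (Finset.subset_univ _) fun φ _ hφ => ?_
  -- some `f` is not a value of `φ`
  have h5 : ∃ f, ∀ e, φ e ≠ some f := by
    by_contra hne
    push Not at hne
    choose g hg using hne
    have hgi : Function.Injective g := by
      intro a b hab
      have h6 := hg a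
      rw [hab, hg b] at h6
      exact (Option.some_injective _ h6).symm
    have hgb : Function.Bijective g := Finite.injective_iff_bijective.1 hgi
    let σ := Equiv.ofBijective g hgb
    refine hφ (Finset.mem_image.2 ⟨σ.symm, mem_univ _, ?_⟩)
    funext e
    have h7 := hg (σ.symm e)
    have h8 : g (σ.symm e) = e := σ.apply_symm_apply e
    rw [h8] at h7
    exact h7.symm
  obtain ⟨f, hf⟩ := h5
  refine sum_indep A (fun s => ∏ e, h e (φ e) s) f (fun s => hA s f) fun s k => ?_
  refine Finset.prod_congr rfl fun e _ => ?_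
  have h9 := hf e
  change h e (φ e) _ = h e (φ e) _
  cases hφe : φ e with
  | none => rfl
  | some f' =>
    have h10 : f' ≠ f := by
      intro h11
      rw [hφe, h11] at h9
      exact h9 rfl
    change y f' (Function.update s f k f') e = y f' (s f') e
    rw [Function.update_of_ne h10]

end key

section core

variable {V J C T : Type} [Fintype V] [Fintype J] [Fintype C] [Fintype T]

/-- the matrix of the rows `u e (s e)` and `a c` -/
def mat (u : J → Fin 3 → V → ZMod 2) (a : C → V → ZMod 2) (E : J ⊕ C ≃ V) (s : J → Fin 3) :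
    Matrix (J ⊕ C) (J ⊕ C) (ZMod 2) :=
  Matrix.of fun i j => Sum.elim (fun e => u e (s e)) a i (E j)

theorem mat_update (u : J → Fin 3 → V → ZMod 2) (a : C → V → ZMod 2) (E : J ⊕ C ≃ V)
    (s : J → Fin 3) (e : J) (k : Fin 3) : mat u a E (Function.update s e k) =
      (mat u a E s).updateRow (Sum.inl e) (fun j => u e k (E j)) := by
  ext i j
  rw [Matrix.updateRow_apply]
  rcases i with f | c
  · by_cases h : f = e
    · subst h
      rw [if_pos rfl]
      simp [mat]
    · rw [if_neg (fun h2 => h (Sum.inl_injective h2))]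
      simp [mat, Function.update_of_ne h]
  · rw [if_neg (by simp)]
    rfl

theorem mat_sum (u : J → Fin 3 → V → ZMod 2) (hu : ∀ e v, ∑ k, u e k v = 0)
    (a : C → V → ZMod 2) (E : J ⊕ C ≃ V) (s : J → Fin 3) (e : J) :
    ∑ k, (mat u a E (Function.update s e k)).det = 0 := by
  simp only [mat_update]
  rw [Fin.sum_univ_three, ← Matrix.det_updateRow_add, ← Matrix.det_updateRow_add]
  refine Matrix.det_eq_zero_of_row_eq_zero (Sum.inl e) fun j => ?_
  rw [Matrix.updateRow_self]
  have h := hu e (E j)
  rw [Fin.sum_univ_three] at h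
  exact h

/-- the determinant of `mat` -/
def dmat (u : J → Fin 3 → V → ZMod 2) (a : C → V → ZMod 2) (E : J ⊕ C ≃ V) (s : J → Fin 3) :
    ZMod 2 := (mat u a E s).det

/-- the odd count -/
def cnt (u : J → Fin 3 → V → ZMod 2) (a : C → V → ZMod 2) (b : T → V → ZMod 2) (E1 : J ⊕ C ≃ V)
    (E2 : J ⊕ T ≃ V) : ZMod 2 := ∑ s, dmat u a E1 s * dmat u b E2 s

theorem cnt_eq (u : J → Fin 3 → V → ZMod 2) (a : C → V → ZMod 2) (b : T → V → ZMod 2)
    (E1 : J ⊕ C ≃ V) (E2 : J ⊕ T ≃ V) (S : Finset (J → Fin 3)) (hS : ∀ s, s ∈ S) :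
    cnt u a b E1 E2 = ∑ s ∈ S, dmat u a E1 s * dmat u b E2 s := by
  unfold cnt
  exact Finset.sum_congr (by ext s; simp [hS s]) fun _ _ => rfl

theorem exists_mulVec (u : J → Fin 3 → V → ZMod 2) (a : C → V → ZMod 2) (E : J ⊕ C ≃ V)
    (s : J → Fin 3) (w : J ⊕ C → ZMod 2) (hw : w ≠ 0) (h : (mat u a E s).mulVec w = 0) :
    dmat u a E s = 0 :=
  Matrix.exists_mulVec_eq_zero_iff.1 ⟨w, hw, h⟩

theorem zmod2_ne {z : ZMod 2} (h : z ≠ 0) : z = 1 := by
  revert z
  decide

theorem core (u : J → Fin 3 → V → ZMod 2) (hu : ∀ e v, ∑ k, u e k v = 0)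
    (a : C → V → ZMod 2) (b : T → V → ZMod 2) (E1 : J ⊕ C ≃ V) (E2 : J ⊕ T ≃ V)
    (hN : cnt u a b E1 E2 ≠ 0) (R : V → ZMod 2) :
    ∃ (s : J → Fin 3) (x : T → ZMod 2), dmat u a E1 s ≠ 0 ∧
      ∀ v, ∑ e, u e (s e) v + ∑ c, a c v + ∑ t, x t * b t v = R v := by
  unfold cnt dmat at hN
  unfold dmat
  obtain ⟨s0, -, hs0⟩ := Finset.exists_ne_zero_of_sum_ne_zero hN
  have hdet : (mat u b E2 s0).det = 1 := zmod2_ne (right_ne_zero_of_mul hs0)
  let M := mat u b E2 s0
  let Y := M⁻¹
  have hunit : IsUnit M.det := by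
    change IsUnit (mat u b E2 s0).det
    rw [hdet]
    exact isUnit_one
  have hMY : M * Y = 1 := Matrix.mul_nonsing_inv M hunit
  have hYM : Y * M = 1 := Matrix.nonsing_inv_mul M hunit
  let y : J → Fin 3 → J → ZMod 2 := fun f k e => ∑ j, u f k (E2 j) * Y j (Sum.inl e)
  -- the determinant of the second world
  have h1 : ∀ s, (mat u b E2 s).det = Matrix.det (Matrix.of fun f e => y f (s f) e) := by
    intro s
    have h2 : mat u b E2 s * Y = Matrix.fromBlocks (Matrix.of fun f e => y f (s f) e)
        (Matrix.of fun f t => ∑ j, u f (s f) (E2 j) * Y j (Sum.inr t)) 0 1 := by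
      ext i j
      rcases i with f | t
      · rcases j with e | t'
        · rw [Matrix.fromBlocks_apply₁₁, Matrix.mul_apply]
          rfl
        · rw [Matrix.fromBlocks_apply₁₂, Matrix.mul_apply]
          rfl
      · have h3 : (mat u b E2 s * Y) (Sum.inr t) j = (M * Y) (Sum.inr t) j := by
          rw [Matrix.mul_apply, Matrix.mul_apply]
          rfl
        rw [h3, hMY]
        rcases j with e | t'
        · rw [Matrix.fromBlocks_apply₂₁]
          simp
        · rw [Matrix.fromBlocks_apply₂₂]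
          simp [Matrix.one_apply]
    have h4 : (mat u b E2 s).det * Y.det = Matrix.det (Matrix.of fun f e => y f (s f) e) := by
      rw [← Matrix.det_mul, h2, Matrix.det_fromBlocks_zero₂₁, Matrix.det_one, mul_one]
    have h5 : Y.det = 1 := by
      have h6 : M.det * Y.det = 1 := by rw [← Matrix.det_mul, hMY, Matrix.det_one]
      exact zmod2_ne fun h7 => by rw [h7, mul_zero] at h6; exact zero_ne_one h6
    rw [← h4, h5, mul_one]
  let c : J → ZMod 2 := fun e => ∑ j, (R (E2 j) + ∑ c, a c (E2 j)) * Y j (Sum.inl e)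
  have h2 := key (fun s => (mat u a E1 s).det) (fun s e => mat_sum u hu a E1 s e)
    (fun e => 1 + c e) y
  have h3 : ∑ s, (mat u a E1 s).det * ∏ e, (1 + c e + ∑ f, y f (s f) e) ≠ 0 := by
    rw [h2]
    intro h4
    apply hN
    rw [← h4]
    exact Finset.sum_congr rfl fun s _ => by rw [h1]
  obtain ⟨s, -, hs⟩ := Finset.exists_ne_zero_of_sum_ne_zero h3
  have h4 : ∀ e, c e + ∑ f, y f (s f) e = 0 := by
    intro e
    have h5 : 1 + c e + ∑ f, y f (s f) e ≠ 0 := fun h6 =>
      right_ne_zero_of_mul hs (Finset.prod_eq_zero (mem_univ e) h6)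
    rw [add_assoc] at h5
    generalize c e + ∑ f, y f (s f) e = z at h5 ⊢
    revert z
    decide
  -- the coordinates
  let D : V → ZMod 2 := fun v => R v + ∑ e, u e (s e) v + ∑ c, a c v
  let z : J ⊕ T → ZMod 2 := fun i => ∑ j, D (E2 j) * Y j i
  have hz : ∀ e, z (Sum.inl e) = 0 := by
    intro e
    rw [← h4 e]
    change ∑ j, D (E2 j) * Y j (Sum.inl e) = c e + ∑ f, ∑ j, u f (s f) (E2 j) * Y j (Sum.inl e)
    rw [Finset.sum_comm]
    change _ = ∑ j, (R (E2 j) + ∑ c, a c (E2 j)) * Y j (Sum.inl e) + _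
    rw [← Finset.sum_add_distrib]
    refine Finset.sum_congr rfl fun j _ => ?_
    rw [← Finset.sum_mul, ← add_mul]
    congr 1
    change R (E2 j) + ∑ e, u e (s e) (E2 j) + ∑ c, a c (E2 j) = _
    ring
  refine ⟨s, fun t => z (Sum.inr t), left_ne_zero_of_mul hs, fun v => ?_⟩
  have h5 : ∑ t, z (Sum.inr t) * b t v = D v := by
    have h6 : ∀ j, ∑ i, z i * M i j = D (E2 j) := by
      intro j
      have h7 : Matrix.vecMul (fun i => z i) M = fun j => D (E2 j) := by
        have h8 : (fun i => z i) = Matrix.vecMul (fun j => D (E2 j)) Y := rfl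
        rw [h8, Matrix.vecMul_vecMul, hYM, Matrix.vecMul_one]
      exact congrFun h7 j
    have h9 := h6 (E2.symm v)
    rw [Fintype.sum_sum_type, E2.apply_symm_apply] at h9
    rw [← h9]
    simp only [hz, zero_mul, Finset.sum_const_zero, zero_add]
    refine Finset.sum_congr rfl fun t _ => ?_
    congr 1
    change b t v = b t (E2 (E2.symm v))
    rw [E2.apply_symm_apply]
  rw [h5]
  change ∑ e, u e (s e) v + ∑ c, a c v + (R v + ∑ e, u e (s e) v + ∑ c, a c v) = R v
  generalize ∑ e, u e (s e) v = p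
  generalize ∑ c, a c v = q
  generalize R v = w
  revert p q w
  decide

end core

end Pool.Agent.ClawHam.AG
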