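import Pool.Agent.Lib.MP_e2dbb5_co.AG1

/-!
# The odd count: coefficients of products of linear forms (helper69, row K'')
-/

set_option autoImplicit false
set_option linter.unusedSectionVars false

open Finset MvPolynomial

noncomputable section

namespace Pool.Agent.ClawHam.AG

open Classical

section lin

variable {σ K : Type} [Fintype σ] [Fintype K]

/-- the linear form with the coefficients `m` -/
def lin (m : σ → ZMod 2) : MvPolynomial σ (ZMod 2) := ∑ x, C (m x) * X x

/-- the squarefree monomial of a set of variables -/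
def sqf (S : Finset σ) : σ →₀ ℕ := ∑ x ∈ S, Finsupp.single x 1

theorem prod_lin (m : K → σ → ZMod 2) : ∏ k, lin (m k) =
    ∑ φ : K → σ, monomial (∑ k, Finsupp.single (φ k) 1) (∏ k, m k (φ k)) := by
  have h1 := Finset.prod_univ_sum (fun _ : K => (univ : Finset σ))
    (fun k x => (C (m k x) * X x : MvPolynomial σ (ZMod 2)))
  rw [Fintype.piFinset_univ] at h1
  unfold lin
  rw [h1]
  refine Finset.sum_congr rfl fun φ _ => ?_
  have h2 : ∀ k, (C (m k (φ k)) * X (φ k) : MvPolynomial σ (ZMod 2)) =
      monomial (Finsupp.single (φ k) 1) (m k (φ k)) := fun k => C_mul_X_eq_monomial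
  simp only [h2]
  exact (monomial_sum_prod univ (fun k => Finsupp.single (φ k) 1) (fun k => m k (φ k))).symm

theorem coeff_prod_lin (m : K → σ → ZMod 2) (d : σ →₀ ℕ) : coeff d (∏ k, lin (m k)) =
    ∑ φ : K → σ, if (∑ k, Finsupp.single (φ k) 1) = d then ∏ k, m k (φ k) else 0 := by
  rw [prod_lin, coeff_sum]
  refine Finset.sum_congr rfl fun φ _ => ?_
  rw [coeff_monomial]

theorem sum_single_apply (φ : K → σ) (x : σ) :
    (∑ k, Finsupp.single (φ k) 1 : σ →₀ ℕ) x = (univ.filter fun k => φ k = x).card := by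
  rw [Finsupp.finsetSum_apply, Finset.card_filter]
  refine Finset.sum_congr rfl fun k _ => ?_
  rw [Finsupp.single_apply]

theorem sqf_apply (S : Finset σ) (x : σ) : sqf S x = if x ∈ S then 1 else 0 := by
  unfold sqf
  rw [Finsupp.finsetSum_apply]
  simp only [Finsupp.single_apply]
  rw [Finset.sum_ite_eq' S x (fun _ => 1)]

theorem cond_iff (φ : K → σ) (S : Finset σ) : (∑ k, Finsupp.single (φ k) 1) = sqf S ↔
    Function.Injective φ ∧ univ.image φ = S := by
  constructor
  · intro h
    have h1 : ∀ x, (univ.filter fun k => φ k = x).card = if x ∈ S then 1 else 0 := by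
      intro x
      rw [← sum_single_apply, h, sqf_apply]
    constructor
    · intro a b hab
      by_contra hne
      have h2 : 1 < (univ.filter fun k => φ k = φ b).card :=
        Finset.one_lt_card.2 ⟨a, by simp [hab], b, by simp, hne⟩
      have h3 := h1 (φ b)
      split_ifs at h3 <;> omega
    · ext x
      rw [Finset.mem_image]
      constructor
      · rintro ⟨k, -, rfl⟩
        by_contra h2
        have h3 := h1 (φ k)
        rw [if_neg h2, Finset.card_eq_zero] at h3
        have h4 : k ∈ univ.filter fun k' => φ k' = φ k := by simp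
        rw [h3] at h4
        exact absurd h4 (Finset.notMem_empty _)
      · intro hx
        have h3 := h1 x
        rw [if_pos hx] at h3
        obtain ⟨k, hk⟩ := Finset.card_pos.1 (h3 ▸ Nat.one_pos)
        exact ⟨k, mem_univ _, (Finset.mem_filter.1 hk).2⟩
  · rintro ⟨h1, h2⟩
    ext x
    rw [sum_single_apply, sqf_apply]
    split_ifs with hx
    · rw [← h2, Finset.mem_image] at hx
      obtain ⟨k, -, rfl⟩ := hx
      rw [Finset.card_eq_one]
      refine ⟨k, ?_⟩
      ext k'
      simp only [Finset.mem_filter, mem_univ, true_and, Finset.mem_singleton]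
      exact ⟨fun h => h1 h, fun h => h ▸ rfl⟩
    · rw [Finset.card_eq_zero, Finset.filter_eq_empty_iff]
      intro k _ hk
      exact hx (h2 ▸ Finset.mem_image.2 ⟨k, mem_univ _, hk⟩)

/-- if `E` is a bijection of `K` with `S`, then the coefficient is a determinant -/
theorem coeff_eq_det (m : K → σ → ZMod 2) (S : Finset σ) (E : K → σ) (hE : Function.Injective E)
    (hS' : ∀ x, x ∈ S ↔ ∃ k, E k = x) : coeff (sqf S) (∏ k, lin (m k)) =
      Matrix.det (Matrix.of fun k l => m k (E l)) := by
  have hS : univ.image E = S := by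
    ext x
    rw [hS']
    simp
  rw [coeff_prod_lin]
  simp only [cond_iff]
  have h1 : Matrix.det (Matrix.of fun k l => m k (E l)) =
      ∑ π : Equiv.Perm K, ∏ k, m k (E (π k)) := by
    rw [← Matrix.det_transpose, Matrix.det_apply]
    refine Finset.sum_congr rfl fun π _ => ?_
    have h3 : ∀ z : ZMod 2, Equiv.Perm.sign π • z = z := by
      intro z
      rcases Int.units_eq_one_or (Equiv.Perm.sign π) with h | h
      · rw [h, one_smul]
      · rw [h]
        revert z
        decide
    rw [h3]
    rfl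
  rw [h1]
  have hinj : Function.Injective (fun π : Equiv.Perm K => fun k => E (π k)) := by
    intro π τ h
    ext k
    exact hE (congrFun h k)
  have h2 : ∑ π : Equiv.Perm K, ∏ k, m k (E (π k)) =
      ∑ φ ∈ univ.image (fun π : Equiv.Perm K => fun k => E (π k)), ∏ k, m k (φ k) := by
    rw [Finset.sum_image (fun a _ b _ hab => hinj hab)]
  rw [h2, ← Finset.sum_filter]
  refine Finset.sum_congr ?_ fun _ _ => rfl
  ext φ
  simp only [Finset.mem_filter, mem_univ, true_and, Finset.mem_image]
  constructor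
  · rintro ⟨h3, h4⟩
    have h5 : ∀ k, ∃ l, E l = φ k := by
      intro k
      have h6 : φ k ∈ univ.image E := by
        rw [hS, ← h4]
        exact Finset.mem_image.2 ⟨k, mem_univ _, rfl⟩
      obtain ⟨l, -, hl⟩ := Finset.mem_image.1 h6
      exact ⟨l, hl⟩
    choose g hg using h5
    have hgi : Function.Injective g := by
      intro a b hab
      apply h3
      rw [← hg a, ← hg b, hab]
    exact ⟨Equiv.ofBijective g (Finite.injective_iff_bijective.1 hgi), funext hg⟩
  · rintro ⟨π, rfl⟩
    refine ⟨fun a b hab => π.injective (hE hab), ?_⟩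
    rw [← hS]
    ext x
    simp only [Finset.mem_image, mem_univ, true_and]
    constructor
    · rintro ⟨k, hk⟩
      exact ⟨π k, hk⟩
    · rintro ⟨k, hk⟩
      exact ⟨π.symm k, by rw [π.apply_symm_apply]; exact hk⟩

/-- the determinant, with a fixed instance -/
def det' (M : Matrix K K (ZMod 2)) : ZMod 2 := Matrix.det M

theorem coeff_eq_det' (m : K → σ → ZMod 2) (S : Finset σ) (E : K → σ)
    (hE : Function.Injective E) (hS' : ∀ x, x ∈ S ↔ ∃ k, E k = x) :
    coeff (sqf S) (∏ k, lin (m k)) = det' (Matrix.of fun k l => m k (E l)) :=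
  coeff_eq_det m S E hE hS'

theorem det_inst {L : Type} [Fintype L] (i1 i2 : DecidableEq L) (M : Matrix L L (ZMod 2)) :
    @Matrix.det L i1 _ (ZMod 2) _ M = @Matrix.det L i2 _ (ZMod 2) _ M := by
  rw [Subsingleton.elim i1 i2]

/-- two worlds -/
theorem det_two {J C T V : Type} [Fintype J] [Fintype C] [Fintype T] [Fintype V]
    (u : J → Fin 3 → V → ZMod 2) (a : C → V → ZMod 2) (b : T → V → ZMod 2) (E1 : J ⊕ C ≃ V)
    (E2 : J ⊕ T ≃ V) (s : J → Fin 3) (M : Matrix ((J ⊕ C) ⊕ (J ⊕ T)) ((J ⊕ C) ⊕ (J ⊕ T)) (ZMod 2))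
    (h : M = Matrix.fromBlocks (mat u a E1 s) 0 0 (mat u b E2 s)) :
    det' M = dmat u a E1 s * dmat u b E2 s := by
  unfold dmat det'
  rw [h]
  have h2 := Matrix.det_fromBlocks_zero₂₁ (mat u a E1 s) 0 (mat u b E2 s)
  exact (det_inst _ _ _).trans h2

/-- a nonzero coefficient gives a bijection with nonzero entries -/
theorem exists_of_coeff (m : K → σ → ZMod 2) (S : Finset σ)
    (h : coeff (sqf S) (∏ k, lin (m k)) ≠ 0) : ∃ φ : K → σ, Function.Injective φ ∧
      (∀ x, x ∈ S ↔ ∃ k, φ k = x) ∧ ∀ k, m k (φ k) ≠ 0 := by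
  rw [coeff_prod_lin] at h
  obtain ⟨φ, -, hφ⟩ := Finset.exists_ne_zero_of_sum_ne_zero h
  by_cases hc : (∑ k, Finsupp.single (φ k) 1) = sqf S
  · rw [if_pos hc] at hφ
    rw [cond_iff] at hc
    exact ⟨φ, hc.1, fun x => by rw [← hc.2]; simp,
      fun k => (Finset.prod_ne_zero_iff.1 hφ) k (mem_univ k)⟩
  · rw [if_neg hc] at hφ
    exact absurd rfl hφ

end lin

end Pool.Agent.ClawHam.AG
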