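import Pool.Agent.Lib.MP_e2dbb5_co.Defs

/-!
# Row C0: every vertex of a non-complete graph without small cutsets is in a big cell
-/

set_option autoImplicit false

open Finset

noncomputable section

namespace Pool.Agent.ClawHam

open Classical

theorem rowc0 : RowC0 := by
  intro V C _ _ G inc hK hcut hnc v
  by_contra hv
  push Not at hv
  have hsmall : ∀ K, inc v K → ((univ.filter fun w => inc w K).erase v).card ≤ 2 := by
    intro K hvK
    have h1 : ¬ Big inc K := fun h => hv K h hvK
    unfold Big at h1
    have h2 : v ∈ univ.filter fun w => inc w K := mem_filter.2 ⟨mem_univ _, hvK⟩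
    rw [Finset.card_erase_of_mem h2]
    omega
  -- at most four neighbours
  have hN : (univ.filter fun w => G.Adj v w).card ≤ 4 := by
    obtain ⟨K, hvK⟩ := hK.ex v
    obtain ⟨L, hvL, hall⟩ : ∃ L, inc v L ∧ ∀ M, inc v M → M = K ∨ M = L := by
      by_cases h : ∃ L, inc v L ∧ L ≠ K
      · obtain ⟨L, hvL, hLK⟩ := h
        refine ⟨L, hvL, fun M hM => ?_⟩
        rcases hK.two v K L M hvK hvL hM with h1 | h1 | h1
        · exact absurd h1.symm hLK
        · exact Or.inl h1.symm
        · exact Or.inr h1.symm
      · push Not at h
        exact ⟨K, hvK, fun M hM => Or.inl (h M hM)⟩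
    have hsub : (univ.filter fun w => G.Adj v w) ⊆
        (univ.filter fun w => inc w K).erase v ∪ (univ.filter fun w => inc w L).erase v := by
      intro w hw
      obtain ⟨hne, M, h1, h2⟩ := (hK.adj_iff v w).1 (mem_filter.1 hw).2
      rw [mem_union, mem_erase, mem_erase, mem_filter, mem_filter]
      rcases hall M h1 with rfl | rfl
      · exact Or.inl ⟨hne.symm, mem_univ _, h2⟩
      · exact Or.inr ⟨hne.symm, mem_univ _, h2⟩
    refine (card_le_card hsub).trans ((card_union_le _ _).trans ?_)
    have h1 := hsmall K hvK
    have h2 := hsmall L hvL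
    omega
  -- all vertices are neighbours
  have hall : ∀ w, w = v ∨ G.Adj v w := by
    intro w
    by_contra hw
    push Not at hw
    have h1 := hcut (univ.filter fun w => G.Adj v w) {v}
      (univ.filter fun w => w ≠ v ∧ ¬ G.Adj v w) (by
        intro w
        rw [mem_filter, mem_singleton, mem_filter]
        by_cases h1 : w = v
        · exact Or.inr (Or.inl h1)
        · by_cases h2 : G.Adj v w
          · exact Or.inl ⟨mem_univ _, h2⟩
          · exact Or.inr (Or.inr ⟨mem_univ _, h1, h2⟩)) (by
        rw [Finset.disjoint_left]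
        intro a ha hc
        exact (mem_filter.1 hc).2.1 (mem_singleton.1 ha)) (by
        rw [Finset.disjoint_left]
        intro a ha hc
        rw [mem_singleton.1 ha] at hc
        exact G.loopless.irrefl v (mem_filter.1 hc).2) (by
        rw [Finset.disjoint_left]
        intro a ha hc
        exact (mem_filter.1 ha).2.2 (mem_filter.1 hc).2) ⟨v, mem_singleton_self v⟩
      ⟨w, mem_filter.2 ⟨mem_univ _, hw.1, hw.2⟩⟩ (by
        intro a ha c hc
        rw [mem_singleton.1 ha]
        exact (mem_filter.1 hc).2.2)
    omega
  have hV : (univ : Finset V).card ≤ 5 := by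
    have h1 : (univ : Finset V) ⊆ insert v (univ.filter fun w => G.Adj v w) := by
      intro w _
      rw [mem_insert, mem_filter]
      rcases hall w with h | h
      · exact Or.inl h
      · exact Or.inr ⟨mem_univ _, h⟩
    refine (card_le_card h1).trans ((card_insert_le _ _).trans ?_)
    omega
  obtain ⟨u, w, huw, hadj⟩ := hnc
  have h1 := hcut ((univ.erase u).erase w) {u} {w} (by
      intro x
      rw [mem_erase, mem_erase, mem_singleton, mem_singleton]
      by_cases h1 : x = u
      · exact Or.inr (Or.inl h1)
      · by_cases h2 : x = w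
        · exact Or.inr (Or.inr h2)
        · exact Or.inl ⟨h2, h1, mem_univ _⟩) (by
      rw [Finset.disjoint_left]
      intro a ha hc
      exact huw ((mem_singleton.1 ha).symm.trans (mem_singleton.1 hc))) (by
      rw [Finset.disjoint_left]
      intro a ha hc
      rw [mem_singleton.1 ha, mem_erase, mem_erase] at hc
      exact hc.2.1 rfl) (by
      rw [Finset.disjoint_left]
      intro a ha hc
      rw [mem_singleton.1 ha, mem_erase] at hc
      exact hc.1 rfl) ⟨u, mem_singleton_self u⟩ ⟨w, mem_singleton_self w⟩ (by
      intro a ha c hc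
      rw [mem_singleton.1 ha, mem_singleton.1 hc]
      exact hadj)
  have h2 : ((univ.erase u).erase w : Finset V).card ≤ 3 := by
    rw [card_erase_of_mem (mem_erase.2 ⟨huw.symm, mem_univ _⟩), card_erase_of_mem (mem_univ _)]
    omega
  omega

end Pool.Agent.ClawHam
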