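import Pool.Agent.Lib.MP_e2dbb5_co.Defs

/-!
# Row C1: the hypergraph of the big cells (helper9)
-/

set_option autoImplicit false

open Finset

noncomputable section

namespace Pool.Agent.ClawHam

open Classical

namespace C1x

theorem minority {V : Type} [Nonempty V] (T : Finset V) (hT : T.card ≤ 3) (p : V → Prop) :
    ∃ v, ∀ a ∈ T, ∀ b ∈ T, a ≠ v → b ≠ v → (p a ↔ p b) := by
  have h1 : (T.filter p).card + (T.filter fun a => ¬ p a).card = T.card :=
    Finset.card_filter_add_card_filter_not _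
  have h2 : (T.filter p).card ≤ 1 ∨ (T.filter fun a => ¬ p a).card ≤ 1 := by omega
  rcases h2 with h2 | h2
  · obtain ⟨v, hv⟩ := Finset.card_le_one_iff_subset_singleton.1 h2
    have h3 : ∀ a ∈ T, a ≠ v → ¬ p a := fun a ha hav hp =>
      hav (Finset.mem_singleton.1 (hv (Finset.mem_filter.2 ⟨ha, hp⟩)))
    exact ⟨v, fun a ha b hb hav hbv => iff_of_false (h3 a ha hav) (h3 b hb hbv)⟩
  · obtain ⟨v, hv⟩ := Finset.card_le_one_iff_subset_singleton.1 h2
    have h3 : ∀ a ∈ T, a ≠ v → p a := fun a ha hav => by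
      by_contra hp
      exact hav (Finset.mem_singleton.1 (hv (Finset.mem_filter.2 ⟨ha, hp⟩)))
    exact ⟨v, fun a ha b hb hav hbv => iff_of_true (h3 a ha hav) (h3 b hb hbv)⟩

section

variable {V C : Type} [Fintype V] [Fintype C] {G : SimpleGraph V} {inc : V → C → Prop}

theorem hyp_sub (i : V ⊕ C) : hyp inc i ⊆ bigs inc := by
  intro K hK
  rcases i with v | S
  · exact Finset.mem_filter.2 ⟨Finset.mem_univ _, (Finset.mem_filter.1 hK).2.1⟩
  · exact Finset.mem_filter.2 ⟨Finset.mem_univ _, (Finset.mem_filter.1 hK).2.2.1⟩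

omit [Fintype C] in
theorem small_card {S : C} (hS : ¬ Big inc S) : (univ.filter fun v => inc v S).card ≤ 3 := by
  unfold Big at hS
  omega

theorem hyp_card (hK : Krausz G inc) (i : V ⊕ C) : (hyp inc i).card ≤ 3 := by
  rcases i with v | S
  · by_contra h
    have h1 : 2 < (hyp inc (Sum.inl v)).card := by omega
    obtain ⟨K, h2, L, h3, M, h4, h5, h6, h7⟩ := Finset.two_lt_card.1 h1
    rcases hK.two v K L M (Finset.mem_filter.1 h2).2.2 (Finset.mem_filter.1 h3).2.2
      (Finset.mem_filter.1 h4).2.2 with h | h | h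
    · exact h5 h
    · exact h6 h
    · exact h7 h
  · by_cases hS : Big inc S
    · have h1 : hyp inc (Sum.inr S : V ⊕ C) = ∅ := by
        apply Finset.eq_empty_of_forall_notMem
        intro K hK'
        exact (Finset.mem_filter.1 hK').2.1 hS
      rw [h1, Finset.card_empty]
      omega
    · rcases Finset.eq_empty_or_nonempty (hyp inc (Sum.inr S : V ⊕ C)) with h0 | ⟨K₁, h0⟩
      · rw [h0, Finset.card_empty]
        omega
      obtain ⟨v₁, -⟩ := (Finset.mem_filter.1 h0).2.2.2
      have h1 : ∀ K : C, ∃ v : V, K ∈ hyp inc (Sum.inr S) → inc v S ∧ inc v K := by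
        intro K
        by_cases h : K ∈ hyp inc (Sum.inr S : V ⊕ C)
        · obtain ⟨v, hv⟩ := (Finset.mem_filter.1 h).2.2.2
          exact ⟨v, fun _ => hv⟩
        · exact ⟨v₁, fun h' => absurd h' h⟩
      choose f hf using h1
      refine (Finset.card_le_card_of_injOn f ?_ ?_).trans (small_card hS)
      · intro K hK'
        exact Finset.mem_filter.2 ⟨Finset.mem_univ _, (hf K hK').1⟩
      · intro K hK' L hL hKL
        have h2 := hf K hK'
        have h3 := hf L hL
        rw [← hKL] at h3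
        have h4 : S ≠ K := fun h => hS (h ▸ (Finset.mem_filter.1 hK').2.2.1)
        have h5 : S ≠ L := fun h => hS (h ▸ (Finset.mem_filter.1 hL).2.2.1)
        rcases hK.two (f K) S K L h2.1 h2.2 h3.2 with h | h | h
        · exact absurd h h4
        · exact absurd h h5
        · exact h

end

end C1x

open C1x in
theorem rowc1 : RowC1 := by
  intro V C _ _ G inc hK hcut hbig
  refine ⟨fun i => ⟨hyp_sub i, hyp_card hK i⟩, ?_⟩
  intro X hX hne hX'
  obtain ⟨K₀, hK₀⟩ := hne
  have hbK₀ : Big inc K₀ := (Finset.mem_filter.1 (hX hK₀)).2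
  have hV : Nonempty V := by
    unfold Big at hbK₀
    have h1 : 0 < (univ.filter fun v => inc v K₀).card := by omega
    obtain ⟨v, -⟩ := Finset.card_pos.1 h1
    exact ⟨v⟩
  -- the side of a vertex
  have hm : ∀ S : C, ∃ v : V, ¬ Big inc S → ∀ a b, inc a S → inc b S → a ≠ v → b ≠ v →
      ((∃ K ∈ X, inc a K) ↔ ∃ K ∈ X, inc b K) := by
    intro S
    by_cases hS : Big inc S
    · exact ⟨Classical.choice hV, fun h => absurd hS h⟩
    · obtain ⟨v, hv⟩ := minority (univ.filter fun v => inc v S) (small_card hS)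
        (fun a => ∃ K ∈ X, inc a K)
      exact ⟨v, fun _ a b ha hb => hv a (Finset.mem_filter.2 ⟨Finset.mem_univ _, ha⟩) b
        (Finset.mem_filter.2 ⟨Finset.mem_univ _, hb⟩)⟩
  choose m hm using hm
  let Cr : Finset (V ⊕ C) := univ.filter fun i => Crosses (hyp inc i) X
  let S : Finset V := Cr.image (Sum.elim id m)
  have hS : S.card ≤ Cr.card := Finset.card_image_le
  let A : Finset V := univ.filter fun v => v ∉ S ∧ ∀ K, Big inc K → inc v K → K ∈ X
  let D : Finset V := univ.filter fun v => v ∉ S ∧ ∀ K, Big inc K → inc v K → K ∉ X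
  -- a vertex with big cells on both sides is in `S`
  have hcr : ∀ v K L, Big inc K → inc v K → K ∈ X → Big inc L → inc v L → L ∉ X → v ∈ S := by
    intro v K L h1 h2 h3 h4 h5 h6
    refine Finset.mem_image.2 ⟨Sum.inl v, Finset.mem_filter.2 ⟨Finset.mem_univ _, ?_⟩, rfl⟩
    exact ⟨⟨K, Finset.mem_filter.2 ⟨Finset.mem_univ _, h1, h2⟩, h3⟩,
      ⟨L, Finset.mem_filter.2 ⟨Finset.mem_univ _, h4, h5⟩, h6⟩⟩
  have hcov : ∀ v, v ∈ S ∨ v ∈ A ∨ v ∈ D := by
    intro v
    by_cases hv : v ∈ S
    · exact Or.inl hv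
    · right
      obtain ⟨K, h1, h2⟩ := hbig v
      by_cases h3 : K ∈ X
      · left
        refine Finset.mem_filter.2 ⟨Finset.mem_univ _, hv, fun L h4 h5 => ?_⟩
        by_contra h6
        exact hv (hcr v K L h1 h2 h3 h4 h5 h6)
      · right
        refine Finset.mem_filter.2 ⟨Finset.mem_univ _, hv, fun L h4 h5 h6 => ?_⟩
        exact hv (hcr v L K h4 h5 h6 h1 h2 h3)
  have hAD : Disjoint A D := by
    rw [Finset.disjoint_left]
    intro v h1 h2
    obtain ⟨K, h3, h4⟩ := hbig v
    exact (Finset.mem_filter.1 h2).2.2 K h3 h4 ((Finset.mem_filter.1 h1).2.2 K h3 h4)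
  have hAS : Disjoint A S := by
    rw [Finset.disjoint_left]
    intro v h1 h2
    exact (Finset.mem_filter.1 h1).2.1 h2
  have hDS : Disjoint D S := by
    rw [Finset.disjoint_left]
    intro v h1 h2
    exact (Finset.mem_filter.1 h1).2.1 h2
  have hno : ∀ a ∈ A, ∀ c ∈ D, ¬ G.Adj a c := by
    intro a ha c hc hadj
    have ha' := (Finset.mem_filter.1 ha).2
    have hc' := (Finset.mem_filter.1 hc).2
    obtain ⟨-, K, h1, h2⟩ := (hK.adj_iff a c).1 hadj
    by_cases hb : Big inc K
    · exact hc'.2 K hb h2 (ha'.2 K hb h1)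
    · obtain ⟨Ka, h3, h4⟩ := hbig a
      obtain ⟨Kc, h5, h6⟩ := hbig c
      have h7 : Ka ∈ X := ha'.2 Ka h3 h4
      have h8 : Kc ∉ X := hc'.2 Kc h5 h6
      -- `K` crosses
      have h9 : m K ∈ S := by
        refine Finset.mem_image.2 ⟨Sum.inr K, Finset.mem_filter.2 ⟨Finset.mem_univ _, ?_⟩, rfl⟩
        exact ⟨⟨Ka, Finset.mem_filter.2 ⟨Finset.mem_univ _, hb, h3, a, h1, h4⟩, h7⟩,
          ⟨Kc, Finset.mem_filter.2 ⟨Finset.mem_univ _, hb, h5, c, h2, h6⟩, h8⟩⟩
      have h10 : a ≠ m K := fun h => ha'.1 (h ▸ h9)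
      have h11 : c ≠ m K := fun h => hc'.1 (h ▸ h9)
      obtain ⟨L, h12, h13⟩ := (hm K hb a c h1 h2 h10 h11).1 ⟨Ka, h7, h4⟩
      have hbL : Big inc L := (Finset.mem_filter.1 (hX h12)).2
      exact hc'.2 L hbL h13 h12
  by_cases hA : A.Nonempty
  · by_cases hD : D.Nonempty
    · have h1 := hcut S A D hcov hAD hAS hDS hA hD hno
      change 4 ≤ Cr.card
      omega
    · -- a big cell outside `X`
      obtain ⟨K, h1, h2⟩ : ∃ K ∈ bigs inc, K ∉ X := by
        by_contra h
        push Not at h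
        exact hX' (Finset.Subset.antisymm hX h)
      have h3 : (univ.filter fun v => inc v K) ⊆ S := by
        intro v hv
        have hv' := (Finset.mem_filter.1 hv).2
        have hbK := (Finset.mem_filter.1 h1).2
        rcases hcov v with h | h | h
        · exact h
        · exact absurd ((Finset.mem_filter.1 h).2.2 K hbK hv') h2
        · exact absurd ⟨v, h⟩ hD
      have h4 := Finset.card_le_card h3
      have h5 : 4 ≤ (univ.filter fun v => inc v K).card := (Finset.mem_filter.1 h1).2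
      change 4 ≤ Cr.card
      omega
  · have h3 : (univ.filter fun v => inc v K₀) ⊆ S := by
      intro v hv
      have hv' := (Finset.mem_filter.1 hv).2
      rcases hcov v with h | h | h
      · exact h
      · exact absurd ⟨v, h⟩ hA
      · exact absurd hK₀ ((Finset.mem_filter.1 h).2.2 K₀ hbK₀ hv')
    have h4 := Finset.card_le_card h3
    have h5 : 4 ≤ (univ.filter fun v => inc v K₀).card := hbK₀
    change 4 ≤ Cr.card
    omega

end Pool.Agent.ClawHam
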