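import Pool.Agent.Lib.MP_e2dbb5_co.C1

/-!
# All cuts of the hypergraph of the big cells with two cells on both sides have five hyperedges
-/

set_option autoImplicit false

open Finset

noncomputable section

namespace Pool.Agent.ClawHam

open Classical

/-- every part with at least two vertices on both sides is crossed by at least five hyperedges -/
def FiveEss {B I : Type} [Fintype I] (B₀ : Finset B) (e : I → Finset B) : Prop :=
  ∀ X : Finset B, X ⊆ B₀ → 2 ≤ X.card → X.card + 2 ≤ B₀.card →
    5 ≤ (univ.filter fun i => Crosses (e i) X).card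

/-- C5: the cuts of the hypergraph of the big cells with two cells on both sides -/
def RowC5 : Prop :=
  ∀ (V C : Type) [Fintype V] [Fintype C] (G : SimpleGraph V) (inc : V → C → Prop),
    Krausz G inc → NoSmallCut G → (∀ v, ∃ K, Big inc K ∧ inc v K) →
    FiveEss (bigs inc) (hyp inc)

/-- the lemma on hypergraphs of rank three in the form which is needed -/
def HypLemma5 : Prop :=
  ∀ (B I : Type) [Fintype B] [Fintype I] (e : I → Finset B),
    (∀ i, (e i).card = 2 ∨ (e i).card = 3) → FourConn univ e → FiveEss univ e → EvenConn univ e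

theorem two_big_cells {V C : Type} [Fintype V] [Fintype C] {G : SimpleGraph V}
    {inc : V → C → Prop} (hK : Krausz G inc) {K L : C} (hKL : K ≠ L) (hbK : Big inc K)
    (hbL : Big inc L) :
    7 ≤ ((univ.filter fun v => inc v K) ∪ (univ.filter fun v => inc v L)).card := by
  have h1 := Finset.card_union_add_card_inter (univ.filter fun v => inc v K)
    (univ.filter fun v => inc v L)
  have h2 : ((univ.filter fun v => inc v K) ∩ (univ.filter fun v => inc v L)).card ≤ 1 := by
    rw [Finset.card_le_one]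
    intro a ha b hb
    rw [Finset.mem_inter, Finset.mem_filter, Finset.mem_filter] at ha hb
    by_contra hab
    exact hKL (hK.uniq a b K L hab ha.1.2 hb.1.2 ha.2.2 hb.2.2)
  have h3 : 4 ≤ (univ.filter fun v => inc v K).card := hbK
  have h4 : 4 ≤ (univ.filter fun v => inc v L).card := hbL
  omega

open C1x in
theorem rowc5 : RowC5 := by
  intro V C _ _ G inc hK hcut hbig X hX hX2 hX3
  obtain ⟨K₀, hK₀⟩ : X.Nonempty := Finset.card_pos.1 (by omega)
  have hbK₀ : Big inc K₀ := (Finset.mem_filter.1 (hX hK₀)).2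
  have hV : Nonempty V := by
    unfold Big at hbK₀
    have h1 : 0 < (univ.filter fun v => inc v K₀).card := by omega
    obtain ⟨v, -⟩ := Finset.card_pos.1 h1
    exact ⟨v⟩
  -- the side of a vertex
  have hm : ∀ S : C, ∃ v : V, ¬ Big inc S → ∀ a b, inc a S → inc b S → a ≠ v → b ≠ v →
      ((∃ K ∈ X, inc a K) ↔ ∃ K ∈ X, inc b K) := by
    intro S
    by_cases hS : Big inc S
    · exact ⟨Classical.choice hV, fun h => absurd hS h⟩
    · obtain ⟨v, hv⟩ := minority (univ.filter fun v => inc v S) (small_card hS)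
        (fun a => ∃ K ∈ X, inc a K)
      exact ⟨v, fun _ a b ha hb => hv a (Finset.mem_filter.2 ⟨Finset.mem_univ _, ha⟩) b
        (Finset.mem_filter.2 ⟨Finset.mem_univ _, hb⟩)⟩
  choose m hm using hm
  let Cr : Finset (V ⊕ C) := univ.filter fun i => Crosses (hyp inc i) X
  let S : Finset V := Cr.image (Sum.elim id m)
  have hS : S.card ≤ Cr.card := Finset.card_image_le
  let A : Finset V := univ.filter fun v => v ∉ S ∧ ∀ K, Big inc K → inc v K → K ∈ X
  let D : Finset V := univ.filter fun v => v ∉ S ∧ ∀ K, Big inc K → inc v K → K ∉ X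
  -- a vertex with big cells on both sides is in `S`
  have hcr : ∀ v K L, Big inc K → inc v K → K ∈ X → Big inc L → inc v L → L ∉ X → v ∈ S := by
    intro v K L h1 h2 h3 h4 h5 h6
    refine Finset.mem_image.2 ⟨Sum.inl v, Finset.mem_filter.2 ⟨Finset.mem_univ _, ?_⟩, rfl⟩
    exact ⟨⟨K, Finset.mem_filter.2 ⟨Finset.mem_univ _, h1, h2⟩, h3⟩,
      ⟨L, Finset.mem_filter.2 ⟨Finset.mem_univ _, h4, h5⟩, h6⟩⟩
  have hcov : ∀ v, v ∈ S ∨ v ∈ A ∨ v ∈ D := by
    intro v
    by_cases hv : v ∈ S
    · exact Or.inl hv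
    · right
      obtain ⟨K, h1, h2⟩ := hbig v
      by_cases h3 : K ∈ X
      · left
        refine Finset.mem_filter.2 ⟨Finset.mem_univ _, hv, fun L h4 h5 => ?_⟩
        by_contra h6
        exact hv (hcr v K L h1 h2 h3 h4 h5 h6)
      · right
        refine Finset.mem_filter.2 ⟨Finset.mem_univ _, hv, fun L h4 h5 h6 => ?_⟩
        exact hv (hcr v L K h4 h5 h6 h1 h2 h3)
  have hAD : Disjoint A D := by
    rw [Finset.disjoint_left]
    intro v h1 h2
    obtain ⟨K, h3, h4⟩ := hbig v
    exact (Finset.mem_filter.1 h2).2.2 K h3 h4 ((Finset.mem_filter.1 h1).2.2 K h3 h4)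
  have hAS : Disjoint A S := by
    rw [Finset.disjoint_left]
    intro v h1 h2
    exact (Finset.mem_filter.1 h1).2.1 h2
  have hDS : Disjoint D S := by
    rw [Finset.disjoint_left]
    intro v h1 h2
    exact (Finset.mem_filter.1 h1).2.1 h2
  have hno : ∀ a ∈ A, ∀ c ∈ D, ¬ G.Adj a c := by
    intro a ha c hc hadj
    have ha' := (Finset.mem_filter.1 ha).2
    have hc' := (Finset.mem_filter.1 hc).2
    obtain ⟨-, K, h1, h2⟩ := (hK.adj_iff a c).1 hadj
    by_cases hb : Big inc K
    · exact hc'.2 K hb h2 (ha'.2 K hb h1)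
    · obtain ⟨Ka, h3, h4⟩ := hbig a
      obtain ⟨Kc, h5, h6⟩ := hbig c
      have h7 : Ka ∈ X := ha'.2 Ka h3 h4
      have h8 : Kc ∉ X := hc'.2 Kc h5 h6
      -- `K` crosses
      have h9 : m K ∈ S := by
        refine Finset.mem_image.2 ⟨Sum.inr K, Finset.mem_filter.2 ⟨Finset.mem_univ _, ?_⟩, rfl⟩
        exact ⟨⟨Ka, Finset.mem_filter.2 ⟨Finset.mem_univ _, hb, h3, a, h1, h4⟩, h7⟩,
          ⟨Kc, Finset.mem_filter.2 ⟨Finset.mem_univ _, hb, h5, c, h2, h6⟩, h8⟩⟩
      have h10 : a ≠ m K := fun h => ha'.1 (h ▸ h9)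
      have h11 : c ≠ m K := fun h => hc'.1 (h ▸ h9)
      obtain ⟨L, h12, h13⟩ := (hm K hb a c h1 h2 h10 h11).1 ⟨Ka, h7, h4⟩
      have hbL : Big inc L := (Finset.mem_filter.1 (hX h12)).2
      exact hc'.2 L hbL h13 h12
  by_cases hA : A.Nonempty
  · by_cases hD : D.Nonempty
    · have h1 := hcut S A D hcov hAD hAS hDS hA hD hno
      change 5 ≤ Cr.card
      omega
    · -- two big cells outside `X`
      have h0 : 1 < (bigs inc \ X).card := by
        rw [Finset.card_sdiff_of_subset hX]
        omega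
      obtain ⟨K, h1, L, h2, hKL⟩ := Finset.one_lt_card.1 h0
      rw [Finset.mem_sdiff] at h1 h2
      have hbK := (Finset.mem_filter.1 h1.1).2
      have hbL := (Finset.mem_filter.1 h2.1).2
      have h3 : (univ.filter fun v => inc v K) ∪ (univ.filter fun v => inc v L) ⊆ S := by
        intro v hv
        rcases hcov v with h | h | h
        · exact h
        · rcases Finset.mem_union.1 hv with hv | hv
          · exact absurd ((Finset.mem_filter.1 h).2.2 K hbK (Finset.mem_filter.1 hv).2) h1.2
          · exact absurd ((Finset.mem_filter.1 h).2.2 L hbL (Finset.mem_filter.1 hv).2) h2.2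
        · exact absurd ⟨v, h⟩ hD
      have h4 := Finset.card_le_card h3
      have h5 := two_big_cells hK hKL hbK hbL
      change 5 ≤ Cr.card
      omega
  · obtain ⟨K, h1, L, h2, hKL⟩ := Finset.one_lt_card.1 (by omega : 1 < X.card)
    have hbK := (Finset.mem_filter.1 (hX h1)).2
    have hbL := (Finset.mem_filter.1 (hX h2)).2
    have h3 : (univ.filter fun v => inc v K) ∪ (univ.filter fun v => inc v L) ⊆ S := by
      intro v hv
      rcases hcov v with h | h | h
      · exact h
      · exact absurd ⟨v, h⟩ hA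
      · rcases Finset.mem_union.1 hv with hv | hv
        · exact absurd h1 ((Finset.mem_filter.1 h).2.2 K hbK (Finset.mem_filter.1 hv).2)
        · exact absurd h2 ((Finset.mem_filter.1 h).2.2 L hbL (Finset.mem_filter.1 hv).2)
    have h4 := Finset.card_le_card h3
    have h5 := two_big_cells hK hKL hbK hbL
    change 5 ≤ Cr.card
    omega

end Pool.Agent.ClawHam
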