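import Pool.Agent.Lib.MP_e2dbb5_co.PR0

/-!
# The certificate COMB: rules and static links in one derivation (helper31, typed by helper70)

A spanning tree of picks; the free hyperedges are full. A step uses a hyperedge of the tree which
has not been used before. Rule: the pick lies inside a class, the hyperedge is joined to this
class. Link: the pick is `x y`, the third vertex `z` is on the side of `x`, and the path of the
tree from `x` to `z` contains no later step; then `x` and `z` are joined. If every class has an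
even number of leaving picks at the end, the hypergraph has a connected even choice.
-/

set_option autoImplicit false

open Finset

noncomputable section

namespace Pool.Agent.ClawHam.TK

open Classical

variable {B I : Type} [Fintype B] [Fintype I]

/-- `X` is crossed neither by a free hyperedge nor by the set `s i` of a step `i` of `A` -/
def Clo2 (e s : I → Finset B) (J A : Finset I) (X : Finset B) : Prop :=
  (∀ i, i ∉ J → ¬ Crosses (e i) X) ∧ ∀ i ∈ A, ¬ Crosses (s i) X

/-- derivations with rules and links; `A` is the set of the steps done, `L` is the set of the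
steps which come later; `s i` is the set which is joined by the step `i` -/
inductive DerC (e f s : I → Finset B) (J : Finset I) : Finset I → Finset I → Prop
  | nil {L : Finset I} : DerC e f s J ∅ L
  | rule {A L : Finset I} {i : I} : DerC e f s J A (insert i L) → i ∈ J → i ∉ A → i ∉ L →
      s i = e i → (∀ X, Clo2 e s J A X → ¬ Crosses (f i) X) → DerC e f s J (insert i A) L
  | link {A L : Finset I} {i : I} {x y z : B} : DerC e f s J A (insert i L) → i ∈ J → i ∉ A →
      i ∉ L → x ≠ y → z ≠ y → z ≠ x → z ∈ e i → f i = {x, y} → s i = {x, z} →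
      (∀ X : Finset B, ((x ∈ X ∧ z ∉ X) ∨ (z ∈ X ∧ x ∉ X)) →
        ∃ j ∈ J, j ≠ i ∧ j ∉ L ∧ Crosses (f j) X) → DerC e f s J (insert i A) L

theorem Clo2.compl {e s : I → Finset B} {J A : Finset I} {X : Finset B} (h : Clo2 e s J A X) :
    Clo2 e s J A Xᶜ :=
  ⟨fun i hi hc => h.1 i hi (crosses_compl_iff.1 hc), fun i hi hc => h.2 i hi (crosses_compl_iff.1 hc)⟩

theorem not_crosses_union {a X Y : Finset B} (h1 : ¬ Crosses a X) (h2 : ¬ Crosses a Y) :
    ¬ Crosses a (X ∪ Y) := by
  rw [not_crosses_iff]
  rcases not_crosses_iff.1 h1 with h1 | h1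
  · left; exact h1.trans subset_union_left
  · rcases not_crosses_iff.1 h2 with h2 | h2
    · left; exact h2.trans subset_union_right
    · right
      intro b hb hc
      rcases mem_union.1 hc with h | h
      · exact h1 b hb h
      · exact h2 b hb h

theorem Clo2.union {e s : I → Finset B} {J A : Finset I} {X Y : Finset B} (hX : Clo2 e s J A X)
    (hY : Clo2 e s J A Y) : Clo2 e s J A (X ∪ Y) :=
  ⟨fun i hi => not_crosses_union (hX.1 i hi) (hY.1 i hi),
    fun i hi => not_crosses_union (hX.2 i hi) (hY.2 i hi)⟩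

theorem Clo2.sdiff {e s : I → Finset B} {J A : Finset I} {X Y : Finset B} (hX : Clo2 e s J A X)
    (hY : Clo2 e s J A Y) : Clo2 e s J A (X \ Y) := by
  have h1 : X \ Y = (Xᶜ ∪ Y)ᶜ := by
    ext z
    simp only [mem_sdiff, mem_compl, mem_union, not_or, not_not]
  rw [h1]
  exact (hX.compl.union hY).compl

theorem Clo2.ins {e s : I → Finset B} {J A : Finset I} {i : I} {X : Finset B}
    (hX : Clo2 e s J A X) (hi : ¬ Crosses (s i) X) : Clo2 e s J (insert i A) X := by
  refine ⟨hX.1, fun j hj => ?_⟩
  rcases mem_insert.1 hj with rfl | hj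
  · exact hi
  · exact hX.2 j hj

theorem Clo2.mono {e s : I → Finset B} {J A A' : Finset I} {X : Finset B} (hAA : A ⊆ A')
    (hX : Clo2 e s J A' X) : Clo2 e s J A X :=
  ⟨hX.1, fun j hj => hX.2 j (hAA hj)⟩

/-- the class of `c` -/
def cls2 (e s : I → Finset B) (J A : Finset I) (c : B) : Finset B :=
  univ.filter fun x => ∀ X, Clo2 e s J A X → c ∈ X → x ∈ X

theorem cls2_cross {e s : I → Finset B} {J A : Finset I} {c : B} {a : Finset B}
    (h : ∀ X, Clo2 e s J A X → ¬ Crosses a X) : ¬ Crosses a (cls2 e s J A c) := by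
  rintro ⟨⟨x, hx, hxL⟩, y, hy, hyL⟩
  unfold cls2 at hxL hyL
  rw [mem_filter] at hxL
  have h1 : ¬ ∀ X, Clo2 e s J A X → c ∈ X → y ∈ X := fun h => hyL (mem_filter.2 ⟨mem_univ _, h⟩)
  push Not at h1
  obtain ⟨X, hX, hcX, hyX⟩ := h1
  exact h X hX ⟨⟨x, hx, hxL.2 X hX hcX⟩, y, hy, hyX⟩

theorem cls2_clo (e s : I → Finset B) (J A : Finset I) (c : B) :
    Clo2 e s J A (cls2 e s J A c) :=
  ⟨fun i hi => cls2_cross fun _ hX => hX.1 i hi, fun i hi => cls2_cross fun _ hX => hX.2 i hi⟩

theorem self_mem_cls2 (e s : I → Finset B) (J A : Finset I) (c : B) : c ∈ cls2 e s J A c :=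
  mem_filter.2 ⟨mem_univ _, fun _ _ h => h⟩

theorem cls2_sub {e s : I → Finset B} {J A : Finset I} {c : B} {X : Finset B}
    (hX : Clo2 e s J A X) (hc : c ∈ X) : cls2 e s J A c ⊆ X :=
  fun _ hx => (mem_filter.1 hx).2 X hX hc

theorem cls2_disj {e s : I → Finset B} {J A : Finset I} {c : B} {X : Finset B}
    (hX : Clo2 e s J A X) (hc : c ∉ X) : Disjoint X (cls2 e s J A c) := by
  rw [Finset.disjoint_left]
  intro x hx hxL
  have h1 := cls2_sub hX.compl (mem_compl.2 hc) hxL
  exact (mem_compl.1 h1) hx

/-- parity of the classes before and after a step -/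
theorem even_split2 {e s : I → Finset B} {J A : Finset I} {i : I} {m : Finset B} {c : B}
    (hc : c ∈ s i) (he : ∀ z ∈ s i, z ∈ m ∨ z = c)
    (hins : ∀ X, Clo2 e s J A X → ¬ Crosses m X) {d : B → ZMod 2}
    (h1 : ∀ X, Clo2 e s J (insert i A) X → ∑ K ∈ X, d K = 0)
    (hL : ∑ K ∈ cls2 e s J A c, d K = 0) : ∀ X, Clo2 e s J A X → ∑ K ∈ X, d K = 0 := by
  intro X hX
  by_cases hcr : Crosses (s i) X
  · by_cases hcX : c ∈ X
    · have hs : ∀ a ∈ m, a ∉ X := by
        rcases not_crosses_iff.1 (hins X hX) with h | h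
        · exfalso
          obtain ⟨-, b, hb, hbX⟩ := hcr
          rcases he b hb with h' | rfl
          · exact hbX (h h')
          · exact hbX hcX
        · exact h
      have h2 : Clo2 e s J (insert i A) (X \ cls2 e s J A c) := by
        apply (hX.sdiff (cls2_clo e s J A c)).ins
        rw [not_crosses_iff]
        right
        intro a ha haX
        rw [mem_sdiff] at haX
        rcases he a ha with h' | rfl
        · exact hs a h' haX.1
        · exact haX.2 (self_mem_cls2 e s J A _)
      have h3 := Finset.sum_sdiff (cls2_sub hX hcX) (f := d)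
      rw [h1 _ h2, hL, add_zero] at h3
      exact h3.symm
    · have hs : m ⊆ X := by
        rcases not_crosses_iff.1 (hins X hX) with h | h
        · exact h
        · exfalso
          obtain ⟨⟨a, ha, haX⟩, -⟩ := hcr
          rcases he a ha with h' | rfl
          · exact h a h' haX
          · exact hcX haX
      have h2 : Clo2 e s J (insert i A) (X ∪ cls2 e s J A c) := by
        apply (hX.union (cls2_clo e s J A c)).ins
        rw [not_crosses_iff]
        left
        intro a ha
        rcases he a ha with h' | rfl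
        · exact mem_union_left _ (hs h')
        · exact mem_union_right _ (self_mem_cls2 e s J A _)
      have h3 := Finset.sum_union (cls2_disj hX hcX) (f := d)
      rw [h1 _ h2, hL, add_zero] at h3
      exact h3.symm
  · exact h1 X (hX.ins hcr)

/-- changing the pick of `i` from `x y` to `z y` flips the parities at `x` and `z`; if the class
of `z` was odd, everything is even afterwards -/
theorem flip_step {e s g : I → Finset B} {J A : Finset I} {i : I} {m : Finset B} {x y z : B}
    (h3 : ∀ i, (e i).card ≤ 3) (hT : Tree g J) (hP : Pick e g)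
    (hfree : ∀ j, j ∉ J → g j = ∅) (hiJ : i ∈ J)
    (hev : ∀ X, Clo2 e s J (insert i A) X → ∑ K ∈ X, dg g K = 0)
    (hins : ∀ X, Clo2 e s J A X → ¬ Crosses m X) (hmx : x ∈ m)
    (hzs : z ∈ s i) (hxs : x ∈ s i) (hsm : ∀ b ∈ s i, b ∈ m ∨ b = z)
    (hgi : g i = {x, y}) (hxy : x ≠ y) (hzx : z ≠ x) (hzy : z ≠ y) (hze : z ∈ e i)
    {D : Finset B} (hD : Crosses (g i) D ∧ ∀ j ∈ J, j ≠ i → ¬ Crosses (g j) D)
    (hzD : Crosses {z, y} D) (hp : ∑ K ∈ cls2 e s J A z, dg g K ≠ 0) :
    ∃ g1 : I → Finset B, Tree g1 J ∧ Pick e g1 ∧ (∀ j, j ∉ J → g1 j = ∅) ∧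
      (∀ j, j ≠ i → g1 j = g j) ∧ ∀ X, Clo2 e s J A X → ∑ K ∈ X, dg g1 K = 0 := by
  have hxe : x ∈ e i := (hP i).1 (by rw [hgi]; simp)
  have hsd : symmDiff (g i) {z, x} = {z, y} := by
    rw [hgi]
    ext b
    simp only [Finset.mem_symmDiff, mem_insert, mem_singleton]
    constructor
    · rintro (⟨h1 | h1, h2⟩ | ⟨h1 | h1, h2⟩)
      · exact absurd (Or.inr h1) h2
      · exact Or.inr h1
      · exact Or.inl h1
      · exact absurd (Or.inl h1) h2
    · rintro (h1 | h1)
      · right
        refine ⟨Or.inl h1, ?_⟩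
        rintro (h2 | h2)
        · exact hzx (h1.symm.trans h2)
        · exact hzy (h1.symm.trans h2)
      · left
        refine ⟨Or.inr h1, ?_⟩
        rintro (h2 | h2)
        · exact hzy (h2.symm.trans h1)
        · exact hxy (h2.symm.trans h1)
  set g1 := Function.update g i (symmDiff (g i) {z, x}) with hg1
  have hP1 : Pick e g1 := pick_step hP hze hxe hzx (h3 i)
  have hT1 : Tree g1 J := by
    have h4 := hT.exchange (f' := g1) (g := i) hiJ hD
      (fun j _ hji => by rw [hg1, Function.update_of_ne hji]) (Or.inl rfl)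
      (by rw [hg1, Function.update_self, hsd, card_pair hzy])
      (by rw [hg1, Function.update_self, hsd]; exact hzD)
    rwa [insert_erase hiJ] at h4
  have hfree1 : ∀ j, j ∉ J → g1 j = ∅ := by
    intro j hj
    have hji : j ≠ i := by rintro rfl; exact hj hiJ
    rw [hg1, Function.update_of_ne hji]
    exact hfree j hj
  have hdg : ∀ K, dg g1 K = dg g K + (ind {z} K + ind {x} K) := by
    intro K
    unfold dg
    rw [hg1, sum_update, ind_pair hzx]
  have hsum : ∀ X : Finset B, ∑ K ∈ X, dg g1 K = ∑ K ∈ X, dg g K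
      + ((if z ∈ X then 1 else 0) + (if x ∈ X then 1 else 0)) := by
    intro X
    rw [Finset.sum_congr rfl fun K _ => hdg K, Finset.sum_add_distrib,
      Finset.sum_add_distrib, ind_singleton_sum, ind_singleton_sum]
  have hev1 : ∀ X, Clo2 e s J (insert i A) X → ∑ K ∈ X, dg g1 K = 0 := by
    intro X hX
    rw [hsum, hev X hX, zero_add]
    have h4 := hX.2 i (mem_insert_self _ _)
    rcases not_crosses_iff.1 h4 with h5 | h5
    · rw [if_pos (h5 hzs), if_pos (h5 hxs)]; decide
    · rw [if_neg (h5 z hzs), if_neg (h5 x hxs)]; decide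
  have hzL := self_mem_cls2 e s J A z
  have hxL : x ∉ cls2 e s J A z := by
    intro h5
    apply hp
    apply hev
    apply (cls2_clo e s J A z).ins
    rw [not_crosses_iff]
    left
    intro b hb
    rcases hsm b hb with h6 | rfl
    · rcases not_crosses_iff.1 (hins _ (cls2_clo e s J A z)) with h7 | h7
      · exact h7 h6
      · exact absurd h5 (h7 x hmx)
    · exact hzL
  have hL1 : ∑ K ∈ cls2 e s J A z, dg g1 K = 0 := by
    rw [hsum, if_pos hzL, if_neg hxL, z2 _ hp]
    decide
  exact ⟨g1, hT1, hP1, hfree1, fun j hji => by rw [hg1, Function.update_of_ne hji],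
    even_split2 hzs hsm hins hev1 hL1⟩

/-! ### The descent -/

theorem down2 {e f s : I → Finset B} {J A L : Finset I} (h3 : ∀ i, (e i).card ≤ 3)
    (hA : DerC e f s J A L) : ∀ g : I → Finset B, Tree g J → Pick e g →
      (∀ i, i ∉ J → g i = ∅) → (∀ i ∈ J, i ∉ L → g i = f i) →
      (∀ X, Clo2 e s J A X → ∑ K ∈ X, dg g K = 0) →
      ∃ g' : I → Finset B, Tree g' J ∧ Pick e g' ∧ (∀ i, i ∉ J → g' i = ∅) ∧
        ∀ X, Clo2 e s J ∅ X → ∑ K ∈ X, dg g' K = 0 := by
  induction hA with
  | nil => intro g hT hP hfree _ hev; exact ⟨g, hT, hP, hfree, hev⟩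
  | @rule A L i hA hiJ hiA hiL hsi hins ih =>
    intro g hT hP hfree hgA hev
    have hgA' : ∀ j ∈ J, j ∉ insert i L → g j = f j := fun j hj hjL =>
      hgA j hj fun h => hjL (mem_insert_of_mem h)
    have hgi : g i = f i := hgA i hiJ hiL
    have hg2 : (g i).card = 2 := hT.two i hiJ
    have hins' : ∀ X, Clo2 e s J A X → ¬ Crosses (g i) X := by
      rw [hgi]; exact hins
    by_cases hc : e i ⊆ g i
    · apply ih g hT hP hfree hgA'
      intro X hX
      apply hev
      apply hX.ins
      rw [hsi]
      rintro ⟨⟨a, ha, haX⟩, b, hb, hbX⟩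
      exact hins' X hX ⟨⟨a, hc ha, haX⟩, b, hc hb, hbX⟩
    · obtain ⟨c, hce, hcg⟩ := Finset.not_subset.1 hc
      have hei : e i = insert c (g i) := by
        symm
        apply Finset.eq_of_subset_of_card_le
        · exact insert_subset hce (hP i).1
        · rw [card_insert_of_notMem hcg, hg2]
          exact h3 i
      have he : ∀ z ∈ s i, z ∈ g i ∨ z = c := by
        intro z hz
        rw [hsi, hei, mem_insert] at hz
        exact hz.symm
      have hcs : c ∈ s i := by rw [hsi]; exact hce
      by_cases hp : ∑ K ∈ cls2 e s J A c, dg g K = 0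
      · exact ih g hT hP hfree hgA' (even_split2 hcs he hins' hev hp)
      · -- the new pick
        obtain ⟨D, hD⟩ := hT.exists_cut hiJ
        have hw : ∃ w w' : B, g i = {w', w} ∧ w ≠ w' ∧ Crosses {c, w} D := by
          obtain ⟨x, y, hx, hy, hxy, hs⟩ := pair_crosses hg2 hD.1
          by_cases hcD : c ∈ D
          · exact ⟨y, x, hs, hxy.symm, ⟨c, by simp, hcD⟩, y, by simp, hy⟩
          · exact ⟨x, y, by rw [hs, pair_comm], hxy, ⟨x, by simp, hx⟩, c, by simp, hcD⟩
        obtain ⟨w, w', hgw, hww, hcw⟩ := hw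
        have hcw1 : c ≠ w := by rintro rfl; exact hcg (by rw [hgw]; simp)
        have hcw2 : c ≠ w' := by rintro rfl; exact hcg (by rw [hgw]; simp)
        have hwe' : w' ∈ e i := (hP i).1 (by rw [hgw]; simp)
        obtain ⟨g1, hT1, hP1, hfree1, hne, he1⟩ := flip_step (m := g i) (x := w') (y := w)
          (z := c) h3 hT hP hfree hiJ hev hins' (by rw [hgw]; simp) hcs
          (by rw [hsi]; exact hwe') he hgw hww.symm hcw2 hcw1 hce hD hcw hp
        exact ih g1 hT1 hP1 hfree1 (fun j hj hjL => by
          have hji : j ≠ i := by rintro rfl; exact hjL (mem_insert_self _ _)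
          rw [hne j hji]
          exact hgA' j hj hjL) he1
  | @link A L i x y z hA hiJ hiA hiL hxy hzy hzx hze hfi hsi hpath ih =>
    intro g hT hP hfree hgA hev
    have hgA' : ∀ j ∈ J, j ∉ insert i L → g j = f j := fun j hj hjL =>
      hgA j hj fun h => hjL (mem_insert_of_mem h)
    have hgi : g i = {x, y} := by rw [hgA i hiJ hiL, hfi]
    have hins' : ∀ X, Clo2 e s J A X → ¬ Crosses ({x} : Finset B) X := by
      rintro X - ⟨⟨a, ha, haX⟩, b, hb, hbX⟩
      rw [mem_singleton] at ha hb
      rw [ha] at haX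
      rw [hb] at hbX
      exact hbX haX
    have hsm : ∀ b ∈ s i, b ∈ ({x} : Finset B) ∨ b = z := by
      intro b hb
      rw [hsi, mem_insert, mem_singleton] at hb
      rcases hb with hb | hb
      · left; rw [hb]; simp
      · right; exact hb
    have hzs : z ∈ s i := by rw [hsi]; simp
    have hxs : x ∈ s i := by rw [hsi]; simp
    by_cases hp : ∑ K ∈ cls2 e s J A z, dg g K = 0
    · exact ih g hT hP hfree hgA' (even_split2 hzs hsm hins' hev hp)
    · obtain ⟨D, hD⟩ := hT.exists_cut hiJ
      have hside : x ∈ D ↔ z ∈ D := by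
        by_contra hcon
        have h5 : (x ∈ D ∧ z ∉ D) ∨ (z ∈ D ∧ x ∉ D) := by tauto
        obtain ⟨j, hj, hji, hjL, hjc⟩ := hpath D h5
        apply hD.2 j hj hji
        rw [hgA j hj hjL]
        exact hjc
      have hzD : Crosses {z, y} D := by
        have h6 := hD.1
        rw [hgi] at h6
        obtain ⟨⟨a, ha, haD⟩, b, hb, hbD⟩ := h6
        rw [mem_insert, mem_singleton] at ha hb
        rcases ha with rfl | rfl
        · rcases hb with rfl | rfl
          · exact absurd haD hbD
          · exact ⟨⟨z, by simp, hside.1 haD⟩, b, by simp, hbD⟩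
        · rcases hb with rfl | rfl
          · exact ⟨⟨a, by simp, haD⟩, z, by simp, fun h => hbD (hside.2 h)⟩
          · exact absurd haD hbD
      obtain ⟨g1, hT1, hP1, hfree1, hne, he1⟩ := flip_step (m := {x}) (x := x) (y := y)
        (z := z) h3 hT hP hfree hiJ hev hins' (by simp) hzs hxs hsm hgi hxy hzx hzy hze hD hzD hp
      exact ih g1 hT1 hP1 hfree1 (fun j hj hjL => by
        have hji : j ≠ i := by rintro rfl; exact hjL (mem_insert_self _ _)
        rw [hne j hji]
        exact hgA' j hj hjL) he1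

/-- **COMB**: rules and links; if every class at the end has an even number of leaving picks,
there is a connected even choice. -/
theorem evenConn_of_comb {e f s : I → Finset B} {J A : Finset I} (h3 : ∀ i, (e i).card ≤ 3)
    (hT : Tree f J) (hsub : ∀ i ∈ J, f i ⊆ e i) (hA : DerC e f s J A ∅)
    (hpar : ∀ X, Clo2 e s J A X → Even (J.filter fun i => Crosses (f i) X).card) :
    EvenConn univ e := by
  set g : I → Finset B := fun i => if i ∈ J then f i else ∅ with hg
  have hgJ : ∀ i ∈ J, g i = f i := fun i hi => by rw [hg]; simp only [if_pos hi]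
  have hgf : ∀ i, i ∉ J → g i = ∅ := fun i hi => by rw [hg]; simp only [if_neg hi]
  have hTg : Tree g J := by
    refine ⟨fun i hi => by rw [hgJ i hi]; exact hT.two i hi, ?_, hT.card⟩
    intro X hX hX'
    obtain ⟨i, hi, hc⟩ := hT.conn X hX hX'
    exact ⟨i, hi, by rw [hgJ i hi]; exact hc⟩
  have hPg : Pick e g := by
    intro i
    by_cases hi : i ∈ J
    · rw [hgJ i hi]
      exact ⟨hsub i hi, Or.inr (hT.two i hi)⟩
    · rw [hgf i hi]
      exact ⟨empty_subset _, Or.inl rfl⟩
  have hev : ∀ X, Clo2 e s J A X → ∑ K ∈ X, dg g K = 0 := by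
    intro X hX
    unfold dg
    rw [Finset.sum_comm]
    have h5 : ∀ i, ∑ K ∈ X, ind (g i) K = if (i ∈ J ∧ Crosses (f i) X) then 1 else 0 := by
      intro i
      rw [sum_ind]
      by_cases hi : i ∈ J
      · by_cases hc : Crosses (f i) X
        · rw [if_pos ⟨hi, hc⟩, hgJ i hi]
          obtain ⟨a, b, ha, hb, hab, hs⟩ := pair_crosses (hT.two i hi) hc
          have h6 : f i ∩ X = {a} := by
            rw [hs]
            ext w
            simp only [mem_inter, mem_insert, mem_singleton]
            constructor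
            · rintro ⟨rfl | rfl, h8⟩
              · rfl
              · exact absurd h8 hb
            · rintro rfl
              exact ⟨Or.inl rfl, ha⟩
          rw [h6, card_singleton]
          decide
        · rw [if_neg (fun h => hc h.2)]
          apply card_inter_even (hPg i).2
          rw [hgJ i hi]
          exact hc
      · rw [if_neg (fun h => hi h.1), hgf i hi]
        simp
    rw [Finset.sum_congr rfl fun i _ => h5 i, Finset.sum_boole]
    rw [ZMod.natCast_eq_zero_iff_even]
    have h7 : (univ.filter fun i => i ∈ J ∧ Crosses (f i) X)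
        = J.filter fun i => Crosses (f i) X := by
      ext i
      simp
    rw [h7]
    exact hpar X hX
  obtain ⟨g', hT', hP', hfree', hev'⟩ := down2 h3 hA g hTg hPg hgf
    (fun i hi _ => hgJ i hi) hev
  have hev'' : ∀ X, Clo e J ∅ X → ∑ K ∈ X, dg g' K = 0 := by
    intro X hX
    exact hev' X ⟨fun i hi => hX i (Or.inl hi), fun i hi => absurd hi (notMem_empty i)⟩
  obtain ⟨h, hPh, hhJ, hhd⟩ := join_base h3 _ (dg g') rfl hev''
  refine ⟨fun i => if i ∈ J then g' i else h i, ?_, ?_, ?_⟩
  · intro i
    by_cases hi : i ∈ J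
    · simp only [if_pos hi]; exact hP' i
    · simp only [if_neg hi]; exact hPh i
  · intro K
    have h5 : ∑ i, ind (if i ∈ J then g' i else h i) K = 0 := by
      have h6 : ∀ i, ind (if i ∈ J then g' i else h i) K = ind (g' i) K + ind (h i) K := by
        intro i
        by_cases hi : i ∈ J
        · rw [if_pos hi, hhJ i hi, ind_empty, add_zero]
        · rw [if_neg hi, hfree' i hi, ind_empty, zero_add]
      rw [Finset.sum_congr rfl fun i _ => h6 i, Finset.sum_add_distrib, hhd K]
      exact zadd _
    unfold ind at h5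
    rw [Finset.sum_boole] at h5
    exact (ZMod.natCast_eq_zero_iff_even).1 h5
  · intro X _ hX hX'
    obtain ⟨i, hi, hc⟩ := hT'.conn X hX hX'
    exact ⟨i, by simp only [if_pos hi]; exact hc⟩

/-- COMB with full closure -/
theorem evenConn_of_comb_full {e f s : I → Finset B} {J A : Finset I}
    (h3 : ∀ i, (e i).card ≤ 3) (hT : Tree f J) (hsub : ∀ i ∈ J, f i ⊆ e i)
    (hA : DerC e f s J A ∅) (hfull : ∀ X, Clo2 e s J A X → X = ∅ ∨ X = univ) :
    EvenConn univ e := by
  apply evenConn_of_comb h3 hT hsub hA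
  intro X hX
  have h0 : (J.filter fun i => Crosses (f i) X) = ∅ := by
    apply Finset.filter_eq_empty_iff.2
    rintro i - ⟨⟨a, -, ha⟩, b, -, hb⟩
    rcases hfull X hX with rfl | rfl
    · exact absurd ha (notMem_empty a)
    · exact hb (mem_univ b)
  rw [h0]
  exact ⟨0, rfl⟩

end Pool.Agent.ClawHam.TK
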