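import Pool.Agent.Lib.MP_e2dbb5_co.PR0

/-!
# The certificate COMB (helper31, typed by helper47)

A spanning tree of picks; the free hyperedges are full. Steps are hyperedges of the tree:
a RULE (the pick lies inside a class: the whole hyperedge is joined) or a LINK (pick `{x, y}`,
third vertex `z`; `x` and `z` are joined; `x` and `z` are connected in the tree without the step
itself and without the later steps). If everything is joined, every even set of vertices is the set
of odd vertices of a connected choice; in particular there is a connected even choice.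
-/

set_option autoImplicit false

open Finset

noncomputable section

namespace Pool.Agent.ClawHam.TK.CB1

open Classical

variable {B I : Type} [Fintype B] [Fintype I]

/-- the joined sets: free hyperedges are full, a hyperedge of the tree joins `s i` -/
def mix (e s : I → Finset B) (J : Finset I) : I → Finset B := fun i => if i ∈ J then s i else e i

/-- the derivation, `F` is the set of all steps; a later step is an element of `F` outside `A` -/
inductive DerC (e s f : I → Finset B) (J F : Finset I) : Finset I → Prop
  | nil : DerC e s f J F ∅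
  | rule {A : Finset I} {i : I} : DerC e s f J F A → i ∈ J → i ∈ F → i ∉ A → s i = e i →
      (∀ X, Clo (mix e s J) J A X → ¬ Crosses (f i) X) → DerC e s f J F (insert i A)
  | link {A : Finset I} {i : I} {x y z : B} : DerC e s f J F A → i ∈ J → i ∈ F → i ∉ A →
      f i = {x, y} → z ∈ e i → z ≠ x → z ≠ y → x ≠ y → s i = {x, z} →
      (∀ X, (∀ j ∈ J, (j ∉ F ∨ j ∈ A) → ¬ Crosses (f j) X) → x ∈ X → z ∈ X) →
      DerC e s f J F (insert i A)

theorem mix_mem {e s : I → Finset B} {J : Finset I} {i : I} (h : i ∈ J) : mix e s J i = s i := by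
  unfold mix; rw [if_pos h]

theorem mix_not {e s : I → Finset B} {J : Finset I} {i : I} (h : i ∉ J) : mix e s J i = e i := by
  unfold mix; rw [if_neg h]

/-- re-pick one hyperedge of the tree -/
theorem repick {e g : I → Finset B} {J : Finset I} (h3 : ∀ i, (e i).card ≤ 3) (hT : Tree g J)
    (hP : Pick e g) {i : I} (hiJ : i ∈ J) {c w w' : B} (hgw : g i = {w, w'}) (hww : w ≠ w')
    (hce : c ∈ e i) (hcw1 : c ≠ w) (hcw2 : c ≠ w') {D : Finset B} (hD : Cut g J i D)
    (hcw : Crosses {c, w} D) :
    ∃ g1 : I → Finset B, Tree g1 J ∧ Pick e g1 ∧ (∀ j, j ≠ i → g1 j = g j) ∧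
      ∀ K, dg g1 K = dg g K + (ind {c} K + ind {w'} K) := by
  have hwe' : w' ∈ e i := (hP i).1 (by rw [hgw]; simp)
  have hsd : symmDiff (g i) {c, w'} = {c, w} := by
    rw [hgw]
    ext z
    simp only [Finset.mem_symmDiff, mem_insert, mem_singleton]
    constructor
    · rintro (⟨h1 | h1, h2⟩ | ⟨h1 | h1, h2⟩)
      · exact Or.inr h1
      · exact absurd (Or.inr h1) h2
      · exact Or.inl h1
      · exact absurd (Or.inr h1) h2
    · rintro (h1 | h1)
      · right
        refine ⟨Or.inl h1, ?_⟩
        rintro (h2 | h2)
        · exact hcw1 (h1.symm.trans h2)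
        · exact hcw2 (h1.symm.trans h2)
      · left
        refine ⟨Or.inl h1, ?_⟩
        rintro (h2 | h2)
        · exact hcw1 (h2.symm.trans h1)
        · exact hww (h1.symm.trans h2)
  refine ⟨Function.update g i (symmDiff (g i) {c, w'}), ?_,
    pick_step hP hce hwe' hcw2 (h3 i), fun j hj => by rw [Function.update_of_ne hj], ?_⟩
  · have h4 := hT.exchange (f' := Function.update g i (symmDiff (g i) {c, w'})) (g := i) hiJ hD
      (fun j _ hji => by rw [Function.update_of_ne hji]) (Or.inl rfl)
      (by rw [Function.update_self, hsd, card_pair hcw1])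
      (by rw [Function.update_self, hsd]; exact hcw)
    rwa [insert_erase hiJ] at h4
  · intro K
    unfold dg
    rw [sum_update, ind_pair hcw2]

theorem sum_dg {g g1 : I → Finset B} {c w' : B}
    (hdg : ∀ K, dg g1 K = dg g K + (ind {c} K + ind {w'} K)) (q : B → ZMod 2) (X : Finset B) :
    ∑ K ∈ X, (dg g1 K + q K) = ∑ K ∈ X, (dg g K + q K)
      + ((if c ∈ X then 1 else 0) + (if w' ∈ X then 1 else 0)) := by
  have h1 : ∑ K ∈ X, (dg g1 K + q K)
      = ∑ K ∈ X, ((dg g K + q K) + (ind {c} K + ind {w'} K)) :=
    Finset.sum_congr rfl fun K _ => by rw [hdg K]; ring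
  have h2 : ∑ K ∈ X, (ind {c} K + ind {w'} K)
      = (if c ∈ X then 1 else 0) + (if w' ∈ X then 1 else 0) := by
    rw [Finset.sum_add_distrib, ind_singleton_sum, ind_singleton_sum]
  rw [h1, Finset.sum_add_distrib, h2]

theorem not_crosses_singleton (x : B) (X : Finset B) : ¬ Crosses {x} X := by
  rintro ⟨⟨a, ha, haX⟩, b, hb, hbX⟩
  rw [mem_singleton] at ha hb
  subst ha; subst hb
  exact hbX haX

/-- **the descent** -/
theorem downC {e s f : I → Finset B} {J F A : Finset I} (h3 : ∀ i, (e i).card ≤ 3)
    (q : B → ZMod 2) (hA : DerC e s f J F A) : ∀ g : I → Finset B, Tree g J → Pick e g →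
      (∀ i, i ∉ J → g i = ∅) → (∀ i ∈ J, (i ∉ F ∨ i ∈ A) → g i = f i) →
      (∀ X, Clo (mix e s J) J A X → ∑ K ∈ X, (dg g K + q K) = 0) →
      ∃ g' : I → Finset B, Tree g' J ∧ Pick e g' ∧ (∀ i, i ∉ J → g' i = ∅) ∧
        ∀ X, Clo (mix e s J) J ∅ X → ∑ K ∈ X, (dg g' K + q K) = 0 := by
  induction hA with
  | nil => intro g hT hP hfree _ hev; exact ⟨g, hT, hP, hfree, hev⟩
  | @rule A i hA hiJ hiF hiA hsi hins ih =>
    intro g hT hP hfree hgA hev
    have hmi : mix e s J i = e i := by rw [mix_mem hiJ, hsi]
    have hgi : g i = f i := hgA i hiJ (Or.inr (mem_insert_self _ _))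
    have hg2 : (g i).card = 2 := hT.two i hiJ
    have hgA' : ∀ j ∈ J, (j ∉ F ∨ j ∈ A) → g j = f j := fun j hj h =>
      hgA j hj (h.imp id (mem_insert_of_mem))
    by_cases hc : e i ⊆ g i
    · apply ih g hT hP hfree hgA'
      intro X hX
      apply hev
      intro j hj
      rcases hj with hj | hj
      · exact hX j (Or.inl hj)
      · rcases mem_insert.1 hj with rfl | hj
        · rw [hmi]
          rintro ⟨⟨a, ha, haX⟩, b, hb, hbX⟩
          apply hins X hX
          rw [← hgi]
          exact ⟨⟨a, hc ha, haX⟩, b, hc hb, hbX⟩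
        · exact hX j (Or.inr hj)
    · obtain ⟨c, hce, hcg⟩ := Finset.not_subset.1 hc
      have hei : e i = insert c (g i) := by
        symm
        apply Finset.eq_of_subset_of_card_le
        · exact insert_subset hce (hP i).1
        · rw [card_insert_of_notMem hcg, hg2]
          exact h3 i
      have he : ∀ z ∈ mix e s J i, z ∈ g i ∨ z = c := by
        intro z hz
        rw [hmi, hei, mem_insert] at hz
        exact hz.symm
      have hins' : ∀ X, Clo (mix e s J) J A X → ¬ Crosses (g i) X := by
        rw [hgi]; exact hins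
      have hcm : c ∈ mix e s J i := by rw [hmi]; exact hce
      by_cases hp : ∑ K ∈ cls (mix e s J) J A c, (dg g K + q K) = 0
      · exact ih g hT hP hfree hgA' (even_split hcm he hins' hev hp)
      · obtain ⟨D, hD⟩ := hT.exists_cut hiJ
        have hw : ∃ w w' : B, g i = {w, w'} ∧ w ≠ w' ∧ Crosses {c, w} D := by
          obtain ⟨x, y, hx, hy, hxy, hs⟩ := pair_crosses hg2 hD.1
          by_cases hcD : c ∈ D
          · exact ⟨y, x, by rw [hs, pair_comm], hxy.symm, ⟨c, by simp, hcD⟩, y, by simp, hy⟩
          · exact ⟨x, y, hs, hxy, ⟨x, by simp, hx⟩, c, by simp, hcD⟩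
        obtain ⟨w, w', hgw, hww, hcw⟩ := hw
        have hcw1 : c ≠ w := by rintro rfl; exact hcg (by rw [hgw]; simp)
        have hcw2 : c ≠ w' := by rintro rfl; exact hcg (by rw [hgw]; simp)
        have hwe' : w' ∈ e i := (hP i).1 (by rw [hgw]; simp)
        obtain ⟨g1, hT1, hP1, hg1, hdg⟩ := repick h3 hT hP hiJ hgw hww hce hcw1 hcw2 hD hcw
        have hfree1 : ∀ j, j ∉ J → g1 j = ∅ := by
          intro j hj
          have hji : j ≠ i := by rintro rfl; exact hj hiJ
          rw [hg1 j hji]
          exact hfree j hj
        have hgA1 : ∀ j ∈ J, (j ∉ F ∨ j ∈ A) → g1 j = f j := by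
          intro j hjJ hj
          have hji : j ≠ i := by
            rintro rfl
            rcases hj with h | h
            · exact h hiF
            · exact hiA h
          rw [hg1 j hji]
          exact hgA' j hjJ hj
        have hsum := sum_dg hdg q
        have hev1 : ∀ X, Clo (mix e s J) J (insert i A) X → ∑ K ∈ X, (dg g1 K + q K) = 0 := by
          intro X hX
          rw [hsum, hev X hX, zero_add]
          have h4 := hX i (Or.inr (mem_insert_self _ _))
          rw [hmi] at h4
          rcases not_crosses_iff.1 h4 with h5 | h5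
          · rw [if_pos (h5 hce), if_pos (h5 hwe')]; decide
          · rw [if_neg (h5 c hce), if_neg (h5 w' hwe')]; decide
        have hcL := self_mem_cls (mix e s J) J A c
        have hw'L : w' ∉ cls (mix e s J) J A c := by
          intro h5
          apply hp
          apply hev
          intro j hj
          rcases hj with hj | hj
          · exact cls_clo (mix e s J) J A c j (Or.inl hj)
          · rcases mem_insert.1 hj with rfl | hj
            · rw [not_crosses_iff]
              left
              intro z hz
              rcases he z hz with h6 | rfl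
              · rcases not_crosses_iff.1 (hins' _ (cls_clo (mix e s J) J A c)) with h7 | h7
                · exact h7 h6
                · exact absurd h5 (h7 w' (by rw [hgw]; simp))
              · exact hcL
            · exact cls_clo (mix e s J) J A c j (Or.inr hj)
        have hL1 : ∑ K ∈ cls (mix e s J) J A c, (dg g1 K + q K) = 0 := by
          rw [hsum, if_pos hcL, if_neg hw'L, z2 _ hp]
          decide
        have he1 : ∀ X, Clo (mix e s J) J A X → ∑ K ∈ X, (dg g1 K + q K) = 0 :=
          even_split hcm he hins' hev1 hL1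
        exact ih g1 hT1 hP1 hfree1 hgA1 he1
  | @link A i x y z hA hiJ hiF hiA hfi hze hzx hzy hxy hsi hpath ih =>
    intro g hT hP hfree hgA hev
    have hmi : mix e s J i = {x, z} := by rw [mix_mem hiJ, hsi]
    have hgi : g i = {x, y} := by rw [hgA i hiJ (Or.inr (mem_insert_self _ _)), hfi]
    have hgA' : ∀ j ∈ J, (j ∉ F ∨ j ∈ A) → g j = f j := fun j hj h =>
      hgA j hj (h.imp id (mem_insert_of_mem))
    have hxe : x ∈ e i := (hP i).1 (by rw [hgi]; simp)
    have hzm : z ∈ mix e s J i := by rw [hmi]; simp
    have he : ∀ w ∈ mix e s J i, w ∈ ({x} : Finset B) ∨ w = z := by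
      intro w hw
      rw [hmi, mem_insert, mem_singleton] at hw
      rcases hw with rfl | hw
      · left; simp
      · right; exact hw
    have hsing : ∀ X, Clo (mix e s J) J A X → ¬ Crosses ({x} : Finset B) X :=
      fun X _ => not_crosses_singleton x X
    by_cases hp : ∑ K ∈ cls (mix e s J) J A z, (dg g K + q K) = 0
    · exact ih g hT hP hfree hgA' (even_split hzm he hsing hev hp)
    · obtain ⟨D, hD⟩ := hT.exists_cut hiJ
      -- no other hyperedge of the tree crosses `D`
      have hDj : ∀ j ∈ J, (j ∉ F ∨ j ∈ A) → ¬ Crosses (f j) D := by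
        intro j hjJ hj hcr
        have hji : j ≠ i := by
          rintro rfl
          rcases hj with h | h
          · exact h hiF
          · exact hiA h
        rw [← hgA' j hjJ hj] at hcr
        exact hD.2 j hjJ hji hcr
      have hDj' : ∀ j ∈ J, (j ∉ F ∨ j ∈ A) → ¬ Crosses (f j) Dᶜ := fun j hjJ hj hcr =>
        hDj j hjJ hj (crosses_compl_iff.1 hcr)
      have hxz : x ∈ D → z ∈ D := hpath D hDj
      have hxz' : x ∉ D → z ∉ D := fun h => by
        have := hpath Dᶜ hDj' (mem_compl.2 h)
        exact mem_compl.1 this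
      have hgy : g i = {y, x} := by rw [hgi, pair_comm]
      have hcy : Crosses {z, y} D := by
        have h1 := hD.1
        rw [hgi] at h1
        obtain ⟨⟨a, ha, haD⟩, b, hb, hbD⟩ := h1
        rw [mem_insert, mem_singleton] at ha hb
        by_cases hxD : x ∈ D
        · have hyD : y ∉ D := by
            rcases hb with rfl | rfl
            · exact absurd hxD hbD
            · exact hbD
          exact ⟨⟨z, by simp, hxz hxD⟩, y, by simp, hyD⟩
        · have hyD : y ∈ D := by
            rcases ha with rfl | rfl
            · exact absurd haD hxD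
            · exact haD
          exact ⟨⟨y, by simp, hyD⟩, z, by simp, hxz' hxD⟩
      obtain ⟨g1, hT1, hP1, hg1, hdg⟩ :=
        repick h3 hT hP hiJ hgy hxy.symm hze hzy hzx hD hcy
      have hfree1 : ∀ j, j ∉ J → g1 j = ∅ := by
        intro j hj
        have hji : j ≠ i := by rintro rfl; exact hj hiJ
        rw [hg1 j hji]
        exact hfree j hj
      have hgA1 : ∀ j ∈ J, (j ∉ F ∨ j ∈ A) → g1 j = f j := by
        intro j hjJ hj
        have hji : j ≠ i := by
          rintro rfl
          rcases hj with h | h
          · exact h hiF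
          · exact hiA h
        rw [hg1 j hji]
        exact hgA' j hjJ hj
      have hsum := sum_dg hdg q
      have hev1 : ∀ X, Clo (mix e s J) J (insert i A) X → ∑ K ∈ X, (dg g1 K + q K) = 0 := by
        intro X hX
        rw [hsum, hev X hX, zero_add]
        have h4 := hX i (Or.inr (mem_insert_self _ _))
        rw [hmi] at h4
        rcases not_crosses_iff.1 h4 with h5 | h5
        · rw [if_pos (h5 (by simp)), if_pos (h5 (by simp))]; decide
        · rw [if_neg (h5 z (by simp)), if_neg (h5 x (by simp))]; decide
      have hzL := self_mem_cls (mix e s J) J A z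
      have hxL : x ∉ cls (mix e s J) J A z := by
        intro h5
        apply hp
        apply hev
        intro j hj
        rcases hj with hj | hj
        · exact cls_clo (mix e s J) J A z j (Or.inl hj)
        · rcases mem_insert.1 hj with rfl | hj
          · rw [not_crosses_iff]
            left
            intro w hw
            rw [hmi, mem_insert, mem_singleton] at hw
            rcases hw with rfl | rfl
            · exact h5
            · exact hzL
          · exact cls_clo (mix e s J) J A z j (Or.inr hj)
      have hL1 : ∑ K ∈ cls (mix e s J) J A z, (dg g1 K + q K) = 0 := by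
        rw [hsum, if_pos hzL, if_neg hxL, z2 _ hp]
        decide
      exact ih g1 hT1 hP1 hfree1 hgA1 (even_split hzm he hsing hev1 hL1)

/-- **COMB**, every parity: `q` is any even vector. -/
theorem choice_of_comb {e s f : I → Finset B} {J F : Finset I} (h3 : ∀ i, (e i).card ≤ 3)
    (hT : Tree f J) (hsub : ∀ i ∈ J, f i ⊆ e i) (hA : DerC e s f J F F)
    (hfull : ∀ X, Clo (mix e s J) J F X → X = ∅ ∨ X = univ) (q : B → ZMod 2)
    (hq : ∑ K, q K = 0) :
    ∃ k : I → Finset B, Pick e k ∧ (∀ K, ∑ i, ind (k i) K = q K) ∧
      ∀ X : Finset B, X.Nonempty → X ≠ univ → ∃ i, Crosses (k i) X := by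
  set g : I → Finset B := fun i => if i ∈ J then f i else ∅ with hg
  have hgJ : ∀ i ∈ J, g i = f i := fun i hi => by rw [hg]; simp only [if_pos hi]
  have hgf : ∀ i, i ∉ J → g i = ∅ := fun i hi => by rw [hg]; simp only [if_neg hi]
  have hTg : Tree g J := by
    refine ⟨fun i hi => by rw [hgJ i hi]; exact hT.two i hi, ?_, hT.card⟩
    intro X hX hX'
    obtain ⟨i, hi, hc⟩ := hT.conn X hX hX'
    exact ⟨i, hi, by rw [hgJ i hi]; exact hc⟩
  have hPg : Pick e g := by
    intro i
    by_cases hi : i ∈ J
    · rw [hgJ i hi]
      exact ⟨hsub i hi, Or.inr (hT.two i hi)⟩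
    · rw [hgf i hi]
      exact ⟨empty_subset _, Or.inl rfl⟩
  have hev : ∀ X, Clo (mix e s J) J F X → ∑ K ∈ X, (dg g K + q K) = 0 := by
    intro X hX
    rcases hfull X hX with rfl | rfl
    · simp
    · rw [Finset.sum_add_distrib, hq, add_zero]
      unfold dg
      rw [Finset.sum_comm]
      apply Finset.sum_eq_zero
      intro i _
      rw [sum_ind]
      apply card_inter_even (hPg i).2
      rintro ⟨-, b, -, hb⟩
      exact hb (mem_univ b)
  obtain ⟨g', hT', hP', hfree', hev'⟩ := downC h3 q hA g hTg hPg hgf
    (fun i hi _ => hgJ i hi) hev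
  have hev2 : ∀ X, Clo e J ∅ X → ∑ K ∈ X, (dg g' K + q K) = 0 := by
    intro X hX
    apply hev'
    intro j hj
    rcases hj with hj | hj
    · rw [mix_not hj]; exact hX j (Or.inl hj)
    · simp at hj
  obtain ⟨h, hPh, hhJ, hhd⟩ := join_base h3 _ (fun K => dg g' K + q K) rfl hev2
  refine ⟨fun i => if i ∈ J then g' i else h i, ?_, ?_, ?_⟩
  · intro i
    by_cases hi : i ∈ J
    · simp only [if_pos hi]; exact hP' i
    · simp only [if_neg hi]; exact hPh i
  · intro K
    have h6 : ∀ i, ind (if i ∈ J then g' i else h i) K = ind (g' i) K + ind (h i) K := by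
      intro i
      by_cases hi : i ∈ J
      · rw [if_pos hi, hhJ i hi, ind_empty, add_zero]
      · rw [if_neg hi, hfree' i hi, ind_empty, zero_add]
    rw [Finset.sum_congr rfl fun i _ => h6 i, Finset.sum_add_distrib, hhd K]
    have h7 : ∑ i, ind (g' i) K = dg g' K := rfl
    rw [h7]
    have := zadd (dg g' K)
    linear_combination this
  · intro X hX hX'
    obtain ⟨i, hi, hc⟩ := hT'.conn X hX hX'
    exact ⟨i, by simp only [if_pos hi]; exact hc⟩

/-- **COMB** gives a connected even choice. -/
theorem evenConn_of_comb {e s f : I → Finset B} {J F : Finset I} (h3 : ∀ i, (e i).card ≤ 3)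
    (hT : Tree f J) (hsub : ∀ i ∈ J, f i ⊆ e i) (hA : DerC e s f J F F)
    (hfull : ∀ X, Clo (mix e s J) J F X → X = ∅ ∨ X = univ) : EvenConn univ e := by
  obtain ⟨k, hP, hk, hc⟩ := choice_of_comb h3 hT hsub hA hfull (fun _ => 0) (by simp)
  refine ⟨k, hP, ?_, fun X _ hX hX' => hc X hX hX'⟩
  intro K
  have h5 := hk K
  unfold ind at h5
  rw [Finset.sum_boole] at h5
  exact (ZMod.natCast_eq_zero_iff_even).1 h5

end Pool.Agent.ClawHam.TK.CB1
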