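import Pool.Agent.Lib.MP_e2dbb5_co.FB
import Pool.Agent.Lib.MP_e2dbb5_co.K

/-!
# The count: from the weak skeletal lemma to `HypLemmaC` (helper81)
-/

set_option autoImplicit false

open Finset

noncomputable section

namespace Pool.Agent.ClawHam

open Classical

/-- The weak skeletal lemma, with slack `s`: if the hypergraph has no connected even choice, then
there are a partition with `p ≥ 2` classes (the labelling `c`) and a set `J` of hyperedges meeting
three classes such that `m₂ + 2 m₃ ≤ 2 p - 3 - s + |J|`, and `J` is empty or meets at least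
`|J| + 1` classes. -/
def SKW (s : ℕ) : Prop :=
  ∀ (B I : Type) [Fintype B] [Fintype I] (e : I → Finset B),
    (∀ i, (e i).card = 2 ∨ (e i).card = 3) → FourConn univ e → ¬ EvenConn univ e →
    ∃ (c : B → B) (J : Finset I), 2 ≤ (univ.image c).card ∧
      (∀ i ∈ J, ((e i).image c).card = 3) ∧
      ∑ i, (((e i).image c).card - 1) + 3 + s ≤ 2 * (univ.image c).card + J.card ∧
      (J = ∅ ∨ J.card + 1 ≤ (J.biUnion fun i => (e i).image c).card)

namespace Cnt

variable {B I : Type} [Fintype B] [Fintype I]

theorem sum_crosses (e : I → Finset B) (c : B → B) :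
    ∑ y ∈ univ.image c, (univ.filter fun i => Crosses (e i) (univ.filter fun b => c b = y)).card =
      ∑ i, wt ((e i).image c).card := by
  have h2 : ∀ i, ∑ y ∈ univ.image c,
      (if Crosses (e i) (univ.filter fun b => c b = y) then 1 else 0) =
      wt ((e i).image c).card := by
    intro i
    rw [← Finset.card_filter]
    unfold wt
    split_ifs with h3
    · rw [Finset.card_eq_zero, Finset.filter_eq_empty_iff]
      intro y _ h4
      have := ((Kx.crosses_class _ _ _).1 h4).2
      omega
    · congr 1
      ext y
      rw [Finset.mem_filter, Kx.crosses_class]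
      constructor
      · exact fun h4 => h4.2.1
      · exact fun h4 => ⟨Finset.image_subset_image (Finset.subset_univ _) h4, h4, by omega⟩
  calc ∑ y ∈ univ.image c,
        (univ.filter fun i => Crosses (e i) (univ.filter fun b => c b = y)).card
        = ∑ y ∈ univ.image c, ∑ i,
        (if Crosses (e i) (univ.filter fun b => c b = y) then 1 else 0) := by
        refine Finset.sum_congr rfl fun y _ => ?_
        rw [Finset.card_filter]
    _ = ∑ i, ∑ y ∈ univ.image c,
        (if Crosses (e i) (univ.filter fun b => c b = y) then 1 else 0) := Finset.sum_comm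
    _ = _ := Finset.sum_congr rfl fun i _ => h2 i

/-- a class of degree four which meets a hyperedge with three classes is a single vertex -/
theorem low_class (e : I → Finset B) (he : ∀ i, (e i).card = 2 ∨ (e i).card = 3)
    (h5 : FiveEss univ e) (c : B → B) (i₀ : I) (hi : ((e i₀).image c).card = 3) (y : B)
    (hy : y ∈ (e i₀).image c)
    (hd : (univ.filter fun i => Crosses (e i) (univ.filter fun b => c b = y)).card = 4) :
    ∃ b ∈ Deg4T e, c b = y := by
  obtain ⟨b, hb, hby⟩ := Finset.mem_image.1 hy
  set X : Finset B := univ.filter fun b => c b = y with hX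
  have hbX : b ∈ X := Finset.mem_filter.2 ⟨Finset.mem_univ _, hby⟩
  have h2 : 2 ≤ (univ \ X : Finset B).card := by
    have h3 : ((e i₀).image c).card ≤ (univ \ X : Finset B).card + 1 := by
      have h4 : (e i₀).image c ⊆ insert y ((univ \ X : Finset B).image c) := by
        intro z hz
        obtain ⟨a, ha, haz⟩ := Finset.mem_image.1 hz
        by_cases h5 : z = y
        · exact Finset.mem_insert.2 (Or.inl h5)
        · refine Finset.mem_insert.2 (Or.inr (Finset.mem_image.2 ⟨a, ?_, haz⟩))
          refine Finset.mem_sdiff.2 ⟨Finset.mem_univ _, fun h6 => h5 ?_⟩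
          rw [← haz]
          exact (Finset.mem_filter.1 h6).2
      exact (Finset.card_le_card h4).trans ((Finset.card_insert_le _ _).trans
        (Nat.add_le_add_right Finset.card_image_le 1))
    omega
  have h3 : X.card + (univ \ X : Finset B).card = (univ : Finset B).card := by
    rw [Finset.card_sdiff_of_subset (Finset.subset_univ _)]
    have := Finset.card_le_card (Finset.subset_univ X)
    omega
  have h4 : X.card ≤ 1 := by
    by_contra hlt
    have := h5 X (Finset.subset_univ _) (by omega) (by omega)
    omega
  have hXb : X = {b} := by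
    have h6 : X.card = 1 := by
      have := Finset.card_pos.2 ⟨b, hbX⟩
      omega
    obtain ⟨a, ha⟩ := Finset.card_eq_one.1 h6
    rw [ha] at hbX
    rw [ha, Finset.mem_singleton.1 hbX]
  refine ⟨b, mem_deg4T.2 ⟨?_, i₀, hb, ?_⟩, hby⟩
  · rw [← hXb]
    exact hd
  · rcases he i₀ with h7 | h7
    · have := Finset.card_image_le (s := e i₀) (f := c)
      omega
    · exact h7

end Cnt

open Cnt in
/-- the count -/
theorem hypLemmaC_of_skw (s : ℕ) (h : SKW s) : HypLemmaC (6 + 2 * s) := by
  intro B I _ _ e he h4 h5 hm
  by_contra hne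
  obtain ⟨c, J, hp, hJ3, hsum, hJ⟩ := h B I e he h4 hne
  set P := univ.image c with hP
  set d : B → ℕ := fun y =>
    (univ.filter fun i => Crosses (e i) (univ.filter fun b => c b = y)).card with hd
  set W := J.biUnion fun i => (e i).image c with hW
  have hWP : W ⊆ P := by
    intro y hy
    obtain ⟨i, _, hi⟩ := Finset.mem_biUnion.1 hy
    exact Finset.image_subset_image (Finset.subset_univ _) hi
  -- all degrees are at least four
  have hd4 : ∀ y ∈ P, 4 ≤ d y := by
    intro y hy
    obtain ⟨a, -, ha⟩ := Finset.mem_image.1 hy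
    refine h4 _ (Finset.subset_univ _) ⟨a, Finset.mem_filter.2 ⟨Finset.mem_univ _, ha⟩⟩ ?_
    intro h2
    obtain ⟨z, hz, hzy⟩ := Finset.exists_mem_ne (by omega : 1 < P.card) y
    obtain ⟨b, -, hb⟩ := Finset.mem_image.1 hz
    have h3 : b ∈ (univ.filter fun b => c b = y) := by rw [h2]; exact Finset.mem_univ _
    exact hzy (hb ▸ (Finset.mem_filter.1 h3).2)
  -- the classes of degree four in `W`
  have hlow : (W.filter fun y => d y = 4).card ≤ (Deg4T e).card := by
    have h6 : (W.filter fun y => d y = 4) ⊆ (Deg4T e).image c := by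
      intro y hy
      obtain ⟨hy1, hy2⟩ := Finset.mem_filter.1 hy
      obtain ⟨i, hi1, hi2⟩ := Finset.mem_biUnion.1 hy1
      obtain ⟨b, hb1, hb2⟩ := low_class e he h5 c i (hJ3 i hi1) y hi2 hy2
      exact Finset.mem_image.2 ⟨b, hb1, hb2⟩
    exact (Finset.card_le_card h6).trans Finset.card_image_le
  -- sum of the degrees
  have hsumd : 4 * P.card + W.card ≤ ∑ y ∈ P, d y + (Deg4T e).card := by
    have h7 : ∀ y ∈ P, 4 + (if y ∈ W ∧ d y ≠ 4 then 1 else 0) ≤ d y := by
      intro y hy
      have := hd4 y hy
      split_ifs with h8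
      · have := h8.2
        omega
      · omega
    have h8 := Finset.sum_le_sum h7
    rw [Finset.sum_add_distrib, Finset.sum_const, smul_eq_mul, ← Finset.card_filter] at h8
    have h9 : (P.filter fun y => y ∈ W ∧ d y ≠ 4) = W.filter fun y => ¬ d y = 4 := by
      ext y
      simp only [Finset.mem_filter]
      exact ⟨fun h => h.2, fun h => ⟨hWP h.1, h⟩⟩
    rw [h9] at h8
    have h10 := Finset.card_filter_add_card_filter_not (s := W) (fun y => d y = 4)
    omega
  have hsumw : ∑ y ∈ P, d y = ∑ i, wt ((e i).image c).card := sum_crosses e c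
  have hT : J.card ≤ (univ.filter fun i => ((e i).image c).card = 3).card :=
    Finset.card_le_card fun i hi => Finset.mem_filter.2 ⟨Finset.mem_univ _, hJ3 i hi⟩
  have h2 : ∑ i, wt ((e i).image c).card + (univ.filter fun i => ((e i).image c).card = 3).card =
      2 * ∑ i, (((e i).image c).card - 1) := by
    rw [Finset.card_filter, ← Finset.sum_add_distrib, Finset.mul_sum]
    refine Finset.sum_congr rfl fun i _ => ?_
    have h11 : ((e i).image c).card ≤ 3 := by
      have := Finset.card_image_le (s := e i) (f := c)
      rcases he i with h | h <;> omega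
    have h12 : 1 ≤ ((e i).image c).card := by
      rw [Nat.succ_le_iff, Finset.card_pos, Finset.image_nonempty, ← Finset.card_pos]
      rcases he i with h | h <;> omega
    unfold wt
    split_ifs <;> omega
  rcases hJ with hJ | hJ
  · have h13 : W.card = 0 := by
      rw [hW, hJ]
      simp
    rw [hJ] at hsum hT
    have h14 : 4 * P.card ≤ ∑ y ∈ P, d y := by
      have := Finset.card_nsmul_le_sum P d 4 hd4
      rw [smul_eq_mul, mul_comm] at this
      exact this
    simp only [Finset.card_empty] at hsum hT
    omega
  · omega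

end Pool.Agent.ClawHam
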