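import Pool.Agent.Lib.MP_e2dbb5_co.SK_CNT
import Pool.Agent.Lib.MP_e2dbb5_co.CNT

/-!
# From the skeletal lemma to the weak skeletal lemma (helper81)
-/

set_option autoImplicit false

open Finset

noncomputable section

namespace Pool.Agent.ClawHam

open Classical

namespace Sk

theorem skw_of (hS : SKEL) (hC : CNT) : SKW 0 := by
  intro B I _ _ e he _ hne
  rcases isEmpty_or_nonempty B with hB | hB
  · exact absurd (evenConn_empty e) hne
  rcases hS B I e he with h | ⟨p, R, hleg, hR, hT, hL, hN⟩
  · exact absurd (Kx.evenConn_of_certK e h) hne
  obtain ⟨J, h1, h2, h3⟩ := hC B I e p he hleg R hR hT hL hN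
  -- representatives
  have hinj : Function.Injective (fun q : Quotient R => q.out) := by
    intro q q' h
    have h' : q.out = q'.out := h
    rw [← q.out_eq, ← q'.out_eq, h']
  have himg : ∀ s : Finset B, s.image (fun b => (Quotient.mk R b).out) =
      (s.image (Quotient.mk R)).image (fun q : Quotient R => q.out) := by
    intro s
    rw [Finset.image_image]
    rfl
  have hcard : ∀ s : Finset B, (s.image (fun b => (Quotient.mk R b).out)).card =
      (s.image (Quotient.mk R)).card := by
    intro s
    rw [himg, Finset.card_image_of_injective _ hinj]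
  have huniv : ((univ : Finset B).image (Quotient.mk R)) = univ := by
    rw [Finset.eq_univ_iff_forall]
    intro q
    induction q using Quotient.inductionOn with
    | h x => exact Finset.mem_image_of_mem _ (Finset.mem_univ x)
  have hp : ((univ : Finset B).image (fun b => (Quotient.mk R b).out)).card =
      Fintype.card (Quotient R) := by
    rw [hcard, huniv, Finset.card_univ]
  have hge1 : ∀ i, 1 ≤ ((e i).image (Quotient.mk R)).card := by
    intro i
    rw [Nat.succ_le_iff, Finset.card_pos, Finset.image_nonempty, ← Finset.card_pos]
    rcases he i with h | h <;> omega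
  have hle3 : ∀ i, ((e i).image (Quotient.mk R)).card ≤ 3 := by
    intro i
    have := Finset.card_image_le (s := e i) (f := Quotient.mk R)
    rcases he i with h | h <;> omega
  refine ⟨fun b => (Quotient.mk R b).out, J, ?_, ?_, ?_, ?_⟩
  · rw [hp]
    by_contra hlt
    apply hR
    rw [eq_top_iff]
    intro x y _
    exact Quotient.exact (Fintype.card_le_one_iff.1 (by omega) (Quotient.mk R x)
      (Quotient.mk R y))
  · intro i hi
    rw [hcard, ← (h1 i hi).1]
    refine Finset.card_image_of_injOn ?_
    intro x hx y hy hxy
    by_contra hne'
    exact (h1 i hi).2 x hx y hy hne' (Quotient.exact hxy)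
  · rw [hp]
    have h4 : ∑ i, (((e i).image (fun b => (Quotient.mk R b).out)).card - 1) =
        (univ.filter fun i => ((e i).image (Quotient.mk R)).card = 2).card +
        2 * (univ.filter fun i => ((e i).image (Quotient.mk R)).card = 3).card := by
      rw [Finset.card_filter, Finset.card_filter, Finset.mul_sum, ← Finset.sum_add_distrib]
      refine Finset.sum_congr rfl fun i _ => ?_
      rw [hcard]
      have := hle3 i
      have := hge1 i
      split_ifs <;> omega
    rw [h4]
    omega
  · rcases J.eq_empty_or_nonempty with h | h
    · exact Or.inl h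
    · right
      have h5 := h3 h
      have h6 : (J.biUnion fun i => (e i).image (fun b => (Quotient.mk R b).out)) =
          (univ.filter fun q : Quotient R => ∃ i ∈ J, ∃ x ∈ e i, Quotient.mk R x = q).image
            (fun q : Quotient R => q.out) := by
        ext b
        rw [Finset.mem_biUnion, Finset.mem_image]
        constructor
        · rintro ⟨i, hi, hb⟩
          obtain ⟨x, hx, rfl⟩ := Finset.mem_image.1 hb
          exact ⟨Quotient.mk R x, Finset.mem_filter.2 ⟨Finset.mem_univ _, i, hi, x, hx, rfl⟩, rfl⟩
        · rintro ⟨q, hq, rfl⟩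
          obtain ⟨i, hi, x, hx, rfl⟩ := (Finset.mem_filter.1 hq).2
          exact ⟨i, hi, Finset.mem_image.2 ⟨x, hx, rfl⟩⟩
      rw [h6, Finset.card_image_of_injective _ hinj]
      exact h5

/-- the lemma on hypergraphs with at most six vertices of degree four in triples -/
theorem hypLemmaC6_of_skel (hS : SKEL) : HypLemmaC 6 :=
  hypLemmaC_of_skw 0 (skw_of hS cnt)

end Sk

end Pool.Agent.ClawHam
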