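import Pool.Agent.Lib.MP_e2dbb5_co.SK_ALL
import Pool.Agent.Lib.MP_e2dbb5_co.SK_SKW81

/-!
# The count, with the certificate `CertK` as conclusion

Copies of the proofs of helper81 (`CNT.lean`, `SK_SKW81.lean`), with `CertK e` instead of
`EvenConn univ e`. (helper42)
-/

set_option autoImplicit false

open Finset

noncomputable section

namespace Pool.Agent.ClawHam

open Classical

/-- The weak skeletal lemma, with slack `s`, for the certificate `CertK`. -/
def SKWK (s : ℕ) : Prop :=
  ∀ (B I : Type) [Fintype B] [Nonempty B] [Fintype I] (e : I → Finset B),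
    (∀ i, (e i).card = 2 ∨ (e i).card = 3) → FourConn univ e → ¬ CertK e →
    ∃ (c : B → B) (J : Finset I), 2 ≤ (univ.image c).card ∧
      (∀ i ∈ J, ((e i).image c).card = 3) ∧
      ∑ i, (((e i).image c).card - 1) + 3 + s ≤ 2 * (univ.image c).card + J.card ∧
      (J = ∅ ∨ J.card + 1 ≤ (J.biUnion fun i => (e i).image c).card)

open Cnt in
/-- the count, for the certificate -/
theorem certK_of_skwk (s : ℕ) (h : SKWK s) (B I : Type) [Fintype B] [Nonempty B] [Fintype I]
    (e : I → Finset B) (he : ∀ i, (e i).card = 2 ∨ (e i).card = 3) (h4 : FourConn univ e)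
    (h5 : FiveEss univ e) (hm : (Deg4T e).card ≤ 6 + 2 * s) : CertK e := by
  by_contra hne
  obtain ⟨c, J, hp, hJ3, hsum, hJ⟩ := h B I e he h4 hne
  set P := univ.image c with hP
  set d : B → ℕ := fun y =>
    (univ.filter fun i => Crosses (e i) (univ.filter fun b => c b = y)).card with hd
  set W := J.biUnion fun i => (e i).image c with hW
  have hWP : W ⊆ P := by
    intro y hy
    obtain ⟨i, _, hi⟩ := Finset.mem_biUnion.1 hy
    exact Finset.image_subset_image (Finset.subset_univ _) hi
  -- all degrees are at least four
  have hd4 : ∀ y ∈ P, 4 ≤ d y := by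
    intro y hy
    obtain ⟨a, -, ha⟩ := Finset.mem_image.1 hy
    refine h4 _ (Finset.subset_univ _) ⟨a, Finset.mem_filter.2 ⟨Finset.mem_univ _, ha⟩⟩ ?_
    intro h2
    obtain ⟨z, hz, hzy⟩ := Finset.exists_mem_ne (by omega : 1 < P.card) y
    obtain ⟨b, -, hb⟩ := Finset.mem_image.1 hz
    have h3 : b ∈ (univ.filter fun b => c b = y) := by rw [h2]; exact Finset.mem_univ _
    exact hzy (hb ▸ (Finset.mem_filter.1 h3).2)
  -- the classes of degree four in `W`
  have hlow : (W.filter fun y => d y = 4).card ≤ (Deg4T e).card := by
    have h6 : (W.filter fun y => d y = 4) ⊆ (Deg4T e).image c := by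
      intro y hy
      obtain ⟨hy1, hy2⟩ := Finset.mem_filter.1 hy
      obtain ⟨i, hi1, hi2⟩ := Finset.mem_biUnion.1 hy1
      obtain ⟨b, hb1, hb2⟩ := low_class e he h5 c i (hJ3 i hi1) y hi2 hy2
      exact Finset.mem_image.2 ⟨b, hb1, hb2⟩
    exact (Finset.card_le_card h6).trans Finset.card_image_le
  -- sum of the degrees
  have hsumd : 4 * P.card + W.card ≤ ∑ y ∈ P, d y + (Deg4T e).card := by
    have h7 : ∀ y ∈ P, 4 + (if y ∈ W ∧ d y ≠ 4 then 1 else 0) ≤ d y := by
      intro y hy
      have := hd4 y hy
      split_ifs with h8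
      · have := h8.2
        omega
      · omega
    have h8 := Finset.sum_le_sum h7
    rw [Finset.sum_add_distrib, Finset.sum_const, smul_eq_mul, ← Finset.card_filter] at h8
    have h9 : (P.filter fun y => y ∈ W ∧ d y ≠ 4) = W.filter fun y => ¬ d y = 4 := by
      ext y
      simp only [Finset.mem_filter]
      exact ⟨fun h => h.2, fun h => ⟨hWP h.1, h⟩⟩
    rw [h9] at h8
    have h10 := Finset.card_filter_add_card_filter_not (s := W) (fun y => d y = 4)
    omega
  have hsumw : ∑ y ∈ P, d y = ∑ i, wt ((e i).image c).card := sum_crosses e c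
  have hT : J.card ≤ (univ.filter fun i => ((e i).image c).card = 3).card :=
    Finset.card_le_card fun i hi => Finset.mem_filter.2 ⟨Finset.mem_univ _, hJ3 i hi⟩
  have h2 : ∑ i, wt ((e i).image c).card + (univ.filter fun i => ((e i).image c).card = 3).card =
      2 * ∑ i, (((e i).image c).card - 1) := by
    rw [Finset.card_filter, ← Finset.sum_add_distrib, Finset.mul_sum]
    refine Finset.sum_congr rfl fun i _ => ?_
    have h11 : ((e i).image c).card ≤ 3 := by
      have := Finset.card_image_le (s := e i) (f := c)
      rcases he i with h | h <;> omega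
    have h12 : 1 ≤ ((e i).image c).card := by
      rw [Nat.succ_le_iff, Finset.card_pos, Finset.image_nonempty, ← Finset.card_pos]
      rcases he i with h | h <;> omega
    unfold wt
    split_ifs <;> omega
  rcases hJ with hJ | hJ
  · have h13 : W.card = 0 := by
      rw [hW, hJ]
      simp
    rw [hJ] at hsum hT
    have h14 : 4 * P.card ≤ ∑ y ∈ P, d y := by
      have := Finset.card_nsmul_le_sum P d 4 hd4
      rw [smul_eq_mul, mul_comm] at this
      exact this
    simp only [Finset.card_empty] at hsum hT
    omega
  · omega


namespace Sk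

theorem skwk_of (hS : SKEL) (hC : CNT) : SKWK 0 := by
  intro B I _ _ _ e he _ hne
  rcases hS B I e he with h | ⟨p, R, hleg, hR, hT, hL, hN⟩
  · exact absurd h hne
  obtain ⟨J, h1, h2, h3⟩ := hC B I e p he hleg R hR hT hL hN
  -- representatives
  have hinj : Function.Injective (fun q : Quotient R => q.out) := by
    intro q q' h
    have h' : q.out = q'.out := h
    rw [← q.out_eq, ← q'.out_eq, h']
  have himg : ∀ s : Finset B, s.image (fun b => (Quotient.mk R b).out) =
      (s.image (Quotient.mk R)).image (fun q : Quotient R => q.out) := by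
    intro s
    rw [Finset.image_image]
    rfl
  have hcard : ∀ s : Finset B, (s.image (fun b => (Quotient.mk R b).out)).card =
      (s.image (Quotient.mk R)).card := by
    intro s
    rw [himg, Finset.card_image_of_injective _ hinj]
  have huniv : ((univ : Finset B).image (Quotient.mk R)) = univ := by
    rw [Finset.eq_univ_iff_forall]
    intro q
    induction q using Quotient.inductionOn with
    | h x => exact Finset.mem_image_of_mem _ (Finset.mem_univ x)
  have hp : ((univ : Finset B).image (fun b => (Quotient.mk R b).out)).card =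
      Fintype.card (Quotient R) := by
    rw [hcard, huniv, Finset.card_univ]
  have hge1 : ∀ i, 1 ≤ ((e i).image (Quotient.mk R)).card := by
    intro i
    rw [Nat.succ_le_iff, Finset.card_pos, Finset.image_nonempty, ← Finset.card_pos]
    rcases he i with h | h <;> omega
  have hle3 : ∀ i, ((e i).image (Quotient.mk R)).card ≤ 3 := by
    intro i
    have := Finset.card_image_le (s := e i) (f := Quotient.mk R)
    rcases he i with h | h <;> omega
  refine ⟨fun b => (Quotient.mk R b).out, J, ?_, ?_, ?_, ?_⟩
  · rw [hp]
    by_contra hlt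
    apply hR
    rw [eq_top_iff]
    intro x y _
    exact Quotient.exact (Fintype.card_le_one_iff.1 (by omega) (Quotient.mk R x)
      (Quotient.mk R y))
  · intro i hi
    rw [hcard, ← (h1 i hi).1]
    refine Finset.card_image_of_injOn ?_
    intro x hx y hy hxy
    by_contra hne'
    exact (h1 i hi).2 x hx y hy hne' (Quotient.exact hxy)
  · rw [hp]
    have h4 : ∑ i, (((e i).image (fun b => (Quotient.mk R b).out)).card - 1) =
        (univ.filter fun i => ((e i).image (Quotient.mk R)).card = 2).card +
        2 * (univ.filter fun i => ((e i).image (Quotient.mk R)).card = 3).card := by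
      rw [Finset.card_filter, Finset.card_filter, Finset.mul_sum, ← Finset.sum_add_distrib]
      refine Finset.sum_congr rfl fun i _ => ?_
      rw [hcard]
      have := hle3 i
      have := hge1 i
      split_ifs <;> omega
    rw [h4]
    omega
  · rcases J.eq_empty_or_nonempty with h | h
    · exact Or.inl h
    · right
      have h5 := h3 h
      have h6 : (J.biUnion fun i => (e i).image (fun b => (Quotient.mk R b).out)) =
          (univ.filter fun q : Quotient R => ∃ i ∈ J, ∃ x ∈ e i, Quotient.mk R x = q).image
            (fun q : Quotient R => q.out) := by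
        ext b
        rw [Finset.mem_biUnion, Finset.mem_image]
        constructor
        · rintro ⟨i, hi, hb⟩
          obtain ⟨x, hx, rfl⟩ := Finset.mem_image.1 hb
          exact ⟨Quotient.mk R x, Finset.mem_filter.2 ⟨Finset.mem_univ _, i, hi, x, hx, rfl⟩, rfl⟩
        · rintro ⟨q, hq, rfl⟩
          obtain ⟨i, hi, x, hx, rfl⟩ := (Finset.mem_filter.1 hq).2
          exact ⟨i, hi, Finset.mem_image.2 ⟨x, hx, rfl⟩⟩
      rw [h6, Finset.card_image_of_injective _ hinj]
      exact h5


end Sk

/-- a hypergraph of rank three in which all cuts have at least four hyperedges, all essential cuts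
at least five, and at most six vertices of degree four lie in triples, has a certificate -/
theorem certK_of_deg4 (B I : Type) [Fintype B] [Nonempty B] [Fintype I] (e : I → Finset B)
    (he : ∀ i, (e i).card = 2 ∨ (e i).card = 3) (h4 : FourConn univ e) (h5 : FiveEss univ e)
    (hm : (Deg4T e).card ≤ 6) : CertK e :=
  certK_of_skwk 0 (Sk.skwk_of Sk.skel Sk.cnt) B I e he h4 h5 hm

end Pool.Agent.ClawHam
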