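import Pool.Agent.Lib.MP_e2dbb5_co.Defs

/-!
# Ryjacek's local completion keeps the property of having no hamiltonian cycle
-/

set_option autoImplicit false

namespace Pool.Agent.ClawHam

namespace D1

variable {V : Type}

/-- `p` is a path of `G` from `a` to `b`, both adjacent to `x` -/
structure EP (G : SimpleGraph V) (x a b : V) (p : List V) : Prop where
  chain : p.IsChain G.Adj
  hd : p.head? = some a
  lst : p.getLast? = some b
  xa : G.Adj x a
  xb : G.Adj x b

theorem EP.rev {G : SimpleGraph V} {x a b : V} {p : List V} (h : EP G x a b p) :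
    EP G x b a p.reverse := by
  refine ⟨?_, ?_, ?_, h.xb, h.xa⟩
  · rw [List.isChain_reverse]
    exact h.chain.imp (fun a b h => h.symm)
  · rw [List.head?_reverse]; exact h.lst
  · rw [List.getLast?_reverse]; exact h.hd

theorem EP.ne_nil {G : SimpleGraph V} {x a b : V} {p : List V} (h : EP G x a b p) : p ≠ [] := by
  rintro rfl
  simpa using h.hd

theorem EP.mem_hd {G : SimpleGraph V} {x a b : V} {p : List V} (h : EP G x a b p) : a ∈ p :=
  List.mem_of_mem_head? (by rw [h.hd]; rfl)

theorem EP.mem_lst {G : SimpleGraph V} {x a b : V} {p : List V} (h : EP G x a b p) : b ∈ p :=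
  List.mem_of_mem_getLast? (by rw [h.lst]; rfl)

/-- two paths with adjacent first vertices -/
theorem EP.join {G : SimpleGraph V} {x a b c d : V} {p q : List V} (h : EP G x a b p)
    (h' : EP G x c d q) (hac : G.Adj a c) : EP G x b d (p.reverse ++ q) := by
  refine ⟨?_, ?_, ?_, h.xb, h'.xb⟩
  · refine List.IsChain.append h.rev.chain h'.chain ?_
    intro y hy z hz
    rw [h.rev.lst] at hy
    rw [h'.hd] at hz
    obtain rfl := Option.mem_some_iff.1 hy
    obtain rfl := Option.mem_some_iff.1 hz
    exact hac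
  · rw [List.head?_append_of_ne_nil _ h.rev.ne_nil]
    exact h.rev.hd
  · rw [List.getLast?_append_of_ne_nil _ h'.ne_nil]
    exact h'.lst

/-- a system of paths which cover all vertices except `x`, with all ends adjacent to `x` -/
structure Sys (G : SimpleGraph V) (x : V) (L : List (List V)) : Prop where
  ep : ∀ p ∈ L, ∃ a b, EP G x a b p
  nodup : L.flatten.Nodup
  mem : ∀ v, v ∈ L.flatten ↔ v ≠ x

theorem Sys.perm {G : SimpleGraph V} {x : V} {L L' : List (List V)} (h : Sys G x L)
    (hp : L.Perm L') : Sys G x L' := by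
  refine ⟨fun p hp' => h.ep p (hp.mem_iff.2 hp'), (hp.flatten).nodup_iff.1 h.nodup, fun v => ?_⟩
  rw [← h.mem v]
  exact (hp.flatten).mem_iff.symm

theorem Sys.replace {G : SimpleGraph V} {x : V} {L : List (List V)} {p p' : List V}
    (h : Sys G x (p :: L)) {a b : V} (hp : EP G x a b p') (hpp : p'.Perm p) :
    Sys G x (p' :: L) := by
  have h1 : ((p' :: L).flatten).Perm ((p :: L).flatten) := by
    simp only [List.flatten_cons]
    exact hpp.append_right _
  refine ⟨?_, h1.nodup_iff.2 h.nodup, fun v => by rw [← h.mem v]; exact h1.mem_iff⟩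
  intro r hr
  rcases List.mem_cons.1 hr with rfl | hr
  · exact ⟨a, b, hp⟩
  · exact h.ep r (List.mem_cons_of_mem _ hr)

theorem Sys.join {G : SimpleGraph V} {x : V} {L : List (List V)} {p q : List V}
    (h : Sys G x (p :: q :: L)) {a b c d : V} (hp : EP G x a b p) (hq : EP G x c d q)
    (hac : G.Adj a c) : Sys G x ((p.reverse ++ q) :: L) := by
  have h1 : (((p.reverse ++ q) :: L).flatten).Perm ((p :: q :: L).flatten) := by
    simp only [List.flatten_cons, List.append_assoc]
    exact (List.reverse_perm p).append_right _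
  refine ⟨?_, h1.nodup_iff.2 h.nodup, fun v => by rw [← h.mem v]; exact h1.mem_iff⟩
  intro r hr
  rcases List.mem_cons.1 hr with rfl | hr
  · exact ⟨b, d, hp.join hq hac⟩
  · exact h.ep r (List.mem_cons_of_mem _ (List.mem_cons_of_mem _ hr))

/-- cutting a path of the completion at the new edges -/
theorem cut {G : SimpleGraph V} {x : V} : ∀ (c : List V), c ≠ [] → c.IsChain (complete G x).Adj →
    (∀ b ∈ c.getLast?, G.Adj x b) →
    ∃ (p : List V) (L : List (List V)) (b : V), p.IsChain G.Adj ∧ p.head? = c.head? ∧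
      p.getLast? = some b ∧ G.Adj x b ∧ (∀ q ∈ L, ∃ a b, EP G x a b q) ∧
      (p :: L).flatten = c := by
  intro c
  induction c with
  | nil => intro h; exact absurd rfl h
  | cons a c ih =>
    intro _ hc hl
    rcases c with _ | ⟨b, c⟩
    · exact ⟨[a], [], a, List.isChain_singleton a, rfl, rfl, hl a rfl, by simp, by simp⟩
    · have h1 := List.isChain_cons_cons.1 hc
      obtain ⟨p, L, e, hp1, hp2, hp3, hp4, hL, hf⟩ := ih (by simp) h1.2 (by
        intro y hy
        exact hl y (by rw [List.getLast?_cons_cons]; exact hy))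
      have hp0 : p ≠ [] := by
        rintro rfl
        simp at hp3
      by_cases hab : G.Adj a b
      · refine ⟨a :: p, L, e, ?_, by simp, ?_, hp4, hL, ?_⟩
        · refine hp1.cons ?_
          intro y hy
          rw [hp2] at hy
          obtain rfl := Option.mem_some_iff.1 hy
          exact hab
        · rw [List.getLast?_cons_of_ne_nil hp0]
          exact hp3
        · rw [← hf]; simp
      · have h2 : G.Adj x a ∧ G.Adj x b := by
          rcases h1.1 with h | h
          · exact absurd h hab
          · exact h.2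
        refine ⟨[a], p :: L, a, List.isChain_singleton a, rfl, rfl, h2.1, ?_, ?_⟩
        · intro q hq
          rcases List.mem_cons.1 hq with rfl | hq
          · exact ⟨b, e, hp1, by rw [hp2]; rfl, hp3, h2.2, hp4⟩
          · exact hL q hq
        · rw [← hf]; simp

/-- a system from a hamiltonian cycle of the completion -/
theorem exists_sys {G : SimpleGraph V} {x : V} (h : Ham (complete G x)) :
    ∃ L, Sys G x L ∧ L ≠ [] := by
  obtain ⟨l, hnd, hall, hlen, hch, hcl⟩ := h
  obtain ⟨A, B, rfl⟩ := List.append_of_mem (hall x)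
  have hx : ∀ y, (complete G x).Adj x y → G.Adj x y := by
    rintro y (h | h)
    · exact h
    · exact absurd h.2.1 (G.loopless.irrefl x)
  have hperm : (x :: (B ++ A)).Perm (A ++ x :: B) := by
    have : (x :: (B ++ A)) = (x :: B) ++ A := by simp
    rw [this]
    exact List.perm_append_comm
  have h1 := List.isChain_append.1 hch
  have h2 := List.isChain_cons.1 h1.2.1
  have hne : B ++ A ≠ [] := by
    intro h
    have h3 := hperm.length_eq
    rw [h] at h3
    simp only [List.length_cons, List.length_nil] at h3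
    omega
  have hc : (B ++ A).IsChain (complete G x).Adj := by
    refine List.IsChain.append h2.2 h1.1 ?_
    intro y hy z hz
    refine hcl y ?_ z ?_
    · have hB : B ≠ [] := by rintro rfl; simp at hy
      rw [List.getLast?_append_of_ne_nil _ (by simp), List.getLast?_cons_of_ne_nil hB]
      exact hy
    · have hA : A ≠ [] := by rintro rfl; simp at hz
      rw [List.head?_append_of_ne_nil _ hA]
      exact hz
  have hhd : ∀ a ∈ (B ++ A).head?, G.Adj x a := by
    intro a ha
    apply hx
    by_cases hB : B = []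
    · subst hB
      rw [List.nil_append] at ha
      have hA : A ≠ [] := by rintro rfl; simp at ha
      exact hcl x (by simp) a (by rw [List.head?_append_of_ne_nil _ hA]; exact ha)
    · rw [List.head?_append_of_ne_nil _ hB] at ha
      exact h2.1 a ha
  have hlst : ∀ b ∈ (B ++ A).getLast?, G.Adj x b := by
    intro b hb
    apply hx
    by_cases hA : A = []
    · subst hA
      rw [List.append_nil] at hb
      have hB : B ≠ [] := by rintro rfl; simp at hb
      exact (hcl b (by
        rw [List.nil_append, List.getLast?_cons_of_ne_nil hB]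
        exact hb) x (by simp)).symm
    · rw [List.getLast?_append_of_ne_nil _ hA] at hb
      exact (h1.2.2 b hb x (by simp)).symm
  obtain ⟨p, L, e, hp1, hp2, hp3, hp4, hL, hf⟩ := cut (G := G) (x := x) (B ++ A) hne hc hlst
  refine ⟨p :: L, ⟨?_, ?_, ?_⟩, by simp⟩
  · intro q hq
    rcases List.mem_cons.1 hq with rfl | hq
    · obtain ⟨a, ha⟩ : ∃ a, (B ++ A).head? = some a := by
        rcases h : (B ++ A) with _ | ⟨a, t⟩
        · exact absurd h hne
        · exact ⟨a, rfl⟩
      exact ⟨a, e, hp1, by rw [hp2, ha], hp3, hhd a (by rw [ha]; rfl), hp4⟩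
    · exact hL q hq
  · rw [hf]
    exact (List.nodup_cons.1 (hperm.nodup_iff.2 hnd)).2
  · intro v
    rw [hf]
    constructor
    · rintro hv rfl
      exact (List.nodup_cons.1 (hperm.nodup_iff.2 hnd)).1 hv
    · intro hv
      have := hperm.mem_iff.2 (hall v)
      exact (List.mem_cons.1 this).resolve_left hv

/-- one path is enough -/
theorem ham_of_sys {G : SimpleGraph V} {x : V} {p : List V} (h : Sys G x [p])
    (hV : ∃ l : List V, l.Nodup ∧ 3 ≤ l.length) : Ham G := by
  obtain ⟨a, b, hp⟩ := h.ep p (by simp)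
  have hnd : p.Nodup := by simpa using h.nodup
  have hmem : ∀ v, v ∈ p ↔ v ≠ x := by intro v; simpa using h.mem v
  have hnd' : (x :: p).Nodup := List.nodup_cons.2 ⟨fun hx => (hmem x).1 hx rfl, hnd⟩
  have hall : ∀ v, v ∈ x :: p := by
    intro v
    by_cases hv : v = x
    · rw [hv]; exact List.mem_cons_self
    · exact List.mem_cons_of_mem _ ((hmem v).2 hv)
  refine ⟨x :: p, hnd', hall, ?_, ?_, ?_⟩
  · obtain ⟨l, hl1, hl2⟩ := hV
    exact hl2.trans (hl1.subperm (fun v _ => hall v)).length_le
  · refine hp.chain.cons ?_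
    intro y hy
    rw [hp.hd] at hy
    obtain rfl := Option.mem_some_iff.1 hy
    exact hp.xa
  · intro y hy z hz
    rw [List.getLast?_cons_of_ne_nil hp.ne_nil, hp.lst] at hy
    obtain rfl := Option.mem_some_iff.1 hy
    obtain rfl : x = z := by simpa using hz
    exact hp.xb.symm

/-- `u` can be made an end of a path with the same vertices as `p` -/
def IsEnd (G : SimpleGraph V) (x : V) (p : List V) (u : V) : Prop :=
  ∃ (b : V) (p' : List V), EP G x u b p' ∧ p'.Perm p

/-- The next vertex after `u` is not adjacent to `x`. -/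
theorem next_not_adj {G : SimpleGraph V} {x a b u t : V} {p A B : List V} (hp : EP G x a b p)
    (hab : a = b ∨ G.Adj a b) (hpe : p = A ++ u :: t :: B) (hu : ¬ IsEnd G x p u)
    (hxu : G.Adj x u) (hnd : p.Nodup) : ¬ G.Adj x t := by
  intro hxt
  apply hu
  have hch := hp.chain
  rw [hpe] at hch
  have e1 : A ++ u :: t :: B = (A ++ [u]) ++ (t :: B) := by simp
  have hlst := hp.lst
  have hhd := hp.hd
  rw [hpe, e1] at hlst hhd
  rw [List.getLast?_append_of_ne_nil _ (by simp)] at hlst
  rw [List.head?_append_of_ne_nil _ (by simp)] at hhd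
  rw [e1] at hch
  have h1 := List.isChain_append.1 hch
  -- the two pieces
  have hp1 : EP G x a u (A ++ [u]) := ⟨h1.1, hhd, by simp, hp.xa, hxu⟩
  have hp2 : EP G x t b (t :: B) := ⟨h1.2.1, by simp, hlst, hxt, hp.xb⟩
  have hne : a ≠ b := by
    rintro rfl
    rw [hpe, e1] at hnd
    exact (List.disjoint_of_nodup_append hnd) hp1.mem_hd hp2.mem_lst
  refine ⟨t, (A ++ [u]).reverse ++ (t :: B).reverse,
    hp1.join hp2.rev (hab.resolve_left hne), ?_⟩
  rw [hpe, e1]
  exact (List.reverse_perm _).append (List.reverse_perm _)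

/-- `u` can be taken out of the path. -/
theorem take_out {G : SimpleGraph V} {x a b u : V} {p : List V} (hG : ClawFree G)
    (hp : EP G x a b p) (hab : a = b ∨ G.Adj a b) (hu : ¬ IsEnd G x p u) (hup : u ∈ p)
    (hxu : G.Adj x u) (hnd : p.Nodup) (hxp : x ∉ p) :
    ∃ p', EP G x a b p' ∧ (u :: p').Perm p := by
  obtain ⟨A, B, hpe⟩ := List.append_of_mem hup
  -- `u` is not an end of `p`
  have hA : A ≠ [] := by
    rintro rfl
    apply hu
    have hh := hp.hd
    rw [hpe] at hh
    have hau : u = a := by simpa using hh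
    exact ⟨b, p, hau ▸ hp, List.Perm.refl _⟩
  have hB : B ≠ [] := by
    rintro rfl
    apply hu
    have hh := hp.lst
    rw [hpe] at hh
    have hau : u = b := by simpa using hh
    exact ⟨a, p.reverse, hau ▸ hp.rev, List.reverse_perm _⟩
  obtain ⟨t, B', rfl⟩ := List.exists_cons_of_ne_nil hB
  obtain ⟨A', s, rfl⟩ : ∃ A' s, A = A' ++ [s] :=
    ⟨A.dropLast, A.getLast hA, (List.dropLast_append_getLast hA).symm⟩
  have hab' : b = a ∨ G.Adj b a := hab.imp Eq.symm fun h => h.symm
  have hxt : ¬ G.Adj x t := next_not_adj hp hab hpe hu hxu hnd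
  have hxs : ¬ G.Adj x s := by
    refine next_not_adj (A := B'.reverse ++ [t]) (B := A'.reverse) hp.rev hab' ?_ ?_ hxu
      (List.nodup_reverse.2 hnd)
    · rw [hpe]; simp
    · rintro ⟨c, p', h1, h2⟩
      exact hu ⟨c, p', h1, h2.trans (List.reverse_perm _)⟩
  have hch := hp.chain
  rw [hpe] at hch
  have h1 := List.isChain_append.1 hch
  have h2 := List.isChain_cons.1 h1.2.1
  have hsu : G.Adj s u := h1.2.2 s (by simp) u (by simp)
  have hut : G.Adj u t := h2.1 t (by simp)
  have hsp : s ∈ p := by rw [hpe]; simp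
  have htp : t ∈ p := by rw [hpe]; simp
  have hst : s ≠ t := by
    rintro rfl
    rw [hpe] at hnd
    exact (List.disjoint_of_nodup_append hnd) (by simp) (by simp : s ∈ u :: s :: B')
  have hst' : G.Adj s t := by
    rcases hG u x s t hxu.symm hsu.symm hut (fun h => hxp (h ▸ hsp)) (fun h => hxp (h ▸ htp)) hst
      with h | h | h
    · exact absurd h hxs
    · exact absurd h hxt
    · exact h
  have hhd := hp.hd
  have hlst := hp.lst
  rw [hpe] at hhd hlst
  rw [List.head?_append_of_ne_nil _ (by simp)] at hhd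
  rw [List.getLast?_append_of_ne_nil _ (by simp), List.getLast?_cons_cons] at hlst
  refine ⟨(A' ++ [s]) ++ (t :: B'), ⟨?_, ?_, ?_, hp.xa, hp.xb⟩, ?_⟩
  · refine List.IsChain.append h1.1 h2.2 ?_
    intro y hy z hz
    have hys : s = y := by simpa using hy
    have hzt : t = z := by simpa using hz
    rw [← hys, ← hzt]
    exact hst'
  · rw [List.head?_append_of_ne_nil _ (by simp)]
    exact hhd
  · rw [List.getLast?_append_of_ne_nil _ (by simp)]
    exact hlst
  · rw [hpe]
    exact List.perm_middle.symm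

/-- `u` is not adjacent to an end. -/
theorem not_adj_end {G : SimpleGraph V} {x a b u : V} {p : List V} (hG : ClawFree G)
    (hp : EP G x a b p) (hab : a = b ∨ G.Adj a b) (hu : ¬ IsEnd G x p u) (hup : u ∈ p)
    (hxu : G.Adj x u) (hnd : p.Nodup) (hxp : x ∉ p) : ¬ G.Adj u a := by
  intro hua
  obtain ⟨p', hp', hpp⟩ := take_out hG hp hab hu hup hxu hnd hxp
  apply hu
  refine ⟨b, u :: p', ⟨?_, by simp, ?_, hxu, hp.xb⟩, hpp⟩
  · refine hp'.chain.cons ?_
    intro y hy
    rw [hp'.hd] at hy
    obtain rfl := Option.mem_some_iff.1 hy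
    exact hua
  · rw [List.getLast?_cons_of_ne_nil hp'.ne_nil]
    exact hp'.lst

/-- two paths can be replaced by one -/
theorem two_to_one {G : SimpleGraph V} {x : V} (hG : ClawFree G) (hN : NbrConn G x)
    {p q : List V} (h : Sys G x [p, q]) : ∃ r, Sys G x [r] := by
  by_contra hno
  push Not at hno
  have hflat : ([p, q] : List (List V)).flatten = p ++ q := by simp
  have hnd := h.nodup
  rw [hflat] at hnd
  have hmem : ∀ v, v ∈ p ++ q ↔ v ≠ x := by intro v; rw [← h.mem v, hflat]
  have hdis := List.disjoint_of_nodup_append hnd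
  have hxp : x ∉ p := fun hx => (hmem x).1 (List.mem_append_left _ hx) rfl
  have hxq : x ∉ q := fun hx => (hmem x).1 (List.mem_append_right _ hx) rfl
  have hsysof : ∀ {a b c d : V} {p' q' : List V}, EP G x a b p' → p'.Perm p → EP G x c d q' →
      q'.Perm q → Sys G x [p', q'] := by
    intro a b c d p' q' h1 h2 h3 h4
    have h5 := h.replace h1 h2
    have h6 : Sys G x [q, p'] := h5.perm (List.Perm.swap _ _ _)
    exact (h6.replace h3 h4).perm (List.Perm.swap _ _ _)
  -- ends of different paths are not adjacent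
  have hnadj : ∀ {a b c d : V} {p' q' : List V}, EP G x a b p' → p'.Perm p → EP G x c d q' →
      q'.Perm q → ¬ G.Adj a c := by
    intro a b c d p' q' h1 h2 h3 h4 h5
    exact hno _ ((hsysof h1 h2 h3 h4).join h1 h3 h5)
  obtain ⟨a₁, b₁, hp⟩ := h.ep p (by simp)
  obtain ⟨a₂, b₂, hq⟩ := h.ep q (by simp)
  have hne : ∀ {y z : V}, y ∈ p → z ∈ q → y ≠ z := by
    intro y z hy hz hyz
    exact hdis hy (hyz ▸ hz)
  -- the ends of one path are adjacent
  have habp : ∀ {a b : V} {p' : List V}, EP G x a b p' → p'.Perm p → a = b ∨ G.Adj a b := by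
    intro a b p' h1 h2
    by_cases hab : a = b
    · exact Or.inl hab
    · right
      have ha : a ∈ p := h2.mem_iff.1 h1.mem_hd
      have hb : b ∈ p := h2.mem_iff.1 h1.mem_lst
      rcases hG x a b a₂ h1.xa h1.xb hq.xa hab (hne ha hq.mem_hd) (hne hb hq.mem_hd) with h | h | h
      · exact h
      · exact absurd h (hnadj h1 h2 hq (List.Perm.refl _))
      · exact absurd h (hnadj h1.rev ((List.reverse_perm _).trans h2) hq (List.Perm.refl _))
  have habq : ∀ {a b : V} {q' : List V}, EP G x a b q' → q'.Perm q → a = b ∨ G.Adj a b := by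
    intro a b q' h1 h2
    by_cases hab : a = b
    · exact Or.inl hab
    · right
      have ha : a ∈ q := h2.mem_iff.1 h1.mem_hd
      have hb : b ∈ q := h2.mem_iff.1 h1.mem_lst
      rcases hG x a b a₁ h1.xa h1.xb hp.xa hab (hne hp.mem_hd ha).symm
        (hne hp.mem_hd hb).symm with h | h | h
      · exact h
      · exact absurd h.symm (hnadj hp (List.Perm.refl _) h1 h2)
      · exact absurd h.symm (hnadj hp (List.Perm.refl _) h1.rev ((List.reverse_perm _).trans h2))
  have hpnd : p.Nodup := (List.nodup_append.1 hnd).1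
  have hqnd : q.Nodup := (List.nodup_append.1 hnd).2.1
  -- non-ends are not adjacent to ends of their path
  have hnp : ∀ {u a : V}, ¬ IsEnd G x p u → u ∈ p → G.Adj x u → IsEnd G x p a → ¬ G.Adj u a := by
    rintro u a hu hup hxu ⟨b, p', h1, h2⟩
    refine not_adj_end hG h1 (habp h1 h2) ?_ (h2.mem_iff.2 hup) hxu (h2.nodup_iff.2 hpnd)
      (fun hx => hxp (h2.mem_iff.1 hx))
    rintro ⟨c, p'', h3, h4⟩
    exact hu ⟨c, p'', h3, h4.trans h2⟩
  have hnq : ∀ {u a : V}, ¬ IsEnd G x q u → u ∈ q → G.Adj x u → IsEnd G x q a → ¬ G.Adj u a := by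
    rintro u a hu hup hxu ⟨b, p', h1, h2⟩
    refine not_adj_end hG h1 (habq h1 h2) ?_ (h2.mem_iff.2 hup) hxu (h2.nodup_iff.2 hqnd)
      (fun hx => hxq (h2.mem_iff.1 hx))
    rintro ⟨c, p'', h3, h4⟩
    exact hu ⟨c, p'', h3, h4.trans h2⟩
  have hpa : IsEnd G x p a₁ := ⟨b₁, p, hp, List.Perm.refl _⟩
  have hqa : IsEnd G x q a₂ := ⟨b₂, q, hq, List.Perm.refl _⟩
  have hpq : ∀ {y z : V}, IsEnd G x p y → IsEnd G x q z → ¬ G.Adj y z := by
    rintro y z ⟨b, p', h1, h2⟩ ⟨d, q', h3, h4⟩
    exact hnadj h1 h2 h3 h4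
  have hendp : ∀ {y : V}, IsEnd G x p y → y ∈ p := by
    rintro y ⟨b, p', h1, h2⟩
    exact h2.mem_iff.1 h1.mem_hd
  have hendq : ∀ {y : V}, IsEnd G x q y → y ∈ q := by
    rintro y ⟨b, p', h1, h2⟩
    exact h2.mem_iff.1 h1.mem_hd
  have hxend : ∀ {y : V} {r : List V}, IsEnd G x r y → G.Adj x y := by
    rintro y r ⟨b, p', h1, h2⟩
    exact h1.xa
  have hin : ∀ y, G.Adj x y → y ∈ p ∨ y ∈ q := by
    intro y hy
    exact List.mem_append.1 ((hmem y).2 hy.ne')
  -- the connected neighbourhood
  obtain ⟨v, u, hxv, hv, hxu, hu, hvu⟩ := hN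
    (fun w => IsEnd G x p w ∨ (w ∈ q ∧ ¬ IsEnd G x q w))
    ⟨a₁, hp.xa, Or.inl hpa⟩
    ⟨a₂, hq.xa, by
      rintro (h | h)
      · exact hne (hendp h) hq.mem_hd rfl
      · exact h.2 hqa⟩
  simp only [not_or, not_and, not_not] at hu
  have huv : v ∈ q ∧ ¬ IsEnd G x q v ∧ u ∈ p ∧ ¬ IsEnd G x p u := by
    rcases hv with hv | hv
    · exfalso
      rcases hin u hxu with h | h
      · exact hnp hu.1 h hxu hv hvu.symm
      · exact hpq hv (hu.2 h) hvu
    · rcases hin u hxu with h | h
      · exact ⟨hv.1, hv.2, h, hu.1⟩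
      · exact absurd hvu (hnq hv.2 hv.1 hxv (hu.2 h))
  obtain ⟨hvq, hvE, hup, huE⟩ := huv
  obtain ⟨p', hp', hpp⟩ := take_out hG hp (habp hp (List.Perm.refl _)) huE hup hxu hpnd hxp
  obtain ⟨q', hq', hqq⟩ := take_out hG hq (habq hq (List.Perm.refl _)) hvE hvq hxv hqnd hxq
  -- `v` is adjacent to `a₁`, `u` is adjacent to `a₂`
  have hva : G.Adj a₁ v := by
    have h1 : a₁ ≠ v := hne hp.mem_hd hvq
    have h2 : a₁ ≠ a₂ := hne hp.mem_hd hq.mem_hd
    have h3 : v ≠ a₂ := by rintro rfl; exact hvE hqa
    rcases hG x a₁ v a₂ hp.xa hxv hq.xa h1 h2 h3 with h | h | h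
    · exact h
    · exact absurd h (hpq hpa hqa)
    · exact absurd h (hnq hvE hvq hxv hqa)
  have hua : G.Adj u a₂ := by
    have h1 : a₂ ≠ u := (hne hup hq.mem_hd).symm
    have h2 : a₁ ≠ a₂ := hne hp.mem_hd hq.mem_hd
    have h3 : u ≠ a₁ := by rintro rfl; exact huE hpa
    rcases hG x u a₁ a₂ hxu hp.xa hq.xa h3 h1.symm h2 with h | h | h
    · exact absurd h (hnp huE hup hxu hpa)
    · exact h
    · exact absurd h (hpq hpa hqa)
  -- the new path
  have hr : EP G x b₁ b₂ (p'.reverse ++ (v :: u :: q')) := by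
    refine ⟨?_, ?_, ?_, hp.xb, hq.xb⟩
    · refine List.IsChain.append hp'.rev.chain ?_ ?_
      · refine List.IsChain.cons (hq'.chain.cons ?_) ?_
        · intro y hy
          rw [hq'.hd] at hy
          obtain rfl := Option.mem_some_iff.1 hy
          exact hua
        · intro y hy
          obtain rfl : u = y := by simpa using hy
          exact hvu
      · intro y hy z hz
        rw [hp'.rev.lst] at hy
        obtain rfl := Option.mem_some_iff.1 hy
        obtain rfl : v = z := by simpa using hz
        exact hva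
    · rw [List.head?_append_of_ne_nil _ hp'.rev.ne_nil]
      exact hp'.rev.hd
    · rw [List.getLast?_append_of_ne_nil _ (by simp), List.getLast?_cons_cons,
        List.getLast?_cons_of_ne_nil hq'.ne_nil]
      exact hq'.lst
  have hperm : (p'.reverse ++ (v :: u :: q')).Perm (p ++ q) := by
    have h1 : (p'.reverse ++ (v :: u :: q')).Perm (p' ++ (u :: v :: q')) :=
      (List.reverse_perm _).append (List.Perm.swap _ _ _)
    have h2 : (p' ++ (u :: v :: q')).Perm ((u :: p') ++ (v :: q')) := List.perm_middle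
    exact (h1.trans h2).trans (hpp.append hqq)
  refine hno (p'.reverse ++ (v :: u :: q')) ⟨?_, ?_, ?_⟩
  · intro r hr'
    obtain rfl := List.mem_singleton.1 hr'
    exact ⟨b₁, b₂, hr⟩
  · simp only [List.flatten_cons, List.flatten_nil, List.append_nil]
    exact hperm.nodup_iff.2 hnd
  · intro w
    simp only [List.flatten_cons, List.flatten_nil, List.append_nil]
    rw [← hmem w]
    exact hperm.mem_iff

/-- a system can be reduced to one path -/
theorem to_one {G : SimpleGraph V} {x : V} (hG : ClawFree G) (hN : NbrConn G x) :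
    ∀ (n : ℕ) (L : List (List V)), L.length = n → L ≠ [] → Sys G x L → ∃ r, Sys G x [r] := by
  intro n
  induction n with
  | zero =>
    intro L hL hne _
    exact absurd (List.length_eq_zero_iff.1 hL) hne
  | succ n ih =>
    intro L hL _ h
    rcases L with _ | ⟨p, L⟩
    · simp at hL
    rcases L with _ | ⟨q, L⟩
    · exact ⟨p, h⟩
    rcases L with _ | ⟨r, L⟩
    · exact two_to_one hG hN h
    have hn : L.length + 2 = n := by
      simp only [List.length_cons] at hL
      omega
    obtain ⟨a, b, hp⟩ := h.ep p (by simp)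
    obtain ⟨c, d, hq⟩ := h.ep q (by simp)
    obtain ⟨e, f, hr⟩ := h.ep r (by simp)
    have hnd := h.nodup
    simp only [List.flatten_cons] at hnd
    have hd1 := List.disjoint_of_nodup_append hnd
    have hd2 := List.disjoint_of_nodup_append (List.nodup_append.1 hnd).2.1
    have hac : a ≠ c := by
      rintro rfl
      exact hd1 hp.mem_hd (List.mem_append_left _ hq.mem_hd)
    have hae : a ≠ e := by
      rintro rfl
      exact hd1 hp.mem_hd (List.mem_append_right _ (List.mem_append_left _ hr.mem_hd))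
    have hce : c ≠ e := by
      rintro rfl
      exact hd2 hq.mem_hd (List.mem_append_left _ hr.mem_hd)
    rcases hG x a c e hp.xa hq.xa hr.xa hac hae hce with h1 | h1 | h1
    · exact ih _ (by simp only [List.length_cons]; omega) (by simp) (h.join hp hq h1)
    · have h2 : Sys G x (p :: r :: q :: L) := h.perm ((List.Perm.swap _ _ _).cons _)
      exact ih _ (by simp only [List.length_cons]; omega) (by simp) (h2.join hp hr h1)
    · have h2 : Sys G x (q :: r :: p :: L) := by
        refine h.perm ?_
        have e1 : (p :: q :: r :: L).Perm (q :: p :: r :: L) := List.Perm.swap _ _ _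
        exact e1.trans ((List.Perm.swap _ _ _).cons _)
      exact ih _ (by simp only [List.length_cons]; omega) (by simp) (h2.join hq hr h1)

end D1

/-- D1: Ryjacek's local completion -/
theorem rowd1 : RowD1 := by
  intro V _ G x hG hN h
  obtain ⟨L, hL, hne⟩ := D1.exists_sys h
  obtain ⟨r, hr⟩ := D1.to_one hG hN L.length L rfl hne hL
  obtain ⟨l, h1, _, h3, _⟩ := h
  exact D1.ham_of_sys hr ⟨l, h1, h3⟩

end Pool.Agent.ClawHam
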