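import Pool.Agent.Lib.MP_e2dbb5_co.Defs

/-!
# Row D2: the closure of a claw-free graph
-/

set_option autoImplicit false

noncomputable section

namespace Pool.Agent.ClawHam

open Classical

variable {V : Type}

theorem le_complete (G : SimpleGraph V) (x : V) : G ≤ complete G x := fun _ _ h => Or.inl h

theorem complete_adj {G : SimpleGraph V} {x a b : V} :
    (complete G x).Adj a b ↔ G.Adj a b ∨ (a ≠ b ∧ G.Adj x a ∧ G.Adj x b) := Iff.rfl

/-- the local completion of a claw-free graph is claw-free (auxiliary form: one new edge) -/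
theorem clawFree_aux {G : SimpleGraph V} (hG : ClawFree G) {x y a b c : V}
    (hxa : G.Adj x a) (hxy : G.Adj x y)
    (hab : ¬ (complete G x).Adj a b) (hac : ¬ (complete G x).Adj a c)
    (hbc : ¬ (complete G x).Adj b c)
    (hyb : (complete G x).Adj y b) (hyc : (complete G x).Adj y c)
    (nab : a ≠ b) (nac : a ≠ c) (nbc : b ≠ c) : False := by
  have hxb : ¬ G.Adj x b := fun h => hab (Or.inr ⟨nab, hxa, h⟩)
  have hxc : ¬ G.Adj x c := fun h => hac (Or.inr ⟨nac, hxa, h⟩)
  have hyb' : G.Adj y b := by
    rcases hyb with h | h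
    · exact h
    · exact absurd h.2.2 hxb
  have hyc' : G.Adj y c := by
    rcases hyc with h | h
    · exact h
    · exact absurd h.2.2 hxc
  have nxb : x ≠ b := by
    rintro rfl
    exact hab (Or.inl hxa.symm)
  have nxc : x ≠ c := by
    rintro rfl
    exact hac (Or.inl hxa.symm)
  rcases hG y x b c hxy.symm hyb' hyc' nxb nxc nbc with h | h | h
  · exact hxb h
  · exact hxc h
  · exact hbc (Or.inl h)

theorem clawFree_complete {G : SimpleGraph V} (hG : ClawFree G) (x : V) :
    ClawFree (complete G x) := by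
  intro y a b c hya hyb hyc nab nac nbc
  by_contra hcon
  push Not at hcon
  obtain ⟨hab, hac, hbc⟩ := hcon
  have hba : ¬ (complete G x).Adj b a := fun h => hab h.symm
  have hca : ¬ (complete G x).Adj c a := fun h => hac h.symm
  have hcb : ¬ (complete G x).Adj c b := fun h => hbc h.symm
  rcases hya with ha | ha
  · rcases hyb with hb | hb
    · rcases hyc with hc | hc
      · rcases hG y a b c ha hb hc nab nac nbc with h | h | h
        · exact hab (Or.inl h)
        · exact hac (Or.inl h)
        · exact hbc (Or.inl h)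
      · exact clawFree_aux hG hc.2.2 hc.2.1 hca hcb hab (Or.inl ha) (Or.inl hb)
          nac.symm nbc.symm nab
    · exact clawFree_aux hG hb.2.2 hb.2.1 hba hbc hac (Or.inl ha) hyc nab.symm nbc nac
  · exact clawFree_aux hG ha.2.2 ha.2.1 hab hac hbc hyb hyc nab nac nbc

theorem rowD2 : RowD1 → RowD2 := by
  intro hD1 V _ G hG
  set s : Set (SimpleGraph V) := {H | G ≤ H ∧ ClawFree H ∧ (Ham H → Ham G)} with hs
  have hfin : s.Finite := Set.toFinite s
  have hne : s.Nonempty := ⟨G, le_refl G, hG, id⟩
  obtain ⟨H, hH⟩ := hfin.exists_maximal hne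
  obtain ⟨⟨h1, h2, h3⟩, h4⟩ := hH
  refine ⟨H, h1, h2, ?_, h3⟩
  intro x hx a b ha hb nab
  have hmem : complete H x ∈ s :=
    ⟨h1.trans (le_complete H x), clawFree_complete h2 x, fun h => h3 (hD1 V H x h2 hx h)⟩
  exact h4 hmem (le_complete H x) (Or.inr ⟨nab, ha, hb⟩)

end Pool.Agent.ClawHam
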