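import Pool.Agent.Lib.MP_e2dbb5_co.Defs

/-!
# The cells of a closed claw-free graph
-/

set_option autoImplicit false

namespace Pool.Agent.ClawHam.D3

open Classical Pool.Agent.ClawHam

/-- in a closed claw-free graph two common neighbours of the ends of an edge are adjacent -/
theorem locTrans {V : Type} {G : SimpleGraph V} (hcf : ClawFree G) (hcl : Closed G)
    {x a b c : V} (ha : G.Adj x a) (hb : G.Adj x b) (hc : G.Adj x c)
    (hab : G.Adj a b) (hbc : G.Adj b c) (hac : a ≠ c) : G.Adj a c := by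
  by_cases hx : NbrConn G x
  · exact hcl x hx a c ha hc hac
  · by_contra hn
    unfold NbrConn at hx
    push Not at hx
    obtain ⟨p, ⟨a0, ha0, hpa0⟩, ⟨c0, hc0, hpc0⟩, hp⟩ := hx
    by_cases hpb : p b
    · have hpa : p a := by
        by_contra h
        exact hp b a hb hpb ha h hab.symm
      have hpc : p c := by
        by_contra h
        exact hp b c hb hpb hc h hbc
      have hac0 : a ≠ c0 := fun h => hpc0 (h ▸ hpa)
      have hcc0 : c ≠ c0 := fun h => hpc0 (h ▸ hpc)
      rcases hcf x a c c0 ha hc hc0 hac hac0 hcc0 with h | h | h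
      · exact hn h
      · exact hp a c0 ha hpa hc0 hpc0 h
      · exact hp c c0 hc hpc hc0 hpc0 h
    · have hpa : ¬ p a := fun h => hp a b ha h hb hpb hab
      have hpc : ¬ p c := fun h => hp c b hc h hb hpb hbc.symm
      have haa0 : a ≠ a0 := fun h => hpa (h ▸ hpa0)
      have hca0 : c ≠ a0 := fun h => hpc (h ▸ hpa0)
      rcases hcf x a c a0 ha hc ha0 hac haa0 hca0 with h | h | h
      · exact hn h
      · exact hp a0 a ha0 hpa0 ha hpa h.symm
      · exact hp a0 c ha0 hpa0 hc hpc h.symm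

/-- membership in the cell of the edge `u v` -/
def InCell {V : Type} (G : SimpleGraph V) (u v w : V) : Prop :=
  (w = u ∨ G.Adj w u) ∧ (w = v ∨ G.Adj w v)

theorem inCell_left {V : Type} {G : SimpleGraph V} {u v : V} (h : G.Adj u v) : InCell G u v u :=
  ⟨Or.inl rfl, Or.inr h⟩

theorem inCell_right {V : Type} {G : SimpleGraph V} {u v : V} (h : G.Adj u v) :
    InCell G u v v :=
  ⟨Or.inr h.symm, Or.inl rfl⟩

/-- a cell is complete -/
theorem cell_clique {V : Type} {G : SimpleGraph V} (hcf : ClawFree G) (hcl : Closed G)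
    {u v a b : V} (huv : G.Adj u v) (ha : InCell G u v a) (hb : InCell G u v b) (hab : a ≠ b) :
    G.Adj a b := by
  obtain ⟨ha1, ha2⟩ := ha
  obtain ⟨hb1, hb2⟩ := hb
  rcases ha1 with rfl | ha1
  · rcases hb1 with h | h
    · exact absurd h.symm hab
    · exact h.symm
  · rcases ha2 with rfl | ha2
    · rcases hb2 with h | h
      · exact absurd h.symm hab
      · exact h.symm
    · rcases hb1 with rfl | hb1
      · exact ha1
      · rcases hb2 with rfl | hb2
        · exact ha2
        · exact locTrans hcf hcl ha1.symm huv hb1.symm ha2 hb2.symm hab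

/-- a cell is determined by any two of its vertices -/
theorem cell_sub {V : Type} {G : SimpleGraph V} (hcf : ClawFree G) (hcl : Closed G)
    {u v a b w : V} (huv : G.Adj u v) (ha : InCell G u v a) (hb : InCell G u v b)
    (hw : InCell G u v w) : InCell G a b w := by
  constructor
  · by_cases h : w = a
    · exact Or.inl h
    · exact Or.inr (cell_clique hcf hcl huv hw ha h)
  · by_cases h : w = b
    · exact Or.inl h
    · exact Or.inr (cell_clique hcf hcl huv hw hb h)

theorem inCell_flip {V : Type} {G : SimpleGraph V} {u v a b : V} (ha : InCell G u v a)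
    (hb : InCell G u v b) : InCell G a b u ∧ InCell G a b v := by
  obtain ⟨ha1, ha2⟩ := ha
  obtain ⟨hb1, hb2⟩ := hb
  refine ⟨⟨?_, ?_⟩, ⟨?_, ?_⟩⟩
  · exact ha1.imp (fun h => h.symm) (fun h => h.symm)
  · exact hb1.imp (fun h => h.symm) (fun h => h.symm)
  · exact ha2.imp (fun h => h.symm) (fun h => h.symm)
  · exact hb2.imp (fun h => h.symm) (fun h => h.symm)

theorem cell_iff {V : Type} {G : SimpleGraph V} (hcf : ClawFree G) (hcl : Closed G)
    {u v a b w : V} (huv : G.Adj u v) (ha : InCell G u v a) (hb : InCell G u v b)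
    (hab : a ≠ b) : InCell G u v w ↔ InCell G a b w := by
  have h := cell_clique hcf hcl huv ha hb hab
  obtain ⟨h1, h2⟩ := inCell_flip ha hb
  exact ⟨fun hw => cell_sub hcf hcl huv ha hb hw, fun hw => cell_sub hcf hcl h h1 h2 hw⟩

theorem rowD3 : RowD3 := by
  intro V _ G hcf hcl hdeg
  let C : Type := {K : Finset V // ∃ u v, G.Adj u v ∧ ∀ w, w ∈ K ↔ InCell G u v w}
  have hfin : Fintype C := Fintype.ofFinite C
  have cellEx : ∀ u v, G.Adj u v → ∃ K : C, u ∈ K.1 ∧ v ∈ K.1 := by
    intro u v h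
    refine ⟨⟨Finset.univ.filter fun w => InCell G u v w, u, v, h, ?_⟩, ?_, ?_⟩
    · intro w
      simp
    · simpa using inCell_left h
    · simpa using inCell_right h
  have clique : ∀ (K : C) (a b : V), a ∈ K.1 → b ∈ K.1 → a ≠ b → G.Adj a b := by
    rintro ⟨K, u, v, h, hK⟩ a b ha hb hab
    exact cell_clique hcf hcl h ((hK a).1 ha) ((hK b).1 hb) hab
  have cellOf : ∀ (K : C) (a b w : V), a ∈ K.1 → b ∈ K.1 → a ≠ b →
      (w ∈ K.1 ↔ InCell G a b w) := by
    rintro ⟨K, u, v, h, hK⟩ a b w ha hb hab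
    exact (hK w).trans (cell_iff hcf hcl h ((hK a).1 ha) ((hK b).1 hb) hab)
  have uniq : ∀ u v : V, ∀ K L : C, u ≠ v → u ∈ K.1 → v ∈ K.1 → u ∈ L.1 → v ∈ L.1 → K = L := by
    intro u v K L huv h1 h2 h3 h4
    apply Subtype.ext
    ext w
    exact (cellOf K u v w h1 h2 huv).trans (cellOf L u v w h3 h4 huv).symm
  have other : ∀ (K : C) (v : V), v ∈ K.1 → ∃ k ∈ K.1, k ≠ v := by
    rintro ⟨K, a, b, h, hK⟩ v _
    by_cases hva : v = a
    · exact ⟨b, (hK b).2 (inCell_right h), fun hb => h.ne (hva.symm.trans hb.symm)⟩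
    · exact ⟨a, (hK a).2 (inCell_left h), fun ha => hva ha.symm⟩
  have joinEq : ∀ (K L : C) (v k l : V), v ∈ K.1 → v ∈ L.1 → k ∈ K.1 → l ∈ L.1 → k ≠ v →
      l ≠ v → (k = l ∨ G.Adj k l) → K = L := by
    intro K L v k l hvK hvL hkK hlL hkv hlv h
    have hlK : l ∈ K.1 := by
      rcases h with rfl | h
      · exact hkK
      · exact (cellOf K v k l hvK hkK (Ne.symm hkv)).2
          ⟨Or.inr (clique L l v hlL hvL hlv), Or.inr h.symm⟩
    exact uniq l v K L hlv hlK hvK hlL hvL
  refine ⟨C, hfin, fun v K => v ∈ K.1, ⟨?_, uniq, ?_, ?_⟩⟩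
  · intro u v
    constructor
    · intro h
      exact ⟨h.ne, cellEx u v h⟩
    · rintro ⟨huv, K, h1, h2⟩
      exact clique K u v h1 h2 huv
  · intro v K L M hK hL hM
    by_contra hno
    push Not at hno
    obtain ⟨hKL, hKM, hLM⟩ := hno
    obtain ⟨k, hk, hkv⟩ := other K v hK
    obtain ⟨l, hl, hlv⟩ := other L v hL
    obtain ⟨m, hm, hmv⟩ := other M v hM
    have hkl : ¬ (k = l ∨ G.Adj k l) := fun h => hKL (joinEq K L v k l hK hL hk hl hkv hlv h)
    have hkm : ¬ (k = m ∨ G.Adj k m) := fun h => hKM (joinEq K M v k m hK hM hk hm hkv hmv h)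
    have hlm : ¬ (l = m ∨ G.Adj l m) := fun h => hLM (joinEq L M v l m hL hM hl hm hlv hmv h)
    push Not at hkl hkm hlm
    rcases hcf v k l m (clique K v k hK hk (Ne.symm hkv)) (clique L v l hL hl (Ne.symm hlv))
      (clique M v m hM hm (Ne.symm hmv)) hkl.1 hkm.1 hlm.1 with h | h | h
    · exact hkl.2 h
    · exact hkm.2 h
    · exact hlm.2 h
  · intro v
    obtain ⟨w, hw⟩ := hdeg v
    obtain ⟨K, hK, _⟩ := cellEx v w hw
    exact ⟨K, hK⟩

end Pool.Agent.ClawHam.D3
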