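import Mathlib

/-!
# Claw-free graphs in which every cutset has at least five vertices: definitions
-/

set_option autoImplicit false

open Finset

noncomputable section

namespace Pool.Agent.ClawHam

open Classical

/-! ### Graphs -/

/-- no vertex has three pairwise non-adjacent neighbours -/
def ClawFree {V : Type} (G : SimpleGraph V) : Prop :=
  ∀ x a b c : V, G.Adj x a → G.Adj x b → G.Adj x c → a ≠ b → a ≠ c → b ≠ c →
    G.Adj a b ∨ G.Adj a c ∨ G.Adj b c

/-- every set of vertices which separates two nonempty sets has at least five elements -/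
def NoSmallCut {V : Type} [Fintype V] (G : SimpleGraph V) : Prop :=
  ∀ S A C : Finset V, (∀ v, v ∈ S ∨ v ∈ A ∨ v ∈ C) → Disjoint A C → Disjoint A S → Disjoint C S →
    A.Nonempty → C.Nonempty → (∀ a ∈ A, ∀ c ∈ C, ¬ G.Adj a c) → 5 ≤ S.card

/-- a hamiltonian cycle, as a list -/
def Ham {V : Type} (G : SimpleGraph V) : Prop :=
  ∃ l : List V, l.Nodup ∧ (∀ v, v ∈ l) ∧ 3 ≤ l.length ∧ l.IsChain G.Adj ∧
    ∀ a ∈ l.getLast?, ∀ b ∈ l.head?, G.Adj a b

/-- the graph induced on the neighbours of `x` is connected -/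
def NbrConn {V : Type} (G : SimpleGraph V) (x : V) : Prop :=
  ∀ p : V → Prop, (∃ a, G.Adj x a ∧ p a) → (∃ c, G.Adj x c ∧ ¬ p c) →
    ∃ a c, G.Adj x a ∧ p a ∧ G.Adj x c ∧ ¬ p c ∧ G.Adj a c

/-- the local completion of `G` at `x` -/
def complete {V : Type} (G : SimpleGraph V) (x : V) : SimpleGraph V where
  Adj a b := G.Adj a b ∨ (a ≠ b ∧ G.Adj x a ∧ G.Adj x b)
  symm := ⟨fun a b h => by
    rcases h with h | h
    · exact Or.inl h.symm
    · exact Or.inr ⟨h.1.symm, h.2.2, h.2.1⟩⟩
  loopless := ⟨fun a h => by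
    rcases h with h | h
    · exact h.ne rfl
    · exact h.1 rfl⟩

/-- a connected neighbourhood is complete -/
def Closed {V : Type} (G : SimpleGraph V) : Prop :=
  ∀ x, NbrConn G x → ∀ a b, G.Adj x a → G.Adj x b → a ≠ b → G.Adj a b

/-! ### Cells -/

/-- The edges of `G` are partitioned into cells (complete subgraphs), and every vertex lies in one
or two cells; `inc v K`: the vertex `v` lies in the cell `K`. -/
structure Krausz {V C : Type} (G : SimpleGraph V) (inc : V → C → Prop) : Prop where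
  adj_iff : ∀ u v, G.Adj u v ↔ u ≠ v ∧ ∃ K, inc u K ∧ inc v K
  uniq : ∀ u v K L, u ≠ v → inc u K → inc v K → inc u L → inc v L → K = L
  two : ∀ v K L M, inc v K → inc v L → inc v M → K = L ∨ K = M ∨ L = M
  ex : ∀ v, ∃ K, inc v K

/-- the cell `K` has at least four vertices -/
def Big {V C : Type} [Fintype V] (inc : V → C → Prop) (K : C) : Prop :=
  4 ≤ (univ.filter fun v => inc v K).card

/-- the big cells -/
def bigs {V C : Type} [Fintype V] [Fintype C] (inc : V → C → Prop) : Finset C :=
  univ.filter fun K => Big inc K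

/-- The hypergraph on the big cells: the vertices in two big cells, and the small cells. -/
def hyp {V C : Type} [Fintype V] [Fintype C] (inc : V → C → Prop) : V ⊕ C → Finset C
  | Sum.inl v => univ.filter fun K => Big inc K ∧ inc v K
  | Sum.inr S => univ.filter fun K => ¬ Big inc S ∧ Big inc K ∧ ∃ v, inc v S ∧ inc v K

/-! ### Hypergraphs -/

/-- the set `s` meets both `X` and its complement -/
def Crosses {B : Type} (s X : Finset B) : Prop := (∃ a ∈ s, a ∈ X) ∧ ∃ b ∈ s, b ∉ X

/-- every proper nonempty part of the vertex set is crossed by at least four hyperedges -/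
def FourConn {B I : Type} [Fintype I] (B₀ : Finset B) (e : I → Finset B) : Prop :=
  ∀ X : Finset B, X ⊆ B₀ → X.Nonempty → X ≠ B₀ → 4 ≤ (univ.filter fun i => Crosses (e i) X).card

/-- One can choose two vertices of some of the hyperedges so that the graph of the chosen pairs is
connected on `B₀` and has even degrees. -/
def EvenConn {B I : Type} [Fintype I] (B₀ : Finset B) (e : I → Finset B) : Prop :=
  ∃ f : I → Finset B, (∀ i, f i ⊆ e i ∧ (f i = ∅ ∨ (f i).card = 2)) ∧
    (∀ K, Even (univ.filter fun i => K ∈ f i).card) ∧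
    ∀ X : Finset B, X ⊆ B₀ → X.Nonempty → X ≠ B₀ → ∃ i, Crosses (f i) X

/-- the lemma on hypergraphs of rank three, relative form -/
def HypLemma : Prop :=
  ∀ (B I : Type) [Fintype B] [Fintype I] (B₀ : Finset B) (e : I → Finset B),
    (∀ i, e i ⊆ B₀ ∧ (e i).card ≤ 3) → FourConn B₀ e → EvenConn B₀ e

/-- the lemma on hypergraphs of rank three, all hyperedges with two or three vertices -/
def HypLemma' : Prop :=
  ∀ (B I : Type) [Fintype B] [Fintype I] (e : I → Finset B),
    (∀ i, (e i).card = 2 ∨ (e i).card = 3) → FourConn univ e → EvenConn univ e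

/-! ### Traversed vertices -/

/-- The set `F` of vertices of `G` is a connected even set of edges of the graph of the cells, and
every vertex lies in a cell which it visits. -/
structure Trav {V C : Type} (inc : V → C → Prop) (F : Finset V) : Prop where
  two : ∀ v ∈ F, ∃ K L, K ≠ L ∧ inc v K ∧ inc v L
  even : ∀ K, Even (F.filter fun v => inc v K).card
  dom : ∀ v, ∃ K, inc v K ∧ ∃ w ∈ F, inc w K
  conn : ∀ P : C → Prop, (∃ v ∈ F, ∃ K, inc v K ∧ P K) → (∃ v ∈ F, ∃ K, inc v K ∧ ¬ P K) →
    ∃ v ∈ F, ∃ K L, inc v K ∧ inc v L ∧ P K ∧ ¬ P L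

/-! ### The rows -/

/-- D1: Ryjacek's local completion -/
def RowD1 : Prop :=
  ∀ (V : Type) [Fintype V] (G : SimpleGraph V) (x : V), ClawFree G → NbrConn G x →
    Ham (complete G x) → Ham G

/-- D2: the closure (from D1) -/
def RowD2 : Prop :=
  ∀ (V : Type) [Fintype V] (G : SimpleGraph V), ClawFree G →
    ∃ G' : SimpleGraph V, G ≤ G' ∧ ClawFree G' ∧ Closed G' ∧ (Ham G' → Ham G)

/-- D3: the cells of a closed claw-free graph -/
def RowD3 : Prop :=
  ∀ (V : Type) [Fintype V] (G : SimpleGraph V), ClawFree G → Closed G → (∀ v, ∃ w, G.Adj v w) →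
    ∃ (C : Type) (_ : Fintype C) (inc : V → C → Prop), Krausz G inc

/-- C0: in a non-complete graph every vertex is in a big cell -/
def RowC0 : Prop :=
  ∀ (V C : Type) [Fintype V] [Fintype C] (G : SimpleGraph V) (inc : V → C → Prop),
    Krausz G inc → NoSmallCut G → (∃ u v, u ≠ v ∧ ¬ G.Adj u v) → ∀ v, ∃ K, Big inc K ∧ inc v K

/-- C1: the hypergraph of the big cells has rank at most three and all its cuts are at least four -/
def RowC1 : Prop :=
  ∀ (V C : Type) [Fintype V] [Fintype C] (G : SimpleGraph V) (inc : V → C → Prop),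
    Krausz G inc → NoSmallCut G → (∀ v, ∃ K, Big inc K ∧ inc v K) →
    (∀ i, hyp inc i ⊆ bigs inc ∧ (hyp inc i).card ≤ 3) ∧ FourConn (bigs inc) (hyp inc)

/-- E1: from the connected even choice to the set of traversed vertices -/
def RowE1 : Prop :=
  ∀ (V C : Type) [Fintype V] [Fintype C] (G : SimpleGraph V) (inc : V → C → Prop),
    Krausz G inc → (∀ v, ∃ K, Big inc K ∧ inc v K) → 2 ≤ (bigs inc).card →
    EvenConn (bigs inc) (hyp inc) → ∃ F : Finset V, Trav inc F

/-- E2: orientation, by Hall's theorem -/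
def RowE2 : Prop :=
  ∀ (V C : Type) [Fintype V] [Fintype C] (inc : V → C → Prop) (F : Finset V),
    (∀ v K L M, inc v K → inc v L → inc v M → K = L ∨ K = M ∨ L = M) → (∀ v, ∃ K, inc v K) →
    (∀ v ∈ F, ∃ K L, K ≠ L ∧ inc v K ∧ inc v L) → (∀ K, Even (F.filter fun v => inc v K).card) →
    ∃ t h : V → C, (∀ v ∈ F, t v ≠ h v ∧ inc v (t v) ∧ inc v (h v)) ∧
      ∀ K, (F.filter fun v => t v = K).card = (F.filter fun v => h v = K).card

/-- E3: one cycle -/
def RowE3 : Prop :=
  ∀ (V C : Type) [Fintype V] [Fintype C] (inc : V → C → Prop) (F : Finset V),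
    (∀ v K L M, inc v K → inc v L → inc v M → K = L ∨ K = M ∨ L = M) → Trav inc F →
    (∃ t h : V → C, (∀ v ∈ F, t v ≠ h v ∧ inc v (t v) ∧ inc v (h v)) ∧
      ∀ K, (F.filter fun v => t v = K).card = (F.filter fun v => h v = K).card) →
    ∃ σ : Equiv.Perm V, (∀ u v, σ.SameCycle u v) ∧ ∀ v, ∃ K, inc v K ∧ inc (σ v) K

/-- E4: a cyclic permutation along edges is a hamiltonian cycle -/
def RowE4 : Prop :=
  ∀ (V : Type) [Fintype V] (G : SimpleGraph V) (σ : Equiv.Perm V), 3 ≤ Fintype.card V →
    (∀ u v, σ.SameCycle u v) → (∀ v, v ≠ σ v → G.Adj v (σ v)) → Ham G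

/-- E5: from lists to Mathlib's definition -/
def RowE5 : Prop :=
  ∀ (V : Type) [Fintype V] [DecidableEq V] (G : SimpleGraph V), Ham G → G.IsHamiltonian

/-- H0: the two forms of the lemma on hypergraphs -/
def RowH0 : Prop := HypLemma' → HypLemma

/-- `G` is `t`-tough -/
def Tough {V : Type} [Fintype V] (t : ℝ) (G : SimpleGraph V) : Prop :=
  ∀ S : Finset V, 2 ≤ Nat.card (G.induce {v | v ∉ S}).ConnectedComponent →
    t * Nat.card (G.induce {v | v ∉ S}).ConnectedComponent ≤ S.card

/-- T1: toughness and cutsets -/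
def RowT1 : Prop :=
  ∀ (V : Type) [Fintype V] (G : SimpleGraph V) (t : ℝ), 2 < t → Tough t G → NoSmallCut G

/-- the main theorem, given the lemma on hypergraphs -/
def Main : Prop :=
  HypLemma' → ∀ (V : Type) [Fintype V] [DecidableEq V] (G : SimpleGraph V) (t : ℝ),
    2 < t → 3 ≤ Fintype.card V → ClawFree G → Tough t G → G.IsHamiltonian

end Pool.Agent.ClawHam
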