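import Pool.Agent.Lib.MP_e2dbb5_co.FB

/-!
# The reduction with skipped vertices: a dominating closed trail is enough
-/

set_option autoImplicit false

open Finset

noncomputable section

namespace Pool.Agent.ClawHam

open Classical

/-- A connected even choice which may skip some vertices of degree four (the set `S`; the other
vertices are `T`): every hyperedge with three vertices at a skipped vertex is used, and two skipped
vertices are in no common hyperedge. -/
def EvenDom {B I : Type} [Fintype B] [Fintype I] (B₀ : Finset B) (e : I → Finset B) : Prop :=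
  ∃ (S T : Finset B) (f : I → Finset B), (∀ K, K ∈ T ↔ K ∈ B₀ ∧ K ∉ S) ∧ 2 ≤ T.card ∧
    (∀ i, f i ⊆ e i ∧ (f i = ∅ ∨ (f i).card = 2)) ∧ (∀ i, Disjoint (f i) S) ∧
    (∀ K, Even (univ.filter fun i => K ∈ f i).card) ∧
    (∀ X : Finset B, X ⊆ T → X.Nonempty → X ≠ T → ∃ i, Crosses (f i) X) ∧
    (∀ K ∈ S, (univ.filter fun i => Crosses (e i) {K}).card ≤ 4) ∧
    (∀ K ∈ S, ∀ i, K ∈ e i → ∀ L ∈ e i, L ≠ K → L ∉ S) ∧
    (∀ K ∈ S, ∀ i, K ∈ e i → (e i).card = 3 → f i ≠ ∅)

/-- the lemma on hypergraphs of rank three, with skipped vertices, for at most `m` vertices of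
degree four in triples -/
def HypLemmaD (m : ℕ) : Prop :=
  ∀ (B I : Type) [Fintype B] [Fintype I] (e : I → Finset B),
    (∀ i, (e i).card = 2 ∨ (e i).card = 3) → 2 ≤ Fintype.card B → FourConn univ e →
      FiveEss univ e → (Deg4T e).card ≤ m → EvenDom univ e

/-- A big cell of degree at most four has at most four vertices, all with neighbours outside. -/
theorem cell4 {V C : Type} [Fintype V] [Fintype C] {G : SimpleGraph V} {inc : V → C → Prop}
    (hK : Krausz G inc) (hcut : NoSmallCut G) (hbig : ∀ v, ∃ K, Big inc K ∧ inc v K) {K : C}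
    (hbK : Big inc K) (hdeg : (univ.filter fun i => Crosses (hyp inc i) {K}).card ≤ 4)
    {w₀ : V} (hw₀ : ¬ inc w₀ K) :
    (univ.filter fun v => inc v K).card ≤ 4 ∧ ∀ v, inc v K → ∃ w, ¬ inc w K ∧ G.Adj v w := by
  set D : Finset V := univ.filter fun v => inc v K ∧ ∃ w, ¬ inc w K ∧ G.Adj v w with hD
  have hD4 : D.card ≤ 4 := by
    have h1 : ∀ v : V, ∃ i : V ⊕ C, v ∈ D → Crosses (hyp inc i) {K} ∧
        (i = Sum.inl v ∨ ∃ L, i = Sum.inr L ∧ inc v L ∧ ¬ Big inc L) := by
      intro v
      by_cases hv : v ∈ D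
      · obtain ⟨hvK, w, hwK, hadj⟩ := (mem_filter.1 hv).2
        obtain ⟨-, L, hvL, hwL⟩ := (hK.adj_iff v w).1 hadj
        have hLK : L ≠ K := by
          rintro rfl
          exact hwK hwL
        by_cases hbL : Big inc L
        · refine ⟨Sum.inl v, fun _ => ⟨⟨⟨K, mem_filter.2 ⟨mem_univ _, hbK, hvK⟩,
            mem_singleton_self K⟩, L, mem_filter.2 ⟨mem_univ _, hbL, hvL⟩, ?_⟩, Or.inl rfl⟩⟩
          rw [mem_singleton]
          exact hLK
        · obtain ⟨M, hbM, hwM⟩ := hbig w
          refine ⟨Sum.inr L, fun _ => ⟨⟨⟨K, mem_filter.2 ⟨mem_univ _, hbL, hbK, v, hvL, hvK⟩,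
            mem_singleton_self K⟩, M, mem_filter.2 ⟨mem_univ _, hbL, hbM, w, hwL, hwM⟩, ?_⟩,
            Or.inr ⟨L, rfl, hvL, hbL⟩⟩⟩
          rw [mem_singleton]
          rintro rfl
          exact hwK hwM
      · exact ⟨Sum.inl v, fun h => absurd h hv⟩
    choose j hj using h1
    refine (card_le_card_of_injOn j ?_ ?_).trans hdeg
    · intro v hv
      exact mem_filter.2 ⟨mem_univ _, (hj v hv).1⟩
    · intro a ha b hb hab
      have ha' := (hj a ha).2
      have hb' := (hj b hb).2
      by_contra hne
      rcases ha' with ha' | ⟨L, ha', haL, hbL⟩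
      · rcases hb' with hb' | ⟨L, hb', -, -⟩
        · rw [ha', hb'] at hab
          exact hne (Sum.inl_injective hab)
        · rw [ha', hb'] at hab
          exact absurd hab Sum.inl_ne_inr
      · rcases hb' with hb' | ⟨L', hb', hbL', -⟩
        · rw [ha', hb'] at hab
          exact absurd hab Sum.inr_ne_inl
        · rw [ha', hb'] at hab
          have hLL : L = L' := Sum.inr_injective hab
          rw [← hLL] at hbL'
          have h2 := hK.uniq a b K L hne (mem_filter.1 ha).2.1 (mem_filter.1 hb).2.1 haL hbL'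
          rw [h2] at hbK
          exact hbL hbK
  -- all vertices of `K` are in the boundary
  have hKD : (univ.filter fun v => inc v K) ⊆ D := by
    intro a ha
    have haK := (mem_filter.1 ha).2
    by_contra haD
    have h5 := hcut D ((univ.filter fun v => inc v K) \ D) (univ.filter fun v => ¬ inc v K) (by
        intro w
        by_cases h1 : inc w K
        · by_cases h2 : w ∈ D
          · exact Or.inl h2
          · exact Or.inr (Or.inl (mem_sdiff.2 ⟨mem_filter.2 ⟨mem_univ _, h1⟩, h2⟩))
        · exact Or.inr (Or.inr (mem_filter.2 ⟨mem_univ _, h1⟩)))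
      (by
        rw [Finset.disjoint_left]
        intro x h1 h2
        exact (mem_filter.1 h2).2 (mem_filter.1 (mem_sdiff.1 h1).1).2)
      (by
        rw [Finset.disjoint_left]
        intro x h1 h2
        exact (mem_sdiff.1 h1).2 h2)
      (by
        rw [Finset.disjoint_left]
        intro x h1 h2
        exact (mem_filter.1 h1).2 (mem_filter.1 h2).2.1)
      ⟨a, mem_sdiff.2 ⟨ha, haD⟩⟩ ⟨w₀, mem_filter.2 ⟨mem_univ _, hw₀⟩⟩ (by
        intro x hx y hy hxy
        rw [mem_sdiff] at hx
        exact hx.2 (mem_filter.2 ⟨mem_univ _, (mem_filter.1 hx.1).2, y, (mem_filter.1 hy).2, hxy⟩))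
    omega
  refine ⟨(card_le_card hKD).trans hD4, fun v hv => ?_⟩
  exact (mem_filter.1 (hKD (mem_filter.2 ⟨mem_univ _, hv⟩))).2.2

theorem rowe1D {V C : Type} [Fintype V] [Fintype C] {G : SimpleGraph V} {inc : V → C → Prop}
    (hK : Krausz G inc) (hcut : NoSmallCut G) (hnc : ∃ u v, u ≠ v ∧ ¬ G.Adj u v)
    (hbig : ∀ v, ∃ K, Big inc K ∧ inc v K) (hdom : EvenDom (bigs inc) (hyp inc)) :
    ∃ F : Finset V, Trav inc F := by
  obtain ⟨Sk, T, f, hT, hcard, hf, hdis, heven, hconn, hfour, hstab, hused⟩ := hdom
  -- facts on `f`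
  have hv' : ∀ v, f (Sum.inl v) ≠ ∅ → ∀ K, K ∈ f (Sum.inl v) ↔ Big inc K ∧ inc v K := by
    intro v hne
    have h1 := hf (Sum.inl v)
    have h2 : (f (Sum.inl v)).card = 2 := h1.2.resolve_left hne
    have h3 : (hyp inc (Sum.inl v)).card ≤ 2 := by
      by_contra hlt
      push Not at hlt
      obtain ⟨K, L, M, hK1, hL1, hM1, hKL, hKM, hLM⟩ := Finset.two_lt_card_iff.mp hlt
      simp only [hyp, Finset.mem_filter, Finset.mem_univ, true_and] at hK1 hL1 hM1
      rcases hK.two v K L M hK1.2 hL1.2 hM1.2 with h | h | h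
      · exact hKL h
      · exact hKM h
      · exact hLM h
    have h4 : f (Sum.inl v) = hyp inc (Sum.inl v) :=
      Finset.eq_of_subset_of_card_le h1.1 (by omega)
    intro K
    rw [h4]
    simp [hyp]
  have hs : ∀ S K, K ∈ f (Sum.inr S) → ¬ Big inc S ∧ Big inc K ∧ ∃ v, inc v S ∧ inc v K := by
    intro S K h
    have h1 := (hf (Sum.inr S)).1 h
    simpa [hyp] using h1
  have hne : ∀ S K, ¬ Big inc S → Big inc K → S ≠ K := by
    intro S K h1 h2 h
    exact h1 (h ▸ h2)
  -- a vertex with two cells has no other cell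
  have hthree : ∀ v K L M, inc v K → inc v L → inc v M → K ≠ L → M ≠ K → M = L := by
    intro v K L M h1 h2 h3 h4 h5
    rcases hK.two v K L M h1 h2 h3 with h | h | h
    · exact absurd h h4
    · exact absurd h.symm h5
    · exact h.symm
  set F : Finset V := univ.filter fun v => f (Sum.inl v) ≠ ∅ ∨
    ∃ S K, K ∈ f (Sum.inr S) ∧ inc v S ∧ inc v K with hF
  have memF : ∀ v, v ∈ F ↔ (f (Sum.inl v) ≠ ∅ ∨
    ∃ S K, K ∈ f (Sum.inr S) ∧ inc v S ∧ inc v K) := by
    intro v; simp [hF]
  have hex : ∀ v ∈ F, ∃ K, Big inc K ∧ inc v K := by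
    intro v h
    obtain ⟨K, h1, h2⟩ := hbig v
    exact ⟨K, h1, h2⟩
  -- membership in `F` seen from a big cell
  have hFbig : ∀ v K, Big inc K → ((v ∈ F ∧ inc v K) ↔
      (K ∈ f (Sum.inl v) ∨ ∃ S, K ∈ f (Sum.inr S) ∧ inc v S ∧ inc v K)) := by
    intro v K hb
    constructor
    · rintro ⟨h1, h2⟩
      rcases (memF v).mp h1 with h | ⟨S, K', h3, h4, h5⟩
      · exact Or.inl ((hv' v h K).mpr ⟨hb, h2⟩)
      · right
        have h6 := hs S K' h3
        have h7 : K = K' := by
          have := hthree v S K' K h4 h5 h2 (hne S K' h6.1 h6.2.1) (hne S K h6.1 hb).symm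
          exact this
        exact ⟨S, h7 ▸ h3, h4, h2⟩
    · rintro (h | ⟨S, h1, h2, h3⟩)
      · have h1 : f (Sum.inl v) ≠ ∅ := by
          intro h0; rw [h0] at h; exact absurd h (Finset.notMem_empty _)
        exact ⟨(memF v).mpr (Or.inl h1), ((hv' v h1 K).mp h).2⟩
      · exact ⟨(memF v).mpr (Or.inr ⟨S, K, h1, h2, h3⟩), h3⟩
  refine ⟨F, ?_, ?_, ?_, ?_⟩
  · -- two
    intro v h
    rcases (memF v).mp h with h1 | ⟨S, K, h3, h4, h5⟩
    · have h2 : (f (Sum.inl v)).card = 2 := (hf (Sum.inl v)).2.resolve_left h1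
      obtain ⟨K, L, hKL, h3⟩ := Finset.card_eq_two.mp h2
      refine ⟨K, L, hKL, ((hv' v h1 K).mp (by rw [h3]; simp)).2,
        ((hv' v h1 L).mp (by rw [h3]; simp)).2⟩
    · exact ⟨S, K, hne S K (hs S K h3).1 (hs S K h3).2.1, h4, h5⟩
  · -- even
    intro K
    -- the vertex in a small cell and a big cell is unique
    have huniq : ∀ S L, S ≠ L → ∀ u v, inc u S → inc u L → inc v S → inc v L → u = v := by
      intro S L hSL u v h1 h2 h3 h4
      by_contra h
      exact hSL (hK.uniq u v S L h h1 h3 h2 h4)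
    by_cases hb : Big inc K
    · -- a big cell
      have h2 : (univ.filter fun i => K ∈ f i).card = (F.filter fun v => inc v K).card := by
        refine Finset.card_bij
          (fun i hi => match i, hi with
            | Sum.inl v, _ => v
            | Sum.inr S, hi => (hs S K (Finset.mem_filter.mp hi).2).2.2.choose) ?_ ?_ ?_
        · rintro (v | S) hi
          · have h3 := (Finset.mem_filter.mp hi).2
            have h4 := (hFbig v K hb).mpr (Or.inl h3)
            exact Finset.mem_filter.mpr h4
          · have h3 := (Finset.mem_filter.mp hi).2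
            have h5 := (hs S K h3).2.2.choose_spec
            exact Finset.mem_filter.mpr ((hFbig _ K hb).mpr (Or.inr ⟨S, h3, h5.1, h5.2⟩))
        · rintro (v | S) hi (w | T) hj hvw
          · simp only at hvw
            rw [hvw]
          · exfalso
            have h3 := (Finset.mem_filter.mp hi).2
            have h4 := (Finset.mem_filter.mp hj).2
            have h5 := (hs T K h4).2.2.choose_spec
            simp only at hvw
            rw [← hvw] at h5
            have h6 : f (Sum.inl v) ≠ ∅ := by
              intro h0; rw [h0] at h3; exact absurd h3 (Finset.notMem_empty _)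
            have h7 : (f (Sum.inl v)).card = 2 := (hf (Sum.inl v)).2.resolve_left h6
            obtain ⟨L, h8, h9⟩ : ∃ L ∈ f (Sum.inl v), L ≠ K :=
              Finset.exists_mem_ne (by omega) K
            have h10 := (hv' v h6 L).mp h8
            exact h9 (hthree v T K L h5.1 h5.2 h10.2 (hne T K (hs T K h4).1 hb)
              (hne T L (hs T K h4).1 h10.1).symm)
          · exfalso
            have h3 := (Finset.mem_filter.mp hj).2
            have h4 := (Finset.mem_filter.mp hi).2
            have h5 := (hs S K h4).2.2.choose_spec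
            simp only at hvw
            rw [hvw] at h5
            have h6 : f (Sum.inl w) ≠ ∅ := by
              intro h0; rw [h0] at h3; exact absurd h3 (Finset.notMem_empty _)
            have h7 : (f (Sum.inl w)).card = 2 := (hf (Sum.inl w)).2.resolve_left h6
            obtain ⟨L, h8, h9⟩ : ∃ L ∈ f (Sum.inl w), L ≠ K :=
              Finset.exists_mem_ne (by omega) K
            have h10 := (hv' w h6 L).mp h8
            exact h9 (hthree w S K L h5.1 h5.2 h10.2 (hne S K (hs S K h4).1 hb)
              (hne S L (hs S K h4).1 h10.1).symm)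
          · have h3 := (Finset.mem_filter.mp hi).2
            have h4 := (Finset.mem_filter.mp hj).2
            have h5 := (hs S K h3).2.2.choose_spec
            have h6 := (hs T K h4).2.2.choose_spec
            simp only at hvw
            rw [← hvw] at h6
            have h7 : T = S := by
              have hKS : K ≠ S := (hne S K (hs S K h3).1 hb).symm
              have hTK : T ≠ K := hne T K (hs T K h4).1 hb
              exact hthree _ K S T h5.2 h5.1 h6.1 hKS hTK
            rw [h7]
        · intro v hv1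
          obtain h3 := (hFbig v K hb).mp (Finset.mem_filter.mp hv1)
          rcases h3 with h3 | ⟨S, h3, h4, h5⟩
          · exact ⟨Sum.inl v, Finset.mem_filter.mpr ⟨Finset.mem_univ _, h3⟩, rfl⟩
          · refine ⟨Sum.inr S, Finset.mem_filter.mpr ⟨Finset.mem_univ _, h3⟩, ?_⟩
            have h6 := (hs S K h3).2.2.choose_spec
            exact huniq S K (hne S K (hs S K h3).1 hb) _ _ h6.1 h6.2 h4 h5
      rw [← h2]; exact heven K
    · -- a small cell
      have h2 : (f (Sum.inr K)).card = (F.filter fun v => inc v K).card := by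
        refine Finset.card_bij (fun L hL => (hs K L hL).2.2.choose) ?_ ?_ ?_
        · intro L hL
          have h3 := (hs K L hL).2.2.choose_spec
          exact Finset.mem_filter.mpr ⟨(memF _).mpr (Or.inr ⟨K, L, hL, h3.1, h3.2⟩), h3.1⟩
        · intro L hL M hM hLM
          have h3 := (hs K L hL).2.2.choose_spec
          have h4 := (hs K M hM).2.2.choose_spec
          rw [← hLM] at h4
          exact (hthree _ K L M h3.1 h3.2 h4.2 (hne K L hb (hs K L hL).2.1)
            (hne K M hb (hs K M hM).2.1).symm).symm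
        · intro v hv1
          obtain ⟨h3, h4⟩ := Finset.mem_filter.mp hv1
          rcases (memF v).mp h3 with h5 | ⟨S, L, h5, h6, h7⟩
          · exfalso
            have h7 : (f (Sum.inl v)).card = 2 := (hf (Sum.inl v)).2.resolve_left h5
            obtain ⟨A, B, hAB, h8⟩ := Finset.card_eq_two.mp h7
            have hA := (hv' v h5 A).mp (by rw [h8]; simp)
            have hB := (hv' v h5 B).mp (by rw [h8]; simp)
            exact hAB (hthree v K B A h4 hB.2 hA.2 (hne K B hb hB.1) (hne K A hb hA.1).symm)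
          · have h8 := hs S L h5
            have h9 : K = S := hthree v L S K h7 h6 h4 (hne S L h8.1 h8.2.1).symm
              (hne K L hb h8.2.1)
            subst h9
            refine ⟨L, h5, ?_⟩
            have h10 := (hs K L h5).2.2.choose_spec
            exact huniq K L (hne K L hb h8.2.1) _ _ h10.1 h10.2 h6 h7
      rw [← h2]
      rcases (hf (Sum.inr K)).2 with h | h
      · rw [h]; simp
      · rw [h]; exact even_two
  · -- dom
    have hvis : ∀ K, Big inc K → K ∉ Sk → ∃ w ∈ F, inc w K := by
      intro K h1 hKS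
      have h3 : ({K} : Finset C) ≠ T := by
        intro h; rw [← h] at hcard; simp at hcard
      obtain ⟨i, ⟨a, ha, haX⟩, _⟩ := hconn {K} (by
        intro x hx
        rw [Finset.mem_singleton] at hx
        subst hx
        exact (hT x).2 ⟨by simp [bigs, h1], hKS⟩)
        (Finset.singleton_nonempty K) h3
      rw [Finset.mem_singleton] at haX
      subst haX
      rcases i with w | S
      · exact ⟨w, ((hFbig w a h1).mpr (Or.inl ha)).1, ((hFbig w a h1).mpr (Or.inl ha)).2⟩
      · obtain ⟨w, h4, h5⟩ := (hs S a ha).2.2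
        exact ⟨w, (memF w).mpr (Or.inr ⟨S, a, ha, h4, h5⟩), h5⟩
    intro v
    obtain ⟨K, h1, h2⟩ := hbig v
    by_cases hKS : K ∈ Sk
    · -- a skipped cell
      obtain ⟨w₀, hw₀⟩ : ∃ w, ¬ inc w K := by
        by_contra hall
        push Not at hall
        obtain ⟨u, w, huw, hadj⟩ := hnc
        exact hadj ((hK.adj_iff u w).2 ⟨huw, K, hall u, hall w⟩)
      obtain ⟨h4, h5⟩ := cell4 hK hcut hbig h1 (hfour K hKS) hw₀
      obtain ⟨w, hwK, hadj⟩ := h5 v h2
      obtain ⟨-, L, hvL, hwL⟩ := (hK.adj_iff v w).1 hadj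
      have hLK : L ≠ K := by
        rintro rfl
        exact hwK hwL
      by_cases hbL : Big inc L
      · have h6 : L ∉ Sk := hstab K hKS (Sum.inl v) (mem_filter.2 ⟨mem_univ _, h1, h2⟩) L
          (mem_filter.2 ⟨mem_univ _, hbL, hvL⟩) hLK
        obtain ⟨w', h7, h8⟩ := hvis L hbL h6
        exact ⟨L, hvL, w', h7, h8⟩
      · -- the small cell has three vertices
        have h6 : 3 ≤ (univ.filter fun w => inc w L).card := by
          have h7 := five_le_deg hcut hnc v
          have hsub : (univ.filter fun w => G.Adj v w) ⊆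
              (univ.filter fun w => inc w K).erase v ∪ (univ.filter fun w => inc w L).erase v := by
            intro w hw
            obtain ⟨hne, M, h1, h2'⟩ := (hK.adj_iff v w).1 (mem_filter.1 hw).2
            rw [mem_union, mem_erase, mem_erase, mem_filter, mem_filter]
            rcases hK.two v K L M h2 hvL h1 with h | h | h
            · exact absurd h.symm hLK
            · left
              rw [h]
              exact ⟨hne.symm, mem_univ _, h2'⟩
            · right
              rw [h]
              exact ⟨hne.symm, mem_univ _, h2'⟩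
          have h8 := (card_le_card hsub).trans (card_union_le _ _)
          have hvK' : v ∈ univ.filter fun w => inc w K := mem_filter.2 ⟨mem_univ _, h2⟩
          have hvL' : v ∈ univ.filter fun w => inc w L := mem_filter.2 ⟨mem_univ _, hvL⟩
          rw [card_erase_of_mem hvK', card_erase_of_mem hvL'] at h8
          omega
        have h7 : (hyp inc (Sum.inr L : V ⊕ C)).card = 3 := by
          have h8 : ∀ x : V, ∃ M : C, Big inc M ∧ inc x M := hbig
          choose j hj using h8
          have h9 : 3 ≤ (hyp inc (Sum.inr L : V ⊕ C)).card := by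
            refine h6.trans (card_le_card_of_injOn j ?_ ?_)
            · intro x hx
              exact mem_filter.2 ⟨mem_univ _, hbL, (hj x).1, x, (mem_filter.1 hx).2, (hj x).2⟩
            · intro x hx y hy hxy
              by_contra hne'
              have h10 := (hj y).2
              rw [← hxy] at h10
              have h11 := hK.uniq x y (j x) L hne' (hj x).2 h10 (mem_filter.1 hx).2
                (mem_filter.1 hy).2
              have h12 := (hj x).1
              rw [h11] at h12
              exact hbL h12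
          have h10 := C1x.hyp_card hK (Sum.inr L : V ⊕ C)
          omega
        have h8 : f (Sum.inr L) ≠ ∅ :=
          hused K hKS (Sum.inr L) (mem_filter.2 ⟨mem_univ _, hbL, h1, v, hvL, h2⟩) h7
        obtain ⟨M, hM⟩ := nonempty_iff_ne_empty.2 h8
        obtain ⟨x, h9, h10⟩ := (hs L M hM).2.2
        exact ⟨L, hvL, x, (memF x).mpr (Or.inr ⟨L, M, hM, h9, h10⟩), h9⟩
    · obtain ⟨w, h3, h4⟩ := hvis K h1 hKS
      exact ⟨K, h2, w, h3, h4⟩
  · -- conn
    intro P ⟨v1, hv1, K1, hi1, hP1⟩ ⟨v2, hv2, K2, hi2, hP2⟩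
    by_contra hno
    push Not at hno
    have hsame : ∀ v ∈ F, ∀ K L, inc v K → inc v L → P K → P L := by
      intro v h K L h1 h2 h3
      exact hno v h K L h1 h2 h3
    have hbig' : ∀ v ∈ F, ∃ K, Big inc K ∧ inc v K ∧ K ∉ Sk := by
      intro v hv
      rcases (memF v).mp hv with h | ⟨S, K, h3, h4, h5⟩
      · obtain ⟨K, hKf⟩ := nonempty_iff_ne_empty.2 h
        have h6 := (hv' v h K).mp hKf
        exact ⟨K, h6.1, h6.2, fun h7 => (Finset.disjoint_left.1 (hdis _)) hKf h7⟩
      · exact ⟨K, (hs S K h3).2.1, h5, fun h7 => (Finset.disjoint_left.1 (hdis _)) h3 h7⟩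
    obtain ⟨B1, hB1, hB1', hB1S⟩ := hbig' v1 hv1
    obtain ⟨B2, hB2, hB2', hB2S⟩ := hbig' v2 hv2
    have hPB1 : P B1 := hsame v1 hv1 K1 B1 hi1 hB1' hP1
    have hPB2 : ¬ P B2 := fun h => hP2 (hsame v2 hv2 B2 K2 hB2' hi2 h)
    obtain ⟨i, ⟨a, ha, haX⟩, b, hb, hbX⟩ := hconn (T.filter P)
      (Finset.filter_subset _ _)
      ⟨B1, mem_filter.2 ⟨(hT B1).2 ⟨by simp [bigs, hB1], hB1S⟩, hPB1⟩⟩ (by
        intro h
        have h0 : B2 ∈ T.filter P := by
          rw [h]
          exact (hT B2).2 ⟨by simp [bigs, hB2], hB2S⟩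
        exact hPB2 (Finset.mem_filter.mp h0).2)
    have hPa : P a := (Finset.mem_filter.mp haX).2
    have hbS : b ∉ Sk := fun h7 => (Finset.disjoint_left.1 (hdis _)) hb h7
    rcases i with w | S
    · have hw : f (Sum.inl w) ≠ ∅ := by
        intro h0; rw [h0] at ha; exact absurd ha (Finset.notMem_empty _)
      have h1 := (hv' w hw a).mp ha
      have h2 := (hv' w hw b).mp hb
      have hPb : ¬ P b := fun h => hbX (Finset.mem_filter.mpr
        ⟨(hT b).2 ⟨by simp [bigs, h2.1], hbS⟩, h⟩)
      exact hPb (hsame w ((memF w).mpr (Or.inl hw)) a b h1.2 h2.2 hPa)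
    · obtain ⟨h1, h2, w, h3, h4⟩ := hs S a ha
      obtain ⟨_, h5, w', h6, h7⟩ := hs S b hb
      have hPb : ¬ P b := fun h => hbX (Finset.mem_filter.mpr
        ⟨(hT b).2 ⟨by simp [bigs, h5], hbS⟩, h⟩)
      have hPS : P S := hsame w ((memF w).mpr (Or.inr ⟨S, a, ha, h3, h4⟩)) a S h4 h3 hPa
      exact hPb (hsame w' ((memF w').mpr (Or.inr ⟨S, b, hb, h6, h7⟩)) S b h6 h7 hPS)

end Pool.Agent.ClawHam
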