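import Pool.Agent.Lib.MP_e2dbb5_co.Defs

/-!
# Orientation by Hall's theorem
-/

set_option autoImplicit false

open Finset

namespace Pool.Agent.ClawHam

open Classical

/-- If every member of `F` lies in exactly two cells, and every cell contains an even number of
members of `F`, there is an orientation with equal in- and outdegrees. -/
theorem rowe2 : RowE2 := by
  intro V C _ _ inc F htwo hex hF heven
  -- the cells of a member of `F`
  have hcell : ∀ v ∈ F, (univ.filter fun K => inc v K).card = 2 := by
    intro v hv
    obtain ⟨K, L, hKL, hK, hL⟩ := hF v hv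
    have : (univ.filter fun K => inc v K) = {K, L} := by
      ext M
      simp only [mem_filter, mem_univ, true_and, mem_insert, mem_singleton]
      constructor
      · intro hM
        rcases htwo v K L M hK hL hM with h | h | h
        · exact absurd h hKL
        · exact Or.inl h.symm
        · exact Or.inr h.symm
      · rintro (rfl | rfl)
        · exact hK
        · exact hL
    rw [this, card_pair hKL]
  set d : C → ℕ := fun K => (F.filter fun v => inc v K).card with hd
  set m : C → ℕ := fun K => d K / 2 with hm
  have hdm : ∀ K, d K = 2 * m K := by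
    intro K
    obtain ⟨c, hc⟩ := heven K
    simp only [hm]
    have : d K = c + c := hc
    omega
  let N : {v // v ∈ F} → Finset (Σ _ : C, ℕ) := fun v =>
    (univ.filter fun K => inc v.1 K).sigma fun K => range (m K)
  have hall : ∀ s : Finset {v // v ∈ F}, s.card ≤ (s.biUnion N).card := by
    intro s
    set D : Finset C := univ.filter fun K => ∃ v ∈ s, inc v.1 K with hD
    have h1 : s.biUnion N = D.sigma fun K => range (m K) := by
      ext ⟨K, i⟩
      simp only [N, hD, mem_biUnion, mem_sigma, mem_filter, mem_univ, true_and, mem_range]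
      constructor
      · rintro ⟨v, hv, hK, hi⟩
        exact ⟨⟨v, hv, hK⟩, hi⟩
      · rintro ⟨⟨v, hv, hK⟩, hi⟩
        exact ⟨v, hv, hK, hi⟩
    rw [h1, card_sigma]
    have h2 : 2 * s.card ≤ 2 * ∑ K ∈ D, (range (m K)).card := by
      calc 2 * s.card = ∑ v ∈ s, 2 := by rw [sum_const, smul_eq_mul, mul_comm]
        _ = ∑ v ∈ s, (D.filter fun K => inc v.1 K).card := by
            refine sum_congr rfl fun v hv => ?_
            rw [← hcell v.1 v.2]
            congr 1
            ext K
            simp only [hD, mem_filter, mem_univ, true_and]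
            exact ⟨fun h => ⟨⟨v, hv, h⟩, h⟩, fun h => h.2⟩
        _ = ∑ K ∈ D, (s.filter fun v => inc v.1 K).card := by
            have := sum_card_bipartiteAbove_eq_sum_card_bipartiteBelow (s := s) (t := D)
              (fun v K => inc v.1 K)
            simpa [bipartiteAbove, bipartiteBelow] using this
        _ ≤ ∑ K ∈ D, d K := by
            refine sum_le_sum fun K _ => ?_
            refine card_le_card_of_injOn (fun v => v.1) ?_ ?_
            · intro v hv
              simp only [coe_filter, Set.mem_ofPred_eq] at hv ⊢
              exact ⟨v.2, hv.2⟩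
            · intro a _ b _ h
              exact Subtype.ext h
        _ = 2 * ∑ K ∈ D, (range (m K)).card := by
            rw [mul_sum]
            exact sum_congr rfl fun K _ => by rw [card_range, hdm K]
    omega
  obtain ⟨f, hfi, hfN⟩ := (Finset.all_card_le_biUnion_card_iff_exists_injective N).1 hall
  have hfN' : ∀ v : {v // v ∈ F}, inc v.1 (f v).1 ∧ (f v).2 < m (f v).1 := by
    intro v
    have := hfN v
    simpa [N, mem_sigma] using this
  let c : V → C := fun v => Classical.choose (hex v)
  let t : V → C := fun v => if h : v ∈ F then (f ⟨v, h⟩).1 else c v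
  have ht : ∀ v (h : v ∈ F), t v = (f ⟨v, h⟩).1 := fun v h => by simp only [t, dif_pos h]
  have hti : ∀ v ∈ F, inc v (t v) := fun v h => by rw [ht v h]; exact (hfN' ⟨v, h⟩).1
  have hother : ∀ v, ∃ L, v ∈ F → t v ≠ L ∧ inc v L := by
    intro v
    by_cases hv : v ∈ F
    · obtain ⟨K, L, hKL, hK, hL⟩ := hF v hv
      by_cases h : t v = K
      · exact ⟨L, fun _ => ⟨by rw [h]; exact hKL, hL⟩⟩
      · exact ⟨K, fun _ => ⟨h, hK⟩⟩
    · exact ⟨c v, fun h => absurd h hv⟩
  choose h hh using hother
  have hiff : ∀ v ∈ F, ∀ K, inc v K ↔ K = t v ∨ K = h v := by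
    intro v hv K
    constructor
    · intro hK
      rcases htwo v (t v) (h v) K (hti v hv) (hh v hv).2 hK with h1 | h1 | h1
      · exact absurd h1 (hh v hv).1
      · exact Or.inl h1.symm
      · exact Or.inr h1.symm
    · rintro (rfl | rfl)
      · exact hti v hv
      · exact (hh v hv).2
  have hle : ∀ K, (F.filter fun v => t v = K).card ≤ m K := by
    intro K
    rw [← card_range (m K)]
    refine card_le_card_of_injOn (fun v => if h : v ∈ F then (f ⟨v, h⟩).2 else 0) ?_ ?_
    · intro v hv
      simp only [coe_filter, Set.mem_ofPred_eq] at hv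
      simp only [coe_range, Set.mem_Iio, dif_pos hv.1]
      have h0 : (f ⟨v, hv.1⟩).1 = K := (ht v hv.1).symm.trans hv.2
      have := (hfN' ⟨v, hv.1⟩).2
      exact lt_of_lt_of_eq this (congrArg m h0)
    · intro a ha b hb hab
      simp only [coe_filter, Set.mem_ofPred_eq] at ha hb
      simp only [dif_pos ha.1, dif_pos hb.1] at hab
      have h1 : f ⟨a, ha.1⟩ = f ⟨b, hb.1⟩ := by
        refine Sigma.ext ?_ (heq_of_eq hab)
        rw [← ht a ha.1, ← ht b hb.1, ha.2, hb.2]
      exact congrArg Subtype.val (hfi h1)
  have hsum1 : ∑ K, (F.filter fun v => t v = K).card = F.card :=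
    (card_eq_sum_card_fiberwise (f := t) (t := univ) fun _ _ => mem_univ _).symm
  have hsum2 : ∑ K, m K = F.card := by
    have h1 : ∑ K, d K = 2 * F.card := by
      calc ∑ K, d K = ∑ K ∈ univ, (F.filter fun v => inc v K).card := rfl
        _ = ∑ v ∈ F, (univ.filter fun K => inc v K).card := by
            have := sum_card_bipartiteAbove_eq_sum_card_bipartiteBelow (s := F)
              (t := (univ : Finset C)) (fun v K => inc v K)
            simpa [bipartiteAbove, bipartiteBelow] using this.symm
        _ = ∑ v ∈ F, 2 := sum_congr rfl fun v hv => hcell v hv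
        _ = 2 * F.card := by rw [sum_const, smul_eq_mul, mul_comm]
    have h2 : ∑ K, d K = 2 * ∑ K, m K := by
      rw [mul_sum]
      exact sum_congr rfl fun K _ => hdm K
    omega
  have heq : ∀ K, (F.filter fun v => t v = K).card = m K := by
    intro K
    have := (sum_eq_sum_iff_of_le (s := univ) (f := fun K => (F.filter fun v => t v = K).card)
      (g := m) fun K _ => hle K).1 (hsum1.trans hsum2.symm)
    exact this K (mem_univ K)
  refine ⟨t, h, fun v hv => ⟨(hh v hv).1, hti v hv, (hh v hv).2⟩, fun K => ?_⟩
  have h3 : (F.filter fun v => inc v K).card =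
      (F.filter fun v => t v = K).card + (F.filter fun v => h v = K).card := by
    rw [← card_union_of_disjoint]
    · congr 1
      ext v
      simp only [mem_filter, mem_union]
      constructor
      · rintro ⟨hv, hK⟩
        rcases (hiff v hv K).1 hK with h1 | h1
        · exact Or.inl ⟨hv, h1.symm⟩
        · exact Or.inr ⟨hv, h1.symm⟩
      · rintro (⟨hv, hK⟩ | ⟨hv, hK⟩)
        · exact ⟨hv, (hiff v hv K).2 (Or.inl hK.symm)⟩
        · exact ⟨hv, (hiff v hv K).2 (Or.inr hK.symm)⟩
    · rw [disjoint_left]
      intro v h1 h2
      simp only [mem_filter] at h1 h2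
      exact (hh v h1.1).1 (h1.2.trans h2.2.symm)
  have h4 := hdm K
  simp only [hd] at h4
  rw [heq K] at h3 ⊢
  omega

end Pool.Agent.ClawHam
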