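import Pool.Agent.Lib.MP_e2dbb5_co.Defs

/-!
# One cycle
-/

set_option autoImplicit false

open Finset

namespace Pool.Agent.ClawHam

open Classical

/-- Multiplication with a transposition of two points of different cycles puts the two points into
one cycle. -/
theorem sameCycle_mul_swap {V : Type} [Fintype V] (σ : Equiv.Perm V) (u v : V)
    (h : ¬ σ.SameCycle u v) : (σ * Equiv.swap u v).SameCycle u v := by
  set τ := σ * Equiv.swap u v with hτ
  have hex : ∃ p, 0 < p ∧ (σ ^ p) v = v :=
    ⟨orderOf σ, orderOf_pos σ, by rw [pow_orderOf_eq_one]; rfl⟩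
  have hp := Nat.find_spec hex
  have hmin : ∀ q, q < Nat.find hex → ¬ (0 < q ∧ (σ ^ q) v = v) := fun q hq => Nat.find_min hex hq
  have key : ∀ j, j < Nat.find hex → (τ ^ (j + 1)) u = (σ ^ (j + 1)) v := by
    intro j
    induction j with
    | zero =>
      intro _
      simp [hτ]
    | succ j ih =>
      intro hj
      have h1 := ih (by omega)
      have h3 : (Equiv.swap u v) ((σ ^ (j + 1)) v) = (σ ^ (j + 1)) v →
          (τ ^ (j + 1 + 1)) u = (σ ^ (j + 1 + 1)) v := by
        intro h4
        calc (τ ^ (j + 1 + 1)) u = τ ((τ ^ (j + 1)) u) := by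
              rw [pow_succ' τ, Equiv.Perm.mul_apply]
          _ = σ ((Equiv.swap u v) ((σ ^ (j + 1)) v)) := by rw [h1]; rfl
          _ = (σ ^ (j + 1 + 1)) v := by rw [h4, pow_succ' σ (j + 1)]; rfl
      refine h3 (Equiv.swap_apply_of_ne_of_ne ?_ ?_)
      · intro h2
        refine h (Equiv.Perm.SameCycle.symm ⟨(j + 1 : ℕ), ?_⟩)
        rw [zpow_natCast]
        exact h2
      · intro h2
        exact hmin (j + 1) hj ⟨by omega, h2⟩
  have h1 := key (Nat.find hex - 1) (by omega)
  have h2 : Nat.find hex - 1 + 1 = Nat.find hex := by omega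
  rw [h2, hp.2] at h1
  exact ⟨(Nat.find hex : ℕ), by rw [zpow_natCast]; exact h1⟩

/-- Multiplication with a transposition of two points of different cycles merges the cycles. -/
theorem sameCycle_mono {V : Type} [Fintype V] (σ : Equiv.Perm V) (u v : V)
    (h : ¬ σ.SameCycle u v) (a b : V) (hab : σ.SameCycle a b) :
    (σ * Equiv.swap u v).SameCycle a b := by
  have huv := sameCycle_mul_swap σ u v h
  set τ := σ * Equiv.swap u v with hτ
  have hstep : ∀ x, τ.SameCycle x (σ x) := by
    intro x
    by_cases hu : x = u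
    · have h1 : σ x = τ v := by rw [hτ, Equiv.Perm.mul_apply, Equiv.swap_apply_right, hu]
      rw [h1, hu]
      exact Equiv.Perm.sameCycle_apply_right.2 huv
    · by_cases hv : x = v
      · have h1 : σ x = τ u := by rw [hτ, Equiv.Perm.mul_apply, Equiv.swap_apply_left, hv]
        rw [h1, hv]
        exact Equiv.Perm.sameCycle_apply_right.2 huv.symm
      · have h1 : σ x = τ x := by
          rw [hτ, Equiv.Perm.mul_apply, Equiv.swap_apply_of_ne_of_ne hu hv]
        rw [h1]
        exact Equiv.Perm.sameCycle_apply_right.2 (Equiv.Perm.SameCycle.refl _ _)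
  obtain ⟨i, hi⟩ := hab.exists_nat_pow_eq
  have hall : ∀ n : ℕ, τ.SameCycle a ((σ ^ n) a) := by
    intro n
    induction n with
    | zero => exact Equiv.Perm.SameCycle.refl _ _
    | succ n ih =>
      rw [pow_succ', Equiv.Perm.mul_apply]
      exact ih.trans (hstep _)
  rw [← hi]
  exact hall i

/-- A permutation which maps the exit cell of every vertex to the entry cell of its image, with one
cycle. -/
theorem rowe3 : RowE3 := by
  intro V C _ _ inc F htwo hT hth
  obtain ⟨t, h, hF, hcard⟩ := hth
  have hdom := hT.dom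
  choose c hc using hdom
  let cin : V → C := fun v => if v ∈ F then t v else c v
  let cout : V → C := fun v => if v ∈ F then h v else c v
  have cin_F : ∀ v ∈ F, cin v = t v := fun v hv => if_pos hv
  have cout_F : ∀ v ∈ F, cout v = h v := fun v hv => if_pos hv
  have cin_N : ∀ v, v ∉ F → cin v = c v := fun v hv => if_neg hv
  have cout_N : ∀ v, v ∉ F → cout v = c v := fun v hv => if_neg hv
  have hcin : ∀ v, inc v (cin v) := by
    intro v
    by_cases hv : v ∈ F
    · rw [cin_F v hv]
      exact (hF v hv).2.1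
    · rw [cin_N v hv]
      exact (hc v).1
  have hcout : ∀ v, inc v (cout v) := by
    intro v
    by_cases hv : v ∈ F
    · rw [cout_F v hv]
      exact (hF v hv).2.2
    · rw [cout_N v hv]
      exact (hc v).1
  -- every exit cell is visited
  have hvis : ∀ v, ∃ w ∈ F, inc w (cout v) := by
    intro v
    by_cases hv : v ∈ F
    · exact ⟨v, hv, hcout v⟩
    · rw [cout_N v hv]
      exact (hc v).2
  -- fibres
  have hsplit : ∀ (g : V → C) (g' : V → C), (∀ v ∈ F, g v = g' v) → (∀ v, v ∉ F → g v = c v) →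
      ∀ K, (univ.filter fun v => g v = K).card =
        (F.filter fun v => g' v = K).card + (Fᶜ.filter fun v => c v = K).card := by
    intro g g' h1 h2 K
    rw [← card_union_of_disjoint]
    · congr 1
      ext v
      simp only [mem_filter, mem_univ, true_and, mem_union, mem_compl]
      by_cases hv : v ∈ F
      · rw [h1 v hv]
        simp [hv]
      · rw [h2 v hv]
        simp [hv]
    · rw [disjoint_left]
      intro v hv hv'
      simp only [mem_filter, mem_compl] at hv hv'
      exact hv'.1 hv.1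
  have hfib : ∀ K, Fintype.card {v // cout v = K} = Fintype.card {v // cin v = K} := by
    intro K
    rw [Fintype.card_subtype, Fintype.card_subtype, hsplit cout h cout_F cout_N K,
      hsplit cin t cin_F cin_N K, hcard K]
  let e : ∀ K, {v // cout v = K} ≃ {v // cin v = K} := fun K => Fintype.equivOfCardEq (hfib K)
  let σ₀ : Equiv.Perm V :=
    (Equiv.sigmaFiberEquiv cout).symm.trans
      ((Equiv.sigmaCongrRight e).trans (Equiv.sigmaFiberEquiv cin))
  have hσ₀ : ∀ v, cin (σ₀ v) = cout v := by
    intro v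
    exact (e (cout v) ⟨v, rfl⟩).2
  -- a permutation with the largest number of pairs in the same cycle
  obtain ⟨σ, hσ, hmax⟩ := (univ.filter fun σ : Equiv.Perm V => ∀ v, cin (σ v) = cout v).exists_max_image
    (fun σ => (univ.filter fun p : V × V => σ.SameCycle p.1 p.2).card)
    ⟨σ₀, by simpa using hσ₀⟩
  simp only [mem_filter, mem_univ, true_and] at hσ hmax
  have hsame : ∀ u v, cout u = cout v → σ.SameCycle u v := by
    intro u v huv
    by_contra hn
    have h1 : ∀ w, cin ((σ * Equiv.swap u v) w) = cout w := by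
      intro w
      rw [Equiv.Perm.mul_apply, hσ]
      by_cases hu : w = u
      · rw [hu, Equiv.swap_apply_left, huv]
      · by_cases hv : w = v
        · rw [hv, Equiv.swap_apply_right, huv]
        · rw [Equiv.swap_apply_of_ne_of_ne hu hv]
    have h2 := hmax _ h1
    refine absurd h2 (not_le.2 (card_lt_card ?_))
    rw [ssubset_iff_of_subset]
    · refine ⟨(u, v), ?_, ?_⟩
      · simpa using sameCycle_mul_swap σ u v hn
      · simpa using hn
    · intro p hp
      simp only [mem_filter, mem_univ, true_and] at hp ⊢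
      exact sameCycle_mono σ u v hn p.1 p.2 hp
  have hout_in : ∀ v, cout (σ⁻¹ v) = cin v := by
    intro v
    have h1 : σ (σ⁻¹ v) = v := σ.apply_symm_apply v
    rw [← hσ (σ⁻¹ v), h1]
  have hcell : ∀ v ∈ F, ∀ K, inc v K → K = h v ∨ K = t v := by
    intro v hv K hK
    rcases htwo v (t v) (h v) K (hF v hv).2.1 (hF v hv).2.2 hK with h1 | h1 | h1
    · exact absurd h1 (hF v hv).1
    · exact Or.inr h1.symm
    · exact Or.inl h1.symm
  have hrep : ∀ v ∈ F, ∀ K, inc v K → ∃ x, cout x = K ∧ σ.SameCycle x v := by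
    intro v hv K hK
    rcases hcell v hv K hK with h1 | h1
    · exact ⟨v, by rw [cout_F v hv, h1], Equiv.Perm.SameCycle.refl _ _⟩
    · refine ⟨σ⁻¹ v, by rw [hout_in, cin_F v hv, h1], ?_⟩
      have h2 : σ (σ⁻¹ v) = v := σ.apply_symm_apply v
      exact ⟨1, by rw [zpow_one]; exact h2⟩
  refine ⟨σ, fun u w => ?_, fun v => ⟨cout v, hcout v, by rw [← hσ v]; exact hcin (σ v)⟩⟩
  by_contra hn
  obtain ⟨v, hv, K, L, hK, hL, ⟨x, hx, hxK⟩, hPL⟩ := hT.conn
    (fun K => ∃ x, σ.SameCycle u x ∧ cout x = K)
    (by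
      obtain ⟨v, hv, hvK⟩ := hvis u
      exact ⟨v, hv, cout u, hvK, u, Equiv.Perm.SameCycle.refl _ _, rfl⟩)
    (by
      obtain ⟨v, hv, hvK⟩ := hvis w
      refine ⟨v, hv, cout w, hvK, ?_⟩
      rintro ⟨x, hx, hxw⟩
      exact hn (hx.trans (hsame x w hxw)))
  obtain ⟨y, hy, hyv⟩ := hrep v hv K hK
  obtain ⟨z, hz, hzv⟩ := hrep v hv L hL
  refine hPL ⟨z, ?_, hz⟩
  exact (hx.trans (hsame x y (hxK.trans hy.symm))).trans (hyv.trans hzv.symm)

end Pool.Agent.ClawHam
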