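import Pool.Agent.Lib.MP_e2dbb5_co.Defs

/-!
# A cyclic permutation along edges is a hamiltonian cycle
-/

set_option autoImplicit false

namespace Pool.Agent.ClawHam.E4

open Classical Pool.Agent.ClawHam

theorem moved {V : Type} [Fintype V] (σ : Equiv.Perm V) (h3 : 3 ≤ Fintype.card V)
    (hs : ∀ u v, σ.SameCycle u v) (v : V) : σ v ≠ v := by
  intro h
  have hall : ∀ u, u = v := by
    intro u
    obtain ⟨n, hn⟩ := hs v u
    have hfix : (σ ^ n) v = v := Equiv.Perm.zpow_apply_eq_self_of_apply_eq_self h n
    rw [← hn, hfix]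
  have : Fintype.card V ≤ 1 := Fintype.card_le_one_iff.2 fun a b => (hall a).trans (hall b).symm
  omega

theorem rowE4 : RowE4 := by
  intro V _ G σ h3 hs hadj
  have hne : Nonempty V := Fintype.card_pos_iff.1 (by omega)
  obtain ⟨x⟩ := hne
  have hmv := moved σ h3 hs
  have hx : x ∈ σ.support := by
    rw [Equiv.Perm.mem_support]
    exact hmv x
  have hstep : ∀ v, G.Adj v (σ v) := fun v => hadj v (Ne.symm (hmv v))
  have hmem : ∀ v, v ∈ σ.toList x := fun v => Equiv.Perm.mem_toList_iff.2 ⟨hs x v, hx⟩
  have hnd : (σ.toList x).Nodup := Equiv.Perm.nodup_toList σ x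
  have hlen : (σ.toList x).length = Fintype.card V := by
    rw [← List.toFinset_card_of_nodup hnd, ← Finset.card_univ]
    congr 1
    ext v
    simp [hmem v]
  refine ⟨σ.toList x, hnd, hmem, by omega, ?_, ?_⟩
  · rw [List.isChain_iff_getElem]
    intro i hi
    rw [Equiv.Perm.getElem_toList, Equiv.Perm.getElem_toList, pow_succ']
    exact hstep _
  · intro a ha b hb
    have hpos : 0 < (σ.toList x).length := by omega
    have ha' : a = (σ ^ ((σ.toList x).length - 1)) x := by
      rw [List.getLast?_eq_getElem?, List.getElem?_eq_getElem (by omega)] at ha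
      rw [← Option.mem_some_iff.1 ha]
      exact (Equiv.Perm.getElem_toList σ x _ _)
    have hb' : b = x := by
      rw [List.head?_eq_getElem?, List.getElem?_eq_getElem hpos] at hb
      rw [← Option.mem_some_iff.1 hb, Equiv.Perm.getElem_toList]
      simp
    have hper : (σ ^ (σ.toList x).length) x = x := by
      have h := Equiv.Perm.pow_mod_card_support_cycleOf_self_apply σ (σ.toList x).length x
      rw [Equiv.Perm.length_toList, Nat.mod_self] at h
      rw [Equiv.Perm.length_toList, ← h]
      simp
    have hb2 : b = σ a := by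
      rw [hb', ha', ← Equiv.Perm.mul_apply, ← pow_succ', Nat.sub_add_cancel hpos, hper]
    rw [hb2]
    exact hstep a

end Pool.Agent.ClawHam.E4
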