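import Pool.Agent.Lib.MP_e2dbb5_co.Defs

/-!
# Row E5: from a hamiltonian cycle given as a list to Mathlib's definition
-/

set_option autoImplicit false

noncomputable section

namespace Pool.Agent.ClawHam

/-- a chain is the support of a walk -/
theorem walk_of_chain {V : Type} {G : SimpleGraph V} : ∀ (l : List V) (a : V),
    (a :: l).IsChain G.Adj →
    ∃ (b : V) (p : G.Walk a b), p.support = a :: l ∧ (a :: l).getLast? = some b
  | [], a, _ => ⟨a, SimpleGraph.Walk.nil, by simp, by simp⟩
  | c :: l, a, h => by
    rw [List.isChain_cons_cons] at h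
    obtain ⟨b, p, hp, hb⟩ := walk_of_chain l c h.2
    refine ⟨b, SimpleGraph.Walk.cons h.1 p, by simp [hp], ?_⟩
    rw [List.getLast?_cons_cons]
    exact hb

theorem rowE5 : RowE5 := by
  intro V _ _ G ⟨l, hnd, hall, h3, hch, hcl⟩ _
  match l, hnd, hall, h3, hch, hcl with
  | a :: l, hnd, hall, h3, hch, hcl =>
    obtain ⟨b, p, hp, hb⟩ := walk_of_chain l a hch
    have hab : G.Adj b a := hcl b (by rw [hb]; rfl) a (by simp)
    have hpath : p.IsPath := by
      rw [SimpleGraph.Walk.isPath_def, hp]
      exact hnd
    have hlen : 2 ≤ p.length := by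
      have h := p.length_support
      rw [hp] at h
      omega
    refine ⟨b, SimpleGraph.Walk.cons hab p, ?_⟩
    rw [SimpleGraph.Walk.isHamiltonianCycle_iff_isCycle_and_support_count_tail_eq_one]
    refine ⟨?_, ?_⟩
    · rw [SimpleGraph.Walk.cons_isCycle_iff]
      refine ⟨hpath, ?_⟩
      intro hmem
      rw [Sym2.eq_swap] at hmem
      have h1 := hpath.length_eq_one_of_mem_edges hmem
      omega
    · intro v
      rw [SimpleGraph.Walk.support_cons, List.tail_cons, hp]
      exact List.count_eq_one_of_mem hnd (hall v)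

end Pool.Agent.ClawHam
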