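import Pool.Agent.Lib.MP_e2dbb5_co.PR0

/-!
# Even classes (helper82)

A spanning tree of picks all whose closure classes are crossed by an even number of picks of the
tree: the hypergraph has a connected even choice. The certificate PROP is the case of one class.
-/

set_option autoImplicit false

open Finset

noncomputable section

namespace Pool.Agent.ClawHam.TK

open Classical

variable {B I : Type} [Fintype B] [Fintype I]

/-- the degree sum of a tree over a set, modulo two, is the number of crossing picks -/
theorem sum_dg_eq {f g : I → Finset B} {J : Finset I} (h2 : ∀ i ∈ J, (f i).card = 2)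
    (hgJ : ∀ i ∈ J, g i = f i) (hgf : ∀ i, i ∉ J → g i = ∅) (X : Finset B) :
    ∑ K ∈ X, dg g K = ((J.filter fun i => Crosses (f i) X).card : ZMod 2) := by
  unfold dg
  rw [Finset.sum_comm]
  have h1 : ∀ i, ∑ K ∈ X, ind (g i) K = if i ∈ J ∧ Crosses (f i) X then 1 else 0 := by
    intro i
    rw [sum_ind]
    by_cases hi : i ∈ J
    · rw [hgJ i hi]
      by_cases hc : Crosses (f i) X
      · rw [if_pos ⟨hi, hc⟩, (cr_iff (h2 i hi)).1 hc, Nat.cast_one]
      · rw [if_neg (fun h => hc h.2)]
        exact card_inter_even (Or.inr (h2 i hi)) hc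
    · rw [hgf i hi, if_neg (fun h => hi h.1)]
      simp
  rw [Finset.sum_congr rfl fun i _ => h1 i, Finset.sum_boole]
  congr 2
  ext i
  simp

/-- **Even classes.** -/
theorem evenConn_of_evenClasses {e f : I → Finset B} {J A : Finset I}
    (h3 : ∀ i, (e i).card ≤ 3) (hT : Tree f J) (hsub : ∀ i ∈ J, f i ⊆ e i) (hA : Der e f J A)
    (heven : ∀ X, Clo e J A X → Even (J.filter fun i => Crosses (f i) X).card) :
    EvenConn univ e := by
  set g : I → Finset B := fun i => if i ∈ J then f i else ∅ with hg
  have hgJ : ∀ i ∈ J, g i = f i := fun i hi => by rw [hg]; simp only [if_pos hi]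
  have hgf : ∀ i, i ∉ J → g i = ∅ := fun i hi => by rw [hg]; simp only [if_neg hi]
  have hTg : Tree g J := by
    refine ⟨fun i hi => by rw [hgJ i hi]; exact hT.two i hi, ?_, hT.card⟩
    intro X hX hX'
    obtain ⟨i, hi, hc⟩ := hT.conn X hX hX'
    exact ⟨i, hi, by rw [hgJ i hi]; exact hc⟩
  have hPg : Pick e g := by
    intro i
    by_cases hi : i ∈ J
    · rw [hgJ i hi]
      exact ⟨hsub i hi, Or.inr (hT.two i hi)⟩
    · rw [hgf i hi]
      exact ⟨empty_subset _, Or.inl rfl⟩
  have hAJ : ∀ A, Der e f J A → A ⊆ J := by
    intro A hA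
    induction hA with
    | nil => exact empty_subset _
    | step _ hi _ _ ih => exact insert_subset hi ih
  have hev : ∀ X, Clo e J A X → ∑ K ∈ X, dg g K = 0 := by
    intro X hX
    rw [sum_dg_eq hT.two hgJ hgf X]
    exact (ZMod.natCast_eq_zero_iff_even).2 (heven X hX)
  obtain ⟨g', hT', hP', hfree', hev'⟩ := down h3 hA g hTg hPg hgf
    (fun i hi => hgJ i (hAJ A hA hi)) hev
  obtain ⟨h, hPh, hhJ, hhd⟩ := join_base h3 _ (dg g') rfl hev'
  refine ⟨fun i => if i ∈ J then g' i else h i, ?_, ?_, ?_⟩
  · intro i
    by_cases hi : i ∈ J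
    · simp only [if_pos hi]; exact hP' i
    · simp only [if_neg hi]; exact hPh i
  · intro K
    have h5 : ∑ i, ind (if i ∈ J then g' i else h i) K = 0 := by
      have h6 : ∀ i, ind (if i ∈ J then g' i else h i) K = ind (g' i) K + ind (h i) K := by
        intro i
        by_cases hi : i ∈ J
        · rw [if_pos hi, hhJ i hi, ind_empty, add_zero]
        · rw [if_neg hi, hfree' i hi, ind_empty, zero_add]
      rw [Finset.sum_congr rfl fun i _ => h6 i, Finset.sum_add_distrib, hhd K]
      exact zadd _
    unfold ind at h5
    rw [Finset.sum_boole] at h5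
    exact (ZMod.natCast_eq_zero_iff_even).1 h5
  · intro X _ hX hX'
    obtain ⟨i, hi, hc⟩ := hT'.conn X hX hX'
    exact ⟨i, by simp only [if_pos hi]; exact hc⟩

/-- two classes with an even cut: every hyperedge which crosses the two classes is in the tree,
so the number of the crossing hyperedges is even -/
theorem evenConn_of_twoClasses {e f : I → Finset B} {J A : Finset I}
    (h3 : ∀ i, (e i).card ≤ 3) (hT : Tree f J) (hsub : ∀ i ∈ J, f i ⊆ e i) (hA : Der e f J A)
    (hmax : ∀ i ∈ J, i ∉ A → ∃ X, Clo e J A X ∧ Crosses (f i) X)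
    {Y : Finset B} (hY : ∀ X, Clo e J A X → X = ∅ ∨ X = univ ∨ X = Y ∨ X = Yᶜ)
    (heven : Even (univ.filter fun i => Crosses (e i) Y).card) : EvenConn univ e := by
  have hAJ : ∀ A, Der e f J A → A ⊆ J := by
    intro A hA
    induction hA with
    | nil => exact empty_subset _
    | step _ hi _ _ ih => exact insert_subset hi ih
  apply evenConn_of_evenClasses h3 hT hsub hA
  have hcross : ∀ (i : I), i ∈ J → ∀ X : Finset B, Crosses (f i) X → Crosses (e i) X := by
    rintro i hi X ⟨⟨a, ha, haX⟩, b, hb, hbX⟩
    exact ⟨⟨a, hsub i hi ha, haX⟩, b, hsub i hi hb, hbX⟩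
  by_cases hYc : Clo e J A Y
  · have key : (J.filter fun i => Crosses (f i) Y) = univ.filter fun i => Crosses (e i) Y := by
      ext i
      simp only [mem_filter, mem_univ, true_and]
      constructor
      · rintro ⟨hi, hc⟩
        exact hcross i hi Y hc
      · intro hc
        have hiJ : i ∈ J := by
          by_contra h
          exact hYc i (Or.inl h) hc
        have hiA : i ∉ A := fun h => hYc i (Or.inr h) hc
        refine ⟨hiJ, ?_⟩
        obtain ⟨X, hX, hcX⟩ := hmax i hiJ hiA
        rcases hY X hX with rfl | rfl | rfl | rfl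
        · obtain ⟨⟨a, _, ha⟩, _⟩ := hcX
          simp at ha
        · obtain ⟨_, b, _, hb⟩ := hcX
          exact absurd (mem_univ b) hb
        · exact hcX
        · exact crosses_compl_iff.1 hcX
    intro X hX
    rcases hY X hX with rfl | rfl | rfl | rfl
    · have : (J.filter fun i => Crosses (f i) (∅ : Finset B)) = ∅ := by
        ext i
        simp [Crosses]
      rw [this]; simp
    · have : (J.filter fun i => Crosses (f i) (univ : Finset B)) = ∅ := by
        ext i
        simp [Crosses]
      rw [this]; simp
    · rw [key]; exact heven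
    · have : (J.filter fun i => Crosses (f i) Yᶜ) = J.filter fun i => Crosses (f i) Y := by
        ext i
        simp only [mem_filter, crosses_compl_iff]
      rw [this, key]; exact heven
  · intro X hX
    have hYc' : ¬ Clo e J A Yᶜ := by
      intro h
      apply hYc
      have := h.compl
      rwa [compl_compl] at this
    rcases hY X hX with rfl | rfl | rfl | rfl
    · have : (J.filter fun i => Crosses (f i) (∅ : Finset B)) = ∅ := by
        ext i
        simp [Crosses]
      rw [this]; simp
    · have : (J.filter fun i => Crosses (f i) (univ : Finset B)) = ∅ := by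
        ext i
        simp [Crosses]
      rw [this]; simp
    · exact absurd hX hYc
    · exact absurd hX hYc'

end Pool.Agent.ClawHam.TK
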