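import Pool.Agent.Lib.MP_e2dbb5_co.Z5

/-!
# The reduction, with few vertices of degree five

The lemma on hypergraphs is only needed for hypergraphs with at most `m` vertices of degree four
which lie in a hyperedge with three vertices, if the graph has at most `m` vertices of degree five.
-/

set_option autoImplicit false

open Finset

noncomputable section

namespace Pool.Agent.ClawHam

open Classical

/-- the vertices of degree four which lie in a hyperedge with three vertices -/
def Deg4T {B I : Type} [Fintype B] [Fintype I] (e : I → Finset B) : Finset B :=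
  univ.filter fun K => (univ.filter fun i => Crosses (e i) {K}).card = 4 ∧
    ∃ i, K ∈ e i ∧ (e i).card = 3

/-- the lemma on hypergraphs of rank three, with at most `m` vertices of degree four in triples -/
def HypLemmaC (m : ℕ) : Prop :=
  ∀ (B I : Type) [Fintype B] [Fintype I] (e : I → Finset B),
    (∀ i, (e i).card = 2 ∨ (e i).card = 3) → FourConn univ e → FiveEss univ e →
      (Deg4T e).card ≤ m → EvenConn univ e

theorem mem_deg4T {B I : Type} [Fintype B] [Fintype I] {e : I → Finset B} {K : B} :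
    K ∈ Deg4T e ↔ (univ.filter fun i => Crosses (e i) {K}).card = 4 ∧
      ∃ i, K ∈ e i ∧ (e i).card = 3 := by
  unfold Deg4T
  rw [mem_filter]
  exact ⟨fun h => h.2, fun h => ⟨mem_univ _, h⟩⟩

theorem key {J : Type} [Fintype J] (p : J → Prop) (h1 h2 : DecidablePred p)
    (h : Even (@filter J p h1 univ).card) : Even (@filter J p h2 univ).card := by
  rwa [Subsingleton.elim h2 h1]

theorem rowh5C (m : ℕ) (hL : HypLemmaC m) (B I : Type) [Fintype B] [Fintype I] (B₀ : Finset B)
    (e : I → Finset B) (he : ∀ i, e i ⊆ B₀ ∧ (e i).card ≤ 3) (hF : FourConn B₀ e)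
    (hF5 : FiveEss B₀ e)
    (hm : (univ.filter fun K => K ∈ B₀ ∧ (univ.filter fun i => Crosses (e i) {K}).card ≤ 4 ∧
      ∃ i, K ∈ e i ∧ (e i).card = 3).card ≤ m) : EvenConn B₀ e := by
  set emb : {b // b ∈ B₀} ↪ B := Function.Embedding.subtype _ with hemb
  have hev : ∀ b : {b // b ∈ B₀}, emb b = b.1 := fun _ => rfl
  set e' : {i // 2 ≤ (e i).card} → Finset {b // b ∈ B₀} := fun i => (e i.1).subtype (· ∈ B₀)
    with he'
  have hmem : ∀ (i : {i // 2 ≤ (e i).card}) (b : {b // b ∈ B₀}), b ∈ e' i ↔ b.1 ∈ e i.1 :=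
    fun i b => mem_subtype
  have hcard : ∀ i : {i // 2 ≤ (e i).card}, (e' i).card = (e i.1).card := by
    intro i
    rw [he']
    simp only
    rw [card_subtype, filter_true_of_mem]
    intro x hx
    exact (he i.1).1 hx
  have hcross : ∀ X' : Finset {b // b ∈ B₀},
      (univ.filter fun i => Crosses (e i) (X'.map emb)).card ≤
        (univ.filter fun i : {i // 2 ≤ (e i).card} => Crosses (e' i) X').card := by
    intro X'
    refine le_trans (card_le_card ?_) (card_image_le
      (s := univ.filter fun i : {i // 2 ≤ (e i).card} => Crosses (e' i) X') (f := Subtype.val))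
    intro i hi
    obtain ⟨⟨a, ha, haX⟩, b, hb, hbX⟩ := (mem_filter.1 hi).2
    obtain ⟨a', ha', rfl⟩ := mem_map.1 haX
    have h2 : 2 ≤ (e i).card := by
      have h3 : 1 < (e i).card := by
        rw [one_lt_card]
        refine ⟨emb a', ha, b, hb, ?_⟩
        rintro rfl
        exact hbX haX
      omega
    refine mem_image.2 ⟨⟨i, h2⟩, mem_filter.2 ⟨mem_univ _, ⟨a', (hmem _ _).2 ha, ha'⟩,
      ⟨b, (he i).1 hb⟩, (hmem _ _).2 hb, ?_⟩, rfl⟩
    intro h3
    exact hbX (mem_map.2 ⟨_, h3, rfl⟩)
  obtain ⟨f', hf1, hf2, hf3⟩ := hL {b // b ∈ B₀} {i // 2 ≤ (e i).card} e' (by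
    intro i
    rw [hcard]
    have h1 := (he i.1).2
    have h2 := i.2
    omega) (by
    intro X' _ hne hX
    have h1 := hF (X'.map emb) (by
      intro b hb
      obtain ⟨c, _, rfl⟩ := mem_map.1 hb
      exact c.2) (by
      obtain ⟨c, hc⟩ := hne
      exact ⟨emb c, mem_map_of_mem _ hc⟩) (by
      intro h
      apply hX
      rw [eq_univ_iff_forall]
      intro c
      have h2 : emb c ∈ X'.map emb := by
        rw [h]
        exact c.2
      exact (mem_map' emb).1 h2)
    exact h1.trans (hcross X')) (by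
    intro X' _ hX2 hX3
    have h1 : (univ : Finset {b // b ∈ B₀}).card = B₀.card := by
      rw [card_univ, Fintype.card_coe]
    have h2 := hF5 (X'.map emb) (by
      intro b hb
      obtain ⟨c, _, rfl⟩ := mem_map.1 hb
      exact c.2) (by rw [card_map]; exact hX2) (by rw [card_map, ← h1]; exact hX3)
    exact h2.trans (hcross X')) (by
    refine le_trans ?_ hm
    rw [← card_map emb]
    refine card_le_card ?_
    intro b hb
    obtain ⟨c, hc, rfl⟩ := mem_map.1 hb
    obtain ⟨h1, i, h2, h3⟩ := mem_deg4T.1 hc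
    refine mem_filter.2 ⟨mem_univ _, c.2, ?_, i.1, (hmem _ _).1 h2, ?_⟩
    · have h4 := hcross {c}
      rw [map_singleton] at h4
      exact h4.trans h1.le
    · rw [← hcard]
      exact h3)
  obtain ⟨F, hpos, hneg⟩ : ∃ F : I → Finset B,
      (∀ i (h : 2 ≤ (e i).card), F i = (f' ⟨i, h⟩).map emb) ∧
        ∀ i, ¬ 2 ≤ (e i).card → F i = ∅ :=
    ⟨fun i => if h : 2 ≤ (e i).card then (f' ⟨i, h⟩).map emb else ∅, fun i h => dif_pos h,
      fun i h => dif_neg h⟩
  refine ⟨F, ?_, ?_, ?_⟩
  · intro i
    by_cases h : 2 ≤ (e i).card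
    · rw [hpos i h]
      refine ⟨?_, ?_⟩
      · intro b hb
        obtain ⟨c, hc, rfl⟩ := mem_map.1 hb
        exact (hmem _ _).1 ((hf1 _).1 hc)
      · rcases (hf1 ⟨i, h⟩).2 with h1 | h1
        · left
          rw [h1, map_empty]
        · right
          rw [card_map, h1]
    · rw [hneg i h]
      exact ⟨empty_subset _, Or.inl rfl⟩
  · intro K
    by_cases hK : K ∈ B₀
    · have h1 : (univ.filter fun i => K ∈ F i) =
          (univ.filter fun i : {i // 2 ≤ (e i).card} => (⟨K, hK⟩ : {b // b ∈ B₀}) ∈ f' i).map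
            (Function.Embedding.subtype _) := by
        ext i
        rw [mem_filter, mem_map]
        constructor
        · rintro ⟨_, h2⟩
          by_cases h : 2 ≤ (e i).card
          · rw [hpos i h, mem_map] at h2
            obtain ⟨c, hc, hcK⟩ := h2
            refine ⟨⟨i, h⟩, mem_filter.2 ⟨mem_univ _, ?_⟩, rfl⟩
            have h3 : c = ⟨K, hK⟩ := Subtype.ext hcK
            rwa [← h3]
          · rw [hneg i h] at h2
            exact absurd h2 (notMem_empty _)
        · rintro ⟨j, hj, rfl⟩
          refine ⟨mem_univ _, ?_⟩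
          have h2 : 2 ≤ (e (Function.Embedding.subtype _ j)).card := j.2
          rw [hpos _ h2]
          exact mem_map.2 ⟨⟨K, hK⟩, (mem_filter.1 hj).2, rfl⟩
      rw [h1, card_map]
      exact key _ _ _ (hf2 ⟨K, hK⟩)
    · have h1 : (univ.filter fun i => K ∈ F i) = ∅ := by
        rw [filter_eq_empty_iff]
        intro i _ h2
        by_cases h : 2 ≤ (e i).card
        · rw [hpos i h, mem_map] at h2
          obtain ⟨c, _, rfl⟩ := h2
          exact hK c.2
        · rw [hneg i h] at h2
          exact absurd h2 (notMem_empty _)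
      rw [h1, card_empty]
      exact Even.zero
  · intro X hXB hne hX
    obtain ⟨j, ⟨a, ha, haX⟩, b, hb, hbX⟩ := hf3 (X.subtype (· ∈ B₀)) (subset_univ _) (by
      obtain ⟨c, hc⟩ := hne
      exact ⟨⟨c, hXB hc⟩, mem_subtype.2 hc⟩) (by
      intro h
      apply hX
      refine Subset.antisymm hXB fun c hc => ?_
      have h1 : (⟨c, hc⟩ : {b // b ∈ B₀}) ∈ X.subtype (· ∈ B₀) := by
        rw [h]
        exact mem_univ _
      exact mem_subtype.1 h1)
    refine ⟨j.1, ⟨a.1, ?_, mem_subtype.1 haX⟩, b.1, ?_, fun h => hbX (mem_subtype.2 h)⟩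
    · rw [hpos _ j.2]
      exact mem_map.2 ⟨a, ha, rfl⟩
    · rw [hpos _ j.2]
      exact mem_map.2 ⟨b, hb, rfl⟩

/-- A big cell of degree at most four in a hyperedge with three vertices contains a vertex with at
most five neighbours which lies in a small cell. -/
theorem deg5 {V C : Type} [Fintype V] [Fintype C] {G : SimpleGraph V} {inc : V → C → Prop}
    (hK : Krausz G inc) (hcut : NoSmallCut G) (hbig : ∀ v, ∃ K, Big inc K ∧ inc v K) {K : C}
    (hbK : Big inc K) (hdeg : (univ.filter fun i => Crosses (hyp inc i) {K}).card ≤ 4)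
    (htri : ∃ i, K ∈ hyp inc i ∧ (hyp inc i).card = 3) :
    ∃ v S, inc v K ∧ inc v S ∧ ¬ Big inc S ∧ (univ.filter fun w => G.Adj v w).card ≤ 5 := by
  obtain ⟨i, hKi, hi3⟩ := htri
  -- the hyperedge comes from a small cell
  obtain ⟨S, rfl⟩ : ∃ S, i = Sum.inr S := by
    rcases i with v | S
    · exfalso
      have h1 : 2 < (hyp inc (Sum.inl v)).card := by omega
      obtain ⟨K, h2, L, h3, M, h4, h5, h6, h7⟩ := Finset.two_lt_card.1 h1
      rcases hK.two v K L M (Finset.mem_filter.1 h2).2.2 (Finset.mem_filter.1 h3).2.2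
        (Finset.mem_filter.1 h4).2.2 with h | h | h
      · exact h5 h
      · exact h6 h
      · exact h7 h
    · exact ⟨S, rfl⟩
  obtain ⟨hSsmall, -, v, hvS, hvK⟩ := (mem_filter.1 hKi).2
  have hKS : K ≠ S := by
    rintro rfl
    exact hSsmall hbK
  -- a vertex outside `K`
  obtain ⟨w₀, hw₀⟩ : ∃ w, ¬ inc w K := by
    obtain ⟨M, hM, hMK⟩ := Finset.exists_mem_ne (by omega : 1 < (hyp inc (Sum.inr S)).card) K
    obtain ⟨-, hbM, w, hwS, hwM⟩ := (mem_filter.1 hM).2
    refine ⟨w, fun hwK => ?_⟩
    rcases hK.two w K M S hwK hwM hwS with h | h | h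
    · exact hMK h.symm
    · exact hKS h
    · rw [h] at hbM
      exact hSsmall hbM
  -- the boundary
  set D : Finset V := univ.filter fun v => inc v K ∧ ∃ w, ¬ inc w K ∧ G.Adj v w with hD
  have hD4 : D.card ≤ 4 := by
    have h1 : ∀ v : V, ∃ i : V ⊕ C, v ∈ D → Crosses (hyp inc i) {K} ∧
        (i = Sum.inl v ∨ ∃ L, i = Sum.inr L ∧ inc v L ∧ ¬ Big inc L) := by
      intro v
      by_cases hv : v ∈ D
      · obtain ⟨hvK, w, hwK, hadj⟩ := (mem_filter.1 hv).2
        obtain ⟨-, L, hvL, hwL⟩ := (hK.adj_iff v w).1 hadj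
        have hLK : L ≠ K := by
          rintro rfl
          exact hwK hwL
        by_cases hbL : Big inc L
        · refine ⟨Sum.inl v, fun _ => ⟨⟨⟨K, mem_filter.2 ⟨mem_univ _, hbK, hvK⟩,
            mem_singleton_self K⟩, L, mem_filter.2 ⟨mem_univ _, hbL, hvL⟩, ?_⟩, Or.inl rfl⟩⟩
          rw [mem_singleton]
          exact hLK
        · obtain ⟨M, hbM, hwM⟩ := hbig w
          refine ⟨Sum.inr L, fun _ => ⟨⟨⟨K, mem_filter.2 ⟨mem_univ _, hbL, hbK, v, hvL, hvK⟩,
            mem_singleton_self K⟩, M, mem_filter.2 ⟨mem_univ _, hbL, hbM, w, hwL, hwM⟩, ?_⟩,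
            Or.inr ⟨L, rfl, hvL, hbL⟩⟩⟩
          rw [mem_singleton]
          rintro rfl
          exact hwK hwM
      · exact ⟨Sum.inl v, fun h => absurd h hv⟩
    choose j hj using h1
    refine (card_le_card_of_injOn j ?_ ?_).trans hdeg
    · intro v hv
      exact mem_filter.2 ⟨mem_univ _, (hj v hv).1⟩
    · intro a ha b hb hab
      have ha' := (hj a ha).2
      have hb' := (hj b hb).2
      by_contra hne
      rcases ha' with ha' | ⟨L, ha', haL, hbL⟩
      · rcases hb' with hb' | ⟨L, hb', -, -⟩
        · rw [ha', hb'] at hab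
          exact hne (Sum.inl_injective hab)
        · rw [ha', hb'] at hab
          exact absurd hab Sum.inl_ne_inr
      · rcases hb' with hb' | ⟨L', hb', hbL', -⟩
        · rw [ha', hb'] at hab
          exact absurd hab Sum.inr_ne_inl
        · rw [ha', hb'] at hab
          have hLL : L = L' := Sum.inr_injective hab
          rw [← hLL] at hbL'
          have h2 := hK.uniq a b K L hne (mem_filter.1 ha).2.1 (mem_filter.1 hb).2.1 haL hbL'
          rw [h2] at hbK
          exact hbL hbK
  -- all vertices of `K` are in the boundary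
  have hKD : (univ.filter fun v => inc v K) ⊆ D := by
    intro a ha
    have haK := (mem_filter.1 ha).2
    by_contra haD
    have h5 := hcut D ((univ.filter fun v => inc v K) \ D) (univ.filter fun v => ¬ inc v K) (by
        intro w
        by_cases h1 : inc w K
        · by_cases h2 : w ∈ D
          · exact Or.inl h2
          · exact Or.inr (Or.inl (mem_sdiff.2 ⟨mem_filter.2 ⟨mem_univ _, h1⟩, h2⟩))
        · exact Or.inr (Or.inr (mem_filter.2 ⟨mem_univ _, h1⟩)))
      (by
        rw [Finset.disjoint_left]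
        intro x h1 h2
        exact (mem_filter.1 h2).2 (mem_filter.1 (mem_sdiff.1 h1).1).2)
      (by
        rw [Finset.disjoint_left]
        intro x h1 h2
        exact (mem_sdiff.1 h1).2 h2)
      (by
        rw [Finset.disjoint_left]
        intro x h1 h2
        exact (mem_filter.1 h1).2 (mem_filter.1 h2).2.1)
      ⟨a, mem_sdiff.2 ⟨ha, haD⟩⟩ ⟨w₀, mem_filter.2 ⟨mem_univ _, hw₀⟩⟩ (by
        intro x hx y hy hxy
        rw [mem_sdiff] at hx
        exact hx.2 (mem_filter.2 ⟨mem_univ _, (mem_filter.1 hx.1).2, y, (mem_filter.1 hy).2, hxy⟩))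
    omega
  have hK4 := (card_le_card hKD).trans hD4
  refine ⟨v, S, hvK, hvS, hSsmall, ?_⟩
  have hsub : (univ.filter fun w => G.Adj v w) ⊆
      (univ.filter fun w => inc w K).erase v ∪ (univ.filter fun w => inc w S).erase v := by
    intro w hw
    obtain ⟨hne, M, h1, h2⟩ := (hK.adj_iff v w).1 (mem_filter.1 hw).2
    rw [mem_union, mem_erase, mem_erase, mem_filter, mem_filter]
    rcases hK.two v K S M hvK hvS h1 with h | h | h
    · exact absurd h hKS
    · left
      rw [h]
      exact ⟨hne.symm, mem_univ _, h2⟩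
    · right
      rw [h]
      exact ⟨hne.symm, mem_univ _, h2⟩
  refine (card_le_card hsub).trans ((card_union_le _ _).trans ?_)
  have hvK' : v ∈ univ.filter fun w => inc w K := mem_filter.2 ⟨mem_univ _, hvK⟩
  have hvS' : v ∈ univ.filter fun w => inc w S := mem_filter.2 ⟨mem_univ _, hvS⟩
  rw [card_erase_of_mem hvK', card_erase_of_mem hvS']
  have h3 := C1x.small_card hSsmall
  omega

/-- if two vertices are not adjacent, every vertex has at least five neighbours -/
theorem five_le_deg {V : Type} [Fintype V] {G : SimpleGraph V} (hcut : NoSmallCut G)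
    (hnc : ∃ u v, u ≠ v ∧ ¬ G.Adj u v) (v : V) : 5 ≤ (univ.filter fun w => G.Adj v w).card := by
  by_contra hN
  -- all vertices are neighbours
  have hall : ∀ w, w = v ∨ G.Adj v w := by
    intro w
    by_contra hw
    push Not at hw
    have h1 := hcut (univ.filter fun w => G.Adj v w) {v}
      (univ.filter fun w => w ≠ v ∧ ¬ G.Adj v w) (by
        intro w
        rw [mem_filter, mem_singleton, mem_filter]
        by_cases h1 : w = v
        · exact Or.inr (Or.inl h1)
        · by_cases h2 : G.Adj v w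
          · exact Or.inl ⟨mem_univ _, h2⟩
          · exact Or.inr (Or.inr ⟨mem_univ _, h1, h2⟩)) (by
        rw [Finset.disjoint_left]
        intro a ha hc
        exact (mem_filter.1 hc).2.1 (mem_singleton.1 ha)) (by
        rw [Finset.disjoint_left]
        intro a ha hc
        rw [mem_singleton.1 ha] at hc
        exact G.loopless.irrefl v (mem_filter.1 hc).2) (by
        rw [Finset.disjoint_left]
        intro a ha hc
        exact (mem_filter.1 ha).2.2 (mem_filter.1 hc).2) ⟨v, mem_singleton_self v⟩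
      ⟨w, mem_filter.2 ⟨mem_univ _, hw.1, hw.2⟩⟩ (by
        intro a ha c hc
        rw [mem_singleton.1 ha]
        exact (mem_filter.1 hc).2.2)
    omega
  have hV : (univ : Finset V).card ≤ 5 := by
    have h1 : (univ : Finset V) ⊆ insert v (univ.filter fun w => G.Adj v w) := by
      intro w _
      rw [mem_insert, mem_filter]
      rcases hall w with h | h
      · exact Or.inl h
      · exact Or.inr ⟨mem_univ _, h⟩
    refine (card_le_card h1).trans ((card_insert_le _ _).trans ?_)
    omega
  obtain ⟨u, w, huw, hadj⟩ := hnc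
  have h1 := hcut ((univ.erase u).erase w) {u} {w} (by
      intro x
      rw [mem_erase, mem_erase, mem_singleton, mem_singleton]
      by_cases h1 : x = u
      · exact Or.inr (Or.inl h1)
      · by_cases h2 : x = w
        · exact Or.inr (Or.inr h2)
        · exact Or.inl ⟨h2, h1, mem_univ _⟩) (by
      rw [Finset.disjoint_left]
      intro a ha hc
      exact huw ((mem_singleton.1 ha).symm.trans (mem_singleton.1 hc))) (by
      rw [Finset.disjoint_left]
      intro a ha hc
      rw [mem_singleton.1 ha, mem_erase, mem_erase] at hc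
      exact hc.2.1 rfl) (by
      rw [Finset.disjoint_left]
      intro a ha hc
      rw [mem_singleton.1 ha, mem_erase] at hc
      exact hc.1 rfl) ⟨u, mem_singleton_self u⟩ ⟨w, mem_singleton_self w⟩ (by
      intro a ha c hc
      rw [mem_singleton.1 ha, mem_singleton.1 hc]
      exact hadj)
  have h2 : ((univ.erase u).erase w : Finset V).card ≤ 3 := by
    rw [card_erase_of_mem (mem_erase.2 ⟨huw.symm, mem_univ _⟩), card_erase_of_mem (mem_univ _)]
    omega
  omega

/-- The main theorem for graphs with at most `m` vertices of degree five. -/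
theorem mainC (m : ℕ) (hyp' : HypLemmaC m) (V : Type) [Fintype V] [DecidableEq V]
    (G : SimpleGraph V) (hN : NoSmallCut G) (h3 : 3 ≤ Fintype.card V) (hclaw : ClawFree G)
    (hm : (univ.filter fun v => (univ.filter fun w => G.Adj v w).card = 5).card ≤ m) :
    G.IsHamiltonian := by
  obtain ⟨G', hle, hcf, hcl, hham⟩ := (rowD2 rowd1) V G hclaw
  refine rowE5 V G (hham ?_)
  have hN' : NoSmallCut G' := by
    intro S A C h1 h2 h4 h5 h6 h7 h8
    exact hN S A C h1 h2 h4 h5 h6 h7 fun a ha c hc hac => h8 a ha c hc (hle hac)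
  by_cases hcomp : ∀ u v, u ≠ v → G'.Adj u v
  · exact ham_of_complete G' h3 hcomp
  push Not at hcomp
  have hcompG : ∃ u v, u ≠ v ∧ ¬ G.Adj u v := by
    obtain ⟨u, v, h1, h2⟩ := hcomp
    exact ⟨u, v, h1, fun h => h2 (hle h)⟩
  have hiso : ∀ v, ∃ w, G'.Adj v w := by
    intro v
    by_contra hno
    push Not at hno
    have h5 := hN' ∅ {v} ({v}ᶜ) (by
        intro w
        simp only [notMem_empty, mem_singleton, mem_compl, false_or]
        exact Classical.em _)
      (by simp) (by simp) (by simp) (singleton_nonempty v)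
      (by
        rw [← card_pos, card_compl, card_singleton]
        omega)
      (by
        intro a ha c _ hac
        rw [mem_singleton] at ha
        rw [ha] at hac
        exact hno c hac)
    simp at h5
  obtain ⟨C, _, inc, hK⟩ := D3.rowD3 V G' hcf hcl hiso
  have hbig := rowc0 V C G' inc hK hN' hcomp
  obtain ⟨hr, hfour⟩ := rowc1 V C G' inc hK hN' hbig
  have heven := rowh5C m hyp' C (V ⊕ C) (bigs inc) (Pool.Agent.ClawHam.hyp inc) hr hfour
    (rowc5 V C G' inc hK hN' hbig) (by
      refine le_trans ?_ hm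
      have h1 : ∀ K : C, ∃ v : V, K ∈ (univ.filter fun K => K ∈ bigs inc ∧
          (univ.filter fun i => Crosses (Pool.Agent.ClawHam.hyp inc i) {K}).card ≤ 4 ∧
          ∃ i, K ∈ Pool.Agent.ClawHam.hyp inc i ∧ (Pool.Agent.ClawHam.hyp inc i).card = 3) →
          Big inc K ∧ inc v K ∧ (∃ S, inc v S ∧ ¬ Big inc S) ∧
            (univ.filter fun w => G.Adj v w).card = 5 := by
        intro K
        by_cases hKm : K ∈ (univ.filter fun K => K ∈ bigs inc ∧
          (univ.filter fun i => Crosses (Pool.Agent.ClawHam.hyp inc i) {K}).card ≤ 4 ∧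
          ∃ i, K ∈ Pool.Agent.ClawHam.hyp inc i ∧ (Pool.Agent.ClawHam.hyp inc i).card = 3)
        · obtain ⟨h2, h4, h5⟩ := (mem_filter.1 hKm).2
          have hbK : Big inc K := (mem_filter.1 h2).2
          obtain ⟨v, S, h6, h7, h8, h9⟩ := deg5 hK hN' hbig hbK h4 h5
          refine ⟨v, fun _ => ⟨hbK, h6, ⟨S, h7, h8⟩, ?_⟩⟩
          have h10 := five_le_deg hN hcompG v
          have h11 : (univ.filter fun w => G.Adj v w).card ≤
              (univ.filter fun w => G'.Adj v w).card := by
            refine card_le_card fun w hw => ?_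
            exact mem_filter.2 ⟨mem_univ _, hle (mem_filter.1 hw).2⟩
          omega
        · obtain ⟨u, -⟩ := hcomp
          exact ⟨u, fun h => absurd h hKm⟩
      choose j hj using h1
      refine card_le_card_of_injOn j ?_ ?_
      · intro K hKm
        exact mem_filter.2 ⟨mem_univ _, (hj K hKm).2.2.2⟩
      · intro K hKm L hLm hKL
        obtain ⟨hbK, h2, -⟩ := hj K hKm
        obtain ⟨hbL, h4, ⟨S, h5, h6⟩, -⟩ := hj L hLm
        rw [← hKL] at h4 h5
        rcases hK.two (j K) K L S h2 h4 h5 with h | h | h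
        · exact h
        · rw [h] at hbK
          exact absurd hbK h6
        · rw [h] at hbL
          exact absurd hbL h6)
  have htwo : 2 ≤ (bigs inc).card := by
    by_contra hlt
    obtain ⟨u, v, huv, hadj⟩ := hcomp
    obtain ⟨K, hK1, hK2⟩ := hbig u
    obtain ⟨L, hL1, hL2⟩ := hbig v
    have hKL : K = L := by
      have h1 : (bigs inc).card ≤ 1 := by omega
      rw [card_le_one] at h1
      exact h1 K (by simp [bigs, hK1]) L (by simp [bigs, hL1])
    exact hadj ((hK.adj_iff u v).2 ⟨huv, K, hK2, by rw [hKL]; exact hL2⟩)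
  obtain ⟨F, hF⟩ := rowe1 V C G' inc hK hbig htwo heven
  obtain ⟨σ, hσ1, hσ2⟩ := rowe3 V C inc F hK.two hF (rowe2 V C inc F hK.two hK.ex hF.two hF.even)
  exact E4.rowE4 V G' σ h3 hσ1 fun v hv => (hK.adj_iff v (σ v)).2 ⟨hv, hσ2 v⟩

/-- The same for graphs which are more than 2-tough. -/
theorem mainCT (m : ℕ) (hyp' : HypLemmaC m) (V : Type) [Fintype V] [DecidableEq V]
    (G : SimpleGraph V) (t : ℝ) (ht : 2 < t) (h3 : 3 ≤ Fintype.card V) (hclaw : ClawFree G)
    (htough : Tough t G)
    (hm : (univ.filter fun v => (univ.filter fun w => G.Adj v w).card = 5).card ≤ m) :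
    G.IsHamiltonian :=
  mainC m hyp' V G (rowt1 V G t ht htough) h3 hclaw hm

end Pool.Agent.ClawHam
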