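import Pool.Agent.Lib.MP_e2dbb5_co.FB

/-!
# The reduction, with few special cliques

The lemma on hypergraphs is only needed for hypergraphs with at most `m` vertices of degree four
which lie in a hyperedge with three vertices, if the graph has at most `m` special cliques: cliques
with four vertices which contain a vertex whose neighbourhood is the disjoint union of the
other three vertices of the clique and an edge. (helper42, after `FB.lean` of helper14)
-/

set_option autoImplicit false

open Finset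

noncomputable section

namespace Pool.Agent.ClawHam

open Classical

/-- `Q` is a clique with four vertices, and some vertex `v` of `Q` has exactly two neighbours `x`
and `y` outside `Q`; these two are adjacent, and no vertex of `Q` other than `v` is adjacent to one
of them. -/
def SpecialQ {V : Type} (G : SimpleGraph V) (Q : Finset V) : Prop :=
  Q.card = 4 ∧ (∀ a ∈ Q, ∀ b ∈ Q, a ≠ b → G.Adj a b) ∧
    ∃ v ∈ Q, ∃ x y, x ≠ y ∧ x ∉ Q ∧ y ∉ Q ∧ G.Adj v x ∧ G.Adj v y ∧ G.Adj x y ∧
      (∀ w, G.Adj v w → w ∈ Q ∨ w = x ∨ w = y) ∧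
      ∀ a ∈ Q, a ≠ v → ¬ G.Adj a x ∧ ¬ G.Adj a y

/-- A big cell of degree at most four in a hyperedge with three vertices has at most four vertices,
and one of them lies in a small cell. -/
theorem deg5Q {V C : Type} [Fintype V] [Fintype C] {G : SimpleGraph V} {inc : V → C → Prop}
    (hK : Krausz G inc) (hcut : NoSmallCut G) (hbig : ∀ v, ∃ K, Big inc K ∧ inc v K) {K : C}
    (hbK : Big inc K) (hdeg : (univ.filter fun i => Crosses (hyp inc i) {K}).card ≤ 4)
    (htri : ∃ i, K ∈ hyp inc i ∧ (hyp inc i).card = 3) :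
    ∃ v S, inc v K ∧ inc v S ∧ ¬ Big inc S ∧ K ≠ S ∧
      (univ.filter fun w => inc w K).card ≤ 4 := by
  obtain ⟨i, hKi, hi3⟩ := htri
  -- the hyperedge comes from a small cell
  obtain ⟨S, rfl⟩ : ∃ S, i = Sum.inr S := by
    rcases i with v | S
    · exfalso
      have h1 : 2 < (hyp inc (Sum.inl v)).card := by omega
      obtain ⟨K, h2, L, h3, M, h4, h5, h6, h7⟩ := Finset.two_lt_card.1 h1
      rcases hK.two v K L M (Finset.mem_filter.1 h2).2.2 (Finset.mem_filter.1 h3).2.2
        (Finset.mem_filter.1 h4).2.2 with h | h | h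
      · exact h5 h
      · exact h6 h
      · exact h7 h
    · exact ⟨S, rfl⟩
  obtain ⟨hSsmall, -, v, hvS, hvK⟩ := (mem_filter.1 hKi).2
  have hKS : K ≠ S := by
    rintro rfl
    exact hSsmall hbK
  -- a vertex outside `K`
  obtain ⟨w₀, hw₀⟩ : ∃ w, ¬ inc w K := by
    obtain ⟨M, hM, hMK⟩ := Finset.exists_mem_ne (by omega : 1 < (hyp inc (Sum.inr S)).card) K
    obtain ⟨-, hbM, w, hwS, hwM⟩ := (mem_filter.1 hM).2
    refine ⟨w, fun hwK => ?_⟩
    rcases hK.two w K M S hwK hwM hwS with h | h | h
    · exact hMK h.symm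
    · exact hKS h
    · rw [h] at hbM
      exact hSsmall hbM
  -- the boundary
  set D : Finset V := univ.filter fun v => inc v K ∧ ∃ w, ¬ inc w K ∧ G.Adj v w with hD
  have hD4 : D.card ≤ 4 := by
    have h1 : ∀ v : V, ∃ i : V ⊕ C, v ∈ D → Crosses (hyp inc i) {K} ∧
        (i = Sum.inl v ∨ ∃ L, i = Sum.inr L ∧ inc v L ∧ ¬ Big inc L) := by
      intro v
      by_cases hv : v ∈ D
      · obtain ⟨hvK, w, hwK, hadj⟩ := (mem_filter.1 hv).2
        obtain ⟨-, L, hvL, hwL⟩ := (hK.adj_iff v w).1 hadj
        have hLK : L ≠ K := by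
          rintro rfl
          exact hwK hwL
        by_cases hbL : Big inc L
        · refine ⟨Sum.inl v, fun _ => ⟨⟨⟨K, mem_filter.2 ⟨mem_univ _, hbK, hvK⟩,
            mem_singleton_self K⟩, L, mem_filter.2 ⟨mem_univ _, hbL, hvL⟩, ?_⟩, Or.inl rfl⟩⟩
          rw [mem_singleton]
          exact hLK
        · obtain ⟨M, hbM, hwM⟩ := hbig w
          refine ⟨Sum.inr L, fun _ => ⟨⟨⟨K, mem_filter.2 ⟨mem_univ _, hbL, hbK, v, hvL, hvK⟩,
            mem_singleton_self K⟩, M, mem_filter.2 ⟨mem_univ _, hbL, hbM, w, hwL, hwM⟩, ?_⟩,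
            Or.inr ⟨L, rfl, hvL, hbL⟩⟩⟩
          rw [mem_singleton]
          rintro rfl
          exact hwK hwM
      · exact ⟨Sum.inl v, fun h => absurd h hv⟩
    choose j hj using h1
    refine (card_le_card_of_injOn j ?_ ?_).trans hdeg
    · intro v hv
      exact mem_filter.2 ⟨mem_univ _, (hj v hv).1⟩
    · intro a ha b hb hab
      have ha' := (hj a ha).2
      have hb' := (hj b hb).2
      by_contra hne
      rcases ha' with ha' | ⟨L, ha', haL, hbL⟩
      · rcases hb' with hb' | ⟨L, hb', -, -⟩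
        · rw [ha', hb'] at hab
          exact hne (Sum.inl_injective hab)
        · rw [ha', hb'] at hab
          exact absurd hab Sum.inl_ne_inr
      · rcases hb' with hb' | ⟨L', hb', hbL', -⟩
        · rw [ha', hb'] at hab
          exact absurd hab Sum.inr_ne_inl
        · rw [ha', hb'] at hab
          have hLL : L = L' := Sum.inr_injective hab
          rw [← hLL] at hbL'
          have h2 := hK.uniq a b K L hne (mem_filter.1 ha).2.1 (mem_filter.1 hb).2.1 haL hbL'
          rw [h2] at hbK
          exact hbL hbK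
  -- all vertices of `K` are in the boundary
  have hKD : (univ.filter fun v => inc v K) ⊆ D := by
    intro a ha
    have haK := (mem_filter.1 ha).2
    by_contra haD
    have h5 := hcut D ((univ.filter fun v => inc v K) \ D) (univ.filter fun v => ¬ inc v K) (by
        intro w
        by_cases h1 : inc w K
        · by_cases h2 : w ∈ D
          · exact Or.inl h2
          · exact Or.inr (Or.inl (mem_sdiff.2 ⟨mem_filter.2 ⟨mem_univ _, h1⟩, h2⟩))
        · exact Or.inr (Or.inr (mem_filter.2 ⟨mem_univ _, h1⟩)))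
      (by
        rw [Finset.disjoint_left]
        intro x h1 h2
        exact (mem_filter.1 h2).2 (mem_filter.1 (mem_sdiff.1 h1).1).2)
      (by
        rw [Finset.disjoint_left]
        intro x h1 h2
        exact (mem_sdiff.1 h1).2 h2)
      (by
        rw [Finset.disjoint_left]
        intro x h1 h2
        exact (mem_filter.1 h1).2 (mem_filter.1 h2).2.1)
      ⟨a, mem_sdiff.2 ⟨ha, haD⟩⟩ ⟨w₀, mem_filter.2 ⟨mem_univ _, hw₀⟩⟩ (by
        intro x hx y hy hxy
        rw [mem_sdiff] at hx
        exact hx.2 (mem_filter.2 ⟨mem_univ _, (mem_filter.1 hx.1).2, y, (mem_filter.1 hy).2, hxy⟩))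
    omega
  exact ⟨v, S, hvK, hvS, hSsmall, hKS, (card_le_card hKD).trans hD4⟩

/-- in a closed graph there is no edge between two cells which meet in a vertex -/
theorem no_cross {V C : Type} {G : SimpleGraph V} {inc : V → C → Prop} (hK : Krausz G inc)
    (hcl : Closed G) {K S : C} (hKS : K ≠ S) {v a b x : V} (hvK : inc v K) (hvS : inc v S)
    (haK : inc a K) (hav : a ≠ v) (hbK : inc b K) (hbv : b ≠ v) (hab : a ≠ b) (hxS : inc x S)
    (hxv : x ≠ v) : ¬ G.Adj a x := by
  intro hadj
  have hcell : ∀ u, G.Adj v u → inc u K ∨ inc u S := by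
    intro u hu
    obtain ⟨-, M, h1, h2⟩ := (hK.adj_iff v u).1 hu
    rcases hK.two v K S M hvK hvS h1 with h | h | h
    · exact absurd h hKS
    · exact Or.inl (h ▸ h2)
    · exact Or.inr (h ▸ h2)
  have hva : G.Adj v a := (hK.adj_iff v a).2 ⟨hav.symm, K, hvK, haK⟩
  have hvb : G.Adj v b := (hK.adj_iff v b).2 ⟨hbv.symm, K, hvK, hbK⟩
  have hvx : G.Adj v x := (hK.adj_iff v x).2 ⟨hxv.symm, S, hvS, hxS⟩
  have hbS : ¬ inc b S := fun h => hKS (hK.uniq b v K S hbv hbK hvK h hvS)
  have haS : ¬ inc a S := fun h => hKS (hK.uniq a v K S hav haK hvK h hvS)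
  have hxK : ¬ inc x K := fun h => hKS (hK.uniq x v K S hxv h hvK hxS hvS)
  have hbx : b ≠ x := by
    rintro rfl
    exact hxK hbK
  have hnc : NbrConn G v := by
    intro p h1 h2
    by_contra hno
    push Not at hno
    have hsame : ∀ u w, G.Adj v u → G.Adj v w → G.Adj u w → (p u ↔ p w) := by
      intro u w hu hw huw
      constructor
      · intro hpu
        by_contra hpw
        exact hno u w hu hpu hw hpw huw
      · intro hpw
        by_contra hpu
        exact hno w u hw hpw hu hpu huw.symm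
    have hall : ∀ u, G.Adj v u → (p u ↔ p a) := by
      intro u hu
      rcases hcell u hu with h | h
      · by_cases hua : u = a
        · rw [hua]
        · exact hsame u a hu hva ((hK.adj_iff u a).2 ⟨hua, K, h, haK⟩)
      · have h3 : p u ↔ p x := by
          by_cases hux : u = x
          · rw [hux]
          · exact hsame u x hu hvx ((hK.adj_iff u x).2 ⟨hux, S, h, hxS⟩)
        exact h3.trans (hsame a x hva hvx hadj).symm
    obtain ⟨u, hu, hpu⟩ := h1
    obtain ⟨w, hw, hpw⟩ := h2
    exact hpw ((hall w hw).2 ((hall u hu).1 hpu))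
  have hbxa := hcl v hnc b x hvb hvx hbx
  obtain ⟨-, M, haM, hxM⟩ := (hK.adj_iff a x).1 hadj
  obtain ⟨-, N, hbN, hxN⟩ := (hK.adj_iff b x).1 hbxa
  rcases hK.two x S M N hxS hxM hxN with h | h | h
  · exact haS (h ▸ haM)
  · exact hbS (h ▸ hbN)
  · have h1 := hK.uniq a b K M hab haK hbK haM (h ▸ hbN)
    exact hxK (h1 ▸ hxM)

/-- a big cell with four vertices, one of which lies in a small cell, is a special clique -/
theorem special_of {V C : Type} [Fintype V] [Fintype C] {G G' : SimpleGraph V}
    {inc : V → C → Prop} (hle : G ≤ G') (hclaw : ClawFree G)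
    (hdeg : ∀ v, 5 ≤ (univ.filter fun w => G.Adj v w).card) (hK : Krausz G' inc)
    (hcl : Closed G') {K S : C} {v : V} (hbK : Big inc K) (hvK : inc v K) (hvS : inc v S)
    (hS : ¬ Big inc S) (hKS : K ≠ S) (hK4 : (univ.filter fun w => inc w K).card ≤ 4) :
    SpecialQ G (univ.filter fun w => inc w K) := by
  have hK4' : (univ.filter fun w => inc w K).card = 4 := le_antisymm hK4 hbK
  have hS3 := C1x.small_card hS
  have hvK' : v ∈ univ.filter fun w => inc w K := mem_filter.2 ⟨mem_univ _, hvK⟩
  have hvS' : v ∈ univ.filter fun w => inc w S := mem_filter.2 ⟨mem_univ _, hvS⟩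
  have hsub : (univ.filter fun w => G.Adj v w) ⊆
      (univ.filter fun w => inc w K).erase v ∪ (univ.filter fun w => inc w S).erase v := by
    intro w hw
    obtain ⟨hne, M, h1, h2⟩ := (hK.adj_iff v w).1 (hle (mem_filter.1 hw).2)
    rw [mem_union, mem_erase, mem_erase, mem_filter, mem_filter]
    rcases hK.two v K S M hvK hvS h1 with h | h | h
    · exact absurd h hKS
    · left
      rw [h]
      exact ⟨hne.symm, mem_univ _, h2⟩
    · right
      rw [h]
      exact ⟨hne.symm, mem_univ _, h2⟩
  have hcK : ((univ.filter fun w => inc w K).erase v).card = 3 := by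
    rw [card_erase_of_mem hvK', hK4']
  have hcS : ((univ.filter fun w => inc w S).erase v).card ≤ 2 := by
    rw [card_erase_of_mem hvS']
    omega
  have hcu := card_union_le ((univ.filter fun w => inc w K).erase v)
    ((univ.filter fun w => inc w S).erase v)
  have heq : (univ.filter fun w => G.Adj v w) =
      (univ.filter fun w => inc w K).erase v ∪ (univ.filter fun w => inc w S).erase v := by
    refine Finset.eq_of_subset_of_card_le hsub ?_
    have := hdeg v
    omega
  have hcS2 : ((univ.filter fun w => inc w S).erase v).card = 2 := by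
    have := hdeg v
    rw [heq] at this
    omega
  obtain ⟨x, y, hxy, hSe⟩ := Finset.card_eq_two.1 hcS2
  have hx : x ∈ (univ.filter fun w => inc w S).erase v := by
    rw [hSe]
    exact mem_insert_self _ _
  have hy : y ∈ (univ.filter fun w => inc w S).erase v := by
    rw [hSe]
    exact mem_insert_of_mem (mem_singleton_self _)
  have hxv : x ≠ v := (mem_erase.1 hx).1
  have hyv : y ≠ v := (mem_erase.1 hy).1
  have hxS : inc x S := (mem_filter.1 (mem_erase.1 hx).2).2
  have hyS : inc y S := (mem_filter.1 (mem_erase.1 hy).2).2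
  have hxK : ¬ inc x K := fun h => hKS (hK.uniq x v K S hxv h hvK hxS hvS)
  have hyK : ¬ inc y K := fun h => hKS (hK.uniq y v K S hyv h hvK hyS hvS)
  have hadj : ∀ w, G.Adj v w ↔ (w ≠ v ∧ inc w K) ∨ w = x ∨ w = y := by
    intro w
    have h1 : w ∈ (univ.filter fun w => G.Adj v w) ↔
        w ∈ (univ.filter fun w => inc w K).erase v ∪ (univ.filter fun w => inc w S).erase v := by
      rw [heq]
    rw [hSe, mem_filter, mem_union, mem_erase, mem_filter, mem_insert, mem_singleton] at h1
    simpa using h1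
  -- a third vertex of the cell `K`
  have hthird : ∀ a, ∃ b, inc b K ∧ b ≠ v ∧ a ≠ b := by
    intro a
    obtain ⟨b, hb, hba⟩ := Finset.exists_mem_ne (by omega :
      1 < ((univ.filter fun w => inc w K).erase v).card) a
    exact ⟨b, (mem_filter.1 (mem_erase.1 hb).2).2, (mem_erase.1 hb).1, hba.symm⟩
  have hno : ∀ a, inc a K → a ≠ v → ¬ G.Adj a x ∧ ¬ G.Adj a y := by
    intro a haK hav
    obtain ⟨b, hbK, hbv, hab⟩ := hthird a
    exact ⟨fun h => no_cross hK hcl hKS hvK hvS haK hav hbK hbv hab hxS hxv (hle h),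
      fun h => no_cross hK hcl hKS hvK hvS haK hav hbK hbv hab hyS hyv (hle h)⟩
  have hvx : G.Adj v x := (hadj x).2 (Or.inr (Or.inl rfl))
  have hvy : G.Adj v y := (hadj y).2 (Or.inr (Or.inr rfl))
  refine ⟨hK4', ?_, v, hvK', x, y, hxy, fun h => hxK (mem_filter.1 h).2,
    fun h => hyK (mem_filter.1 h).2, hvx, hvy, ?_, ?_, ?_⟩
  · intro a ha b hb hab
    have haK := (mem_filter.1 ha).2
    have hbK' := (mem_filter.1 hb).2
    by_cases hav : a = v
    · rw [hav]
      exact (hadj b).2 (Or.inl ⟨fun h => hab (hav.trans h.symm), hbK'⟩)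
    by_cases hbv : b = v
    · rw [hbv]
      exact ((hadj a).2 (Or.inl ⟨hav, haK⟩)).symm
    rcases hclaw v a b x ((hadj a).2 (Or.inl ⟨hav, haK⟩)) ((hadj b).2 (Or.inl ⟨hbv, hbK'⟩)) hvx
      hab (fun h => hxK (h ▸ haK)) (fun h => hxK (h ▸ hbK')) with h | h | h
    · exact h
    · exact absurd h (hno a haK hav).1
    · exact absurd h (hno b hbK' hbv).1
  · obtain ⟨a, haK, hav, -⟩ := hthird v
    rcases hclaw v a x y ((hadj a).2 (Or.inl ⟨hav, haK⟩)) hvx hvy (fun h => hxK (h ▸ haK))
      (fun h => hyK (h ▸ haK)) hxy with h | h | h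
    · exact absurd h (hno a haK hav).1
    · exact absurd h (hno a haK hav).2
    · exact h
  · intro w hw
    rcases (hadj w).1 hw with h | h
    · exact Or.inl (mem_filter.2 ⟨mem_univ _, h.2⟩)
    · exact Or.inr h
  · intro a ha hav
    exact hno a (mem_filter.1 ha).2 hav

/-- The main theorem for graphs with at most `m` special cliques. -/
theorem mainQ (m : ℕ) (hyp' : HypLemmaC m) (V : Type) [Fintype V] [DecidableEq V]
    (G : SimpleGraph V) (hN : NoSmallCut G) (h3 : 3 ≤ Fintype.card V) (hclaw : ClawFree G)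
    (hm : (univ.filter fun Q : Finset V => SpecialQ G Q).card ≤ m) :
    G.IsHamiltonian := by
  obtain ⟨G', hle, hcf, hcl, hham⟩ := (rowD2 rowd1) V G hclaw
  refine rowE5 V G (hham ?_)
  have hN' : NoSmallCut G' := by
    intro S A C h1 h2 h4 h5 h6 h7 h8
    exact hN S A C h1 h2 h4 h5 h6 h7 fun a ha c hc hac => h8 a ha c hc (hle hac)
  by_cases hcomp : ∀ u v, u ≠ v → G'.Adj u v
  · exact ham_of_complete G' h3 hcomp
  push Not at hcomp
  have hcompG : ∃ u v, u ≠ v ∧ ¬ G.Adj u v := by
    obtain ⟨u, v, h1, h2⟩ := hcomp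
    exact ⟨u, v, h1, fun h => h2 (hle h)⟩
  have hiso : ∀ v, ∃ w, G'.Adj v w := by
    intro v
    by_contra hno
    push Not at hno
    have h5 := hN' ∅ {v} ({v}ᶜ) (by
        intro w
        simp only [notMem_empty, mem_singleton, mem_compl, false_or]
        exact Classical.em _)
      (by simp) (by simp) (by simp) (singleton_nonempty v)
      (by
        rw [← card_pos, card_compl, card_singleton]
        omega)
      (by
        intro a ha c _ hac
        rw [mem_singleton] at ha
        rw [ha] at hac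
        exact hno c hac)
    simp at h5
  obtain ⟨C, _, inc, hK⟩ := D3.rowD3 V G' hcf hcl hiso
  have hbig := rowc0 V C G' inc hK hN' hcomp
  obtain ⟨hr, hfour⟩ := rowc1 V C G' inc hK hN' hbig
  have heven := rowh5C m hyp' C (V ⊕ C) (bigs inc) (Pool.Agent.ClawHam.hyp inc) hr hfour
    (rowc5 V C G' inc hK hN' hbig) (by
      refine le_trans ?_ hm
      refine card_le_card_of_injOn (fun K => univ.filter fun v => inc v K) ?_ ?_
      · intro K hKm
        obtain ⟨h2, h4, h5⟩ := (mem_filter.1 hKm).2
        have hbK : Big inc K := (mem_filter.1 h2).2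
        obtain ⟨v, S, h6, h7, h8, h9, h10⟩ := deg5Q hK hN' hbig hbK h4 h5
        exact mem_filter.2 ⟨mem_univ _, special_of hle hclaw (five_le_deg hN hcompG) hK hcl hbK
          h6 h7 h8 h9 h10⟩
      · intro K hKm L hLm hKL
        have hKL' : (univ.filter fun v => inc v K) = univ.filter fun v => inc v L := hKL
        obtain ⟨h2, -, -⟩ := (mem_filter.1 hKm).2
        have hbK : Big inc K := (mem_filter.1 h2).2
        unfold Big at hbK
        obtain ⟨a, ha, b, hb, hab⟩ := Finset.one_lt_card.1
          (by omega : 1 < (univ.filter fun v => inc v K).card)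
        have ha' := ha
        have hb' := hb
        rw [hKL'] at ha' hb'
        exact hK.uniq a b K L hab (mem_filter.1 ha).2 (mem_filter.1 hb).2 (mem_filter.1 ha').2
          (mem_filter.1 hb').2)
  have htwo : 2 ≤ (bigs inc).card := by
    by_contra hlt
    obtain ⟨u, v, huv, hadj⟩ := hcomp
    obtain ⟨K, hK1, hK2⟩ := hbig u
    obtain ⟨L, hL1, hL2⟩ := hbig v
    have hKL : K = L := by
      have h1 : (bigs inc).card ≤ 1 := by omega
      rw [card_le_one] at h1
      exact h1 K (by simp [bigs, hK1]) L (by simp [bigs, hL1])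
    exact hadj ((hK.adj_iff u v).2 ⟨huv, K, hK2, by rw [hKL]; exact hL2⟩)
  obtain ⟨F, hF⟩ := rowe1 V C G' inc hK hbig htwo heven
  obtain ⟨σ, hσ1, hσ2⟩ := rowe3 V C inc F hK.two hF (rowe2 V C inc F hK.two hK.ex hF.two hF.even)
  exact E4.rowE4 V G' σ h3 hσ1 fun v hv => (hK.adj_iff v (σ v)).2 ⟨hv, hσ2 v⟩

/-- The same for graphs which are more than 2-tough. -/
theorem mainQT (m : ℕ) (hyp' : HypLemmaC m) (V : Type) [Fintype V] [DecidableEq V]
    (G : SimpleGraph V) (t : ℝ) (ht : 2 < t) (h3 : 3 ≤ Fintype.card V) (hclaw : ClawFree G)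
    (htough : Tough t G) (hm : (univ.filter fun Q : Finset V => SpecialQ G Q).card ≤ m) :
    G.IsHamiltonian :=
  mainQ m hyp' V G (rowt1 V G t ht htough) h3 hclaw hm

end Pool.Agent.ClawHam
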