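import Pool.Agent.Lib.MP_e2dbb5_co.FB

/-!
# The reduction, with the structure of the vertices of degree five

The `m + 1` vertices of degree five which come from `m + 1` cells of degree four induce a disjoint
union of cliques with at most three vertices.
-/

set_option autoImplicit false

open Finset

noncomputable section

namespace Pool.Agent.ClawHam

open Classical

/-- The main theorem for graphs without `m + 1` vertices of degree five which induce a disjoint
union of cliques with at most three vertices. -/
theorem mainC7 (m : ℕ) (hyp' : HypLemmaC m) (V : Type) [Fintype V] [DecidableEq V]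
    (G : SimpleGraph V) (hN : NoSmallCut G) (h3 : 3 ≤ Fintype.card V) (hclaw : ClawFree G)
    (hm : ∀ D : Finset V, D.card = m + 1 → (∀ v ∈ D, (univ.filter fun w => G.Adj v w).card = 5) →
      (∀ u ∈ D, ∀ v ∈ D, ∀ w ∈ D, u ≠ w → G.Adj u v → G.Adj v w → G.Adj u w) →
      ∃ v ∈ D, 3 ≤ (D.filter fun w => G.Adj v w).card) :
    G.IsHamiltonian := by
  obtain ⟨G', hle, hcf, hcl, hham⟩ := (rowD2 rowd1) V G hclaw
  refine rowE5 V G (hham ?_)
  have hN' : NoSmallCut G' := by
    intro S A C h1 h2 h4 h5 h6 h7 h8
    exact hN S A C h1 h2 h4 h5 h6 h7 fun a ha c hc hac => h8 a ha c hc (hle hac)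
  by_cases hcomp : ∀ u v, u ≠ v → G'.Adj u v
  · exact ham_of_complete G' h3 hcomp
  push Not at hcomp
  have hcompG : ∃ u v, u ≠ v ∧ ¬ G.Adj u v := by
    obtain ⟨u, v, h1, h2⟩ := hcomp
    exact ⟨u, v, h1, fun h => h2 (hle h)⟩
  have hiso : ∀ v, ∃ w, G'.Adj v w := by
    intro v
    by_contra hno
    push Not at hno
    have h5 := hN' ∅ {v} ({v}ᶜ) (by
        intro w
        simp only [notMem_empty, mem_singleton, mem_compl, false_or]
        exact Classical.em _)
      (by simp) (by simp) (by simp) (singleton_nonempty v)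
      (by
        rw [← card_pos, card_compl, card_singleton]
        omega)
      (by
        intro a ha c _ hac
        rw [mem_singleton] at ha
        rw [ha] at hac
        exact hno c hac)
    simp at h5
  obtain ⟨C, _, inc, hK⟩ := D3.rowD3 V G' hcf hcl hiso
  have hbig := rowc0 V C G' inc hK hN' hcomp
  obtain ⟨hr, hfour⟩ := rowc1 V C G' inc hK hN' hbig
  have heven := rowh5C m hyp' C (V ⊕ C) (bigs inc) (Pool.Agent.ClawHam.hyp inc) hr hfour
    (rowc5 V C G' inc hK hN' hbig) (by
      by_contra hgt
      push Not at hgt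
      obtain ⟨T, hTsub, hTcard⟩ := Finset.exists_subset_card_eq (Nat.succ_le_of_lt hgt)
      have h1 : ∀ K : C, ∃ (v : V) (S : C), K ∈ T →
          Big inc K ∧ inc v K ∧ inc v S ∧ ¬ Big inc S ∧
            (univ.filter fun w => G.Adj v w).card = 5 ∧
            (univ.filter fun w => G'.Adj v w).card ≤ 5 := by
        intro K
        by_cases hKm : K ∈ T
        · obtain ⟨h2, h4, h5⟩ := (mem_filter.1 (hTsub hKm)).2
          have hbK : Big inc K := (mem_filter.1 h2).2
          obtain ⟨v, S, h6, h7, h8, h9⟩ := deg5 hK hN' hbig hbK h4 h5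
          refine ⟨v, S, fun _ => ⟨hbK, h6, h7, h8, ?_, h9⟩⟩
          have h10 := five_le_deg hN hcompG v
          have h11 : (univ.filter fun w => G.Adj v w).card ≤
              (univ.filter fun w => G'.Adj v w).card := by
            refine card_le_card fun w hw => ?_
            exact mem_filter.2 ⟨mem_univ _, hle (mem_filter.1 hw).2⟩
          omega
        · obtain ⟨u, -⟩ := hcomp
          exact ⟨u, K, fun h => absurd h hKm⟩
      choose j S hj using h1
      -- adjacent vertices lie in the same small cell
      have hsame : ∀ K ∈ T, ∀ L ∈ T, G'.Adj (j K) (j L) → S K = S L := by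
        intro K hKm L hLm hadj
        obtain ⟨hne, M, h2, h4⟩ := (hK.adj_iff _ _).1 hadj
        have hKL : K ≠ L := by
          rintro rfl
          exact hne rfl
        obtain ⟨hbK, hK1, hK2, hK3, -, -⟩ := hj K hKm
        obtain ⟨hbL, hL1, hL2, hL3, -, -⟩ := hj L hLm
        rcases hK.two (j K) K (S K) M hK1 hK2 h2 with h | h | h
        · exact absurd (h ▸ hbK) hK3
        · rcases hK.two (j L) L (S L) M hL1 hL2 h4 with h' | h' | h'
          · exact absurd (h' ▸ hbL) hL3
          · exact absurd (h.trans h'.symm) hKL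
          · exact absurd (by rw [h', ← h]; exact hbK) hL3
        · rcases hK.two (j L) L (S L) M hL1 hL2 h4 with h' | h' | h'
          · exact absurd (h' ▸ hbL) hL3
          · exact absurd (by rw [h, ← h']; exact hbL) hK3
          · exact h.trans h'.symm
      have hinj : Set.InjOn j T := by
        intro K hKm L hLm hKL
        obtain ⟨hbK, hK1, hK2, hK3, -, -⟩ := hj K hKm
        obtain ⟨hbL, hL1, hL2, hL3, -, -⟩ := hj L hLm
        rw [← hKL] at hL1 hL2
        rcases hK.two (j K) K L (S L) hK1 hL1 hL2 with h | h | h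
        · exact h
        · exact absurd (h ▸ hbK) hL3
        · exact absurd (h ▸ hbL) hL3
      obtain ⟨v, hv, hv3⟩ := hm (T.image j) (by
          rw [card_image_of_injOn hinj, hTcard]) (by
          intro v hv
          obtain ⟨K, hKm, rfl⟩ := mem_image.1 hv
          exact (hj K hKm).2.2.2.2.1) (by
          intro u hu v hv w hw huw huv hvw
          obtain ⟨K, hKm, rfl⟩ := mem_image.1 hu
          obtain ⟨L, hLm, rfl⟩ := mem_image.1 hv
          obtain ⟨M, hMm, rfl⟩ := mem_image.1 hw
          have h1 := hsame K hKm L hLm (hle huv)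
          have h2 := hsame L hLm M hMm (hle hvw)
          have h4 : G'.Adj (j K) (j M) := by
            refine (hK.adj_iff _ _).2 ⟨huw, S K, (hj K hKm).2.2.1, ?_⟩
            rw [h1, h2]
            exact (hj M hMm).2.2.1
          have h5 : (univ.filter fun w => G.Adj (j K) w) = univ.filter fun w => G'.Adj (j K) w := by
            refine Finset.eq_of_subset_of_card_le ?_ ?_
            · intro w hw
              exact mem_filter.2 ⟨mem_univ _, hle (mem_filter.1 hw).2⟩
            · rw [(hj K hKm).2.2.2.2.1]
              exact (hj K hKm).2.2.2.2.2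
          have h6 : j M ∈ univ.filter fun w => G.Adj (j K) w := by
            rw [h5]
            exact mem_filter.2 ⟨mem_univ _, h4⟩
          exact (mem_filter.1 h6).2)
      obtain ⟨K, hKm, rfl⟩ := mem_image.1 hv
      have h2 : insert (j K) ((T.image j).filter fun w => G.Adj (j K) w) ⊆
          univ.filter fun w => inc w (S K) := by
        intro w hw
        rcases mem_insert.1 hw with rfl | hw
        · exact mem_filter.2 ⟨mem_univ _, (hj K hKm).2.2.1⟩
        · obtain ⟨hw1, hw2⟩ := mem_filter.1 hw
          obtain ⟨L, hLm, rfl⟩ := mem_image.1 hw1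
          refine mem_filter.2 ⟨mem_univ _, ?_⟩
          rw [hsame K hKm L hLm (hle hw2)]
          exact (hj L hLm).2.2.1
      have h4 := card_le_card h2
      rw [card_insert_of_notMem (by
        intro h5
        exact G.loopless.irrefl _ (mem_filter.1 h5).2)] at h4
      exact (hj K hKm).2.2.2.1 (by
        unfold Big
        omega))
  have htwo : 2 ≤ (bigs inc).card := by
    by_contra hlt
    obtain ⟨u, v, huv, hadj⟩ := hcomp
    obtain ⟨K, hK1, hK2⟩ := hbig u
    obtain ⟨L, hL1, hL2⟩ := hbig v
    have hKL : K = L := by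
      have h1 : (bigs inc).card ≤ 1 := by omega
      rw [card_le_one] at h1
      exact h1 K (by simp [bigs, hK1]) L (by simp [bigs, hL1])
    exact hadj ((hK.adj_iff u v).2 ⟨huv, K, hK2, by rw [hKL]; exact hL2⟩)
  obtain ⟨F, hF⟩ := rowe1 V C G' inc hK hbig htwo heven
  obtain ⟨σ, hσ1, hσ2⟩ := rowe3 V C inc F hK.two hF (rowe2 V C inc F hK.two hK.ex hF.two hF.even)
  exact E4.rowE4 V G' σ h3 hσ1 fun v hv => (hK.adj_iff v (σ v)).2 ⟨hv, hσ2 v⟩

end Pool.Agent.ClawHam
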