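import Pool.Agent.Lib.MP_e2dbb5_co.SK0

/-!
# The skeletal lemma: row CLK (helper34)

If the chosen pairs are connected and the closure is everything, then there is a certificate KV.
-/

set_option autoImplicit false

open Finset

noncomputable section

namespace Pool.Agent.ClawHam

open Classical

namespace Sk

namespace Clk

variable {B I : Type}

theorem conn_of_gen [Fintype B] (p : I → Finset B) (h : gen p ⊤ ∅ = ⊤) : Conn p := by
  intro X hX hX'
  by_contra hcon
  push Not at hcon
  obtain ⟨a, ha⟩ := hX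
  have hb : ∃ b, b ∉ X := by
    by_contra h2
    push Not at h2
    exact hX' (Finset.eq_univ_iff_forall.2 h2)
  obtain ⟨b, hb⟩ := hb
  let E : Setoid B :=
    { r := fun x y => (x ∈ X ↔ y ∈ X)
      iseqv := ⟨fun _ => Iff.rfl, fun h => h.symm, fun h h' => h.trans h'⟩ }
  have hE : GCl p ⊤ ∅ E := by
    intro i _ x hx y hy _
    change (x ∈ X ↔ y ∈ X)
    constructor
    · intro hxX
      by_contra hyX
      exact hcon i ⟨⟨x, hx, hxX⟩, y, hy, hyX⟩
    · intro hyX
      by_contra hxX
      exact hcon i ⟨⟨y, hy, hyX⟩, x, hx, hxX⟩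
  have h1 : gen p ⊤ ∅ ≤ E := sInf_le hE
  rw [h] at h1
  have h2 : E a b := h1 (show (⊤ : Setoid B) a b from trivial)
  have h3 : a ∈ X ↔ b ∈ X := h2
  exact hb (h3.1 ha)

variable [Fintype B]

/-- the class of `b` -/
def cls (E : Setoid B) (b : B) : Finset B := univ.filter fun u => E b u

theorem mem_cls {E : Setoid B} {b u : B} : u ∈ cls E b ↔ E b u := by
  simp [cls]

/-- every class is merged by hyperedges inside -/
def Good (e p : I → Finset B) (E : Setoid B) : Prop :=
  ∀ b, ∃ T, KTree e p (cls E b) T ∧ ∀ i ∈ T, e i ⊆ cls E b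

theorem good_bot (e p : I → Finset B) : Good e p ⊥ := by
  intro b
  have h : cls (⊥ : Setoid B) b = {b} := by
    ext u
    rw [mem_cls, Finset.mem_singleton]
    constructor
    · intro h
      exact (show b = u from h).symm
    · intro h
      exact (show b = u from h.symm)
  refine ⟨∅, ?_, fun i hi => absurd hi (Finset.notMem_empty _)⟩
  rw [h]
  exact KTree.single b

/-- merging the classes in `Q` -/
def mer (E : Setoid B) (Q : B → Prop) (hQ : ∀ u v, Q u → E u v → Q v) : Setoid B where
  r u v := E u v ∨ (Q u ∧ Q v)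
  iseqv := by
    refine ⟨fun u => Or.inl (E.refl u), fun {u v} h => ?_, fun {u v w} h h' => ?_⟩
    · rcases h with h | h
      · exact Or.inl (E.symm h)
      · exact Or.inr ⟨h.2, h.1⟩
    · rcases h with h | h
      · rcases h' with h' | h'
        · exact Or.inl (E.trans h h')
        · exact Or.inr ⟨hQ _ _ h'.1 (E.symm h), h'.2⟩
      · rcases h' with h' | h'
        · exact Or.inr ⟨h.1, hQ _ _ h.2 h'⟩
        · exact Or.inr ⟨h.1, h'.2⟩

theorem good_mer (e p : I → Finset B) (E : Setoid B) (hE : Good e p E) (Q : B → Prop)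
    (hQ : ∀ u v, Q u → E u v → Q v) (A : Finset B) (hA : ∀ u, u ∈ A ↔ Q u)
    (hT : ∃ T, KTree e p A T ∧ ∀ i ∈ T, e i ⊆ A) :
    Good e p (mer E Q hQ) := by
  intro b
  by_cases hb : Q b
  · have h : cls (mer E Q hQ) b = A := by
      ext u
      rw [mem_cls, hA]
      constructor
      · intro h
        rcases (show E b u ∨ (Q b ∧ Q u) from h) with h | h
        · exact hQ _ _ hb h
        · exact h.2
      · intro h
        exact (show E b u ∨ (Q b ∧ Q u) from Or.inr ⟨hb, h⟩)
    rw [h]
    exact hT
  · have h : cls (mer E Q hQ) b = cls E b := by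
      ext u
      rw [mem_cls, mem_cls]
      constructor
      · intro h
        rcases (show E b u ∨ (Q b ∧ Q u) from h) with h | h
        · exact h
        · exact absurd h.1 hb
      · intro h
        exact (show E b u ∨ (Q b ∧ Q u) from Or.inl h)
    rw [h]
    exact hE b

/-- the size of a relation -/
def msr (E : Setoid B) : ℕ := (univ.filter fun q : B × B => E q.1 q.2).card

theorem msr_lt {E E' : Setoid B} (h : E ≤ E') {x y : B} (hx : ¬ E x y) (hx' : E' x y) :
    msr E < msr E' := by
  unfold msr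
  apply Finset.card_lt_card
  rw [Finset.ssubset_iff_of_subset]
  · refine ⟨(x, y), ?_, ?_⟩
    · rw [Finset.mem_filter]
      exact ⟨Finset.mem_univ _, hx'⟩
    · rw [Finset.mem_filter]
      exact fun h2 => hx h2.2
  · intro q hq
    rw [Finset.mem_filter] at hq ⊢
    exact ⟨hq.1, h hq.2⟩

theorem exists_max (e p : I → Finset B) :
    ∃ E, Good e p E ∧ ∀ E', Good e p E' → msr E' ≤ msr E := by
  let S : Set ℕ := {n | ∃ E, Good e p E ∧ msr E = n}
  have hne : S.Nonempty := ⟨_, ⊥, good_bot e p, rfl⟩
  have hbd : BddAbove S := by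
    refine ⟨(univ : Finset (B × B)).card, ?_⟩
    rintro n ⟨E, _, rfl⟩
    exact Finset.card_filter_le _ _
  obtain ⟨E, hE, hm⟩ := Nat.sSup_mem hne hbd
  refine ⟨E, hE, fun E' hE' => ?_⟩
  rw [hm]
  exact le_csSup hbd ⟨E', hE', rfl⟩

theorem max_closed (e p : I → Finset B) (E : Setoid B) (hE : Good e p E)
    (hmax : ∀ E', Good e p E' → msr E' ≤ msr E) (Q : B → Prop)
    (hQ : ∀ u v, Q u → E u v → Q v) (A : Finset B) (hA : ∀ u, u ∈ A ↔ Q u)
    (hT : ∃ T, KTree e p A T ∧ ∀ i ∈ T, e i ⊆ A) {x y : B}
    (hx : Q x) (hy : Q y) : E x y := by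
  by_contra hxy
  have h1 := hmax _ (good_mer e p E hE Q hQ A hA hT)
  have h2 : msr E < msr (mer E Q hQ) := by
    refine msr_lt (x := x) (y := y) ?_ hxy ?_
    · intro u v h
      exact (show E u v ∨ (Q u ∧ Q v) from Or.inl h)
    · exact (show E x y ∨ (Q x ∧ Q y) from Or.inr ⟨hx, hy⟩)
  omega

omit [Fintype B] in
theorem three {s : Finset B} (hs : s.card ≤ 3) {x y z w : B} (hx : x ∈ s) (hy : y ∈ s)
    (hz : z ∈ s) (hw : w ∈ s) (hxy : x ≠ y) (hxz : x ≠ z) (hyz : y ≠ z) :
    w = x ∨ w = y ∨ w = z := by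
  have h1 : ({x, y, z} : Finset B) ⊆ s := by
    intro u hu
    simp only [Finset.mem_insert, Finset.mem_singleton] at hu
    rcases hu with rfl | rfl | rfl
    · exact hx
    · exact hy
    · exact hz
  have h2 : ({x, y, z} : Finset B).card = 3 := Finset.card_eq_three.2 ⟨x, y, z, hxy, hxz, hyz, rfl⟩
  have h3 : ({x, y, z} : Finset B) = s := Finset.eq_of_subset_of_card_le h1 (by rw [h2]; exact hs)
  rw [← h3] at hw
  simpa using hw

theorem disj_cls {E : Setoid B} {x y : B} (h : ¬ E x y) : Disjoint (cls E x) (cls E y) := by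
  rw [Finset.disjoint_left]
  intro u hu hu'
  exact h (E.trans (mem_cls.1 hu) (E.symm (mem_cls.1 hu')))

omit [Fintype B] in
theorem disj_T {e : I → Finset B} (hcard : ∀ i, (e i).card = 2 ∨ (e i).card = 3)
    {A A' : Finset B} (h : Disjoint A A') {T T' : Finset I} (hT : ∀ i ∈ T, e i ⊆ A)
    (hT' : ∀ i ∈ T', e i ⊆ A') : Disjoint T T' := by
  rw [Finset.disjoint_left]
  intro i hi hi'
  have h1 : (e i).Nonempty := by
    rw [← Finset.card_pos]
    rcases hcard i with h | h <;> omega
  obtain ⟨u, hu⟩ := h1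
  exact Finset.disjoint_left.1 h (hT i hi hu) (hT' i hi' hu)

theorem acl_max (e p : I → Finset B) (hcard : ∀ i, (e i).card = 2 ∨ (e i).card = 3)
    (hleg : Leg e p) (E : Setoid B) (hE : Good e p E)
    (hmax : ∀ E', Good e p E' → msr E' ≤ msr E) : ACl e p ⊤ ∅ ∅ F0 E := by
  have hc3 : ∀ i, (e i).card ≤ 3 := by
    intro i
    rcases hcard i with h | h <;> omega
  refine ⟨fun x y h => absurd h id, fun i _ _ hpi x hx y hy _ => ?_,
    fun i _ hpi hin a ha w hw _ => ?_⟩
  · -- an unused hyperedge
    by_contra hxy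
    obtain ⟨T, hT, hT1⟩ := hE x
    obtain ⟨T', hT', hT1'⟩ := hE y
    have hdA := disj_cls hxy
    have hdT := disj_T hcard hdA hT1 hT1'
    have hyA : y ∉ cls E x := fun h => hxy (mem_cls.1 h)
    have hxA' : x ∉ cls E y := fun h => hxy (E.symm (mem_cls.1 h))
    have hiT : i ∉ T := fun h => hyA (hT1 i h hy)
    have hiT' : i ∉ T' := fun h => hxA' (hT1' i h hx)
    by_cases hall : ∀ z ∈ e i, E x z ∨ E y z
    · let Q : B → Prop := fun u => E x u ∨ E y u
      have hQ : ∀ u v, Q u → E u v → Q v := by
        intro u v h h'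
        rcases h with h | h
        · exact Or.inl (E.trans h h')
        · exact Or.inr (E.trans h h')
      have hfil : ∀ u, u ∈ cls E x ∪ cls E y ↔ Q u := by
        intro u
        rw [Finset.mem_union, mem_cls, mem_cls]
      have hk : ∃ T, KTree e p (cls E x ∪ cls E y) T ∧ ∀ i ∈ T, e i ⊆ cls E x ∪ cls E y := by
        refine ⟨insert i (T ∪ T'), KTree.joinD (cls E x) (cls E y) T T' i x y hT hT' hdA hdT hiT
          hiT' hpi (mem_cls.2 (E.refl x)) (mem_cls.2 (E.refl y)) hx hy, fun j hj => ?_⟩
        rcases Finset.mem_insert.1 hj with rfl | hj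
        · intro z hz
          rw [Finset.mem_union, mem_cls, mem_cls]
          exact hall z hz
        · rcases Finset.mem_union.1 hj with hj | hj
          · exact (hT1 j hj).trans Finset.subset_union_left
          · exact (hT1' j hj).trans Finset.subset_union_right
      exact hxy (max_closed e p E hE hmax Q hQ _ hfil hk (Or.inl (E.refl x))
        (Or.inr (E.refl y)))
    · push Not at hall
      obtain ⟨z, hz, hxz, hyz⟩ := hall
      obtain ⟨T'', hT'', hT1''⟩ := hE z
      have hd1 := disj_cls hxz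
      have hd2 := disj_cls hyz
      have hdT1 := disj_T hcard hd1 hT1 hT1''
      have hdT2 := disj_T hcard hd2 hT1' hT1''
      have hiT'' : i ∉ T'' := fun h => hxz (E.symm (mem_cls.1 (hT1'' i h hx)))
      let Q : B → Prop := fun u => (E x u ∨ E y u) ∨ E z u
      have hQ : ∀ u v, Q u → E u v → Q v := by
        intro u v h h'
        rcases h with (h | h) | h
        · exact Or.inl (Or.inl (E.trans h h'))
        · exact Or.inl (Or.inr (E.trans h h'))
        · exact Or.inr (E.trans h h')
      have hfil : ∀ u, u ∈ cls E x ∪ cls E y ∪ cls E z ↔ Q u := by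
        intro u
        rw [Finset.mem_union, Finset.mem_union, mem_cls, mem_cls, mem_cls]
      have hk : ∃ T, KTree e p (cls E x ∪ cls E y ∪ cls E z) T ∧
          ∀ i ∈ T, e i ⊆ cls E x ∪ cls E y ∪ cls E z := by
        refine ⟨insert i (T ∪ T' ∪ T''), KTree.joinU (cls E x) (cls E y) (cls E z) T T' T'' i x y z
          hT hT' hT'' hdA hd1 hd2 hdT hdT1 hdT2 hiT hiT' hiT'' hpi (mem_cls.2 (E.refl x))
          (mem_cls.2 (E.refl y)) (mem_cls.2 (E.refl z)) hx hy hz, fun j hj => ?_⟩
        rcases Finset.mem_insert.1 hj with rfl | hj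
        · intro w hw
          have hxy' : x ≠ y := fun h => hxy (h ▸ E.refl x)
          have hxz' : x ≠ z := fun h => hxz (h ▸ E.refl x)
          have hyz' : y ≠ z := fun h => hyz (h ▸ E.refl y)
          rw [Finset.mem_union, Finset.mem_union, mem_cls, mem_cls, mem_cls]
          rcases three (hc3 j) hx hy hz hw hxy' hxz' hyz' with rfl | rfl | rfl
          · exact Or.inl (Or.inl (E.refl _))
          · exact Or.inl (Or.inr (E.refl _))
          · exact Or.inr (E.refl _)
        · rcases Finset.mem_union.1 hj with hj | hj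
          · rcases Finset.mem_union.1 hj with hj | hj
            · exact (hT1 j hj).trans
                (Finset.subset_union_left.trans Finset.subset_union_left)
            · exact (hT1' j hj).trans
                (Finset.subset_union_right.trans Finset.subset_union_left)
          · exact (hT1'' j hj).trans Finset.subset_union_right
      exact hxy (max_closed e p E hE hmax Q hQ _ hfil hk (Or.inl (Or.inl (E.refl x)))
        (Or.inl (Or.inr (E.refl y))))
  · -- a used hyperedge
    by_contra haw
    have hp2 : (p i).card = 2 := (hleg.1 i).resolve_left hpi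
    obtain ⟨y, z, hyz, hpyz⟩ := Finset.card_eq_two.1 hp2
    have hyp : y ∈ p i := by rw [hpyz]; exact Finset.mem_insert_self _ _
    have hzp : z ∈ p i := by
      rw [hpyz]; exact Finset.mem_insert_of_mem (Finset.mem_singleton_self _)
    have hay : E a y := hin a ha y hyp
    have haz : E a z := hin a ha z hzp
    have hyw : y ≠ w := fun h => haw (h ▸ hay)
    have hzw : z ≠ w := fun h => haw (h ▸ haz)
    obtain ⟨T, hT, hT1⟩ := hE a
    obtain ⟨T', hT', hT1'⟩ := hE w
    have hdA := disj_cls haw
    have hdT := disj_T hcard hdA hT1 hT1'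
    have hiT : i ∉ T := fun h => haw (mem_cls.1 (hT1 i h hw))
    have hiT' : i ∉ T' := fun h => haw (E.symm (mem_cls.1 (hT1' i h (hleg.2 i ha))))
    let Q : B → Prop := fun u => E a u ∨ E w u
    have hQ : ∀ u v, Q u → E u v → Q v := by
      intro u v h h'
      rcases h with h | h
      · exact Or.inl (E.trans h h')
      · exact Or.inr (E.trans h h')
    have hfil : ∀ u, u ∈ cls E a ∪ cls E w ↔ Q u := by
      intro u
      rw [Finset.mem_union, mem_cls, mem_cls]
    have hk : ∃ T, KTree e p (cls E a ∪ cls E w) T ∧ ∀ i ∈ T, e i ⊆ cls E a ∪ cls E w := by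
      refine ⟨insert i (T ∪ T'), KTree.joinC (cls E a) (cls E w) T T' i y z w hT hT' hdA hdT hiT
        hiT' hpyz (mem_cls.2 hay) (mem_cls.2 haz) (mem_cls.2 (E.refl w)) hw, fun j hj => ?_⟩
      rcases Finset.mem_insert.1 hj with rfl | hj
      · intro u hu
        rw [Finset.mem_union, mem_cls, mem_cls]
        rcases three (hc3 j) (hleg.2 j hyp) (hleg.2 j hzp) hw hu hyz hyw hzw with rfl | rfl | rfl
        · exact Or.inl hay
        · exact Or.inl haz
        · exact Or.inr (E.refl _)
      · rcases Finset.mem_union.1 hj with hj | hj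
        · exact (hT1 j hj).trans Finset.subset_union_left
        · exact (hT1' j hj).trans Finset.subset_union_right
    exact haw (max_closed e p E hE hmax Q hQ _ hfil hk (Or.inl (E.refl a)) (Or.inr (E.refl w)))

end Clk

open Clk

theorem clk : CLK := by
  intro B I _ hB _ e p hcard hleg hgen hcl
  obtain ⟨E, hE, hmax⟩ := exists_max e p
  have hA := acl_max e p hcard hleg E hE hmax
  have h1 : cl e p ⊤ ∅ ∅ F0 ≤ E := sInf_le hA
  rw [hcl] at h1
  obtain ⟨b⟩ := hB
  obtain ⟨T, hT, _⟩ := hE b
  have h2 : cls E b = univ := by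
    rw [Finset.eq_univ_iff_forall]
    intro u
    rw [mem_cls]
    exact h1 (show (⊤ : Setoid B) b u from trivial)
  rw [h2] at hT
  exact ⟨p, T, hleg.1, hleg.2, conn_of_gen p hgen, hT⟩

end Sk

end Pool.Agent.ClawHam
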