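import Pool.Agent.Lib.MP_e2dbb5_co.SK2

/-!
# The skeletal lemma: there is an optimal state (row OPT, helper42)
-/

set_option autoImplicit false

open Finset

noncomputable section

namespace Pool.Agent.ClawHam

open Classical

namespace Sk

namespace Opt

variable {B I : Type}

/-- the number of classes -/
def nc (R : Setoid B) : ℕ := Nat.card (Quotient R)

theorem nc_le [Finite B] {R R' : Setoid B} (h : R ≤ R') : nc R' ≤ nc R := by
  unfold nc
  refine Nat.card_le_card_of_surjective (Quotient.map' id fun a b hab => h hab) ?_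
  rintro ⟨b⟩
  exact ⟨Quotient.mk R b, rfl⟩

theorem nc_eq [Finite B] {R R' : Setoid B} (h : R ≤ R') (hc : nc R ≤ nc R') : R' ≤ R := by
  have hs : Function.Surjective (Quotient.map' id fun a b hab => h hab :
      Quotient R → Quotient R') := by
    rintro ⟨b⟩
    exact ⟨Quotient.mk R b, rfl⟩
  have hb := hs.bijective_of_nat_card_le hc
  intro a b hab
  have h1 : (Quotient.map' id fun a b hab => h hab : Quotient R → Quotient R')
      (Quotient.mk R a) = (Quotient.map' id fun a b hab => h hab : Quotient R → Quotient R')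
      (Quotient.mk R b) := Quotient.sound hab
  exact Quotient.exact (hb.1 h1)

theorem nc_lt [Finite B] {R R' : Setoid B} (h : R ≤ R') (hne : R' ≠ R) : nc R' < nc R := by
  by_contra hc
  exact hne (le_antisymm (nc_eq h (not_lt.1 hc)) h)

/-- the potential of the level `n` -/
def pot [Fintype I] (e : I → Finset B) (s : (I → Finset B) × Set I) (n : ℕ) :
    ℕ ×ₗ ℕ ×ₗ ℕ :=
  toLex (nc (Gn e s.1 s.2 n),
    toLex (Fintype.card I - (Dn e s.1 s.2 (n + 1)).ncard, nc (Rn e s.1 s.2 (n + 1))))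

/-- the potential of a state -/
def Pot [Fintype I] (e : I → Finset B) (s : (I → Finset B) × Set I) :
    (Lex (ℕ → ℕ ×ₗ ℕ ×ₗ ℕ)) ×ₗ ℕ :=
  toLex (toLex (pot e s), used s.1)

theorem pot_lt [Fintype I] {e : I → Finset B} {s s' : (I → Finset B) × Set I}
    (h : Pot e s ≤ Pot e s') (k : ℕ) (h1 : ∀ m < k, pot e s' m = pot e s m)
    (h2 : pot e s' k < pot e s k) : False := by
  refine absurd h (not_le_of_gt ?_)
  unfold Pot
  rw [Prod.Lex.toLex_lt_toLex]
  left
  exact ⟨k, fun j hj => h1 j hj, h2⟩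

section

variable [Fintype B] [Fintype I] {e p : I → Finset B} {M : Set I} {p' : I → Finset B}
  {M' : Set I}

omit [Fintype B] in
theorem pot_eq {n : ℕ} (hG : Gn e p' M' n = Gn e p M n)
    (hL : lev e p' M' (n + 1) = lev e p M (n + 1)) : pot e (p', M') n = pot e (p, M) n := by
  unfold pot
  have h1 : Dn e p' M' (n + 1) = Dn e p M (n + 1) := congrArg Prod.snd hL
  have h2 : Rn e p' M' (n + 1) = Rn e p M (n + 1) := congrArg Prod.fst hL
  simp only [hG, h1, h2]

theorem stepG (h : Pot e (p, M) ≤ Pot e (p', M')) (k : ℕ)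
    (hL : ∀ m ≤ k, lev e p' M' m = lev e p M m) (hG : ∀ m < k, Gn e p' M' m = Gn e p M m)
    (hA : HA p p' (Rn e p M k) (Dn e p M k)) :
    gen p' (Rn e p M k) (Dn e p M k) = Gn e p M k ∧ Gn e p' M' k = Gn e p M k := by
  have h1 : Dn e p' M' k = Dn e p M k := congrArg Prod.snd (hL k le_rfl)
  have h2 : Rn e p' M' k = Rn e p M k := congrArg Prod.fst (hL k le_rfl)
  have h3 : Gn e p' M' k = gen p' (Rn e p M k) (Dn e p M k) := by
    unfold Gn
    rw [h1, h2]
  have h4 : Gn e p' M' k = Gn e p M k := by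
    by_contra hne
    refine pot_lt h k (fun m hm => pot_eq (hG m hm) (hL (m + 1) hm)) ?_
    unfold pot
    rw [Prod.Lex.toLex_lt_toLex]
    left
    refine nc_lt ?_ hne
    rw [h3]
    exact hA
  exact ⟨h3 ▸ h4, h4⟩

theorem stepD (h : Pot e (p, M) ≤ Pot e (p', M')) (k : ℕ)
    (hL : ∀ m ≤ k, lev e p' M' m = lev e p M m) (hG : ∀ m < k, Gn e p' M' m = Gn e p M m)
    (hA : HA p p' (Rn e p M k) (Dn e p M k))
    (hB : HB e p M p' M' (Rn e p M k) (Dn e p M k)) :
    Dn e p' M' (k + 1) = Dn e p M (k + 1) := by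
  have h1 : Dn e p' M' k = Dn e p M k := congrArg Prod.snd (hL k le_rfl)
  have h2 : Rn e p' M' k = Rn e p M k := congrArg Prod.fst (hL k le_rfl)
  obtain ⟨h3, h4⟩ := stepG h k hL hG hA
  have h5 : Dn e p M (k + 1) ⊆ Dn e p' M' (k + 1) := by
    rw [Dn_succ, Dn_succ, h1, h2]
    exact Set.union_subset_union_right _ (hB h3)
  by_contra hne
  refine pot_lt h k (fun m hm => pot_eq (hG m hm) (hL (m + 1) hm)) ?_
  unfold pot
  rw [Prod.Lex.toLex_lt_toLex]
  right
  refine ⟨congrArg nc h4, ?_⟩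
  rw [Prod.Lex.toLex_lt_toLex]
  left
  have h6 : (Dn e p M (k + 1)).ncard < (Dn e p' M' (k + 1)).ncard :=
    Set.ncard_lt_ncard (h5.ssubset_of_ne (Ne.symm hne)) (Set.toFinite _)
  have h7 : (Dn e p' M' (k + 1)).ncard ≤ Fintype.card I := by
    rw [← Nat.card_eq_fintype_card]
    exact Set.ncard_le_card _
  show Fintype.card I - (Dn e p' M' (k + 1)).ncard < Fintype.card I - (Dn e p M (k + 1)).ncard
  omega

theorem stepR (h : Pot e (p, M) ≤ Pot e (p', M')) (k : ℕ)
    (hL : ∀ m ≤ k, lev e p' M' m = lev e p M m) (hG : ∀ m < k, Gn e p' M' m = Gn e p M m)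
    (hA : HA p p' (Rn e p M k) (Dn e p M k))
    (hB : HB e p M p' M' (Rn e p M k) (Dn e p M k))
    (hC : HC e p M p' (Rn e p M k) (Dn e p M k)) :
    Rn e p' M' (k + 1) = Rn e p M (k + 1) := by
  obtain ⟨h3, h4⟩ := stepG h k hL hG hA
  have h5 := stepD h k hL hG hA hB
  have h6 : Rn e p M (k + 1) ≤ Rn e p' M' (k + 1) := by
    rw [Rn_succ, Rn_succ, h4, h5]
    exact hC
  by_contra hne
  refine pot_lt h k (fun m hm => pot_eq (hG m hm) (hL (m + 1) hm)) ?_
  unfold pot
  rw [Prod.Lex.toLex_lt_toLex]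
  right
  refine ⟨congrArg nc h4, ?_⟩
  rw [Prod.Lex.toLex_lt_toLex]
  right
  refine ⟨?_, nc_lt h6 hne⟩
  show Fintype.card I - (Dn e p' M' (k + 1)).ncard = Fintype.card I - (Dn e p M (k + 1)).ncard
  rw [h5]

theorem agree (h : Pot e (p, M) ≤ Pot e (p', M')) (k : ℕ)
    (hA : ∀ m < k, HA p p' (Rn e p M m) (Dn e p M m))
    (hB : ∀ m < k, HB e p M p' M' (Rn e p M m) (Dn e p M m))
    (hC : ∀ m < k, HC e p M p' (Rn e p M m) (Dn e p M m)) :
    (∀ m ≤ k, lev e p' M' m = lev e p M m) ∧ (∀ m < k, Gn e p' M' m = Gn e p M m) := by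
  induction k with
  | zero =>
    refine ⟨fun m hm => ?_, fun m hm => absurd hm (Nat.not_lt_zero m)⟩
    obtain rfl : m = 0 := by omega
    rfl
  | succ k ih =>
    obtain ⟨hL, hG⟩ := ih (fun m hm => hA m (by omega)) (fun m hm => hB m (by omega))
      (fun m hm => hC m (by omega))
    have hk : k < k + 1 := Nat.lt_succ_self k
    refine ⟨fun m hm => ?_, fun m hm => ?_⟩
    · rcases Nat.lt_or_eq_of_le hm with hm | rfl
      · exact hL m (by omega)
      · exact Prod.ext (stepR h k hL hG (hA k hk) (hB k hk) (hC k hk))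
          (stepD h k hL hG (hA k hk) (hB k hk))
    · rcases Nat.lt_or_eq_of_le (Nat.le_of_lt_succ hm) with hm | rfl
      · exact hG m hm
      · exact (stepG h m hL hG (hA m hk)).2

end

end Opt

open Opt in
theorem opt : OPT := by
  intro B I _ _ e
  obtain ⟨⟨p, M⟩, hs, hmin⟩ := (univ.filter fun s : (I → Finset B) × Set I =>
    Leg e s.1).exists_min_image (Pot e)
    ⟨(fun _ => ∅, ∅), by
      rw [Finset.mem_filter]
      exact ⟨Finset.mem_univ _, fun i => Or.inl rfl, fun i => Finset.empty_subset _⟩⟩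
  have hle : ∀ (p' : I → Finset B) (M' : Set I), Leg e p' → Pot e (p, M) ≤ Pot e (p', M') :=
    fun p' M' h => hmin (p', M') (by
      rw [Finset.mem_filter]
      exact ⟨Finset.mem_univ _, h⟩)
  refine ⟨p, M, (Finset.mem_filter.1 hs).2, ?_, ?_, ?_, ?_⟩
  · intro p' M' hp' k hA hB hC
    obtain ⟨hL, hG⟩ := agree (hle p' M' hp') k (fun m hm => hA m hm.le) hB hC
    exact (stepG (hle p' M' hp') k hL hG (hA k le_rfl)).1
  · intro p' M' hp' k hA hB hC
    obtain ⟨hL, hG⟩ := agree (hle p' M' hp') k (fun m hm => hA m hm.le)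
      (fun m hm => hB m hm.le) hC
    have h1 := stepD (hle p' M' hp') k hL hG (hA k le_rfl) (hB k le_rfl)
    have h2 : Dn e p' M' k = Dn e p M k := congrArg Prod.snd (hL k le_rfl)
    have h3 : Rn e p' M' k = Rn e p M k := congrArg Prod.fst (hL k le_rfl)
    rw [← h1, Dn_succ, h2, h3]
    exact Set.subset_union_right
  · intro p' M' hp' k hA hB hC
    obtain ⟨hL, hG⟩ := agree (hle p' M' hp') k (fun m hm => hA m hm.le)
      (fun m hm => hB m hm.le) (fun m hm => hC m hm.le)
    have h1 := stepR (hle p' M' hp') k hL hG (hA k le_rfl) (hB k le_rfl) (hC k le_rfl)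
    have h2 := (stepG (hle p' M' hp') k hL hG (hA k le_rfl)).2
    have h3 := stepD (hle p' M' hp') k hL hG (hA k le_rfl) (hB k le_rfl)
    rw [← h1, Rn_succ, h2, h3]
  · intro p' M' hp' hA hB hC
    have h1 := hle p' M' hp'
    have h2 : pot e (p', M') = pot e (p, M) := by
      funext n
      obtain ⟨hL, hG⟩ := agree h1 (n + 1) (fun m _ => hA m) (fun m _ => hB m) (fun m _ => hC m)
      exact pot_eq (hG n (Nat.lt_succ_self n)) (hL (n + 1) le_rfl)
    unfold Pot at h1
    rw [Prod.Lex.toLex_le_toLex] at h1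
    rcases h1 with h1 | h1
    · exact absurd h1 (by
        show ¬ (toLex (pot e (p, M)) < toLex (pot e (p', M')))
        rw [h2]
        exact lt_irrefl _)
    · exact h1.2

end Sk

end Pool.Agent.ClawHam
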