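import Pool.Agent.Lib.MP_e2dbb5_co.SK0

/-!
# The circuit lemma (row CIR), helper5
-/

set_option autoImplicit false

open Finset

noncomputable section

namespace Pool.Agent.ClawHam

open Classical

namespace Sk

/-- `E` and a set whose elements are joined -/
def joinS {B : Type} (E : Setoid B) (P : Set B) : Setoid B where
  r x y := E x y ∨ ((∃ p ∈ P, E x p) ∧ ∃ q ∈ P, E y q)
  iseqv :=
    { refl := fun x => Or.inl (E.refl' x)
      symm := by
        rintro x y (h | ⟨h1, h2⟩)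
        · exact Or.inl (E.symm' h)
        · exact Or.inr ⟨h2, h1⟩
      trans := by
        rintro x y z (h | ⟨h1, h2⟩) (h' | ⟨h1', h2'⟩)
        · exact Or.inl (E.trans' h h')
        · obtain ⟨p, hp, hyp⟩ := h1'
          exact Or.inr ⟨⟨p, hp, E.trans' h hyp⟩, h2'⟩
        · obtain ⟨q, hq, hyq⟩ := h2
          exact Or.inr ⟨h1, ⟨q, hq, E.trans' (E.symm' h') hyq⟩⟩
        · exact Or.inr ⟨h1, h2'⟩ }

theorem le_joinS {B : Type} (E : Setoid B) (P : Set B) : E ≤ joinS E P := fun _ _ h => Or.inl h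

theorem joinS_mem {B : Type} (E : Setoid B) (P : Set B) {p q : B} (hp : p ∈ P) (hq : q ∈ P) :
    joinS E P p q := Or.inr ⟨⟨p, hp, E.refl' p⟩, ⟨q, hq, E.refl' q⟩⟩

theorem sInf_rel {B : Type} {S : Set (Setoid B)} {x y : B} :
    (sInf S) x y ↔ ∀ E ∈ S, E x y := Iff.rfl

/-- the relation generated by `R` and the pairs in `S` -/
def jn {B I : Type} (R : Setoid B) (S : Finset (I × B × B)) : Setoid B :=
  sInf {E : Setoid B | R ≤ E ∧ ∀ s ∈ S, E s.2.1 s.2.2}

theorem jn_le {B I : Type} {R : Setoid B} {S : Finset (I × B × B)} {E : Setoid B} (h1 : R ≤ E)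
    (h2 : ∀ s ∈ S, E s.2.1 s.2.2) : jn R S ≤ E := sInf_le ⟨h1, h2⟩

theorem le_jn {B I : Type} (R : Setoid B) (S : Finset (I × B × B)) : R ≤ jn R S :=
  le_sInf fun _ hE => hE.1

theorem jn_mem {B I : Type} (R : Setoid B) {S : Finset (I × B × B)} {s : I × B × B}
    (hs : s ∈ S) : jn R S s.2.1 s.2.2 := by
  refine sInf_rel.2 fun E hE => ?_
  exact hE.2 s hs

theorem cir : CIR := by
  intro B I _ _ e _ R L g x y hgL hx hy hxy hred
  set Ok : Finset (I × B × B) → Prop := fun S =>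
    (∀ s ∈ S, s.1 ∈ L ∧ s.1 ≠ g ∧ s.2.1 ∈ e s.1 ∧ s.2.2 ∈ e s.1) ∧ jn R S x y with hOk
  have hex : ∃ S, Ok S := by
    refine ⟨univ.filter fun s => s.1 ∈ L ∧ s.1 ≠ g ∧ s.2.1 ∈ e s.1 ∧ s.2.2 ∈ e s.1, ?_, ?_⟩
    · intro s hs
      exact (Finset.mem_filter.1 hs).2
    · refine sInf_rel.1 hred _ ⟨le_jn _ _, fun i hi hig a ha b hb => ?_⟩
      exact jn_mem R (S := univ.filter fun s : I × B × B =>
        s.1 ∈ L ∧ s.1 ≠ g ∧ s.2.1 ∈ e s.1 ∧ s.2.2 ∈ e s.1) (s := (i, a, b))
        (Finset.mem_filter.2 ⟨Finset.mem_univ _, hi, hig, ha, hb⟩)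
  obtain ⟨S, hS, hmin⟩ : ∃ S, Ok S ∧ ∀ S', Ok S' → S.card ≤ S'.card := by
    obtain ⟨S0, hS0⟩ := hex
    obtain ⟨S, h1, h2⟩ := Finset.exists_min_image (univ.filter Ok) Finset.card
      ⟨S0, Finset.mem_filter.2 ⟨Finset.mem_univ _, hS0⟩⟩
    exact ⟨S, (Finset.mem_filter.1 h1).2, fun S' h3 =>
      h2 S' (Finset.mem_filter.2 ⟨Finset.mem_univ _, h3⟩)⟩
  -- without one element the two vertices are not joined
  have hne : ∀ S' : Finset (I × B × B), S' ⊆ S → S' ≠ S → ¬ jn R S' x y := by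
    intro S' h1 h2 h3
    have h4 := hmin S' ⟨fun s hs => hS.1 s (h1 hs), h3⟩
    have h5 := Finset.card_lt_card (Finset.ssubset_iff_subset_ne.2 ⟨h1, h2⟩)
    omega
  -- one pair of every hyperedge
  have huniq : ∀ s ∈ S, ∀ s' ∈ S, s.1 = s'.1 → s = s' := by
    intro s hs s' hs' h1
    by_contra hss
    set S0 := (S.erase s).erase s' with hS0
    have h2 : jn R S ≤ joinS (jn R S0) {b | b ∈ e s.1} := by
      refine jn_le ((le_jn R S0).trans (le_joinS _ _)) fun t ht => ?_
      by_cases h3 : t.1 = s.1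
      · have h4 := hS.1 t ht
        rw [h3] at h4
        exact joinS_mem _ _ h4.2.2.1 h4.2.2.2
      · refine le_joinS _ _ (jn_mem R ?_)
        refine Finset.mem_erase.2 ⟨?_, Finset.mem_erase.2 ⟨?_, ht⟩⟩
        · rintro rfl
          exact h3 h1.symm
        · rintro rfl
          exact h3 rfl
    have hsub : S0 ⊆ S := (Finset.erase_subset _ _).trans (Finset.erase_subset _ _)
    have hcard : S0.card + 2 = S.card := by
      have h5 : s' ∈ S.erase s := Finset.mem_erase.2 ⟨fun h => hss h.symm, hs'⟩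
      have h6 : S0.card + 1 = (S.erase s).card := Finset.card_erase_add_one h5
      have h7 : (S.erase s).card + 1 = S.card := Finset.card_erase_add_one hs
      rw [← h7, ← h6]
    rcases h2 hS.2 with h3 | ⟨⟨p, hp, hxp⟩, ⟨q, hq, hyq⟩⟩
    · refine hne S0 hsub ?_ h3
      intro h
      rw [h] at hcard
      omega
    · have h4 := hmin (insert (s.1, p, q) S0) ⟨?_, ?_⟩
      · have := Finset.card_insert_le (s.1, p, q) S0
        omega
      · intro t ht
        rcases Finset.mem_insert.1 ht with rfl | ht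
        · exact ⟨(hS.1 s hs).1, (hS.1 s hs).2.1, hp, hq⟩
        · exact hS.1 t (hsub ht)
      · have h5 : jn R S0 ≤ jn R (insert (s.1, p, q) S0) :=
          jn_le (le_jn _ _) fun t ht => jn_mem R (Finset.mem_insert_of_mem ht)
        have h6 : jn R (insert (s.1, p, q) S0) p q :=
          jn_mem R (S := insert (s.1, p, q) S0) (s := (s.1, p, q)) (Finset.mem_insert_self _ _)
        exact Setoid.trans' _ (h5 hxp) (Setoid.trans' _ h6 (Setoid.symm' _ (h5 hyq)))
  -- the two vertices are joined through every pair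
  have hthr : ∀ s ∈ S, (jn R (S.erase s) x s.2.1 ∧ jn R (S.erase s) y s.2.2) ∨
      (jn R (S.erase s) x s.2.2 ∧ jn R (S.erase s) y s.2.1) := by
    intro s hs
    have h0 : ¬ jn R (S.erase s) x y := by
      refine hne _ (Finset.erase_subset _ _) ?_
      intro h
      have := Finset.card_erase_add_one hs
      rw [h] at this
      omega
    have h2 : jn R S ≤ joinS (jn R (S.erase s)) {b | b = s.2.1 ∨ b = s.2.2} := by
      refine jn_le ((le_jn R _).trans (le_joinS _ _)) fun t ht => ?_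
      by_cases h3 : t = s
      · subst h3
        exact joinS_mem _ _ (Or.inl rfl) (Or.inr rfl)
      · exact le_joinS _ _ (jn_mem R (Finset.mem_erase.2 ⟨h3, ht⟩))
    rcases h2 hS.2 with h3 | ⟨⟨p, hp, hxp⟩, ⟨q, hq, hyq⟩⟩
    · exact absurd h3 h0
    · rcases hp with rfl | rfl <;> rcases hq with rfl | rfl
      · exact absurd (Setoid.trans' _ hxp (Setoid.symm' _ hyq)) h0
      · exact Or.inl ⟨hxp, hyq⟩
      · exact Or.inr ⟨hxp, hyq⟩
      · exact absurd (Setoid.trans' _ hxp (Setoid.symm' _ hyq)) h0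
  have hneR : ∀ s ∈ S, ¬ R s.2.1 s.2.2 := by
    intro s hs h1
    have h0 : ¬ jn R (S.erase s) x y := by
      refine hne _ (Finset.erase_subset _ _) ?_
      intro h
      have := Finset.card_erase_add_one hs
      rw [h] at this
      omega
    have h2 := le_jn R (S.erase s) h1
    rcases hthr s hs with h3 | h3
    · exact h0 (Setoid.trans' _ h3.1 (Setoid.trans' _ h2 (Setoid.symm' _ h3.2)))
    · exact h0 (Setoid.trans' _ h3.1 (Setoid.trans' _ (Setoid.symm' _ h2) (Setoid.symm' _ h3.2)))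
  -- the chosen pairs
  have hch : ∀ i, ∃ q : B × B, (i = g → q = (x, y)) ∧ ∀ s ∈ S, s.1 = i → q = s.2 := by
    intro i
    by_cases hig : i = g
    · refine ⟨(x, y), fun _ => rfl, fun s hs h => ?_⟩
      exact absurd (h.trans hig) (hS.1 s hs).2.1
    · by_cases h : ∃ s ∈ S, s.1 = i
      · obtain ⟨s, hs, hsi⟩ := h
        refine ⟨s.2, fun h => absurd h hig, fun t ht hti => ?_⟩
        rw [huniq s hs t ht (hsi.trans hti.symm)]
      · exact ⟨(x, y), fun _ => rfl, fun s hs hsi => absurd ⟨s, hs, hsi⟩ h⟩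
  choose q hq1 hq2 using hch
  refine ⟨{i | i = g ∨ ∃ s ∈ S, s.1 = i}, fun i => (q i).1, fun i => (q i).2, Or.inl rfl, ?_, ?_,
    ?_, ?_⟩
  · rintro i (rfl | ⟨s, hs, rfl⟩)
    · exact hgL
    · exact (hS.1 s hs).1
  · show (q g).1 = x
    rw [hq1 g rfl]
  · show (q g).2 = y
    rw [hq1 g rfl]
  · rintro i (rfl | ⟨s, hs, rfl⟩)
    · simp only [hq1 i rfl]
      refine ⟨hx, hy, hxy, ?_⟩
      refine (le_sInf ?_ : jn R S ≤ _) hS.2
      rintro E ⟨hE1, hE2⟩
      refine jn_le hE1 fun s hs => ?_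
      have h1 := hE2 s.1 (Or.inr ⟨s, hs, rfl⟩) (hS.1 s hs).2.1
      simp only [hq2 s.1 s hs rfl] at h1
      exact h1
    · simp only [hq2 s.1 s hs rfl]
      refine ⟨(hS.1 s hs).2.2.1, (hS.1 s hs).2.2.2, hneR s hs, ?_⟩
      refine sInf_rel.2 ?_
      rintro E ⟨hE1, hE2⟩
      have h3 : jn R (S.erase s) ≤ E := by
        refine jn_le hE1 fun t ht => ?_
        have ht' := Finset.mem_erase.1 ht
        have h1 := hE2 t.1 (Or.inr ⟨t, ht'.2, rfl⟩) (fun h => ht'.1 (huniq t ht'.2 s hs h))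
        simp only [hq2 t.1 t ht'.2 rfl] at h1
        exact h1
      have h4 : E x y := by
        have h1 := hE2 g (Or.inl rfl) (fun h => (hS.1 s hs).2.1 h.symm)
        simp only [hq1 g rfl] at h1
        exact h1
      rcases hthr s hs with h5 | h5
      · exact E.trans' (E.symm' (h3 h5.1)) (E.trans' h4 (h3 h5.2))
      · exact E.trans' (E.symm' (h3 h5.2)) (E.trans' (E.symm' h4) (h3 h5.1))

end Sk

end Pool.Agent.ClawHam
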