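import Pool.Agent.Lib.MP_e2dbb5_co.SK3
import Pool.Agent.Lib.MP_e2dbb5_co.SK_CIR

/-!
# In an optimal state the pairs are bridges (row TAC), helper5
-/

set_option autoImplicit false

open Finset

noncomputable section

namespace Pool.Agent.ClawHam

open Classical

namespace Sk

namespace T5

variable {B I : Type}

theorem gen_le {p : I → Finset B} {R : Setoid B} {X : Set I} {E : Setoid B} (h : GCl p R X E) :
    gen p R X ≤ E := sInf_le h

theorem gen_gcl (p : I → Finset B) (R : Setoid B) (X : Set I) : GCl p R X (gen p R X) := by
  intro i hi x hx y hy hxy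
  exact sInf_rel.2 fun E hE => hE i hi x hx y hy hxy

theorem cl_le {e p : I → Finset B} {R : Setoid B} {D X : Set I} {F : B → B → Prop}
    {E : Setoid B} (h : ACl e p R D X F E) : cl e p R D X F ≤ E := sInf_le h

theorem cl_acl (e p : I → Finset B) (R : Setoid B) (D X : Set I) (F : B → B → Prop) :
    ACl e p R D X F (cl e p R D X F) := by
  refine ⟨fun x y h => ?_, fun i hX hD hp x hx y hy hxy => ?_, fun i hX hp hab a ha w hw haw => ?_⟩
  · exact sInf_rel.2 fun E hE => hE.1 x y h
  · exact sInf_rel.2 fun E hE => hE.2.1 i hX hD hp x hx y hy hxy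
  · refine sInf_rel.2 fun E hE => hE.2.2 i hX hp (fun a ha b hb => ?_) a ha w hw haw
    exact sInf_rel.1 (hab a ha b hb) E hE

theorem rn_succ (e p : I → Finset B) (M : Set I) (k : ℕ) :
    Rn e p M (k + 1) = cl e p (Gn e p M k) (Dn e p M (k + 1)) ∅ F0 := rfl

theorem dn_succ (e p : I → Finset B) (M : Set I) (k : ℕ) :
    Dn e p M (k + 1) = Dn e p M k ∪ NewD e p M (Rn e p M k) (Dn e p M k) := rfl

/-- a class of a positive level is closed -/
theorem rn_le_cl (e p : I → Finset B) (M : Set I) (k : ℕ) :
    Rn e p M (k + 1) ≤ cl e p (Rn e p M (k + 1)) (Dn e p M (k + 1)) ∅ F0 := by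
  have hc := cl_acl e p (Gn e p M k) (Dn e p M (k + 1)) ∅ F0
  rw [← rn_succ] at hc
  have hE := cl_acl e p (Rn e p M (k + 1)) (Dn e p M (k + 1)) ∅ F0
  have hle : cl e p (Rn e p M (k + 1)) (Dn e p M (k + 1)) ∅ F0 ≤ Rn e p M (k + 1) :=
    cl_le ⟨fun x y h => h.elim, fun i _ _ _ x _ y _ h => h, fun i _ _ _ a _ w _ h => h⟩
  conv_lhs => rw [rn_succ]
  refine cl_le ⟨fun x y h => h.elim, fun i hX hD hp x hx y hy hxy => ?_,
    fun i hX hp hab a ha w hw haw => ?_⟩
  · exact hE.2.1 i hX hD hp x hx y hy (hc.2.1 i hX hD hp x hx y hy hxy)
  · exact hE.2.2 i hX hp hab a ha w hw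
      (hc.2.2 i hX hp (fun a ha b hb => hle (hab a ha b hb)) a ha w hw haw)

/-- without a used hyperedge inside a class of a positive level, its pair is still joined -/
theorem pair_cl (e p : I → Finset B) (M : Set I) (k : ℕ) (f : I) {x y : B} (hp : p f = {x, y})
    (hR : Rn e p M (k + 1) x y) :
    cl e p (Rn e p M (k + 1)) (Dn e p M (k + 1)) {f} F0 x y := by
  by_contra hxy
  have hC := cl_acl e p (Rn e p M (k + 1)) (Dn e p M (k + 1)) {f} F0
  refine hxy (((rn_le_cl e p M k).trans (cl_le ?_)) hR)
  have hx : x ∈ p f := by rw [hp]; exact Finset.mem_insert_self _ _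
  have hy : y ∈ p f := by rw [hp]; exact Finset.mem_insert_of_mem (Finset.mem_singleton_self _)
  have hne : p f ≠ ∅ := Finset.ne_empty_of_mem hx
  refine ⟨fun x y h => h.elim, fun i hX hD hpi a ha b hb hab => ?_,
    fun i hX hpi hab a ha w hw haw => ?_⟩
  · by_cases hif : i = f
    · exact absurd (hif ▸ hpi) hne
    · exact hC.2.1 i hif hD hpi a ha b hb hab
  · by_cases hif : i = f
    · subst hif
      exact absurd (hab x hx y hy) hxy
    · exact hC.2.2 i hif hpi hab a ha w hw haw

theorem tac_of (h2 : MOD2) (h3 : MOD3) (h3' : MOD3') : TAC := by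
  intro B I _ _ _ e p M he hopt f x hx y hy hxy hred
  obtain ⟨Z, a, b, hfZ, -, haf, hbf, hZ⟩ := cir B I p (fun i => by
    rcases hopt.leg.1 i with h | h
    · rw [h]; simp
    · omega) ⊥ Set.univ f x y (Set.mem_univ _) hx hy (fun h => hxy h) (by
    refine sInf_rel.2 ?_
    rintro E ⟨-, hE⟩
    refine sInf_rel.1 hred E ?_
    intro i hi u hu v hv _
    exact hE i (Set.mem_univ _) hi u hu v hv)
  have hne : ∀ i ∈ Z, a i ≠ b i := fun i hi h => (hZ i hi).2.2.1 h
  have hp : ∀ i ∈ Z, p i = {a i, b i} := by
    intro i hi
    obtain ⟨h4, h5, -⟩ := hZ i hi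
    have hc : (p i).card = 2 := by
      rcases hopt.leg.1 i with h | h
      · rw [h] at h4
        exact absurd h4 (Finset.notMem_empty _)
      · exact h
    symm
    refine Finset.eq_of_subset_of_card_le ?_ ?_
    · intro z hz
      rcases Finset.mem_insert.1 hz with rfl | hz
      · exact h4
      · rw [Finset.mem_singleton.1 hz]
        exact h5
    · rw [hc, Finset.card_pair (hne i hi)]
  have key : ∀ k, (∀ i ∈ Z, i ∉ Dn e p M k ∧ Rn e p M k (a i) (b i)) →
      ∀ i ∈ Z, gen p (Rn e p M k) (Dn e p M k ∪ {i}) (a i) (b i) := by
    intro k hk i hi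
    refine sInf_rel.2 fun E hE => ?_
    refine sInf_rel.1 (hZ i hi).2.2.2 E ⟨bot_le, fun j hj hji => ?_⟩
    refine hE j ?_ (a j) (hZ j hj).1 (b j) (hZ j hj).2.1 (hk j hj).2
    rintro (h | h)
    · exact (hk j hj).1 h
    · exact hji h
  have alive : ∀ k, ∀ i ∈ Z, i ∉ Dn e p M k ∧ Rn e p M k (a i) (b i) := by
    intro k
    induction k with
    | zero => exact fun i _ => ⟨fun h => h, trivial⟩
    | succ k ih =>
      intro i hi
      have hg := key k ih i hi
      have hnd : i ∉ Dn e p M (k + 1) := by
        rw [dn_succ]
        rintro (h | ⟨-, hin, u, hu, v, hv, t, ht, huv, hGuv, hGut, hval⟩)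
        · exact (ih i hi).1 h
        · have htu : t ≠ u := fun h => hGut (h ▸ Setoid.refl' _ _)
          have htv : t ≠ v := fun h => hGut (h ▸ hGuv)
          have hGab : gen p (Rn e p M k) (Dn e p M k) (a i) (b i) :=
            gen_gcl _ _ _ i (ih i hi).1 _ (hZ i hi).1 _ (hZ i hi).2.1 (ih i hi).2
          have hei : e i = {u, v, t} := by
            symm
            refine Finset.eq_of_subset_of_card_le ?_ ?_
            · intro z hz
              rcases Finset.mem_insert.1 hz with rfl | hz
              · exact hu
              · rcases Finset.mem_insert.1 hz with rfl | hz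
                · exact hv
                · rw [Finset.mem_singleton.1 hz]
                  exact ht
            · have : ({u, v, t} : Finset B).card = 3 := by
                rw [Finset.card_eq_three]
                exact ⟨u, v, t, huv, htu.symm, htv.symm, rfl⟩
              rw [this]
              rcases he i with h | h <;> omega
          have hmem : ∀ z ∈ p i, z = u ∨ z = v ∨ z = t := by
            intro z hz
            have := hopt.leg.2 i hz
            rw [hei] at this
            simpa using this
          have hat : a i ≠ t := by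
            intro h
            rcases hmem _ (hZ i hi).2.1 with h4 | h4 | h4
            · exact hGut (by rw [← h, ← h4]; exact Setoid.symm' _ hGab)
            · exact hGut (by
                rw [← h]
                refine Setoid.trans' _ hGuv ?_
                rw [← h4]
                exact Setoid.symm' _ hGab)
            · exact hne i hi (h.trans h4.symm)
          have hbt : b i ≠ t := by
            intro h
            rcases hmem _ (hZ i hi).1 with h4 | h4 | h4
            · exact hGut (by rw [← h, ← h4]; exact hGab)
            · exact hGut (by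
                rw [← h]
                refine Setoid.trans' _ hGuv ?_
                rw [← h4]
                exact hGab)
            · exact hne i hi (h4.trans h.symm)
          have hpuv : p i = {u, v} := by
            rw [hp i hi]
            rcases hmem _ (hZ i hi).1 with h4 | h4 | h4
            · rcases hmem _ (hZ i hi).2.1 with h5 | h5 | h5
              · exact absurd (h4.trans h5.symm) (hne i hi)
              · rw [h4, h5]
              · exact absurd h5 hbt
            · rcases hmem _ (hZ i hi).2.1 with h5 | h5 | h5
              · rw [h4, h5, Finset.pair_comm]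
              · exact absurd (h4.trans h5.symm) (hne i hi)
              · exact absurd h5 hbt
            · exact absurd h4 hat
          have hguv : gen p (Rn e p M k) (Dn e p M k ∪ {i}) u v := by
            have h6 : ({a i, b i} : Finset B) = {u, v} := (hp i hi).symm.trans hpuv
            have h7 : u = a i ∨ u = b i := by
              have : u ∈ ({a i, b i} : Finset B) := by
                rw [h6]; exact Finset.mem_insert_self _ _
              simpa using this
            have h8 : v = a i ∨ v = b i := by
              have : v ∈ ({a i, b i} : Finset B) := by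
                rw [h6]; exact Finset.mem_insert_of_mem (Finset.mem_singleton_self _)
              simpa using this
            rcases h7 with h7 | h7 <;> rcases h8 with h8 | h8
            · exact absurd (h7.trans h8.symm) huv
            · rw [h7, h8]; exact hg
            · rw [h7, h8]; exact Setoid.symm' _ hg
            · exact absurd (h7.trans h8.symm) huv
          refine h2 B I e p M he hopt i k u v t hpuv huv ht htu htv (ih i hi).1 hguv
            (hin u hu t ht) hGut ?_
          intro hk
          obtain ⟨k', rfl⟩ := Nat.exists_eq_succ_of_ne_zero hk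
          have h9 := pair_cl e p M k' i hpuv (hin u hu v hv)
          refine ⟨h9, (cl_le ?_ : cl e p (Rn e p M (k' + 1)) (Dn e p M (k' + 1)) {i} (F1 u v) ≤ _)
            hval⟩
          have h10 := cl_acl e p (Rn e p M (k' + 1)) (Dn e p M (k' + 1)) {i} F0
          refine ⟨?_, h10.2.1, h10.2.2⟩
          rintro x y ⟨rfl, rfl⟩
          exact h9
      exact ⟨hnd, h3 B I e p M he hopt i k (a i) (b i) (hp i hi) (hne i hi) hnd hg⟩
  refine h3' B I e p M he hopt f x y ?_ hxy (fun k => (alive k f hfZ).1) fun k => ?_
  · rw [hp f hfZ, haf, hbf]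
  · have h4 := key k (alive k) f hfZ
    rw [haf, hbf] at h4
    exact h4

end T5

/-- in an optimal state the pairs are bridges -/
theorem tac : TAC := T5.tac_of mod2 mod3 mod3'

end Sk

end Pool.Agent.ClawHam
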