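import Pool.Agent.Lib.MP_e2dbb5_co.SK_FIN
import Pool.Agent.Lib.MP_e2dbb5_co.SK_TAC
import Pool.Agent.Lib.MP_e2dbb5_co.SK_CLK
import Pool.Agent.Lib.MP_e2dbb5_co.SK_OPT

/-!
# The skeletal lemma (helper42)
-/

set_option autoImplicit false

namespace Pool.Agent.ClawHam

namespace Sk

/-- the skeletal lemma: there is a certificate, or a choice of pairs and a relation with at least
two classes such that nothing is redundant and not both sides are connected -/
theorem skel : SKEL := skel_of opt tac clk

end Sk

end Pool.Agent.ClawHam
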