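import Pool.Agent.Lib.MP_e2dbb5_co.FB
import Pool.Agent.Lib.MP_e2dbb5_co.SK_ALL
import Pool.Agent.Lib.MP_e2dbb5_co.SK_SKW81

/-!
# Claw-free graphs with few spots

A spot is a set of four pairwise adjacent vertices one of which has exactly five neighbours, the
two outside the set being adjacent to each other and to no other vertex of the set.
-/

set_option autoImplicit false

open Finset

noncomputable section

namespace Pool.Agent.ClawHam

open Classical

/-- A spot: four pairwise adjacent vertices, one of which has exactly two other neighbours `y`,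
`z`; they are adjacent, and no other vertex of the set is adjacent to one of them. -/
def Spot {V : Type} (G : SimpleGraph V) (Q : Finset V) : Prop :=
  Q.card = 4 ∧ (∀ a ∈ Q, ∀ b ∈ Q, a ≠ b → G.Adj a b) ∧ ∃ v ∈ Q, ∃ y z, y ∉ Q ∧ z ∉ Q ∧
    G.Adj y z ∧ (∀ w, G.Adj v w ↔ (w ∈ Q ∧ w ≠ v) ∨ w = y ∨ w = z) ∧
    ∀ a ∈ Q, a ≠ v → ¬ G.Adj a y ∧ ¬ G.Adj a z

/-- A big cell of degree at most four in a hyperedge with three vertices is a spot. -/
theorem spot_of_cell {V C : Type} [Fintype V] [Fintype C] {G G' : SimpleGraph V}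
    {inc : V → C → Prop} (hle : G ≤ G') (hclaw : ClawFree G) (hcl : Closed G')
    (hK : Krausz G' inc) (hN : NoSmallCut G) (hcut : NoSmallCut G')
    (hnc : ∃ u v, u ≠ v ∧ ¬ G.Adj u v) (hbig : ∀ v, ∃ K, Big inc K ∧ inc v K) {K : C}
    (hbK : Big inc K) (hdeg : (univ.filter fun i => Crosses (hyp inc i) {K}).card ≤ 4)
    (htri : ∃ i, K ∈ hyp inc i ∧ (hyp inc i).card = 3) :
    Spot G (univ.filter fun v => inc v K) := by
  -- the hyperedge comes from a small cell
  obtain ⟨i, hKi, hi3⟩ := htri
  obtain ⟨S, rfl⟩ : ∃ S, i = Sum.inr S := by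
    rcases i with v | S
    · exfalso
      have h1 : 2 < (hyp inc (Sum.inl v)).card := by omega
      obtain ⟨K, h2, L, h3, M, h4, h5, h6, h7⟩ := Finset.two_lt_card.1 h1
      rcases hK.two v K L M (Finset.mem_filter.1 h2).2.2 (Finset.mem_filter.1 h3).2.2
        (Finset.mem_filter.1 h4).2.2 with h | h | h
      · exact h5 h
      · exact h6 h
      · exact h7 h
    · exact ⟨S, rfl⟩
  obtain ⟨hSsmall, -, v, hvS, hvK⟩ := (mem_filter.1 hKi).2
  have hKS : K ≠ S := by
    rintro rfl
    exact hSsmall hbK
  obtain ⟨w₀, hw₀⟩ : ∃ w, ¬ inc w K := by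
    obtain ⟨M, hM, hMK⟩ := Finset.exists_mem_ne (by omega : 1 < (hyp inc (Sum.inr S)).card) K
    obtain ⟨-, hbM, w, hwS, hwM⟩ := (mem_filter.1 hM).2
    refine ⟨w, fun hwK => ?_⟩
    rcases hK.two w K M S hwK hwM hwS with h | h | h
    · exact hMK h.symm
    · exact hKS h
    · rw [h] at hbM
      exact hSsmall hbM
  -- the cell has four vertices
  have hK4 : (univ.filter fun v => inc v K).card ≤ 4 := by
    set D : Finset V := univ.filter fun v => inc v K ∧ ∃ w, ¬ inc w K ∧ G'.Adj v w with hD
    have hD4 : D.card ≤ 4 := by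
      have h1 : ∀ v : V, ∃ i : V ⊕ C, v ∈ D → Crosses (hyp inc i) {K} ∧
          (i = Sum.inl v ∨ ∃ L, i = Sum.inr L ∧ inc v L ∧ ¬ Big inc L) := by
        intro v
        by_cases hv : v ∈ D
        · obtain ⟨hvK, w, hwK, hadj⟩ := (mem_filter.1 hv).2
          obtain ⟨-, L, hvL, hwL⟩ := (hK.adj_iff v w).1 hadj
          have hLK : L ≠ K := by
            rintro rfl
            exact hwK hwL
          by_cases hbL : Big inc L
          · refine ⟨Sum.inl v, fun _ => ⟨⟨⟨K, mem_filter.2 ⟨mem_univ _, hbK, hvK⟩,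
              mem_singleton_self K⟩, L, mem_filter.2 ⟨mem_univ _, hbL, hvL⟩, ?_⟩, Or.inl rfl⟩⟩
            rw [mem_singleton]
            exact hLK
          · obtain ⟨M, hbM, hwM⟩ := hbig w
            refine ⟨Sum.inr L, fun _ => ⟨⟨⟨K, mem_filter.2 ⟨mem_univ _, hbL, hbK, v, hvL, hvK⟩,
              mem_singleton_self K⟩, M, mem_filter.2 ⟨mem_univ _, hbL, hbM, w, hwL, hwM⟩, ?_⟩,
              Or.inr ⟨L, rfl, hvL, hbL⟩⟩⟩
            rw [mem_singleton]
            rintro rfl
            exact hwK hwM
        · exact ⟨Sum.inl v, fun h => absurd h hv⟩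
      choose j hj using h1
      refine (card_le_card_of_injOn j ?_ ?_).trans hdeg
      · intro v hv
        exact mem_filter.2 ⟨mem_univ _, (hj v hv).1⟩
      · intro a ha b hb hab
        have ha' := (hj a ha).2
        have hb' := (hj b hb).2
        by_contra hne
        rcases ha' with ha' | ⟨L, ha', haL, hbL⟩
        · rcases hb' with hb' | ⟨L, hb', -, -⟩
          · rw [ha', hb'] at hab
            exact hne (Sum.inl_injective hab)
          · rw [ha', hb'] at hab
            exact absurd hab Sum.inl_ne_inr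
        · rcases hb' with hb' | ⟨L', hb', hbL', -⟩
          · rw [ha', hb'] at hab
            exact absurd hab Sum.inr_ne_inl
          · rw [ha', hb'] at hab
            have hLL : L = L' := Sum.inr_injective hab
            rw [← hLL] at hbL'
            have h2 := hK.uniq a b K L hne (mem_filter.1 ha).2.1 (mem_filter.1 hb).2.1 haL hbL'
            rw [h2] at hbK
            exact hbL hbK
    have hKD : (univ.filter fun v => inc v K) ⊆ D := by
      intro a ha
      have haK := (mem_filter.1 ha).2
      by_contra haD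
      have h5 := hcut D ((univ.filter fun v => inc v K) \ D) (univ.filter fun v => ¬ inc v K) (by
          intro w
          by_cases h1 : inc w K
          · by_cases h2 : w ∈ D
            · exact Or.inl h2
            · exact Or.inr (Or.inl (mem_sdiff.2 ⟨mem_filter.2 ⟨mem_univ _, h1⟩, h2⟩))
          · exact Or.inr (Or.inr (mem_filter.2 ⟨mem_univ _, h1⟩)))
        (by
          rw [Finset.disjoint_left]
          intro x h1 h2
          exact (mem_filter.1 h2).2 (mem_filter.1 (mem_sdiff.1 h1).1).2)
        (by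
          rw [Finset.disjoint_left]
          intro x h1 h2
          exact (mem_sdiff.1 h1).2 h2)
        (by
          rw [Finset.disjoint_left]
          intro x h1 h2
          exact (mem_filter.1 h1).2 (mem_filter.1 h2).2.1)
        ⟨a, mem_sdiff.2 ⟨ha, haD⟩⟩ ⟨w₀, mem_filter.2 ⟨mem_univ _, hw₀⟩⟩ (by
          intro x hx y hy hxy
          rw [mem_sdiff] at hx
          exact hx.2 (mem_filter.2 ⟨mem_univ _, (mem_filter.1 hx.1).2, y, (mem_filter.1 hy).2,
            hxy⟩))
      omega
    exact (card_le_card hKD).trans hD4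
  have hK4' : (univ.filter fun v => inc v K).card = 4 := le_antisymm hK4 hbK
  -- the neighbours of `v`
  have hvK' : v ∈ univ.filter fun w => inc w K := mem_filter.2 ⟨mem_univ _, hvK⟩
  have hvS' : v ∈ univ.filter fun w => inc w S := mem_filter.2 ⟨mem_univ _, hvS⟩
  have hsub : (univ.filter fun w => G.Adj v w) ⊆
      (univ.filter fun w => inc w K).erase v ∪ (univ.filter fun w => inc w S).erase v := by
    intro w hw
    obtain ⟨hne, M, h1, h2⟩ := (hK.adj_iff v w).1 (hle (mem_filter.1 hw).2)
    rw [mem_union, mem_erase, mem_erase, mem_filter, mem_filter]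
    rcases hK.two v K S M hvK hvS h1 with h | h | h
    · exact absurd h hKS
    · left
      rw [h]
      exact ⟨hne.symm, mem_univ _, h2⟩
    · right
      rw [h]
      exact ⟨hne.symm, mem_univ _, h2⟩
  have h5 := five_le_deg hN hnc v
  have hS3 := C1x.small_card hSsmall
  have hcard := card_union_le ((univ.filter fun w => inc w K).erase v)
    ((univ.filter fun w => inc w S).erase v)
  rw [card_erase_of_mem hvK', card_erase_of_mem hvS'] at hcard
  have hcard2 := card_le_card hsub
  have hS3' : (univ.filter fun w => inc w S).card = 3 := by omega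
  have heq : (univ.filter fun w => G.Adj v w) =
      (univ.filter fun w => inc w K).erase v ∪ (univ.filter fun w => inc w S).erase v :=
    eq_of_subset_of_card_le hsub (by omega)
  have hadj : ∀ w, G.Adj v w ↔ (inc w K ∧ w ≠ v) ∨ (inc w S ∧ w ≠ v) := by
    intro w
    have h1 : w ∈ (univ.filter fun w => G.Adj v w) ↔ w ∈ (univ.filter fun w => inc w K).erase v ∪
      (univ.filter fun w => inc w S).erase v := by rw [heq]
    rw [mem_filter, mem_union, mem_erase, mem_erase, mem_filter, mem_filter] at h1
    constructor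
    · intro h
      rcases h1.1 ⟨mem_univ _, h⟩ with h2 | h2
      · exact Or.inl ⟨h2.2.2, h2.1⟩
      · exact Or.inr ⟨h2.2.2, h2.1⟩
    · intro h
      refine (h1.2 ?_).2
      rcases h with h2 | h2
      · exact Or.inl ⟨h2.2, mem_univ _, h2.1⟩
      · exact Or.inr ⟨h2.2, mem_univ _, h2.1⟩
  have hdis : ∀ w, inc w K → inc w S → w = v := by
    intro w h1 h2
    by_contra hne
    exact hKS (hK.uniq w v K S hne h1 hvK h2 hvS)
  -- no edges of the closure between the two cells
  have hno : ∀ a y, inc a K → a ≠ v → inc y S → y ≠ v → ¬ G'.Adj a y := by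
    intro a y haK hav hyS hyv hay
    have hconn : NbrConn G' v := by
      intro P ⟨c, hc, hPc⟩ ⟨d, hd, hPd⟩
      by_contra hno
      push Not at hno
      have hK1 : ∀ x x', inc x K → x ≠ v → inc x' K → x' ≠ v → P x → P x' := by
        intro x x' h1 h2 h3 h4 hP
        by_contra hP'
        have hne : x ≠ x' := by
          rintro rfl
          exact hP' hP
        exact hno x x' ((hK.adj_iff v x).2 ⟨h2.symm, K, hvK, h1⟩) hP
          ((hK.adj_iff v x').2 ⟨h4.symm, K, hvK, h3⟩) hP' ((hK.adj_iff x x').2 ⟨hne, K, h1, h3⟩)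
      have hS1 : ∀ x x', inc x S → x ≠ v → inc x' S → x' ≠ v → P x → P x' := by
        intro x x' h1 h2 h3 h4 hP
        by_contra hP'
        have hne : x ≠ x' := by
          rintro rfl
          exact hP' hP
        exact hno x x' ((hK.adj_iff v x).2 ⟨h2.symm, S, hvS, h1⟩) hP
          ((hK.adj_iff v x').2 ⟨h4.symm, S, hvS, h3⟩) hP' ((hK.adj_iff x x').2 ⟨hne, S, h1, h3⟩)
      have hva : G'.Adj v a := (hK.adj_iff v a).2 ⟨hav.symm, K, hvK, haK⟩
      have hvy : G'.Adj v y := (hK.adj_iff v y).2 ⟨hyv.symm, S, hvS, hyS⟩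
      have hay' : P a ↔ P y := by
        constructor
        · intro h1
          by_contra h2
          exact hno a y hva h1 hvy h2 hay
        · intro h1
          by_contra h2
          exact hno y a hvy h1 hva h2 hay.symm
      have hall : ∀ x, G'.Adj v x → (P x ↔ P a) := by
        intro x hx
        obtain ⟨hne, M, h1, h2⟩ := (hK.adj_iff v x).1 hx
        rcases hK.two v K S M hvK hvS h1 with h | h | h
        · exact absurd h hKS
        · subst h
          exact ⟨hK1 x a h2 hne.symm haK hav, hK1 a x haK hav h2 hne.symm⟩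
        · subst h
          rw [hay']
          exact ⟨hS1 x y h2 hne.symm hyS hyv, hS1 y x hyS hyv h2 hne.symm⟩
      exact hPd ((hall d hd).2 ((hall c hc).1 hPc))
    have hcomp := hcl v hconn
    -- another vertex of `K`
    obtain ⟨b, hb, hbne⟩ : ∃ b, inc b K ∧ b ≠ v ∧ b ≠ a := by
      have h1 : 2 < (univ.filter fun w => inc w K).card := by omega
      have h2 : 0 < (((univ.filter fun w => inc w K).erase v).erase a).card := by
        have h3 : a ∈ (univ.filter fun w => inc w K).erase v :=
          mem_erase.2 ⟨hav, mem_filter.2 ⟨mem_univ _, haK⟩⟩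
        rw [card_erase_of_mem h3, card_erase_of_mem hvK']
        omega
      obtain ⟨b, hb⟩ := card_pos.1 h2
      rw [mem_erase, mem_erase, mem_filter] at hb
      exact ⟨b, hb.2.2.2, hb.2.1, hb.1⟩
    have hva : G'.Adj v a := (hK.adj_iff v a).2 ⟨hav.symm, K, hvK, haK⟩
    have hvb : G'.Adj v b := (hK.adj_iff v b).2 ⟨hbne.1.symm, K, hvK, hb⟩
    have hvy : G'.Adj v y := (hK.adj_iff v y).2 ⟨hyv.symm, S, hvS, hyS⟩
    have hyK : ¬ inc y K := fun h => hyv (hdis y h hyS)
    have hby : b ≠ y := by
      rintro rfl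
      exact hyK hb
    obtain ⟨-, M, haM, hyM⟩ := (hK.adj_iff a y).1 hay
    obtain ⟨-, M', hbM', hyM'⟩ := (hK.adj_iff b y).1 (hcomp b y hvb hvy hby)
    have hMS : M ≠ S := by
      rintro rfl
      exact hav (hdis a haK haM)
    have hMS' : M' ≠ S := by
      rintro rfl
      exact hbne.1 (hdis b hb hbM')
    have hMM : M = M' := by
      rcases hK.two y S M M' hyS hyM hyM' with h | h | h
      · exact absurd h.symm hMS
      · exact absurd h.symm hMS'
      · exact h
    rw [← hMM] at hbM'
    have h6 := hK.uniq a b K M hbne.2.symm haK hb haM hbM'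
    rw [← h6] at hyM
    exact hyK hyM
  -- the two other vertices of `S`
  have h2 : ((univ.filter fun w => inc w S).erase v).card = 2 := by
    rw [card_erase_of_mem hvS']
    omega
  obtain ⟨y, z, hyz, hyzS⟩ := card_eq_two.1 h2
  have hmem : ∀ w, (inc w S ∧ w ≠ v) ↔ w = y ∨ w = z := by
    intro w
    have h3 : w ∈ (univ.filter fun w => inc w S).erase v ↔ w ∈ ({y, z} : Finset V) := by
      rw [hyzS]
    rw [mem_erase, mem_filter, mem_insert, mem_singleton] at h3
    constructor
    · rintro ⟨h4, h5⟩
      exact h3.1 ⟨h5, mem_univ _, h4⟩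
    · intro h4
      obtain ⟨h5, -, h6⟩ := h3.2 h4
      exact ⟨h6, h5⟩
  obtain ⟨hyS, hyv⟩ := (hmem y).2 (Or.inl rfl)
  obtain ⟨hzS, hzv⟩ := (hmem z).2 (Or.inr rfl)
  have hyK : ¬ inc y K := fun h => hyv (hdis y h hyS)
  have hzK : ¬ inc z K := fun h => hzv (hdis z h hzS)
  have hvy : G.Adj v y := (hadj y).2 (Or.inr ⟨hyS, hyv⟩)
  have hvz : G.Adj v z := (hadj z).2 (Or.inr ⟨hzS, hzv⟩)
  refine ⟨hK4', ?_, v, hvK', y, z, fun h => hyK (mem_filter.1 h).2,
    fun h => hzK (mem_filter.1 h).2, ?_, ?_, ?_⟩
  · intro a ha b hb hab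
    have haK := (mem_filter.1 ha).2
    have hbK := (mem_filter.1 hb).2
    by_cases hav : a = v
    · subst hav
      exact (hadj b).2 (Or.inl ⟨hbK, hab.symm⟩)
    by_cases hbv : b = v
    · subst hbv
      exact ((hadj a).2 (Or.inl ⟨haK, hab⟩)).symm
    have hay : a ≠ y := by
      rintro rfl
      exact hyK haK
    have hby : b ≠ y := by
      rintro rfl
      exact hyK hbK
    rcases hclaw v a b y ((hadj a).2 (Or.inl ⟨haK, hav⟩)) ((hadj b).2 (Or.inl ⟨hbK, hbv⟩)) hvy
      hab hay hby with h | h | h
    · exact h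
    · exact absurd (hle h) (hno a y haK hav hyS hyv)
    · exact absurd (hle h) (hno b y hbK hbv hyS hyv)
  · obtain ⟨a, ha⟩ : ∃ a, inc a K ∧ a ≠ v := by
      have h3 : 0 < ((univ.filter fun w => inc w K).erase v).card := by
        rw [card_erase_of_mem hvK']
        omega
      obtain ⟨a, ha⟩ := card_pos.1 h3
      rw [mem_erase, mem_filter] at ha
      exact ⟨a, ha.2.2, ha.1⟩
    have hay : y ≠ a := by
      rintro rfl
      exact hyK ha.1
    have haz : z ≠ a := by
      rintro rfl
      exact hzK ha.1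
    rcases hclaw v y z a hvy hvz ((hadj a).2 (Or.inl ha)) hyz hay haz with h | h | h
    · exact h
    · exact absurd (hle h.symm) (hno a y ha.1 ha.2 hyS hyv)
    · exact absurd (hle h.symm) (hno a z ha.1 ha.2 hzS hzv)
  · intro w
    rw [hadj w, hmem w, mem_filter]
    constructor
    · rintro (h | h)
      · exact Or.inl ⟨⟨mem_univ _, h.1⟩, h.2⟩
      · exact Or.inr h
    · rintro (h | h)
      · exact Or.inl ⟨h.1.2, h.2⟩
      · exact Or.inr h
  · intro a ha hav
    have haK := (mem_filter.1 ha).2
    exact ⟨fun h => hno a y haK hav hyS hyv (hle h), fun h => hno a z haK hav hzS hzv (hle h)⟩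

/-- The main theorem for graphs with at most `m` spots. -/
theorem mainS (m : ℕ) (hyp' : HypLemmaC m) (V : Type) [Fintype V] [DecidableEq V]
    (G : SimpleGraph V) (hN : NoSmallCut G) (h3 : 3 ≤ Fintype.card V) (hclaw : ClawFree G)
    (hm : (univ.filter fun Q : Finset V => Spot G Q).card ≤ m) :
    G.IsHamiltonian := by
  obtain ⟨G', hle, hcf, hcl, hham⟩ := (rowD2 rowd1) V G hclaw
  refine rowE5 V G (hham ?_)
  have hN' : NoSmallCut G' := by
    intro S A C h1 h2 h4 h5 h6 h7 h8
    exact hN S A C h1 h2 h4 h5 h6 h7 fun a ha c hc hac => h8 a ha c hc (hle hac)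
  by_cases hcomp : ∀ u v, u ≠ v → G'.Adj u v
  · exact ham_of_complete G' h3 hcomp
  push Not at hcomp
  have hcompG : ∃ u v, u ≠ v ∧ ¬ G.Adj u v := by
    obtain ⟨u, v, h1, h2⟩ := hcomp
    exact ⟨u, v, h1, fun h => h2 (hle h)⟩
  have hiso : ∀ v, ∃ w, G'.Adj v w := by
    intro v
    by_contra hno
    push Not at hno
    have h5 := hN' ∅ {v} ({v}ᶜ) (by
        intro w
        simp only [notMem_empty, mem_singleton, mem_compl, false_or]
        exact Classical.em _)
      (by simp) (by simp) (by simp) (singleton_nonempty v)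
      (by
        rw [← card_pos, card_compl, card_singleton]
        omega)
      (by
        intro a ha c _ hac
        rw [mem_singleton] at ha
        rw [ha] at hac
        exact hno c hac)
    simp at h5
  obtain ⟨C, _, inc, hK⟩ := D3.rowD3 V G' hcf hcl hiso
  have hbig := rowc0 V C G' inc hK hN' hcomp
  obtain ⟨hr, hfour⟩ := rowc1 V C G' inc hK hN' hbig
  have heven := rowh5C m hyp' C (V ⊕ C) (bigs inc) (Pool.Agent.ClawHam.hyp inc) hr hfour
    (rowc5 V C G' inc hK hN' hbig) (by
      refine le_trans ?_ hm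
      refine card_le_card_of_injOn (fun K => univ.filter fun v => inc v K) ?_ ?_
      · intro K hKm
        obtain ⟨h2, h4, h5⟩ := (mem_filter.1 hKm).2
        exact mem_filter.2 ⟨mem_univ _, spot_of_cell hle hclaw hcl hK hN hN' hcompG hbig
          (mem_filter.1 h2).2 h4 h5⟩
      · intro K hKm L hLm hKL
        obtain ⟨h2, -, -⟩ := (mem_filter.1 hKm).2
        have hbK : Big inc K := (mem_filter.1 h2).2
        unfold Big at hbK
        obtain ⟨a, ha, b, hb, hab⟩ := one_lt_card.1 (by omega : 1 <
          (univ.filter fun v => inc v K).card)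
        have ha' : a ∈ univ.filter fun v => inc v L := by
          rw [← show (univ.filter fun v => inc v K) = univ.filter fun v => inc v L from hKL]
          exact ha
        have hb' : b ∈ univ.filter fun v => inc v L := by
          rw [← show (univ.filter fun v => inc v K) = univ.filter fun v => inc v L from hKL]
          exact hb
        exact hK.uniq a b K L hab (mem_filter.1 ha).2 (mem_filter.1 hb).2 (mem_filter.1 ha').2
          (mem_filter.1 hb').2)
  have htwo : 2 ≤ (bigs inc).card := by
    by_contra hlt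
    obtain ⟨u, v, huv, hadj⟩ := hcomp
    obtain ⟨K, hK1, hK2⟩ := hbig u
    obtain ⟨L, hL1, hL2⟩ := hbig v
    have hKL : K = L := by
      have h1 : (bigs inc).card ≤ 1 := by omega
      rw [card_le_one] at h1
      exact h1 K (by simp [bigs, hK1]) L (by simp [bigs, hL1])
    exact hadj ((hK.adj_iff u v).2 ⟨huv, K, hK2, by rw [hKL]; exact hL2⟩)
  obtain ⟨F, hF⟩ := rowe1 V C G' inc hK hbig htwo heven
  obtain ⟨σ, hσ1, hσ2⟩ := rowe3 V C inc F hK.two hF (rowe2 V C inc F hK.two hK.ex hF.two hF.even)
  exact E4.rowE4 V G' σ h3 hσ1 fun v hv => (hK.adj_iff v (σ v)).2 ⟨hv, hσ2 v⟩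

/-- the lemma on hypergraphs with at most six vertices of degree four in triples -/
theorem hypLemmaC_six : HypLemmaC 6 := hypLemmaC_of_skw 0 (Sk.skw_of Sk.skel Sk.cnt)

end Pool.Agent.ClawHam
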