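import Pool.Agent.Lib.MP_e2dbb5_co.AG

/-!
# Systems of planes: the algebra of the certificate (helper69, G0)

The ring `RR V`: polynomials over `F_2` in `t_w = (w, false)`, `q_w = (w, true)` modulo squares.
An element of a system is a pair of vectors `(x, y)` (the plane `⟨x, y⟩`; a vector if `y = 0`).
`O (x, y)` is the span of `1, t_x, t_y, q_x, q_y, t_x q_y + t_y q_x, q_x q_y`. A system is a
multiset of elements; `AlgE B₀ s`: the product of the spaces `O` contains an element whose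
coefficient at `∏ t_w q_w`, `w ∈ B₀ - r`, is not zero (for some root `r ∈ B₀`).
-/

set_option autoImplicit false
set_option linter.unusedSectionVars false

open Finset MvPolynomial

noncomputable section

namespace Pool.Agent.ClawHam

open Classical

/-- the ideal of the squares -/
def SqI (V : Type) : Ideal (Ply V) := Ideal.span (Set.range fun i : V × Bool => X i ^ 2)

/-- the ring -/
abbrev RR (V : Type) : Type := Ply V ⧸ SqI V

/-- vectors -/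
abbrev Vec (V : Type) : Type := V → ZMod 2

/-- elements of a system -/
abbrev El (V : Type) : Type := Vec V × Vec V

/-- the class of a polynomial -/
def mk {V : Type} : Ply V →+* RR V := Ideal.Quotient.mk (SqI V)

variable {V : Type} [Fintype V]

/-- `t_x` -/
def TT (x : Vec V) : RR V := mk (AG.lin (AG.tvec x))

/-- `q_x` -/
def QQ (x : Vec V) : RR V := mk (AG.lin (AG.qvec x))

/-- the space of an element -/
def OO (P : El V) : Submodule (ZMod 2) (RR V) :=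
  Submodule.span (ZMod 2) {1, TT P.1, TT P.2, QQ P.1, QQ P.2, TT P.1 * QQ P.2 + TT P.2 * QQ P.1,
    QQ P.1 * QQ P.2}

/-- the product of the spaces -/
def OP (s : Multiset (El V)) : Submodule (ZMod 2) (RR V) := (s.map OO).prod

/-- the monomial `∏ t_w q_w`, `w ∈ A` -/
def mon (A : Finset V) : (V × Bool) →₀ ℕ := AG.sqf (univ.filter fun x : V × Bool => x.1 ∈ A)

/-- the coefficient at `∏ t_w q_w`, `w ∈ A` -/
def top (A : Finset V) (x : RR V) : ZMod 2 :=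
  coeff (mon A) (Function.surjInv (Ideal.Quotient.mk_surjective (I := SqI V)) x)

/-- the certificate with root `r` -/
def AlgAt (B₀ : Finset V) (r : V) (s : Multiset (El V)) : Prop := ∃ x ∈ OP s, top (B₀.erase r) x ≠ 0

/-- the certificate -/
def AlgE (B₀ : Finset V) (s : Multiset (El V)) : Prop := ∃ r ∈ B₀, AlgAt B₀ r s

/-- even vectors on `B₀` -/
def EvenOn (B₀ : Finset V) (x : Vec V) : Prop := (∀ w, w ∉ B₀ → x w = 0) ∧ ∑ w, x w = 0

/-- a system on `B₀` -/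
def Sys (B₀ : Finset V) (s : Multiset (El V)) : Prop :=
  ∀ P ∈ s, EvenOn B₀ P.1 ∧ EvenOn B₀ P.2

/-- `v` does not occur -/
def Free (v : V) (s : Multiset (El V)) : Prop := ∀ P ∈ s, P.1 v = 0 ∧ P.2 v = 0

/-- the vector of a pair of vertices -/
def ev (a b : V) : Vec V := AG.vec (a, b)

/-- identify `a` with `b` (the coordinate `a` is added to the coordinate `b`) -/
def idn (a b : V) (x : Vec V) : Vec V := fun w =>
  if w = a then 0 else if w = b then x b + x a else x w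

/-- identify `a` with `b` -/
def idnE (a b : V) (P : El V) : El V := (idn a b P.1, idn a b P.2)

/-! ### The rows -/

/-- ROOT -/
def RowRoot : Prop := ∀ (V : Type) [Fintype V] (B₀ : Finset V) (s : Multiset (El V)) (r r' : V),
  Sys B₀ s → r ∈ B₀ → r' ∈ B₀ → AlgAt B₀ r s → AlgAt B₀ r' s

/-- MONO: trimming -/
def RowMono : Prop := ∀ (V : Type) [Fintype V] (B₀ : Finset V) (s : Multiset (El V)) (P P' : El V),
  (P'.1 = 0 ∨ P'.1 = P.1 ∨ P'.1 = P.2 ∨ P'.1 = P.1 + P.2) →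
  (P'.2 = 0 ∨ P'.2 = P.1 ∨ P'.2 = P.2 ∨ P'.2 = P.1 + P.2) →
  AlgE B₀ (P' ::ₘ s) → AlgE B₀ (P ::ₘ s)

/-- ELIM2: a vertex in two elements -/
def RowElimA : Prop := ∀ (V : Type) [Fintype V] (B₀ : Finset V) (s : Multiset (El V)) (v : V)
  (p₁ d₁ p₂ d₂ : Vec V), v ∈ B₀ → Free v s → p₁ v = 1 → p₂ v = 1 → d₁ v = 0 → d₂ v = 0 →
  AlgE (B₀.erase v) ((d₁, d₂) ::ₘ s) → AlgE B₀ ((p₁, d₁) ::ₘ (p₂, d₂) ::ₘ s)

/-- ELIM B: three planes and a pair -/
def RowElimB : Prop := ∀ (V : Type) [Fintype V] (B₀ : Finset V) (s : Multiset (El V)) (v : V)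
  (p₁ d₁ p₂ d₂ p₃ d₃ π : Vec V), v ∈ B₀ → Free v s → p₁ v = 1 → p₂ v = 1 → p₃ v = 1 → π v = 1 →
  d₁ v = 0 → d₂ v = 0 → d₃ v = 0 →
  AlgE (B₀.erase v) ((p₁ + π, d₁) ::ₘ (d₂, d₃) ::ₘ s) →
  AlgE B₀ ((p₁, d₁) ::ₘ (p₂, d₂) ::ₘ (p₃, d₃) ::ₘ (π, 0) ::ₘ s)

/-- ELIM C: two planes and two pairs -/
def RowElimC : Prop := ∀ (V : Type) [Fintype V] (B₀ : Finset V) (s : Multiset (El V)) (v : V)
  (p₁ d₁ p₂ d₂ π₁ π₂ : Vec V), v ∈ B₀ → Free v s → p₁ v = 1 → p₂ v = 1 → π₁ v = 1 → π₂ v = 1 →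
  d₁ v = 0 → d₂ v = 0 →
  AlgE (B₀.erase v) ((d₁, 0) ::ₘ (d₂, 0) ::ₘ (π₁ + π₂, 0) ::ₘ s) →
  AlgE B₀ ((p₁, d₁) ::ₘ (p₂, d₂) ::ₘ (π₁, 0) ::ₘ (π₂, 0) ::ₘ s)

/-- ELIM D: a plane and three pairs -/
def RowElimD : Prop := ∀ (V : Type) [Fintype V] (B₀ : Finset V) (s : Multiset (El V)) (v : V)
  (p₁ d₁ π₁ π₂ π₃ : Vec V), v ∈ B₀ → Free v s → p₁ v = 1 → π₁ v = 1 → π₂ v = 1 → π₃ v = 1 →
  d₁ v = 0 →
  AlgE (B₀.erase v) ((p₁ + π₁, d₁) ::ₘ (π₂ + π₃, 0) ::ₘ s) →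
  AlgE B₀ ((p₁, d₁) ::ₘ (π₁, 0) ::ₘ (π₂, 0) ::ₘ (π₃, 0) ::ₘ s)

/-- ELIM E: four pairs -/
def RowElimE : Prop := ∀ (V : Type) [Fintype V] (B₀ : Finset V) (s : Multiset (El V)) (v : V)
  (π₁ π₂ π₃ π₄ : Vec V), v ∈ B₀ → Free v s → π₁ v = 1 → π₂ v = 1 → π₃ v = 1 → π₄ v = 1 →
  AlgE (B₀.erase v) ((π₁ + π₂, 0) ::ₘ (π₃ + π₄, 0) ::ₘ s) →
  AlgE B₀ ((π₁, 0) ::ₘ (π₂, 0) ::ₘ (π₃, 0) ::ₘ (π₄, 0) ::ₘ s)

/-- N1: two parallel pairs -/
def RowN1 : Prop := ∀ (V : Type) [Fintype V] (B₀ : Finset V) (s : Multiset (El V)) (a b : V),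
  Sys B₀ s → a ∈ B₀ → b ∈ B₀ → a ≠ b →
  AlgE (B₀.erase a) (s.map (idnE a b)) → AlgE B₀ ((ev a b, 0) ::ₘ (ev a b, 0) ::ₘ s)

/-- N2: a pair and a plane through it -/
def RowN2 : Prop := ∀ (V : Type) [Fintype V] (B₀ : Finset V) (s : Multiset (El V)) (a b : V)
  (y : Vec V), Sys B₀ s → EvenOn B₀ y → a ∈ B₀ → b ∈ B₀ → a ≠ b →
  AlgE (B₀.erase a) ((idn a b y, 0) ::ₘ s.map (idnE a b)) →
  AlgE B₀ ((ev a b, 0) ::ₘ (ev a b, y) ::ₘ s)

/-- DUAL: two planes through a pair -/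
def RowDual : Prop := ∀ (V : Type) [Fintype V] (B₀ : Finset V) (s : Multiset (El V)) (a b : V)
  (y₁ y₂ : Vec V), Sys B₀ s → EvenOn B₀ y₁ → EvenOn B₀ y₂ → a ∈ B₀ → b ∈ B₀ → a ≠ b →
  AlgE (B₀.erase a) ((idn a b y₁, idn a b y₂) ::ₘ s.map (idnE a b)) →
  AlgE B₀ ((ev a b, y₁) ::ₘ (ev a b, y₂) ::ₘ s)

/-- TWIN: two equal planes are a triangle of vectors -/
def RowTwin : Prop := ∀ (V : Type) [Fintype V] (B₀ : Finset V) (s : Multiset (El V)) (x y : Vec V),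
  AlgE B₀ ((x, 0) ::ₘ (y, 0) ::ₘ (x + y, 0) ::ₘ s) → AlgE B₀ ((x, y) ::ₘ (x, y) ::ₘ s)

/-- identify all vertices of `X` with `b` -/
def idX (X : Finset V) (b : V) (x : Vec V) : Vec V := fun w =>
  if w = b then ∑ u ∈ X, x u else if w ∈ X then 0 else x w

/-- SOLID: a subset of vertices on which the elements inside are `Alg` can be contracted -/
def RowSolid : Prop := ∀ (V : Type) [Fintype V] (B₀ X : Finset V) (s s' : Multiset (El V)) (b : V),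
  Sys X s → Sys B₀ s' → X ⊆ B₀ → b ∈ X → AlgE X s →
  AlgE (insert b (B₀ \ X)) (s'.map fun P => (idX X b P.1, idX X b P.2)) → AlgE B₀ (s + s')

/-- BASE -/
def RowBase : Prop := ∀ (V : Type) [Fintype V] (b : V) (s : Multiset (El V)), AlgE {b} s

/-- the element of a hyperedge with two or three vertices -/
def elOf (e : Finset V) (P : El V) : Prop :=
  (∃ a b, a ≠ b ∧ e = {a, b} ∧ P = (ev a b, 0)) ∨
    ∃ a b c, a ≠ b ∧ a ≠ c ∧ b ≠ c ∧ e = {a, b, c} ∧ P = (ev a b, ev b c)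

/-- BRIDGE: to `AlgC` -/
def RowBridge : Prop := ∀ (V I : Type) [Fintype V] [Fintype I] (e : I → Finset V) (P : I → El V),
  (∀ i, elOf (e i) (P i)) → AlgE univ (univ.val.map P) → AlgC e

end Pool.Agent.ClawHam
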