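import Pool.Agent.Lib.MP_e2dbb5_co.G0

/-!
# Systems of planes: the framework (helper69, G1)
-/

set_option autoImplicit false
set_option linter.unusedSectionVars false

open Finset MvPolynomial

noncomputable section

namespace Pool.Agent.ClawHam

open Classical

namespace G

variable {V : Type}

/-- squarefree coefficients vanish on the ideal of the squares -/
theorem coeff_sqI (p : Ply V) (hp : p ∈ SqI V) :
    ∀ d : (V × Bool) →₀ ℕ, (∀ i, d i ≤ 1) → coeff d p = 0 := by
  unfold SqI at hp
  induction hp using Submodule.span_induction with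
  | mem x hx =>
    obtain ⟨i, rfl⟩ := hx
    intro d hd
    rw [coeff_X_pow, if_neg]
    intro h
    have h1 := hd i
    rw [← h, Finsupp.single_eq_same] at h1
    omega
  | zero => intro d _; exact coeff_zero d
  | add x y _ _ hx hy => intro d hd; rw [coeff_add, hx d hd, hy d hd, add_zero]
  | smul a x _ hx =>
    intro d hd
    rw [smul_eq_mul, coeff_mul]
    refine Finset.sum_eq_zero fun y hy => ?_
    rw [hx y.2 fun i => ?_, mul_zero]
    have h1 := HasAntidiagonal.mem_antidiagonal.1 hy
    have h2 : y.1 i + y.2 i = d i := by rw [← h1]; rfl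
    have h3 := hd i
    omega

theorem mk_surj (x : RR V) : ∃ p : Ply V, mk p = x := Ideal.Quotient.mk_surjective x

theorem mk_eq (p q : Ply V) : mk p = mk q ↔ p - q ∈ SqI V := Ideal.Quotient.eq

theorem mk_X_sq (i : V × Bool) : (mk (X i) : RR V) ^ 2 = 0 := by
  rw [← map_pow]
  exact Ideal.Quotient.eq_zero_iff_mem.2 (Ideal.subset_span ⟨i, rfl⟩)

theorem two_eq_zero : (2 : RR V) = 0 := by
  have h : (2 : Ply V) = 0 := by
    have h1 : (C (2 : ZMod 2) : Ply V) = 2 := map_ofNat C 2
    rw [← h1, show (2 : ZMod 2) = 0 from rfl, C_0]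
  have h2 : (mk (2 : Ply V) : RR V) = 2 := map_ofNat mk 2
  rw [← h2, h, map_zero]

theorem smul_mk (c : ZMod 2) (p : Ply V) : c • (mk p : RR V) = mk (C c * p) := by
  rw [← MvPolynomial.smul_eq_C_mul]
  rfl

variable [Fintype V]

theorem mon_apply (A : Finset V) (i : V × Bool) : mon A i = if i.1 ∈ A then 1 else 0 := by
  unfold mon
  rw [AG.sqf_apply]
  simp

theorem top_mk (A : Finset V) (p : Ply V) : top A (mk p) = coeff (mon A) p := by
  unfold top
  have h1 : mk (Function.surjInv (Ideal.Quotient.mk_surjective (I := SqI V)) (mk p)) = mk p :=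
    Function.surjInv_eq _ _
  have h2 := coeff_sqI _ ((mk_eq _ _).1 h1) (mon A) fun i => by
    rw [mon_apply]
    split_ifs <;> omega
  rw [coeff_sub] at h2
  exact sub_eq_zero.1 h2

theorem top_add (A : Finset V) (x y : RR V) : top A (x + y) = top A x + top A y := by
  obtain ⟨p, rfl⟩ := mk_surj x
  obtain ⟨q, rfl⟩ := mk_surj y
  rw [← map_add, top_mk, top_mk, top_mk, coeff_add]

theorem top_zero (A : Finset V) : top A (0 : RR V) = 0 := by
  rw [← map_zero mk, top_mk, coeff_zero]

theorem top_smul (A : Finset V) (c : ZMod 2) (x : RR V) : top A (c • x) = c * top A x := by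
  obtain ⟨p, rfl⟩ := mk_surj x
  rw [smul_mk, top_mk, top_mk, coeff_C_mul]

/-- the functional as a linear map -/
def topL (A : Finset V) : RR V →ₗ[ZMod 2] ZMod 2 where
  toFun := top A
  map_add' := top_add A
  map_smul' c x := by rw [top_smul]; rfl

/-! ### `t_x` and `q_x` -/

theorem TT_add (x y : Vec V) : TT (x + y) = TT x + TT y := by
  unfold TT
  rw [← map_add, ← AG.lin_add]
  congr 2
  funext i
  simp only [AG.tvec, Pi.add_apply]
  split_ifs
  · rfl
  · rw [add_zero]

theorem QQ_add (x y : Vec V) : QQ (x + y) = QQ x + QQ y := by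
  unfold QQ
  rw [← map_add, ← AG.lin_add]
  congr 2
  funext i
  simp only [AG.qvec, Pi.add_apply]
  split_ifs
  · rfl
  · rw [add_zero]

theorem lin_sq (m : V × Bool → ZMod 2) : (mk (AG.lin m) : RR V) ^ 2 = 0 := by
  have h2 : CharP (RR V) 2 ∨ Subsingleton (RR V) := by
    rcases subsingleton_or_nontrivial (RR V) with h | h
    · exact Or.inr h
    · exact Or.inl (CharTwo.of_one_ne_zero_of_two_eq_zero one_ne_zero two_eq_zero)
  rcases h2 with h2 | h2
  · have := h2
    unfold AG.lin
    rw [map_sum, CharTwo.sum_sq]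
    refine Finset.sum_eq_zero fun i _ => ?_
    rw [map_mul, mul_pow, mk_X_sq, mul_zero]
  · exact Subsingleton.elim _ _

theorem TT_sq (x : Vec V) : TT x ^ 2 = 0 := lin_sq _

theorem QQ_sq (x : Vec V) : QQ x ^ 2 = 0 := lin_sq _

theorem TT_zero : TT (0 : Vec V) = 0 := by
  have h := TT_add (0 : Vec V) 0
  rw [add_zero] at h
  exact (left_eq_add.1 h)

theorem QQ_zero : QQ (0 : Vec V) = 0 := by
  have h := QQ_add (0 : Vec V) 0
  rw [add_zero] at h
  exact (left_eq_add.1 h)

/-! ### membership -/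

theorem one_mem (P : El V) : (1 : RR V) ∈ OO P := Submodule.subset_span (by simp)
theorem t1_mem (P : El V) : TT P.1 ∈ OO P := Submodule.subset_span (by simp)
theorem t2_mem (P : El V) : TT P.2 ∈ OO P := Submodule.subset_span (by simp)
theorem q1_mem (P : El V) : QQ P.1 ∈ OO P := Submodule.subset_span (by simp)
theorem q2_mem (P : El V) : QQ P.2 ∈ OO P := Submodule.subset_span (by simp)
theorem be_mem (P : El V) : TT P.1 * QQ P.2 + TT P.2 * QQ P.1 ∈ OO P :=
  Submodule.subset_span (by simp)
theorem qq_mem (P : El V) : QQ P.1 * QQ P.2 ∈ OO P := Submodule.subset_span (by simp)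

theorem OO_le {P : El V} {S : Submodule (ZMod 2) (RR V)} (h0 : (1 : RR V) ∈ S) (h1 : TT P.1 ∈ S)
    (h2 : TT P.2 ∈ S) (h3 : QQ P.1 ∈ S) (h4 : QQ P.2 ∈ S)
    (h5 : TT P.1 * QQ P.2 + TT P.2 * QQ P.1 ∈ S) (h6 : QQ P.1 * QQ P.2 ∈ S) : OO P ≤ S := by
  unfold OO
  rw [Submodule.span_le]
  rintro x hx
  simp only [Set.mem_insert_iff, Set.mem_singleton_iff] at hx
  rcases hx with rfl | rfl | rfl | rfl | rfl | rfl | rfl <;> assumption

theorem OP_cons (P : El V) (s : Multiset (El V)) : OP (P ::ₘ s) = OO P * OP s := by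
  unfold OP
  rw [Multiset.map_cons, Multiset.prod_cons]

theorem OP_add (s s' : Multiset (El V)) : OP (s + s') = OP s * OP s' := by
  unfold OP
  rw [Multiset.map_add, Multiset.prod_add]

theorem OP_zero : OP (0 : Multiset (El V)) = 1 := rfl

theorem one_mem_OP (s : Multiset (El V)) : (1 : RR V) ∈ OP s := by
  induction s using Multiset.induction_on with
  | empty =>
    rw [OP_zero]
    exact Submodule.one_le.1 le_rfl
  | cons P s ih =>
    rw [OP_cons]
    have h := Submodule.mul_mem_mul (one_mem P) ih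
    rwa [one_mul] at h

/-! ### elements without `v` -/

/-- the subalgebra of the polynomials without the variables of `v` -/
def VF (v : V) : Subalgebra (ZMod 2) (RR V) :=
  (MvPolynomial.supported (ZMod 2) {i : V × Bool | i.1 ≠ v}).map
    (Ideal.Quotient.mkₐ (ZMod 2) (SqI V))

theorem mem_VF {v : V} {x : RR V} : x ∈ VF v ↔
    ∃ p ∈ MvPolynomial.supported (ZMod 2) {i : V × Bool | i.1 ≠ v}, mk p = x := Iff.rfl

theorem lin_mem_VF {v : V} (m : V × Bool → ZMod 2) (h : ∀ b, m (v, b) = 0) :
    mk (AG.lin m) ∈ VF v := by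
  refine mem_VF.2 ⟨AG.lin m, ?_, rfl⟩
  unfold AG.lin
  refine Subalgebra.sum_mem _ fun i _ => ?_
  by_cases hi : i.1 = v
  · have : m i = 0 := by
      obtain ⟨w, b⟩ := i
      simp only at hi
      rw [hi]
      exact h b
    rw [this, C_0, zero_mul]
    exact Subalgebra.zero_mem _
  · exact Subalgebra.mul_mem _ (Subalgebra.algebraMap_mem _ _) (X_mem_supported.2 hi)

theorem TT_VF {v : V} {x : Vec V} (h : x v = 0) : TT x ∈ VF v :=
  lin_mem_VF _ fun b => by
    unfold AG.tvec
    split_ifs
    · exact h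
    · rfl

theorem QQ_VF {v : V} {x : Vec V} (h : x v = 0) : QQ x ∈ VF v :=
  lin_mem_VF _ fun b => by
    unfold AG.qvec
    split_ifs
    · exact h
    · rfl

theorem OO_VF {v : V} {P : El V} (h : P.1 v = 0 ∧ P.2 v = 0) :
    OO P ≤ Subalgebra.toSubmodule (VF v) :=
  OO_le (Subalgebra.one_mem _) (TT_VF h.1) (TT_VF h.2) (QQ_VF h.1) (QQ_VF h.2)
    (Subalgebra.add_mem _ (Subalgebra.mul_mem _ (TT_VF h.1) (QQ_VF h.2))
      (Subalgebra.mul_mem _ (TT_VF h.2) (QQ_VF h.1)))
    (Subalgebra.mul_mem _ (QQ_VF h.1) (QQ_VF h.2))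

theorem OP_VF {v : V} {s : Multiset (El V)} (h : Free v s) :
    OP s ≤ Subalgebra.toSubmodule (VF v) := by
  induction s using Multiset.induction_on with
  | empty =>
    rw [OP_zero, Submodule.one_le]
    exact Subalgebra.one_mem _
  | cons P s ih =>
    rw [OP_cons]
    have h1 := OO_VF (v := v) (h P (Multiset.mem_cons_self P s))
    have h2 := ih fun Q hQ => h Q (Multiset.mem_cons_of_mem hQ)
    refine Submodule.mul_le.2 fun m hm n hn => ?_
    exact Subalgebra.mul_mem _ (h1 hm) (h2 hn)

theorem coeff_supported {v : V} {p : Ply V}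
    (hp : p ∈ MvPolynomial.supported (ZMod 2) {i : V × Bool | i.1 ≠ v})
    (d : (V × Bool) →₀ ℕ) (b : Bool) (hd : d (v, b) ≠ 0) : coeff d p = 0 := by
  by_contra h
  have h1 : d ∈ p.support := mem_support_iff.2 h
  have h2 : (v, b) ∈ p.vars := (mem_vars_iff_mem_support _).2 ⟨d, h1, Finsupp.mem_support_iff.2 hd⟩
  exact (mem_supported.1 hp) h2 rfl

/-- the residue at `v` -/
theorem top_res {v : V} {A : Finset V} (hv : v ∉ A) {n m₁ m₂ m₃ : RR V} (hn : n ∈ VF v)
    (h1 : m₁ ∈ VF v) (h2 : m₂ ∈ VF v) (h3 : m₃ ∈ VF v) :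
    top (insert v A) (mk (X (v, false)) * mk (X (v, true)) * n + mk (X (v, false)) * m₁ +
      mk (X (v, true)) * m₂ + m₃) = top A n := by
  obtain ⟨p, hp, rfl⟩ := mem_VF.1 hn
  obtain ⟨p₁, hp₁, rfl⟩ := mem_VF.1 h1
  obtain ⟨p₂, hp₂, rfl⟩ := mem_VF.1 h2
  obtain ⟨p₃, hp₃, rfl⟩ := mem_VF.1 h3
  simp only [← map_mul, ← map_add]
  rw [top_mk, top_mk, coeff_add, coeff_add, coeff_add]
  have hvf : mon (insert v A) (v, false) = 1 := by rw [mon_apply, if_pos (by simp)]
  have hvt : mon (insert v A) (v, true) = 1 := by rw [mon_apply, if_pos (by simp)]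
  have hsf : (v, false) ∈ (mon (insert v A)).support := by
    rw [Finsupp.mem_support_iff, hvf]
    exact one_ne_zero
  have hst : (v, true) ∈ (mon (insert v A)).support := by
    rw [Finsupp.mem_support_iff, hvt]
    exact one_ne_zero
  have e3 : coeff (mon (insert v A)) p₃ = 0 := coeff_supported hp₃ _ false (by rw [hvf]; omega)
  have e1 : coeff (mon (insert v A)) (X (v, false) * p₁) = 0 := by
    rw [coeff_X_mul', if_pos hsf]
    refine coeff_supported hp₁ _ true ?_
    rw [Finsupp.tsub_apply, hvt, Finsupp.single_apply, if_neg (by simp)]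
    omega
  have e2 : coeff (mon (insert v A)) (X (v, true) * p₂) = 0 := by
    rw [coeff_X_mul', if_pos hst]
    refine coeff_supported hp₂ _ false ?_
    rw [Finsupp.tsub_apply, hvf, Finsupp.single_apply, if_neg (by simp)]
    omega
  have e0 : coeff (mon (insert v A)) (X (v, false) * X (v, true) * p) = coeff (mon A) p := by
    rw [mul_assoc, coeff_X_mul', if_pos hsf, coeff_X_mul', if_pos]
    · congr 1
      ext ⟨w, b⟩
      rw [Finsupp.tsub_apply, Finsupp.tsub_apply, mon_apply, mon_apply, Finsupp.single_apply,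
        Finsupp.single_apply]
      by_cases hw : w = v
      · subst hw
        cases b <;> simp [hv]
      · have hw' : ¬ v = w := fun h => hw h.symm
        simp [hw, hw']
    · rw [Finsupp.mem_support_iff, Finsupp.tsub_apply, hvt, Finsupp.single_apply,
        if_neg (by simp)]
      omega
  rw [e0, e1, e2, e3, add_zero, add_zero, add_zero]

end G

end Pool.Agent.ClawHam
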