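import Pool.Agent.Lib.MP_e2dbb5_co.G0

/-!
# Row BRIDGE: from systems of planes to the certificate `AlgC` (helper87)
-/

set_option autoImplicit false
set_option linter.unusedSectionVars false

open Finset MvPolynomial
open scoped Pointwise

noncomputable section

namespace Pool.Agent.ClawHam

open Classical

namespace GBr

variable {V : Type} [Fintype V]

theorem mon_apply_le (A : Finset V) (x : V × Bool) : mon A x ≤ 1 := by
  unfold mon
  rw [AG.sqf_apply]
  split_ifs <;> omega

/-- squares do not contribute -/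
theorem coeff_sq_mul (A : Finset V) {p : Ply V} (hp : p ∈ SqI V) (a : Ply V) :
    coeff (mon A) (a * p) = 0 := by
  have hp' : p ∈ Submodule.span (Ply V) (Set.range fun i : V × Bool => (X i : Ply V) ^ 2) := hp
  clear hp
  revert a
  induction hp' using Submodule.span_induction with
  | mem x hx =>
    obtain ⟨i, rfl⟩ := hx
    intro a
    have h1 : (X i ^ 2 : Ply V) = monomial (Finsupp.single i 2) 1 := by
      rw [X_pow_eq_monomial]
    change coeff (mon A) (a * (X i ^ 2 : Ply V)) = 0
    rw [h1, coeff_mul_monomial', if_neg]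
    intro h
    have h2 := mon_apply_le A i
    have h3 := h i
    rw [Finsupp.single_eq_same] at h3
    omega
  | zero =>
    intro a
    rw [mul_zero, coeff_zero]
  | add x y _ _ hx hy =>
    intro a
    rw [mul_add, coeff_add, hx, hy, add_zero]
  | smul c x _ hx =>
    intro a
    rw [smul_eq_mul, ← mul_assoc]
    exact hx _

theorem coeff_sq (A : Finset V) {p : Ply V} (hp : p ∈ SqI V) : coeff (mon A) p = 0 := by
  have h := coeff_sq_mul A hp 1
  rwa [one_mul] at h

/-- `top` of the class of a polynomial -/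
theorem top_mk (A : Finset V) (p : Ply V) : top A (mk p) = coeff (mon A) p := by
  unfold top
  have h1 := Function.surjInv_eq (Ideal.Quotient.mk_surjective (I := SqI V)) (mk p)
  have h2 : Function.surjInv (Ideal.Quotient.mk_surjective (I := SqI V)) (mk p) - p ∈ SqI V :=
    Ideal.Quotient.eq.1 h1
  have h3 := coeff_sq A h2
  rw [coeff_sub] at h3
  exact sub_eq_zero.1 h3

theorem mk_surj (x : RR V) : ∃ p : Ply V, mk p = x := Ideal.Quotient.mk_surjective x

theorem top_add (A : Finset V) (x y : RR V) : top A (x + y) = top A x + top A y := by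
  obtain ⟨p, rfl⟩ := mk_surj x
  obtain ⟨q, rfl⟩ := mk_surj y
  rw [← map_add, top_mk, top_mk, top_mk, coeff_add]

theorem top_zero (A : Finset V) : top A (0 : RR V) = 0 := by
  rw [← map_zero (mk (V := V)), top_mk, coeff_zero]

theorem top_smul (A : Finset V) (c : ZMod 2) (x : RR V) : top A (c • x) = c * top A x := by
  have hc : c = 0 ∨ c = 1 := by revert c; decide
  rcases hc with rfl | rfl
  · rw [zero_smul, top_zero, zero_mul]
  · rw [one_smul, one_mul]

/-- a space on which `top` is not zero contains a generator on which it is not zero -/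
theorem exists_gen (A : Finset V) (S : Set (RR V)) {x : RR V}
    (hx : x ∈ Submodule.span (ZMod 2) S) (h : top A x ≠ 0) : ∃ y ∈ S, top A y ≠ 0 := by
  by_contra hcon
  push Not at hcon
  apply h
  clear h
  induction hx using Submodule.span_induction with
  | mem x hx => exact hcon x hx
  | zero => exact top_zero A
  | add x y _ _ hx hy => rw [top_add, hx, hy, add_zero]
  | smul c x _ hx => rw [top_smul, hx, mul_zero]

theorem ev_self (b : V) : (ev b b : Vec V) = 0 := by
  funext v
  exact CharTwo.add_self_eq_zero _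

/-- the three vertices -/
theorem exists_abc {e : Finset V} {P : El V} (h : elOf e P) :
    ∃ a b c, a ∈ e ∧ b ∈ e ∧ c ∈ e ∧ P = (ev a b, ev b c) := by
  rcases h with ⟨a, b, _, rfl, rfl⟩ | ⟨a, b, c, _, _, _, rfl, rfl⟩
  · exact ⟨a, b, b, by simp, by simp, by simp, by rw [ev_self]⟩
  · exact ⟨a, b, c, by simp, by simp, by simp, rfl⟩

theorem TT_ev (a b : V) : TT (ev a b) = mk (tt a b) := by
  unfold TT ev
  rw [AG.lin_tvec]

theorem QQ_ev (a b : V) : QQ (ev a b) = mk (qq a b) := by
  unfold QQ ev
  rw [AG.lin_qvec]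

/-- the generators come from blocks -/
theorem gen_block {e : Finset V} {P : El V} (h : elOf e P) (y : RR V)
    (hy : y ∈ ({1, TT P.1, TT P.2, QQ P.1, QQ P.2, TT P.1 * QQ P.2 + TT P.2 * QQ P.1,
      QQ P.1 * QQ P.2} : Set (RR V))) : ∃ p : Ply V, Block e p ∧ mk p = y := by
  obtain ⟨a, b, c, ha, hb, hc, rfl⟩ := exists_abc h
  simp only [Set.mem_insert_iff, Set.mem_singleton_iff, TT_ev, QQ_ev] at hy
  rcases hy with rfl | rfl | rfl | rfl | rfl | rfl | rfl
  · exact ⟨1, Block.one, map_one _⟩
  · exact ⟨_, Block.t a b ha hb, rfl⟩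
  · exact ⟨_, Block.t b c hb hc, rfl⟩
  · exact ⟨_, Block.q a b ha hb, rfl⟩
  · exact ⟨_, Block.q b c hb hc, rfl⟩
  · exact ⟨_, Block.beta a b c ha hb hc, by rw [map_add, map_mul, map_mul]⟩
  · exact ⟨_, Block.pl a b c ha hb hc, by rw [map_mul]⟩

theorem topM_eq (r : V) : topM r = mon (univ.erase r) := by
  unfold topM mon
  congr 1
  ext x
  simp

end GBr

/-- **Row BRIDGE** -/
theorem rowBridge : RowBridge := by
  intro V I _ _ e P hP hA
  obtain ⟨r, _, x, hx, hx0⟩ := hA
  have h1 : OP (univ.val.map P) = Submodule.span (ZMod 2) (∏ i : I, ({1, TT (P i).1, TT (P i).2,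
      QQ (P i).1, QQ (P i).2, TT (P i).1 * QQ (P i).2 + TT (P i).2 * QQ (P i).1,
      QQ (P i).1 * QQ (P i).2} : Set (RR V))) := by
    rw [← Submodule.prod_span]
    unfold OP
    rw [Multiset.map_map]
    rfl
  rw [h1] at hx
  obtain ⟨y, hy, hy0⟩ := GBr.exists_gen _ _ hx hx0
  obtain ⟨g, hg, rfl⟩ := (Set.mem_finsetProd _ _ _).1 hy
  choose p hp hpg using fun i => GBr.gen_block (hP i) (g i) (hg (mem_univ i))
  refine ⟨r, p, hp, ?_⟩
  rw [GBr.topM_eq, ← GBr.top_mk, map_prod]
  simp only [hpg]
  exact hy0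

end Pool.Agent.ClawHam
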