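import Pool.Agent.Lib.MP_e2dbb5_co.G1

/-!
# Systems of planes: contraction of a pair of vertices (helper25): rows N1, N2, DUAL
-/

set_option autoImplicit false
set_option linter.unusedSectionVars false

open Finset MvPolynomial

noncomputable section

namespace Pool.Agent.ClawHam

open Classical

namespace GD

variable {V : Type}

/-- the variables of the vertices in `S` are `0` -/
def killP (S : Finset V) : Ply V →ₐ[ZMod 2] Ply V := aeval fun i => if i.1 ∈ S then 0 else X i

theorem killP_X (S : Finset V) (i : V × Bool) :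
    killP S (X i) = if i.1 ∈ S then 0 else X i := aeval_X _ i

theorem killP_sqI (S : Finset V) : SqI V ≤ (SqI V).comap (killP S) := by
  unfold SqI
  rw [Ideal.span_le]
  rintro _ ⟨i, rfl⟩
  change killP S (X i ^ 2) ∈ Ideal.span (Set.range fun i : V × Bool => (X i ^ 2 : Ply V))
  rw [map_pow, killP_X]
  split_ifs
  · rw [zero_pow (by norm_num)]
    exact Ideal.zero_mem _
  · exact Ideal.subset_span ⟨i, rfl⟩

/-- the variables of the vertices in `S` are `0` -/
def kill (S : Finset V) : RR V →ₐ[ZMod 2] RR V := Ideal.quotientMapₐ (SqI V) (killP S) (killP_sqI S)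

theorem kill_mk (S : Finset V) (p : Ply V) : kill S (mk p) = mk (killP S p) := rfl

/-- the coordinates in `S` are `0` -/
def zr (S : Finset V) (x : Vec V) : Vec V := fun w => if w ∈ S then 0 else x w

/-- the coordinates in `S` are `0` -/
def zE (S : Finset V) (P : El V) : El V := (zr S P.1, zr S P.2)

variable [Fintype V]

theorem killP_lin (S : Finset V) (m : V × Bool → ZMod 2) :
    killP S (AG.lin m) = AG.lin fun i => if i.1 ∈ S then 0 else m i := by
  unfold AG.lin
  rw [map_sum]
  refine Finset.sum_congr rfl fun i _ => ?_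
  rw [map_mul, killP_X, MvPolynomial.algHom_C]
  change C (m i) * _ = C (if i.1 ∈ S then 0 else m i) * X i
  by_cases h : i.1 ∈ S
  · rw [if_pos h, if_pos h, mul_zero, C_0, zero_mul]
  · rw [if_neg h, if_neg h]

theorem kill_TT (S : Finset V) (x : Vec V) : kill S (TT x) = TT (zr S x) := by
  unfold TT
  rw [kill_mk, killP_lin]
  congr 2
  funext i
  simp only [AG.tvec, zr]
  split_ifs <;> rfl

theorem kill_QQ (S : Finset V) (x : Vec V) : kill S (QQ x) = QQ (zr S x) := by
  unfold QQ
  rw [kill_mk, killP_lin]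
  congr 2
  funext i
  simp only [AG.qvec, zr]
  split_ifs <;> rfl

theorem map_OO (S : Finset V) (P : El V) :
    (OO P).map (kill S).toLinearMap = OO (zE S P) := by
  unfold OO
  rw [Submodule.map_span]
  congr 1
  simp only [Set.image_insert_eq, Set.image_singleton, AlgHom.toLinearMap_apply, map_add, map_mul,
    map_one, kill_TT, kill_QQ]
  rfl

theorem map_OP (S : Finset V) (s : Multiset (El V)) :
    (OP s).map (kill S).toLinearMap = OP (s.map (zE S)) := by
  induction s using Multiset.induction_on with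
  | empty =>
    rw [Multiset.map_zero, G.OP_zero]
    exact Submodule.map_one _
  | cons P s ih => rw [Multiset.map_cons, G.OP_cons, G.OP_cons, Submodule.map_mul, map_OO, ih]

theorem coeff_killP (S A : Finset V) (hA : Disjoint A S) (p : Ply V) :
    coeff (mon A) (killP S p) = coeff (mon A) p := by
  induction p using MvPolynomial.induction_on' with
  | monomial d c =>
    by_cases h : ∃ i ∈ d.support, i.1 ∈ S
    · obtain ⟨i, hi, hiS⟩ := h
      have h1 : killP S (monomial d c) = 0 := by
        unfold killP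
        rw [aeval_monomial, Finsupp.prod, Finset.prod_eq_zero hi, mul_zero]
        rw [if_pos hiS, zero_pow (Finsupp.mem_support_iff.1 hi)]
      rw [h1, coeff_zero, coeff_monomial, if_neg]
      intro h2
      have h3 : mon A i = 0 := by
        rw [G.mon_apply, if_neg]
        intro h4
        exact (Finset.disjoint_left.1 hA h4) hiS
      rw [h2] at hi
      exact (Finsupp.mem_support_iff.1 hi) h3
    · push Not at h
      have h1 : killP S (monomial d c) = monomial d c := by
        unfold killP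
        rw [aeval_monomial, monomial_eq, Finsupp.prod, Finsupp.prod]
        congr 1
        refine Finset.prod_congr rfl fun i hi => ?_
        rw [if_neg (h i hi)]
      rw [h1]
  | add p q hp hq => rw [map_add, coeff_add, coeff_add, hp, hq]

theorem top_kill (S A : Finset V) (hA : Disjoint A S) (x : RR V) :
    top A (kill S x) = top A x := by
  obtain ⟨p, rfl⟩ := G.mk_surj x
  rw [kill_mk, G.top_mk, G.top_mk, coeff_killP S A hA]

/-- elements of the contracted system lift -/
theorem lift (X A : Finset V) (b : V) (L : Vec V → Vec V) (hL : ∀ x, zr {b} (L x) = zr X x)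
    (hbX : b ∈ X) (hA : Disjoint A X) (s : Multiset (El V))
    (h : ∃ x ∈ OP (s.map fun P => (L P.1, L P.2)), top A x ≠ 0) : ∃ y ∈ OP s, top A y ≠ 0 := by
  obtain ⟨x, hx, hxt⟩ := h
  have hAb : Disjoint A {b} := by
    rw [Finset.disjoint_singleton_right]
    intro h1
    exact (Finset.disjoint_left.1 hA h1) hbX
  have h1 : kill {b} x ∈ (OP s).map (kill X).toLinearMap := by
    have h2 : kill {b} x ∈ (OP (s.map fun P => (L P.1, L P.2))).map (kill {b}).toLinearMap :=
      ⟨x, hx, rfl⟩
    rw [map_OP, Multiset.map_map] at h2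
    rw [map_OP]
    have h3 : (zE {b} ∘ fun P : El V => (L P.1, L P.2)) = zE X := by
      funext P
      exact Prod.ext (hL _) (hL _)
    rwa [h3] at h2
  obtain ⟨y, hy, hyx⟩ := h1
  refine ⟨y, hy, ?_⟩
  have h2 : kill X y = kill {b} x := hyx
  rw [← top_kill X A hA, h2, top_kill {b} A hAb]
  exact hxt

theorem top_insert {a : V} {A : Finset V} (ha : a ∉ A) (u : RR V) :
    top (insert a A) (mk (X (a, false)) * mk (X (a, true)) * u) = top A u := by
  obtain ⟨p, rfl⟩ := G.mk_surj u
  rw [← map_mul, ← map_mul, G.top_mk, G.top_mk]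
  have hvf : mon (insert a A) (a, false) = 1 := by rw [G.mon_apply, if_pos (by simp)]
  have hvt : mon (insert a A) (a, true) = 1 := by rw [G.mon_apply, if_pos (by simp)]
  have hsf : (a, false) ∈ (mon (insert a A)).support := by
    rw [Finsupp.mem_support_iff, hvf]
    exact one_ne_zero
  rw [mul_assoc, coeff_X_mul', if_pos hsf, coeff_X_mul', if_pos]
  · congr 1
    ext ⟨w, b⟩
    rw [Finsupp.tsub_apply, Finsupp.tsub_apply, G.mon_apply, G.mon_apply, Finsupp.single_apply,
      Finsupp.single_apply]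
    by_cases hw : w = a
    · subst hw
      cases b <;> simp [ha]
    · have hw' : ¬ a = w := fun h => hw h.symm
      simp [hw, hw']
  · rw [Finsupp.mem_support_iff, Finsupp.tsub_apply, hvt, Finsupp.single_apply, if_neg (by simp)]
    omega

theorem TT_single (a : V) : TT (fun w => if w = a then 1 else 0) = mk (X (a, false)) := by
  unfold TT
  rw [← AG.lin_single]
  congr 2
  funext i
  obtain ⟨w, b⟩ := i
  simp only [AG.tvec, Pi.single_apply, Prod.mk.injEq]
  cases b <;> simp

theorem QQ_single (a : V) : QQ (fun w => if w = a then 1 else 0) = mk (X (a, true)) := by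
  unfold QQ
  rw [← AG.lin_single]
  congr 2
  funext i
  obtain ⟨w, b⟩ := i
  simp only [AG.qvec, Pi.single_apply, Prod.mk.injEq]
  cases b <;> simp

theorem zr_ev {a b : V} (h : a ≠ b) : zr {b} (ev a b) = fun w => if w = a then 1 else 0 := by
  funext w
  simp only [zr, ev, AG.vec, Finset.mem_singleton]
  by_cases h1 : w = b
  · rw [if_pos h1, if_neg (fun h2 => h (h2.symm.trans h1))]
  · rw [if_neg h1, if_neg h1, add_zero]

theorem top_ev {a b : V} {A : Finset V} (hab : a ≠ b) (ha : a ∉ A) (hb : b ∉ A) (y : RR V) :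
    top (insert a A) (TT (ev a b) * QQ (ev a b) * y) = top A y := by
  rw [← top_kill {b} (insert a A) (by simp [hb, hab.symm]), map_mul, map_mul, kill_TT, kill_QQ,
    zr_ev hab, TT_single, QQ_single, top_insert ha, top_kill {b} A (by simp [hb])]

/-! ### the identification -/

theorem zr_idn {a b : V} (x : Vec V) : zr {b} (idn a b x) = zr {a, b} x := by
  funext w
  simp only [zr, idn, Finset.mem_singleton, Finset.mem_insert]
  by_cases h1 : w = b
  · rw [if_pos h1, if_pos (Or.inr h1)]
  · by_cases h2 : w = a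
    · rw [if_neg h1, if_pos h2, if_pos (Or.inl h2)]
    · rw [if_neg h1, if_neg h2, if_neg h1, if_neg (by tauto)]

theorem sum_idn {a b : V} (hab : a ≠ b) (x : Vec V) : ∑ w, idn a b x w = ∑ w, x w := by
  have h1 : ∀ w, idn a b x w = x w + ((if w = a then x a else 0) + if w = b then x a else 0) := by
    intro w
    unfold idn
    by_cases h2 : w = a
    · subst h2
      rw [if_pos rfl, if_pos rfl, if_neg hab, add_zero, CharTwo.add_self_eq_zero]
    · rw [if_neg h2, if_neg h2]
      by_cases h3 : w = b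
      · subst h3
        rw [if_pos rfl, if_pos rfl, zero_add]
      · rw [if_neg h3, if_neg h3, add_zero, add_zero]
  simp only [h1]
  rw [Finset.sum_add_distrib, Finset.sum_add_distrib, Finset.sum_ite_eq' univ a (fun _ => x a),
    Finset.sum_ite_eq' univ b (fun _ => x a), if_pos (mem_univ _), if_pos (mem_univ _),
    CharTwo.add_self_eq_zero, add_zero]

theorem evenOn_idn {a b : V} (hab : a ≠ b) {B₀ : Finset V} (hb : b ∈ B₀) {x : Vec V}
    (hx : EvenOn B₀ x) : EvenOn (B₀.erase a) (idn a b x) := by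
  refine ⟨fun w hw => ?_, ?_⟩
  · unfold idn
    by_cases h1 : w = a
    · rw [if_pos h1]
    · have h2 : w ∉ B₀ := fun h3 => hw (Finset.mem_erase.2 ⟨h1, h3⟩)
      have h4 : ¬ w = b := fun h3 => h2 (by rw [h3]; exact hb)
      rw [if_neg h1, if_neg h4, hx.1 w h2]
  · rw [sum_idn hab, hx.2]

theorem sys_idn {a b : V} (hab : a ≠ b) {B₀ : Finset V} (hb : b ∈ B₀) {s : Multiset (El V)}
    (hs : Sys B₀ s) : Sys (B₀.erase a) (s.map (idnE a b)) := by
  intro P hP
  obtain ⟨Q, hQ, rfl⟩ := Multiset.mem_map.1 hP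
  exact ⟨evenOn_idn hab hb (hs Q hQ).1, evenOn_idn hab hb (hs Q hQ).2⟩

/-- **contraction of a pair of vertices** -/
theorem contract (hR : RowRoot) {B₀ : Finset V} {s s₁ : Multiset (El V)} {a b : V}
    (hs : Sys B₀ s) (ha : a ∈ B₀) (hb : b ∈ B₀) (hab : a ≠ b)
    (h1 : ∀ y ∈ OP s, TT (ev a b) * QQ (ev a b) * y ∈ OP s₁)
    (h : AlgE (B₀.erase a) (s.map (idnE a b))) : AlgE B₀ s₁ := by
  obtain ⟨r, hr, hat⟩ := h
  have hb' : b ∈ B₀.erase a := Finset.mem_erase.2 ⟨hab.symm, hb⟩
  have h2 : AlgAt (B₀.erase a) b (s.map (idnE a b)) :=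
    hR V _ _ r b (sys_idn hab hb hs) hr hb' hat
  have h3 : ∃ y ∈ OP s, top ((B₀.erase a).erase b) y ≠ 0 := by
    refine lift {a, b} _ b (idn a b) (fun x => zr_idn x) (by simp) ?_ s h2
    rw [Finset.disjoint_left]
    intro w hw hw'
    rw [Finset.mem_erase, Finset.mem_erase] at hw
    rw [Finset.mem_insert, Finset.mem_singleton] at hw'
    tauto
  obtain ⟨y, hy, hyt⟩ := h3
  refine ⟨b, hb, TT (ev a b) * QQ (ev a b) * y, h1 y hy, ?_⟩
  have h4 : B₀.erase b = insert a ((B₀.erase a).erase b) := by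
    ext w
    simp only [Finset.mem_erase, Finset.mem_insert]
    constructor
    · rintro ⟨g1, g2⟩
      by_cases h5 : w = a
      · exact Or.inl h5
      · exact Or.inr ⟨g1, h5, g2⟩
    · rintro (rfl | ⟨g1, g2, g3⟩)
      · exact ⟨hab, ha⟩
      · exact ⟨g1, g3⟩
  rw [h4, top_ev hab (by simp) (by simp)]
  exact hyt

end GD

/-- **ROW N1** -/
theorem rowN1 (hR : RowRoot) : RowN1 := by
  intro V _ B₀ s a b hs ha hb hab h
  refine GD.contract hR hs ha hb hab (fun y hy => ?_) h
  rw [G.OP_cons, G.OP_cons, mul_assoc]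
  exact Submodule.mul_mem_mul (G.t1_mem (ev a b, 0)) (Submodule.mul_mem_mul
    (G.q1_mem (ev a b, 0)) hy)

/-- **ROW N2** -/
theorem rowN2 (hR : RowRoot) : RowN2 := by
  intro V _ B₀ s a b y hs hy0 ha hb hab h
  have hs' : Sys B₀ ((y, 0) ::ₘ s) := by
    intro P hP
    rcases Multiset.mem_cons.1 hP with rfl | hP
    · exact ⟨hy0, ⟨fun _ _ => rfl, by simp⟩⟩
    · exact hs P hP
  have h' : AlgE (B₀.erase a) (((y, 0) ::ₘ s).map (idnE a b)) := by
    rw [Multiset.map_cons]
    have e1 : idnE a b (y, (0 : Vec V)) = (idn a b y, 0) := by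
      refine Prod.ext rfl ?_
      funext w
      simp only [idnE, idn, Pi.zero_apply, add_zero]
      split_ifs <;> rfl
    rw [e1]
    exact h
  refine GD.contract hR hs' ha hb hab (fun z hz => ?_) h'
  set c : Vec V := ev a b with hc
  have ht : (TT c : RR V) ^ 2 = 0 := G.TT_sq c
  have m : ∀ u ∈ OO (c, (0 : Vec V)), ∀ v ∈ OO (c, y), ∀ w, u * v = w →
      w ∈ OO (c, (0 : Vec V)) * OO (c, y) := fun u hu v hv w hw => hw ▸ Submodule.mul_mem_mul hu hv
  have m0 : ∀ w : RR V, w = 0 → w ∈ OO (c, (0 : Vec V)) * OO (c, y) := fun w hw =>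
    hw ▸ Submodule.zero_mem _
  have key : OO (y, (0 : Vec V)) ≤ ((OO (c, (0 : Vec V)) * OO (c, y)).comap
      (LinearMap.mulLeft (ZMod 2) (TT c * QQ c))) := by
    refine G.OO_le ?_ ?_ ?_ ?_ ?_ ?_ ?_
    · exact m _ (G.t1_mem (c, (0 : Vec V))) _ (G.q1_mem (c, y)) _ (by
        change TT c * QQ c = TT c * QQ c * 1
        ring)
    · exact m _ (G.t1_mem (c, (0 : Vec V))) _ (G.be_mem (c, y)) _ (by
        change TT c * (TT c * QQ y + TT y * QQ c) = TT c * QQ c * TT y
        linear_combination QQ y * ht)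
    · exact m0 _ (by
        change TT c * QQ c * TT (0 : Vec V) = 0
        rw [G.TT_zero, mul_zero])
    · exact m _ (G.t1_mem (c, (0 : Vec V))) _ (G.qq_mem (c, y)) _ (by
        change TT c * (QQ c * QQ y) = TT c * QQ c * QQ y
        ring)
    · exact m0 _ (by
        change TT c * QQ c * QQ (0 : Vec V) = 0
        rw [G.QQ_zero, mul_zero])
    · exact m0 _ (by
        change TT c * QQ c * (TT y * QQ (0 : Vec V) + TT (0 : Vec V) * QQ y) = 0
        rw [G.TT_zero, G.QQ_zero, mul_zero, zero_mul, add_zero, mul_zero])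
    · exact m0 _ (by
        change TT c * QQ c * (QQ y * QQ (0 : Vec V)) = 0
        rw [G.QQ_zero, mul_zero, mul_zero])
  rw [G.OP_cons] at hz
  rw [G.OP_cons, G.OP_cons]
  have hass : ∀ A B D : Submodule (ZMod 2) (RR V), A * (B * D) = A * B * D := fun A B D =>
    (mul_assoc A B D).symm
  rw [hass]
  induction hz using Submodule.mul_induction_on' with
  | mem_mul_mem m hm n hn =>
    rw [← mul_assoc]
    exact Submodule.mul_mem_mul (key hm) hn
  | add u _ v _ hu hv =>
    rw [mul_add]
    exact Submodule.add_mem _ hu hv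

/-- **ROW DUAL** -/
theorem rowDual (hR : RowRoot) : RowDual := by
  intro V _ B₀ s a b y₁ y₂ hs hy₁ hy₂ ha hb hab h
  have hs' : Sys B₀ ((y₁, y₂) ::ₘ s) := by
    intro P hP
    rcases Multiset.mem_cons.1 hP with rfl | hP
    · exact ⟨hy₁, hy₂⟩
    · exact hs P hP
  have h' : AlgE (B₀.erase a) (((y₁, y₂) ::ₘ s).map (idnE a b)) := by
    rw [Multiset.map_cons]
    exact h
  refine GD.contract hR hs' ha hb hab (fun z hz => ?_) h'
  set c : Vec V := ev a b with hc
  have ht : (TT c : RR V) ^ 2 = 0 := G.TT_sq c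
  have hq : (QQ c : RR V) ^ 2 = 0 := G.QQ_sq c
  have key : OO (y₁, y₂) ≤ ((OO (c, y₁) * OO (c, y₂)).comap
      (LinearMap.mulLeft (ZMod 2) (TT c * QQ c))) := by
    have m : ∀ u ∈ OO (c, y₁), ∀ v ∈ OO (c, y₂), ∀ w, u * v = w →
        w ∈ OO (c, y₁) * OO (c, y₂) := fun u hu v hv w hw => hw ▸ Submodule.mul_mem_mul hu hv
    refine G.OO_le ?_ ?_ ?_ ?_ ?_ ?_ ?_
    · exact m _ (G.t1_mem (c, y₁)) _ (G.q1_mem (c, y₂)) _ (by
        change TT c * QQ c = TT c * QQ c * 1
        ring)
    · exact m _ (G.be_mem (c, y₁)) _ (G.t1_mem (c, y₂)) _ (by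
        change (TT c * QQ y₁ + TT y₁ * QQ c) * TT c = TT c * QQ c * TT y₁
        linear_combination QQ y₁ * ht)
    · exact m _ (G.t1_mem (c, y₁)) _ (G.be_mem (c, y₂)) _ (by
        change TT c * (TT c * QQ y₂ + TT y₂ * QQ c) = TT c * QQ c * TT y₂
        linear_combination QQ y₂ * ht)
    · exact m _ (G.be_mem (c, y₁)) _ (G.q1_mem (c, y₂)) _ (by
        change (TT c * QQ y₁ + TT y₁ * QQ c) * QQ c = TT c * QQ c * QQ y₁
        linear_combination TT y₁ * hq)
    · exact m _ (G.q1_mem (c, y₁)) _ (G.be_mem (c, y₂)) _ (by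
        change QQ c * (TT c * QQ y₂ + TT y₂ * QQ c) = TT c * QQ c * QQ y₂
        linear_combination TT y₂ * hq)
    · exact m _ (G.be_mem (c, y₁)) _ (G.be_mem (c, y₂)) _ (by
        change (TT c * QQ y₁ + TT y₁ * QQ c) * (TT c * QQ y₂ + TT y₂ * QQ c) =
          TT c * QQ c * (TT y₁ * QQ y₂ + TT y₂ * QQ y₁)
        linear_combination QQ y₁ * QQ y₂ * ht + TT y₁ * TT y₂ * hq)
    · exact m _ (G.qq_mem (c, y₁)) _ (G.be_mem (c, y₂)) _ (by
        change QQ c * QQ y₁ * (TT c * QQ y₂ + TT y₂ * QQ c) = TT c * QQ c * (QQ y₁ * QQ y₂)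
        linear_combination QQ y₁ * TT y₂ * hq)
  rw [G.OP_cons] at hz
  rw [G.OP_cons, G.OP_cons]
  have hass : ∀ A B D : Submodule (ZMod 2) (RR V), A * (B * D) = A * B * D := fun A B D =>
    (mul_assoc A B D).symm
  rw [hass]
  induction hz using Submodule.mul_induction_on' with
  | mem_mul_mem m hm n hn =>
    rw [← mul_assoc]
    exact Submodule.mul_mem_mul (key hm) hn
  | add u _ v _ hu hv =>
    rw [mul_add]
    exact Submodule.add_mem _ hu hv

end Pool.Agent.ClawHam
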