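import Pool.Agent.Lib.MP_e2dbb5_co.GElimC

/-!
# Systems of planes: the universal eliminations (helper69, GElim)
-/

set_option autoImplicit false
set_option linter.unusedSectionVars false
set_option linter.unusedVariables false

open Finset MvPolynomial

noncomputable section

namespace Pool.Agent.ClawHam

open Classical

namespace G

variable {V : Type} [Fintype V]

/-! ### the general elimination -/

theorem vec_add_self (x : Vec V) : x + x = 0 := by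
  funext w
  exact CharTwo.add_self_eq_zero (x w)

theorem TT_single (v : V) : TT (Pi.single v 1 : Vec V) = mk (X (v, false)) := by
  unfold TT
  congr 1
  rw [← AG.lin_single]
  congr 1
  funext i
  obtain ⟨w, b⟩ := i
  cases b
  · by_cases h : w = v
    · subst h; simp [AG.tvec]
    · simp [AG.tvec, h]
  · simp [AG.tvec]

theorem QQ_single (v : V) : QQ (Pi.single v 1 : Vec V) = mk (X (v, true)) := by
  unfold QQ
  congr 1
  rw [← AG.lin_single]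
  congr 1
  funext i
  obtain ⟨w, b⟩ := i
  cases b
  · simp [AG.qvec]
  · by_cases h : w = v
    · subst h; simp [AG.qvec]
    · simp [AG.qvec, h]

theorem base_split {v : V} {π : Vec V} (hπ : π v = 1) :
    ∃ x ∈ VF v, ∃ y ∈ VF v, TT π = mk (X (v, false)) + x ∧ QQ π = mk (X (v, true)) + y := by
  have h0 : (π + Pi.single v 1 : Vec V) v = 0 := by
    rw [Pi.add_apply, hπ, Pi.single_eq_same]
    exact CharTwo.add_self_eq_zero 1
  have h1 : π = Pi.single v 1 + (π + Pi.single v 1) := by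
    rw [add_comm π, ← add_assoc, vec_add_self, zero_add]
  refine ⟨TT (π + Pi.single v 1), TT_VF h0, QQ (π + Pi.single v 1), QQ_VF h0, ?_, ?_⟩
  · rw [← TT_single, ← TT_add, ← h1]
  · rw [← QQ_single, ← QQ_add, ← h1]

/-- the general elimination at `v` -/
theorem elim {v : V} {B₀ : Finset V} {N E : Submodule (ZMod 2) (RR V)} {s : Multiset (El V)}
    (hs : Free v s) (hv : v ∈ B₀) {π : Vec V} (hπ : π v = 1) (hN : N ≤ Lf v (TT π) (QQ π) E)
    {r : V} (hr : r ∈ B₀.erase v) {x : RR V} (hx : x ∈ N * OP s)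
    (ht : top ((B₀.erase v).erase r) x ≠ 0) :
    ∃ y ∈ E * OP s, top (B₀.erase r) y ≠ 0 := by
  have key : ∀ x ∈ N * OP s, x ∈ Lf v (TT π) (QQ π) (E * OP s) := by
    intro x hx
    induction hx using Submodule.mul_induction_on' with
    | mem_mul_mem n hn z hz =>
      obtain ⟨h0, e, he, m₁, h1, m₂, h2, m₃, h3, h⟩ := hN hn
      have hz' : z ∈ VF v := OP_VF hs hz
      refine Lf_mk (e := e * z) (m₁ := m₁ * z) (m₂ := m₂ * z) (m₃ := m₃ * z)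
        (Subalgebra.mul_mem _ h0 hz') (Submodule.mul_mem_mul he hz) (Subalgebra.mul_mem _ h1 hz')
        (Subalgebra.mul_mem _ h2 hz') (Subalgebra.mul_mem _ h3 hz') ?_
      rw [h]
      ring
    | add x hx y hy hx' hy' => exact Submodule.add_mem _ hx' hy'
  obtain ⟨h0, e, he, m₁, h1, m₂, h2, m₃, h3, h⟩ := key x hx
  obtain ⟨p, hp, q, hq, hT, hQ⟩ := base_split hπ
  refine ⟨e, he, ?_⟩
  have hvr : r ≠ v := Finset.ne_of_mem_erase hr
  have hins : B₀.erase r = insert v ((B₀.erase v).erase r) := by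
    ext w
    simp only [Finset.mem_insert, Finset.mem_erase]
    constructor
    · rintro ⟨h1, h2⟩
      by_cases h3 : w = v
      · exact Or.inl h3
      · exact Or.inr ⟨h1, h3, h2⟩
    · rintro (h1 | ⟨h1, -, h2⟩)
      · exact ⟨h1 ▸ hvr.symm, h1 ▸ hv⟩
      · exact ⟨h1, h2⟩
  have hexp : e = mk (X (v, false)) * mk (X (v, true)) * x +
      mk (X (v, false)) * (q * x + m₁) + mk (X (v, true)) * (p * x + m₂) +
      (p * q * x + p * m₁ + q * m₂ + m₃) := by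
    rw [h, hT, hQ]
    ring
  rw [hins, hexp, top_res (by simp) h0]
  · exact ht
  · exact Subalgebra.add_mem _ (Subalgebra.mul_mem _ hq h0) h1
  · exact Subalgebra.add_mem _ (Subalgebra.mul_mem _ hp h0) h2
  · exact Subalgebra.add_mem _ (Subalgebra.add_mem _ (Subalgebra.add_mem _
      (Subalgebra.mul_mem _ (Subalgebra.mul_mem _ hp hq) h0) (Subalgebra.mul_mem _ hp h1))
      (Subalgebra.mul_mem _ hq h2)) h3

theorem TT_move (p π : Vec V) : TT p = TT π + TT (p + π) := by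
  rw [← TT_add, add_comm p π, ← add_assoc, vec_add_self, zero_add]

theorem QQ_move (p π : Vec V) : QQ p = QQ π + QQ (p + π) := by
  rw [← QQ_add, add_comm p π, ← add_assoc, vec_add_self, zero_add]

theorem add_zero_at {v : V} {p π : Vec V} (hp : p v = 1) (hπ : π v = 1) : (p + π) v = 0 := by
  rw [Pi.add_apply, hp, hπ]
  exact CharTwo.add_self_eq_zero 1

theorem plD {v : V} {p d π : Vec V} (hp : p v = 1) (hπ : π v = 1) (hd : d v = 0) :
    PlD v (TT π) (QQ π) (OO (p, d)) (TT (p + π)) (QQ (p + π)) (TT d) (QQ d) where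
  fa := TT_VF (add_zero_at hp hπ)
  fb := QQ_VF (add_zero_at hp hπ)
  fc := TT_VF hd
  fg := QQ_VF hd
  x1 := one_mem _
  xt := by rw [← TT_move]; exact t1_mem (p, d)
  xq := by rw [← QQ_move]; exact q1_mem (p, d)
  xc := t2_mem (p, d)
  xg := q2_mem (p, d)
  xB := by rw [← TT_move, ← QQ_move]; exact be_mem (p, d)
  xQ := by rw [← QQ_move]; exact qq_mem (p, d)

theorem prD {v : V} {p π : Vec V} (hp : p v = 1) (hπ : π v = 1) :
    PrD v (TT π) (QQ π) (OO (p, 0)) (TT (p + π)) (QQ (p + π)) where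
  fs := TT_VF (add_zero_at hp hπ)
  fu := QQ_VF (add_zero_at hp hπ)
  x1 := one_mem _
  xt := by rw [← TT_move]; exact t1_mem (p, 0)
  xq := by rw [← QQ_move]; exact q1_mem (p, 0)

theorem sub_assoc (A B C : Submodule (ZMod 2) (RR V)) : A * B * C = A * (B * C) :=
  mul_assoc A B C

theorem OP_cons2 (P Q : El V) (s : Multiset (El V)) :
    OP (P ::ₘ Q ::ₘ s) = OO P * OO Q * OP s := by
  rw [OP_cons, OP_cons]
  exact (sub_assoc _ _ _).symm

theorem OP_cons3 (P Q R : El V) (s : Multiset (El V)) :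
    OP (P ::ₘ Q ::ₘ R ::ₘ s) = OO P * (OO Q * OO R) * OP s := by
  rw [OP_cons, OP_cons2]
  exact (sub_assoc _ _ _).symm

theorem OP_cons4 (P Q R T : El V) (s : Multiset (El V)) :
    OP (P ::ₘ Q ::ₘ R ::ₘ T ::ₘ s) = OO P * OO Q * OO R * OO T * OP s := by
  rw [OP_cons, OP_cons, OP_cons2, sub_assoc, sub_assoc, sub_assoc, sub_assoc]

theorem OO_eq (x y : Vec V) : OO (x, y) = Submodule.span (ZMod 2) {1, TT x, TT y, QQ x, QQ y,
    TT x * QQ y + TT y * QQ x, QQ x * QQ y} := rfl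

theorem OO_vec (x : Vec V) : OO (x, 0) = Submodule.span (ZMod 2) {1, TT x, QQ x} := by
  apply le_antisymm
  · have h0 : (0 : RR V) ∈ Submodule.span (ZMod 2) ({1, TT x, QQ x} : Set (RR V)) :=
      Submodule.zero_mem _
    refine OO_le (Submodule.subset_span (by simp)) (Submodule.subset_span (by simp)) ?_
      (Submodule.subset_span (by simp)) ?_ ?_ ?_
    · change TT 0 ∈ _
      rw [TT_zero]; exact h0
    · change QQ 0 ∈ _
      rw [QQ_zero]; exact h0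
    · change TT x * QQ 0 + TT 0 * QQ x ∈ _
      rw [TT_zero, QQ_zero, mul_zero, zero_mul, add_zero]; exact h0
    · change QQ x * QQ 0 ∈ _
      rw [QQ_zero, mul_zero]; exact h0
  · rw [Submodule.span_le]
    rintro z hz
    simp only [Set.mem_insert_iff, Set.mem_singleton_iff] at hz
    rcases hz with rfl | rfl | rfl
    · exact one_mem _
    · exact t1_mem (x, 0)
    · exact q1_mem (x, 0)

theorem span_mul_le {A B : Set (RR V)} {S : Submodule (ZMod 2) (RR V)}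
    (h : ∀ m ∈ A, ∀ n ∈ B, m * n ∈ S) :
    Submodule.span (ZMod 2) A * Submodule.span (ZMod 2) B ≤ S := by
  rw [Submodule.span_mul_span, Submodule.span_le]
  rintro _ ⟨m, hm, n, hn, rfl⟩
  exact h m hm n hn

theorem rowElimA : RowElimA := by
  intro V _ B₀ s v p₁ d₁ p₂ d₂ hv hs hp₁ hp₂ hd₁ hd₂ ⟨r, hr, x, hx, ht⟩
  rw [OP_cons] at hx
  have hN : OO (d₁, d₂) ≤ Lf v (TT p₁) (QQ p₁) (OO (p₁, d₁) * OO (p₂, d₂)) := by
    rw [OO_eq d₁ d₂, Submodule.span_le]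
    exact coreA (TT_sq _) (QQ_sq _) two_eq_zero (TT_VF hd₁) (QQ_VF hd₁) (one_mem _)
      (t1_mem (p₁, d₁)) (q1_mem (p₁, d₁)) (t2_mem (p₁, d₁)) (q2_mem (p₁, d₁)) (be_mem (p₁, d₁))
      (qq_mem (p₁, d₁)) (plD hp₂ hp₁ hd₂)
  obtain ⟨y, hy, hy'⟩ := elim hs hv hp₁ hN hr hx ht
  refine ⟨r, Finset.mem_of_mem_erase hr, y, ?_, hy'⟩
  rw [OP_cons2]
  exact hy

theorem rowElimB : RowElimB := by
  intro V _ B₀ s v p₁ d₁ p₂ d₂ p₃ d₃ π hv hs hp₁ hp₂ hp₃ hπ hd₁ hd₂ hd₃ ⟨r, hr, x, hx, ht⟩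
  rw [OP_cons2] at hx
  have hN : OO (p₁ + π, d₁) * OO (d₂, d₃) ≤ Lf v (TT π) (QQ π)
      (OO (p₁, d₁) * OO (p₂, d₂) * OO (p₃, d₃) * OO (π, 0)) := by
    rw [OO_eq (p₁ + π) d₁, OO_eq d₂ d₃]
    refine span_mul_le ?_
    exact coreB (TT_sq _) (QQ_sq _) two_eq_zero (plD hp₁ hπ hd₁) (plD hp₂ hπ hd₂)
      (plD hp₃ hπ hd₃) (one_mem _) (t1_mem (π, 0)) (q1_mem (π, 0))
  obtain ⟨y, hy, hy'⟩ := elim hs hv hπ hN hr hx ht
  refine ⟨r, Finset.mem_of_mem_erase hr, y, ?_, hy'⟩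
  rw [OP_cons4]
  exact hy

theorem rowElimC : RowElimC := by
  intro V _ B₀ s v p₁ d₁ p₂ d₂ π₁ π₂ hv hs hp₁ hp₂ hπ₁ hπ₂ hd₁ hd₂ ⟨r, hr, x, hx, ht⟩
  rw [OP_cons3] at hx
  have hN : OO (d₁, 0) * (OO (d₂, 0) * OO (π₁ + π₂, 0)) ≤ Lf v (TT π₁) (QQ π₁)
      (OO (p₁, d₁) * OO (p₂, d₂) * OO (π₁, 0) * OO (π₂, 0)) := by
    rw [OO_vec d₁, OO_vec d₂, OO_vec (π₁ + π₂), Submodule.span_mul_span]
    refine span_mul_le ?_
    rintro m hm _ ⟨n, hn, k, hk, rfl⟩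
    have h4 : PrD v (TT π₁) (QQ π₁) (OO (π₂, 0)) (TT (π₁ + π₂)) (QQ (π₁ + π₂)) := by
      rw [add_comm π₁ π₂]
      exact prD hπ₂ hπ₁
    exact coreC (TT_sq _) (QQ_sq _) two_eq_zero (plD hp₁ hπ₁ hd₁) (plD hp₂ hπ₁ hd₂)
      (one_mem _) (t1_mem (π₁, 0)) (q1_mem (π₁, 0)) h4 m hm n hn k hk
  obtain ⟨y, hy, hy'⟩ := elim hs hv hπ₁ hN hr hx ht
  refine ⟨r, Finset.mem_of_mem_erase hr, y, ?_, hy'⟩
  rw [OP_cons4]
  exact hy

theorem TT_two (π π₁ π₂ : Vec V) : TT (π₁ + π₂) = TT (π₁ + π) + TT (π₂ + π) := by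
  rw [← TT_add]
  congr 1
  have h := vec_add_self π
  calc π₁ + π₂ = π₁ + π₂ + 0 := (add_zero _).symm
    _ = π₁ + π₂ + (π + π) := by rw [h]
    _ = (π₁ + π) + (π₂ + π) := by abel

theorem QQ_two (π π₁ π₂ : Vec V) : QQ (π₁ + π₂) = QQ (π₁ + π) + QQ (π₂ + π) := by
  rw [← QQ_add]
  congr 1
  have h := vec_add_self π
  calc π₁ + π₂ = π₁ + π₂ + 0 := (add_zero _).symm
    _ = π₁ + π₂ + (π + π) := by rw [h]
    _ = (π₁ + π) + (π₂ + π) := by abel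

theorem rowElimD : RowElimD := by
  intro V _ B₀ s v p₁ d₁ π₁ π₂ π₃ hv hs hp₁ hπ₁ hπ₂ hπ₃ hd₁ ⟨r, hr, x, hx, ht⟩
  rw [OP_cons2] at hx
  have hN : OO (p₁ + π₁, d₁) * OO (π₂ + π₃, 0) ≤ Lf v (TT π₁) (QQ π₁)
      (OO (p₁, d₁) * OO (π₁, 0) * OO (π₂, 0) * OO (π₃, 0)) := by
    rw [OO_eq (p₁ + π₁) d₁, OO_vec (π₂ + π₃), TT_two π₁ π₂ π₃, QQ_two π₁ π₂ π₃]
    refine span_mul_le ?_
    exact coreD (TT_sq _) (QQ_sq _) two_eq_zero (plD hp₁ hπ₁ hd₁) (one_mem _)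
      (t1_mem (π₁, 0)) (q1_mem (π₁, 0)) (prD hπ₂ hπ₁) (prD hπ₃ hπ₁)
  obtain ⟨y, hy, hy'⟩ := elim hs hv hπ₁ hN hr hx ht
  refine ⟨r, Finset.mem_of_mem_erase hr, y, ?_, hy'⟩
  rw [OP_cons4]
  exact hy

theorem rowElimE : RowElimE := by
  intro V _ B₀ s v π₁ π₂ π₃ π₄ hv hs hπ₁ hπ₂ hπ₃ hπ₄ ⟨r, hr, x, hx, ht⟩
  rw [OP_cons2] at hx
  have hN : OO (π₁ + π₂, 0) * OO (π₃ + π₄, 0) ≤ Lf v (TT π₁) (QQ π₁)
      (OO (π₁, 0) * OO (π₂, 0) * OO (π₃, 0) * OO (π₄, 0)) := by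
    rw [OO_vec (π₁ + π₂), OO_vec (π₃ + π₄), TT_two π₁ π₃ π₄, QQ_two π₁ π₃ π₄]
    refine span_mul_le ?_
    have h2 : PrD v (TT π₁) (QQ π₁) (OO (π₂, 0)) (TT (π₁ + π₂)) (QQ (π₁ + π₂)) := by
      rw [add_comm π₁ π₂]
      exact prD hπ₂ hπ₁
    exact coreE (TT_sq _) (QQ_sq _) two_eq_zero (one_mem _)
      (t1_mem (π₁, 0)) (q1_mem (π₁, 0)) h2 (prD hπ₃ hπ₁) (prD hπ₄ hπ₁)
  obtain ⟨y, hy, hy'⟩ := elim hs hv hπ₁ hN hr hx ht
  refine ⟨r, Finset.mem_of_mem_erase hr, y, ?_, hy'⟩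
  rw [OP_cons4]
  exact hy

end G

end Pool.Agent.ClawHam
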