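import Pool.Agent.Lib.MP_e2dbb5_co.G1

/-!
# Systems of planes: identities for the universal eliminations (helper69, GElimC)
-/

set_option autoImplicit false
set_option linter.unusedSectionVars false
set_option linter.unusedVariables false
set_option linter.unusedSimpArgs false

open Finset MvPolynomial

noncomputable section

namespace Pool.Agent.ClawHam

open Classical

namespace G

variable {V : Type} [Fintype V]

/-- the residues of a space: `n` with `τ κ n + τ m₁ + κ m₂ + m₃ ∈ E` -/
def Lf (v : V) (τ κ : RR V) (E : Submodule (ZMod 2) (RR V)) : Submodule (ZMod 2) (RR V) where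
  carrier := {n | n ∈ VF v ∧ ∃ e ∈ E, ∃ m₁ ∈ VF v, ∃ m₂ ∈ VF v, ∃ m₃ ∈ VF v,
    e = τ * κ * n + τ * m₁ + κ * m₂ + m₃}
  zero_mem' := ⟨Subalgebra.zero_mem _, 0, Submodule.zero_mem _, 0, Subalgebra.zero_mem _, 0,
    Subalgebra.zero_mem _, 0, Subalgebra.zero_mem _, by ring⟩
  add_mem' := by
    rintro n n' ⟨hn, e, he, m₁, h1, m₂, h2, m₃, h3, h⟩ ⟨hn', e', he', m₁', h1', m₂', h2', m₃', h3', h'⟩
    exact ⟨Subalgebra.add_mem _ hn hn', e + e', Submodule.add_mem _ he he', m₁ + m₁',
      Subalgebra.add_mem _ h1 h1', m₂ + m₂', Subalgebra.add_mem _ h2 h2', m₃ + m₃',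
      Subalgebra.add_mem _ h3 h3', by rw [h, h']; ring⟩
  smul_mem' := by
    rintro c n ⟨hn, e, he, m₁, h1, m₂, h2, m₃, h3, h⟩
    refine ⟨Subalgebra.smul_mem _ hn c, c • e, Submodule.smul_mem _ c he, c • m₁,
      Subalgebra.smul_mem _ h1 c, c • m₂, Subalgebra.smul_mem _ h2 c, c • m₃,
      Subalgebra.smul_mem _ h3 c, ?_⟩
    rw [h]
    simp only [smul_add, mul_smul_comm]

theorem Lf_mk {v : V} {τ κ : RR V} {E : Submodule (ZMod 2) (RR V)} {n e m₁ m₂ m₃ : RR V}
    (hn : n ∈ VF v) (he : e ∈ E) (h1 : m₁ ∈ VF v) (h2 : m₂ ∈ VF v) (h3 : m₃ ∈ VF v)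
    (h : e = τ * κ * n + τ * m₁ + κ * m₂ + m₃) : n ∈ Lf v τ κ E :=
  ⟨hn, e, he, m₁, h1, m₂, h2, m₃, h3, h⟩

/-- the data of a plane at `v` -/
structure PlD (v : V) (τ κ : RR V) (E : Submodule (ZMod 2) (RR V)) (a b c g : RR V) : Prop where
  fa : a ∈ VF v
  fb : b ∈ VF v
  fc : c ∈ VF v
  fg : g ∈ VF v
  x1 : (1 : RR V) ∈ E
  xt : τ + a ∈ E
  xq : κ + b ∈ E
  xc : c ∈ E
  xg : g ∈ E
  xB : (τ + a) * g + c * (κ + b) ∈ E
  xQ : (κ + b) * g ∈ E

/-- the data of a pair at `v` -/
structure PrD (v : V) (τ κ : RR V) (E : Submodule (ZMod 2) (RR V)) (s u : RR V) : Prop where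
  fs : s ∈ VF v
  fu : u ∈ VF v
  x1 : (1 : RR V) ∈ E
  xt : τ + s ∈ E
  xq : κ + u ∈ E

theorem coreA {v : V} {τ κ c₁ g₁ a₂ b₂ c₂ g₂ : RR V} {E₁ E₂ : Submodule (ZMod 2) (RR V)}
    (hτ : τ ^ 2 = 0) (hκ : κ ^ 2 = 0) (h2 : (2 : RR V) = 0)
    (fc₁ : c₁ ∈ VF v) (fg₁ : g₁ ∈ VF v) (x₁ : (1 : RR V) ∈ E₁) (xt : τ ∈ E₁) (xq : κ ∈ E₁)
    (xc : c₁ ∈ E₁) (xg : g₁ ∈ E₁) (xB : τ * g₁ + c₁ * κ ∈ E₁) (xQ : κ * g₁ ∈ E₁)
    (D₂ : PlD v τ κ E₂ a₂ b₂ c₂ g₂) :
    ∀ m ∈ ({1, c₁, c₂, g₁, g₂, c₁ * g₂ + c₂ * g₁, g₁ * g₂} : Set (RR V)),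
      m ∈ Lf v τ κ (E₁ * E₂) := by
  obtain ⟨fa₂, fb₂, fc₂, fg₂, y₁, yt, yq, yc, yg, yB, yQ⟩ := D₂
  intro m hm
  simp only [Set.mem_insert_iff, Set.mem_singleton_iff] at hm
  rcases hm with hm | hm | hm | hm | hm | hm | hm
  · rw [hm]
    refine Lf_mk (e := τ * (κ + b₂))
      (m₁ := b₂)
      (m₂ := 0)
      (m₃ := 0) ?_ ?_ ?_ ?_ ?_ ?_
    · repeat (first | assumption | exact Subalgebra.one_mem _ | apply Subalgebra.add_mem | apply Subalgebra.mul_mem)
    · repeat (first | assumption | apply Submodule.add_mem | apply Submodule.mul_mem_mul)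
    · repeat (first | assumption | exact Subalgebra.one_mem _ | exact Subalgebra.zero_mem _ | apply Subalgebra.add_mem | apply Subalgebra.mul_mem | apply Subalgebra.pow_mem)
    · repeat (first | assumption | exact Subalgebra.one_mem _ | exact Subalgebra.zero_mem _ | apply Subalgebra.add_mem | apply Subalgebra.mul_mem | apply Subalgebra.pow_mem)
    · repeat (first | assumption | exact Subalgebra.one_mem _ | exact Subalgebra.zero_mem _ | apply Subalgebra.add_mem | apply Subalgebra.mul_mem | apply Subalgebra.pow_mem)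
    · linear_combination 0
  · rw [hm]
    refine Lf_mk (e := (τ * g₁ + c₁ * κ) * (τ + a₂))
      (m₁ := a₂ * g₁)
      (m₂ := a₂ * c₁)
      (m₃ := 0) ?_ ?_ ?_ ?_ ?_ ?_
    · repeat (first | assumption | exact Subalgebra.one_mem _ | apply Subalgebra.add_mem | apply Subalgebra.mul_mem)
    · repeat (first | assumption | apply Submodule.add_mem | apply Submodule.mul_mem_mul)
    · repeat (first | assumption | exact Subalgebra.one_mem _ | exact Subalgebra.zero_mem _ | apply Subalgebra.add_mem | apply Subalgebra.mul_mem | apply Subalgebra.pow_mem)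
    · repeat (first | assumption | exact Subalgebra.one_mem _ | exact Subalgebra.zero_mem _ | apply Subalgebra.add_mem | apply Subalgebra.mul_mem | apply Subalgebra.pow_mem)
    · repeat (first | assumption | exact Subalgebra.one_mem _ | exact Subalgebra.zero_mem _ | apply Subalgebra.add_mem | apply Subalgebra.mul_mem | apply Subalgebra.pow_mem)
    · linear_combination (g₁) * hτ
  · rw [hm]
    refine Lf_mk (e := τ * ((τ + a₂) * g₂ + c₂ * (κ + b₂)))
      (m₁ := a₂ * g₂ + b₂ * c₂)
      (m₂ := 0)
      (m₃ := 0) ?_ ?_ ?_ ?_ ?_ ?_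
    · repeat (first | assumption | exact Subalgebra.one_mem _ | apply Subalgebra.add_mem | apply Subalgebra.mul_mem)
    · repeat (first | assumption | apply Submodule.add_mem | apply Submodule.mul_mem_mul)
    · repeat (first | assumption | exact Subalgebra.one_mem _ | exact Subalgebra.zero_mem _ | apply Subalgebra.add_mem | apply Subalgebra.mul_mem | apply Subalgebra.pow_mem)
    · repeat (first | assumption | exact Subalgebra.one_mem _ | exact Subalgebra.zero_mem _ | apply Subalgebra.add_mem | apply Subalgebra.mul_mem | apply Subalgebra.pow_mem)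
    · repeat (first | assumption | exact Subalgebra.one_mem _ | exact Subalgebra.zero_mem _ | apply Subalgebra.add_mem | apply Subalgebra.mul_mem | apply Subalgebra.pow_mem)
    · linear_combination (g₂) * hτ
  · rw [hm]
    refine Lf_mk (e := (τ * g₁ + c₁ * κ) * (κ + b₂))
      (m₁ := b₂ * g₁)
      (m₂ := b₂ * c₁)
      (m₃ := 0) ?_ ?_ ?_ ?_ ?_ ?_
    · repeat (first | assumption | exact Subalgebra.one_mem _ | apply Subalgebra.add_mem | apply Subalgebra.mul_mem)
    · repeat (first | assumption | apply Submodule.add_mem | apply Submodule.mul_mem_mul)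
    · repeat (first | assumption | exact Subalgebra.one_mem _ | exact Subalgebra.zero_mem _ | apply Subalgebra.add_mem | apply Subalgebra.mul_mem | apply Subalgebra.pow_mem)
    · repeat (first | assumption | exact Subalgebra.one_mem _ | exact Subalgebra.zero_mem _ | apply Subalgebra.add_mem | apply Subalgebra.mul_mem | apply Subalgebra.pow_mem)
    · repeat (first | assumption | exact Subalgebra.one_mem _ | exact Subalgebra.zero_mem _ | apply Subalgebra.add_mem | apply Subalgebra.mul_mem | apply Subalgebra.pow_mem)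
    · linear_combination (c₁) * hκ
  · rw [hm]
    refine Lf_mk (e := κ * ((τ + a₂) * g₂ + c₂ * (κ + b₂)))
      (m₁ := 0)
      (m₂ := a₂ * g₂ + b₂ * c₂)
      (m₃ := 0) ?_ ?_ ?_ ?_ ?_ ?_
    · repeat (first | assumption | exact Subalgebra.one_mem _ | apply Subalgebra.add_mem | apply Subalgebra.mul_mem)
    · repeat (first | assumption | apply Submodule.add_mem | apply Submodule.mul_mem_mul)
    · repeat (first | assumption | exact Subalgebra.one_mem _ | exact Subalgebra.zero_mem _ | apply Subalgebra.add_mem | apply Subalgebra.mul_mem | apply Subalgebra.pow_mem)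
    · repeat (first | assumption | exact Subalgebra.one_mem _ | exact Subalgebra.zero_mem _ | apply Subalgebra.add_mem | apply Subalgebra.mul_mem | apply Subalgebra.pow_mem)
    · repeat (first | assumption | exact Subalgebra.one_mem _ | exact Subalgebra.zero_mem _ | apply Subalgebra.add_mem | apply Subalgebra.mul_mem | apply Subalgebra.pow_mem)
    · linear_combination (c₂) * hκ
  · rw [hm]
    refine Lf_mk (e := (τ * g₁ + c₁ * κ) * ((τ + a₂) * g₂ + c₂ * (κ + b₂)))
      (m₁ := a₂ * g₁ * g₂ + b₂ * c₂ * g₁)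
      (m₂ := a₂ * c₁ * g₂ + b₂ * c₁ * c₂)
      (m₃ := 0) ?_ ?_ ?_ ?_ ?_ ?_
    · repeat (first | assumption | exact Subalgebra.one_mem _ | apply Subalgebra.add_mem | apply Subalgebra.mul_mem)
    · repeat (first | assumption | apply Submodule.add_mem | apply Submodule.mul_mem_mul)
    · repeat (first | assumption | exact Subalgebra.one_mem _ | exact Subalgebra.zero_mem _ | apply Subalgebra.add_mem | apply Subalgebra.mul_mem | apply Subalgebra.pow_mem)
    · repeat (first | assumption | exact Subalgebra.one_mem _ | exact Subalgebra.zero_mem _ | apply Subalgebra.add_mem | apply Subalgebra.mul_mem | apply Subalgebra.pow_mem)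
    · repeat (first | assumption | exact Subalgebra.one_mem _ | exact Subalgebra.zero_mem _ | apply Subalgebra.add_mem | apply Subalgebra.mul_mem | apply Subalgebra.pow_mem)
    · linear_combination (g₁ * g₂) * hτ + (c₁ * c₂) * hκ
  · rw [hm]
    refine Lf_mk (e := (τ * g₁ + c₁ * κ) * ((κ + b₂) * g₂))
      (m₁ := b₂ * g₁ * g₂)
      (m₂ := b₂ * c₁ * g₂)
      (m₃ := 0) ?_ ?_ ?_ ?_ ?_ ?_
    · repeat (first | assumption | exact Subalgebra.one_mem _ | apply Subalgebra.add_mem | apply Subalgebra.mul_mem)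
    · repeat (first | assumption | apply Submodule.add_mem | apply Submodule.mul_mem_mul)
    · repeat (first | assumption | exact Subalgebra.one_mem _ | exact Subalgebra.zero_mem _ | apply Subalgebra.add_mem | apply Subalgebra.mul_mem | apply Subalgebra.pow_mem)
    · repeat (first | assumption | exact Subalgebra.one_mem _ | exact Subalgebra.zero_mem _ | apply Subalgebra.add_mem | apply Subalgebra.mul_mem | apply Subalgebra.pow_mem)
    · repeat (first | assumption | exact Subalgebra.one_mem _ | exact Subalgebra.zero_mem _ | apply Subalgebra.add_mem | apply Subalgebra.mul_mem | apply Subalgebra.pow_mem)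
    · linear_combination (c₁ * g₂) * hκ

theorem coreB {v : V} {τ κ a₁ b₁ c₁ g₁ a₂ b₂ c₂ g₂ a₃ b₃ c₃ g₃ : RR V}
    {E₁ E₂ E₃ E₄ : Submodule (ZMod 2) (RR V)}
    (hτ : τ ^ 2 = 0) (hκ : κ ^ 2 = 0) (h2 : (2 : RR V) = 0)
    (D₁ : PlD v τ κ E₁ a₁ b₁ c₁ g₁) (D₂ : PlD v τ κ E₂ a₂ b₂ c₂ g₂)
    (D₃ : PlD v τ κ E₃ a₃ b₃ c₃ g₃) (w₁ : (1 : RR V) ∈ E₄) (wt : τ ∈ E₄) (wq : κ ∈ E₄) :
    ∀ m ∈ ({1, a₁, c₁, b₁, g₁, a₁ * g₁ + c₁ * b₁, b₁ * g₁} : Set (RR V)),
    ∀ n ∈ ({1, c₂, c₃, g₂, g₃, c₂ * g₃ + c₃ * g₂, g₂ * g₃} : Set (RR V)),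
      m * n ∈ Lf v τ κ (E₁ * E₂ * E₃ * E₄) := by
  obtain ⟨fa₁, fb₁, fc₁, fg₁, x₁, xt, xq, xc, xg, xB, xQ⟩ := D₁
  obtain ⟨fa₂, fb₂, fc₂, fg₂, y₁, yt, yq, yc, yg, yB, yQ⟩ := D₂
  obtain ⟨fa₃, fb₃, fc₃, fg₃, z₁, zt, zq, zc, zg, zB, zQ⟩ := D₃
  intro m hm n hn
  simp only [Set.mem_insert_iff, Set.mem_singleton_iff] at hm hn
  rcases hm with hm | hm | hm | hm | hm | hm | hm <;>
    rcases hn with hn | hn | hn | hn | hn | hn | hn
  · rw [hm, hn]
    refine Lf_mk (e := 1 * (κ + b₂) * 1 * τ)
      (m₁ := b₂)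
      (m₂ := 0)
      (m₃ := 0) ?_ ?_ ?_ ?_ ?_ ?_
    · repeat (first | assumption | exact Subalgebra.one_mem _ | apply Subalgebra.add_mem | apply Subalgebra.mul_mem)
    · repeat (first | assumption | apply Submodule.add_mem | apply Submodule.mul_mem_mul)
    · repeat (first | assumption | exact Subalgebra.one_mem _ | exact Subalgebra.zero_mem _ | apply Subalgebra.add_mem | apply Subalgebra.mul_mem | apply Subalgebra.pow_mem)
    · repeat (first | assumption | exact Subalgebra.one_mem _ | exact Subalgebra.zero_mem _ | apply Subalgebra.add_mem | apply Subalgebra.mul_mem | apply Subalgebra.pow_mem)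
    · repeat (first | assumption | exact Subalgebra.one_mem _ | exact Subalgebra.zero_mem _ | apply Subalgebra.add_mem | apply Subalgebra.mul_mem | apply Subalgebra.pow_mem)
    · linear_combination 0
  · rw [hm, hn]
    refine Lf_mk (e := 1 * ((τ + a₂) * g₂ + c₂ * (κ + b₂)) * 1 * τ)
      (m₁ := a₂ * g₂ + b₂ * c₂)
      (m₂ := 0)
      (m₃ := 0) ?_ ?_ ?_ ?_ ?_ ?_
    · repeat (first | assumption | exact Subalgebra.one_mem _ | apply Subalgebra.add_mem | apply Subalgebra.mul_mem)
    · repeat (first | assumption | apply Submodule.add_mem | apply Submodule.mul_mem_mul)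
    · repeat (first | assumption | exact Subalgebra.one_mem _ | exact Subalgebra.zero_mem _ | apply Subalgebra.add_mem | apply Subalgebra.mul_mem | apply Subalgebra.pow_mem)
    · repeat (first | assumption | exact Subalgebra.one_mem _ | exact Subalgebra.zero_mem _ | apply Subalgebra.add_mem | apply Subalgebra.mul_mem | apply Subalgebra.pow_mem)
    · repeat (first | assumption | exact Subalgebra.one_mem _ | exact Subalgebra.zero_mem _ | apply Subalgebra.add_mem | apply Subalgebra.mul_mem | apply Subalgebra.pow_mem)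
    · linear_combination (g₂) * hτ
  · rw [hm, hn]
    refine Lf_mk (e := 1 * 1 * ((τ + a₃) * g₃ + c₃ * (κ + b₃)) * τ)
      (m₁ := a₃ * g₃ + b₃ * c₃)
      (m₂ := 0)
      (m₃ := 0) ?_ ?_ ?_ ?_ ?_ ?_
    · repeat (first | assumption | exact Subalgebra.one_mem _ | apply Subalgebra.add_mem | apply Subalgebra.mul_mem)
    · repeat (first | assumption | apply Submodule.add_mem | apply Submodule.mul_mem_mul)
    · repeat (first | assumption | exact Subalgebra.one_mem _ | exact Subalgebra.zero_mem _ | apply Subalgebra.add_mem | apply Subalgebra.mul_mem | apply Subalgebra.pow_mem)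
    · repeat (first | assumption | exact Subalgebra.one_mem _ | exact Subalgebra.zero_mem _ | apply Subalgebra.add_mem | apply Subalgebra.mul_mem | apply Subalgebra.pow_mem)
    · repeat (first | assumption | exact Subalgebra.one_mem _ | exact Subalgebra.zero_mem _ | apply Subalgebra.add_mem | apply Subalgebra.mul_mem | apply Subalgebra.pow_mem)
    · linear_combination (g₃) * hτ
  · rw [hm, hn]
    refine Lf_mk (e := 1 * ((κ + b₂) * g₂) * 1 * τ)
      (m₁ := b₂ * g₂)
      (m₂ := 0)
      (m₃ := 0) ?_ ?_ ?_ ?_ ?_ ?_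
    · repeat (first | assumption | exact Subalgebra.one_mem _ | apply Subalgebra.add_mem | apply Subalgebra.mul_mem)
    · repeat (first | assumption | apply Submodule.add_mem | apply Submodule.mul_mem_mul)
    · repeat (first | assumption | exact Subalgebra.one_mem _ | exact Subalgebra.zero_mem _ | apply Subalgebra.add_mem | apply Subalgebra.mul_mem | apply Subalgebra.pow_mem)
    · repeat (first | assumption | exact Subalgebra.one_mem _ | exact Subalgebra.zero_mem _ | apply Subalgebra.add_mem | apply Subalgebra.mul_mem | apply Subalgebra.pow_mem)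
    · repeat (first | assumption | exact Subalgebra.one_mem _ | exact Subalgebra.zero_mem _ | apply Subalgebra.add_mem | apply Subalgebra.mul_mem | apply Subalgebra.pow_mem)
    · linear_combination 0
  · rw [hm, hn]
    refine Lf_mk (e := 1 * 1 * ((κ + b₃) * g₃) * τ)
      (m₁ := b₃ * g₃)
      (m₂ := 0)
      (m₃ := 0) ?_ ?_ ?_ ?_ ?_ ?_
    · repeat (first | assumption | exact Subalgebra.one_mem _ | apply Subalgebra.add_mem | apply Subalgebra.mul_mem)
    · repeat (first | assumption | apply Submodule.add_mem | apply Submodule.mul_mem_mul)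
    · repeat (first | assumption | exact Subalgebra.one_mem _ | exact Subalgebra.zero_mem _ | apply Subalgebra.add_mem | apply Subalgebra.mul_mem | apply Subalgebra.pow_mem)
    · repeat (first | assumption | exact Subalgebra.one_mem _ | exact Subalgebra.zero_mem _ | apply Subalgebra.add_mem | apply Subalgebra.mul_mem | apply Subalgebra.pow_mem)
    · repeat (first | assumption | exact Subalgebra.one_mem _ | exact Subalgebra.zero_mem _ | apply Subalgebra.add_mem | apply Subalgebra.mul_mem | apply Subalgebra.pow_mem)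
    · linear_combination 0
  · rw [hm, hn]
    refine Lf_mk (e := 1 * ((τ + a₂) * g₂ + c₂ * (κ + b₂)) * g₃ * τ + 1 * g₂ * ((τ + a₃) * g₃ + c₃ * (κ + b₃)) * τ)
      (m₁ := a₂ * g₂ * g₃ + a₃ * g₂ * g₃ + b₂ * c₂ * g₃ + b₃ * c₃ * g₂)
      (m₂ := 0)
      (m₃ := 0) ?_ ?_ ?_ ?_ ?_ ?_
    · repeat (first | assumption | exact Subalgebra.one_mem _ | apply Subalgebra.add_mem | apply Subalgebra.mul_mem)
    · repeat (first | assumption | apply Submodule.add_mem | apply Submodule.mul_mem_mul)
    · repeat (first | assumption | exact Subalgebra.one_mem _ | exact Subalgebra.zero_mem _ | apply Subalgebra.add_mem | apply Subalgebra.mul_mem | apply Subalgebra.pow_mem)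
    · repeat (first | assumption | exact Subalgebra.one_mem _ | exact Subalgebra.zero_mem _ | apply Subalgebra.add_mem | apply Subalgebra.mul_mem | apply Subalgebra.pow_mem)
    · repeat (first | assumption | exact Subalgebra.one_mem _ | exact Subalgebra.zero_mem _ | apply Subalgebra.add_mem | apply Subalgebra.mul_mem | apply Subalgebra.pow_mem)
    · linear_combination (2 * g₂ * g₃) * hτ
  · rw [hm, hn]
    refine Lf_mk (e := 1 * ((κ + b₂) * g₂) * g₃ * τ)
      (m₁ := b₂ * g₂ * g₃)
      (m₂ := 0)
      (m₃ := 0) ?_ ?_ ?_ ?_ ?_ ?_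
    · repeat (first | assumption | exact Subalgebra.one_mem _ | apply Subalgebra.add_mem | apply Subalgebra.mul_mem)
    · repeat (first | assumption | apply Submodule.add_mem | apply Submodule.mul_mem_mul)
    · repeat (first | assumption | exact Subalgebra.one_mem _ | exact Subalgebra.zero_mem _ | apply Subalgebra.add_mem | apply Subalgebra.mul_mem | apply Subalgebra.pow_mem)
    · repeat (first | assumption | exact Subalgebra.one_mem _ | exact Subalgebra.zero_mem _ | apply Subalgebra.add_mem | apply Subalgebra.mul_mem | apply Subalgebra.pow_mem)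
    · repeat (first | assumption | exact Subalgebra.one_mem _ | exact Subalgebra.zero_mem _ | apply Subalgebra.add_mem | apply Subalgebra.mul_mem | apply Subalgebra.pow_mem)
    · linear_combination 0
  · rw [hm, hn]
    refine Lf_mk (e := (τ + a₁) * (κ + b₂) * 1 * τ)
      (m₁ := a₁ * b₂)
      (m₂ := 0)
      (m₃ := 0) ?_ ?_ ?_ ?_ ?_ ?_
    · repeat (first | assumption | exact Subalgebra.one_mem _ | apply Subalgebra.add_mem | apply Subalgebra.mul_mem)
    · repeat (first | assumption | apply Submodule.add_mem | apply Submodule.mul_mem_mul)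
    · repeat (first | assumption | exact Subalgebra.one_mem _ | exact Subalgebra.zero_mem _ | apply Subalgebra.add_mem | apply Subalgebra.mul_mem | apply Subalgebra.pow_mem)
    · repeat (first | assumption | exact Subalgebra.one_mem _ | exact Subalgebra.zero_mem _ | apply Subalgebra.add_mem | apply Subalgebra.mul_mem | apply Subalgebra.pow_mem)
    · repeat (first | assumption | exact Subalgebra.one_mem _ | exact Subalgebra.zero_mem _ | apply Subalgebra.add_mem | apply Subalgebra.mul_mem | apply Subalgebra.pow_mem)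
    · linear_combination (b₂ + κ) * hτ
  · rw [hm, hn]
    refine Lf_mk (e := (τ + a₁) * ((τ + a₂) * g₂ + c₂ * (κ + b₂)) * 1 * τ)
      (m₁ := a₁ * a₂ * g₂ + a₁ * b₂ * c₂)
      (m₂ := 0)
      (m₃ := 0) ?_ ?_ ?_ ?_ ?_ ?_
    · repeat (first | assumption | exact Subalgebra.one_mem _ | apply Subalgebra.add_mem | apply Subalgebra.mul_mem)
    · repeat (first | assumption | apply Submodule.add_mem | apply Submodule.mul_mem_mul)
    · repeat (first | assumption | exact Subalgebra.one_mem _ | exact Subalgebra.zero_mem _ | apply Subalgebra.add_mem | apply Subalgebra.mul_mem | apply Subalgebra.pow_mem)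
    · repeat (first | assumption | exact Subalgebra.one_mem _ | exact Subalgebra.zero_mem _ | apply Subalgebra.add_mem | apply Subalgebra.mul_mem | apply Subalgebra.pow_mem)
    · repeat (first | assumption | exact Subalgebra.one_mem _ | exact Subalgebra.zero_mem _ | apply Subalgebra.add_mem | apply Subalgebra.mul_mem | apply Subalgebra.pow_mem)
    · linear_combination (a₁ * g₂ + a₂ * g₂ + b₂ * c₂ + c₂ * κ + g₂ * τ) * hτ
  · rw [hm, hn]
    refine Lf_mk (e := (τ + a₁) * 1 * ((τ + a₃) * g₃ + c₃ * (κ + b₃)) * τ)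
      (m₁ := a₁ * a₃ * g₃ + a₁ * b₃ * c₃)
      (m₂ := 0)
      (m₃ := 0) ?_ ?_ ?_ ?_ ?_ ?_
    · repeat (first | assumption | exact Subalgebra.one_mem _ | apply Subalgebra.add_mem | apply Subalgebra.mul_mem)
    · repeat (first | assumption | apply Submodule.add_mem | apply Submodule.mul_mem_mul)
    · repeat (first | assumption | exact Subalgebra.one_mem _ | exact Subalgebra.zero_mem _ | apply Subalgebra.add_mem | apply Subalgebra.mul_mem | apply Subalgebra.pow_mem)
    · repeat (first | assumption | exact Subalgebra.one_mem _ | exact Subalgebra.zero_mem _ | apply Subalgebra.add_mem | apply Subalgebra.mul_mem | apply Subalgebra.pow_mem)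
    · repeat (first | assumption | exact Subalgebra.one_mem _ | exact Subalgebra.zero_mem _ | apply Subalgebra.add_mem | apply Subalgebra.mul_mem | apply Subalgebra.pow_mem)
    · linear_combination (a₁ * g₃ + a₃ * g₃ + b₃ * c₃ + c₃ * κ + g₃ * τ) * hτ
  · rw [hm, hn]
    refine Lf_mk (e := (τ + a₁) * ((κ + b₂) * g₂) * 1 * τ)
      (m₁ := a₁ * b₂ * g₂)
      (m₂ := 0)
      (m₃ := 0) ?_ ?_ ?_ ?_ ?_ ?_
    · repeat (first | assumption | exact Subalgebra.one_mem _ | apply Subalgebra.add_mem | apply Subalgebra.mul_mem)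
    · repeat (first | assumption | apply Submodule.add_mem | apply Submodule.mul_mem_mul)
    · repeat (first | assumption | exact Subalgebra.one_mem _ | exact Subalgebra.zero_mem _ | apply Subalgebra.add_mem | apply Subalgebra.mul_mem | apply Subalgebra.pow_mem)
    · repeat (first | assumption | exact Subalgebra.one_mem _ | exact Subalgebra.zero_mem _ | apply Subalgebra.add_mem | apply Subalgebra.mul_mem | apply Subalgebra.pow_mem)
    · repeat (first | assumption | exact Subalgebra.one_mem _ | exact Subalgebra.zero_mem _ | apply Subalgebra.add_mem | apply Subalgebra.mul_mem | apply Subalgebra.pow_mem)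
    · linear_combination (b₂ * g₂ + g₂ * κ) * hτ
  · rw [hm, hn]
    refine Lf_mk (e := (τ + a₁) * 1 * ((κ + b₃) * g₃) * τ)
      (m₁ := a₁ * b₃ * g₃)
      (m₂ := 0)
      (m₃ := 0) ?_ ?_ ?_ ?_ ?_ ?_
    · repeat (first | assumption | exact Subalgebra.one_mem _ | apply Subalgebra.add_mem | apply Subalgebra.mul_mem)
    · repeat (first | assumption | apply Submodule.add_mem | apply Submodule.mul_mem_mul)
    · repeat (first | assumption | exact Subalgebra.one_mem _ | exact Subalgebra.zero_mem _ | apply Subalgebra.add_mem | apply Subalgebra.mul_mem | apply Subalgebra.pow_mem)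
    · repeat (first | assumption | exact Subalgebra.one_mem _ | exact Subalgebra.zero_mem _ | apply Subalgebra.add_mem | apply Subalgebra.mul_mem | apply Subalgebra.pow_mem)
    · repeat (first | assumption | exact Subalgebra.one_mem _ | exact Subalgebra.zero_mem _ | apply Subalgebra.add_mem | apply Subalgebra.mul_mem | apply Subalgebra.pow_mem)
    · linear_combination (b₃ * g₃ + g₃ * κ) * hτ
  · rw [hm, hn]
    refine Lf_mk (e := (τ + a₁) * ((τ + a₂) * g₂ + c₂ * (κ + b₂)) * g₃ * τ + (τ + a₁) * g₂ * ((τ + a₃) * g₃ + c₃ * (κ + b₃)) * τ)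
      (m₁ := a₁ * a₂ * g₂ * g₃ + a₁ * a₃ * g₂ * g₃ + a₁ * b₂ * c₂ * g₃ + a₁ * b₃ * c₃ * g₂)
      (m₂ := 0)
      (m₃ := 0) ?_ ?_ ?_ ?_ ?_ ?_
    · repeat (first | assumption | exact Subalgebra.one_mem _ | apply Subalgebra.add_mem | apply Subalgebra.mul_mem)
    · repeat (first | assumption | apply Submodule.add_mem | apply Submodule.mul_mem_mul)
    · repeat (first | assumption | exact Subalgebra.one_mem _ | exact Subalgebra.zero_mem _ | apply Subalgebra.add_mem | apply Subalgebra.mul_mem | apply Subalgebra.pow_mem)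
    · repeat (first | assumption | exact Subalgebra.one_mem _ | exact Subalgebra.zero_mem _ | apply Subalgebra.add_mem | apply Subalgebra.mul_mem | apply Subalgebra.pow_mem)
    · repeat (first | assumption | exact Subalgebra.one_mem _ | exact Subalgebra.zero_mem _ | apply Subalgebra.add_mem | apply Subalgebra.mul_mem | apply Subalgebra.pow_mem)
    · linear_combination (2 * a₁ * g₂ * g₃ + a₂ * g₂ * g₃ + a₃ * g₂ * g₃ + b₂ * c₂ * g₃ + b₃ * c₃ * g₂ + c₂ * g₃ * κ + c₃ * g₂ * κ + 2 * g₂ * g₃ * τ) * hτ
  · rw [hm, hn]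
    refine Lf_mk (e := (τ + a₁) * ((κ + b₂) * g₂) * g₃ * τ)
      (m₁ := a₁ * b₂ * g₂ * g₃)
      (m₂ := 0)
      (m₃ := 0) ?_ ?_ ?_ ?_ ?_ ?_
    · repeat (first | assumption | exact Subalgebra.one_mem _ | apply Subalgebra.add_mem | apply Subalgebra.mul_mem)
    · repeat (first | assumption | apply Submodule.add_mem | apply Submodule.mul_mem_mul)
    · repeat (first | assumption | exact Subalgebra.one_mem _ | exact Subalgebra.zero_mem _ | apply Subalgebra.add_mem | apply Subalgebra.mul_mem | apply Subalgebra.pow_mem)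
    · repeat (first | assumption | exact Subalgebra.one_mem _ | exact Subalgebra.zero_mem _ | apply Subalgebra.add_mem | apply Subalgebra.mul_mem | apply Subalgebra.pow_mem)
    · repeat (first | assumption | exact Subalgebra.one_mem _ | exact Subalgebra.zero_mem _ | apply Subalgebra.add_mem | apply Subalgebra.mul_mem | apply Subalgebra.pow_mem)
    · linear_combination (b₂ * g₂ * g₃ + g₂ * g₃ * κ) * hτ
  · rw [hm, hn]
    refine Lf_mk (e := c₁ * (κ + b₂) * 1 * τ)
      (m₁ := b₂ * c₁)
      (m₂ := 0)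
      (m₃ := 0) ?_ ?_ ?_ ?_ ?_ ?_
    · repeat (first | assumption | exact Subalgebra.one_mem _ | apply Subalgebra.add_mem | apply Subalgebra.mul_mem)
    · repeat (first | assumption | apply Submodule.add_mem | apply Submodule.mul_mem_mul)
    · repeat (first | assumption | exact Subalgebra.one_mem _ | exact Subalgebra.zero_mem _ | apply Subalgebra.add_mem | apply Subalgebra.mul_mem | apply Subalgebra.pow_mem)
    · repeat (first | assumption | exact Subalgebra.one_mem _ | exact Subalgebra.zero_mem _ | apply Subalgebra.add_mem | apply Subalgebra.mul_mem | apply Subalgebra.pow_mem)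
    · repeat (first | assumption | exact Subalgebra.one_mem _ | exact Subalgebra.zero_mem _ | apply Subalgebra.add_mem | apply Subalgebra.mul_mem | apply Subalgebra.pow_mem)
    · linear_combination 0
  · rw [hm, hn]
    refine Lf_mk (e := c₁ * ((τ + a₂) * g₂ + c₂ * (κ + b₂)) * 1 * τ)
      (m₁ := a₂ * c₁ * g₂ + b₂ * c₁ * c₂)
      (m₂ := 0)
      (m₃ := 0) ?_ ?_ ?_ ?_ ?_ ?_
    · repeat (first | assumption | exact Subalgebra.one_mem _ | apply Subalgebra.add_mem | apply Subalgebra.mul_mem)
    · repeat (first | assumption | apply Submodule.add_mem | apply Submodule.mul_mem_mul)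
    · repeat (first | assumption | exact Subalgebra.one_mem _ | exact Subalgebra.zero_mem _ | apply Subalgebra.add_mem | apply Subalgebra.mul_mem | apply Subalgebra.pow_mem)
    · repeat (first | assumption | exact Subalgebra.one_mem _ | exact Subalgebra.zero_mem _ | apply Subalgebra.add_mem | apply Subalgebra.mul_mem | apply Subalgebra.pow_mem)
    · repeat (first | assumption | exact Subalgebra.one_mem _ | exact Subalgebra.zero_mem _ | apply Subalgebra.add_mem | apply Subalgebra.mul_mem | apply Subalgebra.pow_mem)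
    · linear_combination (c₁ * g₂) * hτ
  · rw [hm, hn]
    refine Lf_mk (e := c₁ * 1 * ((τ + a₃) * g₃ + c₃ * (κ + b₃)) * τ)
      (m₁ := a₃ * c₁ * g₃ + b₃ * c₁ * c₃)
      (m₂ := 0)
      (m₃ := 0) ?_ ?_ ?_ ?_ ?_ ?_
    · repeat (first | assumption | exact Subalgebra.one_mem _ | apply Subalgebra.add_mem | apply Subalgebra.mul_mem)
    · repeat (first | assumption | apply Submodule.add_mem | apply Submodule.mul_mem_mul)
    · repeat (first | assumption | exact Subalgebra.one_mem _ | exact Subalgebra.zero_mem _ | apply Subalgebra.add_mem | apply Subalgebra.mul_mem | apply Subalgebra.pow_mem)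
    · repeat (first | assumption | exact Subalgebra.one_mem _ | exact Subalgebra.zero_mem _ | apply Subalgebra.add_mem | apply Subalgebra.mul_mem | apply Subalgebra.pow_mem)
    · repeat (first | assumption | exact Subalgebra.one_mem _ | exact Subalgebra.zero_mem _ | apply Subalgebra.add_mem | apply Subalgebra.mul_mem | apply Subalgebra.pow_mem)
    · linear_combination (c₁ * g₃) * hτ
  · rw [hm, hn]
    refine Lf_mk (e := c₁ * ((κ + b₂) * g₂) * 1 * τ)
      (m₁ := b₂ * c₁ * g₂)
      (m₂ := 0)
      (m₃ := 0) ?_ ?_ ?_ ?_ ?_ ?_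
    · repeat (first | assumption | exact Subalgebra.one_mem _ | apply Subalgebra.add_mem | apply Subalgebra.mul_mem)
    · repeat (first | assumption | apply Submodule.add_mem | apply Submodule.mul_mem_mul)
    · repeat (first | assumption | exact Subalgebra.one_mem _ | exact Subalgebra.zero_mem _ | apply Subalgebra.add_mem | apply Subalgebra.mul_mem | apply Subalgebra.pow_mem)
    · repeat (first | assumption | exact Subalgebra.one_mem _ | exact Subalgebra.zero_mem _ | apply Subalgebra.add_mem | apply Subalgebra.mul_mem | apply Subalgebra.pow_mem)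
    · repeat (first | assumption | exact Subalgebra.one_mem _ | exact Subalgebra.zero_mem _ | apply Subalgebra.add_mem | apply Subalgebra.mul_mem | apply Subalgebra.pow_mem)
    · linear_combination 0
  · rw [hm, hn]
    refine Lf_mk (e := c₁ * 1 * ((κ + b₃) * g₃) * τ)
      (m₁ := b₃ * c₁ * g₃)
      (m₂ := 0)
      (m₃ := 0) ?_ ?_ ?_ ?_ ?_ ?_
    · repeat (first | assumption | exact Subalgebra.one_mem _ | apply Subalgebra.add_mem | apply Subalgebra.mul_mem)
    · repeat (first | assumption | apply Submodule.add_mem | apply Submodule.mul_mem_mul)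
    · repeat (first | assumption | exact Subalgebra.one_mem _ | exact Subalgebra.zero_mem _ | apply Subalgebra.add_mem | apply Subalgebra.mul_mem | apply Subalgebra.pow_mem)
    · repeat (first | assumption | exact Subalgebra.one_mem _ | exact Subalgebra.zero_mem _ | apply Subalgebra.add_mem | apply Subalgebra.mul_mem | apply Subalgebra.pow_mem)
    · repeat (first | assumption | exact Subalgebra.one_mem _ | exact Subalgebra.zero_mem _ | apply Subalgebra.add_mem | apply Subalgebra.mul_mem | apply Subalgebra.pow_mem)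
    · linear_combination 0
  · rw [hm, hn]
    refine Lf_mk (e := c₁ * ((τ + a₂) * g₂ + c₂ * (κ + b₂)) * g₃ * τ + c₁ * g₂ * ((τ + a₃) * g₃ + c₃ * (κ + b₃)) * τ)
      (m₁ := a₂ * c₁ * g₂ * g₃ + a₃ * c₁ * g₂ * g₃ + b₂ * c₁ * c₂ * g₃ + b₃ * c₁ * c₃ * g₂)
      (m₂ := 0)
      (m₃ := 0) ?_ ?_ ?_ ?_ ?_ ?_
    · repeat (first | assumption | exact Subalgebra.one_mem _ | apply Subalgebra.add_mem | apply Subalgebra.mul_mem)
    · repeat (first | assumption | apply Submodule.add_mem | apply Submodule.mul_mem_mul)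
    · repeat (first | assumption | exact Subalgebra.one_mem _ | exact Subalgebra.zero_mem _ | apply Subalgebra.add_mem | apply Subalgebra.mul_mem | apply Subalgebra.pow_mem)
    · repeat (first | assumption | exact Subalgebra.one_mem _ | exact Subalgebra.zero_mem _ | apply Subalgebra.add_mem | apply Subalgebra.mul_mem | apply Subalgebra.pow_mem)
    · repeat (first | assumption | exact Subalgebra.one_mem _ | exact Subalgebra.zero_mem _ | apply Subalgebra.add_mem | apply Subalgebra.mul_mem | apply Subalgebra.pow_mem)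
    · linear_combination (2 * c₁ * g₂ * g₃) * hτ
  · rw [hm, hn]
    refine Lf_mk (e := c₁ * ((κ + b₂) * g₂) * g₃ * τ)
      (m₁ := b₂ * c₁ * g₂ * g₃)
      (m₂ := 0)
      (m₃ := 0) ?_ ?_ ?_ ?_ ?_ ?_
    · repeat (first | assumption | exact Subalgebra.one_mem _ | apply Subalgebra.add_mem | apply Subalgebra.mul_mem)
    · repeat (first | assumption | apply Submodule.add_mem | apply Submodule.mul_mem_mul)
    · repeat (first | assumption | exact Subalgebra.one_mem _ | exact Subalgebra.zero_mem _ | apply Subalgebra.add_mem | apply Subalgebra.mul_mem | apply Subalgebra.pow_mem)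
    · repeat (first | assumption | exact Subalgebra.one_mem _ | exact Subalgebra.zero_mem _ | apply Subalgebra.add_mem | apply Subalgebra.mul_mem | apply Subalgebra.pow_mem)
    · repeat (first | assumption | exact Subalgebra.one_mem _ | exact Subalgebra.zero_mem _ | apply Subalgebra.add_mem | apply Subalgebra.mul_mem | apply Subalgebra.pow_mem)
    · linear_combination 0
  · rw [hm, hn]
    refine Lf_mk (e := (κ + b₁) * (τ + a₂) * 1 * κ)
      (m₁ := 0)
      (m₂ := a₂ * b₁)
      (m₃ := 0) ?_ ?_ ?_ ?_ ?_ ?_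
    · repeat (first | assumption | exact Subalgebra.one_mem _ | apply Subalgebra.add_mem | apply Subalgebra.mul_mem)
    · repeat (first | assumption | apply Submodule.add_mem | apply Submodule.mul_mem_mul)
    · repeat (first | assumption | exact Subalgebra.one_mem _ | exact Subalgebra.zero_mem _ | apply Subalgebra.add_mem | apply Subalgebra.mul_mem | apply Subalgebra.pow_mem)
    · repeat (first | assumption | exact Subalgebra.one_mem _ | exact Subalgebra.zero_mem _ | apply Subalgebra.add_mem | apply Subalgebra.mul_mem | apply Subalgebra.pow_mem)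
    · repeat (first | assumption | exact Subalgebra.one_mem _ | exact Subalgebra.zero_mem _ | apply Subalgebra.add_mem | apply Subalgebra.mul_mem | apply Subalgebra.pow_mem)
    · linear_combination (a₂ + τ) * hκ
  · rw [hm, hn]
    refine Lf_mk (e := (κ + b₁) * c₂ * (τ + a₃) * κ)
      (m₁ := 0)
      (m₂ := a₃ * b₁ * c₂)
      (m₃ := 0) ?_ ?_ ?_ ?_ ?_ ?_
    · repeat (first | assumption | exact Subalgebra.one_mem _ | apply Subalgebra.add_mem | apply Subalgebra.mul_mem)
    · repeat (first | assumption | apply Submodule.add_mem | apply Submodule.mul_mem_mul)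
    · repeat (first | assumption | exact Subalgebra.one_mem _ | exact Subalgebra.zero_mem _ | apply Subalgebra.add_mem | apply Subalgebra.mul_mem | apply Subalgebra.pow_mem)
    · repeat (first | assumption | exact Subalgebra.one_mem _ | exact Subalgebra.zero_mem _ | apply Subalgebra.add_mem | apply Subalgebra.mul_mem | apply Subalgebra.pow_mem)
    · repeat (first | assumption | exact Subalgebra.one_mem _ | exact Subalgebra.zero_mem _ | apply Subalgebra.add_mem | apply Subalgebra.mul_mem | apply Subalgebra.pow_mem)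
    · linear_combination (a₃ * c₂ + c₂ * τ) * hκ
  · rw [hm, hn]
    refine Lf_mk (e := (κ + b₁) * (τ + a₂) * c₃ * κ)
      (m₁ := 0)
      (m₂ := a₂ * b₁ * c₃)
      (m₃ := 0) ?_ ?_ ?_ ?_ ?_ ?_
    · repeat (first | assumption | exact Subalgebra.one_mem _ | apply Subalgebra.add_mem | apply Subalgebra.mul_mem)
    · repeat (first | assumption | apply Submodule.add_mem | apply Submodule.mul_mem_mul)
    · repeat (first | assumption | exact Subalgebra.one_mem _ | exact Subalgebra.zero_mem _ | apply Subalgebra.add_mem | apply Subalgebra.mul_mem | apply Subalgebra.pow_mem)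
    · repeat (first | assumption | exact Subalgebra.one_mem _ | exact Subalgebra.zero_mem _ | apply Subalgebra.add_mem | apply Subalgebra.mul_mem | apply Subalgebra.pow_mem)
    · repeat (first | assumption | exact Subalgebra.one_mem _ | exact Subalgebra.zero_mem _ | apply Subalgebra.add_mem | apply Subalgebra.mul_mem | apply Subalgebra.pow_mem)
    · linear_combination (a₂ * c₃ + c₃ * τ) * hκ
  · rw [hm, hn]
    refine Lf_mk (e := (κ + b₁) * ((τ + a₂) * g₂ + c₂ * (κ + b₂)) * 1 * κ)
      (m₁ := 0)
      (m₂ := a₂ * b₁ * g₂ + b₁ * b₂ * c₂)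
      (m₃ := 0) ?_ ?_ ?_ ?_ ?_ ?_
    · repeat (first | assumption | exact Subalgebra.one_mem _ | apply Subalgebra.add_mem | apply Subalgebra.mul_mem)
    · repeat (first | assumption | apply Submodule.add_mem | apply Submodule.mul_mem_mul)
    · repeat (first | assumption | exact Subalgebra.one_mem _ | exact Subalgebra.zero_mem _ | apply Subalgebra.add_mem | apply Subalgebra.mul_mem | apply Subalgebra.pow_mem)
    · repeat (first | assumption | exact Subalgebra.one_mem _ | exact Subalgebra.zero_mem _ | apply Subalgebra.add_mem | apply Subalgebra.mul_mem | apply Subalgebra.pow_mem)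
    · repeat (first | assumption | exact Subalgebra.one_mem _ | exact Subalgebra.zero_mem _ | apply Subalgebra.add_mem | apply Subalgebra.mul_mem | apply Subalgebra.pow_mem)
    · linear_combination (a₂ * g₂ + b₁ * c₂ + b₂ * c₂ + c₂ * κ + g₂ * τ) * hκ
  · rw [hm, hn]
    refine Lf_mk (e := (κ + b₁) * 1 * ((τ + a₃) * g₃ + c₃ * (κ + b₃)) * κ)
      (m₁ := 0)
      (m₂ := a₃ * b₁ * g₃ + b₁ * b₃ * c₃)
      (m₃ := 0) ?_ ?_ ?_ ?_ ?_ ?_
    · repeat (first | assumption | exact Subalgebra.one_mem _ | apply Subalgebra.add_mem | apply Subalgebra.mul_mem)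
    · repeat (first | assumption | apply Submodule.add_mem | apply Submodule.mul_mem_mul)
    · repeat (first | assumption | exact Subalgebra.one_mem _ | exact Subalgebra.zero_mem _ | apply Subalgebra.add_mem | apply Subalgebra.mul_mem | apply Subalgebra.pow_mem)
    · repeat (first | assumption | exact Subalgebra.one_mem _ | exact Subalgebra.zero_mem _ | apply Subalgebra.add_mem | apply Subalgebra.mul_mem | apply Subalgebra.pow_mem)
    · repeat (first | assumption | exact Subalgebra.one_mem _ | exact Subalgebra.zero_mem _ | apply Subalgebra.add_mem | apply Subalgebra.mul_mem | apply Subalgebra.pow_mem)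
    · linear_combination (a₃ * g₃ + b₁ * c₃ + b₃ * c₃ + c₃ * κ + g₃ * τ) * hκ
  · rw [hm, hn]
    refine Lf_mk (e := (κ + b₁) * ((τ + a₂) * g₂ + c₂ * (κ + b₂)) * c₃ * κ + (κ + b₁) * c₂ * ((τ + a₃) * g₃ + c₃ * (κ + b₃)) * κ)
      (m₁ := 0)
      (m₂ := a₂ * b₁ * c₃ * g₂ + a₃ * b₁ * c₂ * g₃ + b₁ * b₂ * c₂ * c₃ + b₁ * b₃ * c₂ * c₃)
      (m₃ := 0) ?_ ?_ ?_ ?_ ?_ ?_
    · repeat (first | assumption | exact Subalgebra.one_mem _ | apply Subalgebra.add_mem | apply Subalgebra.mul_mem)
    · repeat (first | assumption | apply Submodule.add_mem | apply Submodule.mul_mem_mul)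
    · repeat (first | assumption | exact Subalgebra.one_mem _ | exact Subalgebra.zero_mem _ | apply Subalgebra.add_mem | apply Subalgebra.mul_mem | apply Subalgebra.pow_mem)
    · repeat (first | assumption | exact Subalgebra.one_mem _ | exact Subalgebra.zero_mem _ | apply Subalgebra.add_mem | apply Subalgebra.mul_mem | apply Subalgebra.pow_mem)
    · repeat (first | assumption | exact Subalgebra.one_mem _ | exact Subalgebra.zero_mem _ | apply Subalgebra.add_mem | apply Subalgebra.mul_mem | apply Subalgebra.pow_mem)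
    · linear_combination (a₂ * c₃ * g₂ + a₃ * c₂ * g₃ + 2 * b₁ * c₂ * c₃ + b₂ * c₂ * c₃ + b₃ * c₂ * c₃ + 2 * c₂ * c₃ * κ + c₂ * g₃ * τ + c₃ * g₂ * τ) * hκ
  · rw [hm, hn]
    refine Lf_mk (e := (κ + b₁) * ((τ + a₂) * g₂ + c₂ * (κ + b₂)) * g₃ * κ)
      (m₁ := 0)
      (m₂ := a₂ * b₁ * g₂ * g₃ + b₁ * b₂ * c₂ * g₃)
      (m₃ := 0) ?_ ?_ ?_ ?_ ?_ ?_
    · repeat (first | assumption | exact Subalgebra.one_mem _ | apply Subalgebra.add_mem | apply Subalgebra.mul_mem)
    · repeat (first | assumption | apply Submodule.add_mem | apply Submodule.mul_mem_mul)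
    · repeat (first | assumption | exact Subalgebra.one_mem _ | exact Subalgebra.zero_mem _ | apply Subalgebra.add_mem | apply Subalgebra.mul_mem | apply Subalgebra.pow_mem)
    · repeat (first | assumption | exact Subalgebra.one_mem _ | exact Subalgebra.zero_mem _ | apply Subalgebra.add_mem | apply Subalgebra.mul_mem | apply Subalgebra.pow_mem)
    · repeat (first | assumption | exact Subalgebra.one_mem _ | exact Subalgebra.zero_mem _ | apply Subalgebra.add_mem | apply Subalgebra.mul_mem | apply Subalgebra.pow_mem)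
    · linear_combination (a₂ * g₂ * g₃ + b₁ * c₂ * g₃ + b₂ * c₂ * g₃ + c₂ * g₃ * κ + g₂ * g₃ * τ) * hκ
  · rw [hm, hn]
    refine Lf_mk (e := g₁ * (κ + b₂) * 1 * τ)
      (m₁ := b₂ * g₁)
      (m₂ := 0)
      (m₃ := 0) ?_ ?_ ?_ ?_ ?_ ?_
    · repeat (first | assumption | exact Subalgebra.one_mem _ | apply Subalgebra.add_mem | apply Subalgebra.mul_mem)
    · repeat (first | assumption | apply Submodule.add_mem | apply Submodule.mul_mem_mul)
    · repeat (first | assumption | exact Subalgebra.one_mem _ | exact Subalgebra.zero_mem _ | apply Subalgebra.add_mem | apply Subalgebra.mul_mem | apply Subalgebra.pow_mem)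
    · repeat (first | assumption | exact Subalgebra.one_mem _ | exact Subalgebra.zero_mem _ | apply Subalgebra.add_mem | apply Subalgebra.mul_mem | apply Subalgebra.pow_mem)
    · repeat (first | assumption | exact Subalgebra.one_mem _ | exact Subalgebra.zero_mem _ | apply Subalgebra.add_mem | apply Subalgebra.mul_mem | apply Subalgebra.pow_mem)
    · linear_combination 0
  · rw [hm, hn]
    refine Lf_mk (e := g₁ * ((τ + a₂) * g₂ + c₂ * (κ + b₂)) * 1 * τ)
      (m₁ := a₂ * g₁ * g₂ + b₂ * c₂ * g₁)
      (m₂ := 0)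
      (m₃ := 0) ?_ ?_ ?_ ?_ ?_ ?_
    · repeat (first | assumption | exact Subalgebra.one_mem _ | apply Subalgebra.add_mem | apply Subalgebra.mul_mem)
    · repeat (first | assumption | apply Submodule.add_mem | apply Submodule.mul_mem_mul)
    · repeat (first | assumption | exact Subalgebra.one_mem _ | exact Subalgebra.zero_mem _ | apply Subalgebra.add_mem | apply Subalgebra.mul_mem | apply Subalgebra.pow_mem)
    · repeat (first | assumption | exact Subalgebra.one_mem _ | exact Subalgebra.zero_mem _ | apply Subalgebra.add_mem | apply Subalgebra.mul_mem | apply Subalgebra.pow_mem)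
    · repeat (first | assumption | exact Subalgebra.one_mem _ | exact Subalgebra.zero_mem _ | apply Subalgebra.add_mem | apply Subalgebra.mul_mem | apply Subalgebra.pow_mem)
    · linear_combination (g₁ * g₂) * hτ
  · rw [hm, hn]
    refine Lf_mk (e := g₁ * 1 * ((τ + a₃) * g₃ + c₃ * (κ + b₃)) * τ)
      (m₁ := a₃ * g₁ * g₃ + b₃ * c₃ * g₁)
      (m₂ := 0)
      (m₃ := 0) ?_ ?_ ?_ ?_ ?_ ?_
    · repeat (first | assumption | exact Subalgebra.one_mem _ | apply Subalgebra.add_mem | apply Subalgebra.mul_mem)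
    · repeat (first | assumption | apply Submodule.add_mem | apply Submodule.mul_mem_mul)
    · repeat (first | assumption | exact Subalgebra.one_mem _ | exact Subalgebra.zero_mem _ | apply Subalgebra.add_mem | apply Subalgebra.mul_mem | apply Subalgebra.pow_mem)
    · repeat (first | assumption | exact Subalgebra.one_mem _ | exact Subalgebra.zero_mem _ | apply Subalgebra.add_mem | apply Subalgebra.mul_mem | apply Subalgebra.pow_mem)
    · repeat (first | assumption | exact Subalgebra.one_mem _ | exact Subalgebra.zero_mem _ | apply Subalgebra.add_mem | apply Subalgebra.mul_mem | apply Subalgebra.pow_mem)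
    · linear_combination (g₁ * g₃) * hτ
  · rw [hm, hn]
    refine Lf_mk (e := g₁ * ((κ + b₂) * g₂) * 1 * τ)
      (m₁ := b₂ * g₁ * g₂)
      (m₂ := 0)
      (m₃ := 0) ?_ ?_ ?_ ?_ ?_ ?_
    · repeat (first | assumption | exact Subalgebra.one_mem _ | apply Subalgebra.add_mem | apply Subalgebra.mul_mem)
    · repeat (first | assumption | apply Submodule.add_mem | apply Submodule.mul_mem_mul)
    · repeat (first | assumption | exact Subalgebra.one_mem _ | exact Subalgebra.zero_mem _ | apply Subalgebra.add_mem | apply Subalgebra.mul_mem | apply Subalgebra.pow_mem)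
    · repeat (first | assumption | exact Subalgebra.one_mem _ | exact Subalgebra.zero_mem _ | apply Subalgebra.add_mem | apply Subalgebra.mul_mem | apply Subalgebra.pow_mem)
    · repeat (first | assumption | exact Subalgebra.one_mem _ | exact Subalgebra.zero_mem _ | apply Subalgebra.add_mem | apply Subalgebra.mul_mem | apply Subalgebra.pow_mem)
    · linear_combination 0
  · rw [hm, hn]
    refine Lf_mk (e := g₁ * 1 * ((κ + b₃) * g₃) * τ)
      (m₁ := b₃ * g₁ * g₃)
      (m₂ := 0)
      (m₃ := 0) ?_ ?_ ?_ ?_ ?_ ?_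
    · repeat (first | assumption | exact Subalgebra.one_mem _ | apply Subalgebra.add_mem | apply Subalgebra.mul_mem)
    · repeat (first | assumption | apply Submodule.add_mem | apply Submodule.mul_mem_mul)
    · repeat (first | assumption | exact Subalgebra.one_mem _ | exact Subalgebra.zero_mem _ | apply Subalgebra.add_mem | apply Subalgebra.mul_mem | apply Subalgebra.pow_mem)
    · repeat (first | assumption | exact Subalgebra.one_mem _ | exact Subalgebra.zero_mem _ | apply Subalgebra.add_mem | apply Subalgebra.mul_mem | apply Subalgebra.pow_mem)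
    · repeat (first | assumption | exact Subalgebra.one_mem _ | exact Subalgebra.zero_mem _ | apply Subalgebra.add_mem | apply Subalgebra.mul_mem | apply Subalgebra.pow_mem)
    · linear_combination 0
  · rw [hm, hn]
    refine Lf_mk (e := g₁ * ((τ + a₂) * g₂ + c₂ * (κ + b₂)) * g₃ * τ + g₁ * g₂ * ((τ + a₃) * g₃ + c₃ * (κ + b₃)) * τ)
      (m₁ := a₂ * g₁ * g₂ * g₃ + a₃ * g₁ * g₂ * g₃ + b₂ * c₂ * g₁ * g₃ + b₃ * c₃ * g₁ * g₂)
      (m₂ := 0)
      (m₃ := 0) ?_ ?_ ?_ ?_ ?_ ?_
    · repeat (first | assumption | exact Subalgebra.one_mem _ | apply Subalgebra.add_mem | apply Subalgebra.mul_mem)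
    · repeat (first | assumption | apply Submodule.add_mem | apply Submodule.mul_mem_mul)
    · repeat (first | assumption | exact Subalgebra.one_mem _ | exact Subalgebra.zero_mem _ | apply Subalgebra.add_mem | apply Subalgebra.mul_mem | apply Subalgebra.pow_mem)
    · repeat (first | assumption | exact Subalgebra.one_mem _ | exact Subalgebra.zero_mem _ | apply Subalgebra.add_mem | apply Subalgebra.mul_mem | apply Subalgebra.pow_mem)
    · repeat (first | assumption | exact Subalgebra.one_mem _ | exact Subalgebra.zero_mem _ | apply Subalgebra.add_mem | apply Subalgebra.mul_mem | apply Subalgebra.pow_mem)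
    · linear_combination (2 * g₁ * g₂ * g₃) * hτ
  · rw [hm, hn]
    refine Lf_mk (e := g₁ * ((κ + b₂) * g₂) * g₃ * τ)
      (m₁ := b₂ * g₁ * g₂ * g₃)
      (m₂ := 0)
      (m₃ := 0) ?_ ?_ ?_ ?_ ?_ ?_
    · repeat (first | assumption | exact Subalgebra.one_mem _ | apply Subalgebra.add_mem | apply Subalgebra.mul_mem)
    · repeat (first | assumption | apply Submodule.add_mem | apply Submodule.mul_mem_mul)
    · repeat (first | assumption | exact Subalgebra.one_mem _ | exact Subalgebra.zero_mem _ | apply Subalgebra.add_mem | apply Subalgebra.mul_mem | apply Subalgebra.pow_mem)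
    · repeat (first | assumption | exact Subalgebra.one_mem _ | exact Subalgebra.zero_mem _ | apply Subalgebra.add_mem | apply Subalgebra.mul_mem | apply Subalgebra.pow_mem)
    · repeat (first | assumption | exact Subalgebra.one_mem _ | exact Subalgebra.zero_mem _ | apply Subalgebra.add_mem | apply Subalgebra.mul_mem | apply Subalgebra.pow_mem)
    · linear_combination 0
  · rw [hm, hn]
    refine Lf_mk (e := ((τ + a₁) * g₁ + c₁ * (κ + b₁)) * (κ + b₂) * 1 * τ + c₁ * (κ + b₂) * (τ + a₃) * κ)
      (m₁ := a₁ * b₂ * g₁ + b₁ * b₂ * c₁)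
      (m₂ := a₃ * b₂ * c₁)
      (m₃ := 0) ?_ ?_ ?_ ?_ ?_ ?_
    · repeat (first | assumption | exact Subalgebra.one_mem _ | apply Subalgebra.add_mem | apply Subalgebra.mul_mem)
    · repeat (first | assumption | apply Submodule.add_mem | apply Submodule.mul_mem_mul)
    · repeat (first | assumption | exact Subalgebra.one_mem _ | exact Subalgebra.zero_mem _ | apply Subalgebra.add_mem | apply Subalgebra.mul_mem | apply Subalgebra.pow_mem)
    · repeat (first | assumption | exact Subalgebra.one_mem _ | exact Subalgebra.zero_mem _ | apply Subalgebra.add_mem | apply Subalgebra.mul_mem | apply Subalgebra.pow_mem)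
    · repeat (first | assumption | exact Subalgebra.one_mem _ | exact Subalgebra.zero_mem _ | apply Subalgebra.add_mem | apply Subalgebra.mul_mem | apply Subalgebra.pow_mem)
    · linear_combination (b₂ * g₁ + g₁ * κ) * hτ + (a₃ * c₁ + 2 * c₁ * τ) * hκ + (b₂ * c₁ * κ * τ) * h2
  · rw [hm, hn]
    refine Lf_mk (e := ((τ + a₁) * g₁ + c₁ * (κ + b₁)) * ((τ + a₂) * g₂ + c₂ * (κ + b₂)) * 1 * τ + c₁ * ((τ + a₂) * g₂ + c₂ * (κ + b₂)) * (τ + a₃) * κ + c₁ * ((κ + b₂) * g₂) * (τ + a₃) * τ)
      (m₁ := a₁ * a₂ * g₁ * g₂ + a₁ * b₂ * c₂ * g₁ + a₂ * b₁ * c₁ * g₂ + a₃ * b₂ * c₁ * g₂ + b₁ * b₂ * c₁ * c₂)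
      (m₂ := a₂ * a₃ * c₁ * g₂ + a₃ * b₂ * c₁ * c₂)
      (m₃ := 0) ?_ ?_ ?_ ?_ ?_ ?_
    · repeat (first | assumption | exact Subalgebra.one_mem _ | apply Subalgebra.add_mem | apply Subalgebra.mul_mem)
    · repeat (first | assumption | apply Submodule.add_mem | apply Submodule.mul_mem_mul)
    · repeat (first | assumption | exact Subalgebra.one_mem _ | exact Subalgebra.zero_mem _ | apply Subalgebra.add_mem | apply Subalgebra.mul_mem | apply Subalgebra.pow_mem)
    · repeat (first | assumption | exact Subalgebra.one_mem _ | exact Subalgebra.zero_mem _ | apply Subalgebra.add_mem | apply Subalgebra.mul_mem | apply Subalgebra.pow_mem)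
    · repeat (first | assumption | exact Subalgebra.one_mem _ | exact Subalgebra.zero_mem _ | apply Subalgebra.add_mem | apply Subalgebra.mul_mem | apply Subalgebra.pow_mem)
    · linear_combination (a₁ * g₁ * g₂ + a₂ * g₁ * g₂ + b₁ * c₁ * g₂ + b₂ * c₁ * g₂ + b₂ * c₂ * g₁ + 3 * c₁ * g₂ * κ + c₂ * g₁ * κ + g₁ * g₂ * τ) * hτ + (a₃ * c₁ * c₂ + 2 * c₁ * c₂ * τ) * hκ + (a₂ * c₁ * g₂ * κ * τ + a₃ * c₁ * g₂ * κ * τ + b₂ * c₁ * c₂ * κ * τ) * h2
  · rw [hm, hn]
    refine Lf_mk (e := ((τ + a₁) * g₁ + c₁ * (κ + b₁)) * 1 * ((τ + a₃) * g₃ + c₃ * (κ + b₃)) * τ + c₁ * (τ + a₂) * ((τ + a₃) * g₃ + c₃ * (κ + b₃)) * κ + c₁ * (τ + a₂) * ((κ + b₃) * g₃) * τ)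
      (m₁ := a₁ * a₃ * g₁ * g₃ + a₁ * b₃ * c₃ * g₁ + a₂ * b₃ * c₁ * g₃ + a₃ * b₁ * c₁ * g₃ + b₁ * b₃ * c₁ * c₃)
      (m₂ := a₂ * a₃ * c₁ * g₃ + a₂ * b₃ * c₁ * c₃)
      (m₃ := 0) ?_ ?_ ?_ ?_ ?_ ?_
    · repeat (first | assumption | exact Subalgebra.one_mem _ | apply Subalgebra.add_mem | apply Subalgebra.mul_mem)
    · repeat (first | assumption | apply Submodule.add_mem | apply Submodule.mul_mem_mul)
    · repeat (first | assumption | exact Subalgebra.one_mem _ | exact Subalgebra.zero_mem _ | apply Subalgebra.add_mem | apply Subalgebra.mul_mem | apply Subalgebra.pow_mem)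
    · repeat (first | assumption | exact Subalgebra.one_mem _ | exact Subalgebra.zero_mem _ | apply Subalgebra.add_mem | apply Subalgebra.mul_mem | apply Subalgebra.pow_mem)
    · repeat (first | assumption | exact Subalgebra.one_mem _ | exact Subalgebra.zero_mem _ | apply Subalgebra.add_mem | apply Subalgebra.mul_mem | apply Subalgebra.pow_mem)
    · linear_combination (a₁ * g₁ * g₃ + a₃ * g₁ * g₃ + b₁ * c₁ * g₃ + b₃ * c₁ * g₃ + b₃ * c₃ * g₁ + 3 * c₁ * g₃ * κ + c₃ * g₁ * κ + g₁ * g₃ * τ) * hτ + (a₂ * c₁ * c₃ + 2 * c₁ * c₃ * τ) * hκ + (a₂ * c₁ * g₃ * κ * τ + a₃ * c₁ * g₃ * κ * τ + b₃ * c₁ * c₃ * κ * τ) * h2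
  · rw [hm, hn]
    refine Lf_mk (e := ((τ + a₁) * g₁ + c₁ * (κ + b₁)) * ((κ + b₂) * g₂) * 1 * τ + c₁ * ((κ + b₂) * g₂) * (τ + a₃) * κ)
      (m₁ := a₁ * b₂ * g₁ * g₂ + b₁ * b₂ * c₁ * g₂)
      (m₂ := a₃ * b₂ * c₁ * g₂)
      (m₃ := 0) ?_ ?_ ?_ ?_ ?_ ?_
    · repeat (first | assumption | exact Subalgebra.one_mem _ | apply Subalgebra.add_mem | apply Subalgebra.mul_mem)
    · repeat (first | assumption | apply Submodule.add_mem | apply Submodule.mul_mem_mul)
    · repeat (first | assumption | exact Subalgebra.one_mem _ | exact Subalgebra.zero_mem _ | apply Subalgebra.add_mem | apply Subalgebra.mul_mem | apply Subalgebra.pow_mem)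
    · repeat (first | assumption | exact Subalgebra.one_mem _ | exact Subalgebra.zero_mem _ | apply Subalgebra.add_mem | apply Subalgebra.mul_mem | apply Subalgebra.pow_mem)
    · repeat (first | assumption | exact Subalgebra.one_mem _ | exact Subalgebra.zero_mem _ | apply Subalgebra.add_mem | apply Subalgebra.mul_mem | apply Subalgebra.pow_mem)
    · linear_combination (b₂ * g₁ * g₂ + g₁ * g₂ * κ) * hτ + (a₃ * c₁ * g₂ + 2 * c₁ * g₂ * τ) * hκ + (b₂ * c₁ * g₂ * κ * τ) * h2
  · rw [hm, hn]
    refine Lf_mk (e := ((τ + a₁) * g₁ + c₁ * (κ + b₁)) * 1 * ((κ + b₃) * g₃) * τ + c₁ * (τ + a₂) * ((κ + b₃) * g₃) * κ)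
      (m₁ := a₁ * b₃ * g₁ * g₃ + b₁ * b₃ * c₁ * g₃)
      (m₂ := a₂ * b₃ * c₁ * g₃)
      (m₃ := 0) ?_ ?_ ?_ ?_ ?_ ?_
    · repeat (first | assumption | exact Subalgebra.one_mem _ | apply Subalgebra.add_mem | apply Subalgebra.mul_mem)
    · repeat (first | assumption | apply Submodule.add_mem | apply Submodule.mul_mem_mul)
    · repeat (first | assumption | exact Subalgebra.one_mem _ | exact Subalgebra.zero_mem _ | apply Subalgebra.add_mem | apply Subalgebra.mul_mem | apply Subalgebra.pow_mem)
    · repeat (first | assumption | exact Subalgebra.one_mem _ | exact Subalgebra.zero_mem _ | apply Subalgebra.add_mem | apply Subalgebra.mul_mem | apply Subalgebra.pow_mem)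
    · repeat (first | assumption | exact Subalgebra.one_mem _ | exact Subalgebra.zero_mem _ | apply Subalgebra.add_mem | apply Subalgebra.mul_mem | apply Subalgebra.pow_mem)
    · linear_combination (b₃ * g₁ * g₃ + g₁ * g₃ * κ) * hτ + (a₂ * c₁ * g₃ + 2 * c₁ * g₃ * τ) * hκ + (b₃ * c₁ * g₃ * κ * τ) * h2
  · rw [hm, hn]
    refine Lf_mk (e := ((τ + a₁) * g₁ + c₁ * (κ + b₁)) * ((τ + a₂) * g₂ + c₂ * (κ + b₂)) * g₃ * τ + ((τ + a₁) * g₁ + c₁ * (κ + b₁)) * g₂ * ((τ + a₃) * g₃ + c₃ * (κ + b₃)) * τ + c₁ * ((τ + a₂) * g₂ + c₂ * (κ + b₂)) * ((τ + a₃) * g₃ + c₃ * (κ + b₃)) * κ)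
      (m₁ := a₁ * a₂ * g₁ * g₂ * g₃ + a₁ * a₃ * g₁ * g₂ * g₃ + a₁ * b₂ * c₂ * g₁ * g₃ + a₁ * b₃ * c₃ * g₁ * g₂ + a₂ * b₁ * c₁ * g₂ * g₃ + a₃ * b₁ * c₁ * g₂ * g₃ + b₁ * b₂ * c₁ * c₂ * g₃ + b₁ * b₃ * c₁ * c₃ * g₂)
      (m₂ := a₂ * a₃ * c₁ * g₂ * g₃ + a₂ * b₃ * c₁ * c₃ * g₂ + a₃ * b₂ * c₁ * c₂ * g₃ + b₂ * b₃ * c₁ * c₂ * c₃)
      (m₃ := 0) ?_ ?_ ?_ ?_ ?_ ?_
    · repeat (first | assumption | exact Subalgebra.one_mem _ | apply Subalgebra.add_mem | apply Subalgebra.mul_mem)
    · repeat (first | assumption | apply Submodule.add_mem | apply Submodule.mul_mem_mul)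
    · repeat (first | assumption | exact Subalgebra.one_mem _ | exact Subalgebra.zero_mem _ | apply Subalgebra.add_mem | apply Subalgebra.mul_mem | apply Subalgebra.pow_mem)
    · repeat (first | assumption | exact Subalgebra.one_mem _ | exact Subalgebra.zero_mem _ | apply Subalgebra.add_mem | apply Subalgebra.mul_mem | apply Subalgebra.pow_mem)
    · repeat (first | assumption | exact Subalgebra.one_mem _ | exact Subalgebra.zero_mem _ | apply Subalgebra.add_mem | apply Subalgebra.mul_mem | apply Subalgebra.pow_mem)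
    · linear_combination (2 * a₁ * g₁ * g₂ * g₃ + a₂ * g₁ * g₂ * g₃ + a₃ * g₁ * g₂ * g₃ + 2 * b₁ * c₁ * g₂ * g₃ + b₂ * c₂ * g₁ * g₃ + b₃ * c₃ * g₁ * g₂ + 3 * c₁ * g₂ * g₃ * κ + c₂ * g₁ * g₃ * κ + c₃ * g₁ * g₂ * κ + 2 * g₁ * g₂ * g₃ * τ) * hτ + (a₂ * c₁ * c₃ * g₂ + a₃ * c₁ * c₂ * g₃ + b₂ * c₁ * c₂ * c₃ + b₃ * c₁ * c₂ * c₃ + c₁ * c₂ * c₃ * κ + 2 * c₁ * c₂ * g₃ * τ + 2 * c₁ * c₃ * g₂ * τ) * hκ + (a₂ * c₁ * g₂ * g₃ * κ * τ + a₃ * c₁ * g₂ * g₃ * κ * τ + b₂ * c₁ * c₂ * g₃ * κ * τ + b₃ * c₁ * c₃ * g₂ * κ * τ) * h2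
  · rw [hm, hn]
    refine Lf_mk (e := ((τ + a₁) * g₁ + c₁ * (κ + b₁)) * ((κ + b₂) * g₂) * g₃ * τ + c₁ * ((κ + b₂) * g₂) * ((τ + a₃) * g₃ + c₃ * (κ + b₃)) * κ)
      (m₁ := a₁ * b₂ * g₁ * g₂ * g₃ + b₁ * b₂ * c₁ * g₂ * g₃)
      (m₂ := a₃ * b₂ * c₁ * g₂ * g₃ + b₂ * b₃ * c₁ * c₃ * g₂)
      (m₃ := 0) ?_ ?_ ?_ ?_ ?_ ?_
    · repeat (first | assumption | exact Subalgebra.one_mem _ | apply Subalgebra.add_mem | apply Subalgebra.mul_mem)
    · repeat (first | assumption | apply Submodule.add_mem | apply Submodule.mul_mem_mul)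
    · repeat (first | assumption | exact Subalgebra.one_mem _ | exact Subalgebra.zero_mem _ | apply Subalgebra.add_mem | apply Subalgebra.mul_mem | apply Subalgebra.pow_mem)
    · repeat (first | assumption | exact Subalgebra.one_mem _ | exact Subalgebra.zero_mem _ | apply Subalgebra.add_mem | apply Subalgebra.mul_mem | apply Subalgebra.pow_mem)
    · repeat (first | assumption | exact Subalgebra.one_mem _ | exact Subalgebra.zero_mem _ | apply Subalgebra.add_mem | apply Subalgebra.mul_mem | apply Subalgebra.pow_mem)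
    · linear_combination (b₂ * g₁ * g₂ * g₃ + g₁ * g₂ * g₃ * κ) * hτ + (a₃ * c₁ * g₂ * g₃ + b₂ * c₁ * c₃ * g₂ + b₃ * c₁ * c₃ * g₂ + c₁ * c₃ * g₂ * κ + 2 * c₁ * g₂ * g₃ * τ) * hκ + (b₂ * c₁ * g₂ * g₃ * κ * τ) * h2
  · rw [hm, hn]
    refine Lf_mk (e := ((κ + b₁) * g₁) * (τ + a₂) * 1 * κ)
      (m₁ := 0)
      (m₂ := a₂ * b₁ * g₁)
      (m₃ := 0) ?_ ?_ ?_ ?_ ?_ ?_
    · repeat (first | assumption | exact Subalgebra.one_mem _ | apply Subalgebra.add_mem | apply Subalgebra.mul_mem)
    · repeat (first | assumption | apply Submodule.add_mem | apply Submodule.mul_mem_mul)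
    · repeat (first | assumption | exact Subalgebra.one_mem _ | exact Subalgebra.zero_mem _ | apply Subalgebra.add_mem | apply Subalgebra.mul_mem | apply Subalgebra.pow_mem)
    · repeat (first | assumption | exact Subalgebra.one_mem _ | exact Subalgebra.zero_mem _ | apply Subalgebra.add_mem | apply Subalgebra.mul_mem | apply Subalgebra.pow_mem)
    · repeat (first | assumption | exact Subalgebra.one_mem _ | exact Subalgebra.zero_mem _ | apply Subalgebra.add_mem | apply Subalgebra.mul_mem | apply Subalgebra.pow_mem)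
    · linear_combination (a₂ * g₁ + g₁ * τ) * hκ
  · rw [hm, hn]
    refine Lf_mk (e := ((κ + b₁) * g₁) * c₂ * (τ + a₃) * κ)
      (m₁ := 0)
      (m₂ := a₃ * b₁ * c₂ * g₁)
      (m₃ := 0) ?_ ?_ ?_ ?_ ?_ ?_
    · repeat (first | assumption | exact Subalgebra.one_mem _ | apply Subalgebra.add_mem | apply Subalgebra.mul_mem)
    · repeat (first | assumption | apply Submodule.add_mem | apply Submodule.mul_mem_mul)
    · repeat (first | assumption | exact Subalgebra.one_mem _ | exact Subalgebra.zero_mem _ | apply Subalgebra.add_mem | apply Subalgebra.mul_mem | apply Subalgebra.pow_mem)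
    · repeat (first | assumption | exact Subalgebra.one_mem _ | exact Subalgebra.zero_mem _ | apply Subalgebra.add_mem | apply Subalgebra.mul_mem | apply Subalgebra.pow_mem)
    · repeat (first | assumption | exact Subalgebra.one_mem _ | exact Subalgebra.zero_mem _ | apply Subalgebra.add_mem | apply Subalgebra.mul_mem | apply Subalgebra.pow_mem)
    · linear_combination (a₃ * c₂ * g₁ + c₂ * g₁ * τ) * hκ
  · rw [hm, hn]
    refine Lf_mk (e := ((κ + b₁) * g₁) * (τ + a₂) * c₃ * κ)
      (m₁ := 0)
      (m₂ := a₂ * b₁ * c₃ * g₁)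
      (m₃ := 0) ?_ ?_ ?_ ?_ ?_ ?_
    · repeat (first | assumption | exact Subalgebra.one_mem _ | apply Subalgebra.add_mem | apply Subalgebra.mul_mem)
    · repeat (first | assumption | apply Submodule.add_mem | apply Submodule.mul_mem_mul)
    · repeat (first | assumption | exact Subalgebra.one_mem _ | exact Subalgebra.zero_mem _ | apply Subalgebra.add_mem | apply Subalgebra.mul_mem | apply Subalgebra.pow_mem)
    · repeat (first | assumption | exact Subalgebra.one_mem _ | exact Subalgebra.zero_mem _ | apply Subalgebra.add_mem | apply Subalgebra.mul_mem | apply Subalgebra.pow_mem)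
    · repeat (first | assumption | exact Subalgebra.one_mem _ | exact Subalgebra.zero_mem _ | apply Subalgebra.add_mem | apply Subalgebra.mul_mem | apply Subalgebra.pow_mem)
    · linear_combination (a₂ * c₃ * g₁ + c₃ * g₁ * τ) * hκ
  · rw [hm, hn]
    refine Lf_mk (e := ((κ + b₁) * g₁) * ((τ + a₂) * g₂ + c₂ * (κ + b₂)) * 1 * κ)
      (m₁ := 0)
      (m₂ := a₂ * b₁ * g₁ * g₂ + b₁ * b₂ * c₂ * g₁)
      (m₃ := 0) ?_ ?_ ?_ ?_ ?_ ?_
    · repeat (first | assumption | exact Subalgebra.one_mem _ | apply Subalgebra.add_mem | apply Subalgebra.mul_mem)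
    · repeat (first | assumption | apply Submodule.add_mem | apply Submodule.mul_mem_mul)
    · repeat (first | assumption | exact Subalgebra.one_mem _ | exact Subalgebra.zero_mem _ | apply Subalgebra.add_mem | apply Subalgebra.mul_mem | apply Subalgebra.pow_mem)
    · repeat (first | assumption | exact Subalgebra.one_mem _ | exact Subalgebra.zero_mem _ | apply Subalgebra.add_mem | apply Subalgebra.mul_mem | apply Subalgebra.pow_mem)
    · repeat (first | assumption | exact Subalgebra.one_mem _ | exact Subalgebra.zero_mem _ | apply Subalgebra.add_mem | apply Subalgebra.mul_mem | apply Subalgebra.pow_mem)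
    · linear_combination (a₂ * g₁ * g₂ + b₁ * c₂ * g₁ + b₂ * c₂ * g₁ + c₂ * g₁ * κ + g₁ * g₂ * τ) * hκ
  · rw [hm, hn]
    refine Lf_mk (e := ((κ + b₁) * g₁) * 1 * ((τ + a₃) * g₃ + c₃ * (κ + b₃)) * κ)
      (m₁ := 0)
      (m₂ := a₃ * b₁ * g₁ * g₃ + b₁ * b₃ * c₃ * g₁)
      (m₃ := 0) ?_ ?_ ?_ ?_ ?_ ?_
    · repeat (first | assumption | exact Subalgebra.one_mem _ | apply Subalgebra.add_mem | apply Subalgebra.mul_mem)
    · repeat (first | assumption | apply Submodule.add_mem | apply Submodule.mul_mem_mul)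
    · repeat (first | assumption | exact Subalgebra.one_mem _ | exact Subalgebra.zero_mem _ | apply Subalgebra.add_mem | apply Subalgebra.mul_mem | apply Subalgebra.pow_mem)
    · repeat (first | assumption | exact Subalgebra.one_mem _ | exact Subalgebra.zero_mem _ | apply Subalgebra.add_mem | apply Subalgebra.mul_mem | apply Subalgebra.pow_mem)
    · repeat (first | assumption | exact Subalgebra.one_mem _ | exact Subalgebra.zero_mem _ | apply Subalgebra.add_mem | apply Subalgebra.mul_mem | apply Subalgebra.pow_mem)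
    · linear_combination (a₃ * g₁ * g₃ + b₁ * c₃ * g₁ + b₃ * c₃ * g₁ + c₃ * g₁ * κ + g₁ * g₃ * τ) * hκ
  · rw [hm, hn]
    refine Lf_mk (e := ((κ + b₁) * g₁) * ((τ + a₂) * g₂ + c₂ * (κ + b₂)) * c₃ * κ + ((κ + b₁) * g₁) * c₂ * ((τ + a₃) * g₃ + c₃ * (κ + b₃)) * κ)
      (m₁ := 0)
      (m₂ := a₂ * b₁ * c₃ * g₁ * g₂ + a₃ * b₁ * c₂ * g₁ * g₃ + b₁ * b₂ * c₂ * c₃ * g₁ + b₁ * b₃ * c₂ * c₃ * g₁)
      (m₃ := 0) ?_ ?_ ?_ ?_ ?_ ?_
    · repeat (first | assumption | exact Subalgebra.one_mem _ | apply Subalgebra.add_mem | apply Subalgebra.mul_mem)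
    · repeat (first | assumption | apply Submodule.add_mem | apply Submodule.mul_mem_mul)
    · repeat (first | assumption | exact Subalgebra.one_mem _ | exact Subalgebra.zero_mem _ | apply Subalgebra.add_mem | apply Subalgebra.mul_mem | apply Subalgebra.pow_mem)
    · repeat (first | assumption | exact Subalgebra.one_mem _ | exact Subalgebra.zero_mem _ | apply Subalgebra.add_mem | apply Subalgebra.mul_mem | apply Subalgebra.pow_mem)
    · repeat (first | assumption | exact Subalgebra.one_mem _ | exact Subalgebra.zero_mem _ | apply Subalgebra.add_mem | apply Subalgebra.mul_mem | apply Subalgebra.pow_mem)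
    · linear_combination (a₂ * c₃ * g₁ * g₂ + a₃ * c₂ * g₁ * g₃ + 2 * b₁ * c₂ * c₃ * g₁ + b₂ * c₂ * c₃ * g₁ + b₃ * c₂ * c₃ * g₁ + 2 * c₂ * c₃ * g₁ * κ + c₂ * g₁ * g₃ * τ + c₃ * g₁ * g₂ * τ) * hκ
  · rw [hm, hn]
    refine Lf_mk (e := ((κ + b₁) * g₁) * ((τ + a₂) * g₂ + c₂ * (κ + b₂)) * g₃ * κ)
      (m₁ := 0)
      (m₂ := a₂ * b₁ * g₁ * g₂ * g₃ + b₁ * b₂ * c₂ * g₁ * g₃)
      (m₃ := 0) ?_ ?_ ?_ ?_ ?_ ?_
    · repeat (first | assumption | exact Subalgebra.one_mem _ | apply Subalgebra.add_mem | apply Subalgebra.mul_mem)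
    · repeat (first | assumption | apply Submodule.add_mem | apply Submodule.mul_mem_mul)
    · repeat (first | assumption | exact Subalgebra.one_mem _ | exact Subalgebra.zero_mem _ | apply Subalgebra.add_mem | apply Subalgebra.mul_mem | apply Subalgebra.pow_mem)
    · repeat (first | assumption | exact Subalgebra.one_mem _ | exact Subalgebra.zero_mem _ | apply Subalgebra.add_mem | apply Subalgebra.mul_mem | apply Subalgebra.pow_mem)
    · repeat (first | assumption | exact Subalgebra.one_mem _ | exact Subalgebra.zero_mem _ | apply Subalgebra.add_mem | apply Subalgebra.mul_mem | apply Subalgebra.pow_mem)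
    · linear_combination (a₂ * g₁ * g₂ * g₃ + b₁ * c₂ * g₁ * g₃ + b₂ * c₂ * g₁ * g₃ + c₂ * g₁ * g₃ * κ + g₁ * g₂ * g₃ * τ) * hκ

theorem coreC {v : V} {τ κ a₁ b₁ c₁ g₁ a₂ b₂ c₂ g₂ s₄ u₄ : RR V}
    {E₁ E₂ E₃ E₄ : Submodule (ZMod 2) (RR V)}
    (hτ : τ ^ 2 = 0) (hκ : κ ^ 2 = 0) (h2 : (2 : RR V) = 0)
    (D₁ : PlD v τ κ E₁ a₁ b₁ c₁ g₁) (D₂ : PlD v τ κ E₂ a₂ b₂ c₂ g₂)
    (z₁ : (1 : RR V) ∈ E₃) (zt : τ ∈ E₃) (zq : κ ∈ E₃) (D₄ : PrD v τ κ E₄ s₄ u₄) :
    ∀ m ∈ ({1, c₁, g₁} : Set (RR V)), ∀ n ∈ ({1, c₂, g₂} : Set (RR V)),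
    ∀ k ∈ ({1, s₄, u₄} : Set (RR V)), m * (n * k) ∈ Lf v τ κ (E₁ * E₂ * E₃ * E₄) := by
  obtain ⟨fa₁, fb₁, fc₁, fg₁, x₁, xt, xq, xc, xg, xB, xQ⟩ := D₁
  obtain ⟨fa₂, fb₂, fc₂, fg₂, y₁, yt, yq, yc, yg, yB, yQ⟩ := D₂
  obtain ⟨fs₄, fu₄, w₁, wt, wq⟩ := D₄
  intro m hm n hn k hk
  simp only [Set.mem_insert_iff, Set.mem_singleton_iff] at hm hn hk
  rcases hm with hm | hm | hm <;> rcases hn with hn | hn | hn <;>
    rcases hk with hk | hk | hk
  · rw [hm, hn, hk]
    refine Lf_mk (e := 1 * 1 * τ * (κ + u₄))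
      (m₁ := u₄)
      (m₂ := 0)
      (m₃ := 0) ?_ ?_ ?_ ?_ ?_ ?_
    · repeat (first | assumption | exact Subalgebra.one_mem _ | apply Subalgebra.add_mem | apply Subalgebra.mul_mem)
    · repeat (first | assumption | apply Submodule.add_mem | apply Submodule.mul_mem_mul)
    · repeat (first | assumption | exact Subalgebra.one_mem _ | exact Subalgebra.zero_mem _ | apply Subalgebra.add_mem | apply Subalgebra.mul_mem | apply Subalgebra.pow_mem)
    · repeat (first | assumption | exact Subalgebra.one_mem _ | exact Subalgebra.zero_mem _ | apply Subalgebra.add_mem | apply Subalgebra.mul_mem | apply Subalgebra.pow_mem)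
    · repeat (first | assumption | exact Subalgebra.one_mem _ | exact Subalgebra.zero_mem _ | apply Subalgebra.add_mem | apply Subalgebra.mul_mem | apply Subalgebra.pow_mem)
    · linear_combination 0
  · rw [hm, hn, hk]
    refine Lf_mk (e := (κ + b₁) * 1 * τ * (τ + s₄))
      (m₁ := b₁ * s₄)
      (m₂ := 0)
      (m₃ := 0) ?_ ?_ ?_ ?_ ?_ ?_
    · repeat (first | assumption | exact Subalgebra.one_mem _ | apply Subalgebra.add_mem | apply Subalgebra.mul_mem)
    · repeat (first | assumption | apply Submodule.add_mem | apply Submodule.mul_mem_mul)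
    · repeat (first | assumption | exact Subalgebra.one_mem _ | exact Subalgebra.zero_mem _ | apply Subalgebra.add_mem | apply Subalgebra.mul_mem | apply Subalgebra.pow_mem)
    · repeat (first | assumption | exact Subalgebra.one_mem _ | exact Subalgebra.zero_mem _ | apply Subalgebra.add_mem | apply Subalgebra.mul_mem | apply Subalgebra.pow_mem)
    · repeat (first | assumption | exact Subalgebra.one_mem _ | exact Subalgebra.zero_mem _ | apply Subalgebra.add_mem | apply Subalgebra.mul_mem | apply Subalgebra.pow_mem)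
    · linear_combination (b₁ + κ) * hτ
  · rw [hm, hn, hk]
    refine Lf_mk (e := (τ + a₁) * 1 * κ * (κ + u₄))
      (m₁ := 0)
      (m₂ := a₁ * u₄)
      (m₃ := 0) ?_ ?_ ?_ ?_ ?_ ?_
    · repeat (first | assumption | exact Subalgebra.one_mem _ | apply Subalgebra.add_mem | apply Subalgebra.mul_mem)
    · repeat (first | assumption | apply Submodule.add_mem | apply Submodule.mul_mem_mul)
    · repeat (first | assumption | exact Subalgebra.one_mem _ | exact Subalgebra.zero_mem _ | apply Subalgebra.add_mem | apply Subalgebra.mul_mem | apply Subalgebra.pow_mem)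
    · repeat (first | assumption | exact Subalgebra.one_mem _ | exact Subalgebra.zero_mem _ | apply Subalgebra.add_mem | apply Subalgebra.mul_mem | apply Subalgebra.pow_mem)
    · repeat (first | assumption | exact Subalgebra.one_mem _ | exact Subalgebra.zero_mem _ | apply Subalgebra.add_mem | apply Subalgebra.mul_mem | apply Subalgebra.pow_mem)
    · linear_combination (a₁ + τ) * hκ
  · rw [hm, hn, hk]
    refine Lf_mk (e := 1 * c₂ * τ * (κ + u₄))
      (m₁ := c₂ * u₄)
      (m₂ := 0)
      (m₃ := 0) ?_ ?_ ?_ ?_ ?_ ?_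
    · repeat (first | assumption | exact Subalgebra.one_mem _ | apply Subalgebra.add_mem | apply Subalgebra.mul_mem)
    · repeat (first | assumption | apply Submodule.add_mem | apply Submodule.mul_mem_mul)
    · repeat (first | assumption | exact Subalgebra.one_mem _ | exact Subalgebra.zero_mem _ | apply Subalgebra.add_mem | apply Subalgebra.mul_mem | apply Subalgebra.pow_mem)
    · repeat (first | assumption | exact Subalgebra.one_mem _ | exact Subalgebra.zero_mem _ | apply Subalgebra.add_mem | apply Subalgebra.mul_mem | apply Subalgebra.pow_mem)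
    · repeat (first | assumption | exact Subalgebra.one_mem _ | exact Subalgebra.zero_mem _ | apply Subalgebra.add_mem | apply Subalgebra.mul_mem | apply Subalgebra.pow_mem)
    · linear_combination 0
  · rw [hm, hn, hk]
    refine Lf_mk (e := (κ + b₁) * c₂ * τ * (τ + s₄))
      (m₁ := b₁ * c₂ * s₄)
      (m₂ := 0)
      (m₃ := 0) ?_ ?_ ?_ ?_ ?_ ?_
    · repeat (first | assumption | exact Subalgebra.one_mem _ | apply Subalgebra.add_mem | apply Subalgebra.mul_mem)
    · repeat (first | assumption | apply Submodule.add_mem | apply Submodule.mul_mem_mul)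
    · repeat (first | assumption | exact Subalgebra.one_mem _ | exact Subalgebra.zero_mem _ | apply Subalgebra.add_mem | apply Subalgebra.mul_mem | apply Subalgebra.pow_mem)
    · repeat (first | assumption | exact Subalgebra.one_mem _ | exact Subalgebra.zero_mem _ | apply Subalgebra.add_mem | apply Subalgebra.mul_mem | apply Subalgebra.pow_mem)
    · repeat (first | assumption | exact Subalgebra.one_mem _ | exact Subalgebra.zero_mem _ | apply Subalgebra.add_mem | apply Subalgebra.mul_mem | apply Subalgebra.pow_mem)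
    · linear_combination (b₁ * c₂ + c₂ * κ) * hτ
  · rw [hm, hn, hk]
    refine Lf_mk (e := (τ + a₁) * c₂ * κ * (κ + u₄))
      (m₁ := 0)
      (m₂ := a₁ * c₂ * u₄)
      (m₃ := 0) ?_ ?_ ?_ ?_ ?_ ?_
    · repeat (first | assumption | exact Subalgebra.one_mem _ | apply Subalgebra.add_mem | apply Subalgebra.mul_mem)
    · repeat (first | assumption | apply Submodule.add_mem | apply Submodule.mul_mem_mul)
    · repeat (first | assumption | exact Subalgebra.one_mem _ | exact Subalgebra.zero_mem _ | apply Subalgebra.add_mem | apply Subalgebra.mul_mem | apply Subalgebra.pow_mem)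
    · repeat (first | assumption | exact Subalgebra.one_mem _ | exact Subalgebra.zero_mem _ | apply Subalgebra.add_mem | apply Subalgebra.mul_mem | apply Subalgebra.pow_mem)
    · repeat (first | assumption | exact Subalgebra.one_mem _ | exact Subalgebra.zero_mem _ | apply Subalgebra.add_mem | apply Subalgebra.mul_mem | apply Subalgebra.pow_mem)
    · linear_combination (a₁ * c₂ + c₂ * τ) * hκ
  · rw [hm, hn, hk]
    refine Lf_mk (e := 1 * g₂ * τ * (κ + u₄))
      (m₁ := g₂ * u₄)
      (m₂ := 0)
      (m₃ := 0) ?_ ?_ ?_ ?_ ?_ ?_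
    · repeat (first | assumption | exact Subalgebra.one_mem _ | apply Subalgebra.add_mem | apply Subalgebra.mul_mem)
    · repeat (first | assumption | apply Submodule.add_mem | apply Submodule.mul_mem_mul)
    · repeat (first | assumption | exact Subalgebra.one_mem _ | exact Subalgebra.zero_mem _ | apply Subalgebra.add_mem | apply Subalgebra.mul_mem | apply Subalgebra.pow_mem)
    · repeat (first | assumption | exact Subalgebra.one_mem _ | exact Subalgebra.zero_mem _ | apply Subalgebra.add_mem | apply Subalgebra.mul_mem | apply Subalgebra.pow_mem)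
    · repeat (first | assumption | exact Subalgebra.one_mem _ | exact Subalgebra.zero_mem _ | apply Subalgebra.add_mem | apply Subalgebra.mul_mem | apply Subalgebra.pow_mem)
    · linear_combination 0
  · rw [hm, hn, hk]
    refine Lf_mk (e := (κ + b₁) * g₂ * τ * (τ + s₄))
      (m₁ := b₁ * g₂ * s₄)
      (m₂ := 0)
      (m₃ := 0) ?_ ?_ ?_ ?_ ?_ ?_
    · repeat (first | assumption | exact Subalgebra.one_mem _ | apply Subalgebra.add_mem | apply Subalgebra.mul_mem)
    · repeat (first | assumption | apply Submodule.add_mem | apply Submodule.mul_mem_mul)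
    · repeat (first | assumption | exact Subalgebra.one_mem _ | exact Subalgebra.zero_mem _ | apply Subalgebra.add_mem | apply Subalgebra.mul_mem | apply Subalgebra.pow_mem)
    · repeat (first | assumption | exact Subalgebra.one_mem _ | exact Subalgebra.zero_mem _ | apply Subalgebra.add_mem | apply Subalgebra.mul_mem | apply Subalgebra.pow_mem)
    · repeat (first | assumption | exact Subalgebra.one_mem _ | exact Subalgebra.zero_mem _ | apply Subalgebra.add_mem | apply Subalgebra.mul_mem | apply Subalgebra.pow_mem)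
    · linear_combination (b₁ * g₂ + g₂ * κ) * hτ
  · rw [hm, hn, hk]
    refine Lf_mk (e := (τ + a₁) * g₂ * κ * (κ + u₄))
      (m₁ := 0)
      (m₂ := a₁ * g₂ * u₄)
      (m₃ := 0) ?_ ?_ ?_ ?_ ?_ ?_
    · repeat (first | assumption | exact Subalgebra.one_mem _ | apply Subalgebra.add_mem | apply Subalgebra.mul_mem)
    · repeat (first | assumption | apply Submodule.add_mem | apply Submodule.mul_mem_mul)
    · repeat (first | assumption | exact Subalgebra.one_mem _ | exact Subalgebra.zero_mem _ | apply Subalgebra.add_mem | apply Subalgebra.mul_mem | apply Subalgebra.pow_mem)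
    · repeat (first | assumption | exact Subalgebra.one_mem _ | exact Subalgebra.zero_mem _ | apply Subalgebra.add_mem | apply Subalgebra.mul_mem | apply Subalgebra.pow_mem)
    · repeat (first | assumption | exact Subalgebra.one_mem _ | exact Subalgebra.zero_mem _ | apply Subalgebra.add_mem | apply Subalgebra.mul_mem | apply Subalgebra.pow_mem)
    · linear_combination (a₁ * g₂ + g₂ * τ) * hκ
  · rw [hm, hn, hk]
    refine Lf_mk (e := c₁ * 1 * τ * (κ + u₄))
      (m₁ := c₁ * u₄)
      (m₂ := 0)
      (m₃ := 0) ?_ ?_ ?_ ?_ ?_ ?_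
    · repeat (first | assumption | exact Subalgebra.one_mem _ | apply Subalgebra.add_mem | apply Subalgebra.mul_mem)
    · repeat (first | assumption | apply Submodule.add_mem | apply Submodule.mul_mem_mul)
    · repeat (first | assumption | exact Subalgebra.one_mem _ | exact Subalgebra.zero_mem _ | apply Subalgebra.add_mem | apply Subalgebra.mul_mem | apply Subalgebra.pow_mem)
    · repeat (first | assumption | exact Subalgebra.one_mem _ | exact Subalgebra.zero_mem _ | apply Subalgebra.add_mem | apply Subalgebra.mul_mem | apply Subalgebra.pow_mem)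
    · repeat (first | assumption | exact Subalgebra.one_mem _ | exact Subalgebra.zero_mem _ | apply Subalgebra.add_mem | apply Subalgebra.mul_mem | apply Subalgebra.pow_mem)
    · linear_combination 0
  · rw [hm, hn, hk]
    refine Lf_mk (e := ((τ + a₁) * g₁ + c₁ * (κ + b₁)) * 1 * τ * (τ + s₄))
      (m₁ := a₁ * g₁ * s₄ + b₁ * c₁ * s₄)
      (m₂ := 0)
      (m₃ := 0) ?_ ?_ ?_ ?_ ?_ ?_
    · repeat (first | assumption | exact Subalgebra.one_mem _ | apply Subalgebra.add_mem | apply Subalgebra.mul_mem)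
    · repeat (first | assumption | apply Submodule.add_mem | apply Submodule.mul_mem_mul)
    · repeat (first | assumption | exact Subalgebra.one_mem _ | exact Subalgebra.zero_mem _ | apply Subalgebra.add_mem | apply Subalgebra.mul_mem | apply Subalgebra.pow_mem)
    · repeat (first | assumption | exact Subalgebra.one_mem _ | exact Subalgebra.zero_mem _ | apply Subalgebra.add_mem | apply Subalgebra.mul_mem | apply Subalgebra.pow_mem)
    · repeat (first | assumption | exact Subalgebra.one_mem _ | exact Subalgebra.zero_mem _ | apply Subalgebra.add_mem | apply Subalgebra.mul_mem | apply Subalgebra.pow_mem)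
    · linear_combination (a₁ * g₁ + b₁ * c₁ + c₁ * κ + g₁ * s₄ + g₁ * τ) * hτ
  · rw [hm, hn, hk]
    refine Lf_mk (e := c₁ * (τ + a₂) * κ * (κ + u₄))
      (m₁ := 0)
      (m₂ := a₂ * c₁ * u₄)
      (m₃ := 0) ?_ ?_ ?_ ?_ ?_ ?_
    · repeat (first | assumption | exact Subalgebra.one_mem _ | apply Subalgebra.add_mem | apply Subalgebra.mul_mem)
    · repeat (first | assumption | apply Submodule.add_mem | apply Submodule.mul_mem_mul)
    · repeat (first | assumption | exact Subalgebra.one_mem _ | exact Subalgebra.zero_mem _ | apply Subalgebra.add_mem | apply Subalgebra.mul_mem | apply Subalgebra.pow_mem)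
    · repeat (first | assumption | exact Subalgebra.one_mem _ | exact Subalgebra.zero_mem _ | apply Subalgebra.add_mem | apply Subalgebra.mul_mem | apply Subalgebra.pow_mem)
    · repeat (first | assumption | exact Subalgebra.one_mem _ | exact Subalgebra.zero_mem _ | apply Subalgebra.add_mem | apply Subalgebra.mul_mem | apply Subalgebra.pow_mem)
    · linear_combination (a₂ * c₁ + c₁ * τ) * hκ
  · rw [hm, hn, hk]
    refine Lf_mk (e := c₁ * c₂ * τ * (κ + u₄))
      (m₁ := c₁ * c₂ * u₄)
      (m₂ := 0)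
      (m₃ := 0) ?_ ?_ ?_ ?_ ?_ ?_
    · repeat (first | assumption | exact Subalgebra.one_mem _ | apply Subalgebra.add_mem | apply Subalgebra.mul_mem)
    · repeat (first | assumption | apply Submodule.add_mem | apply Submodule.mul_mem_mul)
    · repeat (first | assumption | exact Subalgebra.one_mem _ | exact Subalgebra.zero_mem _ | apply Subalgebra.add_mem | apply Subalgebra.mul_mem | apply Subalgebra.pow_mem)
    · repeat (first | assumption | exact Subalgebra.one_mem _ | exact Subalgebra.zero_mem _ | apply Subalgebra.add_mem | apply Subalgebra.mul_mem | apply Subalgebra.pow_mem)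
    · repeat (first | assumption | exact Subalgebra.one_mem _ | exact Subalgebra.zero_mem _ | apply Subalgebra.add_mem | apply Subalgebra.mul_mem | apply Subalgebra.pow_mem)
    · linear_combination 0
  · rw [hm, hn, hk]
    refine Lf_mk (e := ((τ + a₁) * g₁ + c₁ * (κ + b₁)) * c₂ * τ * (τ + s₄))
      (m₁ := a₁ * c₂ * g₁ * s₄ + b₁ * c₁ * c₂ * s₄)
      (m₂ := 0)
      (m₃ := 0) ?_ ?_ ?_ ?_ ?_ ?_
    · repeat (first | assumption | exact Subalgebra.one_mem _ | apply Subalgebra.add_mem | apply Subalgebra.mul_mem)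
    · repeat (first | assumption | apply Submodule.add_mem | apply Submodule.mul_mem_mul)
    · repeat (first | assumption | exact Subalgebra.one_mem _ | exact Subalgebra.zero_mem _ | apply Subalgebra.add_mem | apply Subalgebra.mul_mem | apply Subalgebra.pow_mem)
    · repeat (first | assumption | exact Subalgebra.one_mem _ | exact Subalgebra.zero_mem _ | apply Subalgebra.add_mem | apply Subalgebra.mul_mem | apply Subalgebra.pow_mem)
    · repeat (first | assumption | exact Subalgebra.one_mem _ | exact Subalgebra.zero_mem _ | apply Subalgebra.add_mem | apply Subalgebra.mul_mem | apply Subalgebra.pow_mem)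
    · linear_combination (a₁ * c₂ * g₁ + b₁ * c₁ * c₂ + c₁ * c₂ * κ + c₂ * g₁ * s₄ + c₂ * g₁ * τ) * hτ
  · rw [hm, hn, hk]
    refine Lf_mk (e := ((τ + a₁) * g₁ + c₁ * (κ + b₁)) * c₂ * κ * (τ + s₄) + ((τ + a₁) * g₁ + c₁ * (κ + b₁)) * c₂ * τ * (κ + u₄) + ((κ + b₁) * g₁) * c₂ * τ * (τ + s₄))
      (m₁ := a₁ * c₂ * g₁ * u₄ + b₁ * c₁ * c₂ * u₄ + b₁ * c₂ * g₁ * s₄)
      (m₂ := a₁ * c₂ * g₁ * s₄ + b₁ * c₁ * c₂ * s₄)
      (m₃ := 0) ?_ ?_ ?_ ?_ ?_ ?_
    · repeat (first | assumption | exact Subalgebra.one_mem _ | apply Subalgebra.add_mem | apply Subalgebra.mul_mem)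
    · repeat (first | assumption | apply Submodule.add_mem | apply Submodule.mul_mem_mul)
    · repeat (first | assumption | exact Subalgebra.one_mem _ | exact Subalgebra.zero_mem _ | apply Subalgebra.add_mem | apply Subalgebra.mul_mem | apply Subalgebra.pow_mem)
    · repeat (first | assumption | exact Subalgebra.one_mem _ | exact Subalgebra.zero_mem _ | apply Subalgebra.add_mem | apply Subalgebra.mul_mem | apply Subalgebra.pow_mem)
    · repeat (first | assumption | exact Subalgebra.one_mem _ | exact Subalgebra.zero_mem _ | apply Subalgebra.add_mem | apply Subalgebra.mul_mem | apply Subalgebra.pow_mem)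
    · linear_combination (b₁ * c₂ * g₁ + c₂ * g₁ * u₄ + 3 * c₂ * g₁ * κ) * hτ + (c₁ * c₂ * s₄ + 2 * c₁ * c₂ * τ) * hκ + (a₁ * c₂ * g₁ * κ * τ + b₁ * c₁ * c₂ * κ * τ + c₂ * g₁ * s₄ * κ * τ) * h2
  · rw [hm, hn, hk]
    refine Lf_mk (e := c₁ * g₂ * τ * (κ + u₄))
      (m₁ := c₁ * g₂ * u₄)
      (m₂ := 0)
      (m₃ := 0) ?_ ?_ ?_ ?_ ?_ ?_
    · repeat (first | assumption | exact Subalgebra.one_mem _ | apply Subalgebra.add_mem | apply Subalgebra.mul_mem)
    · repeat (first | assumption | apply Submodule.add_mem | apply Submodule.mul_mem_mul)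
    · repeat (first | assumption | exact Subalgebra.one_mem _ | exact Subalgebra.zero_mem _ | apply Subalgebra.add_mem | apply Subalgebra.mul_mem | apply Subalgebra.pow_mem)
    · repeat (first | assumption | exact Subalgebra.one_mem _ | exact Subalgebra.zero_mem _ | apply Subalgebra.add_mem | apply Subalgebra.mul_mem | apply Subalgebra.pow_mem)
    · repeat (first | assumption | exact Subalgebra.one_mem _ | exact Subalgebra.zero_mem _ | apply Subalgebra.add_mem | apply Subalgebra.mul_mem | apply Subalgebra.pow_mem)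
    · linear_combination 0
  · rw [hm, hn, hk]
    refine Lf_mk (e := ((τ + a₁) * g₁ + c₁ * (κ + b₁)) * g₂ * τ * (τ + s₄))
      (m₁ := a₁ * g₁ * g₂ * s₄ + b₁ * c₁ * g₂ * s₄)
      (m₂ := 0)
      (m₃ := 0) ?_ ?_ ?_ ?_ ?_ ?_
    · repeat (first | assumption | exact Subalgebra.one_mem _ | apply Subalgebra.add_mem | apply Subalgebra.mul_mem)
    · repeat (first | assumption | apply Submodule.add_mem | apply Submodule.mul_mem_mul)
    · repeat (first | assumption | exact Subalgebra.one_mem _ | exact Subalgebra.zero_mem _ | apply Subalgebra.add_mem | apply Subalgebra.mul_mem | apply Subalgebra.pow_mem)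
    · repeat (first | assumption | exact Subalgebra.one_mem _ | exact Subalgebra.zero_mem _ | apply Subalgebra.add_mem | apply Subalgebra.mul_mem | apply Subalgebra.pow_mem)
    · repeat (first | assumption | exact Subalgebra.one_mem _ | exact Subalgebra.zero_mem _ | apply Subalgebra.add_mem | apply Subalgebra.mul_mem | apply Subalgebra.pow_mem)
    · linear_combination (a₁ * g₁ * g₂ + b₁ * c₁ * g₂ + c₁ * g₂ * κ + g₁ * g₂ * s₄ + g₁ * g₂ * τ) * hτ
  · rw [hm, hn, hk]
    refine Lf_mk (e := c₁ * ((τ + a₂) * g₂ + c₂ * (κ + b₂)) * κ * (κ + u₄))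
      (m₁ := 0)
      (m₂ := a₂ * c₁ * g₂ * u₄ + b₂ * c₁ * c₂ * u₄)
      (m₃ := 0) ?_ ?_ ?_ ?_ ?_ ?_
    · repeat (first | assumption | exact Subalgebra.one_mem _ | apply Subalgebra.add_mem | apply Subalgebra.mul_mem)
    · repeat (first | assumption | apply Submodule.add_mem | apply Submodule.mul_mem_mul)
    · repeat (first | assumption | exact Subalgebra.one_mem _ | exact Subalgebra.zero_mem _ | apply Subalgebra.add_mem | apply Subalgebra.mul_mem | apply Subalgebra.pow_mem)
    · repeat (first | assumption | exact Subalgebra.one_mem _ | exact Subalgebra.zero_mem _ | apply Subalgebra.add_mem | apply Subalgebra.mul_mem | apply Subalgebra.pow_mem)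
    · repeat (first | assumption | exact Subalgebra.one_mem _ | exact Subalgebra.zero_mem _ | apply Subalgebra.add_mem | apply Subalgebra.mul_mem | apply Subalgebra.pow_mem)
    · linear_combination (a₂ * c₁ * g₂ + b₂ * c₁ * c₂ + c₁ * c₂ * u₄ + c₁ * c₂ * κ + c₁ * g₂ * τ) * hκ
  · rw [hm, hn, hk]
    refine Lf_mk (e := g₁ * 1 * τ * (κ + u₄))
      (m₁ := g₁ * u₄)
      (m₂ := 0)
      (m₃ := 0) ?_ ?_ ?_ ?_ ?_ ?_
    · repeat (first | assumption | exact Subalgebra.one_mem _ | apply Subalgebra.add_mem | apply Subalgebra.mul_mem)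
    · repeat (first | assumption | apply Submodule.add_mem | apply Submodule.mul_mem_mul)
    · repeat (first | assumption | exact Subalgebra.one_mem _ | exact Subalgebra.zero_mem _ | apply Subalgebra.add_mem | apply Subalgebra.mul_mem | apply Subalgebra.pow_mem)
    · repeat (first | assumption | exact Subalgebra.one_mem _ | exact Subalgebra.zero_mem _ | apply Subalgebra.add_mem | apply Subalgebra.mul_mem | apply Subalgebra.pow_mem)
    · repeat (first | assumption | exact Subalgebra.one_mem _ | exact Subalgebra.zero_mem _ | apply Subalgebra.add_mem | apply Subalgebra.mul_mem | apply Subalgebra.pow_mem)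
    · linear_combination 0
  · rw [hm, hn, hk]
    refine Lf_mk (e := ((κ + b₁) * g₁) * 1 * τ * (τ + s₄))
      (m₁ := b₁ * g₁ * s₄)
      (m₂ := 0)
      (m₃ := 0) ?_ ?_ ?_ ?_ ?_ ?_
    · repeat (first | assumption | exact Subalgebra.one_mem _ | apply Subalgebra.add_mem | apply Subalgebra.mul_mem)
    · repeat (first | assumption | apply Submodule.add_mem | apply Submodule.mul_mem_mul)
    · repeat (first | assumption | exact Subalgebra.one_mem _ | exact Subalgebra.zero_mem _ | apply Subalgebra.add_mem | apply Subalgebra.mul_mem | apply Subalgebra.pow_mem)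
    · repeat (first | assumption | exact Subalgebra.one_mem _ | exact Subalgebra.zero_mem _ | apply Subalgebra.add_mem | apply Subalgebra.mul_mem | apply Subalgebra.pow_mem)
    · repeat (first | assumption | exact Subalgebra.one_mem _ | exact Subalgebra.zero_mem _ | apply Subalgebra.add_mem | apply Subalgebra.mul_mem | apply Subalgebra.pow_mem)
    · linear_combination (b₁ * g₁ + g₁ * κ) * hτ
  · rw [hm, hn, hk]
    refine Lf_mk (e := ((τ + a₁) * g₁ + c₁ * (κ + b₁)) * 1 * κ * (κ + u₄))
      (m₁ := 0)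
      (m₂ := a₁ * g₁ * u₄ + b₁ * c₁ * u₄)
      (m₃ := 0) ?_ ?_ ?_ ?_ ?_ ?_
    · repeat (first | assumption | exact Subalgebra.one_mem _ | apply Subalgebra.add_mem | apply Subalgebra.mul_mem)
    · repeat (first | assumption | apply Submodule.add_mem | apply Submodule.mul_mem_mul)
    · repeat (first | assumption | exact Subalgebra.one_mem _ | exact Subalgebra.zero_mem _ | apply Subalgebra.add_mem | apply Subalgebra.mul_mem | apply Subalgebra.pow_mem)
    · repeat (first | assumption | exact Subalgebra.one_mem _ | exact Subalgebra.zero_mem _ | apply Subalgebra.add_mem | apply Subalgebra.mul_mem | apply Subalgebra.pow_mem)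
    · repeat (first | assumption | exact Subalgebra.one_mem _ | exact Subalgebra.zero_mem _ | apply Subalgebra.add_mem | apply Subalgebra.mul_mem | apply Subalgebra.pow_mem)
    · linear_combination (a₁ * g₁ + b₁ * c₁ + c₁ * u₄ + c₁ * κ + g₁ * τ) * hκ
  · rw [hm, hn, hk]
    refine Lf_mk (e := g₁ * c₂ * τ * (κ + u₄))
      (m₁ := c₂ * g₁ * u₄)
      (m₂ := 0)
      (m₃ := 0) ?_ ?_ ?_ ?_ ?_ ?_
    · repeat (first | assumption | exact Subalgebra.one_mem _ | apply Subalgebra.add_mem | apply Subalgebra.mul_mem)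
    · repeat (first | assumption | apply Submodule.add_mem | apply Submodule.mul_mem_mul)
    · repeat (first | assumption | exact Subalgebra.one_mem _ | exact Subalgebra.zero_mem _ | apply Subalgebra.add_mem | apply Subalgebra.mul_mem | apply Subalgebra.pow_mem)
    · repeat (first | assumption | exact Subalgebra.one_mem _ | exact Subalgebra.zero_mem _ | apply Subalgebra.add_mem | apply Subalgebra.mul_mem | apply Subalgebra.pow_mem)
    · repeat (first | assumption | exact Subalgebra.one_mem _ | exact Subalgebra.zero_mem _ | apply Subalgebra.add_mem | apply Subalgebra.mul_mem | apply Subalgebra.pow_mem)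
    · linear_combination 0
  · rw [hm, hn, hk]
    refine Lf_mk (e := ((κ + b₁) * g₁) * c₂ * τ * (τ + s₄))
      (m₁ := b₁ * c₂ * g₁ * s₄)
      (m₂ := 0)
      (m₃ := 0) ?_ ?_ ?_ ?_ ?_ ?_
    · repeat (first | assumption | exact Subalgebra.one_mem _ | apply Subalgebra.add_mem | apply Subalgebra.mul_mem)
    · repeat (first | assumption | apply Submodule.add_mem | apply Submodule.mul_mem_mul)
    · repeat (first | assumption | exact Subalgebra.one_mem _ | exact Subalgebra.zero_mem _ | apply Subalgebra.add_mem | apply Subalgebra.mul_mem | apply Subalgebra.pow_mem)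
    · repeat (first | assumption | exact Subalgebra.one_mem _ | exact Subalgebra.zero_mem _ | apply Subalgebra.add_mem | apply Subalgebra.mul_mem | apply Subalgebra.pow_mem)
    · repeat (first | assumption | exact Subalgebra.one_mem _ | exact Subalgebra.zero_mem _ | apply Subalgebra.add_mem | apply Subalgebra.mul_mem | apply Subalgebra.pow_mem)
    · linear_combination (b₁ * c₂ * g₁ + c₂ * g₁ * κ) * hτ
  · rw [hm, hn, hk]
    refine Lf_mk (e := ((τ + a₁) * g₁ + c₁ * (κ + b₁)) * c₂ * κ * (κ + u₄))
      (m₁ := 0)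
      (m₂ := a₁ * c₂ * g₁ * u₄ + b₁ * c₁ * c₂ * u₄)
      (m₃ := 0) ?_ ?_ ?_ ?_ ?_ ?_
    · repeat (first | assumption | exact Subalgebra.one_mem _ | apply Subalgebra.add_mem | apply Subalgebra.mul_mem)
    · repeat (first | assumption | apply Submodule.add_mem | apply Submodule.mul_mem_mul)
    · repeat (first | assumption | exact Subalgebra.one_mem _ | exact Subalgebra.zero_mem _ | apply Subalgebra.add_mem | apply Subalgebra.mul_mem | apply Subalgebra.pow_mem)
    · repeat (first | assumption | exact Subalgebra.one_mem _ | exact Subalgebra.zero_mem _ | apply Subalgebra.add_mem | apply Subalgebra.mul_mem | apply Subalgebra.pow_mem)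
    · repeat (first | assumption | exact Subalgebra.one_mem _ | exact Subalgebra.zero_mem _ | apply Subalgebra.add_mem | apply Subalgebra.mul_mem | apply Subalgebra.pow_mem)
    · linear_combination (a₁ * c₂ * g₁ + b₁ * c₁ * c₂ + c₁ * c₂ * u₄ + c₁ * c₂ * κ + c₂ * g₁ * τ) * hκ
  · rw [hm, hn, hk]
    refine Lf_mk (e := g₁ * g₂ * τ * (κ + u₄))
      (m₁ := g₁ * g₂ * u₄)
      (m₂ := 0)
      (m₃ := 0) ?_ ?_ ?_ ?_ ?_ ?_
    · repeat (first | assumption | exact Subalgebra.one_mem _ | apply Subalgebra.add_mem | apply Subalgebra.mul_mem)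
    · repeat (first | assumption | apply Submodule.add_mem | apply Submodule.mul_mem_mul)
    · repeat (first | assumption | exact Subalgebra.one_mem _ | exact Subalgebra.zero_mem _ | apply Subalgebra.add_mem | apply Subalgebra.mul_mem | apply Subalgebra.pow_mem)
    · repeat (first | assumption | exact Subalgebra.one_mem _ | exact Subalgebra.zero_mem _ | apply Subalgebra.add_mem | apply Subalgebra.mul_mem | apply Subalgebra.pow_mem)
    · repeat (first | assumption | exact Subalgebra.one_mem _ | exact Subalgebra.zero_mem _ | apply Subalgebra.add_mem | apply Subalgebra.mul_mem | apply Subalgebra.pow_mem)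
    · linear_combination 0
  · rw [hm, hn, hk]
    refine Lf_mk (e := ((κ + b₁) * g₁) * g₂ * τ * (τ + s₄))
      (m₁ := b₁ * g₁ * g₂ * s₄)
      (m₂ := 0)
      (m₃ := 0) ?_ ?_ ?_ ?_ ?_ ?_
    · repeat (first | assumption | exact Subalgebra.one_mem _ | apply Subalgebra.add_mem | apply Subalgebra.mul_mem)
    · repeat (first | assumption | apply Submodule.add_mem | apply Submodule.mul_mem_mul)
    · repeat (first | assumption | exact Subalgebra.one_mem _ | exact Subalgebra.zero_mem _ | apply Subalgebra.add_mem | apply Subalgebra.mul_mem | apply Subalgebra.pow_mem)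
    · repeat (first | assumption | exact Subalgebra.one_mem _ | exact Subalgebra.zero_mem _ | apply Subalgebra.add_mem | apply Subalgebra.mul_mem | apply Subalgebra.pow_mem)
    · repeat (first | assumption | exact Subalgebra.one_mem _ | exact Subalgebra.zero_mem _ | apply Subalgebra.add_mem | apply Subalgebra.mul_mem | apply Subalgebra.pow_mem)
    · linear_combination (b₁ * g₁ * g₂ + g₁ * g₂ * κ) * hτ
  · rw [hm, hn, hk]
    refine Lf_mk (e := ((τ + a₁) * g₁ + c₁ * (κ + b₁)) * g₂ * κ * (κ + u₄))
      (m₁ := 0)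
      (m₂ := a₁ * g₁ * g₂ * u₄ + b₁ * c₁ * g₂ * u₄)
      (m₃ := 0) ?_ ?_ ?_ ?_ ?_ ?_
    · repeat (first | assumption | exact Subalgebra.one_mem _ | apply Subalgebra.add_mem | apply Subalgebra.mul_mem)
    · repeat (first | assumption | apply Submodule.add_mem | apply Submodule.mul_mem_mul)
    · repeat (first | assumption | exact Subalgebra.one_mem _ | exact Subalgebra.zero_mem _ | apply Subalgebra.add_mem | apply Subalgebra.mul_mem | apply Subalgebra.pow_mem)
    · repeat (first | assumption | exact Subalgebra.one_mem _ | exact Subalgebra.zero_mem _ | apply Subalgebra.add_mem | apply Subalgebra.mul_mem | apply Subalgebra.pow_mem)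
    · repeat (first | assumption | exact Subalgebra.one_mem _ | exact Subalgebra.zero_mem _ | apply Subalgebra.add_mem | apply Subalgebra.mul_mem | apply Subalgebra.pow_mem)
    · linear_combination (a₁ * g₁ * g₂ + b₁ * c₁ * g₂ + c₁ * g₂ * u₄ + c₁ * g₂ * κ + g₁ * g₂ * τ) * hκ

theorem coreD {v : V} {τ κ a₁ b₁ c₁ g₁ s₃ u₃ s₄ u₄ : RR V}
    {E₁ E₂ E₃ E₄ : Submodule (ZMod 2) (RR V)}
    (hτ : τ ^ 2 = 0) (hκ : κ ^ 2 = 0) (h2 : (2 : RR V) = 0)
    (D₁ : PlD v τ κ E₁ a₁ b₁ c₁ g₁) (y₁ : (1 : RR V) ∈ E₂) (yt : τ ∈ E₂) (yq : κ ∈ E₂)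
    (D₃ : PrD v τ κ E₃ s₃ u₃) (D₄ : PrD v τ κ E₄ s₄ u₄) :
    ∀ m ∈ ({1, a₁, c₁, b₁, g₁, a₁ * g₁ + c₁ * b₁, b₁ * g₁} : Set (RR V)),
    ∀ n ∈ ({1, s₃ + s₄, u₃ + u₄} : Set (RR V)), m * n ∈ Lf v τ κ (E₁ * E₂ * E₃ * E₄) := by
  obtain ⟨fa₁, fb₁, fc₁, fg₁, x₁, xt, xq, xc, xg, xB, xQ⟩ := D₁
  obtain ⟨fs₃, fu₃, z₁, zt, zq⟩ := D₃
  obtain ⟨fs₄, fu₄, w₁, wt, wq⟩ := D₄
  intro m hm n hn
  simp only [Set.mem_insert_iff, Set.mem_singleton_iff] at hm hn
  rcases hm with hm | hm | hm | hm | hm | hm | hm <;> rcases hn with hn | hn | hn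
  · rw [hm, hn]
    refine Lf_mk (e := 1 * τ * (κ + u₃) * 1)
      (m₁ := u₃)
      (m₂ := 0)
      (m₃ := 0) ?_ ?_ ?_ ?_ ?_ ?_
    · repeat (first | assumption | exact Subalgebra.one_mem _ | apply Subalgebra.add_mem | apply Subalgebra.mul_mem)
    · repeat (first | assumption | apply Submodule.add_mem | apply Submodule.mul_mem_mul)
    · repeat (first | assumption | exact Subalgebra.one_mem _ | exact Subalgebra.zero_mem _ | apply Subalgebra.add_mem | apply Subalgebra.mul_mem | apply Subalgebra.pow_mem)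
    · repeat (first | assumption | exact Subalgebra.one_mem _ | exact Subalgebra.zero_mem _ | apply Subalgebra.add_mem | apply Subalgebra.mul_mem | apply Subalgebra.pow_mem)
    · repeat (first | assumption | exact Subalgebra.one_mem _ | exact Subalgebra.zero_mem _ | apply Subalgebra.add_mem | apply Subalgebra.mul_mem | apply Subalgebra.pow_mem)
    · linear_combination 0
  · rw [hm, hn]
    refine Lf_mk (e := 1 * κ * (τ + s₃) * (τ + s₄))
      (m₁ := 0)
      (m₂ := s₃ * s₄)
      (m₃ := 0) ?_ ?_ ?_ ?_ ?_ ?_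
    · repeat (first | assumption | exact Subalgebra.one_mem _ | apply Subalgebra.add_mem | apply Subalgebra.mul_mem)
    · repeat (first | assumption | apply Submodule.add_mem | apply Submodule.mul_mem_mul)
    · repeat (first | assumption | exact Subalgebra.one_mem _ | exact Subalgebra.zero_mem _ | apply Subalgebra.add_mem | apply Subalgebra.mul_mem | apply Subalgebra.pow_mem)
    · repeat (first | assumption | exact Subalgebra.one_mem _ | exact Subalgebra.zero_mem _ | apply Subalgebra.add_mem | apply Subalgebra.mul_mem | apply Subalgebra.pow_mem)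
    · repeat (first | assumption | exact Subalgebra.one_mem _ | exact Subalgebra.zero_mem _ | apply Subalgebra.add_mem | apply Subalgebra.mul_mem | apply Subalgebra.pow_mem)
    · linear_combination (κ) * hτ
  · rw [hm, hn]
    refine Lf_mk (e := 1 * τ * (κ + u₃) * (κ + u₄))
      (m₁ := u₃ * u₄)
      (m₂ := 0)
      (m₃ := 0) ?_ ?_ ?_ ?_ ?_ ?_
    · repeat (first | assumption | exact Subalgebra.one_mem _ | apply Subalgebra.add_mem | apply Subalgebra.mul_mem)
    · repeat (first | assumption | apply Submodule.add_mem | apply Submodule.mul_mem_mul)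
    · repeat (first | assumption | exact Subalgebra.one_mem _ | exact Subalgebra.zero_mem _ | apply Subalgebra.add_mem | apply Subalgebra.mul_mem | apply Subalgebra.pow_mem)
    · repeat (first | assumption | exact Subalgebra.one_mem _ | exact Subalgebra.zero_mem _ | apply Subalgebra.add_mem | apply Subalgebra.mul_mem | apply Subalgebra.pow_mem)
    · repeat (first | assumption | exact Subalgebra.one_mem _ | exact Subalgebra.zero_mem _ | apply Subalgebra.add_mem | apply Subalgebra.mul_mem | apply Subalgebra.pow_mem)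
    · linear_combination (τ) * hκ
  · rw [hm, hn]
    refine Lf_mk (e := (τ + a₁) * τ * (κ + u₃) * 1)
      (m₁ := a₁ * u₃)
      (m₂ := 0)
      (m₃ := 0) ?_ ?_ ?_ ?_ ?_ ?_
    · repeat (first | assumption | exact Subalgebra.one_mem _ | apply Subalgebra.add_mem | apply Subalgebra.mul_mem)
    · repeat (first | assumption | apply Submodule.add_mem | apply Submodule.mul_mem_mul)
    · repeat (first | assumption | exact Subalgebra.one_mem _ | exact Subalgebra.zero_mem _ | apply Subalgebra.add_mem | apply Subalgebra.mul_mem | apply Subalgebra.pow_mem)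
    · repeat (first | assumption | exact Subalgebra.one_mem _ | exact Subalgebra.zero_mem _ | apply Subalgebra.add_mem | apply Subalgebra.mul_mem | apply Subalgebra.pow_mem)
    · repeat (first | assumption | exact Subalgebra.one_mem _ | exact Subalgebra.zero_mem _ | apply Subalgebra.add_mem | apply Subalgebra.mul_mem | apply Subalgebra.pow_mem)
    · linear_combination (u₃ + κ) * hτ
  · rw [hm, hn]
    refine Lf_mk (e := (τ + a₁) * τ * (κ + u₃) * (τ + s₄) + (τ + a₁) * τ * (τ + s₃) * (κ + u₄))
      (m₁ := a₁ * s₃ * u₄ + a₁ * s₄ * u₃)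
      (m₂ := 0)
      (m₃ := 0) ?_ ?_ ?_ ?_ ?_ ?_
    · repeat (first | assumption | exact Subalgebra.one_mem _ | apply Subalgebra.add_mem | apply Subalgebra.mul_mem)
    · repeat (first | assumption | apply Submodule.add_mem | apply Submodule.mul_mem_mul)
    · repeat (first | assumption | exact Subalgebra.one_mem _ | exact Subalgebra.zero_mem _ | apply Subalgebra.add_mem | apply Subalgebra.mul_mem | apply Subalgebra.pow_mem)
    · repeat (first | assumption | exact Subalgebra.one_mem _ | exact Subalgebra.zero_mem _ | apply Subalgebra.add_mem | apply Subalgebra.mul_mem | apply Subalgebra.pow_mem)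
    · repeat (first | assumption | exact Subalgebra.one_mem _ | exact Subalgebra.zero_mem _ | apply Subalgebra.add_mem | apply Subalgebra.mul_mem | apply Subalgebra.pow_mem)
    · linear_combination (a₁ * u₃ + a₁ * u₄ + 2 * a₁ * κ + s₃ * u₄ + s₃ * κ + s₄ * u₃ + s₄ * κ + u₃ * τ + u₄ * τ + 2 * κ * τ) * hτ
  · rw [hm, hn]
    refine Lf_mk (e := (τ + a₁) * τ * (κ + u₃) * (κ + u₄))
      (m₁ := a₁ * u₃ * u₄)
      (m₂ := 0)
      (m₃ := 0) ?_ ?_ ?_ ?_ ?_ ?_
    · repeat (first | assumption | exact Subalgebra.one_mem _ | apply Subalgebra.add_mem | apply Subalgebra.mul_mem)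
    · repeat (first | assumption | apply Submodule.add_mem | apply Submodule.mul_mem_mul)
    · repeat (first | assumption | exact Subalgebra.one_mem _ | exact Subalgebra.zero_mem _ | apply Subalgebra.add_mem | apply Subalgebra.mul_mem | apply Subalgebra.pow_mem)
    · repeat (first | assumption | exact Subalgebra.one_mem _ | exact Subalgebra.zero_mem _ | apply Subalgebra.add_mem | apply Subalgebra.mul_mem | apply Subalgebra.pow_mem)
    · repeat (first | assumption | exact Subalgebra.one_mem _ | exact Subalgebra.zero_mem _ | apply Subalgebra.add_mem | apply Subalgebra.mul_mem | apply Subalgebra.pow_mem)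
    · linear_combination (u₃ * u₄ + u₃ * κ + u₄ * κ + κ ^ 2) * hτ + (a₁ * τ) * hκ
  · rw [hm, hn]
    refine Lf_mk (e := c₁ * τ * (κ + u₃) * 1)
      (m₁ := c₁ * u₃)
      (m₂ := 0)
      (m₃ := 0) ?_ ?_ ?_ ?_ ?_ ?_
    · repeat (first | assumption | exact Subalgebra.one_mem _ | apply Subalgebra.add_mem | apply Subalgebra.mul_mem)
    · repeat (first | assumption | apply Submodule.add_mem | apply Submodule.mul_mem_mul)
    · repeat (first | assumption | exact Subalgebra.one_mem _ | exact Subalgebra.zero_mem _ | apply Subalgebra.add_mem | apply Subalgebra.mul_mem | apply Subalgebra.pow_mem)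
    · repeat (first | assumption | exact Subalgebra.one_mem _ | exact Subalgebra.zero_mem _ | apply Subalgebra.add_mem | apply Subalgebra.mul_mem | apply Subalgebra.pow_mem)
    · repeat (first | assumption | exact Subalgebra.one_mem _ | exact Subalgebra.zero_mem _ | apply Subalgebra.add_mem | apply Subalgebra.mul_mem | apply Subalgebra.pow_mem)
    · linear_combination 0
  · rw [hm, hn]
    refine Lf_mk (e := c₁ * κ * (τ + s₃) * (τ + s₄))
      (m₁ := 0)
      (m₂ := c₁ * s₃ * s₄)
      (m₃ := 0) ?_ ?_ ?_ ?_ ?_ ?_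
    · repeat (first | assumption | exact Subalgebra.one_mem _ | apply Subalgebra.add_mem | apply Subalgebra.mul_mem)
    · repeat (first | assumption | apply Submodule.add_mem | apply Submodule.mul_mem_mul)
    · repeat (first | assumption | exact Subalgebra.one_mem _ | exact Subalgebra.zero_mem _ | apply Subalgebra.add_mem | apply Subalgebra.mul_mem | apply Subalgebra.pow_mem)
    · repeat (first | assumption | exact Subalgebra.one_mem _ | exact Subalgebra.zero_mem _ | apply Subalgebra.add_mem | apply Subalgebra.mul_mem | apply Subalgebra.pow_mem)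
    · repeat (first | assumption | exact Subalgebra.one_mem _ | exact Subalgebra.zero_mem _ | apply Subalgebra.add_mem | apply Subalgebra.mul_mem | apply Subalgebra.pow_mem)
    · linear_combination (c₁ * κ) * hτ
  · rw [hm, hn]
    refine Lf_mk (e := c₁ * τ * (κ + u₃) * (κ + u₄))
      (m₁ := c₁ * u₃ * u₄)
      (m₂ := 0)
      (m₃ := 0) ?_ ?_ ?_ ?_ ?_ ?_
    · repeat (first | assumption | exact Subalgebra.one_mem _ | apply Subalgebra.add_mem | apply Subalgebra.mul_mem)
    · repeat (first | assumption | apply Submodule.add_mem | apply Submodule.mul_mem_mul)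
    · repeat (first | assumption | exact Subalgebra.one_mem _ | exact Subalgebra.zero_mem _ | apply Subalgebra.add_mem | apply Subalgebra.mul_mem | apply Subalgebra.pow_mem)
    · repeat (first | assumption | exact Subalgebra.one_mem _ | exact Subalgebra.zero_mem _ | apply Subalgebra.add_mem | apply Subalgebra.mul_mem | apply Subalgebra.pow_mem)
    · repeat (first | assumption | exact Subalgebra.one_mem _ | exact Subalgebra.zero_mem _ | apply Subalgebra.add_mem | apply Subalgebra.mul_mem | apply Subalgebra.pow_mem)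
    · linear_combination (c₁ * τ) * hκ
  · rw [hm, hn]
    refine Lf_mk (e := (κ + b₁) * κ * (τ + s₃) * 1)
      (m₁ := 0)
      (m₂ := b₁ * s₃)
      (m₃ := 0) ?_ ?_ ?_ ?_ ?_ ?_
    · repeat (first | assumption | exact Subalgebra.one_mem _ | apply Subalgebra.add_mem | apply Subalgebra.mul_mem)
    · repeat (first | assumption | apply Submodule.add_mem | apply Submodule.mul_mem_mul)
    · repeat (first | assumption | exact Subalgebra.one_mem _ | exact Subalgebra.zero_mem _ | apply Subalgebra.add_mem | apply Subalgebra.mul_mem | apply Subalgebra.pow_mem)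
    · repeat (first | assumption | exact Subalgebra.one_mem _ | exact Subalgebra.zero_mem _ | apply Subalgebra.add_mem | apply Subalgebra.mul_mem | apply Subalgebra.pow_mem)
    · repeat (first | assumption | exact Subalgebra.one_mem _ | exact Subalgebra.zero_mem _ | apply Subalgebra.add_mem | apply Subalgebra.mul_mem | apply Subalgebra.pow_mem)
    · linear_combination (s₃ + τ) * hκ
  · rw [hm, hn]
    refine Lf_mk (e := (κ + b₁) * κ * (τ + s₃) * (τ + s₄))
      (m₁ := 0)
      (m₂ := b₁ * s₃ * s₄)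
      (m₃ := 0) ?_ ?_ ?_ ?_ ?_ ?_
    · repeat (first | assumption | exact Subalgebra.one_mem _ | apply Subalgebra.add_mem | apply Subalgebra.mul_mem)
    · repeat (first | assumption | apply Submodule.add_mem | apply Submodule.mul_mem_mul)
    · repeat (first | assumption | exact Subalgebra.one_mem _ | exact Subalgebra.zero_mem _ | apply Subalgebra.add_mem | apply Subalgebra.mul_mem | apply Subalgebra.pow_mem)
    · repeat (first | assumption | exact Subalgebra.one_mem _ | exact Subalgebra.zero_mem _ | apply Subalgebra.add_mem | apply Subalgebra.mul_mem | apply Subalgebra.pow_mem)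
    · repeat (first | assumption | exact Subalgebra.one_mem _ | exact Subalgebra.zero_mem _ | apply Subalgebra.add_mem | apply Subalgebra.mul_mem | apply Subalgebra.pow_mem)
    · linear_combination (b₁ * κ + κ ^ 2) * hτ + (s₃ * s₄ + s₃ * τ + s₄ * τ) * hκ
  · rw [hm, hn]
    refine Lf_mk (e := (κ + b₁) * κ * (κ + u₃) * (τ + s₄) + (κ + b₁) * κ * (τ + s₃) * (κ + u₄))
      (m₁ := 0)
      (m₂ := b₁ * s₃ * u₄ + b₁ * s₄ * u₃)
      (m₃ := 0) ?_ ?_ ?_ ?_ ?_ ?_
    · repeat (first | assumption | exact Subalgebra.one_mem _ | apply Subalgebra.add_mem | apply Subalgebra.mul_mem)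
    · repeat (first | assumption | apply Submodule.add_mem | apply Submodule.mul_mem_mul)
    · repeat (first | assumption | exact Subalgebra.one_mem _ | exact Subalgebra.zero_mem _ | apply Subalgebra.add_mem | apply Subalgebra.mul_mem | apply Subalgebra.pow_mem)
    · repeat (first | assumption | exact Subalgebra.one_mem _ | exact Subalgebra.zero_mem _ | apply Subalgebra.add_mem | apply Subalgebra.mul_mem | apply Subalgebra.pow_mem)
    · repeat (first | assumption | exact Subalgebra.one_mem _ | exact Subalgebra.zero_mem _ | apply Subalgebra.add_mem | apply Subalgebra.mul_mem | apply Subalgebra.pow_mem)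
    · linear_combination (b₁ * s₃ + b₁ * s₄ + 2 * b₁ * τ + s₃ * u₄ + s₃ * κ + s₄ * u₃ + s₄ * κ + u₃ * τ + u₄ * τ + 2 * κ * τ) * hκ
  · rw [hm, hn]
    refine Lf_mk (e := g₁ * τ * (κ + u₃) * 1)
      (m₁ := g₁ * u₃)
      (m₂ := 0)
      (m₃ := 0) ?_ ?_ ?_ ?_ ?_ ?_
    · repeat (first | assumption | exact Subalgebra.one_mem _ | apply Subalgebra.add_mem | apply Subalgebra.mul_mem)
    · repeat (first | assumption | apply Submodule.add_mem | apply Submodule.mul_mem_mul)
    · repeat (first | assumption | exact Subalgebra.one_mem _ | exact Subalgebra.zero_mem _ | apply Subalgebra.add_mem | apply Subalgebra.mul_mem | apply Subalgebra.pow_mem)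
    · repeat (first | assumption | exact Subalgebra.one_mem _ | exact Subalgebra.zero_mem _ | apply Subalgebra.add_mem | apply Subalgebra.mul_mem | apply Subalgebra.pow_mem)
    · repeat (first | assumption | exact Subalgebra.one_mem _ | exact Subalgebra.zero_mem _ | apply Subalgebra.add_mem | apply Subalgebra.mul_mem | apply Subalgebra.pow_mem)
    · linear_combination 0
  · rw [hm, hn]
    refine Lf_mk (e := g₁ * κ * (τ + s₃) * (τ + s₄))
      (m₁ := 0)
      (m₂ := g₁ * s₃ * s₄)
      (m₃ := 0) ?_ ?_ ?_ ?_ ?_ ?_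
    · repeat (first | assumption | exact Subalgebra.one_mem _ | apply Subalgebra.add_mem | apply Subalgebra.mul_mem)
    · repeat (first | assumption | apply Submodule.add_mem | apply Submodule.mul_mem_mul)
    · repeat (first | assumption | exact Subalgebra.one_mem _ | exact Subalgebra.zero_mem _ | apply Subalgebra.add_mem | apply Subalgebra.mul_mem | apply Subalgebra.pow_mem)
    · repeat (first | assumption | exact Subalgebra.one_mem _ | exact Subalgebra.zero_mem _ | apply Subalgebra.add_mem | apply Subalgebra.mul_mem | apply Subalgebra.pow_mem)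
    · repeat (first | assumption | exact Subalgebra.one_mem _ | exact Subalgebra.zero_mem _ | apply Subalgebra.add_mem | apply Subalgebra.mul_mem | apply Subalgebra.pow_mem)
    · linear_combination (g₁ * κ) * hτ
  · rw [hm, hn]
    refine Lf_mk (e := g₁ * τ * (κ + u₃) * (κ + u₄))
      (m₁ := g₁ * u₃ * u₄)
      (m₂ := 0)
      (m₃ := 0) ?_ ?_ ?_ ?_ ?_ ?_
    · repeat (first | assumption | exact Subalgebra.one_mem _ | apply Subalgebra.add_mem | apply Subalgebra.mul_mem)
    · repeat (first | assumption | apply Submodule.add_mem | apply Submodule.mul_mem_mul)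
    · repeat (first | assumption | exact Subalgebra.one_mem _ | exact Subalgebra.zero_mem _ | apply Subalgebra.add_mem | apply Subalgebra.mul_mem | apply Subalgebra.pow_mem)
    · repeat (first | assumption | exact Subalgebra.one_mem _ | exact Subalgebra.zero_mem _ | apply Subalgebra.add_mem | apply Subalgebra.mul_mem | apply Subalgebra.pow_mem)
    · repeat (first | assumption | exact Subalgebra.one_mem _ | exact Subalgebra.zero_mem _ | apply Subalgebra.add_mem | apply Subalgebra.mul_mem | apply Subalgebra.pow_mem)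
    · linear_combination (g₁ * τ) * hκ
  · rw [hm, hn]
    refine Lf_mk (e := ((τ + a₁) * g₁ + c₁ * (κ + b₁)) * τ * (κ + u₃) * 1 + c₁ * κ * (κ + u₃) * (τ + s₄))
      (m₁ := a₁ * g₁ * u₃ + b₁ * c₁ * u₃)
      (m₂ := c₁ * s₄ * u₃)
      (m₃ := 0) ?_ ?_ ?_ ?_ ?_ ?_
    · repeat (first | assumption | exact Subalgebra.one_mem _ | apply Subalgebra.add_mem | apply Subalgebra.mul_mem)
    · repeat (first | assumption | apply Submodule.add_mem | apply Submodule.mul_mem_mul)
    · repeat (first | assumption | exact Subalgebra.one_mem _ | exact Subalgebra.zero_mem _ | apply Subalgebra.add_mem | apply Subalgebra.mul_mem | apply Subalgebra.pow_mem)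
    · repeat (first | assumption | exact Subalgebra.one_mem _ | exact Subalgebra.zero_mem _ | apply Subalgebra.add_mem | apply Subalgebra.mul_mem | apply Subalgebra.pow_mem)
    · repeat (first | assumption | exact Subalgebra.one_mem _ | exact Subalgebra.zero_mem _ | apply Subalgebra.add_mem | apply Subalgebra.mul_mem | apply Subalgebra.pow_mem)
    · linear_combination (g₁ * u₃ + g₁ * κ) * hτ + (c₁ * s₄ + 2 * c₁ * τ) * hκ + (c₁ * u₃ * κ * τ) * h2
  · rw [hm, hn]
    refine Lf_mk (e := ((τ + a₁) * g₁ + c₁ * (κ + b₁)) * κ * (τ + s₃) * (τ + s₄) + ((κ + b₁) * g₁) * τ * (τ + s₃) * (τ + s₄))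
      (m₁ := b₁ * g₁ * s₃ * s₄)
      (m₂ := a₁ * g₁ * s₃ * s₄ + b₁ * c₁ * s₃ * s₄)
      (m₃ := 0) ?_ ?_ ?_ ?_ ?_ ?_
    · repeat (first | assumption | exact Subalgebra.one_mem _ | apply Subalgebra.add_mem | apply Subalgebra.mul_mem)
    · repeat (first | assumption | apply Submodule.add_mem | apply Submodule.mul_mem_mul)
    · repeat (first | assumption | exact Subalgebra.one_mem _ | exact Subalgebra.zero_mem _ | apply Subalgebra.add_mem | apply Subalgebra.mul_mem | apply Subalgebra.pow_mem)
    · repeat (first | assumption | exact Subalgebra.one_mem _ | exact Subalgebra.zero_mem _ | apply Subalgebra.add_mem | apply Subalgebra.mul_mem | apply Subalgebra.pow_mem)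
    · repeat (first | assumption | exact Subalgebra.one_mem _ | exact Subalgebra.zero_mem _ | apply Subalgebra.add_mem | apply Subalgebra.mul_mem | apply Subalgebra.pow_mem)
    · linear_combination (a₁ * g₁ * κ + b₁ * c₁ * κ + b₁ * g₁ * s₃ + b₁ * g₁ * s₄ + b₁ * g₁ * τ + c₁ * κ ^ 2 + 2 * g₁ * s₃ * κ + 2 * g₁ * s₄ * κ + 2 * g₁ * κ * τ) * hτ + (c₁ * s₃ * s₄ + c₁ * s₃ * τ + c₁ * s₄ * τ) * hκ + (g₁ * s₃ * s₄ * κ * τ) * h2
  · rw [hm, hn]
    refine Lf_mk (e := ((τ + a₁) * g₁ + c₁ * (κ + b₁)) * κ * (κ + u₃) * (τ + s₄) + ((τ + a₁) * g₁ + c₁ * (κ + b₁)) * κ * (τ + s₃) * (κ + u₄) + ((κ + b₁) * g₁) * τ * (κ + u₃) * (τ + s₄) + ((κ + b₁) * g₁) * τ * (τ + s₃) * (κ + u₄) + ((κ + b₁) * g₁) * κ * (τ + s₃) * (τ + s₄))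
      (m₁ := b₁ * g₁ * s₃ * u₄ + b₁ * g₁ * s₄ * u₃)
      (m₂ := a₁ * g₁ * s₃ * u₄ + a₁ * g₁ * s₄ * u₃ + b₁ * c₁ * s₃ * u₄ + b₁ * c₁ * s₄ * u₃ + b₁ * g₁ * s₃ * s₄)
      (m₃ := 0) ?_ ?_ ?_ ?_ ?_ ?_
    · repeat (first | assumption | exact Subalgebra.one_mem _ | apply Subalgebra.add_mem | apply Subalgebra.mul_mem)
    · repeat (first | assumption | apply Submodule.add_mem | apply Submodule.mul_mem_mul)
    · repeat (first | assumption | exact Subalgebra.one_mem _ | exact Subalgebra.zero_mem _ | apply Subalgebra.add_mem | apply Subalgebra.mul_mem | apply Subalgebra.pow_mem)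
    · repeat (first | assumption | exact Subalgebra.one_mem _ | exact Subalgebra.zero_mem _ | apply Subalgebra.add_mem | apply Subalgebra.mul_mem | apply Subalgebra.pow_mem)
    · repeat (first | assumption | exact Subalgebra.one_mem _ | exact Subalgebra.zero_mem _ | apply Subalgebra.add_mem | apply Subalgebra.mul_mem | apply Subalgebra.pow_mem)
    · linear_combination (b₁ * g₁ * u₃ + b₁ * g₁ * u₄ + 3 * b₁ * g₁ * κ + 2 * g₁ * u₃ * κ + 2 * g₁ * u₄ * κ + 5 * g₁ * κ ^ 2) * hτ + (a₁ * g₁ * s₃ + a₁ * g₁ * s₄ + 2 * a₁ * g₁ * τ + b₁ * c₁ * s₃ + b₁ * c₁ * s₄ + 2 * b₁ * c₁ * τ + c₁ * s₃ * u₄ + c₁ * s₃ * κ + c₁ * s₄ * u₃ + c₁ * s₄ * κ + c₁ * u₃ * τ + c₁ * u₄ * τ + 2 * c₁ * κ * τ + g₁ * s₃ * s₄ + 3 * g₁ * s₃ * τ + 3 * g₁ * s₄ * τ) * hκ + (b₁ * g₁ * s₃ * κ * τ + b₁ * g₁ * s₄ * κ * τ + g₁ * s₃ * u₄ * κ * τ + g₁ * s₄ * u₃ * κ * τ) * h2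
  · rw [hm, hn]
    refine Lf_mk (e := ((κ + b₁) * g₁) * κ * (τ + s₃) * 1)
      (m₁ := 0)
      (m₂ := b₁ * g₁ * s₃)
      (m₃ := 0) ?_ ?_ ?_ ?_ ?_ ?_
    · repeat (first | assumption | exact Subalgebra.one_mem _ | apply Subalgebra.add_mem | apply Subalgebra.mul_mem)
    · repeat (first | assumption | apply Submodule.add_mem | apply Submodule.mul_mem_mul)
    · repeat (first | assumption | exact Subalgebra.one_mem _ | exact Subalgebra.zero_mem _ | apply Subalgebra.add_mem | apply Subalgebra.mul_mem | apply Subalgebra.pow_mem)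
    · repeat (first | assumption | exact Subalgebra.one_mem _ | exact Subalgebra.zero_mem _ | apply Subalgebra.add_mem | apply Subalgebra.mul_mem | apply Subalgebra.pow_mem)
    · repeat (first | assumption | exact Subalgebra.one_mem _ | exact Subalgebra.zero_mem _ | apply Subalgebra.add_mem | apply Subalgebra.mul_mem | apply Subalgebra.pow_mem)
    · linear_combination (g₁ * s₃ + g₁ * τ) * hκ
  · rw [hm, hn]
    refine Lf_mk (e := ((κ + b₁) * g₁) * κ * (τ + s₃) * (τ + s₄))
      (m₁ := 0)
      (m₂ := b₁ * g₁ * s₃ * s₄)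
      (m₃ := 0) ?_ ?_ ?_ ?_ ?_ ?_
    · repeat (first | assumption | exact Subalgebra.one_mem _ | apply Subalgebra.add_mem | apply Subalgebra.mul_mem)
    · repeat (first | assumption | apply Submodule.add_mem | apply Submodule.mul_mem_mul)
    · repeat (first | assumption | exact Subalgebra.one_mem _ | exact Subalgebra.zero_mem _ | apply Subalgebra.add_mem | apply Subalgebra.mul_mem | apply Subalgebra.pow_mem)
    · repeat (first | assumption | exact Subalgebra.one_mem _ | exact Subalgebra.zero_mem _ | apply Subalgebra.add_mem | apply Subalgebra.mul_mem | apply Subalgebra.pow_mem)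
    · repeat (first | assumption | exact Subalgebra.one_mem _ | exact Subalgebra.zero_mem _ | apply Subalgebra.add_mem | apply Subalgebra.mul_mem | apply Subalgebra.pow_mem)
    · linear_combination (b₁ * g₁ * κ + g₁ * κ ^ 2) * hτ + (g₁ * s₃ * s₄ + g₁ * s₃ * τ + g₁ * s₄ * τ) * hκ
  · rw [hm, hn]
    refine Lf_mk (e := ((κ + b₁) * g₁) * κ * (κ + u₃) * (τ + s₄) + ((κ + b₁) * g₁) * κ * (τ + s₃) * (κ + u₄))
      (m₁ := 0)
      (m₂ := b₁ * g₁ * s₃ * u₄ + b₁ * g₁ * s₄ * u₃)
      (m₃ := 0) ?_ ?_ ?_ ?_ ?_ ?_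
    · repeat (first | assumption | exact Subalgebra.one_mem _ | apply Subalgebra.add_mem | apply Subalgebra.mul_mem)
    · repeat (first | assumption | apply Submodule.add_mem | apply Submodule.mul_mem_mul)
    · repeat (first | assumption | exact Subalgebra.one_mem _ | exact Subalgebra.zero_mem _ | apply Subalgebra.add_mem | apply Subalgebra.mul_mem | apply Subalgebra.pow_mem)
    · repeat (first | assumption | exact Subalgebra.one_mem _ | exact Subalgebra.zero_mem _ | apply Subalgebra.add_mem | apply Subalgebra.mul_mem | apply Subalgebra.pow_mem)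
    · repeat (first | assumption | exact Subalgebra.one_mem _ | exact Subalgebra.zero_mem _ | apply Subalgebra.add_mem | apply Subalgebra.mul_mem | apply Subalgebra.pow_mem)
    · linear_combination (b₁ * g₁ * s₃ + b₁ * g₁ * s₄ + 2 * b₁ * g₁ * τ + g₁ * s₃ * u₄ + g₁ * s₃ * κ + g₁ * s₄ * u₃ + g₁ * s₄ * κ + g₁ * u₃ * τ + g₁ * u₄ * τ + 2 * g₁ * κ * τ) * hκ

theorem coreE {v : V} {τ κ s₂ u₂ s₃ u₃ s₄ u₄ : RR V}
    {E₁ E₂ E₃ E₄ : Submodule (ZMod 2) (RR V)}
    (hτ : τ ^ 2 = 0) (hκ : κ ^ 2 = 0) (h2 : (2 : RR V) = 0)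
    (x₁ : (1 : RR V) ∈ E₁) (xt : τ ∈ E₁) (xq : κ ∈ E₁) (D₂ : PrD v τ κ E₂ s₂ u₂)
    (D₃ : PrD v τ κ E₃ s₃ u₃) (D₄ : PrD v τ κ E₄ s₄ u₄) :
    ∀ m ∈ ({1, s₂, u₂} : Set (RR V)), ∀ n ∈ ({1, s₃ + s₄, u₃ + u₄} : Set (RR V)),
      m * n ∈ Lf v τ κ (E₁ * E₂ * E₃ * E₄) := by
  obtain ⟨fs₂, fu₂, y₁, yt, yq⟩ := D₂
  obtain ⟨fs₃, fu₃, z₁, zt, zq⟩ := D₃
  obtain ⟨fs₄, fu₄, w₁, wt, wq⟩ := D₄
  intro m hm n hn
  simp only [Set.mem_insert_iff, Set.mem_singleton_iff] at hm hn
  rcases hm with hm | hm | hm <;> rcases hn with hn | hn | hn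
  · rw [hm, hn]
    refine Lf_mk (e := τ * (κ + u₂) * 1 * 1)
      (m₁ := u₂)
      (m₂ := 0)
      (m₃ := 0) ?_ ?_ ?_ ?_ ?_ ?_
    · repeat (first | assumption | exact Subalgebra.one_mem _ | apply Subalgebra.add_mem | apply Subalgebra.mul_mem)
    · repeat (first | assumption | apply Submodule.add_mem | apply Submodule.mul_mem_mul)
    · repeat (first | assumption | exact Subalgebra.one_mem _ | exact Subalgebra.zero_mem _ | apply Subalgebra.add_mem | apply Subalgebra.mul_mem | apply Subalgebra.pow_mem)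
    · repeat (first | assumption | exact Subalgebra.one_mem _ | exact Subalgebra.zero_mem _ | apply Subalgebra.add_mem | apply Subalgebra.mul_mem | apply Subalgebra.pow_mem)
    · repeat (first | assumption | exact Subalgebra.one_mem _ | exact Subalgebra.zero_mem _ | apply Subalgebra.add_mem | apply Subalgebra.mul_mem | apply Subalgebra.pow_mem)
    · linear_combination 0
  · rw [hm, hn]
    refine Lf_mk (e := κ * 1 * (τ + s₃) * (τ + s₄))
      (m₁ := 0)
      (m₂ := s₃ * s₄)
      (m₃ := 0) ?_ ?_ ?_ ?_ ?_ ?_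
    · repeat (first | assumption | exact Subalgebra.one_mem _ | apply Subalgebra.add_mem | apply Subalgebra.mul_mem)
    · repeat (first | assumption | apply Submodule.add_mem | apply Submodule.mul_mem_mul)
    · repeat (first | assumption | exact Subalgebra.one_mem _ | exact Subalgebra.zero_mem _ | apply Subalgebra.add_mem | apply Subalgebra.mul_mem | apply Subalgebra.pow_mem)
    · repeat (first | assumption | exact Subalgebra.one_mem _ | exact Subalgebra.zero_mem _ | apply Subalgebra.add_mem | apply Subalgebra.mul_mem | apply Subalgebra.pow_mem)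
    · repeat (first | assumption | exact Subalgebra.one_mem _ | exact Subalgebra.zero_mem _ | apply Subalgebra.add_mem | apply Subalgebra.mul_mem | apply Subalgebra.pow_mem)
    · linear_combination (κ) * hτ
  · rw [hm, hn]
    refine Lf_mk (e := τ * 1 * (κ + u₃) * (κ + u₄))
      (m₁ := u₃ * u₄)
      (m₂ := 0)
      (m₃ := 0) ?_ ?_ ?_ ?_ ?_ ?_
    · repeat (first | assumption | exact Subalgebra.one_mem _ | apply Subalgebra.add_mem | apply Subalgebra.mul_mem)
    · repeat (first | assumption | apply Submodule.add_mem | apply Submodule.mul_mem_mul)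
    · repeat (first | assumption | exact Subalgebra.one_mem _ | exact Subalgebra.zero_mem _ | apply Subalgebra.add_mem | apply Subalgebra.mul_mem | apply Subalgebra.pow_mem)
    · repeat (first | assumption | exact Subalgebra.one_mem _ | exact Subalgebra.zero_mem _ | apply Subalgebra.add_mem | apply Subalgebra.mul_mem | apply Subalgebra.pow_mem)
    · repeat (first | assumption | exact Subalgebra.one_mem _ | exact Subalgebra.zero_mem _ | apply Subalgebra.add_mem | apply Subalgebra.mul_mem | apply Subalgebra.pow_mem)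
    · linear_combination (τ) * hκ
  · rw [hm, hn]
    refine Lf_mk (e := τ * (τ + s₂) * (κ + u₃) * 1)
      (m₁ := s₂ * u₃)
      (m₂ := 0)
      (m₃ := 0) ?_ ?_ ?_ ?_ ?_ ?_
    · repeat (first | assumption | exact Subalgebra.one_mem _ | apply Subalgebra.add_mem | apply Subalgebra.mul_mem)
    · repeat (first | assumption | apply Submodule.add_mem | apply Submodule.mul_mem_mul)
    · repeat (first | assumption | exact Subalgebra.one_mem _ | exact Subalgebra.zero_mem _ | apply Subalgebra.add_mem | apply Subalgebra.mul_mem | apply Subalgebra.pow_mem)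
    · repeat (first | assumption | exact Subalgebra.one_mem _ | exact Subalgebra.zero_mem _ | apply Subalgebra.add_mem | apply Subalgebra.mul_mem | apply Subalgebra.pow_mem)
    · repeat (first | assumption | exact Subalgebra.one_mem _ | exact Subalgebra.zero_mem _ | apply Subalgebra.add_mem | apply Subalgebra.mul_mem | apply Subalgebra.pow_mem)
    · linear_combination (u₃ + κ) * hτ
  · rw [hm, hn]
    refine Lf_mk (e := τ * (τ + s₂) * (τ + s₃) * (κ + u₄) + τ * (τ + s₂) * (κ + u₃) * (τ + s₄))
      (m₁ := s₂ * s₃ * u₄ + s₂ * s₄ * u₃)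
      (m₂ := 0)
      (m₃ := 0) ?_ ?_ ?_ ?_ ?_ ?_
    · repeat (first | assumption | exact Subalgebra.one_mem _ | apply Subalgebra.add_mem | apply Subalgebra.mul_mem)
    · repeat (first | assumption | apply Submodule.add_mem | apply Submodule.mul_mem_mul)
    · repeat (first | assumption | exact Subalgebra.one_mem _ | exact Subalgebra.zero_mem _ | apply Subalgebra.add_mem | apply Subalgebra.mul_mem | apply Subalgebra.pow_mem)
    · repeat (first | assumption | exact Subalgebra.one_mem _ | exact Subalgebra.zero_mem _ | apply Subalgebra.add_mem | apply Subalgebra.mul_mem | apply Subalgebra.pow_mem)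
    · repeat (first | assumption | exact Subalgebra.one_mem _ | exact Subalgebra.zero_mem _ | apply Subalgebra.add_mem | apply Subalgebra.mul_mem | apply Subalgebra.pow_mem)
    · linear_combination (s₂ * u₃ + s₂ * u₄ + 2 * s₂ * κ + s₃ * u₄ + s₃ * κ + s₄ * u₃ + s₄ * κ + u₃ * τ + u₄ * τ + 2 * κ * τ) * hτ
  · rw [hm, hn]
    refine Lf_mk (e := τ * (τ + s₂) * (κ + u₃) * (κ + u₄))
      (m₁ := s₂ * u₃ * u₄)
      (m₂ := 0)
      (m₃ := 0) ?_ ?_ ?_ ?_ ?_ ?_
    · repeat (first | assumption | exact Subalgebra.one_mem _ | apply Subalgebra.add_mem | apply Subalgebra.mul_mem)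
    · repeat (first | assumption | apply Submodule.add_mem | apply Submodule.mul_mem_mul)
    · repeat (first | assumption | exact Subalgebra.one_mem _ | exact Subalgebra.zero_mem _ | apply Subalgebra.add_mem | apply Subalgebra.mul_mem | apply Subalgebra.pow_mem)
    · repeat (first | assumption | exact Subalgebra.one_mem _ | exact Subalgebra.zero_mem _ | apply Subalgebra.add_mem | apply Subalgebra.mul_mem | apply Subalgebra.pow_mem)
    · repeat (first | assumption | exact Subalgebra.one_mem _ | exact Subalgebra.zero_mem _ | apply Subalgebra.add_mem | apply Subalgebra.mul_mem | apply Subalgebra.pow_mem)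
    · linear_combination (u₃ * u₄ + u₃ * κ + u₄ * κ + κ ^ 2) * hτ + (s₂ * τ) * hκ
  · rw [hm, hn]
    refine Lf_mk (e := κ * (κ + u₂) * (τ + s₃) * 1)
      (m₁ := 0)
      (m₂ := s₃ * u₂)
      (m₃ := 0) ?_ ?_ ?_ ?_ ?_ ?_
    · repeat (first | assumption | exact Subalgebra.one_mem _ | apply Subalgebra.add_mem | apply Subalgebra.mul_mem)
    · repeat (first | assumption | apply Submodule.add_mem | apply Submodule.mul_mem_mul)
    · repeat (first | assumption | exact Subalgebra.one_mem _ | exact Subalgebra.zero_mem _ | apply Subalgebra.add_mem | apply Subalgebra.mul_mem | apply Subalgebra.pow_mem)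
    · repeat (first | assumption | exact Subalgebra.one_mem _ | exact Subalgebra.zero_mem _ | apply Subalgebra.add_mem | apply Subalgebra.mul_mem | apply Subalgebra.pow_mem)
    · repeat (first | assumption | exact Subalgebra.one_mem _ | exact Subalgebra.zero_mem _ | apply Subalgebra.add_mem | apply Subalgebra.mul_mem | apply Subalgebra.pow_mem)
    · linear_combination (s₃ + τ) * hκ
  · rw [hm, hn]
    refine Lf_mk (e := κ * (κ + u₂) * (τ + s₃) * (τ + s₄))
      (m₁ := 0)
      (m₂ := s₃ * s₄ * u₂)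
      (m₃ := 0) ?_ ?_ ?_ ?_ ?_ ?_
    · repeat (first | assumption | exact Subalgebra.one_mem _ | apply Subalgebra.add_mem | apply Subalgebra.mul_mem)
    · repeat (first | assumption | apply Submodule.add_mem | apply Submodule.mul_mem_mul)
    · repeat (first | assumption | exact Subalgebra.one_mem _ | exact Subalgebra.zero_mem _ | apply Subalgebra.add_mem | apply Subalgebra.mul_mem | apply Subalgebra.pow_mem)
    · repeat (first | assumption | exact Subalgebra.one_mem _ | exact Subalgebra.zero_mem _ | apply Subalgebra.add_mem | apply Subalgebra.mul_mem | apply Subalgebra.pow_mem)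
    · repeat (first | assumption | exact Subalgebra.one_mem _ | exact Subalgebra.zero_mem _ | apply Subalgebra.add_mem | apply Subalgebra.mul_mem | apply Subalgebra.pow_mem)
    · linear_combination (u₂ * κ + κ ^ 2) * hτ + (s₃ * s₄ + s₃ * τ + s₄ * τ) * hκ
  · rw [hm, hn]
    refine Lf_mk (e := κ * (κ + u₂) * (κ + u₃) * (τ + s₄) + κ * (κ + u₂) * (τ + s₃) * (κ + u₄))
      (m₁ := 0)
      (m₂ := s₃ * u₂ * u₄ + s₄ * u₂ * u₃)
      (m₃ := 0) ?_ ?_ ?_ ?_ ?_ ?_
    · repeat (first | assumption | exact Subalgebra.one_mem _ | apply Subalgebra.add_mem | apply Subalgebra.mul_mem)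
    · repeat (first | assumption | apply Submodule.add_mem | apply Submodule.mul_mem_mul)
    · repeat (first | assumption | exact Subalgebra.one_mem _ | exact Subalgebra.zero_mem _ | apply Subalgebra.add_mem | apply Subalgebra.mul_mem | apply Subalgebra.pow_mem)
    · repeat (first | assumption | exact Subalgebra.one_mem _ | exact Subalgebra.zero_mem _ | apply Subalgebra.add_mem | apply Subalgebra.mul_mem | apply Subalgebra.pow_mem)
    · repeat (first | assumption | exact Subalgebra.one_mem _ | exact Subalgebra.zero_mem _ | apply Subalgebra.add_mem | apply Subalgebra.mul_mem | apply Subalgebra.pow_mem)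
    · linear_combination (s₃ * u₂ + s₃ * u₄ + s₃ * κ + s₄ * u₂ + s₄ * u₃ + s₄ * κ + 2 * u₂ * τ + u₃ * τ + u₄ * τ + 2 * κ * τ) * hκ

end G

end Pool.Agent.ClawHam
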