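import Pool.Agent.Lib.MP_e2dbb5_co.G1

/-!
# Systems of planes: trimming, the base case and twin planes (helper93, row MONO)
-/

set_option autoImplicit false
set_option linter.unusedSectionVars false

open Finset MvPolynomial

noncomputable section

namespace Pool.Agent.ClawHam

open Classical

namespace GM

open G

variable {V : Type} [Fintype V]

/-- a vector of the plane in coordinates -/
theorem co {x y z : Vec V} (h : z = 0 ∨ z = x ∨ z = y ∨ z = x + y) :
    ∃ a b : ℕ, TT z = a * TT x + b * TT y ∧ QQ z = a * QQ x + b * QQ y := by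
  rcases h with h | h | h | h
  · exact ⟨0, 0, by rw [h, TT_zero]; push_cast; ring, by rw [h, QQ_zero]; push_cast; ring⟩
  · exact ⟨1, 0, by rw [h]; push_cast; ring, by rw [h]; push_cast; ring⟩
  · exact ⟨0, 1, by rw [h]; push_cast; ring, by rw [h]; push_cast; ring⟩
  · exact ⟨1, 1, by rw [h, TT_add]; push_cast; ring, by rw [h, QQ_add]; push_cast; ring⟩

theorem nat_mem {S : Submodule (ZMod 2) (RR V)} {z : RR V} (n : ℕ) (hz : z ∈ S) :
    (n : RR V) * z ∈ S := by
  rw [← nsmul_eq_mul]
  exact S.nsmul_mem hz n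

/-- the space of a smaller plane -/
theorem OO_mono {P P' : El V} (h1 : P'.1 = 0 ∨ P'.1 = P.1 ∨ P'.1 = P.2 ∨ P'.1 = P.1 + P.2)
    (h2 : P'.2 = 0 ∨ P'.2 = P.1 ∨ P'.2 = P.2 ∨ P'.2 = P.1 + P.2) : OO P' ≤ OO P := by
  obtain ⟨a, b, ht1, hq1⟩ := co h1
  obtain ⟨c, d, ht2, hq2⟩ := co h2
  refine OO_le (one_mem P) ?_ ?_ ?_ ?_ ?_ ?_
  · rw [ht1]
    exact add_mem (nat_mem a (t1_mem P)) (nat_mem b (t2_mem P))
  · rw [ht2]
    exact add_mem (nat_mem c (t1_mem P)) (nat_mem d (t2_mem P))
  · rw [hq1]
    exact add_mem (nat_mem a (q1_mem P)) (nat_mem b (q2_mem P))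
  · rw [hq2]
    exact add_mem (nat_mem c (q1_mem P)) (nat_mem d (q2_mem P))
  · have h : TT P'.1 * QQ P'.2 + TT P'.2 * QQ P'.1 =
        ((a * d + b * c : ℕ) : RR V) * (TT P.1 * QQ P.2 + TT P.2 * QQ P.1) := by
      rw [ht1, ht2, hq1, hq2]
      push_cast
      linear_combination ((a : RR V) * c * TT P.1 * QQ P.1 + b * d * TT P.2 * QQ P.2) *
        (two_eq_zero : (2 : RR V) = 0)
    rw [h]
    exact nat_mem _ (be_mem P)
  · have h : QQ P'.1 * QQ P'.2 = ((a * d + b * c : ℕ) : RR V) * (QQ P.1 * QQ P.2) := by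
      rw [hq1, hq2]
      push_cast
      linear_combination ((a : RR V) * c) * QQ_sq P.1 + ((b : RR V) * d) * QQ_sq P.2
    rw [h]
    exact nat_mem _ (qq_mem P)

theorem assoc (A B C : Submodule (ZMod 2) (RR V)) : A * B * C = A * (B * C) := mul_assoc A B C

theorem mul_le_left {A B : Submodule (ZMod 2) (RR V)} (h : A ≤ B)
    (C : Submodule (ZMod 2) (RR V)) : A * C ≤ B * C := mul_le_mul' h le_rfl

theorem algE_mono {B₀ : Finset V} {s s' : Multiset (El V)} (h : OP s ≤ OP s') (ha : AlgE B₀ s) :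
    AlgE B₀ s' := by
  obtain ⟨r, hr, x, hx, ht⟩ := ha
  exact ⟨r, hr, x, h hx, ht⟩

/-- the space of a vector -/
theorem OO_vec (x : Vec V) : OO (x, 0) = Submodule.span (ZMod 2) {1, TT x, QQ x} := by
  refine le_antisymm ?_ ?_
  · have h1 : (1 : RR V) ∈ Submodule.span (ZMod 2) ({1, TT x, QQ x} : Set (RR V)) :=
      Submodule.subset_span (by simp)
    have h2 : TT x ∈ Submodule.span (ZMod 2) ({1, TT x, QQ x} : Set (RR V)) :=
      Submodule.subset_span (by simp)
    have h3 : QQ x ∈ Submodule.span (ZMod 2) ({1, TT x, QQ x} : Set (RR V)) :=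
      Submodule.subset_span (by simp)
    refine OO_le h1 h2 ?_ h3 ?_ ?_ ?_
    · simp only [TT_zero, Submodule.zero_mem]
    · simp only [QQ_zero, Submodule.zero_mem]
    · simp only [TT_zero, QQ_zero, mul_zero, zero_mul, add_zero, Submodule.zero_mem]
    · simp only [QQ_zero, mul_zero, Submodule.zero_mem]
  · rw [Submodule.span_le]
    intro z hz
    simp only [Set.mem_insert_iff, Set.mem_singleton_iff] at hz
    rcases hz with rfl | rfl | rfl
    · exact one_mem (x, 0)
    · exact t1_mem (x, 0)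
    · exact q1_mem (x, 0)

theorem mem_of {S : Submodule (ZMod 2) (RR V)} {z w : RR V} (h : z = w) (hw : w ∈ S) : z ∈ S := by
  rw [h]
  exact hw

/-- the triangle in the square of the plane -/
theorem OO_twin (x y : Vec V) : OO (x, 0) * OO (y, 0) * OO (x + y, 0) ≤ OO (x, y) * OO (x, y) := by
  have M : ∀ {u v : RR V}, u ∈ OO (x, y) → v ∈ OO (x, y) → u * v ∈ OO (x, y) * OO (x, y) :=
    fun hu hv => Submodule.mul_mem_mul hu hv
  have i1 : (1 : RR V) ∈ OO (x, y) := one_mem (x, y)
  have ix : TT x ∈ OO (x, y) := t1_mem (x, y)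
  have iy : TT y ∈ OO (x, y) := t2_mem (x, y)
  have jx : QQ x ∈ OO (x, y) := q1_mem (x, y)
  have jy : QQ y ∈ OO (x, y) := q2_mem (x, y)
  have ib : TT x * QQ y + TT y * QQ x ∈ OO (x, y) := be_mem (x, y)
  have iq : QQ x * QQ y ∈ OO (x, y) := qq_mem (x, y)
  have tx2 := TT_sq x
  have ty2 := TT_sq y
  have qx2 := QQ_sq x
  have qy2 := QQ_sq y
  have m1 := M i1 i1
  have mtx := M i1 ix
  have mty := M i1 iy
  have mqx := M i1 jx
  have mqy := M i1 jy
  have mtt := M ix iy
  have mqq := M jx jy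
  have mxx := M ix jx
  have mxy := M ix jy
  have myx := M iy jx
  have myy := M iy jy
  have nx : TT x * TT y * QQ x ∈ OO (x, y) * OO (x, y) :=
    mem_of (by linear_combination (-QQ y) * tx2) (M ix ib)
  have ny : TT x * TT y * QQ y ∈ OO (x, y) * OO (x, y) :=
    mem_of (by linear_combination (-QQ x) * ty2) (M iy ib)
  have px := M ix iq
  have py := M iy iq
  rw [OO_vec, OO_vec, OO_vec, Submodule.span_mul_span, Submodule.span_mul_span, Submodule.span_le]
  rintro _ ⟨_, ⟨a, ha, b, hb, rfl⟩, c, hc, rfl⟩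
  simp only [Set.mem_insert_iff, Set.mem_singleton_iff] at ha hb hc
  simp only [TT_add, QQ_add] at hc
  simp only [SetLike.mem_coe]
  rcases ha with rfl | rfl | rfl <;> rcases hb with rfl | rfl | rfl <;>
    rcases hc with rfl | rfl | rfl
  · exact mem_of (by ring) m1
  · exact mem_of (by ring) (add_mem mtx mty)
  · exact mem_of (by ring) (add_mem mqx mqy)
  · exact mem_of (by ring) mty
  · exact mem_of (by linear_combination ty2) mtt
  · exact mem_of (by ring) (add_mem myx myy)
  · exact mem_of (by ring) mqy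
  · exact mem_of (by ring) (add_mem mxy myy)
  · exact mem_of (by linear_combination qy2) mqq
  · exact mem_of (by ring) mtx
  · exact mem_of (by linear_combination tx2) mtt
  · exact mem_of (by ring) (add_mem mxx mxy)
  · exact mem_of (by ring) mtt
  · exact mem_of (by linear_combination (TT y) * tx2 + (TT x) * ty2) (zero_mem _)
  · exact mem_of (by ring) (add_mem nx ny)
  · exact mem_of (by ring) mxy
  · exact mem_of (by linear_combination (QQ y) * tx2) ny
  · exact mem_of (by linear_combination (TT x) * qy2) px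
  · exact mem_of (by ring) mqx
  · exact mem_of (by ring) (add_mem mxx myx)
  · exact mem_of (by linear_combination qx2) mqq
  · exact mem_of (by ring) myx
  · exact mem_of (by linear_combination (QQ x) * ty2) nx
  · exact mem_of (by linear_combination (TT y) * qx2) py
  · exact mem_of (by ring) mqq
  · exact mem_of (by ring) (add_mem px py)
  · exact mem_of (by linear_combination (QQ y) * qx2 + (QQ x) * qy2) (zero_mem _)

end GM

open G GM

/-- MONO -/
theorem rowMono : RowMono := by
  intro V _ B₀ s P P' h1 h2 h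
  refine algE_mono ?_ h
  rw [OP_cons, OP_cons]
  exact mul_le_left (OO_mono h1 h2) _

/-- BASE -/
theorem rowBase : RowBase := by
  intro V _ b s
  refine ⟨b, Finset.mem_singleton_self b, 1, one_mem_OP s, ?_⟩
  have h1 : (1 : RR V) = mk 1 := (map_one mk).symm
  have h2 : mon (({b} : Finset V).erase b) = 0 := by
    ext i
    rw [mon_apply]
    simp
  rw [h1, top_mk, h2, coeff_zero_one]
  exact one_ne_zero

/-- TWIN -/
theorem rowTwin : RowTwin := by
  intro V _ B₀ s x y h
  refine algE_mono ?_ h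
  rw [OP_cons, OP_cons, OP_cons, OP_cons, OP_cons, ← assoc, ← assoc, ← assoc]
  exact mul_le_left (OO_twin x y) _

end Pool.Agent.ClawHam
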