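import Pool.Agent.Lib.MP_e2dbb5_co.K
import Pool.Agent.Lib.MP_e2dbb5_co.C5

/-!
# The certificate KV: a connected choice with tight complement gives connected even choices
(helper69)
-/

set_option autoImplicit false

open Finset

noncomputable section

namespace Pool.Agent.ClawHam

open Classical

/-- The merging process. `p i` is the chosen pair of the hyperedge `i`, or `∅` if `i` is unused.
`KTree e p A T`: the vertices of `A` are merged to one class by means of the hyperedges in `T`.
Unused hyperedges merge two (`joinD`) or three (`joinU`) classes; a used hyperedge `i` with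
`p i = {y, z}`, `y` and `z` in the same class, merges the class of a third vertex `v` of `e i`. -/
inductive KTree {B I : Type} (e p : I → Finset B) : Finset B → Finset I → Prop
  | single (v : B) : KTree e p {v} ∅
  | joinD (A A' : Finset B) (T T' : Finset I) (i : I) (x y : B) :
      KTree e p A T → KTree e p A' T' → Disjoint A A' → Disjoint T T' → i ∉ T → i ∉ T' →
      p i = ∅ → x ∈ A → y ∈ A' → x ∈ e i → y ∈ e i → KTree e p (A ∪ A') (insert i (T ∪ T'))
  | joinU (A A' A'' : Finset B) (T T' T'' : Finset I) (i : I) (x y z : B) :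
      KTree e p A T → KTree e p A' T' → KTree e p A'' T'' → Disjoint A A' → Disjoint A A'' →
      Disjoint A' A'' → Disjoint T T' → Disjoint T T'' → Disjoint T' T'' → i ∉ T → i ∉ T' →
      i ∉ T'' → p i = ∅ → x ∈ A → y ∈ A' → z ∈ A'' → x ∈ e i → y ∈ e i → z ∈ e i →
      KTree e p (A ∪ A' ∪ A'') (insert i (T ∪ T' ∪ T''))
  | joinC (A A' : Finset B) (T T' : Finset I) (i : I) (y z v : B) :
      KTree e p A T → KTree e p A' T' → Disjoint A A' → Disjoint T T' → i ∉ T → i ∉ T' →
      p i = {y, z} → y ∈ A → z ∈ A → v ∈ A' → v ∈ e i → KTree e p (A ∪ A') (insert i (T ∪ T'))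

/-- The certificate KV: the chosen pairs form a connected graph, and the merging process reaches
all vertices. -/
def CertK {B I : Type} [Fintype B] (e : I → Finset B) : Prop :=
  ∃ (p : I → Finset B) (T : Finset I), Pairs p ∧ (∀ i, p i ⊆ e i) ∧ Conn p ∧ KTree e p univ T

/-- growth from one vertex (the certificate FG) -/
inductive GTree {B I : Type} (e p : I → Finset B) : Finset B → Finset I → Prop
  | start (v : B) : GTree e p {v} ∅
  | stepD (A : Finset B) (T : Finset I) (i : I) (x y : B) : GTree e p A T → i ∉ T → p i = ∅ →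
      x ∈ A → y ∉ A → x ∈ e i → y ∈ e i → GTree e p (insert y A) (insert i T)
  | stepU (A : Finset B) (T : Finset I) (i : I) (x y z : B) : GTree e p A T → i ∉ T → p i = ∅ →
      x ∈ A → y ∉ A → z ∉ A → y ≠ z → x ∈ e i → y ∈ e i → z ∈ e i →
      GTree e p (insert y (insert z A)) (insert i T)
  | stepC (A : Finset B) (T : Finset I) (i : I) (y z v : B) : GTree e p A T → i ∉ T →
      p i = {y, z} → y ∈ A → z ∈ A → v ∉ A → v ∈ e i → GTree e p (insert v A) (insert i T)

/-- the certificate FG -/
def CertF {B I : Type} [Fintype B] (e : I → Finset B) : Prop :=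
  ∃ (p : I → Finset B) (T : Finset I), Pairs p ∧ (∀ i, p i ⊆ e i) ∧ Conn p ∧ GTree e p univ T

/-- (K) implies KV -/
def TCK : Prop :=
  ∀ (B I : Type) [Fintype B] [Nonempty B] [Fintype I] (e : I → Finset B),
    (∀ i, (e i).card = 2 ∨ (e i).card = 3) → KCond e → CertK e

/-- FourConn implies KV -/
def TCK4 : Prop :=
  ∀ (B I : Type) [Fintype B] [Nonempty B] [Fintype I] (e : I → Finset B),
    (∀ i, (e i).card = 2 ∨ (e i).card = 3) → FourConn univ e → CertK e

/-- FourConn and FiveEss imply KV -/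
def TCK5 : Prop :=
  ∀ (B I : Type) [Fintype B] [Nonempty B] [Fintype I] (e : I → Finset B),
    (∀ i, (e i).card = 2 ∨ (e i).card = 3) → FourConn univ e → FiveEss univ e → CertK e

namespace Kx

variable {B I : Type}

theorem gtree_ktree (e p : I → Finset B) (A : Finset B) (T : Finset I) (h : GTree e p A T) :
    KTree e p A T := by
  induction h with
  | start v => exact KTree.single v
  | stepD A T i x y _ hi hp hx hy hxe hye ih =>
    have h := KTree.joinD A {y} T ∅ i x y ih (KTree.single y)
      (Finset.disjoint_singleton_right.2 hy) (Finset.disjoint_empty_right _) hi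
      (Finset.notMem_empty _) hp hx (Finset.mem_singleton_self _) hxe hye
    rw [Finset.union_empty] at h
    rwa [Finset.insert_eq, Finset.union_comm]
  | stepU A T i x y z _ hi hp hx hy hz hyz hxe hye hze ih =>
    have h := KTree.joinU A {y} {z} T ∅ ∅ i x y z ih (KTree.single y) (KTree.single z)
      (Finset.disjoint_singleton_right.2 hy) (Finset.disjoint_singleton_right.2 hz)
      (Finset.disjoint_singleton.2 hyz) (Finset.disjoint_empty_right _)
      (Finset.disjoint_empty_right _) (Finset.disjoint_empty_right _) hi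
      (Finset.notMem_empty _) (Finset.notMem_empty _) hp hx (Finset.mem_singleton_self _)
      (Finset.mem_singleton_self _) hxe hye hze
    rw [Finset.union_empty, Finset.union_empty] at h
    have h1 : A ∪ {y} ∪ {z} = insert y (insert z A) := by
      ext w
      simp only [Finset.mem_union, Finset.mem_singleton, Finset.mem_insert]
      tauto
    rwa [h1] at h
  | stepC A T i y z v _ hi hp hy hz hv hve ih =>
    have h := KTree.joinC A {v} T ∅ i y z v ih (KTree.single v)
      (Finset.disjoint_singleton_right.2 hv) (Finset.disjoint_empty_right _) hi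
      (Finset.notMem_empty _) hp hy hz (Finset.mem_singleton_self _) hve
    rw [Finset.union_empty] at h
    rwa [Finset.insert_eq, Finset.union_comm]

variable [Fintype I]

/-- the degree modulo two -/
def dg (f : I → Finset B) (v : B) : ZMod 2 := ∑ i, ind (f i) v

theorem dg_update (f : I → Finset B) (i : I) (s : Finset B) (v : B) :
    dg (Function.update f i s) v = dg f v + ind (f i) v + ind s v := by
  unfold dg
  have h1 : ∑ j, ind (f j) v = ind (f i) v + ∑ j ∈ univ.erase i, ind (f j) v :=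
    (Finset.add_sum_erase _ _ (Finset.mem_univ i)).symm
  have h2 : ∑ j, ind (Function.update f i s j) v =
      ind s v + ∑ j ∈ univ.erase i, ind (f j) v := by
    rw [← Finset.add_sum_erase _ _ (Finset.mem_univ i), Function.update_self]
    congr 1
    refine Finset.sum_congr rfl fun j hj => ?_
    rw [Function.update_of_ne (Finset.ne_of_mem_erase hj)]
  rw [h1, h2]
  have h3 : ind (f i) v + ind (f i) v = 0 := CharTwo.add_self_eq_zero _
  linear_combination -h3

theorem sum_pair (A : Finset B) {x y : B} (hxy : x ≠ y) :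
    ∑ v ∈ A, ind {x, y} v = (if x ∈ A then (1 : ZMod 2) else 0) + (if y ∈ A then 1 else 0) := by
  have h1 : ∀ v, ind ({x, y} : Finset B) v = (if v = x then (1 : ZMod 2) else 0) +
      (if v = y then 1 else 0) := by
    intro v
    unfold ind
    by_cases h2 : v = x
    · subst h2
      simp [hxy]
    · by_cases h3 : v = y
      · subst h3
        simp [h2]
      · simp [h2, h3]
  rw [Finset.sum_congr rfl fun v _ => h1 v, Finset.sum_add_distrib, Finset.sum_ite_eq',
    Finset.sum_ite_eq']

variable [Fintype B]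

/-- parities can be corrected inside `A` by means of the hyperedges in `T` -/
def Fix (e p : I → Finset B) (A : Finset B) (T : Finset I) : Prop :=
  ∀ f : I → Finset B, (∀ i ∈ T, f i = p i) → Pairs f → (∀ i, f i ⊆ e i) → Conn f →
    ∀ τ : B → ZMod 2, ∑ v ∈ A, (τ v + dg f v) = 0 →
      ∃ f' : I → Finset B, (∀ i, i ∉ T → f' i = f i) ∧ Pairs f' ∧ (∀ i, f' i ⊆ e i) ∧ Conn f' ∧
        (∀ v ∈ A, dg f' v = τ v) ∧ ∀ v, v ∉ A → dg f' v = dg f v

theorem fix_two (e p : I → Finset B) {A A' : Finset B} {T T' : Finset I} (h : Fix e p A T)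
    (h' : Fix e p A' T') (hA : Disjoint A A') (hT : Disjoint T T') (f : I → Finset B)
    (hf : ∀ i ∈ T ∪ T', f i = p i) (hp : Pairs f) (hs : ∀ i, f i ⊆ e i) (hc : Conn f)
    (τ : B → ZMod 2) (h0 : ∑ v ∈ A, (τ v + dg f v) = 0) (h0' : ∑ v ∈ A', (τ v + dg f v) = 0) :
    ∃ f' : I → Finset B, (∀ i, i ∉ T ∪ T' → f' i = f i) ∧ Pairs f' ∧ (∀ i, f' i ⊆ e i) ∧
      Conn f' ∧ (∀ v ∈ A ∪ A', dg f' v = τ v) ∧ ∀ v, v ∉ A ∪ A' → dg f' v = dg f v := by
  obtain ⟨f1, a1, a2, a3, a4, a5, a6⟩ :=
    h f (fun i hi => hf i (Finset.mem_union_left _ hi)) hp hs hc τ h0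
  obtain ⟨f2, b1, b2, b3, b4, b5, b6⟩ := h' f1
    (fun i hi => by
      rw [a1 i (fun h2 => Finset.disjoint_left.1 hT h2 hi)]
      exact hf i (Finset.mem_union_right _ hi)) a2 a3 a4 τ (by
      rw [← h0']
      refine Finset.sum_congr rfl fun v hv => ?_
      rw [a6 v (fun h2 => Finset.disjoint_left.1 hA h2 hv)])
  refine ⟨f2, fun i hi => ?_, b2, b3, b4, fun v hv => ?_, fun v hv => ?_⟩
  · rw [b1 i (fun h2 => hi (Finset.mem_union_right _ h2)),
      a1 i (fun h2 => hi (Finset.mem_union_left _ h2))]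
  · by_cases h2 : v ∈ A'
    · exact b5 v h2
    · rw [b6 v h2]
      exact a5 v ((Finset.mem_union.1 hv).resolve_right h2)
  · rw [b6 v (fun h2 => hv (Finset.mem_union_right _ h2)),
      a6 v (fun h2 => hv (Finset.mem_union_left _ h2))]

omit [Fintype I] [Fintype B] in
theorem pairs_update {f : I → Finset B} (hp : Pairs f) (i : I) {x y : B} (hxy : x ≠ y) :
    Pairs (Function.update f i {x, y}) := by
  intro j
  by_cases h : j = i
  · subst h
    rw [Function.update_self]
    exact Or.inr (Finset.card_pair hxy)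
  · rw [Function.update_of_ne h]
    exact hp j

omit [Fintype I] [Fintype B] in
theorem sub_update {e f : I → Finset B} (hs : ∀ i, f i ⊆ e i) (i : I) {x y : B} (hx : x ∈ e i)
    (hy : y ∈ e i) : ∀ j, Function.update f i {x, y} j ⊆ e j := by
  intro j
  by_cases h : j = i
  · subst h
    rw [Function.update_self]
    intro w hw
    rcases Finset.mem_insert.1 hw with h | h
    · exact h ▸ hx
    · exact (Finset.mem_singleton.1 h) ▸ hy
  · rw [Function.update_of_ne h]
    exact hs j

omit [Fintype I] in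
theorem conn_update {f : I → Finset B} (hc : Conn f) (i : I) (hi : f i = ∅) (s : Finset B) :
    Conn (Function.update f i s) := by
  intro X hX hX'
  obtain ⟨j, hj⟩ := hc X hX hX'
  refine ⟨j, ?_⟩
  have h : j ≠ i := by
    rintro rfl
    obtain ⟨⟨a, ha, -⟩, -⟩ := hj
    rw [hi] at ha
    exact Finset.notMem_empty _ ha
  rwa [Function.update_of_ne h]

omit [Fintype I] in
/-- toggling a pair keeps the graph connected, in one of the two ways -/
theorem conn_toggle {f : I → Finset B} (hc : Conn f) (i : I) {y z v : B} (hi : f i = {y, z}) :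
    Conn (Function.update f i {y, v}) ∨ Conn (Function.update f i {z, v}) := by
  by_contra hcon
  push Not at hcon
  obtain ⟨h1, h2⟩ := hcon
  -- a set which is not crossed, containing `v` and `y`
  have key : ∀ w u : B, f i = {w, u} → ¬ Conn (Function.update f i {w, v}) →
      ∃ X : Finset B, v ∈ X ∧ w ∈ X ∧ u ∉ X ∧ ∀ j, j ≠ i → ¬ Crosses (f j) X := by
    intro w u hwu h
    unfold Conn at h
    push Not at h
    obtain ⟨X, hX, hX', hX2⟩ := h
    have h3 : ∀ j, j ≠ i → ¬ Crosses (f j) X := by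
      intro j hj
      have := hX2 j
      rwa [Function.update_of_ne hj] at this
    have h4 : ¬ Crosses ({w, v} : Finset B) X := by
      have := hX2 i
      rwa [Function.update_self] at this
    have h5 : Crosses ({w, u} : Finset B) X := by
      obtain ⟨j, hj⟩ := hc X hX hX'
      by_cases h6 : j = i
      · rw [h6, hwu] at hj
        exact hj
      · exact absurd hj (h3 j h6)
    have h7 : (w ∈ X ∧ u ∉ X) ∨ (w ∉ X ∧ u ∈ X) := by
      obtain ⟨⟨a, ha, haX⟩, b, hb, hbX⟩ := h5
      rcases Finset.mem_insert.1 ha with rfl | ha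
      · rcases Finset.mem_insert.1 hb with rfl | hb
        · exact absurd haX hbX
        · rw [Finset.mem_singleton.1 hb] at hbX
          exact Or.inl ⟨haX, hbX⟩
      · rw [Finset.mem_singleton.1 ha] at haX
        rcases Finset.mem_insert.1 hb with rfl | hb
        · exact Or.inr ⟨hbX, haX⟩
        · rw [Finset.mem_singleton.1 hb] at hbX
          exact absurd haX hbX
    have h8 : w ∈ X ↔ v ∈ X := by
      constructor
      · intro h
        by_contra hv
        exact h4 ⟨⟨w, Finset.mem_insert_self _ _, h⟩, v,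
          Finset.mem_insert_of_mem (Finset.mem_singleton_self _), hv⟩
      · intro h
        by_contra hw
        exact h4 ⟨⟨v, Finset.mem_insert_of_mem (Finset.mem_singleton_self _), h⟩, w,
          Finset.mem_insert_self _ _, hw⟩
    rcases h7 with ⟨a, b⟩ | ⟨a, b⟩
    · exact ⟨X, h8.1 a, a, b, h3⟩
    · refine ⟨univ \ X, ?_, ?_, ?_, ?_⟩
      · exact Finset.mem_sdiff.2 ⟨Finset.mem_univ _, fun h => a (h8.2 h)⟩
      · exact Finset.mem_sdiff.2 ⟨Finset.mem_univ _, a⟩
      · exact fun h => (Finset.mem_sdiff.1 h).2 b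
      · rintro j hj ⟨⟨c, hc1, hc2⟩, d, hd1, hd2⟩
        refine h3 j hj ⟨⟨d, hd1, ?_⟩, c, hc1, (Finset.mem_sdiff.1 hc2).2⟩
        by_contra h
        exact hd2 (Finset.mem_sdiff.2 ⟨Finset.mem_univ _, h⟩)
  obtain ⟨X, hvX, hyX, hzX, hX⟩ := key y z hi h1
  obtain ⟨Y, hvY, hzY, hyY, hY⟩ := key z y (by rw [hi, Finset.pair_comm]) h2
  -- `X ∩ Y` is not crossed, contains `v`, but not `y`
  obtain ⟨j, ⟨a, ha, haX⟩, b, hb, hbX⟩ := hc (X ∩ Y) ⟨v, Finset.mem_inter.2 ⟨hvX, hvY⟩⟩
    (fun h => hyY (Finset.mem_inter.1 (h ▸ Finset.mem_univ y)).2)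
  have haX' := Finset.mem_inter.1 haX
  by_cases hj : j = i
  · subst hj
    rw [hi] at ha
    rcases Finset.mem_insert.1 ha with rfl | ha
    · exact hyY haX'.2
    · rw [Finset.mem_singleton.1 ha] at haX'
      exact hzX haX'.1
  · by_cases hbX1 : b ∈ X
    · exact hY j hj ⟨⟨a, ha, haX'.2⟩, b, hb, fun h => hbX (Finset.mem_inter.2 ⟨hbX1, h⟩)⟩
    · exact hX j hj ⟨⟨a, ha, haX'.1⟩, b, hb, hbX1⟩

theorem z01 (a : ZMod 2) : a = 0 ∨ a = 1 := by
  revert a
  decide

theorem zeq (a b : ZMod 2) (h : a + b = 0) : b = a := by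
  revert a b
  decide

omit [Fintype B] in
theorem sum_dg_update (f : I → Finset B) (i : I) (s : Finset B) (τ : B → ZMod 2) (A : Finset B) :
    ∑ v ∈ A, (τ v + dg (Function.update f i s) v) =
      ∑ v ∈ A, (τ v + dg f v) + ∑ v ∈ A, ind (f i) v + ∑ v ∈ A, ind s v := by
  rw [← Finset.sum_add_distrib, ← Finset.sum_add_distrib]
  refine Finset.sum_congr rfl fun v _ => ?_
  rw [dg_update]
  ring

omit [Fintype B] [Fintype I] in
theorem ind_empty (v : B) : ind (∅ : Finset B) v = 0 := by
  unfold ind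
  rw [if_neg (Finset.notMem_empty _)]

omit [Fintype B] [Fintype I] in
theorem ind_pair_zero {x y v : B} (hx : v ≠ x) (hy : v ≠ y) : ind ({x, y} : Finset B) v = 0 := by
  unfold ind
  rw [if_neg]
  intro h
  rcases Finset.mem_insert.1 h with h | h
  · exact hx h
  · exact hy (Finset.mem_singleton.1 h)

theorem fix_three (e p : I → Finset B) {A A' A'' : Finset B} {T T' T'' : Finset I}
    (h : Fix e p A T) (h' : Fix e p A' T') (h'' : Fix e p A'' T'') (hA : Disjoint A A')
    (hA1 : Disjoint A A'') (hA2 : Disjoint A' A'') (hT : Disjoint T T') (hT1 : Disjoint T T'')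
    (hT2 : Disjoint T' T'') (f : I → Finset B)
    (hf : ∀ i ∈ T ∪ T' ∪ T'', f i = p i) (hp : Pairs f) (hs : ∀ i, f i ⊆ e i) (hc : Conn f)
    (τ : B → ZMod 2) (h0 : ∑ v ∈ A, (τ v + dg f v) = 0) (h0' : ∑ v ∈ A', (τ v + dg f v) = 0)
    (h0'' : ∑ v ∈ A'', (τ v + dg f v) = 0) :
    ∃ f' : I → Finset B, (∀ i, i ∉ T ∪ T' ∪ T'' → f' i = f i) ∧ Pairs f' ∧ (∀ i, f' i ⊆ e i) ∧
      Conn f' ∧ (∀ v ∈ A ∪ A' ∪ A'', dg f' v = τ v) ∧
      ∀ v, v ∉ A ∪ A' ∪ A'' → dg f' v = dg f v := by
  obtain ⟨f1, a1, a2, a3, a4, a5, a6⟩ := fix_two e p h h' hA hT f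
    (fun i hi => hf i (Finset.mem_union_left _ hi)) hp hs hc τ h0 h0'
  have dA : Disjoint (A ∪ A') A'' := Finset.disjoint_union_left.2 ⟨hA1, hA2⟩
  have dT : Disjoint (T ∪ T') T'' := Finset.disjoint_union_left.2 ⟨hT1, hT2⟩
  obtain ⟨f2, b1, b2, b3, b4, b5, b6⟩ := h'' f1
    (fun i hi => by
      rw [a1 i (fun h2 => Finset.disjoint_left.1 dT h2 hi)]
      exact hf i (Finset.mem_union_right _ hi)) a2 a3 a4 τ (by
      rw [← h0'']
      refine Finset.sum_congr rfl fun v hv => ?_
      rw [a6 v (fun h2 => Finset.disjoint_left.1 dA h2 hv)])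
  refine ⟨f2, fun i hi => ?_, b2, b3, b4, fun v hv => ?_, fun v hv => ?_⟩
  · rw [b1 i (fun h2 => hi (Finset.mem_union_right _ h2)),
      a1 i (fun h2 => hi (Finset.mem_union_left _ h2))]
  · by_cases h2 : v ∈ A''
    · exact b5 v h2
    · rw [b6 v h2]
      exact a5 v ((Finset.mem_union.1 hv).resolve_right h2)
  · rw [b6 v (fun h2 => hv (Finset.mem_union_right _ h2)),
      a6 v (fun h2 => hv (Finset.mem_union_left _ h2))]

/-- two classes, one changed hyperedge -/
theorem step_two (e p : I → Finset B) {A A' : Finset B} {T T' : Finset I} (i : I)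
    (h : Fix e p A T) (h' : Fix e p A' T') (hA : Disjoint A A') (hT : Disjoint T T')
    (hi : i ∉ T) (hi' : i ∉ T') (f : I → Finset B) (hf : ∀ j ∈ insert i (T ∪ T'), f j = p j)
    (s : Finset B) (hp : Pairs (Function.update f i s)) (hs : ∀ j, Function.update f i s j ⊆ e j)
    (hc : Conn (Function.update f i s)) (τ : B → ZMod 2)
    (h0 : ∑ v ∈ A, (τ v + dg (Function.update f i s) v) = 0)
    (h0' : ∑ v ∈ A', (τ v + dg (Function.update f i s) v) = 0)
    (hout : ∀ v, v ∉ A ∪ A' → ind (f i) v = 0 ∧ ind s v = 0) :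
    ∃ f' : I → Finset B, (∀ j, j ∉ insert i (T ∪ T') → f' j = f j) ∧ Pairs f' ∧
      (∀ j, f' j ⊆ e j) ∧ Conn f' ∧ (∀ v ∈ A ∪ A', dg f' v = τ v) ∧
      ∀ v, v ∉ A ∪ A' → dg f' v = dg f v := by
  have hj : ∀ j ∈ T ∪ T', Function.update f i s j = p j := by
    intro j hj
    have hne : j ≠ i := by
      rintro rfl
      exact (Finset.mem_union.1 hj).elim hi hi'
    rw [Function.update_of_ne hne]
    exact hf j (Finset.mem_insert_of_mem hj)
  obtain ⟨f', a1, a2, a3, a4, a5, a6⟩ := fix_two e p h h' hA hT _ hj hp hs hc τ h0 h0'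
  refine ⟨f', fun j hj2 => ?_, a2, a3, a4, a5, fun v hv => ?_⟩
  · have hne : j ≠ i := by
      rintro rfl
      exact hj2 (Finset.mem_insert_self _ _)
    rw [a1 j (fun h2 => hj2 (Finset.mem_insert_of_mem h2)), Function.update_of_ne hne]
  · rw [a6 v hv, dg_update, (hout v hv).1, (hout v hv).2, add_zero, add_zero]

theorem ktree_fix (e p : I → Finset B) {A : Finset B} {T : Finset I}
    (h : KTree e p A T) : Fix e p A T := by
  induction h with
  | single v =>
    intro f _ hp hs hc τ h0
    refine ⟨f, fun _ _ => rfl, hp, hs, hc, fun v' hv' => ?_, fun _ _ => rfl⟩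
    rw [Finset.sum_singleton] at h0
    rw [Finset.mem_singleton.1 hv']
    exact zeq _ _ h0
  | joinD A A' T T' i x y _ _ hA hT hi hi' hpi hx hy hxe hye ih ih' =>
    intro f hf hp hs hc τ h0
    have hfi : f i = ∅ := by rw [hf i (Finset.mem_insert_self _ _), hpi]
    have hxA' : x ∉ A' := fun h2 => Finset.disjoint_left.1 hA hx h2
    have hyA : y ∉ A := fun h2 => Finset.disjoint_left.1 hA h2 hy
    have hxy : x ≠ y := fun h2 => hyA (h2 ▸ hx)
    rw [Finset.sum_union hA] at h0
    rcases z01 (∑ v ∈ A', (τ v + dg f v)) with h1 | h1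
    · rw [h1, add_zero] at h0
      have hup : Function.update f i (f i) = f := Function.update_eq_self i f
      refine step_two e p i ih ih' hA hT hi hi' f hf (f i) ?_ ?_ ?_ τ ?_ ?_ ?_
      · rw [hup]; exact hp
      · rw [hup]; exact hs
      · rw [hup]; exact hc
      · rw [hup]; exact h0
      · rw [hup]; exact h1
      · intro v _
        rw [hfi, ind_empty]
        exact ⟨rfl, rfl⟩
    · have h0A : ∑ v ∈ A, (τ v + dg f v) = 1 := by
        rw [h1] at h0
        exact (zeq _ _ (by rwa [add_comm] at h0)).symm ▸ rfl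
      refine step_two e p i ih ih' hA hT hi hi' f hf {x, y} (pairs_update hp i hxy)
        (sub_update hs i hxe hye) (conn_update hc i hfi _) τ ?_ ?_ ?_
      · rw [sum_dg_update, hfi, sum_pair A hxy, if_pos hx, if_neg hyA, h0A]
        simp only [ind_empty, Finset.sum_const_zero]
        decide
      · rw [sum_dg_update, hfi, sum_pair A' hxy, if_neg hxA', if_pos hy, h1]
        simp only [ind_empty, Finset.sum_const_zero]
        decide
      · intro v hv
        rw [hfi, ind_empty]
        refine ⟨rfl, ind_pair_zero ?_ ?_⟩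
        · rintro rfl
          exact hv (Finset.mem_union_left _ hx)
        · rintro rfl
          exact hv (Finset.mem_union_right _ hy)
  | joinU A A' A'' T T' T'' i x y z _ _ _ hA hA1 hA2 hT hT1 hT2 hi hi' hi'' hpi hx hy hz hxe hye hze
      ih ih' ih'' =>
    intro f hf hp hs hc τ h0
    have hfi : f i = ∅ := by rw [hf i (Finset.mem_insert_self _ _), hpi]
    have hxA' : x ∉ A' := fun h2 => Finset.disjoint_left.1 hA hx h2
    have hxA'' : x ∉ A'' := fun h2 => Finset.disjoint_left.1 hA1 hx h2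
    have hyA : y ∉ A := fun h2 => Finset.disjoint_left.1 hA h2 hy
    have hyA'' : y ∉ A'' := fun h2 => Finset.disjoint_left.1 hA2 hy h2
    have hzA : z ∉ A := fun h2 => Finset.disjoint_left.1 hA1 h2 hz
    have hzA' : z ∉ A' := fun h2 => Finset.disjoint_left.1 hA2 h2 hz
    have hxy : x ≠ y := fun h2 => hyA (h2 ▸ hx)
    have hxz : x ≠ z := fun h2 => hzA (h2 ▸ hx)
    have hyz : y ≠ z := fun h2 => hzA' (h2 ▸ hy)
    have dA : Disjoint (A ∪ A') A'' := Finset.disjoint_union_left.2 ⟨hA1, hA2⟩
    rw [Finset.sum_union dA, Finset.sum_union hA] at h0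
    -- a general step
    have step : ∀ g : I → Finset B, (∀ j, j ≠ i → g j = f j) → Pairs g → (∀ j, g j ⊆ e j) →
        Conn g → ∑ v ∈ A, (τ v + dg g v) = 0 → ∑ v ∈ A', (τ v + dg g v) = 0 →
        ∑ v ∈ A'', (τ v + dg g v) = 0 → (∀ v, v ∉ A ∪ A' ∪ A'' → dg g v = dg f v) →
        ∃ f' : I → Finset B, (∀ j, j ∉ insert i (T ∪ T' ∪ T'') → f' j = f j) ∧ Pairs f' ∧
          (∀ j, f' j ⊆ e j) ∧ Conn f' ∧ (∀ v ∈ A ∪ A' ∪ A'', dg f' v = τ v) ∧
          ∀ v, v ∉ A ∪ A' ∪ A'' → dg f' v = dg f v := by
      intro g g1 g2 g3 g4 g5 g6 g7 g8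
      have hj : ∀ j ∈ T ∪ T' ∪ T'', g j = p j := by
        intro j hj
        have hne : j ≠ i := by
          rintro rfl
          rcases Finset.mem_union.1 hj with h2 | h2
          · exact (Finset.mem_union.1 h2).elim hi hi'
          · exact hi'' h2
        rw [g1 j hne]
        exact hf j (Finset.mem_insert_of_mem hj)
      obtain ⟨f', a1, a2, a3, a4, a5, a6⟩ := fix_three e p ih ih' ih'' hA hA1 hA2 hT hT1 hT2 g hj
        g2 g3 g4 τ g5 g6 g7
      refine ⟨f', fun j hj2 => ?_, a2, a3, a4, a5, fun v hv => ?_⟩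
      · have hne : j ≠ i := by
          rintro rfl
          exact hj2 (Finset.mem_insert_self _ _)
        rw [a1 j (fun h2 => hj2 (Finset.mem_insert_of_mem h2)), g1 j hne]
      · rw [a6 v hv, g8 v hv]
    have upd : ∀ (a b : B), a ≠ b → a ∈ e i → b ∈ e i → a ∈ A ∪ A' ∪ A'' → b ∈ A ∪ A' ∪ A'' →
        ∑ v ∈ A, (τ v + dg f v) + ∑ v ∈ A, ind {a, b} v = 0 →
        ∑ v ∈ A', (τ v + dg f v) + ∑ v ∈ A', ind {a, b} v = 0 →
        ∑ v ∈ A'', (τ v + dg f v) + ∑ v ∈ A'', ind {a, b} v = 0 →
        ∃ f' : I → Finset B, (∀ j, j ∉ insert i (T ∪ T' ∪ T'') → f' j = f j) ∧ Pairs f' ∧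
          (∀ j, f' j ⊆ e j) ∧ Conn f' ∧ (∀ v ∈ A ∪ A' ∪ A'', dg f' v = τ v) ∧
          ∀ v, v ∉ A ∪ A' ∪ A'' → dg f' v = dg f v := by
      intro a b hab ha hb haA hbA k1 k2 k3
      refine step (Function.update f i {a, b}) (fun j hj => Function.update_of_ne hj _ _)
        (pairs_update hp i hab) (sub_update hs i ha hb) (conn_update hc i hfi _) ?_ ?_ ?_ ?_
      · rw [sum_dg_update, hfi]
        simp only [ind_empty, Finset.sum_const_zero, add_zero]
        exact k1
      · rw [sum_dg_update, hfi]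
        simp only [ind_empty, Finset.sum_const_zero, add_zero]
        exact k2
      · rw [sum_dg_update, hfi]
        simp only [ind_empty, Finset.sum_const_zero, add_zero]
        exact k3
      · intro v hv
        rw [dg_update, hfi, ind_empty, add_zero, ind_pair_zero, add_zero]
        · rintro rfl
          exact hv haA
        · rintro rfl
          exact hv hbA
    have mA : ∀ {w}, w ∈ A → w ∈ A ∪ A' ∪ A'' := fun h2 =>
      Finset.mem_union_left _ (Finset.mem_union_left _ h2)
    have mA' : ∀ {w}, w ∈ A' → w ∈ A ∪ A' ∪ A'' := fun h2 =>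
      Finset.mem_union_left _ (Finset.mem_union_right _ h2)
    have mA'' : ∀ {w}, w ∈ A'' → w ∈ A ∪ A' ∪ A'' := fun h2 => Finset.mem_union_right _ h2
    rcases z01 (∑ v ∈ A', (τ v + dg f v)) with h1 | h1 <;>
      rcases z01 (∑ v ∈ A'', (τ v + dg f v)) with h2 | h2 <;> rw [h1, h2] at h0
    · exact step f (fun _ _ => rfl) hp hs hc (by simpa using h0) h1 h2 (fun _ _ => rfl)
    · refine upd x z hxz hxe hze (mA hx) (mA'' hz) ?_ ?_ ?_
      · rw [sum_pair A hxz, if_pos hx, if_neg hzA, add_zero]
        rwa [add_zero] at h0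
      · rw [sum_pair A' hxz, if_neg hxA', if_neg hzA', h1]
        decide
      · rw [sum_pair A'' hxz, if_neg hxA'', if_pos hz, h2]
        decide
    · refine upd x y hxy hxe hye (mA hx) (mA' hy) ?_ ?_ ?_
      · rw [sum_pair A hxy, if_pos hx, if_neg hyA, add_zero]
        rwa [add_zero] at h0
      · rw [sum_pair A' hxy, if_neg hxA', if_pos hy, h1]
        decide
      · rw [sum_pair A'' hxy, if_neg hxA'', if_neg hyA'', h2]
        decide
    · refine upd y z hyz hye hze (mA' hy) (mA'' hz) ?_ ?_ ?_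
      · rw [sum_pair A hyz, if_neg hyA, if_neg hzA]
        have h3 : (1 : ZMod 2) + 1 = 0 := by decide
        rw [add_assoc, h3, add_zero] at h0
        rw [h0]
        decide
      · rw [sum_pair A' hyz, if_pos hy, if_neg hzA', h1]
        decide
      · rw [sum_pair A'' hyz, if_neg hyA'', if_pos hz, h2]
        decide
  | joinC A A' T T' i y z v _ _ hA hT hi hi' hpi hy hz hv hve ih ih' =>
    intro f hf hp hs hc τ h0
    have hfi : f i = {y, z} := by rw [hf i (Finset.mem_insert_self _ _), hpi]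
    have hyA' : y ∉ A' := fun h2 => Finset.disjoint_left.1 hA hy h2
    have hzA' : z ∉ A' := fun h2 => Finset.disjoint_left.1 hA hz h2
    have hvA : v ∉ A := fun h2 => Finset.disjoint_left.1 hA h2 hv
    have hyz : y ≠ z := by
      rintro rfl
      rcases hp i with h2 | h2
      · rw [hfi] at h2
        exact absurd h2 (Finset.insert_ne_empty _ _)
      · rw [hfi, Finset.insert_eq_of_mem (Finset.mem_singleton_self _),
          Finset.card_singleton] at h2
        omega
    have hyv : y ≠ v := fun h2 => hvA (h2 ▸ hy)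
    have hzv : z ≠ v := fun h2 => hvA (h2 ▸ hz)
    have hye : y ∈ e i := hs i (by rw [hfi]; exact Finset.mem_insert_self _ _)
    have hze : z ∈ e i := hs i (by
      rw [hfi]; exact Finset.mem_insert_of_mem (Finset.mem_singleton_self _))
    rw [Finset.sum_union hA] at h0
    rcases z01 (∑ v ∈ A', (τ v + dg f v)) with h1 | h1
    · rw [h1, add_zero] at h0
      have hup : Function.update f i (f i) = f := Function.update_eq_self i f
      refine step_two e p i ih ih' hA hT hi hi' f hf (f i) ?_ ?_ ?_ τ ?_ ?_ ?_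
      · rw [hup]; exact hp
      · rw [hup]; exact hs
      · rw [hup]; exact hc
      · rw [hup]; exact h0
      · rw [hup]; exact h1
      · intro w hw
        have h2 : ind (f i) w = 0 := by
          rw [hfi]
          refine ind_pair_zero ?_ ?_
          · rintro rfl
            exact hw (Finset.mem_union_left _ hy)
          · rintro rfl
            exact hw (Finset.mem_union_left _ hz)
        exact ⟨h2, h2⟩
    · have h0A : ∑ v ∈ A, (τ v + dg f v) = 1 := by
        rw [h1] at h0
        exact (zeq _ _ (by rwa [add_comm] at h0)).symm ▸ rfl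
      have aux : ∀ w : B, w ≠ v → w ∈ A → w ∈ e i → Conn (Function.update f i {w, v}) →
          ∃ f' : I → Finset B, (∀ j, j ∉ insert i (T ∪ T') → f' j = f j) ∧ Pairs f' ∧
            (∀ j, f' j ⊆ e j) ∧ Conn f' ∧ (∀ v ∈ A ∪ A', dg f' v = τ v) ∧
            ∀ v, v ∉ A ∪ A' → dg f' v = dg f v := by
        intro w hwv hwA hwe hcw
        have hwA' : w ∉ A' := fun h2 => Finset.disjoint_left.1 hA hwA h2
        refine step_two e p i ih ih' hA hT hi hi' f hf {w, v} (pairs_update hp i hwv)
          (sub_update hs i hwe hve) hcw τ ?_ ?_ ?_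
        · rw [sum_dg_update, hfi, sum_pair A hwv, sum_pair A hyz, if_pos hwA, if_neg hvA,
            if_pos hy, if_pos hz, h0A]
          decide
        · rw [sum_dg_update, hfi, sum_pair A' hwv, sum_pair A' hyz, if_neg hwA', if_pos hv,
            if_neg hyA', if_neg hzA', h1]
          decide
        · intro u hu
          refine ⟨?_, ind_pair_zero ?_ ?_⟩
          · rw [hfi]
            refine ind_pair_zero ?_ ?_
            · rintro rfl
              exact hu (Finset.mem_union_left _ hy)
            · rintro rfl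
              exact hu (Finset.mem_union_left _ hz)
          · rintro rfl
            exact hu (Finset.mem_union_left _ hwA)
          · rintro rfl
            exact hu (Finset.mem_union_right _ hv)
      rcases conn_toggle hc i (v := v) hfi with h2 | h2
      · exact aux y hyv hy hye h2
      · exact aux z hzv hz hze h2

/-- every even set of odd vertices is realised -/
theorem certK_odd (e : I → Finset B) (h : CertK e) (τ : B → ZMod 2) (hτ : ∑ v, τ v = 0) :
    ∃ f : I → Finset B, Pairs f ∧ (∀ i, f i ⊆ e i) ∧ Conn f ∧ ∀ v, dg f v = τ v := by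
  obtain ⟨p, T, hp, hs, hc, hT⟩ := h
  obtain ⟨f, -, a2, a3, a4, a5, -⟩ := ktree_fix e p hT p (fun _ _ => rfl) hp hs hc τ (by
    rw [Finset.sum_add_distrib, hτ, zero_add]
    unfold dg
    rw [Finset.sum_comm]
    refine Finset.sum_eq_zero fun i _ => ?_
    have h1 : ∑ v, ind (p i) v = ((p i).card : ZMod 2) := by
      unfold ind
      rw [Finset.sum_ite_mem, Finset.univ_inter, Finset.sum_const, nsmul_eq_mul, mul_one]
    rw [h1]
    rcases hp i with h | h
    · rw [h, Finset.card_empty, Nat.cast_zero]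
    · rw [h]
      decide)
  exact ⟨f, a2, a3, a4, fun v => a5 v (Finset.mem_univ v)⟩

theorem evenConn_of_certK (e : I → Finset B) (h : CertK e) : EvenConn univ e := by
  obtain ⟨f, a2, a3, a4, a5⟩ := certK_odd e h (fun _ => 0) (by simp)
  refine ⟨f, fun i => ⟨a3 i, a2 i⟩, fun K => ?_, fun X _ hX hX' => a4 X hX hX'⟩
  rw [← ZMod.natCast_eq_zero_iff_even, card_cast]
  have h1 := a5 K
  unfold dg ind at h1
  convert h1

end Kx

theorem evenConn_empty {B I : Type} [Fintype B] [Fintype I] [IsEmpty B] (e : I → Finset B) :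
    EvenConn univ e := by
  refine ⟨fun _ => ∅, fun i => ⟨Finset.empty_subset _, Or.inl rfl⟩, fun K => isEmptyElim K,
    fun X _ hX _ => ?_⟩
  obtain ⟨x, -⟩ := hX
  exact isEmptyElim x

theorem tck4_of_tck (h : TCK) : TCK4 := fun B I _ _ _ e he h4 => h B I e he (Kx.kcond e h4)

theorem tck5_of_tck4 (h : TCK4) : TCK5 := fun B I _ _ _ e he h4 _ => h B I e he h4

theorem certK_of_certF {B I : Type} [Fintype B] (e : I → Finset B) (h : CertF e) : CertK e := by
  obtain ⟨p, T, hp, hs, hc, hT⟩ := h
  exact ⟨p, T, hp, hs, hc, Kx.gtree_ktree e p _ T hT⟩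

/-- it is enough to find the certificate KV for all hypergraphs satisfying (K) -/
theorem hypLemma'_of_tck4 (h : TCK4) : HypLemma' := by
  intro B I _ _ e he h4
  rcases isEmpty_or_nonempty B with hB | hB
  · exact evenConn_empty e
  · exact Kx.evenConn_of_certK e (h B I e he h4)

theorem hypLemma5_of_tck5 (h : TCK5) : HypLemma5 := by
  intro B I _ _ e he h4 h5
  rcases isEmpty_or_nonempty B with hB | hB
  · exact evenConn_empty e
  · exact Kx.evenConn_of_certK e (h B I e he h4 h5)

end Pool.Agent.ClawHam
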