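import Pool.Agent.Lib.MP_e2dbb5_co.GElim
import Pool.Agent.Lib.MP_e2dbb5_co.GMono
import Pool.Agent.Lib.MP_e2dbb5_co.GBridge
import Pool.Agent.Lib.MP_e2dbb5_co.KV

/-!
# The certificate KV gives the algebraic certificate (helper69, GKV)
-/

set_option autoImplicit false
set_option linter.unusedSectionVars false

open Finset MvPolynomial

noncomputable section

namespace Pool.Agent.ClawHam

open Classical

namespace GK

open G

variable {V : Type} [Fintype V]

/-! ### The vectors of pairs -/

theorem ev_apply (a b w : V) : (ev a b : Vec V) w = (if w = a then 1 else 0) + if w = b then 1 else 0 :=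
  rfl

theorem ev_comm (a b : V) : (ev a b : Vec V) = ev b a := by
  funext w
  rw [ev_apply, ev_apply, add_comm]

theorem ev_add (a b c : V) : (ev a b : Vec V) + ev b c = ev a c := by
  funext w
  rw [Pi.add_apply, ev_apply, ev_apply, ev_apply]
  have h : (if w = b then (1 : ZMod 2) else 0) + (if w = b then (1 : ZMod 2) else 0) = 0 :=
    CharTwo.add_self_eq_zero _
  linear_combination h

/-- an additive map with square zero -/
structure Ad (F : Vec V → RR V) : Prop where
  add : ∀ x y, F (x + y) = F x + F y
  sq : ∀ x, F x ^ 2 = 0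

theorem adT : Ad (TT : Vec V → RR V) := ⟨TT_add, TT_sq⟩
theorem adQ : Ad (QQ : Vec V → RR V) := ⟨QQ_add, QQ_sq⟩

theorem Ad.zero {F : Vec V → RR V} (h : Ad F) : F 0 = 0 := by
  have h1 := h.add 0 0
  rw [add_zero] at h1
  exact left_eq_add.1 h1

/-- the product over a star -/
def can (F : Vec V → RR V) (A : Finset V) (r : V) : RR V := ∏ w ∈ A.erase r, F (ev w r)

theorem prod_shift (z : RR V) (hz : z ^ 2 = 0) (f : V → RR V) (S : Finset V) :
    z * ∏ w ∈ S, (f w + z) = z * ∏ w ∈ S, f w := by
  induction S using Finset.induction_on with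
  | empty => simp
  | insert a S ha ih =>
    rw [Finset.prod_insert ha, Finset.prod_insert ha]
    linear_combination (f a) * ih + (∏ w ∈ S, (f w + z)) * hz

theorem can_single (F : Vec V → RR V) (v : V) : can F {v} v = 1 := by
  unfold can
  rw [Finset.erase_singleton, Finset.prod_empty]

theorem shift_root {F : Vec V → RR V} (h : Ad F) (a b : V) (S : Finset V) :
    F (ev a b) * ∏ w ∈ S, F (ev w a) = F (ev a b) * ∏ w ∈ S, F (ev w b) := by
  have h1 : ∀ w, F (ev w a) = F (ev w b) + F (ev a b) := by
    intro w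
    rw [← h.add, ev_comm a b, ev_add]
  rw [Finset.prod_congr rfl fun w _ => h1 w]
  exact prod_shift _ (h.sq _) _ _

theorem can_root {F : Vec V → RR V} (h : Ad F) {A : Finset V} {a b : V} (ha : a ∈ A)
    (hb : b ∈ A) : can F A a = can F A b := by
  by_cases hab : a = b
  · rw [hab]
  have h1 : A.erase a = insert b ((A.erase a).erase b) :=
    (Finset.insert_erase (Finset.mem_erase.2 ⟨fun h => hab h.symm, hb⟩)).symm
  have h2 : A.erase b = insert a ((A.erase a).erase b) := by
    rw [Finset.erase_right_comm]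
    exact (Finset.insert_erase (Finset.mem_erase.2 ⟨hab, ha⟩)).symm
  unfold can
  rw [h1, h2, Finset.prod_insert (by simp), Finset.prod_insert (by simp)]
  rw [ev_comm b a]
  exact shift_root h a b _

theorem can_join {F : Vec V → RR V} (h : Ad F) {A A' : Finset V} {a b : V} (ha : a ∈ A)
    (hb : b ∈ A') (hd : Disjoint A A') :
    F (ev a b) * (can F A a * can F A' b) = can F (A ∪ A') a := by
  have haA' : a ∉ A' := fun h1 => Finset.disjoint_left.1 hd ha h1
  have h1 : (A ∪ A').erase a = A.erase a ∪ insert b (A'.erase b) := by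
    rw [Finset.insert_erase hb, Finset.erase_union_distrib, Finset.erase_eq_of_notMem haA']
  have h2 : Disjoint (A.erase a) (insert b (A'.erase b)) := by
    rw [Finset.insert_erase hb]
    exact Finset.disjoint_of_subset_left (Finset.erase_subset _ _) hd
  unfold can
  rw [h1, Finset.prod_union h2, Finset.prod_insert (by simp), ev_comm b a]
  have h3 := shift_root h a b (A'.erase b)
  linear_combination (-∏ w ∈ A.erase a, F (ev w a)) * h3

theorem can_ann {F : Vec V → RR V} (h : Ad F) {A : Finset V} {a b r : V} (ha : a ∈ A)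
    (hb : b ∈ A) (hr : r ∈ A) : F (ev a b) * can F A r = 0 := by
  rw [can_root h hr hb]
  by_cases hab : a = b
  · rw [hab, GBr.ev_self, h.zero, zero_mul]
  unfold can
  rw [← Finset.mul_prod_erase (A.erase b) _ (Finset.mem_erase.2 ⟨hab, ha⟩), ← mul_assoc]
  have h1 := h.sq (ev a b)
  rw [← pow_two, h1, zero_mul]

theorem top_can (r : V) (A : Finset V) (hr : r ∉ A) :
    top A (∏ w ∈ A, (TT (ev w r) * QQ (ev w r))) = 1 := by
  induction A using Finset.induction_on with
  | empty =>
    rw [Finset.prod_empty]
    have h1 : (1 : RR V) = mk 1 := (map_one mk).symm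
    rw [h1, G.top_mk, show mon (∅ : Finset V) = 0 from ?_, coeff_zero_one]
    ext i
    rw [G.mon_apply, if_neg (Finset.notMem_empty _)]
    rfl
  | insert v A hv ih =>
    have hrv : r ≠ v := fun h => hr (h ▸ Finset.mem_insert_self _ _)
    have hrA : r ∉ A := fun h => hr (Finset.mem_insert_of_mem h)
    rw [Finset.prod_insert hv]
    set n := ∏ w ∈ A, (TT (ev w r) * QQ (ev w r)) with hn
    have hfree : ∀ w ∈ A, (ev w r : Vec V) v = 0 := by
      intro w hw
      have h1 : v ≠ w := fun h => hv (h ▸ hw)
      rw [ev_apply, if_neg h1, if_neg hrv.symm, add_zero]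
    have hnV : n ∈ VF v := by
      rw [hn]
      exact Subalgebra.prod_mem _ fun w hw =>
        Subalgebra.mul_mem _ (TT_VF (hfree w hw)) (QQ_VF (hfree w hw))
    have hev : (ev v r : Vec V) v = 1 := by
      rw [ev_apply, if_pos rfl, if_neg hrv.symm, add_zero]
    obtain ⟨x, hx, y, hy, hT, hQ⟩ := base_split hev
    have hexp : TT (ev v r) * QQ (ev v r) * n = mk (X (v, false)) * mk (X (v, true)) * n +
        mk (X (v, false)) * (y * n) + mk (X (v, true)) * (x * n) + x * y * n := by
      rw [hT, hQ]
      ring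
    rw [hexp, top_res hv hnV (Subalgebra.mul_mem _ hy hnV) (Subalgebra.mul_mem _ hx hnV)
      (Subalgebra.mul_mem _ (Subalgebra.mul_mem _ hx hy) hnV)]
    exact ih hrA

/-! ### Membership -/

theorem el_span {e : Finset V} {P : El V} (h : elOf e P) {x y : V} (hx : x ∈ e) (hy : y ∈ e) :
    (ev x y : Vec V) = 0 ∨ ev x y = P.1 ∨ ev x y = P.2 ∨ ev x y = P.1 + P.2 := by
  rcases h with ⟨a, b, -, rfl, rfl⟩ | ⟨a, b, c, -, -, -, rfl, rfl⟩
  · simp only [Finset.mem_insert, Finset.mem_singleton] at hx hy
    rcases hx with rfl | rfl <;> rcases hy with rfl | rfl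
    · exact Or.inl (GBr.ev_self _)
    · exact Or.inr (Or.inl rfl)
    · exact Or.inr (Or.inl (ev_comm _ _))
    · exact Or.inl (GBr.ev_self _)
  · simp only [Finset.mem_insert, Finset.mem_singleton] at hx hy
    rcases hx with rfl | rfl | rfl <;> rcases hy with rfl | rfl | rfl
    · exact Or.inl (GBr.ev_self _)
    · exact Or.inr (Or.inl rfl)
    · exact Or.inr (Or.inr (Or.inr (ev_add _ _ _).symm))
    · exact Or.inr (Or.inl (ev_comm _ _))
    · exact Or.inl (GBr.ev_self _)
    · exact Or.inr (Or.inr (Or.inl rfl))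
    · exact Or.inr (Or.inr (Or.inr ((ev_comm _ _).trans (ev_add _ _ _).symm)))
    · exact Or.inr (Or.inr (Or.inl (ev_comm _ _)))
    · exact Or.inl (GBr.ev_self _)

theorem el_le {e : Finset V} {P : El V} (h : elOf e P) {x y z : V} (hx : x ∈ e) (hy : y ∈ e)
    (hz : z ∈ e) : OO (ev x y, ev y z) ≤ OO P :=
  GM.OO_mono (el_span h hx hy) (el_span h hy hz)

theorem q_mem {e : Finset V} {P : El V} (h : elOf e P) {x y : V} (hx : x ∈ e) (hy : y ∈ e) :
    QQ (ev x y) ∈ OO P := el_le h hx hy hx (q1_mem (ev x y, ev y x))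

theorem t_mem {e : Finset V} {P : El V} (h : elOf e P) {x y : V} (hx : x ∈ e) (hy : y ∈ e) :
    TT (ev x y) ∈ OO P := el_le h hx hy hx (t1_mem (ev x y, ev y x))

/-- the sum of the `t_w` -/
def tp (s : Finset V) : RR V := ∑ w ∈ s, mk (X (w, false))

theorem tp_pair {a b : V} (hab : a ≠ b) : tp {a, b} = TT (ev a b) := by
  unfold tp
  rw [Finset.sum_pair hab, GBr.TT_ev, ← map_add]
  rfl

variable {I : Type}

theorem prod_mem (P : I → El V) (G : I → RR V) (h : ∀ i, G i ∈ OO (P i)) (S : Finset I) :
    ∏ i ∈ S, G i ∈ OP (S.val.map P) := by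
  induction S using Finset.induction_on with
  | empty => exact one_mem_OP _
  | insert a S ha ih =>
    rw [Finset.prod_insert ha, Finset.insert_val_of_notMem ha, Multiset.map_cons, OP_cons]
    exact Submodule.mul_mem_mul (h a) ih

/-- combine two families -/
theorem prod_comb (S S' : Finset I) (i : I) (f f' : I → RR V) (x : RR V) (hd : Disjoint S S')
    (hi : i ∉ S) (hi' : i ∉ S') :
    ∏ j ∈ insert i (S ∪ S'), (if j ∈ S then f j else if j ∈ S' then f' j else x) =
      x * ((∏ j ∈ S, f j) * ∏ j ∈ S', f' j) := by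
  rw [Finset.prod_insert (by simp [hi, hi']), Finset.prod_union hd, if_neg hi, if_neg hi']
  congr 1
  congr 1
  · exact Finset.prod_congr rfl fun j hj => if_pos hj
  · refine Finset.prod_congr rfl fun j hj => ?_
    rw [if_neg fun h => Finset.disjoint_left.1 hd h hj, if_pos hj]

theorem prod_inter (S S' T₀ : Finset I) (i : I) (f : I → RR V) (hd : Disjoint S S')
    (hi : i ∉ S) (hi' : i ∉ S') :
    ∏ j ∈ insert i (S ∪ S') ∩ T₀, f j =
      (if i ∈ T₀ then f i else 1) * ((∏ j ∈ S ∩ T₀, f j) * ∏ j ∈ S' ∩ T₀, f j) := by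
  have hd' : Disjoint (S ∩ T₀) (S' ∩ T₀) :=
    Finset.disjoint_of_subset_left Finset.inter_subset_left
      (Finset.disjoint_of_subset_right Finset.inter_subset_left hd)
  by_cases h : i ∈ T₀
  · rw [if_pos h, Finset.insert_inter_of_mem h, Finset.union_inter_distrib_right,
      Finset.prod_insert (by simp [hi, hi']), Finset.prod_union hd']
  · rw [if_neg h, one_mul, Finset.insert_inter_of_notMem h, Finset.union_inter_distrib_right,
      Finset.prod_union hd']

theorem ktree_nonempty {e p : I → Finset V} {A : Finset V} {T : Finset I} (h : KTree e p A T) :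
    A.Nonempty := by
  induction h with
  | single v => exact ⟨v, Finset.mem_singleton_self v⟩
  | joinD A A' T T' i x y _ _ _ _ _ _ _ hx _ _ _ _ _ => exact ⟨x, Finset.mem_union_left _ hx⟩
  | joinU A A' A'' T T' T'' i x y z _ _ _ _ _ _ _ _ _ _ _ _ _ hx =>
    exact ⟨x, Finset.mem_union_left _ (Finset.mem_union_left _ hx)⟩
  | joinC A A' T T' i y z v _ _ _ _ _ _ _ hy _ _ _ _ _ => exact ⟨y, Finset.mem_union_left _ hy⟩

/-- the product over the merging process -/
theorem ktree_prod {e p : I → Finset V} {P : I → El V} (hP : ∀ i, elOf (e i) (P i))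
    (hp : Pairs p) (hsub : ∀ i, p i ⊆ e i) (T₀ : Finset I) (hT₀ : ∀ i ∈ T₀, p i ≠ ∅)
    {A : Finset V} {T : Finset I} (h : KTree e p A T) :
    ∃ g : I → RR V, (∀ i, g i ∈ OO (P i)) ∧
      ∀ r ∈ A, ∏ i ∈ T, g i = (∏ i ∈ T ∩ T₀, tp (p i)) * can QQ A r := by
  induction h with
  | single v =>
    refine ⟨fun _ => 1, fun i => one_mem _, fun r hr => ?_⟩
    rw [Finset.mem_singleton.1 hr, can_single]
    simp
  | joinD A A' T T' i x y _ _ hd hdT hi hi' hpi hx hy hxe hye ih ih' =>
    obtain ⟨g, hg, hgp⟩ := ih
    obtain ⟨g', hg', hgp'⟩ := ih'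
    refine ⟨fun j => if j ∈ T then g j else if j ∈ T' then g' j else
      if j = i then QQ (ev x y) else 1, fun j => ?_, fun r hr => ?_⟩
    · simp only
      split_ifs with h1 h2 h3
      · exact hg j
      · exact hg' j
      · rw [h3]
        exact q_mem (hP i) hxe hye
      · exact one_mem _
    · have hiT₀ : i ∉ T₀ := fun h => hT₀ i h hpi
      have h1 : ∏ j ∈ insert i (T ∪ T'), (if j ∈ T then g j else if j ∈ T' then g' j else
          if j = i then QQ (ev x y) else 1) = ∏ j ∈ insert i (T ∪ T'), (if j ∈ T then g j else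
          if j ∈ T' then g' j else QQ (ev x y)) := by
        refine Finset.prod_congr rfl fun j hj => ?_
        by_cases a1 : j ∈ T
        · rw [if_pos a1, if_pos a1]
        by_cases a2 : j ∈ T'
        · rw [if_neg a1, if_neg a1, if_pos a2, if_pos a2]
        · have : j = i := by
            rcases Finset.mem_insert.1 hj with h | h
            · exact h
            · rcases Finset.mem_union.1 h with h | h
              · exact absurd h a1
              · exact absurd h a2
          rw [if_neg a1, if_neg a1, if_neg a2, if_neg a2, if_pos this]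
      rw [h1, prod_comb T T' i g g' _ hdT hi hi', prod_inter T T' T₀ i _ hdT hi hi',
        if_neg hiT₀, one_mul, hgp x hx, hgp' y hy,
        can_root adQ hr (Finset.mem_union_left _ hx), ← can_join adQ hx hy hd]
      ring
  | joinU A A' A'' T T' T'' i x y z _ _ _ hd hd' hd'' hdT hdT' hdT'' hi hi' hi'' hpi hx hy hz
      hxe hye hze ih ih' ih'' =>
    obtain ⟨g, hg, hgp⟩ := ih
    obtain ⟨g', hg', hgp'⟩ := ih'
    obtain ⟨g'', hg'', hgp''⟩ := ih''
    refine ⟨fun j => if j ∈ T then g j else if j ∈ T' then g' j else if j ∈ T'' then g'' j else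
      if j = i then QQ (ev x y) * QQ (ev y z) else 1, fun j => ?_, fun r hr => ?_⟩
    · simp only
      split_ifs with h1 h2 h3 h4
      · exact hg j
      · exact hg' j
      · exact hg'' j
      · rw [h4]
        exact el_le (hP i) hxe hye hze (qq_mem (ev x y, ev y z))
      · exact one_mem _
    · have hiT₀ : i ∉ T₀ := fun h => hT₀ i h hpi
      have hins : insert i (T ∪ T' ∪ T'') = insert i (T ∪ T' ∪ T'') := rfl
      have hdu : Disjoint (T ∪ T') T'' := Finset.disjoint_union_left.2 ⟨hdT', hdT''⟩
      have hiu : i ∉ T ∪ T' := by simp [hi, hi']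
      have h1 : ∏ j ∈ insert i (T ∪ T' ∪ T''), (if j ∈ T then g j else if j ∈ T' then g' j else
          if j ∈ T'' then g'' j else if j = i then QQ (ev x y) * QQ (ev y z) else 1) =
          ∏ j ∈ insert i (T ∪ T' ∪ T''), (if j ∈ T ∪ T' then (if j ∈ T then g j else g' j) else
          if j ∈ T'' then g'' j else QQ (ev x y) * QQ (ev y z)) := by
        refine Finset.prod_congr rfl fun j hj => ?_
        by_cases a1 : j ∈ T
        · rw [if_pos a1, if_pos (Finset.mem_union_left _ a1), if_pos a1]
        by_cases a2 : j ∈ T'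
        · rw [if_neg a1, if_pos a2, if_pos (Finset.mem_union_right _ a2), if_neg a1]
        have a3 : j ∉ T ∪ T' := by simp [a1, a2]
        by_cases a4 : j ∈ T''
        · rw [if_neg a1, if_neg a2, if_pos a4, if_neg a3, if_pos a4]
        · have : j = i := by
            rcases Finset.mem_insert.1 hj with h | h
            · exact h
            · rcases Finset.mem_union.1 h with h | h
              · exact absurd h a3
              · exact absurd h a4
          rw [if_neg a1, if_neg a2, if_neg a4, if_pos this, if_neg a3, if_neg a4]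
      have h2 : ∏ j ∈ T ∪ T', (if j ∈ T then g j else g' j) =
          (∏ j ∈ T, g j) * ∏ j ∈ T', g' j := by
        rw [Finset.prod_union hdT]
        congr 1
        · exact Finset.prod_congr rfl fun j hj => if_pos hj
        · exact Finset.prod_congr rfl fun j hj =>
            if_neg fun h => Finset.disjoint_left.1 hdT h hj
      have h3 : ∏ j ∈ (T ∪ T') ∩ T₀, tp (p j) =
          (∏ j ∈ T ∩ T₀, tp (p j)) * ∏ j ∈ T' ∩ T₀, tp (p j) := by
        rw [Finset.union_inter_distrib_right, Finset.prod_union]
        exact Finset.disjoint_of_subset_left Finset.inter_subset_left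
          (Finset.disjoint_of_subset_right Finset.inter_subset_left hdT)
      have hyA : y ∈ A ∪ A' := Finset.mem_union_right _ hy
      have hdA : Disjoint (A ∪ A') A'' := Finset.disjoint_union_left.2 ⟨hd', hd''⟩
      have h4 := can_join adQ hx hy hd
      have h5 := can_join adQ hyA hz hdA
      have h6 : can QQ (A ∪ A') x = can QQ (A ∪ A') y :=
        can_root adQ (Finset.mem_union_left _ hx) hyA
      rw [h1, prod_comb (T ∪ T') T'' i _ g'' _ hdu hiu hi'', prod_inter (T ∪ T') T'' T₀ i _ hdu
        hiu hi'', if_neg hiT₀, one_mul, h2, h3, hgp x hx, hgp' y hy, hgp'' z hz,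
        can_root adQ hr (Finset.mem_union_left _ hyA), ← h5, ← h6, ← h4]
      ring
  | joinC A A' T T' i y z v _ _ hd hdT hi hi' hpi hy hz hv hve ih ih' =>
    obtain ⟨g, hg, hgp⟩ := ih
    obtain ⟨g', hg', hgp'⟩ := ih'
    have hye : y ∈ e i := hsub i (by rw [hpi]; simp)
    have hze : z ∈ e i := hsub i (by rw [hpi]; simp)
    have hyz : y ≠ z := by
      rintro rfl
      rcases hp i with h | h
      · rw [hpi] at h
        simp at h
      · rw [hpi] at h
        simp at h
    let x : RR V := if i ∈ T₀ then TT (ev y z) * QQ (ev z v) + TT (ev z v) * QQ (ev y z)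
      else QQ (ev z v)
    have hx : x ∈ OO (P i) := by
      simp only [x]
      split_ifs
      · exact el_le (hP i) hye hze hve (be_mem (ev y z, ev z v))
      · exact q_mem (hP i) hze hve
    refine ⟨fun j => if j ∈ T then g j else if j ∈ T' then g' j else if j = i then x else 1,
      fun j => ?_, fun r hr => ?_⟩
    · simp only
      split_ifs with h1 h2 h3
      · exact hg j
      · exact hg' j
      · rw [h3]
        exact hx
      · exact one_mem _
    · have h1 : ∏ j ∈ insert i (T ∪ T'), (if j ∈ T then g j else if j ∈ T' then g' j else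
          if j = i then x else 1) = ∏ j ∈ insert i (T ∪ T'), (if j ∈ T then g j else
          if j ∈ T' then g' j else x) := by
        refine Finset.prod_congr rfl fun j hj => ?_
        by_cases a1 : j ∈ T
        · rw [if_pos a1, if_pos a1]
        by_cases a2 : j ∈ T'
        · rw [if_neg a1, if_neg a1, if_pos a2, if_pos a2]
        · have : j = i := by
            rcases Finset.mem_insert.1 hj with h | h
            · exact h
            · rcases Finset.mem_union.1 h with h | h
              · exact absurd h a1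
              · exact absurd h a2
          rw [if_neg a1, if_neg a1, if_neg a2, if_neg a2, if_pos this]
      have h2 := can_join adQ hz hv hd
      have h3 := can_ann adQ hy hz hz
      rw [h1, prod_comb T T' i g g' _ hdT hi hi', prod_inter T T' T₀ i _ hdT hi hi',
        hgp z hz, hgp' v hv, can_root adQ hr (Finset.mem_union_left _ hz), ← h2]
      by_cases hiT : i ∈ T₀
      · simp only [x]
        rw [if_pos hiT, if_pos hiT, hpi, tp_pair hyz]
        linear_combination (TT (ev z v) * (∏ j ∈ T ∩ T₀, tp (p j)) *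
          (∏ j ∈ T' ∩ T₀, tp (p j)) * can QQ A' v) * h3
      · simp only [x]
        rw [if_neg hiT, if_neg hiT]
        ring

/-- a spanning tree of the chosen pairs -/
theorem exists_tree {p : I → Finset V} (hp : Pairs p) {B₀ : Finset V} (hB : ∀ i, p i ⊆ B₀)
    (hc : ∀ X : Finset V, X ⊆ B₀ → X.Nonempty → X ≠ B₀ → ∃ i, Crosses (p i) X) {r : V}
    (hr : r ∈ B₀) : ∃ T₀ : Finset I, (∀ i ∈ T₀, p i ≠ ∅) ∧ ∏ i ∈ T₀, tp (p i) = can TT B₀ r := by
  have key : ∀ n : ℕ, ∀ (A : Finset V) (T : Finset I), (B₀ \ A).card = n → A ⊆ B₀ → r ∈ A →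
      (∀ i ∈ T, p i ≠ ∅ ∧ p i ⊆ A) → ∏ i ∈ T, tp (p i) = can TT A r →
      ∃ T₀ : Finset I, (∀ i ∈ T₀, p i ≠ ∅) ∧ ∏ i ∈ T₀, tp (p i) = can TT B₀ r := by
    intro n
    induction n with
    | zero =>
      intro A T h0 hA _ hT hprod
      have h1 : B₀ \ A = ∅ := Finset.card_eq_zero.1 h0
      have h2 : A = B₀ := Finset.Subset.antisymm hA (Finset.sdiff_eq_empty_iff_subset.1 h1)
      rw [h2] at hprod
      exact ⟨T, fun i hi => (hT i hi).1, hprod⟩
    | succ n ih =>
      intro A T h0 hA hrA hT hprod
      have hne : A ≠ B₀ := by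
        rintro rfl
        rw [Finset.sdiff_self, Finset.card_empty] at h0
        omega
      obtain ⟨i, ⟨u, hu, huA⟩, v, hv, hvA⟩ := hc A hA ⟨r, hrA⟩ hne
      have huv : u ≠ v := fun h => hvA (h ▸ huA)
      have hpi : p i = {u, v} := by
        rcases hp i with h | h
        · rw [h] at hu
          exact absurd hu (Finset.notMem_empty _)
        · symm
          apply Finset.eq_of_subset_of_card_le
          · intro x hx
            rcases Finset.mem_insert.1 hx with h | h
            · exact h ▸ hu
            · exact (Finset.mem_singleton.1 h) ▸ hv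
          · rw [h, Finset.card_pair huv]
      have hiT : i ∉ T := fun h => hvA ((hT i h).2 hv)
      have hvB : v ∈ B₀ := hB i hv
      refine ih (insert v A) (insert i T) ?_ ?_ (Finset.mem_insert_of_mem hrA) ?_ ?_
      · have h1 : B₀ \ insert v A = (B₀ \ A).erase v := by
          ext w
          simp only [Finset.mem_sdiff, Finset.mem_insert, Finset.mem_erase]
          tauto
        rw [h1, Finset.card_erase_of_mem (Finset.mem_sdiff.2 ⟨hvB, hvA⟩), h0]
        rfl
      · intro w hw
        rcases Finset.mem_insert.1 hw with h | h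
        · exact h ▸ hvB
        · exact hA h
      · intro j hj
        rcases Finset.mem_insert.1 hj with h | h
        · rw [h, hpi]
          refine ⟨by simp, ?_⟩
          intro w hw
          rcases Finset.mem_insert.1 hw with h2 | h2
          · exact Finset.mem_insert_of_mem (h2 ▸ huA)
          · rw [Finset.mem_singleton.1 h2]
            exact Finset.mem_insert_self _ _
        · exact ⟨(hT j h).1, fun w hw => Finset.mem_insert_of_mem ((hT j h).2 hw)⟩
      · rw [Finset.prod_insert hiT, hprod, hpi, tp_pair huv]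
        have hd : Disjoint A {v} := by
          rw [Finset.disjoint_singleton_right]
          exact hvA
        have h1 := can_join adT huA (Finset.mem_singleton_self v) hd
        rw [can_single, mul_one, ← can_root adT hrA huA] at h1
        have h2 : A ∪ {v} = insert v A := by
          rw [Finset.union_comm]
          rfl
        rw [h1, h2]
        exact can_root adT (Finset.mem_insert_of_mem huA) (Finset.mem_insert_of_mem hrA)
  refine key _ {r} ∅ rfl (Finset.singleton_subset_iff.2 hr) (Finset.mem_singleton_self r)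
    (by simp) ?_
  rw [Finset.prod_empty, can_single]

variable [Fintype I]

/-- **KV gives the algebraic certificate**, relative to a set of vertices -/
theorem algE_of_ktree (B₀ : Finset V) (e p : I → Finset V) (P : I → El V)
    (hP : ∀ i, elOf (e i) (P i)) (hp : Pairs p) (hsub : ∀ i, p i ⊆ e i) (hB : ∀ i, e i ⊆ B₀)
    (hc : ∀ X : Finset V, X ⊆ B₀ → X.Nonempty → X ≠ B₀ → ∃ i, Crosses (p i) X)
    (T : Finset I) (hT : KTree e p B₀ T) : AlgE B₀ (univ.val.map P) := by
  obtain ⟨r, hr⟩ := ktree_nonempty hT
  obtain ⟨T₀, hT₀, htree⟩ := exists_tree hp (fun i => (hsub i).trans (hB i)) hc hr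
  obtain ⟨g, hg, hprod⟩ := ktree_prod hP hp hsub T₀ hT₀ hT
  have htp : ∀ i ∈ T₀, tp (p i) ∈ OO (P i) := by
    intro i hi
    rcases hp i with h | h
    · exact absurd h (hT₀ i hi)
    · obtain ⟨a, b, hab, h1⟩ := Finset.card_eq_two.1 h
      have ha : a ∈ e i := hsub i (by rw [h1]; simp)
      have hb : b ∈ e i := hsub i (by rw [h1]; simp)
      rw [h1, tp_pair hab]
      exact t_mem (hP i) ha hb
  let G : I → RR V := fun i => if i ∈ T then g i else if i ∈ T₀ then tp (p i) else 1
  have hG : ∀ i, G i ∈ OO (P i) := by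
    intro i
    simp only [G]
    split_ifs with h1 h2
    · exact hg i
    · exact htp i h2
    · exact one_mem _
  refine ⟨r, hr, ∏ i, G i, prod_mem P G hG univ, ?_⟩
  have h1 : ∏ i, G i = (∏ i ∈ T, g i) * ∏ i ∈ T₀ \ T, tp (p i) := by
    have h2 : (univ : Finset I) = T ∪ (univ \ T) := (Finset.union_sdiff_of_subset
      (Finset.subset_univ T)).symm
    rw [h2, Finset.prod_union Finset.disjoint_sdiff]
    congr 1
    · exact Finset.prod_congr rfl fun i hi => if_pos hi
    · have h3 : T₀ \ T ⊆ univ \ T := Finset.sdiff_subset_sdiff (Finset.subset_univ _) le_rfl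
      rw [← Finset.prod_subset h3]
      · refine Finset.prod_congr rfl fun i hi => ?_
        obtain ⟨h4, h5⟩ := Finset.mem_sdiff.1 hi
        simp only [G]
        rw [if_neg h5, if_pos h4]
      · intro i hi hi'
        have h4 : i ∉ T := (Finset.mem_sdiff.1 hi).2
        have h5 : i ∉ T₀ := fun h => hi' (Finset.mem_sdiff.2 ⟨h, h4⟩)
        simp only [G]
        rw [if_neg h4, if_neg h5]
  have h2 : (∏ i ∈ T ∩ T₀, tp (p i)) * ∏ i ∈ T₀ \ T, tp (p i) = ∏ i ∈ T₀, tp (p i) := by
    rw [Finset.inter_comm, ← Finset.prod_union]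
    · congr 1
      ext i
      simp only [Finset.mem_union, Finset.mem_inter, Finset.mem_sdiff]
      tauto
    · rw [Finset.disjoint_left]
      intro i hi hi'
      exact (Finset.mem_sdiff.1 hi').2 (Finset.mem_inter.1 hi).2
  have h3 : ∏ i, G i = ∏ w ∈ B₀.erase r, (TT (ev w r) * QQ (ev w r)) := by
    rw [h1, hprod r hr, Finset.prod_mul_distrib]
    change _ = can TT B₀ r * can QQ B₀ r
    rw [← htree, ← h2]
    ring
  rw [h3, top_can r _ (Finset.notMem_erase r B₀)]
  exact one_ne_zero

/-- the element of a hyperedge -/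
theorem exists_elOf (e : Finset V) (he : e.card = 2 ∨ e.card = 3) : ∃ P : El V, elOf e P := by
  rcases he with h | h
  · obtain ⟨a, b, hab, rfl⟩ := Finset.card_eq_two.1 h
    exact ⟨_, Or.inl ⟨a, b, hab, rfl, rfl⟩⟩
  · obtain ⟨a, b, c, hab, hac, hbc, rfl⟩ := Finset.card_eq_three.1 h
    exact ⟨_, Or.inr ⟨a, b, c, hab, hac, hbc, rfl, rfl⟩⟩

/-- the absolute form -/
theorem algE_of_certK (e : I → Finset V) (P : I → El V) (hP : ∀ i, elOf (e i) (P i))
    (h : CertK e) : AlgE univ (univ.val.map P) := by
  obtain ⟨p, T, hp, hsub, hc, hT⟩ := h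
  exact algE_of_ktree univ e p P hP hp hsub (fun i => Finset.subset_univ _)
    (fun X _ hX hX' => hc X hX hX') T hT

theorem evenConn_of_algE (e : I → Finset V) (P : I → El V) (hP : ∀ i, elOf (e i) (P i))
    (h : AlgE univ (univ.val.map P)) : EvenConn univ e :=
  evenConn_of_algC e (rowBridge V I e P hP h)

end GK

end Pool.Agent.ClawHam
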