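import Pool.Agent.Lib.MP_e2dbb5_co.GKV

/-!
# The certificate KV gives the algebraic certificate, for an embedded vertex set (helper69)
-/

set_option autoImplicit false
set_option linter.unusedSectionVars false

open Finset

noncomputable section

namespace Pool.Agent.ClawHam

open Classical

namespace GK

variable {B V I : Type}

theorem ktree_image (f : B → V) (hf : Function.Injective f) {e p : I → Finset B} {A : Finset B}
    {T : Finset I} (h : KTree e p A T) :
    KTree (fun i => (e i).image f) (fun i => (p i).image f) (A.image f) T := by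
  induction h with
  | single v =>
    rw [Finset.image_singleton]
    exact KTree.single (f v)
  | joinD A A' T T' i x y _ _ hd hdT hi hi' hpi hx hy hxe hye ih ih' =>
    rw [Finset.image_union]
    exact KTree.joinD _ _ T T' i (f x) (f y) ih ih' ((Finset.disjoint_image hf).2 hd) hdT hi hi'
      (by rw [hpi, Finset.image_empty]) (Finset.mem_image_of_mem f hx)
      (Finset.mem_image_of_mem f hy) (Finset.mem_image_of_mem f hxe)
      (Finset.mem_image_of_mem f hye)
  | joinU A A' A'' T T' T'' i x y z _ _ _ hd hd' hd'' hdT hdT' hdT'' hi hi' hi'' hpi hx hy hz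
      hxe hye hze ih ih' ih'' =>
    rw [Finset.image_union, Finset.image_union]
    exact KTree.joinU _ _ _ T T' T'' i (f x) (f y) (f z) ih ih' ih''
      ((Finset.disjoint_image hf).2 hd) ((Finset.disjoint_image hf).2 hd')
      ((Finset.disjoint_image hf).2 hd'') hdT hdT' hdT'' hi hi' hi''
      (by rw [hpi, Finset.image_empty]) (Finset.mem_image_of_mem f hx)
      (Finset.mem_image_of_mem f hy) (Finset.mem_image_of_mem f hz)
      (Finset.mem_image_of_mem f hxe) (Finset.mem_image_of_mem f hye)
      (Finset.mem_image_of_mem f hze)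
  | joinC A A' T T' i y z v _ _ hd hdT hi hi' hpi hy hz hv hve ih ih' =>
    rw [Finset.image_union]
    exact KTree.joinC _ _ T T' i (f y) (f z) (f v) ih ih' ((Finset.disjoint_image hf).2 hd) hdT
      hi hi' (by rw [hpi, Finset.image_insert, Finset.image_singleton])
      (Finset.mem_image_of_mem f hy) (Finset.mem_image_of_mem f hz)
      (Finset.mem_image_of_mem f hv) (Finset.mem_image_of_mem f hve)

/-- **row R2 (BASE)** -/
theorem algE_of_certK_emb [Fintype B] [Fintype V] [Fintype I] (f : B → V)
    (hf : Function.Injective f) (e : I → Finset B) (P : I → El V)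
    (hP : ∀ i, elOf ((e i).image f) (P i)) (h : CertK e) :
    AlgE (univ.image f) (univ.val.map P) := by
  obtain ⟨p, T, hp, hsub, hc, hT⟩ := h
  refine algE_of_ktree (univ.image f) (fun i => (e i).image f) (fun i => (p i).image f) P hP
    (fun i => ?_) (fun i => Finset.image_subset_image (hsub i))
    (fun i => Finset.image_subset_image (Finset.subset_univ _)) (fun X hX hXn hXne => ?_) T
    (ktree_image f hf hT)
  · change (p i).image f = ∅ ∨ ((p i).image f).card = 2
    rw [Finset.image_eq_empty, Finset.card_image_of_injective _ hf]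
    exact hp i
  · set X' : Finset B := univ.filter fun b => f b ∈ X with hX'
    have hmem : ∀ b, b ∈ X' ↔ f b ∈ X := fun b => by simp [hX']
    have h1 : X'.Nonempty := by
      obtain ⟨x, hx⟩ := hXn
      obtain ⟨b, -, rfl⟩ := Finset.mem_image.1 (hX hx)
      exact ⟨b, (hmem b).2 hx⟩
    have h2 : X' ≠ univ := by
      intro h2
      apply hXne
      apply Finset.Subset.antisymm hX
      intro x hx
      obtain ⟨b, -, rfl⟩ := Finset.mem_image.1 hx
      exact (hmem b).1 (by rw [h2]; exact Finset.mem_univ b)
    obtain ⟨i, ⟨a, ha, haX⟩, b, hb, hbX⟩ := hc X' h1 h2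
    exact ⟨i, ⟨f a, Finset.mem_image_of_mem f ha, (hmem a).1 haX⟩, f b,
      Finset.mem_image_of_mem f hb, fun h3 => hbX ((hmem b).2 h3)⟩

end GK

end Pool.Agent.ClawHam
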