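import Pool.Agent.Lib.MP_e2dbb5_co.G0

/-!
# Row ROOT: the certificate does not depend on the root (helper68)

All vectors are even, so the products are killed by the derivations `t_w ↦ 1` and `q_w ↦ 1`
(`w ∈ B₀`); the coefficient of a derivative at `∏ t_w`, `w ≠ r, r'`, is the sum of the coefficients
at `∏ t_w`, `w ≠ r'`, and at `∏ t_w`, `w ≠ r`.
-/

set_option autoImplicit false
set_option linter.unusedSectionVars false

open Finset MvPolynomial

noncomputable section

namespace Pool.Agent.ClawHam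

open Classical

namespace GRoot

/-! ### Base lemmas -/

variable {V : Type}

/-- The coefficients of the ideal of the squares at squarefree monomials vanish. -/
theorem coeff_sqI {p : Ply V} (hp : p ∈ SqI V) : ∀ m : (V × Bool) →₀ ℕ, (∀ i, m i ≤ 1) →
    coeff m p = 0 := by
  unfold SqI at hp
  refine Submodule.span_induction (p := fun x _ => ∀ m : (V × Bool) →₀ ℕ, (∀ i, m i ≤ 1) →
    coeff m x = 0) ?_ ?_ ?_ ?_ hp
  · rintro x ⟨i, rfl⟩ m hm
    show coeff m (X i ^ 2) = 0
    rw [coeff_X_pow, if_neg]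
    intro h
    have h1 := hm i
    rw [← h, Finsupp.single_eq_same] at h1
    omega
  · intro m _
    exact coeff_zero m
  · intro x y _ _ hx hy m hm
    rw [coeff_add, hx m hm, hy m hm, add_zero]
  · intro a x _ hx m hm
    rw [smul_eq_mul, coeff_mul]
    refine sum_eq_zero fun k hk => ?_
    have h1 : k.1 + k.2 = m := mem_antidiagonal.1 hk
    rw [hx k.2 fun i => ?_, mul_zero]
    have h2 := hm i
    rw [← h1, Finsupp.add_apply] at h2
    omega

theorem mon_le [Fintype V] (A : Finset V) (i : V × Bool) : mon A i ≤ 1 := by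
  unfold mon
  rw [AG.sqf_apply]
  split_ifs <;> omega

theorem top_mk [Fintype V] (A : Finset V) (p : Ply V) : top A (mk p) = coeff (mon A) p := by
  unfold top
  have h : Function.surjInv (Ideal.Quotient.mk_surjective (I := SqI V)) (mk p) - p ∈ SqI V := by
    rw [← Ideal.Quotient.eq]
    exact Function.surjInv_eq (Ideal.Quotient.mk_surjective (I := SqI V)) (mk p)
  have h1 := coeff_sqI h (mon A) (mon_le A)
  rw [coeff_sub] at h1
  exact sub_eq_zero.1 h1

/-! ### The derivations -/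

/-- the derivation `X_i ↦ d i` -/
def Dv {σ : Type} (d : σ → ZMod 2) :
    Derivation (ZMod 2) (MvPolynomial σ (ZMod 2)) (MvPolynomial σ (ZMod 2)) :=
  mkDerivation (ZMod 2) fun i => C (d i)

theorem coeff_Dv {σ : Type} [Fintype σ] (d : σ → ZMod 2) (p : MvPolynomial σ (ZMod 2))
    (m : σ →₀ ℕ) : coeff m (Dv d p) =
      ∑ i, d i * ((m i + 1 : ℕ) : ZMod 2) * coeff (m + Finsupp.single i 1) p := by
  induction p using MvPolynomial.induction_on' with
  | monomial s a =>
    unfold Dv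
    rw [mkDerivation_monomial, coeff_smul, smul_eq_mul, Finsupp.sum, coeff_sum]
    have e1 : ∑ i ∈ s.support, coeff m (monomial (s - Finsupp.single i 1) ((s i : ℕ) : ZMod 2) •
        (C (d i) : MvPolynomial σ (ZMod 2))) =
        ∑ i, coeff m (monomial (s - Finsupp.single i 1) ((s i : ℕ) : ZMod 2) •
        (C (d i) : MvPolynomial σ (ZMod 2))) := by
      refine sum_subset (subset_univ _) fun i _ hi => ?_
      rw [Finsupp.notMem_support_iff.1 hi]
      simp
    rw [e1, mul_sum]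
    refine sum_congr rfl fun i _ => ?_
    rw [smul_eq_mul, mul_comm (monomial _ _) (C (d i)), coeff_C_mul, coeff_monomial, coeff_monomial]
    by_cases h : s = m + Finsupp.single i 1
    · have h1 : s - Finsupp.single i 1 = m := by
        rw [h]; exact add_tsub_cancel_right _ _
      have h2 : s i = m i + 1 := by
        rw [h, Finsupp.add_apply, Finsupp.single_eq_same]
      rw [if_pos h1, if_pos h, h2]
      ring
    · rw [if_neg h, mul_zero]
      by_cases h1 : s - Finsupp.single i 1 = m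
      · rw [if_pos h1]
        have h2 : s i = 0 := by
          by_contra h3
          refine h ?_
          rw [← h1]
          refine (tsub_add_cancel_of_le ?_).symm
          rw [Finsupp.single_le_iff]
          omega
        rw [h2]
        simp
      · rw [if_neg h1]
        ring
  | add p q hp hq =>
    rw [map_add, coeff_add, hp, hq, ← sum_add_distrib]
    refine sum_congr rfl fun i _ => ?_
    rw [coeff_add]
    ring

theorem Dv_sqI (d : V × Bool → ZMod 2) {p : Ply V} (hp : p ∈ SqI V) : Dv d p ∈ SqI V := by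
  unfold SqI at hp ⊢
  refine Submodule.span_induction (p := fun x _ => Dv d x ∈
    Ideal.span (Set.range fun i : V × Bool => (X i ^ 2 : Ply V))) ?_ ?_ ?_ ?_ hp
  · rintro x ⟨i, rfl⟩
    show Dv d (X i ^ 2) ∈ _
    rw [pow_two, Derivation.leibniz, CharTwo.add_self_eq_zero]
    exact Ideal.zero_mem _
  · rw [map_zero]; exact Ideal.zero_mem _
  · intro x y _ _ hx hy
    rw [map_add]; exact Ideal.add_mem _ hx hy
  · intro a x hx hx'
    rw [smul_eq_mul, Derivation.leibniz, smul_eq_mul, smul_eq_mul]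
    exact Ideal.add_mem _ (Ideal.mul_mem_left _ _ hx') (Ideal.mul_mem_right _ _ hx)

/-- the classes killed by the derivation -/
def Kd (d : V × Bool → ZMod 2) : Submodule (ZMod 2) (RR V) where
  carrier := {x | ∃ p : Ply V, mk p = x ∧ Dv d p ∈ SqI V}
  zero_mem' := ⟨0, map_zero _, by rw [map_zero]; exact Ideal.zero_mem _⟩
  add_mem' := by
    rintro x y ⟨p, rfl, hp⟩ ⟨q, rfl, hq⟩
    exact ⟨p + q, map_add _ _ _, by rw [map_add]; exact Ideal.add_mem _ hp hq⟩
  smul_mem' := by
    rintro c x ⟨p, rfl, hp⟩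
    refine ⟨c • p, rfl, ?_⟩
    rw [Derivation.map_smul]
    exact Submodule.smul_of_tower_mem _ c hp

theorem Kd_mul (d : V × Bool → ZMod 2) {x y : RR V} (hx : x ∈ Kd d) (hy : y ∈ Kd d) :
    x * y ∈ Kd d := by
  obtain ⟨p, rfl, hp⟩ := hx
  obtain ⟨q, rfl, hq⟩ := hy
  refine ⟨p * q, map_mul _ _ _, ?_⟩
  rw [Derivation.leibniz, smul_eq_mul, smul_eq_mul]
  exact Ideal.add_mem _ (Ideal.mul_mem_left _ _ hq) (Ideal.mul_mem_left _ _ hp)

theorem Kd_one (d : V × Bool → ZMod 2) : (1 : RR V) ∈ Kd d :=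
  ⟨1, map_one _, by rw [Derivation.map_one_eq_zero]; exact Ideal.zero_mem _⟩

theorem Kd_lin [Fintype V] (d m : V × Bool → ZMod 2) (h : ∑ i, m i * d i = 0) :
    mk (AG.lin m) ∈ Kd d := by
  refine ⟨AG.lin m, rfl, ?_⟩
  have h1 : Dv d (AG.lin m) = C (∑ i, m i * d i) := by
    unfold AG.lin Dv
    rw [map_sum, map_sum]
    refine sum_congr rfl fun i _ => ?_
    rw [Derivation.leibniz, mkDerivation_X, smul_eq_mul, C_mul]
    have h2 : (mkDerivation (ZMod 2) fun i => (C (d i) : Ply V)) (C (m i)) = 0 :=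
      derivation_C _ _
    rw [h2, smul_zero, add_zero]
  rw [h1, h, map_zero]
  exact Ideal.zero_mem _

/-- the derivation `t_w ↦ 1` or `q_w ↦ 1`, `w ∈ B₀` -/
def dd (B₀ : Finset V) (b : Bool) : V × Bool → ZMod 2 := fun i =>
  if i.2 = b ∧ i.1 ∈ B₀ then 1 else 0

theorem even_sum [Fintype V] {B₀ : Finset V} {x : Vec V} (hx : EvenOn B₀ x) :
    ∑ w, x w * (if w ∈ B₀ then (1 : ZMod 2) else 0) = 0 := by
  refine Eq.trans (sum_congr rfl fun w _ => ?_) hx.2
  by_cases h : w ∈ B₀
  · rw [if_pos h, mul_one]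
  · rw [if_neg h, mul_zero, hx.1 w h]

theorem t_sum [Fintype V] {B₀ : Finset V} {x : Vec V} (hx : EvenOn B₀ x) (b : Bool) :
    ∑ i, AG.tvec x i * dd B₀ b i = 0 := by
  rw [Fintype.sum_prod_type]
  simp only [Fintype.sum_bool, AG.tvec, dd]
  cases b
  · exact Eq.trans (sum_congr rfl fun w _ => by simp) (even_sum hx)
  · exact sum_eq_zero fun w _ => by simp

theorem q_sum [Fintype V] {B₀ : Finset V} {x : Vec V} (hx : EvenOn B₀ x) (b : Bool) :
    ∑ i, AG.qvec x i * dd B₀ b i = 0 := by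
  rw [Fintype.sum_prod_type]
  simp only [Fintype.sum_bool, AG.qvec, dd]
  cases b
  · exact sum_eq_zero fun w _ => by simp
  · exact Eq.trans (sum_congr rfl fun w _ => by simp) (even_sum hx)

theorem OO_le [Fintype V] {B₀ : Finset V} {P : El V} (h1 : EvenOn B₀ P.1) (h2 : EvenOn B₀ P.2)
    (b : Bool) : OO P ≤ Kd (dd B₀ b) := by
  have t1 : TT P.1 ∈ Kd (dd B₀ b) := Kd_lin _ _ (t_sum h1 b)
  have t2 : TT P.2 ∈ Kd (dd B₀ b) := Kd_lin _ _ (t_sum h2 b)
  have q1 : QQ P.1 ∈ Kd (dd B₀ b) := Kd_lin _ _ (q_sum h1 b)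
  have q2 : QQ P.2 ∈ Kd (dd B₀ b) := Kd_lin _ _ (q_sum h2 b)
  unfold OO
  rw [Submodule.span_le]
  intro x hx
  simp only [Set.mem_insert_iff, Set.mem_singleton_iff] at hx
  rcases hx with rfl | rfl | rfl | rfl | rfl | rfl | rfl
  · exact Kd_one _
  · exact t1
  · exact t2
  · exact q1
  · exact q2
  · exact (Kd _).add_mem (Kd_mul _ t1 q2) (Kd_mul _ t2 q1)
  · exact Kd_mul _ q1 q2

theorem OP_le [Fintype V] {B₀ : Finset V} (b : Bool) (s : Multiset (El V)) (hs : Sys B₀ s) :
    OP s ≤ Kd (dd B₀ b) := by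
  induction s using Multiset.induction_on with
  | empty =>
    unfold OP
    rw [Multiset.map_zero, Multiset.prod_zero, Submodule.one_eq_span, Submodule.span_le]
    intro x hx
    rw [Set.mem_singleton_iff.1 hx]
    exact Kd_one _
  | cons P s ih =>
    unfold OP at ih ⊢
    rw [Multiset.map_cons, Multiset.prod_cons, Submodule.mul_le]
    intro x hx y hy
    have h := hs P (Multiset.mem_cons_self P s)
    exact Kd_mul _ (OO_le h.1 h.2 b hx)
      (ih (fun Q hQ => hs Q (Multiset.mem_cons_of_mem hQ)) hy)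

/-- the representatives of the killed classes are killed -/
theorem Kd_rep {d : V × Bool → ZMod 2} {p : Ply V} (h : mk p ∈ Kd d) : Dv d p ∈ SqI V := by
  obtain ⟨q, hq, hD⟩ := h
  have h1 : p - q ∈ SqI V := Ideal.Quotient.eq.1 hq.symm
  have h2 := Dv_sqI d h1
  rw [map_sub] at h2
  have h3 := Ideal.add_mem _ h2 hD
  rwa [sub_add_cancel] at h3

/-- the flip of the root in one kind of variables -/
theorem flip [Fintype V] {B₀ : Finset V} {b : Bool} {p : Ply V} (h : Dv (dd B₀ b) p ∈ SqI V)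
    {r r' : V} (hr : r ∈ B₀) (hr' : r' ∈ B₀) (hne : r ≠ r') (m : (V × Bool) →₀ ℕ)
    (hm : ∀ i, m i ≤ 1) (h1 : m (r, b) = 0) (h2 : m (r', b) = 0)
    (h3 : ∀ w ∈ B₀, w ≠ r → w ≠ r' → m (w, b) = 1) :
    coeff (m + Finsupp.single (r, b) 1) p = coeff (m + Finsupp.single (r', b) 1) p := by
  have h4 := coeff_sqI h m hm
  rw [coeff_Dv] at h4
  have h5 : ∑ i, dd B₀ b i * ((m i + 1 : ℕ) : ZMod 2) * coeff (m + Finsupp.single i 1) p =
      ∑ i ∈ ({(r, b), (r', b)} : Finset (V × Bool)), coeff (m + Finsupp.single i 1) p := by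
    symm
    rw [← sum_subset (subset_univ ({(r, b), (r', b)} : Finset (V × Bool)))]
    · refine sum_congr rfl fun i hi => ?_
      rw [mem_insert, mem_singleton] at hi
      rcases hi with rfl | rfl
      · rw [h1]; simp [dd, hr]
      · rw [h2]; simp [dd, hr']
    · rintro ⟨w, c⟩ _ hi
      rw [mem_insert, mem_singleton, not_or] at hi
      by_cases hc : c = b ∧ w ∈ B₀
      · obtain ⟨rfl, hw⟩ := hc
        have h6 : m (w, c) = 1 := h3 w hw (fun h => hi.1 (by rw [h])) (fun h => hi.2 (by rw [h]))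
        rw [h6]
        have : ((1 + 1 : ℕ) : ZMod 2) = 0 := by decide
        rw [this]
        ring
      · have : dd B₀ b (w, c) = 0 := if_neg hc
        rw [this]
        ring
  rw [h5, sum_pair (fun h => hne (Prod.ext_iff.1 h).1)] at h4
  exact CharTwo.add_eq_zero.1 h4

end GRoot

open GRoot

/-- **Row ROOT.** -/
theorem rowRoot : RowRoot := by
  intro V _ B₀ s r r' hs hr hr' ⟨x, hx, hx0⟩
  by_cases hne : r = r'
  · subst hne; exact ⟨x, hx, hx0⟩
  refine ⟨x, hx, ?_⟩
  obtain ⟨p, rfl⟩ : ∃ p, mk p = x := Ideal.Quotient.mk_surjective x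
  rw [top_mk] at hx0 ⊢
  have ht := Kd_rep (OP_le false s hs hx)
  have hq := Kd_rep (OP_le true s hs hx)
  obtain ⟨m₁, hm₁⟩ : ∃ m : (V × Bool) →₀ ℕ, m = AG.sqf (univ.filter fun x : V × Bool =>
      (x.2 = false ∧ x.1 ∈ B₀ ∧ x.1 ≠ r ∧ x.1 ≠ r') ∨ (x.2 = true ∧ x.1 ∈ B₀ ∧ x.1 ≠ r)) :=
    ⟨_, rfl⟩
  obtain ⟨m₂, hm₂⟩ : ∃ m : (V × Bool) →₀ ℕ, m = AG.sqf (univ.filter fun x : V × Bool =>
      (x.2 = false ∧ x.1 ∈ B₀ ∧ x.1 ≠ r') ∨ (x.2 = true ∧ x.1 ∈ B₀ ∧ x.1 ≠ r ∧ x.1 ≠ r')) :=
    ⟨_, rfl⟩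
  have a₁ : ∀ i, m₁ i = if (i.2 = false ∧ i.1 ∈ B₀ ∧ i.1 ≠ r ∧ i.1 ≠ r') ∨
      (i.2 = true ∧ i.1 ∈ B₀ ∧ i.1 ≠ r) then 1 else 0 := by
    intro i
    rw [hm₁, AG.sqf_apply]
    simp only [mem_filter, mem_univ, true_and]
  have a₂ : ∀ i, m₂ i = if (i.2 = false ∧ i.1 ∈ B₀ ∧ i.1 ≠ r') ∨
      (i.2 = true ∧ i.1 ∈ B₀ ∧ i.1 ≠ r ∧ i.1 ≠ r') then 1 else 0 := by
    intro i
    rw [hm₂, AG.sqf_apply]
    simp only [mem_filter, mem_univ, true_and]
  have a₃ : ∀ (A : Finset V) (i : V × Bool), mon A i = if i.1 ∈ A then 1 else 0 := by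
    intro A i
    unfold mon
    rw [AG.sqf_apply]
    simp only [mem_filter, mem_univ, true_and]
  have e1 : m₁ + Finsupp.single (r', false) 1 = mon (B₀.erase r) := by
    ext ⟨w, c⟩
    rw [Finsupp.add_apply, a₁, a₃, Finsupp.single_apply]
    simp only [mem_erase]
    by_cases hw : w = r'
    · subst hw
      cases c <;> simp [hr', Ne.symm hne]
    · have : ¬ (r', false) = (w, c) := fun h => hw (Prod.ext_iff.1 h).1.symm
      rw [if_neg this, add_zero]
      cases c <;> simp [hw, and_comm]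
  have e2 : m₁ + Finsupp.single (r, false) 1 = m₂ + Finsupp.single (r', true) 1 := by
    ext ⟨w, c⟩
    rw [Finsupp.add_apply, Finsupp.add_apply, a₁, a₂, Finsupp.single_apply, Finsupp.single_apply]
    by_cases hw : w = r'
    · subst hw
      cases c <;> simp [hr', hne, Ne.symm hne]
    · by_cases hw' : w = r
      · subst hw'
        cases c <;> simp [hr, hne, Ne.symm hne]
      · cases c <;> simp [hw, hw', Ne.symm hw, Ne.symm hw']
  have e3 : m₂ + Finsupp.single (r, true) 1 = mon (B₀.erase r') := by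
    ext ⟨w, c⟩
    rw [Finsupp.add_apply, a₂, a₃, Finsupp.single_apply]
    simp only [mem_erase]
    by_cases hw : w = r
    · subst hw
      cases c <;> simp [hr, hne]
    · have : ¬ (r, true) = (w, c) := fun h => hw (Prod.ext_iff.1 h).1.symm
      rw [if_neg this, add_zero]
      cases c <;> simp [hw, and_comm]
  have f1 := flip ht hr hr' hne m₁ (fun i => by rw [a₁]; split_ifs <;> omega)
    (by rw [a₁]; simp) (by rw [a₁]; simp) (fun w hw h1 h2 => by rw [a₁]; simp [hw, h1, h2])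
  have f2 := flip hq hr hr' hne m₂ (fun i => by rw [a₂]; split_ifs <;> omega)
    (by rw [a₂]; simp) (by rw [a₂]; simp) (fun w hw h1 h2 => by rw [a₂]; simp [hw, h1, h2])
  rw [← e3, f2, ← e2, f1, e1]
  exact hx0

end Pool.Agent.ClawHam
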