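import Pool.Agent.Lib.MP_e2dbb5_co.GDual

/-!
# Systems of planes: contraction of a solid set of vertices (helper25): row SOLID
-/

set_option autoImplicit false
set_option linter.unusedSectionVars false

open Finset MvPolynomial

noncomputable section

namespace Pool.Agent.ClawHam

open Classical

namespace GS

variable {V : Type}

/-- the class of a homogeneous polynomial -/
def Hom (x : RR V) : Prop := ∃ (n : ℕ) (p : Ply V), p.IsHomogeneous n ∧ mk p = x

theorem Hom.mul {x y : RR V} (hx : Hom x) (hy : Hom y) : Hom (x * y) := by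
  obtain ⟨n, p, hp, rfl⟩ := hx
  obtain ⟨m, q, hq, rfl⟩ := hy
  exact ⟨n + m, p * q, hp.mul hq, map_mul _ _ _⟩

theorem hom_one : Hom (1 : RR V) := ⟨0, 1, isHomogeneous_one _ _, map_one _⟩

variable [Fintype V]

theorem lin_hom (m : V × Bool → ZMod 2) : (AG.lin m).IsHomogeneous 1 := by
  unfold AG.lin
  refine IsHomogeneous.sum _ _ _ fun i _ => ?_
  have h := (isHomogeneous_C (V × Bool) (m i)).mul (isHomogeneous_X (ZMod 2) i)
  rwa [zero_add] at h

theorem hom_TT (x : Vec V) : Hom (TT x) := ⟨1, _, lin_hom _, rfl⟩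

theorem hom_QQ (x : Vec V) : Hom (QQ x) := ⟨1, _, lin_hom _, rfl⟩

theorem hom_be (x y : Vec V) : Hom (TT x * QQ y + TT y * QQ x) := by
  refine ⟨2, AG.lin (AG.tvec x) * AG.lin (AG.qvec y) + AG.lin (AG.tvec y) * AG.lin (AG.qvec x),
    ?_, ?_⟩
  · exact ((lin_hom _).mul (lin_hom _)).add ((lin_hom _).mul (lin_hom _))
  · rw [map_add, map_mul, map_mul]
    rfl

/-- the homogeneous elements of the product -/
def HS (s : Multiset (El V)) : Set (RR V) := {x | x ∈ OP s ∧ Hom x}

theorem OO_span (P : El V) : OO P ≤ Submodule.span (ZMod 2) {x | x ∈ OO P ∧ Hom x} :=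
  G.OO_le (Submodule.subset_span ⟨G.one_mem P, hom_one⟩)
    (Submodule.subset_span ⟨G.t1_mem P, hom_TT _⟩)
    (Submodule.subset_span ⟨G.t2_mem P, hom_TT _⟩)
    (Submodule.subset_span ⟨G.q1_mem P, hom_QQ _⟩)
    (Submodule.subset_span ⟨G.q2_mem P, hom_QQ _⟩)
    (Submodule.subset_span ⟨G.be_mem P, hom_be _ _⟩)
    (Submodule.subset_span ⟨G.qq_mem P, (hom_QQ _).mul (hom_QQ _)⟩)

theorem OP_span (s : Multiset (El V)) : OP s ≤ Submodule.span (ZMod 2) (HS s) := by
  induction s using Multiset.induction_on with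
  | empty =>
    rw [G.OP_zero, Submodule.one_le]
    exact Submodule.subset_span ⟨G.one_mem_OP 0, hom_one⟩
  | cons P s ih =>
    rw [G.OP_cons]
    refine (mul_le_mul' (OO_span P) ih).trans ?_
    rw [Submodule.span_mul_span, Submodule.span_le]
    rintro _ ⟨x, hx, y, hy, rfl⟩
    refine Submodule.subset_span ⟨?_, hx.2.mul hy.2⟩
    rw [G.OP_cons]
    exact Submodule.mul_mem_mul hx.1 hy.1

theorem exists_hom {s : Multiset (El V)} {A : Finset V} (h : ∃ x ∈ OP s, top A x ≠ 0) :
    ∃ x ∈ OP s, Hom x ∧ top A x ≠ 0 := by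
  by_contra hne
  push Not at hne
  obtain ⟨x, hx, hxt⟩ := h
  apply hxt
  have h1 : Submodule.span (ZMod 2) (HS s) ≤ LinearMap.ker (G.topL A) := by
    rw [Submodule.span_le]
    intro y hy
    exact hne y hy.1 hy.2
  exact h1 (OP_span s hx)

/-- polynomials in the variables of `X` -/
def VX (X : Finset V) : Subalgebra (ZMod 2) (RR V) :=
  (MvPolynomial.supported (ZMod 2) {i : V × Bool | i.1 ∈ X}).map
    (Ideal.Quotient.mkₐ (ZMod 2) (SqI V))

theorem mem_VX {X : Finset V} {x : RR V} : x ∈ VX X ↔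
    ∃ p ∈ MvPolynomial.supported (ZMod 2) {i : V × Bool | i.1 ∈ X}, mk p = x := Iff.rfl

theorem lin_mem_VX {X : Finset V} (m : V × Bool → ZMod 2) (h : ∀ w, w ∉ X → ∀ b, m (w, b) = 0) :
    mk (AG.lin m) ∈ VX X := by
  refine mem_VX.2 ⟨AG.lin m, ?_, rfl⟩
  unfold AG.lin
  refine Subalgebra.sum_mem _ fun i _ => ?_
  by_cases hi : i.1 ∈ X
  · exact Subalgebra.mul_mem _ (Subalgebra.algebraMap_mem _ _) (X_mem_supported.2 hi)
  · have : m i = 0 := h i.1 hi i.2
    rw [this, C_0, zero_mul]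
    exact Subalgebra.zero_mem _

theorem TT_VX {X : Finset V} {x : Vec V} (h : ∀ w, w ∉ X → x w = 0) : TT x ∈ VX X :=
  lin_mem_VX _ fun w hw b => by
    unfold AG.tvec
    split_ifs
    · exact h w hw
    · rfl

theorem QQ_VX {X : Finset V} {x : Vec V} (h : ∀ w, w ∉ X → x w = 0) : QQ x ∈ VX X :=
  lin_mem_VX _ fun w hw b => by
    unfold AG.qvec
    split_ifs
    · exact h w hw
    · rfl

theorem OP_VX {X : Finset V} {s : Multiset (El V)} (h : Sys X s) :
    OP s ≤ Subalgebra.toSubmodule (VX X) := by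
  induction s using Multiset.induction_on with
  | empty =>
    rw [G.OP_zero, Submodule.one_le]
    exact Subalgebra.one_mem _
  | cons P s ih =>
    rw [G.OP_cons]
    have hP := h P (Multiset.mem_cons_self P s)
    have h1 : OO P ≤ Subalgebra.toSubmodule (VX X) :=
      G.OO_le (Subalgebra.one_mem _) (TT_VX hP.1.1) (TT_VX hP.2.1) (QQ_VX hP.1.1) (QQ_VX hP.2.1)
        (Subalgebra.add_mem _ (Subalgebra.mul_mem _ (TT_VX hP.1.1) (QQ_VX hP.2.1))
          (Subalgebra.mul_mem _ (TT_VX hP.2.1) (QQ_VX hP.1.1)))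
        (Subalgebra.mul_mem _ (QQ_VX hP.1.1) (QQ_VX hP.2.1))
    have h2 := ih fun Q hQ => h Q (Multiset.mem_cons_of_mem hQ)
    refine Submodule.mul_le.2 fun m hm n hn => ?_
    exact Subalgebra.mul_mem _ (h1 hm) (h2 hn)

theorem coeff_supp {X : Finset V} {p : Ply V}
    (hp : p ∈ MvPolynomial.supported (ZMod 2) {i : V × Bool | i.1 ∈ X})
    (d : (V × Bool) →₀ ℕ) (i : V × Bool) (hi : i.1 ∉ X) (hd : d i ≠ 0) : coeff d p = 0 := by
  by_contra h
  have h1 : d ∈ p.support := mem_support_iff.2 h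
  have h2 : i ∈ p.vars := (mem_vars_iff_mem_support _).2 ⟨d, h1, Finsupp.mem_support_iff.2 hd⟩
  exact hi ((mem_supported.1 hp) h2)

/-- the top coefficient of a product of an element of `X` and a homogeneous element -/
theorem top_mul {X A C : Finset V} (hA : A ⊆ X) (hC : Disjoint X C) {x y : RR V} (hx : x ∈ VX X)
    (hy : Hom y) (hyt : top C y ≠ 0) : top (A ∪ C) (x * y) = top A x * top C y := by
  obtain ⟨p, hp, rfl⟩ := mem_VX.1 hx
  obtain ⟨n, q, hq, rfl⟩ := hy
  rw [← map_mul, G.top_mk, G.top_mk, G.top_mk, coeff_mul]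
  rw [G.top_mk] at hyt
  have hAC : Disjoint A C := hC.mono_left hA
  have hsum : mon A + mon C = mon (A ∪ C) := by
    ext i
    rw [Finsupp.add_apply, G.mon_apply, G.mon_apply, G.mon_apply]
    by_cases h1 : i.1 ∈ A
    · have h2 : i.1 ∉ C := Finset.disjoint_left.1 hAC h1
      rw [if_pos h1, if_neg h2, if_pos (Finset.mem_union_left _ h1)]
    · by_cases h2 : i.1 ∈ C
      · rw [if_neg h1, if_pos h2, if_pos (Finset.mem_union_right _ h2)]
      · rw [if_neg h1, if_neg h2, if_neg (by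
          rw [Finset.mem_union]
          tauto)]
  rw [Finset.sum_eq_single (mon A, mon C)]
  · rintro ⟨d₁, d₂⟩ hd hne
    rw [HasAntidiagonal.mem_antidiagonal] at hd
    change d₁ + d₂ = mon (A ∪ C) at hd
    change coeff d₁ p * coeff d₂ q = 0
    by_contra h0
    have h1 : coeff d₁ p ≠ 0 := left_ne_zero_of_mul h0
    have h2 : coeff d₂ q ≠ 0 := right_ne_zero_of_mul h0
    have h3 : mon C ≤ d₂ := by
      intro i
      rw [G.mon_apply]
      by_cases hi : i.1 ∈ C
      · rw [if_pos hi]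
        have hiX : i.1 ∉ X := fun h => (Finset.disjoint_left.1 hC h) hi
        have h4 : d₁ i = 0 := by
          by_contra h5
          exact h1 (coeff_supp hp d₁ i hiX h5)
        have h5 : d₁ i + d₂ i = mon (A ∪ C) i := by rw [← hd]; rfl
        rw [G.mon_apply, if_pos (Finset.mem_union_right _ hi)] at h5
        omega
      · rw [if_neg hi]
        exact Nat.zero_le _
    have h4 : d₂.degree = (mon C).degree := by
      rw [Finsupp.degree_eq_weight_one]
      exact (hq h2).trans (hq hyt).symm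
    obtain ⟨c, hc⟩ := exists_add_of_le h3
    have h5 : c = 0 := by
      rw [hc, map_add] at h4
      exact (Finsupp.degree_eq_zero_iff c).1 (by omega)
    have h6 : d₂ = mon C := by rw [hc, h5, add_zero]
    have h7 : d₁ = mon A := by
      rw [h6, ← hsum] at hd
      exact add_right_cancel hd
    exact hne (by rw [h6, h7])
  · intro h
    exact absurd (HasAntidiagonal.mem_antidiagonal.2 hsum) h

theorem zr_idX {X : Finset V} {b : V} (hb : b ∈ X) (x : Vec V) : GD.zr {b} (idX X b x) =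
    GD.zr X x := by
  funext w
  simp only [GD.zr, idX, Finset.mem_singleton]
  by_cases h1 : w = b
  · rw [if_pos h1, if_pos (by rw [h1]; exact hb)]
  · rw [if_neg h1, if_neg h1]

theorem evenOn_idX {X B₀ : Finset V} {b : V} (hb : b ∈ X) {x : Vec V} (hx : EvenOn B₀ x) :
    EvenOn (insert b (B₀ \ X)) (idX X b x) := by
  constructor
  · intro w hw
    unfold idX
    rw [Finset.mem_insert, Finset.mem_sdiff, not_or] at hw
    rw [if_neg hw.1]
    by_cases h1 : w ∈ X
    · rw [if_pos h1]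
    · rw [if_neg h1]
      refine hx.1 w fun h2 => hw.2 ⟨h2, h1⟩
  · have h1 : ∀ w, idX X b x w = (if w = b then ∑ u ∈ X, x u else 0) + if w ∈ X then 0 else x w := by
      intro w
      unfold idX
      by_cases h2 : w = b
      · rw [if_pos h2, if_pos h2, if_pos (by rw [h2]; exact hb), add_zero]
      · rw [if_neg h2, if_neg h2, zero_add]
    simp only [h1]
    rw [Finset.sum_add_distrib, Finset.sum_ite_eq' univ b (fun _ => ∑ u ∈ X, x u),
      if_pos (mem_univ _)]
    have h2 : ∑ w, (if w ∈ X then 0 else x w) = ∑ w ∈ Xᶜ, x w := by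
      rw [← Finset.sum_filter_add_sum_filter_not univ (fun w => w ∈ X)
        (fun w => if w ∈ X then 0 else x w)]
      rw [Finset.sum_eq_zero (s := univ.filter fun w => w ∈ X), zero_add]
      · refine Finset.sum_congr ?_ fun w hw => ?_
        · ext w
          simp
        · rw [if_neg]
          simpa using hw
      · intro w hw
        rw [if_pos (Finset.mem_filter.1 hw).2]
    rw [h2, Finset.sum_add_sum_compl]
    exact hx.2

end GS

/-- **ROW SOLID** -/
theorem rowSolid (hR : RowRoot) : RowSolid := by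
  intro V _ B₀ X s s' b hs hs' hX hb h1 h2
  obtain ⟨r, hr, h1⟩ := h1
  obtain ⟨r', hr', h2⟩ := h2
  have h3 : AlgAt X b s := hR V _ _ r b hs hr hb h1
  have hsys : Sys (insert b (B₀ \ X)) (s'.map fun P => (idX X b P.1, idX X b P.2)) := by
    intro P hP
    obtain ⟨Q, hQ, rfl⟩ := Multiset.mem_map.1 hP
    exact ⟨GS.evenOn_idX hb (hs' Q hQ).1, GS.evenOn_idX hb (hs' Q hQ).2⟩
  have h4 : AlgAt (insert b (B₀ \ X)) b (s'.map fun P => (idX X b P.1, idX X b P.2)) :=
    hR V _ _ r' b hsys hr' (Finset.mem_insert_self _ _) h2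
  have hbC : b ∉ B₀ \ X := fun h => (Finset.mem_sdiff.1 h).2 hb
  have e1 : (insert b (B₀ \ X)).erase b = B₀ \ X := Finset.erase_insert hbC
  unfold AlgAt at h4
  rw [e1] at h4
  have h5 : ∃ y ∈ OP s', top (B₀ \ X) y ≠ 0 :=
    GD.lift X (B₀ \ X) b (idX X b) (fun x => GS.zr_idX hb x) hb Finset.sdiff_disjoint s' h4
  obtain ⟨y, hy, hyh, hyt⟩ := GS.exists_hom h5
  obtain ⟨x, hx, hxt⟩ := h3
  have hbB : b ∈ B₀ := hX hb
  refine ⟨b, hbB, x * y, ?_, ?_⟩
  · rw [G.OP_add]
    exact Submodule.mul_mem_mul hx hy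
  · have e2 : B₀.erase b = X.erase b ∪ (B₀ \ X) := by
      ext w
      simp only [Finset.mem_erase, Finset.mem_union, Finset.mem_sdiff]
      constructor
      · rintro ⟨g1, g2⟩
        by_cases h6 : w ∈ X
        · exact Or.inl ⟨g1, h6⟩
        · exact Or.inr ⟨g2, h6⟩
      · rintro (⟨g1, g2⟩ | ⟨g1, g2⟩)
        · exact ⟨g1, hX g2⟩
        · exact ⟨fun h => g2 (by rw [h]; exact hb), g1⟩
    rw [e2, GS.top_mul (Finset.erase_subset b X) Finset.disjoint_sdiff (GS.OP_VX hs hx) hyh hyt]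
    exact mul_ne_zero hxt hyt

end Pool.Agent.ClawHam
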