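import Pool.Agent.Lib.MP_e2dbb5_co.AG

/-!
# Residues: coefficients of `t_v q_v` in products (helper34)
-/

set_option autoImplicit false
set_option linter.unusedSectionVars false

open Finset MvPolynomial

noncomputable section

namespace Pool.Agent.ClawHam.GX

open Classical

variable {B : Type}

/-- the variables `t_v`, `q_v` do not occur -/
def VFree (v : B) (S : Ply B) : Prop :=
  ∀ m, coeff m S ≠ 0 → m (v, false) = 0 ∧ m (v, true) = 0

theorem vfree_C (v : B) (c : ZMod 2) : VFree v (C c : Ply B) := by
  intro m hm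
  rw [coeff_C] at hm
  by_cases h : (0 : (B × Bool) →₀ ℕ) = m
  · rw [← h]
    exact ⟨rfl, rfl⟩
  · rw [if_neg h] at hm
    exact absurd rfl hm

theorem vfree_one (v : B) : VFree v (1 : Ply B) := by
  have h := vfree_C v 1
  rwa [C_1] at h

theorem vfree_zero (v : B) : VFree v (0 : Ply B) := by
  have h := vfree_C v 0
  rwa [C_0] at h

theorem vfree_X {v : B} (x : B × Bool) (hx : x.1 ≠ v) : VFree v (X x : Ply B) := by
  intro m hm
  rw [coeff_X] at hm
  by_cases h : Finsupp.single x 1 = m
  · rw [← h]
    constructor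
    · rw [Finsupp.single_apply, if_neg]
      rintro rfl
      exact hx rfl
    · rw [Finsupp.single_apply, if_neg]
      rintro rfl
      exact hx rfl
  · rw [if_neg h] at hm
    exact absurd rfl hm

theorem VFree.add {v : B} {S S' : Ply B} (h : VFree v S) (h' : VFree v S') : VFree v (S + S') := by
  intro m hm
  rw [coeff_add] at hm
  by_cases h1 : coeff m S = 0
  · rw [h1, zero_add] at hm
    exact h' m hm
  · exact h m h1

theorem VFree.mul {v : B} {S S' : Ply B} (h : VFree v S) (h' : VFree v S') : VFree v (S * S') := by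
  intro m hm
  rw [coeff_mul] at hm
  obtain ⟨⟨a, b⟩, hab, h1⟩ := Finset.exists_ne_zero_of_sum_ne_zero hm
  rw [Finset.HasAntidiagonal.mem_antidiagonal] at hab
  change a + b = m at hab
  change coeff a S * coeff b S' ≠ 0 at h1
  obtain ⟨h2, h3⟩ := h a (left_ne_zero_of_mul h1)
  obtain ⟨h4, h5⟩ := h' b (right_ne_zero_of_mul h1)
  rw [← hab]
  constructor
  · rw [Finsupp.add_apply, h2, h4]
  · rw [Finsupp.add_apply, h3, h5]

theorem VFree.sum {v : B} {J : Type} (s : Finset J) (f : J → Ply B) (h : ∀ j ∈ s, VFree v (f j)) :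
    VFree v (∑ j ∈ s, f j) := by
  induction s using Finset.induction_on with
  | empty =>
    rw [Finset.sum_empty]
    exact vfree_zero v
  | insert a s ha ih =>
    rw [Finset.sum_insert ha]
    exact (h a (Finset.mem_insert_self a s)).add (ih fun j hj => h j (Finset.mem_insert_of_mem hj))

theorem VFree.prod {v : B} {J : Type} (s : Finset J) (f : J → Ply B) (h : ∀ j ∈ s, VFree v (f j)) :
    VFree v (∏ j ∈ s, f j) := by
  induction s using Finset.induction_on with
  | empty =>
    rw [Finset.prod_empty]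
    exact vfree_one v
  | insert a s ha ih =>
    rw [Finset.prod_insert ha]
    exact (h a (Finset.mem_insert_self a s)).mul (ih fun j hj => h j (Finset.mem_insert_of_mem hj))

/-- the monomial `t_v q_v` -/
def mv (v : B) : (B × Bool) →₀ ℕ := Finsupp.single (v, false) 1 + Finsupp.single (v, true) 1

theorem coeff_mono {v : B} {S : Ply B} (hS : VFree v S) (a b : ℕ) (m : (B × Bool) →₀ ℕ)
    (hf : m (v, false) = 0) (ht : m (v, true) = 0) :
    coeff (m + mv v) (X (v, false) ^ a * X (v, true) ^ b * S) =
      if a = 1 ∧ b = 1 then coeff m S else 0 := by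
  have hne : ((v, false) : B × Bool) ≠ (v, true) := by simp
  have h0 : (X (v, false) ^ a * X (v, true) ^ b : Ply B) =
      monomial (Finsupp.single (v, false) a + Finsupp.single (v, true) b) 1 := by
    rw [X_pow_eq_monomial, X_pow_eq_monomial, monomial_mul, one_mul]
  rw [h0, coeff_monomial_mul']
  by_cases hab : a = 1 ∧ b = 1
  · rw [if_pos hab, hab.1, hab.2, if_pos, one_mul]
    · congr 1
      unfold mv
      rw [add_tsub_cancel_right]
    · intro x
      unfold mv
      rw [Finsupp.add_apply]
      exact Nat.le_add_left _ _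
  · rw [if_neg hab]
    split_ifs with hle
    · by_contra hcon
      rw [one_mul] at hcon
      obtain ⟨h1, h2⟩ := hS _ hcon
      have h3 := hle (v, false)
      have h4 := hle (v, true)
      unfold mv at h1 h2 h3 h4
      rw [Finsupp.tsub_apply] at h1 h2
      simp only [Finsupp.add_apply, Finsupp.single_apply, hf, ht, hne, hne.symm, if_true,
        if_false, add_zero, zero_add] at h1 h2 h3 h4
      apply hab
      constructor <;> omega
    · rfl

/-- the coefficient of `t_v q_v` in `G` is `c` (with respect to the variables of `v`) -/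
def HasRes (v : B) (G c : Ply B) : Prop :=
  VFree v c ∧ ∀ (m : (B × Bool) →₀ ℕ) (S : Ply B), VFree v S → m (v, false) = 0 →
    m (v, true) = 0 → coeff (m + mv v) (G * S) = coeff m (c * S)

theorem HasRes.add {v : B} {G G' c c' : Ply B} (h : HasRes v G c) (h' : HasRes v G' c') :
    HasRes v (G + G') (c + c') := by
  refine ⟨h.1.add h'.1, fun m S hS hf ht => ?_⟩
  rw [add_mul, add_mul, coeff_add, coeff_add, h.2 m S hS hf ht, h'.2 m S hS hf ht]

theorem HasRes.mul_free {v : B} {G c s : Ply B} (h : HasRes v G c) (hs : VFree v s) :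
    HasRes v (G * s) (c * s) := by
  refine ⟨h.1.mul hs, fun m S hS hf ht => ?_⟩
  rw [mul_assoc, mul_assoc]
  exact h.2 m (s * S) (hs.mul hS) hf ht

theorem HasRes.congr {v : B} {G G' c c' : Ply B} (h : HasRes v G c) (hG : G' = G) (hc : c' = c) :
    HasRes v G' c' := by
  rw [hG, hc]
  exact h

/-- a monomial in `t_v`, `q_v` with a coefficient -/
theorem hasRes_mono {v : B} {c : Ply B} (hc : VFree v c) (a b : ℕ) :
    HasRes v (X (v, false) ^ a * X (v, true) ^ b * c) (if a = 1 ∧ b = 1 then c else 0) := by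
  refine ⟨?_, fun m S hS hf ht => ?_⟩
  · split_ifs
    · exact hc
    · exact vfree_zero v
  · rw [mul_assoc (X (v, false) ^ a * X (v, true) ^ b), coeff_mono (hc.mul hS) a b m hf ht]
    by_cases h : a = 1 ∧ b = 1
    · rw [if_pos h, if_pos h]
    · rw [if_neg h, if_neg h, zero_mul, coeff_zero]

/-- residue of a polynomial in `t_v`, `q_v` given by its coefficients (degree at most four) -/
theorem hasRes_poly {v : B} (c : ℕ → ℕ → Ply B) (n : ℕ) (hc : ∀ a b, VFree v (c a b))
    (hn : 2 ≤ n) :
    HasRes v (∑ a ∈ range n, ∑ b ∈ range n, X (v, false) ^ a * X (v, true) ^ b * c a b)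
      (c 1 1) := by
  have h1 : ∀ (s : Finset (ℕ × ℕ)), HasRes v
      (∑ x ∈ s, X (v, false) ^ x.1 * X (v, true) ^ x.2 * c x.1 x.2)
      (∑ x ∈ s, if x.1 = 1 ∧ x.2 = 1 then c x.1 x.2 else 0) := by
    intro s
    induction s using Finset.induction_on with
    | empty =>
      rw [Finset.sum_empty, Finset.sum_empty]
      refine ⟨vfree_zero v, fun m S _ _ _ => ?_⟩
      rw [zero_mul, coeff_zero, coeff_zero]
    | insert a s ha ih =>
      rw [Finset.sum_insert ha, Finset.sum_insert ha]
      exact (hasRes_mono (hc a.1 a.2) a.1 a.2).add ih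
  have h2 := h1 (range n ×ˢ range n)
  rw [Finset.sum_product, Finset.sum_product] at h2
  refine h2.congr rfl ?_
  rw [Finset.sum_eq_single 1, Finset.sum_eq_single 1]
  · simp
  · intro b _ hb
    rw [if_neg]
    exact fun h => hb h.2
  · intro h
    exact absurd (Finset.mem_range.2 (by omega)) h
  · intro a _ ha
    refine Finset.sum_eq_zero fun b _ => ?_
    rw [if_neg]
    exact fun h => ha h.1
  · intro h
    exact absurd (Finset.mem_range.2 (by omega)) h

/-- a product of factors which are linear in `t_v` and in `q_v` -/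
theorem hasRes_lin {v : B} {c00 c10 c01 c11 : Ply B} (h00 : VFree v c00) (h10 : VFree v c10)
    (h01 : VFree v c01) (h11 : VFree v c11) :
    HasRes v (c00 + X (v, false) * c10 + X (v, true) * c01 + X (v, false) * X (v, true) * c11)
      c11 := by
  have h1 := hasRes_mono h00 0 0
  have h2 := hasRes_mono h10 1 0
  have h3 := hasRes_mono h01 0 1
  have h4 := hasRes_mono h11 1 1
  refine (((h1.add h2).add h3).add h4).congr ?_ ?_
  · simp only [pow_zero, pow_one, one_mul, mul_one]
  · simp

/-- two factors linear in `t_v`, `q_v`, without `t_v q_v` term: `f = f0 + t_v f1 + q_v f2` -/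
theorem hasRes_two {v : B} {f0 f1 f2 g0 g1 g2 : Ply B} (hf0 : VFree v f0) (hf1 : VFree v f1)
    (hf2 : VFree v f2) (hg0 : VFree v g0) (hg1 : VFree v g1) (hg2 : VFree v g2) :
    HasRes v ((f0 + X (v, false) * f1 + X (v, true) * f2) *
      (g0 + X (v, false) * g1 + X (v, true) * g2)) (f1 * g2 + f2 * g1) := by
  have e1 := hasRes_mono (hf0.mul hg0) 0 0
  have e2 := hasRes_mono ((hf0.mul hg1).add (hf1.mul hg0)) 1 0
  have e3 := hasRes_mono ((hf0.mul hg2).add (hf2.mul hg0)) 0 1
  have e4 := hasRes_mono ((hf1.mul hg2).add (hf2.mul hg1)) 1 1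
  have e5 := hasRes_mono (hf1.mul hg1) 2 0
  have e6 := hasRes_mono (hf2.mul hg2) 0 2
  refine (((((e1.add e2).add e3).add e4).add e5).add e6).congr ?_ ?_
  · ring
  · simp

/-! ### The top monomial -/

variable [Fintype B]

/-- the monomial `∏ t_w ∏ q_w`, over a set of vertices -/
def topV (V : Finset B) : (B × Bool) →₀ ℕ := AG.sqf (univ.filter fun x : B × Bool => x.1 ∈ V)

theorem topV_apply (V : Finset B) (x : B × Bool) : topV V x = if x.1 ∈ V then 1 else 0 := by
  unfold topV
  rw [AG.sqf_apply]
  simp

theorem topV_insert {V : Finset B} {v : B} (hv : v ∉ V) : topV (insert v V) = topV V + mv v := by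
  ext x
  obtain ⟨w, b⟩ := x
  rw [Finsupp.add_apply, topV_apply, topV_apply]
  unfold mv
  rw [Finsupp.add_apply, Finsupp.single_apply, Finsupp.single_apply]
  by_cases h : w = v
  · subst h
    rw [if_pos (Finset.mem_insert_self _ _), if_neg hv]
    cases b <;> simp
  · have h1 : ¬ ((v, false) : B × Bool) = (w, b) := fun h2 => h (congrArg Prod.fst h2).symm
    have h2 : ¬ ((v, true) : B × Bool) = (w, b) := fun h2 => h (congrArg Prod.fst h2).symm
    rw [if_neg h1, if_neg h2, add_zero, add_zero]
    by_cases h3 : w ∈ V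
    · rw [if_pos (Finset.mem_insert_of_mem h3), if_pos h3]
    · have h5 : w ∉ insert v V := by
        intro h4
        rcases Finset.mem_insert.1 h4 with h4 | h4
        · exact h h4
        · exact h3 h4
      rw [if_neg h3, if_neg h5]

/-- **extraction** -/
theorem coeff_top_insert {V : Finset B} {v : B} (hv : v ∉ V) {G c S : Ply B}
    (h : HasRes v G c) (hS : VFree v S) :
    coeff (topV (insert v V)) (G * S) = coeff (topV V) (c * S) := by
  rw [topV_insert hv]
  refine h.2 _ S hS ?_ ?_
  · rw [topV_apply, if_neg hv]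
  · rw [topV_apply, if_neg hv]

/-! ### Independence of the root -/

/-- the translation derivative in the world `b` -/
def Dw (b : Bool) (F : Ply B) : Ply B := ∑ w : B, pderiv (w, b) F

/-- invariant under translations in both worlds -/
def TInv (F : Ply B) : Prop := ∀ b, Dw b F = 0

theorem Dw_mul (b : Bool) (F G : Ply B) : Dw b (F * G) = Dw b F * G + F * Dw b G := by
  unfold Dw
  rw [Finset.sum_mul, Finset.mul_sum, ← Finset.sum_add_distrib]
  refine Finset.sum_congr rfl fun w _ => ?_
  rw [pderiv_mul]

theorem TInv.mul {F G : Ply B} (h : TInv F) (h' : TInv G) : TInv (F * G) := by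
  intro b
  rw [Dw_mul, h b, h' b, zero_mul, mul_zero, add_zero]

theorem TInv.add {F G : Ply B} (h : TInv F) (h' : TInv G) : TInv (F + G) := by
  intro b
  have h1 : Dw b (F + G) = Dw b F + Dw b G := by
    unfold Dw
    rw [← Finset.sum_add_distrib]
    refine Finset.sum_congr rfl fun w _ => ?_
    rw [map_add]
  rw [h1, h b, h' b, add_zero]

theorem tinv_one : TInv (1 : Ply B) := by
  intro b
  unfold Dw
  refine Finset.sum_eq_zero fun w _ => ?_
  exact pderiv_one

theorem TInv.prod {J : Type} (s : Finset J) (f : J → Ply B) (h : ∀ j ∈ s, TInv (f j)) :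
    TInv (∏ j ∈ s, f j) := by
  induction s using Finset.induction_on with
  | empty =>
    rw [Finset.prod_empty]
    exact tinv_one
  | insert a s ha ih =>
    rw [Finset.prod_insert ha]
    exact (h a (Finset.mem_insert_self a s)).mul (ih fun j hj => h j (Finset.mem_insert_of_mem hj))

theorem Dw_X (b : Bool) (x : B × Bool) : Dw b (X x : Ply B) = if x.2 = b then 1 else 0 := by
  unfold Dw
  by_cases h : x.2 = b
  · rw [if_pos h, Finset.sum_eq_single x.1]
    · have h1 : (x.1, b) = x := by rw [← h]
      rw [h1]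
      exact pderiv_X_self x
    · intro w _ hw
      refine pderiv_X_of_ne ?_
      intro h2
      exact hw (congrArg Prod.fst h2).symm
    · intro h2
      exact absurd (mem_univ _) h2
  · rw [if_neg h]
    refine Finset.sum_eq_zero fun w _ => ?_
    refine pderiv_X_of_ne ?_
    intro h2
    exact h (congrArg Prod.snd h2)

theorem tinv_tt (a b : B) : TInv (tt a b) := by
  intro w
  have h1 : Dw w (tt a b) = Dw w (X (a, false)) + Dw w (X (b, false)) := by
    unfold Dw tt
    rw [← Finset.sum_add_distrib]
    refine Finset.sum_congr rfl fun w _ => ?_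
    rw [map_add]
  rw [h1, Dw_X, Dw_X]
  exact CharTwo.add_self_eq_zero _

theorem tinv_qq (a b : B) : TInv (qq a b) := by
  intro w
  have h1 : Dw w (qq a b) = Dw w (X (a, true)) + Dw w (X (b, true)) := by
    unfold Dw qq
    rw [← Finset.sum_add_distrib]
    refine Finset.sum_congr rfl fun w _ => ?_
    rw [map_add]
  rw [h1, Dw_X, Dw_X]
  exact CharTwo.add_self_eq_zero _

/-- the monomial with the two roots `r`, `r'` -/
def top2 (V : Finset B) (r r' : B) : (B × Bool) →₀ ℕ :=
  AG.sqf (univ.filter fun x : B × Bool => x.1 ∈ V ∧ x ≠ (r, false) ∧ x ≠ (r', true))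

theorem top2_self (V : Finset B) (r : B) : top2 V r r = topV (V.erase r) := by
  unfold top2 topV
  congr 1
  ext x
  obtain ⟨w, b⟩ := x
  simp only [mem_univ, true_and, Finset.mem_filter, Finset.mem_erase, ne_eq, Prod.mk.injEq]
  cases b <;> simp <;> tauto

/-- moving one root -/
theorem coeff_move {F : Ply B} (hF : TInv F) (S : Finset (B × Bool)) (b : Bool) (V : Finset B)
    (hS : ∀ w, (w, b) ∈ S ↔ w ∈ V) (hvar : ∀ m, coeff m F ≠ 0 → ∀ x, m x ≠ 0 → x.1 ∈ V)
    {r s : B} (hr : r ∈ V) (hs : s ∈ V) :
    coeff (AG.sqf (S.erase (r, b))) F = coeff (AG.sqf (S.erase (s, b))) F := by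
  by_cases hrs : r = s
  · rw [hrs]
  let M : (B × Bool) →₀ ℕ := AG.sqf ((S.erase (r, b)).erase (s, b))
  have hM1 : ∀ x, x ∈ (S.erase (r, b)).erase (s, b) → M x = 1 := by
    intro x hx
    change AG.sqf ((S.erase (r, b)).erase (s, b)) x = 1
    rw [AG.sqf_apply, if_pos hx]
  have hM0 : ∀ x, x ∉ (S.erase (r, b)).erase (s, b) → M x = 0 := by
    intro x hx
    change AG.sqf ((S.erase (r, b)).erase (s, b)) x = 0
    rw [AG.sqf_apply, if_neg hx]
  have h1 := congrArg (coeff M) (hF b)
  unfold Dw at h1
  rw [coeff_sum, coeff_zero] at h1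
  have h2 : ∀ w, coeff M (pderiv (w, b) F) =
      if w = r ∨ w = s then coeff (M + Finsupp.single (w, b) 1) F else 0 := by
    intro w
    rw [coeff_pderiv]
    by_cases hw : w = r ∨ w = s
    · rw [if_pos hw]
      have h3 : M (w, b) = 0 := by
        apply hM0
        intro h4
        rcases hw with rfl | rfl
        · exact (Finset.mem_erase.1 (Finset.mem_erase.1 h4).2).1 rfl
        · exact (Finset.mem_erase.1 h4).1 rfl
      rw [h3]
      simp
    · rw [if_neg hw]
      push Not at hw
      by_cases hwV : w ∈ V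
      · have h3 : M (w, b) = 1 := by
          apply hM1
          refine Finset.mem_erase.2 ⟨fun h4 => hw.2 (congrArg Prod.fst h4),
            Finset.mem_erase.2 ⟨fun h4 => hw.1 (congrArg Prod.fst h4), (hS w).2 hwV⟩⟩
        rw [h3]
        have h4 : (((1 : ℕ) : ZMod 2) + 1) = 0 := by decide
        rw [h4, mul_zero]
      · have h3 : coeff (M + Finsupp.single (w, b) 1) F = 0 := by
          by_contra h4
          exact hwV (hvar _ h4 (w, b) (by rw [Finsupp.add_apply, Finsupp.single_eq_same]; omega))
        rw [h3, zero_mul]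
  simp only [h2] at h1
  rw [← Finset.sum_filter] at h1
  have h3 : (univ.filter fun w => w = r ∨ w = s) = ({r, s} : Finset B) := by
    ext w
    simp
  rw [h3, Finset.sum_pair hrs] at h1
  have h4 : M + Finsupp.single (r, b) 1 = AG.sqf (S.erase (s, b)) := by
    ext x
    rw [Finsupp.add_apply, AG.sqf_apply (S.erase (s, b)), Finsupp.single_apply]
    by_cases hx : (r, b) = x
    · subst hx
      have h5 : (r, b) ∉ (S.erase (r, b)).erase (s, b) := fun h6 =>
        (Finset.mem_erase.1 (Finset.mem_erase.1 h6).2).1 rfl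
      have h6 : (r, b) ∈ S.erase (s, b) :=
        Finset.mem_erase.2 ⟨fun h7 => hrs (congrArg Prod.fst h7), (hS r).2 hr⟩
      rw [hM0 _ h5, if_pos rfl, if_pos h6]
    · rw [if_neg hx, add_zero]
      have h5 : x ∈ (S.erase (r, b)).erase (s, b) ↔ x ∈ S.erase (s, b) := by
        simp only [Finset.mem_erase]
        constructor
        · rintro ⟨h6, _, h7⟩
          exact ⟨h6, h7⟩
        · rintro ⟨h6, h7⟩
          exact ⟨h6, fun h8 => hx h8.symm, h7⟩
      by_cases h6 : x ∈ S.erase (s, b)
      · rw [hM1 _ (h5.2 h6), if_pos h6]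
      · rw [hM0 _ (fun h7 => h6 (h5.1 h7)), if_neg h6]
  have h5 : M + Finsupp.single (s, b) 1 = AG.sqf (S.erase (r, b)) := by
    ext x
    rw [Finsupp.add_apply, AG.sqf_apply (S.erase (r, b)), Finsupp.single_apply]
    by_cases hx : (s, b) = x
    · subst hx
      have h5 : (s, b) ∉ (S.erase (r, b)).erase (s, b) := fun h6 => (Finset.mem_erase.1 h6).1 rfl
      have h6 : (s, b) ∈ S.erase (r, b) :=
        Finset.mem_erase.2 ⟨fun h7 => hrs (congrArg Prod.fst h7).symm, (hS s).2 hs⟩
      rw [hM0 _ h5, if_pos rfl, if_pos h6]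
    · rw [if_neg hx, add_zero]
      have h5 : x ∈ (S.erase (r, b)).erase (s, b) ↔ x ∈ S.erase (r, b) := by
        simp only [Finset.mem_erase]
        constructor
        · rintro ⟨_, h7⟩
          exact h7
        · intro h7
          exact ⟨fun h8 => hx h8.symm, h7⟩
      by_cases h6 : x ∈ S.erase (r, b)
      · rw [hM1 _ (h5.2 h6), if_pos h6]
      · rw [hM0 _ (fun h7 => h6 (h5.1 h7)), if_neg h6]
  rw [h4, h5] at h1
  have h6 : ∀ x y : ZMod 2, x + y = 0 → y = x := by decide
  exact h6 _ _ h1

/-- **the top coefficient does not depend on the root** -/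
theorem coeff_root {F : Ply B} (hF : TInv F) (V : Finset B)
    (hvar : ∀ m, coeff m F ≠ 0 → ∀ x, m x ≠ 0 → x.1 ∈ V) {r s : B} (hr : r ∈ V) (hs : s ∈ V) :
    coeff (topV (V.erase r)) F = coeff (topV (V.erase s)) F := by
  have e1 : ∀ r : B, r ∈ V → topV (V.erase r) = AG.sqf
      (((univ.filter fun x : B × Bool => x.1 ∈ V).erase (r, true)).erase (r, false)) := by
    intro r _
    unfold topV
    congr 1
    ext x
    obtain ⟨w, b⟩ := x
    simp only [mem_univ, true_and, Finset.mem_filter, Finset.mem_erase, ne_eq, Prod.mk.injEq]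
    cases b <;> simp
  have e2 : AG.sqf (((univ.filter fun x : B × Bool => x.1 ∈ V).erase (r, true)).erase (s, false)) =
      AG.sqf (((univ.filter fun x : B × Bool => x.1 ∈ V).erase (s, false)).erase (r, true)) := by
    rw [Finset.erase_right_comm]
  have e3 : AG.sqf (((univ.filter fun x : B × Bool => x.1 ∈ V).erase (s, true)).erase (s, false)) =
      AG.sqf (((univ.filter fun x : B × Bool => x.1 ∈ V).erase (s, false)).erase (s, true)) := by
    rw [Finset.erase_right_comm]
  rw [e1 r hr, e1 s hs, e3]
  rw [coeff_move hF ((univ.filter fun x : B × Bool => x.1 ∈ V).erase (r, true)) false V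
    (fun w => by simp) hvar hr hs, e2]
  exact coeff_move hF ((univ.filter fun x : B × Bool => x.1 ∈ V).erase (s, false)) true V
    (fun w => by simp) hvar hr hs

end Pool.Agent.ClawHam.GX
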