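import Pool.Agent.Lib.MP_e2dbb5_co.C5

/-!
# The relative form of the lemma on hypergraphs, with five hyperedges in the larger cuts
-/

set_option autoImplicit false

open Finset

noncomputable section

namespace Pool.Agent.ClawHam

open Classical

theorem rowh5 (hL : HypLemma5) (B I : Type) [Fintype B] [Fintype I] (B₀ : Finset B)
    (e : I → Finset B) (he : ∀ i, e i ⊆ B₀ ∧ (e i).card ≤ 3) (hF : FourConn B₀ e)
    (hF5 : FiveEss B₀ e) : EvenConn B₀ e := by
  set emb : {b // b ∈ B₀} ↪ B := Function.Embedding.subtype _ with hemb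
  have hev : ∀ b : {b // b ∈ B₀}, emb b = b.1 := fun _ => rfl
  set e' : {i // 2 ≤ (e i).card} → Finset {b // b ∈ B₀} := fun i => (e i.1).subtype (· ∈ B₀)
    with he'
  have hmem : ∀ (i : {i // 2 ≤ (e i).card}) (b : {b // b ∈ B₀}), b ∈ e' i ↔ b.1 ∈ e i.1 :=
    fun i b => mem_subtype
  have hcard : ∀ i : {i // 2 ≤ (e i).card}, (e' i).card = (e i.1).card := by
    intro i
    rw [he']
    simp only
    rw [card_subtype, filter_true_of_mem]
    intro x hx
    exact (he i.1).1 hx
  have hcross : ∀ X' : Finset {b // b ∈ B₀},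
      (univ.filter fun i => Crosses (e i) (X'.map emb)).card ≤
        (univ.filter fun i : {i // 2 ≤ (e i).card} => Crosses (e' i) X').card := by
    intro X'
    refine le_trans (card_le_card ?_) (card_image_le
      (s := univ.filter fun i : {i // 2 ≤ (e i).card} => Crosses (e' i) X') (f := Subtype.val))
    intro i hi
    obtain ⟨⟨a, ha, haX⟩, b, hb, hbX⟩ := (mem_filter.1 hi).2
    obtain ⟨a', ha', rfl⟩ := mem_map.1 haX
    have h2 : 2 ≤ (e i).card := by
      have h3 : 1 < (e i).card := by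
        rw [one_lt_card]
        refine ⟨emb a', ha, b, hb, ?_⟩
        rintro rfl
        exact hbX haX
      omega
    refine mem_image.2 ⟨⟨i, h2⟩, mem_filter.2 ⟨mem_univ _, ⟨a', (hmem _ _).2 ha, ha'⟩,
      ⟨b, (he i).1 hb⟩, (hmem _ _).2 hb, ?_⟩, rfl⟩
    intro h3
    exact hbX (mem_map.2 ⟨_, h3, rfl⟩)
  obtain ⟨f', hf1, hf2, hf3⟩ := hL {b // b ∈ B₀} {i // 2 ≤ (e i).card} e' (by
    intro i
    rw [hcard]
    have h1 := (he i.1).2
    have h2 := i.2
    omega) (by
    intro X' _ hne hX
    have h1 := hF (X'.map emb) (by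
      intro b hb
      obtain ⟨c, _, rfl⟩ := mem_map.1 hb
      exact c.2) (by
      obtain ⟨c, hc⟩ := hne
      exact ⟨emb c, mem_map_of_mem _ hc⟩) (by
      intro h
      apply hX
      rw [eq_univ_iff_forall]
      intro c
      have h2 : emb c ∈ X'.map emb := by
        rw [h]
        exact c.2
      exact (mem_map' emb).1 h2)
    exact h1.trans (hcross X')) (by
    intro X' _ hX2 hX3
    have h1 : (univ : Finset {b // b ∈ B₀}).card = B₀.card := by
      rw [card_univ, Fintype.card_coe]
    have h2 := hF5 (X'.map emb) (by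
      intro b hb
      obtain ⟨c, _, rfl⟩ := mem_map.1 hb
      exact c.2) (by rw [card_map]; exact hX2) (by rw [card_map, ← h1]; exact hX3)
    exact h2.trans (hcross X'))
  obtain ⟨F, hpos, hneg⟩ : ∃ F : I → Finset B,
      (∀ i (h : 2 ≤ (e i).card), F i = (f' ⟨i, h⟩).map emb) ∧
        ∀ i, ¬ 2 ≤ (e i).card → F i = ∅ :=
    ⟨fun i => if h : 2 ≤ (e i).card then (f' ⟨i, h⟩).map emb else ∅, fun i h => dif_pos h,
      fun i h => dif_neg h⟩
  refine ⟨F, ?_, ?_, ?_⟩
  · intro i
    by_cases h : 2 ≤ (e i).card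
    · rw [hpos i h]
      refine ⟨?_, ?_⟩
      · intro b hb
        obtain ⟨c, hc, rfl⟩ := mem_map.1 hb
        exact (hmem _ _).1 ((hf1 _).1 hc)
      · rcases (hf1 ⟨i, h⟩).2 with h1 | h1
        · left
          rw [h1, map_empty]
        · right
          rw [card_map, h1]
    · rw [hneg i h]
      exact ⟨empty_subset _, Or.inl rfl⟩
  · intro K
    by_cases hK : K ∈ B₀
    · have h1 : (univ.filter fun i => K ∈ F i) =
          (univ.filter fun i : {i // 2 ≤ (e i).card} => (⟨K, hK⟩ : {b // b ∈ B₀}) ∈ f' i).map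
            (Function.Embedding.subtype _) := by
        ext i
        rw [mem_filter, mem_map]
        constructor
        · rintro ⟨_, h2⟩
          by_cases h : 2 ≤ (e i).card
          · rw [hpos i h, mem_map] at h2
            obtain ⟨c, hc, hcK⟩ := h2
            refine ⟨⟨i, h⟩, mem_filter.2 ⟨mem_univ _, ?_⟩, rfl⟩
            have h3 : c = ⟨K, hK⟩ := Subtype.ext hcK
            rwa [← h3]
          · rw [hneg i h] at h2
            exact absurd h2 (notMem_empty _)
        · rintro ⟨j, hj, rfl⟩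
          refine ⟨mem_univ _, ?_⟩
          have h2 : 2 ≤ (e (Function.Embedding.subtype _ j)).card := j.2
          rw [hpos _ h2]
          exact mem_map.2 ⟨⟨K, hK⟩, (mem_filter.1 hj).2, rfl⟩
      rw [h1, card_map]
      convert hf2 ⟨K, hK⟩
    · have h1 : (univ.filter fun i => K ∈ F i) = ∅ := by
        rw [filter_eq_empty_iff]
        intro i _ h2
        by_cases h : 2 ≤ (e i).card
        · rw [hpos i h, mem_map] at h2
          obtain ⟨c, _, rfl⟩ := h2
          exact hK c.2
        · rw [hneg i h] at h2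
          exact absurd h2 (notMem_empty _)
      rw [h1, card_empty]
      exact Even.zero
  · intro X hXB hne hX
    obtain ⟨j, ⟨a, ha, haX⟩, b, hb, hbX⟩ := hf3 (X.subtype (· ∈ B₀)) (subset_univ _) (by
      obtain ⟨c, hc⟩ := hne
      exact ⟨⟨c, hXB hc⟩, mem_subtype.2 hc⟩) (by
      intro h
      apply hX
      refine Subset.antisymm hXB fun c hc => ?_
      have h1 : (⟨c, hc⟩ : {b // b ∈ B₀}) ∈ X.subtype (· ∈ B₀) := by
        rw [h]
        exact mem_univ _
      exact mem_subtype.1 h1)
    refine ⟨j.1, ⟨a.1, ?_, mem_subtype.1 haX⟩, b.1, ?_, fun h => hbX (mem_subtype.2 h)⟩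
    · rw [hpos _ j.2]
      exact mem_map.2 ⟨a, ha, rfl⟩
    · rw [hpos _ j.2]
      exact mem_map.2 ⟨b, hb, rfl⟩


end Pool.Agent.ClawHam
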