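import Pool.Agent.Lib.MP_e2dbb5_co.SPP_MAIN

/-!
# The closure and the small cells (helper65)

Every edge of the closure which is not an edge of the graph has at least four common neighbours.
So the cells of the closure with three or four vertices are complete in the graph.
-/

set_option autoImplicit false
set_option linter.unusedSectionVars false

open Finset

noncomputable section

namespace Pool.Agent.ClawHam

open Classical

namespace P2

/-- the edges of `H` which are not edges of `G` have at least four common neighbours in `H` -/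
def NewBig {V : Type} (G H : SimpleGraph V) : Prop :=
  ∀ u v, H.Adj u v → ¬ G.Adj u v → 4 ≤ (H.commonNeighbors u v).ncard

theorem mem_cn {V : Type} {G : SimpleGraph V} {u v w : V} :
    w ∈ G.commonNeighbors u v ↔ G.Adj u w ∧ G.Adj v w := Iff.rfl

theorem newBig_complete {V : Type} [Fintype V] {G H : SimpleGraph V} {x : V} (hle : G ≤ H)
    (hd : ∀ v, 5 ≤ (G.neighborSet v).ncard) (h : NewBig G H) : NewBig G (complete H x) := by
  intro u v huv hG
  by_cases h1 : H.Adj u v
  · refine (h u v h1 hG).trans (Set.ncard_le_ncard ?_ (Set.toFinite _))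
    intro w hw
    exact ⟨Or.inl hw.1, Or.inl hw.2⟩
  · rcases huv with h2 | ⟨huv, hxu, hxv⟩
    · exact absurd h2 h1
    · have h3 : 5 ≤ (H.neighborSet x).ncard :=
        (hd x).trans (Set.ncard_le_ncard (fun w hw => hle hw) (Set.toFinite _))
      have h4 : insert x ((H.neighborSet x \ {u}) \ {v}) ⊆ (complete H x).commonNeighbors u v := by
        intro w hw
        rcases Set.mem_insert_iff.1 hw with rfl | ⟨⟨hw, hu⟩, hv⟩
        · exact ⟨Or.inl hxu.symm, Or.inl hxv.symm⟩
        · refine ⟨Or.inr ⟨?_, hxu, hw⟩, Or.inr ⟨?_, hxv, hw⟩⟩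
          · rintro rfl
            exact hu rfl
          · rintro rfl
            exact hv rfl
      have h5 := Set.ncard_le_ncard h4 (Set.toFinite _)
      rw [Set.ncard_insert_of_notMem (by
        rintro ⟨⟨hx, -⟩, -⟩
        exact H.irrefl hx) (Set.toFinite _)] at h5
      have h6 := Set.le_ncard_sdiff {v} (H.neighborSet x \ {u})
      have h7 := Set.le_ncard_sdiff {u} (H.neighborSet x)
      rw [Set.ncard_singleton] at h6 h7
      omega

/-- the closure, with the invariant -/
theorem closure {V : Type} [Fintype V] (G : SimpleGraph V) (hG : ClawFree G)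
    (hd : ∀ v, 5 ≤ (G.neighborSet v).ncard) :
    ∃ H : SimpleGraph V, G ≤ H ∧ ClawFree H ∧ Closed H ∧ (Ham H → Ham G) ∧ NewBig G H := by
  set s : Set (SimpleGraph V) := {H | G ≤ H ∧ ClawFree H ∧ (Ham H → Ham G) ∧ NewBig G H} with hs
  have hfin : s.Finite := Set.toFinite s
  have hne : s.Nonempty := ⟨G, le_refl G, hG, id, fun _ _ h1 h2 => absurd h1 h2⟩
  obtain ⟨H, hH⟩ := hfin.exists_maximal hne
  obtain ⟨⟨h1, h2, h3, h0⟩, h4⟩ := hH
  refine ⟨H, h1, h2, ?_, h3, h0⟩
  intro x hx a b ha hb nab
  have hmem : complete H x ∈ s :=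
    ⟨h1.trans (le_complete H x), clawFree_complete h2 x, fun h => h3 (rowd1 V H x h2 hx h),
      newBig_complete h1 hd h0⟩
  exact h4 hmem (le_complete H x) (Or.inr ⟨nab, ha, hb⟩)

section

variable {V C : Type}

/-- a common neighbour of two vertices of a cell with at least three vertices lies in the cell -/
theorem cell_common {G' : SimpleGraph V} {inc : V → C → Prop} (hcl : Closed G')
    (hK : Krausz G' inc) {K : C} {a b d z : V} (ha : inc a K) (hb : inc b K) (hd : inc d K)
    (hab : a ≠ b) (had : a ≠ d) (hbd : b ≠ d) (haz : G'.Adj a z) (hbz : G'.Adj b z) :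
    inc z K := by
  by_contra hz
  obtain ⟨naz, L, haL, hzL⟩ := (hK.adj_iff a z).1 haz
  obtain ⟨nbz, M, hbM, hzM⟩ := (hK.adj_iff b z).1 hbz
  have hKL : K ≠ L := by
    rintro rfl
    exact hz hzL
  have hKM : K ≠ M := by
    rintro rfl
    exact hz hzM
  have hLM : L ≠ M := by
    rintro rfl
    exact hKL (hK.uniq a b K L hab ha hb haL hbM)
  have hab' : G'.Adj a b := (hK.adj_iff a b).2 ⟨hab, K, ha, hb⟩
  have had' : G'.Adj a d := (hK.adj_iff a d).2 ⟨had, K, ha, hd⟩
  -- the neighbourhood of `a` is connected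
  have hconn : NbrConn G' a := by
    rintro p ⟨a1, h1, hp1⟩ ⟨c1, h2, hp2⟩
    by_contra hno
    push Not at hno
    -- all values agree with the value at `b`
    have key : ∀ w, G'.Adj a w → (p w ↔ p b) := by
      have hsame : ∀ u w, G'.Adj a u → G'.Adj a w → G'.Adj u w → (p u ↔ p w) := by
        intro u w hu hw huw
        constructor
        · intro hpu
          by_contra hpw
          exact hno u w hu hpu hw hpw huw
        · intro hpw
          by_contra hpu
          exact hno w u hw hpw hu hpu huw.symm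
      have hpz : p z ↔ p b := (hsame b z hab' haz hbz).symm
      intro w hw
      obtain ⟨naw, N, haN, hwN⟩ := (hK.adj_iff a w).1 hw
      rcases hK.two a K L N ha haL haN with h | h | h
      · exact absurd h hKL
      · rw [← h] at hwN
        by_cases hwb : w = b
        · rw [hwb]
        · exact hsame w b hw hab' ((hK.adj_iff w b).2 ⟨hwb, K, hwN, hb⟩)
      · rw [← h] at hwN
        by_cases hwz : w = z
        · rw [hwz]
          exact hpz
        · exact (hsame w z hw haz ((hK.adj_iff w z).2 ⟨hwz, L, hwN, hzL⟩)).trans hpz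
    exact hp2 ((key c1 h2).2 ((key a1 h1).1 hp1))
  have hdz : G'.Adj d z := by
    refine hcl a hconn d z had' haz ?_
    rintro rfl
    exact hz hd
  obtain ⟨ndz, N, hdN, hzN⟩ := (hK.adj_iff d z).1 hdz
  rcases hK.two z L M N hzL hzM hzN with h | h | h
  · exact hLM h
  · rw [← h] at hdN
    exact hKL (hK.uniq a d K L had ha hd haL hdN)
  · rw [← h] at hdN
    exact hKM (hK.uniq b d K M hbd hb hd hbM hdN)

variable [Fintype V]

/-- the common neighbours of two vertices of a cell with at least three vertices -/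
theorem cn_cell {G' : SimpleGraph V} {inc : V → C → Prop} (hcl : Closed G')
    (hK : Krausz G' inc) {K : C} (h3 : 3 ≤ (univ.filter fun v => inc v K).card) {a b : V}
    (ha : inc a K) (hb : inc b K) (hab : a ≠ b) (w : V) :
    w ∈ G'.commonNeighbors a b ↔ inc w K ∧ w ≠ a ∧ w ≠ b := by
  have hex : ∃ d, inc d K ∧ a ≠ d ∧ b ≠ d := by
    by_contra hno
    push Not at hno
    have h4 : (univ.filter fun v => inc v K) ⊆ {a, b} := by
      intro d hd
      rw [mem_insert, mem_singleton]
      by_contra h
      push Not at h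
      exact h.2.symm (hno d (mem_filter.1 hd).2 h.1.symm)
    have h5 := card_le_card h4
    have h6 := card_le_two (a := a) (b := b)
    omega
  obtain ⟨d, hd, had, hbd⟩ := hex
  constructor
  · rintro ⟨h1, h2⟩
    exact ⟨cell_common hcl hK ha hb hd hab had hbd h1 h2, fun h => G'.irrefl (h ▸ h1),
      fun h => G'.irrefl (h ▸ h2)⟩
  · rintro ⟨h1, h2, h3⟩
    exact ⟨(hK.adj_iff a w).2 ⟨h2.symm, K, ha, h1⟩, (hK.adj_iff b w).2 ⟨h3.symm, K, hb, h1⟩⟩

theorem card_cell {inc : V → C → Prop} {K : C} {a b : V} (ha : inc a K) (hb : inc b K)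
    (hab : a ≠ b) : {w | inc w K ∧ w ≠ a ∧ w ≠ b}.ncard + 2 =
      (univ.filter fun v => inc v K).card := by
  have h1 : {w | inc w K ∧ w ≠ a ∧ w ≠ b} =
      ((((univ.filter fun v => inc v K).erase a).erase b : Finset V) : Set V) := by
    ext w
    simp only [coe_erase, coe_filter, mem_univ, true_and, Set.mem_sdiff, Set.mem_ofPred_eq,
      Set.mem_singleton_iff]
    tauto
  have h2 : a ∈ univ.filter fun v => inc v K := mem_filter.2 ⟨mem_univ _, ha⟩
  have h3 : b ∈ (univ.filter fun v => inc v K).erase a :=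
    mem_erase.2 ⟨hab.symm, mem_filter.2 ⟨mem_univ _, hb⟩⟩
  rw [h1, Set.ncard_coe_finset, card_erase_of_mem h3, card_erase_of_mem h2]
  have h4 : 1 ≤ ((univ.filter fun v => inc v K).erase a).card := card_pos.2 ⟨b, h3⟩
  rw [card_erase_of_mem h2] at h4
  omega

/-- the small cells are complete in `G` -/
theorem adj_of_cell {G G' : SimpleGraph V} {inc : V → C → Prop} (hn : NewBig G G')
    (hcl : Closed G') (hK : Krausz G' inc) {K : C}
    (h3 : 3 ≤ (univ.filter fun v => inc v K).card) (h4 : (univ.filter fun v => inc v K).card ≤ 5)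
    {a b : V} (ha : inc a K) (hb : inc b K) (hab : a ≠ b) : G.Adj a b := by
  by_contra hG
  have h5 := hn a b ((hK.adj_iff a b).2 ⟨hab, K, ha, hb⟩) hG
  have h6 : G'.commonNeighbors a b = {w | inc w K ∧ w ≠ a ∧ w ≠ b} :=
    Set.ext fun w => cn_cell hcl hK h3 ha hb hab w
  have h7 := card_cell ha hb hab
  rw [h6] at h5
  omega

/-- the number of the common neighbours in a small cell -/
theorem ncard_cn {G G' : SimpleGraph V} {inc : V → C → Prop} (hle : G ≤ G') (hn : NewBig G G')
    (hcl : Closed G') (hK : Krausz G' inc) {K : C}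
    (h3 : 3 ≤ (univ.filter fun v => inc v K).card) (h4 : (univ.filter fun v => inc v K).card ≤ 5)
    {a b : V} (ha : inc a K) (hb : inc b K) (hab : a ≠ b) :
    (G.commonNeighbors a b).ncard + 2 = (univ.filter fun v => inc v K).card := by
  have h6 : G.commonNeighbors a b = {w | inc w K ∧ w ≠ a ∧ w ≠ b} := by
    refine Set.ext fun w => ?_
    constructor
    · rintro ⟨h1, h2⟩
      exact (cn_cell hcl hK h3 ha hb hab w).1 ⟨hle h1, hle h2⟩
    · rintro ⟨h1, h2, h5⟩
      exact ⟨adj_of_cell hn hcl hK h3 h4 ha h1 h2.symm, adj_of_cell hn hcl hK h3 h4 hb h1 h5.symm⟩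
  rw [h6]
  exact card_cell ha hb hab

end

end P2

end Pool.Agent.ClawHam
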