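import Pool.Agent.Lib.MP_e2dbb5_co.P2D

/-!
# The stronger graph side of SEP+ (helper65)

`Phi2 G`: the sum over the components of `L2 G` of half the number (rounded down) of special
vertices. Special: degree five, and the neighbours form a triangle and a disjoint edge. The edges
of `L2 G`: both ends have degree at most six, and there are exactly two common neighbours.
-/

set_option autoImplicit false
set_option linter.unusedSectionVars false

open Finset

noncomputable section

namespace Pool.Agent.ClawHam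

open Classical

/-- the neighbours of `v` are five vertices which induce a triangle and a disjoint edge -/
def Special {V : Type} (G : SimpleGraph V) (v : V) : Prop :=
  ∃ a b c y z, G.Adj a b ∧ G.Adj a c ∧ G.Adj b c ∧ G.Adj y z ∧
    (¬ G.Adj a y ∧ ¬ G.Adj a z) ∧ (¬ G.Adj b y ∧ ¬ G.Adj b z) ∧ (¬ G.Adj c y ∧ ¬ G.Adj c z) ∧
    ∀ w, G.Adj v w ↔ w = a ∨ w = b ∨ w = c ∨ w = y ∨ w = z

/-- the edges of `G` between vertices of degree at most six which have exactly two common
neighbours -/
def L2 {V : Type} (G : SimpleGraph V) : SimpleGraph V where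
  Adj u v := G.Adj u v ∧ (G.neighborSet u).ncard ≤ 6 ∧ (G.neighborSet v).ncard ≤ 6 ∧
    (G.commonNeighbors u v).ncard = 2
  symm := ⟨fun u v h => ⟨h.1.symm, h.2.2.1, h.2.1, by
    rw [SimpleGraph.commonNeighbors_symm]
    exact h.2.2.2⟩⟩
  loopless := ⟨fun _ h => G.irrefl h.1⟩

/-- the sum over the components of `L2 G` of half the number of special vertices -/
def Phi2 {V : Type} [Fintype V] (G : SimpleGraph V) : ℕ :=
  ∑ c ∈ univ.image (L2 G).connectedComponentMk,
    (univ.filter fun v => Special G v ∧ (L2 G).connectedComponentMk v = c).card / 2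

namespace P2

open SP SP.MP

section

variable {V C : Type} [Fintype V] [Fintype C]

/-- the number of the component -/
def cc2 (G : SimpleGraph V) (c : (L2 G).ConnectedComponent) : ℕ :=
  (Fintype.equivFin (L2 G).ConnectedComponent c : ℕ)

theorem cc2_inj (G : SimpleGraph V) : Function.Injective (cc2 G) :=
  fun _ _ h => (Fintype.equivFin _).injective (Fin.ext h)

/-- the colour of a cell -/
def col2 (G G' : SimpleGraph V) (inc : V → C → Prop) (K : C) : ℕ :=
  if h : ∃ a, inc a K ∧ (univ.filter fun z => G'.Adj a z).card ≤ 6 then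
    cc2 G ((L2 G).connectedComponentMk h.choose) else
    Fintype.card (L2 G).ConnectedComponent + Fintype.equivFin C K

theorem deg6 {G G' : SimpleGraph V} (hle : G ≤ G') {a : V}
    (ha : (univ.filter fun z => G'.Adj a z).card ≤ 6) : (G.neighborSet a).ncard ≤ 6 := by
  refine le_trans ?_ ha
  rw [ncard_nbr]
  exact card_le_card fun w hw => mem_filter.2 ⟨mem_univ _, hle (mem_filter.1 hw).2⟩

theorem col2_eq {G G' : SimpleGraph V} {inc : V → C → Prop} (hle : G ≤ G') (hn : NewBig G G')
    (hcl : Closed G') (hK : Krausz G' inc) {K : C}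
    (h4 : (univ.filter fun v => inc v K).card = 4) {a : V} (ha : inc a K)
    (ha6 : (univ.filter fun z => G'.Adj a z).card ≤ 6) :
    col2 G G' inc K = cc2 G ((L2 G).connectedComponentMk a) := by
  have h : ∃ a, inc a K ∧ (univ.filter fun z => G'.Adj a z).card ≤ 6 := ⟨a, ha, ha6⟩
  unfold col2
  rw [dif_pos h]
  obtain ⟨h1, h2⟩ := h.choose_spec
  by_cases h3 : h.choose = a
  · rw [h3]
  · have h5 : (L2 G).Adj h.choose a := by
      refine ⟨adj_of_cell hn hcl hK (by omega) (by omega) h1 ha h3, deg6 hle h2, deg6 hle ha6, ?_⟩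
      have := ncard_cn hle hn hcl hK (by omega) (by omega) h1 ha h3
      omega
    rw [SimpleGraph.ConnectedComponent.sound h5.reachable]

/-- the vertex in a cell with four vertices and a cell with three vertices is special -/
theorem special_of {G G' : SimpleGraph V} {inc : V → C → Prop} (hle : G ≤ G') (hn : NewBig G G')
    (hcl : Closed G') (hK : Krausz G' inc) {K S : C}
    (h4 : (univ.filter fun v => inc v K).card = 4) (h3 : (univ.filter fun v => inc v S).card = 3)
    {v : V} (hvK : inc v K) (hvS : inc v S) : Special G v := by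
  have hKS : K ≠ S := by
    rintro rfl
    omega
  have hvK' : v ∈ univ.filter fun v => inc v K := mem_filter.2 ⟨mem_univ _, hvK⟩
  have hvS' : v ∈ univ.filter fun v => inc v S := mem_filter.2 ⟨mem_univ _, hvS⟩
  obtain ⟨a, b, c, hab, hac, hbc, hA⟩ := card_eq_three.1
    (show ((univ.filter fun v => inc v K).erase v).card = 3 by
      rw [card_erase_of_mem hvK']
      omega)
  obtain ⟨y, z, hyz, hB⟩ := card_eq_two.1
    (show ((univ.filter fun v => inc v S).erase v).card = 2 by
      rw [card_erase_of_mem hvS']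
      omega)
  have hA' : ∀ w, w ≠ v ∧ inc w K ↔ w = a ∨ w = b ∨ w = c := by
    intro w
    have := Finset.ext_iff.1 hA w
    simpa using this
  have hB' : ∀ w, w ≠ v ∧ inc w S ↔ w = y ∨ w = z := by
    intro w
    have := Finset.ext_iff.1 hB w
    simpa using this
  have hK4 : ∀ {p q : V}, inc p K → inc q K → p ≠ q → G.Adj p q := fun hp hq hpq =>
    adj_of_cell hn hcl hK (by omega) (by omega) hp hq hpq
  have hS3 : ∀ {p q : V}, inc p S → inc q S → p ≠ q → G.Adj p q := fun hp hq hpq =>
    adj_of_cell hn hcl hK (by omega) (by omega) hp hq hpq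
  have ha := (hA' a).2 (Or.inl rfl)
  have hb := (hA' b).2 (Or.inr (Or.inl rfl))
  have hc := (hA' c).2 (Or.inr (Or.inr rfl))
  have hy := (hB' y).2 (Or.inl rfl)
  have hz := (hB' z).2 (Or.inr rfl)
  -- no edges between the cells
  have hno : ∀ p q, p ≠ v → inc p K → q ≠ v → inc q S → ¬ G.Adj p q := by
    intro p q hp hpK hq hqS hpq
    have h5 : inc q K := by
      refine ((cn_cell hcl hK (by omega) hvK hpK hp.symm q).1 ⟨?_, hle hpq⟩).1
      exact (hK.adj_iff v q).2 ⟨hq.symm, S, hvS, hqS⟩
    exact hKS (hK.uniq v q K S hq.symm hvK h5 hvS hqS)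
  refine ⟨a, b, c, y, z, hK4 ha.2 hb.2 hab, hK4 ha.2 hc.2 hac, hK4 hb.2 hc.2 hbc,
    hS3 hy.2 hz.2 hyz, ⟨hno a y ha.1 ha.2 hy.1 hy.2, hno a z ha.1 ha.2 hz.1 hz.2⟩,
    ⟨hno b y hb.1 hb.2 hy.1 hy.2, hno b z hb.1 hb.2 hz.1 hz.2⟩,
    ⟨hno c y hc.1 hc.2 hy.1 hy.2, hno c z hc.1 hc.2 hz.1 hz.2⟩, ?_⟩
  intro w
  constructor
  · intro hvw
    obtain ⟨hne, N, h5, h6⟩ := (hK.adj_iff v w).1 (hle hvw)
    rcases hK.two v K S N hvK hvS h5 with h | h | h
    · exact absurd h hKS
    · rw [← h] at h6
      rcases (hA' w).1 ⟨hne.symm, h6⟩ with h | h | h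
      · exact Or.inl h
      · exact Or.inr (Or.inl h)
      · exact Or.inr (Or.inr (Or.inl h))
    · rw [← h] at h6
      rcases (hB' w).1 ⟨hne.symm, h6⟩ with h | h
      · exact Or.inr (Or.inr (Or.inr (Or.inl h)))
      · exact Or.inr (Or.inr (Or.inr (Or.inr h)))
  · rintro (h | h | h | h | h)
    · rw [h]
      exact hK4 hvK ha.2 ha.1.symm
    · rw [h]
      exact hK4 hvK hb.2 hb.1.symm
    · rw [h]
      exact hK4 hvK hc.2 hc.1.symm
    · rw [h]
      exact hS3 hvS hy.2 hy.1.symm
    · rw [h]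
      exact hS3 hvS hz.2 hz.1.symm

theorem ntr_le2 {G G' : SimpleGraph V} {inc : V → C → Prop} (hle : G ≤ G') (hn : NewBig G G')
    (hcl : Closed G') (hK : Krausz G' inc) (hcut : NoSmallCut G')
    (hbig : ∀ v, ∃ K, Big inc K ∧ inc v K)
    (h5 : ∀ v, 5 ≤ (univ.filter fun w => G'.Adj v w).card) (hw : ∀ K : C, ∃ w, ¬ inc w K) (c : ℕ) :
    NTR (hyp inc) (col2 G G' inc) c ≤ (univ.filter fun v => Special G v ∧
      cc2 G ((L2 G).connectedComponentMk v) = c).card := by
  have h1 : ∀ p : (V ⊕ C) × C, ∃ v : V, p ∈ (univ.filter fun p : (V ⊕ C) × C =>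
      (hyp inc p.1).card = 3 ∧ p.2 ∈ hyp inc p.1 ∧
      (univ.filter fun i => Crosses (hyp inc i) {p.2}).card ≤ 4 ∧ col2 G G' inc p.2 = c) →
      (∃ S, p.1 = Sum.inr S ∧ inc v S ∧ ¬ Big inc S ∧ Big inc p.2 ∧ inc v p.2) ∧
        Special G v ∧ cc2 G ((L2 G).connectedComponentMk v) = c := by
    intro p
    by_cases hp : p ∈ (univ.filter fun p : (V ⊕ C) × C =>
      (hyp inc p.1).card = 3 ∧ p.2 ∈ hyp inc p.1 ∧
      (univ.filter fun i => Crosses (hyp inc i) {p.2}).card ≤ 4 ∧ col2 G G' inc p.2 = c)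
    · obtain ⟨i, K⟩ := p
      obtain ⟨-, hi, hKi, hdK, hc⟩ := mem_filter.1 hp
      simp only at hi hKi hdK hc
      rcases i with a | S
      · have := MS.inl_card hK a
        omega
      obtain ⟨-, hS, hbK, v, hvS, hvK⟩ := mem_filter.1 hKi
      have hKS : K ≠ S := by
        rintro rfl
        exact hS hbK
      have h6 := TSG.deg_le (le_refl G') hK hvK hvS hKS
      obtain ⟨w, hw⟩ := hw K
      have h7 := TSG.card_four hK hcut hbig hbK hdK hw
      have h9 := C1x.small_card hS
      have h10 := h5 v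
      refine ⟨v, fun _ => ⟨⟨S, rfl, hvS, hS, hbK, hvK⟩,
        special_of hle hn hcl hK h7 (by omega) hvK hvS, ?_⟩⟩
      rw [← hc, col2_eq hle hn hcl hK h7 hvK (by omega)]
    · obtain ⟨w, -⟩ := hw p.2
      exact ⟨w, fun h => absurd h hp⟩
  choose j hj using h1
  unfold NTR
  refine card_le_card_of_injOn j ?_ ?_
  · intro p hp
    exact mem_filter.2 ⟨mem_univ _, (hj p hp).2⟩
  · intro p hp p' hp' hpp
    obtain ⟨⟨S, h2, h3, h4, h5, h6⟩, -⟩ := hj p hp
    obtain ⟨⟨S', h2', h3', h4', h5', h6'⟩, -⟩ := hj p' hp'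
    rw [← hpp] at h3' h6'
    have hKS : p.2 ≠ S := by
      intro h
      rw [h] at h5
      exact h4 h5
    have hKL : p.2 = p'.2 := by
      rcases hK.two _ _ _ _ h6 h3 h6' with h | h | h
      · exact absurd h hKS
      · exact h
      · rw [h] at h4
        exact absurd h5' h4
    have hSS : S = S' := by
      rcases hK.two _ _ _ _ h6 h3 h3' with h | h | h
      · exact absurd h hKS
      · rw [← h] at h4'
        exact absurd h5 h4'
      · exact h
    refine Prod.ext ?_ hKL
    rw [h2, h2', hSS]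

theorem relCol2 {G G' : SimpleGraph V} {inc : V → C → Prop} (hle : G ≤ G') (hn : NewBig G G')
    (hcl : Closed G') (hK : Krausz G' inc) (hcut : NoSmallCut G')
    (hbig : ∀ v, ∃ K, Big inc K ∧ inc v K)
    (h5 : ∀ v, 5 ≤ (univ.filter fun w => G'.Adj v w).card) (hw : ∀ K : C, ∃ w, ¬ inc w K)
    (hs : Phi2 G ≤ 5) : RelColP (hyp inc) := by
  have h4 : ∀ K : C, Big inc K → (univ.filter fun i => Crosses (hyp inc i) {K}).card ≤ 4 →
      (univ.filter fun v => inc v K).card = 4 := by
    intro K hbK hdeg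
    obtain ⟨w, hw⟩ := hw K
    exact TSG.card_four hK hcut hbig hbK hdeg hw
  refine ⟨col2 G G' inc, ?_, ?_⟩
  · intro i hi K hKi L hLi hdK hdL
    by_cases hKL : K = L
    · rw [hKL]
    rcases i with a | S
    · obtain ⟨-, hbK, haK⟩ := mem_filter.1 hKi
      obtain ⟨-, hbL, haL⟩ := mem_filter.1 hLi
      have h6 := TSG.deg_le (le_refl G') hK haK haL hKL
      have h7 := h4 K hbK hdK
      have h8 := h4 L hbL hdL
      rw [col2_eq hle hn hcl hK h7 haK (by omega), col2_eq hle hn hcl hK h8 haL (by omega)]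
    · exfalso
      have hKi' := hKi
      have hLi' := hLi
      obtain ⟨-, hS, hbK, a, haS, haK⟩ := mem_filter.1 hKi
      obtain ⟨-, -, hbL, b, hbS, hbL'⟩ := mem_filter.1 hLi
      have hKS : K ≠ S := by
        rintro rfl
        exact hS hbK
      have hLS : L ≠ S := by
        rintro rfl
        exact hS hbL
      have h6 := TSG.deg_le (le_refl G') hK haK haS hKS
      have h7 := h4 K hbK hdK
      have h10 := h5 a
      -- the small cell has a third vertex
      have hex : ∃ d, inc d S ∧ d ≠ a ∧ d ≠ b := by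
        by_contra hno
        push Not at hno
        have h11 : (univ.filter fun v => inc v S) ⊆ {a, b} := by
          intro d hd
          rw [mem_insert, mem_singleton]
          by_contra h
          push Not at h
          exact h.2 (hno d (mem_filter.1 hd).2 h.1)
        have h12 := card_le_card h11
        have h13 := card_le_two (a := a) (b := b)
        omega
      obtain ⟨d, hdS, hda, hdb⟩ := hex
      obtain ⟨M, hbM, hdM⟩ := hbig d
      have hMi : M ∈ hyp inc (Sum.inr S) := mem_filter.2 ⟨mem_univ _, hS, hbM, d, hdS, hdM⟩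
      have hMK : M ≠ K := by
        rintro rfl
        exact hKS (hK.uniq a d M S hda.symm haK hdM haS hdS)
      have hML : M ≠ L := by
        rintro rfl
        exact hLS (hK.uniq b d M S hdb.symm hbL' hdM hbS hdS)
      have h14 : 2 < (hyp inc (Sum.inr S)).card :=
        Finset.two_lt_card.2 ⟨K, hKi', L, hLi', M, hMi, hKL, hMK.symm, hML.symm⟩
      omega
  · refine le_trans ?_ hs
    -- the sum over the colours which are components
    have h6 : ∀ c ∈ univ.image (col2 G G' inc), NTR (hyp inc) (col2 G G' inc) c / 2 ≤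
        (univ.filter fun v => Special G v ∧
          cc2 G ((L2 G).connectedComponentMk v) = c).card / 2 := fun c _ =>
      Nat.div_le_div_right (ntr_le2 hle hn hcl hK hcut hbig h5 hw c)
    refine (sum_le_sum h6).trans ?_
    have h7 : ∑ c ∈ univ.image (col2 G G' inc), (univ.filter fun v => Special G v ∧
          cc2 G ((L2 G).connectedComponentMk v) = c).card / 2 ≤
        ∑ c ∈ univ.image (fun v => cc2 G ((L2 G).connectedComponentMk v)),
          (univ.filter fun v => Special G v ∧
          cc2 G ((L2 G).connectedComponentMk v) = c).card / 2 := by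
      refine sum_le_sum_of_ne_zero ?_
      intro c _ hc
      have h8 : (univ.filter fun v => Special G v ∧
          cc2 G ((L2 G).connectedComponentMk v) = c).card ≠ 0 := by
        intro h
        rw [h] at hc
        exact hc rfl
      obtain ⟨v, hv⟩ := card_pos.1 (Nat.pos_of_ne_zero h8)
      exact mem_image.2 ⟨v, mem_univ _, (mem_filter.1 hv).2.2⟩
    refine h7.trans (le_of_eq ?_)
    have himg : univ.image (fun v => cc2 G ((L2 G).connectedComponentMk v)) =
        (univ.image (L2 G).connectedComponentMk).image (cc2 G) := by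
      rw [image_image]
      rfl
    unfold Phi2
    rw [himg]
    rw [sum_image fun _ _ _ _ h => cc2_inj G h]
    refine sum_congr rfl fun c _ => ?_
    congr 2
    refine filter_congr fun v _ => ?_
    constructor
    · rintro ⟨h1, h2⟩
      exact ⟨h1, cc2_inj G h2⟩
    · rintro ⟨h1, h2⟩
      exact ⟨h1, by rw [h2]⟩

end

/-- **The stronger graph side of SEP+** -/
theorem mainPhi2 (hyp' : HypPhi) (V : Type) [Fintype V] [DecidableEq V] (G : SimpleGraph V)
    (hN : NoSmallCut G) (h3 : 3 ≤ Fintype.card V) (hclaw : ClawFree G) (hsep : Phi2 G ≤ 5) :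
    G.IsHamiltonian := by
  by_cases hcompG : ∀ u v, u ≠ v → G.Adj u v
  · exact rowE5 V G (ham_of_complete G h3 hcompG)
  push Not at hcompG
  have h5 : ∀ v, 5 ≤ (univ.filter fun w => G.Adj v w).card := five_le_deg hN hcompG
  obtain ⟨G', hle, hcf, hcl, hham, hn⟩ := closure G hclaw fun v => by
    rw [ncard_nbr]
    exact h5 v
  refine rowE5 V G (hham ?_)
  have hN' : NoSmallCut G' := by
    intro S A C h1 h2 h4 h5 h6 h7 h8
    exact hN S A C h1 h2 h4 h5 h6 h7 fun a ha c hc hac => h8 a ha c hc (hle hac)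
  by_cases hcomp : ∀ u v, u ≠ v → G'.Adj u v
  · exact ham_of_complete G' h3 hcomp
  push Not at hcomp
  have hiso : ∀ v, ∃ w, G'.Adj v w := by
    intro v
    have h6 := h5 v
    obtain ⟨w, hw⟩ := card_pos.1 (show 0 < (univ.filter fun w => G.Adj v w).card by omega)
    exact ⟨w, hle (mem_filter.1 hw).2⟩
  obtain ⟨C, _, inc, hK⟩ := D3.rowD3 V G' hcf hcl hiso
  have hbig := rowc0 V C G' inc hK hN' hcomp
  obtain ⟨hr, hfour⟩ := rowc1 V C G' inc hK hN' hbig
  have hw : ∀ K : C, ∃ w, ¬ inc w K := by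
    intro K
    by_contra hno
    push Not at hno
    obtain ⟨u, v, huv, hadj⟩ := hcomp
    exact hadj ((hK.adj_iff u v).2 ⟨huv, K, hno u, hno v⟩)
  have heven := rowh5P hyp' C (V ⊕ C) (bigs inc) (Pool.Agent.ClawHam.hyp inc) hr hfour
    (rowc5 V C G' inc hK hN' hbig)
    (relCol2 hle hn hcl hK hN' hbig (five_le_deg hN' hcomp) hw hsep)
  have htwo : 2 ≤ (bigs inc).card := by
    by_contra hlt
    obtain ⟨u, v, huv, hadj⟩ := hcomp
    obtain ⟨K, hK1, hK2⟩ := hbig u
    obtain ⟨L, hL1, hL2⟩ := hbig v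
    have hKL : K = L := by
      have h1 : (bigs inc).card ≤ 1 := by omega
      rw [card_le_one] at h1
      exact h1 K (by simp [bigs, hK1]) L (by simp [bigs, hL1])
    exact hadj ((hK.adj_iff u v).2 ⟨huv, K, hK2, by rw [hKL]; exact hL2⟩)
  obtain ⟨F, hF⟩ := rowe1 V C G' inc hK hbig htwo heven
  obtain ⟨σ, hσ1, hσ2⟩ := rowe3 V C inc F hK.two hF (rowe2 V C inc F hK.two hK.ex hF.two hF.even)
  exact E4.rowE4 V G' σ h3 hσ1 fun v hv => (hK.adj_iff v (σ v)).2 ⟨hv, hσ2 v⟩

end P2

end Pool.Agent.ClawHam
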