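import Pool.Agent.Lib.MP_e2dbb5_co.P2M

/-!
# Special cases of `Phi2 G ≤ 5` (helper65)
-/

set_option autoImplicit false
set_option linter.unusedSectionVars false

open Finset

noncomputable section

namespace Pool.Agent.ClawHam

open Classical

/-- `G` is essentially 8-connected: a set of vertices which separates two edges has at least eight
elements. -/
def EssEight {V : Type} [Fintype V] (G : SimpleGraph V) : Prop :=
  ∀ S A C : Finset V, (∀ v, v ∈ S ∨ v ∈ A ∨ v ∈ C) → Disjoint A C → Disjoint A S → Disjoint C S →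
    (∃ a ∈ A, ∃ b ∈ A, G.Adj a b) → (∃ c ∈ C, ∃ d ∈ C, G.Adj c d) →
    (∀ a ∈ A, ∀ c ∈ C, ¬ G.Adj a c) → 8 ≤ S.card

namespace P2

variable {V : Type} [Fintype V]

theorem phi2_le_of_card {G : SimpleGraph V} (h : (univ.filter fun v => Special G v).card ≤ 11) :
    Phi2 G ≤ 5 := by
  have h1 : ∑ c ∈ univ.image (L2 G).connectedComponentMk,
      (univ.filter fun v => Special G v ∧ (L2 G).connectedComponentMk v = c).card =
      (univ.filter fun v => Special G v).card := by
    rw [Finset.card_eq_sum_card_fiberwise (f := (L2 G).connectedComponentMk)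
      (t := univ.image (L2 G).connectedComponentMk)]
    · refine Finset.sum_congr rfl fun c _ => ?_
      rw [Finset.filter_filter]
    · intro v _
      exact mem_coe.2 (mem_image_of_mem _ (mem_univ v))
  have h2 := SP.sum_div_le_div_sum (univ.image (L2 G).connectedComponentMk)
    (fun c => (univ.filter fun v => Special G v ∧ (L2 G).connectedComponentMk v = c).card)
  unfold Phi2
  rw [h1] at h2
  omega

theorem phi2_eq_zero {G : SimpleGraph V} (h : ∀ u v, Special G u → ¬ (L2 G).Adj u v) :
    Phi2 G = 0 := by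
  unfold Phi2
  refine Finset.sum_eq_zero fun c _ => ?_
  have h1 : (univ.filter fun v => Special G v ∧ (L2 G).connectedComponentMk v = c).card ≤ 1 := by
    rw [card_le_one]
    intro u hu v hv
    obtain ⟨hu1, hu2⟩ := (mem_filter.1 hu).2
    obtain ⟨-, hv2⟩ := (mem_filter.1 hv).2
    have h2 : (L2 G).Reachable u v := SimpleGraph.ConnectedComponent.exact (hu2.trans hv2.symm)
    obtain ⟨p⟩ := h2
    cases p with
    | nil => rfl
    | cons hab _ => exact absurd hab (h _ _ hu1)
  omega

theorem special_deg {G : SimpleGraph V} {v : V} (h : Special G v) :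
    (G.neighborSet v).ncard = 5 := by
  obtain ⟨a, b, c, y, z, hab, hac, hbc, hyz, ⟨hay, haz⟩, ⟨hby, hbz⟩, -, hv⟩ := h
  have nay : a ≠ y := by
    rintro rfl
    exact hby hab.symm
  have naz : a ≠ z := by
    rintro rfl
    exact hbz hab.symm
  have nby : b ≠ y := by
    rintro rfl
    exact hay hab
  have nbz : b ≠ z := by
    rintro rfl
    exact haz hab
  have ncy : c ≠ y := by
    rintro rfl
    exact hay hac
  have ncz : c ≠ z := by
    rintro rfl
    exact haz hac
  have h1 : G.neighborSet v = (({a, b, c, y, z} : Finset V) : Set V) := by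
    ext w
    simp only [SimpleGraph.mem_neighborSet, coe_insert, coe_singleton, Set.mem_insert_iff,
      Set.mem_singleton_iff]
    exact hv w
  rw [h1, Set.ncard_coe_finset, card_insert_of_notMem, card_insert_of_notMem,
    card_insert_of_notMem, card_pair hyz.ne]
  · simp [ncy, ncz]
  · simp [hbc.ne, nby, nbz]
  · simp [hab.ne, hac.ne, nay, naz]

/-- an essentially 8-connected claw-free graph of minimum degree at least five -/
theorem phi2_of_essEight {G : SimpleGraph V} (hclaw : ClawFree G)
    (h5 : ∀ v, 5 ≤ (univ.filter fun w => G.Adj v w).card) (hE : EssEight G) : Phi2 G ≤ 5 := by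
  by_cases h0 : ∀ u v, Special G u → ¬ (L2 G).Adj u v
  · rw [phi2_eq_zero h0]
    omega
  push Not at h0
  obtain ⟨u, v, hu, hadj, -, hv6, hcn⟩ := h0
  have hu5 := special_deg hu
  rw [SP.MP.ncard_nbr] at hu5 hv6
  have hcn' : ((univ.filter fun w => G.Adj u w) ∩ univ.filter fun w => G.Adj v w).card = 2 := by
    rw [← hcn, ← Set.ncard_coe_finset]
    congr 1
    ext w
    simp only [coe_inter, coe_filter, mem_univ, true_and]
    rfl
  set U := (univ.filter fun w => G.Adj u w) ∪ univ.filter fun w => G.Adj v w with hU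
  have hUc : U.card ≤ 9 := by
    have h1 := card_union_add_card_inter (univ.filter fun w => G.Adj u w)
      (univ.filter fun w => G.Adj v w)
    rw [← hU] at h1
    omega
  have huU : u ∈ U := mem_union_right _ (mem_filter.2 ⟨mem_univ _, hadj.symm⟩)
  have hvU : v ∈ U.erase u := mem_erase.2 ⟨hadj.ne', mem_union_left _
    (mem_filter.2 ⟨mem_univ _, hadj⟩)⟩
  set S := (U.erase u).erase v with hS
  have hSc : S.card ≤ 7 := by
    rw [hS, card_erase_of_mem hvU, card_erase_of_mem huU]
    omega
  set C := univ.filter fun w => w ∉ U ∧ w ≠ u ∧ w ≠ v with hC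
  have hmS : ∀ w, w ∈ S ↔ w ≠ v ∧ w ≠ u ∧ (G.Adj u w ∨ G.Adj v w) := by
    intro w
    rw [hS, mem_erase, mem_erase, hU, mem_union, mem_filter, mem_filter]
    simp only [mem_univ, true_and]
  have hmC : ∀ w, w ∈ C ↔ ¬ G.Adj u w ∧ ¬ G.Adj v w ∧ w ≠ u ∧ w ≠ v := by
    intro w
    rw [hC, mem_filter, hU, mem_union, mem_filter, mem_filter]
    simp only [mem_univ, true_and]
    tauto
  have hall : ∀ w, w ∈ S ∨ w ∈ ({u, v} : Finset V) ∨ w ∈ C := by
    intro w
    rw [hmS, hmC, mem_insert, mem_singleton]
    tauto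
  have hAC : Disjoint ({u, v} : Finset V) C := by
    rw [Finset.disjoint_left]
    intro w h1 h2
    rw [mem_insert, mem_singleton] at h1
    rw [hmC] at h2
    tauto
  have hAS : Disjoint ({u, v} : Finset V) S := by
    rw [Finset.disjoint_left]
    intro w h1 h2
    rw [mem_insert, mem_singleton] at h1
    rw [hmS] at h2
    tauto
  have hCS : Disjoint C S := by
    rw [Finset.disjoint_left]
    intro w h1 h2
    rw [hmC] at h1
    rw [hmS] at h2
    tauto
  -- no edges in `C`
  have hCi : ∀ c ∈ C, ∀ d ∈ C, ¬ G.Adj c d := by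
    intro c hc d hd hcd
    have h1 := hE S {u, v} C hall hAC hAS hCS ⟨u, by simp, v, by simp, hadj⟩ ⟨c, hc, d, hd, hcd⟩
      (by
        intro a ha c hc
        rw [mem_insert, mem_singleton] at ha
        rw [hmC] at hc
        rcases ha with rfl | rfl
        · exact hc.1
        · exact hc.2.1)
    omega
  have hCS' : ∀ c ∈ C, (univ.filter fun w => G.Adj c w) ⊆ S := by
    intro c hc w hw
    have hcw : G.Adj c w := (mem_filter.1 hw).2
    rcases hall w with h | h | h
    · exact h
    · rw [mem_insert, mem_singleton] at h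
      rw [hmC] at hc
      rcases h with rfl | rfl
      · exact absurd hcw.symm hc.1
      · exact absurd hcw.symm hc.2.1
    · exact absurd hcw (hCi c hc w h)
  have hC2 : C.card ≤ 2 := by
    by_contra hlt
    obtain ⟨c1, hc1, c2, hc2, c3, hc3, h12, h13, h23⟩ := Finset.two_lt_card.1 (not_le.1 hlt)
    set N1 := univ.filter fun w => G.Adj c1 w with hN1
    set N2 := univ.filter fun w => G.Adj c2 w with hN2
    set N3 := univ.filter fun w => G.Adj c3 w with hN3
    have e1 := card_union_add_card_inter N1 N2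
    have e2 := card_union_add_card_inter (N1 ∩ N2) N3
    have e3 : (N1 ∪ N2).card ≤ S.card :=
      card_le_card (union_subset (hCS' c1 hc1) (hCS' c2 hc2))
    have e4 : (N1 ∩ N2 ∪ N3).card ≤ S.card :=
      card_le_card (union_subset (inter_subset_left.trans (hCS' c1 hc1)) (hCS' c3 hc3))
    have f1 : 5 ≤ N1.card := h5 c1
    have f2 : 5 ≤ N2.card := h5 c2
    have f3 : 5 ≤ N3.card := h5 c3
    obtain ⟨s, hs⟩ := card_pos.1 (show 0 < (N1 ∩ N2 ∩ N3).card by omega)
    rw [mem_inter, mem_inter, hN1, hN2, hN3, mem_filter, mem_filter, mem_filter] at hs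
    obtain ⟨⟨⟨-, g1⟩, -, g2⟩, -, g3⟩ := hs
    rcases hclaw s c1 c2 c3 g1.symm g2.symm g3.symm h12 h13 h23 with h | h | h
    · exact hCi _ hc1 _ hc2 h
    · exact hCi _ hc1 _ hc3 h
    · exact hCi _ hc2 _ hc3 h
  refine phi2_le_of_card (le_trans (card_filter_le _ _) ?_)
  have h1 : (univ : Finset V) ⊆ S ∪ ({u, v} ∪ C) := by
    intro w _
    rw [mem_union, mem_union]
    exact hall w
  have h2 := card_le_card h1
  have h3 := card_union_le S ({u, v} ∪ C)
  have h4 := card_union_le ({u, v} : Finset V) C
  have h6 : ({u, v} : Finset V).card ≤ 2 := card_le_two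
  omega

/-- the same for graphs without small cuts -/
theorem phi2_of_ess {G : SimpleGraph V} (hN : NoSmallCut G) (hclaw : ClawFree G)
    (hE : EssEight G) : Phi2 G ≤ 5 := by
  by_cases hcomp : ∀ u v, u ≠ v → G.Adj u v
  · refine phi2_le_of_card ?_
    have h1 : (univ.filter fun v => Special G v) = ∅ := by
      rw [filter_eq_empty_iff]
      rintro v - ⟨a, b, c, y, z, hab, hac, hbc, hyz, ⟨hay, haz⟩, ⟨hby, hbz⟩, -, hv⟩
      refine hay (hcomp a y ?_)
      rintro rfl
      exact hby hab.symm
    rw [h1, card_empty]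
    omega
  · push Not at hcomp
    exact phi2_of_essEight hclaw (five_le_deg hN hcomp) hE

end P2

end Pool.Agent.ClawHam
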