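import Pool.Agent.Lib.MP_e2dbb5_co.TK3

/-!
# The certificate PROP (helper7, typed by helper69)

A spanning tree of picks; the free hyperedges are full; a hyperedge of the tree whose pick lies
inside a class is joined to this class. If everything is joined, the hypergraph has a connected
even choice.
-/

set_option autoImplicit false

open Finset

noncomputable section

namespace Pool.Agent.ClawHam.TK

open Classical

variable {B I : Type} [Fintype B] [Fintype I]

/-- `X` is crossed neither by a free hyperedge nor by a hyperedge of `A` -/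
def Clo (e : I → Finset B) (J A : Finset I) (X : Finset B) : Prop :=
  ∀ i, (i ∉ J ∨ i ∈ A) → ¬ Crosses (e i) X

/-- propagation: a hyperedge of the tree whose pick lies inside a class is joined to the class -/
inductive Der (e f : I → Finset B) (J : Finset I) : Finset I → Prop
  | nil : Der e f J ∅
  | step {A : Finset I} {i : I} : Der e f J A → i ∈ J → i ∉ A →
      (∀ X, Clo e J A X → ¬ Crosses (f i) X) → Der e f J (insert i A)

/-- the vector of the degrees -/
def dg (f : I → Finset B) (K : B) : ZMod 2 := ∑ i, ind (f i) K

theorem Clo.compl {e : I → Finset B} {J A : Finset I} {X : Finset B} (h : Clo e J A X) :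
    Clo e J A Xᶜ := fun i hi hc => h i hi (crosses_compl_iff.1 hc)

theorem Clo.union {e : I → Finset B} {J A : Finset I} {X Y : Finset B} (hX : Clo e J A X)
    (hY : Clo e J A Y) : Clo e J A (X ∪ Y) := by
  intro i hi
  rw [not_crosses_iff]
  rcases not_crosses_iff.1 (hX i hi) with h1 | h1
  · left; exact h1.trans subset_union_left
  · rcases not_crosses_iff.1 (hY i hi) with h2 | h2
    · left; exact h2.trans subset_union_right
    · right
      intro a ha hc
      rcases mem_union.1 hc with h | h
      · exact h1 a ha h
      · exact h2 a ha h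

theorem Clo.sdiff {e : I → Finset B} {J A : Finset I} {X Y : Finset B} (hX : Clo e J A X)
    (hY : Clo e J A Y) : Clo e J A (X \ Y) := by
  have h1 : X \ Y = (Xᶜ ∪ Y)ᶜ := by
    ext z
    simp only [mem_sdiff, mem_compl, mem_union, not_or, not_not]
  rw [h1]
  exact (hX.compl.union hY).compl

/-- the class of `c` -/
def cls (e : I → Finset B) (J A : Finset I) (c : B) : Finset B :=
  univ.filter fun x => ∀ X, Clo e J A X → c ∈ X → x ∈ X

theorem cls_clo (e : I → Finset B) (J A : Finset I) (c : B) : Clo e J A (cls e J A c) := by
  rintro i hi ⟨⟨x, hx, hxL⟩, y, hy, hyL⟩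
  unfold cls at hxL hyL
  rw [mem_filter] at hxL
  have h1 : ¬ ∀ X, Clo e J A X → c ∈ X → y ∈ X := fun h => hyL (mem_filter.2 ⟨mem_univ _, h⟩)
  push Not at h1
  obtain ⟨X, hX, hcX, hyX⟩ := h1
  exact hX i hi ⟨⟨x, hx, hxL.2 X hX hcX⟩, y, hy, hyX⟩

theorem self_mem_cls (e : I → Finset B) (J A : Finset I) (c : B) : c ∈ cls e J A c :=
  mem_filter.2 ⟨mem_univ _, fun _ _ h => h⟩

theorem cls_sub {e : I → Finset B} {J A : Finset I} {c : B} {X : Finset B} (hX : Clo e J A X)
    (hc : c ∈ X) : cls e J A c ⊆ X := fun _ hx => (mem_filter.1 hx).2 X hX hc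

theorem cls_disj {e : I → Finset B} {J A : Finset I} {c : B} {X : Finset B} (hX : Clo e J A X)
    (hc : c ∉ X) : Disjoint X (cls e J A c) := by
  rw [Finset.disjoint_left]
  intro x hx hxL
  have h1 := cls_sub hX.compl (mem_compl.2 hc) hxL
  exact (mem_compl.1 h1) hx

/-- parity of the classes before and after a propagation -/
theorem even_split {e : I → Finset B} {J A : Finset I} {i : I} {s : Finset B} {c : B}
    (hc : c ∈ e i) (he : ∀ z ∈ e i, z ∈ s ∨ z = c)
    (hins : ∀ X, Clo e J A X → ¬ Crosses s X) {d : B → ZMod 2}
    (h1 : ∀ X, Clo e J (insert i A) X → ∑ K ∈ X, d K = 0)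
    (hL : ∑ K ∈ cls e J A c, d K = 0) : ∀ X, Clo e J A X → ∑ K ∈ X, d K = 0 := by
  have hins' : ∀ X, Clo e J A X → ¬ Crosses (e i) X → Clo e J (insert i A) X := by
    intro X hX hi j hj
    rcases hj with hj | hj
    · exact hX j (Or.inl hj)
    · rcases mem_insert.1 hj with rfl | hj
      · exact hi
      · exact hX j (Or.inr hj)
  intro X hX
  by_cases hcr : Crosses (e i) X
  · by_cases hcX : c ∈ X
    · have hs : ∀ a ∈ s, a ∉ X := by
        rcases not_crosses_iff.1 (hins X hX) with h | h
        · exfalso
          obtain ⟨-, b, hb, hbX⟩ := hcr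
          rcases he b hb with h' | rfl
          · exact hbX (h h')
          · exact hbX hcX
        · exact h
      have h2 : Clo e J (insert i A) (X \ cls e J A c) := by
        apply hins' _ (hX.sdiff (cls_clo e J A c))
        rw [not_crosses_iff]
        right
        intro a ha haX
        rw [mem_sdiff] at haX
        rcases he a ha with h' | rfl
        · exact hs a h' haX.1
        · exact haX.2 (self_mem_cls e J A _)
      have h3 := Finset.sum_sdiff (cls_sub hX hcX) (f := d)
      rw [h1 _ h2, hL, add_zero] at h3
      exact h3.symm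
    · have hs : s ⊆ X := by
        rcases not_crosses_iff.1 (hins X hX) with h | h
        · exact h
        · exfalso
          obtain ⟨⟨a, ha, haX⟩, -⟩ := hcr
          rcases he a ha with h' | rfl
          · exact h a h' haX
          · exact hcX haX
      have h2 : Clo e J (insert i A) (X ∪ cls e J A c) := by
        apply hins' _ (hX.union (cls_clo e J A c))
        rw [not_crosses_iff]
        left
        intro a ha
        rcases he a ha with h' | rfl
        · exact mem_union_left _ (hs h')
        · exact mem_union_right _ (self_mem_cls e J A _)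
      have h3 := Finset.sum_union (cls_disj hX hcX) (f := d)
      rw [h1 _ h2, hL, add_zero] at h3
      exact h3.symm
  · exact h1 X (hins' X hX hcr)

/-! ### Free hyperedges -/

/-- the vector `d` is a sum of picks of free hyperedges -/
def Wd (e : I → Finset B) (J : Finset I) (d : B → ZMod 2) : Prop :=
  ∃ h : I → Finset B, Pick e h ∧ (∀ i ∈ J, h i = ∅) ∧ ∀ K, ∑ i, ind (h i) K = d K

theorem ind_empty (K : B) : ind (∅ : Finset B) K = 0 := by simp [ind]

theorem Wd.zero (e : I → Finset B) (J : Finset I) : Wd e J fun _ => 0 :=
  ⟨fun _ => ∅, fun _ => ⟨empty_subset _, Or.inl rfl⟩, fun _ _ => rfl, fun K => by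
    simp [ind_empty]⟩

theorem Wd.add {e : I → Finset B} {J : Finset I} (h3 : ∀ i, (e i).card ≤ 3) {d d' : B → ZMod 2}
    (h : Wd e J d) (h' : Wd e J d') : Wd e J fun K => d K + d' K := by
  obtain ⟨p, hp, hpJ, hpd⟩ := h
  obtain ⟨q, hq, hqJ, hqd⟩ := h'
  refine ⟨fun i => symmDiff (p i) (q i), ?_, ?_, ?_⟩
  · intro i
    refine ⟨?_, ?_⟩
    · intro z hz
      simp only [Finset.mem_symmDiff] at hz
      rcases hz with hz | hz
      · exact (hp i).1 hz.1
      · exact (hq i).1 hz.1
    · rcases (hq i).2 with h1 | h1
      · simp only [h1]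
        rw [← Finset.bot_eq_empty, symmDiff_bot]
        exact (hp i).2
      · exact symmDiff_small (hp i).2 h1 (hp i).1 (hq i).1 (h3 i)
  · intro i hi
    simp only [hpJ i hi, hqJ i hi, symmDiff_self, Finset.bot_eq_empty]
  · intro K
    show ∑ i, ind (symmDiff (p i) (q i)) K = d K + d' K
    rw [← hpd K, ← hqd K, ← Finset.sum_add_distrib]
    exact Finset.sum_congr rfl fun i _ => ind_symmDiff _ _ K

theorem Wd.pair {e : I → Finset B} {J : Finset I} (h3 : ∀ i, (e i).card ≤ 3) {i : I}
    (hi : i ∉ J) {u v : B} (hu : u ∈ e i) (hv : v ∈ e i) :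
    Wd e J fun K => ind {u} K + ind {v} K := by
  by_cases huv : u = v
  · subst huv
    have := Wd.zero e J
    simp only [zadd]
    exact this
  · refine ⟨Function.update (fun _ => ∅) i (symmDiff ∅ {u, v}), ?_, ?_, ?_⟩
    · have h0 : Pick e (fun _ : I => (∅ : Finset B)) := fun _ => ⟨empty_subset _, Or.inl rfl⟩
      exact pick_step h0 hu hv huv (h3 i)
    · intro j hj
      have hji : j ≠ i := by rintro rfl; exact hi hj
      rw [Function.update_of_ne hji]
    · intro K
      have h1 := sum_update (fun _ : I => (∅ : Finset B)) i {u, v} K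
      simp only [ind_empty, Finset.sum_const_zero, zero_add] at h1
      rw [h1]
      exact ind_pair huv K

theorem Wd.sum {e : I → Finset B} {J : Finset I} {d : B → ZMod 2} (h : Wd e J d) {X : Finset B}
    (hX : Clo e J ∅ X) : ∑ K ∈ X, d K = 0 := by
  obtain ⟨p, hp, hpJ, hpd⟩ := h
  have h1 : ∑ K ∈ X, d K = ∑ i, ∑ K ∈ X, ind (p i) K := by
    rw [Finset.sum_comm]
    exact Finset.sum_congr rfl fun K _ => (hpd K).symm
  rw [h1]
  apply Finset.sum_eq_zero
  intro i _
  rw [sum_ind]
  apply card_inter_even (hp i).2
  by_cases hi : i ∈ J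
  · rw [hpJ i hi]
    rintro ⟨⟨a, ha, -⟩, -⟩
    simp at ha
  · rintro ⟨⟨a, ha, haX⟩, b, hb, hbX⟩
    exact hX i (Or.inl hi) ⟨⟨a, (hp i).1 ha, haX⟩, b, (hp i).1 hb, hbX⟩

theorem z2 : ∀ a : ZMod 2, a ≠ 0 → a = 1 := by decide

/-- a vector which is even on every class is a sum of picks of free hyperedges -/
theorem join_base {e : I → Finset B} {J : Finset I} (h3 : ∀ i, (e i).card ≤ 3) :
    ∀ (n : ℕ) (d : B → ZMod 2), (univ.filter fun K => d K ≠ 0).card = n →
      (∀ X, Clo e J ∅ X → ∑ K ∈ X, d K = 0) → Wd e J d := by
  intro n
  induction n using Nat.strong_induction_on with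
  | _ n ih =>
    intro d hn hd
    by_cases h0 : ∀ K, d K = 0
    · have h1 : d = fun _ => 0 := funext h0
      rw [h1]
      exact Wd.zero e J
    · push Not at h0
      obtain ⟨x, hx⟩ := h0
      set R : Finset B := univ.filter fun y => Wd e J (fun K => ind {x} K + ind {y} K) with hR
      have hxR : x ∈ R := by
        rw [hR, mem_filter]
        refine ⟨mem_univ _, ?_⟩
        simp only [zadd]
        exact Wd.zero e J
      have hRc : Clo e J ∅ R := by
        rintro i hi ⟨⟨u, hu, huR⟩, v, hv, hvR⟩
        have hi' : i ∉ J := by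
          rcases hi with hi | hi
          · exact hi
          · simp at hi
        apply hvR
        rw [hR, mem_filter] at huR ⊢
        refine ⟨mem_univ _, ?_⟩
        have h1 := huR.2.add h3 (Wd.pair h3 hi' hu hv)
        have h2 : (fun K => ind {x} K + ind {u} K + (ind {u} K + ind {v} K))
            = fun K => ind {x} K + ind {v} K := by
          funext K
          have := zadd (ind {u} K)
          linear_combination this
        rw [h2] at h1
        exact h1
      have h1 := hd R hRc
      have h2 : ∃ y ∈ R, y ≠ x ∧ d y ≠ 0 := by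
        by_contra hcon
        push Not at hcon
        rw [Finset.sum_eq_single x (fun y hy hyx => hcon y hy hyx)
          (fun h => absurd hxR h)] at h1
        exact hx h1
      obtain ⟨y, hyR, hyx, hy⟩ := h2
      rw [hR, mem_filter] at hyR
      have hxy := hyR.2
      set d' : B → ZMod 2 := fun K => d K + (ind {x} K + ind {y} K) with hd'
      have h4 : ∀ X, Clo e J ∅ X → ∑ K ∈ X, d' K = 0 := by
        intro X hX
        rw [hd']
        simp only
        rw [Finset.sum_add_distrib, hd X hX, hxy.sum hX, add_zero]
      have hx1 : d' x = 0 := by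
        rw [hd']
        simp only [ind, mem_singleton, if_true]
        rw [if_neg (fun h => hyx h.symm), z2 _ hx]
        decide
      have hsub : (univ.filter fun K => d' K ≠ 0) ⊆ (univ.filter fun K => d K ≠ 0).erase x := by
        intro K hK
        rw [mem_filter] at hK
        have hKx : K ≠ x := by
          rintro rfl
          exact hK.2 hx1
        rw [mem_erase, mem_filter]
        refine ⟨hKx, mem_univ _, ?_⟩
        by_cases hKy : K = y
        · subst hKy; exact hy
        · intro h0
          apply hK.2
          rw [hd']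
          simp only [ind, mem_singleton]
          rw [if_neg hKx, if_neg hKy, h0]
          decide
      have hcard : (univ.filter fun K => d' K ≠ 0).card < n := by
        have h5 := card_le_card hsub
        have hxm : x ∈ univ.filter fun K => d K ≠ 0 := mem_filter.2 ⟨mem_univ _, hx⟩
        rw [card_erase_of_mem hxm] at h5
        have h6 : 0 < (univ.filter fun K => d K ≠ 0).card :=
          card_pos.2 ⟨x, mem_filter.2 ⟨mem_univ _, hx⟩⟩
        omega
      have h7 := (ih _ hcard d' rfl h4).add h3 hxy
      have h8 : (fun K => d' K + (ind {x} K + ind {y} K)) = d := by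
        funext K
        rw [hd']
        have := zadd (ind {x} K + ind {y} K)
        linear_combination this
      rw [h8] at h7
      exact h7

/-! ### The descent -/

theorem down {e f : I → Finset B} {J A : Finset I} (h3 : ∀ i, (e i).card ≤ 3)
    (hA : Der e f J A) : ∀ g : I → Finset B, Tree g J → Pick e g → (∀ i, i ∉ J → g i = ∅) →
      (∀ i ∈ A, g i = f i) → (∀ X, Clo e J A X → ∑ K ∈ X, dg g K = 0) →
      ∃ g' : I → Finset B, Tree g' J ∧ Pick e g' ∧ (∀ i, i ∉ J → g' i = ∅) ∧
        ∀ X, Clo e J ∅ X → ∑ K ∈ X, dg g' K = 0 := by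
  induction hA with
  | nil => intro g hT hP hfree _ hev; exact ⟨g, hT, hP, hfree, hev⟩
  | @step A i hA hiJ hiA hins ih =>
    intro g hT hP hfree hgA hev
    have hgi : g i = f i := hgA i (mem_insert_self _ _)
    have hg2 : (g i).card = 2 := hT.two i hiJ
    by_cases hc : e i ⊆ g i
    · apply ih g hT hP hfree (fun j hj => hgA j (mem_insert_of_mem hj))
      intro X hX
      apply hev
      intro j hj
      rcases hj with hj | hj
      · exact hX j (Or.inl hj)
      · rcases mem_insert.1 hj with rfl | hj
        · rintro ⟨⟨a, ha, haX⟩, b, hb, hbX⟩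
          apply hins X hX
          rw [← hgi]
          exact ⟨⟨a, hc ha, haX⟩, b, hc hb, hbX⟩
        · exact hX j (Or.inr hj)
    · obtain ⟨c, hce, hcg⟩ := Finset.not_subset.1 hc
      have hei : e i = insert c (g i) := by
        symm
        apply Finset.eq_of_subset_of_card_le
        · exact insert_subset hce (hP i).1
        · rw [card_insert_of_notMem hcg, hg2]
          exact h3 i
      have he : ∀ z ∈ e i, z ∈ g i ∨ z = c := by
        intro z hz
        rw [hei, mem_insert] at hz
        exact hz.symm
      have hins' : ∀ X, Clo e J A X → ¬ Crosses (g i) X := by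
        rw [hgi]; exact hins
      by_cases hp : ∑ K ∈ cls e J A c, dg g K = 0
      · exact ih g hT hP hfree (fun j hj => hgA j (mem_insert_of_mem hj))
          (even_split hce he hins' hev hp)
      · -- the new pick
        obtain ⟨D, hD⟩ := hT.exists_cut hiJ
        have hw : ∃ w w' : B, g i = {w, w'} ∧ w ≠ w' ∧ Crosses {c, w} D := by
          obtain ⟨x, y, hx, hy, hxy, hs⟩ := pair_crosses hg2 hD.1
          by_cases hcD : c ∈ D
          · exact ⟨y, x, by rw [hs, pair_comm], hxy.symm, ⟨c, by simp, hcD⟩, y, by simp, hy⟩
          · exact ⟨x, y, hs, hxy, ⟨x, by simp, hx⟩, c, by simp, hcD⟩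
        obtain ⟨w, w', hgw, hww, hcw⟩ := hw
        have hcw1 : c ≠ w := by rintro rfl; exact hcg (by rw [hgw]; simp)
        have hcw2 : c ≠ w' := by rintro rfl; exact hcg (by rw [hgw]; simp)
        have hwe : w ∈ e i := (hP i).1 (by rw [hgw]; simp)
        have hwe' : w' ∈ e i := (hP i).1 (by rw [hgw]; simp)
        have hsd : symmDiff (g i) {c, w'} = {c, w} := by
          rw [hgw]
          ext z
          simp only [Finset.mem_symmDiff, mem_insert, mem_singleton]
          constructor
          · rintro (⟨h1 | h1, h2⟩ | ⟨h1 | h1, h2⟩)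
            · exact Or.inr h1
            · exact absurd (Or.inr h1) h2
            · exact Or.inl h1
            · exact absurd (Or.inr h1) h2
          · rintro (h1 | h1)
            · right
              refine ⟨Or.inl h1, ?_⟩
              rintro (h2 | h2)
              · exact hcw1 (h1.symm.trans h2)
              · exact hcw2 (h1.symm.trans h2)
            · left
              refine ⟨Or.inl h1, ?_⟩
              rintro (h2 | h2)
              · exact hcw1 (h2.symm.trans h1)
              · exact hww (h1.symm.trans h2)
        set g1 := Function.update g i (symmDiff (g i) {c, w'}) with hg1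
        have hP1 : Pick e g1 := pick_step hP hce hwe' hcw2 (h3 i)
        have hT1 : Tree g1 J := by
          have h4 := hT.exchange (f' := g1) (g := i) hiJ hD
            (fun j _ hji => by rw [hg1, Function.update_of_ne hji]) (Or.inl rfl)
            (by rw [hg1, Function.update_self, hsd, card_pair hcw1])
            (by rw [hg1, Function.update_self, hsd]; exact hcw)
          rwa [insert_erase hiJ] at h4
        have hfree1 : ∀ j, j ∉ J → g1 j = ∅ := by
          intro j hj
          have hji : j ≠ i := by rintro rfl; exact hj hiJ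
          rw [hg1, Function.update_of_ne hji]
          exact hfree j hj
        have hgA1 : ∀ j ∈ A, g1 j = f j := by
          intro j hj
          have hji : j ≠ i := by rintro rfl; exact hiA hj
          rw [hg1, Function.update_of_ne hji]
          exact hgA j (mem_insert_of_mem hj)
        have hdg : ∀ K, dg g1 K = dg g K + (ind {c} K + ind {w'} K) := by
          intro K
          unfold dg
          rw [hg1, sum_update, ind_pair hcw2]
        have hsum : ∀ X : Finset B, ∑ K ∈ X, dg g1 K = ∑ K ∈ X, dg g K
            + ((if c ∈ X then 1 else 0) + (if w' ∈ X then 1 else 0)) := by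
          intro X
          rw [Finset.sum_congr rfl fun K _ => hdg K, Finset.sum_add_distrib,
            Finset.sum_add_distrib, ind_singleton_sum, ind_singleton_sum]
        have hev1 : ∀ X, Clo e J (insert i A) X → ∑ K ∈ X, dg g1 K = 0 := by
          intro X hX
          rw [hsum, hev X hX, zero_add]
          have h4 := hX i (Or.inr (mem_insert_self _ _))
          rcases not_crosses_iff.1 h4 with h5 | h5
          · rw [if_pos (h5 hce), if_pos (h5 hwe')]; decide
          · rw [if_neg (h5 c hce), if_neg (h5 w' hwe')]; decide
        have hcL := self_mem_cls e J A c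
        have hw'L : w' ∉ cls e J A c := by
          intro h5
          apply hp
          apply hev
          intro j hj
          rcases hj with hj | hj
          · exact cls_clo e J A c j (Or.inl hj)
          · rcases mem_insert.1 hj with rfl | hj
            · rw [not_crosses_iff]
              left
              intro z hz
              rcases he z hz with h6 | rfl
              · rcases not_crosses_iff.1 (hins' _ (cls_clo e J A c)) with h7 | h7
                · exact h7 h6
                · exact absurd h5 (h7 w' (by rw [hgw]; simp))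
              · exact hcL
            · exact cls_clo e J A c j (Or.inr hj)
        have hL1 : ∑ K ∈ cls e J A c, dg g1 K = 0 := by
          rw [hsum, if_pos hcL, if_neg hw'L, z2 _ hp]
          decide
        have he1 : ∀ X, Clo e J A X → ∑ K ∈ X, dg g1 K = 0 :=
          even_split hce he hins' hev1 hL1
        exact ih g1 hT1 hP1 hfree1 hgA1 he1

/-- **PROP**: propagation to everything gives a connected even choice. -/
theorem evenConn_of_prop {e f : I → Finset B} {J A : Finset I} (h3 : ∀ i, (e i).card ≤ 3)
    (hT : Tree f J) (hsub : ∀ i ∈ J, f i ⊆ e i) (hA : Der e f J A)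
    (hfull : ∀ X, Clo e J A X → X = ∅ ∨ X = univ) : EvenConn univ e := by
  set g : I → Finset B := fun i => if i ∈ J then f i else ∅ with hg
  have hgJ : ∀ i ∈ J, g i = f i := fun i hi => by rw [hg]; simp only [if_pos hi]
  have hgf : ∀ i, i ∉ J → g i = ∅ := fun i hi => by rw [hg]; simp only [if_neg hi]
  have hTg : Tree g J := by
    refine ⟨fun i hi => by rw [hgJ i hi]; exact hT.two i hi, ?_, hT.card⟩
    intro X hX hX'
    obtain ⟨i, hi, hc⟩ := hT.conn X hX hX'
    exact ⟨i, hi, by rw [hgJ i hi]; exact hc⟩
  have hPg : Pick e g := by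
    intro i
    by_cases hi : i ∈ J
    · rw [hgJ i hi]
      exact ⟨hsub i hi, Or.inr (hT.two i hi)⟩
    · rw [hgf i hi]
      exact ⟨empty_subset _, Or.inl rfl⟩
  have hAJ : ∀ A, Der e f J A → A ⊆ J := by
    intro A hA
    induction hA with
    | nil => exact empty_subset _
    | step _ hi _ _ ih => exact insert_subset hi ih
  have hev : ∀ X, Clo e J A X → ∑ K ∈ X, dg g K = 0 := by
    intro X hX
    rcases hfull X hX with rfl | rfl
    · simp
    · unfold dg
      rw [Finset.sum_comm]
      apply Finset.sum_eq_zero
      intro i _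
      rw [sum_ind]
      apply card_inter_even (hPg i).2
      rintro ⟨-, b, -, hb⟩
      exact hb (mem_univ b)
  obtain ⟨g', hT', hP', hfree', hev'⟩ := down h3 hA g hTg hPg hgf
    (fun i hi => hgJ i (hAJ A hA hi)) hev
  obtain ⟨h, hPh, hhJ, hhd⟩ := join_base h3 _ (dg g') rfl hev'
  refine ⟨fun i => if i ∈ J then g' i else h i, ?_, ?_, ?_⟩
  · intro i
    by_cases hi : i ∈ J
    · simp only [if_pos hi]; exact hP' i
    · simp only [if_neg hi]; exact hPh i
  · intro K
    have h5 : ∑ i, ind (if i ∈ J then g' i else h i) K = 0 := by
      have h6 : ∀ i, ind (if i ∈ J then g' i else h i) K = ind (g' i) K + ind (h i) K := by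
        intro i
        by_cases hi : i ∈ J
        · rw [if_pos hi, hhJ i hi, ind_empty, add_zero]
        · rw [if_neg hi, hfree' i hi, ind_empty, zero_add]
      rw [Finset.sum_congr rfl fun i _ => h6 i, Finset.sum_add_distrib, hhd K]
      exact zadd _
    unfold ind at h5
    rw [Finset.sum_boole] at h5
    exact (ZMod.natCast_eq_zero_iff_even).1 h5
  · intro X _ hX hX'
    obtain ⟨i, hi, hc⟩ := hT'.conn X hX hX'
    exact ⟨i, by simp only [if_pos hi]; exact hc⟩

end Pool.Agent.ClawHam.TK
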