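import Pool.Agent.Lib.MP_e2dbb5_co.AG

/-!
# Robust certificates (helper69)

Every hyperedge gets one of five types: not used, a fixed pair, a vertex joined to one of two
others (free choice), a pair or nothing, an arbitrary pair or nothing. If every cut sees a hyperedge
which crosses it for all choices, and a hyperedge whose choice changes the parity of the cut, then
there are connected choices with every even set of odd vertices. The growth of one core
(helper23's C3) is a special case.
-/

set_option autoImplicit false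
set_option linter.unusedSectionVars false

open Finset

noncomputable section

namespace Pool.Agent.ClawHam

open Classical

/-- the types of a hyperedge -/
inductive RD (B : Type) : Type
  | none : RD B
  | T (a b : B) : RD B
  | J (a b c : B) : RD B
  | Q (a b : B) : RD B
  | P (a b c : B) : RD B

namespace RD

variable {B : Type}

/-- the vertices of the type belong to `e` -/
def inn (e : Finset B) : RD B → Prop
  | none => True
  | T a b => a ∈ e ∧ b ∈ e
  | J a b c => a ∈ e ∧ b ∈ e ∧ c ∈ e
  | Q a b => a ∈ e ∧ b ∈ e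
  | P a b c => a ∈ e ∧ b ∈ e ∧ c ∈ e

/-- every choice crosses `X` -/
def seesT (X : Finset B) : RD B → Prop
  | none => False
  | T a b => ¬ (a ∈ X ↔ b ∈ X)
  | J a b c => (a ∈ X ↔ b ∈ X) ∧ ¬ (a ∈ X ↔ c ∈ X)
  | Q _ _ => False
  | P _ _ _ => False

/-- the choice changes the parity at `X` -/
def seesQ (X : Finset B) : RD B → Prop
  | none => False
  | T _ _ => False
  | J a b _ => ¬ (a ∈ X ↔ b ∈ X)
  | Q a b => ¬ (a ∈ X ↔ b ∈ X)
  | P a b c => ¬ (a ∈ X ↔ b ∈ X) ∨ ¬ (b ∈ X ↔ c ∈ X)

/-- the choices -/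
def ch (x y : ZMod 2) : RD B → Finset B
  | none => ∅
  | T a b => AG.pset (a, b)
  | J a b c => if x = 0 then AG.pset (c, a) else AG.pset (c, b)
  | Q a b => AG.comb x 0 a b b
  | P a b c => AG.comb x y a b c

/-- the pairs of the toggles -/
def tog : RD B → Bool → Finset B
  | none, _ => ∅
  | T _ _, _ => ∅
  | J a b _, false => AG.pset (a, b)
  | J _ _ _, true => ∅
  | Q a b, false => AG.pset (a, b)
  | Q _ _, true => ∅
  | P a b _, false => AG.pset (a, b)
  | P _ b c, true => AG.pset (b, c)

variable [Fintype B]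

theorem tog_card (d : RD B) (k : Bool) : d.tog k = ∅ ∨ (d.tog k).card = 2 := by
  cases d <;> cases k <;> first | exact Or.inl rfl | exact AG.pset_card _

theorem ch_card (x y : ZMod 2) (d : RD B) : d.ch x y = ∅ ∨ (d.ch x y).card = 2 := by
  cases d with
  | none => exact Or.inl rfl
  | T a b => exact AG.pset_card _
  | J a b c =>
    unfold ch
    split_ifs <;> exact AG.pset_card _
  | Q a b => exact AG.comb_card _ _ _ _ _
  | P a b c => exact AG.comb_card _ _ _ _ _

theorem ch_subset (x y : ZMod 2) (d : RD B) (e : Finset B) (h : d.inn e) : d.ch x y ⊆ e := by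
  cases d with
  | none => exact Finset.empty_subset e
  | T a b => exact AG.pset_subset h.1 h.2
  | J a b c =>
    obtain ⟨ha, hb, hc⟩ := h
    unfold ch
    split_ifs
    · exact AG.pset_subset hc ha
    · exact AG.pset_subset hc hb
  | Q a b => exact AG.comb_subset _ _ h.1 h.2 h.2
  | P a b c => exact AG.comb_subset _ _ h.1 h.2.1 h.2.2

theorem ind_pset (p : B × B) (v : B) : Kx.ind (AG.pset p) v = AG.vec p v := AG.pset_vec p v

theorem ch_ind (x y : ZMod 2) (d : RD B) (v : B) :
    Kx.ind (d.ch x y) v = Kx.ind (d.ch 0 0) v +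
      (x * Kx.ind (d.tog false) v + y * Kx.ind (d.tog true) v) := by
  have h0 : Kx.ind (∅ : Finset B) v = 0 := by
    unfold Kx.ind
    rw [if_neg (Finset.notMem_empty v)]
  have hcomb : ∀ (x y : ZMod 2) (a b c : B), Kx.ind (AG.comb x y a b c) v =
      x * AG.vec (a, b) v + y * AG.vec (b, c) v := fun x y a b c => AG.comb_vec x y a b c v
  cases d with
  | none => simp only [ch, tog, h0]; ring
  | T a b => simp only [ch, tog, h0]; ring
  | J a b c =>
    simp only [ch, tog, h0, if_true, ind_pset]
    have hx : x = 0 ∨ x = 1 := by revert x; decide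
    rcases hx with rfl | rfl
    · rw [if_pos rfl, ind_pset]
      ring
    · have h5 : AG.vec (c, b) v = AG.vec (c, a) v + AG.vec (a, b) v := by
        change ((if v = c then (1 : ZMod 2) else 0) + if v = b then 1 else 0) =
          ((if v = c then 1 else 0) + if v = a then 1 else 0) +
            ((if v = a then 1 else 0) + if v = b then 1 else 0)
        generalize (if v = a then (1 : ZMod 2) else 0) = p
        generalize (if v = b then (1 : ZMod 2) else 0) = q
        generalize (if v = c then (1 : ZMod 2) else 0) = w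
        revert p q w
        decide
      rw [if_neg one_ne_zero, ind_pset, h5]
      ring
  | Q a b =>
    simp only [ch, tog, h0, hcomb, ind_pset]
    ring
  | P a b c =>
    simp only [ch, tog, hcomb, ind_pset]
    ring

theorem ch_crosses (x y : ZMod 2) (d : RD B) (X : Finset B) (h : d.seesT X) :
    Crosses (d.ch x y) X := by
  have hp : ∀ a b : B, ¬ (a ∈ X ↔ b ∈ X) → Crosses (AG.pset (a, b)) X := by
    intro a b hab
    have hne : a ≠ b := fun h1 => hab (by rw [h1])
    have h1 : AG.pset (a, b) = {a, b} := if_neg hne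
    rw [h1]
    by_cases ha : a ∈ X
    · have hb : b ∉ X := fun hb => hab ⟨fun _ => hb, fun _ => ha⟩
      exact ⟨⟨a, by simp, ha⟩, b, by simp, hb⟩
    · have hb : b ∈ X := by
        by_contra hb
        exact hab ⟨fun h2 => absurd h2 ha, fun h2 => absurd h2 hb⟩
      exact ⟨⟨b, by simp, hb⟩, a, by simp, ha⟩
  cases d with
  | none => exact h.elim
  | T a b => exact hp a b h
  | J a b c =>
    unfold ch
    split_ifs
    · exact hp c a fun h1 => h.2 h1.symm
    · exact hp c b fun h1 => h.2 (h.1.trans h1.symm)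
  | Q a b => exact h.elim
  | P a b c => exact h.elim

theorem tog_crosses (d : RD B) (X : Finset B) (h : d.seesQ X) :
    ∃ k, Crosses (d.tog k) X := by
  have hp : ∀ a b : B, ¬ (a ∈ X ↔ b ∈ X) → Crosses (AG.pset (a, b)) X := fun a b hab =>
    ch_crosses 0 0 (RD.T a b) X hab
  cases d with
  | none => exact h.elim
  | T a b => exact h.elim
  | J a b c => exact ⟨false, hp a b h⟩
  | Q a b => exact ⟨false, hp a b h⟩
  | P a b c =>
    rcases h with h | h
    · exact ⟨false, hp a b h⟩
    · exact ⟨true, hp b c h⟩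

end RD

variable {B I : Type} [Fintype B] [Fintype I]

/-- the robust certificate: every cut sees a `T` and a `Q` -/
def RCert (e : I → Finset B) : Prop :=
  ∃ d : I → RD B, (∀ i, (d i).inn (e i)) ∧
    ∀ X : Finset B, X.Nonempty → X ≠ univ → (∃ i, (d i).seesT X) ∧ ∃ i, (d i).seesQ X

/-- all parities, for given types; a hyperedge with a fixed pair gets this pair -/
theorem rd_odd (e : I → Finset B) (d : I → RD B) (hd : ∀ i, (d i).inn (e i))
    (h : ∀ X : Finset B, X.Nonempty → X ≠ univ → (∃ i, (d i).seesT X) ∧ ∃ i, (d i).seesQ X)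
    (R : Finset B) (hR : Even R.card) :
    ∃ p : I → Finset B, Pairs p ∧ (∀ i, p i ⊆ e i) ∧ Conn p ∧
      (∀ v, Odd (univ.filter fun i => v ∈ p i).card ↔ v ∈ R) ∧
      ∀ i a b, a ≠ b → d i = RD.T a b → p i = {a, b} := by
  have hcard : ∀ s : Finset B, (s = ∅ ∨ s.card = 2) → ∑ v, Kx.ind s v = 0 := by
    intro s hs
    have h1 : ∑ v, Kx.ind s v = (s.card : ZMod 2) := by
      unfold Kx.ind
      rw [Finset.sum_ite_mem, Finset.univ_inter, Finset.sum_const, nsmul_eq_mul, mul_one]
    rw [h1]
    rcases hs with hs | hs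
    · rw [hs, Finset.card_empty, Nat.cast_zero]
    · rw [hs]
      decide
  have hRs : ∑ v, Kx.ind R v = 0 := by
    have h1 : ∑ v, Kx.ind R v = (R.card : ZMod 2) := by
      unfold Kx.ind
      rw [Finset.sum_ite_mem, Finset.univ_inter, Finset.sum_const, nsmul_eq_mul, mul_one]
    rw [h1]
    exact (ZMod.natCast_eq_zero_iff_even).2 hR
  obtain ⟨s, hs⟩ := Kx.tjoin (fun j : I × Bool => (d j.1).tog j.2) (fun j => RD.tog_card _ _)
    (fun X hX hX' => by
      obtain ⟨i, hi⟩ := (h X hX hX').2
      obtain ⟨k, hk⟩ := RD.tog_crosses _ _ hi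
      exact ⟨(i, k), hk⟩)
    (fun v => Kx.ind R v + ∑ i, Kx.ind ((d i).ch 0 0) v) (by
      rw [Finset.sum_add_distrib, hRs, zero_add, Finset.sum_comm]
      exact Finset.sum_eq_zero fun i _ => hcard _ (RD.ch_card _ _ _))
  refine ⟨fun i => (d i).ch (s (i, false)) (s (i, true)), fun i => RD.ch_card _ _ _,
    fun i => RD.ch_subset _ _ _ _ (hd i), fun X hX hX' => ?_, fun v => ?_, fun i a b hab hi => ?_⟩
  · obtain ⟨i, hi⟩ := (h X hX hX').1
    exact ⟨i, RD.ch_crosses _ _ _ _ hi⟩
  · rw [← ZMod.natCast_eq_one_iff_odd]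
    have h1 : ((univ.filter fun i => v ∈ (d i).ch (s (i, false)) (s (i, true))).card : ZMod 2) =
        ∑ i, Kx.ind ((d i).ch (s (i, false)) (s (i, true))) v := by
      rw [Kx.card_cast]
      rfl
    have h2 : ∑ i, Kx.ind ((d i).ch (s (i, false)) (s (i, true))) v = Kx.ind R v := by
      have h3 := hs v
      rw [Fintype.sum_prod_type] at h3
      simp only [Fintype.sum_bool] at h3
      have h4 : ∑ i, Kx.ind ((d i).ch (s (i, false)) (s (i, true))) v =
          ∑ i, Kx.ind ((d i).ch 0 0) v + ∑ i, (s (i, true) * Kx.ind ((d i).tog true) v +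
            s (i, false) * Kx.ind ((d i).tog false) v) := by
        rw [← Finset.sum_add_distrib]
        refine Finset.sum_congr rfl fun i _ => ?_
        rw [RD.ch_ind]
        ring
      rw [h4, h3]
      have h5 : ∑ i, Kx.ind ((d i).ch 0 0) v + ∑ i, Kx.ind ((d i).ch 0 0) v = 0 :=
        CharTwo.add_self_eq_zero _
      linear_combination h5
    rw [h1, h2]
    unfold Kx.ind
    by_cases hv : v ∈ R
    · rw [if_pos hv]
      exact ⟨fun _ => hv, fun _ => rfl⟩
    · rw [if_neg hv]
      exact ⟨fun h5 => absurd h5 zero_ne_one, fun h5 => absurd h5 hv⟩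
  · change (d i).ch _ _ = _
    rw [hi]
    exact if_neg hab

/-- the robust certificate gives connected choices with every even set of odd vertices -/
theorem rcert_odd (e : I → Finset B) (h : RCert e) (R : Finset B) (hR : Even R.card) :
    ∃ p : I → Finset B, Pairs p ∧ (∀ i, p i ⊆ e i) ∧ Conn p ∧
      ∀ v, Odd (univ.filter fun i => v ∈ p i).card ↔ v ∈ R := by
  obtain ⟨d, hd, hc⟩ := h
  obtain ⟨p, h1, h2, h3, h4, -⟩ := rd_odd e d hd hc R hR
  exact ⟨p, h1, h2, h3, h4⟩

theorem evenConn_of_rcert (e : I → Finset B) (h : RCert e) : EvenConn univ e := by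
  obtain ⟨p, h1, h2, h3, h4⟩ := rcert_odd e h ∅ (by simp)
  refine ⟨p, fun i => ⟨h2 i, h1 i⟩, fun K => ?_, fun X _ hX hX' => h3 X hX hX'⟩
  rw [← Nat.not_odd_iff_even, h4]
  exact Finset.notMem_empty K

/-- growth of one core (helper23's C3): every vertex `v ≠ v₀` has its own hyperedge `g v`, which
contains `v` and an earlier vertex. The hyperedges which are not a `g v`, and the sets
`e (g v) - v` which consist of earlier vertices, connect all vertices. -/
def Cert3 (e : I → Finset B) : Prop :=
  ∃ (v₀ : B) (r : B → ℕ) (g : B → I),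
    (∀ u v, u ≠ v₀ → v ≠ v₀ → g u = g v → u = v) ∧
    (∀ v, v ≠ v₀ → v ∈ e (g v) ∧ ∃ u ∈ e (g v), r u < r v) ∧
    ∀ X : Finset B, X.Nonempty → X ≠ univ →
      (∃ i, (∀ v, v ≠ v₀ → g v ≠ i) ∧ Crosses (e i) X) ∨
      ∃ v, v ≠ v₀ ∧ (∀ u ∈ (e (g v)).erase v, r u < r v) ∧ Crosses ((e (g v)).erase v) X

omit [Fintype B] [Fintype I] in
theorem RD.seesT_compl [Fintype B] (d : RD B) (X : Finset B) (h : d.seesT Xᶜ) : d.seesT X := by
  cases d with
  | none => exact h.elim
  | T a b =>
    change ¬ (a ∈ Xᶜ ↔ b ∈ Xᶜ) at h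
    change ¬ (a ∈ X ↔ b ∈ X)
    rw [Finset.mem_compl, Finset.mem_compl, not_iff_not] at h
    exact h
  | J a b c =>
    change (a ∈ Xᶜ ↔ b ∈ Xᶜ) ∧ ¬ (a ∈ Xᶜ ↔ c ∈ Xᶜ) at h
    change (a ∈ X ↔ b ∈ X) ∧ ¬ (a ∈ X ↔ c ∈ X)
    rw [Finset.mem_compl, Finset.mem_compl, Finset.mem_compl, not_iff_not, not_iff_not] at h
    exact h
  | Q a b => exact h.elim
  | P a b c => exact h.elim

theorem rcert_of_cert3 (e : I → Finset B) (he : ∀ i, (e i).card = 2 ∨ (e i).card = 3)
    (h : Cert3 e) : RCert e := by
  obtain ⟨v₀, r, g, hg, hv, hX⟩ := h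
  have key : ∀ i, ∃ D : RD B, D.inn (e i) ∧
      (∀ v, v ≠ v₀ → g v = i → (∀ X : Finset B, v ∈ X → (∀ u, r u < r v → u ∉ X) → D.seesT X) ∧
        (∀ X : Finset B, (∀ u ∈ (e i).erase v, r u < r v) → Crosses ((e i).erase v) X →
          D.seesQ X)) ∧
      ((∀ v, v ≠ v₀ → g v ≠ i) → ∀ X : Finset B, Crosses (e i) X → D.seesQ X) := by
    intro i
    by_cases hi : ∃ v, v ≠ v₀ ∧ g v = i
    · obtain ⟨v, hv0, rfl⟩ := hi
      have huniq : ∀ w, w ≠ v₀ → g w = g v → w = v := fun w hw h => hg w v hw hv0 h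
      obtain ⟨hve, u, hu, hur⟩ := hv v hv0
      by_cases hA : (e (g v)).card = 3 ∧ ∀ u ∈ (e (g v)).erase v, r u < r v
      · have h2 : ((e (g v)).erase v).card = 2 := by
          rw [Finset.card_erase_of_mem hve, hA.1]
        obtain ⟨a, b, hab, hE⟩ := Finset.card_eq_two.1 h2
        have ha : a ∈ (e (g v)).erase v := by rw [hE]; simp
        have hb : b ∈ (e (g v)).erase v := by rw [hE]; simp
        refine ⟨RD.J a b v, ⟨Finset.mem_of_mem_erase ha, Finset.mem_of_mem_erase hb, hve⟩,
          ?_, fun h => absurd rfl (h v hv0)⟩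
        intro w hw hwg
        obtain rfl := huniq w hw hwg
        constructor
        · intro X hvX hlt
          have h3 := hlt a (hA.2 a ha)
          have h4 := hlt b (hA.2 b hb)
          exact ⟨⟨fun h => absurd h h3, fun h => absurd h h4⟩, fun h => h3 (h.2 hvX)⟩
        · intro X _ hc
          rw [hE] at hc
          obtain ⟨⟨x, hx, hxX⟩, y, hy, hyX⟩ := hc
          change ¬ (a ∈ X ↔ b ∈ X)
          intro h5
          rcases Finset.mem_insert.1 hx with hx | hx
          · rcases Finset.mem_insert.1 hy with hy | hy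
            · exact hyX (by rw [hy, ← hx]; exact hxX)
            · rw [Finset.mem_singleton.1 hy] at hyX
              rw [hx] at hxX
              exact hyX (h5.1 hxX)
          · rcases Finset.mem_insert.1 hy with hy | hy
            · rw [hy] at hyX
              rw [Finset.mem_singleton.1 hx] at hxX
              exact hyX (h5.2 hxX)
            · rw [Finset.mem_singleton.1 hx] at hxX
              rw [Finset.mem_singleton.1 hy] at hyX
              exact hyX hxX
      · refine ⟨RD.T v u, ⟨hve, hu⟩, ?_, fun h => absurd rfl (h v hv0)⟩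
        intro w hw hwg
        obtain rfl := huniq w hw hwg
        constructor
        · intro X hvX hlt
          exact fun h => hlt u hur (h.1 hvX)
        · intro X hall hc
          rcases he (g w) with h2 | h3
          · exfalso
            have h1 : ((e (g w)).erase w).card = 1 := by
              rw [Finset.card_erase_of_mem hve, h2]
            obtain ⟨a, ha⟩ := Finset.card_eq_one.1 h1
            rw [ha] at hc
            obtain ⟨⟨x, hx, hxX⟩, y, hy, hyX⟩ := hc
            rw [Finset.mem_singleton.1 hx] at hxX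
            rw [Finset.mem_singleton.1 hy] at hyX
            exact hyX hxX
          · exact absurd ⟨h3, hall⟩ hA
    · have hi' : ∀ v, v ≠ v₀ → g v ≠ i := fun v hv0 hgv => hi ⟨v, hv0, hgv⟩
      rcases he i with h2 | h3
      · obtain ⟨a, b, hab, hE⟩ := Finset.card_eq_two.1 h2
        refine ⟨RD.Q a b, ⟨by rw [hE]; simp, by rw [hE]; simp⟩,
          fun v hv0 hgv => absurd hgv (hi' v hv0), fun _ X hc => ?_⟩
        rw [hE] at hc
        obtain ⟨⟨x, hx, hxX⟩, y, hy, hyX⟩ := hc
        change ¬ (a ∈ X ↔ b ∈ X)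
        intro h5
        simp only [Finset.mem_insert, Finset.mem_singleton] at hx hy
        rcases hx with rfl | rfl <;> rcases hy with rfl | rfl
        · exact hyX hxX
        · exact hyX (h5.1 hxX)
        · exact hyX (h5.2 hxX)
        · exact hyX hxX
      · obtain ⟨a, b, c, hab, hac, hbc, hE⟩ := Finset.card_eq_three.1 h3
        refine ⟨RD.P a b c, ⟨by rw [hE]; simp, by rw [hE]; simp, by rw [hE]; simp⟩,
          fun v hv0 hgv => absurd hgv (hi' v hv0), fun _ X hc => ?_⟩
        rw [hE] at hc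
        obtain ⟨⟨x, hx, hxX⟩, y, hy, hyX⟩ := hc
        change ¬ (a ∈ X ↔ b ∈ X) ∨ ¬ (b ∈ X ↔ c ∈ X)
        by_contra h5
        push Not at h5
        obtain ⟨h5, h6⟩ := h5
        simp only [Finset.mem_insert, Finset.mem_singleton] at hx hy
        rcases hx with rfl | rfl | rfl <;> rcases hy with rfl | rfl | rfl
        · exact hyX hxX
        · exact hyX (h5.1 hxX)
        · exact hyX (h6.1 (h5.1 hxX))
        · exact hyX (h5.2 hxX)
        · exact hyX hxX
        · exact hyX (h6.1 hxX)
        · exact hyX (h5.2 (h6.2 hxX))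
        · exact hyX (h6.2 hxX)
        · exact hyX hxX
  choose D hin hused hun using key
  have hT : ∀ X : Finset B, X.Nonempty → v₀ ∉ X → ∃ i, (D i).seesT X := by
    intro X hXn h0
    obtain ⟨v, hvX, hmin⟩ := Finset.exists_min_image X r hXn
    have hv0 : v ≠ v₀ := fun h => h0 (h ▸ hvX)
    exact ⟨g v, (hused (g v) v hv0 rfl).1 X hvX fun u hu huX => absurd (hmin u huX) (by omega)⟩
  refine ⟨D, hin, fun X hXn hXu => ⟨?_, ?_⟩⟩
  · by_cases h0 : v₀ ∈ X
    · have h1 : (Xᶜ).Nonempty := by
        rw [Finset.nonempty_iff_ne_empty]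
        intro h2
        apply hXu
        rw [← compl_compl X, h2, Finset.compl_empty]
      obtain ⟨i, hi⟩ := hT Xᶜ h1 (by simp [h0])
      exact ⟨i, RD.seesT_compl _ _ hi⟩
    · exact hT X hXn h0
  · rcases hX X hXn hXu with ⟨i, hi, hc⟩ | ⟨v, hv0, hall, hc⟩
    · exact ⟨i, hun i hi X hc⟩
    · exact ⟨g v, (hused (g v) v hv0 rfl).2 X hall hc⟩

/-- C3 is enough -/
theorem evenConn_of_cert3 (e : I → Finset B) (he : ∀ i, (e i).card = 2 ∨ (e i).card = 3)
    (h : Cert3 e) : EvenConn univ e := evenConn_of_rcert e (rcert_of_cert3 e he h)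

end Pool.Agent.ClawHam
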