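import Pool.Agent.Lib.MP_e2dbb5_co.Defs

/-!
# From the connected even choice to the set of traversed vertices
-/

set_option autoImplicit false

open Finset

noncomputable section

namespace Pool.Agent.ClawHam

open Classical

theorem rowe1 : RowE1 := by
  intro V C _ _ G inc hK hbig hcard ⟨f, hf, heven, hconn⟩
  -- facts on `f`
  have hv : ∀ v, f (Sum.inl v) ≠ ∅ → ∀ K, K ∈ f (Sum.inl v) ↔ Big inc K ∧ inc v K := by
    intro v hne
    have h1 := hf (Sum.inl v)
    have h2 : (f (Sum.inl v)).card = 2 := h1.2.resolve_left hne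
    have h3 : (hyp inc (Sum.inl v)).card ≤ 2 := by
      by_contra hlt
      push Not at hlt
      obtain ⟨K, L, M, hK1, hL1, hM1, hKL, hKM, hLM⟩ := Finset.two_lt_card_iff.mp hlt
      simp only [hyp, Finset.mem_filter, Finset.mem_univ, true_and] at hK1 hL1 hM1
      rcases hK.two v K L M hK1.2 hL1.2 hM1.2 with h | h | h
      · exact hKL h
      · exact hKM h
      · exact hLM h
    have h4 : f (Sum.inl v) = hyp inc (Sum.inl v) :=
      Finset.eq_of_subset_of_card_le h1.1 (by omega)
    intro K
    rw [h4]
    simp [hyp]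
  have hs : ∀ S K, K ∈ f (Sum.inr S) → ¬ Big inc S ∧ Big inc K ∧ ∃ v, inc v S ∧ inc v K := by
    intro S K h
    have h1 := (hf (Sum.inr S)).1 h
    simpa [hyp] using h1
  have hne : ∀ S K, ¬ Big inc S → Big inc K → S ≠ K := by
    intro S K h1 h2 h
    exact h1 (h ▸ h2)
  -- a vertex with two cells has no other cell
  have hthree : ∀ v K L M, inc v K → inc v L → inc v M → K ≠ L → M ≠ K → M = L := by
    intro v K L M h1 h2 h3 h4 h5
    rcases hK.two v K L M h1 h2 h3 with h | h | h
    · exact absurd h h4
    · exact absurd h.symm h5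
    · exact h.symm
  set F : Finset V := univ.filter fun v => f (Sum.inl v) ≠ ∅ ∨
    ∃ S K, K ∈ f (Sum.inr S) ∧ inc v S ∧ inc v K with hF
  have memF : ∀ v, v ∈ F ↔ (f (Sum.inl v) ≠ ∅ ∨
    ∃ S K, K ∈ f (Sum.inr S) ∧ inc v S ∧ inc v K) := by
    intro v; simp [hF]
  have hex : ∀ v ∈ F, ∃ K, Big inc K ∧ inc v K := by
    intro v h
    obtain ⟨K, h1, h2⟩ := hbig v
    exact ⟨K, h1, h2⟩
  -- membership in `F` seen from a big cell
  have hFbig : ∀ v K, Big inc K → ((v ∈ F ∧ inc v K) ↔
      (K ∈ f (Sum.inl v) ∨ ∃ S, K ∈ f (Sum.inr S) ∧ inc v S ∧ inc v K)) := by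
    intro v K hb
    constructor
    · rintro ⟨h1, h2⟩
      rcases (memF v).mp h1 with h | ⟨S, K', h3, h4, h5⟩
      · exact Or.inl ((hv v h K).mpr ⟨hb, h2⟩)
      · right
        have h6 := hs S K' h3
        have h7 : K = K' := by
          have := hthree v S K' K h4 h5 h2 (hne S K' h6.1 h6.2.1) (hne S K h6.1 hb).symm
          exact this
        exact ⟨S, h7 ▸ h3, h4, h2⟩
    · rintro (h | ⟨S, h1, h2, h3⟩)
      · have h1 : f (Sum.inl v) ≠ ∅ := by
          intro h0; rw [h0] at h; exact absurd h (Finset.notMem_empty _)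
        exact ⟨(memF v).mpr (Or.inl h1), ((hv v h1 K).mp h).2⟩
      · exact ⟨(memF v).mpr (Or.inr ⟨S, K, h1, h2, h3⟩), h3⟩
  refine ⟨F, ?_, ?_, ?_, ?_⟩
  · -- two
    intro v h
    rcases (memF v).mp h with h1 | ⟨S, K, h3, h4, h5⟩
    · have h2 : (f (Sum.inl v)).card = 2 := (hf (Sum.inl v)).2.resolve_left h1
      obtain ⟨K, L, hKL, h3⟩ := Finset.card_eq_two.mp h2
      refine ⟨K, L, hKL, ((hv v h1 K).mp (by rw [h3]; simp)).2,
        ((hv v h1 L).mp (by rw [h3]; simp)).2⟩
    · exact ⟨S, K, hne S K (hs S K h3).1 (hs S K h3).2.1, h4, h5⟩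
  · -- even
    intro K
    -- the vertex in a small cell and a big cell is unique
    have huniq : ∀ S L, S ≠ L → ∀ u v, inc u S → inc u L → inc v S → inc v L → u = v := by
      intro S L hSL u v h1 h2 h3 h4
      by_contra h
      exact hSL (hK.uniq u v S L h h1 h3 h2 h4)
    by_cases hb : Big inc K
    · -- a big cell
      have h2 : (univ.filter fun i => K ∈ f i).card = (F.filter fun v => inc v K).card := by
        refine Finset.card_bij
          (fun i hi => match i, hi with
            | Sum.inl v, _ => v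
            | Sum.inr S, hi => (hs S K (Finset.mem_filter.mp hi).2).2.2.choose) ?_ ?_ ?_
        · rintro (v | S) hi
          · have h3 := (Finset.mem_filter.mp hi).2
            have h4 := (hFbig v K hb).mpr (Or.inl h3)
            exact Finset.mem_filter.mpr h4
          · have h3 := (Finset.mem_filter.mp hi).2
            have h5 := (hs S K h3).2.2.choose_spec
            exact Finset.mem_filter.mpr ((hFbig _ K hb).mpr (Or.inr ⟨S, h3, h5.1, h5.2⟩))
        · rintro (v | S) hi (w | T) hj hvw
          · simp only at hvw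
            rw [hvw]
          · exfalso
            have h3 := (Finset.mem_filter.mp hi).2
            have h4 := (Finset.mem_filter.mp hj).2
            have h5 := (hs T K h4).2.2.choose_spec
            simp only at hvw
            rw [← hvw] at h5
            have h6 : f (Sum.inl v) ≠ ∅ := by
              intro h0; rw [h0] at h3; exact absurd h3 (Finset.notMem_empty _)
            have h7 : (f (Sum.inl v)).card = 2 := (hf (Sum.inl v)).2.resolve_left h6
            obtain ⟨L, h8, h9⟩ : ∃ L ∈ f (Sum.inl v), L ≠ K :=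
              Finset.exists_mem_ne (by omega) K
            have h10 := (hv v h6 L).mp h8
            exact h9 (hthree v T K L h5.1 h5.2 h10.2 (hne T K (hs T K h4).1 hb)
              (hne T L (hs T K h4).1 h10.1).symm)
          · exfalso
            have h3 := (Finset.mem_filter.mp hj).2
            have h4 := (Finset.mem_filter.mp hi).2
            have h5 := (hs S K h4).2.2.choose_spec
            simp only at hvw
            rw [hvw] at h5
            have h6 : f (Sum.inl w) ≠ ∅ := by
              intro h0; rw [h0] at h3; exact absurd h3 (Finset.notMem_empty _)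
            have h7 : (f (Sum.inl w)).card = 2 := (hf (Sum.inl w)).2.resolve_left h6
            obtain ⟨L, h8, h9⟩ : ∃ L ∈ f (Sum.inl w), L ≠ K :=
              Finset.exists_mem_ne (by omega) K
            have h10 := (hv w h6 L).mp h8
            exact h9 (hthree w S K L h5.1 h5.2 h10.2 (hne S K (hs S K h4).1 hb)
              (hne S L (hs S K h4).1 h10.1).symm)
          · have h3 := (Finset.mem_filter.mp hi).2
            have h4 := (Finset.mem_filter.mp hj).2
            have h5 := (hs S K h3).2.2.choose_spec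
            have h6 := (hs T K h4).2.2.choose_spec
            simp only at hvw
            rw [← hvw] at h6
            have h7 : T = S := by
              have hKS : K ≠ S := (hne S K (hs S K h3).1 hb).symm
              have hTK : T ≠ K := hne T K (hs T K h4).1 hb
              exact hthree _ K S T h5.2 h5.1 h6.1 hKS hTK
            rw [h7]
        · intro v hv1
          obtain h3 := (hFbig v K hb).mp (Finset.mem_filter.mp hv1)
          rcases h3 with h3 | ⟨S, h3, h4, h5⟩
          · exact ⟨Sum.inl v, Finset.mem_filter.mpr ⟨Finset.mem_univ _, h3⟩, rfl⟩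
          · refine ⟨Sum.inr S, Finset.mem_filter.mpr ⟨Finset.mem_univ _, h3⟩, ?_⟩
            have h6 := (hs S K h3).2.2.choose_spec
            exact huniq S K (hne S K (hs S K h3).1 hb) _ _ h6.1 h6.2 h4 h5
      rw [← h2]; exact heven K
    · -- a small cell
      have h2 : (f (Sum.inr K)).card = (F.filter fun v => inc v K).card := by
        refine Finset.card_bij (fun L hL => (hs K L hL).2.2.choose) ?_ ?_ ?_
        · intro L hL
          have h3 := (hs K L hL).2.2.choose_spec
          exact Finset.mem_filter.mpr ⟨(memF _).mpr (Or.inr ⟨K, L, hL, h3.1, h3.2⟩), h3.1⟩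
        · intro L hL M hM hLM
          have h3 := (hs K L hL).2.2.choose_spec
          have h4 := (hs K M hM).2.2.choose_spec
          rw [← hLM] at h4
          exact (hthree _ K L M h3.1 h3.2 h4.2 (hne K L hb (hs K L hL).2.1)
            (hne K M hb (hs K M hM).2.1).symm).symm
        · intro v hv1
          obtain ⟨h3, h4⟩ := Finset.mem_filter.mp hv1
          rcases (memF v).mp h3 with h5 | ⟨S, L, h5, h6, h7⟩
          · exfalso
            have h7 : (f (Sum.inl v)).card = 2 := (hf (Sum.inl v)).2.resolve_left h5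
            obtain ⟨A, B, hAB, h8⟩ := Finset.card_eq_two.mp h7
            have hA := (hv v h5 A).mp (by rw [h8]; simp)
            have hB := (hv v h5 B).mp (by rw [h8]; simp)
            exact hAB (hthree v K B A h4 hB.2 hA.2 (hne K B hb hB.1) (hne K A hb hA.1).symm)
          · have h8 := hs S L h5
            have h9 : K = S := hthree v L S K h7 h6 h4 (hne S L h8.1 h8.2.1).symm
              (hne K L hb h8.2.1)
            subst h9
            refine ⟨L, h5, ?_⟩
            have h10 := (hs K L h5).2.2.choose_spec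
            exact huniq K L (hne K L hb h8.2.1) _ _ h10.1 h10.2 h6 h7
      rw [← h2]
      rcases (hf (Sum.inr K)).2 with h | h
      · rw [h]; simp
      · rw [h]; exact even_two
  · -- dom
    intro v
    obtain ⟨K, h1, h2⟩ := hbig v
    refine ⟨K, h2, ?_⟩
    have h3 : ({K} : Finset C) ≠ bigs inc := by
      intro h; rw [← h] at hcard; simp at hcard
    obtain ⟨i, ⟨a, ha, haX⟩, _⟩ := hconn {K} (by
      intro x hx; rw [Finset.mem_singleton] at hx; subst hx; simp [bigs, h1])
      (Finset.singleton_nonempty K) h3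
    rw [Finset.mem_singleton] at haX
    subst haX
    rcases i with w | S
    · exact ⟨w, ((hFbig w a h1).mpr (Or.inl ha)).1, ((hFbig w a h1).mpr (Or.inl ha)).2⟩
    · obtain ⟨w, h4, h5⟩ := (hs S a ha).2.2
      exact ⟨w, (memF w).mpr (Or.inr ⟨S, a, ha, h4, h5⟩), h5⟩
  · -- conn
    intro P ⟨v1, hv1, K1, hi1, hP1⟩ ⟨v2, hv2, K2, hi2, hP2⟩
    by_contra hno
    push Not at hno
    have hsame : ∀ v ∈ F, ∀ K L, inc v K → inc v L → P K → P L := by
      intro v h K L h1 h2 h3
      exact hno v h K L h1 h2 h3
    obtain ⟨B1, hB1, hB1'⟩ := hbig v1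
    obtain ⟨B2, hB2, hB2'⟩ := hbig v2
    have hPB1 : P B1 := hsame v1 hv1 K1 B1 hi1 hB1' hP1
    have hPB2 : ¬ P B2 := fun h => hP2 (hsame v2 hv2 B2 K2 hB2' hi2 h)
    obtain ⟨i, ⟨a, ha, haX⟩, b, hb, hbX⟩ := hconn ((bigs inc).filter P)
      (Finset.filter_subset _ _) ⟨B1, by simp [bigs, hB1, hPB1]⟩ (by
        intro h
        have : B2 ∈ (bigs inc).filter P := by rw [h]; simp [bigs, hB2]
        exact hPB2 (Finset.mem_filter.mp this).2)
    have hPa : P a := (Finset.mem_filter.mp haX).2
    rcases i with w | S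
    · have hw : f (Sum.inl w) ≠ ∅ := by
        intro h0; rw [h0] at ha; exact absurd ha (Finset.notMem_empty _)
      have h1 := (hv w hw a).mp ha
      have h2 := (hv w hw b).mp hb
      have hPb : ¬ P b := fun h => hbX (Finset.mem_filter.mpr ⟨by simp [bigs, h2.1], h⟩)
      exact hPb (hsame w ((memF w).mpr (Or.inl hw)) a b h1.2 h2.2 hPa)
    · obtain ⟨h1, h2, w, h3, h4⟩ := hs S a ha
      obtain ⟨_, h5, w', h6, h7⟩ := hs S b hb
      have hPb : ¬ P b := fun h => hbX (Finset.mem_filter.mpr ⟨by simp [bigs, h5], h⟩)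
      have hPS : P S := hsame w ((memF w).mpr (Or.inr ⟨S, a, ha, h3, h4⟩)) a S h4 h3 hPa
      exact hPb (hsame w' ((memF w').mpr (Or.inr ⟨S, b, hb, h6, h7⟩)) S b h6 h7 hPS)

end Pool.Agent.ClawHam
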