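import Pool.Agent.Lib.MP_e2dbb5_co.KV

/-!
# The skeletal lemma: definitions

A state is a choice `p` of a pair (or nothing) in every hyperedge and a set `M` of marked
hyperedges. From a state we get a descending sequence of equivalence relations: the components of
the chosen pairs and the classes of the closure of the unused hyperedges, alternately.
(helper42)
-/

set_option autoImplicit false

open Finset

noncomputable section

namespace Pool.Agent.ClawHam

open Classical

namespace Sk

variable {B I : Type}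

/-- `E` is closed under the pairs inside the classes of `R`, of the hyperedges outside `X` -/
def GCl (p : I → Finset B) (R : Setoid B) (X : Set I) (E : Setoid B) : Prop :=
  ∀ i, i ∉ X → ∀ x ∈ p i, ∀ y ∈ p i, R x y → E x y

/-- the components of the chosen pairs inside the classes of `R`, the hyperedges in `X` are not
allowed -/
def gen (p : I → Finset B) (R : Setoid B) (X : Set I) : Setoid B :=
  sInf {E | GCl p R X E}

/-- `E` is closed under the rules: an unused hyperedge (not dead, i.e. not in `D`) joins all its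
vertices inside a class of `R`; if the pair of a used hyperedge is in one class of `E` then the
third vertex too, if it is in the same class of `R`. The hyperedges in `X` are not allowed, and
`F` is imposed. -/
def ACl (e p : I → Finset B) (R : Setoid B) (D X : Set I) (F : B → B → Prop) (E : Setoid B) :
    Prop :=
  (∀ x y, F x y → E x y) ∧
  (∀ i, i ∉ X → i ∉ D → p i = ∅ → ∀ x ∈ e i, ∀ y ∈ e i, R x y → E x y) ∧
  (∀ i, i ∉ X → p i ≠ ∅ → (∀ a ∈ p i, ∀ b ∈ p i, E a b) →
    ∀ a ∈ p i, ∀ w ∈ e i, R a w → E a w)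

/-- the closure under the rules `ACl` -/
def cl (e p : I → Finset B) (R : Setoid B) (D X : Set I) (F : B → B → Prop) : Setoid B :=
  sInf {E | ACl e p R D X F E}

/-- nothing is imposed -/
def F0 : B → B → Prop := fun _ _ => False

/-- `u` and `v` are imposed to be together -/
def F1 (u v : B) : B → B → Prop := fun x y => x = u ∧ y = v

/-- a hyperedge inside a class of `R`, marked, which is separated by the components and whose
separated vertex is redundant, becomes dead -/
def NewD (e p : I → Finset B) (M : Set I) (R : Setoid B) (D : Set I) : Set I :=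
  {i | i ∈ M ∧ (∀ x ∈ e i, ∀ y ∈ e i, R x y) ∧ ∃ u ∈ e i, ∃ v ∈ e i, ∃ t ∈ e i, u ≠ v ∧
    gen p R D u v ∧ ¬ gen p R D u t ∧ cl e p R D {i} (F1 u v) u t}

/-- the levels of a state -/
def lev (e p : I → Finset B) (M : Set I) : ℕ → Setoid B × Set I
  | 0 => (⊤, ∅)
  | n + 1 =>
    let R := (lev e p M n).1
    let D := (lev e p M n).2
    (cl e p (gen p R D) (D ∪ NewD e p M R D) ∅ F0, D ∪ NewD e p M R D)

/-- the classes of level `n` -/
def Rn (e p : I → Finset B) (M : Set I) (n : ℕ) : Setoid B := (lev e p M n).1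

/-- the dead hyperedges of level `n` -/
def Dn (e p : I → Finset B) (M : Set I) (n : ℕ) : Set I := (lev e p M n).2

/-- the components of level `n` -/
def Gn (e p : I → Finset B) (M : Set I) (n : ℕ) : Setoid B :=
  gen p (Rn e p M n) (Dn e p M n)

/-- the legal choices: a pair inside the hyperedge, or nothing -/
def Leg (e p : I → Finset B) : Prop := Pairs p ∧ ∀ i, p i ⊆ e i

/-! ### Rows -/

/-- Row CLK: if the pairs are connected and the closure is everything, then there is a
certificate. -/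
def CLK : Prop :=
  ∀ (B I : Type) [Fintype B] [Nonempty B] [Fintype I] (e p : I → Finset B),
    (∀ i, (e i).card = 2 ∨ (e i).card = 3) → Leg e p → gen p ⊤ ∅ = ⊤ →
      cl e p ⊤ ∅ ∅ F0 = ⊤ → CertK e

/-- Row CIR: a link which is redundant lies in a circuit of links. `R` is a relation, every
hyperedge in `L` is a link (all its vertices are joined); if two vertices `x`, `y` of `g` are
joined by `R` and the links in `L` different from `g`, then there is a set `Z` of links with
`g ∈ Z`, and vertices `a i`, `b i` of every `i ∈ Z` such that `a i` and `b i` are joined by `R` and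
the pairs `a j`, `b j` with `j ∈ Z`, `j ≠ i`, and not by `R` alone. -/
def CIR : Prop :=
  ∀ (B I : Type) [Fintype B] [Fintype I] (e : I → Finset B), (∀ i, (e i).card ≤ 3) →
    ∀ (R : Setoid B) (L : Set I) (g : I) (x y : B), g ∈ L → x ∈ e g → y ∈ e g → ¬ R x y →
      (sInf {E : Setoid B | R ≤ E ∧ ∀ i ∈ L, i ≠ g → ∀ a ∈ e i, ∀ b ∈ e i, E a b}) x y →
      ∃ (Z : Set I) (a b : I → B), g ∈ Z ∧ Z ⊆ L ∧ a g = x ∧ b g = y ∧
        ∀ i ∈ Z, a i ∈ e i ∧ b i ∈ e i ∧ ¬ R (a i) (b i) ∧
          (sInf {E : Setoid B | R ≤ E ∧ ∀ j ∈ Z, j ≠ i → E (a j) (b j)}) (a i) (b i)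

/-- Row CNT: the count. `R` has at least two classes; (T) the chosen pairs which are not inside a
class of `R` are all bridges of `R` + pairs; (C) for every link `g` (unused, or with its pair
inside a class of `R`) two vertices of `g` in different classes are not joined by `R` and the
other links; (N) not both are connected. Then there is a set `J` of hyperedges with three vertices
in three different classes such that ... -/
def CNT : Prop :=
  ∀ (B I : Type) [Fintype B] [Nonempty B] [Fintype I] (e p : I → Finset B),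
    (∀ i, (e i).card = 2 ∨ (e i).card = 3) → Leg e p → ∀ R : Setoid B, R ≠ ⊤ →
      (∀ i, ∀ x ∈ p i, ∀ y ∈ p i, ¬ R x y →
        ¬ (sInf {E : Setoid B | R ≤ E ∧ ∀ j, j ≠ i → ∀ a ∈ p j, ∀ b ∈ p j, E a b}) x y) →
      (∀ i, (∀ a ∈ p i, ∀ b ∈ p i, R a b) → ∀ x ∈ e i, ∀ y ∈ e i, ¬ R x y →
        ¬ (sInf {E : Setoid B | R ≤ E ∧ ∀ j, j ≠ i → (∀ a ∈ p j, ∀ b ∈ p j, R a b) →
          ∀ a ∈ e j, ∀ b ∈ e j, E a b}) x y) →
      ¬ ((sInf {E : Setoid B | R ≤ E ∧ ∀ j, ∀ a ∈ p j, ∀ b ∈ p j, E a b}) = ⊤ ∧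
        (sInf {E : Setoid B | R ≤ E ∧ ∀ j, (∀ a ∈ p j, ∀ b ∈ p j, R a b) →
          ∀ a ∈ e j, ∀ b ∈ e j, E a b}) = ⊤) →
      ∃ (J : Finset I), (∀ i ∈ J, (e i).card = 3 ∧ ∀ x ∈ e i, ∀ y ∈ e i, x ≠ y → ¬ R x y) ∧
        (univ.filter fun i => ((e i).image (Quotient.mk R)).card = 2).card +
          2 * (univ.filter fun i => ((e i).image (Quotient.mk R)).card = 3).card + 3 ≤
          2 * Fintype.card (Quotient R) + J.card ∧
        (J.Nonempty → J.card + 1 ≤ (univ.filter fun q : Quotient R =>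
          ∃ i ∈ J, ∃ x ∈ e i, Quotient.mk R x = q).card)

/-- the skeletal lemma -/
def SKEL : Prop :=
  ∀ (B I : Type) [Fintype B] [Nonempty B] [Fintype I] (e : I → Finset B),
    (∀ i, (e i).card = 2 ∨ (e i).card = 3) → CertK e ∨
      ∃ (p : I → Finset B) (R : Setoid B), Leg e p ∧ R ≠ ⊤ ∧
      (∀ i, ∀ x ∈ p i, ∀ y ∈ p i, ¬ R x y →
        ¬ (sInf {E : Setoid B | R ≤ E ∧ ∀ j, j ≠ i → ∀ a ∈ p j, ∀ b ∈ p j, E a b}) x y) ∧
      (∀ i, (∀ a ∈ p i, ∀ b ∈ p i, R a b) → ∀ x ∈ e i, ∀ y ∈ e i, ¬ R x y →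
        ¬ (sInf {E : Setoid B | R ≤ E ∧ ∀ j, j ≠ i → (∀ a ∈ p j, ∀ b ∈ p j, R a b) →
          ∀ a ∈ e j, ∀ b ∈ e j, E a b}) x y) ∧
      ¬ ((sInf {E : Setoid B | R ≤ E ∧ ∀ j, ∀ a ∈ p j, ∀ b ∈ p j, E a b}) = ⊤ ∧
        (sInf {E : Setoid B | R ≤ E ∧ ∀ j, (∀ a ∈ p j, ∀ b ∈ p j, R a b) →
          ∀ a ∈ e j, ∀ b ∈ e j, E a b}) = ⊤)

end Sk

end Pool.Agent.ClawHam
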