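import Pool.Agent.Lib.MP_e2dbb5_co.SK0

/-!
# The skeletal lemma: optimal states, and the statements of the rows (helper42)
-/

set_option autoImplicit false

open Finset

noncomputable section

namespace Pool.Agent.ClawHam

open Classical

namespace Sk

variable {B I : Type}

/-- the number of used hyperedges -/
def used [Fintype I] (p : I → Finset B) : ℕ := (univ.filter fun i => p i ≠ ∅).card

/-- the components do not get finer -/
def HA (p p' : I → Finset B) (R : Setoid B) (D : Set I) : Prop := gen p R D ≤ gen p' R D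

/-- no dead hyperedge is lost -/
def HB (e p : I → Finset B) (M : Set I) (p' : I → Finset B) (M' : Set I) (R : Setoid B)
    (D : Set I) : Prop :=
  gen p' R D = gen p R D → NewD e p M R D ⊆ NewD e p' M' R D

/-- the closure does not get finer -/
def HC (e p : I → Finset B) (M : Set I) (p' : I → Finset B) (R : Setoid B) (D : Set I) : Prop :=
  cl e p (gen p R D) (D ∪ NewD e p M R D) ∅ F0 ≤ cl e p' (gen p R D) (D ∪ NewD e p M R D) ∅ F0

/-- an optimal state: the first level where another state `(p', M')` differs is not better (the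
order at every level: components coarser, then more dead, then closure coarser), and among the
states with the same levels the number of used hyperedges is smallest -/
structure OptS [Fintype I] (e p : I → Finset B) (M : Set I) : Prop where
  leg : Leg e p
  eqG : ∀ (p' : I → Finset B) (M' : Set I), Leg e p' → ∀ k,
    (∀ m ≤ k, HA p p' (Rn e p M m) (Dn e p M m)) →
    (∀ m < k, HB e p M p' M' (Rn e p M m) (Dn e p M m)) →
    (∀ m < k, HC e p M p' (Rn e p M m) (Dn e p M m)) →
    gen p' (Rn e p M k) (Dn e p M k) = Gn e p M k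
  eqD : ∀ (p' : I → Finset B) (M' : Set I), Leg e p' → ∀ k,
    (∀ m ≤ k, HA p p' (Rn e p M m) (Dn e p M m)) →
    (∀ m ≤ k, HB e p M p' M' (Rn e p M m) (Dn e p M m)) →
    (∀ m < k, HC e p M p' (Rn e p M m) (Dn e p M m)) →
    NewD e p' M' (Rn e p M k) (Dn e p M k) ⊆ Dn e p M (k + 1)
  eqR : ∀ (p' : I → Finset B) (M' : Set I), Leg e p' → ∀ k,
    (∀ m ≤ k, HA p p' (Rn e p M m) (Dn e p M m)) →
    (∀ m ≤ k, HB e p M p' M' (Rn e p M m) (Dn e p M m)) →
    (∀ m ≤ k, HC e p M p' (Rn e p M m) (Dn e p M m)) →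
    cl e p' (Gn e p M k) (Dn e p M (k + 1)) ∅ F0 ≤ Rn e p M (k + 1)
  tie : ∀ (p' : I → Finset B) (M' : Set I), Leg e p' →
    (∀ m, HA p p' (Rn e p M m) (Dn e p M m)) →
    (∀ m, HB e p M p' M' (Rn e p M m) (Dn e p M m)) →
    (∀ m, HC e p M p' (Rn e p M m) (Dn e p M m)) → used p ≤ used p'

/-- Row OPT: there is an optimal state. (Minimize the sequence
`n ↦ (number of classes of Gn n, |I| - |Dn (n+1)|, number of classes of Rn (n+1))`
in the lexicographic order, then `used`; if `HA, HB, HC` hold below `k` then by induction the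
levels of `(p', M')` and `(p, M)` agree up to `k`.) -/
def OPT : Prop :=
  ∀ (B I : Type) [Fintype B] [Fintype I] (e : I → Finset B), ∃ (p : I → Finset B) (M : Set I),
    OptS e p M

/-- Row MOD1: an unused hyperedge cannot be put across -/
def MOD1 : Prop :=
  ∀ (B I : Type) [Fintype B] [Fintype I] (e p : I → Finset B) (M : Set I),
    (∀ i, (e i).card = 2 ∨ (e i).card = 3) → OptS e p M →
    ∀ (g : I) (k : ℕ) (x y : B), p g = ∅ → x ∈ e g → y ∈ e g → g ∉ Dn e p M k →
      Rn e p M k x y → ¬ Gn e p M k x y → cl e p (Rn e p M k) (Dn e p M k) {g} F0 x y → False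

/-- Row MOD2: a used hyperedge `f`, whose pair `x y` is redundant in the components and which is
totally redundant in the closure (needed only for `k ≠ 0`), cannot be re-trimmed across -/
def MOD2 : Prop :=
  ∀ (B I : Type) [Fintype B] [Fintype I] (e p : I → Finset B) (M : Set I),
    (∀ i, (e i).card = 2 ∨ (e i).card = 3) → OptS e p M →
    ∀ (f : I) (k : ℕ) (x y t : B), p f = {x, y} → x ≠ y → t ∈ e f → t ≠ x → t ≠ y →
      f ∉ Dn e p M k → gen p (Rn e p M k) (Dn e p M k ∪ {f}) x y →
      Rn e p M k x t → ¬ Gn e p M k x t →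
      (k ≠ 0 → cl e p (Rn e p M k) (Dn e p M k) {f} F0 x y ∧
        cl e p (Rn e p M k) (Dn e p M k) {f} F0 x t) → False

/-- Row MOD3: a used hyperedge whose pair is redundant in the components is not separated by the
next closure, unless it is dead -/
def MOD3 : Prop :=
  ∀ (B I : Type) [Fintype B] [Fintype I] (e p : I → Finset B) (M : Set I),
    (∀ i, (e i).card = 2 ∨ (e i).card = 3) → OptS e p M →
    ∀ (f : I) (k : ℕ) (x y : B), p f = {x, y} → x ≠ y → f ∉ Dn e p M (k + 1) →
      gen p (Rn e p M k) (Dn e p M k ∪ {f}) x y → Rn e p M (k + 1) x y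

/-- Row MOD3': a used hyperedge is not redundant for ever -/
def MOD3' : Prop :=
  ∀ (B I : Type) [Fintype B] [Fintype I] (e p : I → Finset B) (M : Set I),
    (∀ i, (e i).card = 2 ∨ (e i).card = 3) → OptS e p M →
    ∀ (f : I) (x y : B), p f = {x, y} → x ≠ y → (∀ k, f ∉ Dn e p M k) →
      (∀ k, gen p (Rn e p M k) (Dn e p M k ∪ {f}) x y) → False

/-- Row MOD4: a hyperedge which would become dead if it was marked is marked -/
def MOD4 : Prop :=
  ∀ (B I : Type) [Fintype B] [Fintype I] (e p : I → Finset B) (M : Set I),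
    (∀ i, (e i).card = 2 ∨ (e i).card = 3) → OptS e p M →
    ∀ (g : I) (k : ℕ) (u v t : B), (∀ x ∈ e g, ∀ y ∈ e g, Rn e p M k x y) → u ∈ e g → v ∈ e g →
      t ∈ e g → u ≠ v → Gn e p M k u v → ¬ Gn e p M k u t →
      cl e p (Rn e p M k) (Dn e p M k) {g} (F1 u v) u t → g ∈ Dn e p M (k + 1)

/-- Row TAC: in an optimal state the pairs are all bridges -/
def TAC : Prop :=
  ∀ (B I : Type) [Fintype B] [Nonempty B] [Fintype I] (e p : I → Finset B) (M : Set I),
    (∀ i, (e i).card = 2 ∨ (e i).card = 3) → OptS e p M →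
    ∀ f, ∀ x ∈ p f, ∀ y ∈ p f, x ≠ y → ¬ gen p ⊤ {f} x y

/-- Row CAC: in an optimal state the links (unused hyperedges, and used hyperedges with the pair
inside a class of the limit `R = Rn N`) are not redundant -/
def CAC : Prop :=
  ∀ (B I : Type) [Fintype B] [Nonempty B] [Fintype I] (e p : I → Finset B) (M : Set I),
    (∀ i, (e i).card = 2 ∨ (e i).card = 3) → OptS e p M →
    ∀ N, (∀ n, N ≤ n → lev e p M n = lev e p M N) →
      ∀ i, (∀ a ∈ p i, ∀ b ∈ p i, Rn e p M N a b) → ∀ x ∈ e i, ∀ y ∈ e i, ¬ Rn e p M N x y →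
        ¬ (sInf {E : Setoid B | Rn e p M N ≤ E ∧ ∀ j, j ≠ i →
          (∀ a ∈ p j, ∀ b ∈ p j, Rn e p M N a b) → ∀ a ∈ e j, ∀ b ∈ e j, E a b}) x y

end Sk

end Pool.Agent.ClawHam
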