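import Pool.Agent.Lib.MP_e2dbb5_co.SK1

/-!
# The skeletal lemma: basic facts on the levels (helper42)
-/

set_option autoImplicit false

open Finset

noncomputable section

namespace Pool.Agent.ClawHam

open Classical

namespace Sk

variable {B I : Type}

theorem gen_cl (p : I → Finset B) (R : Setoid B) (X : Set I) : GCl p R X (gen p R X) :=
  fun i hi x hx y hy hR _ hE => hE i hi x hx y hy hR

theorem gen_min {p : I → Finset B} {R : Setoid B} {X : Set I} {E : Setoid B} (h : GCl p R X E) :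
    gen p R X ≤ E := sInf_le h

theorem gen_le (p : I → Finset B) (R : Setoid B) (X : Set I) : gen p R X ≤ R :=
  gen_min fun _ _ _ _ _ _ hR => hR

theorem gen_mono (p : I → Finset B) {R R' : Setoid B} {X X' : Set I} (hR : R ≤ R')
    (hX : X' ⊆ X) : gen p R X ≤ gen p R' X' :=
  gen_min fun i hi x hx y hy hxy => gen_cl p R' X' i (fun h => hi (hX h)) x hx y hy (hR hxy)

theorem cl_acl (e p : I → Finset B) (R : Setoid B) (D X : Set I) (F : B → B → Prop) :
    ACl e p R D X F (cl e p R D X F) := by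
  refine ⟨fun x y h E hE => hE.1 x y h, fun i hi hD hp x hx y hy hR E hE =>
    hE.2.1 i hi hD hp x hx y hy hR, fun i hi hp hab a ha w hw hR E hE => ?_⟩
  exact hE.2.2 i hi hp (fun a ha b hb => hab a ha b hb E hE) a ha w hw hR

theorem cl_min {e p : I → Finset B} {R : Setoid B} {D X : Set I} {F : B → B → Prop}
    {E : Setoid B} (h : ACl e p R D X F E) : cl e p R D X F ≤ E := sInf_le h

theorem cl_le {e p : I → Finset B} {R : Setoid B} {D X : Set I} {F : B → B → Prop}
    (h : ∀ x y, F x y → R x y) : cl e p R D X F ≤ R :=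
  cl_min ⟨h, fun _ _ _ _ _ _ _ _ hR => hR, fun _ _ _ _ _ _ _ _ hR => hR⟩

theorem cl_le0 (e p : I → Finset B) (R : Setoid B) (D X : Set I) : cl e p R D X F0 ≤ R :=
  cl_le fun _ _ h => h.elim

/-- the comparison of two closures of the same choice -/
theorem cl_comp {e p : I → Finset B} {R R' : Setoid B} {D D' X X' : Set I} {F' : B → B → Prop}
    {E : Setoid B} (hR : R' ≤ R) (hD : D ⊆ D')
    (hF : ∀ x y, F' x y → E x y)
    (h1 : ∀ i, i ∉ X → i ∉ D → p i = ∅ → ∀ x ∈ e i, ∀ y ∈ e i, R x y → E x y)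
    (h2 : ∀ i, i ∉ X → p i ≠ ∅ → (∀ a ∈ p i, ∀ b ∈ p i, E a b) → ∀ a ∈ p i, ∀ w ∈ e i,
      R a w → E a w)
    (h3 : ∀ i ∈ X, i ∉ X' → i ∉ D' → p i = ∅ → ∀ x ∈ e i, ∀ y ∈ e i, R' x y → E x y)
    (h4 : ∀ i ∈ X, i ∉ X' → p i ≠ ∅ → (∀ a ∈ p i, ∀ b ∈ p i, E a b) → ∀ a ∈ p i, ∀ w ∈ e i,
      R' a w → E a w) :
    cl e p R' D' X' F' ≤ E := by
  refine cl_min ⟨hF, fun i hi hiD hp x hx y hy hxy => ?_, fun i hi hp hab a ha w hw haw => ?_⟩
  · by_cases hX : i ∈ X
    · exact h3 i hX hi hiD hp x hx y hy hxy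
    · exact h1 i hX (fun h => hiD (hD h)) hp x hx y hy (hR hxy)
  · by_cases hX : i ∈ X
    · exact h4 i hX hi hp hab a ha w hw haw
    · exact h2 i hX hp hab a ha w hw (hR haw)

section lev

variable (e p : I → Finset B) (M : Set I)

theorem Rn_zero : Rn e p M 0 = ⊤ := rfl

theorem Dn_zero : Dn e p M 0 = ∅ := rfl

theorem Dn_succ (n : ℕ) :
    Dn e p M (n + 1) = Dn e p M n ∪ NewD e p M (Rn e p M n) (Dn e p M n) := rfl

theorem Rn_succ (n : ℕ) : Rn e p M (n + 1) = cl e p (Gn e p M n) (Dn e p M (n + 1)) ∅ F0 := rfl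

theorem Gn_le (n : ℕ) : Gn e p M n ≤ Rn e p M n := gen_le _ _ _

theorem Rn_succ_le (n : ℕ) : Rn e p M (n + 1) ≤ Gn e p M n := by
  rw [Rn_succ]
  exact cl_le0 _ _ _ _ _

theorem Rn_anti {m n : ℕ} (h : m ≤ n) : Rn e p M n ≤ Rn e p M m := by
  induction n, h using Nat.le_induction with
  | base => exact le_rfl
  | succ n _ ih => exact ((Rn_succ_le e p M n).trans (Gn_le e p M n)).trans ih

theorem Rn_le_Gn {m n : ℕ} (h : m < n) : Rn e p M n ≤ Gn e p M m :=
  (Rn_anti e p M h).trans (Rn_succ_le e p M m)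

theorem Gn_anti {m n : ℕ} (h : m ≤ n) : Gn e p M n ≤ Gn e p M m := by
  rcases Nat.lt_or_eq_of_le h with h | h
  · exact (Gn_le e p M n).trans (Rn_le_Gn e p M h)
  · subst h
    exact le_rfl

theorem Dn_mono {m n : ℕ} (h : m ≤ n) : Dn e p M m ⊆ Dn e p M n := by
  induction n, h using Nat.le_induction with
  | base => exact le_rfl
  | succ n _ ih =>
    rw [Dn_succ]
    exact ih.trans Set.subset_union_left

theorem Dn_sub (n : ℕ) : Dn e p M n ⊆ M := by
  induction n with
  | zero => rw [Dn_zero]; exact Set.empty_subset _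
  | succ n ih =>
    rw [Dn_succ]
    exact Set.union_subset ih fun i hi => hi.1

/-- a dead hyperedge became dead at some level -/
theorem dead_new {n : ℕ} {i : I} (h : i ∈ Dn e p M n) : ∃ m < n, i ∉ Dn e p M m ∧
    i ∈ NewD e p M (Rn e p M m) (Dn e p M m) := by
  induction n with
  | zero => rw [Dn_zero] at h; exact h.elim
  | succ n ih =>
    by_cases h1 : i ∈ Dn e p M n
    · obtain ⟨m, hm, h2⟩ := ih h1
      exact ⟨m, by omega, h2⟩
    · rw [Dn_succ] at h
      exact ⟨n, by omega, h1, h.resolve_left h1⟩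

variable {e p M}

/-- the pattern of a newly dead hyperedge -/
theorem newD_pat (he : ∀ i, (e i).card ≤ 3) (hp : Leg e p) {m : ℕ} {i : I}
    (h0 : i ∉ Dn e p M m) (h : i ∈ NewD e p M (Rn e p M m) (Dn e p M m)) :
    ∃ u v t, u ∈ e i ∧ v ∈ e i ∧ t ∈ e i ∧ u ≠ v ∧ u ≠ t ∧ v ≠ t ∧ (e i = {u, v, t}) ∧
      (∀ x ∈ e i, ∀ y ∈ e i, Rn e p M m x y) ∧
      Gn e p M m u v ∧ ¬ Gn e p M m u t ∧ ¬ Gn e p M m v t ∧
      cl e p (Rn e p M m) (Dn e p M m) {i} (F1 u v) u t ∧ (p i ≠ ∅ → p i = {u, v}) := by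
  obtain ⟨hM, hin, u, hu, v, hv, t, ht, huv, hG, hnG, hcl⟩ := h
  have h1 : ¬ gen p (Rn e p M m) (Dn e p M m) v t := fun h2 => hnG (Setoid.trans' _ hG h2)
  have hut : u ≠ t := by rintro rfl; exact hnG (Setoid.refl' _ _)
  have hvt : v ≠ t := by rintro rfl; exact h1 (Setoid.refl' _ _)
  have he3 : e i = {u, v, t} := by
    symm
    apply Finset.eq_of_subset_of_card_le
    · intro w hw
      simp only [Finset.mem_insert, Finset.mem_singleton] at hw
      rcases hw with rfl | rfl | rfl <;> assumption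
    · rw [Finset.card_eq_three.2 ⟨u, v, t, huv, hut, hvt, rfl⟩]
      exact he i
  refine ⟨u, v, t, hu, hv, ht, huv, hut, hvt, he3, hin, hG, hnG, h1, hcl, fun hpi => ?_⟩
  have h2 : (p i).card = 2 := (hp.1 i).resolve_left hpi
  obtain ⟨a, b, hab, hpab⟩ := Finset.card_eq_two.1 h2
  have ha : a ∈ p i := by rw [hpab]; exact Finset.mem_insert_self _ _
  have hb : b ∈ p i := by rw [hpab]; exact Finset.mem_insert_of_mem (Finset.mem_singleton_self _)
  have hGab : gen p (Rn e p M m) (Dn e p M m) a b :=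
    gen_cl p _ _ i h0 a ha b hb (hin a (hp.2 i ha) b (hp.2 i hb))
  have ha' := hp.2 i ha
  have hb' := hp.2 i hb
  rw [he3] at ha' hb'
  simp only [Finset.mem_insert, Finset.mem_singleton] at ha' hb'
  rw [hpab]
  rcases ha' with rfl | rfl | rfl <;> rcases hb' with rfl | rfl | rfl
  · exact absurd rfl hab
  · rfl
  · exact absurd hGab hnG
  · exact Finset.pair_comm _ _
  · exact absurd rfl hab
  · exact absurd hGab h1
  · exact absurd (Setoid.symm' _ hGab) hnG
  · exact absurd (Setoid.symm' _ hGab) h1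
  · exact absurd rfl hab

/-- a dead hyperedge has a vertex which is isolated from the other two -/
theorem dead_iso (he : ∀ i, (e i).card ≤ 3) (hp : Leg e p) {n : ℕ} {i : I}
    (h : i ∈ Dn e p M n) : ∃ t ∈ e i, (∀ w ∈ e i, w ≠ t → ¬ Rn e p M n w t) ∧
      (p i ≠ ∅ → ∀ w ∈ e i, w ∈ p i ∨ w = t) ∧ t ∉ p i := by
  obtain ⟨m, hm, h1, h2⟩ := dead_new e p M h
  obtain ⟨u, v, t, hu, hv, ht, huv, hut, hvt, he3, -, -, hn1, hn2, -, hpi⟩ := newD_pat he hp h1 h2
  refine ⟨t, ht, fun w hw hwt hR => ?_, fun hne w hw => ?_, fun htp => ?_⟩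
  · have h3 := Rn_le_Gn e p M hm hR
    rw [he3] at hw
    simp only [Finset.mem_insert, Finset.mem_singleton] at hw
    rcases hw with rfl | rfl | rfl
    · exact hn1 h3
    · exact hn2 h3
    · exact hwt rfl
  · rw [he3] at hw
    rw [hpi hne]
    simp only [Finset.mem_insert, Finset.mem_singleton] at hw ⊢
    tauto
  · have hne : p i ≠ ∅ := fun h4 => by rw [h4] at htp; exact Finset.notMem_empty _ htp
    rw [hpi hne] at htp
    simp only [Finset.mem_insert, Finset.mem_singleton] at htp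
    rcases htp with rfl | rfl
    · exact hut rfl
    · exact hvt rfl

/-- the closure at a lower level, where `h` is dead, gives relations without `h` at the level
above -/
theorem cl_lower (he : ∀ i, (e i).card ≤ 3) (hp : Leg e p) {k : ℕ} {R : Setoid B} {D : Set I}
    (hR : Rn e p M k ≤ R) (hD : D ⊆ Dn e p M k) (X Y : Set I) (hY : Y ⊆ Dn e p M k)
    (F : B → B → Prop) :
    cl e p (Rn e p M k) (Dn e p M k) X F0 ≤ cl e p R D (X ∪ Y) F := by
  obtain ⟨hE1, hE2, hE3⟩ := cl_acl e p R D (X ∪ Y) F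
  refine cl_comp (X := X ∪ Y) (R := R) (D := D) hR hD (fun _ _ h => h.elim) hE2 hE3 ?_ ?_
  · intro i hi hiX hiD
    rcases hi with hi | hi
    · exact absurd hi hiX
    · exact absurd (hY hi) hiD
  · intro i hi hiX hne hab a ha w hw haw
    rcases hi with hi | hi
    · exact absurd hi hiX
    · obtain ⟨t, ht, hiso, hwp, htp⟩ := dead_iso he hp (hY hi)
      rcases hwp hne w hw with h | h
      · exact hab a ha w h
      · subst h
        by_cases h5 : a = w
        · subst h5; exact absurd ha htp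
        · exact absurd haw (hiso a (hp.2 i ha) h5)

/-- the classes of positive level are closed -/
theorem Rn_closed (k : ℕ) (hk : k ≠ 0) :
    Rn e p M k ≤ cl e p (Rn e p M k) (Dn e p M k) ∅ F0 := by
  obtain ⟨n, rfl⟩ := Nat.exists_eq_succ_of_ne_zero hk
  set E := cl e p (Rn e p M (n + 1)) (Dn e p M (n + 1)) ∅ F0 with hE
  obtain ⟨hE1, hE2, hE3⟩ := cl_acl e p (Rn e p M (n + 1)) (Dn e p M (n + 1)) ∅ F0
  obtain ⟨hF1, hF2, hF3⟩ := cl_acl e p (Gn e p M n) (Dn e p M (n + 1)) ∅ F0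
  have hle : E ≤ Rn e p M (n + 1) := cl_le0 _ _ _ _ _
  change cl e p (Gn e p M n) (Dn e p M (n + 1)) ∅ F0 ≤ E
  refine cl_min ⟨fun _ _ h => h.elim, fun i hi hD hpi x hx y hy hxy => ?_,
    fun i hi hpi hab a ha w hw haw => ?_⟩
  · exact hE2 i hi hD hpi x hx y hy (hF2 i hi hD hpi x hx y hy hxy)
  · exact hE3 i hi hpi hab a ha w hw
      (hF3 i hi hpi (fun a ha b hb => hle (hab a ha b hb)) a ha w hw haw)

/-- the levels become constant -/
theorem lev_stable [Finite B] [Finite I] (e p : I → Finset B) (M : Set I) :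
    ∃ N, ∀ n, N ≤ n → lev e p M n = lev e p M N := by
  have hfin : Finite (Setoid B) := Finite.of_injective (fun R : Setoid B => (R : B → B → Prop))
    fun R S h => Setoid.ext fun x y => by
      have := congrFun (congrFun h x) y
      exact Iff.of_eq this
  let f : ℕ →o (Setoid B)ᵒᵈ × Set I :=
    ⟨fun n => (OrderDual.toDual (Rn e p M n), Dn e p M n), fun m n h =>
      ⟨Rn_anti e p M h, Dn_mono e p M h⟩⟩
  have hfin2 : Finite (Setoid B)ᵒᵈ := hfin
  obtain ⟨N, hN⟩ := WellFoundedGT.monotone_chain_condition f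
  refine ⟨N, fun n hn => ?_⟩
  have h1 := hN n hn
  have h2 : (OrderDual.toDual (Rn e p M N), Dn e p M N) =
    (OrderDual.toDual (Rn e p M n), Dn e p M n) := h1
  have h3 := congrArg Prod.fst h2
  have h4 := congrArg Prod.snd h2
  refine Prod.ext ?_ h4.symm
  exact (OrderDual.toDual_inj.1 h3).symm

/-- the limit: its classes are components -/
theorem lim_gen {e p : I → Finset B} {M : Set I} {N : ℕ}
    (hN : ∀ n, N ≤ n → lev e p M n = lev e p M N) :
    gen p (Rn e p M N) (Dn e p M N) = Rn e p M N := by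
  apply le_antisymm (gen_le _ _ _)
  have h1 : Rn e p M (N + 1) = Rn e p M N := congrArg Prod.fst (hN (N + 1) (by omega))
  have h2 := Rn_succ_le e p M N
  rw [h1] at h2
  exact h2

theorem lim_Rn {e p : I → Finset B} {M : Set I} {N : ℕ}
    (hN : ∀ n, N ≤ n → lev e p M n = lev e p M N) (n : ℕ) : Rn e p M N ≤ Rn e p M n := by
  rcases Nat.le_total N n with h | h
  · have h1 : Rn e p M n = Rn e p M N := congrArg Prod.fst (hN n h)
    rw [h1]
  · exact Rn_anti e p M h

theorem lim_Gn {e p : I → Finset B} {M : Set I} {N : ℕ}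
    (hN : ∀ n, N ≤ n → lev e p M n = lev e p M N) (n : ℕ) : Rn e p M N ≤ Gn e p M n :=
  (lim_Rn hN (n + 1)).trans (Rn_succ_le e p M n)

theorem lim_Dn {e p : I → Finset B} {M : Set I} {N : ℕ}
    (hN : ∀ n, N ≤ n → lev e p M n = lev e p M N) (n : ℕ) : Dn e p M n ⊆ Dn e p M N := by
  rcases Nat.le_total N n with h | h
  · have h1 : Dn e p M n = Dn e p M N := congrArg Prod.snd (hN n h)
    rw [h1]
  · exact Dn_mono e p M h

/-- the limit: its classes are closed -/
theorem lim_cl {e p : I → Finset B} {M : Set I} {N : ℕ}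
    (hN : ∀ n, N ≤ n → lev e p M n = lev e p M N) :
    Rn e p M N ≤ cl e p (Rn e p M N) (Dn e p M N) ∅ F0 := by
  have h1 : Rn e p M (N + 1) = Rn e p M N := congrArg Prod.fst (hN (N + 1) (by omega))
  have h2 : Dn e p M (N + 1) = Dn e p M N := congrArg Prod.snd (hN (N + 1) (by omega))
  have h3 := Rn_closed (e := e) (p := p) (M := M) (N + 1) (by omega)
  rw [h1, h2] at h3
  exact h3

end lev

end Sk

end Pool.Agent.ClawHam
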