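import Pool.Agent.Lib.MP_e2dbb5_co.SK2

/-!
# The skeletal lemma: modifications of an optimal state (helper42)
-/

set_option autoImplicit false

open Finset

noncomputable section

namespace Pool.Agent.ClawHam

open Classical

namespace Sk

variable {B I : Type}

theorem upd_cl {e p p' : I → Finset B} {g : I} (hp' : ∀ i, i ≠ g → p' i = p i) {R : Setoid B}
    {D X : Set I} {F : B → B → Prop} {E : Setoid B} (hE : ACl e p' R D X F E)
    (h1 : g ∉ X → g ∉ D → p g = ∅ → ∀ x ∈ e g, ∀ y ∈ e g, R x y → E x y)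
    (h2 : g ∉ X → p g ≠ ∅ → (∀ a ∈ p g, ∀ b ∈ p g, E a b) → ∀ a ∈ p g, ∀ w ∈ e g,
      R a w → E a w) : cl e p R D X F ≤ E := by
  refine cl_min ⟨hE.1, fun i hiX hiD hpi x hx y hy hxy => ?_,
    fun i hiX hpi hab a ha w hw haw => ?_⟩
  · by_cases hig : i = g
    · subst hig
      exact h1 hiX hiD hpi x hx y hy hxy
    · exact hE.2.1 i hiX hiD (by rw [hp' i hig]; exact hpi) x hx y hy hxy
  · by_cases hig : i = g
    · subst hig
      exact h2 hiX hpi hab a ha w hw haw
    · exact hE.2.2 i hiX (by rw [hp' i hig]; exact hpi)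
        (by rw [hp' i hig]; exact hab) a (by rw [hp' i hig]; exact ha) w hw haw

theorem upd_clx {e p p' : I → Finset B} {g : I} (hp' : ∀ i, i ≠ g → p' i = p i) {R : Setoid B}
    {D X : Set I} {F : B → B → Prop} {E : Setoid B} (hE : ACl e p' R D X F E) :
    cl e p R D ({g} ∪ X) F ≤ E := by
  refine cl_min ⟨hE.1, fun i hiX hiD hpi x hx y hy hxy => ?_,
    fun i hiX hpi hab a ha w hw haw => ?_⟩
  · have hig : i ≠ g := fun h => hiX (Or.inl h)
    exact hE.2.1 i (fun h => hiX (Or.inr h)) hiD (by rw [hp' i hig]; exact hpi) x hx y hy hxy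
  · have hig : i ≠ g := fun h => hiX (Or.inl h)
    exact hE.2.2 i (fun h => hiX (Or.inr h)) (by rw [hp' i hig]; exact hpi)
      (by rw [hp' i hig]; exact hab) a (by rw [hp' i hig]; exact ha) w hw haw

theorem card3 {s : Finset B} (hs : s.card ≤ 3) {x y a b : B} (hx : x ∈ s) (hy : y ∈ s)
    (hxy : x ≠ y) (ha : a ∈ s) (hb : b ∈ s) (hax : a ≠ x) (hay : a ≠ y) (hbx : b ≠ x)
    (hby : b ≠ y) : a = b := by
  by_contra hab
  have h1 : ({x, y, a, b} : Finset B) ⊆ s := by
    intro w hw
    simp only [Finset.mem_insert, Finset.mem_singleton] at hw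
    rcases hw with rfl | rfl | rfl | rfl <;> assumption
  have h2 : ({x, y, a, b} : Finset B).card = 4 := by
    rw [Finset.card_insert_of_notMem, Finset.card_insert_of_notMem, Finset.card_pair hab]
    · simp only [Finset.mem_insert, Finset.mem_singleton, not_or]
      exact ⟨hay.symm, hby.symm⟩
    · simp only [Finset.mem_insert, Finset.mem_singleton, not_or]
      exact ⟨hxy, hax.symm, hbx.symm⟩
  have h3 := Finset.card_le_card h1
  omega

/-- the rule of a pair `x y`, together, gives all relations of the hyperedge -/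
theorem pair_all {s : Finset B} (hs : s.card ≤ 3) {x y : B} (hx : x ∈ s) (hy : y ∈ s)
    (hxy : x ≠ y) {R E : Setoid B}
    (h2 : ∀ a ∈ ({x, y} : Finset B), ∀ w ∈ s, R a w → E a w) :
    ∀ a ∈ s, ∀ b ∈ s, R a b → E a b := by
  intro a ha b hb hab
  by_cases h3 : a = x ∨ a = y
  · exact h2 a (by simpa using h3) b hb hab
  · by_cases h4 : b = x ∨ b = y
    · exact Setoid.symm' _ (h2 b (by simpa using h4) a ha (Setoid.symm' _ hab))
    · push Not at h3 h4
      rw [card3 hs hx hy hxy ha hb h3.1 h3.2 h4.1 h4.2]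

theorem leg_upd {e p : I → Finset B} (h : Leg e p) (g : I) {s : Finset B}
    (hs : s = ∅ ∨ s.card = 2) (hse : s ⊆ e g) : Leg e (Function.update p g s) := by
  refine ⟨fun i => ?_, fun i => ?_⟩
  · by_cases hig : i = g
    · subst hig
      rw [Function.update_self]
      exact hs
    · rw [Function.update_of_ne hig]
      exact h.1 i
  · by_cases hig : i = g
    · subst hig
      rw [Function.update_self]
      exact hse
    · rw [Function.update_of_ne hig]
      exact h.2 i

/-- the dead hyperedges are kept if `g` is not among them -/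
theorem newD_keep {e p p' : I → Finset B} {M : Set I} {g : I} {R : Setoid B} {D : Set I}
    (hg : g ∉ NewD e p M R D) (hG : gen p' R D = gen p R D)
    (hc : ∀ i ∈ NewD e p M R D, i ≠ g → ∀ u v, cl e p R D {i} (F1 u v) ≤
      cl e p' R D {i} (F1 u v)) : NewD e p M R D ⊆ NewD e p' (M \ {g}) R D := by
  intro i hi
  have hig : i ≠ g := fun h => hg (h ▸ hi)
  obtain ⟨hM, hin, u, hu, v, hv, t, ht, huv, h1, h2, h3⟩ := id hi
  exact ⟨⟨hM, hig⟩, hin, u, hu, v, hv, t, ht, huv, by rw [hG]; exact h1, by rw [hG]; exact h2,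
    hc i hi hig u v h3⟩

theorem mod1 : MOD1 := by
  intro B I _ _ e p M he hO g k x y hpg hx hy hgD hR hnG hcl
  have he3 : ∀ i, (e i).card ≤ 3 := fun i => by rcases he i with h | h <;> omega
  have hxy : x ≠ y := by rintro rfl; exact hnG (Setoid.refl' _ _)
  set p' := Function.update p g {x, y} with hp'
  have hpi : ∀ i, i ≠ g → p' i = p i := fun i hi => Function.update_of_ne hi _ _
  have hpg' : p' g = {x, y} := Function.update_self _ _ _
  have hleg : Leg e p' := leg_upd hO.leg g (Or.inr (Finset.card_pair hxy)) (by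
    intro w hw
    simp only [Finset.mem_insert, Finset.mem_singleton] at hw
    rcases hw with rfl | rfl <;> assumption)
  have hA : ∀ m ≤ k, HA p p' (Rn e p M m) (Dn e p M m) := by
    intro m _
    refine gen_min fun i hi a ha b hb hab => ?_
    have hig : i ≠ g := by
      rintro rfl
      rw [hpg] at ha
      exact Finset.notMem_empty _ ha
    exact gen_cl p' _ _ i hi a (by rw [hpi i hig]; exact ha) b (by rw [hpi i hig]; exact hb) hab
  have key : ∀ (R : Setoid B) (D X : Set I) (F : B → B → Prop), Rn e p M k ≤ R →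
      D ⊆ Dn e p M k → X ⊆ Dn e p M k → cl e p R D X F ≤ cl e p' R D X F := by
    intro R D X F h1 h2 h3
    have hE := cl_acl e p' R D X F
    have h4 : cl e p' R D X F x y :=
      upd_clx hpi hE (cl_lower he3 hO.leg h1 h2 {g} X h3 F hcl)
    have hgX : g ∉ X := fun h => hgD (h3 h)
    refine upd_cl hpi hE (fun _ _ _ => ?_) (fun _ h _ => absurd hpg h)
    refine pair_all (he3 g) hx hy hxy ?_
    intro a ha w hw haw
    refine hE.2.2 g hgX (by rw [hpg']; exact (Finset.insert_nonempty _ _).ne_empty) ?_ a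
      (by rw [hpg']; exact ha) w hw haw
    rw [hpg']
    intro a ha b hb
    simp only [Finset.mem_insert, Finset.mem_singleton] at ha hb
    rcases ha with rfl | rfl <;> rcases hb with rfl | rfl
    · exact Setoid.refl' _ _
    · exact h4
    · exact Setoid.symm' _ h4
    · exact Setoid.refl' _ _
  have hB : ∀ m < k, HB e p M p' (M \ {g}) (Rn e p M m) (Dn e p M m) := by
    intro m hm hG
    have h1 : Dn e p M (m + 1) ⊆ Dn e p M k := Dn_mono e p M hm
    refine newD_keep (fun h => hgD (h1 (Or.inr h))) hG fun i hi _ u v => ?_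
    exact key _ _ _ _ (Rn_anti e p M hm.le) (Dn_mono e p M hm.le)
      (Set.singleton_subset_iff.2 (h1 (Or.inr hi)))
  have hC : ∀ m < k, HC e p M p' (Rn e p M m) (Dn e p M m) := by
    intro m hm
    exact key _ _ _ _ (Rn_le_Gn e p M hm) (Dn_mono e p M (Nat.succ_le_of_lt hm))
      (Set.empty_subset _)
  have h1 := hO.eqG p' (M \ {g}) hleg k hA hB hC
  apply hnG
  rw [← h1]
  exact gen_cl p' _ _ g hgD x (by rw [hpg']; simp) y (by rw [hpg']; simp) hR

theorem mod2 : MOD2 := by
  intro B I _ _ e p M he hO f k x y t hpf hxy ht htx hty hfD hgen hR hnG hcl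
  have he3 : ∀ i, (e i).card ≤ 3 := fun i => by rcases he i with h | h <;> omega
  have hx : x ∈ e f := hO.leg.2 f (by rw [hpf]; simp)
  have hy : y ∈ e f := hO.leg.2 f (by rw [hpf]; simp)
  set p' := Function.update p f {x, t} with hp'
  have hpi : ∀ i, i ≠ f → p' i = p i := fun i hi => Function.update_of_ne hi _ _
  have hpf' : p' f = {x, t} := Function.update_self _ _ _
  have hleg : Leg e p' := leg_upd hO.leg f (Or.inr (Finset.card_pair htx.symm)) (by
    intro w hw
    simp only [Finset.mem_insert, Finset.mem_singleton] at hw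
    rcases hw with rfl | rfl <;> assumption)
  have hgle : ∀ m ≤ k, gen p (Rn e p M k) (Dn e p M k ∪ {f}) ≤
      gen p' (Rn e p M m) (Dn e p M m) := by
    intro m hm
    refine gen_min fun i hi a ha b hb hab => ?_
    have hig : i ≠ f := fun h => hi (Or.inr h)
    exact gen_cl p' _ _ i (fun h => hi (Or.inl (Dn_mono e p M hm h))) a
      (by rw [hpi i hig]; exact ha) b (by rw [hpi i hig]; exact hb) (Rn_anti e p M hm hab)
  have hA : ∀ m ≤ k, HA p p' (Rn e p M m) (Dn e p M m) := by
    intro m hm
    refine gen_min fun i hi a ha b hb hab => ?_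
    by_cases hig : i = f
    · subst hig
      have h1 := hgle m hm hgen
      rw [hpf] at ha hb
      simp only [Finset.mem_insert, Finset.mem_singleton] at ha hb
      rcases ha with rfl | rfl <;> rcases hb with rfl | rfl
      · exact Setoid.refl' _ _
      · exact h1
      · exact Setoid.symm' _ h1
      · exact Setoid.refl' _ _
    · exact gen_cl p' _ _ i hi a (by rw [hpi i hig]; exact ha) b
        (by rw [hpi i hig]; exact hb) hab
  have key : k ≠ 0 → ∀ (R : Setoid B) (D X : Set I) (F : B → B → Prop), Rn e p M k ≤ R →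
      D ⊆ Dn e p M k → X ⊆ Dn e p M k → cl e p R D X F ≤ cl e p' R D X F := by
    intro hk R D X F h1 h2 h3
    have hE := cl_acl e p' R D X F
    have h4 : cl e p' R D X F x y :=
      upd_clx hpi hE (cl_lower he3 hO.leg h1 h2 {f} X h3 F (hcl hk).1)
    have h5 : cl e p' R D X F x t :=
      upd_clx hpi hE (cl_lower he3 hO.leg h1 h2 {f} X h3 F (hcl hk).2)
    refine upd_cl hpi hE (fun _ _ h => ?_) (fun _ _ _ => ?_)
    · rw [hpf] at h
      exact absurd h (Finset.insert_nonempty _ _).ne_empty
    · intro a ha w hw _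
      have h6 : ∀ w ∈ e f, cl e p' R D X F x w := by
        intro w hw
        by_cases h7 : w = x
        · rw [h7]
        · by_cases h8 : w = y
          · rw [h8]; exact h4
          · rw [card3 (he3 f) hx hy hxy hw ht h7 h8 htx hty]
            exact h5
      exact Setoid.trans' _ (Setoid.symm' _ (h6 a (hO.leg.2 f ha))) (h6 w hw)
  have hB : ∀ m < k, HB e p M p' (M \ {f}) (Rn e p M m) (Dn e p M m) := by
    intro m hm hG
    have h1 : Dn e p M (m + 1) ⊆ Dn e p M k := Dn_mono e p M hm
    refine newD_keep (fun h => hfD (h1 (Or.inr h))) hG fun i hi _ u v => ?_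
    exact key (by omega) _ _ _ _ (Rn_anti e p M hm.le) (Dn_mono e p M hm.le)
      (Set.singleton_subset_iff.2 (h1 (Or.inr hi)))
  have hC : ∀ m < k, HC e p M p' (Rn e p M m) (Dn e p M m) := by
    intro m hm
    exact key (by omega) _ _ _ _ (Rn_le_Gn e p M hm) (Dn_mono e p M (Nat.succ_le_of_lt hm))
      (Set.empty_subset _)
  have h1 := hO.eqG p' (M \ {f}) hleg k hA hB hC
  apply hnG
  rw [← h1]
  exact gen_cl p' _ _ f hfD x (by rw [hpf']; simp) t (by rw [hpf']; simp) hR

/-- making a used hyperedge unused -/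
theorem rel_all {e p : I → Finset B} {M : Set I} (_ : ∀ i, (e i).card ≤ 3) (hl : Leg e p)
    {f : I} {x y : B} (hpf : p f = {x, y}) {m : ℕ}
    (hgen : gen p (Rn e p M m) (Dn e p M m ∪ {f}) x y) :
    HA p (Function.update p f ∅) (Rn e p M m) (Dn e p M m) ∧
    (f ∉ Dn e p M (m + 1) →
      HB e p M (Function.update p f ∅) (M \ {f}) (Rn e p M m) (Dn e p M m) ∧
      HC e p M (Function.update p f ∅) (Rn e p M m) (Dn e p M m)) := by
  set p' := Function.update p f ∅ with hp'
  have hpi : ∀ i, i ≠ f → p' i = p i := fun i hi => Function.update_of_ne hi _ _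
  have hpf' : p' f = ∅ := Function.update_self _ _ _
  have hgle : gen p (Rn e p M m) (Dn e p M m ∪ {f}) ≤ gen p' (Rn e p M m) (Dn e p M m) := by
    refine gen_min fun i hi a ha b hb hab => ?_
    have hig : i ≠ f := fun h => hi (Or.inr h)
    exact gen_cl p' _ _ i (fun h => hi (Or.inl h)) a
      (by rw [hpi i hig]; exact ha) b (by rw [hpi i hig]; exact hb) hab
  refine ⟨?_, fun hf => ⟨?_, ?_⟩⟩
  · refine gen_min fun i hi a ha b hb hab => ?_
    by_cases hig : i = f
    · subst hig
      have h1 := hgle hgen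
      rw [hpf] at ha hb
      simp only [Finset.mem_insert, Finset.mem_singleton] at ha hb
      rcases ha with rfl | rfl <;> rcases hb with rfl | rfl
      · exact Setoid.refl' _ _
      · exact h1
      · exact Setoid.symm' _ h1
      · exact Setoid.refl' _ _
    · exact gen_cl p' _ _ i hi a (by rw [hpi i hig]; exact ha) b
        (by rw [hpi i hig]; exact hb) hab
  · intro hG
    refine newD_keep (fun h => hf (Or.inr h)) hG fun i hi hif u v => ?_
    have hE := cl_acl e p' (Rn e p M m) (Dn e p M m) {i} (F1 u v)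
    refine upd_cl hpi hE (fun _ _ h => ?_) (fun h1 _ _ a ha w hw haw => ?_)
    · rw [hpf] at h
      exact absurd h (Finset.insert_nonempty _ _).ne_empty
    · exact hE.2.1 f h1 (fun h => hf (Or.inl h)) hpf' a (hl.2 f ha) w hw haw
  · have hE := cl_acl e p' (gen p (Rn e p M m) (Dn e p M m))
      (Dn e p M m ∪ NewD e p M (Rn e p M m) (Dn e p M m)) ∅ F0
    refine upd_cl hpi hE (fun _ _ h => ?_) (fun h1 _ _ a ha w hw haw => ?_)
    · rw [hpf] at h
      exact absurd h (Finset.insert_nonempty _ _).ne_empty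
    · exact hE.2.1 f h1 hf hpf' a (hl.2 f ha) w hw haw

theorem gen_low {e p : I → Finset B} {M : Set I} {f : I} {m k : ℕ} (h : m ≤ k) :
    gen p (Rn e p M k) (Dn e p M k ∪ {f}) ≤ gen p (Rn e p M m) (Dn e p M m ∪ {f}) :=
  gen_mono p (Rn_anti e p M h) (Set.union_subset_union_left _ (Dn_mono e p M h))

theorem mod3 : MOD3 := by
  intro B I _ _ e p M he hO f k x y hpf hxy hfD hgen
  have he3 : ∀ i, (e i).card ≤ 3 := fun i => by rcases he i with h | h <;> omega
  have hx : x ∈ e f := hO.leg.2 f (by rw [hpf]; simp)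
  have hy : y ∈ e f := hO.leg.2 f (by rw [hpf]; simp)
  have hleg : Leg e (Function.update p f ∅) :=
    leg_upd hO.leg f (Or.inl rfl) (Finset.empty_subset _)
  have h1 : ∀ m ≤ k, _ := fun m (hm : m ≤ k) =>
    rel_all he3 hO.leg hpf (m := m) (M := M) (gen_low hm hgen)
  have h2 : ∀ m ≤ k, f ∉ Dn e p M (m + 1) := fun m hm h => hfD (Dn_mono e p M (by omega) h)
  have h3 := hO.eqR (Function.update p f ∅) (M \ {f}) hleg k (fun m hm => (h1 m hm).1)
    (fun m hm => ((h1 m hm).2 (h2 m hm)).1) (fun m hm => ((h1 m hm).2 (h2 m hm)).2)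
  apply h3
  have hE := cl_acl e (Function.update p f ∅) (Gn e p M k) (Dn e p M (k + 1)) ∅ F0
  exact hE.2.1 f (Set.notMem_empty _) hfD (Function.update_self _ _ _) x hx y hy
    (gen_mono p le_rfl Set.subset_union_left hgen)

theorem mod3' : MOD3' := by
  intro B I _ _ e p M he hO f x y hpf hxy hfD hgen
  have he3 : ∀ i, (e i).card ≤ 3 := fun i => by rcases he i with h | h <;> omega
  have hleg : Leg e (Function.update p f ∅) :=
    leg_upd hO.leg f (Or.inl rfl) (Finset.empty_subset _)
  have h1 : ∀ m, _ := fun m => rel_all he3 hO.leg hpf (m := m) (M := M) (hgen m)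
  have h3 := hO.tie (Function.update p f ∅) (M \ {f}) hleg (fun m => (h1 m).1)
    (fun m => ((h1 m).2 (hfD (m + 1))).1) (fun m => ((h1 m).2 (hfD (m + 1))).2)
  have h4 : used (Function.update p f ∅) < used p := by
    unfold used
    apply Finset.card_lt_card
    rw [Finset.ssubset_iff_of_subset]
    · refine ⟨f, ?_, ?_⟩
      · simp only [Finset.mem_filter, Finset.mem_univ, true_and]
        rw [hpf]
        exact (Finset.insert_nonempty _ _).ne_empty
      · simp
    · intro i hi
      simp only [Finset.mem_filter, Finset.mem_univ, true_and] at hi ⊢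
      by_cases hif : i = f
      · subst hif
        rw [Function.update_self] at hi
        exact absurd rfl hi
      · rwa [Function.update_of_ne hif] at hi
  omega

theorem mod4 : MOD4 := by
  intro B I _ _ e p M _ hO g k u v t hin hu hv ht huv h1 h2 h3
  have hsub : ∀ R D, NewD e p M R D ⊆ NewD e p (insert g M) R D := by
    rintro R D i ⟨hM, hi⟩
    exact ⟨Or.inr hM, hi⟩
  have h4 := hO.eqD p (insert g M) hO.leg k (fun m _ => le_rfl) (fun m _ _ => hsub _ _)
    (fun m _ => le_rfl)
  exact h4 ⟨Or.inl rfl, hin, u, hu, v, hv, t, ht, huv, h1, h2, h3⟩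

end Sk

end Pool.Agent.ClawHam
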