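import Pool.Agent.Lib.MP_e2dbb5_co.SK3
import Pool.Agent.Lib.MP_e2dbb5_co.SK_CIR

/-!
# The skeletal lemma: the links of an optimal state are not redundant (row CAC, helper42)
-/

set_option autoImplicit false

open Finset

noncomputable section

namespace Pool.Agent.ClawHam

open Classical

namespace Sk

variable {B I : Type}

/-- a link joins its vertices inside a class of `R` -/
theorem link_rel {e p : I → Finset B} (he : ∀ i, (e i).card ≤ 3) (hp : Leg e p) {Ri R : Setoid B}
    {D X : Set I} {F : B → B → Prop} {E : Setoid B} (hE : ACl e p R D X F E) (hRE : Ri ≤ E)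
    {j : I} (hL : ∀ a ∈ p j, ∀ b ∈ p j, Ri a b) (hX : j ∉ X) (hD : p j = ∅ → j ∉ D) {x y : B}
    (hx : x ∈ e j) (hy : y ∈ e j) (hn : ¬ Ri x y) (hR : R x y) : E x y := by
  by_cases hpj : p j = ∅
  · exact hE.2.1 j hX (hD hpj) hpj x hx y hy hR
  · have h1 := hE.2.2 j hX hpj fun a ha b hb => hRE (hL a ha b hb)
    by_cases hxp : x ∈ p j
    · exact h1 x hxp y hy hR
    · by_cases hyp : y ∈ p j
      · exact Setoid.symm' _ (h1 y hyp x hx (Setoid.symm' _ hR))
      · exfalso
        obtain ⟨c, d, hcd, hpcd⟩ := Finset.card_eq_two.1 ((hp.1 j).resolve_left hpj)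
        have hc : c ∈ p j := by rw [hpcd]; simp
        have hd : d ∈ p j := by rw [hpcd]; simp
        apply hn
        rw [card3 (he j) (hp.2 j hc) (hp.2 j hd) hcd hx hy (fun h => hxp (h ▸ hc))
          (fun h => hxp (h ▸ hd)) (fun h => hyp (h ▸ hc)) (fun h => hyp (h ▸ hd))]

theorem cac (hT : TAC) : CAC := by
  intro B I _ _ _ e p M he hO N hN g₀ hg₀ x₀ hx₀ y₀ hy₀ hn₀ hcon
  have he3 : ∀ i, (e i).card ≤ 3 := fun i => by rcases he i with h | h <;> omega
  set Ri := Rn e p M N with hRi
  set Di := Dn e p M N with hDi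
  obtain ⟨Z, a, b, hgZ, hZL, -, -, hZ⟩ := cir B I e he3 Ri {j | ∀ a ∈ p j, ∀ b ∈ p j, Ri a b} g₀
    x₀ y₀ hg₀ hx₀ hy₀ hn₀ (by
      intro E hE
      exact hcon E ⟨hE.1, fun j hj hL => hE.2 j hL hj⟩)
  have hlim : Ri ≤ cl e p Ri Di ∅ F0 := lim_cl hN
  -- the other links of the circuit join the vertices of a link
  have LNK : ∀ (R : Setoid B) (D : Set I) (F : B → B → Prop) (i : I), i ∈ Z →
      (∀ j ∈ Z, R (a j) (b j)) → (∀ j ∈ Z, p j = ∅ → j ∉ D) →
      Ri ≤ cl e p R D {i} F → cl e p R D {i} F (a i) (b i) := by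
    intro R D F i hi hR hD hle
    refine (hZ i hi).2.2.2 _ ⟨hle, fun j hj hji => ?_⟩
    exact link_rel he3 hO.leg (cl_acl e p R D {i} F) hle (hZL hj) hji (hD j hj)
      (hZ j hj).1 (hZ j hj).2.1 (hZ j hj).2.2.1 (hR j hj)
  -- the limit classes are in a closure without `g`
  have RINF : ∀ (R : Setoid B) (D : Set I) (F : B → B → Prop) (i : I), Ri ≤ R → D ⊆ Di →
      (i ∉ Di → p i = ∅ → ∀ x ∈ e i, ∀ y ∈ e i, Ri x y → cl e p R D {i} F x y) →
      (p i ≠ ∅ → (∀ a ∈ p i, ∀ b ∈ p i, cl e p R D {i} F a b) → ∀ a ∈ p i, ∀ w ∈ e i,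
        Ri a w → cl e p R D {i} F a w) → Ri ≤ cl e p R D {i} F := by
    intro R D F i hR hD h1 h2
    refine hlim.trans ?_
    obtain ⟨hE1, hE2, hE3⟩ := cl_acl e p R D {i} F
    refine cl_comp (X := {i}) (R := R) (D := D) hR hD (fun _ _ h => h.elim) hE2 hE3 ?_ ?_
    · intro j hj _ hjD hpj
      rw [Set.mem_singleton_iff] at hj
      subst hj
      exact h1 hjD hpj
    · intro j hj _ hpj
      rw [Set.mem_singleton_iff] at hj
      subst hj
      exact h2 hpj
  -- step A
  have NODEAD : ∀ m, (∀ j ∈ Z, Gn e p M m (a j) (b j)) →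
      ¬ ∃ j ∈ Z, p j = ∅ ∧ j ∈ Dn e p M (m + 1) := by
    intro m hm hex
    have hex2 : ∃ m, ∃ j ∈ Z, p j = ∅ ∧ j ∈ Dn e p M (m + 1) := ⟨m, hex⟩
    set m' := Nat.find hex2 with hm'
    have hle : m' ≤ m := Nat.find_min' hex2 hex
    obtain ⟨g, hgZ', hpg, hgD⟩ := Nat.find_spec hex2
    rw [← hm'] at hgD
    have hno : ∀ j ∈ Z, p j = ∅ → j ∉ Dn e p M m' := by
      intro j hj hpj hjD
      rcases Nat.eq_zero_or_pos m' with h0 | h0
      · rw [h0, Dn_zero] at hjD
        exact hjD.elim
      · obtain ⟨k, hk⟩ := Nat.exists_eq_succ_of_ne_zero h0.ne'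
        rw [hk] at hjD
        exact Nat.find_min hex2 (m := k) (by omega) ⟨j, hj, hpj, hjD⟩
    have hgm : ∀ j ∈ Z, Gn e p M m' (a j) (b j) := fun j hj => Gn_anti e p M hle (hm j hj)
    have hgnew : g ∈ NewD e p M (Rn e p M m') (Dn e p M m') := by
      rw [Dn_succ] at hgD
      exact hgD.resolve_left (hno g hgZ' hpg)
    obtain ⟨u, v, t, hu, hv, ht, huv, hut, hvt, he', hin, hG, hn1, hn2, hval, -⟩ :=
      newD_pat he3 hO.leg (hno g hgZ' hpg) hgnew
    set E := cl e p (Rn e p M m') (Dn e p M m') {g} F0 with hE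
    have hRE : Ri ≤ E := by
      refine hlim.trans ?_
      have := cl_lower (M := M) he3 hO.leg (k := N) (lim_Rn hN m') (lim_Dn hN m') ∅ {g}
        (Set.singleton_subset_iff.2 (lim_Dn hN (m' + 1) hgD)) F0
      rw [Set.empty_union] at this
      exact this
    have h1 : E (a g) (b g) := LNK _ _ _ g hgZ'
      (fun j hj => Gn_le e p M m' (hgm j hj)) hno hRE
    obtain ⟨hag, hbg, hnab, -⟩ := hZ g hgZ'
    have hGab := hgm g hgZ'
    have h2 : E u v := by
      rw [he'] at hag hbg
      simp only [Finset.mem_insert, Finset.mem_singleton] at hag hbg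
      have hne : a g ≠ b g := fun h => hnab (h ▸ Setoid.refl' _ _)
      rcases hag with ha | ha | ha <;> rcases hbg with hb | hb | hb <;>
        rw [ha, hb] at hne h1 hGab
      · exact absurd rfl hne
      · exact h1
      · exact absurd hGab hn1
      · exact Setoid.symm' _ h1
      · exact absurd rfl hne
      · exact absurd hGab hn2
      · exact absurd (Setoid.symm' _ hGab) hn1
      · exact absurd (Setoid.symm' _ hGab) hn2
      · exact absurd rfl hne
    have h3 : E u t := by
      obtain ⟨hE1, hE2, hE3⟩ := cl_acl e p (Rn e p M m') (Dn e p M m') {g} F0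
      refine cl_min ⟨?_, hE2, hE3⟩ hval
      rintro x y ⟨rfl, rfl⟩
      exact h2
    exact mod1 B I e p M he hO g m' u t hpg hu ht (hno g hgZ' hpg) (hin u hu t ht) hn1 h3
  -- the first level which separates the circuit
  have hex : ∃ n, ¬ ∀ j ∈ Z, Rn e p M n (a j) (b j) :=
    ⟨N, fun h => (hZ g₀ hgZ).2.2.1 (h g₀ hgZ)⟩
  have h0 : Nat.find hex ≠ 0 := by
    intro h
    have := Nat.find_spec hex
    rw [h] at this
    exact this fun _ _ => trivial
  obtain ⟨n, hn⟩ := Nat.exists_eq_succ_of_ne_zero h0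
  have hPn : ∀ j ∈ Z, Rn e p M n (a j) (b j) := by
    have := Nat.find_min hex (m := n) (by omega)
    exact not_not.1 this
  have hPn1 : ¬ ∀ j ∈ Z, Rn e p M (n + 1) (a j) (b j) := by
    have := Nat.find_spec hex
    rw [hn] at this
    exact this
  have hGn : ¬ ∀ j ∈ Z, Gn e p M n (a j) (b j) := by
    intro hG
    apply hPn1
    intro j hj
    have hnd := NODEAD n hG
    rw [Rn_succ]
    have hle : Ri ≤ Rn e p M (n + 1) := lim_Rn hN (n + 1)
    rw [Rn_succ] at hle
    refine link_rel he3 hO.leg (cl_acl e p _ _ ∅ F0) hle (hZL hj) (Set.notMem_empty _) ?_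
      (hZ j hj).1 (hZ j hj).2.1 (hZ j hj).2.2.1 (hG j hj)
    intro hpj hjD
    exact hnd ⟨j, hj, hpj, hjD⟩
  have hnoD : ∀ j ∈ Z, p j = ∅ → j ∉ Dn e p M n := by
    intro j hj hpj hjD
    rcases Nat.eq_zero_or_pos n with h0 | h0
    · rw [h0, Dn_zero] at hjD
      exact hjD.elim
    · obtain ⟨k, rfl⟩ := Nat.exists_eq_succ_of_ne_zero h0.ne'
      exact NODEAD k (fun j hj => Rn_succ_le e p M k (hPn j hj)) ⟨j, hj, hpj, hjD⟩
  push Not at hGn
  obtain ⟨g, hgZ', hng⟩ := hGn
  obtain ⟨hag, hbg, hnab, -⟩ := hZ g hgZ'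
  have hle : Ri ≤ Rn e p M n := lim_Rn hN n
  have hleG : Ri ≤ Gn e p M n := lim_Gn hN n
  have hDle : Dn e p M n ⊆ Di := lim_Dn hN n
  -- if the pair u, v of g is in a limit class then g is dead in the limit
  have MARK : ∀ u v s t : B, (∀ w ∈ e g, w = u ∨ w = v ∨ w = t) → u ∈ e g → v ∈ e g →
      t ∈ e g → u ≠ v → Ri u v → Ri u s → (s = a g ∧ t = b g ∨ s = b g ∧ t = a g) →
      (p g ≠ ∅ → p g = {u, v}) → g ∈ Di := by
    intro u v s t hw hu hv ht huv hRuv hRus hst hpuv
    have hRst : Rn e p M n s t := by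
      rcases hst with ⟨rfl, rfl⟩ | ⟨rfl, rfl⟩
      · exact hPn g hgZ'
      · exact Setoid.symm' _ (hPn g hgZ')
    have hnst : ¬ Gn e p M n s t := by
      rcases hst with ⟨rfl, rfl⟩ | ⟨rfl, rfl⟩
      · exact hng
      · exact fun h => hng (Setoid.symm' _ h)
    have hRu : ∀ w ∈ e g, Rn e p M n u w := by
      intro w hwg
      rcases hw w hwg with rfl | rfl | rfl
      · exact Setoid.refl' _ _
      · exact hle hRuv
      · exact Setoid.trans' _ (hle hRus) hRst
    have hnut : ¬ Gn e p M n u t := fun h =>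
      hnst (Setoid.trans' _ (Setoid.symm' _ (hleG hRus)) h)
    have hnRut : ¬ Ri u t := fun h => hnut (hleG h)
    have hnRvt : ¬ Ri v t := fun h => hnRut (Setoid.trans' _ hRuv h)
    set E := cl e p (Rn e p M n) (Dn e p M n) {g} (F1 u v) with hE
    have hEuv : E u v := (cl_acl e p (Rn e p M n) (Dn e p M n) {g} (F1 u v)).1 u v ⟨rfl, rfl⟩
    have hRE : Ri ≤ E := by
      apply RINF _ _ _ g hle hDle
      · intro _ _ x hx y hy hxy
        rcases hw x hx with rfl | rfl | rfl <;> rcases hw y hy with rfl | rfl | rfl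
        · exact Setoid.refl' _ _
        · exact hEuv
        · exact absurd hxy hnRut
        · exact Setoid.symm' _ hEuv
        · exact Setoid.refl' _ _
        · exact absurd hxy hnRvt
        · exact absurd (Setoid.symm' _ hxy) hnRut
        · exact absurd (Setoid.symm' _ hxy) hnRvt
        · exact Setoid.refl' _ _
      · intro hpg _ x hx y hy hxy
        rw [hpuv hpg] at hx
        simp only [Finset.mem_insert, Finset.mem_singleton] at hx
        rcases hx with rfl | rfl <;> rcases hw y hy with rfl | rfl | rfl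
        · exact Setoid.refl' _ _
        · exact hEuv
        · exact absurd hxy hnRut
        · exact Setoid.symm' _ hEuv
        · exact Setoid.refl' _ _
        · exact absurd hxy hnRvt
    have hEab := LNK _ _ _ g hgZ' hPn hnoD hRE
    have hEst : E s t := by
      rcases hst with ⟨rfl, rfl⟩ | ⟨rfl, rfl⟩
      · exact hEab
      · exact Setoid.symm' _ hEab
    have h5 := mod4 B I e p M he hO g n u v t
      (fun x hx y hy => Setoid.trans' _ (Setoid.symm' _ (hRu x hx)) (hRu y hy)) hu hv ht huv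
      (hleG hRuv) hnut (Setoid.trans' _ (hRE hRus) hEst)
    exact lim_Dn hN (n + 1) h5
  have hne : a g ≠ b g := fun h => hnab (h ▸ Setoid.refl' _ _)
  by_cases hpg : p g = ∅
  · -- unused
    have hRE : Ri ≤ cl e p (Rn e p M n) (Dn e p M n) {g} F0 := by
      apply RINF _ _ _ g hle hDle
      · intro hgD _ x hx y hy hxy
        by_cases hxy' : x = y
        · rw [hxy']
        · exfalso
          apply hgD
          -- the vertex t in {a g, b g} not related to x
          by_cases hxa : Ri x (a g)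
          · have hxb : ¬ Ri x (b g) := fun h =>
              hnab (Setoid.trans' _ (Setoid.symm' _ hxa) h)
            refine MARK x y (a g) (b g) (fun w hw => ?_) hx hy hbg hxy' hxy hxa
              (Or.inl ⟨rfl, rfl⟩) (fun h => absurd hpg h)
            by_contra h
            push Not at h
            exact h.2.2 (card3 (he3 g) hx hy hxy' hw hbg h.1 h.2.1
              (fun h' => hxb (h' ▸ Setoid.refl' _ _)) (fun h' => hxb (h' ▸ hxy)))
          · have hxb : Ri x (b g) := by
              by_contra hxb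
              -- a g and b g are both different from x and y
              exact hne (card3 (he3 g) hx hy hxy' hag hbg
                (fun h' => hxa (h' ▸ Setoid.refl' _ _)) (fun h' => hxa (h' ▸ hxy))
                (fun h' => hxb (h' ▸ Setoid.refl' _ _)) (fun h' => hxb (h' ▸ hxy)))
            refine MARK x y (b g) (a g) (fun w hw => ?_) hx hy hag hxy' hxy hxb
              (Or.inr ⟨rfl, rfl⟩) (fun h => absurd hpg h)
            by_contra h
            push Not at h
            exact h.2.2 (card3 (he3 g) hx hy hxy' hw hag h.1 h.2.1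
              (fun h' => hxa (h' ▸ Setoid.refl' _ _)) (fun h' => hxa (h' ▸ hxy)))
      · exact fun h => absurd hpg h
    have hEab := LNK _ _ _ g hgZ' hPn hnoD hRE
    exact mod1 B I e p M he hO g n (a g) (b g) hpg hag hbg (hnoD g hgZ' hpg) (hPn g hgZ') hng hEab
  · -- used
    obtain ⟨c, d, hcd, hpcd⟩ := Finset.card_eq_two.1 ((hO.leg.1 g).resolve_left hpg)
    have hc : c ∈ p g := by rw [hpcd]; simp
    have hd : d ∈ p g := by rw [hpcd]; simp
    have hce := hO.leg.2 g hc
    have hde := hO.leg.2 g hd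
    have hRcd : Ri c d := hZL hgZ' c hc d hd
    have hgD : g ∈ Di := by
      by_cases hap : a g ∈ p g
      · have hbp : b g ∉ p g := fun h => hnab (hZL hgZ' _ hap _ h)
        refine MARK c d (a g) (b g) (fun w hw => ?_) hce hde hbg hcd hRcd
          (hZL hgZ' _ hc _ hap) (Or.inl ⟨rfl, rfl⟩) (fun _ => hpcd)
        by_contra h
        push Not at h
        exact h.2.2 (card3 (he3 g) hce hde hcd hw hbg h.1 h.2.1
          (fun h' => hbp (h' ▸ hc)) (fun h' => hbp (h' ▸ hd)))
      · have hbp : b g ∈ p g := by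
          by_contra hbp
          exact hne (card3 (he3 g) hce hde hcd hag hbg
            (fun h' => hap (h' ▸ hc)) (fun h' => hap (h' ▸ hd))
            (fun h' => hbp (h' ▸ hc)) (fun h' => hbp (h' ▸ hd)))
        refine MARK c d (b g) (a g) (fun w hw => ?_) hce hde hag hcd hRcd
          (hZL hgZ' _ hc _ hbp) (Or.inr ⟨rfl, rfl⟩) (fun _ => hpcd)
        by_contra h
        push Not at h
        exact h.2.2 (card3 (he3 g) hce hde hcd hw hag h.1 h.2.1
          (fun h' => hap (h' ▸ hc)) (fun h' => hap (h' ▸ hd)))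
    have h6 : gen p Ri Di = Ri := lim_gen hN
    have h7 : gen p ⊤ {g} c d := by
      have h8 : gen p Ri Di ≤ gen p ⊤ {g} := gen_mono p le_top (Set.singleton_subset_iff.2 hgD)
      rw [h6] at h8
      exact h8 hRcd
    exact hT B I e p M he hO g c hc d hd hcd h7

end Sk

end Pool.Agent.ClawHam
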