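import Pool.Agent.Lib.MP_e2dbb5_co.SK_CIR

/-!
# The bridge count (row CNT), helper81
-/

set_option autoImplicit false

open Finset

noncomputable section

namespace Pool.Agent.ClawHam

open Classical

namespace Sk

section

variable {B : Type} [Fintype B]

/-- the number of classes -/
def ncl (E : Setoid B) : ℕ := Fintype.card (Quotient E)

theorem ncl_mono {E E' : Setoid B} (h : E ≤ E') : ncl E' ≤ ncl E := by
  unfold ncl
  refine Fintype.card_le_of_surjective
    (Quotient.map' (s₁ := E) (s₂ := E') id fun x y hxy => h hxy) ?_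
  intro q
  induction q using Quotient.inductionOn with
  | h x => exact ⟨Quotient.mk E x, rfl⟩

theorem ncl_pos [Nonempty B] (E : Setoid B) : 1 ≤ ncl E := by
  unfold ncl
  obtain ⟨b⟩ := (inferInstance : Nonempty B)
  exact Fintype.card_pos_iff.2 ⟨Quotient.mk E b⟩

theorem ncl_two {E : Setoid B} (h : E ≠ ⊤) : 2 ≤ ncl E := by
  by_contra hlt
  apply h
  rw [eq_top_iff]
  intro x y _
  have h1 : Fintype.card (Quotient E) ≤ 1 := by
    unfold ncl at hlt
    omega
  exact Quotient.exact (Fintype.card_le_one_iff.1 h1 (Quotient.mk E x) (Quotient.mk E y))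

theorem ncl_split (E : Setoid B) (P : Finset B) :
    (univ.filter fun q : Quotient E => q ∉ P.image (Quotient.mk E)).card +
      (P.image (Quotient.mk E)).card = ncl E := by
  unfold ncl
  rw [← Finset.card_univ (α := Quotient E)]
  rw [← Finset.card_filter_add_card_filter_not (s := (univ : Finset (Quotient E)))
    (fun q => q ∉ P.image (Quotient.mk E))]
  congr 1
  congr 1
  ext q
  simp

/-- joining the vertices of `P`, upper bound for the number of classes -/
theorem ncl_joinS_le (E : Setoid B) (P : Finset B) :
    ncl (joinS E (P : Set B)) + ((P.image (Quotient.mk E)).card - 1) ≤ ncl E := by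
  rcases P.eq_empty_or_nonempty with rfl | ⟨p₀, hp₀⟩
  · simp only [Finset.image_empty, Finset.card_empty, Nat.zero_sub, Nat.add_zero]
    exact ncl_mono (le_joinS _ _)
  · have h1 := ncl_split E P
    set N := univ.filter fun q : Quotient E => q ∉ P.image (Quotient.mk E) with hN
    have h2 : ncl (joinS E (P : Set B)) ≤ (insert (Quotient.mk E p₀) N).card := by
      unfold ncl
      rw [← Finset.card_univ (α := Quotient (joinS E (P : Set B)))]
      refine Finset.card_le_card_of_surjOn
        (Quotient.map' (s₁ := E) (s₂ := joinS E (P : Set B)) id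
          fun x y hxy => le_joinS E _ hxy) ?_
      intro q _
      induction q using Quotient.inductionOn with
      | h x =>
        by_cases hx : Quotient.mk E x ∈ P.image (Quotient.mk E)
        · obtain ⟨p, hp, hpx⟩ := Finset.mem_image.1 hx
          refine ⟨Quotient.mk E p₀, Finset.mem_coe.2 (Finset.mem_insert_self _ _), ?_⟩
          refine Quotient.sound (s := joinS E (P : Set B)) ?_
          exact Or.inr ⟨⟨p₀, hp₀, E.refl' p₀⟩, ⟨p, hp, E.symm' (Quotient.exact hpx)⟩⟩
        · exact ⟨Quotient.mk E x, Finset.mem_coe.2 (Finset.mem_insert_of_mem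
            (Finset.mem_filter.2 ⟨Finset.mem_univ _, hx⟩)), rfl⟩
    have h3 := Finset.card_insert_le (Quotient.mk E p₀) N
    have h4 : 1 ≤ (P.image (Quotient.mk E)).card :=
      Finset.card_pos.2 ⟨_, Finset.mem_image_of_mem _ hp₀⟩
    omega

/-- joining the vertices of `P`, lower bound for the number of classes -/
theorem le_ncl_joinS (E : Setoid B) (P : Finset B) (hP : P.Nonempty) :
    ncl E + 1 ≤ ncl (joinS E (P : Set B)) + (P.image (Quotient.mk E)).card := by
  obtain ⟨p₀, hp₀⟩ := hP
  have h1 := ncl_split E P
  set N := univ.filter fun q : Quotient E => q ∉ P.image (Quotient.mk E) with hN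
  have h2 : (insert (Quotient.mk E p₀) N).card ≤ ncl (joinS E (P : Set B)) := by
    unfold ncl
    rw [← Finset.card_univ (α := Quotient (joinS E (P : Set B)))]
    refine Finset.card_le_card_of_injOn
      (Quotient.map' (s₁ := E) (s₂ := joinS E (P : Set B)) id
        fun x y hxy => le_joinS E _ hxy) (fun _ _ => Finset.mem_coe.2 (Finset.mem_univ _)) ?_
    -- a class which does not meet `P` is not changed
    have key : ∀ x y : B, Quotient.mk E x ∉ P.image (Quotient.mk E) →
        joinS E (P : Set B) x y → E x y := by
      intro x y hx hxy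
      rcases hxy with h | ⟨⟨p, hp, hxp⟩, -⟩
      · exact h
      · exact absurd (Finset.mem_image.2 ⟨p, hp, Quotient.sound (E.symm' hxp)⟩) hx
    intro q hq q' hq' hqq
    induction q using Quotient.inductionOn with
    | h x =>
      induction q' using Quotient.inductionOn with
      | h y =>
        have hxy : joinS E (P : Set B) x y := Quotient.exact hqq
        rcases Finset.mem_insert.1 (Finset.mem_coe.1 hq) with hx | hx
        · rcases Finset.mem_insert.1 (Finset.mem_coe.1 hq') with hy | hy
          · rw [hx, hy]
          · exact (Quotient.sound (key y x (Finset.mem_filter.1 hy).2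
              ((joinS E (P : Set B)).symm' hxy))).symm
        · exact Quotient.sound (key x y (Finset.mem_filter.1 hx).2 hxy)
  have h3 : (insert (Quotient.mk E p₀) N).card = N.card + 1 := by
    refine Finset.card_insert_of_notMem fun h => ?_
    exact (Finset.mem_filter.1 h).2 (Finset.mem_image_of_mem _ hp₀)
  omega

end

section

variable {B I : Type}

/-- the relation generated by `R` and the sets `f i`, `i ∈ S` -/
def jf (R : Setoid B) (f : I → Finset B) (S : Finset I) : Setoid B :=
  sInf {E : Setoid B | R ≤ E ∧ ∀ j ∈ S, ∀ a ∈ f j, ∀ b ∈ f j, E a b}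

theorem jf_le {R E : Setoid B} {f : I → Finset B} {S : Finset I} (h1 : R ≤ E)
    (h2 : ∀ j ∈ S, ∀ a ∈ f j, ∀ b ∈ f j, E a b) : jf R f S ≤ E := sInf_le ⟨h1, h2⟩

theorem le_jf (R : Setoid B) (f : I → Finset B) (S : Finset I) : R ≤ jf R f S :=
  le_sInf fun _ hE => hE.1

theorem jf_mem (R : Setoid B) {f : I → Finset B} {S : Finset I} {j : I} (hj : j ∈ S) {a b : B}
    (ha : a ∈ f j) (hb : b ∈ f j) : jf R f S a b :=
  sInf_rel.2 fun _ hE => hE.2 j hj a ha b hb

theorem jf_mono (R : Setoid B) (f : I → Finset B) {S S' : Finset I} (h : S ⊆ S') :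
    jf R f S ≤ jf R f S' :=
  jf_le (le_jf _ _ _) fun _ hj _ ha _ hb => jf_mem R (h hj) ha hb

variable [Fintype B]

/-- the bridge count -/
theorem bridge_count (R : Setoid B) (f : I → Finset B) (S : Finset I)
    (hS : ∀ g ∈ S, ∀ x ∈ f g, ∀ y ∈ f g, ¬ R x y → ¬ jf R f (S.erase g) x y) :
    ncl (jf R f S) + ∑ g ∈ S, (((f g).image (Quotient.mk R)).card - 1) ≤ ncl R := by
  have main : ∀ S' : Finset I, S' ⊆ S →
      ncl (jf R f S') + ∑ g ∈ S', (((f g).image (Quotient.mk R)).card - 1) ≤ ncl R := by
    intro S'
    induction S' using Finset.induction_on with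
    | empty =>
      intro _
      rw [Finset.sum_empty, Nat.add_zero]
      exact ncl_mono (le_jf _ _ _)
    | insert g S' hg ih =>
      intro hsub
      have hgS : g ∈ S := hsub (Finset.mem_insert_self _ _)
      have h1 := ih ((Finset.subset_insert _ _).trans hsub)
      have h2 : joinS (jf R f S') (f g : Set B) ≤ jf R f (insert g S') := by
        intro x y hxy
        rcases hxy with h | ⟨⟨a, ha, hxa⟩, b, hb, hyb⟩
        · exact jf_mono R f (Finset.subset_insert _ _) h
        · have h3 := jf_mono R f (Finset.subset_insert g S')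
          exact (jf R f (insert g S')).trans' (h3 hxa) ((jf R f (insert g S')).trans'
            (jf_mem R (Finset.mem_insert_self _ _) ha hb)
            ((jf R f (insert g S')).symm' (h3 hyb)))
      have h3 := ncl_mono h2
      have h4 := ncl_joinS_le (jf R f S') (f g)
      have h5 : ((f g).image (Quotient.mk R)).card ≤
          ((f g).image (Quotient.mk (jf R f S'))).card := by
        let ψ : Quotient (jf R f S') → Quotient R := fun q =>
          if h : ∃ x ∈ f g, Quotient.mk (jf R f S') x = q then Quotient.mk R h.choose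
          else Quotient.mk R q.out
        have h6 : (f g).image (Quotient.mk R) ⊆
            ((f g).image (Quotient.mk (jf R f S'))).image ψ := by
          intro q hq
          obtain ⟨x, hx, rfl⟩ := Finset.mem_image.1 hq
          refine Finset.mem_image.2 ⟨_, Finset.mem_image_of_mem _ hx, ?_⟩
          have hex : ∃ y ∈ f g, Quotient.mk (jf R f S') y = Quotient.mk (jf R f S') x :=
            ⟨x, hx, rfl⟩
          change (if h : ∃ y ∈ f g, Quotient.mk (jf R f S') y = Quotient.mk (jf R f S') x then
            Quotient.mk R h.choose else Quotient.mk R (Quotient.mk (jf R f S') x).out) = _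
          rw [dif_pos hex]
          have h7 := hex.choose_spec
          by_contra hne
          refine hS g hgS _ h7.1 _ hx (fun h => hne (Quotient.sound h)) ?_
          have h8 : S' ⊆ S.erase g := by
            intro j hj
            refine Finset.mem_erase.2 ⟨?_, hsub (Finset.mem_insert_of_mem hj)⟩
            rintro rfl
            exact hg hj
          exact jf_mono R f h8 (Quotient.exact h7.2)
        exact (Finset.card_le_card h6).trans Finset.card_image_le
      rw [Finset.sum_insert hg]
      omega
  exact main S (Finset.Subset.refl _)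

end

theorem cnt : CNT := by
  intro B I _ _ _ e p he hleg R hR hT hC hN
  set J0 : Finset I := univ.filter fun i => ∃ x ∈ p i, ∃ y ∈ p i, ¬ R x y with hJ0
  set L : Finset I := univ.filter fun i => ¬ ∃ x ∈ p i, ∃ y ∈ p i, ¬ R x y with hL
  have hLmem : ∀ i, i ∈ L ↔ ∀ a ∈ p i, ∀ b ∈ p i, R a b := by
    intro i
    rw [hL, Finset.mem_filter]
    push Not
    exact ⟨fun h => h.2, fun h => ⟨Finset.mem_univ _, h⟩⟩
  -- the trees
  have brT : ∀ S : Finset I, S ⊆ J0 → ∀ g ∈ S, ∀ x ∈ p g, ∀ y ∈ p g, ¬ R x y →
      ¬ jf R p (S.erase g) x y := by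
    intro S _ g _ x hx y hy hxy h
    refine hT g x hx y hy hxy (sInf_rel.2 fun E hE => ?_)
    exact sInf_rel.1 h E ⟨hE.1, fun j hj => hE.2 j (Finset.ne_of_mem_erase hj)⟩
  have brC : ∀ g ∈ L, ∀ x ∈ e g, ∀ y ∈ e g, ¬ R x y → ¬ jf R e (L.erase g) x y := by
    intro g hg x hx y hy hxy h
    refine hC g ((hLmem g).1 hg) x hx y hy hxy (sInf_rel.2 fun E hE => ?_)
    exact sInf_rel.1 h E ⟨hE.1, fun j hj => hE.2 j (Finset.ne_of_mem_erase hj)
      ((hLmem j).1 (Finset.mem_of_mem_erase hj))⟩
  have c1 := bridge_count R p J0 (brT J0 (Finset.Subset.refl _))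
  have c2 := bridge_count R e L brC
  -- the pairs
  have hpair : ∀ i ∈ J0, ((p i).image (Quotient.mk R)).card = 2 := by
    intro i hi
    obtain ⟨x, hx, y, hy, hxy⟩ := (Finset.mem_filter.1 hi).2
    have h1 : (p i).card ≤ 2 := by
      rcases hleg.1 i with h | h
      · rw [h]
        simp
      · omega
    have h2 := Finset.card_image_le (s := p i) (f := Quotient.mk R)
    have h3 : 1 < ((p i).image (Quotient.mk R)).card :=
      Finset.one_lt_card.2 ⟨_, Finset.mem_image_of_mem _ hx, _, Finset.mem_image_of_mem _ hy,
        fun h => hxy (Quotient.exact h)⟩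
    omega
  have hs1 : ∑ g ∈ J0, (((p g).image (Quotient.mk R)).card - 1) = J0.card := by
    rw [Finset.card_eq_sum_ones]
    exact Finset.sum_congr rfl fun i hi => by rw [hpair i hi]
  -- not both connected
  have hnot : 3 ≤ ncl (jf R p J0) + ncl (jf R e L) := by
    have h1 := ncl_pos (jf R p J0)
    have h2 := ncl_pos (jf R e L)
    by_contra hlt
    apply hN
    constructor
    · have h3 : jf R p J0 = ⊤ := by
        by_contra h
        have := ncl_two h
        omega
      rw [eq_top_iff, ← h3]
      refine le_sInf fun E hE => jf_le hE.1 fun j _ => hE.2 j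
    · have h3 : jf R e L = ⊤ := by
        by_contra h
        have := ncl_two h
        omega
      rw [eq_top_iff, ← h3]
      refine le_sInf fun E hE => jf_le hE.1 fun j hj => hE.2 j ((hLmem j).1 hj)
  -- sizes
  have hle3 : ∀ i, ((e i).image (Quotient.mk R)).card ≤ 3 := by
    intro i
    have := Finset.card_image_le (s := e i) (f := Quotient.mk R)
    rcases he i with h | h <;> omega
  have hge1 : ∀ i, 1 ≤ ((e i).image (Quotient.mk R)).card := by
    intro i
    rw [Nat.succ_le_iff, Finset.card_pos, Finset.image_nonempty, ← Finset.card_pos]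
    rcases he i with h | h <;> omega
  set J : Finset I := J0.filter fun i => ((e i).image (Quotient.mk R)).card = 3 with hJ
  have hJJ0 : J ⊆ J0 := Finset.filter_subset _ _
  refine ⟨J, ?_, ?_, ?_⟩
  · intro i hi
    have h1 := (Finset.mem_filter.1 hi).2
    have h2 : (e i).card = 3 := by
      have := Finset.card_image_le (s := e i) (f := Quotient.mk R)
      rcases he i with h | h <;> omega
    refine ⟨h2, fun x hx y hy hxy h => hxy ?_⟩
    have h3 := Finset.card_image_iff.1 (h1.trans h2.symm)
    exact h3 hx hy (Quotient.sound h)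
  · have h1 : (univ.filter fun i => ((e i).image (Quotient.mk R)).card = 2).card +
        2 * (univ.filter fun i => ((e i).image (Quotient.mk R)).card = 3).card =
        ∑ i, (((e i).image (Quotient.mk R)).card - 1) := by
      rw [Finset.card_filter, Finset.card_filter, Finset.mul_sum, ← Finset.sum_add_distrib]
      refine Finset.sum_congr rfl fun i _ => ?_
      have := hle3 i
      have := hge1 i
      split_ifs <;> omega
    have h2 : ∑ i, (((e i).image (Quotient.mk R)).card - 1) =
        ∑ i ∈ J0, (((e i).image (Quotient.mk R)).card - 1) +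
        ∑ i ∈ L, (((e i).image (Quotient.mk R)).card - 1) :=
      (Finset.sum_filter_add_sum_filter_not univ _ _).symm
    have h3 : ∑ i ∈ J0, (((e i).image (Quotient.mk R)).card - 1) = J0.card + J.card := by
      have e1 : J0.card = ∑ _i ∈ J0, 1 := Finset.card_eq_sum_ones _
      have e2 : J.card = ∑ i ∈ J0, if ((e i).image (Quotient.mk R)).card = 3 then 1 else 0 := by
        rw [hJ, Finset.card_filter]
      rw [e1, e2, ← Finset.sum_add_distrib]
      refine Finset.sum_congr rfl fun i hi => ?_
      have h4 : ((p i).image (Quotient.mk R)).card ≤ ((e i).image (Quotient.mk R)).card :=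
        Finset.card_le_card (Finset.image_subset_image (hleg.2 i))
      have h5 := hpair i hi
      have h6 := hle3 i
      split_ifs <;> omega
    have hn : Fintype.card (Quotient R) = ncl R := Fintype.card_congr (Equiv.refl _)
    rw [hn]
    omega
  · intro hJne
    have c3 := bridge_count R p J (brT J hJJ0)
    have hs3 : ∑ g ∈ J, (((p g).image (Quotient.mk R)).card - 1) = J.card := by
      rw [Finset.card_eq_sum_ones]
      exact Finset.sum_congr rfl fun i hi => by rw [hpair i (hJJ0 hi)]
    set P : Finset B := J.biUnion e with hP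
    have hPne : P.Nonempty := by
      obtain ⟨i, hi⟩ := hJne
      have h1 : (e i).Nonempty := by
        rw [← Finset.card_pos]
        rcases he i with h | h <;> omega
      obtain ⟨x, hx⟩ := h1
      exact ⟨x, Finset.mem_biUnion.2 ⟨i, hi, hx⟩⟩
    have h4 : jf R p J ≤ joinS R (P : Set B) := by
      refine jf_le (le_joinS _ _) fun j hj a ha b hb => ?_
      exact joinS_mem _ _ (Finset.mem_coe.2 (Finset.mem_biUnion.2 ⟨j, hj, hleg.2 j ha⟩))
        (Finset.mem_coe.2 (Finset.mem_biUnion.2 ⟨j, hj, hleg.2 j hb⟩))
    have h5 := ncl_mono h4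
    have h6 := le_ncl_joinS R P hPne
    have h7 : P.image (Quotient.mk R) = univ.filter fun q : Quotient R =>
        ∃ i ∈ J, ∃ x ∈ e i, Quotient.mk R x = q := by
      ext q
      rw [Finset.mem_image, Finset.mem_filter]
      constructor
      · rintro ⟨x, hx, rfl⟩
        obtain ⟨i, hi, hxi⟩ := Finset.mem_biUnion.1 hx
        exact ⟨Finset.mem_univ _, i, hi, x, hxi, rfl⟩
      · rintro ⟨-, i, hi, x, hx, rfl⟩
        exact ⟨x, Finset.mem_biUnion.2 ⟨i, hi, hx⟩, rfl⟩
    rw [h7] at h6
    omega

end Sk

end Pool.Agent.ClawHam
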