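import Pool.Agent.Lib.MP_e2dbb5_co.SK_CAC

/-!
# The skeletal lemma from the rows (helper42)
-/

set_option autoImplicit false

open Finset

noncomputable section

namespace Pool.Agent.ClawHam

open Classical

namespace Sk

variable {B I : Type}

theorem newD_top {e p : I → Finset B} {M : Set I} (h : gen p ⊤ ∅ = ⊤) :
    NewD e p M ⊤ ∅ = ∅ := by
  rw [Set.eq_empty_iff_forall_notMem]
  rintro i ⟨-, -, u, -, v, -, t, -, -, -, hn, -⟩
  apply hn
  rw [h]
  trivial

theorem dn_one {e p : I → Finset B} {M : Set I} (h : gen p ⊤ ∅ = ⊤) : Dn e p M 1 = ∅ := by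
  rw [Dn_succ, Rn_zero, Dn_zero, newD_top h, Set.empty_union]

theorem rn_one {e p : I → Finset B} {M : Set I} (h : gen p ⊤ ∅ = ⊤) :
    Rn e p M 1 = cl e p ⊤ ∅ ∅ F0 := by
  rw [Rn_succ, dn_one h]
  unfold Gn
  rw [Rn_zero, Dn_zero, h]

theorem skel_of (hOPT : OPT) (hTAC : TAC) (hCLK : CLK) : SKEL := by
  intro B I _ _ _ e he
  obtain ⟨p, M, hO⟩ := hOPT B I e
  obtain ⟨N, hN⟩ := lev_stable e p M
  by_cases hR : Rn e p M N = ⊤
  · left
    have h1 : gen p ⊤ ∅ = ⊤ := by
      have h2 : Rn e p M N ≤ Gn e p M 0 := lim_Gn hN 0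
      rw [hR, top_le_iff] at h2
      exact h2
    have h2 : cl e p ⊤ ∅ ∅ F0 = ⊤ := by
      have h3 : Rn e p M N ≤ Rn e p M 1 := lim_Rn hN 1
      rw [hR, top_le_iff, rn_one h1] at h3
      exact h3
    exact hCLK B I e p he hO.leg h1 h2
  · right
    refine ⟨p, Rn e p M N, hO.leg, hR, ?_, ?_, ?_⟩
    · intro i x hx y hy hn hcon
      have hxy : x ≠ y := by rintro rfl; exact hn (Setoid.refl' _ _)
      have hpi : p i = {x, y} := by
        symm
        apply Finset.eq_of_subset_of_card_le
        · intro w hw
          simp only [Finset.mem_insert, Finset.mem_singleton] at hw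
          rcases hw with rfl | rfl <;> assumption
        · rw [Finset.card_pair hxy]
          rcases hO.leg.1 i with h | h
          · rw [h] at hx; exact absurd hx (Finset.notMem_empty _)
          · omega
      refine hTAC B I e p M he hO i x hx y hy hxy (hcon _ ⟨?_, ?_⟩)
      · have h1 := lim_gen hN
        have h2 : gen p (Rn e p M N) (Dn e p M N) ≤ gen p ⊤ {i} := by
          refine gen_min fun j hj a ha b hb hab => ?_
          by_cases hji : j = i
          · subst hji
            rw [hpi] at ha hb
            simp only [Finset.mem_insert, Finset.mem_singleton] at ha hb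
            rcases ha with rfl | rfl <;> rcases hb with rfl | rfl
            · exact Setoid.refl' _ _
            · exact absurd hab hn
            · exact absurd (Setoid.symm' _ hab) hn
            · exact Setoid.refl' _ _
          · exact gen_cl p ⊤ {i} j (fun h => hji h) a ha b hb trivial
        rwa [h1] at h2
      · intro j hj a ha b hb
        exact gen_cl p ⊤ {i} j (fun h => hj h) a ha b hb trivial
    · exact cac hTAC B I e p M he hO N hN
    · rintro ⟨h1, h2⟩
      apply hR
      have h3 : gen p ⊤ ∅ = ⊤ := by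
        have h0 : (sInf {E : Setoid B | Rn e p M N ≤ E ∧ ∀ j, ∀ a ∈ p j, ∀ b ∈ p j, E a b}) ≤
            gen p ⊤ ∅ := by
          refine sInf_le ⟨lim_Gn hN 0, fun j a ha b hb => ?_⟩
          exact gen_cl p ⊤ ∅ j (Set.notMem_empty _) a ha b hb trivial
        rw [h1] at h0
        exact top_le_iff.1 h0
      have h4 : Rn e p M 1 = ⊤ := by
        rw [← top_le_iff, ← h2]
        refine sInf_le ⟨lim_Rn hN 1, fun j hL a ha b hb => ?_⟩
        have hle : Rn e p M N ≤ Rn e p M 1 := lim_Rn hN 1
        rw [rn_one h3] at hle ⊢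
        obtain ⟨-, hE2, hE3⟩ := cl_acl e p (⊤ : Setoid B) ∅ ∅ F0
        by_cases hpj : p j = ∅
        · exact hE2 j (Set.notMem_empty _) (Set.notMem_empty _) hpj a ha b hb trivial
        · obtain ⟨c, hc⟩ := Finset.nonempty_iff_ne_empty.2 hpj
          have h5 := hE3 j (Set.notMem_empty _) hpj fun a ha b hb => hle (hL a ha b hb)
          exact Setoid.trans' _ (Setoid.symm' _ (h5 c hc a ha trivial)) (h5 c hc b hb trivial)
      have h5 : ∀ n, lev e p M n = (⊤, ∅) := by
        intro n
        induction n with
        | zero => rfl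
        | succ n ih =>
          have h6 : lev e p M (n + 1) = (Rn e p M (n + 1), Dn e p M (n + 1)) := rfl
          have h7 : Rn e p M n = ⊤ := congrArg Prod.fst ih
          have h8 : Dn e p M n = ∅ := congrArg Prod.snd ih
          rw [h6]
          have h9 : Dn e p M (n + 1) = ∅ := by
            rw [Dn_succ, h7, h8, newD_top h3, Set.empty_union]
          rw [h9]
          congr 1
          rw [Rn_succ, h9]
          unfold Gn
          rw [h7, h8, h3, ← rn_one (e := e) (M := M) h3]
          exact h4
      exact congrArg Prod.fst (h5 N)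

end Sk

end Pool.Agent.ClawHam
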