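import Pool.Agent.Lib.MP_e2dbb5_co.G0
import Pool.Agent.Lib.MP_e2dbb5_co.SK_ALL
import Pool.Agent.Lib.MP_e2dbb5_co.FB

/-!
# Separated vertices of degree five: definitions and rows (helper79)

Vertices of degree four are eliminated by splitting.
-/

set_option autoImplicit false
set_option linter.unusedSectionVars false

open Finset

noncomputable section

namespace Pool.Agent.ClawHam

open Classical

namespace SP

/-- the number of members of `h` which cross `X` -/
def ct {V : Type} (h : Multiset (Finset V)) (X : Finset V) : ℕ := h.countP fun e => Crosses e X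

/-- `X` separates two elements of `W` -/
def Sepr {V : Type} (W X : Finset V) : Prop := (∃ w ∈ W, w ∈ X) ∧ ∃ w ∈ W, w ∉ X

/-- the requirement -/
def rq {V : Type} (W X : Finset V) : ℕ := if Sepr W X then 5 else 4

/-- 0 or 1 -/
def cr {V : Type} (e X : Finset V) : ℕ := if Crosses e X then 1 else 0

/-- the members of `h` are contained in `B₀` and have at most three elements -/
def Sub3 {V : Type} (B₀ : Finset V) (h : Multiset (Finset V)) : Prop :=
  ∀ e ∈ h, e ⊆ B₀ ∧ e.card ≤ 3

/-- all cuts satisfy the requirement -/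
def Req {V : Type} (B₀ W : Finset V) (h : Multiset (Finset V)) : Prop :=
  ∀ X : Finset V, X ⊆ B₀ → X.Nonempty → X ≠ B₀ → rq W X ≤ ct h X

/-- the colouring: pairs join vertices outside `W` of the same colour only, and every colour has at
most one incidence with a triple -/
def Col {V : Type} (W : Finset V) (h : Multiset (Finset V)) (κ : V → ℕ) : Prop :=
  (∀ e ∈ h, e.card = 2 → ∀ u ∈ e, ∀ u' ∈ e, u ∉ W → u' ∉ W → κ u = κ u') ∧
    ∀ c, ((h.filter fun e => e.card = 3).map fun e =>
      (e.filter fun u => u ∉ W ∧ κ u = c).card).sum ≤ 1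

/-- the systems in which the vertices outside `W` can be eliminated -/
structure Sy {V : Type} (B₀ W : Finset V) (h : Multiset (Finset V)) (κ : V → ℕ) : Prop where
  sub : Sub3 B₀ h
  req : Req B₀ W h
  wsub : W ⊆ B₀
  deg : ∀ v ∈ B₀, v ∉ W → B₀ ≠ {v} → ct h {v} = 4
  col : Col W h κ

/-- the element `P` lies in the even space of `e` -/
def InE {V : Type} [Fintype V] (e : Finset V) (P : El V) : Prop := EvenOn e P.1 ∧ EvenOn e P.2

/-- the algebraic certificate of a hypergraph on `B₀` -/
def AlgM {V : Type} [Fintype V] (B₀ : Finset V) (h : Multiset (Finset V)) : Prop :=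
  ∃ s : Multiset (El V), Multiset.Rel InE h s ∧ AlgE B₀ s

/-! ### Rows -/

/-- SP1: uncrossing, for one hyperedge -/
def RowUnc : Prop := ∀ (V : Type) (e : Finset V), e.card ≤ 3 → ∀ A B C : Finset V,
  (cr e (A ∩ B) + cr e (A ∪ B) ≤ cr e A + cr e B) ∧
  (cr e (A \ B) + cr e (B \ A) ≤ cr e A + cr e B) ∧
  (cr e ((A ∩ B) \ C) + cr e ((A ∩ C) \ B) + cr e ((B ∩ C) \ A) + cr e (A ∪ B ∪ C) ≤
    cr e A + cr e B + cr e C) ∧
  (cr e (A \ (B ∪ C)) + cr e (B \ (A ∪ C)) + cr e (C \ (A ∪ B)) + cr e (A ∩ B ∩ C) ≤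
    cr e A + cr e B + cr e C)

/-- SP2: the splitting lemma -/
def RowSplit : Prop := ∀ (V : Type) (B₀ W F : Finset V) (h : Multiset (Finset V)) (v : V)
  (x : Fin 3 → V), v ∈ B₀ → v ∉ W → W ⊆ B₀ → Sub3 (B₀.erase v) h → (∀ i, x i ∈ B₀.erase v) →
  F ⊆ B₀.erase v → F.Nonempty → F.card ≤ 2 →
  Req B₀ W (insert v F ::ₘ {v, x 0} ::ₘ {v, x 1} ::ₘ {v, x 2} ::ₘ h) →
  ∃ i : Fin 3, Req (B₀.erase v) W (insert (x i) F ::ₘ {x (i + 1), x (i + 2)} ::ₘ h)

/-- SP3: if all cuts are at least five then there is a certificate KV -/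
def RowFive : Prop := ∀ (B I : Type) [Fintype B] [Nonempty B] [Fintype I] (e : I → Finset B),
  (∀ i, (e i).card = 2 ∨ (e i).card = 3) →
  (∀ X : Finset B, X.Nonempty → X ≠ univ → 5 ≤ (univ.filter fun i => Crosses (e i) X).card) →
  CertK e

/-- SP4: from the certificate KV to the algebraic certificate -/
def RowKA : Prop := ∀ (B I : Type) [Fintype B] [Fintype I] (e : I → Finset B), CertK e →
  ∃ P : I → El B, (∀ i, InE (e i) (P i)) ∧ AlgE univ (univ.val.map P)

/-- SP4b: from the subtype to the type -/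
def RowTr : Prop := ∀ (V I : Type) [Fintype V] [Fintype I] (B₀ : Finset V)
  (P : I → El {b // b ∈ B₀}), AlgE univ (univ.val.map P) →
  AlgE B₀ (univ.val.map fun i => ((fun w => if hw : w ∈ B₀ then (P i).1 ⟨w, hw⟩ else 0,
    fun w => if hw : w ∈ B₀ then (P i).2 ⟨w, hw⟩ else 0) : El V))

/-- SP4c: the base (from SP3, SP4, SP4b) -/
def RowBaseW : Prop := ∀ (V : Type) [Fintype V] (B₀ : Finset V) (h : Multiset (Finset V)),
  B₀.Nonempty → Sub3 B₀ h → (∀ X : Finset V, X ⊆ B₀ → X.Nonempty → X ≠ B₀ → 5 ≤ ct h X) →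
  AlgM B₀ h

/-- SP5a: one elimination (from SP2, `RowElimD`, `RowElimE`, `RowMono`) -/
def RowStep : Prop := ∀ (V : Type) [Fintype V] (B₀ W : Finset V) (h : Multiset (Finset V))
  (κ : V → ℕ) (v : V), Sy B₀ W h κ → v ∈ B₀ → v ∉ W → B₀ ≠ {v} →
  ∃ h' : Multiset (Finset V), Sy (B₀.erase v) W h' κ ∧ (AlgM (B₀.erase v) h' → AlgM B₀ h)

/-- SP5b: all eliminations (from SP4c, SP5a) -/
def RowAll : Prop := ∀ (V : Type) [Fintype V] (B₀ W : Finset V) (h : Multiset (Finset V))
  (κ : V → ℕ), Sy B₀ W h κ → B₀.Nonempty → AlgM B₀ h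

/-- the degree is four -/
def D4 {B I : Type} [Fintype I] (e : I → Finset B) (u : B) : Prop :=
  (univ.filter fun i => Crosses (e i) {u}).card = 4

/-- the colouring, for families: the vertices of degree four in a pair have the same colour, and
every colour has at most one incidence with a triple -/
def SepCol {B I : Type} [Fintype I] (e : I → Finset B) : Prop :=
  ∃ κ : B → ℕ, (∀ i, (e i).card = 2 → ∀ u ∈ e i, ∀ u' ∈ e i, D4 e u → D4 e u' → κ u = κ u') ∧
    ∀ i i', (e i).card = 3 → (e i').card = 3 → ∀ u ∈ e i, ∀ u' ∈ e i', D4 e u → D4 e u' →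
      κ u = κ u' → i = i' ∧ u = u'

/-- SP5c: the lemma on hypergraphs (from SP5b, `RowBridge`, `evenConn_of_algC`) -/
def HypSep : Prop := ∀ (B I : Type) [Fintype B] [Fintype I] (e : I → Finset B),
  (∀ i, (e i).card = 2 ∨ (e i).card = 3) → FourConn univ e → FiveEss univ e → SepCol e →
    EvenConn univ e

/-- adjacent vertices of degree at most six -/
def Low {V : Type} [Fintype V] (G : SimpleGraph V) (u w : V) : Prop :=
  G.Adj u w ∧ (univ.filter fun z => G.Adj u z).card ≤ 6 ∧ (univ.filter fun z => G.Adj w z).card ≤ 6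

/-- no two vertices of degree five are in the same component of the graph of the vertices of degree
at most six -/
def Sep5 {V : Type} [Fintype V] (G : SimpleGraph V) : Prop :=
  ∀ u w, (univ.filter fun z => G.Adj u z).card = 5 → (univ.filter fun z => G.Adj w z).card = 5 →
    Relation.ReflTransGen (Low G) u w → u = w

/-- SP6a: the closure (see FB.lean, mainC) and the cells -/
def RowMainSep : Prop := HypSep → ∀ (V : Type) [Fintype V] [DecidableEq V] (G : SimpleGraph V),
  NoSmallCut G → 3 ≤ Fintype.card V → ClawFree G → Sep5 G → G.IsHamiltonian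

end SP

end Pool.Agent.ClawHam
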