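import Pool.Agent.Lib.MP_e2dbb5_co.SP0

/-!
# SEP+ : definitions and rows (helper79, after helper48)

The vertices of degree four in at most one triple are eliminated by splitting; every colour `c`
keeps at most `N_c` incidences with triples.
-/

set_option autoImplicit false
set_option linter.unusedSectionVars false

open Finset

noncomputable section

namespace Pool.Agent.ClawHam

open Classical

namespace SP

/-- the number of incidences of the vertices of colour `c` outside `W` with triples -/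
def inc3 {V : Type} (W : Finset V) (h : Multiset (Finset V)) (κ : V → ℕ) (c : ℕ) : ℕ :=
  ((h.filter fun e => e.card = 3).map fun e => (e.filter fun u => u ∉ W ∧ κ u = c).card).sum

/-- the systems in which vertices outside `W` can be eliminated -/
structure SyP {V : Type} (B₀ W : Finset V) (h : Multiset (Finset V)) (κ : V → ℕ) : Prop where
  sub : Sub3 B₀ h
  req : Req B₀ W h
  wsub : W ⊆ B₀
  deg : ∀ v ∈ B₀, v ∉ W → B₀ ≠ {v} → ct h {v} = 4
  mono : ∀ e ∈ h, e.card = 2 → ∀ u ∈ e, ∀ u' ∈ e, u ∉ W → u' ∉ W → κ u = κ u'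

/-! ### Rows -/

/-- FIVEP: cuts at least four, at least five if `W` is separated, at most five vertices outside
`W`: there is a certificate KV -/
def RowFiveP : Prop := ∀ (B I : Type) [Fintype B] [Nonempty B] [Fintype I] (e : I → Finset B)
  (W : Finset B), (∀ i, (e i).card = 2 ∨ (e i).card = 3) → (univ \ W).card ≤ 5 →
  (∀ X : Finset B, X.Nonempty → X ≠ univ → rq W X ≤ (univ.filter fun i => Crosses (e i) X).card) →
  CertK e

/-- BASEP: the base (from FIVEP, KA, TR) -/
def RowBaseP : Prop := ∀ (V : Type) [Fintype V] (B₀ W : Finset V) (h : Multiset (Finset V)),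
  B₀.Nonempty → Sub3 B₀ h → W ⊆ B₀ → Req B₀ W h → (B₀ \ W).card ≤ 5 → AlgM B₀ h

/-- STEPP: one elimination (from SPLIT, `RowElimD`, `RowElimE`, `RowMono`) -/
def RowStepP : Prop := ∀ (V : Type) [Fintype V] (B₀ W : Finset V) (h : Multiset (Finset V))
  (κ : V → ℕ) (v : V), SyP B₀ W h κ → v ∈ B₀ → v ∉ W → B₀ ≠ {v} →
  h.countP (fun e => v ∈ e ∧ e.card = 3) ≤ 1 →
  ∃ h' : Multiset (Finset V), SyP (B₀.erase v) W h' κ ∧
    (∀ c, inc3 W h' κ c ≤ inc3 W h κ c) ∧ (AlgM (B₀.erase v) h' → AlgM B₀ h)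

/-- ALLP: all eliminations (from BASEP, STEPP) -/
def RowAllP : Prop := ∀ (V : Type) [Fintype V] (B₀ W : Finset V) (h : Multiset (Finset V))
  (κ : V → ℕ), SyP B₀ W h κ → B₀.Nonempty → ∑ c ∈ B₀.image κ, inc3 W h κ c / 2 ≤ 5 → AlgM B₀ h

/-- the colourings, for families -/
def PhiCol {B I : Type} [Fintype B] [Fintype I] (e : I → Finset B) : Prop :=
  ∃ κ : B → ℕ, (∀ i, (e i).card = 2 → ∀ u ∈ e i, ∀ u' ∈ e i, D4 e u → D4 e u' → κ u = κ u') ∧
    ∑ c ∈ univ.image κ, (∑ i ∈ univ.filter (fun i => (e i).card = 3),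
      ((e i).filter fun u => D4 e u ∧ κ u = c).card) / 2 ≤ 5

/-- HYPPHI: the lemma on hypergraphs (from ALLP, `RowBridge`, `evenConn_of_algC`) -/
def HypPhi : Prop := ∀ (B I : Type) [Fintype B] [Fintype I] (e : I → Finset B),
  (∀ i, (e i).card = 2 ∨ (e i).card = 3) → FourConn univ e → FiveEss univ e → PhiCol e →
    EvenConn univ e

end SP

end Pool.Agent.ClawHam
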