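import Pool.Agent.Lib.MP_e2dbb5_co.SPP0

/-!
# SEP+: the hyperedges at a vertex outside `W` in at most one triple (helper16)
-/

set_option autoImplicit false
set_option linter.unusedSectionVars false

open Finset

noncomputable section

namespace Pool.Agent.ClawHam

open Classical

namespace SP

namespace Dec

variable {V : Type}

theorem crosses_single {e : Finset V} {v : V} : Crosses e {v} ↔ v ∈ e ∧ ∃ b ∈ e, b ≠ v := by
  constructor
  · rintro ⟨⟨a, ha, hav⟩, b, hb, hbv⟩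
    rw [mem_singleton] at hav hbv
    exact ⟨hav ▸ ha, b, hb, hbv⟩
  · rintro ⟨hv, b, hb, hbv⟩
    exact ⟨⟨v, hv, mem_singleton_self v⟩, b, hb, fun h => hbv (mem_singleton.1 h)⟩

theorem pair_of_card {B₀ e : Finset V} {v : V} (he : e ⊆ B₀) (hv : v ∈ e) (h2 : e.card = 2) :
    ∃ x ∈ B₀.erase v, e = {v, x} := by
  have h1 : (e.erase v).card = 1 := by
    rw [card_erase_of_mem hv, h2]
  obtain ⟨x, hx⟩ := card_eq_one.1 h1
  have hxe : x ∈ e.erase v := by
    rw [hx]
    exact mem_singleton_self x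
  refine ⟨x, mem_erase.2 ⟨(mem_erase.1 hxe).1, he (mem_erase.1 hxe).2⟩, ?_⟩
  rw [← insert_erase hv, hx]

theorem dec {B₀ W : Finset V} {h : Multiset (Finset V)} {κ : V → ℕ} {v : V} (hS : SyP B₀ W h κ)
    (hv : v ∈ B₀) (hvW : v ∉ W) (hB : B₀ ≠ {v})
    (h3 : h.countP (fun e => v ∈ e ∧ e.card = 3) ≤ 1) :
    ∃ (F : Finset V) (x : Fin 3 → V) (h₀ : Multiset (Finset V)) (n : ℕ),
      h = insert v F ::ₘ {v, x 0} ::ₘ {v, x 1} ::ₘ {v, x 2} ::ₘ
        (h₀ + Multiset.replicate n ({v} : Finset V)) ∧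
      F.Nonempty ∧ F.card ≤ 2 ∧ F ⊆ B₀.erase v ∧ (∀ i, x i ∈ B₀.erase v) ∧ ∀ e ∈ h₀, v ∉ e := by
  set M := h.filter fun e => Crosses e {v} with hM
  set N := h.filter fun e => ¬ Crosses e {v} with hN
  have hMN : M + N = h := Multiset.filter_add_not _ _
  set h₀ := N.filter fun e => v ∉ e with hh₀
  set h₁ := N.filter fun e => ¬ v ∉ e with hh₁
  have hN' : h₀ + h₁ = N := Multiset.filter_add_not _ _
  have hM4 : M.card = 4 := by
    rw [hM, ← Multiset.countP_eq_card_filter]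
    exact hS.deg v hv hvW hB
  have hMmem : ∀ e ∈ M, e ∈ h ∧ v ∈ e ∧ 2 ≤ e.card := by
    intro e he
    obtain ⟨h1, h2⟩ := Multiset.mem_filter.1 he
    obtain ⟨h4, b, hb, hbv⟩ := crosses_single.1 h2
    have h5 : 1 < e.card := by
      rw [one_lt_card]
      exact ⟨v, h4, b, hb, fun h => hbv h.symm⟩
    exact ⟨h1, h4, h5⟩
  have hh₁' : h₁ = Multiset.replicate h₁.card ({v} : Finset V) := by
    rw [Multiset.eq_replicate]
    refine ⟨rfl, fun e he => ?_⟩
    obtain ⟨h1, h2⟩ := Multiset.mem_filter.1 he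
    obtain ⟨-, h4⟩ := Multiset.mem_filter.1 h1
    rw [not_not] at h2
    ext b
    rw [mem_singleton]
    constructor
    · intro hb
      by_contra hbv
      exact h4 (crosses_single.2 ⟨h2, b, hb, hbv⟩)
    · rintro rfl
      exact h2
  have h3M : M.countP (fun e => e.card = 3) ≤ 1 := by
    refine le_trans ?_ h3
    rw [← hMN, Multiset.countP_add]
    refine le_trans ?_ (Nat.le_add_right _ _)
    rw [Multiset.countP_eq_card_filter, Multiset.countP_eq_card_filter]
    refine Multiset.card_le_card ?_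
    refine le_of_eq (Multiset.filter_congr fun e he => ?_)
    exact ⟨fun h => ⟨(hMmem e he).2.1, h⟩, fun h => h.2⟩
  -- the first member
  obtain ⟨e₀, he₀, hrest⟩ : ∃ e₀ ∈ M, ∀ e ∈ M.erase e₀, e.card ≠ 3 := by
    by_cases ht : ∃ e₀ ∈ M, e₀.card = 3
    · obtain ⟨e₀, he₀, h5⟩ := ht
      refine ⟨e₀, he₀, fun e he h6 => ?_⟩
      have h7 : 0 < (M.erase e₀).countP (fun e => e.card = 3) :=
        Multiset.countP_pos.2 ⟨e, he, h6⟩
      have h8 : M.countP (fun e => e.card = 3) =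
          (M.erase e₀).countP (fun e => e.card = 3) + 1 := by
        conv_lhs => rw [← Multiset.cons_erase he₀]
        exact Multiset.countP_cons_of_pos (p := fun e : Finset V => e.card = 3) _ h5
      omega
    · push Not at ht
      have h5 : 0 < M.card := by omega
      obtain ⟨e₀, he₀⟩ := Multiset.card_pos_iff_exists_mem.1 h5
      exact ⟨e₀, he₀, fun e he => ht e (Multiset.mem_of_mem_erase he)⟩
  have hcard3 : (M.erase e₀).card = 3 := by
    rw [Multiset.card_erase_of_mem he₀, hM4]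
    rfl
  obtain ⟨a, b, c, habc⟩ := Multiset.card_eq_three.1 hcard3
  have hpair : ∀ e ∈ M.erase e₀, ∃ x ∈ B₀.erase v, e = {v, x} := by
    intro e he
    obtain ⟨h5, h6, h7⟩ := hMmem e (Multiset.mem_of_mem_erase he)
    obtain ⟨h8, h9⟩ := hS.sub e h5
    have h10 := hrest e he
    exact pair_of_card h8 h6 (by omega)
  obtain ⟨xa, hxa, rfl⟩ := hpair a (by rw [habc]; simp)
  obtain ⟨xb, hxb, rfl⟩ := hpair b (by rw [habc]; simp)
  obtain ⟨xc, hxc, rfl⟩ := hpair c (by rw [habc]; simp)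
  obtain ⟨h5, h6, h7⟩ := hMmem e₀ he₀
  obtain ⟨h8, h9⟩ := hS.sub e₀ h5
  refine ⟨e₀.erase v, ![xa, xb, xc], h₀, h₁.card, ?_, ?_, ?_, ?_, ?_, ?_⟩
  · rw [← hh₁', hN', insert_erase h6]
    change h = e₀ ::ₘ {v, xa} ::ₘ {v, xb} ::ₘ {v, xc} ::ₘ N
    conv_lhs => rw [← hMN, ← Multiset.cons_erase he₀, habc]
    simp only [Multiset.insert_eq_cons, Multiset.cons_add, Multiset.singleton_add]
  · rw [← card_pos, card_erase_of_mem h6]
    omega
  · rw [card_erase_of_mem h6]
    omega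
  · exact erase_subset_erase v h8
  · intro i
    fin_cases i
    · exact hxa
    · exact hxb
    · exact hxc
  · intro e he
    exact (Multiset.mem_filter.1 he).2

end Dec

end SP

end Pool.Agent.ClawHam
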