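import Pool.Agent.Lib.MP_e2dbb5_co.Defs

/-!
# The number `Phi` and the closure (helper48)

`Phi G` is the sum over the components of the subgraph induced by the vertices of degree at most
six of half the number (rounded down) of its vertices of degree five. It does not increase when
edges are added to a graph of minimum degree at least five.
-/

set_option autoImplicit false

open Finset

noncomputable section

namespace Pool.Agent.ClawHam

open Classical

namespace SP

/-- the edges of `G` between vertices of degree at most six -/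
def low {V : Type} (G : SimpleGraph V) : SimpleGraph V where
  Adj u v := G.Adj u v ∧ (G.neighborSet u).ncard ≤ 6 ∧ (G.neighborSet v).ncard ≤ 6
  symm := ⟨fun _ _ h => ⟨h.1.symm, h.2.2, h.2.1⟩⟩
  loopless := ⟨fun _ h => G.irrefl h.1⟩

/-- the number of vertices of degree five in the component `c` of `low G` -/
def kc {V : Type} [Fintype V] (G : SimpleGraph V) (c : (low G).ConnectedComponent) : ℕ :=
  (univ.filter fun v => (G.neighborSet v).ncard = 5 ∧ (low G).connectedComponentMk v = c).card

/-- the sum over the components of `low G` of half the number of vertices of degree five -/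
def Phi {V : Type} [Fintype V] (G : SimpleGraph V) : ℕ :=
  ∑ c ∈ univ.image (low G).connectedComponentMk, kc G c / 2

/-- the common edges -/
def low1 {V : Type} (G G' : SimpleGraph V) : SimpleGraph V where
  Adj u v := G.Adj u v ∧ (G'.neighborSet u).ncard ≤ 6 ∧ (G'.neighborSet v).ncard ≤ 6
  symm := ⟨fun _ _ h => ⟨h.1.symm, h.2.2, h.2.1⟩⟩
  loopless := ⟨fun _ h => G.irrefl h.1⟩

theorem sum_div_le_div_sum {α : Type*} (s : Finset α) (f : α → ℕ) :
    ∑ a ∈ s, f a / 2 ≤ (∑ a ∈ s, f a) / 2 := by
  induction s using Finset.induction_on with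
  | empty => simp
  | insert a s ha ih =>
    rw [Finset.sum_insert ha, Finset.sum_insert ha]
    omega

theorem deg_mono {V : Type} [Fintype V] {G G' : SimpleGraph V} (h : G ≤ G') (v : V) :
    (G.neighborSet v).ncard ≤ (G'.neighborSet v).ncard :=
  Set.ncard_le_ncard (fun _ hw => h hw) (Set.toFinite _)

theorem deg_lt {V : Type} [Fintype V] {G G' : SimpleGraph V} (h : G ≤ G') {v w : V}
    (hw : G'.Adj v w) (hn : ¬ G.Adj v w) :
    (G.neighborSet v).ncard < (G'.neighborSet v).ncard := by
  refine Set.ncard_lt_ncard ⟨fun _ hw => h hw, fun h' => hn ?_⟩ (Set.toFinite _)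
  exact h' hw

/-- an edge of a connected component which leaves a smaller one -/
theorem exists_leaving {V : Type} {L L1 : SimpleGraph V} {v w : V} (h : L.Reachable v w)
    (hn : ¬ L1.Reachable v w) :
    ∃ x y, L1.Reachable v x ∧ ¬ L1.Reachable v y ∧ L.Adj x y := by
  obtain ⟨p⟩ := h
  induction p with
  | nil => exact absurd (SimpleGraph.Reachable.refl _) hn
  | @cons a b c hab p ih =>
    by_cases hb : L1.Reachable a b
    · obtain ⟨x, y, hx, hy, hxy⟩ := ih (fun hc => hn (hb.trans hc))
      exact ⟨x, y, hb.trans hx, fun h => hy (hb.symm.trans h), hxy⟩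
    · exact ⟨a, b, SimpleGraph.Reachable.refl _, hb, hab⟩

theorem phi_le {V : Type} [Fintype V] {G G' : SimpleGraph V} (h : G ≤ G')
    (hd : ∀ v, 5 ≤ (G.neighborSet v).ncard) : Phi G' ≤ Phi G := by
  set q1 : V → (low1 G G').ConnectedComponent := (low1 G G').connectedComponentMk with hq1
  have hle' : low1 G G' ≤ low G' := fun u v huv => ⟨h huv.1, huv.2.1, huv.2.2⟩
  have hle : low1 G G' ≤ low G := fun u v huv =>
    ⟨huv.1, (deg_mono h u).trans huv.2.1, (deg_mono h v).trans huv.2.2⟩
  let f : (low1 G G').ConnectedComponent → (low G').ConnectedComponent :=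
    fun c => c.map (SimpleGraph.Hom.ofLE hle')
  let g : (low1 G G').ConnectedComponent → (low G).ConnectedComponent :=
    fun c => c.map (SimpleGraph.Hom.ofLE hle)
  have hf : ∀ v, f (q1 v) = (low G').connectedComponentMk v := fun v => rfl
  have hg : ∀ v, g (q1 v) = (low G).connectedComponentMk v := fun v => rfl
  -- numbers
  let n1 : (low1 G G').ConnectedComponent → ℕ := fun P =>
    (univ.filter fun v => (G.neighborSet v).ncard = 5 ∧ q1 v = P).card
  let n1' : (low1 G G').ConnectedComponent → ℕ := fun P =>
    (univ.filter fun v => (G'.neighborSet v).ncard = 5 ∧ q1 v = P).card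
  have h5 : ∀ v, (G'.neighborSet v).ncard = 5 → (G.neighborSet v).ncard = 5 := by
    intro v hv
    have := deg_mono h v
    have := hd v
    omega
  have hn1 : ∀ P, n1' P ≤ n1 P := by
    intro P
    refine Finset.card_le_card ?_
    intro v hv
    simp only [mem_filter, mem_univ, true_and] at hv ⊢
    exact ⟨h5 v hv.1, hv.2⟩
  -- the number in the components of `low G`
  have hk : ∀ c, kc G c = ∑ P ∈ (univ.image q1).filter (fun P => g P = c), n1 P := by
    intro c
    unfold kc
    rw [Finset.card_eq_sum_card_fiberwise (f := q1)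
      (t := (univ.image q1).filter (fun P => g P = c))]
    · refine Finset.sum_congr rfl fun P hP => ?_
      simp only [mem_filter] at hP
      congr 1
      ext v
      simp only [mem_filter, mem_univ, true_and]
      constructor
      · rintro ⟨⟨a, b⟩, d⟩
        exact ⟨a, d⟩
      · rintro ⟨a, d⟩
        refine ⟨⟨a, ?_⟩, d⟩
        rw [← hg, d, hP.2]
    · intro v hv
      simp only [coe_filter, mem_univ, true_and, Set.mem_ofPred_eq] at hv
      simp only [coe_filter, mem_image, mem_univ, true_and, Set.mem_ofPred_eq]
      exact ⟨⟨v, rfl⟩, by rw [hg, hv.2]⟩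
  have hk' : ∀ c, kc G' c = ∑ P ∈ (univ.image q1).filter (fun P => f P = c), n1' P := by
    intro c
    unfold kc
    rw [Finset.card_eq_sum_card_fiberwise (f := q1)
      (t := (univ.image q1).filter (fun P => f P = c))]
    · refine Finset.sum_congr rfl fun P hP => ?_
      simp only [mem_filter] at hP
      congr 1
      ext v
      simp only [mem_filter, mem_univ, true_and]
      constructor
      · rintro ⟨⟨a, b⟩, d⟩
        exact ⟨a, d⟩
      · rintro ⟨a, d⟩
        refine ⟨⟨a, ?_⟩, d⟩
        rw [← hf, d, hP.2]
    · intro v hv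
      simp only [coe_filter, mem_univ, true_and, Set.mem_ofPred_eq] at hv
      simp only [coe_filter, mem_image, mem_univ, true_and, Set.mem_ofPred_eq]
      exact ⟨⟨v, rfl⟩, by rw [hf, hv.2]⟩
  -- the floor for one component of `low G'`
  have hfl : ∀ c, kc G' c / 2 ≤ ∑ P ∈ (univ.image q1).filter (fun P => f P = c), n1 P / 2 := by
    intro c
    by_cases hone : ∃ P₀, (univ.image q1).filter (fun P => f P = c) = {P₀}
    · obtain ⟨P₀, hP₀⟩ := hone
      rw [hk' c, hP₀, Finset.sum_singleton, Finset.sum_singleton]
      exact Nat.div_le_div_right (hn1 P₀)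
    · have hbig : ∀ P ∈ (univ.image q1).filter (fun P => f P = c), n1' P ≤ 2 * (n1 P / 2) := by
        intro P hP
        have hex : ∃ P₂ ∈ (univ.image q1).filter (fun P => f P = c), P₂ ≠ P := by
          by_contra hcon
          push Not at hcon
          exact hone ⟨P, Finset.eq_singleton_iff_unique_mem.2 ⟨hP, hcon⟩⟩
        obtain ⟨P₂, hP₂, hne⟩ := hex
        simp only [mem_filter, mem_image, mem_univ, true_and] at hP hP₂
        obtain ⟨⟨v, rfl⟩, hv⟩ := hP
        obtain ⟨⟨w, rfl⟩, hw⟩ := hP₂
        have hr : (low G').Reachable v w := by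
          rw [← SimpleGraph.ConnectedComponent.eq, ← hf, ← hf, hv, hw]
        have hnr : ¬ (low1 G G').Reachable v w := by
          rw [← SimpleGraph.ConnectedComponent.eq]
          exact fun h' => hne h'.symm
        obtain ⟨x, y, hx, hy, hxy⟩ := exists_leaving hr hnr
        have hnG : ¬ G.Adj x y := by
          intro hG
          refine hy (hx.trans (SimpleGraph.Adj.reachable ?_))
          exact ⟨hG, hxy.2.1, hxy.2.2⟩
        have hlt := deg_lt h hxy.1 hnG
        have hx5 := hd x
        have hx6 := hxy.2.1
        have hlt2 : n1' (q1 v) < n1 (q1 v) := by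
          refine Finset.card_lt_card ?_
          refine (Finset.ssubset_iff_of_subset ?_).2 ⟨x, ?_, ?_⟩
          · intro u hu
            simp only [mem_filter, mem_univ, true_and] at hu ⊢
            exact ⟨h5 u hu.1, hu.2⟩
          · simp only [mem_filter, mem_univ, true_and]
            refine ⟨by omega, ?_⟩
            exact (SimpleGraph.ConnectedComponent.eq.2 hx).symm
          · simp only [mem_filter, mem_univ, true_and]
            intro hu
            omega
        omega
      have := Finset.sum_le_sum hbig
      rw [hk' c]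
      rw [← Finset.mul_sum] at this
      omega
  calc Phi G' ≤ ∑ c ∈ univ.image (low G').connectedComponentMk,
        ∑ P ∈ (univ.image q1).filter (fun P => f P = c), n1 P / 2 :=
        Finset.sum_le_sum fun c _ => hfl c
    _ = ∑ P ∈ univ.image q1, n1 P / 2 := by
        refine Finset.sum_fiberwise_of_maps_to ?_ _
        intro P hP
        simp only [mem_image, mem_univ, true_and] at hP ⊢
        obtain ⟨v, rfl⟩ := hP
        exact ⟨v, (hf v).symm⟩
    _ = ∑ c ∈ univ.image (low G).connectedComponentMk,
        ∑ P ∈ (univ.image q1).filter (fun P => g P = c), n1 P / 2 := by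
        refine (Finset.sum_fiberwise_of_maps_to ?_ _).symm
        intro P hP
        simp only [mem_image, mem_univ, true_and] at hP ⊢
        obtain ⟨v, rfl⟩ := hP
        exact ⟨v, (hg v).symm⟩
    _ ≤ Phi G := by
        refine Finset.sum_le_sum fun c _ => ?_
        rw [hk c]
        exact sum_div_le_div_sum _ _

end SP

end Pool.Agent.ClawHam
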