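import Pool.Agent.Lib.MP_e2dbb5_co.SP_MAINSEP
import Pool.Agent.Lib.MP_e2dbb5_co.SPP0
import Pool.Agent.Lib.MP_e2dbb5_co.SPphi

/-!
# The graph side of SEP+ (helper90)
-/

set_option autoImplicit false
set_option linter.unusedSectionVars false

open Finset

noncomputable section

namespace Pool.Agent.ClawHam

open Classical

namespace SP

namespace MP

/-! ### The number of the component -/

/-- the number of the component -/
def cc {V : Type} [Fintype V] (G : SimpleGraph V) (c : (low G).ConnectedComponent) : ℕ :=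
  (Fintype.equivFin (low G).ConnectedComponent c : ℕ)

theorem cc_inj {V : Type} [Fintype V] (G : SimpleGraph V) : Function.Injective (cc G) :=
  fun _ _ h => (Fintype.equivFin _).injective (Fin.ext h)

theorem ncard_nbr {V : Type} [Fintype V] (G : SimpleGraph V) (a : V) :
    (G.neighborSet a).ncard = (univ.filter fun w => G.Adj a w).card := by
  rw [← Set.ncard_coe_finset]
  congr 1
  ext w
  simp

theorem comp_eq {V : Type} [Fintype V] {G : SimpleGraph V} {u v : V} (h : Low G u v) :
    (low G).connectedComponentMk u = (low G).connectedComponentMk v := by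
  refine SimpleGraph.ConnectedComponent.sound (SimpleGraph.Adj.reachable (G := low G) ?_)
  refine ⟨h.1, ?_, ?_⟩
  · rw [ncard_nbr]
    exact h.2.1
  · rw [ncard_nbr]
    exact h.2.2

/-- the colour of a cell -/
def colP {V C : Type} [Fintype V] [Fintype C] (G : SimpleGraph V) (inc : V → C → Prop) (K : C) :
    ℕ :=
  if h : ∃ a, inc a K ∧ (univ.filter fun z => G.Adj a z).card ≤ 6 then
    cc G ((low G).connectedComponentMk h.choose) else
    Fintype.card (low G).ConnectedComponent + Fintype.equivFin C K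

theorem colP_eq {V C : Type} [Fintype V] [Fintype C] {G : SimpleGraph V} {inc : V → C → Prop}
    (hK : Krausz G inc) {K : C} {a : V} (ha : inc a K)
    (ha6 : (univ.filter fun z => G.Adj a z).card ≤ 6) :
    colP G inc K = cc G ((low G).connectedComponentMk a) := by
  have h : ∃ a, inc a K ∧ (univ.filter fun z => G.Adj a z).card ≤ 6 := ⟨a, ha, ha6⟩
  unfold colP
  rw [dif_pos h]
  obtain ⟨h1, h2⟩ := h.choose_spec
  by_cases h3 : h.choose = a
  · rw [h3]
  · rw [comp_eq ⟨(hK.adj_iff _ _).2 ⟨h3, K, h1, ha⟩, h2, ha6⟩]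

/-- the number of incidences, relative form -/
def NTR {B I : Type} [Fintype B] [Fintype I] (e : I → Finset B) (κ : B → ℕ) (c : ℕ) : ℕ :=
  (univ.filter fun p : I × B => (e p.1).card = 3 ∧ p.2 ∈ e p.1 ∧
    (univ.filter fun i => Crosses (e i) {p.2}).card ≤ 4 ∧ κ p.2 = c).card

/-- the colouring, relative form -/
def RelColP {B I : Type} [Fintype B] [Fintype I] (e : I → Finset B) : Prop :=
  ∃ κ : B → ℕ, (∀ i, (e i).card = 2 → ∀ u ∈ e i, ∀ u' ∈ e i,
      (univ.filter fun i => Crosses (e i) {u}).card ≤ 4 →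
      (univ.filter fun i => Crosses (e i) {u'}).card ≤ 4 → κ u = κ u') ∧
    ∑ c ∈ univ.image κ, NTR e κ c / 2 ≤ 5

theorem ntr_le {V C : Type} [Fintype V] [Fintype C] {G : SimpleGraph V} {inc : V → C → Prop}
    (hK : Krausz G inc) (hcut : NoSmallCut G) (hbig : ∀ v, ∃ K, Big inc K ∧ inc v K)
    (h5 : ∀ v, 5 ≤ (univ.filter fun w => G.Adj v w).card) (hw : ∀ K : C, ∃ w, ¬ inc w K) (c : ℕ) :
    NTR (hyp inc) (colP G inc) c ≤ (univ.filter fun v => (univ.filter fun w => G.Adj v w).card = 5 ∧
      cc G ((low G).connectedComponentMk v) = c).card := by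
  have h1 : ∀ p : (V ⊕ C) × C, ∃ v : V, p ∈ (univ.filter fun p : (V ⊕ C) × C =>
      (hyp inc p.1).card = 3 ∧ p.2 ∈ hyp inc p.1 ∧
      (univ.filter fun i => Crosses (hyp inc i) {p.2}).card ≤ 4 ∧ colP G inc p.2 = c) →
      (∃ S, p.1 = Sum.inr S ∧ inc v S ∧ ¬ Big inc S ∧ Big inc p.2 ∧ inc v p.2) ∧
        (univ.filter fun w => G.Adj v w).card = 5 ∧
        cc G ((low G).connectedComponentMk v) = c := by
    intro p
    by_cases hp : p ∈ (univ.filter fun p : (V ⊕ C) × C =>
      (hyp inc p.1).card = 3 ∧ p.2 ∈ hyp inc p.1 ∧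
      (univ.filter fun i => Crosses (hyp inc i) {p.2}).card ≤ 4 ∧ colP G inc p.2 = c)
    · obtain ⟨i, K⟩ := p
      obtain ⟨-, hi, hKi, hdK, hc⟩ := mem_filter.1 hp
      simp only at hi hKi hdK hc
      rcases i with a | S
      · have := MS.inl_card hK a
        omega
      obtain ⟨-, hS, hbK, v, hvS, hvK⟩ := mem_filter.1 hKi
      have hKS : K ≠ S := by
        rintro rfl
        exact hS hbK
      have h6 := TSG.deg_le (le_refl G) hK hvK hvS hKS
      obtain ⟨w, hw⟩ := hw K
      have h7 := TSG.card_four hK hcut hbig hbK hdK hw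
      have h9 := C1x.small_card hS
      have h10 := h5 v
      refine ⟨v, fun _ => ⟨⟨S, rfl, hvS, hS, hbK, hvK⟩, by omega, ?_⟩⟩
      rw [← hc, colP_eq hK hvK (by omega)]
    · obtain ⟨w, -⟩ := hw p.2
      exact ⟨w, fun h => absurd h hp⟩
  choose j hj using h1
  unfold NTR
  refine card_le_card_of_injOn j ?_ ?_
  · intro p hp
    exact mem_filter.2 ⟨mem_univ _, (hj p hp).2⟩
  · intro p hp p' hp' hpp
    obtain ⟨⟨S, h2, h3, h4, h5, h6⟩, -⟩ := hj p hp
    obtain ⟨⟨S', h2', h3', h4', h5', h6'⟩, -⟩ := hj p' hp'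
    rw [← hpp] at h3' h6'
    have hKS : p.2 ≠ S := by
      intro h
      rw [h] at h5
      exact h4 h5
    have hKL : p.2 = p'.2 := by
      rcases hK.two _ _ _ _ h6 h3 h6' with h | h | h
      · exact absurd h hKS
      · exact h
      · rw [h] at h4
        exact absurd h5' h4
    have hSS : S = S' := by
      rcases hK.two _ _ _ _ h6 h3 h3' with h | h | h
      · exact absurd h hKS
      · rw [← h] at h4'
        exact absurd h5 h4'
      · exact h
    refine Prod.ext ?_ hKL
    rw [h2, h2', hSS]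

theorem relColP {V C : Type} [Fintype V] [Fintype C] {G : SimpleGraph V} {inc : V → C → Prop}
    (hK : Krausz G inc) (hcut : NoSmallCut G) (hbig : ∀ v, ∃ K, Big inc K ∧ inc v K)
    (h5 : ∀ v, 5 ≤ (univ.filter fun w => G.Adj v w).card) (hw : ∀ K : C, ∃ w, ¬ inc w K)
    (hs : Phi G ≤ 5) : RelColP (hyp inc) := by
  have h4 : ∀ K : C, Big inc K → (univ.filter fun i => Crosses (hyp inc i) {K}).card ≤ 4 →
      (univ.filter fun v => inc v K).card = 4 := by
    intro K hbK hdeg
    obtain ⟨w, hw⟩ := hw K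
    exact TSG.card_four hK hcut hbig hbK hdeg hw
  refine ⟨colP G inc, ?_, ?_⟩
  · intro i hi K hKi L hLi hdK hdL
    by_cases hKL : K = L
    · rw [hKL]
    rcases i with a | S
    · obtain ⟨-, hbK, haK⟩ := mem_filter.1 hKi
      obtain ⟨-, hbL, haL⟩ := mem_filter.1 hLi
      have h6 := TSG.deg_le (le_refl G) hK haK haL hKL
      have h7 := h4 K hbK hdK
      have h8 := h4 L hbL hdL
      rw [colP_eq hK haK (by omega), colP_eq hK haL (by omega)]
    · obtain ⟨-, hS, hbK, a, haS, haK⟩ := mem_filter.1 hKi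
      obtain ⟨-, -, hbL, b, hbS, hbL'⟩ := mem_filter.1 hLi
      have hKS : K ≠ S := by
        rintro rfl
        exact hS hbK
      have hLS : L ≠ S := by
        rintro rfl
        exact hS hbL
      have h6 := TSG.deg_le (le_refl G) hK haK haS hKS
      have h6' := TSG.deg_le (le_refl G) hK hbL' hbS hLS
      have h7 := h4 K hbK hdK
      have h8 := h4 L hbL hdL
      have h9 := C1x.small_card hS
      rw [colP_eq hK haK (by omega), colP_eq hK hbL' (by omega)]
      by_cases hab : a = b
      · rw [hab]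
      · rw [comp_eq ⟨(hK.adj_iff _ _).2 ⟨hab, S, haS, hbS⟩, by omega, by omega⟩]
  · refine le_trans ?_ hs
    -- the sum over the colours which are components
    have h6 : ∀ c ∈ univ.image (colP G inc), NTR (hyp inc) (colP G inc) c / 2 ≤
        (univ.filter fun v => (univ.filter fun w => G.Adj v w).card = 5 ∧
          cc G ((low G).connectedComponentMk v) = c).card / 2 := fun c _ =>
      Nat.div_le_div_right (ntr_le hK hcut hbig h5 hw c)
    refine (sum_le_sum h6).trans ?_
    have h7 : ∑ c ∈ univ.image (colP G inc), (univ.filter fun v =>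
        (univ.filter fun w => G.Adj v w).card = 5 ∧
          cc G ((low G).connectedComponentMk v) = c).card / 2 ≤
        ∑ c ∈ univ.image (fun v => cc G ((low G).connectedComponentMk v)), (univ.filter fun v =>
        (univ.filter fun w => G.Adj v w).card = 5 ∧
          cc G ((low G).connectedComponentMk v) = c).card / 2 := by
      refine sum_le_sum_of_ne_zero ?_
      intro c _ hc
      have h8 : (univ.filter fun v => (univ.filter fun w => G.Adj v w).card = 5 ∧
          cc G ((low G).connectedComponentMk v) = c).card ≠ 0 := by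
        intro h
        rw [h] at hc
        exact hc rfl
      obtain ⟨v, hv⟩ := card_pos.1 (Nat.pos_of_ne_zero h8)
      exact mem_image.2 ⟨v, mem_univ _, (mem_filter.1 hv).2.2⟩
    refine h7.trans (le_of_eq ?_)
    have himg : univ.image (fun v => cc G ((low G).connectedComponentMk v)) =
        (univ.image (low G).connectedComponentMk).image (cc G) := by
      rw [image_image]
      rfl
    unfold Phi
    rw [himg]
    rw [sum_image fun _ _ _ _ h => cc_inj G h]
    refine sum_congr rfl fun c _ => ?_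
    unfold kc
    congr 2
    refine filter_congr fun v _ => ?_
    rw [ncard_nbr]
    constructor
    · rintro ⟨h1, h2⟩
      exact ⟨h1, cc_inj G h2⟩
    · rintro ⟨h1, h2⟩
      exact ⟨h1, by rw [h2]⟩

/-! ### The relative form of the lemma on hypergraphs -/

/-- the hyperedges with at least two vertices, in the subtype -/
def rs {B I : Type} (B₀ : Finset B) (e : I → Finset B) :
    {i // 2 ≤ (e i).card} → Finset {b // b ∈ B₀} := fun i => (e i.1).subtype (· ∈ B₀)

theorem rowh5Gen (B I : Type) [Fintype B] [Fintype I] (B₀ : Finset B)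
    (e : I → Finset B) (he : ∀ i, e i ⊆ B₀ ∧ (e i).card ≤ 3) (hF : FourConn B₀ e)
    (hF5 : FiveEss B₀ e)
    (hL : (∀ i, (rs B₀ e i).card = (e i.1).card) → (∀ i b, b ∈ rs B₀ e i ↔ b.1 ∈ e i.1) →
      (∀ c : {b // b ∈ B₀}, (univ.filter fun i => Crosses (e i) {c.1}).card ≤
        (univ.filter fun i => Crosses (rs B₀ e i) {c}).card) →
      (∀ i, (rs B₀ e i).card = 2 ∨ (rs B₀ e i).card = 3) → FourConn univ (rs B₀ e) →
      FiveEss univ (rs B₀ e) → EvenConn univ (rs B₀ e)) : EvenConn B₀ e := by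
  set emb : {b // b ∈ B₀} ↪ B := Function.Embedding.subtype _ with hemb
  have hev : ∀ b : {b // b ∈ B₀}, emb b = b.1 := fun _ => rfl
  set e' : {i // 2 ≤ (e i).card} → Finset {b // b ∈ B₀} := rs B₀ e with he'
  have hmem : ∀ (i : {i // 2 ≤ (e i).card}) (b : {b // b ∈ B₀}), b ∈ e' i ↔ b.1 ∈ e i.1 :=
    fun i b => mem_subtype
  have hcard : ∀ i : {i // 2 ≤ (e i).card}, (e' i).card = (e i.1).card := by
    intro i
    change ((e i.1).subtype (· ∈ B₀)).card = _
    rw [card_subtype, filter_true_of_mem]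
    intro x hx
    exact (he i.1).1 hx
  have hcross : ∀ X' : Finset {b // b ∈ B₀},
      (univ.filter fun i => Crosses (e i) (X'.map emb)).card ≤
        (univ.filter fun i : {i // 2 ≤ (e i).card} => Crosses (e' i) X').card := by
    intro X'
    refine le_trans (card_le_card ?_) (card_image_le
      (s := univ.filter fun i : {i // 2 ≤ (e i).card} => Crosses (e' i) X') (f := Subtype.val))
    intro i hi
    obtain ⟨⟨a, ha, haX⟩, b, hb, hbX⟩ := (mem_filter.1 hi).2
    obtain ⟨a', ha', rfl⟩ := mem_map.1 haX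
    have h2 : 2 ≤ (e i).card := by
      have h3 : 1 < (e i).card := by
        rw [one_lt_card]
        refine ⟨emb a', ha, b, hb, ?_⟩
        rintro rfl
        exact hbX haX
      omega
    refine mem_image.2 ⟨⟨i, h2⟩, mem_filter.2 ⟨mem_univ _, ⟨a', (hmem _ _).2 ha, ha'⟩,
      ⟨b, (he i).1 hb⟩, (hmem _ _).2 hb, ?_⟩, rfl⟩
    intro h3
    exact hbX (mem_map.2 ⟨_, h3, rfl⟩)
  obtain ⟨f', hf1, hf2, hf3⟩ := hL hcard hmem (by
    intro c
    have h4 := hcross {c}
    rw [map_singleton] at h4
    exact h4) (by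
    intro i
    rw [hcard]
    have h1 := (he i.1).2
    have h2 := i.2
    omega) (by
    intro X' _ hne hX
    have h1 := hF (X'.map emb) (by
      intro b hb
      obtain ⟨c, _, rfl⟩ := mem_map.1 hb
      exact c.2) (by
      obtain ⟨c, hc⟩ := hne
      exact ⟨emb c, mem_map_of_mem _ hc⟩) (by
      intro h
      apply hX
      rw [eq_univ_iff_forall]
      intro c
      have h2 : emb c ∈ X'.map emb := by
        rw [h]
        exact c.2
      exact (mem_map' emb).1 h2)
    exact h1.trans (hcross X')) (by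
    intro X' _ hX2 hX3
    have h1 : (univ : Finset {b // b ∈ B₀}).card = B₀.card := by
      rw [card_univ, Fintype.card_coe]
    have h2 := hF5 (X'.map emb) (by
      intro b hb
      obtain ⟨c, _, rfl⟩ := mem_map.1 hb
      exact c.2) (by rw [card_map]; exact hX2) (by rw [card_map, ← h1]; exact hX3)
    exact h2.trans (hcross X'))
  obtain ⟨F, hpos, hneg⟩ : ∃ F : I → Finset B,
      (∀ i (h : 2 ≤ (e i).card), F i = (f' ⟨i, h⟩).map emb) ∧
        ∀ i, ¬ 2 ≤ (e i).card → F i = ∅ :=
    ⟨fun i => if h : 2 ≤ (e i).card then (f' ⟨i, h⟩).map emb else ∅, fun i h => dif_pos h,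
      fun i h => dif_neg h⟩
  refine ⟨F, ?_, ?_, ?_⟩
  · intro i
    by_cases h : 2 ≤ (e i).card
    · rw [hpos i h]
      refine ⟨?_, ?_⟩
      · intro b hb
        obtain ⟨c, hc, rfl⟩ := mem_map.1 hb
        exact (hmem _ _).1 ((hf1 _).1 hc)
      · rcases (hf1 ⟨i, h⟩).2 with h1 | h1
        · left
          rw [h1, map_empty]
        · right
          rw [card_map, h1]
    · rw [hneg i h]
      exact ⟨empty_subset _, Or.inl rfl⟩
  · intro K
    by_cases hK : K ∈ B₀
    · have h1 : (univ.filter fun i => K ∈ F i) =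
          (univ.filter fun i : {i // 2 ≤ (e i).card} => (⟨K, hK⟩ : {b // b ∈ B₀}) ∈ f' i).map
            (Function.Embedding.subtype _) := by
        ext i
        rw [mem_filter, mem_map]
        constructor
        · rintro ⟨_, h2⟩
          by_cases h : 2 ≤ (e i).card
          · rw [hpos i h, mem_map] at h2
            obtain ⟨c, hc, hcK⟩ := h2
            refine ⟨⟨i, h⟩, mem_filter.2 ⟨mem_univ _, ?_⟩, rfl⟩
            have h3 : c = ⟨K, hK⟩ := Subtype.ext hcK
            rwa [← h3]
          · rw [hneg i h] at h2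
            exact absurd h2 (notMem_empty _)
        · rintro ⟨j, hj, rfl⟩
          refine ⟨mem_univ _, ?_⟩
          have h2 : 2 ≤ (e (Function.Embedding.subtype _ j)).card := j.2
          rw [hpos _ h2]
          exact mem_map.2 ⟨⟨K, hK⟩, (mem_filter.1 hj).2, rfl⟩
      rw [h1, card_map]
      exact key _ _ _ (hf2 ⟨K, hK⟩)
    · have h1 : (univ.filter fun i => K ∈ F i) = ∅ := by
        rw [filter_eq_empty_iff]
        intro i _ h2
        by_cases h : 2 ≤ (e i).card
        · rw [hpos i h, mem_map] at h2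
          obtain ⟨c, _, rfl⟩ := h2
          exact hK c.2
        · rw [hneg i h] at h2
          exact absurd h2 (notMem_empty _)
      rw [h1, card_empty]
      exact Even.zero
  · intro X hXB hne hX
    obtain ⟨j, ⟨a, ha, haX⟩, b, hb, hbX⟩ := hf3 (X.subtype (· ∈ B₀)) (subset_univ _) (by
      obtain ⟨c, hc⟩ := hne
      exact ⟨⟨c, hXB hc⟩, mem_subtype.2 hc⟩) (by
      intro h
      apply hX
      refine Subset.antisymm hXB fun c hc => ?_
      have h1 : (⟨c, hc⟩ : {b // b ∈ B₀}) ∈ X.subtype (· ∈ B₀) := by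
        rw [h]
        exact mem_univ _
      exact mem_subtype.1 h1)
    refine ⟨j.1, ⟨a.1, ?_, mem_subtype.1 haX⟩, b.1, ?_, fun h => hbX (mem_subtype.2 h)⟩
    · rw [hpos _ j.2]
      exact mem_map.2 ⟨a, ha, rfl⟩
    · rw [hpos _ j.2]
      exact mem_map.2 ⟨b, hb, rfl⟩

theorem rowh5P (hL : HypPhi) (B I : Type) [Fintype B] [Fintype I] (B₀ : Finset B)
    (e : I → Finset B) (he : ∀ i, e i ⊆ B₀ ∧ (e i).card ≤ 3) (hF : FourConn B₀ e)
    (hF5 : FiveEss B₀ e) (hm : RelColP e) : EvenConn B₀ e := by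
  refine rowh5Gen B I B₀ e he hF hF5 fun hcard hmem hcut h23 h4 h5 => ?_
  refine hL _ _ _ h23 h4 h5 ?_
  obtain ⟨κ, hκ1, hκ2⟩ := hm
  have hD : ∀ c : {b // b ∈ B₀}, D4 (rs B₀ e) c →
      (univ.filter fun i => Crosses (e i) {c.1}).card ≤ 4 := fun c hc =>
    (hcut c).trans (le_of_eq hc)
  refine ⟨fun b => κ b.1, ?_, ?_⟩
  · intro i hi u hu u' hu' h1 h2
    exact hκ1 i.1 (by rw [← hcard]; exact hi) u.1 ((hmem _ _).1 hu) u'.1 ((hmem _ _).1 hu')
      (hD u h1) (hD u' h2)
  · refine le_trans ?_ hκ2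
    have h6 : ∀ c, (∑ i ∈ univ.filter (fun i => (rs B₀ e i).card = 3),
        ((rs B₀ e i).filter fun u => D4 (rs B₀ e) u ∧ κ u.1 = c).card) ≤ NTR e κ c := by
      intro c
      rw [← card_sigma]
      unfold NTR
      refine card_le_card_of_injOn (fun p => (p.1.1, p.2.1)) ?_ ?_
      · intro p hp
        rw [mem_coe, mem_sigma, mem_filter, mem_filter] at hp
        obtain ⟨⟨-, h7⟩, h8, h9, h10⟩ := hp
        exact mem_filter.2 ⟨mem_univ _, by rw [← hcard]; exact h7, (hmem _ _).1 h8, hD _ h9, h10⟩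
      · rintro ⟨i, u⟩ _ ⟨i', u'⟩ _ hpp
        have h7 : i = i' := Subtype.ext (congrArg Prod.fst hpp)
        have h8 : u = u' := Subtype.ext (congrArg Prod.snd hpp)
        rw [h7, h8]
    refine (sum_le_sum fun c _ => Nat.div_le_div_right (h6 c)).trans ?_
    refine sum_le_sum_of_subset ?_
    intro c hc
    obtain ⟨b, -, rfl⟩ := mem_image.1 hc
    exact mem_image.2 ⟨b.1, mem_univ _, rfl⟩

end MP

open MP

/-- **The graph side of SEP+** -/
theorem mainPhi (hyp' : HypPhi) (V : Type) [Fintype V] [DecidableEq V] (G : SimpleGraph V)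
    (hN : NoSmallCut G) (h3 : 3 ≤ Fintype.card V) (hclaw : ClawFree G) (hsep : Phi G ≤ 5) :
    G.IsHamiltonian := by
  obtain ⟨G', hle, hcf, hcl, hham⟩ := (rowD2 rowd1) V G hclaw
  refine rowE5 V G (hham ?_)
  have hN' : NoSmallCut G' := by
    intro S A C h1 h2 h4 h5 h6 h7 h8
    exact hN S A C h1 h2 h4 h5 h6 h7 fun a ha c hc hac => h8 a ha c hc (hle hac)
  by_cases hcomp : ∀ u v, u ≠ v → G'.Adj u v
  · exact ham_of_complete G' h3 hcomp
  push Not at hcomp
  have hcompG : ∃ u v, u ≠ v ∧ ¬ G.Adj u v := by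
    obtain ⟨u, v, h1, h2⟩ := hcomp
    exact ⟨u, v, h1, fun h => h2 (hle h)⟩
  have hiso : ∀ v, ∃ w, G'.Adj v w := by
    intro v
    by_contra hno
    push Not at hno
    have h5 := hN' ∅ {v} ({v}ᶜ) (by
        intro w
        simp only [notMem_empty, mem_singleton, mem_compl, false_or]
        exact Classical.em _)
      (by simp) (by simp) (by simp) (singleton_nonempty v)
      (by
        rw [← card_pos, card_compl, card_singleton]
        omega)
      (by
        intro a ha c _ hac
        rw [mem_singleton] at ha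
        rw [ha] at hac
        exact hno c hac)
    simp at h5
  obtain ⟨C, _, inc, hK⟩ := D3.rowD3 V G' hcf hcl hiso
  have hbig := rowc0 V C G' inc hK hN' hcomp
  obtain ⟨hr, hfour⟩ := rowc1 V C G' inc hK hN' hbig
  have h5 : ∀ v, 5 ≤ (univ.filter fun w => G.Adj v w).card := five_le_deg hN hcompG
  have hw : ∀ K : C, ∃ w, ¬ inc w K := by
    intro K
    by_contra hno
    push Not at hno
    obtain ⟨u, v, huv, hadj⟩ := hcomp
    exact hadj ((hK.adj_iff u v).2 ⟨huv, K, hno u, hno v⟩)
  have heven := rowh5P hyp' C (V ⊕ C) (bigs inc) (Pool.Agent.ClawHam.hyp inc) hr hfour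
    (rowc5 V C G' inc hK hN' hbig)
    (relColP hK hN' hbig (five_le_deg hN' hcomp) hw ((phi_le hle fun v => by
      rw [ncard_nbr]; exact h5 v).trans hsep))
  have htwo : 2 ≤ (bigs inc).card := by
    by_contra hlt
    obtain ⟨u, v, huv, hadj⟩ := hcomp
    obtain ⟨K, hK1, hK2⟩ := hbig u
    obtain ⟨L, hL1, hL2⟩ := hbig v
    have hKL : K = L := by
      have h1 : (bigs inc).card ≤ 1 := by omega
      rw [card_le_one] at h1
      exact h1 K (by simp [bigs, hK1]) L (by simp [bigs, hL1])
    exact hadj ((hK.adj_iff u v).2 ⟨huv, K, hK2, by rw [hKL]; exact hL2⟩)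
  obtain ⟨F, hF⟩ := rowe1 V C G' inc hK hbig htwo heven
  obtain ⟨σ, hσ1, hσ2⟩ := rowe3 V C inc F hK.two hF (rowe2 V C inc F hK.two hK.ex hF.two hF.even)
  exact E4.rowE4 V G' σ h3 hσ1 fun v hv => (hK.adj_iff v (σ v)).2 ⟨hv, hσ2 v⟩

end SP

end Pool.Agent.ClawHam
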