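import Pool.Agent.Lib.MP_e2dbb5_co.SPP0
import Pool.Agent.Lib.MP_e2dbb5_co.GMono

/-!
# SEP+: all eliminations (helper47)
-/

set_option autoImplicit false
set_option linter.unusedSectionVars false

open Finset

noncomputable section

namespace Pool.Agent.ClawHam

open Classical

namespace SP

namespace AllP

/-- the certificate of one vertex -/
theorem algM_single {V : Type} [Fintype V] (v : V) (h : Multiset (Finset V)) : AlgM {v} h := by
  refine ⟨h.map fun _ => 0, ?_, ?_⟩
  · rw [Multiset.rel_map_right]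
    refine Multiset.rel_refl_of_refl_on fun e _ => ?_
    exact ⟨⟨fun _ _ => rfl, by simp⟩, ⟨fun _ _ => rfl, by simp⟩⟩
  · exact rowBase V v _

/-- double counting -/
theorem sum_countP {V : Type} (S : Finset V) (h : Multiset (Finset V)) :
    ∑ u ∈ S, h.countP (fun e => u ∈ e ∧ e.card = 3) =
      ((h.filter fun e => e.card = 3).map fun e => (e.filter fun u => u ∈ S).card).sum := by
  induction h using Multiset.induction_on with
  | empty => simp
  | cons e h ih =>
    by_cases h3 : e.card = 3
    · rw [Multiset.filter_cons_of_pos h h3, Multiset.map_cons, Multiset.sum_cons, ← ih]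
      have h1 : ∀ u ∈ S, Multiset.countP (fun e => u ∈ e ∧ e.card = 3) (e ::ₘ h) =
          (if u ∈ e then 1 else 0) + h.countP (fun e => u ∈ e ∧ e.card = 3) := by
        intro u _
        rw [Multiset.countP_cons]
        simp only [h3, and_true]
        ring
      rw [Finset.sum_congr rfl h1, Finset.sum_add_distrib]
      congr 1
      rw [← Finset.card_filter]
      congr 1
      ext u
      simp only [Finset.mem_filter]
      tauto
    · rw [Multiset.filter_cons_of_neg h h3, ← ih]
      refine Finset.sum_congr rfl fun u _ => ?_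
      rw [Multiset.countP_cons_of_neg]
      exact fun h1 => h3 h1.2

/-- the incidences of one colour -/
theorem two_mul_le {V : Type} [Fintype V] (B₀ W : Finset V) (h : Multiset (Finset V)) (κ : V → ℕ)
    (hh : ∀ v ∈ B₀, v ∉ W → 2 ≤ h.countP (fun e => v ∈ e ∧ e.card = 3)) (c : ℕ) :
    2 * ((B₀ \ W).filter fun u => κ u = c).card ≤ inc3 W h κ c := by
  set S : Finset V := (B₀ \ W).filter fun u => κ u = c with hS
  have h1 : 2 * S.card ≤ ∑ u ∈ S, h.countP (fun e => u ∈ e ∧ e.card = 3) := by
    rw [mul_comm, ← smul_eq_mul]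
    refine Finset.card_nsmul_le_sum _ _ _ fun u hu => ?_
    obtain ⟨hu1, -⟩ := Finset.mem_filter.1 hu
    obtain ⟨hu2, hu3⟩ := Finset.mem_sdiff.1 hu1
    exact hh u hu2 hu3
  refine le_trans h1 ?_
  rw [sum_countP]
  unfold inc3
  refine Multiset.sum_map_le_sum_map _ _ fun e _ => ?_
  refine Finset.card_le_card fun u hu => ?_
  obtain ⟨hu1, hu2⟩ := Finset.mem_filter.1 hu
  obtain ⟨hu3, hu4⟩ := Finset.mem_filter.1 hu2
  exact Finset.mem_filter.2 ⟨hu1, (Finset.mem_sdiff.1 hu3).2, hu4⟩

theorem card_le {V : Type} [Fintype V] (B₀ W : Finset V) (h : Multiset (Finset V)) (κ : V → ℕ)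
    (hh : ∀ v ∈ B₀, v ∉ W → 2 ≤ h.countP (fun e => v ∈ e ∧ e.card = 3))
    (hs : ∑ c ∈ B₀.image κ, inc3 W h κ c / 2 ≤ 5) : (B₀ \ W).card ≤ 5 := by
  refine le_trans ?_ hs
  rw [Finset.card_eq_sum_card_fiberwise (f := κ) (t := B₀.image κ)
    (fun u hu => Finset.mem_image_of_mem κ (Finset.mem_sdiff.1 hu).1)]
  refine Finset.sum_le_sum fun c _ => ?_
  have := two_mul_le B₀ W h κ hh c
  omega

end AllP

/-- **row ALLP** -/
theorem rowAllP (hbase : RowBaseP) (hstep : RowStepP) : RowAllP := by
  intro V _ B₀ W h κ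
  induction hn : B₀.card using Nat.strong_induction_on generalizing B₀ h with
  | _ n ih =>
    intro hsy hne hs
    by_cases hsing : ∃ v, B₀ = {v}
    · obtain ⟨v, rfl⟩ := hsing
      exact AllP.algM_single v h
    by_cases hex : ∃ v ∈ B₀, v ∉ W ∧ h.countP (fun e => v ∈ e ∧ e.card = 3) ≤ 1
    · obtain ⟨v, hv, hvW, hc⟩ := hex
      have hBv : B₀ ≠ {v} := fun h1 => hsing ⟨v, h1⟩
      obtain ⟨h', hsy', hinc, hA⟩ := hstep V B₀ W h κ v hsy hv hvW hBv hc
      refine hA (ih (B₀.erase v).card ?_ (B₀.erase v) h' rfl hsy' ?_ ?_)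
      · rw [← hn]
        exact Finset.card_erase_lt_of_mem hv
      · rw [Finset.nonempty_iff_ne_empty]
        intro h1
        rw [Finset.erase_eq_empty_iff] at h1
        rcases h1 with h1 | h1
        · rw [h1] at hv
          exact Finset.notMem_empty _ hv
        · exact hBv h1
      · refine le_trans ?_ hs
        refine le_trans (Finset.sum_le_sum fun c _ => Nat.div_le_div_right (hinc c)) ?_
        exact Finset.sum_le_sum_of_subset (Finset.image_subset_image (Finset.erase_subset _ _))
    · push Not at hex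
      refine hbase V B₀ W h hne hsy.sub hsy.wsub hsy.req ?_
      refine AllP.card_le B₀ W h κ (fun v hv hvW => ?_) hs
      have := hex v hv hvW
      omega

end SP

end Pool.Agent.ClawHam
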