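import Pool.Agent.Lib.MP_e2dbb5_co.SP0
import Pool.Agent.Lib.MP_e2dbb5_co.G1

/-!
# Separated vertices of degree five: the base (helper79)
-/

set_option autoImplicit false
set_option linter.unusedSectionVars false

open Finset

noncomputable section

namespace Pool.Agent.ClawHam

open Classical

namespace SP

namespace BaseW

/-- extension by zero -/
def ext {V : Type} {B₀ : Finset V} (x : Vec {b // b ∈ B₀}) : Vec V :=
  fun w => if hw : w ∈ B₀ then x ⟨w, hw⟩ else 0

theorem evenOn_ext {V : Type} [Fintype V] {B₀ : Finset V} {e : Finset V} (he : e ⊆ B₀)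
    (x : Vec {b // b ∈ B₀}) (hx : EvenOn (e.subtype (· ∈ B₀)) x) : EvenOn e (ext x) := by
  constructor
  · intro w hw
    unfold ext
    split_ifs with h
    · exact hx.1 ⟨w, h⟩ fun h1 => hw (mem_subtype.1 h1)
    · rfl
  · have h1 : ∑ w, ext x w = ∑ w ∈ B₀, ext x w := by
      symm
      refine Finset.sum_subset (Finset.subset_univ _) fun w _ hw => ?_
      unfold ext
      rw [dif_neg hw]
    rw [h1, ← Finset.sum_coe_sort B₀ (ext x)]
    rw [← hx.2]
    refine Finset.sum_congr rfl fun w _ => ?_
    unfold ext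
    rw [dif_pos w.2]

theorem algE_add {V : Type} [Fintype V] {B₀ : Finset V} {s s' : Multiset (El V)}
    (h : AlgE B₀ s) : AlgE B₀ (s + s') := by
  obtain ⟨r, hr, x, hx, ht⟩ := h
  refine ⟨r, hr, x, ?_, ht⟩
  rw [G.OP_add]
  have h1 := Submodule.mul_mem_mul hx (G.one_mem_OP s')
  rwa [mul_one] at h1

theorem crosses_card {V : Type} {e X : Finset V} (h : Crosses e X) : 2 ≤ e.card := by
  obtain ⟨⟨a, ha, haX⟩, b, hb, hbX⟩ := h
  have h1 : 1 < e.card := by
    rw [one_lt_card]
    exact ⟨a, ha, b, hb, fun h => hbX (h ▸ haX)⟩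
  omega

theorem zero_InE {V : Type} [Fintype V] (e : Finset V) : InE e (0 : El V) :=
  ⟨⟨fun _ _ => rfl, by simp⟩, ⟨fun _ _ => rfl, by simp⟩⟩

end BaseW

open BaseW in
theorem rowBaseW (hF : RowFive) (hK : RowKA) (hT : RowTr) : RowBaseW := by
  intro V _ B₀ h hB hsub hcut
  set h₂ := h.filter fun e => 2 ≤ e.card with hh₂
  set h₁ := h.filter fun e => ¬ 2 ≤ e.card with hh₁
  have hsum : h₂ + h₁ = h := Multiset.filter_add_not _ _
  set l := h₂.toList with hl
  have hlh : (univ : Finset (Fin l.length)).val.map (fun i => l.get i) = h₂ := by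
    rw [Fin.univ_val_map, List.ofFn_get, hl, Multiset.coe_toList]
  have hmem : ∀ i, l.get i ∈ h₂ := by
    intro i
    rw [← Multiset.mem_toList, ← hl]
    exact List.get_mem _ _
  set emb : {b // b ∈ B₀} ↪ V := Function.Embedding.subtype _ with hemb
  set e' : Fin l.length → Finset {b // b ∈ B₀} := fun i => (l.get i).subtype (· ∈ B₀) with he'
  have hle : ∀ i, l.get i ⊆ B₀ := fun i => (hsub _ (Multiset.mem_filter.1 (hmem i)).1).1
  have hcard : ∀ i, (e' i).card = (l.get i).card := by
    intro i
    rw [he']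
    simp only
    rw [card_subtype, filter_true_of_mem]
    intro x hx
    exact hle i hx
  have hcr : ∀ (X : Finset {b // b ∈ B₀}) i, Crosses (l.get i) (X.map emb) → Crosses (e' i) X := by
    rintro X i ⟨⟨a, ha, haX⟩, b, hb, hbX⟩
    obtain ⟨a', ha', rfl⟩ := mem_map.1 haX
    refine ⟨⟨a', mem_subtype.2 ha, ha'⟩, ⟨b, hle i hb⟩, mem_subtype.2 hb, fun h => ?_⟩
    exact hbX (mem_map.2 ⟨_, h, rfl⟩)
  haveI : Nonempty {b // b ∈ B₀} := by
    obtain ⟨b, hb⟩ := hB
    exact ⟨⟨b, hb⟩⟩
  have hC : CertK e' := by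
    refine hF _ _ e' ?_ ?_
    · intro i
      rw [hcard]
      have h1 := (Multiset.mem_filter.1 (hmem i)).2
      have h2 := (hsub _ (Multiset.mem_filter.1 (hmem i)).1).2
      omega
    · intro X hX hX'
      have h1 := hcut (X.map emb) (by
        intro b hb
        obtain ⟨c, _, rfl⟩ := mem_map.1 hb
        exact c.2) (by
        obtain ⟨c, hc⟩ := hX
        exact ⟨emb c, mem_map_of_mem _ hc⟩) (by
        intro h
        apply hX'
        rw [eq_univ_iff_forall]
        intro c
        have h2 : emb c ∈ X.map emb := by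
          rw [h]
          exact c.2
        exact (mem_map' emb).1 h2)
      refine h1.trans ?_
      unfold ct
      have h2 : h.countP (fun e => Crosses e (X.map emb)) =
          h₂.countP (fun e => Crosses e (X.map emb)) := by
        rw [← hsum, Multiset.countP_add]
        have h3 : h₁.countP (fun e => Crosses e (X.map emb)) = 0 := by
          rw [Multiset.countP_eq_zero]
          intro e he hce
          exact (Multiset.mem_filter.1 he).2 (crosses_card hce)
        omega
      rw [h2, ← hlh, Multiset.countP_map]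
      have h4 : (Multiset.filter (fun i => Crosses (l.get i) (X.map emb))
          (univ : Finset (Fin l.length)).val).card =
          (univ.filter fun i => Crosses (l.get i) (X.map emb)).card := rfl
      rw [h4]
      refine card_le_card ?_
      intro i hi
      exact mem_filter.2 ⟨mem_univ _, hcr X i (mem_filter.1 hi).2⟩
  obtain ⟨P, hP, hA⟩ := hK _ _ e' hC
  have hA' := hT V (Fin l.length) B₀ P hA
  refine ⟨_, ?_, algE_add (s' := h₁.map fun _ => 0) hA'⟩
  rw [← hsum]
  refine Multiset.Rel.add ?_ ?_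
  · rw [← hlh, Multiset.rel_map]
    refine Multiset.rel_refl_of_refl_on fun i _ => ?_
    exact ⟨evenOn_ext (hle i) _ (hP i).1, evenOn_ext (hle i) _ (hP i).2⟩
  · have h5 : Multiset.Rel InE (h₁.map id) (h₁.map fun _ => (0 : El V)) := by
      rw [Multiset.rel_map]
      exact Multiset.rel_refl_of_refl_on fun e _ => zero_InE e
    rwa [Multiset.map_id] at h5

end SP

end Pool.Agent.ClawHam
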