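import Pool.Agent.Lib.MP_e2dbb5_co.TSKA

/-!
# The algebra of the induction for T2* (helper69)

`elM e`: the element of the hyperedge `e` (nothing if `e` has at most one vertex);
`AlgS B₀ e`: the certificate for a family of hyperedges. The elimination `elim` of a vertex in one
triple and three pairs can be undone.
-/

set_option autoImplicit false
set_option linter.unusedSectionVars false

open Finset

noncomputable section

namespace Pool.Agent.ClawHam

open Classical

namespace TS

open G GK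

variable {V I : Type} [Fintype V] [Fintype I]

/-- the element of a hyperedge -/
def elM (e : Finset V) : El V := if h : ∃ P : El V, elOf e P then h.choose else (0, 0)

theorem elM_spec {e : Finset V} (he : e.card = 2 ∨ e.card = 3) : elOf e (elM e) := by
  unfold elM
  rw [dif_pos (exists_elOf e he)]
  exact (exists_elOf e he).choose_spec

theorem elOf_card {e : Finset V} {P : El V} (h : elOf e P) : e.card = 2 ∨ e.card = 3 := by
  rcases h with ⟨a, b, hab, rfl, -⟩ | ⟨a, b, c, hab, hac, hbc, rfl, -⟩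
  · exact Or.inl (Finset.card_pair hab)
  · exact Or.inr (Finset.card_eq_three.2 ⟨a, b, c, hab, hac, hbc, rfl⟩)

theorem elM_small {e : Finset V} (he : e.card ≤ 1) : elM e = (0, 0) := by
  unfold elM
  rw [dif_neg]
  rintro ⟨P, hP⟩
  rcases elOf_card hP with h | h <;> omega

/-- the certificate of a family of hyperedges -/
def AlgS (B₀ : Finset V) (e : I → Finset V) : Prop := AlgE B₀ (univ.val.map fun i => elM (e i))

/-- the vectors of the element are differences of vertices of `e` -/
theorem elM_form (e : Finset V) :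
    ((elM e).1 = 0 ∨ ∃ x ∈ e, ∃ y ∈ e, (elM e).1 = ev x y) ∧
    ((elM e).2 = 0 ∨ ∃ x ∈ e, ∃ y ∈ e, (elM e).2 = ev x y) := by
  by_cases h : ∃ P : El V, elOf e P
  · have h1 : elOf e (elM e) := by
      unfold elM
      rw [dif_pos h]
      exact h.choose_spec
    rcases h1 with ⟨a, b, -, rfl, h2⟩ | ⟨a, b, c, -, -, -, rfl, h2⟩
    · rw [h2]
      exact ⟨Or.inr ⟨a, by simp, b, by simp, rfl⟩, Or.inl rfl⟩
    · rw [h2]
      exact ⟨Or.inr ⟨a, by simp, b, by simp, rfl⟩, Or.inr ⟨b, by simp, c, by simp, rfl⟩⟩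
  · have h1 : elM e = (0, 0) := by
      unfold elM
      rw [dif_neg h]
    rw [h1]
    exact ⟨Or.inl rfl, Or.inl rfl⟩

/-- the space of a hyperedge inside the space of a plane which contains all differences -/
theorem elM_le {e : Finset V} {P : El V}
    (h : ∀ x ∈ e, ∀ y ∈ e, (ev x y : Vec V) = 0 ∨ ev x y = P.1 ∨ ev x y = P.2 ∨
      ev x y = P.1 + P.2) : OO (elM e) ≤ OO P := by
  obtain ⟨h1, h2⟩ := elM_form e
  refine GM.OO_mono ?_ ?_
  · rcases h1 with h1 | ⟨x, hx, y, hy, h1⟩
    · exact Or.inl h1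
    · rw [h1]
      exact h x hx y hy
  · rcases h2 with h2 | ⟨x, hx, y, hy, h2⟩
    · exact Or.inl h2
    · rw [h2]
      exact h x hx y hy

theorem triple_span (a b x : V) : ∀ y ∈ ({a, b, x} : Finset V), ∀ z ∈ ({a, b, x} : Finset V),
    (ev y z : Vec V) = 0 ∨ ev y z = ev a x ∨ ev y z = ev a b ∨ ev y z = ev a x + ev a b := by
  have h1 : (ev a x : Vec V) + ev a b = ev x b := by rw [ev_comm a x, ev_add]
  intro y hy z hz
  simp only [Finset.mem_insert, Finset.mem_singleton] at hy hz
  rw [h1]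
  rcases hy with rfl | rfl | rfl <;> rcases hz with rfl | rfl | rfl
  · exact Or.inl (GBr.ev_self _)
  · exact Or.inr (Or.inr (Or.inl rfl))
  · exact Or.inr (Or.inl rfl)
  · exact Or.inr (Or.inr (Or.inl (ev_comm _ _)))
  · exact Or.inl (GBr.ev_self _)
  · exact Or.inr (Or.inr (Or.inr (ev_comm _ _)))
  · exact Or.inr (Or.inl (ev_comm _ _))
  · exact Or.inr (Or.inr (Or.inr rfl))
  · exact Or.inl (GBr.ev_self _)

theorem pair_span (x y : V) : ∀ u ∈ ({x, y} : Finset V), ∀ w ∈ ({x, y} : Finset V),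
    (ev u w : Vec V) = 0 ∨ ev u w = ev x y ∨ ev u w = 0 ∨ ev u w = ev x y + 0 := by
  intro u hu w hw
  simp only [Finset.mem_insert, Finset.mem_singleton] at hu hw
  rcases hu with rfl | rfl <;> rcases hw with rfl | rfl
  · exact Or.inl (GBr.ev_self _)
  · exact Or.inr (Or.inl rfl)
  · exact Or.inr (Or.inl (ev_comm _ _))
  · exact Or.inl (GBr.ev_self _)

theorem OO_zero_le (P : El V) : OO ((0, 0) : El V) ≤ OO P :=
  GM.OO_mono (Or.inl rfl) (Or.inl rfl)

theorem OO_zero : OO ((0, 0) : El V) = 1 := by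
  apply le_antisymm
  · rw [G.OO_vec, Submodule.span_le]
    rintro z hz
    simp only [Set.mem_insert_iff, Set.mem_singleton_iff, TT_zero, QQ_zero] at hz
    rcases hz with rfl | rfl | rfl
    · exact Submodule.one_le.1 le_rfl
    · exact Submodule.zero_mem _
    · exact Submodule.zero_mem _
  · rw [Submodule.one_le]
    exact one_mem _

/-- **the elimination of a vertex in one triple and three pairs can be undone** -/
theorem algS_of_star {e : I → Finset V} {v : V} {i₀ i₁ i₂ i₃ : I} {a b x₁ x₂ x₃ : V}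
    (h : Star e v i₀ i₁ i₂ i₃ a b x₁ x₂ x₃) {B₀ : Finset V} (hv : v ∈ B₀)
    (hA : AlgS (B₀.erase v) (elim e v i₀ i₁ i₂ i₃ a b x₁ x₂ x₃)) : AlgS B₀ e := by
  obtain ⟨i01, i02, i03, i12, i13, i23, e0, e1, e2, e3, va, vb, ab, vx1, vx2, vx3, only⟩ := h
  -- the four hyperedges and the rest
  set R : Finset I := (((univ.erase i₀).erase i₁).erase i₂).erase i₃ with hR
  have hval : (univ : Finset I).val = i₀ ::ₘ i₁ ::ₘ i₂ ::ₘ i₃ ::ₘ R.val := by
    have h0 : (univ : Finset I) = insert i₀ (insert i₁ (insert i₂ (insert i₃ R))) := by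
      ext j
      simp only [hR, Finset.mem_univ, Finset.mem_insert, Finset.mem_erase, true_iff]
      tauto
    have h1 : i₃ ∉ R := by simp [hR]
    have h2 : i₂ ∉ insert i₃ R := by simp [hR, i23]
    have h3 : i₁ ∉ insert i₂ (insert i₃ R) := by simp [hR, i12, i13]
    have h4 : i₀ ∉ insert i₁ (insert i₂ (insert i₃ R)) := by simp [hR, i01, i02, i03]
    rw [h0, Finset.insert_val_of_notMem h4, Finset.insert_val_of_notMem h3,
      Finset.insert_val_of_notMem h2, Finset.insert_val_of_notMem h1]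
  have hRmem : ∀ i, i ∈ R.val ↔ i ≠ i₀ ∧ i ≠ i₁ ∧ i ≠ i₂ ∧ i ≠ i₃ := by
    intro i
    rw [Finset.mem_val, hR]
    simp only [Finset.mem_erase, Finset.mem_univ]
    tauto
  set s : Multiset (El V) := R.val.map fun i => elM (e i) with hs
  have hrest : (R.val.map fun i => elM (elim e v i₀ i₁ i₂ i₃ a b x₁ x₂ x₃ i)) = s := by
    rw [hs]
    refine Multiset.map_congr rfl fun i hi => ?_
    obtain ⟨n0, n1, n2, n3⟩ := (hRmem i).1 hi
    unfold elim
    rw [if_neg n0, if_neg n1, if_neg n2, if_neg n3]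
    by_cases hvi : v ∈ e i
    · rcases only i hvi with h1 | h1 | h1 | h1 | h1
      · rw [elM_small h1, elM_small ((Finset.card_le_card (Finset.erase_subset _ _)).trans h1)]
      · exact absurd h1 n0
      · exact absurd h1 n1
      · exact absurd h1 n2
      · exact absurd h1 n3
    · rw [Finset.erase_eq_of_notMem hvi]
  have hfree : Free v s := by
    intro P hP
    obtain ⟨i, hi, rfl⟩ := Multiset.mem_map.1 hP
    obtain ⟨n0, n1, n2, n3⟩ := (hRmem i).1 hi
    by_cases hvi : v ∈ e i
    · rcases only i hvi with h1 | h1 | h1 | h1 | h1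
      · rw [elM_small h1]
        exact ⟨rfl, rfl⟩
      · exact absurd h1 n0
      · exact absurd h1 n1
      · exact absurd h1 n2
      · exact absurd h1 n3
    · obtain ⟨h1, h2⟩ := elM_form (e i)
      have hz : ∀ x ∈ e i, ∀ y ∈ e i, (ev x y : Vec V) v = 0 := by
        intro x hx y hy
        rw [ev_apply, if_neg (fun h : v = x => hvi (h ▸ hx)), if_neg (fun h : v = y => hvi (h ▸ hy)),
          add_zero]
      constructor
      · rcases h1 with h1 | ⟨x, hx, y, hy, h1⟩
        · rw [h1]; rfl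
        · rw [h1]; exact hz x hx y hy
      · rcases h2 with h2 | ⟨x, hx, y, hy, h2⟩
        · rw [h2]; rfl
        · rw [h2]; exact hz x hx y hy
  have hone : ∀ x : V, v ≠ x → (ev v x : Vec V) v = 1 := by
    intro x hx
    rw [ev_apply, if_pos rfl, if_neg hx, add_zero]
  have hab0 : (ev a b : Vec V) v = 0 := by
    rw [ev_apply, if_neg va, if_neg vb, add_zero]
  -- the small system
  have hsmall : AlgE (B₀.erase v) ((ev v a + ev v x₁, ev a b) ::ₘ (ev v x₂ + ev v x₃, 0) ::ₘ s) := by
    have q1 : (ev v a : Vec V) + ev v x₁ = ev a x₁ := by rw [ev_comm v a, ev_add]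
    have q2 : (ev v x₂ : Vec V) + ev v x₃ = ev x₂ x₃ := by rw [ev_comm v x₂, ev_add]
    rw [q1, q2]
    refine GM.algE_mono ?_ hA
    have m0 : elM (elim e v i₀ i₁ i₂ i₃ a b x₁ x₂ x₃ i₀) = elM {a, b, x₁} := by
      unfold elim
      rw [if_pos rfl]
    have m1 : elM (elim e v i₀ i₁ i₂ i₃ a b x₁ x₂ x₃ i₁) = (0, 0) := by
      unfold elim
      rw [if_neg i01.symm, if_pos rfl]
      exact elM_small (by simp)
    have m2 : elM (elim e v i₀ i₁ i₂ i₃ a b x₁ x₂ x₃ i₂) = elM {x₂, x₃} := by
      unfold elim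
      rw [if_neg i02.symm, if_neg i12.symm, if_pos rfl]
    have m3 : elM (elim e v i₀ i₁ i₂ i₃ a b x₁ x₂ x₃ i₃) = (0, 0) := by
      unfold elim
      rw [if_neg i03.symm, if_neg i13.symm, if_neg i23.symm, if_pos rfl]
      exact elM_small (by simp)
    rw [hval, Multiset.map_cons, Multiset.map_cons, Multiset.map_cons, Multiset.map_cons, m0, m1,
      m2, m3, hrest, OP_cons, OP_cons, OP_cons, OP_cons, OP_cons, OP_cons, OO_zero]
    have k1 : OO (elM {a, b, x₁}) ≤ OO (ev a x₁, ev a b) := elM_le (triple_span a b x₁)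
    have k2 : OO (elM {x₂, x₃}) ≤ OO (ev x₂ x₃, 0) := elM_le (pair_span x₂ x₃)
    have k3 : ∀ A : Submodule (ZMod 2) (RR V), 1 * A = A := fun A => one_mul A
    rw [k3, k3]
    exact mul_le_mul' k1 (mul_le_mul' k2 le_rfl)
  have hbig := rowElimD V B₀ s v (ev v a) (ev a b) (ev v x₁) (ev v x₂) (ev v x₃) hv hfree
    (hone a va) (hone x₁ vx1) (hone x₂ vx2) (hone x₃ vx3) hab0 hsmall
  -- the large system
  unfold AlgS
  refine GM.algE_mono ?_ hbig
  rw [hval, Multiset.map_cons, Multiset.map_cons, Multiset.map_cons, Multiset.map_cons, e0, e1, e2,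
    e3, OP_cons, OP_cons, OP_cons, OP_cons, OP_cons, OP_cons, OP_cons, OP_cons]
  have k0 : OO (ev v a, ev a b) ≤ OO (elM {v, a, b}) := by
    have h1 : elOf {v, a, b} (elM {v, a, b}) := elM_spec (Or.inr (Finset.card_eq_three.2
      ⟨v, a, b, va, vb, ab, rfl⟩))
    exact el_le h1 (by simp) (by simp) (by simp)
  have kx : ∀ x, v ≠ x → OO (ev v x, 0) ≤ OO (elM {v, x}) := by
    intro x hx
    have h1 : elOf {v, x} (elM {v, x}) := elM_spec (Or.inl (Finset.card_pair hx))
    have h2 := el_span h1 (x := v) (y := x) (by simp) (by simp)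
    exact GM.OO_mono h2 (Or.inl rfl)
  exact mul_le_mul' k0 (mul_le_mul' (kx x₁ vx1) (mul_le_mul' (kx x₂ vx2)
    (mul_le_mul' (kx x₃ vx3) le_rfl)))

/-- the certificate of a family with hyperedges of two or three vertices -/
theorem evenConn_of_algS {e : I → Finset V} (he : ∀ i, (e i).card = 2 ∨ (e i).card = 3)
    (h : AlgS univ e) : EvenConn univ e :=
  evenConn_of_algE e (fun i => elM (e i)) (fun i => elM_spec (he i)) h

end TS

end Pool.Agent.ClawHam
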