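import Pool.Agent.Lib.MP_e2dbb5_co.SPP0
import Pool.Agent.Lib.MP_e2dbb5_co.TSAlg

/-!
# SEP+: row HYPPHI (helper69)
-/

set_option autoImplicit false
set_option linter.unusedSectionVars false

open Finset

noncomputable section

namespace Pool.Agent.ClawHam

open Classical

namespace SP

open G GK

variable {V : Type} [Fintype V]

theorem zmod2 (x : ZMod 2) : x = 0 ∨ x = 1 := by
  revert x
  decide

theorem even_two {a b : V} (hab : a ≠ b) {x : Vec V} (h : EvenOn {a, b} x) :
    x = 0 ∨ x = ev a b := by
  obtain ⟨h1, h2⟩ := h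
  have h3 : x a + x b = 0 := by
    rw [← Finset.sum_pair hab, ← h2]
    exact Finset.sum_subset (Finset.subset_univ _) fun w _ hw => h1 w hw
  have h4 : x b = x a := by
    rcases zmod2 (x a) with h | h <;> rcases zmod2 (x b) with h' | h' <;> rw [h, h'] at h3 ⊢
    · rw [zero_add] at h3
      exact absurd h3 one_ne_zero
    · rw [add_zero] at h3
      exact absurd h3 one_ne_zero
  rcases zmod2 (x a) with h | h
  · left
    funext w
    by_cases hw : w ∈ ({a, b} : Finset V)
    · rcases Finset.mem_insert.1 hw with rfl | hw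
      · exact h
      · rw [Finset.mem_singleton.1 hw, h4, h]
        rfl
    · rw [h1 w hw]
      rfl
  · right
    funext w
    rw [ev_apply]
    by_cases hw : w ∈ ({a, b} : Finset V)
    · rcases Finset.mem_insert.1 hw with rfl | hw
      · rw [if_pos rfl, if_neg hab, h, add_zero]
      · rw [Finset.mem_singleton.1 hw, if_neg hab.symm, if_pos rfl, h4, h, zero_add]
    · rw [h1 w hw]
      rw [Finset.mem_insert, Finset.mem_singleton, not_or] at hw
      rw [if_neg hw.1, if_neg hw.2, add_zero]

theorem even_three {a b c : V} (hab : a ≠ b) (hac : a ≠ c) (hbc : b ≠ c) {x : Vec V}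
    (h : EvenOn {a, b, c} x) : x = 0 ∨ x = ev a b ∨ x = ev b c ∨ x = ev a b + ev b c := by
  obtain ⟨h1, h2⟩ := h
  have h3 : x a + x b + x c = 0 := by
    rw [← h2]
    have h4 : ∑ w ∈ ({a, b, c} : Finset V), x w = x a + x b + x c := by
      rw [Finset.sum_insert (by simp [hab, hac]), Finset.sum_pair hbc, add_assoc]
    rw [← h4]
    exact Finset.sum_subset (Finset.subset_univ _) fun w _ hw => h1 w hw
  have hw4 : ∀ w, w = a ∨ w = b ∨ w = c ∨ (w ≠ a ∧ w ≠ b ∧ w ≠ c ∧ x w = 0) := by
    intro w
    by_cases hw : w ∈ ({a, b, c} : Finset V)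
    · simp only [Finset.mem_insert, Finset.mem_singleton] at hw
      tauto
    · have := h1 w hw
      simp only [Finset.mem_insert, Finset.mem_singleton, not_or] at hw
      tauto
  have key : ∀ y : Vec V, y a = x a → y b = x b → y c = x c →
      (∀ w, w ≠ a → w ≠ b → w ≠ c → y w = 0) → x = y := by
    intro y ya yb yc yw
    funext w
    rcases hw4 w with rfl | rfl | rfl | ⟨ha, hb, hc, h⟩
    · exact ya.symm
    · exact yb.symm
    · exact yc.symm
    · rw [h, yw w ha hb hc]
  rcases zmod2 (x a) with ha | ha <;> rcases zmod2 (x b) with hb | hb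
  · rw [ha, hb, add_zero, zero_add] at h3
    exact Or.inl (key 0 ha.symm hb.symm h3.symm fun _ _ _ _ => rfl)
  · have hc : x c = 1 := by
      rcases zmod2 (x c) with hc | hc
      · rw [ha, hb, hc] at h3
        exact absurd h3 (by decide)
      · exact hc
    refine Or.inr (Or.inr (Or.inl (key _ ?_ ?_ ?_ ?_)))
    · rw [ev_apply, if_neg hab, if_neg hac, ha, add_zero]
    · rw [ev_apply, if_pos rfl, if_neg hbc, hb, add_zero]
    · rw [ev_apply, if_neg hbc.symm, if_pos rfl, hc, zero_add]
    · intro w _ h2 h3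
      rw [ev_apply, if_neg h2, if_neg h3, add_zero]
  · have hc : x c = 1 := by
      rcases zmod2 (x c) with hc | hc
      · rw [ha, hb, hc] at h3
        exact absurd h3 (by decide)
      · exact hc
    refine Or.inr (Or.inr (Or.inr (key _ ?_ ?_ ?_ ?_)))
    · rw [ev_add, ev_apply, if_pos rfl, if_neg hac, ha, add_zero]
    · rw [ev_add, ev_apply, if_neg hab.symm, if_neg hbc, hb, add_zero]
    · rw [ev_add, ev_apply, if_neg hac.symm, if_pos rfl, hc, zero_add]
    · intro w h1 _ h3
      rw [ev_add, ev_apply, if_neg h1, if_neg h3, add_zero]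
  · have hc : x c = 0 := by
      rcases zmod2 (x c) with hc | hc
      · exact hc
      · rw [ha, hb, hc] at h3
        exact absurd h3 (by decide)
    refine Or.inr (Or.inl (key _ ?_ ?_ ?_ ?_))
    · rw [ev_apply, if_pos rfl, if_neg hab, ha, add_zero]
    · rw [ev_apply, if_neg hab.symm, if_pos rfl, hb, zero_add]
    · rw [ev_apply, if_neg hac.symm, if_neg hbc.symm, hc, add_zero]
    · intro w h1 h2 _
      rw [ev_apply, if_neg h1, if_neg h2, add_zero]

/-- an element in the even space of `e` has a smaller space than the element of `e` -/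
theorem inE_le {e : Finset V} {P Q : El V} (hP : elOf e P) (hQ : InE e Q) : OO Q ≤ OO P := by
  rcases hP with ⟨a, b, hab, rfl, rfl⟩ | ⟨a, b, c, hab, hac, hbc, rfl, rfl⟩
  · refine GM.OO_mono ?_ ?_
    · rcases even_two hab hQ.1 with h | h
      · exact Or.inl h
      · exact Or.inr (Or.inl h)
    · rcases even_two hab hQ.2 with h | h
      · exact Or.inl h
      · exact Or.inr (Or.inl h)
  · exact GM.OO_mono (even_three hab hac hbc hQ.1) (even_three hab hac hbc hQ.2)

/-- the same for a family -/
theorem rel_le {I : Type} {e : I → Finset V} {P : I → El V} (hP : ∀ i, elOf (e i) (P i))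
    (m : Multiset I) : ∀ s : Multiset (El V), Multiset.Rel InE (m.map e) s →
    OP s ≤ OP (m.map P) := by
  induction m using Multiset.induction_on with
  | empty =>
    intro s hs
    rw [Multiset.map_zero, Multiset.rel_zero_left] at hs
    rw [hs, Multiset.map_zero]
  | cons i m ih =>
    intro s hs
    rw [Multiset.map_cons, Multiset.rel_cons_left] at hs
    obtain ⟨Q, s', hQ, hs', rfl⟩ := hs
    rw [Multiset.map_cons, OP_cons, OP_cons]
    exact mul_le_mul' (inE_le (hP i) hQ) (ih s' hs')

theorem ct_family {B I : Type} [Fintype I] (e : I → Finset B) (X : Finset B) :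
    ct (univ.val.map e) X = (univ.filter fun i => Crosses (e i) X).card := by
  unfold ct
  rw [Multiset.countP_map, Finset.card_def, Finset.filter_val]

theorem crosses_compl {B : Type} [Fintype B] (s X : Finset B) :
    Crosses s (univ \ X) ↔ Crosses s X := by
  unfold Crosses
  constructor
  · rintro ⟨⟨a, ha, ha'⟩, b, hb, hb'⟩
    refine ⟨⟨b, hb, ?_⟩, a, ha, ?_⟩
    · by_contra h
      exact hb' (Finset.mem_sdiff.2 ⟨Finset.mem_univ _, h⟩)
    · exact (Finset.mem_sdiff.1 ha').2
  · rintro ⟨⟨a, ha, ha'⟩, b, hb, hb'⟩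
    refine ⟨⟨b, hb, Finset.mem_sdiff.2 ⟨Finset.mem_univ _, hb'⟩⟩, a, ha, fun h => ?_⟩
    exact (Finset.mem_sdiff.1 h).2 ha'

/-- the requirement in a hypergraph with FourConn, FiveEss -/
theorem req_of_five {B I : Type} [Fintype B] [Fintype I] (e : I → Finset B) (h4 : FourConn univ e)
    (h5 : FiveEss univ e) (X : Finset B) (hX : X.Nonempty) (hX' : X ≠ univ) :
    rq (univ.filter fun u => ¬ D4 e u) X ≤ (univ.filter fun i => Crosses (e i) X).card := by
  unfold rq
  split_ifs with hs
  · obtain ⟨⟨w, hw, hwX⟩, w', hw', hwX'⟩ := hs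
    have hd : ∀ u, u ∈ (univ.filter fun u => ¬ D4 e u) → (∃ z, z ≠ u) →
        5 ≤ (univ.filter fun i => Crosses (e i) {u}).card := by
      intro u hu hz
      have h1 : ¬ (univ.filter fun i => Crosses (e i) {u}).card = 4 := (Finset.mem_filter.1 hu).2
      have h2 := h4 {u} (Finset.subset_univ _) (Finset.singleton_nonempty u) (by
        intro h
        obtain ⟨z, hz⟩ := hz
        have : z ∈ ({u} : Finset B) := by
          rw [h]
          exact Finset.mem_univ _
        exact hz (Finset.mem_singleton.1 this))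
      omega
    have hne : w ≠ w' := fun h => hwX' (h ▸ hwX)
    by_cases hc : X.card ≤ 1
    · have h1 : X = {w} := by
        have h2 : X.card = 1 := le_antisymm hc (Finset.card_pos.2 hX)
        obtain ⟨z, hz⟩ := Finset.card_eq_one.1 h2
        rw [hz] at hwX ⊢
        rw [Finset.mem_singleton.1 hwX]
      rw [h1]
      exact hd w hw ⟨w', hne.symm⟩
    · by_cases hc' : (univ \ X).card ≤ 1
      · have h1 : univ \ X = {w'} := by
          have h2 : w' ∈ univ \ X := Finset.mem_sdiff.2 ⟨Finset.mem_univ _, hwX'⟩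
          have h3 : (univ \ X).card = 1 := le_antisymm hc' (Finset.card_pos.2 ⟨w', h2⟩)
          obtain ⟨z, hz⟩ := Finset.card_eq_one.1 h3
          rw [hz] at h2 ⊢
          rw [Finset.mem_singleton.1 h2]
        have h2 := hd w' hw' ⟨w, hne⟩
        rw [← h1] at h2
        have h3 : (univ.filter fun i => Crosses (e i) (univ \ X)) =
            univ.filter fun i => Crosses (e i) X :=
          Finset.filter_congr fun i _ => crosses_compl (e i) X
        rw [h3] at h2
        exact h2
      · refine h5 X (Finset.subset_univ _) (by omega) ?_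
        have h1 : (univ \ X).card + X.card = (univ : Finset B).card :=
          Finset.card_sdiff_add_card_eq_card (Finset.subset_univ X)
        omega
  · exact h4 X (Finset.subset_univ _) hX hX'

theorem inc3_family {B I : Type} [Fintype I] (e : I → Finset B) (W : Finset B) (κ : B → ℕ)
    (c : ℕ) : inc3 W (univ.val.map e) κ c = ∑ i ∈ univ.filter (fun i => (e i).card = 3),
      ((e i).filter fun u => u ∉ W ∧ κ u = c).card := by
  unfold inc3
  rw [Multiset.filter_map, Multiset.map_map]
  rfl

/-- **row HYPPHI** -/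
theorem hypPhi (hA : RowAllP) : HypPhi := by
  intro B I _ _ e he h4 h5 hk
  obtain ⟨κ, hκ, hsum⟩ := hk
  rcases isEmpty_or_nonempty B with hB | hB
  · refine ⟨fun _ => ∅, fun i => ⟨Finset.empty_subset _, Or.inl rfl⟩, fun K => ?_,
      fun X _ hX _ => ?_⟩
    · exact (hB.false K).elim
    · obtain ⟨x, _⟩ := hX
      exact (hB.false x).elim
  set W : Finset B := univ.filter fun u => ¬ D4 e u with hW
  have hmW : ∀ u, u ∉ W ↔ D4 e u := by
    intro u
    rw [hW, Finset.mem_filter]
    simp
  have hsy : SyP univ W (univ.val.map e) κ := by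
    refine ⟨?_, ?_, Finset.subset_univ _, ?_, ?_⟩
    · intro s hs
      obtain ⟨i, -, rfl⟩ := Multiset.mem_map.1 hs
      refine ⟨Finset.subset_univ _, ?_⟩
      rcases he i with h | h <;> omega
    · intro X _ hX hX'
      rw [ct_family]
      exact req_of_five e h4 h5 X hX hX'
    · intro v _ hv _
      rw [ct_family]
      exact (hmW v).1 hv
    · intro s hs hc u hu u' hu' hW1 hW2
      obtain ⟨i, -, rfl⟩ := Multiset.mem_map.1 hs
      exact hκ i hc u hu u' hu' ((hmW u).1 hW1) ((hmW u').1 hW2)
  have hsum' : ∑ c ∈ univ.image κ, inc3 W (univ.val.map e) κ c / 2 ≤ 5 := by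
    refine le_trans (le_of_eq ?_) hsum
    refine Finset.sum_congr rfl fun c _ => ?_
    rw [inc3_family]
    congr 1
    refine Finset.sum_congr rfl fun i _ => ?_
    congr 1
    refine Finset.filter_congr fun u _ => ?_
    rw [hmW]
  obtain ⟨s, hs, hal⟩ := hA B univ W _ κ hsy (Finset.univ_nonempty) hsum'
  exact TS.evenConn_of_algS he (GM.algE_mono
    (rel_le (P := fun i => TS.elM (e i)) (fun i => TS.elM_spec (he i)) univ.val s hs) hal)

end SP

end Pool.Agent.ClawHam
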