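import Pool.Agent.Lib.MP_e2dbb5_co.SP_Step
import Pool.Agent.Lib.MP_e2dbb5_co.GMono

/-!
# Separated vertices of degree five: one elimination, the rows STEPP and STEP (helper79)
-/

set_option autoImplicit false
set_option linter.unusedSectionVars false

open Finset

noncomputable section

namespace Pool.Agent.ClawHam

open Classical

namespace SP

namespace Step

theorem cr_le_one {V : Type} (e X : Finset V) : cr e X ≤ 1 := by
  unfold cr
  split_ifs <;> omega

theorem cr_zero {V : Type} {e : Finset V} {u : V} (h : u ∉ e) : cr e {u} = 0 := by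
  unfold cr
  rw [if_neg]
  rintro ⟨⟨a, ha, hau⟩, -⟩
  rw [mem_singleton] at hau
  exact h (hau ▸ ha)

theorem cr_one {V : Type} {e : Finset V} {u w : V} (h : u ∈ e) (hw : w ∈ e) (hwu : w ≠ u) :
    cr e {u} = 1 := by
  unfold cr
  rw [if_pos ⟨⟨u, h, mem_singleton_self u⟩, w, hw, fun h1 => hwu (mem_singleton.1 h1)⟩]

/-- the degree of `u` does not increase; it drops if the splitting is degenerate at `u` -/
theorem deg_le {V : Type} {v u : V} (huv : u ≠ v) (F : Finset V) (y0 y1 y2 : V) :
    cr (insert y0 F) {u} + cr {y1, y2} {u} + (if y0 = u ∧ u ∈ F then 1 else 0) ≤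
      cr (insert v F) {u} + (cr {v, y0} {u} + (cr {v, y1} {u} + cr {v, y2} {u})) := by
  have a0 : cr ({v, y0} : Finset V) {u} = if y0 = u then 1 else 0 := by
    split_ifs with h
    · exact cr_one (w := v) (by simp [h]) (by simp) huv.symm
    · exact cr_zero (by simp [huv, Ne.symm h])
  have a1 : cr ({v, y1} : Finset V) {u} = if y1 = u then 1 else 0 := by
    split_ifs with h
    · exact cr_one (w := v) (by simp [h]) (by simp) huv.symm
    · exact cr_zero (by simp [huv, Ne.symm h])
  have a2 : cr ({v, y2} : Finset V) {u} = if y2 = u then 1 else 0 := by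
    split_ifs with h
    · exact cr_one (w := v) (by simp [h]) (by simp) huv.symm
    · exact cr_zero (by simp [huv, Ne.symm h])
  have a3 : cr (insert v F) {u} = if u ∈ F then 1 else 0 := by
    split_ifs with h
    · exact cr_one (w := v) (by simp [h]) (by simp) huv.symm
    · exact cr_zero (by simp [huv, h])
  have b1 : cr ({y1, y2} : Finset V) {u} ≤ (if y1 = u then 1 else 0) + if y2 = u then 1 else 0 := by
    by_cases h1 : y1 = u
    · have := cr_le_one ({y1, y2} : Finset V) {u}
      simp only [h1, if_true]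
      rw [h1] at this
      omega
    · by_cases h2 : y2 = u
      · have := cr_le_one ({y1, y2} : Finset V) {u}
        simp only [h2, if_true]
        rw [h2] at this
        omega
      · rw [cr_zero (by simp [Ne.symm h1, Ne.symm h2])]
        omega
  have b2 : cr (insert y0 F) {u} + (if y0 = u ∧ u ∈ F then 1 else 0) ≤
      (if u ∈ F then 1 else 0) + if y0 = u then 1 else 0 := by
    have := cr_le_one (insert y0 F) {u}
    by_cases h1 : y0 = u <;> by_cases h2 : u ∈ F
    · simp only [h1, h2, and_self, if_true]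
      rw [h1] at this
      omega
    · simp only [h1, h2, and_false, if_true, if_false]
      rw [h1] at this
      omega
    · simp only [h1, h2, false_and, if_true, if_false]
      omega
    · rw [cr_zero (by simp [Ne.symm h1, h2])]
      simp [h1, h2]
  rw [a0, a1, a2, a3]
  omega

theorem filt_pos {V : Type} {e : Finset V} (h : Multiset (Finset V)) (he : e.card = 3) :
    (e ::ₘ h).filter (fun e => e.card = 3) = e ::ₘ h.filter fun e => e.card = 3 :=
  Multiset.filter_cons_of_pos (p := fun e : Finset V => e.card = 3) h he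

theorem filt_neg {V : Type} {e : Finset V} (h : Multiset (Finset V)) (he : ¬ e.card = 3) :
    (e ::ₘ h).filter (fun e => e.card = 3) = h.filter fun e => e.card = 3 :=
  Multiset.filter_cons_of_neg (p := fun e : Finset V => e.card = 3) h he

theorem inc3_cons {V : Type} (W e : Finset V) (h : Multiset (Finset V)) (κ : V → ℕ) (c : ℕ) :
    inc3 W (e ::ₘ h) κ c = (if e.card = 3 then (e.filter fun u => u ∉ W ∧ κ u = c).card else 0) +
      inc3 W h κ c := by
  unfold inc3
  by_cases he : e.card = 3
  · rw [filt_pos _ he, Multiset.map_cons, Multiset.sum_cons, if_pos he]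
  · rw [filt_neg _ he, if_neg he, zero_add]

theorem inc3_add {V : Type} (W : Finset V) (h h' : Multiset (Finset V)) (κ : V → ℕ) (c : ℕ) :
    inc3 W (h + h') κ c = inc3 W h κ c + inc3 W h' κ c := by
  unfold inc3
  rw [Multiset.filter_add, Multiset.map_add, Multiset.sum_add]

theorem rel_mem {V : Type} [Fintype V] {h : Multiset (Finset V)} {s : Multiset (El V)}
    (hr : Multiset.Rel InE h s) {P : El V} (hP : P ∈ s) : ∃ e ∈ h, InE e P := by
  have h1 : Multiset.Rel (flip InE) s h := Multiset.rel_flip.2 hr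
  obtain ⟨e, he, h2⟩ := Multiset.exists_mem_of_rel_of_mem h1 hP
  exact ⟨e, he, h2⟩

/-- the step, with the data at `v` -/
theorem core (hD : RowElimD) (hE : RowElimE) (hM : RowMono) {V : Type} [Fintype V]
    {B₀ W F : Finset V} {h0 h1 : Multiset (Finset V)} {κ : V → ℕ} {v y0 y1 y2 : V}
    (hy : SyP B₀ W (insert v F ::ₘ {v, y0} ::ₘ {v, y1} ::ₘ {v, y2} ::ₘ (h0 + h1)) κ)
    (hv : v ∈ B₀) (hvW : v ∉ W) (hF0 : F.Nonempty) (hF2 : F.card ≤ 2) (hFv : v ∉ F)
    (hy0 : y0 ≠ v) (hy1 : y1 ≠ v) (hy2 : y2 ≠ v) (hh0 : ∀ e ∈ h0, v ∉ e)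
    (hreq : Req (B₀.erase v) W (insert y0 F ::ₘ {y1, y2} ::ₘ h0)) :
    ∃ h' : Multiset (Finset V), SyP (B₀.erase v) W h' κ ∧
    (∀ c, inc3 W h' κ c ≤
      inc3 W (insert v F ::ₘ {v, y0} ::ₘ {v, y1} ::ₘ {v, y2} ::ₘ (h0 + h1)) κ c) ∧
    (AlgM (B₀.erase v) h' →
      AlgM B₀ (insert v F ::ₘ {v, y0} ::ₘ {v, y1} ::ₘ {v, y2} ::ₘ (h0 + h1))) := by
  set H := insert v F ::ₘ {v, y0} ::ₘ {v, y1} ::ₘ {v, y2} ::ₘ (h0 + h1) with hH
  have mt : insert v F ∈ H := by rw [hH]; simp
  have m0 : ({v, y0} : Finset V) ∈ H := by rw [hH]; simp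
  have m1 : ({v, y1} : Finset V) ∈ H := by rw [hH]; simp
  have m2 : ({v, y2} : Finset V) ∈ H := by rw [hH]; simp
  have mh : ∀ e ∈ h0, e ∈ H := by
    intro e he
    rw [hH]
    simp only [Multiset.mem_cons, Multiset.mem_add]
    tauto
  have hFB : F ⊆ B₀.erase v := by
    intro a ha
    refine mem_erase.2 ⟨fun h => hFv (h ▸ ha), (hy.sub _ mt).1 (mem_insert_of_mem ha)⟩
  have by0 : y0 ∈ B₀.erase v := mem_erase.2 ⟨hy0, (hy.sub _ m0).1 (by simp)⟩
  have by1 : y1 ∈ B₀.erase v := mem_erase.2 ⟨hy1, (hy.sub _ m1).1 (by simp)⟩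
  have by2 : y2 ∈ B₀.erase v := mem_erase.2 ⟨hy2, (hy.sub _ m2).1 (by simp)⟩
  have cpair : ∀ y : V, y ≠ v → ({v, y} : Finset V).card = 2 := fun y h => card_pair h.symm
  have col : ∀ y : V, y ≠ v → ({v, y} : Finset V) ∈ H → y ∉ W → κ y = κ v := by
    intro y hyv hm hyW
    exact hy.mono _ hm (cpair y hyv) y (by simp) v (by simp) hyW hvW
  have k0 := col y0 hy0 m0
  have k1 := col y1 hy1 m1
  have k2 := col y2 hy2 m2
  -- the degrees
  have hdeg : ∀ u ∈ B₀.erase v, u ∉ W → B₀.erase v ≠ {u} →
      ct (insert y0 F ::ₘ {y1, y2} ::ₘ h0) {u} = 4 ∧ ¬ (y0 = u ∧ u ∈ F) := by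
    intro u hu huW hne
    have huv : u ≠ v := ne_of_mem_erase hu
    have h4 : ct H {u} = 4 := hy.deg u (mem_of_mem_erase hu) huW (fun h => by
      rw [h, mem_singleton] at hv
      exact huv hv.symm)
    have h5 : 4 ≤ ct (insert y0 F ::ₘ {y1, y2} ::ₘ h0) {u} := by
      refine le_trans ?_ (hreq {u} (singleton_subset_iff.2 hu) ⟨u, mem_singleton_self u⟩
        (fun h => hne h.symm))
      unfold rq
      split_ifs <;> omega
    have h6 := deg_le huv F y0 y1 y2
    rw [hH, ct_cons, ct_cons, ct_cons, ct_cons, ct_add] at h4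
    rw [ct_cons, ct_cons] at h5 ⊢
    constructor
    · split_ifs at h6 <;> omega
    · intro h7
      rw [if_pos h7] at h6
      omega
  refine ⟨insert y0 F ::ₘ {y1, y2} ::ₘ h0, ?_, ?_, ?_⟩
  · refine ⟨?_, hreq, ?_, fun u hu huW hne => (hdeg u hu huW hne).1, ?_⟩
    · intro e he
      rw [Multiset.mem_cons, Multiset.mem_cons] at he
      rcases he with rfl | rfl | he
      · refine ⟨insert_subset by0 hFB, ?_⟩
        have := card_insert_le y0 F
        omega
      · refine ⟨insert_subset by1 (singleton_subset_iff.2 by2), ?_⟩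
        have := card_le_two (a := y1) (b := y2)
        omega
      · obtain ⟨h3, h4⟩ := hy.sub e (mh e he)
        refine ⟨fun a ha => mem_erase.2 ⟨fun h => hh0 e he (h ▸ ha), h3 ha⟩, h4⟩
    · intro a ha
      exact mem_erase.2 ⟨fun h => hvW (h ▸ ha), hy.wsub ha⟩
    · intro e he hcard u hu u' hu' huW hu'W
      rw [Multiset.mem_cons, Multiset.mem_cons] at he
      rcases he with rfl | rfl | he
      · -- the new member with `F`
        rcases Nat.lt_or_ge F.card 2 with hF1 | hF1
        · have hF1' : F.card = 1 := by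
            have := card_pos.2 hF0
            omega
          obtain ⟨f, hf⟩ := card_eq_one.1 hF1'
          subst hf
          have hfv : f ≠ v := fun h => hFv (by rw [h]; exact mem_singleton_self v)
          have kf := col f hfv mt
          have kk : ∀ w ∈ insert y0 ({f} : Finset V), w ∉ W → κ w = κ v := by
            intro w hw hwW
            rw [mem_insert, mem_singleton] at hw
            rcases hw with rfl | rfl
            · exact k0 hwW
            · exact kf hwW
          rw [kk u hu huW, kk u' hu' hu'W]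
        · have hF2' : F.card = 2 := by omega
          have hy0F : y0 ∈ F := by
            by_contra h
            rw [card_insert_of_notMem h] at hcard
            omega
          have hy0W : y0 ∈ W := by
            by_contra hW
            refine (hdeg y0 by0 hW ?_).2 ⟨rfl, hy0F⟩
            intro h
            have h7 := card_le_card hFB
            rw [h, card_singleton] at h7
            omega
          rw [insert_eq_of_mem hy0F] at hu hu'
          have h8 : (F.erase y0).card = 1 := by
            rw [card_erase_of_mem hy0F]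
            omega
          obtain ⟨b, hb⟩ := card_eq_one.1 h8
          have h9 : ∀ w ∈ F, w ∉ W → w = b := by
            intro w hw hwW
            have h10 : w ∈ F.erase y0 := mem_erase.2 ⟨fun h => hwW (h ▸ hy0W), hw⟩
            rw [hb] at h10
            exact mem_singleton.1 h10
          rw [h9 u hu huW, h9 u' hu' hu'W]
      · have kk : ∀ w ∈ ({y1, y2} : Finset V), w ∉ W → κ w = κ v := by
          intro w hw hwW
          rw [mem_insert, mem_singleton] at hw
          rcases hw with rfl | rfl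
          · exact k1 hwW
          · exact k2 hwW
        rw [kk u hu huW, kk u' hu' hu'W]
      · exact hy.mono e (mh e he) hcard u hu u' hu' huW hu'W
  · intro c
    rw [hH, inc3_cons, inc3_cons, inc3_cons, inc3_cons, inc3_cons, inc3_cons, inc3_add]
    have g1 : ¬ ({y1, y2} : Finset V).card = 3 := by
      have := card_le_two (a := y1) (b := y2)
      omega
    rw [if_neg g1]
    have g2 : (if (insert y0 F).card = 3 then
        ((insert y0 F).filter fun u => u ∉ W ∧ κ u = c).card else 0) ≤
        if (insert v F).card = 3 then ((insert v F).filter fun u => u ∉ W ∧ κ u = c).card else 0 := by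
      by_cases h3 : (insert y0 F).card = 3
      · have hF2' : F.card = 2 := by
          have := card_insert_le y0 F
          omega
        have h4 : (insert v F).card = 3 := by
          rw [card_insert_of_notMem hFv]
          omega
        have hy0F : y0 ∉ F := by
          intro h
          rw [insert_eq_of_mem h] at h3
          omega
        rw [if_pos h3, if_pos h4, filter_insert, filter_insert]
        have hvn : v ∉ F.filter fun u => u ∉ W ∧ κ u = c := fun h => hFv (mem_filter.1 h).1
        by_cases h5 : y0 ∉ W ∧ κ y0 = c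
        · have h6 : v ∉ W ∧ κ v = c := ⟨hvW, by rw [← k0 h5.1]; exact h5.2⟩
          rw [if_pos h5, if_pos h6, card_insert_of_notMem hvn]
          exact card_insert_le _ _
        · rw [if_neg h5]
          split_ifs
          · exact card_le_card (subset_insert _ _)
          · exact le_rfl
      · rw [if_neg h3]
        exact Nat.zero_le _
    omega
  · rintro ⟨s', hrel, hA⟩
    obtain ⟨P1, s1, hP1, hrel1, rfl⟩ := Multiset.rel_cons_left.1 hrel
    obtain ⟨P2, s0, hP2, hrel0, rfl⟩ := Multiset.rel_cons_left.1 hrel1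
    have hfree : Free v s0 := by
      intro P hP
      obtain ⟨e, he, hPe⟩ := rel_mem hrel0 hP
      exact ⟨hPe.1.1 v (hh0 e he), hPe.2.1 v (hh0 e he)⟩
    -- the pair
    have q1 : P2.1 = 0 ∨ P2.1 = ev y1 y2 := even_two hP2.1
    have q2 : P2.2 = 0 ∨ P2.2 = ev y1 y2 := even_two hP2.2
    have hA2 : AlgE (B₀.erase v) (P1 ::ₘ ((ev y1 y2, 0) : El V) ::ₘ s0) := by
      rw [Multiset.cons_swap] at hA ⊢
      refine hM V (B₀.erase v) (P1 ::ₘ s0) (ev y1 y2, 0) P2 ?_ ?_ hA
      · rcases q1 with h | h
        · exact Or.inl h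
        · exact Or.inr (Or.inl h)
      · rcases q2 with h | h
        · exact Or.inl h
        · exact Or.inr (Or.inl h)
    have hz : Multiset.Rel InE h1 (h1.map fun _ => (0 : El V)) := by
      have h5 : Multiset.Rel InE (h1.map id) (h1.map fun _ => (0 : El V)) := by
        rw [Multiset.rel_map]
        exact Multiset.rel_refl_of_refl_on fun e _ => BaseW.zero_InE e
      rwa [Multiset.map_id] at h5
    have hq : ∀ y, InE ({v, y} : Finset V) ((ev v y, 0) : El V) := fun y =>
      ⟨evenOn_ev (by simp) (by simp), evenOn_zero _⟩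
    have fin : ∀ T : El V, InE (insert v F) T →
        AlgE B₀ (T ::ₘ ((ev v y0, 0) : El V) ::ₘ (ev v y1, 0) ::ₘ (ev v y2, 0) ::ₘ s0) →
        AlgM B₀ H := by
      intro T hT hAT
      refine ⟨T ::ₘ ((ev v y0, 0) : El V) ::ₘ (ev v y1, 0) ::ₘ (ev v y2, 0) ::ₘ
        (s0 + h1.map fun _ => (0 : El V)), ?_, ?_⟩
      · rw [hH]
        exact Multiset.Rel.cons hT (Multiset.Rel.cons (hq y0) (Multiset.Rel.cons (hq y1)
          (Multiset.Rel.cons (hq y2) (Multiset.Rel.add hrel0 hz))))
      · have h6 := BaseW.algE_add (s' := h1.map fun _ => (0 : El V)) hAT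
        simpa only [Multiset.cons_add] using h6
    rcases Nat.lt_or_ge F.card 2 with hF1 | hF1
    · have hF1' : F.card = 1 := by
        have := card_pos.2 hF0
        omega
      obtain ⟨f, hf⟩ := card_eq_one.1 hF1'
      subst hf
      have hfv : f ≠ v := fun h => hFv (by rw [h]; exact mem_singleton_self v)
      refine fin (ev v f, 0) ⟨evenOn_ev (by simp) (by simp), evenOn_zero _⟩ ?_
      refine hE V B₀ s0 v (ev v f) (ev v y0) (ev v y1) (ev v y2) hv hfree (ev_left hfv)
        (ev_left hy0) (ev_left hy1) (ev_left hy2) ?_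
      have e1 : (ev v f + ev v y0 : Vec V) = ev y0 f := ev_add v f y0
      have e2 : (ev v y1 + ev v y2 : Vec V) = ev y1 y2 := by rw [ev_add, ev_comm]
      rw [e1, e2]
      have r1 : P1.1 = 0 ∨ P1.1 = ev y0 f := even_two hP1.1
      have r2 : P1.2 = 0 ∨ P1.2 = ev y0 f := even_two hP1.2
      refine hM V (B₀.erase v) _ (ev y0 f, 0) P1 ?_ ?_ hA2
      · rcases r1 with h | h
        · exact Or.inl h
        · exact Or.inr (Or.inl h)
      · rcases r2 with h | h
        · exact Or.inl h
        · exact Or.inr (Or.inl h)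
    · have hF2' : F.card = 2 := by omega
      obtain ⟨a, b, hab, hf⟩ := card_eq_two.1 hF2'
      subst hf
      have hav : a ≠ v := fun h => hFv (by rw [h]; simp)
      have hbv : b ≠ v := fun h => hFv (by rw [h]; simp)
      refine fin (ev v a, ev a b) ⟨evenOn_ev (by simp) (by simp), evenOn_ev (by simp) (by simp)⟩ ?_
      refine hD V B₀ s0 v (ev v a) (ev a b) (ev v y0) (ev v y1) (ev v y2) hv hfree (ev_left hav)
        (ev_left hy0) (ev_left hy1) (ev_left hy2) (ev_ne hav hbv) ?_
      have e1 : (ev v a + ev v y0 : Vec V) = ev y0 a := ev_add v a y0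
      have e2 : (ev v y1 + ev v y2 : Vec V) = ev y1 y2 := by rw [ev_add, ev_comm]
      rw [e1, e2]
      exact hM V (B₀.erase v) _ (ev y0 a, ev a b) P1 (even_three hab hP1.1)
        (even_three hab hP1.2) hA2

end Step

open Step in
/-- STEPP -/
theorem rowStepP (hS : RowSplit) (hD : RowElimD) (hE : RowElimE) (hM : RowMono) : RowStepP := by
  intro V _ B₀ W h κ v hy hv hvW hne hc
  obtain ⟨t, e0, e1, e2, hr, heq, ⟨hvt, htc⟩, ⟨hv0, hc0⟩, ⟨hv1, hc1⟩, ⟨hv2, hc2⟩, hrm⟩ :=
    star (fun e he => (hy.sub e he).2) (hy.deg v hv hvW hne) hc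
  obtain ⟨x0, hx0, -, rfl⟩ := pair_of hv0 hc0
  obtain ⟨x1, hx1, -, rfl⟩ := pair_of hv1 hc1
  obtain ⟨x2, hx2, -, rfl⟩ := pair_of hv2 hc2
  set F := t.erase v with hF
  have htF : insert v F = t := insert_erase hvt
  have hFc : F.card + 1 = t.card := by
    rw [hF, card_erase_of_mem hvt]
    omega
  have hFv : v ∉ F := notMem_erase v t
  set h0 := hr.filter fun e => v ∉ e with hh0
  set h1 := hr.filter fun e => ¬ v ∉ e with hh1
  have hsum : h0 + h1 = hr := Multiset.filter_add_not _ _
  have mh0 : ∀ e ∈ h0, v ∉ e := fun e he => (Multiset.mem_filter.1 he).2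
  have mh1 : ∀ e ∈ h1, e.card ≤ 1 := fun e he =>
    hrm e (Multiset.mem_filter.1 he).1 (not_not.1 (Multiset.mem_filter.1 he).2)
  set x : Fin 3 → V := ![x0, x1, x2] with hx
  have heq' : h = insert v F ::ₘ {v, x 0} ::ₘ {v, x 1} ::ₘ {v, x 2} ::ₘ (h0 + h1) := by
    rw [htF, hsum, heq]
    rfl
  have hxv : ∀ i, x i ≠ v := by
    intro i
    fin_cases i
    · exact hx0
    · exact hx1
    · exact hx2
  have hsub := hy.sub
  have hxB : ∀ i, x i ∈ B₀.erase v := by
    intro i
    refine mem_erase.2 ⟨hxv i, ?_⟩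
    have hm : ({v, x i} : Finset V) ∈ h := by
      rw [heq']
      fin_cases i <;> simp
    exact (hsub _ hm).1 (by simp)
  have hFB : F ⊆ B₀.erase v := by
    intro a ha
    refine mem_erase.2 ⟨fun h => hFv (h ▸ ha), ?_⟩
    have hm : insert v F ∈ h := by rw [heq']; simp
    exact (hsub _ hm).1 (mem_insert_of_mem ha)
  have hreq : Req B₀ W (insert v F ::ₘ {v, x 0} ::ₘ {v, x 1} ::ₘ {v, x 2} ::ₘ h0) := by
    intro X hXB hX hX'
    refine (hy.req X hXB hX hX').trans ?_
    rw [heq', ct_cons, ct_cons, ct_cons, ct_cons, ct_cons, ct_cons, ct_cons, ct_cons, ct_add,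
      ct_small h1 X mh1, add_zero]
  obtain ⟨i, hi⟩ := hS V B₀ W F h0 v x hv hvW hy.wsub (by
      intro e he
      have hm : e ∈ h := by
        rw [heq']
        simp only [Multiset.mem_cons, Multiset.mem_add]
        tauto
      obtain ⟨h3, h4⟩ := hsub e hm
      exact ⟨fun a ha => mem_erase.2 ⟨fun h => mh0 e he (h ▸ ha), h3 ha⟩, h4⟩) hxB hFB (by
      rw [← card_pos]
      omega) (by omega) hreq
  have hrot : h = insert v F ::ₘ {v, x i} ::ₘ {v, x (i + 1)} ::ₘ {v, x (i + 2)} ::ₘ (h0 + h1) := by
    rw [heq', rot (fun j => ({v, x j} : Finset V)) (h0 + h1) i]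
  rw [hrot] at hy ⊢
  exact core hD hE hM hy hv hvW (by rw [← card_pos]; omega) (by omega) hFv (hxv _) (hxv _) (hxv _)
    mh0 hi

open Step in
/-- STEP -/
theorem rowStep (hS : RowSplit) (hD : RowElimD) (hE : RowElimE) (hM : RowMono) : RowStep := by
  intro V _ B₀ W h κ v hy hv hvW hne
  have hyP : SyP B₀ W h κ := ⟨hy.sub, hy.req, hy.wsub, hy.deg, hy.col.1⟩
  have hinc : ∀ c, inc3 W h κ c ≤ 1 := hy.col.2
  have hc : h.countP (fun e => v ∈ e ∧ e.card = 3) ≤ 1 := by
    refine le_trans ?_ (hinc (κ v))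
    unfold inc3
    clear hy hyP hinc
    induction h using Multiset.induction_on with
    | empty => simp
    | cons e h ih =>
      rw [Multiset.countP_cons]
      by_cases he : e.card = 3
      · rw [filt_pos _ he, Multiset.map_cons, Multiset.sum_cons]
        by_cases hve : v ∈ e
        · rw [if_pos ⟨hve, he⟩]
          have h1 : 1 ≤ (e.filter fun u => u ∉ W ∧ κ u = κ v).card := by
            rw [Nat.succ_le_iff, card_pos]
            exact ⟨v, mem_filter.2 ⟨hve, hvW, rfl⟩⟩
          omega
        · rw [if_neg (fun h => hve h.1)]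
          omega
      · rw [filt_neg _ he, if_neg (fun h => he h.2)]
        omega
  obtain ⟨h', h1, h2, h3⟩ := rowStepP hS hD hE hM V B₀ W h κ v hyP hv hvW hne hc
  exact ⟨h', ⟨h1.sub, h1.req, h1.wsub, h1.deg, h1.mono, fun c => (h2 c).trans (hinc c)⟩, h3⟩

end SP

end Pool.Agent.ClawHam
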