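import Pool.Agent.Lib.MP_e2dbb5_co.TTCount
import Pool.Agent.Lib.MP_e2dbb5_co.SPP0
import Pool.Agent.Lib.MP_e2dbb5_co.SP_BASE
import Pool.Agent.Lib.MP_e2dbb5_co.SP_StepP
import Pool.Agent.Lib.MP_e2dbb5_co.SP_ALLP
import Pool.Agent.Lib.MP_e2dbb5_co.SP_HYPPHI

/-!
# Triples and components: base, step, induction (helper49)

The vertices of degree four of the colours in `A` are counted by the triples which contain them,
the others by half of their incidences with triples. The proofs follow `SPP_FIVE` (helper45),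
`SP_BaseP` (helper32), `SP_StepP` (helper79), `SP_ALLP` (helper47) and `SP_HYPPHI` (helper69).
-/

set_option autoImplicit false
set_option linter.unusedSectionVars false

open Finset

noncomputable section

namespace Pool.Agent.ClawHam

open Classical

namespace SPT

/-- few triples with a vertex of `A` outside `W`, and few other vertices outside `W`: there is a
certificate -/
theorem certK_rqT {B I : Type} [Fintype B] [Nonempty B] [Fintype I] (e : I → Finset B)
    (W A : Finset B) (he : ∀ i, (e i).card = 2 ∨ (e i).card = 3)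
    (hW : (univ.filter fun i => (e i).card = 3 ∧ ∃ u ∈ e i, u ∉ W ∧ u ∈ A).card +
      (univ.filter fun u => u ∉ W ∧ u ∉ A).card ≤ 5)
    (h5 : ∀ X : Finset B, X.Nonempty → X ≠ univ →
      SP.rq W X ≤ (univ.filter fun i => Crosses (e i) X).card) : CertK e := by
  rcases Sk.skel B I e he with h | ⟨p, R, hleg, hR, hT, hL, hN⟩
  · exact h
  exfalso
  obtain ⟨J, h1, h2, h3⟩ := Sk.cntS B I e p he hleg R hR hT hL hN
  set N := Fintype.card (Quotient R) with hNdef
  have hN2 : 2 ≤ N := by
    by_contra hlt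
    apply hR
    rw [eq_top_iff]
    intro x y _
    exact Quotient.exact (Fintype.card_le_one_iff.1 (by omega) (Quotient.mk R x)
      (Quotient.mk R y))
  set cls : Quotient R → Finset B := fun q => univ.filter fun x => Quotient.mk R x = q with hcls
  have hcl : ∀ q x, x ∈ cls q ↔ Quotient.mk R x = q := fun q x => by simp [hcls]
  -- every class is a cut
  have hq5 : ∀ q, SP.rq W (cls q) ≤ (univ.filter fun i => Crosses (e i) (cls q)).card := by
    intro q
    refine h5 _ ?_ ?_
    · obtain ⟨x, hx⟩ := Quotient.exists_rep q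
      exact ⟨x, (hcl q x).2 hx⟩
    · intro hu
      have h4 : ∀ q' : Quotient R, q' = q := by
        intro q'
        obtain ⟨x, rfl⟩ := Quotient.exists_rep q'
        exact (hcl q x).1 (by rw [hu]; exact mem_univ x)
      have h6 : Fintype.card (Quotient R) ≤ 1 :=
        Fintype.card_le_one_iff.2 fun a b => (h4 a).trans (h4 b).symm
      omega
  -- the classes which separate `W`
  set D : Finset (Quotient R) := univ.filter fun q => SP.Sepr W (cls q) with hD
  set c : I → ℕ := fun i => ((e i).image (Quotient.mk R)).card with hc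
  have hc3 : ∀ i, c i ≤ 3 := by
    intro i
    have := Finset.card_image_le (s := e i) (f := Quotient.mk R)
    rcases he i with h | h <;> simp only [hc] <;> omega
  have hi : ∀ i, (univ.filter fun q => Crosses (e i) (cls q)).card ≤
      2 * (if c i = 2 then 1 else 0) + 3 * (if c i = 3 then 1 else 0) := by
    intro i
    have hsub : (univ.filter fun q => Crosses (e i) (cls q)) ⊆ (e i).image (Quotient.mk R) := by
      intro q hq
      obtain ⟨⟨a, ha, haq⟩, -⟩ := (mem_filter.1 hq).2
      exact mem_image.2 ⟨a, ha, (hcl q a).1 haq⟩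
    have hle := card_le_card hsub
    by_cases h0 : (univ.filter fun q => Crosses (e i) (cls q)) = ∅
    · rw [h0]
      simp
    · obtain ⟨q, hq⟩ := nonempty_iff_ne_empty.2 h0
      obtain ⟨⟨a, ha, haq⟩, b, hb, hbq⟩ := (mem_filter.1 hq).2
      have h2c : 2 ≤ c i := by
        have h7 : 1 < c i := by
          rw [hc]
          simp only
          rw [one_lt_card]
          refine ⟨Quotient.mk R a, mem_image_of_mem _ ha, Quotient.mk R b, mem_image_of_mem _ hb,
            ?_⟩
          rw [(hcl q a).1 haq]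
          intro h
          exact hbq ((hcl q b).2 h.symm)
        omega
      have h3c := hc3 i
      have hle' : (univ.filter fun q => Crosses (e i) (cls q)).card ≤ c i := hle
      split_ifs <;> omega
  have hsum : ∑ q, (univ.filter fun i => Crosses (e i) (cls q)).card =
      ∑ i, (univ.filter fun q => Crosses (e i) (cls q)).card := by
    simp only [card_filter]
    exact Finset.sum_comm
  have hlow : 4 * N + D.card ≤ ∑ q, (univ.filter fun i => Crosses (e i) (cls q)).card := by
    have h31 : ∀ q : Quotient R, 4 + (if SP.Sepr W (cls q) then 1 else 0) ≤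
        (univ.filter fun i => Crosses (e i) (cls q)).card := by
      intro q
      have h32 := hq5 q
      unfold SP.rq at h32
      by_cases hs : SP.Sepr W (cls q)
      · rw [if_pos hs] at h32
        rw [if_pos hs]
        omega
      · rw [if_neg hs] at h32
        rw [if_neg hs]
        omega
    have h33 := Finset.sum_le_sum (s := univ) fun q _ => h31 q
    rw [sum_add_distrib, sum_const, Finset.card_univ, smul_eq_mul, mul_comm, ← card_filter] at h33
    exact h33
  have hup : ∑ i, (univ.filter fun q => Crosses (e i) (cls q)).card ≤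
      2 * (univ.filter fun i => c i = 2).card + 3 * (univ.filter fun i => c i = 3).card := by
    rw [card_filter, card_filter, mul_sum, mul_sum, ← sum_add_distrib]
    exact sum_le_sum fun i _ => hi i
  have hJ3 : J.card ≤ (univ.filter fun i => c i = 3).card := by
    refine card_le_card fun i hiJ => mem_filter.2 ⟨mem_univ _, ?_⟩
    rw [hc]
    simp only
    rw [← (h1 i hiJ).1]
    refine card_image_of_injOn ?_
    intro x hx y hy hxy
    by_contra hne
    exact (h1 i hiJ).2 x hx y hy hne (Quotient.exact hxy)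
  -- the triples with a vertex of `A` outside `W`
  set J1 := J.filter fun i => ∃ u ∈ e i, u ∉ W ∧ u ∈ A with hJ1
  set J2 := J.filter fun i => ¬ ∃ u ∈ e i, u ∉ W ∧ u ∈ A with hJ2
  have hJ12 : J1.card + J2.card = J.card :=
    Finset.card_filter_add_card_filter_not (s := J) (fun i => ∃ u ∈ e i, u ∉ W ∧ u ∈ A)
  have hJ1c : J1.card ≤ (univ.filter fun i => (e i).card = 3 ∧ ∃ u ∈ e i, u ∉ W ∧ u ∈ A).card :=
    card_le_card fun i hi => mem_filter.2 ⟨mem_univ _, (h1 i (mem_filter.1 hi).1).1,
      (mem_filter.1 hi).2⟩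
  have hJ2c : J2.card ≤ D.card + (univ.filter fun u => u ∉ W ∧ u ∉ A).card := by
    rcases J2.eq_empty_or_nonempty with h | h
    · rw [h, card_empty]
      exact Nat.zero_le _
    · have h8 := h3 J2 (filter_subset _ _) h
      set S₂ : Finset (Quotient R) := univ.filter fun q => (∃ w ∈ W, w ∈ cls q) ∧
        ∀ w ∈ W, w ∈ cls q with hS₂
      have hsub : (univ.filter fun q : Quotient R => ∃ i ∈ J2, ∃ x ∈ e i, Quotient.mk R x = q) ⊆
          (D ∪ S₂) ∪ (univ.filter fun u => u ∉ W ∧ u ∉ A).image (Quotient.mk R) := by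
        intro q hq
        obtain ⟨i, hi2, x, hx, hxq⟩ := (mem_filter.1 hq).2
        by_cases hs : SP.Sepr W (cls q)
        · exact mem_union_left _ (mem_union_left _ (mem_filter.2 ⟨mem_univ _, hs⟩))
        · by_cases hw : ∃ w ∈ W, w ∈ cls q
          · refine mem_union_left _ (mem_union_right _ (mem_filter.2 ⟨mem_univ _, hw, ?_⟩))
            intro w hwW
            by_contra hn
            exact hs ⟨hw, w, hwW, hn⟩
          · refine mem_union_right _ (mem_image.2 ⟨x, mem_filter.2 ⟨mem_univ _, ?_, ?_⟩, hxq⟩)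
            · exact fun hxW => hw ⟨x, hxW, (hcl q x).2 hxq⟩
            · intro hxA
              exact (mem_filter.1 hi2).2 ⟨x, hx, fun hxW => hw ⟨x, hxW, (hcl q x).2 hxq⟩, hxA⟩
      have h21 : S₂.card ≤ 1 := by
        rw [card_le_one]
        intro q hq q' hq'
        obtain ⟨⟨w, hwW, hw⟩, -⟩ := (mem_filter.1 hq).2
        have hw' := (mem_filter.1 hq').2.2 w hwW
        exact ((hcl q w).1 hw).symm.trans ((hcl q' w).1 hw')
      have h22 := card_le_card hsub
      have h23 := card_union_le (D ∪ S₂) ((univ.filter fun u => u ∉ W ∧ u ∉ A).image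
        (Quotient.mk R))
      have h25 := card_union_le D S₂
      have h24 : ((univ.filter fun u => u ∉ W ∧ u ∉ A).image (Quotient.mk R)).card ≤
        (univ.filter fun u => u ∉ W ∧ u ∉ A).card := card_image_le
      omega
  rw [hsum] at hlow
  have h10 : (univ.filter fun i => c i = 2).card + 2 * (univ.filter fun i => c i = 3).card + 3 ≤
      2 * N + J.card := h2
  omega

open SP BaseW Base0 in
theorem baseT (V : Type) [Fintype V] (B₀ W : Finset V) (A : Set V) (h : Multiset (Finset V))
    (hB : B₀.Nonempty) (hsub : Sub3 B₀ h) (_hW : W ⊆ B₀) (hcut : Req B₀ W h)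
    (hfive : h.countP (fun e => e.card = 3 ∧ ∃ u ∈ e, u ∉ W ∧ u ∈ A) +
      (B₀.filter fun u => u ∉ W ∧ u ∉ A).card ≤ 5) : AlgM B₀ h := by
  set h₂ := h.filter fun e => 2 ≤ e.card with hh₂
  set h₁ := h.filter fun e => ¬ 2 ≤ e.card with hh₁
  have hsum : h₂ + h₁ = h := Multiset.filter_add_not _ _
  set l := h₂.toList with hl
  have hlh : (univ : Finset (Fin l.length)).val.map (fun i => l.get i) = h₂ := by
    rw [Fin.univ_val_map, List.ofFn_get, hl, Multiset.coe_toList]
  have hmem : ∀ i, l.get i ∈ h₂ := by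
    intro i
    rw [← Multiset.mem_toList, ← hl]
    exact List.get_mem _ _
  set emb : {b // b ∈ B₀} ↪ V := Function.Embedding.subtype _ with hemb
  set e' : Fin l.length → Finset {b // b ∈ B₀} := fun i => (l.get i).subtype (· ∈ B₀) with he'
  have hle : ∀ i, l.get i ⊆ B₀ := fun i => (hsub _ (Multiset.mem_filter.1 (hmem i)).1).1
  have hcard : ∀ i, (e' i).card = (l.get i).card := by
    intro i
    rw [he']
    simp only
    rw [card_subtype, filter_true_of_mem]
    intro x hx
    exact hle i hx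
  have h23 : ∀ i, (l.get i).card = 2 ∨ (l.get i).card = 3 := by
    intro i
    have h1 := (Multiset.mem_filter.1 (hmem i)).2
    have h2 := (hsub _ (Multiset.mem_filter.1 (hmem i)).1).2
    omega
  have hcr : ∀ (X : Finset {b // b ∈ B₀}) i, Crosses (l.get i) (X.map emb) → Crosses (e' i) X := by
    rintro X i ⟨⟨a, ha, haX⟩, b, hb, hbX⟩
    obtain ⟨a', ha', rfl⟩ := mem_map.1 haX
    refine ⟨⟨a', mem_subtype.2 ha, ha'⟩, ⟨b, hle i hb⟩, mem_subtype.2 hb, fun h => ?_⟩
    exact hbX (mem_map.2 ⟨_, h, rfl⟩)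
  set W' : Finset {b // b ∈ B₀} := W.subtype (· ∈ B₀) with hW'
  set A' : Finset {b // b ∈ B₀} := univ.filter fun u => u.1 ∈ A with hA'
  have hL : (univ.filter fun u : {b // b ∈ B₀} => u ∉ W' ∧ u ∉ A').card ≤
      (B₀.filter fun u => u ∉ W ∧ u ∉ A).card := by
    refine card_le_card_of_injOn Subtype.val ?_ Subtype.val_injective.injOn
    intro u hu
    obtain ⟨h1, h2⟩ := (mem_filter.1 (mem_coe.1 hu)).2
    exact mem_coe.2 (mem_filter.2 ⟨u.2, fun h => h1 (mem_subtype.2 h), fun h =>
      h2 (mem_filter.2 ⟨mem_univ _, h⟩)⟩)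
  have hTr : (univ.filter fun i => (e' i).card = 3 ∧ ∃ u ∈ e' i, u ∉ W' ∧ u ∈ A').card ≤
      h.countP (fun e => e.card = 3 ∧ ∃ u ∈ e, u ∉ W ∧ u ∈ A) := by
    have h3 : h₂.countP (fun e => e.card = 3 ∧ ∃ u ∈ e, u ∉ W ∧ u ∈ A) ≤
        h.countP (fun e => e.card = 3 ∧ ∃ u ∈ e, u ∉ W ∧ u ∈ A) :=
      Multiset.countP_le_of_le _ (Multiset.filter_le _ _)
    refine le_trans ?_ h3
    rw [← hlh, Multiset.countP_map]
    have h4 : (Multiset.filter (fun i => (l.get i).card = 3 ∧ ∃ u ∈ l.get i, u ∉ W ∧ u ∈ A)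
        (univ : Finset (Fin l.length)).val).card =
        (univ.filter fun i => (l.get i).card = 3 ∧ ∃ u ∈ l.get i, u ∉ W ∧ u ∈ A).card := rfl
    rw [h4]
    refine card_le_card ?_
    intro i hi
    obtain ⟨h1, u, h2, h3, h5⟩ := (mem_filter.1 hi).2
    refine mem_filter.2 ⟨mem_univ _, by rw [← hcard]; exact h1, u.1, mem_subtype.1 h2,
      fun h => h3 (mem_subtype.2 h), (mem_filter.1 h5).2⟩
  have hrq : ∀ X : Finset {b // b ∈ B₀}, rq W' X ≤ rq W (X.map emb) := by
    intro X
    unfold rq
    have h1 : Sepr W' X → Sepr W (X.map emb) := by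
      rintro ⟨⟨w, hw, hwX⟩, u, hu, huX⟩
      exact ⟨⟨emb w, mem_subtype.1 hw, mem_map_of_mem _ hwX⟩, emb u, mem_subtype.1 hu,
        fun h => huX ((mem_map' emb).1 h)⟩
    by_cases h2 : Sepr W' X
    · rw [if_pos h2, if_pos (h1 h2)]
    · rw [if_neg h2]
      split_ifs <;> omega
  have : Nonempty {b // b ∈ B₀} := by
    obtain ⟨b, hb⟩ := hB
    exact ⟨⟨b, hb⟩⟩
  have hC : CertK e' := by
    have hfive' := (Nat.add_le_add hTr hL).trans hfive
    refine certK_rqT e' W' A' ?_ (le_trans (le_of_eq (by congr!)) hfive') ?_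
    · intro i
      rw [hcard]
      exact h23 i
    · intro X hX hX'
      have h1 := hcut (X.map emb) (by
        intro b hb
        obtain ⟨c, _, rfl⟩ := mem_map.1 hb
        exact c.2) (by
        obtain ⟨c, hc⟩ := hX
        exact ⟨emb c, mem_map_of_mem _ hc⟩) (by
        intro h
        apply hX'
        rw [eq_univ_iff_forall]
        intro c
        have h2 : emb c ∈ X.map emb := by
          rw [h]
          exact c.2
        exact (mem_map' emb).1 h2)
      refine (hrq X).trans (h1.trans ?_)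
      unfold ct
      have h2 : h.countP (fun e => Crosses e (X.map emb)) =
          h₂.countP (fun e => Crosses e (X.map emb)) := by
        rw [← hsum, Multiset.countP_add]
        have h3 : h₁.countP (fun e => Crosses e (X.map emb)) = 0 := by
          rw [Multiset.countP_eq_zero]
          intro e he hce
          exact (Multiset.mem_filter.1 he).2 (crosses_card hce)
        omega
      rw [h2, ← hlh, Multiset.countP_map]
      have h4 : (Multiset.filter (fun i => Crosses (l.get i) (X.map emb))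
          (univ : Finset (Fin l.length)).val).card =
          (univ.filter fun i => Crosses (l.get i) (X.map emb)).card := rfl
      rw [h4]
      refine card_le_card ?_
      intro i hi
      exact mem_filter.2 ⟨mem_univ _, hcr X i (mem_filter.1 hi).2⟩
  choose P hP using fun i => GK.exists_elOf (l.get i) (h23 i)
  have himg : ∀ i, (e' i).image (Subtype.val : {b // b ∈ B₀} → V) = l.get i := by
    intro i
    ext w
    rw [mem_image]
    constructor
    · rintro ⟨b, hb, rfl⟩
      exact mem_subtype.1 hb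
    · intro hw
      exact ⟨⟨w, hle i hw⟩, mem_subtype.2 hw, rfl⟩
  have huniv : (univ : Finset {b // b ∈ B₀}).image (Subtype.val : {b // b ∈ B₀} → V) = B₀ := by
    ext w
    rw [mem_image]
    constructor
    · rintro ⟨b, _, rfl⟩
      exact b.2
    · intro hw
      exact ⟨⟨w, hw⟩, mem_univ _, rfl⟩
  have hA := GK.algE_of_certK_emb (Subtype.val : {b // b ∈ B₀} → V) Subtype.val_injective e' P
    (fun i => by rw [himg]; exact hP i) hC
  rw [huniv] at hA
  refine ⟨_, ?_, algE_add (s' := h₁.map fun _ => 0) hA⟩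
  rw [← hsum]
  refine Multiset.Rel.add ?_ ?_
  · rw [← hlh, Multiset.rel_map]
    exact Multiset.rel_refl_of_refl_on fun i _ => inE_of_elOf (hP i)
  · have h5 : Multiset.Rel InE (h₁.map id) (h₁.map fun _ => (0 : El V)) := by
      rw [Multiset.rel_map]
      exact Multiset.rel_refl_of_refl_on fun e _ => zero_InE e
    rwa [Multiset.map_id] at h5

/-- the number of triples with a vertex outside `W` whose colour is in `A` -/
def nT {V : Type} (W : Finset V) (h : Multiset (Finset V)) (κ : V → ℕ) (A : Set ℕ) : ℕ :=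
  h.countP fun e => e.card = 3 ∧ ∃ u ∈ e, u ∉ W ∧ κ u ∈ A

theorem nT_cons {V : Type} (W e : Finset V) (h : Multiset (Finset V)) (κ : V → ℕ) (A : Set ℕ) :
    nT W (e ::ₘ h) κ A = (if e.card = 3 ∧ ∃ u ∈ e, u ∉ W ∧ κ u ∈ A then 1 else 0) +
      nT W h κ A := by
  unfold nT
  rw [Multiset.countP_cons, add_comm]

theorem nT_add {V : Type} (W : Finset V) (h h' : Multiset (Finset V)) (κ : V → ℕ) (A : Set ℕ) :
    nT W (h + h') κ A = nT W h κ A + nT W h' κ A := by
  unfold nT
  rw [Multiset.countP_add]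

/-- the number of triples which contain `u` -/
def tr {V : Type} (h : Multiset (Finset V)) (u : V) : ℕ := h.countP fun e => u ∈ e ∧ e.card = 3

/-- the sum of `min 2 (tr h u)` over the vertices `u` of colour `c` outside `W` -/
def inc2 {V : Type} (B₀ W : Finset V) (h : Multiset (Finset V)) (κ : V → ℕ) (c : ℕ) : ℕ :=
  ∑ u ∈ (B₀ \ W).filter (fun u => κ u = c), min 2 (tr h u)

theorem tr_cons {V : Type} (e : Finset V) (h : Multiset (Finset V)) (u : V) :
    tr (e ::ₘ h) u = (if u ∈ e ∧ e.card = 3 then 1 else 0) + tr h u := by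
  unfold tr
  rw [Multiset.countP_cons, add_comm]

theorem tr_add {V : Type} (h h' : Multiset (Finset V)) (u : V) :
    tr (h + h') u = tr h u + tr h' u := by
  unfold tr
  rw [Multiset.countP_add]

/-- the sums do not increase in one elimination -/
theorem inc2_le {V : Type} {B₀ W F : Finset V} {h0 h1 : Multiset (Finset V)} {κ : V → ℕ}
    {v y0 y1 y2 : V} (hv : v ∈ B₀) (hvW : v ∉ W) (hF2 : F.card ≤ 2) (hFv : v ∉ F)
    (k0 : y0 ∉ W → κ y0 = κ v) (c : ℕ) :
    inc2 (B₀.erase v) W (insert y0 F ::ₘ {y1, y2} ::ₘ h0) κ c ≤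
      inc2 B₀ W (insert v F ::ₘ {v, y0} ::ₘ {v, y1} ::ₘ {v, y2} ::ₘ (h0 + h1)) κ c := by
  set H := insert v F ::ₘ {v, y0} ::ₘ {v, y1} ::ₘ {v, y2} ::ₘ (h0 + h1) with hH
  have hFcard : F.card = 2 → (insert v F).card = 3 := by
    intro h
    rw [card_insert_of_notMem hFv, h]
  have ht : ∀ u, tr (insert y0 F ::ₘ {y1, y2} ::ₘ h0) u ≤
      tr H u + if u = y0 ∧ F.card = 2 then 1 else 0 := by
    intro u
    rw [hH, tr_cons, tr_cons, tr_cons, tr_cons, tr_cons, tr_cons, tr_add]
    have g1 : ¬ (u ∈ ({y1, y2} : Finset V) ∧ ({y1, y2} : Finset V).card = 3) := by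
      rintro ⟨-, h⟩
      have := card_le_two (a := y1) (b := y2)
      omega
    rw [if_neg g1]
    have g2 : (if u ∈ insert y0 F ∧ (insert y0 F).card = 3 then 1 else 0) ≤
        (if u ∈ insert v F ∧ (insert v F).card = 3 then 1 else 0) +
          if u = y0 ∧ F.card = 2 then 1 else 0 := by
      by_cases h3 : u ∈ insert y0 F ∧ (insert y0 F).card = 3
      · obtain ⟨hu, h3c⟩ := h3
        have hF2' : F.card = 2 := by
          have := card_insert_le y0 F
          omega
        rcases mem_insert.1 hu with h | h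
        · rw [if_pos (⟨h, hF2'⟩ : u = y0 ∧ F.card = 2)]
          split_ifs <;> omega
        · rw [if_pos (⟨mem_insert_of_mem h, hFcard hF2'⟩ : u ∈ insert v F ∧
            (insert v F).card = 3)]
          split_ifs <;> omega
      · rw [if_neg h3]
        exact Nat.zero_le _
    omega
  unfold inc2
  set S := (B₀ \ W).filter fun u => κ u = c with hS
  have hS' : (B₀.erase v \ W).filter (fun u => κ u = c) = S.erase v := by
    ext u
    simp only [hS, mem_filter, mem_sdiff, mem_erase]
    tauto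
  rw [hS']
  have h1 : ∑ u ∈ S.erase v, min 2 (tr (insert y0 F ::ₘ {y1, y2} ::ₘ h0) u) ≤
      ∑ u ∈ S.erase v, (min 2 (tr H u) + if u = y0 ∧ F.card = 2 then 1 else 0) := by
    refine sum_le_sum fun u _ => ?_
    have := ht u
    omega
  rw [sum_add_distrib] at h1
  refine h1.trans ?_
  by_cases h2 : y0 ∈ S.erase v ∧ F.card = 2
  · obtain ⟨h3, h4⟩ := h2
    obtain ⟨h5, h6⟩ := mem_erase.1 h3
    obtain ⟨h7, h8⟩ := mem_filter.1 h6
    have hvS : v ∈ S := mem_filter.2 ⟨mem_sdiff.2 ⟨hv, hvW⟩, by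
      rw [← k0 (mem_sdiff.1 h7).2]
      exact h8⟩
    have h9 : ∑ u ∈ S.erase v, (if u = y0 ∧ F.card = 2 then 1 else 0) ≤ 1 := by
      rw [← card_filter, card_le_one]
      intro a ha b hb
      rw [(mem_filter.1 ha).2.1, (mem_filter.1 hb).2.1]
    have h10 : 1 ≤ tr H v := by
      rw [hH, tr_cons, if_pos (⟨mem_insert_self v F, hFcard h4⟩ : v ∈ insert v F ∧
        (insert v F).card = 3)]
      omega
    rw [← add_sum_erase S (fun u => min 2 (tr H u)) hvS]
    omega
  · have h3 : ∑ u ∈ S.erase v, (if u = y0 ∧ F.card = 2 then 1 else 0) = 0 := by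
      refine sum_eq_zero fun u hu => if_neg ?_
      rintro ⟨h4, h5⟩
      exact h2 ⟨h4 ▸ hu, h5⟩
    rw [h3, add_zero]
    exact sum_le_sum_of_subset (erase_subset _ _)

open SP Step in
/-- the step, with the data at `v` -/
theorem coreT (hD : RowElimD) (hE : RowElimE) (hM : RowMono) {V : Type} [Fintype V]
    {B₀ W F : Finset V} {h0 h1 : Multiset (Finset V)} {κ : V → ℕ} {v y0 y1 y2 : V}
    (hy : SyP B₀ W (insert v F ::ₘ {v, y0} ::ₘ {v, y1} ::ₘ {v, y2} ::ₘ (h0 + h1)) κ)
    (hv : v ∈ B₀) (hvW : v ∉ W) (hF0 : F.Nonempty) (hF2 : F.card ≤ 2) (hFv : v ∉ F)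
    (hy0 : y0 ≠ v) (hy1 : y1 ≠ v) (hy2 : y2 ≠ v) (hh0 : ∀ e ∈ h0, v ∉ e)
    (hreq : Req (B₀.erase v) W (insert y0 F ::ₘ {y1, y2} ::ₘ h0)) :
    ∃ h' : Multiset (Finset V), SyP (B₀.erase v) W h' κ ∧
    (∀ c, inc2 (B₀.erase v) W h' κ c ≤
      inc2 B₀ W (insert v F ::ₘ {v, y0} ::ₘ {v, y1} ::ₘ {v, y2} ::ₘ (h0 + h1)) κ c) ∧
    (∀ A : Set ℕ, nT W h' κ A ≤
      nT W (insert v F ::ₘ {v, y0} ::ₘ {v, y1} ::ₘ {v, y2} ::ₘ (h0 + h1)) κ A) ∧
    (AlgM (B₀.erase v) h' →
      AlgM B₀ (insert v F ::ₘ {v, y0} ::ₘ {v, y1} ::ₘ {v, y2} ::ₘ (h0 + h1))) := by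
  set H := insert v F ::ₘ {v, y0} ::ₘ {v, y1} ::ₘ {v, y2} ::ₘ (h0 + h1) with hH
  have mt : insert v F ∈ H := by rw [hH]; simp
  have m0 : ({v, y0} : Finset V) ∈ H := by rw [hH]; simp
  have m1 : ({v, y1} : Finset V) ∈ H := by rw [hH]; simp
  have m2 : ({v, y2} : Finset V) ∈ H := by rw [hH]; simp
  have mh : ∀ e ∈ h0, e ∈ H := by
    intro e he
    rw [hH]
    simp only [Multiset.mem_cons, Multiset.mem_add]
    tauto
  have hFB : F ⊆ B₀.erase v := by
    intro a ha
    refine mem_erase.2 ⟨fun h => hFv (h ▸ ha), (hy.sub _ mt).1 (mem_insert_of_mem ha)⟩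
  have by0 : y0 ∈ B₀.erase v := mem_erase.2 ⟨hy0, (hy.sub _ m0).1 (by simp)⟩
  have by1 : y1 ∈ B₀.erase v := mem_erase.2 ⟨hy1, (hy.sub _ m1).1 (by simp)⟩
  have by2 : y2 ∈ B₀.erase v := mem_erase.2 ⟨hy2, (hy.sub _ m2).1 (by simp)⟩
  have cpair : ∀ y : V, y ≠ v → ({v, y} : Finset V).card = 2 := fun y h => card_pair h.symm
  have col : ∀ y : V, y ≠ v → ({v, y} : Finset V) ∈ H → y ∉ W → κ y = κ v := by
    intro y hyv hm hyW
    exact hy.mono _ hm (cpair y hyv) y (by simp) v (by simp) hyW hvW
  have k0 := col y0 hy0 m0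
  have k1 := col y1 hy1 m1
  have k2 := col y2 hy2 m2
  -- the degrees
  have hdeg : ∀ u ∈ B₀.erase v, u ∉ W → B₀.erase v ≠ {u} →
      ct (insert y0 F ::ₘ {y1, y2} ::ₘ h0) {u} = 4 ∧ ¬ (y0 = u ∧ u ∈ F) := by
    intro u hu huW hne
    have huv : u ≠ v := ne_of_mem_erase hu
    have h4 : ct H {u} = 4 := hy.deg u (mem_of_mem_erase hu) huW (fun h => by
      rw [h, mem_singleton] at hv
      exact huv hv.symm)
    have h5 : 4 ≤ ct (insert y0 F ::ₘ {y1, y2} ::ₘ h0) {u} := by
      refine le_trans ?_ (hreq {u} (singleton_subset_iff.2 hu) ⟨u, mem_singleton_self u⟩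
        (fun h => hne h.symm))
      unfold rq
      split_ifs <;> omega
    have h6 := deg_le huv F y0 y1 y2
    rw [hH, ct_cons, ct_cons, ct_cons, ct_cons, ct_add] at h4
    rw [ct_cons, ct_cons] at h5 ⊢
    constructor
    · split_ifs at h6 <;> omega
    · intro h7
      rw [if_pos h7] at h6
      omega
  refine ⟨insert y0 F ::ₘ {y1, y2} ::ₘ h0, ?_, ?_, ?_, ?_⟩
  · refine ⟨?_, hreq, ?_, fun u hu huW hne => (hdeg u hu huW hne).1, ?_⟩
    · intro e he
      rw [Multiset.mem_cons, Multiset.mem_cons] at he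
      rcases he with rfl | rfl | he
      · refine ⟨insert_subset by0 hFB, ?_⟩
        have := card_insert_le y0 F
        omega
      · refine ⟨insert_subset by1 (singleton_subset_iff.2 by2), ?_⟩
        have := card_le_two (a := y1) (b := y2)
        omega
      · obtain ⟨h3, h4⟩ := hy.sub e (mh e he)
        refine ⟨fun a ha => mem_erase.2 ⟨fun h => hh0 e he (h ▸ ha), h3 ha⟩, h4⟩
    · intro a ha
      exact mem_erase.2 ⟨fun h => hvW (h ▸ ha), hy.wsub ha⟩
    · intro e he hcard u hu u' hu' huW hu'W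
      rw [Multiset.mem_cons, Multiset.mem_cons] at he
      rcases he with rfl | rfl | he
      · -- the new member with `F`
        rcases Nat.lt_or_ge F.card 2 with hF1 | hF1
        · have hF1' : F.card = 1 := by
            have := card_pos.2 hF0
            omega
          obtain ⟨f, hf⟩ := card_eq_one.1 hF1'
          subst hf
          have hfv : f ≠ v := fun h => hFv (by rw [h]; exact mem_singleton_self v)
          have kf := col f hfv mt
          have kk : ∀ w ∈ insert y0 ({f} : Finset V), w ∉ W → κ w = κ v := by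
            intro w hw hwW
            rw [mem_insert, mem_singleton] at hw
            rcases hw with rfl | rfl
            · exact k0 hwW
            · exact kf hwW
          rw [kk u hu huW, kk u' hu' hu'W]
        · have hF2' : F.card = 2 := by omega
          have hy0F : y0 ∈ F := by
            by_contra h
            rw [card_insert_of_notMem h] at hcard
            omega
          have hy0W : y0 ∈ W := by
            by_contra hW
            refine (hdeg y0 by0 hW ?_).2 ⟨rfl, hy0F⟩
            intro h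
            have h7 := card_le_card hFB
            rw [h, card_singleton] at h7
            omega
          rw [insert_eq_of_mem hy0F] at hu hu'
          have h8 : (F.erase y0).card = 1 := by
            rw [card_erase_of_mem hy0F]
            omega
          obtain ⟨b, hb⟩ := card_eq_one.1 h8
          have h9 : ∀ w ∈ F, w ∉ W → w = b := by
            intro w hw hwW
            have h10 : w ∈ F.erase y0 := mem_erase.2 ⟨fun h => hwW (h ▸ hy0W), hw⟩
            rw [hb] at h10
            exact mem_singleton.1 h10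
          rw [h9 u hu huW, h9 u' hu' hu'W]
      · have kk : ∀ w ∈ ({y1, y2} : Finset V), w ∉ W → κ w = κ v := by
          intro w hw hwW
          rw [mem_insert, mem_singleton] at hw
          rcases hw with rfl | rfl
          · exact k1 hwW
          · exact k2 hwW
        rw [kk u hu huW, kk u' hu' hu'W]
      · exact hy.mono e (mh e he) hcard u hu u' hu' huW hu'W
  · exact inc2_le hv hvW hF2 hFv k0
  · intro A
    rw [hH, nT_cons, nT_cons, nT_cons, nT_cons, nT_cons, nT_cons, nT_add]
    have g1 : ¬ (({y1, y2} : Finset V).card = 3 ∧ ∃ u ∈ ({y1, y2} : Finset V),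
        u ∉ W ∧ κ u ∈ A) := by
      rintro ⟨h, -⟩
      have := card_le_two (a := y1) (b := y2)
      omega
    rw [if_neg g1]
    have g2 : (if (insert y0 F).card = 3 ∧ ∃ u ∈ insert y0 F, u ∉ W ∧ κ u ∈ A then 1 else 0) ≤
        if (insert v F).card = 3 ∧ ∃ u ∈ insert v F, u ∉ W ∧ κ u ∈ A then 1 else 0 := by
      by_cases h3 : (insert y0 F).card = 3 ∧ ∃ u ∈ insert y0 F, u ∉ W ∧ κ u ∈ A
      · obtain ⟨h3c, u, hu, huW, huA⟩ := h3
        have hF2' : F.card = 2 := by
          have := card_insert_le y0 F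
          omega
        have h4 : (insert v F).card = 3 := by
          rw [card_insert_of_notMem hFv]
          omega
        have h6 : (insert v F).card = 3 ∧ ∃ u ∈ insert v F, u ∉ W ∧ κ u ∈ A := by
          refine ⟨h4, ?_⟩
          rcases mem_insert.1 hu with h | h
          · rw [h] at huW huA
            exact ⟨v, mem_insert_self v F, hvW, by rw [← k0 huW]; exact huA⟩
          · exact ⟨u, mem_insert_of_mem h, huW, huA⟩
        rw [if_pos h6]
        split_ifs <;> omega
      · rw [if_neg h3]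
        exact Nat.zero_le _
    omega
  · rintro ⟨s', hrel, hA⟩
    obtain ⟨P1, s1, hP1, hrel1, rfl⟩ := Multiset.rel_cons_left.1 hrel
    obtain ⟨P2, s0, hP2, hrel0, rfl⟩ := Multiset.rel_cons_left.1 hrel1
    have hfree : Free v s0 := by
      intro P hP
      obtain ⟨e, he, hPe⟩ := rel_mem hrel0 hP
      exact ⟨hPe.1.1 v (hh0 e he), hPe.2.1 v (hh0 e he)⟩
    -- the pair
    have q1 : P2.1 = 0 ∨ P2.1 = ev y1 y2 := even_two hP2.1
    have q2 : P2.2 = 0 ∨ P2.2 = ev y1 y2 := even_two hP2.2
    have hA2 : AlgE (B₀.erase v) (P1 ::ₘ ((ev y1 y2, 0) : El V) ::ₘ s0) := by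
      rw [Multiset.cons_swap] at hA ⊢
      refine hM V (B₀.erase v) (P1 ::ₘ s0) (ev y1 y2, 0) P2 ?_ ?_ hA
      · rcases q1 with h | h
        · exact Or.inl h
        · exact Or.inr (Or.inl h)
      · rcases q2 with h | h
        · exact Or.inl h
        · exact Or.inr (Or.inl h)
    have hz : Multiset.Rel InE h1 (h1.map fun _ => (0 : El V)) := by
      have h5 : Multiset.Rel InE (h1.map id) (h1.map fun _ => (0 : El V)) := by
        rw [Multiset.rel_map]
        exact Multiset.rel_refl_of_refl_on fun e _ => BaseW.zero_InE e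
      rwa [Multiset.map_id] at h5
    have hq : ∀ y, InE ({v, y} : Finset V) ((ev v y, 0) : El V) := fun y =>
      ⟨evenOn_ev (by simp) (by simp), evenOn_zero _⟩
    have fin : ∀ T : El V, InE (insert v F) T →
        AlgE B₀ (T ::ₘ ((ev v y0, 0) : El V) ::ₘ (ev v y1, 0) ::ₘ (ev v y2, 0) ::ₘ s0) →
        AlgM B₀ H := by
      intro T hT hAT
      refine ⟨T ::ₘ ((ev v y0, 0) : El V) ::ₘ (ev v y1, 0) ::ₘ (ev v y2, 0) ::ₘ
        (s0 + h1.map fun _ => (0 : El V)), ?_, ?_⟩
      · rw [hH]
        exact Multiset.Rel.cons hT (Multiset.Rel.cons (hq y0) (Multiset.Rel.cons (hq y1)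
          (Multiset.Rel.cons (hq y2) (Multiset.Rel.add hrel0 hz))))
      · have h6 := BaseW.algE_add (s' := h1.map fun _ => (0 : El V)) hAT
        simpa only [Multiset.cons_add] using h6
    rcases Nat.lt_or_ge F.card 2 with hF1 | hF1
    · have hF1' : F.card = 1 := by
        have := card_pos.2 hF0
        omega
      obtain ⟨f, hf⟩ := card_eq_one.1 hF1'
      subst hf
      have hfv : f ≠ v := fun h => hFv (by rw [h]; exact mem_singleton_self v)
      refine fin (ev v f, 0) ⟨evenOn_ev (by simp) (by simp), evenOn_zero _⟩ ?_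
      refine hE V B₀ s0 v (ev v f) (ev v y0) (ev v y1) (ev v y2) hv hfree (ev_left hfv)
        (ev_left hy0) (ev_left hy1) (ev_left hy2) ?_
      have e1 : (ev v f + ev v y0 : Vec V) = ev y0 f := ev_add v f y0
      have e2 : (ev v y1 + ev v y2 : Vec V) = ev y1 y2 := by rw [ev_add, ev_comm]
      rw [e1, e2]
      have r1 : P1.1 = 0 ∨ P1.1 = ev y0 f := even_two hP1.1
      have r2 : P1.2 = 0 ∨ P1.2 = ev y0 f := even_two hP1.2
      refine hM V (B₀.erase v) _ (ev y0 f, 0) P1 ?_ ?_ hA2
      · rcases r1 with h | h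
        · exact Or.inl h
        · exact Or.inr (Or.inl h)
      · rcases r2 with h | h
        · exact Or.inl h
        · exact Or.inr (Or.inl h)
    · have hF2' : F.card = 2 := by omega
      obtain ⟨a, b, hab, hf⟩ := card_eq_two.1 hF2'
      subst hf
      have hav : a ≠ v := fun h => hFv (by rw [h]; simp)
      have hbv : b ≠ v := fun h => hFv (by rw [h]; simp)
      refine fin (ev v a, ev a b) ⟨evenOn_ev (by simp) (by simp), evenOn_ev (by simp) (by simp)⟩ ?_
      refine hD V B₀ s0 v (ev v a) (ev a b) (ev v y0) (ev v y1) (ev v y2) hv hfree (ev_left hav)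
        (ev_left hy0) (ev_left hy1) (ev_left hy2) (ev_ne hav hbv) ?_
      have e1 : (ev v a + ev v y0 : Vec V) = ev y0 a := ev_add v a y0
      have e2 : (ev v y1 + ev v y2 : Vec V) = ev y1 y2 := by rw [ev_add, ev_comm]
      rw [e1, e2]
      exact hM V (B₀.erase v) _ (ev y0 a, ev a b) P1 (even_three hab hP1.1)
        (even_three hab hP1.2) hA2

open SP Step in
/-- one elimination -/
theorem stepT (hS : RowSplit) (hD : RowElimD) (hE : RowElimE) (hM : RowMono) (V : Type) [Fintype V]
    (B₀ W : Finset V) (h : Multiset (Finset V)) (κ : V → ℕ) (v : V) (hy : SyP B₀ W h κ)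
    (hv : v ∈ B₀) (hvW : v ∉ W) (hne : B₀ ≠ {v})
    (hc : h.countP (fun e => v ∈ e ∧ e.card = 3) ≤ 1) :
    ∃ h' : Multiset (Finset V), SyP (B₀.erase v) W h' κ ∧
      (∀ c, inc2 (B₀.erase v) W h' κ c ≤ inc2 B₀ W h κ c) ∧
      (∀ A : Set ℕ, nT W h' κ A ≤ nT W h κ A) ∧
      (AlgM (B₀.erase v) h' → AlgM B₀ h) := by
  obtain ⟨t, e0, e1, e2, hr, heq, ⟨hvt, htc⟩, ⟨hv0, hc0⟩, ⟨hv1, hc1⟩, ⟨hv2, hc2⟩, hrm⟩ :=
    star (fun e he => (hy.sub e he).2) (hy.deg v hv hvW hne) hc
  obtain ⟨x0, hx0, -, rfl⟩ := pair_of hv0 hc0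
  obtain ⟨x1, hx1, -, rfl⟩ := pair_of hv1 hc1
  obtain ⟨x2, hx2, -, rfl⟩ := pair_of hv2 hc2
  set F := t.erase v with hF
  have htF : insert v F = t := insert_erase hvt
  have hFc : F.card + 1 = t.card := by
    rw [hF, card_erase_of_mem hvt]
    omega
  have hFv : v ∉ F := notMem_erase v t
  set h0 := hr.filter fun e => v ∉ e with hh0
  set h1 := hr.filter fun e => ¬ v ∉ e with hh1
  have hsum : h0 + h1 = hr := Multiset.filter_add_not _ _
  have mh0 : ∀ e ∈ h0, v ∉ e := fun e he => (Multiset.mem_filter.1 he).2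
  have mh1 : ∀ e ∈ h1, e.card ≤ 1 := fun e he =>
    hrm e (Multiset.mem_filter.1 he).1 (not_not.1 (Multiset.mem_filter.1 he).2)
  set x : Fin 3 → V := ![x0, x1, x2] with hx
  have heq' : h = insert v F ::ₘ {v, x 0} ::ₘ {v, x 1} ::ₘ {v, x 2} ::ₘ (h0 + h1) := by
    rw [htF, hsum, heq]
    rfl
  have hxv : ∀ i, x i ≠ v := by
    intro i
    fin_cases i
    · exact hx0
    · exact hx1
    · exact hx2
  have hsub := hy.sub
  have hxB : ∀ i, x i ∈ B₀.erase v := by
    intro i
    refine mem_erase.2 ⟨hxv i, ?_⟩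
    have hm : ({v, x i} : Finset V) ∈ h := by
      rw [heq']
      fin_cases i <;> simp
    exact (hsub _ hm).1 (by simp)
  have hFB : F ⊆ B₀.erase v := by
    intro a ha
    refine mem_erase.2 ⟨fun h => hFv (h ▸ ha), ?_⟩
    have hm : insert v F ∈ h := by rw [heq']; simp
    exact (hsub _ hm).1 (mem_insert_of_mem ha)
  have hreq : Req B₀ W (insert v F ::ₘ {v, x 0} ::ₘ {v, x 1} ::ₘ {v, x 2} ::ₘ h0) := by
    intro X hXB hX hX'
    refine (hy.req X hXB hX hX').trans ?_
    rw [heq', ct_cons, ct_cons, ct_cons, ct_cons, ct_cons, ct_cons, ct_cons, ct_cons, ct_add,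
      ct_small h1 X mh1, add_zero]
  obtain ⟨i, hi⟩ := hS V B₀ W F h0 v x hv hvW hy.wsub (by
      intro e he
      have hm : e ∈ h := by
        rw [heq']
        simp only [Multiset.mem_cons, Multiset.mem_add]
        tauto
      obtain ⟨h3, h4⟩ := hsub e hm
      exact ⟨fun a ha => mem_erase.2 ⟨fun h => mh0 e he (h ▸ ha), h3 ha⟩, h4⟩) hxB hFB (by
      rw [← card_pos]
      omega) (by omega) hreq
  have hrot : h = insert v F ::ₘ {v, x i} ::ₘ {v, x (i + 1)} ::ₘ {v, x (i + 2)} ::ₘ (h0 + h1) := by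
    rw [heq', rot (fun j => ({v, x j} : Finset V)) (h0 + h1) i]
  rw [hrot] at hy ⊢
  exact coreT hD hE hM hy hv hvW (by rw [← card_pos]; omega) (by omega) hFv (hxv _) (hxv _) (hxv _)
    mh0 hi

end SPT

end Pool.Agent.ClawHam
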