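import Pool.Agent.Lib.MP_e2dbb5_co.SPTBase
import Pool.Agent.Lib.MP_e2dbb5_co.SPP_MAIN

/-!
# Triples and components: the induction and the lemma on hypergraphs (helper49)

After `SP_ALLP` (helper47), `SP_HYPPHI` (helper69) and `SPP_MAIN`.
-/

set_option autoImplicit false
set_option linter.unusedSectionVars false

open Finset

noncomputable section

namespace Pool.Agent.ClawHam

open Classical

namespace SPT

open SP

/-- all eliminations -/
theorem allT (hS : RowSplit) (hD : RowElimD) (hE : RowElimE) (hM : RowMono) (V : Type) [Fintype V]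
    (B₀ W : Finset V) (h : Multiset (Finset V)) (κ : V → ℕ) (A : Set ℕ) :
    SyP B₀ W h κ → B₀.Nonempty →
    nT W h κ A + ∑ c ∈ (B₀.image κ).filter (fun c => c ∉ A), inc2 B₀ W h κ c / 2 ≤ 5 →
    AlgM B₀ h := by
  induction hn : B₀.card using Nat.strong_induction_on generalizing B₀ h with
  | _ n ih =>
    intro hsy hne hs
    by_cases hsing : ∃ v, B₀ = {v}
    · obtain ⟨v, rfl⟩ := hsing
      exact AllP.algM_single v h
    by_cases hex : ∃ v ∈ B₀, v ∉ W ∧ h.countP (fun e => v ∈ e ∧ e.card = 3) ≤ 1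
    · obtain ⟨v, hv, hvW, hc⟩ := hex
      have hBv : B₀ ≠ {v} := fun h1 => hsing ⟨v, h1⟩
      obtain ⟨h', hsy', hinc, hnT, hA⟩ := stepT hS hD hE hM V B₀ W h κ v hsy hv hvW hBv hc
      refine hA (ih (B₀.erase v).card ?_ (B₀.erase v) h' rfl hsy' ?_ ?_)
      · rw [← hn]
        exact Finset.card_erase_lt_of_mem hv
      · rw [Finset.nonempty_iff_ne_empty]
        intro h1
        rw [Finset.erase_eq_empty_iff] at h1
        rcases h1 with h1 | h1
        · rw [h1] at hv
          exact Finset.notMem_empty _ hv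
        · exact hBv h1
      · refine le_trans (Nat.add_le_add (hnT A) ?_) hs
        refine le_trans (Finset.sum_le_sum fun c _ => Nat.div_le_div_right (hinc c)) ?_
        exact Finset.sum_le_sum_of_subset (Finset.filter_subset_filter _
          (Finset.image_subset_image (Finset.erase_subset _ _)))
    · push Not at hex
      refine baseT V B₀ W {u | κ u ∈ A} h hne hsy.sub hsy.wsub hsy.req ?_
      refine le_trans (Nat.add_le_add (le_of_eq rfl) ?_) hs
      have h1 : (B₀.filter fun u => u ∉ W ∧ u ∉ {u | κ u ∈ A}).card =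
          ∑ c ∈ (B₀.image κ).filter (fun c => c ∉ A),
            ((B₀.filter fun u => u ∉ W ∧ u ∉ {u | κ u ∈ A}).filter fun u => κ u = c).card := by
        refine Finset.card_eq_sum_card_fiberwise fun u hu => ?_
        obtain ⟨hu1, -, hu2⟩ := Finset.mem_filter.1 (Finset.mem_coe.1 hu)
        exact Finset.mem_coe.2 (Finset.mem_filter.2 ⟨Finset.mem_image_of_mem κ hu1, hu2⟩)
      rw [h1]
      refine Finset.sum_le_sum fun c _ => ?_
      have h2 : ((B₀ \ W).filter fun u => κ u = c).card * 2 ≤ inc2 B₀ W h κ c := by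
        have h5 : ∀ u ∈ (B₀ \ W).filter (fun u => κ u = c), 2 ≤ min 2 (tr h u) := by
          intro u hu
          obtain ⟨hu1, -⟩ := Finset.mem_filter.1 hu
          obtain ⟨hu2, hu3⟩ := Finset.mem_sdiff.1 hu1
          have h3 : 2 ≤ tr h u := hex u hu2 hu3
          omega
        have h6 := Finset.card_nsmul_le_sum _ _ _ h5
        rw [smul_eq_mul] at h6
        exact h6
      have h3 : ((B₀.filter fun u => u ∉ W ∧ u ∉ {u | κ u ∈ A}).filter fun u => κ u = c).card ≤
          ((B₀ \ W).filter fun u => κ u = c).card := by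
        refine Finset.card_le_card fun u hu => ?_
        obtain ⟨hu1, hu2⟩ := Finset.mem_filter.1 hu
        obtain ⟨hu3, hu4, -⟩ := Finset.mem_filter.1 hu1
        exact Finset.mem_filter.2 ⟨Finset.mem_sdiff.2 ⟨hu3, hu4⟩, hu2⟩
      omega

/-- the colourings, for families -/
def ColT {B I : Type} [Fintype B] [Fintype I] (e : I → Finset B) : Prop :=
  ∃ (κ : B → ℕ) (A : Set ℕ),
    (∀ i, (e i).card = 2 → ∀ u ∈ e i, ∀ u' ∈ e i, D4 e u → D4 e u' → κ u = κ u') ∧
    (univ.filter fun i => (e i).card = 3 ∧ ∃ u ∈ e i, D4 e u ∧ κ u ∈ A).card +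
    ∑ c ∈ (univ.image κ).filter (fun c => c ∉ A),
      (∑ u ∈ univ.filter (fun u => D4 e u ∧ κ u = c),
        min 2 (univ.filter fun i => u ∈ e i ∧ (e i).card = 3).card) / 2 ≤ 5

theorem tr_family {B I : Type} [Fintype I] (e : I → Finset B) (u : B) :
    tr (univ.val.map e) u = (univ.filter fun i => u ∈ e i ∧ (e i).card = 3).card := by
  unfold tr
  rw [Multiset.countP_map, Finset.card_def, Finset.filter_val]

open G GK in
/-- the lemma on hypergraphs -/
theorem hypT (hS : RowSplit) (hD : RowElimD) (hE : RowElimE) (hM : RowMono) (B I : Type)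
    [Fintype B] [Fintype I] (e : I → Finset B) (he : ∀ i, (e i).card = 2 ∨ (e i).card = 3)
    (h4 : FourConn univ e) (h5 : FiveEss univ e) (hk : ColT e) : EvenConn univ e := by
  obtain ⟨κ, A, hκ, hsum⟩ := hk
  rcases isEmpty_or_nonempty B with hB | hB
  · refine ⟨fun _ => ∅, fun i => ⟨Finset.empty_subset _, Or.inl rfl⟩, fun K => ?_,
      fun X _ hX _ => ?_⟩
    · exact (hB.false K).elim
    · obtain ⟨x, _⟩ := hX
      exact (hB.false x).elim
  set W : Finset B := univ.filter fun u => ¬ D4 e u with hW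
  have hmW : ∀ u, u ∉ W ↔ D4 e u := by
    intro u
    rw [hW, Finset.mem_filter]
    simp
  have hsy : SyP univ W (univ.val.map e) κ := by
    refine ⟨?_, ?_, Finset.subset_univ _, ?_, ?_⟩
    · intro s hs
      obtain ⟨i, -, rfl⟩ := Multiset.mem_map.1 hs
      refine ⟨Finset.subset_univ _, ?_⟩
      rcases he i with h | h <;> omega
    · intro X _ hX hX'
      rw [ct_family]
      exact req_of_five e h4 h5 X hX hX'
    · intro v _ hv _
      rw [ct_family]
      exact (hmW v).1 hv
    · intro s hs hc u hu u' hu' hW1 hW2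
      obtain ⟨i, -, rfl⟩ := Multiset.mem_map.1 hs
      exact hκ i hc u hu u' hu' ((hmW u).1 hW1) ((hmW u').1 hW2)
  have hsum' : nT W (univ.val.map e) κ A +
      ∑ c ∈ (univ.image κ).filter (fun c => c ∉ A), inc2 univ W (univ.val.map e) κ c / 2 ≤
        5 := by
    refine le_trans (le_of_eq ?_) hsum
    congr 1
    · unfold nT
      rw [Multiset.countP_map, Finset.card_def, Finset.filter_val]
      congr 1
      refine Multiset.filter_congr fun i _ => ?_
      constructor
      · rintro ⟨h1, u, h2, h3, h6⟩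
        exact ⟨h1, u, h2, (hmW u).1 h3, h6⟩
      · rintro ⟨h1, u, h2, h3, h6⟩
        exact ⟨h1, u, h2, (hmW u).2 h3, h6⟩
    · refine Finset.sum_congr rfl fun c _ => ?_
      unfold inc2
      congr 1
      have hset : (univ \ W).filter (fun u => κ u = c) =
          univ.filter fun u => D4 e u ∧ κ u = c := by
        ext u
        constructor
        · intro hu
          obtain ⟨h1, h2⟩ := Finset.mem_filter.1 hu
          exact Finset.mem_filter.2 ⟨Finset.mem_univ _, (hmW u).1 (Finset.mem_sdiff.1 h1).2, h2⟩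
        · intro hu
          obtain ⟨-, h1, h2⟩ := Finset.mem_filter.1 hu
          exact Finset.mem_filter.2 ⟨Finset.mem_sdiff.2 ⟨Finset.mem_univ _, (hmW u).2 h1⟩, h2⟩
      rw [hset]
      refine Finset.sum_congr rfl fun u _ => ?_
      rw [tr_family]
  obtain ⟨s, hs, hal⟩ := allT hS hD hE hM B univ W _ κ A hsy (Finset.univ_nonempty) hsum'
  exact TS.evenConn_of_algS he (GM.algE_mono
    (rel_le (P := fun i => TS.elM (e i)) (fun i => TS.elM_spec (he i)) univ.val s hs) hal)

open MP

/-- the colourings, relative form -/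
def RelColT {B I : Type} [Fintype B] [Fintype I] (e : I → Finset B) : Prop :=
  ∃ (κ : B → ℕ) (A : Set ℕ), (∀ i, (e i).card = 2 → ∀ u ∈ e i, ∀ u' ∈ e i,
      (univ.filter fun i => Crosses (e i) {u}).card ≤ 4 →
      (univ.filter fun i => Crosses (e i) {u'}).card ≤ 4 → κ u = κ u') ∧
    (univ.filter fun i => (e i).card = 3 ∧
      ∃ u ∈ e i, (univ.filter fun i => Crosses (e i) {u}).card ≤ 4 ∧ κ u ∈ A).card +
    ∑ c ∈ (univ.image κ).filter (fun c => c ∉ A),
      (∑ u ∈ univ.filter (fun u => (univ.filter fun i => Crosses (e i) {u}).card ≤ 4 ∧ κ u = c),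
        min 2 (univ.filter fun i => u ∈ e i ∧ (e i).card = 3).card) / 2 ≤ 5

theorem sub_le {B I B' I' : Type} [Fintype B] [Fintype I] [Fintype B'] [Fintype I']
    (e : I → Finset B) (e' : I' → Finset B') (f : B' → B) (g : I' → I)
    (hf : Function.Injective f) (hg : Function.Injective g) (κ : B → ℕ) (κ' : B' → ℕ)
    (hκ : ∀ u, κ' u = κ (f u)) (D : B' → Prop) (c : ℕ)
    (hcard : ∀ i, (e' i).card = (e (g i)).card) (hmem : ∀ i b, b ∈ e' i → f b ∈ e (g i))
    (hD : ∀ c : B', D c → (univ.filter fun i => Crosses (e i) {f c}).card ≤ 4) :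
    ∑ u ∈ univ.filter (fun u => D u ∧ κ' u = c),
        min 2 (univ.filter fun i => u ∈ e' i ∧ (e' i).card = 3).card ≤
      ∑ u ∈ univ.filter (fun u => (univ.filter fun i => Crosses (e i) {u}).card ≤ 4 ∧ κ u = c),
        min 2 (univ.filter fun i => u ∈ e i ∧ (e i).card = 3).card := by
  have h7 : ∀ u : B', (univ.filter fun i => u ∈ e' i ∧ (e' i).card = 3).card ≤
      (univ.filter fun i => f u ∈ e i ∧ (e i).card = 3).card := by
    intro u
    refine card_le_card_of_injOn g ?_ hg.injOn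
    intro i hi
    obtain ⟨h8, h9⟩ := (mem_filter.1 (mem_coe.1 hi)).2
    exact mem_coe.2 (mem_filter.2 ⟨mem_univ _, hmem _ _ h8, by rw [← hcard]; exact h9⟩)
  refine (sum_le_sum fun u _ => min_le_min (le_refl 2) (h7 u)).trans ?_
  have h8 := Finset.sum_map (univ.filter (fun u : B' => D u ∧ κ' u = c)) ⟨f, hf⟩
    (fun u => min 2 (univ.filter fun i => u ∈ e i ∧ (e i).card = 3).card)
  refine (le_of_eq h8.symm).trans (sum_le_sum_of_subset ?_)
  intro b hb
  obtain ⟨u, hu, rfl⟩ := mem_map.1 hb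
  obtain ⟨h9, h10⟩ := (mem_filter.1 hu).2
  exact mem_filter.2 ⟨mem_univ _, hD u h9, (hκ u).symm.trans h10⟩

/-- the relative form of the lemma on hypergraphs -/
theorem rowh5T (hS : RowSplit) (hD : RowElimD) (hE : RowElimE) (hM : RowMono) (B I : Type)
    [Fintype B] [Fintype I] (B₀ : Finset B)
    (e : I → Finset B) (he : ∀ i, e i ⊆ B₀ ∧ (e i).card ≤ 3) (hF : FourConn B₀ e)
    (hF5 : FiveEss B₀ e) (hm : RelColT e) : EvenConn B₀ e := by
  refine rowh5Gen B I B₀ e he hF hF5 fun hcard hmem hcut h23 h4 h5 => ?_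
  refine hypT hS hD hE hM _ _ _ h23 h4 h5 ?_
  obtain ⟨κ, A, hκ1, hκ2⟩ := hm
  have hD' : ∀ c : {b // b ∈ B₀}, D4 (rs B₀ e) c →
      (univ.filter fun i => Crosses (e i) {c.1}).card ≤ 4 := fun c hc =>
    (hcut c).trans (le_of_eq hc)
  refine ⟨fun b => κ b.1, A, ?_, ?_⟩
  · intro i hi u hu u' hu' h1 h2
    exact hκ1 i.1 (by rw [← hcard]; exact hi) u.1 ((hmem _ _).1 hu) u'.1 ((hmem _ _).1 hu')
      (hD' u h1) (hD' u' h2)
  · refine le_trans ?_ hκ2
    refine Nat.add_le_add ?_ ?_
    · refine card_le_card_of_injOn Subtype.val ?_ Subtype.val_injective.injOn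
      intro i hi
      obtain ⟨h7, u, h8, h9, h10⟩ := (mem_filter.1 (mem_coe.1 hi)).2
      exact mem_coe.2 (mem_filter.2 ⟨mem_univ _, by rw [← hcard]; exact h7, u.1,
        (hmem _ _).1 h8, hD' u h9, h10⟩)
    · refine (sum_le_sum fun c _ => Nat.div_le_div_right
        (sub_le e (rs B₀ e) Subtype.val Subtype.val Subtype.val_injective Subtype.val_injective κ _
          (fun _ => rfl) _ c hcard (fun i b => (hmem i b).1) hD')).trans ?_
      refine sum_le_sum_of_subset ?_
      intro c hc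
      obtain ⟨hc1, hc2⟩ := mem_filter.1 hc
      obtain ⟨b, -, rfl⟩ := mem_image.1 hc1
      exact mem_filter.2 ⟨mem_image.2 ⟨b.1, mem_univ _, rfl⟩, hc2⟩

end SPT

end Pool.Agent.ClawHam
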