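import Pool.Agent.Lib.MP_e2dbb5_co.SPTHyp
import Pool.Agent.Lib.MP_e2dbb5_co.P2M

/-!
# Triples and components: the graph side (helper49, after helper65's `P2M`)
-/

set_option autoImplicit false
set_option linter.unusedSectionVars false

open Finset

noncomputable section

namespace Pool.Agent.ClawHam

open Classical

namespace SPT

open SP SP.MP P2

/-- three pairwise adjacent vertices such that no other vertex is adjacent to two of them, and one
of them is special and its component of `L2 G` is in `A` -/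
def TriOf {V : Type} (G : SimpleGraph V) (A : Set (L2 G).ConnectedComponent) (T : Finset V) :
    Prop :=
  T.card = 3 ∧ (∀ a ∈ T, ∀ b ∈ T, a ≠ b → G.Adj a b) ∧
    (∀ w, w ∉ T → ∀ a ∈ T, ∀ b ∈ T, a ≠ b → G.Adj w a → ¬ G.Adj w b) ∧
    ∃ v ∈ T, Special G v ∧ (L2 G).connectedComponentMk v ∈ A

/-- the sum over the cliques `Q` with four vertices of `min 2 s`, where `s` is the number of the
special vertices in `Q` whose component of `L2 G` is `c` -/
def kk {V : Type} [Fintype V] (G : SimpleGraph V) (c : (L2 G).ConnectedComponent) : ℕ :=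
  ∑ Q ∈ univ.filter (fun Q : Finset V => Q.card = 4 ∧ ∀ a ∈ Q, ∀ b ∈ Q, a ≠ b → G.Adj a b),
    min 2 (Q.filter fun v => Special G v ∧ (L2 G).connectedComponentMk v = c).card

/-- the number of such triangles, and for the components `c` of `L2 G` which are not in `A` half
of `kk G c` (rounded down) -/
def Cost {V : Type} [Fintype V] (G : SimpleGraph V) (A : Set (L2 G).ConnectedComponent) : ℕ :=
  {T : Finset V | TriOf G A T}.ncard +
    ∑ c ∈ (univ.image (L2 G).connectedComponentMk).filter (fun c => c ∉ A), kk G c / 2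

section

variable {V C : Type} [Fintype V] [Fintype C]

/-- the triples of a big cell with four vertices -/
theorem tri_le {G G' : SimpleGraph V} {inc : V → C → Prop} (hle : G ≤ G') (hn : NewBig G G')
    (hcl : Closed G') (hK : Krausz G' inc)
    (h5 : ∀ v, 5 ≤ (univ.filter fun w => G'.Adj v w).card) {K : C} {w₀ : V} (hbK : Big inc K)
    (h7 : (univ.filter fun v => inc v K).card = 4) :
    (univ.filter fun i => K ∈ hyp inc i ∧ (hyp inc i).card = 3).card ≤
      ((univ.filter fun v => inc v K).filter fun v => Special G v ∧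
        cc2 G ((L2 G).connectedComponentMk v) = col2 G G' inc K).card := by
  have h1 : ∀ i : V ⊕ C, ∃ v : V, i ∈ (univ.filter fun i : V ⊕ C =>
      K ∈ hyp inc i ∧ (hyp inc i).card = 3) →
      (∃ S, i = Sum.inr S ∧ inc v S ∧ ¬ Big inc S) ∧ inc v K ∧
        Special G v ∧ cc2 G ((L2 G).connectedComponentMk v) = col2 G G' inc K := by
    intro i
    by_cases hp : i ∈ (univ.filter fun i : V ⊕ C => K ∈ hyp inc i ∧ (hyp inc i).card = 3)
    · obtain ⟨-, hKi, hi⟩ := mem_filter.1 hp
      rcases i with a | S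
      · have := MS.inl_card hK a
        omega
      obtain ⟨-, hS, -, v, hvS, hvK⟩ := mem_filter.1 hKi
      have hKS : K ≠ S := by
        rintro rfl
        exact hS hbK
      have h6 := TSG.deg_le (le_refl G') hK hvK hvS hKS
      have h9 := C1x.small_card hS
      have h10 := h5 v
      refine ⟨v, fun _ => ⟨⟨S, rfl, hvS, hS⟩, hvK,
        special_of hle hn hcl hK h7 (by omega) hvK hvS, ?_⟩⟩
      rw [col2_eq hle hn hcl hK h7 hvK (by omega)]
    · exact ⟨w₀, fun h => absurd h hp⟩
  choose j hj using h1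
  refine card_le_card_of_injOn j ?_ ?_
  · intro i hi
    obtain ⟨-, h2, h3⟩ := hj i (mem_coe.1 hi)
    exact mem_coe.2 (mem_filter.2 ⟨mem_filter.2 ⟨mem_univ _, h2⟩, h3⟩)
  · intro i hi i' hi' hii
    obtain ⟨⟨S, h2, h3, h4⟩, h6, -⟩ := hj i (mem_coe.1 hi)
    obtain ⟨⟨S', h2', h3', h4'⟩, -, -⟩ := hj i' (mem_coe.1 hi')
    rw [← hii] at h3'
    have hKS : K ≠ S := by
      intro h
      rw [← h] at h4
      exact h4 hbK
    have hSS : S = S' := by
      rcases hK.two _ _ _ _ h6 h3 h3' with h | h | h
      · exact absurd h hKS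
      · rw [← h] at h4'
        exact absurd hbK h4'
      · exact h
    rw [h2, h2', hSS]

/-- the sum over the cells of one colour -/
theorem col_le {G G' : SimpleGraph V} {inc : V → C → Prop} (hle : G ≤ G') (hn : NewBig G G')
    (hcl : Closed G') (hK : Krausz G' inc) (hcut : NoSmallCut G')
    (hbig : ∀ v, ∃ K, Big inc K ∧ inc v K)
    (h5 : ∀ v, 5 ≤ (univ.filter fun w => G'.Adj v w).card) (hw : ∀ K : C, ∃ w, ¬ inc w K) (c : ℕ) :
    ∑ K ∈ univ.filter (fun K => (univ.filter fun i => Crosses (hyp inc i) {K}).card ≤ 4 ∧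
      col2 G G' inc K = c), min 2 (univ.filter fun i => K ∈ hyp inc i ∧
        (hyp inc i).card = 3).card ≤
    ∑ Q ∈ univ.filter (fun Q : Finset V => Q.card = 4 ∧ ∀ a ∈ Q, ∀ b ∈ Q, a ≠ b → G.Adj a b),
      min 2 (Q.filter fun v => Special G v ∧
        cc2 G ((L2 G).connectedComponentMk v) = c).card := by
  set S := (univ.filter (fun K => (univ.filter fun i => Crosses (hyp inc i) {K}).card ≤ 4 ∧
      col2 G G' inc K = c)).filter fun K => ∃ i, K ∈ hyp inc i ∧ (hyp inc i).card = 3 with hS
  have hmS : ∀ K ∈ S, Big inc K ∧ (univ.filter fun v => inc v K).card = 4 ∧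
      col2 G G' inc K = c := by
    intro K hKS
    obtain ⟨h1, i, h2, h3⟩ := mem_filter.1 hKS
    obtain ⟨-, h4, h6⟩ := mem_filter.1 h1
    have hbK : Big inc K := by
      rcases i with a | S
      · exact (mem_filter.1 h2).2.1
      · exact (mem_filter.1 h2).2.2.1
    obtain ⟨w, hw⟩ := hw K
    exact ⟨hbK, TSG.card_four hK hcut hbig hbK h4 hw, h6⟩
  have h1 : ∑ K ∈ univ.filter (fun K => (univ.filter fun i => Crosses (hyp inc i) {K}).card ≤ 4 ∧
      col2 G G' inc K = c), min 2 (univ.filter fun i => K ∈ hyp inc i ∧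
        (hyp inc i).card = 3).card =
      ∑ K ∈ S, min 2 (univ.filter fun i => K ∈ hyp inc i ∧ (hyp inc i).card = 3).card := by
    refine (sum_subset (filter_subset _ _) ?_).symm
    intro K hK1 hK2
    have h2 : (univ.filter fun i => K ∈ hyp inc i ∧ (hyp inc i).card = 3) = ∅ := by
      rw [filter_eq_empty_iff]
      intro i _ hi
      exact hK2 (mem_filter.2 ⟨hK1, i, hi⟩)
    rw [h2, card_empty]
    rfl
  rw [h1]
  have h2 : ∑ K ∈ S, min 2 (univ.filter fun i => K ∈ hyp inc i ∧ (hyp inc i).card = 3).card ≤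
      ∑ K ∈ S, min 2 ((univ.filter fun v => inc v K).filter fun v => Special G v ∧
        cc2 G ((L2 G).connectedComponentMk v) = c).card := by
    refine sum_le_sum fun K hKS => ?_
    obtain ⟨h3, h4, h6⟩ := hmS K hKS
    obtain ⟨w, -⟩ := hw K
    have h7 := tri_le hle hn hcl hK h5 (w₀ := w) h3 h4
    rw [h6] at h7
    exact min_le_min (le_refl 2) h7
  refine h2.trans ?_
  have h3 := Finset.sum_image (s := S) (g := fun K => univ.filter fun v => inc v K)
    (f := fun Q : Finset V => min 2 (Q.filter fun v => Special G v ∧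
        cc2 G ((L2 G).connectedComponentMk v) = c).card) (by
    intro K hK1 L hL1 hKL
    obtain ⟨-, h4, -⟩ := hmS K (mem_coe.1 hK1)
    obtain ⟨a, ha, b, hb, hab⟩ := one_lt_card.1 (by
      omega : 1 < (univ.filter fun v => inc v K).card)
    have hKL' : (univ.filter fun v => inc v K) = univ.filter fun v => inc v L := hKL
    have ha' := ha
    have hb' := hb
    rw [hKL'] at ha' hb'
    exact hK.uniq a b K L hab (mem_filter.1 ha).2 (mem_filter.1 hb).2 (mem_filter.1 ha').2
      (mem_filter.1 hb').2)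
  refine (le_of_eq h3.symm).trans (sum_le_sum_of_subset ?_)
  intro Q hQ
  obtain ⟨K, hKS, rfl⟩ := mem_image.1 hQ
  obtain ⟨-, h4, -⟩ := hmS K hKS
  refine mem_filter.2 ⟨mem_univ _, h4, ?_⟩
  intro a ha b hb hab
  exact adj_of_cell hn hcl hK (by omega) (by omega) (mem_filter.1 ha).2 (mem_filter.1 hb).2 hab

theorem relCol2T {G G' : SimpleGraph V} {inc : V → C → Prop} (hle : G ≤ G') (hn : NewBig G G')
    (hcl : Closed G') (hK : Krausz G' inc) (hcut : NoSmallCut G')
    (hbig : ∀ v, ∃ K, Big inc K ∧ inc v K)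
    (h5 : ∀ v, 5 ≤ (univ.filter fun w => G'.Adj v w).card) (hw : ∀ K : C, ∃ w, ¬ inc w K)
    (A : Set (L2 G).ConnectedComponent) (hs : Cost G A ≤ 5) : RelColT (hyp inc) := by
  have h4 : ∀ K : C, Big inc K → (univ.filter fun i => Crosses (hyp inc i) {K}).card ≤ 4 →
      (univ.filter fun v => inc v K).card = 4 := by
    intro K hbK hdeg
    obtain ⟨w, hw⟩ := hw K
    exact TSG.card_four hK hcut hbig hbK hdeg hw
  obtain ⟨A', hA'⟩ : ∃ A' : Set ℕ, ∀ n, n ∈ A' ↔ ∃ c ∈ A, cc2 G c = n :=
    ⟨{n | ∃ c ∈ A, cc2 G c = n}, fun _ => Iff.rfl⟩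
  refine ⟨col2 G G' inc, A', ?_, ?_⟩
  · intro i hi K hKi L hLi hdK hdL
    by_cases hKL : K = L
    · rw [hKL]
    rcases i with a | S
    · obtain ⟨-, hbK, haK⟩ := mem_filter.1 hKi
      obtain ⟨-, hbL, haL⟩ := mem_filter.1 hLi
      have h6 := TSG.deg_le (le_refl G') hK haK haL hKL
      have h7 := h4 K hbK hdK
      have h8 := h4 L hbL hdL
      rw [col2_eq hle hn hcl hK h7 haK (by omega), col2_eq hle hn hcl hK h8 haL (by omega)]
    · exfalso
      have hKi' := hKi
      have hLi' := hLi
      obtain ⟨-, hS, hbK, a, haS, haK⟩ := mem_filter.1 hKi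
      obtain ⟨-, -, hbL, b, hbS, hbL'⟩ := mem_filter.1 hLi
      have hKS : K ≠ S := by
        rintro rfl
        exact hS hbK
      have hLS : L ≠ S := by
        rintro rfl
        exact hS hbL
      have h6 := TSG.deg_le (le_refl G') hK haK haS hKS
      have h7 := h4 K hbK hdK
      have h10 := h5 a
      -- the small cell has a third vertex
      have hex : ∃ d, inc d S ∧ d ≠ a ∧ d ≠ b := by
        by_contra hno
        push Not at hno
        have h11 : (univ.filter fun v => inc v S) ⊆ {a, b} := by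
          intro d hd
          rw [mem_insert, mem_singleton]
          by_contra h
          push Not at h
          exact h.2 (hno d (mem_filter.1 hd).2 h.1)
        have h12 := card_le_card h11
        have h13 := card_le_two (a := a) (b := b)
        omega
      obtain ⟨d, hdS, hda, hdb⟩ := hex
      obtain ⟨M, hbM, hdM⟩ := hbig d
      have hMi : M ∈ hyp inc (Sum.inr S) := mem_filter.2 ⟨mem_univ _, hS, hbM, d, hdS, hdM⟩
      have hMK : M ≠ K := by
        rintro rfl
        exact hKS (hK.uniq a d M S hda.symm haK hdM haS hdS)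
      have hML : M ≠ L := by
        rintro rfl
        exact hLS (hK.uniq b d M S hdb.symm hbL' hdM hbS hdS)
      have h14 : 2 < (hyp inc (Sum.inr S)).card :=
        Finset.two_lt_card.2 ⟨K, hKi', L, hLi', M, hMi, hKL, hMK.symm, hML.symm⟩
      omega
  · refine le_trans ?_ hs
    unfold Cost
    refine Nat.add_le_add ?_ ?_
    · have hcell : ∀ i : V ⊕ C, ((hyp inc i).card = 3 ∧ ∃ K ∈ hyp inc i,
          (univ.filter fun i => Crosses (hyp inc i) {K}).card ≤ 4 ∧
            col2 G G' inc K ∈ A') →
          ∃ S, i = Sum.inr S ∧ TriOf G A (univ.filter fun w => inc w S) := by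
        rintro i ⟨hi, K, hKi, hdK, hKA⟩
        obtain ⟨c, hcA, hc⟩ := (hA' _).1 hKA
        rcases i with a | S
        · have := MS.inl_card hK a
          omega
        obtain ⟨-, hS, hbK, v, hvS, hvK⟩ := mem_filter.1 hKi
        have hKS : K ≠ S := by
          rintro rfl
          exact hS hbK
        have h6 := TSG.deg_le (le_refl G') hK hvK hvS hKS
        have h7 := h4 K hbK hdK
        have h9 := C1x.small_card hS
        have h10 := h5 v
        have hS3 : (univ.filter fun w => inc w S).card = 3 := by omega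
        refine ⟨S, rfl, hS3, ?_, ?_, v, mem_filter.2 ⟨mem_univ _, hvS⟩,
          special_of hle hn hcl hK h7 hS3 hvK hvS, ?_⟩
        · intro a ha b hb hab
          exact adj_of_cell hn hcl hK (by omega) (by omega) (mem_filter.1 ha).2
            (mem_filter.1 hb).2 hab
        · intro w hwS a ha b hb hab hwa hwb
          have h11 := (cn_cell hcl hK (by omega) (mem_filter.1 ha).2 (mem_filter.1 hb).2 hab w).1
            ⟨(hle hwa).symm, (hle hwb).symm⟩
          exact hwS (mem_filter.2 ⟨mem_univ _, h11.1⟩)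
        · have h12 := col2_eq hle hn hcl hK h7 hvK (by omega)
          have h13 : c = (L2 G).connectedComponentMk v := cc2_inj G (hc.trans h12)
          rw [← h13]
          exact hcA
      have hT : {T : Finset V | TriOf G A T} =
          ((univ.filter fun T : Finset V => TriOf G A T : Finset (Finset V)) :
            Set (Finset V)) := by
        ext T
        simp
      rw [hT, Set.ncard_coe_finset]
      refine card_le_card_of_injOn
        (Sum.elim (fun _ => (∅ : Finset V)) fun S => univ.filter fun w => inc w S) ?_ ?_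
      · intro i hi
        obtain ⟨S, rfl, hS⟩ := hcell i (mem_filter.1 (mem_coe.1 hi)).2
        exact mem_coe.2 (mem_filter.2 ⟨mem_univ _, hS⟩)
      · intro i hi j hj hij
        obtain ⟨S, rfl, hS⟩ := hcell i (mem_filter.1 (mem_coe.1 hi)).2
        obtain ⟨S', rfl, hS'⟩ := hcell j (mem_filter.1 (mem_coe.1 hj)).2
        have hij' : (univ.filter fun w => inc w S) = univ.filter fun w => inc w S' := hij
        obtain ⟨a, ha, b, hb, hab⟩ := one_lt_card.1 (by
          have := hS.1
          omega : 1 < (univ.filter fun w => inc w S).card)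
        have ha' := ha
        have hb' := hb
        rw [hij'] at ha' hb'
        rw [hK.uniq a b S S' hab (mem_filter.1 ha).2 (mem_filter.1 hb).2 (mem_filter.1 ha').2
          (mem_filter.1 hb').2]
    · refine (sum_le_sum fun c _ => Nat.div_le_div_right
        (col_le hle hn hcl hK hcut hbig h5 hw c)).trans ?_
      have h7 : ∑ c ∈ (univ.image (col2 G G' inc)).filter (fun n => n ∉ A'),
          (∑ Q ∈ univ.filter (fun Q : Finset V => Q.card = 4 ∧
            ∀ a ∈ Q, ∀ b ∈ Q, a ≠ b → G.Adj a b), min 2 (Q.filter fun v => Special G v ∧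
            cc2 G ((L2 G).connectedComponentMk v) = c).card) / 2 ≤
          ∑ c ∈ ((univ.image (L2 G).connectedComponentMk).filter (fun c => c ∉ A)).image (cc2 G),
          (∑ Q ∈ univ.filter (fun Q : Finset V => Q.card = 4 ∧
            ∀ a ∈ Q, ∀ b ∈ Q, a ≠ b → G.Adj a b), min 2 (Q.filter fun v => Special G v ∧
            cc2 G ((L2 G).connectedComponentMk v) = c).card) / 2 := by
        refine sum_le_sum_of_ne_zero ?_
        intro c hcm hc
        have h8 : ∑ Q ∈ univ.filter (fun Q : Finset V => Q.card = 4 ∧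
            ∀ a ∈ Q, ∀ b ∈ Q, a ≠ b → G.Adj a b), min 2 (Q.filter fun v => Special G v ∧
            cc2 G ((L2 G).connectedComponentMk v) = c).card ≠ 0 := by
          intro h
          rw [h] at hc
          exact hc rfl
        obtain ⟨Q, -, hQ⟩ := Finset.exists_ne_zero_of_sum_ne_zero h8
        have h9 : 0 < (Q.filter fun v => Special G v ∧
            cc2 G ((L2 G).connectedComponentMk v) = c).card := by
          by_contra h
          have h10 : (Q.filter fun v => Special G v ∧
            cc2 G ((L2 G).connectedComponentMk v) = c).card = 0 := by omega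
          rw [h10] at hQ
          exact hQ rfl
        obtain ⟨v, hv⟩ := card_pos.1 h9
        obtain ⟨-, -, hv2⟩ := mem_filter.1 hv
        refine mem_image.2 ⟨(L2 G).connectedComponentMk v,
          mem_filter.2 ⟨mem_image_of_mem _ (mem_univ v), fun hA => ?_⟩, hv2⟩
        exact (mem_filter.1 hcm).2 ((hA' _).2 ⟨_, hA, hv2⟩)
      refine h7.trans (le_of_eq ?_)
      rw [sum_image fun _ _ _ _ h => cc2_inj G h]
      refine sum_congr rfl fun c _ => ?_
      unfold kk
      congr 1
      refine sum_congr rfl fun Q _ => ?_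
      congr 2
      refine filter_congr fun v _ => ?_
      constructor
      · rintro ⟨h1, h2⟩
        exact ⟨h1, cc2_inj G h2⟩
      · rintro ⟨h1, h2⟩
        exact ⟨h1, by rw [h2]⟩

end

/-- **The graph side** -/
theorem mainCost (hS : RowSplit) (hD : RowElimD) (hE : RowElimE) (hM : RowMono) (V : Type)
    [Fintype V] [DecidableEq V] (G : SimpleGraph V)
    (hN : NoSmallCut G) (h3 : 3 ≤ Fintype.card V) (hclaw : ClawFree G)
    (A : Set (L2 G).ConnectedComponent) (hsep : Cost G A ≤ 5) : G.IsHamiltonian := by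
  by_cases hcompG : ∀ u v, u ≠ v → G.Adj u v
  · exact rowE5 V G (ham_of_complete G h3 hcompG)
  push Not at hcompG
  have h5 : ∀ v, 5 ≤ (univ.filter fun w => G.Adj v w).card := five_le_deg hN hcompG
  obtain ⟨G', hle, hcf, hcl, hham, hn⟩ := closure G hclaw fun v => by
    rw [ncard_nbr]
    exact h5 v
  refine rowE5 V G (hham ?_)
  have hN' : NoSmallCut G' := by
    intro S A C h1 h2 h4 h5 h6 h7 h8
    exact hN S A C h1 h2 h4 h5 h6 h7 fun a ha c hc hac => h8 a ha c hc (hle hac)
  by_cases hcomp : ∀ u v, u ≠ v → G'.Adj u v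
  · exact ham_of_complete G' h3 hcomp
  push Not at hcomp
  have hiso : ∀ v, ∃ w, G'.Adj v w := by
    intro v
    have h6 := h5 v
    obtain ⟨w, hw⟩ := card_pos.1 (show 0 < (univ.filter fun w => G.Adj v w).card by omega)
    exact ⟨w, hle (mem_filter.1 hw).2⟩
  obtain ⟨C, _, inc, hK⟩ := D3.rowD3 V G' hcf hcl hiso
  have hbig := rowc0 V C G' inc hK hN' hcomp
  obtain ⟨hr, hfour⟩ := rowc1 V C G' inc hK hN' hbig
  have hw : ∀ K : C, ∃ w, ¬ inc w K := by
    intro K
    by_contra hno
    push Not at hno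
    obtain ⟨u, v, huv, hadj⟩ := hcomp
    exact hadj ((hK.adj_iff u v).2 ⟨huv, K, hno u, hno v⟩)
  have heven := rowh5T hS hD hE hM C (V ⊕ C) (bigs inc) (Pool.Agent.ClawHam.hyp inc) hr hfour
    (rowc5 V C G' inc hK hN' hbig)
    (relCol2T hle hn hcl hK hN' hbig (five_le_deg hN' hcomp) hw A hsep)
  have htwo : 2 ≤ (bigs inc).card := by
    by_contra hlt
    obtain ⟨u, v, huv, hadj⟩ := hcomp
    obtain ⟨K, hK1, hK2⟩ := hbig u
    obtain ⟨L, hL1, hL2⟩ := hbig v
    have hKL : K = L := by
      have h1 : (bigs inc).card ≤ 1 := by omega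
      rw [card_le_one] at h1
      exact h1 K (by simp [bigs, hK1]) L (by simp [bigs, hL1])
    exact hadj ((hK.adj_iff u v).2 ⟨huv, K, hK2, by rw [hKL]; exact hL2⟩)
  obtain ⟨F, hF⟩ := rowe1 V C G' inc hK hbig htwo heven
  obtain ⟨σ, hσ1, hσ2⟩ := rowe3 V C inc F hK.two hF (rowe2 V C inc F hK.two hK.ex hF.two hF.even)
  exact E4.rowE4 V G' σ h3 hσ1 fun v hv => (hK.adj_iff v (σ v)).2 ⟨hv, hσ2 v⟩

end SPT

end Pool.Agent.ClawHam
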