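import Pool.Agent.Lib.MP_e2dbb5_co.SP_BaseW

/-!
# Separated vertices of degree five: all eliminations (helper24, row ALL)
-/

set_option autoImplicit false
set_option linter.unusedSectionVars false

open Finset

noncomputable section

namespace Pool.Agent.ClawHam

open Classical

namespace SP

/-- **Row ALL** -/
theorem rowAll (hW : RowBaseW) (hS : RowStep) (hB : RowBase) : RowAll := by
  intro V _ B₀ W h κ hSy hne
  suffices key : ∀ n : ℕ, ∀ (B₀ : Finset V) (h : Multiset (Finset V)), B₀.card = n →
      Sy B₀ W h κ → B₀.Nonempty → AlgM B₀ h from key _ B₀ h rfl hSy hne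
  intro n
  induction n with
  | zero =>
    intro B₀ h hn _ hne
    exact absurd hn (card_pos.2 hne).ne'
  | succ n ih =>
    intro B₀ h hn hSy hne
    by_cases hv : ∃ v ∈ B₀, v ∉ W
    · obtain ⟨v, hv, hvW⟩ := hv
      by_cases hBv : B₀ = {v}
      · refine ⟨h.map fun _ => 0, ?_, ?_⟩
        · have h5 : Multiset.Rel InE (h.map id) (h.map fun _ => (0 : El V)) := by
            rw [Multiset.rel_map]
            exact Multiset.rel_refl_of_refl_on fun e _ => BaseW.zero_InE e
          rwa [Multiset.map_id] at h5
        · rw [hBv]
          exact hB V v _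
      · obtain ⟨h', hSy', himp⟩ := hS V B₀ W h κ v hSy hv hvW hBv
        have h1 : (B₀.erase v).card = n := by rw [card_erase_of_mem hv, hn]; rfl
        refine himp (ih (B₀.erase v) h' h1 hSy' ?_)
        rw [nonempty_iff_ne_empty]
        intro h2
        apply hBv
        refine subset_antisymm ?_ (singleton_subset_iff.2 hv)
        intro w hw
        rw [mem_singleton]
        by_contra hwv
        have h3 : w ∈ B₀.erase v := mem_erase.2 ⟨hwv, hw⟩
        rw [h2] at h3
        exact absurd h3 (notMem_empty w)
    · push Not at hv
      have hBW : B₀ = W := subset_antisymm hv hSy.wsub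
      refine hW V B₀ h hne hSy.sub fun X hX hX0 hX1 => ?_
      have h1 := hSy.req X hX hX0 hX1
      have h2 : Sepr W X := by
        refine ⟨?_, ?_⟩
        · obtain ⟨w, hw⟩ := hX0
          exact ⟨w, hv w (hX hw), hw⟩
        · by_contra h3
          push Not at h3
          apply hX1
          refine subset_antisymm hX fun w hw => h3 w (hv w hw)
      unfold rq at h1
      rwa [if_pos h2] at h1

end SP

end Pool.Agent.ClawHam
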