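import Pool.Agent.Lib.MP_e2dbb5_co.SPP0
import Pool.Agent.Lib.MP_e2dbb5_co.SP_BASE

/-!
# SEP+ : the base (helper32, after helper79 and helper16)
-/

set_option autoImplicit false
set_option linter.unusedSectionVars false

open Finset

noncomputable section

namespace Pool.Agent.ClawHam

open Classical

namespace SP

open BaseW Base0 in
theorem rowBaseP (hF : RowFiveP) : RowBaseP := by
  intro V _ B₀ W h hB hsub hW hcut hfive
  set h₂ := h.filter fun e => 2 ≤ e.card with hh₂
  set h₁ := h.filter fun e => ¬ 2 ≤ e.card with hh₁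
  have hsum : h₂ + h₁ = h := Multiset.filter_add_not _ _
  set l := h₂.toList with hl
  have hlh : (univ : Finset (Fin l.length)).val.map (fun i => l.get i) = h₂ := by
    rw [Fin.univ_val_map, List.ofFn_get, hl, Multiset.coe_toList]
  have hmem : ∀ i, l.get i ∈ h₂ := by
    intro i
    rw [← Multiset.mem_toList, ← hl]
    exact List.get_mem _ _
  set emb : {b // b ∈ B₀} ↪ V := Function.Embedding.subtype _ with hemb
  set e' : Fin l.length → Finset {b // b ∈ B₀} := fun i => (l.get i).subtype (· ∈ B₀) with he'
  have hle : ∀ i, l.get i ⊆ B₀ := fun i => (hsub _ (Multiset.mem_filter.1 (hmem i)).1).1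
  have hcard : ∀ i, (e' i).card = (l.get i).card := by
    intro i
    rw [he']
    simp only
    rw [card_subtype, filter_true_of_mem]
    intro x hx
    exact hle i hx
  have h23 : ∀ i, (l.get i).card = 2 ∨ (l.get i).card = 3 := by
    intro i
    have h1 := (Multiset.mem_filter.1 (hmem i)).2
    have h2 := (hsub _ (Multiset.mem_filter.1 (hmem i)).1).2
    omega
  have hcr : ∀ (X : Finset {b // b ∈ B₀}) i, Crosses (l.get i) (X.map emb) → Crosses (e' i) X := by
    rintro X i ⟨⟨a, ha, haX⟩, b, hb, hbX⟩
    obtain ⟨a', ha', rfl⟩ := mem_map.1 haX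
    refine ⟨⟨a', mem_subtype.2 ha, ha'⟩, ⟨b, hle i hb⟩, mem_subtype.2 hb, fun h => ?_⟩
    exact hbX (mem_map.2 ⟨_, h, rfl⟩)
  set W' : Finset {b // b ∈ B₀} := W.subtype (· ∈ B₀) with hW'
  have hWcard : (univ \ W').card = (B₀ \ W).card := by
    have h1 : (univ \ W').map emb = B₀ \ W := by
      ext b
      rw [mem_map, mem_sdiff]
      constructor
      · rintro ⟨c, hc, rfl⟩
        rw [mem_sdiff] at hc
        exact ⟨c.2, fun h => hc.2 (mem_subtype.2 h)⟩
      · rintro ⟨hb, hbW⟩
        exact ⟨⟨b, hb⟩, mem_sdiff.2 ⟨mem_univ _, fun h => hbW (mem_subtype.1 h)⟩, rfl⟩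
    rw [← h1, card_map]
  have hrq : ∀ X : Finset {b // b ∈ B₀}, rq W' X ≤ rq W (X.map emb) := by
    intro X
    unfold rq
    have h1 : Sepr W' X → Sepr W (X.map emb) := by
      rintro ⟨⟨w, hw, hwX⟩, u, hu, huX⟩
      exact ⟨⟨emb w, mem_subtype.1 hw, mem_map_of_mem _ hwX⟩, emb u, mem_subtype.1 hu,
        fun h => huX ((mem_map' emb).1 h)⟩
    by_cases h2 : Sepr W' X
    · rw [if_pos h2, if_pos (h1 h2)]
    · rw [if_neg h2]
      split_ifs <;> omega
  have : Nonempty {b // b ∈ B₀} := by
    obtain ⟨b, hb⟩ := hB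
    exact ⟨⟨b, hb⟩⟩
  have hC : CertK e' := by
    refine hF _ _ e' W' ?_ (le_trans (le_of_eq (by
      congr
      exact Subsingleton.elim _ _)) (hWcard.trans_le hfive)) ?_
    · intro i
      rw [hcard]
      exact h23 i
    · intro X hX hX'
      have h1 := hcut (X.map emb) (by
        intro b hb
        obtain ⟨c, _, rfl⟩ := mem_map.1 hb
        exact c.2) (by
        obtain ⟨c, hc⟩ := hX
        exact ⟨emb c, mem_map_of_mem _ hc⟩) (by
        intro h
        apply hX'
        rw [eq_univ_iff_forall]
        intro c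
        have h2 : emb c ∈ X.map emb := by
          rw [h]
          exact c.2
        exact (mem_map' emb).1 h2)
      refine (hrq X).trans (h1.trans ?_)
      unfold ct
      have h2 : h.countP (fun e => Crosses e (X.map emb)) =
          h₂.countP (fun e => Crosses e (X.map emb)) := by
        rw [← hsum, Multiset.countP_add]
        have h3 : h₁.countP (fun e => Crosses e (X.map emb)) = 0 := by
          rw [Multiset.countP_eq_zero]
          intro e he hce
          exact (Multiset.mem_filter.1 he).2 (crosses_card hce)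
        omega
      rw [h2, ← hlh, Multiset.countP_map]
      have h4 : (Multiset.filter (fun i => Crosses (l.get i) (X.map emb))
          (univ : Finset (Fin l.length)).val).card =
          (univ.filter fun i => Crosses (l.get i) (X.map emb)).card := rfl
      rw [h4]
      refine card_le_card ?_
      intro i hi
      exact mem_filter.2 ⟨mem_univ _, hcr X i (mem_filter.1 hi).2⟩
  choose P hP using fun i => GK.exists_elOf (l.get i) (h23 i)
  have himg : ∀ i, (e' i).image (Subtype.val : {b // b ∈ B₀} → V) = l.get i := by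
    intro i
    ext w
    rw [mem_image]
    constructor
    · rintro ⟨b, hb, rfl⟩
      exact mem_subtype.1 hb
    · intro hw
      exact ⟨⟨w, hle i hw⟩, mem_subtype.2 hw, rfl⟩
  have huniv : (univ : Finset {b // b ∈ B₀}).image (Subtype.val : {b // b ∈ B₀} → V) = B₀ := by
    ext w
    rw [mem_image]
    constructor
    · rintro ⟨b, _, rfl⟩
      exact b.2
    · intro hw
      exact ⟨⟨w, hw⟩, mem_univ _, rfl⟩
  have hA := GK.algE_of_certK_emb (Subtype.val : {b // b ∈ B₀} → V) Subtype.val_injective e' P
    (fun i => by rw [himg]; exact hP i) hC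
  rw [huniv] at hA
  refine ⟨_, ?_, algE_add (s' := h₁.map fun _ => 0) hA⟩
  rw [← hsum]
  refine Multiset.Rel.add ?_ ?_
  · rw [← hlh, Multiset.rel_map]
    exact Multiset.rel_refl_of_refl_on fun i _ => inE_of_elOf (hP i)
  · have h5 : Multiset.Rel InE (h₁.map id) (h₁.map fun _ => (0 : El V)) := by
      rw [Multiset.rel_map]
      exact Multiset.rel_refl_of_refl_on fun e _ => zero_InE e
    rwa [Multiset.map_id] at h5

end SP

end Pool.Agent.ClawHam
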