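import Pool.Agent.Lib.MP_e2dbb5_co.SPphi

/-!
# Two cases in which `Phi G` is at most five (helper79)
-/

set_option autoImplicit false

open Finset

noncomputable section

namespace Pool.Agent.ClawHam

open Classical

namespace SP

/-- at most eleven vertices of degree five -/
theorem phi_of_eleven {V : Type} [Fintype V] (G : SimpleGraph V)
    (h : {v : V | (G.neighborSet v).ncard = 5}.ncard ≤ 11) : Phi G ≤ 5 := by
  unfold Phi
  refine (sum_div_le_div_sum _ _).trans ?_
  have h1 : ∑ c ∈ univ.image (low G).connectedComponentMk, kc G c =
      (univ.filter fun v => (G.neighborSet v).ncard = 5).card := by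
    rw [Finset.card_eq_sum_card_fiberwise (f := (low G).connectedComponentMk)
      (t := univ.image (low G).connectedComponentMk)
      (fun v _ => Finset.mem_coe.2 (Finset.mem_image_of_mem _ (Finset.mem_univ v)))]
    refine Finset.sum_congr rfl fun c _ => ?_
    unfold kc
    rw [Finset.filter_filter]
  rw [h1]
  have h2 : {v : V | (G.neighborSet v).ncard = 5} =
      ((univ.filter fun v => (G.neighborSet v).ncard = 5 : Finset V) : Set V) := by
    ext v
    simp
  rw [h2, Set.ncard_coe_finset] at h
  omega

/-- the sum of the degrees of any two adjacent vertices is at least twelve -/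
theorem phi_of_sum {V : Type} [Fintype V] (G : SimpleGraph V)
    (h : ∀ u w : V, G.Adj u w → 12 ≤ (G.neighborSet u).ncard + (G.neighborSet w).ncard) :
    Phi G ≤ 5 := by
  unfold Phi
  have h1 : ∑ c ∈ univ.image (low G).connectedComponentMk, kc G c / 2 = 0 := by
    refine Finset.sum_eq_zero fun c _ => ?_
    have h2 : kc G c ≤ 1 := by
      unfold kc
      rw [Finset.card_le_one]
      intro u hu w hw
      obtain ⟨-, hu5, huc⟩ := Finset.mem_filter.1 hu
      obtain ⟨-, hw5, hwc⟩ := Finset.mem_filter.1 hw
      by_contra huw
      have h3 : (low G).Reachable u w := SimpleGraph.ConnectedComponent.exact (huc.trans hwc.symm)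
      obtain ⟨p⟩ := h3
      cases p with
      | nil => exact huw rfl
      | cons hadj _ =>
        have h4 := h _ _ hadj.1
        have h5 := hadj.2.2
        omega
    omega
  omega

end SP

end Pool.Agent.ClawHam
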