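import Pool.Agent.Lib.MP_e2dbb5_co.TS0

/-!
# Among any three vertices of degree five two are adjacent: at most six bad spots (helper79)
-/

set_option autoImplicit false

open Finset

noncomputable section

namespace Pool.Agent.ClawHam

open Classical

namespace SP

/-- the vertex `v` shows that `Q` is a bad spot -/
def At {V : Type} (G : SimpleGraph V) (Q : Finset V) (v : V) : Prop :=
  Q.card = 4 ∧ (∀ a ∈ Q, ∀ b ∈ Q, a ≠ b → G.Adj a b) ∧ v ∈ Q ∧ ∃ y z, y ∉ Q ∧ z ∉ Q ∧
    G.Adj y z ∧ (∀ w, G.Adj v w ↔ (w ∈ Q ∧ w ≠ v) ∨ w = y ∨ w = z) ∧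
    ∀ a ∈ Q, a ≠ v → ¬ G.Adj a y ∧ ¬ G.Adj a z

/-- a clique of four vertices which contains `v` is the only spot of `v` -/
theorem at_unique {V : Type} {G : SimpleGraph V} {Q Q' : Finset V} {v : V} (h1 : Q.card = 4)
    (h2 : ∀ a ∈ Q, ∀ b ∈ Q, a ≠ b → G.Adj a b) (h3 : v ∈ Q) (h' : At G Q' v) : Q = Q' := by
  obtain ⟨h1', h2', h3', y', z', hy', hz', hyz', h4', h5'⟩ := h'
  refine eq_of_subset_of_card_le ?_ (by omega)
  obtain ⟨b, hb⟩ : (Q \ {v, y', z'}).Nonempty := by
    rw [← card_pos]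
    have h6 : ({v, y', z'} : Finset V).card ≤ 3 := card_le_three
    have h7 := le_card_sdiff ({v, y', z'} : Finset V) Q
    omega
  simp only [mem_sdiff, mem_insert, mem_singleton, not_or] at hb
  obtain ⟨hbQ, hbv, hby, hbz⟩ := hb
  have hbQ' : b ∈ Q' := by
    rcases (h4' b).1 (h2 v h3 b hbQ (Ne.symm hbv)) with h | h | h
    · exact h.1
    · exact absurd h hby
    · exact absurd h hbz
  intro a ha
  by_cases hav : a = v
  · rw [hav]
    exact h3'
  rcases (h4' a).1 (h2 v h3 a ha (Ne.symm hav)) with h | h | h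
  · exact h.1
  · exact absurd (h2 b hbQ a ha (by rw [h]; exact hby)) (by rw [h]; exact (h5' b hbQ' hbv).1)
  · exact absurd (h2 b hbQ a ha (by rw [h]; exact hbz)) (by rw [h]; exact (h5' b hbQ' hbv).2)

theorem at_degree {V : Type} [Fintype V] {G : SimpleGraph V} {Q : Finset V} {v : V}
    (h : At G Q v) : (G.neighborSet v).ncard = 5 := by
  obtain ⟨h1, h2, h3, y, z, hy, hz, hyz, h4, h5⟩ := h
  have h6 : G.neighborSet v = ((insert y (insert z (Q.erase v)) : Finset V) : Set V) := by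
    ext w
    simp only [SimpleGraph.mem_neighborSet, coe_insert, coe_erase, Set.mem_insert_iff,
      Set.mem_sdiff, mem_coe, Set.mem_singleton_iff]
    rw [h4 w]
    tauto
  rw [h6, Set.ncard_coe_finset, card_insert_of_notMem, card_insert_of_notMem,
    card_erase_of_mem h3, h1]
  · exact fun h => hz (mem_erase.1 h).2
  · rw [mem_insert]
    rintro (h | h)
    · exact hyz.ne h
    · exact hy (mem_erase.1 h).2

/-- The bad spots have different vertices of degree five, each of which is adjacent to at most two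
of the others. -/
theorem spots_witness {V : Type} [Fintype V] (G : SimpleGraph V) :
    ∃ D : Finset V, D.card = (univ.filter fun Q : Finset V => TS.BadSpot G Q).card ∧
      (∀ v ∈ D, (G.neighborSet v).ncard = 5) ∧
      ∀ v ∈ D, (D.filter fun u => G.Adj v u).card ≤ 2 := by
  by_cases hne : Nonempty V
  swap
  · refine ⟨∅, ?_, by simp, by simp⟩
    rw [card_empty, eq_comm, card_eq_zero, filter_eq_empty_iff]
    rintro Q - ⟨-, -, v, -, -⟩
    exact hne ⟨v⟩
  obtain ⟨v₀⟩ := hne
  have hex : ∀ Q : Finset V, ∃ v, TS.BadSpot G Q → At G Q v := by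
    intro Q
    by_cases hQ : TS.BadSpot G Q
    · obtain ⟨h1, h2, v, h3, y, z, h4, h5, h6, h7, h8, -⟩ := hQ
      exact ⟨v, fun _ => ⟨h1, h2, h3, y, z, h4, h5, h6, h7, h8⟩⟩
    · exact ⟨v₀, fun h => absurd h hQ⟩
  choose g hg using hex
  refine ⟨(univ.filter fun Q : Finset V => TS.BadSpot G Q).image g, ?_, ?_, ?_⟩
  · refine card_image_of_injOn ?_
    intro Q hQ Q' hQ' h
    have h1 := hg Q (by simpa using hQ)
    have h2 := hg Q' (by simpa using hQ')
    rw [← show g Q = g Q' from h] at h2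
    exact at_unique h1.1 h1.2.1 h1.2.2.1 h2
  · intro v hv
    obtain ⟨Q, hQ, rfl⟩ := mem_image.1 hv
    exact at_degree (hg Q (mem_filter.1 hQ).2)
  · intro v hv
    obtain ⟨Q, hQ, rfl⟩ := mem_image.1 hv
    obtain ⟨h1, h2, h3, y, z, hy, hz, hyz, h4, h5⟩ := hg Q (mem_filter.1 hQ).2
    refine le_trans (card_le_card (t := {y, z}) ?_) card_le_two
    intro u hu
    obtain ⟨huD, hadj⟩ := mem_filter.1 hu
    rw [mem_insert, mem_singleton]
    rcases (h4 u).1 hadj with h | h
    · exfalso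
      obtain ⟨Q', hQ', rfl⟩ := mem_image.1 huD
      have h6 := at_unique h1 h2 h.1 (hg Q' (mem_filter.1 hQ').2)
      exact h.2 (by rw [h6])
    · exact h

/-- if any three vertices of degree five span an edge, then there are at most six bad spots -/
theorem spots_of_three {V : Type} [Fintype V] (G : SimpleGraph V)
    (h : ∀ u v w : V, u ≠ v → u ≠ w → v ≠ w → (G.neighborSet u).ncard = 5 →
        (G.neighborSet v).ncard = 5 → (G.neighborSet w).ncard = 5 →
        G.Adj u v ∨ G.Adj u w ∨ G.Adj v w) :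
    (univ.filter fun Q : Finset V => TS.BadSpot G Q).card ≤ 6 := by
  obtain ⟨D, hD, hD5, hD2⟩ := spots_witness G
  by_contra hlt
  push Not at hlt
  rw [← hD] at hlt
  obtain ⟨u, hu⟩ : D.Nonempty := card_pos.1 (by omega)
  have hu2 := hD2 u hu
  have hcut1 : ∀ E : Finset V, E ⊆ D → ∀ x ∈ D,
      E.card ≤ (E.filter fun v => v ≠ x ∧ ¬ G.Adj x v).card + 3 := by
    intro E hE x hx
    have h1 : E ⊆ (E.filter fun v => v ≠ x ∧ ¬ G.Adj x v) ∪
        (insert x (D.filter fun v => G.Adj x v)) := by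
      intro v hv
      rw [mem_union, mem_filter, mem_insert, mem_filter]
      by_cases h1 : v = x
      · exact Or.inr (Or.inl h1)
      by_cases h2 : G.Adj x v
      · exact Or.inr (Or.inr ⟨hE hv, h2⟩)
      · exact Or.inl ⟨hv, h1, h2⟩
    have h2 := le_trans (card_le_card h1) (card_union_le _ _)
    have h3 := card_insert_le x (D.filter fun v => G.Adj x v)
    have h4 := hD2 x hx
    omega
  have h1 := hcut1 D (Subset.refl _) u hu
  set E := D.filter fun v => v ≠ u ∧ ¬ G.Adj u v with hE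
  obtain ⟨v, hv⟩ : E.Nonempty := card_pos.1 (by omega)
  have hED : E ⊆ D := filter_subset _ _
  have h2 := hcut1 E hED v (hED hv)
  obtain ⟨w, hw⟩ : (E.filter fun w => w ≠ v ∧ ¬ G.Adj v w).Nonempty := card_pos.1 (by omega)
  obtain ⟨hwE, hwv, hvw⟩ := mem_filter.1 hw
  obtain ⟨hvD, hvu, huv⟩ := mem_filter.1 hv
  obtain ⟨hwD, hwu, huw⟩ := mem_filter.1 hwE
  rcases h u v w (Ne.symm hvu) (Ne.symm hwu) (Ne.symm hwv) (hD5 u hu) (hD5 v hvD)
    (hD5 w hwD) with h | h | h
  · exact huv h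
  · exact huw h
  · exact hvw h

end SP

end Pool.Agent.ClawHam
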