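import Pool.Agent.Lib.MP_e2dbb5_co.SK_ALL
import Pool.Agent.Lib.MP_e2dbb5_co.SK_CNT
import Pool.Agent.Lib.MP_e2dbb5_co.SP0

/-!
# All cuts have at least five hyperedges: there is a certificate (SEP, row SP3, helper16)
-/

set_option autoImplicit false

open Finset

noncomputable section

namespace Pool.Agent.ClawHam

open Classical

/-- if all cuts have at least five hyperedges then there is a certificate -/
theorem sp3 {B I : Type} [Fintype B] [Nonempty B] [Fintype I] (e : I → Finset B)
    (he : ∀ i, (e i).card = 2 ∨ (e i).card = 3)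
    (h5 : ∀ X : Finset B, X.Nonempty → X ≠ univ →
      5 ≤ (univ.filter fun i => Crosses (e i) X).card) : CertK e := by
  rcases Sk.skel B I e he with h | ⟨p, R, hleg, hR, hT, hL, hN⟩
  · exact h
  exfalso
  obtain ⟨J, h1, h2, h3⟩ := Sk.cnt B I e p he hleg R hR hT hL hN
  set N := Fintype.card (Quotient R) with hNdef
  have hN2 : 2 ≤ N := by
    by_contra hlt
    apply hR
    rw [eq_top_iff]
    intro x y _
    exact Quotient.exact (Fintype.card_le_one_iff.1 (by omega) (Quotient.mk R x)
      (Quotient.mk R y))
  set cls : Quotient R → Finset B := fun q => univ.filter fun x => Quotient.mk R x = q with hcls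
  have hcl : ∀ q x, x ∈ cls q ↔ Quotient.mk R x = q := fun q x => by simp [hcls]
  -- every class is a cut
  have hq5 : ∀ q, 5 ≤ (univ.filter fun i => Crosses (e i) (cls q)).card := by
    intro q
    refine h5 _ ?_ ?_
    · obtain ⟨x, hx⟩ := Quotient.exists_rep q
      exact ⟨x, (hcl q x).2 hx⟩
    · intro hu
      have h4 : ∀ q' : Quotient R, q' = q := by
        intro q'
        obtain ⟨x, rfl⟩ := Quotient.exists_rep q'
        exact (hcl q x).1 (by rw [hu]; exact mem_univ x)
      have h6 : Fintype.card (Quotient R) ≤ 1 :=
        Fintype.card_le_one_iff.2 fun a b => (h4 a).trans (h4 b).symm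
      omega
  set c : I → ℕ := fun i => ((e i).image (Quotient.mk R)).card with hc
  have hc3 : ∀ i, c i ≤ 3 := by
    intro i
    have := Finset.card_image_le (s := e i) (f := Quotient.mk R)
    rcases he i with h | h <;> simp only [hc] <;> omega
  have hi : ∀ i, (univ.filter fun q => Crosses (e i) (cls q)).card ≤
      2 * (if c i = 2 then 1 else 0) + 3 * (if c i = 3 then 1 else 0) := by
    intro i
    have hsub : (univ.filter fun q => Crosses (e i) (cls q)) ⊆ (e i).image (Quotient.mk R) := by
      intro q hq
      obtain ⟨⟨a, ha, haq⟩, -⟩ := (mem_filter.1 hq).2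
      exact mem_image.2 ⟨a, ha, (hcl q a).1 haq⟩
    have hle := card_le_card hsub
    by_cases h0 : (univ.filter fun q => Crosses (e i) (cls q)) = ∅
    · rw [h0]
      simp
    · obtain ⟨q, hq⟩ := nonempty_iff_ne_empty.2 h0
      obtain ⟨⟨a, ha, haq⟩, b, hb, hbq⟩ := (mem_filter.1 hq).2
      have h2c : 2 ≤ c i := by
        have h7 : 1 < c i := by
          rw [hc]
          simp only
          rw [one_lt_card]
          refine ⟨Quotient.mk R a, mem_image_of_mem _ ha, Quotient.mk R b, mem_image_of_mem _ hb,
            ?_⟩
          rw [(hcl q a).1 haq]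
          intro h
          exact hbq ((hcl q b).2 h.symm)
        omega
      have h3c := hc3 i
      have hle' : (univ.filter fun q => Crosses (e i) (cls q)).card ≤ c i := hle
      split_ifs <;> omega
  have hsum : ∑ q, (univ.filter fun i => Crosses (e i) (cls q)).card =
      ∑ i, (univ.filter fun q => Crosses (e i) (cls q)).card := by
    simp only [card_filter]
    exact Finset.sum_comm
  have hlow : 5 * N ≤ ∑ q, (univ.filter fun i => Crosses (e i) (cls q)).card := by
    have := Finset.card_nsmul_le_sum univ (fun q => (univ.filter fun i =>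
      Crosses (e i) (cls q)).card) 5 (fun q _ => hq5 q)
    rw [Finset.card_univ, smul_eq_mul, mul_comm] at this
    exact this
  have hup : ∑ i, (univ.filter fun q => Crosses (e i) (cls q)).card ≤
      2 * (univ.filter fun i => c i = 2).card + 3 * (univ.filter fun i => c i = 3).card := by
    rw [card_filter, card_filter, mul_sum, mul_sum, ← sum_add_distrib]
    exact sum_le_sum fun i _ => hi i
  have hJ3 : J.card ≤ (univ.filter fun i => c i = 3).card := by
    refine card_le_card fun i hiJ => mem_filter.2 ⟨mem_univ _, ?_⟩
    rw [hc]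
    simp only
    rw [← (h1 i hiJ).1]
    refine card_image_of_injOn ?_
    intro x hx y hy hxy
    by_contra hne
    exact (h1 i hiJ).2 x hx y hy hne (Quotient.exact hxy)
  have hJN : J.card ≤ N := by
    rcases J.eq_empty_or_nonempty with h | h
    · rw [h]
      simp
    · have h8 := h3 h
      have h9 : (univ.filter fun q : Quotient R => ∃ i ∈ J, ∃ x ∈ e i,
          Quotient.mk R x = q).card ≤ N := card_le_univ _
      omega
  rw [hsum] at hlow
  have h10 : (univ.filter fun i => c i = 2).card + 2 * (univ.filter fun i => c i = 3).card + 3 ≤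
      2 * N + J.card := h2
  omega

theorem SP.rowFive : SP.RowFive := fun _ _ _ _ _ e he h5 => sp3 e he h5

end Pool.Agent.ClawHam
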