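import Pool.Agent.Lib.MP_e2dbb5_co.SP0
import Pool.Agent.Lib.MP_e2dbb5_co.GMono
import Pool.Agent.Lib.MP_e2dbb5_co.GBridge

/-!
# Separated vertices of degree five: the lemma on hypergraphs (helper24, row HYPSEP)
-/

set_option autoImplicit false
set_option linter.unusedSectionVars false

open Finset

noncomputable section

namespace Pool.Agent.ClawHam

open Classical

namespace SP

namespace HS

/-- the values of a relation on a multiset without repetitions come from a function -/
theorem rel_fun {α β : Type} (b₀ : β) {r : α → β → Prop} {s : Multiset α} {t : Multiset β}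
    (h : Multiset.Rel r s t) (hs : s.Nodup) : ∃ f : α → β, t = s.map f ∧ ∀ a ∈ s, r a (f a) := by
  induction h with
  | zero => exact ⟨fun _ => b₀, rfl, fun a ha => absurd ha (Multiset.notMem_zero a)⟩
  | @cons a b as bs hab _ ih =>
    obtain ⟨hna, hnd⟩ := Multiset.nodup_cons.1 hs
    obtain ⟨f, rfl, hf⟩ := ih hnd
    refine ⟨Function.update f a b, ?_, ?_⟩
    · rw [Multiset.map_cons, Function.update_self]
      congr 1
      refine Multiset.map_congr rfl fun x hx => ?_
      rw [Function.update_of_ne]
      rintro rfl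
      exact hna hx
    · intro x hx
      rcases Multiset.mem_cons.1 hx with h1 | h1
      · rw [h1, Function.update_self]
        exact hab
      · have h2 : x ≠ a := fun h3 => hna (h3 ▸ h1)
        rw [Function.update_of_ne h2]
        exact hf x h1

variable {V : Type} [Fintype V]

theorem ev_apply (a b w : V) :
    ev a b w = (if w = a then (1 : ZMod 2) else 0) + if w = b then 1 else 0 := rfl

theorem sum_on {A : Finset V} {x : Vec V} (hx : EvenOn A x) : ∑ w ∈ A, x w = 0 := by
  rw [← hx.2]
  exact Finset.sum_subset (subset_univ _) fun w _ hw => hx.1 w hw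

/-- the even vectors on two points -/
theorem even2 {a b : V} (hab : a ≠ b) {x : Vec V} (hx : EvenOn {a, b} x) : x = 0 ∨ x = ev a b := by
  have h3 := sum_on hx
  rw [sum_pair hab] at h3
  have h4 : ∀ u v : ZMod 2, u + v = 0 → (u = 0 ∧ v = 0) ∨ (u = 1 ∧ v = 1) := by decide
  rcases h4 _ _ h3 with ⟨ha, hb⟩ | ⟨ha, hb⟩
  · left
    funext w
    by_cases hwa : w = a
    · rw [hwa, ha]; rfl
    by_cases hwb : w = b
    · rw [hwb, hb]; rfl
    exact hx.1 w (by simp [hwa, hwb])
  · right
    funext w
    rw [ev_apply]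
    by_cases hwa : w = a
    · rw [hwa, ha, if_pos rfl, if_neg hab, add_zero]
    by_cases hwb : w = b
    · rw [hwb, hb, if_neg (Ne.symm hab), if_pos rfl, zero_add]
    rw [if_neg hwa, if_neg hwb, add_zero]
    exact hx.1 w (by simp [hwa, hwb])

/-- the even vectors on three points -/
theorem even3 {a b c : V} (hab : a ≠ b) (hac : a ≠ c) (hbc : b ≠ c) {x : Vec V}
    (hx : EvenOn {a, b, c} x) :
    x = 0 ∨ x = ev a b ∨ x = ev b c ∨ x = ev a b + ev b c := by
  have h3 := sum_on hx
  rw [sum_insert (by simp [hab, hac]), sum_pair hbc] at h3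
  have h4 : ∀ u v w : ZMod 2, u + (v + w) = 0 → (u = 0 ∧ v = 0 ∧ w = 0) ∨
      (u = 1 ∧ v = 1 ∧ w = 0) ∨ (u = 0 ∧ v = 1 ∧ w = 1) ∨ (u = 1 ∧ v = 0 ∧ w = 1) := by decide
  have h2 : (1 : ZMod 2) + 1 = 0 := by decide
  have key : ∀ y : Vec V, y a = x a → y b = x b → y c = x c →
      (∀ w, w ≠ a → w ≠ b → w ≠ c → y w = 0) → x = y := by
    intro y h5 h6 h7 h8
    funext w
    by_cases hwa : w = a
    · rw [hwa, h5]
    by_cases hwb : w = b
    · rw [hwb, h6]
    by_cases hwc : w = c
    · rw [hwc, h7]
    rw [h8 w hwa hwb hwc]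
    exact hx.1 w (by simp [hwa, hwb, hwc])
  rcases h4 _ _ _ h3 with ⟨ha, hb, hc⟩ | ⟨ha, hb, hc⟩ | ⟨ha, hb, hc⟩ | ⟨ha, hb, hc⟩
  · left
    exact key 0 ha.symm hb.symm hc.symm fun _ _ _ _ => rfl
  · right; left
    refine key _ ?_ ?_ ?_ ?_
    · rw [ev_apply, ha, if_pos rfl, if_neg hab, add_zero]
    · rw [ev_apply, hb, if_neg (Ne.symm hab), if_pos rfl, zero_add]
    · rw [ev_apply, hc, if_neg (Ne.symm hac), if_neg (Ne.symm hbc), add_zero]
    · intro w h5 h6 _
      rw [ev_apply, if_neg h5, if_neg h6, add_zero]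
  · right; right; left
    refine key _ ?_ ?_ ?_ ?_
    · rw [ev_apply, ha, if_neg hab, if_neg hac, add_zero]
    · rw [ev_apply, hb, if_pos rfl, if_neg hbc, add_zero]
    · rw [ev_apply, hc, if_neg (Ne.symm hbc), if_pos rfl, zero_add]
    · intro w _ h6 h7
      rw [ev_apply, if_neg h6, if_neg h7, add_zero]
  · right; right; right
    refine key _ ?_ ?_ ?_ ?_
    · rw [Pi.add_apply, ev_apply, ev_apply, ha, if_pos rfl, if_neg hab, if_neg hac, add_zero,
        add_zero]
      rfl
    · rw [Pi.add_apply, ev_apply, ev_apply, hb, if_neg (Ne.symm hab), if_pos rfl, if_neg hbc,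
        add_zero, zero_add, h2]
    · rw [Pi.add_apply, ev_apply, ev_apply, hc, if_neg (Ne.symm hac), if_neg (Ne.symm hbc),
        if_pos rfl, add_zero, zero_add]
      rfl
    · intro w h5 h6 h7
      rw [Pi.add_apply, ev_apply, ev_apply, if_neg h5, if_neg h6, if_neg h7, add_zero]
      rfl

/-- the element of a hyperedge has the largest space -/
theorem exists_el (e : Finset V) (he : e.card = 2 ∨ e.card = 3) :
    ∃ P : El V, elOf e P ∧ ∀ P', InE e P' → OO P' ≤ OO P := by
  rcases he with he | he
  · obtain ⟨a, b, hab, rfl⟩ := card_eq_two.1 he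
    refine ⟨(ev a b, 0), Or.inl ⟨a, b, hab, rfl, rfl⟩, fun P' hP' => ?_⟩
    refine GM.OO_mono ?_ ?_
    · rcases even2 hab hP'.1 with h | h
      · exact Or.inl h
      · exact Or.inr (Or.inl h)
    · rcases even2 hab hP'.2 with h | h
      · exact Or.inl h
      · exact Or.inr (Or.inl h)
  · obtain ⟨a, b, c, hab, hac, hbc, rfl⟩ := card_eq_three.1 he
    refine ⟨(ev a b, ev b c), Or.inr ⟨a, b, c, hab, hac, hbc, rfl, rfl⟩, fun P' hP' => ?_⟩
    exact GM.OO_mono (even3 hab hac hbc hP'.1) (even3 hab hac hbc hP'.2)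

theorem OP_mono {I : Type} (f P : I → El V) (s : Multiset I)
    (h : ∀ i ∈ s, OO (f i) ≤ OO (P i)) : OP (s.map f) ≤ OP (s.map P) := by
  induction s using Multiset.induction_on with
  | empty => exact le_rfl
  | cons a s ih =>
    rw [Multiset.map_cons, Multiset.map_cons, G.OP_cons, G.OP_cons]
    exact mul_le_mul' (h a (Multiset.mem_cons_self a s))
      (ih fun i hi => h i (Multiset.mem_cons_of_mem hi))

end HS

theorem crosses_compl {B : Type} [Fintype B] (s X : Finset B) :
    Crosses s Xᶜ ↔ Crosses s X := by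
  unfold Crosses
  simp only [mem_compl, not_not]
  exact and_comm

open HS in
theorem rowHypSep' (hA : RowAll) : HypSep := by
  intro B I _ _ e hcard h4 h5 hcol
  rcases isEmpty_or_nonempty B with hE | hN
  · refine ⟨fun _ => ∅, fun i => ⟨empty_subset _, Or.inl rfl⟩, fun K => (hE.false K).elim, ?_⟩
    rintro X _ ⟨b, _⟩ _
    exact (hE.false b).elim
  obtain ⟨κ, hκ1, hκ2⟩ := hcol
  set W : Finset B := univ.filter fun u => ¬ D4 e u with hW
  set h : Multiset (Finset B) := univ.val.map e with hh
  have hW' : ∀ u, u ∉ W → D4 e u := by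
    intro u hu
    by_contra h1
    exact hu (mem_filter.2 ⟨mem_univ _, h1⟩)
  have hW'' : ∀ u, u ∈ W → ¬ D4 e u := fun u hu => (mem_filter.1 hu).2
  have hct : ∀ X, ct h X = (univ.filter fun i => Crosses (e i) X).card := by
    intro X
    unfold ct
    rw [hh, Multiset.countP_map]
    rfl
  have hmem : ∀ s ∈ h, ∃ i, e i = s := by
    intro s hs
    obtain ⟨i, _, hi⟩ := Multiset.mem_map.1 hs
    exact ⟨i, hi⟩
  have hdeg5 : ∀ w ∈ W, ({w} : Finset B) ≠ univ →
      5 ≤ (univ.filter fun i => Crosses (e i) {w}).card := by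
    intro w hw hne
    have h6 := h4 {w} (subset_univ _) (singleton_nonempty w) hne
    have h7 : (univ.filter fun i => Crosses (e i) {w}).card ≠ 4 := hW'' w hw
    omega
  have hSy : Sy univ W h κ := by
    refine ⟨?_, ?_, subset_univ _, ?_, ?_, ?_⟩
    · intro s hs
      obtain ⟨i, rfl⟩ := hmem s hs
      refine ⟨subset_univ _, ?_⟩
      have := hcard i
      omega
    · intro X _ hX hX'
      rw [hct]
      unfold rq
      by_cases hsep : Sepr W X
      · rw [if_pos hsep]
        obtain ⟨⟨w, hwW, hwX⟩, w', hwW', hwX'⟩ := hsep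
        by_cases h6 : 2 ≤ X.card
        · by_cases h7 : X.card + 2 ≤ (univ : Finset B).card
          · exact h5 X (subset_univ _) h6 h7
          · have h8 : Xᶜ = {w'} := by
              symm
              refine eq_of_subset_of_card_le ?_ ?_
              · rw [singleton_subset_iff, mem_compl]
                exact hwX'
              · rw [card_compl, card_singleton]
                rw [card_univ] at h7
                omega
            have h9 : (univ.filter fun i => Crosses (e i) X) =
                univ.filter fun i => Crosses (e i) {w'} := by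
              refine filter_congr fun i _ => ?_
              rw [← h8, crosses_compl]
            rw [h9]
            refine hdeg5 w' hwW' fun h10 => ?_
            have h11 : w ∈ ({w'} : Finset B) := by
              rw [h10]
              exact mem_univ _
            rw [mem_singleton] at h11
            exact hwX' (h11 ▸ hwX)
        · have h8 : X = {w} := by
            symm
            refine eq_of_subset_of_card_le (singleton_subset_iff.2 hwX) ?_
            rw [card_singleton]
            omega
          rw [h8]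
          exact hdeg5 w hwW fun h10 => hX' (h8.trans h10)
      · rw [if_neg hsep]
        exact h4 X (subset_univ _) hX hX'
    · intro v _ hv _
      rw [hct]
      exact hW' v hv
    · intro s hs hs2 u hu u' hu' huW huW'
      obtain ⟨i, rfl⟩ := hmem s hs
      exact hκ1 i hs2 u hu u' hu' (hW' u huW) (hW' u' huW')
    · intro c
      rw [hh, Multiset.filter_map, Multiset.map_map]
      have h6 : ((Multiset.filter ((fun s : Finset B => s.card = 3) ∘ e)
          (univ : Finset I).val).map ((fun s : Finset B =>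
            (s.filter fun u => u ∉ W ∧ κ u = c).card) ∘ e)).sum =
          ∑ i ∈ univ.filter fun i => (e i).card = 3,
            ((e i).filter fun u => u ∉ W ∧ κ u = c).card := rfl
      rw [h6, ← card_sigma, card_le_one]
      rintro ⟨i, u⟩ hu ⟨i', u'⟩ hu'
      simp only [mem_sigma, mem_filter, mem_univ, true_and] at hu hu'
      obtain ⟨hi, hue, huW, huc⟩ := hu
      obtain ⟨hi', hue', huW', huc'⟩ := hu'
      obtain ⟨rfl, rfl⟩ := hκ2 i i' hi hi' u hue u' hue' (hW' u huW) (hW' u' huW')
        (huc.trans huc'.symm)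
      rfl
  obtain ⟨s, hs, hsA⟩ := hA B univ W h κ hSy univ_nonempty
  rw [hh, Multiset.rel_map_left] at hs
  obtain ⟨f, rfl, hf⟩ := rel_fun (0 : El B) hs univ.nodup
  choose P hP hPm using fun i => exists_el (e i) (hcard i)
  have hle : OP (univ.val.map f) ≤ OP (univ.val.map P) :=
    OP_mono f P univ.val fun i hi => hPm i (f i) (hf i hi)
  exact evenConn_of_algC e (rowBridge B I e P hP (GM.algE_mono hle hsA))

/-- **Row HYPSEP** -/
theorem rowHypSep (hA : RowAll) (_ : RowBridge) (_ : RowMono) : HypSep := rowHypSep' hA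

end SP

end Pool.Agent.ClawHam
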