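import Pool.Agent.Lib.MP_e2dbb5_co.SP0
import Pool.Agent.Lib.MP_e2dbb5_co.GKV

/-!
# Separated vertices of degree five: from the certificate KV to the algebraic certificate
-/

set_option autoImplicit false
set_option linter.unusedSectionVars false

open Finset

noncomputable section

namespace Pool.Agent.ClawHam

open Classical

namespace SP

namespace KA

/-- the hyperedges of the merging process can be trimmed to two or three vertices -/
theorem trim {B I : Type} {e p : I → Finset B} (hp : Pairs p) {A : Finset B} {T : Finset I}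
    (hsub : ∀ i, p i ⊆ e i) (h : KTree e p A T) : ∃ e' : I → Finset B,
      (∀ i ∈ T, p i ⊆ e' i ∧ e' i ⊆ e i ∧ ((e' i).card = 2 ∨ (e' i).card = 3)) ∧
      ∀ e'' : I → Finset B, (∀ i ∈ T, e'' i = e' i) → KTree e'' p A T := by
  induction h with
  | single v => exact ⟨e, by simp, fun e'' _ => KTree.single v⟩
  | joinD A A' T T' i x y _ _ hd hdT hi hi' hpi hx hy hxe hye ih ih' =>
    obtain ⟨e1, h1, k1⟩ := ih
    obtain ⟨e2, h2, k2⟩ := ih'
    have hxy : x ≠ y := fun h => Finset.disjoint_left.1 hd hx (h ▸ hy)
    refine ⟨fun j => if j ∈ T then e1 j else if j ∈ T' then e2 j else {x, y}, fun j hj => ?_,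
      fun e'' h'' => ?_⟩
    · simp only
      split_ifs with a1 a2
      · exact h1 j a1
      · exact h2 j a2
      · have hji : j = i := by
          rcases Finset.mem_insert.1 hj with h | h
          · exact h
          · rcases Finset.mem_union.1 h with h | h
            · exact absurd h a1
            · exact absurd h a2
        rw [hji, hpi]
        refine ⟨Finset.empty_subset _, ?_, Or.inl (Finset.card_pair hxy)⟩
        intro w hw
        rcases Finset.mem_insert.1 hw with h | h
        · exact h ▸ hxe
        · exact (Finset.mem_singleton.1 h) ▸ hye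
    · beta_reduce at h''
      have hii : e'' i = {x, y} := by
        rw [h'' i (Finset.mem_insert_self _ _), if_neg hi, if_neg hi']
      refine KTree.joinD A A' T T' i x y (k1 e'' fun j hj => ?_) (k2 e'' fun j hj => ?_) hd hdT hi
        hi' hpi hx hy (by rw [hii]; simp) (by rw [hii]; simp)
      · rw [h'' j (Finset.mem_insert_of_mem (Finset.mem_union_left _ hj)), if_pos hj]
      · rw [h'' j (Finset.mem_insert_of_mem (Finset.mem_union_right _ hj)),
          if_neg (fun h => Finset.disjoint_left.1 hdT h hj), if_pos hj]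
  | joinU A A' A'' T T' T'' i x y z _ _ _ hd hd' hd'' hdT hdT' hdT'' hi hi' hi'' hpi hx hy hz
      hxe hye hze ih ih' ih'' =>
    obtain ⟨e1, h1, k1⟩ := ih
    obtain ⟨e2, h2, k2⟩ := ih'
    obtain ⟨e3, h3, k3⟩ := ih''
    have hxy : x ≠ y := fun h => Finset.disjoint_left.1 hd hx (h ▸ hy)
    have hxz : x ≠ z := fun h => Finset.disjoint_left.1 hd' hx (h ▸ hz)
    have hyz : y ≠ z := fun h => Finset.disjoint_left.1 hd'' hy (h ▸ hz)
    refine ⟨fun j => if j ∈ T then e1 j else if j ∈ T' then e2 j else if j ∈ T'' then e3 j else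
      {x, y, z}, fun j hj => ?_, fun e'' h'' => ?_⟩
    · simp only
      split_ifs with a1 a2 a3
      · exact h1 j a1
      · exact h2 j a2
      · exact h3 j a3
      · have hji : j = i := by
          rcases Finset.mem_insert.1 hj with h | h
          · exact h
          · rcases Finset.mem_union.1 h with h | h
            · rcases Finset.mem_union.1 h with h | h
              · exact absurd h a1
              · exact absurd h a2
            · exact absurd h a3
        rw [hji, hpi]
        refine ⟨Finset.empty_subset _, ?_, Or.inr (Finset.card_eq_three.2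
          ⟨x, y, z, hxy, hxz, hyz, rfl⟩)⟩
        intro w hw
        rcases Finset.mem_insert.1 hw with h | h
        · exact h ▸ hxe
        · rcases Finset.mem_insert.1 h with h | h
          · exact h ▸ hye
          · exact (Finset.mem_singleton.1 h) ▸ hze
    · beta_reduce at h''
      have hii : e'' i = {x, y, z} := by
        rw [h'' i (Finset.mem_insert_self _ _), if_neg hi, if_neg hi', if_neg hi'']
      refine KTree.joinU A A' A'' T T' T'' i x y z (k1 e'' fun j hj => ?_)
        (k2 e'' fun j hj => ?_) (k3 e'' fun j hj => ?_) hd hd' hd'' hdT hdT' hdT'' hi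
        hi' hi'' hpi hx hy hz (by rw [hii]; simp) (by rw [hii]; simp) (by rw [hii]; simp)
      · rw [h'' j (Finset.mem_insert_of_mem (Finset.mem_union_left _
          (Finset.mem_union_left _ hj))), if_pos hj]
      · rw [h'' j (Finset.mem_insert_of_mem (Finset.mem_union_left _
          (Finset.mem_union_right _ hj))),
          if_neg (fun h => Finset.disjoint_left.1 hdT h hj), if_pos hj]
      · rw [h'' j (Finset.mem_insert_of_mem (Finset.mem_union_right _ hj)),
          if_neg (fun h => Finset.disjoint_left.1 hdT' h hj),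
          if_neg (fun h => Finset.disjoint_left.1 hdT'' h hj), if_pos hj]
  | joinC A A' T T' i y z v _ _ hd hdT hi hi' hpi hy hz hv hve ih ih' =>
    obtain ⟨e1, h1, k1⟩ := ih
    obtain ⟨e2, h2, k2⟩ := ih'
    have hyv : y ≠ v := fun h => Finset.disjoint_left.1 hd hy (h ▸ hv)
    have hzv : z ≠ v := fun h => Finset.disjoint_left.1 hd hz (h ▸ hv)
    have hyz : y ≠ z := by
      rintro rfl
      rcases hp i with h | h
      · rw [h] at hpi
        exact absurd hpi.symm (by simp)
      · rw [hpi] at h
        simp at h
    refine ⟨fun j => if j ∈ T then e1 j else if j ∈ T' then e2 j else {y, z, v}, fun j hj => ?_,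
      fun e'' h'' => ?_⟩
    · simp only
      split_ifs with a1 a2
      · exact h1 j a1
      · exact h2 j a2
      · have hji : j = i := by
          rcases Finset.mem_insert.1 hj with h | h
          · exact h
          · rcases Finset.mem_union.1 h with h | h
            · exact absurd h a1
            · exact absurd h a2
        rw [hji]
        refine ⟨?_, ?_, Or.inr (Finset.card_eq_three.2 ⟨y, z, v, hyz, hyv, hzv, rfl⟩)⟩
        · rw [hpi]
          intro w hw
          rcases Finset.mem_insert.1 hw with h | h
          · rw [h]; simp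
          · rw [Finset.mem_singleton.1 h]; simp
        · intro w hw
          rcases Finset.mem_insert.1 hw with h | h
          · exact hsub i (by rw [hpi, h]; simp)
          · rcases Finset.mem_insert.1 h with h | h
            · exact hsub i (by rw [hpi, h]; simp)
            · exact (Finset.mem_singleton.1 h) ▸ hve
    · beta_reduce at h''
      have hii : e'' i = {y, z, v} := by
        rw [h'' i (Finset.mem_insert_self _ _), if_neg hi, if_neg hi']
      refine KTree.joinC A A' T T' i y z v (k1 e'' fun j hj => ?_) (k2 e'' fun j hj => ?_) hd hdT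
        hi hi' hpi hy hz hv (by rw [hii]; simp)
      · rw [h'' j (Finset.mem_insert_of_mem (Finset.mem_union_left _ hj)), if_pos hj]
      · rw [h'' j (Finset.mem_insert_of_mem (Finset.mem_union_right _ hj)),
          if_neg (fun h => Finset.disjoint_left.1 hdT h hj), if_pos hj]

variable {V : Type} [Fintype V]

theorem evenOn_ev {e : Finset V} {a b : V} (ha : a ∈ e) (hb : b ∈ e) :
    EvenOn e (ev a b : Vec V) := by
  constructor
  · intro w hw
    have h1 : w ≠ a := fun h => hw (by rw [h]; exact ha)
    have h2 : w ≠ b := fun h => hw (by rw [h]; exact hb)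
    rw [GK.ev_apply, if_neg h1, if_neg h2, add_zero]
  · simp only [GK.ev_apply, Finset.sum_add_distrib, Finset.sum_ite_eq', Finset.mem_univ, if_true]
    exact CharTwo.add_self_eq_zero _

theorem evenOn_zero (e : Finset V) : EvenOn e (0 : Vec V) :=
  ⟨fun _ _ => rfl, by simp⟩

theorem inE_zero (e : Finset V) : InE e (0 : El V) := ⟨evenOn_zero e, evenOn_zero e⟩

theorem inE_of_elOf {e e' : Finset V} (hee : e' ⊆ e) {P : El V} (h : elOf e' P) : InE e P := by
  rcases h with ⟨a, b, -, rfl, rfl⟩ | ⟨a, b, c, -, -, -, rfl, rfl⟩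
  · exact ⟨evenOn_ev (hee (by simp)) (hee (by simp)), evenOn_zero e⟩
  · exact ⟨evenOn_ev (hee (by simp)) (hee (by simp)), evenOn_ev (hee (by simp)) (hee (by simp))⟩

end KA

open KA GK G in
/-- SP4 -/
theorem rowKA : RowKA := by
  intro B I _ _ e hK
  obtain ⟨p, T, hp, hsub, hc, hT⟩ := hK
  by_cases hB : ∃ a b : B, a ≠ b
  swap
  · -- one vertex
    obtain ⟨b, hb⟩ := ktree_nonempty hT
    have h1 : (univ : Finset B) = {b} := by
      ext x
      simp only [Finset.mem_univ, Finset.mem_singleton, true_iff]
      by_contra h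
      exact hB ⟨x, b, h⟩
    refine ⟨fun _ => 0, fun i => inE_zero _, ?_⟩
    rw [h1]
    exact rowBase B b _
  obtain ⟨a, b, hab⟩ := hB
  obtain ⟨e', he', hk⟩ := trim hp hsub hT
  let e'' : I → Finset B := fun i => if i ∈ T then e' i else if p i = ∅ then {a, b} else p i
  have hT'' : KTree e'' p univ T := hk e'' fun i hi => if_pos hi
  have hcard : ∀ i, (e'' i).card = 2 ∨ (e'' i).card = 3 := by
    intro i
    simp only [e'']
    split_ifs with h1 h2
    · exact (he' i h1).2.2
    · exact Or.inl (Finset.card_pair hab)
    · exact Or.inl ((hp i).resolve_left h2)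
  have hsub'' : ∀ i, p i ⊆ e'' i := by
    intro i
    simp only [e'']
    split_ifs with h1 h2
    · exact (he' i h1).1
    · rw [h2]; exact Finset.empty_subset _
    · exact Finset.Subset.refl _
  choose P'' hP'' using fun i => exists_elOf (e'' i) (hcard i)
  let P : I → El B := fun i => if i ∈ T ∨ p i ≠ ∅ then P'' i else 0
  have hPT : ∀ i, (i ∈ T ∨ p i ≠ ∅) → P i = P'' i := fun i hi => if_pos hi
  refine ⟨P, fun i => ?_, ?_⟩
  · by_cases h : i ∈ T ∨ p i ≠ ∅
    · rw [hPT i h]
      refine inE_of_elOf ?_ (hP'' i)
      simp only [e'']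
      split_ifs with h1 h2
      · exact (he' i h1).2.1
      · rcases h with h | h
        · exact absurd h h1
        · exact absurd h2 h
      · exact hsub i
    · have : P i = 0 := if_neg h
      rw [this]
      exact inE_zero _
  obtain ⟨r, hr⟩ := ktree_nonempty hT''
  obtain ⟨T₀, hT₀, htree⟩ := exists_tree hp (B₀ := univ) (fun i => Finset.subset_univ _)
    (fun X _ hX hX' => hc X hX hX') hr
  obtain ⟨g, hg, hprod⟩ := ktree_prod hP'' hp hsub'' T₀ hT₀ hT''
  have htp : ∀ i ∈ T₀, tp (p i) ∈ OO (P i) := by
    intro i hi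
    rw [hPT i (Or.inr (hT₀ i hi))]
    rcases hp i with h | h
    · exact absurd h (hT₀ i hi)
    · obtain ⟨a, b, hab, h1⟩ := Finset.card_eq_two.1 h
      have ha : a ∈ e'' i := hsub'' i (by rw [h1]; simp)
      have hb : b ∈ e'' i := hsub'' i (by rw [h1]; simp)
      rw [h1, tp_pair hab]
      exact t_mem (hP'' i) ha hb
  let G : I → RR B := fun i => if i ∈ T then g i else if i ∈ T₀ then tp (p i) else 1
  have hG : ∀ i, G i ∈ OO (P i) := by
    intro i
    simp only [G]
    split_ifs with h1 h2
    · rw [hPT i (Or.inl h1)]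
      exact hg i
    · exact htp i h2
    · exact one_mem _
  refine ⟨r, hr, ∏ i, G i, prod_mem P G hG univ, ?_⟩
  have h1 : ∏ i, G i = (∏ i ∈ T, g i) * ∏ i ∈ T₀ \ T, tp (p i) := by
    have h2 : (univ : Finset I) = T ∪ (univ \ T) := (Finset.union_sdiff_of_subset
      (Finset.subset_univ T)).symm
    rw [h2, Finset.prod_union Finset.disjoint_sdiff]
    congr 1
    · exact Finset.prod_congr rfl fun i hi => if_pos hi
    · have h3 : T₀ \ T ⊆ univ \ T := Finset.sdiff_subset_sdiff (Finset.subset_univ _) le_rfl
      rw [← Finset.prod_subset h3]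
      · refine Finset.prod_congr rfl fun i hi => ?_
        obtain ⟨h4, h5⟩ := Finset.mem_sdiff.1 hi
        simp only [G]
        rw [if_neg h5, if_pos h4]
      · intro i hi hi'
        have h4 : i ∉ T := (Finset.mem_sdiff.1 hi).2
        have h5 : i ∉ T₀ := fun h => hi' (Finset.mem_sdiff.2 ⟨h, h4⟩)
        simp only [G]
        rw [if_neg h4, if_neg h5]
  have h2 : (∏ i ∈ T ∩ T₀, tp (p i)) * ∏ i ∈ T₀ \ T, tp (p i) = ∏ i ∈ T₀, tp (p i) := by
    rw [Finset.inter_comm, ← Finset.prod_union]
    · congr 1
      ext i
      simp only [Finset.mem_union, Finset.mem_inter, Finset.mem_sdiff]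
      tauto
    · rw [Finset.disjoint_left]
      intro i hi hi'
      exact (Finset.mem_sdiff.1 hi').2 (Finset.mem_inter.1 hi).2
  have h3 : ∏ i, G i = ∏ w ∈ univ.erase r, (TT (ev w r) * QQ (ev w r)) := by
    rw [h1, hprod r hr, Finset.prod_mul_distrib]
    change _ = can TT univ r * can QQ univ r
    rw [← htree, ← h2]
    ring
  rw [h3, top_can r _ (Finset.notMem_erase r univ)]
  exact one_ne_zero

end SP

end Pool.Agent.ClawHam
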