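import Pool.Agent.Lib.MP_e2dbb5_co.FS

/-!
# Bad cells give bad spots (helper90)
-/

set_option autoImplicit false
set_option linter.unusedSectionVars false

open Finset

noncomputable section

namespace Pool.Agent.ClawHam

open Classical

namespace TSG

variable {V C : Type} [Fintype V] [Fintype C]

/-- A big cell of degree at most four has four vertices. -/
theorem card_four {G' : SimpleGraph V} {inc : V → C → Prop}
    (hK : Krausz G' inc) (hcut : NoSmallCut G')
    (hbig : ∀ v, ∃ K, Big inc K ∧ inc v K) {K : C}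
    (hbK : Big inc K) (hdeg : (univ.filter fun i => Crosses (hyp inc i) {K}).card ≤ 4)
    {w₀ : V} (hw₀ : ¬ inc w₀ K) : (univ.filter fun v => inc v K).card = 4 := by
  refine le_antisymm ?_ hbK
  set D : Finset V := univ.filter fun v => inc v K ∧ ∃ w, ¬ inc w K ∧ G'.Adj v w with hD
  have hD4 : D.card ≤ 4 := by
    have h1 : ∀ v : V, ∃ i : V ⊕ C, v ∈ D → Crosses (hyp inc i) {K} ∧
        (i = Sum.inl v ∨ ∃ L, i = Sum.inr L ∧ inc v L ∧ ¬ Big inc L) := by
      intro v
      by_cases hv : v ∈ D
      · obtain ⟨hvK, w, hwK, hadj⟩ := (mem_filter.1 hv).2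
        obtain ⟨-, L, hvL, hwL⟩ := (hK.adj_iff v w).1 hadj
        have hLK : L ≠ K := by
          rintro rfl
          exact hwK hwL
        by_cases hbL : Big inc L
        · refine ⟨Sum.inl v, fun _ => ⟨⟨⟨K, mem_filter.2 ⟨mem_univ _, hbK, hvK⟩,
            mem_singleton_self K⟩, L, mem_filter.2 ⟨mem_univ _, hbL, hvL⟩, ?_⟩, Or.inl rfl⟩⟩
          rw [mem_singleton]
          exact hLK
        · obtain ⟨M, hbM, hwM⟩ := hbig w
          refine ⟨Sum.inr L, fun _ => ⟨⟨⟨K, mem_filter.2 ⟨mem_univ _, hbL, hbK, v, hvL, hvK⟩,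
            mem_singleton_self K⟩, M, mem_filter.2 ⟨mem_univ _, hbL, hbM, w, hwL, hwM⟩, ?_⟩,
            Or.inr ⟨L, rfl, hvL, hbL⟩⟩⟩
          rw [mem_singleton]
          rintro rfl
          exact hwK hwM
      · exact ⟨Sum.inl v, fun h => absurd h hv⟩
    choose j hj using h1
    refine (card_le_card_of_injOn j ?_ ?_).trans hdeg
    · intro v hv
      exact mem_filter.2 ⟨mem_univ _, (hj v hv).1⟩
    · intro a ha b hb hab
      have ha' := (hj a ha).2
      have hb' := (hj b hb).2
      by_contra hne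
      rcases ha' with ha' | ⟨L, ha', haL, hbL⟩
      · rcases hb' with hb' | ⟨L, hb', -, -⟩
        · rw [ha', hb'] at hab
          exact hne (Sum.inl_injective hab)
        · rw [ha', hb'] at hab
          exact absurd hab Sum.inl_ne_inr
      · rcases hb' with hb' | ⟨L', hb', hbL', -⟩
        · rw [ha', hb'] at hab
          exact absurd hab Sum.inr_ne_inl
        · rw [ha', hb'] at hab
          have hLL : L = L' := Sum.inr_injective hab
          rw [← hLL] at hbL'
          have h2 := hK.uniq a b K L hne (mem_filter.1 ha).2.1 (mem_filter.1 hb).2.1 haL hbL'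
          rw [h2] at hbK
          exact hbL hbK
  have hKD : (univ.filter fun v => inc v K) ⊆ D := by
    intro a ha
    have haK := (mem_filter.1 ha).2
    by_contra haD
    have h5 := hcut D ((univ.filter fun v => inc v K) \ D) (univ.filter fun v => ¬ inc v K) (by
        intro w
        by_cases h1 : inc w K
        · by_cases h2 : w ∈ D
          · exact Or.inl h2
          · exact Or.inr (Or.inl (mem_sdiff.2 ⟨mem_filter.2 ⟨mem_univ _, h1⟩, h2⟩))
        · exact Or.inr (Or.inr (mem_filter.2 ⟨mem_univ _, h1⟩)))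
      (by
        rw [Finset.disjoint_left]
        intro x h1 h2
        exact (mem_filter.1 h2).2 (mem_filter.1 (mem_sdiff.1 h1).1).2)
      (by
        rw [Finset.disjoint_left]
        intro x h1 h2
        exact (mem_sdiff.1 h1).2 h2)
      (by
        rw [Finset.disjoint_left]
        intro x h1 h2
        exact (mem_filter.1 h1).2 (mem_filter.1 h2).2.1)
      ⟨a, mem_sdiff.2 ⟨ha, haD⟩⟩ ⟨w₀, mem_filter.2 ⟨mem_univ _, hw₀⟩⟩ (by
        intro x hx y hy hxy
        rw [mem_sdiff] at hx
        exact hx.2 (mem_filter.2 ⟨mem_univ _, (mem_filter.1 hx.1).2, y, (mem_filter.1 hy).2,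
          hxy⟩))
    omega
  exact (card_le_card hKD).trans hD4

/-- the degree of a vertex in two cells -/
theorem deg_le {G G' : SimpleGraph V} {inc : V → C → Prop} (hle : G ≤ G')
    (hK : Krausz G' inc) {a : V} {K M : C} (haK : inc a K) (haM : inc a M) (hKM : K ≠ M) :
    (univ.filter fun w => G.Adj a w).card + 2 ≤
      (univ.filter fun w => inc w K).card + (univ.filter fun w => inc w M).card := by
  have haK' : a ∈ univ.filter fun w => inc w K := mem_filter.2 ⟨mem_univ _, haK⟩
  have haM' : a ∈ univ.filter fun w => inc w M := mem_filter.2 ⟨mem_univ _, haM⟩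
  have hsub : (univ.filter fun w => G.Adj a w) ⊆
      (univ.filter fun w => inc w K).erase a ∪ (univ.filter fun w => inc w M).erase a := by
    intro w hw
    obtain ⟨hne, N, h1, h2⟩ := (hK.adj_iff a w).1 (hle (mem_filter.1 hw).2)
    rw [mem_union, mem_erase, mem_erase, mem_filter, mem_filter]
    rcases hK.two a K M N haK haM h1 with h | h | h
    · exact absurd h hKM
    · left
      rw [h]
      exact ⟨hne.symm, mem_univ _, h2⟩
    · right
      rw [h]
      exact ⟨hne.symm, mem_univ _, h2⟩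
  have h1 := card_le_card hsub
  have h2 := card_union_le ((univ.filter fun w => inc w K).erase a)
    ((univ.filter fun w => inc w M).erase a)
  have h3 : 0 < (univ.filter fun w => inc w K).card := card_pos.2 ⟨a, haK'⟩
  have h4 : 0 < (univ.filter fun w => inc w M).card := card_pos.2 ⟨a, haM'⟩
  rw [card_erase_of_mem haK', card_erase_of_mem haM'] at h2
  omega

/-- A big cell of degree at most four in a hyperedge with three vertices is a spot, with the vertex
in the small cell as special vertex. -/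
theorem spot_at {G G' : SimpleGraph V}
    {inc : V → C → Prop} (hle : G ≤ G') (hclaw : ClawFree G) (hcl : Closed G')
    (hK : Krausz G' inc) (hN : NoSmallCut G)
    (hnc : ∃ u v, u ≠ v ∧ ¬ G.Adj u v) {K : C}
    (hK4' : (univ.filter fun v => inc v K).card = 4) {S : C} (hSsmall : ¬ Big inc S) (hKS : K ≠ S)
    {v : V} (hvS : inc v S) (hvK : inc v K) :
    (univ.filter fun w => G.Adj v w).card = 5 ∧
    (∀ a ∈ (univ.filter fun v => inc v K), ∀ b ∈ (univ.filter fun v => inc v K), a ≠ b →
      G.Adj a b) ∧ ∃ y z, y ∉ (univ.filter fun v => inc v K) ∧ z ∉ (univ.filter fun v => inc v K) ∧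
    G.Adj y z ∧ (∀ w, G.Adj v w ↔ (w ∈ (univ.filter fun v => inc v K) ∧ w ≠ v) ∨ w = y ∨ w = z) ∧
    ∀ a ∈ (univ.filter fun v => inc v K), a ≠ v → ¬ G.Adj a y ∧ ¬ G.Adj a z := by
  -- the neighbours of `v`
  have hvK' : v ∈ univ.filter fun w => inc w K := mem_filter.2 ⟨mem_univ _, hvK⟩
  have hvS' : v ∈ univ.filter fun w => inc w S := mem_filter.2 ⟨mem_univ _, hvS⟩
  have hsub : (univ.filter fun w => G.Adj v w) ⊆
      (univ.filter fun w => inc w K).erase v ∪ (univ.filter fun w => inc w S).erase v := by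
    intro w hw
    obtain ⟨hne, M, h1, h2⟩ := (hK.adj_iff v w).1 (hle (mem_filter.1 hw).2)
    rw [mem_union, mem_erase, mem_erase, mem_filter, mem_filter]
    rcases hK.two v K S M hvK hvS h1 with h | h | h
    · exact absurd h hKS
    · left
      rw [h]
      exact ⟨hne.symm, mem_univ _, h2⟩
    · right
      rw [h]
      exact ⟨hne.symm, mem_univ _, h2⟩
  have h5 := five_le_deg hN hnc v
  have hS3 := C1x.small_card hSsmall
  have hcard := card_union_le ((univ.filter fun w => inc w K).erase v)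
    ((univ.filter fun w => inc w S).erase v)
  rw [card_erase_of_mem hvK', card_erase_of_mem hvS'] at hcard
  have hcard2 := card_le_card hsub
  have hS3' : (univ.filter fun w => inc w S).card = 3 := by omega
  have heq : (univ.filter fun w => G.Adj v w) =
      (univ.filter fun w => inc w K).erase v ∪ (univ.filter fun w => inc w S).erase v :=
    eq_of_subset_of_card_le hsub (by omega)
  have hadj : ∀ w, G.Adj v w ↔ (inc w K ∧ w ≠ v) ∨ (inc w S ∧ w ≠ v) := by
    intro w
    have h1 : w ∈ (univ.filter fun w => G.Adj v w) ↔ w ∈ (univ.filter fun w => inc w K).erase v ∪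
      (univ.filter fun w => inc w S).erase v := by rw [heq]
    rw [mem_filter, mem_union, mem_erase, mem_erase, mem_filter, mem_filter] at h1
    constructor
    · intro h
      rcases h1.1 ⟨mem_univ _, h⟩ with h2 | h2
      · exact Or.inl ⟨h2.2.2, h2.1⟩
      · exact Or.inr ⟨h2.2.2, h2.1⟩
    · intro h
      refine (h1.2 ?_).2
      rcases h with h2 | h2
      · exact Or.inl ⟨h2.2, mem_univ _, h2.1⟩
      · exact Or.inr ⟨h2.2, mem_univ _, h2.1⟩
  have hdis : ∀ w, inc w K → inc w S → w = v := by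
    intro w h1 h2
    by_contra hne
    exact hKS (hK.uniq w v K S hne h1 hvK h2 hvS)
  -- no edges of the closure between the two cells
  have hno : ∀ a y, inc a K → a ≠ v → inc y S → y ≠ v → ¬ G'.Adj a y := by
    intro a y haK hav hyS hyv hay
    have hconn : NbrConn G' v := by
      intro P ⟨c, hc, hPc⟩ ⟨d, hd, hPd⟩
      by_contra hno
      push Not at hno
      have hK1 : ∀ x x', inc x K → x ≠ v → inc x' K → x' ≠ v → P x → P x' := by
        intro x x' h1 h2 h3 h4 hP
        by_contra hP'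
        have hne : x ≠ x' := by
          rintro rfl
          exact hP' hP
        exact hno x x' ((hK.adj_iff v x).2 ⟨h2.symm, K, hvK, h1⟩) hP
          ((hK.adj_iff v x').2 ⟨h4.symm, K, hvK, h3⟩) hP' ((hK.adj_iff x x').2 ⟨hne, K, h1, h3⟩)
      have hS1 : ∀ x x', inc x S → x ≠ v → inc x' S → x' ≠ v → P x → P x' := by
        intro x x' h1 h2 h3 h4 hP
        by_contra hP'
        have hne : x ≠ x' := by
          rintro rfl
          exact hP' hP
        exact hno x x' ((hK.adj_iff v x).2 ⟨h2.symm, S, hvS, h1⟩) hP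
          ((hK.adj_iff v x').2 ⟨h4.symm, S, hvS, h3⟩) hP' ((hK.adj_iff x x').2 ⟨hne, S, h1, h3⟩)
      have hva : G'.Adj v a := (hK.adj_iff v a).2 ⟨hav.symm, K, hvK, haK⟩
      have hvy : G'.Adj v y := (hK.adj_iff v y).2 ⟨hyv.symm, S, hvS, hyS⟩
      have hay' : P a ↔ P y := by
        constructor
        · intro h1
          by_contra h2
          exact hno a y hva h1 hvy h2 hay
        · intro h1
          by_contra h2
          exact hno y a hvy h1 hva h2 hay.symm
      have hall : ∀ x, G'.Adj v x → (P x ↔ P a) := by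
        intro x hx
        obtain ⟨hne, M, h1, h2⟩ := (hK.adj_iff v x).1 hx
        rcases hK.two v K S M hvK hvS h1 with h | h | h
        · exact absurd h hKS
        · subst h
          exact ⟨hK1 x a h2 hne.symm haK hav, hK1 a x haK hav h2 hne.symm⟩
        · subst h
          rw [hay']
          exact ⟨hS1 x y h2 hne.symm hyS hyv, hS1 y x hyS hyv h2 hne.symm⟩
      exact hPd ((hall d hd).2 ((hall c hc).1 hPc))
    have hcomp := hcl v hconn
    -- another vertex of `K`
    obtain ⟨b, hb, hbne⟩ : ∃ b, inc b K ∧ b ≠ v ∧ b ≠ a := by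
      have h1 : 2 < (univ.filter fun w => inc w K).card := by omega
      have h2 : 0 < (((univ.filter fun w => inc w K).erase v).erase a).card := by
        have h3 : a ∈ (univ.filter fun w => inc w K).erase v :=
          mem_erase.2 ⟨hav, mem_filter.2 ⟨mem_univ _, haK⟩⟩
        rw [card_erase_of_mem h3, card_erase_of_mem hvK']
        omega
      obtain ⟨b, hb⟩ := card_pos.1 h2
      rw [mem_erase, mem_erase, mem_filter] at hb
      exact ⟨b, hb.2.2.2, hb.2.1, hb.1⟩
    have hva : G'.Adj v a := (hK.adj_iff v a).2 ⟨hav.symm, K, hvK, haK⟩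
    have hvb : G'.Adj v b := (hK.adj_iff v b).2 ⟨hbne.1.symm, K, hvK, hb⟩
    have hvy : G'.Adj v y := (hK.adj_iff v y).2 ⟨hyv.symm, S, hvS, hyS⟩
    have hyK : ¬ inc y K := fun h => hyv (hdis y h hyS)
    have hby : b ≠ y := by
      rintro rfl
      exact hyK hb
    obtain ⟨-, M, haM, hyM⟩ := (hK.adj_iff a y).1 hay
    obtain ⟨-, M', hbM', hyM'⟩ := (hK.adj_iff b y).1 (hcomp b y hvb hvy hby)
    have hMS : M ≠ S := by
      rintro rfl
      exact hav (hdis a haK haM)
    have hMS' : M' ≠ S := by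
      rintro rfl
      exact hbne.1 (hdis b hb hbM')
    have hMM : M = M' := by
      rcases hK.two y S M M' hyS hyM hyM' with h | h | h
      · exact absurd h.symm hMS
      · exact absurd h.symm hMS'
      · exact h
    rw [← hMM] at hbM'
    have h6 := hK.uniq a b K M hbne.2.symm haK hb haM hbM'
    rw [← h6] at hyM
    exact hyK hyM
  -- the two other vertices of `S`
  have h2 : ((univ.filter fun w => inc w S).erase v).card = 2 := by
    rw [card_erase_of_mem hvS']
    omega
  obtain ⟨y, z, hyz, hyzS⟩ := card_eq_two.1 h2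
  have hmem : ∀ w, (inc w S ∧ w ≠ v) ↔ w = y ∨ w = z := by
    intro w
    have h3 : w ∈ (univ.filter fun w => inc w S).erase v ↔ w ∈ ({y, z} : Finset V) := by
      rw [hyzS]
    rw [mem_erase, mem_filter, mem_insert, mem_singleton] at h3
    constructor
    · rintro ⟨h4, h5⟩
      exact h3.1 ⟨h5, mem_univ _, h4⟩
    · intro h4
      obtain ⟨h5, -, h6⟩ := h3.2 h4
      exact ⟨h6, h5⟩
  obtain ⟨hyS, hyv⟩ := (hmem y).2 (Or.inl rfl)
  obtain ⟨hzS, hzv⟩ := (hmem z).2 (Or.inr rfl)
  have hyK : ¬ inc y K := fun h => hyv (hdis y h hyS)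
  have hzK : ¬ inc z K := fun h => hzv (hdis z h hzS)
  have hvy : G.Adj v y := (hadj y).2 (Or.inr ⟨hyS, hyv⟩)
  have hvz : G.Adj v z := (hadj z).2 (Or.inr ⟨hzS, hzv⟩)
  refine ⟨by omega, ?_, y, z, fun h => hyK (mem_filter.1 h).2,
    fun h => hzK (mem_filter.1 h).2, ?_, ?_, ?_⟩
  · intro a ha b hb hab
    have haK := (mem_filter.1 ha).2
    have hbK := (mem_filter.1 hb).2
    by_cases hav : a = v
    · subst hav
      exact (hadj b).2 (Or.inl ⟨hbK, hab.symm⟩)
    by_cases hbv : b = v
    · subst hbv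
      exact ((hadj a).2 (Or.inl ⟨haK, hab⟩)).symm
    have hay : a ≠ y := by
      rintro rfl
      exact hyK haK
    have hby : b ≠ y := by
      rintro rfl
      exact hyK hbK
    rcases hclaw v a b y ((hadj a).2 (Or.inl ⟨haK, hav⟩)) ((hadj b).2 (Or.inl ⟨hbK, hbv⟩)) hvy
      hab hay hby with h | h | h
    · exact h
    · exact absurd (hle h) (hno a y haK hav hyS hyv)
    · exact absurd (hle h) (hno b y hbK hbv hyS hyv)
  · obtain ⟨a, ha⟩ : ∃ a, inc a K ∧ a ≠ v := by
      have h3 : 0 < ((univ.filter fun w => inc w K).erase v).card := by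
        rw [card_erase_of_mem hvK']
        omega
      obtain ⟨a, ha⟩ := card_pos.1 h3
      rw [mem_erase, mem_filter] at ha
      exact ⟨a, ha.2.2, ha.1⟩
    have hay : y ≠ a := by
      rintro rfl
      exact hyK ha.1
    have haz : z ≠ a := by
      rintro rfl
      exact hzK ha.1
    rcases hclaw v y z a hvy hvz ((hadj a).2 (Or.inl ha)) hyz hay haz with h | h | h
    · exact h
    · exact absurd (hle h.symm) (hno a y ha.1 ha.2 hyS hyv)
    · exact absurd (hle h.symm) (hno a z ha.1 ha.2 hzS hzv)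
  · intro w
    rw [hadj w, hmem w, mem_filter]
    constructor
    · rintro (h | h)
      · exact Or.inl ⟨⟨mem_univ _, h.1⟩, h.2⟩
      · exact Or.inr h
    · rintro (h | h)
      · exact Or.inl ⟨h.1.2, h.2⟩
      · exact Or.inr h
  · intro a ha hav
    have haK := (mem_filter.1 ha).2
    exact ⟨fun h => hno a y haK hav hyS hyv (hle h), fun h => hno a z haK hav hzS hzv (hle h)⟩

/-- The second vertex of small degree. -/
theorem second {G G' : SimpleGraph V} {inc : V → C → Prop} (hle : G ≤ G')
    (hK : Krausz G' inc) (hcut : NoSmallCut G')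
    (hbig : ∀ v, ∃ K, Big inc K ∧ inc v K) {K S : C} (hbK : Big inc K)
    (hK4 : (univ.filter fun v => inc v K).card = 4) (hS : ¬ Big inc S) {v : V} (hvS : inc v S)
    (hvK : inc v K) {j : V ⊕ C} (hjS : j ≠ Sum.inr S) (hKj : K ∈ hyp inc j)
    (hj : 2 ≤ (hyp inc j).card)
    (hL : (hyp inc j).card = 3 ∨ ∃ L ∈ hyp inc j, L ≠ K ∧
      (univ.filter fun i => Crosses (hyp inc i) {L}).card ≤ 4) :
    ∃ a, inc a K ∧ a ≠ v ∧ (univ.filter fun w => G.Adj a w).card ≤ 6 := by
  have hKS : K ≠ S := by
    rintro rfl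
    exact hS hbK
  rcases j with a | S'
  · -- two big cells
    have hKa := (mem_filter.1 hKj).2
    have h2 : (hyp inc (Sum.inl a)).card ≤ 2 := by
      by_contra h
      obtain ⟨K₁, h2, L, h3, M, h4, h5, h6, h7⟩ := Finset.two_lt_card.1
        (by omega : 2 < (hyp inc (Sum.inl a)).card)
      rcases hK.two a K₁ L M (Finset.mem_filter.1 h2).2.2 (Finset.mem_filter.1 h3).2.2
        (Finset.mem_filter.1 h4).2.2 with h | h | h
      · exact h5 h
      · exact h6 h
      · exact h7 h
    rcases hL with h3 | ⟨L, hLj, hLK, hLdeg⟩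
    · omega
    have hLa := (mem_filter.1 hLj).2
    have hav : a ≠ v := by
      rintro rfl
      rcases hK.two a K S L hvK hvS hLa.2 with h | h | h
      · exact hKS h
      · exact hLK h.symm
      · rw [h] at hS
        exact hS hLa.1
    -- a vertex of `K` which is not in `L`
    have hvL : ¬ inc v L := by
      intro h
      exact hLK (hK.uniq a v L K hav hLa.2 h hKa.2 hvK)
    have h4 := card_four hK hcut hbig hLa.1 hLdeg hvL
    have h5 := deg_le hle hK hKa.2 hLa.2 hLK.symm
    exact ⟨a, hKa.2, hav, by omega⟩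
  · obtain ⟨hS', -, a, haS', haK⟩ := (mem_filter.1 hKj).2
    have hSS : S ≠ S' := by
      rintro rfl
      exact hjS rfl
    have hKS' : K ≠ S' := by
      rintro rfl
      exact hS' hbK
    have hav : a ≠ v := by
      rintro rfl
      rcases hK.two a K S S' haK hvS haS' with h | h | h
      · exact hKS h
      · exact hKS' h
      · exact hSS h
    have h5 := deg_le hle hK haK haS' hKS'
    have h6 := C1x.small_card hS'
    exact ⟨a, haK, hav, by omega⟩

/-- **Row R4b** -/
theorem bad_of_cell {G G' : SimpleGraph V} {inc : V → C → Prop} (hle : G ≤ G')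
    (hclaw : ClawFree G) (hcl : Closed G') (hK : Krausz G' inc) (hN : NoSmallCut G)
    (hcut : NoSmallCut G') (hnc : ∃ u v, u ≠ v ∧ ¬ G.Adj u v)
    (hbig : ∀ v, ∃ K, Big inc K ∧ inc v K) {K : C} (hbK : Big inc K)
    (hdeg : (univ.filter fun i => Crosses (hyp inc i) {K}).card ≤ 4) {i j : V ⊕ C} (hij : i ≠ j)
    (hi : K ∈ hyp inc i) (hi3 : (hyp inc i).card = 3) (hj : K ∈ hyp inc j)
    (hj2 : 2 ≤ (hyp inc j).card)
    (hL : (hyp inc j).card = 3 ∨ ∃ L ∈ hyp inc j, L ≠ K ∧
      (univ.filter fun i => Crosses (hyp inc i) {L}).card ≤ 4) :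
    (univ.filter fun v => inc v K).card = 4 ∧
    (∀ a ∈ (univ.filter fun v => inc v K), ∀ b ∈ (univ.filter fun v => inc v K), a ≠ b →
      G.Adj a b) ∧
    ∃ v ∈ (univ.filter fun v => inc v K), (univ.filter fun w => G.Adj v w).card = 5 ∧
    (∃ y z, y ∉ (univ.filter fun v => inc v K) ∧ z ∉ (univ.filter fun v => inc v K) ∧
    G.Adj y z ∧ (∀ w, G.Adj v w ↔ (w ∈ (univ.filter fun v => inc v K) ∧ w ≠ v) ∨ w = y ∨ w = z) ∧
    ∀ a ∈ (univ.filter fun v => inc v K), a ≠ v → ¬ G.Adj a y ∧ ¬ G.Adj a z) ∧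
    ∃ a ∈ (univ.filter fun v => inc v K), a ≠ v ∧ (univ.filter fun w => G.Adj a w).card ≤ 6 := by
  obtain ⟨S, rfl⟩ : ∃ S, i = Sum.inr S := by
    rcases i with v | S
    · exfalso
      have h1 : 2 < (hyp inc (Sum.inl v)).card := by omega
      obtain ⟨K, h2, L, h3, M, h4, h5, h6, h7⟩ := Finset.two_lt_card.1 h1
      rcases hK.two v K L M (Finset.mem_filter.1 h2).2.2 (Finset.mem_filter.1 h3).2.2
        (Finset.mem_filter.1 h4).2.2 with h | h | h
      · exact h5 h
      · exact h6 h
      · exact h7 h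
    · exact ⟨S, rfl⟩
  obtain ⟨hSsmall, -, v, hvS, hvK⟩ := (mem_filter.1 hi).2
  have hKS : K ≠ S := by
    rintro rfl
    exact hSsmall hbK
  obtain ⟨w₀, hw₀⟩ : ∃ w, ¬ inc w K := by
    obtain ⟨M, hM, hMK⟩ := Finset.exists_mem_ne (by omega : 1 < (hyp inc (Sum.inr S)).card) K
    obtain ⟨-, hbM, w, hwS, hwM⟩ := (mem_filter.1 hM).2
    refine ⟨w, fun hwK => ?_⟩
    rcases hK.two w K M S hwK hwM hwS with h | h | h
    · exact hMK h.symm
    · exact hKS h
    · rw [h] at hbM
      exact hSsmall hbM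
  have h4 := card_four hK hcut hbig hbK hdeg hw₀
  obtain ⟨h5, h6, h7⟩ := spot_at hle hclaw hcl hK hN hnc h4 hSsmall hKS hvS hvK
  obtain ⟨a, ha, hav, ha6⟩ := second (G := G) hle hK hcut hbig hbK h4 hSsmall hvS hvK hij.symm hj
    hj2 hL
  exact ⟨h4, h6, v, mem_filter.2 ⟨mem_univ _, hvK⟩, h5, h7, a, mem_filter.2 ⟨mem_univ _, ha⟩, hav,
    ha6⟩

end TSG

end Pool.Agent.ClawHam
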