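import Pool.Agent.Lib.MP_e2dbb5_co.SP0
import Pool.Agent.Lib.MP_e2dbb5_co.TSG

/-!
# The graph side: separated vertices of degree five (helper90)
-/

set_option autoImplicit false
set_option linter.unusedSectionVars false

open Finset

noncomputable section

namespace Pool.Agent.ClawHam

open Classical

namespace SP

namespace MS

/-! ### The closure -/

theorem low_symm {V : Type} [Fintype V] {G : SimpleGraph V} {u w : V} (h : Low G u w) :
    Low G w u := ⟨h.1.symm, h.2.2, h.2.1⟩

theorem path_symm {V : Type} [Fintype V] {G : SimpleGraph V} {u w : V}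
    (h : Relation.ReflTransGen (Low G) u w) : Relation.ReflTransGen (Low G) w u := by
  induction h with
  | refl => exact Relation.ReflTransGen.refl
  | tail _ hxy ih => exact Relation.ReflTransGen.head (low_symm hxy) ih

theorem deg_mono {V : Type} [Fintype V] {G G' : SimpleGraph V} (hle : G ≤ G') (x : V) :
    (univ.filter fun z => G.Adj x z).card ≤ (univ.filter fun z => G'.Adj x z).card :=
  card_le_card fun _ hw => mem_filter.2 ⟨mem_univ _, hle (mem_filter.1 hw).2⟩

theorem deg_lt {V : Type} [Fintype V] {G G' : SimpleGraph V} (hle : G ≤ G') {x y : V}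
    (h : G'.Adj x y) (h' : ¬ G.Adj x y) :
    (univ.filter fun z => G.Adj x z).card < (univ.filter fun z => G'.Adj x z).card := by
  refine card_lt_card (Finset.ssubset_iff_subset_ne.2
    ⟨fun _ hw => mem_filter.2 ⟨mem_univ _, hle (mem_filter.1 hw).2⟩, ?_⟩)
  intro hs
  have h1 : y ∈ univ.filter fun z => G'.Adj x z := mem_filter.2 ⟨mem_univ y, h⟩
  rw [← hs] at h1
  exact h' (mem_filter.1 h1).2

theorem sep5_closure {V : Type} [Fintype V] {G G' : SimpleGraph V} (hle : G ≤ G')
    (h5 : ∀ v, 5 ≤ (univ.filter fun w => G.Adj v w).card) (hs : Sep5 G) : Sep5 G' := by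
  intro u w hu hw hpath
  have hu' : (univ.filter fun z => G.Adj u z).card = 5 := by
    have h1 := deg_mono hle u
    have h2 := h5 u
    omega
  have hw' : (univ.filter fun z => G.Adj w z).card = 5 := by
    have h1 := deg_mono hle w
    have h2 := h5 w
    omega
  refine hs u w hu' hw' ?_
  clear hw hw'
  induction hpath with
  | refl => exact Relation.ReflTransGen.refl
  | @tail x y _ hxy ih =>
    by_cases hadj : G.Adj x y
    · refine ih.tail ⟨hadj, (deg_mono hle x).trans hxy.2.1, (deg_mono hle y).trans hxy.2.2⟩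
    · exfalso
      have h1 := deg_lt hle hxy.1 hadj
      have h2 := h5 x
      have h3 := hxy.2.1
      have h4 := hs u x hu' (by omega) ih
      rw [← h4] at h1
      omega

/-! ### The components of the vertices of small degree -/

/-- the components -/
def low {V : Type} [Fintype V] (G : SimpleGraph V) : Setoid V where
  r := Relation.ReflTransGen (Low G)
  iseqv := ⟨fun _ => Relation.ReflTransGen.refl, path_symm, fun h h' => h.trans h'⟩

/-- the number of the component -/
def cn {V : Type} [Fintype V] (G : SimpleGraph V) (v : V) : ℕ :=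
  (Fintype.equivFin (Quotient (low G)) (Quotient.mk (low G) v) : ℕ)

theorem cn_eq {V : Type} [Fintype V] {G : SimpleGraph V} {u v : V} :
    cn G u = cn G v ↔ Relation.ReflTransGen (Low G) u v := by
  unfold cn
  constructor
  · intro h
    exact Quotient.exact ((Fintype.equivFin _).injective (Fin.ext h))
  · intro h
    rw [show Quotient.mk (low G) u = Quotient.mk (low G) v from Quotient.sound h]

/-- the colour of a cell -/
def col {V C : Type} [Fintype V] [Fintype C] (G : SimpleGraph V) (inc : V → C → Prop) (K : C) :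
    ℕ :=
  if h : ∃ a, inc a K ∧ (univ.filter fun z => G.Adj a z).card ≤ 6 then cn G h.choose else
    Fintype.card (Quotient (low G)) + Fintype.equivFin C K

theorem col_eq {V C : Type} [Fintype V] [Fintype C] {G : SimpleGraph V} {inc : V → C → Prop}
    (hK : Krausz G inc) {K : C} {a : V} (ha : inc a K)
    (ha6 : (univ.filter fun z => G.Adj a z).card ≤ 6) : col G inc K = cn G a := by
  have h : ∃ a, inc a K ∧ (univ.filter fun z => G.Adj a z).card ≤ 6 := ⟨a, ha, ha6⟩
  unfold col
  rw [dif_pos h, cn_eq]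
  obtain ⟨h1, h2⟩ := h.choose_spec
  by_cases h3 : h.choose = a
  · rw [h3]
  · exact Relation.ReflTransGen.single ⟨(hK.adj_iff _ _).2 ⟨h3, K, h1, ha⟩, h2, ha6⟩

/-- the colouring, relative form -/
def RelCol {B I : Type} [Fintype I] (e : I → Finset B) : Prop :=
  ∃ κ : B → ℕ, (∀ i, (e i).card = 2 → ∀ u ∈ e i, ∀ u' ∈ e i,
      (univ.filter fun i => Crosses (e i) {u}).card ≤ 4 →
      (univ.filter fun i => Crosses (e i) {u'}).card ≤ 4 → κ u = κ u') ∧
    ∀ i i', (e i).card = 3 → (e i').card = 3 → ∀ u ∈ e i, ∀ u' ∈ e i',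
      (univ.filter fun i => Crosses (e i) {u}).card ≤ 4 →
      (univ.filter fun i => Crosses (e i) {u'}).card ≤ 4 → κ u = κ u' → i = i' ∧ u = u'

theorem inl_card {V C : Type} [Fintype V] [Fintype C] {G : SimpleGraph V} {inc : V → C → Prop}
    (hK : Krausz G inc) (a : V) : (hyp inc (Sum.inl a)).card ≤ 2 := by
  by_contra h
  obtain ⟨K₁, h2, L, h3, M, h4, h5, h6, h7⟩ := Finset.two_lt_card.1
    (by omega : 2 < (hyp inc (Sum.inl a)).card)
  rcases hK.two a K₁ L M (Finset.mem_filter.1 h2).2.2 (Finset.mem_filter.1 h3).2.2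
    (Finset.mem_filter.1 h4).2.2 with h | h | h
  · exact h5 h
  · exact h6 h
  · exact h7 h

theorem relCol {V C : Type} [Fintype V] [Fintype C] {G : SimpleGraph V} {inc : V → C → Prop}
    (hK : Krausz G inc) (hcut : NoSmallCut G) (hbig : ∀ v, ∃ K, Big inc K ∧ inc v K)
    (h5 : ∀ v, 5 ≤ (univ.filter fun w => G.Adj v w).card) (hw : ∀ K : C, ∃ w, ¬ inc w K)
    (hs : Sep5 G) : RelCol (hyp inc) := by
  have h4 : ∀ K : C, Big inc K → (univ.filter fun i => Crosses (hyp inc i) {K}).card ≤ 4 →
      (univ.filter fun v => inc v K).card = 4 := by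
    intro K hbK hdeg
    obtain ⟨w, hw⟩ := hw K
    exact TSG.card_four hK hcut hbig hbK hdeg hw
  refine ⟨col G inc, ?_, ?_⟩
  · intro i hi K hKi L hLi hdK hdL
    by_cases hKL : K = L
    · rw [hKL]
    rcases i with a | S
    · obtain ⟨-, hbK, haK⟩ := mem_filter.1 hKi
      obtain ⟨-, hbL, haL⟩ := mem_filter.1 hLi
      have h6 := TSG.deg_le (le_refl G) hK haK haL hKL
      have h7 := h4 K hbK hdK
      have h8 := h4 L hbL hdL
      rw [col_eq hK haK (by omega), col_eq hK haL (by omega)]
    · obtain ⟨-, hS, hbK, a, haS, haK⟩ := mem_filter.1 hKi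
      obtain ⟨-, -, hbL, b, hbS, hbL'⟩ := mem_filter.1 hLi
      have hKS : K ≠ S := by
        rintro rfl
        exact hS hbK
      have hLS : L ≠ S := by
        rintro rfl
        exact hS hbL
      have h6 := TSG.deg_le (le_refl G) hK haK haS hKS
      have h6' := TSG.deg_le (le_refl G) hK hbL' hbS hLS
      have h7 := h4 K hbK hdK
      have h8 := h4 L hbL hdL
      have h9 := C1x.small_card hS
      rw [col_eq hK haK (by omega), col_eq hK hbL' (by omega), cn_eq]
      by_cases hab : a = b
      · rw [hab]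
      · exact Relation.ReflTransGen.single ⟨(hK.adj_iff _ _).2 ⟨hab, S, haS, hbS⟩, by omega,
          by omega⟩
  · intro i i' hi hi' K hKi L hLi hdK hdL hκ
    rcases i with a | S
    · have := inl_card hK a
      omega
    rcases i' with a | S'
    · have := inl_card hK a
      omega
    obtain ⟨-, hS, hbK, v, hvS, hvK⟩ := mem_filter.1 hKi
    obtain ⟨-, hS', hbL, w, hwS, hwL⟩ := mem_filter.1 hLi
    have hKS : K ≠ S := by
      rintro rfl
      exact hS hbK
    have hLS : L ≠ S' := by
      rintro rfl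
      exact hS' hbL
    have h6 := TSG.deg_le (le_refl G) hK hvK hvS hKS
    have h6' := TSG.deg_le (le_refl G) hK hwL hwS hLS
    have h7 := h4 K hbK hdK
    have h8 := h4 L hbL hdL
    have h9 := C1x.small_card hS
    have h9' := C1x.small_card hS'
    have h10 := h5 v
    have h11 := h5 w
    rw [col_eq hK hvK (by omega), col_eq hK hwL (by omega), cn_eq] at hκ
    have hvw := hs v w (by omega) (by omega) hκ
    subst hvw
    have hKL : K = L := by
      rcases hK.two v K S L hvK hvS hwL with h | h | h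
      · exact absurd h hKS
      · exact h
      · rw [h] at hS
        exact absurd hbL hS
    have hSS : S = S' := by
      rcases hK.two v K S S' hvK hvS hwS with h | h | h
      · exact absurd h hKS
      · rw [← h] at hS'
        exact absurd hbK hS'
      · exact h
    exact ⟨by rw [hSS], hKL⟩

/-! ### The relative form of the lemma on hypergraphs -/

theorem rowh5Sep (hL : HypSep) (B I : Type) [Fintype B] [Fintype I] (B₀ : Finset B)
    (e : I → Finset B) (he : ∀ i, e i ⊆ B₀ ∧ (e i).card ≤ 3) (hF : FourConn B₀ e)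
    (hF5 : FiveEss B₀ e)
    (hm : RelCol e) : EvenConn B₀ e := by
  set emb : {b // b ∈ B₀} ↪ B := Function.Embedding.subtype _ with hemb
  have hev : ∀ b : {b // b ∈ B₀}, emb b = b.1 := fun _ => rfl
  set e' : {i // 2 ≤ (e i).card} → Finset {b // b ∈ B₀} := fun i => (e i.1).subtype (· ∈ B₀)
    with he'
  have hmem : ∀ (i : {i // 2 ≤ (e i).card}) (b : {b // b ∈ B₀}), b ∈ e' i ↔ b.1 ∈ e i.1 :=
    fun i b => mem_subtype
  have hcard : ∀ i : {i // 2 ≤ (e i).card}, (e' i).card = (e i.1).card := by
    intro i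
    rw [he']
    simp only
    rw [card_subtype, filter_true_of_mem]
    intro x hx
    exact (he i.1).1 hx
  have hcross : ∀ X' : Finset {b // b ∈ B₀},
      (univ.filter fun i => Crosses (e i) (X'.map emb)).card ≤
        (univ.filter fun i : {i // 2 ≤ (e i).card} => Crosses (e' i) X').card := by
    intro X'
    refine le_trans (card_le_card ?_) (card_image_le
      (s := univ.filter fun i : {i // 2 ≤ (e i).card} => Crosses (e' i) X') (f := Subtype.val))
    intro i hi
    obtain ⟨⟨a, ha, haX⟩, b, hb, hbX⟩ := (mem_filter.1 hi).2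
    obtain ⟨a', ha', rfl⟩ := mem_map.1 haX
    have h2 : 2 ≤ (e i).card := by
      have h3 : 1 < (e i).card := by
        rw [one_lt_card]
        refine ⟨emb a', ha, b, hb, ?_⟩
        rintro rfl
        exact hbX haX
      omega
    refine mem_image.2 ⟨⟨i, h2⟩, mem_filter.2 ⟨mem_univ _, ⟨a', (hmem _ _).2 ha, ha'⟩,
      ⟨b, (he i).1 hb⟩, (hmem _ _).2 hb, ?_⟩, rfl⟩
    intro h3
    exact hbX (mem_map.2 ⟨_, h3, rfl⟩)
  obtain ⟨f', hf1, hf2, hf3⟩ := hL {b // b ∈ B₀} {i // 2 ≤ (e i).card} e' (by
    intro i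
    rw [hcard]
    have h1 := (he i.1).2
    have h2 := i.2
    omega) (by
    intro X' _ hne hX
    have h1 := hF (X'.map emb) (by
      intro b hb
      obtain ⟨c, _, rfl⟩ := mem_map.1 hb
      exact c.2) (by
      obtain ⟨c, hc⟩ := hne
      exact ⟨emb c, mem_map_of_mem _ hc⟩) (by
      intro h
      apply hX
      rw [eq_univ_iff_forall]
      intro c
      have h2 : emb c ∈ X'.map emb := by
        rw [h]
        exact c.2
      exact (mem_map' emb).1 h2)
    exact h1.trans (hcross X')) (by
    intro X' _ hX2 hX3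
    have h1 : (univ : Finset {b // b ∈ B₀}).card = B₀.card := by
      rw [card_univ, Fintype.card_coe]
    have h2 := hF5 (X'.map emb) (by
      intro b hb
      obtain ⟨c, _, rfl⟩ := mem_map.1 hb
      exact c.2) (by rw [card_map]; exact hX2) (by rw [card_map, ← h1]; exact hX3)
    exact h2.trans (hcross X')) (by
    obtain ⟨κ, hκ1, hκ2⟩ := hm
    have hD : ∀ c : {b // b ∈ B₀}, D4 e' c →
        (univ.filter fun i => Crosses (e i) {c.1}).card ≤ 4 := by
      intro c hc
      have h4 := hcross {c}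
      rw [map_singleton] at h4
      exact h4.trans (le_of_eq hc)
    refine ⟨fun b => κ b.1, ?_, ?_⟩
    · intro i hi u hu u' hu' h1 h2
      exact hκ1 i.1 (by rw [← hcard]; exact hi) u.1 ((hmem _ _).1 hu) u'.1 ((hmem _ _).1 hu')
        (hD u h1) (hD u' h2)
    · intro i i' hi hi' u hu u' hu' h1 h2 h3
      obtain ⟨h4, h5⟩ := hκ2 i.1 i'.1 (by rw [← hcard]; exact hi) (by rw [← hcard]; exact hi')
        u.1 ((hmem _ _).1 hu) u'.1 ((hmem _ _).1 hu') (hD u h1) (hD u' h2) h3
      exact ⟨Subtype.ext h4, Subtype.ext h5⟩)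
  obtain ⟨F, hpos, hneg⟩ : ∃ F : I → Finset B,
      (∀ i (h : 2 ≤ (e i).card), F i = (f' ⟨i, h⟩).map emb) ∧
        ∀ i, ¬ 2 ≤ (e i).card → F i = ∅ :=
    ⟨fun i => if h : 2 ≤ (e i).card then (f' ⟨i, h⟩).map emb else ∅, fun i h => dif_pos h,
      fun i h => dif_neg h⟩
  refine ⟨F, ?_, ?_, ?_⟩
  · intro i
    by_cases h : 2 ≤ (e i).card
    · rw [hpos i h]
      refine ⟨?_, ?_⟩
      · intro b hb
        obtain ⟨c, hc, rfl⟩ := mem_map.1 hb
        exact (hmem _ _).1 ((hf1 _).1 hc)
      · rcases (hf1 ⟨i, h⟩).2 with h1 | h1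
        · left
          rw [h1, map_empty]
        · right
          rw [card_map, h1]
    · rw [hneg i h]
      exact ⟨empty_subset _, Or.inl rfl⟩
  · intro K
    by_cases hK : K ∈ B₀
    · have h1 : (univ.filter fun i => K ∈ F i) =
          (univ.filter fun i : {i // 2 ≤ (e i).card} => (⟨K, hK⟩ : {b // b ∈ B₀}) ∈ f' i).map
            (Function.Embedding.subtype _) := by
        ext i
        rw [mem_filter, mem_map]
        constructor
        · rintro ⟨_, h2⟩
          by_cases h : 2 ≤ (e i).card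
          · rw [hpos i h, mem_map] at h2
            obtain ⟨c, hc, hcK⟩ := h2
            refine ⟨⟨i, h⟩, mem_filter.2 ⟨mem_univ _, ?_⟩, rfl⟩
            have h3 : c = ⟨K, hK⟩ := Subtype.ext hcK
            rwa [← h3]
          · rw [hneg i h] at h2
            exact absurd h2 (notMem_empty _)
        · rintro ⟨j, hj, rfl⟩
          refine ⟨mem_univ _, ?_⟩
          have h2 : 2 ≤ (e (Function.Embedding.subtype _ j)).card := j.2
          rw [hpos _ h2]
          exact mem_map.2 ⟨⟨K, hK⟩, (mem_filter.1 hj).2, rfl⟩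
      rw [h1, card_map]
      exact key _ _ _ (hf2 ⟨K, hK⟩)
    · have h1 : (univ.filter fun i => K ∈ F i) = ∅ := by
        rw [filter_eq_empty_iff]
        intro i _ h2
        by_cases h : 2 ≤ (e i).card
        · rw [hpos i h, mem_map] at h2
          obtain ⟨c, _, rfl⟩ := h2
          exact hK c.2
        · rw [hneg i h] at h2
          exact absurd h2 (notMem_empty _)
      rw [h1, card_empty]
      exact Even.zero
  · intro X hXB hne hX
    obtain ⟨j, ⟨a, ha, haX⟩, b, hb, hbX⟩ := hf3 (X.subtype (· ∈ B₀)) (subset_univ _) (by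
      obtain ⟨c, hc⟩ := hne
      exact ⟨⟨c, hXB hc⟩, mem_subtype.2 hc⟩) (by
      intro h
      apply hX
      refine Subset.antisymm hXB fun c hc => ?_
      have h1 : (⟨c, hc⟩ : {b // b ∈ B₀}) ∈ X.subtype (· ∈ B₀) := by
        rw [h]
        exact mem_univ _
      exact mem_subtype.1 h1)
    refine ⟨j.1, ⟨a.1, ?_, mem_subtype.1 haX⟩, b.1, ?_, fun h => hbX (mem_subtype.2 h)⟩
    · rw [hpos _ j.2]
      exact mem_map.2 ⟨a, ha, rfl⟩
    · rw [hpos _ j.2]
      exact mem_map.2 ⟨b, hb, rfl⟩

end MS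

open MS

/-- **Row MAINSEP** -/
theorem rowMainSep : RowMainSep := by
  intro hyp' V _ _ G hN h3 hclaw hsep
  obtain ⟨G', hle, hcf, hcl, hham⟩ := (rowD2 rowd1) V G hclaw
  refine rowE5 V G (hham ?_)
  have hN' : NoSmallCut G' := by
    intro S A C h1 h2 h4 h5 h6 h7 h8
    exact hN S A C h1 h2 h4 h5 h6 h7 fun a ha c hc hac => h8 a ha c hc (hle hac)
  by_cases hcomp : ∀ u v, u ≠ v → G'.Adj u v
  · exact ham_of_complete G' h3 hcomp
  push Not at hcomp
  have hcompG : ∃ u v, u ≠ v ∧ ¬ G.Adj u v := by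
    obtain ⟨u, v, h1, h2⟩ := hcomp
    exact ⟨u, v, h1, fun h => h2 (hle h)⟩
  have hiso : ∀ v, ∃ w, G'.Adj v w := by
    intro v
    by_contra hno
    push Not at hno
    have h5 := hN' ∅ {v} ({v}ᶜ) (by
        intro w
        simp only [notMem_empty, mem_singleton, mem_compl, false_or]
        exact Classical.em _)
      (by simp) (by simp) (by simp) (singleton_nonempty v)
      (by
        rw [← card_pos, card_compl, card_singleton]
        omega)
      (by
        intro a ha c _ hac
        rw [mem_singleton] at ha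
        rw [ha] at hac
        exact hno c hac)
    simp at h5
  obtain ⟨C, _, inc, hK⟩ := D3.rowD3 V G' hcf hcl hiso
  have hbig := rowc0 V C G' inc hK hN' hcomp
  obtain ⟨hr, hfour⟩ := rowc1 V C G' inc hK hN' hbig
  have h5 : ∀ v, 5 ≤ (univ.filter fun w => G.Adj v w).card := five_le_deg hN hcompG
  have hw : ∀ K : C, ∃ w, ¬ inc w K := by
    intro K
    by_contra hno
    push Not at hno
    obtain ⟨u, v, huv, hadj⟩ := hcomp
    exact hadj ((hK.adj_iff u v).2 ⟨huv, K, hno u, hno v⟩)
  have heven := rowh5Sep hyp' C (V ⊕ C) (bigs inc) (Pool.Agent.ClawHam.hyp inc) hr hfour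
    (rowc5 V C G' inc hK hN' hbig)
    (relCol hK hN' hbig (five_le_deg hN' hcomp) hw (sep5_closure hle h5 hsep))
  have htwo : 2 ≤ (bigs inc).card := by
    by_contra hlt
    obtain ⟨u, v, huv, hadj⟩ := hcomp
    obtain ⟨K, hK1, hK2⟩ := hbig u
    obtain ⟨L, hL1, hL2⟩ := hbig v
    have hKL : K = L := by
      have h1 : (bigs inc).card ≤ 1 := by omega
      rw [card_le_one] at h1
      exact h1 K (by simp [bigs, hK1]) L (by simp [bigs, hL1])
    exact hadj ((hK.adj_iff u v).2 ⟨huv, K, hK2, by rw [hKL]; exact hL2⟩)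
  obtain ⟨F, hF⟩ := rowe1 V C G' inc hK hbig htwo heven
  obtain ⟨σ, hσ1, hσ2⟩ := rowe3 V C inc F hK.two hF (rowe2 V C inc F hK.two hK.ex hF.two hF.even)
  exact E4.rowE4 V G' σ h3 hσ1 fun v hv => (hK.adj_iff v (σ v)).2 ⟨hv, hσ2 v⟩

end SP

end Pool.Agent.ClawHam
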