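import Pool.Agent.Lib.MP_e2dbb5_co.SP0

/-!
# Separated vertices of degree five: uncrossing for one hyperedge (helper79)
-/

set_option autoImplicit false
set_option linter.unusedSectionVars false

open Finset

noncomputable section

namespace Pool.Agent.ClawHam

namespace SP

namespace Unc

/-- not all equal -/
def f (a b c : Bool) : ℕ := if a = b ∧ b = c then 0 else 1

theorem two : ∀ a1 b1 a2 b2 a3 b3 : Bool,
    (f (a1 && b1) (a2 && b2) (a3 && b3) + f (a1 || b1) (a2 || b2) (a3 || b3) ≤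
      f a1 a2 a3 + f b1 b2 b3) ∧
    (f (a1 && !b1) (a2 && !b2) (a3 && !b3) + f (b1 && !a1) (b2 && !a2) (b3 && !a3) ≤
      f a1 a2 a3 + f b1 b2 b3) := by decide

set_option maxRecDepth 4000 in
theorem three : ∀ a1 b1 c1 a2 b2 c2 a3 b3 c3 : Bool,
    (f (a1 && b1 && !c1) (a2 && b2 && !c2) (a3 && b3 && !c3) +
      f (a1 && c1 && !b1) (a2 && c2 && !b2) (a3 && c3 && !b3) +
      f (b1 && c1 && !a1) (b2 && c2 && !a2) (b3 && c3 && !a3) +
      f (a1 || b1 || c1) (a2 || b2 || c2) (a3 || b3 || c3) ≤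
      f a1 a2 a3 + f b1 b2 b3 + f c1 c2 c3) ∧
    (f (a1 && !(b1 || c1)) (a2 && !(b2 || c2)) (a3 && !(b3 || c3)) +
      f (b1 && !(a1 || c1)) (b2 && !(a2 || c2)) (b3 && !(a3 || c3)) +
      f (c1 && !(a1 || b1)) (c2 && !(a2 || b2)) (c3 && !(a3 || b3)) +
      f (a1 && b1 && c1) (a2 && b2 && c2) (a3 && b3 && c3) ≤
      f a1 a2 a3 + f b1 b2 b3 + f c1 c2 c3) := by decide

open Classical in
theorem cr_eq {V : Type} (p q r : V) (X : Finset V) :
    cr {p, q, r} X = f (decide (p ∈ X)) (decide (q ∈ X)) (decide (r ∈ X)) := by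
  unfold cr f Crosses
  by_cases h1 : p ∈ X <;> by_cases h2 : q ∈ X <;> by_cases h3 : r ∈ X <;>
    simp [h1, h2, h3]

open Classical in
theorem repr {V : Type} (e : Finset V) (he : e.card ≤ 3) : e = ∅ ∨ ∃ p q r, e = {p, q, r} := by
  have h : e.card = 0 ∨ e.card = 1 ∨ e.card = 2 ∨ e.card = 3 := by omega
  rcases h with h | h | h | h
  · exact Or.inl (card_eq_zero.1 h)
  · obtain ⟨a, rfl⟩ := card_eq_one.1 h
    exact Or.inr ⟨a, a, a, by simp⟩
  · obtain ⟨a, b, -, rfl⟩ := card_eq_two.1 h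
    exact Or.inr ⟨a, a, b, by simp⟩
  · obtain ⟨a, b, c, -, -, -, rfl⟩ := card_eq_three.1 h
    exact Or.inr ⟨a, b, c, rfl⟩

end Unc

open Classical Unc in
theorem rowUnc : RowUnc := by
  intro V e he A B C
  rcases repr e he with rfl | ⟨p, q, r, rfl⟩
  · have h : ∀ X : Finset V, cr ∅ X = 0 := by
      intro X
      unfold cr Crosses
      simp
    simp only [h]
    simp
  · simp only [cr_eq]
    have h2 := two (decide (p ∈ A)) (decide (p ∈ B)) (decide (q ∈ A)) (decide (q ∈ B))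
      (decide (r ∈ A)) (decide (r ∈ B))
    have h3 := three (decide (p ∈ A)) (decide (p ∈ B)) (decide (p ∈ C)) (decide (q ∈ A))
      (decide (q ∈ B)) (decide (q ∈ C)) (decide (r ∈ A)) (decide (r ∈ B)) (decide (r ∈ C))
    have e1 : ∀ (z : V) (X Y : Finset V), decide (z ∈ X ∩ Y) = (decide (z ∈ X) && decide (z ∈ Y)) := by
      intro z X Y
      by_cases h1 : z ∈ X <;> by_cases h2 : z ∈ Y <;> simp [h1, h2]
    have e2 : ∀ (z : V) (X Y : Finset V), decide (z ∈ X ∪ Y) = (decide (z ∈ X) || decide (z ∈ Y)) := by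
      intro z X Y
      by_cases h1 : z ∈ X <;> by_cases h2 : z ∈ Y <;> simp [h1, h2]
    have e3 : ∀ (z : V) (X Y : Finset V), decide (z ∈ X \ Y) = (decide (z ∈ X) && !decide (z ∈ Y)) := by
      intro z X Y
      by_cases h1 : z ∈ X <;> by_cases h2 : z ∈ Y <;> simp [h1, h2]
    simp only [e1, e2, e3]
    exact ⟨h2.1, h2.2, h3.1, h3.2⟩

end SP

end Pool.Agent.ClawHam
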