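import Pool.Agent.Lib.MP_e2dbb5_co.SP0
import Pool.Agent.Lib.MP_e2dbb5_co.SP_Unc

/-!
# The splitting lemma (second copy, helper16; proof of helper79)
-/

set_option autoImplicit false
set_option linter.unusedSectionVars false

open Finset

noncomputable section

namespace Pool.Agent.ClawHam

open Classical

namespace SP

namespace S16

variable {V : Type}

/-- `F` meets `X` -/
def fi (F X : Finset V) : ℕ := if ∃ a ∈ F, a ∈ X then 1 else 0

/-- `F` is not contained in `X` -/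
def fo (F X : Finset V) : ℕ := if ∃ a ∈ F, a ∉ X then 1 else 0

/-- the number of the three vertices in `X` -/
def sx (x1 x2 x3 : V) (X : Finset V) : ℕ :=
  (if x1 ∈ X then 1 else 0) + (if x2 ∈ X then 1 else 0) + (if x3 ∈ X then 1 else 0)

theorem fi_pos {F X : Finset V} {a : V} (ha : a ∈ F) (haX : a ∈ X) : fi F X = 1 :=
  if_pos ⟨a, ha, haX⟩

theorem fi_neg {F X : Finset V} (h : ∀ a ∈ F, a ∉ X) : fi F X = 0 :=
  if_neg (by rintro ⟨a, ha, haX⟩; exact h a ha haX)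

theorem fo_pos {F X : Finset V} {a : V} (ha : a ∈ F) (haX : a ∉ X) : fo F X = 1 :=
  if_pos ⟨a, ha, haX⟩

theorem fi_le (F X : Finset V) : fi F X ≤ 1 := by
  unfold fi
  split_ifs <;> omega

/-- the frame -/
structure Fr (S W F : Finset V) (D : Finset V → ℕ) (x1 x2 x3 : V) : Prop where
  FS : F ⊆ S
  WS : W ⊆ S
  comp : ∀ X, X ⊆ S → D (S \ X) = D X
  sub : ∀ A B, D (A ∩ B) + D (A ∪ B) ≤ D A + D B
  posi : ∀ A B, D (A \ B) + D (B \ A) ≤ D A + D B
  gE : ∀ A B C, A ⊆ S → B ⊆ S → C ⊆ S → (D ((A ∩ B) \ C) + fi F ((A ∩ B) \ C)) + (D ((A ∩ C) \ B) + fi F ((A ∩ C) \ B)) +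
    (D ((B ∩ C) \ A) + fi F ((B ∩ C) \ A)) + (D (A ∪ B ∪ C) + fi F (A ∪ B ∪ C)) ≤
    (D A + fi F A) + (D B + fi F B) + (D C + fi F C)
  gO : ∀ A B C, A ⊆ S → B ⊆ S → C ⊆ S → (D (A \ (B ∪ C)) + fi F (A \ (B ∪ C))) + (D (B \ (A ∪ C)) + fi F (B \ (A ∪ C))) +
    (D (C \ (A ∪ B)) + fi F (C \ (A ∪ B))) + (D (A ∩ B ∩ C) + fi F (A ∩ B ∩ C)) ≤
    (D A + fi F A) + (D B + fi F B) + (D C + fi F C)
  r1 : ∀ X, X ⊆ S → X.Nonempty → rq W X ≤ D X + fi F X + sx x1 x2 x3 X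
  r2 : ∀ X, X ⊆ S → X ≠ S → rq W X + sx x1 x2 x3 X ≤ D X + fo F X + 3

theorem Fr.rot {S W F : Finset V} {D : Finset V → ℕ} {x1 x2 x3 : V} (h : Fr S W F D x1 x2 x3) :
    Fr S W F D x2 x3 x1 := by
  have hs : ∀ X, sx x2 x3 x1 X = sx x1 x2 x3 X := fun X => by unfold sx; omega
  exact ⟨h.FS, h.WS, h.comp, h.sub, h.posi, h.gE, h.gO, fun X a b => by rw [hs]; exact h.r1 X a b,
    fun X a b => by rw [hs]; exact h.r2 X a b⟩

theorem Fr.swap {S W F : Finset V} {D : Finset V → ℕ} {x1 x2 x3 : V} (h : Fr S W F D x1 x2 x3) :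
    Fr S W F D x2 x1 x3 := by
  have hs : ∀ X, sx x2 x1 x3 X = sx x1 x2 x3 X := fun X => by unfold sx; omega
  exact ⟨h.FS, h.WS, h.comp, h.sub, h.posi, h.gE, h.gO, fun X a b => by rw [hs]; exact h.r1 X a b,
    fun X a b => by rw [hs]; exact h.r2 X a b⟩

/-- `X` blocks the splitting of `p` -/
structure Bl (S W F : Finset V) (D : Finset V → ℕ) (p q r : V) (X : Finset V) : Prop where
  sub : X ⊆ S
  hp : p ∉ X
  hq : q ∈ X
  hr : r ∈ X
  nF : ∃ a ∈ F, a ∉ X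
  val : D X + fi F X + 1 ≤ rq W X

theorem rq_ge (W X : Finset V) : 4 ≤ rq W X := by
  unfold rq
  split_ifs <;> omega

theorem rq_le (W X : Finset V) : rq W X ≤ 5 := by
  unfold rq
  split_ifs <;> omega

theorem rq_five {W X : Finset V} (h : 5 ≤ rq W X) : Sepr W X := by
  by_contra h1
  unfold rq at h
  rw [if_neg h1] at h
  omega

theorem rq_four {W X : Finset V} (h : rq W X ≤ 4) : ¬ Sepr W X := by
  intro h1
  unfold rq at h
  rw [if_pos h1] at h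
  omega

theorem rq_of {W X : Finset V} (h : Sepr W X) : rq W X = 5 := if_pos h

theorem sepr_compl {S W X : Finset V} (hW : W ⊆ S) : Sepr W (S \ X) ↔ Sepr W X := by
  unfold Sepr
  constructor
  · rintro ⟨⟨a, ha, haX⟩, b, hb, hbX⟩
    refine ⟨⟨b, hb, ?_⟩, a, ha, (mem_sdiff.1 haX).2⟩
    by_contra h
    exact hbX (mem_sdiff.2 ⟨hW hb, h⟩)
  · rintro ⟨⟨a, ha, haX⟩, b, hb, hbX⟩
    exact ⟨⟨b, hb, mem_sdiff.2 ⟨hW hb, hbX⟩⟩, a, ha, fun h => (mem_sdiff.1 h).2 haX⟩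

theorem rq_compl {S W X : Finset V} (hW : W ⊆ S) : rq W (S \ X) = rq W X := by
  unfold rq
  simp only [sepr_compl hW]

/-- (T2) two blocking sets do not contain the same vertex of `F` -/
theorem t2 {S W F : Finset V} {D : Finset V → ℕ} {x1 x2 x3 : V} (h : Fr S W F D x1 x2 x3)
    {A B : Finset V} (hA : Bl S W F D x1 x2 x3 A) (hB : Bl S W F D x2 x1 x3 B) {a b : V}
    (hF : F = {a, b}) (hbA : b ∈ A) (haA : a ∉ A) (hbB : b ∈ B) (haB : a ∉ B) (hx1 : x1 ∈ S)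
    (hx2 : x2 ∈ S) : False := by
  have haF : a ∈ F := by rw [hF]; simp
  have hbF : b ∈ F := by rw [hF]; simp
  have haS : a ∈ S := h.FS haF
  have hbS : b ∈ S := h.FS hbF
  set Y1 := S \ A with hY1
  set Y2 := S \ B with hY2
  have m1 : ∀ z, z ∈ Y1 ↔ z ∈ S ∧ z ∉ A := fun z => mem_sdiff
  have m2 : ∀ z, z ∈ Y2 ↔ z ∈ S ∧ z ∉ B := fun z => mem_sdiff
  have hY1S : Y1 ⊆ S := sdiff_subset
  have hY2S : Y2 ⊆ S := sdiff_subset
  have dA : D Y1 = D A := h.comp A hA.sub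
  have dB : D Y2 = D B := h.comp B hB.sub
  have vA := hA.val
  have vB := hB.val
  rw [fi_pos hbF hbA] at vA
  rw [fi_pos hbF hbB] at vB
  have rA5 := rq_le W A
  have rB5 := rq_le W B
  -- the differences
  have f1 : fi F (Y1 \ Y2) = 0 := fi_neg (by
    intro z hz hz'
    rw [hF, mem_insert, mem_singleton] at hz
    rw [mem_sdiff, m1, m2] at hz'
    rcases hz with rfl | rfl
    · exact hz'.2 ⟨haS, haB⟩
    · exact hz'.1.2 hbA)
  have f2 : fi F (Y2 \ Y1) = 0 := fi_neg (by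
    intro z hz hz'
    rw [hF, mem_insert, mem_singleton] at hz
    rw [mem_sdiff, m1, m2] at hz'
    rcases hz with rfl | rfl
    · exact hz'.2 ⟨haS, haA⟩
    · exact hz'.1.2 hbB)
  have e1 : x1 ∈ Y1 \ Y2 := by
    rw [mem_sdiff, m1, m2]
    exact ⟨⟨hx1, hA.hp⟩, fun h => h.2 hB.hq⟩
  have e2 : x2 ∈ Y2 \ Y1 := by
    rw [mem_sdiff, m1, m2]
    exact ⟨⟨hx2, hB.hp⟩, fun h => h.2 hA.hq⟩
  have n12 : x2 ∉ Y1 := fun h => ((m1 _).1 h).2 hA.hq
  have n13 : x3 ∉ Y1 := fun h => ((m1 _).1 h).2 hA.hr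
  have n21 : x1 ∉ Y2 := fun h => ((m2 _).1 h).2 hB.hq
  have n23 : x3 ∉ Y2 := fun h => ((m2 _).1 h).2 hB.hr
  have i11 : x1 ∈ Y1 := (mem_sdiff.1 e1).1
  have i22 : x2 ∈ Y2 := (mem_sdiff.1 e2).1
  have s1 : sx x1 x2 x3 (Y1 \ Y2) = 1 := by
    unfold sx
    rw [if_pos e1, if_neg (fun h => n12 (mem_sdiff.1 h).1), if_neg (fun h => n13 (mem_sdiff.1 h).1)]
  have s2 : sx x1 x2 x3 (Y2 \ Y1) = 1 := by
    unfold sx
    rw [if_pos e2, if_neg (fun h => n21 (mem_sdiff.1 h).1), if_neg (fun h => n23 (mem_sdiff.1 h).1)]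
  have q1 := h.r1 (Y1 \ Y2) (sdiff_subset.trans hY1S) ⟨x1, e1⟩
  have q2 := h.r1 (Y2 \ Y1) (sdiff_subset.trans hY2S) ⟨x2, e2⟩
  have p1 := h.posi Y1 Y2
  rw [f1, s1] at q1
  rw [f2, s2] at q2
  have g1 := rq_ge W (Y1 \ Y2)
  have g2 := rq_ge W (Y2 \ Y1)
  have hsA : Sepr W A := rq_five (by omega)
  have hsB : Sepr W B := rq_five (by omega)
  have hd1 : ¬ Sepr W (Y1 \ Y2) := rq_four (by omega)
  have hd2 : ¬ Sepr W (Y2 \ Y1) := rq_four (by omega)
  -- no element of `W` in the differences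
  have w1 : ∀ w ∈ W, w ∉ Y1 \ Y2 := by
    intro w hw hwd
    apply hd1
    refine ⟨⟨w, hw, hwd⟩, ?_⟩
    by_contra hcon
    push Not at hcon
    obtain ⟨-, w', hw', hw''⟩ := hsB
    exact (mem_sdiff.1 (hcon w' hw')).2 ((m2 _).2 ⟨h.WS hw', hw''⟩)
  have w2 : ∀ w ∈ W, w ∉ Y2 \ Y1 := by
    intro w hw hwd
    apply hd2
    refine ⟨⟨w, hw, hwd⟩, ?_⟩
    by_contra hcon
    push Not at hcon
    obtain ⟨-, w', hw', hw''⟩ := hsA
    exact (mem_sdiff.1 (hcon w' hw')).2 ((m1 _).2 ⟨h.WS hw', hw''⟩)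
  obtain ⟨⟨wa, hwa, hwaA⟩, wb, hwb, hwbA⟩ := hsA
  have wbY1 : wb ∈ Y1 := (m1 _).2 ⟨h.WS hwb, hwbA⟩
  have wbY2 : wb ∈ Y2 := by
    by_contra hc
    exact w1 wb hwb (mem_sdiff.2 ⟨wbY1, hc⟩)
  have waY1 : wa ∉ Y1 := fun h => ((m1 _).1 h).2 hwaA
  have waY2 : wa ∉ Y2 := by
    intro hc
    exact w2 wa hwa (mem_sdiff.2 ⟨hc, waY1⟩)
  have r5i : rq W (Y1 ∩ Y2) = 5 := rq_of ⟨⟨wb, hwb, mem_inter.2 ⟨wbY1, wbY2⟩⟩, wa, hwa,
    fun h => waY1 (mem_inter.1 h).1⟩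
  have r5u : rq W (Y1 ∪ Y2) = 5 := rq_of ⟨⟨wb, hwb, mem_union_left _ wbY1⟩, wa, hwa,
    fun h => (mem_union.1 h).elim waY1 waY2⟩
  have aY1 : a ∈ Y1 := (m1 _).2 ⟨haS, haA⟩
  have aY2 : a ∈ Y2 := (m2 _).2 ⟨haS, haB⟩
  have bY1 : b ∉ Y1 := fun h => ((m1 _).1 h).2 hbA
  have bY2 : b ∉ Y2 := fun h => ((m2 _).1 h).2 hbB
  have q3 := h.r1 (Y1 ∩ Y2) (inter_subset_left.trans hY1S) ⟨a, mem_inter.2 ⟨aY1, aY2⟩⟩
  have s3 : sx x1 x2 x3 (Y1 ∩ Y2) = 0 := by
    unfold sx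
    rw [if_neg (fun h => n21 (mem_inter.1 h).2), if_neg (fun h => n12 (mem_inter.1 h).1),
      if_neg (fun h => n13 (mem_inter.1 h).1)]
  rw [r5i, fi_pos haF (mem_inter.2 ⟨aY1, aY2⟩), s3] at q3
  have bU : b ∉ Y1 ∪ Y2 := fun h => (mem_union.1 h).elim bY1 bY2
  have q4 := h.r2 (Y1 ∪ Y2) (union_subset hY1S hY2S) (fun he => bU (by rw [he]; exact hbS))
  have s4 : sx x1 x2 x3 (Y1 ∪ Y2) = 2 := by
    unfold sx
    rw [if_pos (mem_union_left _ i11), if_pos (mem_union_right _ i22),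
      if_neg (fun h => (mem_union.1 h).elim n13 n23)]
  rw [r5u, fo_pos hbF bU, s4] at q4
  have p2 := h.sub Y1 Y2
  omega

/-- skew supermodularity of the requirement -/
theorem skew {W A B : Finset V} : rq W A + rq W B ≤ rq W (A ∩ B) + rq W (A ∪ B) ∨
    rq W A + rq W B ≤ rq W (A \ B) + rq W (B \ A) := by
  have a1 := rq_ge W (A ∩ B)
  have a2 := rq_ge W (A ∪ B)
  have a3 := rq_ge W (A \ B)
  have a4 := rq_ge W (B \ A)
  by_cases hA : Sepr W A
  · by_cases hB : Sepr W B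
    · -- both separated
      have h5A := rq_le W A
      have h5B := rq_le W B
      by_cases c1 : ∃ w ∈ W, w ∈ A ∩ B
      · by_cases c2 : ∃ w ∈ W, w ∉ A ∪ B
        · left
          obtain ⟨w, hw, hwi⟩ := c1
          obtain ⟨w', hw', hwu⟩ := c2
          rw [rq_of (W := W) (X := A ∩ B) ⟨⟨w, hw, hwi⟩, w', hw',
            fun h => hwu (mem_union_left _ (mem_inter.1 h).1)⟩,
            rq_of (W := W) (X := A ∪ B) ⟨⟨w, hw, mem_union_left _ (mem_inter.1 hwi).1⟩, w', hw',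
            hwu⟩]
          omega
        · right
          push Not at c2
          obtain ⟨-, u, hu, huA⟩ := hA
          obtain ⟨-, t, ht, htB⟩ := hB
          have huB : u ∈ B := (mem_union.1 (c2 u hu)).resolve_left huA
          have htA : t ∈ A := (mem_union.1 (c2 t ht)).resolve_right htB
          rw [rq_of (W := W) (X := A \ B) ⟨⟨t, ht, mem_sdiff.2 ⟨htA, htB⟩⟩, u, hu,
            fun h => huA (mem_sdiff.1 h).1⟩,
            rq_of (W := W) (X := B \ A) ⟨⟨u, hu, mem_sdiff.2 ⟨huB, huA⟩⟩, t, ht,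
            fun h => htB (mem_sdiff.1 h).1⟩]
          omega
      · right
        push Not at c1
        obtain ⟨⟨u, hu, huA⟩, -⟩ := hA
        obtain ⟨⟨t, ht, htB⟩, -⟩ := hB
        have huB : u ∉ B := fun h => c1 u hu (mem_inter.2 ⟨huA, h⟩)
        have htA : t ∉ A := fun h => c1 t ht (mem_inter.2 ⟨h, htB⟩)
        rw [rq_of (W := W) (X := A \ B) ⟨⟨u, hu, mem_sdiff.2 ⟨huA, huB⟩⟩, t, ht,
          fun h => htA (mem_sdiff.1 h).1⟩,
          rq_of (W := W) (X := B \ A) ⟨⟨t, ht, mem_sdiff.2 ⟨htB, htA⟩⟩, u, hu,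
          fun h => huB (mem_sdiff.1 h).1⟩]
        omega
    · -- only `A`
      have h4B : rq W B = 4 := if_neg hB
      have h5A : rq W A = 5 := rq_of hA
      obtain ⟨⟨u, hu, huA⟩, t, ht, htA⟩ := hA
      by_cases c : u ∈ B
      · by_cases c' : t ∈ B
        · left
          rw [rq_of (W := W) (X := A ∩ B) ⟨⟨u, hu, mem_inter.2 ⟨huA, c⟩⟩, t, ht,
            fun h => htA (mem_inter.1 h).1⟩]
          omega
        · exact absurd ⟨⟨u, hu, c⟩, t, ht, c'⟩ hB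
      · by_cases c' : t ∈ B
        · exact absurd ⟨⟨t, ht, c'⟩, u, hu, c⟩ hB
        · left
          rw [rq_of (W := W) (X := A ∪ B) ⟨⟨u, hu, mem_union_left _ huA⟩, t, ht,
            fun h => (mem_union.1 h).elim htA c'⟩]
          omega
  · have h4A : rq W A = 4 := if_neg hA
    by_cases hB : Sepr W B
    · have h5B : rq W B = 5 := rq_of hB
      obtain ⟨⟨u, hu, huB⟩, t, ht, htB⟩ := hB
      by_cases c : u ∈ A
      · by_cases c' : t ∈ A
        · left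
          rw [rq_of (W := W) (X := A ∩ B) ⟨⟨u, hu, mem_inter.2 ⟨c, huB⟩⟩, t, ht,
            fun h => htB (mem_inter.1 h).2⟩]
          omega
        · exact absurd ⟨⟨u, hu, c⟩, t, ht, c'⟩ hA
      · by_cases c' : t ∈ A
        · exact absurd ⟨⟨t, ht, c'⟩, u, hu, c⟩ hA
        · left
          rw [rq_of (W := W) (X := A ∪ B) ⟨⟨u, hu, mem_union_right _ huB⟩, t, ht,
            fun h => (mem_union.1 h).elim c' htB⟩]
          omega
    · have h4B : rq W B = 4 := if_neg hB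
      left
      omega

theorem Bl.sw {S W F : Finset V} {D : Finset V → ℕ} {p q r : V} {X : Finset V}
    (h : Bl S W F D p q r X) : Bl S W F D p r q X :=
  ⟨h.sub, h.hp, h.hr, h.hq, h.nF, h.val⟩

/-- (G) two blocking sets contain different vertices of `F`, the third none -/
theorem gam {S W F : Finset V} {D : Finset V → ℕ} {x1 x2 x3 : V} (h : Fr S W F D x1 x2 x3)
    {A B C : Finset V} (hA : Bl S W F D x1 x2 x3 A) (hB : Bl S W F D x2 x1 x3 B)
    (hC : Bl S W F D x3 x1 x2 C) {a b : V}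
    (hF : F = {a, b}) (haA : a ∈ A) (hbA : b ∉ A) (hbB : b ∈ B) (haB : a ∉ B) (haC : a ∉ C)
    (hbC : b ∉ C) (hx1 : x1 ∈ S) (hx2 : x2 ∈ S) (hx3 : x3 ∈ S) : False := by
  have haF : a ∈ F := by rw [hF]; simp
  have hbF : b ∈ F := by rw [hF]; simp
  have haS : a ∈ S := h.FS haF
  have hbS : b ∈ S := h.FS hbF
  set Y := S \ A with hY
  have m1 : ∀ z, z ∈ Y ↔ z ∈ S ∧ z ∉ A := fun z => mem_sdiff
  have hYS : Y ⊆ S := sdiff_subset
  have dA : D Y = D A := h.comp A hA.sub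
  have rA : rq W Y = rq W A := rq_compl h.WS
  have vA := hA.val
  have vC := hC.val
  rw [fi_pos haF haA] at vA
  have fC : ∀ X : Finset V, X ⊆ C → fi F X = 0 := by
    intro X hX
    apply fi_neg
    intro z hz hz'
    rw [hF, mem_insert, mem_singleton] at hz
    rcases hz with rfl | rfl
    · exact haC (hX hz')
    · exact hbC (hX hz')
  rw [fC C (Subset.refl _)] at vC
  have y1 : x1 ∈ Y := (m1 _).2 ⟨hx1, hA.hp⟩
  have y2 : x2 ∉ Y := fun h => ((m1 _).1 h).2 hA.hq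
  have y3 : x3 ∉ Y := fun h => ((m1 _).1 h).2 hA.hr
  have yb : b ∈ Y := (m1 _).2 ⟨hbS, hbA⟩
  have ya : a ∉ Y := fun h => ((m1 _).1 h).2 haA
  rcases skew (W := W) (A := Y) (B := C) with hs | hs
  · -- the union is a blocking set
    have q1 := h.r1 (Y ∩ C) (inter_subset_left.trans hYS) ⟨x1, mem_inter.2 ⟨y1, hC.hq⟩⟩
    have s1 : sx x1 x2 x3 (Y ∩ C) = 1 := by
      unfold sx
      rw [if_pos (mem_inter.2 ⟨y1, hC.hq⟩), if_neg (fun h => y2 (mem_inter.1 h).1),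
        if_neg (fun h => y3 (mem_inter.1 h).1)]
    rw [fC _ inter_subset_right, s1] at q1
    have p1 := h.sub Y C
    have hZ : Bl S W F D x3 x2 x1 (Y ∪ C) := by
      refine ⟨union_subset hYS hC.sub, fun h => (mem_union.1 h).elim y3 hC.hp,
        mem_union_right _ hC.hr, mem_union_left _ y1, ⟨a, haF, fun h => (mem_union.1 h).elim ya haC⟩,
        ?_⟩
      rw [fi_pos hbF (mem_union_left _ yb)]
      omega
    exact t2 h.rot hB.sw hZ hF hbB haB (mem_union_left _ yb)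
      (fun h => (mem_union.1 h).elim ya haC) hx2 hx3
  · have q1 := h.r1 (Y \ C) (sdiff_subset.trans hYS) ⟨b, mem_sdiff.2 ⟨yb, hbC⟩⟩
    have q2 := h.r1 (C \ Y) (sdiff_subset.trans hC.sub) ⟨x2, mem_sdiff.2 ⟨hC.hr, y2⟩⟩
    have s1 : sx x1 x2 x3 (Y \ C) = 0 := by
      unfold sx
      rw [if_neg (fun h => (mem_sdiff.1 h).2 hC.hq), if_neg (fun h => y2 (mem_sdiff.1 h).1),
        if_neg (fun h => y3 (mem_sdiff.1 h).1)]
    have s2 : sx x1 x2 x3 (C \ Y) = 1 := by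
      unfold sx
      rw [if_neg (fun h => (mem_sdiff.1 h).2 y1), if_pos (mem_sdiff.2 ⟨hC.hr, y2⟩),
        if_neg (fun h => hC.hp (mem_sdiff.1 h).1)]
    rw [s1, fi_pos hbF (mem_sdiff.2 ⟨yb, hbC⟩)] at q1
    rw [s2, fC _ sdiff_subset] at q2
    have p1 := h.posi Y C
    omega

theorem ar1 {qA qB qC q1 q2 q3 qU d1 d2 d3 dU f1 f2 f3 fU dA dB dC fA fB fC : ℕ}
    (vA : dA + fA + 1 ≤ qA) (vB : dB + fB + 1 ≤ qB) (vC : dC + fC + 1 ≤ qC)
    (rA : qA ≤ 5) (rB : qB ≤ 5) (rC : qC ≤ 5) (g1 : 4 ≤ q1) (g2 : 4 ≤ q2) (g3 : 4 ≤ q3)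
    (gU : 4 ≤ qU) (h1 : q1 ≤ d1 + f1 + 1) (h2 : q2 ≤ d2 + f2 + 1) (h3 : q3 ≤ d3 + f3 + 1)
    (hU : qU + 3 ≤ dU + 1 + 3)
    (gE : (d3 + f3) + (d2 + f2) + (d1 + f1) + (dU + fU) ≤ (dA + fA) + (dB + fB) + (dC + fC)) :
    5 ≤ qA ∧ 5 ≤ qB ∧ 5 ≤ qC ∧ q1 ≤ 4 ∧ q2 ≤ 4 ∧ q3 ≤ 4 ∧ qU ≤ 4 := by
  omega

theorem ar2 {da fa db fb dc fc dm fm dA fA dB fB dC fC qA qB qC : ℕ} {Pa Pb Pc Pm : Prop}
    (vA : dA + fA + 1 ≤ qA) (vB : dB + fB + 1 ≤ qB) (vC : dC + fC + 1 ≤ qC)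
    (rA : qA ≤ 5) (rB : qB ≤ 5) (rC : qC ≤ 5)
    (gO : (da + fa) + (db + fb) + (dc + fc) + (dm + fm) ≤ (dA + fA) + (dB + fB) + (dC + fC))
    (ba : Pa → 5 ≤ da + fa) (bb : Pb → 5 ≤ db + fb) (bc : Pc → 5 ≤ dc + fc)
    (bm : Pm → 5 ≤ dm + fm) (ka : Pa ∨ Pm) (ka' : Pb ∨ Pc) (kb : Pb ∨ Pm) (kb' : Pa ∨ Pc)
    (kc : Pc ∨ Pm) (kc' : Pa ∨ Pb) : False := by
  by_cases ha : Pa
  · have := ba ha
    by_cases hb : Pb
    · have := bb hb
      rcases kc with h | h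
      · have := bc h
        omega
      · have := bm h
        omega
    · have h1 := bc (ka'.resolve_left hb)
      have h2 := bm (kb.resolve_left hb)
      omega
  · have h1 := bm (ka.resolve_left ha)
    have h2 := bc (kb'.resolve_left ha)
    have h3 := bb (kc'.resolve_left ha)
    omega

theorem odd_of {w : V} {A B C : Finset V} (u0 : w ∈ A ∪ B ∪ C) (u1 : w ∉ (B ∩ C) \ A)
    (u2 : w ∉ (A ∩ C) \ B) (u3 : w ∉ (A ∩ B) \ C) :
    w ∈ A \ (B ∪ C) ∨ w ∈ B \ (A ∪ C) ∨ w ∈ C \ (A ∪ B) ∨ w ∈ A ∩ B ∩ C := by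
  simp only [mem_sdiff, mem_inter, mem_union] at u0 u1 u2 u3 ⊢
  by_cases a : w ∈ A <;> by_cases b : w ∈ B <;> by_cases c : w ∈ C <;> simp_all

/-- (AB) some vertex of `F` is in no blocking set -/
theorem alp {S W F : Finset V} {D : Finset V → ℕ} {x1 x2 x3 : V} (h : Fr S W F D x1 x2 x3)
    {A B C : Finset V} (hA : Bl S W F D x1 x2 x3 A) (hB : Bl S W F D x2 x1 x3 B)
    (hC : Bl S W F D x3 x1 x2 C) {a : V} (haF : a ∈ F) (haU : a ∉ A ∪ B ∪ C) : False := by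
  have haS : a ∈ S := h.FS haF
  have vA := hA.val
  have vB := hB.val
  have vC := hC.val
  have rA5 := rq_le W A
  have rB5 := rq_le W B
  have rC5 := rq_le W C
  -- the regions of size two
  have e3 : x3 ∈ (A ∩ B) \ C := mem_sdiff.2 ⟨mem_inter.2 ⟨hA.hr, hB.hr⟩, hC.hp⟩
  have e2 : x2 ∈ (A ∩ C) \ B := mem_sdiff.2 ⟨mem_inter.2 ⟨hA.hq, hC.hr⟩, hB.hp⟩
  have e1 : x1 ∈ (B ∩ C) \ A := mem_sdiff.2 ⟨mem_inter.2 ⟨hB.hq, hC.hq⟩, hA.hp⟩
  have s3 : sx x1 x2 x3 ((A ∩ B) \ C) = 1 := by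
    unfold sx
    rw [if_neg (fun h => hA.hp (mem_inter.1 (mem_sdiff.1 h).1).1),
      if_neg (fun h => hB.hp (mem_inter.1 (mem_sdiff.1 h).1).2), if_pos e3]
  have s2 : sx x1 x2 x3 ((A ∩ C) \ B) = 1 := by
    unfold sx
    rw [if_neg (fun h => hA.hp (mem_inter.1 (mem_sdiff.1 h).1).1), if_pos e2,
      if_neg (fun h => hC.hp (mem_inter.1 (mem_sdiff.1 h).1).2)]
  have s1 : sx x1 x2 x3 ((B ∩ C) \ A) = 1 := by
    unfold sx
    rw [if_pos e1, if_neg (fun h => hB.hp (mem_inter.1 (mem_sdiff.1 h).1).1),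
      if_neg (fun h => hC.hp (mem_inter.1 (mem_sdiff.1 h).1).2)]
  have sU : sx x1 x2 x3 (A ∪ B ∪ C) = 3 := by
    unfold sx
    rw [if_pos (mem_union_right _ hC.hq), if_pos (mem_union_right _ hC.hr),
      if_pos (mem_union_left _ (mem_union_left _ hA.hr))]
  have q3 := h.r1 ((A ∩ B) \ C) (sdiff_subset.trans (inter_subset_left.trans hA.sub)) ⟨x3, e3⟩
  have q2 := h.r1 ((A ∩ C) \ B) (sdiff_subset.trans (inter_subset_left.trans hA.sub)) ⟨x2, e2⟩
  have q1 := h.r1 ((B ∩ C) \ A) (sdiff_subset.trans (inter_subset_left.trans hB.sub)) ⟨x1, e1⟩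
  have qU := h.r2 (A ∪ B ∪ C) (union_subset (union_subset hA.sub hB.sub) hC.sub)
    (fun he => haU (by rw [he]; exact haS))
  rw [s3] at q3
  rw [s2] at q2
  rw [s1] at q1
  rw [sU, fo_pos haF haU] at qU
  have gE := h.gE A B C hA.sub hB.sub hC.sub
  have gO := h.gO A B C hA.sub hB.sub hC.sub
  have g1 := rq_ge W ((B ∩ C) \ A)
  have g2 := rq_ge W ((A ∩ C) \ B)
  have g3 := rq_ge W ((A ∩ B) \ C)
  have gU := rq_ge W (A ∪ B ∪ C)
  obtain ⟨k1, k2, k3, k4, k5, k6, k7⟩ := ar1 vA vB vC rA5 rB5 rC5 g1 g2 g3 gU q1 q2 q3 qU gE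
  have hsA : Sepr W A := rq_five k1
  have hsB : Sepr W B := rq_five k2
  have hsC : Sepr W C := rq_five k3
  have hn1 : ¬ Sepr W ((B ∩ C) \ A) := rq_four k4
  have hn2 : ¬ Sepr W ((A ∩ C) \ B) := rq_four k5
  have hn3 : ¬ Sepr W ((A ∩ B) \ C) := rq_four k6
  have hnU : ¬ Sepr W (A ∪ B ∪ C) := rq_four k7
  have hWU : ∀ w ∈ W, w ∈ A ∪ B ∪ C := by
    intro w hw
    by_contra hc
    obtain ⟨⟨w', hw', hw''⟩, -⟩ := hsA
    exact hnU ⟨⟨w', hw', mem_union_left _ (mem_union_left _ hw'')⟩, w, hw, hc⟩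
  have hW1 : ∀ w ∈ W, w ∉ (B ∩ C) \ A := by
    intro w hw hc
    obtain ⟨⟨w', hw', hw''⟩, -⟩ := hsA
    exact hn1 ⟨⟨w, hw, hc⟩, w', hw', fun h => (mem_sdiff.1 h).2 hw''⟩
  have hW2 : ∀ w ∈ W, w ∉ (A ∩ C) \ B := by
    intro w hw hc
    obtain ⟨⟨w', hw', hw''⟩, -⟩ := hsB
    exact hn2 ⟨⟨w, hw, hc⟩, w', hw', fun h => (mem_sdiff.1 h).2 hw''⟩
  have hW3 : ∀ w ∈ W, w ∉ (A ∩ B) \ C := by
    intro w hw hc
    obtain ⟨⟨w', hw', hw''⟩, -⟩ := hsC
    exact hn3 ⟨⟨w, hw, hc⟩, w', hw', fun h => (mem_sdiff.1 h).2 hw''⟩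
  -- the odd regions
  have odd : ∀ w ∈ W, w ∈ A \ (B ∪ C) ∨ w ∈ B \ (A ∪ C) ∨ w ∈ C \ (A ∪ B) ∨ w ∈ A ∩ B ∩ C := by
    intro w hw
    exact odd_of (hWU w hw) (hW1 w hw) (hW2 w hw) (hW3 w hw)
  have big : ∀ X : Finset V, X ⊆ S → (∃ w ∈ W, w ∈ X) → (∃ w ∈ W, w ∉ X) →
      sx x1 x2 x3 X = 0 → 5 ≤ D X + fi F X := by
    intro X hX hw hw' hsx
    have hq := h.r1 X hX (by obtain ⟨w, -, hw⟩ := hw; exact ⟨w, hw⟩)
    rw [rq_of ⟨hw, hw'⟩, hsx] at hq
    omega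
  have sa : sx x1 x2 x3 (A \ (B ∪ C)) = 0 := by
    unfold sx
    rw [if_neg (fun h => hA.hp (mem_sdiff.1 h).1),
      if_neg (fun h => (mem_sdiff.1 h).2 (mem_union_right _ hC.hr)),
      if_neg (fun h => (mem_sdiff.1 h).2 (mem_union_left _ hB.hr))]
  have sb : sx x1 x2 x3 (B \ (A ∪ C)) = 0 := by
    unfold sx
    rw [if_neg (fun h => (mem_sdiff.1 h).2 (mem_union_right _ hC.hq)),
      if_neg (fun h => hB.hp (mem_sdiff.1 h).1),
      if_neg (fun h => (mem_sdiff.1 h).2 (mem_union_left _ hA.hr))]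
  have sc : sx x1 x2 x3 (C \ (A ∪ B)) = 0 := by
    unfold sx
    rw [if_neg (fun h => (mem_sdiff.1 h).2 (mem_union_right _ hB.hq)),
      if_neg (fun h => (mem_sdiff.1 h).2 (mem_union_left _ hA.hq)),
      if_neg (fun h => hC.hp (mem_sdiff.1 h).1)]
  have sm : sx x1 x2 x3 (A ∩ B ∩ C) = 0 := by
    unfold sx
    rw [if_neg (fun h => hA.hp (mem_inter.1 (mem_inter.1 h).1).1),
      if_neg (fun h => hB.hp (mem_inter.1 (mem_inter.1 h).1).2),
      if_neg (fun h => hC.hp (mem_inter.1 h).2)]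
  have ba := big (A \ (B ∪ C)) (sdiff_subset.trans hA.sub)
  have bb := big (B \ (A ∪ C)) (sdiff_subset.trans hB.sub)
  have bc := big (C \ (A ∪ B)) (sdiff_subset.trans hC.sub)
  have bm := big (A ∩ B ∩ C) (inter_subset_right.trans hC.sub)
  obtain ⟨⟨wA, hwA, hwA1⟩, wA', hwA', hwA2⟩ := hsA
  obtain ⟨⟨wB, hwB, hwB1⟩, wB', hwB', hwB2⟩ := hsB
  obtain ⟨⟨wC, hwC, hwC1⟩, wC', hwC', hwC2⟩ := hsC
  -- which odd regions meet `W`
  have ka : (∃ w ∈ W, w ∈ A \ (B ∪ C)) ∨ (∃ w ∈ W, w ∈ A ∩ B ∩ C) := by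
    rcases odd wA hwA with h | h | h | h
    · exact Or.inl ⟨_, hwA, h⟩
    · exact absurd hwA1 (fun h' => (mem_sdiff.1 h).2 (mem_union_left _ h'))
    · exact absurd hwA1 (fun h' => (mem_sdiff.1 h).2 (mem_union_left _ h'))
    · exact Or.inr ⟨_, hwA, h⟩
  have ka' : (∃ w ∈ W, w ∈ B \ (A ∪ C)) ∨ (∃ w ∈ W, w ∈ C \ (A ∪ B)) := by
    rcases odd wA' hwA' with h | h | h | h
    · exact absurd (mem_sdiff.1 h).1 hwA2
    · exact Or.inl ⟨_, hwA', h⟩
    · exact Or.inr ⟨_, hwA', h⟩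
    · exact absurd (mem_inter.1 (mem_inter.1 h).1).1 hwA2
  have kb : (∃ w ∈ W, w ∈ B \ (A ∪ C)) ∨ (∃ w ∈ W, w ∈ A ∩ B ∩ C) := by
    rcases odd wB hwB with h | h | h | h
    · exact absurd hwB1 (fun h' => (mem_sdiff.1 h).2 (mem_union_left _ h'))
    · exact Or.inl ⟨_, hwB, h⟩
    · exact absurd hwB1 (fun h' => (mem_sdiff.1 h).2 (mem_union_right _ h'))
    · exact Or.inr ⟨_, hwB, h⟩
  have kb' : (∃ w ∈ W, w ∈ A \ (B ∪ C)) ∨ (∃ w ∈ W, w ∈ C \ (A ∪ B)) := by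
    rcases odd wB' hwB' with h | h | h | h
    · exact Or.inl ⟨_, hwB', h⟩
    · exact absurd (mem_sdiff.1 h).1 hwB2
    · exact Or.inr ⟨_, hwB', h⟩
    · exact absurd (mem_inter.1 (mem_inter.1 h).1).2 hwB2
  have kc : (∃ w ∈ W, w ∈ C \ (A ∪ B)) ∨ (∃ w ∈ W, w ∈ A ∩ B ∩ C) := by
    rcases odd wC hwC with h | h | h | h
    · exact absurd hwC1 (fun h' => (mem_sdiff.1 h).2 (mem_union_right _ h'))
    · exact absurd hwC1 (fun h' => (mem_sdiff.1 h).2 (mem_union_right _ h'))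
    · exact Or.inl ⟨_, hwC, h⟩
    · exact Or.inr ⟨_, hwC, h⟩
  have kc' : (∃ w ∈ W, w ∈ A \ (B ∪ C)) ∨ (∃ w ∈ W, w ∈ B \ (A ∪ C)) := by
    rcases odd wC' hwC' with h | h | h | h
    · exact Or.inl ⟨_, hwC', h⟩
    · exact Or.inr ⟨_, hwC', h⟩
    · exact absurd (mem_sdiff.1 h).1 hwC2
    · exact absurd (mem_inter.1 h).2 hwC2
  -- if a region meets `W` then it separates `W`
  have na : ∃ w ∈ W, w ∉ A \ (B ∪ C) := ⟨wA', hwA', fun h => hwA2 (mem_sdiff.1 h).1⟩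
  have nb : ∃ w ∈ W, w ∉ B \ (A ∪ C) := ⟨wB', hwB', fun h => hwB2 (mem_sdiff.1 h).1⟩
  have nc : ∃ w ∈ W, w ∉ C \ (A ∪ B) := ⟨wC', hwC', fun h => hwC2 (mem_sdiff.1 h).1⟩
  have nm : ∃ w ∈ W, w ∉ A ∩ B ∩ C := ⟨wC', hwC', fun h => hwC2 (mem_inter.1 h).2⟩
  exact ar2 vA vB vC rA5 rB5 rC5 gO (fun h => ba h na sa) (fun h => bb h nb sb)
    (fun h => bc h nc sc) (fun h => bm h nm sm) ka ka' kb kb' kc kc'

theorem core {S W F : Finset V} {D : Finset V → ℕ} {x1 x2 x3 : V} (h : Fr S W F D x1 x2 x3)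
    {A B C : Finset V} (hA : Bl S W F D x1 x2 x3 A) (hB : Bl S W F D x2 x1 x3 B)
    (hC : Bl S W F D x3 x1 x2 C) (hx1 : x1 ∈ S) (hx2 : x2 ∈ S) (hx3 : x3 ∈ S) {a b : V}
    (hF : F = {a, b}) (haA : a ∈ A) (hbB : b ∈ B) : False := by
  have hF' : F = {b, a} := by rw [hF, pair_comm]
  have om : ∀ X : Finset V, (∃ z ∈ F, z ∉ X) → a ∉ X ∨ b ∉ X := by
    rintro X ⟨z, hz, hzX⟩
    rw [hF, mem_insert, mem_singleton] at hz
    rcases hz with rfl | rfl
    · exact Or.inl hzX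
    · exact Or.inr hzX
  have hbA : b ∉ A := (om A hA.nF).resolve_left (fun h => h haA)
  have haB : a ∉ B := (om B hB.nF).resolve_right (fun h => h hbB)
  by_cases haC : a ∈ C
  · have hbC : b ∉ C := (om C hC.nF).resolve_left (fun h => h haC)
    exact t2 h.rot.rot hC hA.sw hF' haC hbC haA hbA hx3 hx1
  · by_cases hbC : b ∈ C
    · exact t2 h.rot hB.sw hC.sw hF hbB haB hbC haC hx2 hx3
    · exact gam h hA hB hC hF haA hbA hbB haB haC hbC hx1 hx2 hx3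

theorem Fr.no {S W F : Finset V} {D : Finset V → ℕ} {x1 x2 x3 : V} (h : Fr S W F D x1 x2 x3)
    {A B C : Finset V} (hA : Bl S W F D x1 x2 x3 A) (hB : Bl S W F D x2 x1 x3 B)
    (hC : Bl S W F D x3 x1 x2 C) (hF0 : F.Nonempty) (hF2 : F.card ≤ 2) (hx1 : x1 ∈ S)
    (hx2 : x2 ∈ S) (hx3 : x3 ∈ S) : False := by
  have hU : ∀ a ∈ F, a ∈ A ∨ a ∈ B ∨ a ∈ C := by
    intro a ha
    by_contra hc
    push Not at hc
    refine alp h hA hB hC ha (fun h' => ?_)
    rcases mem_union.1 h' with h' | h'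
    · rcases mem_union.1 h' with h' | h'
      · exact hc.1 h'
      · exact hc.2.1 h'
    · exact hc.2.2 h'
  have hp := hF0.card_pos
  have h12 : F.card = 1 ∨ F.card = 2 := by omega
  rcases h12 with h1 | h2
  · obtain ⟨a, hF⟩ := card_eq_one.1 h1
    have om : ∀ X : Finset V, (∃ z ∈ F, z ∉ X) → a ∉ X := by
      rintro X ⟨z, hz, hzX⟩
      rw [hF, mem_singleton] at hz
      rwa [← hz]
    rcases hU a (by rw [hF]; simp) with h' | h' | h'
    · exact om A hA.nF h'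
    · exact om B hB.nF h'
    · exact om C hC.nF h'
  · obtain ⟨a, b, -, hF⟩ := card_eq_two.1 h2
    have om : ∀ X : Finset V, (∃ z ∈ F, z ∉ X) → a ∉ X ∨ b ∉ X := by
      rintro X ⟨z, hz, hzX⟩
      rw [hF, mem_insert, mem_singleton] at hz
      rcases hz with rfl | rfl
      · exact Or.inl hzX
      · exact Or.inr hzX
    rcases hU a (by rw [hF]; simp) with ha | ha | ha <;>
      rcases hU b (by rw [hF]; simp) with hb | hb | hb
    · exact (om A hA.nF).elim (fun h => h ha) (fun h => h hb)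
    · exact core h hA hB hC hx1 hx2 hx3 hF ha hb
    · exact core h.rot.rot.swap hA.sw hC hB hx1 hx3 hx2 hF ha hb
    · exact core h.swap hB hA hC.sw hx2 hx1 hx3 hF ha hb
    · exact (om B hB.nF).elim (fun h => h ha) (fun h => h hb)
    · exact core h.rot hB.sw hC.sw hA hx2 hx3 hx1 hF ha hb
    · exact core h.rot.rot hC hA.sw hB.sw hx3 hx1 hx2 hF ha hb
    · exact core h.rot.swap hC.sw hB.sw hA.sw hx3 hx2 hx1 hF ha hb
    · exact (om C hC.nF).elim (fun h => h ha) (fun h => h hb)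

/-! ### from failures to blocking sets -/

theorem cr_of_not {p : V} {F X : Finset V} (hp : p ∉ X) : cr (insert p F) X = fi F X := by
  unfold cr fi
  congr 1
  apply propext
  constructor
  · rintro ⟨⟨a, ha, haX⟩, -⟩
    rcases mem_insert.1 ha with rfl | ha
    · exact absurd haX hp
    · exact ⟨a, ha, haX⟩
  · rintro ⟨a, ha, haX⟩
    exact ⟨⟨a, mem_insert_of_mem ha, haX⟩, p, mem_insert_self _ _, hp⟩

theorem cr_compl {S e X : Finset V} (he : e ⊆ S) : cr e (S \ X) = cr e X := by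
  unfold cr
  congr 1
  apply propext
  constructor
  · rintro ⟨⟨a, ha, haX⟩, b, hb, hbX⟩
    refine ⟨⟨b, hb, ?_⟩, a, ha, (mem_sdiff.1 haX).2⟩
    by_contra h
    exact hbX (mem_sdiff.2 ⟨he hb, h⟩)
  · rintro ⟨⟨a, ha, haX⟩, b, hb, hbX⟩
    exact ⟨⟨b, hb, mem_sdiff.2 ⟨he hb, hbX⟩⟩, a, ha, fun h => (mem_sdiff.1 h).2 haX⟩

theorem cr_pair {q r : V} {X : Finset V} (hq : q ∈ X) (hr : r ∉ X) : cr {q, r} X = 1 := by
  unfold cr
  rw [if_pos]
  exact ⟨⟨q, by simp, hq⟩, r, by simp, hr⟩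

theorem ext0 {S W F : Finset V} {D : Finset V → ℕ} {p q r : V} (h : Fr S W F D p q r)
    {X : Finset V} (hX : X ⊆ S) (hX0 : X.Nonempty) (hXS : X ≠ S) (hF : F.Nonempty) (hp : p ∉ X)
    (hlt : D X + cr (insert p F) X + cr {q, r} X < rq W X) : Bl S W F D p q r X := by
  rw [cr_of_not hp] at hlt
  have q1 := h.r1 X hX hX0
  have q2 := h.r2 X hX hXS
  have f1 := fi_le F X
  by_cases hq : q ∈ X
  · by_cases hr : r ∈ X
    · have s1 : sx p q r X = 2 := by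
        unfold sx
        rw [if_neg hp, if_pos hq, if_pos hr]
      rw [s1] at q1 q2
      refine ⟨hX, hp, hq, hr, ?_, by omega⟩
      by_contra hc
      have hfo : fo F X = 0 := if_neg hc
      push Not at hc
      obtain ⟨a, ha⟩ := hF
      have hfi : fi F X = 1 := fi_pos ha (hc a ha)
      omega
    · exfalso
      have s1 : sx p q r X = 1 := by
        unfold sx
        rw [if_neg hp, if_pos hq, if_neg hr]
      rw [cr_pair hq hr] at hlt
      rw [s1] at q1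
      omega
  · exfalso
    by_cases hr : r ∈ X
    · have s1 : sx p q r X = 1 := by
        unfold sx
        rw [if_neg hp, if_neg hq, if_pos hr]
      rw [pair_comm, cr_pair hr hq] at hlt
      rw [s1] at q1
      omega
    · have s1 : sx p q r X = 0 := by
        unfold sx
        rw [if_neg hp, if_neg hq, if_neg hr]
      rw [s1] at q1
      omega

theorem ext1 {S W F : Finset V} {D : Finset V → ℕ} {p q r : V} (h : Fr S W F D p q r)
    (hpS : p ∈ S) (hqS : q ∈ S) (hrS : r ∈ S) {X : Finset V} (hX : X ⊆ S) (hX0 : X.Nonempty)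
    (hXS : X ≠ S) (hF : F.Nonempty)
    (hlt : D X + cr (insert p F) X + cr {q, r} X < rq W X) : ∃ Y, Bl S W F D p q r Y := by
  by_cases hp : p ∈ X
  · refine ⟨S \ X, ext0 h sdiff_subset ?_ ?_ hF (fun h => (mem_sdiff.1 h).2 hp) ?_⟩
    · rw [sdiff_nonempty]
      exact fun hh => hXS (Subset.antisymm hX hh)
    · intro hh
      have : p ∈ S \ X := by rw [hh]; exact hpS
      exact (mem_sdiff.1 this).2 hp
    · rw [h.comp X hX, rq_compl h.WS, cr_compl, cr_compl]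
      · exact hlt
      · intro z hz
        rw [mem_insert, mem_singleton] at hz
        rcases hz with rfl | rfl
        · exact hqS
        · exact hrS
      · intro z hz
        rcases mem_insert.1 hz with rfl | hz
        · exact hpS
        · exact h.FS hz
  · exact ⟨X, ext0 h hX hX0 hXS hF hp hlt⟩

/-! ### the frame -/

theorem ct_cons (e : Finset V) (h : Multiset (Finset V)) (X : Finset V) :
    ct (e ::ₘ h) X = cr e X + ct h X := by
  unfold ct cr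
  rw [Multiset.countP_cons, add_comm]

theorem ct_zero (X : Finset V) : ct (0 : Multiset (Finset V)) X = 0 := rfl

theorem ct_congr {h : Multiset (Finset V)} {X Y : Finset V} :
    (∀ e ∈ h, cr e X = cr e Y) → ct h X = ct h Y := by
  induction h using Multiset.induction_on with
  | empty => intro _; rfl
  | cons e h ih =>
    intro hh
    rw [ct_cons, ct_cons, hh e (Multiset.mem_cons_self _ _),
      ih fun e' he' => hh e' (Multiset.mem_cons_of_mem he')]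

theorem ct_unc {h : Multiset (Finset V)} (A B C : Finset V) : (∀ e ∈ h, e.card ≤ 3) →
    (ct h (A ∩ B) + ct h (A ∪ B) ≤ ct h A + ct h B) ∧
    (ct h (A \ B) + ct h (B \ A) ≤ ct h A + ct h B) ∧
    (ct h ((A ∩ B) \ C) + ct h ((A ∩ C) \ B) + ct h ((B ∩ C) \ A) + ct h (A ∪ B ∪ C) ≤
      ct h A + ct h B + ct h C) ∧
    (ct h (A \ (B ∪ C)) + ct h (B \ (A ∪ C)) + ct h (C \ (A ∪ B)) + ct h (A ∩ B ∩ C) ≤
      ct h A + ct h B + ct h C) := by
  induction h using Multiset.induction_on with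
  | empty => intro _; simp [ct_zero]
  | cons e h ih =>
    intro hh
    obtain ⟨i1, i2, i3, i4⟩ := ih fun e' he' => hh e' (Multiset.mem_cons_of_mem he')
    obtain ⟨j1, j2, j3, j4⟩ := rowUnc V e (hh e (Multiset.mem_cons_self _ _)) A B C
    simp only [ct_cons]
    refine ⟨?_, ?_, ?_, ?_⟩
    · clear i2 i3 i4 j2 j3 j4
      generalize ct h (A ∩ B) = n1 at *
      generalize ct h (A ∪ B) = n2 at *
      generalize cr e (A ∩ B) = n3 at *
      generalize cr e (A ∪ B) = n4 at *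
      omega
    · clear i1 i3 i4 j1 j3 j4
      generalize ct h (A \ B) = n1 at *
      generalize ct h (B \ A) = n2 at *
      generalize cr e (A \ B) = n3 at *
      generalize cr e (B \ A) = n4 at *
      omega
    · clear i1 i2 i4 j1 j2 j4
      generalize ct h ((A ∩ B) \ C) = n1 at *
      generalize ct h ((A ∩ C) \ B) = n2 at *
      generalize ct h ((B ∩ C) \ A) = n3 at *
      generalize ct h (A ∪ B ∪ C) = n4 at *
      generalize cr e ((A ∩ B) \ C) = m1 at *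
      generalize cr e ((A ∩ C) \ B) = m2 at *
      generalize cr e ((B ∩ C) \ A) = m3 at *
      generalize cr e (A ∪ B ∪ C) = m4 at *
      omega
    · clear i1 i2 i3 j1 j2 j3
      generalize ct h (A \ (B ∪ C)) = n1 at *
      generalize ct h (B \ (A ∪ C)) = n2 at *
      generalize ct h (C \ (A ∪ B)) = n3 at *
      generalize ct h (A ∩ B ∩ C) = n4 at *
      generalize cr e (A \ (B ∪ C)) = m1 at *
      generalize cr e (B \ (A ∪ C)) = m2 at *
      generalize cr e (C \ (A ∪ B)) = m3 at *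
      generalize cr e (A ∩ B ∩ C) = m4 at *
      omega

/-- a pair at `v`, seen from a set without `v` -/
theorem cr_pv {v x : V} {X : Finset V} (hv : v ∉ X) : cr {v, x} X = if x ∈ X then 1 else 0 := by
  rw [cr_of_not hv]
  unfold fi
  simp

/-- a hyperedge at `v`, seen from a set with `v` -/
theorem cr_in {v : V} {F X : Finset V} (hv : v ∉ F) : cr (insert v F) (insert v X) = fo F X := by
  unfold cr fo
  congr 1
  apply propext
  constructor
  · rintro ⟨-, a, ha, haX⟩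
    rcases mem_insert.1 ha with rfl | ha
    · exact absurd (mem_insert_self _ _) haX
    · exact ⟨a, ha, fun h => haX (mem_insert_of_mem h)⟩
  · rintro ⟨a, ha, haX⟩
    refine ⟨⟨v, mem_insert_self _ _, mem_insert_self _ _⟩, a, mem_insert_of_mem ha, fun h => ?_⟩
    rcases mem_insert.1 h with rfl | h
    · exact hv ha
    · exact haX h

theorem cr_pv2 {v x : V} {X : Finset V} (hv : v ≠ x) :
    cr {v, x} (insert v X) = if x ∈ X then 0 else 1 := by
  have h1 : v ∉ ({x} : Finset V) := by simpa using hv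
  have h2 : ({v, x} : Finset V) = insert v {x} := rfl
  rw [h2, cr_in h1]
  unfold fo
  by_cases hx : x ∈ X <;> simp [hx]

theorem frame {B₀ W F : Finset V} {h : Multiset (Finset V)} {v : V}
    {x : Fin 3 → V} (hvB : v ∈ B₀) (hvW : v ∉ W) (hW : W ⊆ B₀) (hh : Sub3 (B₀.erase v) h)
    (hx : ∀ i, x i ∈ B₀.erase v) (hF : F ⊆ B₀.erase v) (hF2 : F.card ≤ 2)
    (hr : Req B₀ W (insert v F ::ₘ {v, x 0} ::ₘ {v, x 1} ::ₘ {v, x 2} ::ₘ h)) :
    Fr (B₀.erase v) W F (ct h) (x 0) (x 1) (x 2) := by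
  have hvF : v ∉ F := fun hc => (mem_erase.1 (hF hc)).1 rfl
  have h3 : ∀ e ∈ h, e.card ≤ 3 := fun e he => (hh e he).2
  have h3' : ∀ e ∈ (insert v F ::ₘ h), e.card ≤ 3 := by
    intro e he
    rcases Multiset.mem_cons.1 he with rfl | he
    · rw [card_insert_of_notMem hvF]
      omega
    · exact h3 e he
  have nv : ∀ X : Finset V, X ⊆ B₀.erase v → v ∉ X := fun X hX hc => (mem_erase.1 (hX hc)).1 rfl
  have nx : ∀ i, v ≠ x i := fun i hc => (mem_erase.1 (hx i)).1 hc.symm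
  have dd : ∀ X : Finset V, X ⊆ B₀.erase v → ct h X + fi F X = ct (insert v F ::ₘ h) X := by
    intro X hX
    rw [ct_cons, cr_of_not (nv X hX), add_comm]
  refine ⟨hF, ?_, ?_, ?_, ?_, ?_, ?_, ?_, ?_⟩
  · intro w hw
    exact mem_erase.2 ⟨fun hc => hvW (hc ▸ hw), hW hw⟩
  · intro X _
    exact ct_congr fun e he => cr_compl (hh e he).1
  · intro A B
    exact (ct_unc A B ∅ h3).1
  · intro A B
    exact (ct_unc A B ∅ h3).2.1
  · intro A B C hA hB hC
    rw [dd _ (sdiff_subset.trans (inter_subset_left.trans hA)),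
      dd _ (sdiff_subset.trans (inter_subset_left.trans hA)),
      dd _ (sdiff_subset.trans (inter_subset_left.trans hB)),
      dd _ (union_subset (union_subset hA hB) hC), dd A hA, dd B hB, dd C hC]
    exact (ct_unc A B C h3').2.2.1
  · intro A B C hA hB hC
    rw [dd _ (sdiff_subset.trans hA), dd _ (sdiff_subset.trans hB), dd _ (sdiff_subset.trans hC),
      dd _ (inter_subset_right.trans hC), dd A hA, dd B hB, dd C hC]
    exact (ct_unc A B C h3').2.2.2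
  · intro X hX hX0
    have h1 := hr X (hX.trans (erase_subset _ _)) hX0 (fun hc => nv X hX (hc ▸ hvB))
    rw [ct_cons, ct_cons, ct_cons, ct_cons, cr_of_not (nv X hX), cr_pv (nv X hX),
      cr_pv (nv X hX), cr_pv (nv X hX)] at h1
    unfold sx
    omega
  · intro X hX hXS
    have h1 := hr (insert v X) (insert_subset hvB (hX.trans (erase_subset _ _)))
      (insert_nonempty _ _) (by
        intro hc
        apply hXS
        rw [← hc, erase_insert (nv X hX)])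
    have h2 : rq W (insert v X) = rq W X := by
      unfold rq
      congr 1
      apply propext
      unfold Sepr
      constructor
      · rintro ⟨⟨a, ha, haX⟩, b, hb, hbX⟩
        refine ⟨⟨a, ha, ?_⟩, b, hb, fun h => hbX (mem_insert_of_mem h)⟩
        rcases mem_insert.1 haX with rfl | h
        · exact absurd ha hvW
        · exact h
      · rintro ⟨⟨a, ha, haX⟩, b, hb, hbX⟩
        refine ⟨⟨a, ha, mem_insert_of_mem haX⟩, b, hb, fun h => ?_⟩
        rcases mem_insert.1 h with rfl | h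
        · exact hvW hb
        · exact hbX h
    have h4 : ct h (insert v X) = ct h X := by
      apply ct_congr
      intro e he
      have hve : v ∉ e := nv e (hh e he).1
      unfold cr Crosses
      congr 1
      apply propext
      constructor
      · rintro ⟨⟨a, ha, haX⟩, b, hb, hbX⟩
        refine ⟨⟨a, ha, ?_⟩, b, hb, fun h => hbX (mem_insert_of_mem h)⟩
        rcases mem_insert.1 haX with rfl | h
        · exact absurd ha hve
        · exact h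
      · rintro ⟨⟨a, ha, haX⟩, b, hb, hbX⟩
        refine ⟨⟨a, ha, mem_insert_of_mem haX⟩, b, hb, fun h => ?_⟩
        rcases mem_insert.1 h with rfl | h
        · exact hve hb
        · exact hbX h
    rw [ct_cons, ct_cons, ct_cons, ct_cons, cr_in hvF, cr_pv2 (nx 0), cr_pv2 (nx 1),
      cr_pv2 (nx 2), h2, h4] at h1
    unfold sx
    by_cases a0 : x 0 ∈ X <;> by_cases a1 : x 1 ∈ X <;> by_cases a2 : x 2 ∈ X <;>
      simp only [a0, a1, a2, if_true, if_false] at h1 ⊢ <;> omega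

end S16

open S16 in
/-- SP2: the splitting lemma -/
theorem rowSplit16 : RowSplit := by
  intro V B₀ W F h v x hvB hvW hW hh hx hF hF0 hF2 hr
  have fr := frame hvB hvW hW hh hx hF hF2 hr
  by_contra hcon
  push Not at hcon
  have key : ∀ i, ∃ X : Finset V, X ⊆ B₀.erase v ∧ X.Nonempty ∧ X ≠ B₀.erase v ∧
      ct h X + cr (insert (x i) F) X + cr {x (i + 1), x (i + 2)} X < rq W X := by
    intro i
    have h1 := hcon i
    unfold Req at h1
    push Not at h1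
    obtain ⟨X, hX, hX0, hXS, hlt⟩ := h1
    refine ⟨X, hX, hX0, hXS, ?_⟩
    rw [ct_cons, ct_cons] at hlt
    omega
  obtain ⟨X0, hX0, hX0n, hX0S, h0⟩ := key 0
  obtain ⟨X1, hX1, hX1n, hX1S, h1⟩ := key 1
  obtain ⟨X2, hX2, hX2n, hX2S, h2⟩ := key 2
  obtain ⟨A, hA⟩ := ext1 fr (hx 0) (hx 1) (hx 2) hX0 hX0n hX0S hF0 h0
  obtain ⟨B, hB⟩ := ext1 fr.rot (hx 1) (hx 2) (hx 0) hX1 hX1n hX1S hF0 h1
  obtain ⟨C, hC⟩ := ext1 fr.rot.rot (hx 2) (hx 0) (hx 1) hX2 hX2n hX2S hF0 h2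
  exact fr.no hA hB.sw hC hF0 hF2 (hx 0) (hx 1) (hx 2)

end SP

end Pool.Agent.ClawHam
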