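import Pool.Agent.Lib.MP_e2dbb5_co.SPP0
import Pool.Agent.Lib.MP_e2dbb5_co.SP_BaseW

/-!
# Separated vertices of degree five: one elimination (helper79)
-/

set_option autoImplicit false
set_option linter.unusedSectionVars false

open Finset

noncomputable section

namespace Pool.Agent.ClawHam

open Classical

namespace SP

namespace Step

theorem ct_cons {V : Type} (e : Finset V) (h : Multiset (Finset V)) (X : Finset V) :
    ct (e ::ₘ h) X = cr e X + ct h X := by
  unfold ct cr
  rw [Multiset.countP_cons]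
  omega

theorem ct_add {V : Type} (h h' : Multiset (Finset V)) (X : Finset V) :
    ct (h + h') X = ct h X + ct h' X := by
  unfold ct
  rw [Multiset.countP_add]

theorem ct_small {V : Type} (h : Multiset (Finset V)) (X : Finset V) (hh : ∀ e ∈ h, e.card ≤ 1) :
    ct h X = 0 := by
  unfold ct
  rw [Multiset.countP_eq_zero]
  intro e he hc
  have h1 := BaseW.crosses_card hc
  have h2 := hh e he
  omega

/-- a family of three, rotated -/
theorem rot {α : Type} (f : Fin 3 → α) (s : Multiset α) (i : Fin 3) :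
    f i ::ₘ f (i + 1) ::ₘ f (i + 2) ::ₘ s = f 0 ::ₘ f 1 ::ₘ f 2 ::ₘ s := by
  fin_cases i
  · rfl
  · show f 1 ::ₘ f 2 ::ₘ f 0 ::ₘ s = f 0 ::ₘ f 1 ::ₘ f 2 ::ₘ s
    rw [Multiset.cons_swap (f 2) (f 0), Multiset.cons_swap (f 1) (f 0)]
  · show f 2 ::ₘ f 0 ::ₘ f 1 ::ₘ s = f 0 ::ₘ f 1 ::ₘ f 2 ::ₘ s
    rw [Multiset.cons_swap (f 2) (f 0), Multiset.cons_swap (f 2) (f 1)]

/-- the members at `v` -/
theorem star {V : Type} {h : Multiset (Finset V)} {v : V} (h3 : ∀ e ∈ h, e.card ≤ 3)
    (h4 : ct h {v} = 4) (hc : h.countP (fun e => v ∈ e ∧ e.card = 3) ≤ 1) :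
    ∃ (t e0 e1 e2 : Finset V) (hr : Multiset (Finset V)), h = t ::ₘ e0 ::ₘ e1 ::ₘ e2 ::ₘ hr ∧
      (v ∈ t ∧ (t.card = 2 ∨ t.card = 3)) ∧ (v ∈ e0 ∧ e0.card = 2) ∧ (v ∈ e1 ∧ e1.card = 2) ∧
      (v ∈ e2 ∧ e2.card = 2) ∧ ∀ e ∈ hr, v ∈ e → e.card ≤ 1 := by
  set hx := h.filter fun e => Crosses e {v} with hhx
  set hr := h.filter fun e => ¬ Crosses e {v} with hhr
  have hsum : hx + hr = h := Multiset.filter_add_not _ _
  have hxc : Multiset.card hx = 4 := by
    rw [hhx, ← Multiset.countP_eq_card_filter]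
    exact h4
  have hxm : ∀ e ∈ hx, v ∈ e ∧ (e.card = 2 ∨ e.card = 3) := by
    intro e he
    obtain ⟨he1, he2⟩ := Multiset.mem_filter.1 he
    have h5 := BaseW.crosses_card he2
    have h6 := h3 e he1
    obtain ⟨⟨a, ha, hav⟩, -⟩ := he2
    rw [mem_singleton] at hav
    rw [hav] at ha
    exact ⟨ha, by omega⟩
  have hrm : ∀ e ∈ hr, v ∈ e → e.card ≤ 1 := by
    intro e he hv
    obtain ⟨he1, he2⟩ := Multiset.mem_filter.1 he
    rw [card_le_one]
    intro a ha b hb
    by_contra hab
    apply he2
    by_cases hav : a = v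
    · refine ⟨⟨v, hv, mem_singleton_self v⟩, b, hb, fun h => hab ?_⟩
      rw [hav, mem_singleton.1 h]
    · exact ⟨⟨v, hv, mem_singleton_self v⟩, a, ha, fun h => hav (mem_singleton.1 h)⟩
  set hT := hx.filter fun e => e.card = 3 with hhT
  set hP := hx.filter fun e => ¬ e.card = 3 with hhP
  have hsum2 : hT + hP = hx := Multiset.filter_add_not _ _
  have hTc : Multiset.card hT ≤ 1 := by
    refine le_trans ?_ hc
    rw [hhT, hhx, Multiset.filter_filter, ← Multiset.countP_eq_card_filter]
    rw [Multiset.countP_eq_card_filter, Multiset.countP_eq_card_filter]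
    refine Multiset.card_le_card (Multiset.monotone_filter_right _ ?_)
    rintro e ⟨h5, ⟨a, ha, hav⟩, -⟩
    rw [mem_singleton] at hav
    rw [hav] at ha
    exact ⟨ha, h5⟩
  have hPm : ∀ e ∈ hP, v ∈ e ∧ e.card = 2 := by
    intro e he
    obtain ⟨he1, he2⟩ := Multiset.mem_filter.1 he
    obtain ⟨h5, h6 | h6⟩ := hxm e he1
    · exact ⟨h5, h6⟩
    · exact absurd h6 he2
  have hcard : Multiset.card hT + Multiset.card hP = 4 := by
    rw [← Multiset.card_add, hsum2, hxc]
  -- a distinguished member and three pairs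
  obtain ⟨t, ht, hP', hP'c, hP'm, heq⟩ : ∃ t, (v ∈ t ∧ (t.card = 2 ∨ t.card = 3)) ∧
      ∃ hP' : Multiset (Finset V), Multiset.card hP' = 3 ∧ (∀ e ∈ hP', v ∈ e ∧ e.card = 2) ∧
        hx = t ::ₘ hP' := by
    rcases Nat.lt_or_ge 0 (Multiset.card hT) with h5 | h5
    · have h6 : Multiset.card hT = 1 := by omega
      obtain ⟨t, ht⟩ := Multiset.card_eq_one.1 h6
      refine ⟨t, hxm t ?_, hP, by omega, hPm, ?_⟩
      · rw [← hsum2, ht]
        simp
      · rw [← hsum2, ht]
        rfl
    · have h6 : hT = 0 := Multiset.card_eq_zero.1 (by omega)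
      have h7 : 0 < Multiset.card hP := by omega
      obtain ⟨t, ht⟩ := Multiset.card_pos_iff_exists_mem.1 h7
      obtain ⟨hP', hP'e⟩ := Multiset.exists_cons_of_mem ht
      refine ⟨t, ⟨(hPm t ht).1, Or.inl (hPm t ht).2⟩, hP', ?_, ?_, ?_⟩
      · rw [hP'e, Multiset.card_cons] at hcard
        omega
      · intro e he
        exact hPm e (by rw [hP'e]; exact Multiset.mem_cons_of_mem he)
      · rw [← hsum2, h6, zero_add, hP'e]
  obtain ⟨e0, e1, e2, he⟩ := Multiset.card_eq_three.1 hP'c
  have m0 := hP'm e0 (by rw [he]; simp)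
  have m1 := hP'm e1 (by rw [he]; simp)
  have m2 := hP'm e2 (by rw [he]; simp)
  refine ⟨t, e0, e1, e2, hr, ?_, ht, m0, m1, m2, hrm⟩
  rw [← hsum, heq, he]
  simp only [Multiset.insert_eq_cons, Multiset.cons_add, Multiset.singleton_add]

theorem pair_of {V : Type} {e : Finset V} {v : V} (hv : v ∈ e) (he : e.card = 2) :
    ∃ x, x ≠ v ∧ x ∈ e ∧ e = {v, x} := by
  obtain ⟨a, b, hab, rfl⟩ := card_eq_two.1 he
  rw [mem_insert, mem_singleton] at hv
  rcases hv with rfl | rfl
  · exact ⟨b, hab.symm, by simp, rfl⟩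
  · exact ⟨a, hab, by simp, by rw [pair_comm]⟩

/-! ### even vectors -/

theorem ev_comm {V : Type} (a b : V) : (ev a b : Vec V) = ev b a := by
  funext w
  unfold ev AG.vec
  ring

theorem ev_self {V : Type} (b : V) : (ev b b : Vec V) = 0 := by
  funext w
  unfold ev AG.vec
  exact CharTwo.add_self_eq_zero _

theorem ev_add {V : Type} (a b c : V) : (ev a b + ev a c : Vec V) = ev c b := by
  funext w
  simp only [ev, AG.vec, Pi.add_apply]
  have h : (if w = a then (1 : ZMod 2) else 0) + (if w = a then (1 : ZMod 2) else 0) = 0 :=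
    CharTwo.add_self_eq_zero _
  linear_combination h

theorem ev_left {V : Type} {v x : V} (h : x ≠ v) : (ev v x : Vec V) v = 1 := by
  unfold ev AG.vec
  simp [h.symm]

theorem ev_ne {V : Type} {v a b : V} (ha : a ≠ v) (hb : b ≠ v) : (ev a b : Vec V) v = 0 := by
  unfold ev AG.vec
  simp [ha.symm, hb.symm]

theorem evenOn_ev {V : Type} [Fintype V] {e : Finset V} {a b : V} (ha : a ∈ e) (hb : b ∈ e) :
    EvenOn e (ev a b) := by
  constructor
  · intro w hw
    exact ev_ne (fun h => hw (h ▸ ha)) (fun h => hw (h ▸ hb))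
  · unfold ev AG.vec
    rw [Finset.sum_add_distrib, Finset.sum_ite_eq', Finset.sum_ite_eq']
    simp only [mem_univ, if_true]
    exact CharTwo.add_self_eq_zero _

theorem evenOn_zero {V : Type} [Fintype V] (e : Finset V) : EvenOn e (0 : Vec V) :=
  ⟨fun _ _ => rfl, by simp⟩

theorem z2 (z : ZMod 2) : z = 0 ∨ z = 1 := by
  revert z
  decide

/-- even vectors on two vertices -/
theorem even_two {V : Type} [Fintype V] {a b : V} {y : Vec V} (h : EvenOn {a, b} y) :
    y = 0 ∨ y = ev a b := by
  obtain ⟨h1, h2⟩ := h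
  have hs : ∑ w ∈ ({a, b} : Finset V), y w = 0 := by
    rw [← h2]
    exact Finset.sum_subset (Finset.subset_univ _) fun w _ hw => h1 w hw
  by_cases hab : a = b
  · subst hab
    left
    funext w
    by_cases hw : w = a
    · subst hw
      simpa using hs
    · exact h1 w (by simpa using hw)
  · rw [Finset.sum_pair hab] at hs
    have hy : y a = y b := by
      have h3 : y b + y b = 0 := CharTwo.add_self_eq_zero _
      linear_combination hs - h3
    rcases z2 (y b) with hb | hb
    · left
      funext w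
      by_cases hwa : w = a
      · rw [hwa, hy, hb]; rfl
      · by_cases hwb : w = b
        · rw [hwb, hb]; rfl
        · exact h1 w (by simp [hwa, hwb])
    · right
      funext w
      unfold ev AG.vec
      by_cases hwa : w = a
      · subst hwa
        simp [hy, hb, hab]
      · by_cases hwb : w = b
        · subst hwb
          simp [hb, hwa]
        · simp only [hwa, hwb, if_false, add_zero]
          exact h1 w (by simp [hwa, hwb])

/-- even vectors on three vertices -/
theorem even_three {V : Type} [Fintype V] {x a b : V} (hab : a ≠ b) {y : Vec V}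
    (h : EvenOn {x, a, b} y) : y = 0 ∨ y = ev x a ∨ y = ev a b ∨ y = ev x a + ev a b := by
  by_cases hxa : x = a
  · subst hxa
    have h' : EvenOn {x, b} y := by simpa using h
    rcases even_two h' with h1 | h1
    · exact Or.inl h1
    · exact Or.inr (Or.inr (Or.inl h1))
  by_cases hxb : x = b
  · subst hxb
    have h' : EvenOn {a, x} y := by
      have h2 : ({x, a, x} : Finset V) = {a, x} := by
        ext w
        simp only [mem_insert, mem_singleton]
        tauto
      rwa [h2] at h
    rcases even_two h' with h1 | h1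
    · exact Or.inl h1
    · exact Or.inr (Or.inr (Or.inl h1))
  -- subtract `y x` times the vector `ev x a`
  have key : ∀ z : Vec V, EvenOn {x, a, b} z → z x = 0 → z = 0 ∨ z = ev a b := by
    intro z hz hzx
    refine even_two ⟨fun w hw => ?_, hz.2⟩
    by_cases hwx : w = x
    · rw [hwx]; exact hzx
    · refine hz.1 w ?_
      simp only [mem_insert, mem_singleton, not_or] at hw ⊢
      exact ⟨hwx, hw.1, hw.2⟩
  rcases z2 (y x) with hx | hx
  · rcases key y h hx with h1 | h1
    · exact Or.inl h1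
    · exact Or.inr (Or.inr (Or.inl h1))
  · have h1 : EvenOn {x, a, b} (y + ev x a) := by
      have h2 := evenOn_ev (V := V) (e := {x, a, b}) (a := x) (b := a) (by simp) (by simp)
      refine ⟨fun w hw => ?_, ?_⟩
      · rw [Pi.add_apply, h.1 w hw, h2.1 w hw, add_zero]
      · simp only [Pi.add_apply]
        rw [Finset.sum_add_distrib, h.2, h2.2, add_zero]
    have h2 : (y + ev x a) x = 0 := by
      rw [Pi.add_apply, hx, ev_left (Ne.symm hxa)]
      exact CharTwo.add_self_eq_zero _
    have h3 : (ev x a + ev x a : Vec V) = 0 := by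
      funext w
      exact CharTwo.add_self_eq_zero (ev x a w)
    have h4 : y = y + ev x a + ev x a := by
      rw [add_assoc, h3, add_zero]
    rcases key _ h1 h2 with h5 | h5
    · right; left
      rw [h4, h5, zero_add]
    · right; right; right
      rw [h4, h5, add_comm]

end Step

end SP

end Pool.Agent.ClawHam
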