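import Pool.Agent.Lib.MP_e2dbb5_co.SP_HYPPHI
import Pool.Agent.Lib.MP_e2dbb5_co.GElim

/-!
# SEP+: the algebra of one elimination (helper69)
-/

set_option autoImplicit false
set_option linter.unusedSectionVars false

open Finset

noncomputable section

namespace Pool.Agent.ClawHam

open Classical

namespace SP

open G GK

variable {V : Type} [Fintype V]

theorem even_one {a : V} {x : Vec V} (h : EvenOn {a} x) : x = 0 := by
  obtain ⟨h1, h2⟩ := h
  have h3 : x a = 0 := by
    rw [← h2, ← Finset.sum_singleton x a]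
    exact Finset.sum_subset (Finset.subset_univ _) fun w _ hw => h1 w hw
  funext w
  by_cases hw : w ∈ ({a} : Finset V)
  · rw [Finset.mem_singleton.1 hw, h3]
    rfl
  · rw [h1 w hw]
    rfl

theorem even_two' {a b : V} {x : Vec V} (h : EvenOn {a, b} x) : x = 0 ∨ x = ev a b := by
  by_cases hab : a = b
  · subst hab
    rw [Finset.pair_eq_singleton] at h
    exact Or.inl (even_one h)
  · exact even_two hab h

theorem even_three' {a b c : V} {x : Vec V} (h : EvenOn {a, b, c} x) :
    x = 0 ∨ x = ev a b ∨ x = ev b c ∨ x = ev a b + ev b c := by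
  by_cases hab : a = b
  · subst hab
    rw [Finset.insert_eq_of_mem (Finset.mem_insert_self _ _)] at h
    rcases even_two' h with h | h
    · exact Or.inl h
    · exact Or.inr (Or.inr (Or.inl h))
  by_cases hbc : b = c
  · subst hbc
    rw [Finset.pair_eq_singleton] at h
    rcases even_two' h with h | h
    · exact Or.inl h
    · exact Or.inr (Or.inl h)
  by_cases hac : a = c
  · subst hac
    have h1 : ({a, b, a} : Finset V) = {a, b} := by
      ext w
      simp only [Finset.mem_insert, Finset.mem_singleton]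
      tauto
    rw [h1] at h
    rcases even_two' h with h | h
    · exact Or.inl h
    · exact Or.inr (Or.inl h)
  · exact even_three hab hac hbc h

theorem inE_two {a b : V} {Q : El V} (h : InE {a, b} Q) : OO Q ≤ OO (ev a b, 0) := by
  refine GM.OO_mono ?_ ?_
  · rcases even_two' h.1 with h | h
    · exact Or.inl h
    · exact Or.inr (Or.inl h)
  · rcases even_two' h.2 with h | h
    · exact Or.inl h
    · exact Or.inr (Or.inl h)

theorem inE_three {a b c : V} {Q : El V} (h : InE {a, b, c} Q) : OO Q ≤ OO (ev a b, ev b c) :=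
  GM.OO_mono (even_three' h.1) (even_three' h.2)

theorem evenOn_mono {A B : Finset V} (h : A ⊆ B) {x : Vec V} (hx : EvenOn A x) : EvenOn B x :=
  ⟨fun w hw => hx.1 w fun hw' => hw (h hw'), hx.2⟩

theorem evenOn_zero (A : Finset V) : EvenOn A (0 : Vec V) :=
  ⟨fun _ _ => rfl, by simp⟩

theorem evenOn_ev {A : Finset V} {a b : V} (ha : a ∈ A) (hb : b ∈ A) : EvenOn A (ev a b) := by
  refine ⟨fun w hw => ?_, ?_⟩
  · have h1 : w ≠ a := by
      rintro rfl
      exact hw ha
    have h2 : w ≠ b := by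
      rintro rfl
      exact hw hb
    rw [ev_apply, if_neg h1, if_neg h2, add_zero]
  · simp only [ev_apply, Finset.sum_add_distrib, Finset.sum_ite_eq', Finset.mem_univ, if_true]
    decide

theorem rel_erase (v : V) (g : Multiset (Finset V)) : ∀ s : Multiset (El V),
    Multiset.Rel InE (g.map fun e => e.erase v) s → Multiset.Rel InE g s ∧ Free v s := by
  induction g using Multiset.induction_on with
  | empty =>
    intro s hs
    rw [Multiset.map_zero, Multiset.rel_zero_left] at hs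
    subst hs
    refine ⟨Multiset.Rel.zero, fun P hP => ?_⟩
    exact absurd hP (Multiset.notMem_zero P)
  | cons e g ih =>
    intro s hs
    rw [Multiset.map_cons, Multiset.rel_cons_left] at hs
    obtain ⟨Q, s', hQ, hs', rfl⟩ := hs
    obtain ⟨h1, h2⟩ := ih s' hs'
    refine ⟨Multiset.rel_cons_left.2 ⟨Q, s', ⟨evenOn_mono (Finset.erase_subset _ _) hQ.1,
      evenOn_mono (Finset.erase_subset _ _) hQ.2⟩, h1, rfl⟩, fun P hP => ?_⟩
    rcases Multiset.mem_cons.1 hP with rfl | hP
    · exact ⟨hQ.1.1 v (Finset.notMem_erase _ _), hQ.2.1 v (Finset.notMem_erase _ _)⟩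
    · exact h2 P hP

theorem ev_self_left {v x : V} (h : v ≠ x) : (ev v x : Vec V) v = 1 := by
  rw [ev_apply, if_pos rfl, if_neg h, add_zero]

theorem ev_none {v x y : V} (h : v ≠ x) (h' : v ≠ y) : (ev x y : Vec V) v = 0 := by
  rw [ev_apply, if_neg h, if_neg h', add_zero]

theorem ev_two (v x y : V) : (ev v x : Vec V) + ev v y = ev x y := by
  rw [ev_comm v x, ev_add]

/-- **the algebra of one elimination**: `v` lies in `F + v`, in three pairs, and in no other
member with at least two elements -/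
theorem algM_step (B₀ F : Finset V) (g : Multiset (Finset V)) (v x₁ x₂ x₃ : V) (hv : v ∈ B₀)
    (hF : F.Nonempty) (hF2 : F.card ≤ 2) (hvF : v ∉ F) (h1 : v ≠ x₁) (h2 : v ≠ x₂) (h3 : v ≠ x₃)
    (hA : AlgM (B₀.erase v) (insert x₁ F ::ₘ {x₂, x₃} ::ₘ g.map fun e => e.erase v)) :
    AlgM B₀ (insert v F ::ₘ {v, x₁} ::ₘ {v, x₂} ::ₘ {v, x₃} ::ₘ g) := by
  obtain ⟨s, hs, hal⟩ := hA
  rw [Multiset.rel_cons_left] at hs
  obtain ⟨Q, s', hQ, hs', rfl⟩ := hs
  rw [Multiset.rel_cons_left] at hs'
  obtain ⟨R, s, hR, hs, rfl⟩ := hs'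
  obtain ⟨hrel, hfree⟩ := rel_erase v g s hs
  have hR' := inE_two hR
  have hp : ∀ x, v ≠ x → InE ({v, x} : Finset V) (ev v x, 0) := fun x _ =>
    ⟨evenOn_ev (by simp) (by simp), evenOn_zero _⟩
  -- the plane of `F + v`
  have hpl : ∃ a ∈ F, ∃ d : Vec V, d v = 0 ∧ InE (insert v F) (ev v a, d) ∧
      OO Q ≤ OO (ev a x₁, d) := by
    have hc : F.card = 1 ∨ F.card = 2 := by
      have := Finset.card_pos.2 hF
      omega
    rcases hc with hc | hc
    · obtain ⟨a, rfl⟩ := Finset.card_eq_one.1 hc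
      refine ⟨a, Finset.mem_singleton_self a, 0, rfl, ⟨evenOn_ev (by simp) (by simp),
        evenOn_zero _⟩, ?_⟩
      rw [ev_comm a x₁]
      exact inE_two hQ
    · obtain ⟨a, b, hab, rfl⟩ := Finset.card_eq_two.1 hc
      rw [Finset.mem_insert, Finset.mem_singleton, not_or] at hvF
      refine ⟨a, Finset.mem_insert_self _ _, ev a b, ev_none hvF.1 hvF.2,
        ⟨evenOn_ev (by simp) (by simp), evenOn_ev (by simp) (by simp)⟩, ?_⟩
      rw [ev_comm a x₁]
      exact inE_three hQ
  obtain ⟨a, ha, d, hd, hin, hle⟩ := hpl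
  have hva : v ≠ a := fun h => hvF (h ▸ ha)
  refine ⟨(ev v a, d) ::ₘ (ev v x₁, 0) ::ₘ (ev v x₂, 0) ::ₘ (ev v x₃, 0) ::ₘ s, ?_, ?_⟩
  · exact Multiset.rel_cons_left.2 ⟨_, _, hin, Multiset.rel_cons_left.2 ⟨_, _, hp x₁ h1,
      Multiset.rel_cons_left.2 ⟨_, _, hp x₂ h2, Multiset.rel_cons_left.2 ⟨_, _, hp x₃ h3, hrel,
        rfl⟩, rfl⟩, rfl⟩, rfl⟩
  · refine G.rowElimD V B₀ s v (ev v a) d (ev v x₁) (ev v x₂) (ev v x₃) hv hfree
      (ev_self_left hva) (ev_self_left h1) (ev_self_left h2) (ev_self_left h3) hd ?_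
    rw [ev_two, ev_two]
    refine GM.algE_mono ?_ hal
    rw [OP_cons, OP_cons, OP_cons, OP_cons]
    exact mul_le_mul' hle (mul_le_mul' hR' le_rfl)

/-- more members are allowed -/
theorem algM_add (B₀ : Finset V) (h h' : Multiset (Finset V)) (hA : AlgM B₀ h) :
    AlgM B₀ (h + h') := by
  obtain ⟨s, hs, hal⟩ := hA
  have h0 : Multiset.Rel InE h' (h'.map fun _ => ((0, 0) : El V)) := by
    induction h' using Multiset.induction_on with
    | empty => exact Multiset.Rel.zero
    | cons e h' ih =>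
      rw [Multiset.map_cons]
      exact Multiset.Rel.cons ⟨evenOn_zero e, evenOn_zero e⟩ ih
  refine ⟨s + h'.map fun _ => ((0, 0) : El V), Multiset.Rel.add hs h0, GM.algE_mono ?_ hal⟩
  rw [OP_add]
  have h1 : (1 : Submodule (ZMod 2) (RR V)) ≤ OP (h'.map fun _ => ((0, 0) : El V)) := by
    rw [Submodule.one_le]
    exact one_mem_OP _
  calc OP s = OP s * 1 := by
        rw [show ∀ A : Submodule (ZMod 2) (RR V), A * 1 = A from fun A => mul_one A]
    _ ≤ _ := mul_le_mul' le_rfl h1

/-- the same, the members through `v` of the rest are dropped -/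
theorem algM_step' (B₀ F : Finset V) (g : Multiset (Finset V)) (v x₁ x₂ x₃ : V) (hv : v ∈ B₀)
    (hF : F.Nonempty) (hF2 : F.card ≤ 2) (hvF : v ∉ F) (h1 : v ≠ x₁) (h2 : v ≠ x₂) (h3 : v ≠ x₃)
    (hA : AlgM (B₀.erase v) (insert x₁ F ::ₘ {x₂, x₃} ::ₘ g.filter fun e => v ∉ e)) :
    AlgM B₀ (insert v F ::ₘ {v, x₁} ::ₘ {v, x₂} ::ₘ {v, x₃} ::ₘ g) := by
  refine algM_step B₀ F g v x₁ x₂ x₃ hv hF hF2 hvF h1 h2 h3 ?_
  have h4 : g.map (fun e => e.erase v) = g.filter (fun e => v ∉ e) +
      (g.filter fun e => ¬ v ∉ e).map fun e => e.erase v := by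
    conv_lhs => rw [← Multiset.filter_add_not (fun e => v ∉ e) g]
    rw [Multiset.map_add]
    congr 1
    conv_rhs => rw [← Multiset.map_id (g.filter fun e => v ∉ e)]
    refine Multiset.map_congr rfl fun e he => ?_
    exact Finset.erase_eq_of_notMem (Multiset.mem_filter.1 he).2
  rw [h4]
  have h5 := algM_add _ _ ((g.filter fun e => ¬ v ∉ e).map fun e => e.erase v) hA
  rw [Multiset.cons_add, Multiset.cons_add] at h5
  exact h5

end SP

end Pool.Agent.ClawHam
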