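import Pool.Agent.Lib.MP_e2dbb5_co.SP_StepAlg

/-!
# The algebra of one elimination: two triples and two pairs (helper69)
-/

set_option autoImplicit false
set_option linter.unusedSectionVars false

open Finset

noncomputable section

namespace Pool.Agent.ClawHam

open Classical

namespace SP

open G GK

variable {V : Type} [Fintype V]

/-- larger members are allowed -/
theorem algM_trim (B₀ : Finset V) (h : Multiset (Finset V)) {e e' : Finset V} (he : e ⊆ e')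
    (hA : AlgM B₀ (e ::ₘ h)) : AlgM B₀ (e' ::ₘ h) := by
  obtain ⟨s, hs, hal⟩ := hA
  rw [Multiset.rel_cons_left] at hs
  obtain ⟨Q, s', hQ, hs', rfl⟩ := hs
  exact ⟨Q ::ₘ s', Multiset.rel_cons_left.2 ⟨Q, s', ⟨evenOn_mono he hQ.1, evenOn_mono he hQ.2⟩,
    hs', rfl⟩, hal⟩

/-- **the algebra of one elimination**: `v` lies in the triples `v + d₁`, `v + d₂`, in two pairs,
and in no other member with at least two elements -/
theorem algM_stepC (B₀ d₁ d₂ : Finset V) (g : Multiset (Finset V)) (v x₁ x₂ : V) (hv : v ∈ B₀)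
    (hd₁ : d₁.card = 2) (hd₂ : d₂.card = 2) (hvd₁ : v ∉ d₁) (hvd₂ : v ∉ d₂) (h1 : v ≠ x₁)
    (h2 : v ≠ x₂)
    (hA : AlgM (B₀.erase v) (d₁ ::ₘ d₂ ::ₘ {x₁, x₂} ::ₘ g.map fun e => e.erase v)) :
    AlgM B₀ (insert v d₁ ::ₘ insert v d₂ ::ₘ {v, x₁} ::ₘ {v, x₂} ::ₘ g) := by
  obtain ⟨s, hs, hal⟩ := hA
  rw [Multiset.rel_cons_left] at hs
  obtain ⟨Q₁, s', hQ₁, hs', rfl⟩ := hs
  rw [Multiset.rel_cons_left] at hs'
  obtain ⟨Q₂, s'', hQ₂, hs'', rfl⟩ := hs'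
  rw [Multiset.rel_cons_left] at hs''
  obtain ⟨R, s, hR, hs, rfl⟩ := hs''
  obtain ⟨hrel, hfree⟩ := rel_erase v g s hs
  have hp : ∀ x, InE ({v, x} : Finset V) (ev v x, 0) := fun x =>
    ⟨evenOn_ev (by simp) (by simp), evenOn_zero _⟩
  obtain ⟨a, b, hab, rfl⟩ := Finset.card_eq_two.1 hd₁
  obtain ⟨c, d, hcd, rfl⟩ := Finset.card_eq_two.1 hd₂
  rw [Finset.mem_insert, Finset.mem_singleton, not_or] at hvd₁ hvd₂
  refine ⟨(ev v a, ev a b) ::ₘ (ev v c, ev c d) ::ₘ (ev v x₁, 0) ::ₘ (ev v x₂, 0) ::ₘ s, ?_, ?_⟩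
  · exact Multiset.rel_cons_left.2 ⟨_, _, ⟨evenOn_ev (by simp) (by simp),
      evenOn_ev (by simp) (by simp)⟩, Multiset.rel_cons_left.2 ⟨_, _,
      ⟨evenOn_ev (by simp) (by simp), evenOn_ev (by simp) (by simp)⟩,
      Multiset.rel_cons_left.2 ⟨_, _, hp x₁, Multiset.rel_cons_left.2 ⟨_, _, hp x₂, hrel,
        rfl⟩, rfl⟩, rfl⟩, rfl⟩
  · refine G.rowElimC V B₀ s v (ev v a) (ev a b) (ev v c) (ev c d) (ev v x₁) (ev v x₂) hv hfree
      (ev_self_left hvd₁.1) (ev_self_left hvd₂.1) (ev_self_left h1) (ev_self_left h2)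
      (ev_none hvd₁.1 hvd₁.2) (ev_none hvd₂.1 hvd₂.2) ?_
    rw [ev_two]
    refine GM.algE_mono ?_ hal
    rw [OP_cons, OP_cons, OP_cons, OP_cons, OP_cons, OP_cons]
    exact mul_le_mul' (inE_two hQ₁) (mul_le_mul' (inE_two hQ₂) (mul_le_mul' (inE_two hR) le_rfl))

/-- the same, the members through `v` of the rest are dropped -/
theorem algM_stepC' (B₀ d₁ d₂ : Finset V) (g : Multiset (Finset V)) (v x₁ x₂ : V) (hv : v ∈ B₀)
    (hd₁ : d₁.card = 2) (hd₂ : d₂.card = 2) (hvd₁ : v ∉ d₁) (hvd₂ : v ∉ d₂) (h1 : v ≠ x₁)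
    (h2 : v ≠ x₂)
    (hA : AlgM (B₀.erase v) (d₁ ::ₘ d₂ ::ₘ {x₁, x₂} ::ₘ g.filter fun e => v ∉ e)) :
    AlgM B₀ (insert v d₁ ::ₘ insert v d₂ ::ₘ {v, x₁} ::ₘ {v, x₂} ::ₘ g) := by
  refine algM_stepC B₀ d₁ d₂ g v x₁ x₂ hv hd₁ hd₂ hvd₁ hvd₂ h1 h2 ?_
  have h4 : g.map (fun e => e.erase v) = g.filter (fun e => v ∉ e) +
      (g.filter fun e => ¬ v ∉ e).map fun e => e.erase v := by
    conv_lhs => rw [← Multiset.filter_add_not (fun e => v ∉ e) g]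
    rw [Multiset.map_add]
    congr 1
    conv_rhs => rw [← Multiset.map_id (g.filter fun e => v ∉ e)]
    refine Multiset.map_congr rfl fun e he => ?_
    exact Finset.erase_eq_of_notMem (Multiset.mem_filter.1 he).2
  rw [h4]
  have h5 := algM_add _ _ ((g.filter fun e => ¬ v ∉ e).map fun e => e.erase v) hA
  rw [Multiset.cons_add, Multiset.cons_add, Multiset.cons_add] at h5
  exact h5

end SP

end Pool.Agent.ClawHam
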