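import Pool.Agent.Lib.MP_e2dbb5_co.CB1

/-!
# Growth orders (helper82)

`evenConn_of_grow`: a linear order `r` of the vertices; every vertex `v ≠ s` owns a hyperedge `t v`
containing it and an earlier vertex (different vertices own different hyperedges). If `v` is the
last vertex of `t v`, the other vertices of `t v` are linked. The hyperedges without owner are full.
If the links and the full hyperedges connect everything, there is a connected even choice.

`evenConn_of_order`: it is enough that every vertex `v ≠ b` has a link or a full hyperedge to a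
later vertex.
-/

set_option autoImplicit false

open Finset

noncomputable section

namespace Pool.Agent.ClawHam.TK

open CB1

open Classical

variable {B I : Type} [Fintype B] [Fintype I]

/-- a growth order -/
structure Grow (e : I → Finset B) (s : B) (r : B → ℕ) (t : B → I) (p : B → B) : Prop where
  inj : ∀ u v, r u = r v → u = v
  tinj : ∀ u v, u ≠ s → v ≠ s → t u = t v → u = v
  mem : ∀ v, v ≠ s → v ∈ e (t v)
  pmem : ∀ v, v ≠ s → p v ∈ e (t v)
  lt : ∀ v, v ≠ s → r (p v) < r v

/-- `v` is the last vertex of its hyperedge -/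
def Near (e : I → Finset B) (r : B → ℕ) (t : B → I) (v : B) : Prop :=
  ∀ w ∈ e (t v), w ≠ v → r w < r v

/-- the owner of a hyperedge -/
def own (s : B) (t : B → I) (i : I) : B :=
  if h : ∃ v, v ≠ s ∧ t v = i then h.choose else s

theorem own_eq {e : I → Finset B} {s : B} {r : B → ℕ} {t : B → I} {p : B → B}
    (hG : Grow e s r t p) {v : B} (hv : v ≠ s) : own s t (t v) = v := by
  have h : ∃ u, u ≠ s ∧ t u = t v := ⟨v, hv, rfl⟩
  unfold own
  rw [dif_pos h]
  exact hG.tinj _ _ h.choose_spec.1 hv h.choose_spec.2

/-- the tree of a growth order is connected -/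
theorem grow_side {e : I → Finset B} {s : B} {r : B → ℕ} {t : B → I} {p : B → B}
    (hG : Grow e s r t p) {X : Finset B} {k : ℕ}
    (hX : ∀ u, u ≠ s → r u < k → ¬ Crosses {p u, u} X) :
    ∀ m u, r u = m → m < k → (u ∈ X ↔ s ∈ X) := by
  intro m
  induction m using Nat.strong_induction_on with
  | _ m ih =>
    intro u hu hm
    by_cases hus : u = s
    · rw [hus]
    · have h1 := hX u hus (by omega)
      have h2 := ih (r (p u)) (by rw [← hu]; exact hG.lt u hus) (p u) rfl
        (by have := hG.lt u hus; omega)
      rcases not_crosses_iff.1 h1 with h3 | h3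
      · have ha : p u ∈ X := h3 (by simp)
        have hb : u ∈ X := h3 (by simp)
        exact ⟨fun _ => h2.1 ha, fun _ => hb⟩
      · have ha : p u ∉ X := h3 _ (by simp)
        have hb : u ∉ X := h3 _ (by simp)
        exact ⟨fun h => absurd h hb, fun h => absurd (h2.2 h) ha⟩

/-- **growth orders**: if the links and the hyperedges without owner connect everything, there is a
connected even choice -/
theorem evenConn_of_grow {e : I → Finset B} {s : B} {r : B → ℕ} {t : B → I} {p : B → B}
    (h3 : ∀ i, (e i).card ≤ 3) (hG : Grow e s r t p)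
    (hU : ∀ X : Finset B, (∀ i, (∀ v, v ≠ s → t v ≠ i) → ¬ Crosses (e i) X) →
      (∀ v, v ≠ s → Near e r t v → ¬ Crosses ((e (t v)).erase v) X) → X = ∅ ∨ X = univ) :
    EvenConn univ e := by
  set J : Finset I := (univ.erase s).image t with hJ
  set f : I → Finset B := fun i => {p (own s t i), own s t i} with hf
  set g : I → Finset B := fun i => if Near e r t (own s t i) then (e i).erase (own s t i) else ∅
    with hg
  have hmemJ : ∀ i, i ∈ J ↔ ∃ v, v ≠ s ∧ t v = i := by
    intro i
    rw [hJ, mem_image]
    constructor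
    · rintro ⟨v, hv, rfl⟩
      exact ⟨v, (mem_erase.1 hv).1, rfl⟩
    · rintro ⟨v, hv, rfl⟩
      exact ⟨v, mem_erase.2 ⟨hv, mem_univ _⟩, rfl⟩
  have hft : ∀ v, v ≠ s → f (t v) = {p v, v} := by
    intro v hv
    rw [hf]
    simp only [own_eq hG hv]
  have hpv : ∀ v, v ≠ s → p v ≠ v := by
    intro v hv h
    have := hG.lt v hv
    rw [h] at this
    omega
  obtain ⟨K, hK⟩ : ∃ K, ∀ u : B, r u < K :=
    ⟨univ.sup r + 1, fun u => Nat.lt_succ_of_le (Finset.le_sup (mem_univ u))⟩
  have hT : Tree f J := by
    refine ⟨?_, ?_, ?_⟩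
    · intro i hi
      obtain ⟨v, hv, rfl⟩ := (hmemJ i).1 hi
      rw [hft v hv, card_pair (hpv v hv)]
    · intro X hX hX'
      by_contra hcon
      push Not at hcon
      have h1 : ∀ u, u ∈ X ↔ s ∈ X := fun u =>
        grow_side hG (X := X) (k := K) (fun u hu _ => by
          have := hcon (t u) ((hmemJ _).2 ⟨u, hu, rfl⟩)
          rwa [hft u hu] at this) (r u) u rfl (hK u)
      obtain ⟨x, hx⟩ := hX
      apply hX'
      ext y
      simp only [mem_univ, iff_true]
      exact (h1 y).2 ((h1 x).1 hx)
    · rw [hJ, card_image_of_injOn, card_erase_of_mem (mem_univ s), card_univ]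
      · have : 0 < Fintype.card B := Fintype.card_pos_iff.2 ⟨s⟩
        omega
      · intro u hu v hv huv
        rw [coe_erase, Set.mem_diff, Set.mem_singleton_iff] at hu hv
        exact hG.tinj u v hu.2 hv.2 huv
  have hsub : ∀ i ∈ J, f i ⊆ e i := by
    intro i hi
    obtain ⟨v, hv, rfl⟩ := (hmemJ i).1 hi
    rw [hft v hv]
    intro z hz
    rw [mem_insert, mem_singleton] at hz
    rcases hz with rfl | rfl
    · exact hG.pmem v hv
    · exact hG.mem _ hv
  -- the steps
  set P : B → Prop := fun v => v ≠ s ∧ Near e r t v ∧ ∃ z ∈ e (t v), z ≠ v ∧ z ≠ p v with hP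
  set F : Finset I := (univ.filter P).image t with hF
  have hmemF : ∀ v, v ≠ s → (t v ∈ F ↔ P v) := by
    intro v hv
    rw [hF, mem_image]
    constructor
    · rintro ⟨u, hu, huv⟩
      have hu' := (mem_filter.1 hu).2
      have := hG.tinj u v hu'.1 hv huv
      rw [← this]
      exact hu'
    · intro h
      exact ⟨v, mem_filter.2 ⟨mem_univ _, h⟩, rfl⟩
  have hder : ∀ k : ℕ, DerC e g f J F ((univ.filter fun v => P v ∧ r v < k).image t) := by
    intro k
    induction k with
    | zero =>
      have h0 : (univ.filter fun v => P v ∧ r v < 0).image t = (∅ : Finset I) := by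
        rw [image_eq_empty, filter_eq_empty_iff]
        intro v _ h
        omega
      rw [h0]
      exact DerC.nil
    | succ k ih =>
      by_cases hv : ∃ v, P v ∧ r v = k
      · obtain ⟨v, hPv, hrv⟩ := hv
        have hins : (univ.filter fun u => P u ∧ r u < k + 1).image t
            = insert (t v) ((univ.filter fun u => P u ∧ r u < k).image t) := by
          ext i
          simp only [mem_image, mem_filter, mem_univ, true_and, mem_insert]
          constructor
          · rintro ⟨u, ⟨hPu, hu⟩, rfl⟩
            by_cases huk : r u = k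
            · left
              rw [hG.inj u v (by omega)]
            · right
              exact ⟨u, ⟨hPu, by omega⟩, rfl⟩
          · rintro (rfl | ⟨u, ⟨hPu, hu⟩, rfl⟩)
            · exact ⟨v, ⟨hPv, by omega⟩, rfl⟩
            · exact ⟨u, ⟨hPu, by omega⟩, rfl⟩
        rw [hins]
        obtain ⟨hvs, hnear, z, hz, hzv, hzp⟩ := hPv
        have he3 : (e (t v)).erase v = {p v, z} := by
          symm
          apply Finset.eq_of_subset_of_card_le
          · intro w hw
            rw [mem_insert, mem_singleton] at hw
            rcases hw with rfl | rfl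
            · exact mem_erase.2 ⟨hpv v hvs, hG.pmem v hvs⟩
            · exact mem_erase.2 ⟨hzv, hz⟩
          · rw [card_pair hzp.symm, card_erase_of_mem (hG.mem v hvs)]
            have := h3 (t v)
            omega
        have hgt : g (t v) = {p v, z} := by
          rw [hg]
          simp only [own_eq hG hvs]
          rw [if_pos hnear, he3]
        refine DerC.link ih ((hmemJ _).2 ⟨v, hvs, rfl⟩)
          ((hmemF v hvs).2 ⟨hvs, hnear, z, hz, hzv, hzp⟩) ?_ (hft v hvs) hz hzp hzv (hpv v hvs)
          hgt ?_
        · intro h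
          simp only [mem_image, mem_filter, mem_univ, true_and] at h
          obtain ⟨u, ⟨hPu, hu⟩, huv⟩ := h
          have := hG.tinj u v hPu.1 hvs huv
          rw [this] at hu
          omega
        · intro X hX
          have hside := grow_side hG (X := X) (k := k) (fun u hus huk => by
            have h1 := hX (t u) ((hmemJ _).2 ⟨u, hus, rfl⟩) (by
              by_cases hPu : P u
              · right
                simp only [mem_image, mem_filter, mem_univ, true_and]
                exact ⟨u, ⟨hPu, huk⟩, rfl⟩
              · left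
                rw [hmemF u hus]
                exact hPu)
            rwa [hft u hus] at h1)
          have hp := hside (r (p v)) (p v) rfl (by have := hG.lt v hvs; omega)
          have hz' := hside (r z) z rfl (by have := hnear z hz hzv; omega)
          intro hx
          exact hz'.2 (hp.1 hx)
      · have hsame : (univ.filter fun u => P u ∧ r u < k + 1)
            = (univ.filter fun u => P u ∧ r u < k) := by
          ext u
          simp only [mem_filter, mem_univ, true_and]
          constructor
          · rintro ⟨hPu, hu⟩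
            refine ⟨hPu, ?_⟩
            by_contra hcon
            exact hv ⟨u, hPu, by omega⟩
          · rintro ⟨hPu, hu⟩
            exact ⟨hPu, by omega⟩
        rw [hsame]
        exact ih
  have hFK : F = (univ.filter fun v => P v ∧ r v < K).image t := by
    rw [hF]
    congr 1
    ext v
    simp only [mem_filter, mem_univ, true_and]
    exact ⟨fun h => ⟨h, hK v⟩, fun h => h.1⟩
  have hdF : DerC e g f J F F := by
    have h1 := hder K
    rw [← hFK] at h1
    exact h1
  refine evenConn_of_comb h3 hT hsub hdF ?_
  intro X hX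
  apply hU X
  · intro i hi
    have hiJ : i ∉ J := by
      rw [hmemJ]
      rintro ⟨v, hv, h⟩
      exact hi v hv h
    have h1 := hX i (Or.inl hiJ)
    rwa [mix_not hiJ] at h1
  · intro v hv hnear
    have hvJ : t v ∈ J := (hmemJ _).2 ⟨v, hv, rfl⟩
    by_cases hPv : P v
    · have h1 := hX (t v) (Or.inr ((hmemF v hv).2 hPv))
      rw [mix_mem hvJ] at h1
      have h2 : g (t v) = (e (t v)).erase v := by
        rw [hg]
        simp only [own_eq hG hv]
        rw [if_pos hnear]
      rwa [h2] at h1
    · rintro ⟨⟨a, ha, haX⟩, b, hb, hbX⟩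
      have hone : ∀ z ∈ (e (t v)).erase v, z = p v := by
        intro z hz
        by_contra hzp
        exact hPv ⟨hv, hnear, z, (mem_erase.1 hz).2, (mem_erase.1 hz).1, hzp⟩
      rw [hone a ha] at haX
      rw [hone b hb] at hbX
      exact hbX haX

/-- **orders**: it is enough that every vertex `v ≠ b` has a link or a full hyperedge to a later
vertex -/
theorem evenConn_of_order {e : I → Finset B} {s b : B} {r : B → ℕ} {t : B → I} {p : B → B}
    (h3 : ∀ i, (e i).card ≤ 3) (hG : Grow e s r t p)
    (hS : ∀ v, v ≠ b → ∃ i, ∃ w, v ∈ e i ∧ w ∈ e i ∧ r v < r w ∧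
      ((∀ u, u ≠ s → t u ≠ i) ∨ ∃ u, u ≠ s ∧ t u = i ∧ Near e r t u ∧ v ≠ u ∧ w ≠ u)) :
    EvenConn univ e := by
  apply evenConn_of_grow h3 hG
  -- a closed set not containing `b` is empty
  have key : ∀ X : Finset B, (∀ i, (∀ v, v ≠ s → t v ≠ i) → ¬ Crosses (e i) X) →
      (∀ v, v ≠ s → Near e r t v → ¬ Crosses ((e (t v)).erase v) X) → b ∉ X → X = ∅ := by
    intro X h1 h2 hb
    by_contra hne
    obtain ⟨v, hv, hmax⟩ := Finset.exists_max_image X r (Finset.nonempty_iff_ne_empty.2 hne)
    obtain ⟨i, w, hvi, hwi, hvw, h⟩ := hS v (fun h => hb (h ▸ hv))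
    have hwX : w ∉ X := fun h => by have := hmax w h; omega
    rcases h with h | ⟨u, hu, rfl, hnear, hvu, hwu⟩
    · exact h1 i h ⟨⟨v, hvi, hv⟩, w, hwi, hwX⟩
    · exact h2 u hu hnear ⟨⟨v, mem_erase.2 ⟨hvu, hvi⟩, hv⟩, w, mem_erase.2 ⟨hwu, hwi⟩, hwX⟩
  intro X h1 h2
  by_cases hb : b ∈ X
  · right
    have h3' := key Xᶜ (fun i hi hc => h1 i hi (crosses_compl_iff.1 hc))
      (fun v hv hn hc => h2 v hv hn (crosses_compl_iff.1 hc)) (by simpa using hb)
    rwa [Finset.compl_eq_empty_iff] at h3'
  · left
    exact key X h1 h2 hb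

end Pool.Agent.ClawHam.TK
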