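import Pool.Agent.Lib.MP_e2dbb5_co.Defs

/-!
# Row T1: toughness and cutsets (helper9)
-/

set_option autoImplicit false

open Finset

noncomputable section

namespace Pool.Agent.ClawHam

theorem rowt1 : RowT1 := by
  intro V _ G t ht hG S A C hcov hAC hAS hCS hA hC hno
  obtain ⟨a, ha⟩ := hA
  obtain ⟨c, hc⟩ := hC
  have ha' : a ∉ S := Finset.disjoint_left.1 hAS ha
  have hc' : c ∉ S := Finset.disjoint_left.1 hCS hc
  have hwalk : ∀ (x y : {v | v ∉ S}), (G.induce {v | v ∉ S}).Walk x y → (x : V) ∈ A →
      (y : V) ∈ A := by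
    intro x y w
    induction w with
    | nil => exact fun h => h
    | cons h p ih =>
      intro hx
      rename_i u v w
      refine ih ?_
      have hadj : G.Adj (u : V) (v : V) := h
      rcases hcov (v : V) with h1 | h1 | h1
      · exact absurd h1 v.2
      · exact h1
      · exact absurd hadj (hno _ hx _ h1)
  have hne : (G.induce {v | v ∉ S}).connectedComponentMk ⟨a, ha'⟩ ≠
      (G.induce {v | v ∉ S}).connectedComponentMk ⟨c, hc'⟩ := by
    intro h
    obtain ⟨w⟩ := SimpleGraph.ConnectedComponent.exact h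
    exact Finset.disjoint_left.1 hAC (hwalk _ _ w ha) hc
  have hfin : Finite (G.induce {v | v ∉ S}).ConnectedComponent := Quot.finite _
  have h2 : 2 ≤ Nat.card (G.induce {v | v ∉ S}).ConnectedComponent :=
    Finite.one_lt_card_iff_nontrivial.2 ⟨_, _, hne⟩
  have h3 := hG S h2
  have h4 : (2 : ℝ) ≤ Nat.card (G.induce {v | v ∉ S}).ConnectedComponent := by exact_mod_cast h2
  have h5 : (4 : ℝ) < S.card := by nlinarith
  have h6 : 4 < S.card := by exact_mod_cast h5
  omega

end Pool.Agent.ClawHam
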