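import Pool.Agent.Lib.MP_e2dbb5_co.Defs

/-!
# Certificates for connected even choices (helper69, row K)

Interface between the combinatorial lemma on hypergraphs of rank three (helper35) and
`HypLemma'`: it is enough to prove `TCG` (or `TCV`, or `TCM`).
-/

set_option autoImplicit false

open Finset

noncomputable section

namespace Pool.Agent.ClawHam

open Classical

/-- the weight of a hyperedge which meets `j` classes of a partition -/
def wt (j : ℕ) : ℕ := if j ≤ 1 then 0 else j

/-- (K): twice the number of hyperedges meeting two classes plus three times the number of those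
meeting three classes is at least `4 (|P| - 1)`; `c` is the labelling of the partition `P` -/
def KCond {B I : Type} [Fintype B] [Fintype I] (e : I → Finset B) : Prop :=
  ∀ c : B → B, 4 * ((univ.image c).card - 1) ≤ ∑ i, wt ((e i).image c).card

/-- the same with `4 |P|`, for partitions with at least two classes -/
def KCond4 {B I : Type} [Fintype B] [Fintype I] (e : I → Finset B) : Prop :=
  ∀ c : B → B, 2 ≤ (univ.image c).card → 4 * (univ.image c).card ≤ ∑ i, wt ((e i).image c).card

/-- the graph of the pairs `p i` is connected -/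
def Conn {B I : Type} [Fintype B] (p : I → Finset B) : Prop :=
  ∀ X : Finset B, X.Nonempty → X ≠ univ → ∃ i, Crosses (p i) X

/-- every `p i` is empty or a pair -/
def Pairs {B I : Type} (p : I → Finset B) : Prop := ∀ i, p i = ∅ ∨ (p i).card = 2

/-- General certificate: two choices `f0`, `f1` (pairs or nothing) such that every mixture of them
is connected, and the differences form a connected graph. -/
def GCert {B I : Type} [Fintype B] (e : I → Finset B) : Prop :=
  ∃ f0 f1 : I → Finset B, Pairs f0 ∧ Pairs f1 ∧ (∀ i, f0 i ⊆ e i) ∧ (∀ i, f1 i ⊆ e i) ∧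
    Pairs (fun i => symmDiff (f0 i) (f1 i)) ∧
    (∀ s : I → Bool, Conn fun i => if s i then f1 i else f0 i) ∧
    Conn fun i => symmDiff (f0 i) (f1 i)

/-- Vertex version: every vertex `v ≠ v₀` has its own hyperedge `g v`, which contains `v` and an
earlier vertex (a vertex with smaller `r`). `D i` is a pair in the hyperedge `i` if `i` is not used,
and `D (g v)` may be `e (g v)` without `v` if this is a pair of earlier vertices. The graph of the
pairs `D i` is connected. -/
def Cert {B I : Type} [Fintype B] (e : I → Finset B) : Prop :=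
  ∃ (v₀ : B) (r : B → ℕ) (g : B → I) (D : I → Finset B),
    (∀ u v, u ≠ v₀ → v ≠ v₀ → g u = g v → u = v) ∧
    (∀ v, v ≠ v₀ → v ∈ e (g v) ∧ ∃ u ∈ e (g v), r u < r v) ∧
    Pairs D ∧ (∀ i, (∀ v, v ≠ v₀ → g v ≠ i) → D i ⊆ e i) ∧
    (∀ v, v ≠ v₀ → D (g v) = ∅ ∨ (D (g v) = (e (g v)).erase v ∧ ∀ u ∈ D (g v), r u < r v)) ∧
    Conn D

/-- Flexible trees, by merging classes: `f0 i`, `f1 i` are the two possible pairs of the hyperedge
`i` used to join the class `A` to the class `A'` (they are equal if there is no bonus). -/
inductive FTree {B I : Type} (f0 f1 : I → Finset B) : Finset B → Finset I → Prop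
  | single (v : B) : FTree f0 f1 {v} ∅
  | join (A A' : Finset B) (T T' : Finset I) (i : I) (a b c : B) :
      FTree f0 f1 A T → FTree f0 f1 A' T' → Disjoint A A' → Disjoint T T' → i ∉ T → i ∉ T' →
      a ∈ A → b ∈ A' → c ∈ A' → f0 i = {a, b} → f1 i = {a, c} →
      FTree f0 f1 (A ∪ A') (insert i (T ∪ T'))

/-- Merging version (Kruskal form). -/
def CertM {B I : Type} [Fintype B] (e : I → Finset B) : Prop :=
  ∃ (f0 f1 : I → Finset B) (T : Finset I), FTree f0 f1 univ T ∧ Pairs f0 ∧ Pairs f1 ∧
    (∀ i, f0 i ⊆ e i) ∧ (∀ i, f1 i ⊆ e i) ∧ (∀ i, i ∉ T → f0 i = ∅) ∧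
    Conn fun i => symmDiff (f0 i) (f1 i)

/-- The combinatorial lemma, in its weakest (most general) form: all certificates allowed. -/
def TCG : Prop :=
  ∀ (B I : Type) [Fintype B] [Nonempty B] [Fintype I] (e : I → Finset B),
    (∀ i, (e i).card = 2 ∨ (e i).card = 3) → FourConn univ e → GCert e

/-- The combinatorial lemma with the condition (K) and the vertex version. -/
def TCV : Prop :=
  ∀ (B I : Type) [Fintype B] [Nonempty B] [Fintype I] (e : I → Finset B),
    (∀ i, (e i).card = 2 ∨ (e i).card = 3) → KCond e → Cert e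

/-- The combinatorial lemma with the condition (K) and the merging version. -/
def TCM : Prop :=
  ∀ (B I : Type) [Fintype B] [Nonempty B] [Fintype I] (e : I → Finset B),
    (∀ i, (e i).card = 2 ∨ (e i).card = 3) → KCond e → CertM e

/-- row K -/
def RowK : Prop := (TCG → HypLemma') ∧ (TCV → TCG) ∧ (TCM → TCG)

end Pool.Agent.ClawHam
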