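import Pool.Agent.Lib.MP_e2dbb5_co.GElim

/-!
# Eliminations with toggles: the frame (helper69)

A toggle is a pair which may be used by the second tree only: its space is the span of `1`, `q_x`.
`AlgN B₀ N`: the space `N` contains an element whose coefficient at `∏ t_w q_w`, `w ∈ B₀ - r`, is
not zero.
-/

set_option autoImplicit false
set_option linter.unusedSectionVars false
set_option linter.unusedVariables false

open Finset MvPolynomial

noncomputable section

namespace Pool.Agent.ClawHam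

open Classical

namespace G

theorem cm1 {M : Type} [CommMonoid M] (a b c d : M) : a * (b * (c * d)) = (b * c) * (a * d) := by
  ac_rfl

theorem cm2 {M : Type} [CommMonoid M] (a b c d e f : M) :
    (c * d) * (a * (b * e) * f) = a * (b * (c * (d * e))) * f := by
  ac_rfl

variable {V : Type} [Fintype V]

theorem sub_mul_one (a : Submodule (ZMod 2) (RR V)) : a * 1 = a := mul_one a

theorem scm1 (a b c d : Submodule (ZMod 2) (RR V)) : a * (b * (c * d)) = (b * c) * (a * d) :=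
  cm1 a b c d

theorem scm2 (a b c d e f : Submodule (ZMod 2) (RR V)) :
    (c * d) * (a * (b * e) * f) = a * (b * (c * (d * e))) * f := cm2 a b c d e f

/-- the space of a toggle -/
def OT (x : Vec V) : Submodule (ZMod 2) (RR V) := Submodule.span (ZMod 2) {1, QQ x}

/-- the product of the spaces of toggles -/
def OPT (τ : Multiset (Vec V)) : Submodule (ZMod 2) (RR V) := (τ.map OT).prod

/-- the certificate for a space -/
def AlgN (B₀ : Finset V) (N : Submodule (ZMod 2) (RR V)) : Prop :=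
  ∃ r ∈ B₀, ∃ x ∈ N, top (B₀.erase r) x ≠ 0

/-- the certificate for a system with toggles -/
def AlgQ (B₀ : Finset V) (s : Multiset (El V)) (τ : Multiset (Vec V)) : Prop :=
  AlgN B₀ (OP s * OPT τ)

/-- `v` does not occur in the toggles -/
def FreeT (v : V) (τ : Multiset (Vec V)) : Prop := ∀ x ∈ τ, x v = 0

theorem algE_iff (B₀ : Finset V) (s : Multiset (El V)) : AlgE B₀ s ↔ AlgN B₀ (OP s) := Iff.rfl

theorem OPT_zero : OPT (0 : Multiset (Vec V)) = 1 := rfl

theorem OPT_cons (x : Vec V) (τ : Multiset (Vec V)) : OPT (x ::ₘ τ) = OT x * OPT τ := by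
  unfold OPT
  rw [Multiset.map_cons, Multiset.prod_cons]

theorem algQ_zero (B₀ : Finset V) (s : Multiset (El V)) : AlgQ B₀ s 0 ↔ AlgE B₀ s := by
  unfold AlgQ
  rw [OPT_zero, sub_mul_one]
  exact Iff.rfl

theorem algN_mono {B₀ : Finset V} {N N' : Submodule (ZMod 2) (RR V)} (h : N ≤ N')
    (ha : AlgN B₀ N) : AlgN B₀ N' := by
  obtain ⟨r, hr, x, hx, ht⟩ := ha
  exact ⟨r, hr, x, h hx, ht⟩

theorem one_mem_OT (x : Vec V) : (1 : RR V) ∈ OT x := Submodule.subset_span (by simp)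

theorem q_mem_OT (x : Vec V) : QQ x ∈ OT x := Submodule.subset_span (by simp)

theorem one_mem_OPT (τ : Multiset (Vec V)) : (1 : RR V) ∈ OPT τ := by
  induction τ using Multiset.induction_on with
  | empty =>
    rw [OPT_zero]
    exact Submodule.one_le.1 le_rfl
  | cons x τ ih =>
    rw [OPT_cons]
    have := Submodule.mul_mem_mul (one_mem_OT x) ih
    rwa [one_mul] at this

/-- a toggle is less than a pair -/
theorem OT_le_pair (x : Vec V) : OT x ≤ OO (x, 0) := by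
  unfold OT
  rw [Submodule.span_le]
  rintro z hz
  simp only [Set.mem_insert_iff, Set.mem_singleton_iff] at hz
  rcases hz with rfl | rfl
  · exact one_mem _
  · exact q1_mem (x, 0)

/-- two toggles are less than a plane -/
theorem OT_mul_le (x y : Vec V) : OT x * OT y ≤ OO (x, y) := by
  unfold OT
  refine span_mul_le ?_
  rintro m hm n hn
  simp only [Set.mem_insert_iff, Set.mem_singleton_iff] at hm hn
  rcases hm with rfl | rfl <;> rcases hn with rfl | rfl
  · rw [one_mul]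
    exact one_mem _
  · rw [one_mul]
    exact q2_mem (x, y)
  · rw [mul_one]
    exact q1_mem (x, y)
  · exact qq_mem (x, y)

theorem OT_VF {v : V} {x : Vec V} (h : x v = 0) : ∀ z ∈ OT x, z ∈ VF v := by
  intro z hz
  unfold OT at hz
  induction hz using Submodule.span_induction with
  | mem z hz =>
    simp only [Set.mem_insert_iff, Set.mem_singleton_iff] at hz
    rcases hz with rfl | rfl
    · exact Subalgebra.one_mem _
    · exact QQ_VF h
  | zero => exact Subalgebra.zero_mem _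
  | add a b _ _ ha hb => exact Subalgebra.add_mem _ ha hb
  | smul c a _ ha => exact Subalgebra.smul_mem _ ha c

theorem mul_VF {v : V} {M N : Submodule (ZMod 2) (RR V)} (hM : ∀ z ∈ M, z ∈ VF v)
    (hN : ∀ z ∈ N, z ∈ VF v) : ∀ z ∈ M * N, z ∈ VF v := by
  intro z hz
  induction hz using Submodule.mul_induction_on' with
  | mem_mul_mem m hm n hn => exact Subalgebra.mul_mem _ (hM m hm) (hN n hn)
  | add a _ b _ ha hb => exact Subalgebra.add_mem _ ha hb

theorem OPT_VF {v : V} {τ : Multiset (Vec V)} (h : FreeT v τ) : ∀ z ∈ OPT τ, z ∈ VF v := by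
  induction τ using Multiset.induction_on with
  | empty =>
    intro z hz
    rw [OPT_zero] at hz
    obtain ⟨c, rfl⟩ := Submodule.mem_one.1 hz
    exact Subalgebra.algebraMap_mem _ c
  | cons x τ ih =>
    rw [OPT_cons]
    exact mul_VF (OT_VF (h x (Multiset.mem_cons_self x τ)))
      (ih fun y hy => h y (Multiset.mem_cons_of_mem hy))

/-- the general elimination at `v`, with an arbitrary rest -/
theorem elimN {v : V} {B₀ : Finset V} {N E R : Submodule (ZMod 2) (RR V)}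
    (hR : ∀ z ∈ R, z ∈ VF v) (hv : v ∈ B₀) {π : Vec V} (hπ : π v = 1)
    (hN : N ≤ Lf v (TT π) (QQ π) E) (hA : AlgN (B₀.erase v) (N * R)) : AlgN B₀ (E * R) := by
  obtain ⟨r, hr, x, hx, ht⟩ := hA
  have key : ∀ x ∈ N * R, x ∈ Lf v (TT π) (QQ π) (E * R) := by
    intro x hx
    induction hx using Submodule.mul_induction_on' with
    | mem_mul_mem n hn z hz =>
      obtain ⟨h0, e, he, m₁, h1, m₂, h2, m₃, h3, h⟩ := hN hn
      have hz' : z ∈ VF v := hR z hz
      refine Lf_mk (e := e * z) (m₁ := m₁ * z) (m₂ := m₂ * z) (m₃ := m₃ * z)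
        (Subalgebra.mul_mem _ h0 hz') (Submodule.mul_mem_mul he hz) (Subalgebra.mul_mem _ h1 hz')
        (Subalgebra.mul_mem _ h2 hz') (Subalgebra.mul_mem _ h3 hz') ?_
      rw [h]
      ring
    | add x hx y hy hx' hy' => exact Submodule.add_mem _ hx' hy'
  obtain ⟨h0, e, he, m₁, h1, m₂, h2, m₃, h3, h⟩ := key x hx
  obtain ⟨p, hp, q, hq, hT, hQ⟩ := base_split hπ
  refine ⟨r, Finset.mem_of_mem_erase hr, e, he, ?_⟩
  have hvr : r ≠ v := Finset.ne_of_mem_erase hr
  have hins : B₀.erase r = insert v ((B₀.erase v).erase r) := by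
    ext w
    simp only [Finset.mem_insert, Finset.mem_erase]
    constructor
    · rintro ⟨h1, h2⟩
      by_cases h3 : w = v
      · exact Or.inl h3
      · exact Or.inr ⟨h1, h3, h2⟩
    · rintro (h1 | ⟨h1, -, h2⟩)
      · exact ⟨h1 ▸ hvr.symm, h1 ▸ hv⟩
      · exact ⟨h1, h2⟩
  have hexp : e = mk (X (v, false)) * mk (X (v, true)) * x +
      mk (X (v, false)) * (q * x + m₁) + mk (X (v, true)) * (p * x + m₂) +
      (p * q * x + p * m₁ + q * m₂ + m₃) := by
    rw [h, hT, hQ]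
    ring
  rw [hins, hexp, top_res (by simp) h0]
  · exact ht
  · exact Subalgebra.add_mem _ (Subalgebra.mul_mem _ hq h0) h1
  · exact Subalgebra.add_mem _ (Subalgebra.mul_mem _ hp h0) h2
  · exact Subalgebra.add_mem _ (Subalgebra.add_mem _ (Subalgebra.add_mem _
      (Subalgebra.mul_mem _ (Subalgebra.mul_mem _ hp hq) h0) (Subalgebra.mul_mem _ hp h1))
      (Subalgebra.mul_mem _ hq h2)) h3

/-- the elimination for systems with toggles -/
theorem elimQ {v : V} {B₀ : Finset V} {N E : Submodule (ZMod 2) (RR V)} {s : Multiset (El V)}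
    {τ : Multiset (Vec V)} (hs : Free v s) (hτ : FreeT v τ) (hv : v ∈ B₀) {π : Vec V}
    (hπ : π v = 1) (hN : N ≤ Lf v (TT π) (QQ π) E)
    (hA : AlgN (B₀.erase v) (N * (OP s * OPT τ))) : AlgN B₀ (E * (OP s * OPT τ)) :=
  elimN (mul_VF (fun _ hz => OP_VF hs hz) (OPT_VF hτ)) hv hπ hN hA

/-- the data of a toggle at `v` -/
structure TgD (v : V) (κ : RR V) (E : Submodule (ZMod 2) (RR V)) (u : RR V) : Prop where
  fu : u ∈ VF v
  x1 : (1 : RR V) ∈ E
  xq : κ + u ∈ E

theorem tgD {v : V} {p π : Vec V} (hp : p v = 1) (hπ : π v = 1) :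
    TgD v (QQ π) (OT p) (QQ (p + π)) where
  fu := QQ_VF (add_zero_at hp hπ)
  x1 := one_mem_OT _
  xq := by rw [← QQ_move]; exact q_mem_OT p

/-- **four planes at `v`**: two of them become vectors, two become toggles -/
theorem elimQ4 {v : V} {B₀ : Finset V} {s : Multiset (El V)} {τ : Multiset (Vec V)}
    {p₁ d₁ p₂ d₂ p₃ d₃ p₄ d₄ : Vec V} (hs : Free v s) (hτ : FreeT v τ) (hv : v ∈ B₀)
    (hp₃ : p₃ v = 1) (hp₄ : p₄ v = 1) (hd₁ : d₁ v = 0) (hd₂ : d₂ v = 0) (hd₃ : d₃ v = 0)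
    (hd₄ : d₄ v = 0)
    (hA : AlgQ (B₀.erase v) ((d₁, 0) ::ₘ (d₂, 0) ::ₘ s) (d₃ ::ₘ d₄ ::ₘ τ)) :
    AlgQ B₀ ((p₁, d₁) ::ₘ (p₂, d₂) ::ₘ (p₃, d₃) ::ₘ (p₄, d₄) ::ₘ s) τ := by
  have hN : OO (d₃, d₄) ≤ Lf v (TT p₃) (QQ p₃) (OO (p₃, d₃) * OO (p₄, d₄)) := by
    rw [OO_eq d₃ d₄, Submodule.span_le]
    exact coreA (TT_sq _) (QQ_sq _) two_eq_zero (TT_VF hd₃) (QQ_VF hd₃) (one_mem _)
      (t1_mem (p₃, d₃)) (q1_mem (p₃, d₃)) (t2_mem (p₃, d₃)) (q2_mem (p₃, d₃)) (be_mem (p₃, d₃))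
      (qq_mem (p₃, d₃)) (plD hp₄ hp₃ hd₄)
  have hs' : Free v ((d₁, 0) ::ₘ (d₂, 0) ::ₘ s) := by
    intro P hP
    rcases Multiset.mem_cons.1 hP with rfl | hP
    · exact ⟨hd₁, rfl⟩
    rcases Multiset.mem_cons.1 hP with rfl | hP
    · exact ⟨hd₂, rfl⟩
    · exact hs P hP
  have h1 : AlgN (B₀.erase v) (OO (d₃, d₄) * (OP ((d₁, 0) ::ₘ (d₂, 0) ::ₘ s) * OPT τ)) := by
    refine algN_mono ?_ hA
    rw [OPT_cons, OPT_cons]
    calc OP ((d₁, 0) ::ₘ (d₂, 0) ::ₘ s) * (OT d₃ * (OT d₄ * OPT τ)) =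
        (OT d₃ * OT d₄) * (OP ((d₁, 0) ::ₘ (d₂, 0) ::ₘ s) * OPT τ) := scm1 _ _ _ _
      _ ≤ _ := mul_le_mul' (OT_mul_le d₃ d₄) le_rfl
  have h2 := elimQ hs' hτ hv hp₃ hN h1
  refine algN_mono ?_ h2
  have k1 : ∀ p d : Vec V, OO (d, 0) ≤ OO (p, d) := fun p d => by
    rw [OO_vec, Submodule.span_le]
    rintro z hz
    simp only [Set.mem_insert_iff, Set.mem_singleton_iff] at hz
    rcases hz with rfl | rfl | rfl
    · exact one_mem _
    · exact t2_mem (p, d)
    · exact q2_mem (p, d)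
  rw [OP_cons, OP_cons, OP_cons, OP_cons, OP_cons, OP_cons]
  calc OO (p₃, d₃) * OO (p₄, d₄) * (OO (d₁, 0) * (OO (d₂, 0) * OP s) * OPT τ) ≤
      OO (p₃, d₃) * OO (p₄, d₄) * (OO (p₁, d₁) * (OO (p₂, d₂) * OP s) * OPT τ) :=
        mul_le_mul' le_rfl (mul_le_mul' (mul_le_mul' (k1 p₁ d₁)
          (mul_le_mul' (k1 p₂ d₂) le_rfl)) le_rfl)
    _ = OO (p₁, d₁) * (OO (p₂, d₂) * (OO (p₃, d₃) * (OO (p₄, d₄) * OP s))) * OPT τ :=
        scm2 _ _ _ _ _ _

end G

end Pool.Agent.ClawHam
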