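import Pool.Agent.Lib.MP_e2dbb5_co.TK3

/-!
# THIN: a spanning tree of picks without a closed cut (helper31, helper64; typed by helper69)

A spanning tree of picks such that every cut is crossed by a hyperedge whose pick does not cross
it. Then the hypergraph has a connected even choice. The proof expands a signed sum of
determinants over all cuts.
-/

set_option autoImplicit false

open Finset

noncomputable section

namespace Pool.Agent.ClawHam.TK

open Classical

/-! ### Signs and vectors -/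

section vectors

variable {B : Type}

/-- the sign of a vertex -/
def sg (q : B → Bool) (a : B) : ℚ := if q a then -1 else 1

theorem sg_sq (q : B → Bool) (a : B) : sg q a * sg q a = 1 := by
  unfold sg; split <;> norm_num

theorem sg_eq {q : B → Bool} {a b : B} (h : q a = q b) : sg q a = sg q b := by
  unfold sg; rw [h]

theorem sg_ne {q : B → Bool} {a b : B} (h : q a ≠ q b) : sg q a = - sg q b := by
  unfold sg
  cases h1 : q a <;> cases h2 : q b <;> simp_all

/-- the sign of a pair -/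
def sp (q : B → Bool) (p : B × B) : ℚ := sg q p.1 * sg q p.2

theorem sp_eq {q : B → Bool} {a b : B} (h : q a = q b) : sp q (a, b) = 1 := by
  unfold sp; simp only; rw [sg_eq h, sg_sq]

theorem sp_ne {q : B → Bool} {a b : B} (h : q a ≠ q b) : sp q (a, b) = -1 := by
  unfold sp; simp only; rw [sg_ne h, neg_mul, sg_sq]

/-- the three pairs of a triple -/
def pe (x : Fin 3 → B) (k : Fin 3) : B × B := (x k, x (k + 1))

/-- the three pairs of a triple and the empty pair -/
def po (x : Fin 3 → B) : Option (Fin 3) → B × B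
  | none => (x 0, x 0)
  | some k => pe x k

/-- weights -/
def wt (k : Fin 3) : ℚ := if k = 0 then 1 else -1

variable {R : Type} {b₀ : B}

/-- the vector of a pair -/
def vc (τ : R ≃ {v : B // v ≠ b₀}) (p : B × B) (j : R) : ℚ :=
  (if (τ j : B) = p.1 then 1 else 0) - (if (τ j : B) = p.2 then 1 else 0)

theorem vc_cycle (τ : R ≃ {v : B // v ≠ b₀}) (a b c : B) (j : R) :
    vc τ (a, b) j + vc τ (b, c) j + vc τ (c, a) j = 0 := by
  unfold vc; ring

variable [Fintype R]

theorem sum_one (τ : R ≃ {v : B // v ≠ b₀}) (y : B → ℚ) (hy : y b₀ = 0) (a : B) :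
    ∑ j, (if (τ j : B) = a then 1 else 0) * y (τ j) = y a := by
  by_cases ha : a = b₀
  · subst ha
    rw [hy]
    apply Finset.sum_eq_zero
    intro j _
    rw [if_neg (τ j).2, zero_mul]
  · rw [Finset.sum_eq_single (τ.symm ⟨a, ha⟩)]
    · rw [Equiv.apply_symm_apply]; simp
    · intro j _ hj
      rw [if_neg, zero_mul]
      intro h
      apply hj
      rw [Equiv.eq_symm_apply]
      exact Subtype.ext h
    · intro h; exact absurd (mem_univ _) h

theorem vc_mul (τ : R ≃ {v : B // v ≠ b₀}) (y : B → ℚ) (hy : y b₀ = 0) (p : B × B) :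
    ∑ j, vc τ p j * y (τ j) = y p.1 - y p.2 := by
  unfold vc
  simp only [sub_mul]
  rw [Finset.sum_sub_distrib, sum_one τ y hy, sum_one τ y hy]

end vectors

/-! ### Expansion -/

section expansion

variable {B I : Type} [Fintype B] [Fintype I] {b₀ : B} {J : Finset I}

/-- the determinant of the rows -/
def dt (M : {i // i ∈ J} → {i // i ∈ J} → ℚ) : ℚ := Matrix.det M

theorem dt_sum (g : {i // i ∈ J} → Fin 3 → {i // i ∈ J} → ℚ) :
    dt (fun i => ∑ k, g i k) = ∑ r : {i // i ∈ J} → Fin 3, dt (fun i => g i (r i)) :=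
  (Matrix.detRowAlternating (R := ℚ) (n := {i // i ∈ J})).toMultilinearMap.map_sum g

theorem dt_smul (c : {i // i ∈ J} → ℚ) (M : {i // i ∈ J} → {i // i ∈ J} → ℚ) :
    dt (fun i => c i • M i) = (∏ i, c i) * dt M := by
  have h := (Matrix.detRowAlternating (R := ℚ) (n := {i // i ∈ J})).toMultilinearMap.map_smul_univ
    c M
  exact h

/-- the term of the cut `q` -/
def Phi (x : I → Fin 3 → B) (τ : {i // i ∈ J} ≃ {v : B // v ≠ b₀}) (q : B → Bool) : ℚ :=
  (∏ i : {i // i ∉ J}, ∑ k, sp q (po (x i) k)) *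
    dt (fun i : {i // i ∈ J} => ∑ k, (wt k * sp q (pe (x i) k)) • vc τ (pe (x i) k))

/-- the pairs of a choice -/
def ch (x : I → Fin 3 → B) (r₁ : {i // i ∈ J} → Fin 3) (r₂ : {i // i ∉ J} → Option (Fin 3))
    (i : I) : B × B :=
  if h : i ∈ J then pe (x i) (r₁ ⟨i, h⟩) else po (x i) (r₂ ⟨i, h⟩)

theorem Phi_expand (x : I → Fin 3 → B) (τ : {i // i ∈ J} ≃ {v : B // v ≠ b₀}) (q : B → Bool) :
    Phi x τ q = ∑ r₂ : {i // i ∉ J} → Option (Fin 3), ∑ r₁ : {i // i ∈ J} → Fin 3,
      (∏ i : {i // i ∈ J}, wt (r₁ i)) * dt (fun i : {i // i ∈ J} => vc τ (pe (x i) (r₁ i))) *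
        ∏ i : I, sp q (ch x r₁ r₂ i) := by
  unfold Phi
  rw [dt_sum, Finset.prod_univ_sum, Fintype.piFinset_univ, Finset.sum_mul]
  apply Finset.sum_congr rfl
  intro r₂ _
  rw [Finset.mul_sum]
  apply Finset.sum_congr rfl
  intro r₁ _
  have h1 : dt (fun i : {i // i ∈ J} =>
      (wt (r₁ i) * sp q (pe (x i) (r₁ i))) • vc τ (pe (x i) (r₁ i)))
      = (∏ i : {i // i ∈ J}, wt (r₁ i) * sp q (pe (x i) (r₁ i))) *
        dt (fun i : {i // i ∈ J} => vc τ (pe (x i) (r₁ i))) :=
    dt_smul (fun i : {i // i ∈ J} => wt (r₁ i) * sp q (pe (x i) (r₁ i))) _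
  have h2 : (∏ i : {i // i ∈ J}, sp q (ch x r₁ r₂ i)) * (∏ i : {i // i ∉ J}, sp q (ch x r₁ r₂ i))
      = ∏ i, sp q (ch x r₁ r₂ i) := by
    rw [← Finset.prod_subtype J (fun _ => Iff.rfl) (fun i => sp q (ch x r₁ r₂ i)),
      ← Finset.prod_subtype Jᶜ (fun _ => Finset.mem_compl) (fun i => sp q (ch x r₁ r₂ i)),
      Finset.prod_mul_prod_compl]
  have h3 : ∏ i : {i // i ∈ J}, sp q (ch x r₁ r₂ i)
      = ∏ i : {i // i ∈ J}, sp q (pe (x i) (r₁ i)) := by
    apply Finset.prod_congr rfl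
    intro i _
    unfold ch
    rw [dif_pos i.2]
  have h4 : ∏ i : {i // i ∉ J}, sp q (ch x r₁ r₂ i)
      = ∏ i : {i // i ∉ J}, sp q (po (x i) (r₂ i)) := by
    apply Finset.prod_congr rfl
    intro i _
    unfold ch
    rw [dif_neg i.2]
  rw [h1, ← h2, h3, h4, Finset.prod_mul_distrib]
  ring

/-- the pick of a choice -/
def pk (p : B × B) : Finset B := if p.1 = p.2 then ∅ else {p.1, p.2}

/-- flipping the side of `K` -/
def flp (K : B) (q : B → Bool) : B → Bool := Function.update q K (!q K)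

theorem flp_flp (K : B) : Function.Involutive (flp K : (B → Bool) → (B → Bool)) := by
  intro q
  funext a
  unfold flp
  by_cases h : a = K
  · subst h; simp
  · simp [h]

theorem sg_flp (K : B) (q : B → Bool) (a : B) :
    sg (flp K q) a = (if a = K then -1 else 1) * sg q a := by
  unfold sg flp
  by_cases h : a = K
  · subst h
    rw [Function.update_self]
    cases q a <;> simp
  · rw [Function.update_of_ne h, if_neg h, one_mul]

theorem sp_flp (K : B) (q : B → Bool) (p : B × B) :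
    sp (flp K q) p = (if K ∈ pk p then -1 else 1) * sp q p := by
  unfold sp pk
  rw [sg_flp, sg_flp]
  by_cases h : p.1 = p.2
  · rw [if_pos h, ← h]
    by_cases h1 : p.1 = K
    · simp [h1]
    · simp [h1]
  · rw [if_neg h]
    by_cases h1 : p.1 = K
    · have h2 : ¬ p.2 = K := fun h' => h (h1.trans h'.symm)
      simp [h1, h2]
    · by_cases h2 : p.2 = K
      · simp [h1, h2]
      · have h3 : K ∉ ({p.1, p.2} : Finset B) := by
          simp only [mem_insert, mem_singleton, not_or]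
          exact ⟨fun h' => h1 h'.symm, fun h' => h2 h'.symm⟩
        simp [h1, h2, h3]

theorem sum_odd (φ : I → B × B) {K : B} (hK : ¬ Even (univ.filter fun i => K ∈ pk (φ i)).card) :
    ∑ q : B → Bool, ∏ i, sp q (φ i) = 0 := by
  have h1 : ∀ q : B → Bool, ∏ i, sp (flp K q) (φ i) = - ∏ i, sp q (φ i) := by
    intro q
    have h2 : ∏ i, (if K ∈ pk (φ i) then (-1 : ℚ) else 1) = -1 := by
      rw [Finset.prod_ite, Finset.prod_const, Finset.prod_const_one, mul_one]
      exact (Nat.not_even_iff_odd.1 hK).neg_one_pow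
    rw [Finset.prod_congr rfl fun i _ => sp_flp K q (φ i), Finset.prod_mul_distrib, h2]
    ring
  set E : Equiv.Perm (B → Bool) := Function.Involutive.toPerm (flp K) (flp_flp K) with hE
  have h3 := Equiv.sum_comp E (fun q : B → Bool => ∏ i, sp q (φ i))
  have h4 : ∑ q : B → Bool, ∏ i, sp (E q) (φ i)
      = - ∑ q : B → Bool, ∏ i, sp q (φ i) := by
    rw [← Finset.sum_neg_distrib]
    exact Finset.sum_congr rfl fun q _ => h1 q
  rw [h4] at h3
  linarith

/-! ### Determinants and connectivity -/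

theorem dt_disc (τ : {i // i ∈ J} ≃ {v : B // v ≠ b₀}) (φ : {i // i ∈ J} → B × B)
    {X : Finset B} (hX : X.Nonempty) (hX' : X ≠ univ) (h : ∀ i, ¬ Crosses (pk (φ i)) X) :
    dt (fun i => vc τ (φ i)) = 0 := by
  obtain ⟨Y, hb, hY, hYc⟩ : ∃ Y : Finset B, b₀ ∉ Y ∧ Y.Nonempty ∧
      ∀ i, ¬ Crosses (pk (φ i)) Y := by
    by_cases hb : b₀ ∈ X
    · refine ⟨Xᶜ, by simp [hb], ?_, fun i hc => h i (crosses_compl_iff.1 hc)⟩
      rw [Finset.nonempty_iff_ne_empty]
      intro h'
      apply hX'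
      rw [← compl_compl X, h', compl_empty]
    · exact ⟨X, hb, hX, h⟩
  set y : B → ℚ := fun v => if v ∈ Y then 1 else 0 with hy
  have hy0 : y b₀ = 0 := by rw [hy]; simp only [if_neg hb]
  have hyy : ∀ i, y (φ i).1 = y (φ i).2 := by
    intro i
    by_cases h1 : (φ i).1 = (φ i).2
    · rw [h1]
    · have h2 := hYc i
      unfold pk at h2
      rw [if_neg h1] at h2
      rw [hy]
      simp only
      by_cases h3 : (φ i).1 ∈ Y
      · by_cases h4 : (φ i).2 ∈ Y
        · rw [if_pos h3, if_pos h4]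
        · exact absurd ⟨⟨_, by simp, h3⟩, _, by simp, h4⟩ h2
      · by_cases h4 : (φ i).2 ∈ Y
        · exact absurd ⟨⟨_, by simp, h4⟩, _, by simp, h3⟩ h2
        · rw [if_neg h3, if_neg h4]
  unfold dt
  rw [← Matrix.exists_mulVec_eq_zero_iff]
  refine ⟨fun j => y (τ j), ?_, ?_⟩
  · intro h0
    obtain ⟨v, hv⟩ := hY
    have hvb : v ≠ b₀ := by rintro rfl; exact hb hv
    have h1 := congrFun h0 (τ.symm ⟨v, hvb⟩)
    simp only [Equiv.apply_symm_apply, Pi.zero_apply] at h1
    rw [hy] at h1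
    simp only [if_pos hv] at h1
    exact one_ne_zero h1
  · funext i
    have h1 := vc_mul τ y hy0 (φ i)
    rw [hyy i, sub_self] at h1
    exact h1

theorem dt_tree {f : I → Finset B} (hT : Tree f J) {x : I → Fin 3 → B}
    (hp : ∀ i ∈ J, f i = {x i 0, x i 1}) (τ : {i // i ∈ J} ≃ {v : B // v ≠ b₀}) {c : ℚ}
    (hc : c ≠ 0) : dt (fun i : {i // i ∈ J} => c • vc τ (x i 0, x i 1)) ≠ 0 := by
  intro h0
  unfold dt at h0
  rw [← Matrix.exists_mulVec_eq_zero_iff] at h0
  obtain ⟨w, hw, hm⟩ := h0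
  set y : B → ℚ := fun v => if h : v = b₀ then 0 else w (τ.symm ⟨v, h⟩) with hy
  have hy0 : y b₀ = 0 := by rw [hy]; simp
  have hyj : ∀ j, y (τ j) = w j := by
    intro j
    rw [hy]
    simp only
    rw [dif_neg (τ j).2]
    congr 1
    rw [Equiv.symm_apply_eq]
  have hyy : ∀ i ∈ J, y (x i 0) = y (x i 1) := by
    intro i hi
    have h1 := congrFun hm ⟨i, hi⟩
    have h2 : ∑ j, (c • vc τ (x i 0, x i 1)) j * w j = c * (y (x i 0) - y (x i 1)) := by
      rw [← vc_mul τ y hy0 (x i 0, x i 1), Finset.mul_sum]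
      apply Finset.sum_congr rfl
      intro j _
      rw [hyj j, Pi.smul_apply, smul_eq_mul]
      ring
    have h3 : ∑ j, (c • vc τ (x i 0, x i 1)) j * w j = 0 := h1
    rw [h2] at h3
    rcases mul_eq_zero.1 h3 with h4 | h4
    · exact absurd h4 hc
    · linarith
  set Y : Finset B := univ.filter fun v => y v = 0 with hY
  have hYu : Y = univ := by
    by_contra hne
    obtain ⟨i, hi, ⟨a, ha, haY⟩, b, hb, hbY⟩ := hT.conn Y
      ⟨b₀, mem_filter.2 ⟨mem_univ _, hy0⟩⟩ hne
    have h1 : ∀ z ∈ f i, y z = y (x i 0) := by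
      intro z hz
      rw [hp i hi] at hz
      simp only [mem_insert, mem_singleton] at hz
      rcases hz with rfl | rfl
      · rfl
      · exact (hyy i hi).symm
    rw [hY, mem_filter] at haY hbY
    apply hbY
    refine ⟨mem_univ _, ?_⟩
    rw [h1 b hb, ← h1 a ha]
    exact haY.2
  apply hw
  funext j
  rw [← hyj j]
  have h1 : (τ j : B) ∈ Y := by rw [hYu]; exact mem_univ _
  rw [hY, mem_filter] at h1
  exact h1.2

/-! ### Coordinates -/

/-- coordinates of the hyperedges -/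
structure Coo (e f : I → Finset B) (J : Finset I) (x : I → Fin 3 → B) : Prop where
  sub : ∀ i k l, x i k ≠ x i l → x i k ∈ e i ∧ x i l ∈ e i
  cr : ∀ i (X : Finset B), Crosses (e i) X → ∃ k l, x i k ∈ X ∧ x i l ∉ X
  pick : ∀ i ∈ J, f i = {x i 0, x i 1} ∧ x i 0 ≠ x i 1

/-- every cut is crossed by a hyperedge whose pick does not cross it -/
def Thin (e f : I → Finset B) (J : Finset I) : Prop :=
  ∀ X : Finset B, X.Nonempty → X ≠ univ → ∃ i, Crosses (e i) X ∧ ¬ (i ∈ J ∧ Crosses (f i) X)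

theorem exists_three (b₀ : B) {s : Finset B} (hs : s.card ≤ 3) :
    ∃ x : Fin 3 → B, (∀ k l, x k ≠ x l → x k ∈ s ∧ x l ∈ s) ∧ ∀ a ∈ s, ∃ k, x k = a := by
  have h1 : s.card = 0 ∨ s.card = 1 ∨ s.card = 2 ∨ s.card = 3 := by omega
  rcases h1 with h1 | h1 | h1 | h1
  · rw [card_eq_zero] at h1
    subst h1
    exact ⟨fun _ => b₀, fun k l h => absurd rfl h, by simp⟩
  · obtain ⟨a, rfl⟩ := card_eq_one.1 h1
    exact ⟨fun _ => a, fun k l h => absurd rfl h, fun z hz => ⟨0, (mem_singleton.1 hz).symm⟩⟩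
  · obtain ⟨a, b, hab, rfl⟩ := card_eq_two.1 h1
    have h2 : ∀ k, (![a, b, b] : Fin 3 → B) k ∈ ({a, b} : Finset B) := by
      intro k
      fin_cases k <;> simp
    refine ⟨![a, b, b], fun k l _ => ⟨h2 k, h2 l⟩, ?_⟩
    intro z hz
    simp only [mem_insert, mem_singleton] at hz
    rcases hz with rfl | rfl
    · exact ⟨0, rfl⟩
    · exact ⟨1, rfl⟩
  · obtain ⟨a, b, c, hab, hac, hbc, rfl⟩ := card_eq_three.1 h1
    have h2 : ∀ k, (![a, b, c] : Fin 3 → B) k ∈ ({a, b, c} : Finset B) := by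
      intro k
      fin_cases k <;> simp
    refine ⟨![a, b, c], fun k l _ => ⟨h2 k, h2 l⟩, ?_⟩
    intro z hz
    simp only [mem_insert, mem_singleton] at hz
    rcases hz with rfl | rfl | rfl
    · exact ⟨0, rfl⟩
    · exact ⟨1, rfl⟩
    · exact ⟨2, rfl⟩

theorem exists_three_pick {s p : Finset B} (hs : s.card ≤ 3) (hp : p.card = 2) (hps : p ⊆ s) :
    ∃ x : Fin 3 → B, (∀ k, x k ∈ s) ∧ (∀ a ∈ s, ∃ k, x k = a) ∧ p = {x 0, x 1} ∧
      x 0 ≠ x 1 := by
  obtain ⟨a, b, hab, rfl⟩ := card_eq_two.1 hp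
  have ha : a ∈ s := hps (by simp)
  have hb : b ∈ s := hps (by simp)
  by_cases hc : s ⊆ {a, b}
  · refine ⟨![a, b, b], ?_, ?_, rfl, hab⟩
    · intro k
      fin_cases k
      · exact ha
      · exact hb
      · exact hb
    · intro z hz
      have hz' := hc hz
      simp only [mem_insert, mem_singleton] at hz'
      rcases hz' with rfl | rfl
      · exact ⟨0, rfl⟩
      · exact ⟨1, rfl⟩
  · obtain ⟨c, hcs, hcn⟩ := Finset.not_subset.1 hc
    have hse : s = insert c {a, b} := by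
      symm
      apply Finset.eq_of_subset_of_card_le
      · exact insert_subset hcs hps
      · rw [card_insert_of_notMem hcn, hp]; exact hs
    refine ⟨![a, b, c], ?_, ?_, rfl, hab⟩
    · intro k
      fin_cases k
      · exact ha
      · exact hb
      · exact hcs
    · intro z hz
      rw [hse] at hz
      simp only [mem_insert, mem_singleton] at hz
      rcases hz with rfl | rfl | rfl
      · exact ⟨2, rfl⟩
      · exact ⟨0, rfl⟩
      · exact ⟨1, rfl⟩

theorem exists_coo {e f : I → Finset B} (b₀ : B) (h3 : ∀ i, (e i).card ≤ 3) (hT : Tree f J)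
    (hsub : ∀ i ∈ J, f i ⊆ e i) : ∃ x, Coo e f J x := by
  have key : ∀ i, ∃ x : Fin 3 → B, (∀ k l, x k ≠ x l → x k ∈ e i ∧ x l ∈ e i) ∧
      (∀ a ∈ e i, ∃ k, x k = a) ∧ (i ∈ J → f i = {x 0, x 1} ∧ x 0 ≠ x 1) := by
    intro i
    by_cases hi : i ∈ J
    · obtain ⟨x, h1, h2, h4, h5⟩ := exists_three_pick (h3 i) (hT.two i hi) (hsub i hi)
      exact ⟨x, fun k l _ => ⟨h1 k, h1 l⟩, h2, fun _ => ⟨h4, h5⟩⟩
    · obtain ⟨x, h1, h2⟩ := exists_three b₀ (h3 i)
      exact ⟨x, h1, h2, fun h => absurd h hi⟩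
  choose x h1 h2 h4 using key
  refine ⟨x, ⟨h1, ?_, h4⟩⟩
  rintro i X ⟨⟨a, ha, haX⟩, b, hb, hbX⟩
  obtain ⟨k, rfl⟩ := h2 i a ha
  obtain ⟨l, rfl⟩ := h2 i b hb
  exact ⟨k, l, haX, hbX⟩

/-! ### The sum -/

theorem ch_form (x : I → Fin 3 → B) (r₁ : {i // i ∈ J} → Fin 3)
    (r₂ : {i // i ∉ J} → Option (Fin 3)) (i : I) : ∃ k l, ch x r₁ r₂ i = (x i k, x i l) := by
  unfold ch
  split
  · exact ⟨_, _, rfl⟩
  · rename_i h
    cases h1 : r₂ ⟨i, h⟩ with
    | none => exact ⟨0, 0, rfl⟩
    | some k => exact ⟨k, k + 1, rfl⟩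

theorem sum_Phi {e f : I → Finset B} {x : I → Fin 3 → B} (hx : Coo e f J x)
    (τ : {i // i ∈ J} ≃ {v : B // v ≠ b₀}) (hneg : ¬ EvenConn univ e) :
    ∑ q, Phi x τ q = 0 := by
  rw [Finset.sum_congr rfl fun q _ => Phi_expand x τ q, Finset.sum_comm]
  apply Finset.sum_eq_zero
  intro r₂ _
  rw [Finset.sum_comm]
  apply Finset.sum_eq_zero
  intro r₁ _
  rw [← Finset.mul_sum]
  by_cases hd : dt (fun i : {i // i ∈ J} => vc τ (pe (x i) (r₁ i))) = 0
  · rw [hd]; ring
  · have hK : ∃ K, ¬ Even (univ.filter fun i => K ∈ pk (ch x r₁ r₂ i)).card := by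
      by_contra hcon
      push Not at hcon
      apply hneg
      refine ⟨fun i => pk (ch x r₁ r₂ i), ?_, hcon, ?_⟩
      · intro i
        obtain ⟨k, l, hkl⟩ := ch_form x r₁ r₂ i
        simp only [hkl]
        unfold pk
        simp only
        split
        · exact ⟨empty_subset _, Or.inl rfl⟩
        · rename_i hne
          obtain ⟨h1, h2⟩ := hx.sub i k l hne
          refine ⟨?_, Or.inr (card_pair hne)⟩
          intro z hz
          simp only [mem_insert, mem_singleton] at hz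
          rcases hz with rfl | rfl
          · exact h1
          · exact h2
      · intro X _ hX hX'
        by_contra hcr
        push Not at hcr
        apply hd
        apply dt_disc τ (fun i : {i // i ∈ J} => pe (x i) (r₁ i)) hX hX'
        intro i
        have h1 := hcr i
        unfold ch at h1
        rw [dif_pos i.2] at h1
        exact h1
    obtain ⟨K, hK⟩ := hK
    rw [sum_odd (fun i => ch x r₁ r₂ i) hK, mul_zero]

theorem pe0 (x : Fin 3 → B) : pe x 0 = (x 0, x 1) := rfl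
theorem pe1 (x : Fin 3 → B) : pe x 1 = (x 1, x 2) := rfl
theorem pe2 (x : Fin 3 → B) : pe x 2 = (x 2, x 0) := rfl

theorem four_eq (x : Fin 3 → B) (q : B → Bool) :
    ∑ k, sp q (po x k) = 1 + sp q (x 0, x 1) + sp q (x 1, x 2) + sp q (x 2, x 0) := by
  rw [Fintype.sum_option, Fin.sum_univ_three]
  show sp q (x 0, x 0) + (sp q (pe x 0) + sp q (pe x 1) + sp q (pe x 2)) = _
  rw [sp_eq rfl, pe0, pe1, pe2]
  ring

theorem row_eq (x : Fin 3 → B) (q : B → Bool) (τ : {i // i ∈ J} ≃ {v : B // v ≠ b₀})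
    (j : {i // i ∈ J}) :
    (∑ k, (wt k * sp q (pe x k)) • vc τ (pe x k)) j
      = sp q (x 0, x 1) * vc τ (x 0, x 1) j - sp q (x 1, x 2) * vc τ (x 1, x 2) j
        - sp q (x 2, x 0) * vc τ (x 2, x 0) j := by
  have w0 : wt 0 = 1 := if_pos rfl
  have w1 : wt 1 = -1 := if_neg (by decide)
  have w2 : wt 2 = -1 := if_neg (by decide)
  rw [Finset.sum_apply, Fin.sum_univ_three, pe0, pe1, pe2, w0, w1, w2]
  simp only [Pi.smul_apply, smul_eq_mul]
  ring

theorem three_cases {x : Fin 3 → B} {X : Finset B} {k l : Fin 3} (hk : x k ∈ X)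
    (hl : x l ∉ X) (h : x 0 ∈ X ↔ x 1 ∈ X) : (x 2 ∈ X ↔ ¬ x 0 ∈ X) := by
  fin_cases k <;> fin_cases l <;> simp_all

theorem Phi_zero {e f : I → Finset B} {x : I → Fin 3 → B} (hx : Coo e f J x)
    (τ : {i // i ∈ J} ≃ {v : B // v ≠ b₀}) (hthin : Thin e f J) (q : B → Bool)
    (h1 : ∃ a, q a = true) (h2 : ∃ a, q a = false) : Phi x τ q = 0 := by
  set X : Finset B := univ.filter fun v => q v = true with hX
  have hmem : ∀ v, v ∈ X ↔ q v = true := by intro v; rw [hX, mem_filter]; simp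
  have hne : X.Nonempty := by
    obtain ⟨a, ha⟩ := h1
    exact ⟨a, (hmem a).2 ha⟩
  have hne' : X ≠ univ := by
    obtain ⟨a, ha⟩ := h2
    intro h
    have h4 : a ∈ X := by rw [h]; exact mem_univ a
    rw [hmem, ha] at h4
    exact Bool.false_ne_true h4
  have hqe : ∀ a b : B, (a ∈ X ↔ b ∈ X) → q a = q b := by
    intro a b h
    rw [hmem, hmem] at h
    cases h4 : q a <;> cases h5 : q b <;> simp_all
  have hqn : ∀ a b : B, (a ∈ X ↔ ¬ b ∈ X) → q a ≠ q b := by
    intro a b h h'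
    rw [hmem, hmem, h'] at h
    exact iff_not_self h
  obtain ⟨i, hcr, hni⟩ := hthin X hne hne'
  obtain ⟨k, l, hk, hl⟩ := hx.cr i X hcr
  by_cases hi : i ∈ J
  · -- the row of `i` is zero
    have hnf : ¬ Crosses (f i) X := fun h => hni ⟨hi, h⟩
    obtain ⟨hfi, hne01⟩ := hx.pick i hi
    have h01 : x i 0 ∈ X ↔ x i 1 ∈ X := by
      constructor
      · intro h
        by_contra h'
        exact hnf ⟨⟨x i 0, by rw [hfi]; simp, h⟩, x i 1, by rw [hfi]; simp, h'⟩
      · intro h
        by_contra h'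
        exact hnf ⟨⟨x i 1, by rw [hfi]; simp, h⟩, x i 0, by rw [hfi]; simp, h'⟩
    have h20 := three_cases hk hl h01
    have hrow : ∀ j, (∑ k, (wt k * sp q (pe (x i) k)) • vc τ (pe (x i) k)) j = 0 := by
      intro j
      rw [row_eq, sp_eq (hqe _ _ h01), sp_ne (hqn _ _ h20)]
      have h12 : sp q (x i 1, x i 2) = -1 := by
        apply sp_ne
        intro h
        exact hqn _ _ h20 (h.symm.trans (hqe _ _ h01).symm)
      rw [h12]
      have := vc_cycle τ (x i 0) (x i 1) (x i 2) j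
      linarith
    unfold Phi dt
    rw [Matrix.det_eq_zero_of_row_eq_zero (⟨i, hi⟩ : {i // i ∈ J}) hrow, mul_zero]
  · -- the factor of `i` is zero
    have hfac : ∑ k, sp q (po (x i) k) = 0 := by
      rw [four_eq]
      by_cases h01 : x i 0 ∈ X ↔ x i 1 ∈ X
      · have h20 := three_cases hk hl h01
        have h12 : sp q (x i 1, x i 2) = -1 := by
          apply sp_ne
          intro h
          exact hqn _ _ h20 (h.symm.trans (hqe _ _ h01).symm)
        rw [sp_eq (hqe _ _ h01), sp_ne (hqn _ _ h20), h12]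
        norm_num
      · have h01' : x i 0 ∈ X ↔ ¬ x i 1 ∈ X := by tauto
        rw [sp_ne (hqn _ _ h01')]
        by_cases h12 : x i 1 ∈ X ↔ x i 2 ∈ X
        · have h20 : x i 2 ∈ X ↔ ¬ x i 0 ∈ X := by tauto
          rw [sp_eq (hqe _ _ h12), sp_ne (hqn _ _ h20)]
          norm_num
        · have h12' : x i 1 ∈ X ↔ ¬ x i 2 ∈ X := by tauto
          have h20 : x i 2 ∈ X ↔ x i 0 ∈ X := by tauto
          rw [sp_ne (hqn _ _ h12'), sp_eq (hqe _ _ h20)]
          norm_num
    unfold Phi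
    rw [Finset.prod_eq_zero (mem_univ (⟨i, hi⟩ : {i // i ∉ J})) hfac, zero_mul]

theorem Phi_const {f : I → Finset B} (hT : Tree f J) {x : I → Fin 3 → B}
    (hp : ∀ i ∈ J, f i = {x i 0, x i 1}) (τ : {i // i ∈ J} ≃ {v : B // v ≠ b₀}) :
    ∃ K : ℚ, K ≠ 0 ∧ ∀ q : B → Bool, (∀ a b, q a = q b) → Phi x τ q = K := by
  refine ⟨(∏ _i : {i // i ∉ J}, (4 : ℚ)) * dt (fun i : {i // i ∈ J} =>
    (2 : ℚ) • vc τ (x i 0, x i 1)), ?_, ?_⟩
  · apply mul_ne_zero
    · rw [Finset.prod_ne_zero_iff]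
      intro i _
      norm_num
    · exact dt_tree hT hp τ (by norm_num)
  · intro q hq
    unfold Phi
    congr 1
    · apply Finset.prod_congr rfl
      intro i _
      rw [four_eq, sp_eq (hq _ _), sp_eq (hq _ _), sp_eq (hq _ _)]
      norm_num
    · congr 1
      funext i j
      rw [row_eq, sp_eq (hq _ _), sp_eq (hq _ _), sp_eq (hq _ _), Pi.smul_apply, smul_eq_mul]
      have := vc_cycle τ (x i 0) (x i 1) (x i 2) j
      linarith

end expansion

variable {B I : Type} [Fintype B] [Fintype I]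

/-- **THIN**: a spanning tree of picks without a closed cut gives a connected even choice. -/
theorem evenConn_of_thin {e f : I → Finset B} {J : Finset I} (h3 : ∀ i, (e i).card ≤ 3)
    (hT : Tree f J) (hsub : ∀ i ∈ J, f i ⊆ e i) (hthin : Thin e f J) : EvenConn univ e := by
  by_contra hneg
  have hB : 0 < Fintype.card B := by
    have := hT.card
    omega
  obtain ⟨b₀⟩ := Fintype.card_pos_iff.1 hB
  have hcard : Fintype.card {i // i ∈ J} = Fintype.card {v : B // v ≠ b₀} := by
    have h1 : Fintype.card {i // i ∈ J} = J.card := Fintype.card_of_subtype J fun _ => Iff.rfl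
    have h2 : Fintype.card {v : B // v ≠ b₀} = (univ.erase b₀).card :=
      Fintype.card_of_subtype (univ.erase b₀) fun v => by simp
    have h4 := card_erase_of_mem (mem_univ b₀)
    have h5 := hT.card
    rw [card_univ] at h4
    omega
  have τ : {i // i ∈ J} ≃ {v : B // v ≠ b₀} := Fintype.equivOfCardEq hcard
  obtain ⟨x, hx⟩ := exists_coo b₀ h3 hT hsub
  have hsum := sum_Phi hx τ hneg
  obtain ⟨K, hK, hconst⟩ := Phi_const hT (fun i hi => (hx.pick i hi).1) τ
  have h1 : (fun _ : B => true) ≠ fun _ => false := by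
    intro h
    exact absurd (congrFun h b₀) (by simp)
  rw [Fintype.sum_eq_add (fun _ => true) (fun _ => false) h1, hconst _ fun _ _ => rfl,
    hconst _ fun _ _ => rfl] at hsum
  · apply hK
    linarith
  · rintro q ⟨hq1, hq2⟩
    apply Phi_zero hx τ hthin q
    · by_contra hcon
      push Not at hcon
      apply hq2
      funext a
      have := hcon a
      simpa using this
    · by_contra hcon
      push Not at hcon
      apply hq1
      funext a
      have := hcon a
      simpa using this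

/-- the counting form: the tree crosses every cut less often than the hypergraph -/
theorem thin_of_lt {e f : I → Finset B} {J : Finset I}
    (h : ∀ X : Finset B, X.Nonempty → X ≠ univ →
      (J.filter fun i => Crosses (f i) X).card < (univ.filter fun i => Crosses (e i) X).card) :
    Thin e f J := by
  intro X hX hX'
  obtain ⟨i, hi, hni⟩ := Finset.exists_mem_notMem_of_card_lt_card (h X hX hX')
  refine ⟨i, (mem_filter.1 hi).2, ?_⟩
  rintro ⟨h1, h2⟩
  exact hni (mem_filter.2 ⟨h1, h2⟩)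

end Pool.Agent.ClawHam.TK
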