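import Pool.Agent.Lib.MP_e2dbb5_co.Defs

/-!
# The token game (helper69): spanning trees of picks

`Tree f J`: the picks `f i`, `i ∈ J`, are the edges of a spanning tree.
-/

set_option autoImplicit false

open Finset

noncomputable section

namespace Pool.Agent.ClawHam.TK

open Classical

variable {B I : Type} [Fintype B] [Fintype I]

/-- the picks `f i` with `i ∈ J` form a spanning tree -/
structure Tree (f : I → Finset B) (J : Finset I) : Prop where
  two : ∀ i ∈ J, (f i).card = 2
  conn : ∀ X : Finset B, X.Nonempty → X ≠ univ → ∃ i ∈ J, Crosses (f i) X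
  card : J.card + 1 = Fintype.card B

theorem crosses_compl {s X : Finset B} (h : Crosses s X) : Crosses s Xᶜ := by
  obtain ⟨⟨a, ha, haX⟩, b, hb, hbX⟩ := h
  exact ⟨⟨b, hb, by simpa using hbX⟩, a, ha, by simpa using haX⟩

theorem crosses_compl_iff {s X : Finset B} : Crosses s Xᶜ ↔ Crosses s X := by
  constructor
  · intro h
    have h2 := crosses_compl h
    rwa [compl_compl] at h2
  · exact crosses_compl

/-- the two elements of a crossing pair -/
theorem pair_crosses {s X : Finset B} (hs : s.card = 2) (h : Crosses s X) :
    ∃ x y, x ∈ X ∧ y ∉ X ∧ x ≠ y ∧ s = {x, y} := by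
  obtain ⟨⟨a, ha, haX⟩, b, hb, hbX⟩ := h
  have hab : a ≠ b := by rintro rfl; exact hbX haX
  refine ⟨a, b, haX, hbX, hab, ?_⟩
  symm
  apply Finset.eq_of_subset_of_card_le
  · intro z hz
    simp only [mem_insert, mem_singleton] at hz
    rcases hz with rfl | rfl <;> assumption
  · rw [Finset.card_pair hab, hs]

theorem crosses_pair {X : Finset B} {x y : B} (hx : x ∈ X) (hy : y ∉ X) :
    Crosses ({x, y} : Finset B) X :=
  ⟨⟨x, by simp, hx⟩, y, by simp, hy⟩

/-- growth from a set -/
theorem grow {f : I → Finset B} {J : Finset I} (h2 : ∀ i ∈ J, (f i).card = 2)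
    (hc : ∀ X : Finset B, X.Nonempty → X ≠ univ → ∃ i ∈ J, Crosses (f i) X) :
    ∀ (n : ℕ) (S : Finset B), S.Nonempty → (univ \ S).card = n →
      (univ \ S).card ≤ (J.filter fun i => ¬ f i ⊆ S).card := by
  intro n
  induction n with
  | zero => intro S _ hn; omega
  | succ n ih =>
    intro S hS hn
    have hne : S ≠ univ := by
      rintro rfl
      simp at hn
    obtain ⟨i, hi, hcr⟩ := hc S hS hne
    obtain ⟨x, y, hx, hy, hxy, hs⟩ := pair_crosses (h2 i hi) hcr
    have h1 : (univ \ insert y S).card = n := by
      have h3 : (univ \ S) = insert y (univ \ insert y S) := by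
        ext z
        simp only [mem_sdiff, mem_univ, true_and, mem_insert]
        by_cases hz : z = y
        · subst hz; simp [hy]
        · simp [hz]
      rw [h3, Finset.card_insert_of_notMem (by simp)] at hn
      omega
    have h4 := ih (insert y S) (by simp) h1
    have h5 : (J.filter fun i => ¬ f i ⊆ insert y S).card
        < (J.filter fun i => ¬ f i ⊆ S).card := by
      apply Finset.card_lt_card
      rw [Finset.ssubset_iff_of_subset]
      · refine ⟨i, ?_, ?_⟩
        · simp only [mem_filter]
          refine ⟨hi, fun h => hy (h ?_)⟩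
          rw [hs]; simp
        · simp only [mem_filter, not_and, not_not]
          intro _
          rw [hs]
          intro z hz
          simp only [mem_insert, mem_singleton] at hz ⊢
          rcases hz with rfl | rfl
          · exact Or.inr hx
          · exact Or.inl rfl
      · intro j hj
        simp only [mem_filter] at hj ⊢
        exact ⟨hj.1, fun h => hj.2 (h.trans (Finset.subset_insert _ _))⟩
    omega

theorem Tree.inside {f : I → Finset B} {J : Finset I} (h : Tree f J) (S : Finset B)
    (hS : S.Nonempty) : (J.filter fun i => f i ⊆ S).card + 1 ≤ S.card := by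
  have h1 := grow h.two h.conn _ S hS rfl
  have h2 := Finset.card_filter_add_card_filter_not (s := J) (fun i => f i ⊆ S)
  have h3 : (univ \ S).card + S.card = Fintype.card B := by
    rw [Finset.card_sdiff_add_card_eq_card (Finset.subset_univ S)]
    exact Finset.card_univ
  have h4 := h.card
  omega

/-- the fundamental cut of `i` -/
def Cut (f : I → Finset B) (J : Finset I) (i : I) (X : Finset B) : Prop :=
  Crosses (f i) X ∧ ∀ j ∈ J, j ≠ i → ¬ Crosses (f j) X

theorem Cut.compl {f : I → Finset B} {J : Finset I} {i : I} {X : Finset B} (h : Cut f J i X) :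
    Cut f J i Xᶜ :=
  ⟨crosses_compl h.1, fun j hj hji hc => h.2 j hj hji (crosses_compl_iff.1 hc)⟩

theorem Tree.exists_cut {f : I → Finset B} {J : Finset I} (h : Tree f J) {i : I} (hi : i ∈ J) :
    ∃ X, Cut f J i X := by
  by_contra hcon
  push Not at hcon
  obtain ⟨x, hx⟩ : (f i).Nonempty := by
    rw [← Finset.card_pos, h.two i hi]; norm_num
  have hc : ∀ X : Finset B, X.Nonempty → X ≠ univ → ∃ j ∈ J.erase i, Crosses (f j) X := by
    intro X hX hX'
    obtain ⟨j, hj, hcr⟩ := h.conn X hX hX'
    by_cases hji : j = i
    · subst hji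
      have h1 := hcon X
      unfold Cut at h1
      push Not at h1
      obtain ⟨k, hk, hkj, hkc⟩ := h1 hcr
      exact ⟨k, Finset.mem_erase.2 ⟨hkj, hk⟩, hkc⟩
    · exact ⟨j, Finset.mem_erase.2 ⟨hji, hj⟩, hcr⟩
  have h1 := grow (fun j hj => h.two j (Finset.mem_of_mem_erase hj)) hc _ {x} (by simp) rfl
  have h2 : ((J.erase i).filter fun j => ¬ f j ⊆ {x}).card ≤ (J.erase i).card :=
    Finset.card_filter_le _ _
  have h3 : (univ \ ({x} : Finset B)).card + ({x} : Finset B).card = Fintype.card B := by
    rw [Finset.card_sdiff_add_card_eq_card (Finset.subset_univ _)]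
    exact Finset.card_univ
  have h4 := h.card
  rw [Finset.card_singleton] at h3
  have h5 := Finset.card_erase_of_mem hi
  have h6 : 0 < J.card := Finset.card_pos.2 ⟨i, hi⟩
  omega

/-- a set which is not crossed is empty -/
theorem Tree.empty_of {f : I → Finset B} {J : Finset I} (h : Tree f J) {Y : Finset B} {x : B}
    (hx : x ∉ Y) (hY : ∀ j ∈ J, ¬ Crosses (f j) Y) : Y = ∅ := by
  by_contra hne
  obtain ⟨j, hj, hc⟩ := h.conn Y (Finset.nonempty_iff_ne_empty.2 hne)
    (fun h' => hx (h' ▸ mem_univ x))
  exact hY j hj hc

theorem not_crosses_iff {s X : Finset B} : ¬ Crosses s X ↔ s ⊆ X ∨ ∀ a ∈ s, a ∉ X := by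
  constructor
  · intro h
    by_cases h1 : ∃ a ∈ s, a ∈ X
    · left
      intro b hb
      by_contra hbX
      exact h ⟨h1, b, hb, hbX⟩
    · right
      push Not at h1
      exact h1
  · rintro (h | h) ⟨⟨a, ha, haX⟩, b, hb, hbX⟩
    · exact hbX (h hb)
    · exact h a ha haX

/-- only one cut -/
theorem Tree.cut_unique {f : I → Finset B} {J : Finset I} (h : Tree f J) {i : I} (hi : i ∈ J)
    {X Y : Finset B} (hX : Cut f J i X) (hne : Y.Nonempty) (hne' : Y ≠ univ)
    (hY : ∀ j ∈ J, j ≠ i → ¬ Crosses (f j) Y) : Y = X ∨ Y = Xᶜ := by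
  obtain ⟨x, y, hx, hy, hxy, hs⟩ := pair_crosses (h.two i hi) hX.1
  have hYi : Crosses (f i) Y := by
    obtain ⟨j, hj, hc⟩ := h.conn Y hne hne'
    by_cases hji : j = i
    · subst hji; exact hc
    · exact absurd hc (hY j hj hji)
  rw [hs] at hYi
  have key : ∀ Z : Finset B, x ∉ Z → y ∉ Z →
      (∀ j ∈ J, j ≠ i → (f j ⊆ X ∨ ∀ a ∈ f j, a ∉ X) → (f j ⊆ Y ∨ ∀ a ∈ f j, a ∉ Y) →
        (f j ⊆ Z ∨ ∀ a ∈ f j, a ∉ Z)) → Z = ∅ := by
    intro Z hxZ hyZ hZ
    apply h.empty_of hxZ
    intro j hj
    by_cases hji : j = i
    · subst hji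
      rw [hs]
      rintro ⟨⟨a, ha, haZ⟩, -⟩
      simp only [mem_insert, mem_singleton] at ha
      rcases ha with rfl | rfl
      · exact hxZ haZ
      · exact hyZ haZ
    · rw [not_crosses_iff]
      exact hZ j hj hji (not_crosses_iff.1 (hX.2 j hj hji)) (not_crosses_iff.1 (hY j hj hji))
  by_cases hxY : x ∈ Y
  · left
    have hyY : y ∉ Y := by
      obtain ⟨-, b, hb, hbY⟩ := hYi
      simp only [mem_insert, mem_singleton] at hb
      rcases hb with rfl | rfl
      · exact absurd hxY hbY
      · exact hbY
    have h1 : X \ Y = ∅ := by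
      apply key
      · simp [hxY]
      · simp [hy]
      · intro j hj hji hjX hjY
        rcases hjX with hjX | hjX
        · rcases hjY with hjY | hjY
          · right; intro a ha; simp [hjY ha]
          · left; intro a ha; simp [hjX ha, hjY a ha]
        · right; intro a ha; simp [hjX a ha]
    have h2 : Y \ X = ∅ := by
      apply key
      · simp [hx]
      · simp [hyY]
      · intro j hj hji hjX hjY
        rcases hjY with hjY | hjY
        · rcases hjX with hjX | hjX
          · right; intro a ha; simp [hjX ha]
          · left; intro a ha; simp [hjY ha, hjX a ha]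
        · right; intro a ha; simp [hjY a ha]
    exact Finset.Subset.antisymm (Finset.sdiff_eq_empty_iff_subset.1 h2)
      (Finset.sdiff_eq_empty_iff_subset.1 h1)
  · right
    have hyY : y ∈ Y := by
      obtain ⟨⟨a, ha, haY⟩, -⟩ := hYi
      simp only [mem_insert, mem_singleton] at ha
      rcases ha with rfl | rfl
      · exact absurd haY hxY
      · exact haY
    have h1 : X ∩ Y = ∅ := by
      apply key
      · simp [hxY]
      · simp [hy]
      · intro j hj hji hjX hjY
        rcases hjX with hjX | hjX
        · rcases hjY with hjY | hjY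
          · left; intro a ha; simp [hjX ha, hjY ha]
          · right; intro a ha; simp [hjY a ha]
        · right; intro a ha; simp [hjX a ha]
    have h2 : Xᶜ \ Y = ∅ := by
      apply key
      · simp [hx]
      · simp [hyY]
      · intro j hj hji hjX hjY
        rcases hjX with hjX | hjX
        · right; intro a ha; simp [hjX ha]
        · rcases hjY with hjY | hjY
          · right; intro a ha; simp [hjY ha]
          · left; intro a ha; simp [hjX a ha, hjY a ha]
    ext z
    simp only [mem_compl]
    constructor
    · intro hz hzX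
      have : z ∈ X ∩ Y := by simp [hz, hzX]
      rw [h1] at this
      simp at this
    · intro hz
      by_contra hzY
      have : z ∈ Xᶜ \ Y := by simp [hz, hzY]
      rw [h2] at this
      simp at this

/-- exchange: `i` is replaced by `g` (which may be `i` with another pick) -/
theorem Tree.exchange {f f' : I → Finset B} {J : Finset I} (h : Tree f J) {i g : I} (hi : i ∈ J)
    {X : Finset B} (hX : Cut f J i X) (hf : ∀ j ∈ J, j ≠ i → f' j = f j)
    (hg : g = i ∨ g ∉ J) (hg2 : (f' g).card = 2) (hgX : Crosses (f' g) X) :
    Tree f' (insert g (J.erase i)) := by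
  refine ⟨?_, ?_, ?_⟩
  · intro j hj
    rw [mem_insert] at hj
    rcases hj with rfl | hj
    · exact hg2
    · rw [mem_erase] at hj
      rw [hf j hj.2 hj.1]
      exact h.two j hj.2
  · intro Y hY hY'
    by_cases hc : ∃ j ∈ J, j ≠ i ∧ Crosses (f j) Y
    · obtain ⟨j, hj, hji, hc⟩ := hc
      refine ⟨j, mem_insert_of_mem (mem_erase.2 ⟨hji, hj⟩), ?_⟩
      rw [hf j hj hji]
      exact hc
    · push Not at hc
      refine ⟨g, mem_insert_self _ _, ?_⟩
      rcases h.cut_unique hi hX hY hY' hc with h1 | h1
      · rw [h1]; exact hgX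
      · rw [h1]; exact crosses_compl hgX
  · have h1 : g ∉ J.erase i := by
      rcases hg with rfl | hg
      · simp
      · exact fun h' => hg (mem_of_mem_erase h')
    rw [card_insert_of_notMem h1, card_erase_of_mem hi]
    have h2 : 0 < J.card := card_pos.2 ⟨i, hi⟩
    have h3 := h.card
    omega

/-- a connected family of pairs contains a spanning tree -/
theorem exists_tree {f : I → Finset B} (h2 : ∀ i, f i = ∅ ∨ (f i).card = 2) [Nonempty B]
    (hc : ∀ X : Finset B, X.Nonempty → X ≠ univ → ∃ i, Crosses (f i) X) :
    ∃ J, Tree f J := by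
  have key : ∀ (n : ℕ) (S : Finset B) (J : Finset I), (univ \ S).card = n → S.Nonempty →
      (∀ i ∈ J, (f i).card = 2 ∧ f i ⊆ S) → J.card + 1 = S.card →
      (∀ X : Finset B, (∃ a ∈ S, a ∈ X) → (∃ b ∈ S, b ∉ X) → ∃ i ∈ J, Crosses (f i) X) →
      ∃ J, Tree f J := by
    intro n
    induction n with
    | zero =>
      intro S J hn hS hJ hcard hconn
      have hSu : S = univ := by
        rw [card_eq_zero, sdiff_eq_empty_iff_subset] at hn
        exact Finset.Subset.antisymm (subset_univ _) hn
      refine ⟨J, fun i hi => (hJ i hi).1, ?_, ?_⟩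
      · intro X hX hX'
        apply hconn
        · obtain ⟨a, ha⟩ := hX
          exact ⟨a, by rw [hSu]; simp, ha⟩
        · by_contra hcon
          push Not at hcon
          apply hX'
          ext b
          simp only [mem_univ, iff_true]
          exact hcon b (by rw [hSu]; simp)
      · rw [hcard, hSu]; exact card_univ
    | succ n ih =>
      intro S J hn hS hJ hcard hconn
      have hne : S ≠ univ := by
        rintro rfl
        simp at hn
      obtain ⟨i, hcr⟩ := hc S hS hne
      have hi2 : (f i).card = 2 := by
        rcases h2 i with h | h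
        · obtain ⟨⟨a, ha, -⟩, -⟩ := hcr
          rw [h] at ha
          simp at ha
        · exact h
      obtain ⟨x, y, hx, hy, hxy, hs⟩ := pair_crosses hi2 hcr
      have hiJ : i ∉ J := by
        intro h
        have := (hJ i h).2
        rw [hs] at this
        exact hy (this (by simp))
      apply ih (insert y S) (insert i J)
      · have h3 : (univ \ S) = insert y (univ \ insert y S) := by
          ext z
          simp only [mem_sdiff, mem_univ, true_and, mem_insert]
          by_cases hz : z = y
          · subst hz; simp [hy]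
          · simp [hz]
        rw [h3, Finset.card_insert_of_notMem (by simp)] at hn
        omega
      · simp
      · intro j hj
        rw [mem_insert] at hj
        rcases hj with rfl | hj
        · refine ⟨hi2, ?_⟩
          rw [hs]
          intro z hz
          simp only [mem_insert, mem_singleton] at hz ⊢
          rcases hz with rfl | rfl
          · exact Or.inr hx
          · exact Or.inl rfl
        · exact ⟨(hJ j hj).1, (hJ j hj).2.trans (subset_insert _ _)⟩
      · rw [card_insert_of_notMem hiJ, card_insert_of_notMem hy]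
        omega
      · intro X hX1 hX2
        by_cases hSX : (∃ a ∈ S, a ∈ X) ∧ ∃ b ∈ S, b ∉ X
        · obtain ⟨j, hj, hjc⟩ := hconn X hSX.1 hSX.2
          exact ⟨j, mem_insert_of_mem hj, hjc⟩
        · refine ⟨i, mem_insert_self _ _, ?_⟩
          rw [hs]
          obtain ⟨a, ha, haX⟩ := hX1
          obtain ⟨b, hb, hbX⟩ := hX2
          rw [mem_insert] at ha hb
          by_cases hxX : x ∈ X
          · have h5 : ∀ b ∈ S, b ∈ X := by
              by_contra hcon
              push Not at hcon
              exact hSX ⟨⟨x, hx, hxX⟩, hcon⟩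
            have h6 : b = y := by
              rcases hb with hb | hb
              · exact hb
              · exact absurd (h5 b hb) hbX
            exact ⟨⟨x, by simp, hxX⟩, y, by simp, h6 ▸ hbX⟩
          · have h5 : ∀ b ∈ S, b ∉ X := by
              by_contra hcon
              push Not at hcon
              exact hSX ⟨hcon, ⟨x, hx, hxX⟩⟩
            have h6 : a = y := by
              rcases ha with ha | ha
              · exact ha
              · exact absurd haX (h5 a ha)
            exact ⟨⟨y, by simp, h6 ▸ haX⟩, x, by simp, hxX⟩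
  obtain ⟨v⟩ := ‹Nonempty B›
  apply key _ {v} ∅ rfl (by simp) (by simp) (by simp)
  rintro X ⟨a, ha, haX⟩ ⟨b, hb, hbX⟩
  rw [mem_singleton] at ha hb
  subst ha; subst hb
  exact absurd haX hbX

end Pool.Agent.ClawHam.TK
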