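import Pool.Agent.Lib.MP_e2dbb5_co.TK0

/-!
# The token game (helper69): states, moves, the set of positions
-/

set_option autoImplicit false

open Finset

noncomputable section

namespace Pool.Agent.ClawHam.TK

open Classical

variable {B I : Type} [Fintype B] [Fintype I]

/-- indicator vector of a set of vertices, modulo 2 -/
def ind (s : Finset B) (K : B) : ZMod 2 := if K ∈ s then 1 else 0

/-- picks: the empty set or a pair of vertices of the hyperedge -/
def Pick (e f : I → Finset B) : Prop := ∀ i, f i ⊆ e i ∧ (f i = ∅ ∨ (f i).card = 2)

/-- the odd vertices are `p` and `b` (none if `p = b`) -/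
def Par (f : I → Finset B) (p b : B) : Prop := ∀ K, ∑ i, ind (f i) K = ind {p} K + ind {b} K

/-- a state: picks with odd vertices `p`, `b`; the picks in `J` form a spanning tree -/
structure St (e f : I → Finset B) (J : Finset I) (p b : B) : Prop where
  pick : Pick e f
  par : Par f p b
  tree : Tree f J

/-- One move of the token from `s.2` to `t.2`: the pick of one hyperedge is changed by the pair of
the two positions; the tree (with index set `J`) stays a tree. -/
def Move (e : I → Finset B) (J : Finset I) (s t : (I → Finset B) × B) : Prop :=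
  s.2 ≠ t.2 ∧ (∃ i, t.1 = Function.update s.1 i (symmDiff (s.1 i) {s.2, t.2})) ∧
    Pick e t.1 ∧ Tree t.1 J

/-- `t` is reached from `s` -/
def Reach (e : I → Finset B) (J : Finset I) : (I → Finset B) × B → (I → Finset B) × B → Prop :=
  Relation.ReflTransGen (Move e J)

/-- the set of all positions of the token -/
def pos (e : I → Finset B) (J : Finset I) (f : I → Finset B) (p : B) : Finset B :=
  univ.filter fun q => ∃ g, Reach e J (f, p) (g, q)

/-- all hypergraphs of rank at most three with fewer than `n` vertices satisfy the lemma -/
def Small (n : ℕ) : Prop :=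
  ∀ (B I : Type) [Fintype B] [Fintype I] (e : I → Finset B), Fintype.card B < n →
    (∀ i, (e i).card ≤ 3) → FourConn univ e → EvenConn univ e

/-- START: a minimal counterexample has a connected choice with two odd vertices. -/
def RowStart : Prop :=
  ∀ (B I : Type) [Fintype B] [Fintype I] (e : I → Finset B), Small (Fintype.card B) →
    (∀ i, (e i).card ≤ 3) → FourConn univ e → ¬ EvenConn univ e →
    ∃ f p b, p ≠ b ∧ Pick e f ∧ Par f p b ∧
      ∀ X : Finset B, X.Nonempty → X ≠ univ → ∃ i, Crosses (f i) X

/-- number of picks of the tree inside `R` -/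
def inn (f : I → Finset B) (J : Finset I) (R : Finset B) : ℕ := (J.filter fun i => f i ⊆ R).card

/-- number of picks of the tree which cross `R` -/
def del (f : I → Finset B) (J : Finset I) (R : Finset B) : ℕ :=
  (J.filter fun i => Crosses (f i) R).card

/-- number of hyperedges of the tree with an unpicked vertex in `R` -/
def act (e f : I → Finset B) (J : Finset I) (R : Finset B) : ℕ :=
  (J.filter fun i => ∃ z ∈ e i, z ∉ f i ∧ z ∈ R).card

/-- sum of the sizes of the free hyperedges in `R` which have at least two vertices -/
def fre (e : I → Finset B) (J : Finset I) (R : Finset B) : ℕ :=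
  ∑ i ∈ univ.filter (fun i => i ∉ J ∧ 2 ≤ (e i).card ∧ e i ⊆ R), (e i).card

/-- COUNT: degrees at least four; every free hyperedge which meets `R` lies in `R`; with
`c = |R| - inn` components: `4 |R| ≤ fre + 2 (|R| - c) + del + act`. -/
def RowCount : Prop :=
  ∀ (B I : Type) [Fintype B] [Fintype I] (e f : I → Finset B) (J : Finset I) (R : Finset B),
    (∀ i, (e i).card ≤ 3) → FourConn univ e → Pick e f → Tree f J → R ≠ univ →
    (∀ i, i ∉ J → (∃ a ∈ e i, a ∈ R) → e i ⊆ R) →
    4 * R.card ≤ fre e J R + 2 * inn f J R + del f J R + act e f J R

/-- STEINER: the picks which cross `R` and have vertices of `R` on both sides of their cut -/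
def RowSteiner : Prop :=
  ∀ (B I : Type) [Fintype B] [Fintype I] (f : I → Finset B) (J : Finset I) (R : Finset B),
    Tree f J → R.Nonempty →
    (J.filter fun i => Crosses (f i) R ∧ ∀ X, Cut f J i X → (X ∩ R).Nonempty).card
      + 2 * inn f J R + 2 ≤ 2 * R.card

end Pool.Agent.ClawHam.TK
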