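import Pool.Agent.Lib.MP_e2dbb5_co.TK1

/-!
# The token game (helper69): moves, closure properties, the exchange outside
-/

set_option autoImplicit false

open Finset

noncomputable section

namespace Pool.Agent.ClawHam.TK

open Classical

variable {B I : Type} [Fintype B] [Fintype I]

theorem zadd (a : ZMod 2) : a + a = 0 := by
  rw [← two_mul]
  have : (2 : ZMod 2) = 0 := by decide
  rw [this, zero_mul]

theorem ind_symmDiff (s t : Finset B) (K : B) : ind (symmDiff s t) K = ind s K + ind t K := by
  unfold ind
  have h1 : (K ∈ symmDiff s t) ↔ (K ∈ s ∧ K ∉ t) ∨ (K ∈ t ∧ K ∉ s) := Finset.mem_symmDiff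
  by_cases hs : K ∈ s <;> by_cases ht : K ∈ t <;> simp only [h1, hs, ht] <;> decide

theorem ind_pair {p q : B} (h : p ≠ q) (K : B) :
    ind {p, q} K = ind {p} K + ind {q} K := by
  have h1 : ({p, q} : Finset B) = symmDiff {p} {q} := by
    ext z
    rw [Finset.mem_symmDiff]
    simp only [mem_insert, mem_singleton]
    constructor
    · rintro (rfl | rfl)
      · exact Or.inl ⟨rfl, h⟩
      · exact Or.inr ⟨rfl, fun h' => h h'.symm⟩
    · rintro (⟨h1, -⟩ | ⟨h1, -⟩)
      · exact Or.inl h1
      · exact Or.inr h1
  rw [h1, ind_symmDiff]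

theorem sum_update (f : I → Finset B) (i : I) (s : Finset B) (K : B) :
    ∑ j, ind (Function.update f i (symmDiff (f i) s) j) K = ∑ j, ind (f j) K + ind s K := by
  have h1 : ∀ j, ind (Function.update f i (symmDiff (f i) s) j) K
      = ind (f j) K + if j = i then ind s K else 0 := by
    intro j
    by_cases h : j = i
    · subst h
      rw [Function.update_self, ind_symmDiff, if_pos rfl]
    · rw [Function.update_of_ne h, if_neg h, add_zero]
  rw [Finset.sum_congr rfl fun j _ => h1 j, Finset.sum_add_distrib, Finset.sum_ite_eq']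
  simp

theorem St.move {e f g : I → Finset B} {J : Finset I} {p q b : B} (h : St e f J p b)
    (hm : Move e J (f, p) (g, q)) : St e g J q b := by
  obtain ⟨hpq, ⟨i, hi⟩, hP, hT⟩ := hm
  refine ⟨hP, ?_, hT⟩
  intro K
  simp only at hi hpq
  rw [hi, sum_update, h.par K, ind_pair hpq]
  have := zadd (ind {p} K)
  linear_combination this

theorem St.reach {e f : I → Finset B} {J : Finset I} {p b : B} (h : St e f J p b)
    {t : (I → Finset B) × B} (hm : Reach e J (f, p) t) : St e t.1 J t.2 b := by
  induction hm with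
  | refl => exact h
  | tail _ hbc ih => exact ih.move hbc

theorem mem_pos {e f : I → Finset B} {J : Finset I} {p q : B} :
    q ∈ pos e J f p ↔ ∃ g, Reach e J (f, p) (g, q) := by
  simp [pos]

theorem mem_pos_of {e f : I → Finset B} {J : Finset I} {p : B} {t : (I → Finset B) × B}
    (h : Reach e J (f, p) t) : t.2 ∈ pos e J f p := mem_pos.2 ⟨t.1, h⟩

theorem self_mem_pos {e f : I → Finset B} {J : Finset I} {p : B} : p ∈ pos e J f p :=
  mem_pos.2 ⟨f, Relation.ReflTransGen.refl⟩

/-- the symmetric difference of two pairs in a set with three elements -/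
theorem symmDiff_small {s t u : Finset B} (hs : s = ∅ ∨ s.card = 2) (ht : t.card = 2)
    (hsu : s ⊆ u) (htu : t ⊆ u) (hu : u.card ≤ 3) :
    symmDiff s t = ∅ ∨ (symmDiff s t).card = 2 := by
  rcases hs with rfl | hs
  · right
    rw [← Finset.bot_eq_empty, bot_symmDiff]
    exact ht
  · have h1 : (s ∪ t).card ≤ 3 := (card_le_card (union_subset hsu htu)).trans hu
    have h2 := Finset.card_union_add_card_inter s t
    have h3 : symmDiff s t = (s ∪ t) \ (s ∩ t) := by
      rw [symmDiff_eq_sup_sdiff_inf]
      rfl
    have h4 : (symmDiff s t).card = (s ∪ t).card - (s ∩ t).card := by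
      rw [h3, card_sdiff_of_subset (inter_subset_left.trans subset_union_left)]
    have h5 : (s ∩ t).card ≤ s.card := card_le_card inter_subset_left
    by_cases h6 : (s ∩ t).card = 2
    · left
      rw [← card_eq_zero]
      omega
    · right
      omega

theorem pick_step {e f : I → Finset B} (h : Pick e f) {i : I} {p q : B} (hp : p ∈ e i)
    (hq : q ∈ e i) (hpq : p ≠ q) (h3 : (e i).card ≤ 3) :
    Pick e (Function.update f i (symmDiff (f i) {p, q})) := by
  intro j
  by_cases hj : j = i
  · subst hj
    rw [Function.update_self]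
    have hsub : ({p, q} : Finset B) ⊆ e j := by
      intro z hz
      simp only [mem_insert, mem_singleton] at hz
      rcases hz with rfl | rfl <;> assumption
    refine ⟨?_, symmDiff_small (h j).2 (card_pair hpq) (h j).1 hsub h3⟩
    intro z hz
    rw [Finset.mem_symmDiff] at hz
    rcases hz with hz | hz
    · exact (h j).1 hz.1
    · exact hsub hz.1
  · rw [Function.update_of_ne hj]
    exact h j

/-- a move with a free hyperedge -/
theorem free_move {e f : I → Finset B} {J : Finset I} {p b : B} (h : St e f J p b)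
    (h3 : ∀ i, (e i).card ≤ 3) {i : I} (hi : i ∉ J) {q : B} (hp : p ∈ e i) (hq : q ∈ e i)
    (hpq : p ≠ q) :
    Move e J (f, p) (Function.update f i (symmDiff (f i) {p, q}), q) := by
  refine ⟨hpq, ⟨i, rfl⟩, pick_step h.pick hp hq hpq (h3 i), ?_⟩
  have hne : ∀ j ∈ J, Function.update f i (symmDiff (f i) {p, q}) j = f j := by
    intro j hj
    rw [Function.update_of_ne]
    rintro rfl
    exact hi hj
  refine ⟨fun j hj => ?_, fun X hX hX' => ?_, h.tree.card⟩
  · simp only
    rw [hne j hj]; exact h.tree.two j hj
  · obtain ⟨j, hj, hc⟩ := h.tree.conn X hX hX'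
    refine ⟨j, hj, ?_⟩
    simp only
    rw [hne j hj]; exact hc

/-- a hyperedge of the tree whose unpicked vertex is the position of the token can be flipped -/
theorem flip_move {e f : I → Finset B} {J : Finset I} {z b : B} (h : St e f J z b)
    (h3 : ∀ i, (e i).card ≤ 3) {i : I} (hi : i ∈ J) (hz : z ∈ e i) (hzf : z ∉ f i) :
    ∃ q ∈ f i, q ≠ z ∧ Move e J (f, z) (Function.update f i (symmDiff (f i) {z, q}), q) := by
  obtain ⟨X, hX⟩ := h.tree.exists_cut hi
  obtain ⟨x, y, hx, hy, hxy, hs⟩ := pair_crosses (h.tree.two i hi) hX.1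
  -- the pick end on the side of `z`
  have key : ∀ (Y : Finset B) (u w : B), Cut f J i Y → u ∈ Y → w ∉ Y → f i = {u, w} → z ∈ Y →
      ∃ q ∈ f i, q ≠ z ∧ Move e J (f, z) (Function.update f i (symmDiff (f i) {z, q}), q) := by
    intro Y u w hY hu hw hs' hzY
    have huz : u ≠ z := by
      rintro rfl
      apply hzf
      rw [hs']; simp
    have huw : u ≠ w := by rintro rfl; exact hw hu
    have hue : u ∈ e i := (h.pick i).1 (by rw [hs']; simp)
    have hnew : symmDiff (f i) {z, u} = {z, w} := by
      rw [hs']
      ext a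
      rw [Finset.mem_symmDiff]
      simp only [mem_insert, mem_singleton]
      have hzw : z ≠ w := by rintro rfl; exact hw hzY
      constructor
      · rintro (⟨h1, h2⟩ | ⟨h1, h2⟩)
        · push Not at h2
          rcases h1 with h1 | h1
          · exact absurd h1 h2.2
          · exact Or.inr h1
        · push Not at h2
          rcases h1 with h1 | h1
          · exact Or.inl h1
          · exact absurd h1 h2.1
      · rintro (h1 | h1)
        · right
          subst h1
          exact ⟨Or.inl rfl, by push Not; exact ⟨fun h => huz h.symm, hzw⟩⟩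
        · left
          subst h1
          exact ⟨Or.inr rfl, by push Not; exact ⟨fun h => hzw h.symm, fun h => huw h.symm⟩⟩
    refine ⟨u, by rw [hs']; simp, huz, huz.symm, ⟨i, rfl⟩,
      pick_step h.pick hz hue huz.symm (h3 i), ?_⟩
    have hJ : insert i (J.erase i) = J := insert_erase hi
    simp only
    rw [← hJ]
    apply h.tree.exchange hi hY (g := i)
    · intro j _ hji
      rw [Function.update_of_ne hji]
    · exact Or.inl rfl
    · rw [Function.update_self, hnew, card_pair]
      rintro rfl
      exact hw hzY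
    · rw [Function.update_self, hnew]
      exact crosses_pair hzY hw
  by_cases hzX : z ∈ X
  · exact key X x y hX hx hy hs hzX
  · refine key Xᶜ y x hX.compl (by simpa using hy) (by simpa using hx) ?_ (by simpa using hzX)
    rw [hs, Finset.pair_comm]

/-- every free hyperedge which meets the set of positions lies in it -/
theorem pos_free {e f : I → Finset B} {J : Finset I} {p b : B} (h : St e f J p b)
    (h3 : ∀ i, (e i).card ≤ 3) {i : I} (hi : i ∉ J) {a : B} (ha : a ∈ e i)
    (haR : a ∈ pos e J f p) : e i ⊆ pos e J f p := by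
  intro q hq
  by_cases haq : a = q
  · subst haq; exact haR
  obtain ⟨g, hg⟩ := mem_pos.1 haR
  have hst := h.reach hg
  exact mem_pos.2 ⟨_, Relation.ReflTransGen.tail hg (free_move hst h3 hi ha hq haq)⟩

/-- outside the set of positions the picks do not change -/
theorem reach_inter {e f : I → Finset B} {J : Finset I} {p : B} {D : Finset B}
    (hD : ∀ a ∈ D, a ∉ pos e J f p) {t : (I → Finset B) × B} (ht : Reach e J (f, p) t) (i : I) :
    t.1 i ∩ D = f i ∩ D := by
  induction ht with
  | refl => rfl
  | @tail s t hs hst ih =>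
    obtain ⟨hpq, ⟨k, hk⟩, -, -⟩ := id hst
    rw [← ih, hk]
    by_cases hik : i = k
    · subst hik
      rw [Function.update_self]
      have h1 : s.2 ∉ D := fun h => hD _ h (mem_pos_of hs)
      have h2 : t.2 ∉ D := fun h => hD _ h (mem_pos_of (Relation.ReflTransGen.tail hs hst))
      ext a
      rw [mem_inter, mem_inter, Finset.mem_symmDiff]
      simp only [mem_insert, mem_singleton]
      constructor
      · rintro ⟨h3 | h3, h4⟩
        · exact ⟨h3.1, h4⟩
        · rcases h3.1 with rfl | rfl
          · exact absurd h4 h1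
          · exact absurd h4 h2
      · rintro ⟨h3, h4⟩
        refine ⟨Or.inl ⟨h3, ?_⟩, h4⟩
        rintro (rfl | rfl)
        · exact h1 h4
        · exact h2 h4
    · rw [Function.update_of_ne hik]

/-- a pick which has changed has two vertices in the set of positions -/
theorem reach_change {e f : I → Finset B} {J : Finset I} {p : B}
    {t : (I → Finset B) × B} (hf : Pick e f) (ht : Reach e J (f, p) t) (i : I) :
    t.1 i = f i ∨ ∃ a b, a ≠ b ∧ a ∈ e i ∧ b ∈ e i ∧ a ∈ pos e J f p ∧ b ∈ pos e J f p := by
  have main : Pick e t.1 ∧ (t.1 i = f i ∨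
      ∃ a b, a ≠ b ∧ a ∈ e i ∧ b ∈ e i ∧ a ∈ pos e J f p ∧ b ∈ pos e J f p) := by
    induction ht with
    | refl => exact ⟨hf, Or.inl rfl⟩
    | @tail s t hs hst ih =>
      obtain ⟨hpq, ⟨k, hk⟩, hP, -⟩ := id hst
      refine ⟨hP, ?_⟩
      rcases ih.2 with h1 | h1
      · by_cases hik : i = k
        · right
          subst hik
          have hmem : ∀ z, z ∈ ({s.2, t.2} : Finset B) → z ∈ e i := by
            intro z hz
            by_cases hzf : z ∈ s.1 i
            · exact (ih.1 i).1 hzf
            · apply (hP i).1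
              rw [hk, Function.update_self, Finset.mem_symmDiff]
              exact Or.inr ⟨hz, hzf⟩
          exact ⟨s.2, t.2, hpq, hmem _ (by simp), hmem _ (by simp), mem_pos_of hs,
            mem_pos_of (Relation.ReflTransGen.tail hs hst)⟩
        · left
          rw [hk, Function.update_of_ne hik]
          exact h1
      · exact Or.inr h1
  exact main.2

/-- a hyperedge of the tree with unpicked vertex in the set of positions has a second vertex there -/
theorem pos_third {e f : I → Finset B} {J : Finset I} {p b : B} (h : St e f J p b)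
    (h3 : ∀ i, (e i).card ≤ 3) {i : I} (hi : i ∈ J) {z : B} (hz : z ∈ e i) (hzf : z ∉ f i)
    (hzR : z ∈ pos e J f p) : ∃ x ∈ f i, x ∈ pos e J f p := by
  obtain ⟨g, hg⟩ := mem_pos.1 hzR
  have hst := h.reach hg
  rcases reach_change h.pick hg i with h1 | ⟨a, c, hac, ha, hc, haR, hcR⟩
  · simp only at h1
    rw [← h1] at hzf ⊢
    obtain ⟨q, hq, hqz, hm⟩ := flip_move hst h3 hi hz hzf
    exact ⟨q, hq, mem_pos.2 ⟨_, Relation.ReflTransGen.tail hg hm⟩⟩
  · -- one of `a`, `c` is picked, because `e i` has only one unpicked vertex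
    by_contra hcon
    push Not at hcon
    have haf : a ∉ f i := fun h' => hcon a h' haR
    have hcf : c ∉ f i := fun h' => hcon c h' hcR
    have h4 : (insert a (insert c (f i))).card ≤ (e i).card := by
      apply card_le_card
      intro z hz
      simp only [mem_insert] at hz
      rcases hz with rfl | rfl | hz
      · exact ha
      · exact hc
      · exact (h.pick i).1 hz
    rw [card_insert_of_notMem (by simp [hac, haf]), card_insert_of_notMem hcf,
      h.tree.two i hi] at h4
    have := h3 i
    omega

theorem cr_iff {s D : Finset B} (hs : s.card = 2) : Crosses s D ↔ (s ∩ D).card = 1 := by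
  have h1 : (s ∩ D).card + (s \ D).card = s.card := card_inter_add_card_sdiff s D
  constructor
  · rintro ⟨⟨a, ha, haD⟩, b, hb, hbD⟩
    have h2 : 0 < (s ∩ D).card := card_pos.2 ⟨a, by simp [ha, haD]⟩
    have h3 : 0 < (s \ D).card := card_pos.2 ⟨b, by simp [hb, hbD]⟩
    omega
  · intro h
    have h2 : (s ∩ D).Nonempty := card_pos.1 (by omega)
    have h3 : (s \ D).Nonempty := card_pos.1 (by omega)
    obtain ⟨a, ha⟩ := h2
    obtain ⟨b, hb⟩ := h3
    simp only [mem_inter, mem_sdiff] at ha hb
    exact ⟨⟨a, ha.1, ha.2⟩, b, hb.1, hb.2⟩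

/-- cuts which avoid the set of positions are kept -/
theorem reach_cut {e f : I → Finset B} {J : Finset I} {p b : B} (h : St e f J p b)
    {D : Finset B} (hD : ∀ a ∈ D, a ∉ pos e J f p) {k : I} (hk : Cut f J k D)
    (hkJ : k ∈ J) {t : (I → Finset B) × B} (ht : Reach e J (f, p) t) : Cut t.1 J k D := by
  have hst := h.reach ht
  refine ⟨?_, fun j hj hjk hc => hk.2 j hj hjk ?_⟩
  · rw [cr_iff (hst.tree.two k hkJ), reach_inter hD ht, ← cr_iff (h.tree.two k hkJ)]
    exact hk.1
  · rw [cr_iff (h.tree.two j hj), ← reach_inter hD ht, ← cr_iff (hst.tree.two j hj)]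
    exact hc

/-- the exchange outside: all positions are kept -/
theorem exchange_out {e f : I → Finset B} {J : Finset I} {p b : B} (h : St e f J p b)
    {D : Finset B} (hD : ∀ a ∈ D, a ∉ pos e J f p) {k g : I} (hkJ : k ∈ J) (hk : Cut f J k D)
    (hgJ : g ∉ J) (hg : Crosses (f g) D) :
    St e f (insert g (J.erase k)) p b ∧
      ∀ t, Reach e J (f, p) t → Reach e (insert g (J.erase k)) (f, p) t := by
  have htree : ∀ t, Reach e J (f, p) t → Tree t.1 (insert g (J.erase k)) := by
    intro t ht
    have hst := h.reach ht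
    have h2 : (f g).card = 2 := by
      rcases (h.pick g).2 with h' | h'
      · obtain ⟨⟨a, ha, -⟩, -⟩ := hg
        rw [h'] at ha
        simp at ha
      · exact h'
    have h4 : (t.1 g ∩ D).card = 1 := by
      rw [reach_inter hD ht, ← cr_iff h2]
      exact hg
    have h5 : (t.1 g).card = 2 := by
      rcases (hst.pick g).2 with h' | h'
      · rw [h'] at h4
        simp at h4
      · exact h'
    exact hst.tree.exchange hkJ (reach_cut h hD hk hkJ ht) (fun _ _ _ => rfl) (Or.inr hgJ) h5
      ((cr_iff h5).2 h4)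
  refine ⟨⟨h.pick, h.par, htree _ Relation.ReflTransGen.refl⟩, ?_⟩
  intro t ht
  induction ht with
  | refl => exact Relation.ReflTransGen.refl
  | @tail s t hs hst ih =>
    refine Relation.ReflTransGen.tail ih ⟨hst.1, hst.2.1, hst.2.2.1, ?_⟩
    exact htree _ (Relation.ReflTransGen.tail hs hst)

/-- the set of positions grows by the exchange outside, if the hyperedge `k` meets it -/
theorem exchange_grow {e f : I → Finset B} {J : Finset I} {p b : B} (h : St e f J p b)
    (h3 : ∀ i, (e i).card ≤ 3)
    {D : Finset B} (hD : ∀ a ∈ D, a ∉ pos e J f p) {k g : I} (hkJ : k ∈ J) (hk : Cut f J k D)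
    (hgJ : g ∉ J) (hg : Crosses (f g) D) {a : B} (ha : a ∈ e k) (haR : a ∈ pos e J f p) :
    ∃ J', St e f J' p b ∧ (pos e J f p).card < (pos e J' f p).card := by
  obtain ⟨hst, hr⟩ := exchange_out h hD hkJ hk hgJ hg
  refine ⟨_, hst, ?_⟩
  have hsub : pos e J f p ⊆ pos e (insert g (J.erase k)) f p := by
    intro q hq
    obtain ⟨t, ht⟩ := mem_pos.1 hq
    exact mem_pos.2 ⟨t, hr _ ht⟩
  apply card_lt_card
  rw [Finset.ssubset_iff_of_subset hsub]
  obtain ⟨⟨w, hw, hwD⟩, -⟩ := id hk.1
  refine ⟨w, ?_, hD w hwD⟩
  have hkg : k ∉ insert g (J.erase k) := by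
    simp only [mem_insert, mem_erase, not_or, not_and, not_not]
    refine ⟨?_, fun h' => absurd rfl h'⟩
    rintro rfl
    exact hgJ hkJ
  exact pos_free hst h3 hkg ha (hsub haR) ((h.pick k).1 hw)

end Pool.Agent.ClawHam.TK
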