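import Pool.Agent.Lib.MP_e2dbb5_co.TK2

/-!
# The token game (helper69): parity, the bound for the crossing picks, the main inequality
-/

set_option autoImplicit false

open Finset

noncomputable section

namespace Pool.Agent.ClawHam.TK

open Classical

variable {B I : Type} [Fintype B] [Fintype I]

theorem sum_ind (s D : Finset B) : ∑ K ∈ D, ind s K = ((s ∩ D).card : ZMod 2) := by
  unfold ind
  rw [Finset.sum_boole]
  congr 2
  ext a
  simp [and_comm]

theorem ind_singleton_sum (p : B) (D : Finset B) :
    ∑ K ∈ D, ind {p} K = if p ∈ D then 1 else 0 := by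
  rw [sum_ind]
  by_cases h : p ∈ D
  · rw [if_pos h, Finset.singleton_inter_of_mem h, card_singleton]; simp
  · rw [if_neg h, Finset.singleton_inter_of_notMem h, card_empty]; simp

theorem card_inter_even {s D : Finset B} (hs : s = ∅ ∨ s.card = 2) (h : ¬ Crosses s D) :
    ((s ∩ D).card : ZMod 2) = 0 := by
  rcases hs with rfl | hs
  · simp
  · rcases not_crosses_iff.1 h with h1 | h1
    · rw [Finset.inter_eq_left.2 h1, hs]; decide
    · have : s ∩ D = ∅ := by
        ext a
        simp only [mem_inter, notMem_empty, iff_false, not_and]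
        exact h1 a
      rw [this]; simp

/-- the parity of a cut which is crossed by one pick only -/
theorem par_cut {f : I → Finset B} {p b : B} (h2 : ∀ i, f i = ∅ ∨ (f i).card = 2)
    (hpar : Par f p b) {D : Finset B} (hp : p ∉ D) {k : I} (hk : Crosses (f k) D)
    (ho : ∀ j, j ≠ k → ¬ Crosses (f j) D) : b ∈ D := by
  have h1 : ∑ K ∈ D, ∑ i, ind (f i) K = ∑ K ∈ D, (ind {p} K + ind {b} K) :=
    Finset.sum_congr rfl fun K _ => hpar K
  rw [Finset.sum_comm, Finset.sum_add_distrib, ind_singleton_sum, ind_singleton_sum,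
    if_neg hp, zero_add] at h1
  have hk2 : (f k).card = 2 := by
    rcases h2 k with h' | h'
    · obtain ⟨⟨a, ha, -⟩, -⟩ := hk
      rw [h'] at ha
      simp at ha
    · exact h'
  rw [Finset.sum_eq_single k, sum_ind, (cr_iff hk2).1 hk] at h1
  · by_contra hb
    rw [if_neg hb] at h1
    simp at h1
  · intro j _ hj
    rw [sum_ind]
    exact card_inter_even (h2 j) (ho j hj)
  · intro h; exact absurd (mem_univ k) h

/-- a state whose token reaches the other odd vertex -/
theorem even_of_pos {e f : I → Finset B} {J : Finset I} {p b : B} (h : St e f J p b)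
    (hb : b ∈ pos e J f p) : EvenConn univ e := by
  obtain ⟨g, hg⟩ := mem_pos.1 hb
  have hst := h.reach hg
  refine ⟨g, hst.pick, ?_, ?_⟩
  · intro K
    have h1 := hst.par K
    simp only at h1
    rw [zadd] at h1
    unfold ind at h1
    rw [Finset.sum_boole] at h1
    exact (ZMod.natCast_eq_zero_iff_even).1 h1
  · intro X _ hX hX'
    obtain ⟨i, -, hc⟩ := hst.tree.conn X hX hX'
    exact ⟨i, hc⟩

/-- the bound for the number of crossing picks -/
theorem del_bound (hS : RowSteiner) {e f : I → Finset B} {J : Finset I} {p b : B}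
    (h : St e f J p b) (h3 : ∀ i, (e i).card ≤ 3)
    (hmax : ∀ J', St e f J' p b → (pos e J' f p).card ≤ (pos e J f p).card) :
    del f J (pos e J f p) + 2 * inn f J (pos e J f p) + 1 ≤ 2 * (pos e J f p).card := by
  have hpR : p ∈ pos e J f p := self_mem_pos
  set R := pos e J f p with hR
  have h0 := hS B I f J R h.tree ⟨p, hpR⟩
  -- the far cut of a crossing pick contains `b`
  have key : ∀ k ∈ J, Crosses (f k) R → ∀ D, Cut f J k D → (∀ a ∈ D, a ∉ R) → b ∈ D := by
    intro k hk hkR D hD hDR
    apply par_cut (fun i => (h.pick i).2) h.par (fun hp => hDR p hp hpR) hD.1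
    intro j hj hjD
    by_cases hjJ : j ∈ J
    · exact hD.2 j hjJ hj hjD
    · obtain ⟨⟨a, ha, haR⟩, -⟩ := hkR
      obtain ⟨J', hJ', hlt⟩ := exchange_grow h h3 hDR hk hD hjJ hjD ((h.pick k).1 ha) haR
      exact absurd (hmax J' hJ') (not_le.2 hlt)
  have h1 : (J.filter fun i => Crosses (f i) R ∧
      ¬ ∀ X, Cut f J i X → (X ∩ R).Nonempty).card ≤ 1 := by
    rw [Finset.card_le_one]
    intro i hi j hj
    simp only [mem_filter] at hi hj
    obtain ⟨hiJ, hiR, hi⟩ := hi
    obtain ⟨hjJ, hjR, hj⟩ := hj
    push Not at hi hj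
    obtain ⟨D, hD, hDe⟩ := hi
    obtain ⟨E, hE, hEe⟩ := hj
    have hDR : ∀ a ∈ D, a ∉ R := by
      intro a ha haR
      have : a ∈ D ∩ R := mem_inter.2 ⟨ha, haR⟩
      rw [hDe] at this
      simp at this
    have hER : ∀ a ∈ E, a ∉ R := by
      intro a ha haR
      have : a ∈ E ∩ R := mem_inter.2 ⟨ha, haR⟩
      rw [hEe] at this
      simp at this
    by_contra hij
    have hbD := key i hiJ hiR D hD hDR
    have hbE := key j hjJ hjR E hE hER
    -- `D ∩ E` is crossed by no pick of the tree
    have gen : ∀ (u : I) (X Y : Finset B), u ∈ J → Crosses (f u) R → Cut f J u X →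
        ¬ Crosses (f u) Y → (∀ a ∈ X, a ∉ R) → (∀ a ∈ Y, a ∉ R) → ∀ a ∈ f u, a ∉ Y := by
      intro u X Y hu huR _ huY _ hYR
      rcases not_crosses_iff.1 huY with h' | h'
      · obtain ⟨⟨a, ha, haR⟩, -⟩ := huR
        exact absurd haR (hYR a (h' ha))
      · exact h'
    have hcap : D ∩ E = ∅ := by
      apply h.tree.empty_of (x := p) (fun hp => hDR p (mem_inter.1 hp).1 hpR)
      intro l hl
      rw [not_crosses_iff]
      by_cases hli : l = i
      · subst hli
        right
        intro a ha ha'
        exact gen l D E hiJ hiR hD (hE.2 l hiJ hij) hDR hER a ha (mem_inter.1 ha').2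
      by_cases hlj : l = j
      · subst hlj
        right
        intro a ha ha'
        exact gen l E D hjJ hjR hE (hD.2 l hjJ (Ne.symm hij)) hER hDR a ha (mem_inter.1 ha').1
      rcases not_crosses_iff.1 (hD.2 l hl hli) with h4 | h4
      · rcases not_crosses_iff.1 (hE.2 l hl hlj) with h5 | h5
        · left
          intro a ha
          exact mem_inter.2 ⟨h4 ha, h5 ha⟩
        · right
          intro a ha ha'
          exact h5 a ha (mem_inter.1 ha').2
      · right
        intro a ha ha'
        exact h4 a ha (mem_inter.1 ha').1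
    have : b ∈ D ∩ E := mem_inter.2 ⟨hbD, hbE⟩
    rw [hcap] at this
    simp at this
  have h2 : del f J R = (J.filter fun i => Crosses (f i) R ∧
      ∀ X, Cut f J i X → (X ∩ R).Nonempty).card + (J.filter fun i => Crosses (f i) R ∧
      ¬ ∀ X, Cut f J i X → (X ∩ R).Nonempty).card := by
    unfold del
    rw [← Finset.card_filter_add_card_filter_not (s := J.filter fun i => Crosses (f i) R)
      (fun i => ∀ X, Cut f J i X → (X ∩ R).Nonempty), Finset.filter_filter, Finset.filter_filter]
  omega

/-- the main inequality -/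
theorem main_count (hS : RowSteiner) (hC : RowCount) {e f : I → Finset B} {J : Finset I} {p b : B}
    (h : St e f J p b) (h3 : ∀ i, (e i).card ≤ 3) (hF : FourConn univ e)
    (hmax : ∀ J', St e f J' p b → (pos e J' f p).card ≤ (pos e J f p).card)
    (hb : b ∉ pos e J f p) :
    2 * (pos e J f p).card + 1 ≤ fre e J (pos e J f p) + act e f J (pos e J f p) := by
  have h1 := del_bound hS h h3 hmax
  have h2 := hC B I e f J (pos e J f p) h3 hF h.pick h.tree
    (fun h' => hb (h' ▸ mem_univ b)) (fun i hi ⟨a, ha, haR⟩ => pos_free h h3 hi ha haR)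
  omega

/-- a state with the largest set of positions -/
theorem exists_max (hSt : RowStart) {e : I → Finset B} (hsm : Small (Fintype.card B))
    (h3 : ∀ i, (e i).card ≤ 3) (hF : FourConn univ e) (hne : ¬ EvenConn univ e) :
    ∃ f J p b, St e f J p b ∧ ∀ f' J' p' b', St e f' J' p' b' →
      (pos e J' f' p').card ≤ (pos e J f p).card := by
  obtain ⟨f, p, b, -, hP, hpar, hconn⟩ := hSt B I e hsm h3 hF hne
  haveI : Nonempty B := ⟨p⟩
  obtain ⟨J, hJ⟩ := exists_tree (fun i => (hP i).2) hconn
  have hex : ∃ n, ∃ f J p b, St e f J p b ∧ Fintype.card B - (pos e J f p).card = n :=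
    ⟨_, f, J, p, b, ⟨hP, hpar, hJ⟩, rfl⟩
  obtain ⟨f, J, p, b, hst, hn⟩ := Nat.find_spec hex
  refine ⟨f, J, p, b, hst, ?_⟩
  intro f' J' p' b' hst'
  have h1 := Nat.find_min' hex ⟨f', J', p', b', hst', rfl⟩
  have h2 : (pos e J f p).card ≤ Fintype.card B := card_le_univ _
  have h3 : (pos e J' f' p').card ≤ Fintype.card B := card_le_univ _
  omega

end Pool.Agent.ClawHam.TK
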