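import Pool.Agent.Lib.MP_e2dbb5_co.TK3

/-!
# The token game (helper69): acyclic families of flips

`Acyc e f J N l r`: the hyperedges `i ∈ N` of the tree have links `l i` (a picked vertex and the
unpicked vertex, on the same side of the cut of `i`), and the link of `i` is separated by the cut
of another `j ∈ N` only if `r j < r i`. Then all flips commute and the links stay valid.
-/

set_option autoImplicit false

open Finset

noncomputable section

namespace Pool.Agent.ClawHam.TK

open Classical

variable {B I : Type} [Fintype B] [Fintype I]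

theorem crosses_pair_iff {a c : B} {X : Finset B} :
    Crosses ({a, c} : Finset B) X ↔ ¬ (a ∈ X ↔ c ∈ X) := by
  unfold Crosses
  simp only [mem_insert, mem_singleton, exists_eq_or_imp, exists_eq_left]
  tauto

theorem crosses_symmDiff {s X Y : Finset B} (hs : s.card = 2) :
    Crosses s (symmDiff X Y) ↔ (Crosses s X ∧ ¬ Crosses s Y) ∨ (¬ Crosses s X ∧ Crosses s Y) := by
  obtain ⟨a, c, -, rfl⟩ := Finset.card_eq_two.1 hs
  rw [crosses_pair_iff, crosses_pair_iff, crosses_pair_iff, Finset.mem_symmDiff,
    Finset.mem_symmDiff]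
  tauto

/-- acyclic families of flips -/
structure Acyc (e f : I → Finset B) (J N : Finset I) (l : I → Finset B) (r : I → ℕ) : Prop where
  sub : N ⊆ J
  link : ∀ i ∈ N, ∃ x z, x ∈ f i ∧ x ∈ e i ∧ z ∈ e i ∧ z ∉ f i ∧ l i = {x, z}
  own : ∀ i ∈ N, ∀ X, Cut f J i X → ¬ Crosses (l i) X
  ord : ∀ i ∈ N, ∀ j ∈ N, j ≠ i → ∀ X, Cut f J j X → Crosses (l i) X → r j < r i

theorem Acyc.link_card {e f : I → Finset B} {J N : Finset I} {l : I → Finset B} {r : I → ℕ}
    (h : Acyc e f J N l r) {i : I} (hi : i ∈ N) : (l i).card = 2 := by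
  obtain ⟨x, z, hx, -, -, hz, hl⟩ := h.link i hi
  rw [hl, card_pair]
  rintro rfl
  exact hz hx

/-- the cuts after one flip -/
theorem cut_flip {f : I → Finset B} {J : Finset I} (hT : Tree f J) {i : I} (hi : i ∈ J)
    {X : Finset B} (hX : Cut f J i X) {s : Finset B} (hs : s.card = 2) (hs' : s ≠ f i)
    {l : Finset B} (hl : l = symmDiff (f i) s) (hl2 : l.card = 2) (hlX : ¬ Crosses l X)
    {j : I} (hj : j ∈ J) (hji : j ≠ i) {Y : Finset B}
    (hY : Cut (Function.update f i s) J j Y) :
    (Cut f J j Y) ∨ (Cut f J j (symmDiff Y X) ∧ Crosses l Y ∧ Crosses (f i) Y) := by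
  have hjY : Crosses (f j) Y := by
    have := hY.1
    rwa [Function.update_of_ne hji] at this
  have hoY : ∀ k ∈ J, k ≠ j → k ≠ i → ¬ Crosses (f k) Y := by
    intro k hk hkj hki
    have := hY.2 k hk hkj
    rwa [Function.update_of_ne hki] at this
  have hiY : ¬ Crosses s Y := by
    have := hY.2 i hi hji.symm
    rwa [Function.update_self] at this
  by_cases hc : Crosses (f i) Y
  · right
    have h2 := hT.two
    refine ⟨⟨?_, ?_⟩, ?_, hc⟩
    · rw [crosses_symmDiff (h2 j hj)]
      exact Or.inl ⟨hjY, hX.2 j hj hji⟩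
    · intro k hk hkj
      rw [crosses_symmDiff (h2 k hk)]
      by_cases hki : k = i
      · subst hki
        rintro (⟨-, h'⟩ | ⟨h', -⟩)
        · exact h' hX.1
        · exact h' hc
      · rintro (⟨h', -⟩ | ⟨-, h'⟩)
        · exact hoY k hk hkj hki h'
        · exact hX.2 k hk hki h'
    · -- `f i` crosses `Y`, `s` does not
      by_contra hlY
      apply hiY
      have hls : s = symmDiff (f i) l := by
        rw [hl, symmDiff_symmDiff_cancel_left]
      -- parity of the intersections
      have h5 := (cr_iff (D := Y) (h2 i hi)).1 hc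
      rw [cr_iff hs]
      have h6 : ((s ∩ Y).card : ZMod 2) = (((f i) ∩ Y).card : ZMod 2) + ((l ∩ Y).card : ZMod 2) := by
        rw [← sum_ind, ← sum_ind, ← sum_ind, ← Finset.sum_add_distrib]
        apply Finset.sum_congr rfl
        intro K _
        rw [hls, ind_symmDiff]
      rw [card_inter_even (Or.inr hl2) hlY, h5, add_zero] at h6
      have h7 : (s ∩ Y).card ≤ 2 := by
        rw [← hs]; exact card_le_card inter_subset_left
      have h8 : (s ∩ Y).card = 0 ∨ (s ∩ Y).card = 1 ∨ (s ∩ Y).card = 2 := by omega
      rcases h8 with h8 | h8 | h8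
      · rw [h8] at h6; exact absurd h6 (by decide)
      · exact h8
      · rw [h8] at h6; exact absurd h6 (by decide)
  · left
    refine ⟨hjY, fun k hk hkj => ?_⟩
    by_cases hki : k = i
    · subst hki; exact hc
    · exact hoY k hk hkj hki

/-- after a flip in an acyclic family: a tree, and the family is acyclic with the same links -/
theorem Acyc.flip {e f : I → Finset B} {J N : Finset I} {l : I → Finset B} {r : I → ℕ}
    (h : Acyc e f J N l r) (hT : Tree f J) {i : I} (hi : i ∈ N) :
    Tree (Function.update f i (symmDiff (f i) (l i))) J ∧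
      Acyc e (Function.update f i (symmDiff (f i) (l i))) J N l r := by
  have hiJ := h.sub hi
  obtain ⟨X, hX⟩ := hT.exists_cut hiJ
  obtain ⟨x, z, hx, hxe, hz, hzf, hl⟩ := h.link i hi
  have hxz : x ≠ z := by rintro rfl; exact hzf hx
  -- the pick is {x, y}
  obtain ⟨y, hy⟩ : ∃ y, f i = {x, y} ∧ x ≠ y := by
    obtain ⟨a, c, hac, hs⟩ := Finset.card_eq_two.1 (hT.two i hiJ)
    rw [hs] at hx
    simp only [mem_insert, mem_singleton] at hx
    rcases hx with rfl | rfl
    · exact ⟨c, hs, hac⟩
    · exact ⟨a, by rw [hs, Finset.pair_comm], hac.symm⟩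
  obtain ⟨hs, hxy⟩ := hy
  have hyz : y ≠ z := by
    rintro rfl
    apply hzf
    rw [hs]; simp
  have hnew : symmDiff (f i) (l i) = {z, y} := by
    rw [hs, hl]
    ext a
    rw [Finset.mem_symmDiff]
    simp only [mem_insert, mem_singleton]
    constructor
    · rintro (⟨h1, h2⟩ | ⟨h1, h2⟩)
      · push Not at h2
        rcases h1 with h1 | h1
        · exact absurd h1 h2.1
        · exact Or.inr h1
      · push Not at h2
        rcases h1 with h1 | h1
        · exact absurd h1 h2.1
        · exact Or.inl h1
    · rintro (h1 | h1)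
      · right
        subst h1
        exact ⟨Or.inr rfl, by push Not; exact ⟨hxz.symm, hyz.symm⟩⟩
      · left
        subst h1
        exact ⟨Or.inr rfl, by push Not; exact ⟨hxy.symm, hyz⟩⟩
  set s := symmDiff (f i) (l i) with hsdef
  have hs2 : s.card = 2 := by rw [hnew, card_pair hyz.symm]
  have hl2 : (l i).card = 2 := h.link_card hi
  have hlX := h.own i hi X hX
  have hsX : Crosses s X := by
    rw [hnew]
    have h1 := hX.1
    rw [hs, crosses_pair_iff] at h1
    rw [hl, crosses_pair_iff] at hlX
    rw [crosses_pair_iff]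
    tauto
  have hT' : Tree (Function.update f i s) J := by
    have hJ : insert i (J.erase i) = J := insert_erase hiJ
    rw [← hJ]
    apply hT.exchange hiJ hX (g := i)
    · intro j _ hji
      rw [Function.update_of_ne hji]
    · exact Or.inl rfl
    · rw [Function.update_self]; exact hs2
    · rw [Function.update_self]; exact hsX
  have hls : l i = symmDiff (f i) s := by rw [hsdef, symmDiff_symmDiff_cancel_left]
  have hsne : s ≠ f i := by
    intro h'
    have : z ∈ s := by rw [hnew]; simp
    rw [h'] at this
    exact hzf this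
  have hcut := fun {j : I} (hj : j ∈ J) (hji : j ≠ i) {Y : Finset B}
      (hY : Cut (Function.update f i s) J j Y) =>
    cut_flip hT hiJ hX hs2 hsne hls hl2 hlX hj hji hY
  have hcuti : ∀ Y, Cut (Function.update f i s) J i Y → Cut f J i Y := by
    intro Y hY
    have ho : ∀ j ∈ J, j ≠ i → ¬ Crosses (f j) Y := by
      intro j hj hji
      have := hY.2 j hj hji
      rwa [Function.update_of_ne hji] at this
    refine ⟨?_, ho⟩
    obtain ⟨⟨a, ha, haY⟩, c, hc, hcY⟩ := hY.1
    obtain ⟨k, hk, hkc⟩ := hT.conn Y ⟨a, haY⟩ (fun h' => hcY (h' ▸ mem_univ c))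
    by_cases hki : k = i
    · subst hki; exact hkc
    · exact absurd hkc (ho k hk hki)
  refine ⟨hT', h.sub, ?_, ?_, ?_⟩
  · intro j hj
    by_cases hji : j = i
    · subst hji
      refine ⟨z, x, ?_, hz, hxe, ?_, ?_⟩
      · rw [Function.update_self, hnew]; simp
      · rw [Function.update_self, hnew]
        simp only [mem_insert, mem_singleton, not_or]
        exact ⟨hxz, hxy⟩
      · rw [hl, Finset.pair_comm]
    · rw [Function.update_of_ne hji]
      exact h.link j hj
  · intro j hj Y hY
    by_cases hji : j = i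
    · subst hji
      exact h.own j hj Y (hcuti Y hY)
    · rcases hcut (h.sub hj) hji hY with h1 | ⟨h1, h2, -⟩
      · exact h.own j hj Y h1
      · intro hc
        have h3 := h.own j hj _ h1
        rw [crosses_symmDiff (h.link_card hj)] at h3
        have h4 : Crosses (l j) X := by
          by_contra h5
          exact h3 (Or.inl ⟨hc, h5⟩)
        have h6 := h.ord j hj i hi (Ne.symm hji) X hX h4
        have h7 : Crosses (l i) (symmDiff Y X) := by
          rw [crosses_symmDiff hl2]
          exact Or.inl ⟨h2, hlX⟩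
        have h8 := h.ord i hi j hj hji _ h1 h7
        omega
  · intro k hk j hj hjk Y hY hc
    by_cases hji : j = i
    · subst hji
      exact h.ord k hk j hj hjk Y (hcuti Y hY) hc
    · rcases hcut (h.sub hj) hji hY with h1 | ⟨h1, h2, -⟩
      · exact h.ord k hk j hj hjk Y h1 hc
      · have h7 : Crosses (l i) (symmDiff Y X) := by
          rw [crosses_symmDiff hl2]
          exact Or.inl ⟨h2, hlX⟩
        have h8 := h.ord i hi j hj hji _ h1 h7
        by_cases hki : k = i
        · subst hki; exact h8
        · by_cases h9 : Crosses (l k) X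
          · have := h.ord k hk i hi (Ne.symm hki) X hX h9
            omega
          · apply h.ord k hk j hj hjk _ h1
            rw [crosses_symmDiff (h.link_card hk)]
            exact Or.inl ⟨hc, h9⟩

end Pool.Agent.ClawHam.TK
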