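import Pool.Agent.Lib.MP_e2dbb5_co.TK4

/-!
# The token game (helper69): exchanges in acyclic families, walks

The last-element trick (helper14) and the tripod rule for free triples (helper91).
-/

set_option autoImplicit false

open Finset

noncomputable section

namespace Pool.Agent.ClawHam.TK

open Classical

variable {B I : Type} [Fintype B] [Fintype I]

/-- the tree hyperedge `i` is on the path of the tree between the two vertices of the pair `s` -/
def OnPath (f : I → Finset B) (J : Finset I) (s : Finset B) (i : I) : Prop :=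
  ∃ Y, Cut f J i Y ∧ Crosses s Y

/-- cuts after the exchange of `k` by `g` -/
theorem cut_exch {f : I → Finset B} {J : Finset I} (hT : Tree f J) {k g : I}
    (hk : k ∈ J) (hg : g ∉ J) {X : Finset B} (hX : Cut f J k X) (hg2 : (f g).card = 2)
    (hgX : Crosses (f g) X) {j : I} (hj : j ∈ J) (hjk : j ≠ k) {Y : Finset B}
    (hY : Cut f (insert g (J.erase k)) j Y) :
    Cut f J j Y ∨ (Cut f J j (symmDiff Y X) ∧ Crosses (f g) (symmDiff Y X)) := by
  have hjg : j ≠ g := by rintro rfl; exact hg hj
  have hgY : ¬ Crosses (f g) Y := hY.2 g (mem_insert_self _ _) hjg.symm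
  have hoY : ∀ i ∈ J, i ≠ k → i ≠ j → ¬ Crosses (f i) Y := fun i hi hik hij =>
    hY.2 i (mem_insert_of_mem (mem_erase.2 ⟨hik, hi⟩)) hij
  by_cases hc : Crosses (f k) Y
  · right
    refine ⟨⟨?_, ?_⟩, ?_⟩
    · rw [crosses_symmDiff (hT.two j hj)]
      exact Or.inl ⟨hY.1, hX.2 j hj hjk⟩
    · intro i hi hij
      rw [crosses_symmDiff (hT.two i hi)]
      by_cases hik : i = k
      · subst hik
        rintro (⟨-, h'⟩ | ⟨h', -⟩)
        · exact h' hX.1
        · exact h' hc
      · rintro (⟨h', -⟩ | ⟨-, h'⟩)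
        · exact hoY i hi hik hij h'
        · exact hX.2 i hi hik h'
    · rw [crosses_symmDiff hg2]
      exact Or.inr ⟨hgY, hgX⟩
  · left
    refine ⟨hY.1, fun i hi hij => ?_⟩
    by_cases hik : i = k
    · subst hik; exact hc
    · exact hoY i hi hik hij

/-- the cut of the new hyperedge -/
theorem cut_exch_new {f : I → Finset B} {J : Finset I} (hT : Tree f J) {k g : I}
    (hk : k ∈ J) (hg : g ∉ J) {X : Finset B} (hX : Cut f J k X) {Y : Finset B}
    (hY : Cut f (insert g (J.erase k)) g Y) : Y = X ∨ Y = Xᶜ := by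
  obtain ⟨⟨a, ha, haY⟩, c, hc, hcY⟩ := hY.1
  apply hT.cut_unique hk hX ⟨a, haY⟩ (fun h' => hcY (h' ▸ mem_univ c))
  intro j hj hjk
  apply hY.2 j (mem_insert_of_mem (mem_erase.2 ⟨hjk, hj⟩))
  rintro rfl
  exact hg hj

/-- exchange in an acyclic family, general form -/
theorem Acyc.exch {e f : I → Finset B} {J N : Finset I} {l : I → Finset B} {r : I → ℕ}
    (h : Acyc e f J N l r) (hT : Tree f J) {k g : I} (hk : k ∈ J) (hg : g ∉ J) {X : Finset B}
    (hX : Cut f J k X) (hg2 : (f g).card = 2) (hgX : Crosses (f g) X)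
    (hr : ∀ i ∈ N, i ≠ k → OnPath f J (f g) i → ∀ m ∈ N, m ≠ k → Crosses (l m) X → r i < r m) :
    Tree f (insert g (J.erase k)) ∧ Acyc e f (insert g (J.erase k)) (N.erase k) l r := by
  refine ⟨hT.exchange hk hX (fun _ _ _ => rfl) (Or.inr hg) hg2 hgX, ?_, ?_, ?_, ?_⟩
  · intro i hi
    rw [mem_erase] at hi
    exact mem_insert_of_mem (mem_erase.2 ⟨hi.1, h.sub hi.2⟩)
  · intro i hi
    exact h.link i (mem_of_mem_erase hi)
  · intro i hi Y hY
    rw [mem_erase] at hi
    rcases cut_exch hT hk hg hX hg2 hgX (h.sub hi.2) hi.1 hY with h1 | ⟨h1, h2⟩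
    · exact h.own i hi.2 Y h1
    · intro hc
      have h3 := h.own i hi.2 _ h1
      rw [crosses_symmDiff (h.link_card hi.2)] at h3
      have h4 : Crosses (l i) X := by
        by_contra h5
        exact h3 (Or.inl ⟨hc, h5⟩)
      exact absurd (hr i hi.2 hi.1 ⟨_, h1, h2⟩ i hi.2 hi.1 h4) (lt_irrefl _)
  · intro m hm j hj hjm Y hY hc
    rw [mem_erase] at hm hj
    rcases cut_exch hT hk hg hX hg2 hgX (h.sub hj.2) hj.1 hY with h1 | ⟨h1, h2⟩
    · exact h.ord m hm.2 j hj.2 hjm Y h1 hc
    · by_cases h4 : Crosses (l m) X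
      · exact hr j hj.2 hj.1 ⟨_, h1, h2⟩ m hm.2 hm.1 h4
      · apply h.ord m hm.2 j hj.2 hjm _ h1
        rw [crosses_symmDiff (h.link_card hm.2)]
        exact Or.inl ⟨hc, h4⟩

/-- the last-element trick: `k` is the last element of `N` on the path of `g` -/
theorem Acyc.exch_last {e f : I → Finset B} {J N : Finset I} {l : I → Finset B} {r : I → ℕ}
    (h : Acyc e f J N l r) (hT : Tree f J) {k g : I} (hk : k ∈ N) (hg : g ∉ J) {X : Finset B}
    (hX : Cut f J k X) (hg2 : (f g).card = 2) (hgX : Crosses (f g) X)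
    (hr : ∀ i ∈ N, OnPath f J (f g) i → r i ≤ r k) :
    Tree f (insert g (J.erase k)) ∧ Acyc e f (insert g (J.erase k)) (N.erase k) l r := by
  apply h.exch hT (h.sub hk) hg hX hg2 hgX
  intro i hi _ hp m hm hmk hc
  have h1 := hr i hi hp
  have h2 := h.ord m hm k hk (Ne.symm hmk) X hX hc
  omega

/-- exchanges on a path without elements of `N` -/
theorem Acyc.exch_off {e f : I → Finset B} {J N : Finset I} {l : I → Finset B} {r : I → ℕ}
    (h : Acyc e f J N l r) (hT : Tree f J) {k g : I} (hk : k ∈ J) (hg : g ∉ J) {X : Finset B}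
    (hX : Cut f J k X) (hg2 : (f g).card = 2) (hgX : Crosses (f g) X)
    (hr : ∀ i ∈ N, ¬ OnPath f J (f g) i) :
    Tree f (insert g (J.erase k)) ∧ Acyc e f (insert g (J.erase k)) N l r := by
  have h1 := h.exch hT hk hg hX hg2 hgX (fun i hi _ hp => absurd hp (hr i hi))
  have hkN : k ∉ N := fun hkN => hr k hkN ⟨X, hX, hgX⟩
  rwa [erase_eq_of_notMem hkN] at h1

/-- the tripod rule: a free triple `g` with pick `{q, p}` and third vertex `z` replaces `k`, whose
cut separates `q` from `p` and `z`; it gets the link `{p, z}` -/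
theorem Acyc.exch_tri {e f : I → Finset B} {J N : Finset I} {l : I → Finset B} {r : I → ℕ}
    (h : Acyc e f J N l r) (hT : Tree f J) {k g : I} (hk : k ∈ J) (hg : g ∉ J) {X : Finset B}
    (hX : Cut f J k X) (hg2 : (f g).card = 2) (hgX : Crosses (f g) X) {p z : B} (hp : p ∈ f g)
    (hpe : p ∈ e g) (hze : z ∈ e g) (hz : z ∉ f g) (hpz : ¬ Crosses {p, z} X) (ρ : ℕ)
    (hr1 : ∀ i ∈ N, i ≠ k → (OnPath f J (f g) i ∨ OnPath f J {p, z} i) → r i < ρ)
    (hr2 : ∀ m ∈ N, m ≠ k → Crosses (l m) X → ρ < r m) :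
    Tree f (insert g (J.erase k)) ∧ Acyc e f (insert g (J.erase k)) (insert g (N.erase k))
      (Function.update l g {p, z}) (Function.update r g ρ) := by
  have hgN : g ∉ N := fun h' => hg (h.sub h')
  obtain ⟨hT', hA⟩ := h.exch hT hk hg hX hg2 hgX (fun i hi hik hpa m hm hmk hc =>
    (hr1 i hi hik (Or.inl hpa)).trans (hr2 m hm hmk hc))
  have hne : ∀ i ∈ N.erase k, i ≠ g := by
    rintro i hi rfl
    exact hgN (mem_of_mem_erase hi)
  have hpz' : p ≠ z := by rintro rfl; exact hz hp
  refine ⟨hT', ?_, ?_, ?_, ?_⟩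
  · intro i hi
    rw [mem_insert] at hi
    rcases hi with rfl | hi
    · exact mem_insert_self _ _
    · exact hA.sub hi
  · intro i hi
    rw [mem_insert] at hi
    rcases hi with rfl | hi
    · refine ⟨p, z, hp, hpe, hze, hz, ?_⟩
      rw [Function.update_self]
    · rw [Function.update_of_ne (hne i hi)]
      exact hA.link i hi
  · intro i hi Y hY
    rw [mem_insert] at hi
    rcases hi with rfl | hi
    · rw [Function.update_self]
      rcases cut_exch_new hT hk hg hX hY with rfl | rfl
      · exact hpz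
      · intro hc; exact hpz (crosses_compl_iff.1 hc)
    · rw [Function.update_of_ne (hne i hi)]
      exact hA.own i hi Y hY
  · intro m hm j hj hjm Y hY hc
    rw [mem_insert] at hm hj
    rcases hj with rfl | hj
    · -- the cut of the new hyperedge
      rcases hm with rfl | hm
      · exact absurd rfl hjm
      · rw [Function.update_of_ne (hne m hm)] at hc
        rw [Function.update_self, Function.update_of_ne (hne m hm)]
        rw [mem_erase] at hm
        apply hr2 m hm.2 hm.1
        rcases cut_exch_new hT hk hg hX hY with rfl | rfl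
        · exact hc
        · exact crosses_compl_iff.1 hc
    · rcases hm with rfl | hm
      · -- the link of the new hyperedge
        rw [Function.update_self] at hc
        rw [Function.update_self, Function.update_of_ne hjm]
        rw [mem_erase] at hj
        rcases cut_exch hT hk hg hX hg2 hgX (h.sub hj.2) hj.1 hY with h1 | ⟨h1, h2⟩
        · exact hr1 j hj.2 hj.1 (Or.inr ⟨Y, h1, hc⟩)
        · exact hr1 j hj.2 hj.1 (Or.inl ⟨_, h1, h2⟩)
      · rw [Function.update_of_ne (hne m hm)] at hc
        rw [Function.update_of_ne (hne m hm), Function.update_of_ne (hne j hj)]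
        exact hA.ord m hm j hj hjm Y hY hc

/-- one step of the static class: a free hyperedge or a link -/
def Adj (e : I → Finset B) (J N : Finset I) (l : I → Finset B) (a c : B) : Prop :=
  a ≠ c ∧ ((∃ i, i ∉ J ∧ a ∈ e i ∧ c ∈ e i) ∨ ∃ i ∈ N, l i = {a, c})

/-- the token walks freely in its static class, and the family stays acyclic -/
theorem walk {e f : I → Finset B} {J N : Finset I} {l : I → Finset B} {r : I → ℕ} {p b q : B}
    (h : St e f J p b) (h3 : ∀ i, (e i).card ≤ 3) (hA : Acyc e f J N l r)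
    (hq : Relation.ReflTransGen (Adj e J N l) p q) :
    ∃ g, Reach e J (f, p) (g, q) ∧ Acyc e g J N l r := by
  induction hq with
  | refl => exact ⟨f, Relation.ReflTransGen.refl, hA⟩
  | @tail a c _ hac ih =>
    obtain ⟨g, hg, hgA⟩ := ih
    have hst := h.reach hg
    obtain ⟨hne, hac⟩ := hac
    rcases hac with ⟨i, hi, ha, hc⟩ | ⟨i, hi, hl⟩
    · refine ⟨_, Relation.ReflTransGen.tail hg (free_move hst h3 hi ha hc hne), ?_⟩
      have hfix : ∀ j ∈ J, Function.update g i (symmDiff (g i) {a, c}) j = g j := by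
        intro j hj
        rw [Function.update_of_ne]
        rintro rfl
        exact hi hj
      have hcut : ∀ j ∈ J, ∀ Y, Cut (Function.update g i (symmDiff (g i) {a, c})) J j Y →
          Cut g J j Y := by
        intro j hj Y hY
        refine ⟨by rw [← hfix j hj]; exact hY.1, fun k hk hkj => ?_⟩
        rw [← hfix k hk]
        exact hY.2 k hk hkj
      refine ⟨hgA.sub, ?_, ?_, ?_⟩
      · intro j hj
        rw [hfix j (hgA.sub hj)]
        exact hgA.link j hj
      · intro j hj Y hY
        exact hgA.own j hj Y (hcut j (hgA.sub hj) Y hY)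
      · intro m hm j hj hjm Y hY hc'
        exact hgA.ord m hm j hj hjm Y (hcut j (hgA.sub hj) Y hY) hc'
    · obtain ⟨hT, hA'⟩ := hgA.flip hst.tree hi
      rw [hl] at hT hA'
      refine ⟨_, Relation.ReflTransGen.tail hg ⟨hne, ⟨i, rfl⟩, ?_, hT⟩, hA'⟩
      obtain ⟨x, z, -, hxe, hze, -, hl'⟩ := hgA.link i hi
      have hsub : ({a, c} : Finset B) ⊆ e i := by
        rw [← hl, hl']
        intro w hw
        simp only [mem_insert, mem_singleton] at hw
        rcases hw with rfl | rfl <;> assumption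
      exact pick_step hst.pick (hsub (by simp)) (hsub (by simp)) hne (h3 i)

end Pool.Agent.ClawHam.TK
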