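import Pool.Agent.Lib.MP_e2dbb5_co.TK1

/-!
# The token game: the count (row RowCount)
-/

set_option autoImplicit false

open Finset

noncomputable section

namespace Pool.Agent.ClawHam.TK

open Classical

theorem rowCount : RowCount := by
  intro B I _ _ e f J R h3 hF hP hT hR hfree
  have h1 : ∀ v ∈ R, 4 ≤ (univ.filter fun i => v ∈ e i ∧ 2 ≤ (e i).card).card := by
    intro v hv
    have hne : ({v} : Finset B) ≠ univ := by
      intro h
      apply hR
      apply Finset.eq_univ_iff_forall.2
      intro x
      have hx : x ∈ ({v} : Finset B) := h ▸ mem_univ x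
      rw [mem_singleton] at hx
      rw [hx]; exact hv
    refine le_trans (hF {v} (subset_univ _) (by simp) hne) (card_le_card ?_)
    intro i hi
    simp only [mem_filter, mem_univ, true_and] at hi ⊢
    obtain ⟨⟨a, ha, hav⟩, b, hb, hbv⟩ := hi
    rw [mem_singleton] at hav hbv
    subst hav
    refine ⟨ha, ?_⟩
    have : ({a, b} : Finset B) ⊆ e i := by
      intro z hz
      simp only [mem_insert, mem_singleton] at hz
      rcases hz with rfl | rfl <;> assumption
    have h4 := card_le_card this
    rwa [card_pair (fun h => hbv h.symm)] at h4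
  have h2 : 4 * R.card ≤ ∑ v ∈ R, (univ.filter fun i => v ∈ e i ∧ 2 ≤ (e i).card).card := by
    have := Finset.card_nsmul_le_sum R _ 4 h1
    rw [smul_eq_mul] at this
    omega
  have h4 : ∑ v ∈ R, (univ.filter fun i => v ∈ e i ∧ 2 ≤ (e i).card).card
      = ∑ i, if 2 ≤ (e i).card then (e i ∩ R).card else 0 := by
    simp only [card_filter]
    rw [sum_comm]
    apply sum_congr rfl
    intro i _
    split_ifs with hi
    · simp only [hi, and_true]
      rw [← card_filter]
      congr 1
      ext v
      simp [and_comm]
    · simp [hi]
  have h5 : (∑ i, if 2 ≤ (e i).card then (e i ∩ R).card else 0)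
      = (∑ i ∈ univ.filter (fun i => i ∉ J), if 2 ≤ (e i).card then (e i ∩ R).card else 0)
        + ∑ i ∈ J, if 2 ≤ (e i).card then (e i ∩ R).card else 0 := by
    rw [← Finset.sum_filter_add_sum_filter_not univ (fun i => i ∉ J)]
    congr 1
    apply sum_congr _ (fun _ _ => rfl)
    ext i
    simp
  have h6 : (∑ i ∈ univ.filter (fun i => i ∉ J), if 2 ≤ (e i).card then (e i ∩ R).card else 0)
      ≤ fre e J R := by
    unfold fre
    have h7 : univ.filter (fun i => i ∉ J ∧ 2 ≤ (e i).card ∧ e i ⊆ R)
        = (univ.filter (fun i => i ∉ J)).filter (fun i => 2 ≤ (e i).card ∧ e i ⊆ R) := by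
      ext i; simp
    rw [h7, sum_filter (fun i => 2 ≤ (e i).card ∧ e i ⊆ R)]
    apply sum_le_sum
    intro i hi
    simp only [mem_filter, mem_univ, true_and] at hi
    by_cases h8 : 2 ≤ (e i).card
    · by_cases h9 : e i ⊆ R
      · simp only [h8, h9, and_self, if_true]
        exact card_le_card inter_subset_left
      · simp only [h8, h9, and_false, if_false, if_true]
        have h10 : e i ∩ R = ∅ := by
          by_contra hne
          obtain ⟨a, ha⟩ := nonempty_iff_ne_empty.2 hne
          rw [mem_inter] at ha
          exact h9 (hfree i hi ⟨a, ha.1, ha.2⟩)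
        rw [h10]; simp
    · simp [h8]
  have h7 : (∑ i ∈ J, if 2 ≤ (e i).card then (e i ∩ R).card else 0)
      ≤ 2 * inn f J R + del f J R + act e f J R := by
    unfold inn del act
    rw [card_filter, card_filter, card_filter, mul_sum, ← sum_add_distrib, ← sum_add_distrib]
    apply sum_le_sum
    intro i hi
    have h8 : (if 2 ≤ (e i).card then (e i ∩ R).card else 0) ≤ (e i ∩ R).card := by
      split_ifs <;> simp
    refine le_trans h8 ?_
    have hfi := hT.two i hi
    have hsub := (hP i).1
    have h9 : (e i ∩ R).card = (f i ∩ R).card + ((e i \ f i) ∩ R).card := by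
      rw [← card_union_of_disjoint]
      · congr 1
        ext z
        simp only [mem_inter, mem_union, mem_sdiff]
        constructor
        · rintro ⟨h, h'⟩
          by_cases hz : z ∈ f i
          · exact Or.inl ⟨hz, h'⟩
          · exact Or.inr ⟨⟨h, hz⟩, h'⟩
        · rintro (⟨h, h'⟩ | ⟨⟨h, -⟩, h'⟩)
          · exact ⟨hsub h, h'⟩
          · exact ⟨h, h'⟩
      · rw [disjoint_left]
        intro z hz hz'
        simp only [mem_inter, mem_sdiff] at hz hz'
        exact hz'.1.2 hz.1
    have h10 : ((e i \ f i) ∩ R).card ≤ if ∃ z ∈ e i, z ∉ f i ∧ z ∈ R then 1 else 0 := by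
      split_ifs with h
      · refine le_trans (card_le_card inter_subset_left) ?_
        rw [card_sdiff_of_subset hsub, hfi]
        have := h3 i
        omega
      · rw [Nat.le_zero, card_eq_zero]
        by_contra hne
        obtain ⟨z, hz⟩ := nonempty_iff_ne_empty.2 hne
        simp only [mem_inter, mem_sdiff] at hz
        exact h ⟨z, hz.1.1, hz.1.2, hz.2⟩
    have h11 : (f i ∩ R).card ≤ (2 * if f i ⊆ R then 1 else 0)
        + if Crosses (f i) R then 1 else 0 := by
      by_cases h12 : f i ⊆ R
      · simp only [h12, if_true]
        have := card_le_card (inter_subset_left : f i ∩ R ⊆ f i)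
        omega
      · by_cases h13 : Crosses (f i) R
        · simp only [h12, h13, if_true, if_false]
          have h14 : (f i ∩ R).card < (f i).card := by
            apply card_lt_card
            refine ⟨inter_subset_left, fun h => h12 (fun z hz => ?_)⟩
            exact (mem_inter.1 (h hz)).2
          omega
        · rcases not_crosses_iff.1 h13 with h | h
          · exact absurd h h12
          · have h14 : f i ∩ R = ∅ := by
              by_contra hne
              obtain ⟨a, ha⟩ := nonempty_iff_ne_empty.2 hne
              rw [mem_inter] at ha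
              exact h a ha.1 ha.2
            rw [h14]; simp
    omega
  omega

end Pool.Agent.ClawHam.TK
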