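import Pool.Agent.Lib.MP_e2dbb5_co.TK2

/-!
# The token game: row JCLASS (helper58)

A hyperedge of the tree with no unpicked vertex in the set of positions keeps its pick.  If the cut
of `k` is crossed by no other hyperedge of the tree which has an unpicked vertex in the set of
positions, then `k` may be replaced by a free hyperedge `g` across the cut, as long as the pick of
`g` is kept.
-/

set_option autoImplicit false

open Finset

noncomputable section

namespace Pool.Agent.ClawHam.TK

open Classical

variable {B I : Type} [Fintype B] [Fintype I]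

/-- a move which keeps the pick of `g` -/
def Move' (e : I → Finset B) (J : Finset I) (g : I) (s t : (I → Finset B) × B) : Prop :=
  Move e J s t ∧ t.1 g = s.1 g

theorem reach_of_reach' {e : I → Finset B} {J : Finset I} {g : I} {s t : (I → Finset B) × B}
    (h : Relation.ReflTransGen (Move' e J g) s t) : Reach e J s t := by
  induction h with
  | refl => exact Relation.ReflTransGen.refl
  | tail _ hst ih => exact Relation.ReflTransGen.tail ih hst.1

theorem reach'_pick {e : I → Finset B} {J : Finset I} {g : I} {s t : (I → Finset B) × B}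
    (h : Relation.ReflTransGen (Move' e J g) s t) : t.1 g = s.1 g := by
  induction h with
  | refl => rfl
  | tail _ hst ih => rw [hst.2, ih]

/-- a hyperedge of the tree with no unpicked vertex in the set of positions keeps its pick -/
theorem reach_inactive {e f : I → Finset B} {J : Finset I} {p b : B} (h : St e f J p b) {j : I}
    (hj : j ∈ J) (hna : ¬ ∃ z ∈ e j, z ∉ f j ∧ z ∈ pos e J f p) {t : (I → Finset B) × B}
    (ht : Reach e J (f, p) t) : t.1 j = f j := by
  induction ht with
  | refl => rfl
  | @tail s t hs hst ih =>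
    obtain ⟨hpq, ⟨i, hi⟩, hP, hT⟩ := id hst
    by_cases hij : j = i
    · subst hij
      exfalso
      have hself : t.1 j = symmDiff (f j) {s.2, t.2} := by
        rw [hi, Function.update_self, ih]
      have hs2 : s.2 ∈ pos e J f p := mem_pos_of hs
      have ht2 : t.2 ∈ pos e J f p := mem_pos_of (Relation.ReflTransGen.tail hs hst)
      have key : ∀ z, z ∈ ({s.2, t.2} : Finset B) → z ∈ pos e J f p → z ∈ f j := by
        intro z hz hzp
        by_contra hzf
        apply hna
        refine ⟨z, (hP j).1 ?_, hzf, hzp⟩
        rw [hself, Finset.mem_symmDiff]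
        exact Or.inr ⟨hz, hzf⟩
      have h1 : ({s.2, t.2} : Finset B) = f j := by
        apply Finset.eq_of_subset_of_card_le
        · intro z hz
          have hz' := hz
          simp only [mem_insert, mem_singleton] at hz'
          rcases hz' with rfl | rfl
          · exact key _ hz hs2
          · exact key _ hz ht2
        · rw [Finset.card_pair hpq, h.tree.two j hj]
      have h2 : (t.1 j).card = 2 := hT.two j hj
      rw [hself, h1, symmDiff_self] at h2
      simp at h2
    · rw [hi, Function.update_of_ne hij, ih]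

/-- the cut of `k` is kept -/
theorem reach_cut_act {e f : I → Finset B} {J : Finset I} {p b : B} (h : St e f J p b) {k : I}
    {D : Finset B} (hkD : Cut f J k D)
    (hact : ∀ j ∈ J, j ≠ k →
      ((∃ z ∈ e j, z ∉ f j ∧ z ∈ pos e J f p) → ¬ Crosses (e j) D))
    {t : (I → Finset B) × B} (ht : Reach e J (f, p) t) : Cut t.1 J k D := by
  have hst := h.reach ht
  have h1 : ∀ j ∈ J, j ≠ k → ¬ Crosses (t.1 j) D := by
    intro j hj hjk hc
    by_cases ha : ∃ z ∈ e j, z ∉ f j ∧ z ∈ pos e J f p
    · apply hact j hj hjk ha
      obtain ⟨⟨x, hx, hxD⟩, y, hy, hyD⟩ := hc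
      exact ⟨⟨x, (hst.pick j).1 hx, hxD⟩, y, (hst.pick j).1 hy, hyD⟩
    · rw [reach_inactive h hj ha ht] at hc
      exact hkD.2 j hj hjk hc
  refine ⟨?_, h1⟩
  obtain ⟨⟨x, hx, hxD⟩, y, hy, hyD⟩ := hkD.1
  obtain ⟨j, hj, hc⟩ := hst.tree.conn D ⟨x, hxD⟩ (fun h' => hyD (h' ▸ mem_univ y))
  by_cases hjk : j = k
  · subst hjk; exact hc
  · exact absurd hc (h1 j hj hjk)

/-- JCLASS: the exchange of `k` and `g` keeps all walks which keep the pick of `g` -/
theorem jclass {e f : I → Finset B} {J : Finset I} {p b : B} (h : St e f J p b) {k g : I}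
    {D : Finset B} (hk : k ∈ J) (hkD : Cut f J k D)
    (hact : ∀ j ∈ J, j ≠ k →
      ((∃ z ∈ e j, z ∉ f j ∧ z ∈ pos e J f p) → ¬ Crosses (e j) D))
    (hg : g ∉ J) (hgD : Crosses (f g) D) :
    St e f (insert g (J.erase k)) p b ∧
      ∀ t, Relation.ReflTransGen (Move' e J g) (f, p) t →
        Reach e (insert g (J.erase k)) (f, p) t := by
  have h2 : (f g).card = 2 := by
    rcases (h.pick g).2 with h' | h'
    · obtain ⟨⟨a, ha, -⟩, -⟩ := hgD
      rw [h'] at ha
      simp at ha
    · exact h'
  have htree : ∀ t, Relation.ReflTransGen (Move' e J g) (f, p) t →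
      Tree t.1 (insert g (J.erase k)) := by
    intro t ht
    have hr := reach_of_reach' ht
    have hst := h.reach hr
    have hgt : t.1 g = f g := reach'_pick ht
    refine hst.tree.exchange hk (reach_cut_act h hkD hact hr) (fun _ _ _ => rfl) (Or.inr hg) ?_ ?_
    · rw [hgt]; exact h2
    · rw [hgt]; exact hgD
  refine ⟨⟨h.pick, h.par, htree _ Relation.ReflTransGen.refl⟩, ?_⟩
  intro t ht
  induction ht with
  | refl => exact Relation.ReflTransGen.refl
  | @tail s t hs hst ih =>
    refine Relation.ReflTransGen.tail ih ⟨hst.1.1, hst.1.2.1, hst.1.2.2.1, ?_⟩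
    exact htree _ (Relation.ReflTransGen.tail hs hst)

end Pool.Agent.ClawHam.TK
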