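import Pool.Agent.Lib.MP_e2dbb5_co.TK1

/-!
# The token game: LEAF LEMMA (helper4)

In a spanning tree of picks, the subtree spanned by a vertex set `C` with at least two vertices has
two leaves in `C`.  If the links `l i` (`i ∈ M`) join a picked vertex of `i` to an unpicked vertex on
its own side and lie in `C`, then no leaf is an end of its link; so at least two incidences
(vertex of `C`, pick of the tree at it) are not of the form (picked end of a link, its hyperedge).
-/

set_option autoImplicit false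

open Finset

noncomputable section

namespace Pool.Agent.ClawHam.TK

open Classical

variable {B I : Type} [Fintype B] [Fintype I]

/-- two vertices are separated by a fundamental cut: growth form -/
theorem Tree.sep_aux {f : I → Finset B} {J : Finset I} (h : Tree f J) {c x : B} :
    ∀ (n : ℕ) (K : Finset B), K.card ≤ n → c ∈ K → x ∉ K →
      (∀ j ∈ J, Crosses (f j) K → x ∈ f j) →
      ∃ j ∈ J, ∃ Y, Cut f J j Y ∧ c ∈ Y ∧ x ∉ Y := by
  intro n
  induction n with
  | zero =>
    intro K hK hc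
    rw [Nat.le_zero, card_eq_zero] at hK
    rw [hK] at hc
    simp at hc
  | succ n ih =>
    intro K hK hc hx hcr
    obtain ⟨j, hj, hjK⟩ := h.conn K ⟨c, hc⟩ (fun h' => hx (h' ▸ mem_univ x))
    have hxj := hcr j hj hjK
    obtain ⟨a, b, ha, hb, hab, hs⟩ := pair_crosses (h.two j hj) hjK
    have hxb : x = b := by
      have h1 := hxj
      rw [hs] at h1
      simp only [mem_insert, mem_singleton] at h1
      rcases h1 with h1 | h1
      · exact absurd (h1 ▸ ha) hx
      · exact h1
    subst hxb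
    -- the side of `a`
    obtain ⟨Y, hY, hxY⟩ : ∃ Y, Cut f J j Y ∧ x ∉ Y := by
      obtain ⟨X, hX⟩ := h.exists_cut hj
      by_cases hxX : x ∈ X
      · exact ⟨Xᶜ, hX.compl, by simpa using hxX⟩
      · exact ⟨X, hX, hxX⟩
    have haY : a ∈ Y := by
      obtain ⟨⟨a', ha', haY'⟩, -⟩ := hY.1
      rw [hs] at ha'
      simp only [mem_insert, mem_singleton] at ha'
      rcases ha' with rfl | rfl
      · exact haY'
      · exact absurd haY' hxY
    by_cases hcY : c ∈ Y
    · exact ⟨j, hj, Y, hY, hcY, hxY⟩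
    · apply ih (K \ Y)
      · have h1 : (K \ Y).card < K.card := by
          apply card_lt_card
          rw [ssubset_iff_of_subset sdiff_subset]
          exact ⟨a, ha, by simp [haY]⟩
        omega
      · exact mem_sdiff.2 ⟨hc, hcY⟩
      · simp [hx]
      · intro k hk hkc
        by_cases hkj : k = j
        · rw [hkj]; exact hxj
        · apply hcr k hk
          obtain ⟨⟨p, hp, hpK⟩, q, hq, hqK⟩ := hkc
          rw [mem_sdiff] at hpK
          refine ⟨⟨p, hp, hpK.1⟩, q, hq, fun hqK' => hqK ?_⟩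
          rw [mem_sdiff]
          refine ⟨hqK', fun hqY => ?_⟩
          exact hY.2 k hk hkj ⟨⟨q, hq, hqY⟩, p, hp, hpK.2⟩

/-- two vertices are separated by a fundamental cut -/
theorem Tree.sep {f : I → Finset B} {J : Finset I} (h : Tree f J) {c x : B} (hcx : c ≠ x) :
    ∃ j ∈ J, ∃ Y, Cut f J j Y ∧ c ∈ Y ∧ x ∉ Y := by
  apply h.sep_aux _ (univ \ {x}) le_rfl
  · simp [hcx]
  · simp
  · rintro j _ ⟨-, b, hb, hbx⟩
    simp only [mem_sdiff, mem_univ, mem_singleton, true_and, not_not] at hbx
    exact hbx ▸ hb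

/-- a fundamental cut side which avoids `x ∈ X` and meets `X`, where `X` is a side with end `x`,
lies in `X` -/
theorem Tree.side_subset {f : I → Finset B} {J : Finset I} (h : Tree f J) {i j : I}
    {X Y : Finset B} (hX : Cut f J i X) (hY : Cut f J j Y) (hij : j ≠ i) {x y c : B}
    (hs : f i = {x, y}) (hiJ : i ∈ J) (hx : x ∈ X) (hxY : x ∉ Y) (hcX : c ∈ X) (hcY : c ∈ Y) :
    Y ⊆ X := by
  have hyY : y ∉ Y := by
    intro hyY
    apply hY.2 i hiJ (Ne.symm hij)
    rw [hs]
    exact ⟨⟨y, by simp, hyY⟩, x, by simp, hxY⟩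
  rcases not_crosses_iff.1 (fun hc => by
    by_cases hjJ : j ∈ J
    · exact hX.2 j hjJ hij hc
    · -- then nothing in `J` crosses `Y`
      have h1 : Y = ∅ := h.empty_of hxY (fun k hk => hY.2 k hk (fun hkj => hjJ (hkj ▸ hk)))
      rw [h1] at hcY
      simp at hcY : ¬ Crosses (f j) X) with hjX | hjX
  · -- the pick of `j` lies in `X`
    have h1 : Y \ X = ∅ := by
      apply h.empty_of (x := x)
      · simp [hx]
      · intro k hk
        rw [not_crosses_iff]
        by_cases hki : k = i
        · right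
          intro a ha
          rw [hki, hs] at ha
          simp only [mem_insert, mem_singleton] at ha
          rcases ha with rfl | rfl
          · simp [hxY]
          · simp [hyY]
        · by_cases hkj : k = j
          · right
            intro a ha
            rw [hkj] at ha
            simp [hjX ha]
          · have h2 := not_crosses_iff.1 (hX.2 k hk hki)
            have h3 := not_crosses_iff.1 (hY.2 k hk hkj)
            rcases h2 with h2 | h2
            · right; intro a ha; simp [h2 ha]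
            · rcases h3 with h3 | h3
              · left; intro a ha; simp [h2 a ha, h3 ha]
              · right; intro a ha; simp [h3 a ha]
    exact sdiff_eq_empty_iff_subset.1 h1
  · exfalso
    have h1 : Y ∩ X = ∅ := by
      apply h.empty_of (x := x)
      · simp [hxY]
      · intro k hk
        rw [not_crosses_iff]
        by_cases hki : k = i
        · right
          intro a ha
          rw [hki, hs] at ha
          simp only [mem_insert, mem_singleton] at ha
          rcases ha with rfl | rfl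
          · simp [hxY]
          · simp [hyY]
        · by_cases hkj : k = j
          · right
            intro a ha
            rw [hkj] at ha
            simp [hjX a ha]
          · have h2 := not_crosses_iff.1 (hX.2 k hk hki)
            have h3 := not_crosses_iff.1 (hY.2 k hk hkj)
            rcases h2 with h2 | h2
            · rcases h3 with h3 | h3
              · left; intro a ha; simp [h2 ha, h3 ha]
              · right; intro a ha; simp [h3 a ha]
            · right; intro a ha; simp [h2 a ha]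
    have h2 : c ∈ Y ∩ X := mem_inter.2 ⟨hcY, hcX⟩
    rw [h1] at h2
    simp at h2

/-- a leaf of the subtree spanned by `C`, other than the root `r ∈ C` -/
theorem Tree.leaf {f : I → Finset B} {J : Finset I} (h : Tree f J) {C : Finset B} {r c : B}
    (hc : c ∈ C) (hcr : c ≠ r) :
    ∃ i ∈ J, ∃ X v, Cut f J i X ∧ v ∈ f i ∧ r ∉ X ∧ X ∩ C = {v} := by
  -- sides which avoid `r` and meet `C`
  have hne : (univ.filter fun X : Finset B =>
      (∃ i ∈ J, Cut f J i X) ∧ r ∉ X ∧ (X ∩ C).Nonempty).Nonempty := by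
    obtain ⟨j, hj, Y, hY, hcY, hrY⟩ := h.sep hcr
    exact ⟨Y, by simp only [mem_filter, mem_univ, true_and]
                 exact ⟨⟨j, hj, hY⟩, hrY, c, mem_inter.2 ⟨hcY, hc⟩⟩⟩
  obtain ⟨X, hXm, hXmin⟩ := Finset.exists_min_image _ (fun X : Finset B => X.card) hne
  simp only [mem_filter, mem_univ, true_and] at hXm hXmin
  obtain ⟨⟨i, hi, hX⟩, hrX, hXC⟩ := hXm
  obtain ⟨x, y, hx, hy, hxy, hs⟩ := pair_crosses (h.two i hi) hX.1
  have key : ∀ d ∈ X ∩ C, d = x := by
    intro d hd
    rw [mem_inter] at hd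
    by_contra hdx
    obtain ⟨j, hj, Y, hY, hdY, hxY⟩ := h.sep hdx
    have hji : j ≠ i := by
      rintro rfl
      rcases h.cut_unique hj hX ⟨d, hdY⟩ (fun h' => hxY (h' ▸ mem_univ x)) hY.2 with h1 | h1
      · rw [h1] at hxY; exact hxY hx
      · rw [h1] at hdY; simp [hd.1] at hdY
    have hYX : Y ⊆ X := h.side_subset hX hY hji hs hi hx hxY hd.1 hdY
    have h1 : Y.card < X.card := by
      apply card_lt_card
      rw [ssubset_iff_of_subset hYX]
      exact ⟨x, hx, hxY⟩
    have h2 := hXmin Y ⟨⟨j, hj, hY⟩, fun h' => hrX (hYX h'), d, mem_inter.2 ⟨hdY, hd.2⟩⟩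
    omega
  refine ⟨i, hi, X, x, hX, by rw [hs]; simp, hrX, ?_⟩
  obtain ⟨d, hd⟩ := hXC
  have hdx := key d hd
  subst hdx
  ext e
  rw [mem_singleton]
  constructor
  · exact key e
  · rintro rfl; exact hd

/-- two different leaves of the subtree spanned by `C` -/
theorem Tree.two_leaves {f : I → Finset B} {J : Finset I} (h : Tree f J) {C : Finset B}
    (hC : 2 ≤ C.card) :
    ∃ v w, v ≠ w ∧ v ∈ C ∧ w ∈ C ∧ (∃ i ∈ J, ∃ X, Cut f J i X ∧ v ∈ f i ∧ X ∩ C = {v}) ∧
      ∃ i ∈ J, ∃ X, Cut f J i X ∧ w ∈ f i ∧ X ∩ C = {w} := by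
  obtain ⟨r, hr, c, hc, hrc⟩ := Finset.one_lt_card.1 (show 1 < C.card by omega)
  obtain ⟨i, hi, X, v, hX, hvi, hrX, hXC⟩ := h.leaf (r := r) hc (Ne.symm hrc)
  have hv : v ∈ X ∩ C := by rw [hXC]; simp
  rw [mem_inter] at hv
  have hrv : r ≠ v := fun h' => hrX (h' ▸ hv.1)
  obtain ⟨i', hi', X', w, hX', hwi, hvX', hXC'⟩ := h.leaf (r := v) hr hrv
  have hw : w ∈ X' ∩ C := by rw [hXC']; simp
  rw [mem_inter] at hw
  have hvw : v ≠ w := fun h' => hvX' (h' ▸ hw.1)
  exact ⟨v, w, hvw, hv.2, hw.2, ⟨i, hi, X, hX, hvi, hXC⟩, i', hi', X', hX', hwi, hXC'⟩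

/-- LEAF LEMMA: links `l i = {x, z}` (`x` picked, `z` unpicked, on the same side of the cut of `i`)
for `i ∈ M`, all inside `C`: at least two incidences (vertex of `C`, pick of the tree at it) are not
of the form (end of `l i`, `i`) with `i ∈ M`. -/
theorem Tree.leaf_links {f : I → Finset B} {J : Finset I} (h : Tree f J) {C : Finset B}
    (hC : 2 ≤ C.card) (M : Finset I) (l : I → Finset B)
    (hl : ∀ i ∈ M, ∃ x z, l i = {x, z} ∧ x ∈ f i ∧ z ∉ f i ∧
      ∀ X, Cut f J i X → (x ∈ X ↔ z ∈ X))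
    (hlC : ∀ i ∈ M, l i ⊆ C) :
    2 ≤ (univ.filter fun q : B × I =>
      q.1 ∈ C ∧ q.2 ∈ J ∧ q.1 ∈ f q.2 ∧ ¬ (q.2 ∈ M ∧ q.1 ∈ l q.2)).card := by
  obtain ⟨v, w, hvw, hv, hw, ⟨i, hi, X, hX, hvi, hXC⟩, j, hj, Y, hY, hwj, hYC⟩ :=
    h.two_leaves hC
  have key : ∀ (v : B) (i : I) (X : Finset B), Cut f J i X → v ∈ f i → X ∩ C = {v} →
      ¬ (i ∈ M ∧ v ∈ l i) := by
    rintro v i X hX hvi hXC ⟨hiM, hvl⟩
    obtain ⟨x, z, hlz, hxf, hzf, hsep⟩ := hl i hiM
    have hvX : v ∈ X := by
      have h1 : v ∈ X ∩ C := by rw [hXC]; simp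
      exact (mem_inter.1 h1).1
    have hzC : z ∈ C := hlC i hiM (by rw [hlz]; simp)
    rw [hlz] at hvl
    simp only [mem_insert, mem_singleton] at hvl
    rcases hvl with rfl | rfl
    · have hzX : z ∈ X := (hsep X hX).1 hvX
      have h1 : z ∈ X ∩ C := mem_inter.2 ⟨hzX, hzC⟩
      rw [hXC, mem_singleton] at h1
      exact hzf (h1 ▸ hvi)
    · exact hzf hvi
  have h1 : ({(v, i), (w, j)} : Finset (B × I)) ⊆ univ.filter fun q : B × I =>
      q.1 ∈ C ∧ q.2 ∈ J ∧ q.1 ∈ f q.2 ∧ ¬ (q.2 ∈ M ∧ q.1 ∈ l q.2) := by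
    intro q hq
    simp only [mem_insert, mem_singleton] at hq
    rw [mem_filter]
    refine ⟨mem_univ _, ?_⟩
    rcases hq with rfl | rfl
    · exact ⟨hv, hi, hvi, key v i X hX hvi hXC⟩
    · exact ⟨hw, hj, hwj, key w j Y hY hwj hYC⟩
  have h2 := Finset.card_le_card h1
  rw [Finset.card_pair (fun h' => hvw (congrArg Prod.fst h'))] at h2
  exact h2

end Pool.Agent.ClawHam.TK
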