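import Pool.Agent.Lib.MP_e2dbb5_co.TK1

/-!
# The token game (helper69): LIFT (helper21)

A set `X` with two disjoint families of hyperedges inside `X`, the picks of the first and the
hyperedges of the second connected on `X`, can be contracted.
-/

set_option autoImplicit false

open Finset

noncomputable section

namespace Pool.Agent.ClawHam.TK

open Classical

/-- LIFT: a set with a tree and a connected rest inside can be contracted -/
def RowLift : Prop :=
  ∀ (B I : Type) [Fintype B] [Fintype I] (e : I → Finset B), Small (Fintype.card B) →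
    (∀ i, (e i).card ≤ 3) → FourConn univ e →
    ∀ (X : Finset B) (f : I → Finset B) (J1 J2 : Finset I), 2 ≤ X.card → Disjoint J1 J2 →
      (∀ i ∈ J1, e i ⊆ X) → (∀ i ∈ J2, e i ⊆ X) → Pick e f →
      (∀ Y : Finset B, (∃ a ∈ X, a ∈ Y) → (∃ b ∈ X, b ∉ Y) → ∃ i ∈ J1, Crosses (f i) Y) →
      (∀ Y : Finset B, (∃ a ∈ X, a ∈ Y) → (∃ b ∈ X, b ∉ Y) → ∃ i ∈ J2, Crosses (e i) Y) →
      EvenConn univ e

namespace Lift

set_option linter.unusedSectionVars false
set_option linter.unusedVariables false

variable {B I : Type} [Fintype B] [Fintype I]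

/-- the odd sets of the picks in `J` -/
def Ach (e : I → Finset B) (J : Finset I) (D : Finset B) : Prop :=
  ∃ c : I → Finset B, Pick e c ∧ (∀ i, i ∉ J → c i = ∅) ∧
    ∀ K, ∑ i, ind (c i) K = ind D K

theorem ind_symmDiff (s t : Finset B) (K : B) :
    ind (symmDiff s t) K = ind s K + ind t K := by
  unfold ind
  by_cases h1 : K ∈ s <;> by_cases h2 : K ∈ t <;> simp [Finset.mem_symmDiff, h1, h2] <;> decide

theorem pick_symmDiff {s a b : Finset B} (hs : s.card ≤ 3) (ha : a ⊆ s ∧ (a = ∅ ∨ a.card = 2))
    (hb : b ⊆ s ∧ (b = ∅ ∨ b.card = 2)) :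
    symmDiff a b ⊆ s ∧ (symmDiff a b = ∅ ∨ (symmDiff a b).card = 2) := by
  have h0 : symmDiff a b ⊆ s := by
    intro z hz
    rw [Finset.mem_symmDiff] at hz
    rcases hz with hz | hz
    · exact ha.1 hz.1
    · exact hb.1 hz.1
  refine ⟨h0, ?_⟩
  rcases ha.2 with rfl | ha2
  · have : symmDiff (∅ : Finset B) b = b := by
      ext z; simp [Finset.mem_symmDiff]
    rw [this]; exact hb.2
  rcases hb.2 with rfl | hb2
  · have : symmDiff a (∅ : Finset B) = a := by
      ext z; simp [Finset.mem_symmDiff]
    rw [this]; exact ha.2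
  have h1 : (symmDiff a b).card + 2 * (a ∩ b).card = a.card + b.card := by
    have h2 : symmDiff a b = (a \ b) ∪ (b \ a) := by
      ext z; simp [Finset.mem_symmDiff]
    have h3 : Disjoint (a \ b) (b \ a) := by
      rw [Finset.disjoint_left]
      intro z hz hz'
      simp only [mem_sdiff] at hz hz'
      exact hz.2 hz'.1
    rw [h2, card_union_of_disjoint h3]
    have h4 := Finset.card_sdiff_add_card_inter a b
    have h5 := Finset.card_sdiff_add_card_inter b a
    rw [inter_comm b a] at h5
    omega
  have h6 : (a ∪ b).card + (a ∩ b).card = a.card + b.card := Finset.card_union_add_card_inter a b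
  have h7 : (a ∪ b).card ≤ 3 := (card_le_card (union_subset ha.1 hb.1)).trans hs
  have h8 : (a ∩ b).card ≤ 2 := by
    have := card_le_card (inter_subset_left : a ∩ b ⊆ a)
    omega
  have h9 : (a ∩ b).card = 1 ∨ (a ∩ b).card = 2 := by omega
  rcases h9 with h9 | h9
  · right; omega
  · left
    rw [← card_eq_zero]; omega

theorem Ach.empty (e : I → Finset B) (J : Finset I) : Ach e J ∅ :=
  ⟨fun _ => ∅, fun _ => ⟨empty_subset _, Or.inl rfl⟩, fun _ _ => rfl, fun K => by simp [ind]⟩

theorem Ach.add {e : I → Finset B} {J : Finset I} (he : ∀ i, (e i).card ≤ 3) {D E : Finset B}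
    (hD : Ach e J D) (hE : Ach e J E) : Ach e J (symmDiff D E) := by
  obtain ⟨c, hc1, hc2, hc3⟩ := hD
  obtain ⟨d, hd1, hd2, hd3⟩ := hE
  refine ⟨fun i => symmDiff (c i) (d i), fun i => pick_symmDiff (he i) (hc1 i) (hd1 i), ?_, ?_⟩
  · intro i hi
    simp only [hc2 i hi, hd2 i hi]
    simp
  · intro K
    simp only [ind_symmDiff, Finset.sum_add_distrib, hc3, hd3]

theorem Ach.pair {e : I → Finset B} {J : Finset I} {i : I} (hi : i ∈ J) {a b : B} (ha : a ∈ e i)
    (hb : b ∈ e i) (hab : a ≠ b) : Ach e J {a, b} := by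
  refine ⟨fun j => if j = i then {a, b} else ∅, ?_, ?_, ?_⟩
  · intro j
    by_cases hj : j = i
    · subst hj
      simp only [if_true]
      refine ⟨?_, Or.inr (card_pair hab)⟩
      intro z hz
      simp only [mem_insert, mem_singleton] at hz
      rcases hz with rfl | rfl <;> assumption
    · dsimp only
      rw [if_neg hj]
      exact ⟨empty_subset _, Or.inl rfl⟩
  · intro j hj
    have : j ≠ i := by rintro rfl; exact hj hi
    simp [this]
  · intro K
    rw [Finset.sum_eq_single i]
    · simp
    · intro j _ hj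
      simp [hj, ind]
    · intro h; exact absurd (mem_univ i) h

theorem Ach.pair_of_conn {e : I → Finset B} {J : Finset I} (he : ∀ i, (e i).card ≤ 3)
    {X : Finset B} (hJ : ∀ i ∈ J, e i ⊆ X)
    (hc : ∀ Y : Finset B, (∃ a ∈ X, a ∈ Y) → (∃ b ∈ X, b ∉ Y) → ∃ i ∈ J, Crosses (e i) Y)
    {a b : B} (ha : a ∈ X) (hb : b ∈ X) (hab : a ≠ b) : Ach e J {a, b} := by
  by_contra hcon
  set Y : Finset B := univ.filter fun y => y = a ∨ Ach e J {a, y} with hY
  have haY : a ∈ Y := by simp [hY]
  have hbY : b ∉ Y := by
    simp only [hY, mem_filter, mem_univ, true_and, not_or]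
    exact ⟨fun h => hab h.symm, hcon⟩
  obtain ⟨i, hi, ⟨p, hp, hpY⟩, q, hq, hqY⟩ := hc Y ⟨a, ha, haY⟩ ⟨b, hb, hbY⟩
  have hpq : p ≠ q := by rintro rfl; exact hqY hpY
  have h1 := Ach.pair hi hp hq hpq
  apply hqY
  simp only [hY, mem_filter, mem_univ, true_and] at hpY ⊢
  by_cases hqa : q = a
  · exact Or.inl hqa
  · right
    rcases hpY with rfl | hpa
    · exact h1
    · have h2 := hpa.add he h1
      have h3 : symmDiff ({a, p} : Finset B) {p, q} = {a, q} := by
        ext z
        simp only [Finset.mem_symmDiff, mem_insert, mem_singleton]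
        by_cases hza : z = a
        · subst hza
          by_cases hzp : z = p
          · subst hzp
            constructor
            · intro _; exact Or.inl rfl
            · intro _
              exfalso
              -- `{a, a}` is not the odd set of anything new, but then `a = p`
              obtain ⟨c, hc1, hc2, hc3⟩ := hpa
              have h5 : Ach e J ({z, z} : Finset B) := ⟨c, hc1, hc2, hc3⟩
              have h6 := hc3 z
              have h7 : (∑ K, ∑ i, ind (c i) K) = (∑ K, ind ({z, z} : Finset B) K) :=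
                Finset.sum_congr rfl fun K _ => hc3 K
              rw [Finset.sum_comm] at h7
              have h8 : ∀ i, (∑ K, ind (c i) K) = 0 := by
                intro i
                have h9 : (∑ K, ind (c i) K) = ((c i).card : ZMod 2) := by
                  unfold ind
                  rw [Finset.sum_ite_mem]
                  simp
                rw [h9]
                rcases (hc1 i).2 with h | h
                · rw [h]; simp
                · rw [h]; decide
              rw [Finset.sum_congr rfl fun i _ => h8 i] at h7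
              have h10 : (∑ K, ind ({z, z} : Finset B) K) = 1 := by
                unfold ind
                rw [Finset.sum_ite_mem]
                simp
              rw [h10] at h7
              simp at h7
          · constructor
            · intro _; exact Or.inl rfl
            · intro _
              left
              exact ⟨Or.inl rfl, by push Not; exact ⟨hzp, fun h => hqa h.symm⟩⟩
        · by_cases hzp : z = p
          · subst hzp
            constructor
            · rintro (⟨_, h⟩ | ⟨_, h⟩)
              · exact absurd (Or.inl rfl) h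
              · exact absurd (Or.inr rfl) h
            · rintro (h | h)
              · exact absurd h hza
              · exact absurd h hpq
          · by_cases hzq : z = q
            · subst hzq
              constructor
              · intro _; exact Or.inr rfl
              · intro _
                right
                exact ⟨Or.inr rfl, by push Not; exact ⟨hza, hzp⟩⟩
            · simp [hza, hzp, hzq]
      rwa [h3] at h2

theorem Ach.even {e : I → Finset B} {J : Finset I} (he : ∀ i, (e i).card ≤ 3)
    {X : Finset B} (hJ : ∀ i ∈ J, e i ⊆ X)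
    (hc : ∀ Y : Finset B, (∃ a ∈ X, a ∈ Y) → (∃ b ∈ X, b ∉ Y) → ∃ i ∈ J, Crosses (e i) Y) :
    ∀ (n : ℕ) (D : Finset B), D ⊆ X → D.card = 2 * n → Ach e J D := by
  intro n
  induction n with
  | zero =>
    intro D _ hD
    have : D = ∅ := by rw [← card_eq_zero]; omega
    rw [this]; exact Ach.empty e J
  | succ n ih =>
    intro D hDX hD
    obtain ⟨a, ha⟩ : D.Nonempty := by rw [← card_pos]; omega
    obtain ⟨b, hb⟩ : (D.erase a).Nonempty := by
      rw [← card_pos, card_erase_of_mem ha]; omega
    have hab : a ≠ b := fun h => (mem_erase.1 hb).1 h.symm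
    have hbD : b ∈ D := mem_of_mem_erase hb
    have h1 := ih ((D.erase a).erase b)
      (((erase_subset _ _).trans (erase_subset _ _)).trans hDX)
      (by rw [card_erase_of_mem hb, card_erase_of_mem ha]; omega)
    have h2 := Ach.pair_of_conn he hJ hc (hDX ha) (hDX hbD) hab
    have h3 := h1.add he h2
    have h4 : symmDiff ((D.erase a).erase b) {a, b} = D := by
      ext z
      simp only [Finset.mem_symmDiff, mem_erase, mem_insert, mem_singleton]
      by_cases hza : z = a
      · subst hza; simp [ha]
      · by_cases hzb : z = b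
        · subst hzb; simp [hbD]
        · simp [hza, hzb]
    rwa [h4] at h3

/-- the map which contracts `X` to `x₀` -/
def pr (X : Finset B) (x₀ : B) (v : B) : B := if v ∈ X then x₀ else v

theorem pr_mem {X : Finset B} {x₀ v : B} (h : v ∈ X) : pr X x₀ v = x₀ := if_pos h

theorem pr_not_mem {X : Finset B} {x₀ v : B} (h : v ∉ X) : pr X x₀ v = v := if_neg h

theorem pr_idem {X : Finset B} {x₀ : B} (hx : x₀ ∈ X) (v : B) :
    pr X x₀ (pr X x₀ v) = pr X x₀ v := by
  by_cases h : v ∈ X
  · rw [pr_mem h, pr_mem hx]
  · rw [pr_not_mem h, pr_not_mem h]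

/-- the vertices of the contraction -/
abbrev Quo (X : Finset B) (x₀ : B) : Type := {v : B // pr X x₀ v = v}

/-- the contraction -/
def ct {X : Finset B} {x₀ : B} (hx : x₀ ∈ X) (v : B) : Quo X x₀ := ⟨pr X x₀ v, pr_idem hx v⟩

theorem ct_val {X : Finset B} {x₀ : B} (hx : x₀ ∈ X) (v : Quo X x₀) : ct hx v.1 = v :=
  Subtype.ext v.2

theorem ct_eq_iff {X : Finset B} {x₀ : B} (hx : x₀ ∈ X) {v w : B} :
    ct hx v = ct hx w ↔ pr X x₀ v = pr X x₀ w := by
  unfold ct
  rw [Subtype.mk.injEq]

theorem card_quo {X : Finset B} {x₀ : B} (hx : x₀ ∈ X) (h2 : 2 ≤ X.card) :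
    Fintype.card (Quo X x₀) < Fintype.card B := by
  obtain ⟨y, hy⟩ : (X.erase x₀).Nonempty := by
    rw [← card_pos, card_erase_of_mem hx]; omega
  rw [mem_erase] at hy
  apply Fintype.card_subtype_lt (x := y)
  rw [pr_mem hy.2]
  exact fun h => hy.1 h.symm

/-- the preimage of a set -/
def pre {X : Finset B} {x₀ : B} (hx : x₀ ∈ X) (Y : Finset (Quo X x₀)) : Finset B :=
  univ.filter fun v => ct hx v ∈ Y

theorem mem_pre {X : Finset B} {x₀ : B} (hx : x₀ ∈ X) {Y : Finset (Quo X x₀)} {v : B} :
    v ∈ pre hx Y ↔ ct hx v ∈ Y := by simp [pre]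

theorem crosses_image {X : Finset B} {x₀ : B} (hx : x₀ ∈ X) {s : Finset B}
    {Y : Finset (Quo X x₀)} : Crosses (s.image (ct hx)) Y ↔ Crosses s (pre hx Y) := by
  constructor
  · rintro ⟨⟨a, ha, haY⟩, b, hb, hbY⟩
    rw [mem_image] at ha hb
    obtain ⟨a, ha, rfl⟩ := ha
    obtain ⟨b, hb, rfl⟩ := hb
    exact ⟨⟨a, ha, (mem_pre hx).2 haY⟩, b, hb, fun h => hbY ((mem_pre hx).1 h)⟩
  · rintro ⟨⟨a, ha, haY⟩, b, hb, hbY⟩
    exact ⟨⟨_, mem_image_of_mem _ ha, (mem_pre hx).1 haY⟩, _, mem_image_of_mem _ hb,
      fun h => hbY ((mem_pre hx).2 h)⟩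

/-- lift of one pick -/
theorem exists_lift {X : Finset B} {x₀ : B} (hx : x₀ ∈ X) {s : Finset B}
    {p : Finset (Quo X x₀)} (hp : p ⊆ s.image (ct hx)) (hp2 : p = ∅ ∨ p.card = 2) :
    ∃ g : Finset B, g ⊆ s ∧ (g = ∅ ∨ g.card = 2) ∧ g.image (ct hx) = p ∧
      ∀ a ∈ g, ∀ b ∈ g, ct hx a = ct hx b → a = b := by
  rcases hp2 with rfl | hp2
  · exact ⟨∅, empty_subset _, Or.inl rfl, by simp, by simp⟩
  · obtain ⟨u, v, huv, rfl⟩ := card_eq_two.1 hp2
    have hu := hp (show u ∈ ({u, v} : Finset _) by simp)
    have hv := hp (show v ∈ ({u, v} : Finset _) by simp)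
    rw [mem_image] at hu hv
    obtain ⟨a, ha, rfl⟩ := hu
    obtain ⟨b, hb, rfl⟩ := hv
    have hab : a ≠ b := by rintro rfl; exact huv rfl
    refine ⟨{a, b}, ?_, Or.inr (card_pair hab), by simp [image_insert], ?_⟩
    · intro z hz
      simp only [mem_insert, mem_singleton] at hz
      rcases hz with rfl | rfl <;> assumption
    · intro y hy z hz hyz
      simp only [mem_insert, mem_singleton] at hy hz
      rcases hy with rfl | rfl <;> rcases hz with rfl | rfl
      · rfl
      · exact absurd hyz huv
      · exact absurd hyz.symm huv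
      · rfl

theorem even_iff_ind (f : I → Finset B) (K : B) :
    Even (univ.filter fun i => K ∈ f i).card ↔ ∑ i, ind (f i) K = 0 := by
  have h : (∑ i, ind (f i) K) = ((univ.filter fun i => K ∈ f i).card : ZMod 2) := by
    unfold ind
    rw [Finset.sum_ite]
    simp
  rw [h, ZMod.natCast_eq_zero_iff_even]

theorem ind_union {s t : Finset B} (h : Disjoint s t) (K : B) :
    ind (s ∪ t) K = ind s K + ind t K := by
  unfold ind
  rw [Finset.disjoint_left] at h
  by_cases h1 : K ∈ s
  · have h2 := h h1
    simp [h1, h2]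
  · by_cases h2 : K ∈ t <;> simp [h1, h2]

theorem sum_ind (s : Finset B) : ∑ K, ind s K = (s.card : ZMod 2) := by
  unfold ind
  rw [Finset.sum_ite_mem]
  simp

end Lift

theorem rowLift : RowLift := by
  intro B I _ _ e hsmall he hfour X f J1 J2 hX hdis hJ1 hJ2 hf hc1 hc2
  obtain ⟨x₀, hx⟩ : X.Nonempty := by rw [← card_pos]; omega
  -- the contraction
  set e' : I → Finset (Lift.Quo X x₀) := fun i => (e i).image (Lift.ct hx) with he'
  have hE : EvenConn univ e' := by
    apply hsmall _ _ e' (Lift.card_quo hx hX)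
    · intro i
      exact card_image_le.trans (he i)
    · intro Y _ hY hY'
      have h1 := hfour (Lift.pre hx Y) (subset_univ _) ?_ ?_
      · have h2 : (univ.filter fun i => Crosses (e i) (Lift.pre hx Y))
            = univ.filter fun i => Crosses (e' i) Y := by
          ext i
          simp only [mem_filter, mem_univ, true_and, he']
          exact (Lift.crosses_image hx).symm
        rwa [h2] at h1
      · obtain ⟨y, hy⟩ := hY
        exact ⟨y.1, by rw [Lift.mem_pre, Lift.ct_val]; exact hy⟩
      · intro h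
        apply hY'
        ext y
        simp only [mem_univ, iff_true]
        have : y.1 ∈ Lift.pre hx Y := by rw [h]; exact mem_univ _
        rwa [Lift.mem_pre, Lift.ct_val] at this
  obtain ⟨f', hf', hev', hcon'⟩ := hE
  choose g hg1 hg2 hg3 hg4 using fun i => Lift.exists_lift hx (hf' i).1 (hf' i).2
  -- the picks in `X` are empty
  have hgX : ∀ i, e i ⊆ X → g i = ∅ := by
    intro i hi
    rcases hg2 i with h | h
    · exact h
    · exfalso
      obtain ⟨u, v, huv, hs⟩ := card_eq_two.1 h
      apply huv
      apply hg4 i u (by rw [hs]; simp) v (by rw [hs]; simp)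
      rw [Lift.ct_eq_iff, Lift.pr_mem (hi (hg1 i (by rw [hs]; simp))),
        Lift.pr_mem (hi (hg1 i (by rw [hs]; simp)))]
  -- without the second family
  set w : I → Finset B := fun i => if i ∈ J1 then f i else g i with hw
  have hwp : ∀ i, w i ⊆ e i ∧ (w i = ∅ ∨ (w i).card = 2) := by
    intro i
    simp only [hw]
    split
    · exact hf i
    · exact ⟨hg1 i, hg2 i⟩
  have hwout : ∀ K, K ∉ X → ∑ i, ind (w i) K = 0 := by
    intro K hK
    have h1 := (Lift.even_iff_ind f' (Lift.ct hx K)).1 (hev' _)
    rw [← h1]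
    apply Finset.sum_congr rfl
    intro i _
    by_cases hi : i ∈ J1
    · have h2 : w i = f i := if_pos hi
      have h3 : K ∉ f i := fun h => hK (hJ1 i hi ((hf i).1 h))
      have h4 : f' i = ∅ := by
        rw [← hg3 i, hgX i (hJ1 i hi), image_empty]
      rw [h2, h4]
      simp [ind, h3]
    · have h2 : w i = g i := if_neg hi
      rw [h2]
      have h3 : K ∈ g i ↔ Lift.ct hx K ∈ f' i := by
        rw [← hg3 i, mem_image]
        constructor
        · intro h; exact ⟨K, h, rfl⟩
        · rintro ⟨a, ha, haK⟩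
          rw [Lift.ct_eq_iff, Lift.pr_not_mem hK] at haK
          by_cases haX : a ∈ X
          · rw [Lift.pr_mem haX] at haK
            exact absurd (haK ▸ hx) hK
          · rw [Lift.pr_not_mem haX] at haK
            exact haK ▸ ha
      unfold ind
      by_cases h5 : Lift.ct hx K ∈ f' i
      · rw [if_pos h5, if_pos (h3.2 h5)]
      · rw [if_neg h5, if_neg fun h => h5 (h3.1 h)]
  set D : Finset B := univ.filter fun K => ∑ i, ind (w i) K ≠ 0 with hD
  have hDX : D ⊆ X := by
    intro K hK
    by_contra hKX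
    simp only [hD, mem_filter, mem_univ, true_and] at hK
    exact hK (hwout K hKX)
  have hind : ∀ K, ∑ i, ind (w i) K = ind D K := by
    intro K
    unfold ind
    by_cases hK : K ∈ D
    · rw [if_pos hK]
      simp only [hD, mem_filter, mem_univ, true_and] at hK
      have h2 : ∀ x : ZMod 2, x ≠ 0 → x = 1 := by decide
      exact h2 _ hK
    · rw [if_neg hK]
      simp only [hD, mem_filter, mem_univ, true_and, not_not] at hK
      exact hK
  have hDeven : Even D.card := by
    rw [← ZMod.natCast_eq_zero_iff_even, ← Lift.sum_ind D,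
      ← Finset.sum_congr rfl fun K _ => hind K, Finset.sum_comm]
    apply Finset.sum_eq_zero
    intro i _
    rw [Lift.sum_ind]
    rcases (hwp i).2 with h | h
    · rw [h]; simp
    · rw [h]; decide
  obtain ⟨n, hn⟩ := hDeven
  obtain ⟨c, hc, hcJ, hcD⟩ := Lift.Ach.even (J := J2) he hJ2 hc2 n D hDX (by omega)
  refine ⟨fun i => if i ∈ J2 then c i else w i, ?_, ?_, ?_⟩
  · intro i
    dsimp only
    split
    · exact hc i
    · exact hwp i
  · intro K
    rw [Lift.even_iff_ind]
    have h1 : ∀ i, ind (if i ∈ J2 then c i else w i) K = ind (c i) K + ind (w i) K := by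
      intro i
      by_cases hi : i ∈ J2
      · rw [if_pos hi]
        have h2 : i ∉ J1 := fun h => (Finset.disjoint_left.1 hdis h) hi
        have h3 : w i = ∅ := by
          rw [hw]; dsimp only
          rw [if_neg h2, hgX i (hJ2 i hi)]
        rw [h3]
        simp [ind]
      · rw [if_neg hi, hcJ i hi]
        simp [ind]
    rw [Finset.sum_congr rfl fun i _ => h1 i, Finset.sum_add_distrib, hcD, hind]
    exact CharTwo.add_self_eq_zero _
  · intro Y _ hY hY'
    by_cases hs : (∃ a ∈ X, a ∈ Y) ∧ ∃ b ∈ X, b ∉ Y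
    · obtain ⟨i, hi, hcr⟩ := hc1 Y hs.1 hs.2
      refine ⟨i, ?_⟩
      have h2 : i ∉ J2 := Finset.disjoint_left.1 hdis hi
      dsimp only
      rw [if_neg h2, hw]
      dsimp only
      rw [if_pos hi]
      exact hcr
    · have hsat : ∀ a ∈ X, ∀ b ∈ X, a ∈ Y → b ∈ Y := by
        intro a ha b hb haY
        by_contra hbY
        exact hs ⟨⟨a, ha, haY⟩, b, hb, hbY⟩
      set Y' : Finset (Lift.Quo X x₀) := univ.filter fun y => y.1 ∈ Y with hYd
      have hpre : Lift.pre hx Y' = Y := by
        ext v
        rw [Lift.mem_pre]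
        simp only [hYd, mem_filter, mem_univ, true_and]
        change Lift.pr X x₀ v ∈ Y ↔ v ∈ Y
        by_cases hv : v ∈ X
        · rw [Lift.pr_mem hv]
          exact ⟨hsat _ hx _ hv, hsat _ hv _ hx⟩
        · rw [Lift.pr_not_mem hv]
      obtain ⟨i, hi⟩ := hcon' Y' (subset_univ _) (by
        rw [nonempty_iff_ne_empty]
        intro h
        rw [h] at hpre
        obtain ⟨y, hy⟩ := hY
        rw [← hpre, Lift.mem_pre] at hy
        simp at hy) (by
        intro h
        rw [h] at hpre
        apply hY'
        rw [← hpre]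
        ext v
        simp [Lift.mem_pre])
      have hgi : Crosses (g i) Y := by
        rw [← hg3 i, Lift.crosses_image, hpre] at hi
        exact hi
      refine ⟨i, ?_⟩
      have hgne : g i ≠ ∅ := by
        intro h
        obtain ⟨⟨a, ha, -⟩, -⟩ := hgi
        rw [h] at ha
        simp at ha
      have h1 : i ∉ J1 := fun h => hgne (hgX i (hJ1 i h))
      have h2 : i ∉ J2 := fun h => hgne (hgX i (hJ2 i h))
      dsimp only
      rw [if_neg h2, hw]
      dsimp only
      rw [if_neg h1]
      exact hgi

end Pool.Agent.ClawHam.TK
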