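import Pool.Agent.Lib.MP_e2dbb5_co.TK1

/-!
# The token game (helper69): the count in the quotient (helper58), typed by helper21
-/

set_option autoImplicit false

open Finset

noncomputable section

namespace Pool.Agent.ClawHam.TK

open Classical

/-- weight of a hyperedge which meets `j` classes -/
def wq (j : ℕ) : ℕ := if j ≤ 1 then 0 else j

/-- COUNT in the quotient of `R` by the classes of `c`, all spanned by hyperedges inside them -/
def RowQuot : Prop :=
  ∀ (B I : Type) [Fintype B] [Fintype I] (e f : I → Finset B) (J : Finset I) (R : Finset B)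
    (c : B → B), (∀ i, (e i).card ≤ 3) → FourConn univ e → Pick e f → Tree f J → R ≠ univ →
    (∀ i, i ∉ J → (∃ a ∈ e i, a ∈ R) → e i ⊆ R) →
    (∀ a ∈ R, ∀ Y : Finset B, (∃ u ∈ R, c u = c a ∧ u ∈ Y) → (∃ u ∈ R, c u = c a ∧ u ∉ Y) →
      ∃ i ∈ J, (∀ v ∈ e i, v ∈ R ∧ c v = c a) ∧ Crosses (f i) Y) →
    del f J R + 2 * inn f J R + 1 ≤ 2 * R.card →
    2 * (R.image c).card + 1 ≤
      (∑ i ∈ univ.filter (fun i => i ∉ J ∧ e i ⊆ R), wq ((e i).image c).card) +
      (J.filter fun i => ∃ z ∈ e i, z ∉ f i ∧ z ∈ R ∧ ∀ x ∈ f i, x ∈ R → c x ≠ c z).card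

namespace QuotC

set_option linter.unusedSectionVars false
set_option linter.unusedVariables false

variable {B I : Type} [Fintype B] [Fintype I]

/-- growth inside a set -/
theorem grow_in {f : I → Finset B} {J : Finset I} {X : Finset B}
    (h2 : ∀ i ∈ J, (f i).card = 2) (hX : ∀ i ∈ J, f i ⊆ X)
    (hc : ∀ Y : Finset B, (∃ u ∈ X, u ∈ Y) → (∃ u ∈ X, u ∉ Y) → ∃ i ∈ J, Crosses (f i) Y) :
    ∀ (n : ℕ) (S : Finset B), S.Nonempty → S ⊆ X → (X \ S).card = n →
      (X \ S).card ≤ (J.filter fun i => ¬ f i ⊆ S).card := by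
  intro n
  induction n with
  | zero => intro S _ _ hn; omega
  | succ n ih =>
    intro S hS hSX hn
    obtain ⟨u, hu⟩ : (X \ S).Nonempty := by rw [← card_pos]; omega
    rw [mem_sdiff] at hu
    obtain ⟨s, hs⟩ := hS
    obtain ⟨i, hi, hcr⟩ := hc S ⟨s, hSX hs, hs⟩ ⟨u, hu.1, hu.2⟩
    obtain ⟨x, y, hx, hy, hxy, hss⟩ := pair_crosses (h2 i hi) hcr
    have hyX : y ∈ X := hX i hi (by rw [hss]; simp)
    have h1 : (X \ insert y S).card = n := by
      have h3 : (X \ S) = insert y (X \ insert y S) := by
        ext z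
        simp only [mem_sdiff, mem_insert]
        by_cases hz : z = y
        · subst hz; simp [hy, hyX]
        · simp [hz]
      rw [h3, Finset.card_insert_of_notMem (by simp)] at hn
      omega
    have h4 := ih (insert y S) (by simp) (insert_subset hyX hSX) h1
    have h5 : (J.filter fun i => ¬ f i ⊆ insert y S).card
        < (J.filter fun i => ¬ f i ⊆ S).card := by
      apply Finset.card_lt_card
      rw [Finset.ssubset_iff_of_subset]
      · refine ⟨i, ?_, ?_⟩
        · simp only [mem_filter]
          refine ⟨hi, fun h => hy (h ?_)⟩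
          rw [hss]; simp
        · simp only [mem_filter, not_and, not_not]
          intro _
          rw [hss]
          intro z hz
          simp only [mem_insert, mem_singleton] at hz ⊢
          rcases hz with rfl | rfl
          · exact Or.inr hx
          · exact Or.inl rfl
      · intro j hj
        simp only [mem_filter] at hj ⊢
        exact ⟨hj.1, fun h => hj.2 (h.trans (Finset.subset_insert _ _))⟩
    omega

theorem card_le_in {f : I → Finset B} {J : Finset I} {X : Finset B} (hne : X.Nonempty)
    (h2 : ∀ i ∈ J, (f i).card = 2) (hX : ∀ i ∈ J, f i ⊆ X)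
    (hc : ∀ Y : Finset B, (∃ u ∈ X, u ∈ Y) → (∃ u ∈ X, u ∉ Y) → ∃ i ∈ J, Crosses (f i) Y) :
    X.card ≤ J.card + 1 := by
  obtain ⟨x, hx⟩ := hne
  have h1 := grow_in h2 hX hc _ {x} (by simp) (by simpa using hx) rfl
  have h3 := card_filter_le J (fun i => ¬ f i ⊆ {x})
  have h4 := card_sdiff_add_card_eq_card (show ({x} : Finset B) ⊆ X by simpa using hx)
  rw [card_singleton] at h4
  omega

end QuotC

open QuotC in
theorem rowQuot : RowQuot := by
  intro B I _ _ e f J R c he hfour hpick htree hR hfree hsolid hbound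
  -- the classes
  set X : B → Finset B := fun k => R.filter fun v => c v = k with hXd
  have hmX : ∀ k v, v ∈ X k ↔ v ∈ R ∧ c v = k := by
    intro k v; simp [hXd]
  set Q : Finset B := R.image c with hQ
  have hXne : ∀ k ∈ Q, (X k).Nonempty := by
    intro k hk
    rw [hQ, mem_image] at hk
    obtain ⟨a, ha, rfl⟩ := hk
    exact ⟨a, (hmX _ _).2 ⟨ha, rfl⟩⟩
  have hXR : ∀ k, X k ⊆ R := fun k => filter_subset _ _
  -- the hyperedges inside a class
  have hJk : ∀ k ∈ Q, (X k).card ≤ (J.filter fun i => e i ⊆ X k).card + 1 := by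
    intro k hk
    apply card_le_in (hXne k hk) (f := f)
    · intro i hi
      exact htree.two i (mem_filter.1 hi).1
    · intro i hi
      exact (hpick i).1.trans (mem_filter.1 hi).2
    · intro Y h1 h2
      rw [hQ, mem_image] at hk
      obtain ⟨a, ha, rfl⟩ := hk
      obtain ⟨u, hu, huY⟩ := h1
      obtain ⟨v, hv, hvY⟩ := h2
      rw [hmX] at hu hv
      obtain ⟨i, hi, hin, hcr⟩ := hsolid a ha Y ⟨u, hu.1, hu.2, huY⟩ ⟨v, hv.1, hv.2, hvY⟩
      refine ⟨i, mem_filter.2 ⟨hi, ?_⟩, hcr⟩
      intro w hw
      exact (hmX _ _).2 (hin w hw)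
  have hfk : ∀ k ∈ Q, (J.filter fun i => f i ⊆ X k).card + 1 ≤ (X k).card := fun k hk =>
    htree.inside (X k) (hXne k hk)
  have hsub : ∀ k, (J.filter fun i => e i ⊆ X k) ⊆ (J.filter fun i => f i ⊆ X k) := by
    intro k i hi
    rw [mem_filter] at hi ⊢
    exact ⟨hi.1, (hpick i).1.trans hi.2⟩
  have heq : ∀ k ∈ Q, (J.filter fun i => e i ⊆ X k) = (J.filter fun i => f i ⊆ X k) := by
    intro k hk
    apply eq_of_subset_of_card_le (hsub k)
    have h1 := hJk k hk
    have h2 := hfk k hk
    omega
  have hfe : ∀ k ∈ Q, ∀ i ∈ J, f i ⊆ X k → e i ⊆ X k := by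
    intro k hk i hi hfi
    have : i ∈ J.filter fun i => e i ⊆ X k := by
      rw [heq k hk]; exact mem_filter.2 ⟨hi, hfi⟩
    exact (mem_filter.1 this).2
  -- the number of picks inside classes
  set bb : Finset I := J.filter fun i => ∃ k ∈ Q, f i ⊆ X k with hbb
  have hbbU : bb = Q.biUnion fun k => J.filter fun i => f i ⊆ X k := by
    ext i
    simp only [hbb, mem_filter, mem_biUnion]
    constructor
    · rintro ⟨hi, k, hk, hik⟩; exact ⟨k, hk, hi, hik⟩
    · rintro ⟨k, hk, hi, hik⟩; exact ⟨hi, k, hk, hik⟩
  have hfne : ∀ i ∈ J, (f i).Nonempty := by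
    intro i hi
    rw [← card_pos, htree.two i hi]; norm_num
  have hbbc : bb.card = ∑ k ∈ Q, (J.filter fun i => f i ⊆ X k).card := by
    rw [hbbU, card_biUnion]
    intro k _ l _ hkl
    rw [Function.onFun, disjoint_left]
    intro i hi hi'
    rw [mem_filter] at hi hi'
    obtain ⟨v, hv⟩ := hfne i hi.1
    exact hkl (((hmX _ _).1 (hi.2 hv)).2.symm.trans ((hmX _ _).1 (hi'.2 hv)).2)
  have hRc : R.card = ∑ k ∈ Q, (X k).card := by
    rw [hQ, card_eq_sum_card_image c R]
  have hbbR : R.card ≤ bb.card + Q.card := by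
    rw [hRc, hbbc, card_eq_sum_ones Q, ← sum_add_distrib]
    apply sum_le_sum
    intro k hk
    have h1 := hJk k hk
    rw [heq k hk] at h1
    exact h1
  -- the picks inside `R`
  set aa : Finset I := J.filter fun i => f i ⊆ R ∧ ¬ ∃ k ∈ Q, f i ⊆ X k with haa
  have hinn : inn f J R = aa.card + bb.card := by
    unfold inn
    rw [← card_union_of_disjoint]
    · congr 1
      ext i
      simp only [haa, hbb, mem_union, mem_filter]
      constructor
      · rintro ⟨hi, hiR⟩
        by_cases h : ∃ k ∈ Q, f i ⊆ X k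
        · exact Or.inr ⟨hi, h⟩
        · exact Or.inl ⟨hi, hiR, h⟩
      · rintro (⟨hi, hiR, -⟩ | ⟨hi, k, hk, hik⟩)
        · exact ⟨hi, hiR⟩
        · exact ⟨hi, hik.trans (hXR k)⟩
    · rw [disjoint_left]
      intro i hi hi'
      simp only [haa, hbb, mem_filter] at hi hi'
      exact hi.2.2 hi'.2
  -- the crossed classes of a hyperedge
  set K : I → Finset B := fun i => Q.filter fun k => Crosses (e i) (X k) with hK
  have hsum : ∑ k ∈ Q, (univ.filter fun i => Crosses (e i) (X k)).card = ∑ i, (K i).card := by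
    simp only [hK, card_filter]
    rw [sum_comm]
  have hdeg : 4 * Q.card ≤ ∑ i, (K i).card := by
    rw [← hsum, card_eq_sum_ones, mul_sum]
    apply sum_le_sum
    intro k hk
    have h1 := hfour (X k) (subset_univ _) (hXne k hk) (by
      intro h
      apply hR
      apply Subset.antisymm (subset_univ _)
      rw [← h]; exact hXR k)
    omega
  -- free hyperedges
  have hKmem : ∀ i k, k ∈ K i → ∃ a ∈ e i, a ∈ R ∧ c a = k := by
    intro i k hk
    simp only [hK, mem_filter] at hk
    obtain ⟨⟨a, ha, haX⟩, -⟩ := hk.2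
    exact ⟨a, ha, (hmX _ _).1 haX⟩
  have hKfree : ∀ i, i ∉ J →
      (K i).card ≤ if e i ⊆ R then wq ((e i).image c).card else 0 := by
    intro i hi
    by_cases hiR : e i ⊆ R
    · rw [if_pos hiR]
      unfold wq
      have h1 : K i ⊆ (e i).image c := by
        intro k hk
        obtain ⟨a, ha, -, hak⟩ := hKmem i k hk
        exact mem_image.2 ⟨a, ha, hak⟩
      split
      · rename_i h2
        rw [Nat.le_zero, card_eq_zero, eq_empty_iff_forall_notMem]
        intro k hk
        have hk' := hk
        simp only [hK, mem_filter] at hk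
        obtain ⟨-, ⟨a, ha, haX⟩, b, hb, hbX⟩ := hk
        apply hbX
        rw [hmX] at haX ⊢
        refine ⟨hiR hb, ?_⟩
        rw [card_le_one] at h2
        rw [h2 _ (mem_image_of_mem c hb) _ (mem_image_of_mem c ha)]
        exact haX.2
      · exact card_le_card h1
    · rw [if_neg hiR, Nat.le_zero, card_eq_zero, eq_empty_iff_forall_notMem]
      intro k hk
      obtain ⟨a, ha, haR, -⟩ := hKmem i k hk
      exact hiR (hfree i hi ⟨a, ha, haR⟩)
  -- hyperedges of the tree
  set th : I → Prop := fun i => ∃ z ∈ e i, z ∉ f i ∧ z ∈ R ∧ ∀ x ∈ f i, x ∈ R → c x ≠ c z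
    with hth
  have hKJ : ∀ i ∈ J, (K i).card ≤ 2 * (if f i ⊆ R ∧ ¬ ∃ k ∈ Q, f i ⊆ X k then 1 else 0) +
      (if Crosses (f i) R then 1 else 0) + (if th i then 1 else 0) := by
    intro i hi
    by_cases hin : ∃ k ∈ Q, f i ⊆ X k
    · have h0 : K i = ∅ := by
        obtain ⟨k, hk, hik⟩ := hin
        have h1 := hfe k hk i hi hik
        rw [eq_empty_iff_forall_notMem]
        intro l hl
        simp only [hK, mem_filter] at hl
        obtain ⟨-, ⟨a, ha, haX⟩, b, hb, hbX⟩ := hl
        rw [hmX] at haX
        have h2 := (hmX _ _).1 (h1 ha)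
        have h3 := (hmX _ _).1 (h1 hb)
        apply hbX
        rw [hmX]
        exact ⟨h3.1, h3.2.trans (h2.2.symm.trans haX.2)⟩
      rw [h0]
      simp
    · -- classes met by the pick
      have hA : ((f i ∩ R).image c).card ≤
          2 * (if f i ⊆ R ∧ ¬ ∃ k ∈ Q, f i ⊆ X k then 1 else 0) +
            (if Crosses (f i) R then 1 else 0) := by
        have h1 : ((f i ∩ R).image c).card ≤ (f i ∩ R).card := card_image_le
        by_cases h2 : f i ⊆ R
        · rw [if_pos ⟨h2, hin⟩]
          have h3 : (f i ∩ R).card ≤ 2 := by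
            rw [← htree.two i hi]
            exact card_le_card inter_subset_left
          omega
        · rw [if_neg fun h => h2 h.1]
          by_cases h3 : Crosses (f i) R
          · rw [if_pos h3]
            have h4 : (f i ∩ R).card < (f i).card := by
              apply card_lt_card
              rw [ssubset_iff_of_subset inter_subset_left]
              obtain ⟨-, b, hb, hbR⟩ := h3
              exact ⟨b, hb, fun h => hbR (mem_inter.1 h).2⟩
            have h5 := htree.two i hi
            omega
          · rw [if_neg h3]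
            have h4 : f i ∩ R = ∅ := by
              rw [eq_empty_iff_forall_notMem]
              intro a ha
              rw [mem_inter] at ha
              apply h3
              rw [not_subset] at h2
              obtain ⟨b, hb, hbR⟩ := h2
              exact ⟨⟨a, ha.1, ha.2⟩, b, hb, hbR⟩
            rw [h4]
            simp
      by_cases ht : th i
      · rw [if_pos ht]
        have h1 : K i ⊆ (f i ∩ R).image c ∪ (e i \ f i).image c := by
          intro k hk
          obtain ⟨a, ha, haR, hak⟩ := hKmem i k hk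
          rw [mem_union, mem_image, mem_image]
          by_cases h : a ∈ f i
          · exact Or.inl ⟨a, mem_inter.2 ⟨h, haR⟩, hak⟩
          · exact Or.inr ⟨a, mem_sdiff.2 ⟨ha, h⟩, hak⟩
        have h2 : ((e i \ f i).image c).card ≤ 1 := by
          refine card_image_le.trans ?_
          have h3 := card_sdiff_add_card_eq_card (hpick i).1
          have h4 := htree.two i hi
          have h5 := he i
          omega
        have h3 := card_le_card h1
        have h4 := card_union_le ((f i ∩ R).image c) ((e i \ f i).image c)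
        omega
      · rw [if_neg ht]
        have h1 : K i ⊆ (f i ∩ R).image c := by
          intro k hk
          obtain ⟨a, ha, haR, hak⟩ := hKmem i k hk
          rw [mem_image]
          by_cases h : a ∈ f i
          · exact ⟨a, mem_inter.2 ⟨h, haR⟩, hak⟩
          · by_contra hcon
            apply ht
            refine ⟨a, ha, h, haR, ?_⟩
            intro x hx hxR hxa
            exact hcon ⟨x, mem_inter.2 ⟨hx, hxR⟩, hxa.trans hak⟩
        have h3 := card_le_card h1
        omega
  -- the sum
  have hS1 : ∑ i, (K i).card = ∑ i ∈ univ.filter (fun i => i ∉ J), (K i).card +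
      ∑ i ∈ J, (K i).card := by
    have h1 := sum_filter_add_sum_filter_not univ (fun i => i ∉ J) fun i => (K i).card
    rw [← h1]
    congr 1
    apply sum_congr _ fun _ _ => rfl
    ext i
    simp
  have hS2 : ∑ i ∈ univ.filter (fun i => i ∉ J), (K i).card ≤
      ∑ i ∈ univ.filter (fun i => i ∉ J ∧ e i ⊆ R), wq ((e i).image c).card := by
    calc ∑ i ∈ univ.filter (fun i => i ∉ J), (K i).card
        ≤ ∑ i ∈ univ.filter (fun i => i ∉ J),
            (if e i ⊆ R then wq ((e i).image c).card else 0) := by
          apply sum_le_sum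
          intro i hi
          exact hKfree i (by simpa using hi)
      _ = ∑ i ∈ univ.filter (fun i => i ∉ J ∧ e i ⊆ R), wq ((e i).image c).card := by
          rw [← sum_filter, filter_filter]
  have hS3 : ∑ i ∈ J, (K i).card ≤ 2 * aa.card + del f J R + (J.filter th).card := by
    calc ∑ i ∈ J, (K i).card
        ≤ ∑ i ∈ J, (2 * (if f i ⊆ R ∧ ¬ ∃ k ∈ Q, f i ⊆ X k then 1 else 0) +
            (if Crosses (f i) R then 1 else 0) + (if th i then 1 else 0)) := sum_le_sum hKJ
      _ = 2 * aa.card + del f J R + (J.filter th).card := by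
          rw [sum_add_distrib, sum_add_distrib, ← mul_sum, ← card_filter, ← card_filter,
            ← card_filter]
          rfl
  have hfin : 2 * Q.card + 1 ≤
      (∑ i ∈ univ.filter (fun i => i ∉ J ∧ e i ⊆ R), wq ((e i).image c).card) +
      (J.filter th).card := by omega
  exact hfin

end Pool.Agent.ClawHam.TK
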