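import Pool.Agent.Lib.MP_e2dbb5_co.TK1

/-!
# The token game: the start (row RowStart)
-/

set_option autoImplicit false

open Finset

noncomputable section

namespace Pool.Agent.ClawHam.TK

open Classical

namespace Start

set_option linter.unusedSectionVars false

variable {B I : Type} [Fintype B] [Fintype I]

theorem ind_pair {x y : B} (h : x ≠ y) (K : B) :
    ind ({x, y} : Finset B) K = ind {x} K + ind {y} K := by
  unfold ind
  by_cases h1 : K = x
  · subst h1
    simp [h]
  · by_cases h2 : K = y
    · subst h2
      simp [h1]
    · simp [h1, h2]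

theorem ind_symm (s t : Finset B) (K : B) : ind (symmDiff s t) K = ind s K + ind t K := by
  unfold ind
  by_cases h1 : K ∈ s <;> by_cases h2 : K ∈ t <;> simp [Finset.mem_symmDiff, h1, h2]
  decide

theorem sum_ind_single (X : Finset B) (x : B) :
    ∑ K ∈ X, ind ({x} : Finset B) K = if x ∈ X then 1 else 0 := by
  unfold ind
  simp only [mem_singleton]
  rw [Finset.sum_ite_eq']

theorem sum_ind (s X : Finset B) (hs : s = ∅ ∨ s.card = 2) :
    ∑ K ∈ X, ind s K = if Crosses s X then 1 else 0 := by
  rcases hs with rfl | hs
  · have h1 : ¬ Crosses (∅ : Finset B) X := by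
      rintro ⟨⟨a, ha, -⟩, -⟩
      simp at ha
    rw [if_neg h1]
    unfold ind
    simp
  · obtain ⟨x, y, hxy, rfl⟩ := card_eq_two.1 hs
    have h1 : ∑ K ∈ X, ind ({x, y} : Finset B) K
        = (if x ∈ X then 1 else 0) + if y ∈ X then 1 else 0 := by
      rw [← sum_ind_single, ← sum_ind_single, ← sum_add_distrib]
      exact sum_congr rfl fun K _ => ind_pair hxy K
    rw [h1]
    by_cases hx : x ∈ X <;> by_cases hy : y ∈ X
    · have h2 : ¬ Crosses ({x, y} : Finset B) X := by
        rintro ⟨-, b, hb, hbX⟩
        simp only [mem_insert, mem_singleton] at hb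
        rcases hb with rfl | rfl
        · exact hbX hx
        · exact hbX hy
      rw [if_pos hx, if_pos hy, if_neg h2]
      decide
    · have h2 : Crosses ({x, y} : Finset B) X := ⟨⟨x, by simp, hx⟩, y, by simp, hy⟩
      rw [if_pos hx, if_neg hy, if_pos h2]
      decide
    · have h2 : Crosses ({x, y} : Finset B) X := ⟨⟨y, by simp, hy⟩, x, by simp, hx⟩
      rw [if_neg hx, if_pos hy, if_pos h2]
      decide
    · have h2 : ¬ Crosses ({x, y} : Finset B) X := by
        rintro ⟨⟨b, hb, hbX⟩, -⟩
        simp only [mem_insert, mem_singleton] at hb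
        rcases hb with rfl | rfl
        · exact hx hbX
        · exact hy hbX
      rw [if_neg hx, if_neg hy, if_neg h2]
      decide

theorem sum_update (f : I → Finset B) (i0 : I) (s : Finset B) (K : B) :
    ∑ i, ind (Function.update f i0 (symmDiff (f i0) s) i) K = ∑ i, ind (f i) K + ind s K := by
  rw [← Finset.add_sum_erase univ _ (mem_univ i0), ← Finset.add_sum_erase univ
    (fun i => ind (f i) K) (mem_univ i0)]
  have h1 : ∑ i ∈ univ.erase i0, ind (Function.update f i0 (symmDiff (f i0) s) i) K
      = ∑ i ∈ univ.erase i0, ind (f i) K := by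
    apply sum_congr rfl
    intro i hi
    rw [mem_erase] at hi
    rw [Function.update_of_ne hi.1]
  rw [h1, Function.update_self, ind_symm]
  ring

/-- the number of crossing picks is the parity of the set -/
theorem sum_cross (f : I → Finset B) (hf : ∀ i, f i = ∅ ∨ (f i).card = 2) (X : Finset B) :
    ∑ K ∈ X, ∑ i, ind (f i) K = ∑ i, if Crosses (f i) X then (1 : ZMod 2) else 0 := by
  rw [sum_comm]
  exact sum_congr rfl fun i _ => sum_ind (f i) X (hf i)

theorem even_ind (f : I → Finset B) (K : B) (h : Even (univ.filter fun i => K ∈ f i).card) :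
    ∑ i, ind (f i) K = 0 := by
  unfold ind
  rw [Finset.sum_boole]
  exact (ZMod.natCast_eq_zero_iff_even).2 h

end Start

open Start in
theorem rowStart : RowStart := by
  intro B I _ _ e hS h3 hF hE
  -- two vertices
  have hnt : ∃ u0 v0 : B, u0 ≠ v0 := by
    by_contra hcon
    push Not at hcon
    apply hE
    refine ⟨fun _ => ∅, fun i => ⟨by simp, Or.inl rfl⟩, fun K => by simp, ?_⟩
    intro X _ hX hX'
    exfalso
    obtain ⟨a, ha⟩ := hX
    apply hX'
    apply Finset.eq_univ_iff_forall.2
    intro b
    rw [← hcon a b]; exact ha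
  obtain ⟨u0, v0, huv0⟩ := hnt
  have hne0 : ({u0} : Finset B) ≠ univ := by
    intro h
    have hx : v0 ∈ ({u0} : Finset B) := h ▸ mem_univ v0
    rw [mem_singleton] at hx
    exact huv0 hx.symm
  have h4 := hF {u0} (subset_univ _) (by simp) hne0
  obtain ⟨i0, hi0⟩ : (univ.filter fun i => Crosses (e i) {u0}).Nonempty := by
    rw [← card_pos]; omega
  simp only [mem_filter, mem_univ, true_and] at hi0
  obtain ⟨⟨u, hu, huX⟩, v, hv, hvX⟩ := hi0
  have huv : u ≠ v := by rintro rfl; exact hvX huX
  clear huX hvX h4
  -- the contraction
  let π : B → {x : B // x ≠ v} := fun x => if h : x = v then ⟨u, huv⟩ else ⟨x, h⟩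
  have hπv : π v = ⟨u, huv⟩ := by simp [π]
  have hπ : ∀ x (h : x ≠ v), π x = ⟨x, h⟩ := by
    intro x h
    simp [π, h]
  let e' : I → Finset {x : B // x ≠ v} := fun i => (e i).image π
  have hF' : FourConn univ e' := by
    intro X' _ hX' hX'2
    let X : Finset B := univ.filter fun x => π x ∈ X'
    have hX : X.Nonempty := by
      obtain ⟨y, hy⟩ := hX'
      refine ⟨y.1, ?_⟩
      simp only [X, mem_filter, mem_univ, true_and]
      rw [hπ y.1 y.2]; exact hy
    have hX2 : X ≠ univ := by
      intro h
      apply hX'2
      apply Finset.eq_univ_iff_forall.2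
      intro y
      have h5 : y.1 ∈ X := h ▸ mem_univ _
      simp only [X, mem_filter, mem_univ, true_and] at h5
      rwa [hπ y.1 y.2] at h5
    refine le_trans (hF X (subset_univ _) hX hX2) (card_le_card ?_)
    intro i hi
    simp only [mem_filter, mem_univ, true_and] at hi ⊢
    obtain ⟨⟨a, ha, haX⟩, b, hb, hbX⟩ := hi
    simp only [X, mem_filter, mem_univ, true_and] at haX hbX
    exact ⟨⟨π a, mem_image_of_mem _ ha, haX⟩, π b, mem_image_of_mem _ hb, hbX⟩
  have hcard' : ∀ i, (e' i).card ≤ 3 := fun i => le_trans card_image_le (h3 i)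
  obtain ⟨f', hf', hev', hcr'⟩ := hS {x : B // x ≠ v} I e'
    (Fintype.card_subtype_lt (x := v) (by simp)) hcard' hF'
  -- the lift
  have hlift : ∀ i, ∃ s : Finset B, s ⊆ e i ∧ (s = ∅ ∨ s.card = 2) ∧ s.image π = f' i := by
    intro i
    rcases (hf' i).2 with h | h
    · exact ⟨∅, by simp, Or.inl rfl, by simp [h]⟩
    · obtain ⟨a, b, hab, hfi⟩ := card_eq_two.1 h
      have ha : a ∈ e' i := (hf' i).1 (by rw [hfi]; simp)
      have hb : b ∈ e' i := (hf' i).1 (by rw [hfi]; simp)
      obtain ⟨a1, ha1, rfl⟩ := mem_image.1 ha
      obtain ⟨b1, hb1, rfl⟩ := mem_image.1 hb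
      refine ⟨{a1, b1}, ?_, Or.inr ?_, ?_⟩
      · intro z hz
        simp only [mem_insert, mem_singleton] at hz
        rcases hz with rfl | rfl <;> assumption
      · apply card_pair
        rintro rfl
        exact hab rfl
      · rw [hfi, image_insert, image_singleton]
  choose f hfe hf2 hfπ using hlift
  have hpick : Pick e f := fun i => ⟨hfe i, hf2 i⟩
  have hnot : ∀ i, ¬ (u ∈ f i ∧ v ∈ f i) := by
    rintro i ⟨h1, h2⟩
    have h5 : f i = {u, v} := by
      rcases hf2 i with h | h
      · rw [h] at h1; simp at h1
      · symm
        apply Finset.eq_of_subset_of_card_le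
        · intro z hz
          simp only [mem_insert, mem_singleton] at hz
          rcases hz with rfl | rfl <;> assumption
        · rw [card_pair huv, h]
    have h6 : f' i = {⟨u, huv⟩} := by
      rw [← hfπ i, h5, image_insert, image_singleton, hπv, hπ u huv]
      simp
    rcases (hf' i).2 with h | h
    · rw [h6] at h; simp at h
    · rw [h6] at h; simp at h
  have hmem : ∀ i (K : B) (hK : K ≠ v), K ≠ u → (K ∈ f i ↔ (⟨K, hK⟩ : {x : B // x ≠ v}) ∈ f' i) := by
    intro i K hK hKu
    rw [← hfπ i, mem_image]
    constructor
    · intro h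
      exact ⟨K, h, hπ K hK⟩
    · rintro ⟨x, hx, hxK⟩
      by_cases hxv : x = v
      · subst hxv
        rw [hπv] at hxK
        exact absurd (congrArg Subtype.val hxK).symm hKu
      · rw [hπ x hxv] at hxK
        have : x = K := congrArg Subtype.val hxK
        rwa [← this]
  have hmemu : ∀ i, ((⟨u, huv⟩ : {x : B // x ≠ v}) ∈ f' i ↔ u ∈ f i ∨ v ∈ f i) := by
    intro i
    rw [← hfπ i, mem_image]
    constructor
    · rintro ⟨x, hx, hxK⟩
      by_cases hxv : x = v
      · subst hxv; exact Or.inr hx
      · rw [hπ x hxv] at hxK
        have : x = u := congrArg Subtype.val hxK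
        rw [this] at hx
        exact Or.inl hx
    · rintro (h | h)
      · exact ⟨u, h, hπ u huv⟩
      · exact ⟨v, h, hπv⟩
  have hD : ∀ K, K ≠ u → K ≠ v → ∑ i, ind (f i) K = 0 := by
    intro K hKu hKv
    have h5 := even_ind f' ⟨K, hKv⟩ (hev' ⟨K, hKv⟩)
    rw [← h5]
    apply sum_congr rfl
    intro i _
    unfold ind
    by_cases h6 : K ∈ f i
    · rw [if_pos h6, if_pos ((hmem i K hKv hKu).1 h6)]
    · rw [if_neg h6, if_neg (fun h => h6 ((hmem i K hKv hKu).2 h))]
  have hDuv : ∑ i, ind (f i) u + ∑ i, ind (f i) v = 0 := by
    have h5 := even_ind f' ⟨u, huv⟩ (hev' ⟨u, huv⟩)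
    rw [← h5, ← sum_add_distrib]
    apply sum_congr rfl
    intro i _
    unfold ind
    by_cases h6 : u ∈ f i
    · have h7 : v ∉ f i := fun h => hnot i ⟨h6, h⟩
      rw [if_pos h6, if_neg h7, if_pos ((hmemu i).2 (Or.inl h6)), add_zero]
    · by_cases h7 : v ∈ f i
      · rw [if_neg h6, if_pos h7, if_pos ((hmemu i).2 (Or.inr h7)), zero_add]
      · rw [if_neg h6, if_neg h7, if_neg (fun h => (hmemu i).1 h |>.elim h6 h7), add_zero]
  -- sets which do not separate u, v
  have hsat : ∀ X : Finset B, X.Nonempty → X ≠ univ → (u ∈ X ↔ v ∈ X) →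
      ∃ i, Crosses (f i) X := by
    intro X hX hX2 huvX
    let X' : Finset {x : B // x ≠ v} := univ.filter fun y => y.1 ∈ X
    have hX' : X'.Nonempty := by
      obtain ⟨a, ha⟩ := hX
      by_cases hav : a = v
      · subst hav
        exact ⟨⟨u, huv⟩, by simp [X', huvX.2 ha]⟩
      · exact ⟨⟨a, hav⟩, by simp [X', ha]⟩
    have hX'2 : X' ≠ univ := by
      intro h
      apply hX2
      apply Finset.eq_univ_iff_forall.2
      intro a
      have hall : ∀ y : {x : B // x ≠ v}, y.1 ∈ X := by
        intro y
        have : y ∈ X' := h ▸ mem_univ y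
        simpa [X'] using this
      by_cases hav : a = v
      · rw [hav]; exact huvX.1 (hall ⟨u, huv⟩)
      · exact hall ⟨a, hav⟩
    obtain ⟨i, ⟨a', ha', haX⟩, b', hb', hbX⟩ := hcr' X' (subset_univ _) hX' hX'2
    have hpre : ∀ x, π x ∈ X' ↔ x ∈ X := by
      intro x
      by_cases hxv : x = v
      · subst hxv
        rw [hπv]
        simp only [X', mem_filter, mem_univ, true_and]
        exact huvX
      · rw [hπ x hxv]
        simp [X']
    rw [← hfπ i, mem_image] at ha' hb'
    obtain ⟨a, ha, rfl⟩ := ha'
    obtain ⟨b, hb, rfl⟩ := hb'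
    exact ⟨i, ⟨a, ha, (hpre a).1 haX⟩, b, hb, fun h => hbX ((hpre b).2 h)⟩
  by_cases hodd : ∑ i, ind (f i) u = 1
  · -- u, v odd
    have hv1 : ∑ i, ind (f i) v = 1 := by
      rw [hodd] at hDuv
      generalize ∑ i, ind (f i) v = z at hDuv
      revert z; decide
    refine ⟨f, u, v, huv, hpick, ?_, ?_⟩
    · intro K
      by_cases hKu : K = u
      · subst hKu
        rw [hodd]
        simp [ind, huv]
      · by_cases hKv : K = v
        · subst hKv
          rw [hv1]
          simp [ind, hKu]
        · rw [hD K hKu hKv]
          simp [ind, hKu, hKv]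
    · intro X hX hX2
      by_cases huvX : u ∈ X ↔ v ∈ X
      · exact hsat X hX hX2 huvX
      · by_contra hcon
        push Not at hcon
        have h5 := sum_cross f hf2 X
        have h6 : (∑ i, if Crosses (f i) X then (1 : ZMod 2) else 0) = 0 := by
          apply sum_eq_zero
          intro i _
          rw [if_neg (hcon i)]
        rw [h6] at h5
        have h7 : ∑ K ∈ X, ∑ i, ind (f i) K = 1 := by
          by_cases huX : u ∈ X
          · have hvX : v ∉ X := fun h => huvX ⟨fun _ => h, fun _ => huX⟩
            rw [Finset.sum_eq_single_of_mem u huX]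
            · exact hodd
            · intro K hK hKu
              exact hD K hKu (fun h => hvX (h ▸ hK))
          · have hvX : v ∈ X := by
              by_contra hvX
              exact huvX ⟨fun h => absurd h huX, fun h => absurd h hvX⟩
            rw [Finset.sum_eq_single_of_mem v hvX]
            · exact hv1
            · intro K hK hKv
              exact hD K (fun h => huX (h ▸ hK)) hKv
        rw [h7] at h5
        exact absurd h5 (by decide)
  · -- all even
    have hu0 : ∑ i, ind (f i) u = 0 := by
      generalize ∑ i, ind (f i) u = z at hodd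
      revert z; decide
    have hv1 : ∑ i, ind (f i) v = 0 := by
      rw [hu0, zero_add] at hDuv
      exact hDuv
    have hall : ∀ K, ∑ i, ind (f i) K = 0 := by
      intro K
      by_cases hKu : K = u
      · rw [hKu]; exact hu0
      · by_cases hKv : K = v
        · rw [hKv]; exact hv1
        · exact hD K hKu hKv
    -- the new pick of i0
    have hcase : f i0 = ∅ ∨ (∃ x, x ≠ u ∧ x ≠ v ∧ x ∈ e i0 ∧ f i0 = {x, u}) ∨
        (∃ x, x ≠ u ∧ x ≠ v ∧ x ∈ e i0 ∧ f i0 = {x, v}) := by
      rcases hf2 i0 with h | h
      · exact Or.inl h
      · right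
        obtain ⟨a, b, hab, hfi⟩ := card_eq_two.1 h
        have ha : a ∈ e i0 := hfe i0 (by rw [hfi]; simp)
        have hb : b ∈ e i0 := hfe i0 (by rw [hfi]; simp)
        have hn := hnot i0
        rw [hfi] at hn
        by_cases hau : a = u
        · subst hau
          have hbv : b ≠ v := by rintro rfl; exact hn ⟨by simp, by simp⟩
          exact Or.inl ⟨b, fun h => hab h.symm, hbv, hb, by rw [hfi, pair_comm]⟩
        · by_cases hav : a = v
          · subst hav
            have hbu : b ≠ u := by rintro rfl; exact hn ⟨by simp, by simp⟩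
            exact Or.inr ⟨b, hbu, fun h => hab h.symm, hb, by rw [hfi, pair_comm]⟩
          · by_cases hbu : b = u
            · subst hbu
              exact Or.inl ⟨a, hau, hav, ha, hfi⟩
            · by_cases hbv : b = v
              · subst hbv
                exact Or.inr ⟨a, hau, hav, ha, hfi⟩
              · exfalso
                have h5 : ({a, b, u, v} : Finset B) ⊆ e i0 := by
                  intro z hz
                  simp only [mem_insert, mem_singleton] at hz
                  rcases hz with rfl | rfl | rfl | rfl <;> assumption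
                have h6 := card_le_card h5
                have h7 : ({a, b, u, v} : Finset B).card = 4 := by
                  rw [card_insert_of_notMem, card_insert_of_notMem, card_pair huv]
                  · simp [hbu, hbv]
                  · simp [hab, hau, hav]
                have := h3 i0
                omega
    let f1 : I → Finset B := Function.update f i0 (symmDiff (f i0) {u, v})
    have hf1 : ∀ i, i ≠ i0 → f1 i = f i := fun i hi => Function.update_of_ne hi _ _
    have hf10 : f1 i0 = symmDiff (f i0) {u, v} := Function.update_self _ _ _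
    have hpar1 : Par f1 u v := by
      intro K
      have h5 := sum_update f i0 {u, v} K
      rw [hall K, zero_add, ind_pair huv] at h5
      exact h5
    have hnew : symmDiff (f i0) {u, v} ⊆ e i0 ∧ (symmDiff (f i0) {u, v}).card = 2 := by
      rcases hcase with h | ⟨x, hxu, hxv, hx, h⟩ | ⟨x, hxu, hxv, hx, h⟩
      · have h5 : symmDiff (f i0) {u, v} = {u, v} := by
          rw [h]
          ext z
          simp [Finset.mem_symmDiff]
        rw [h5]
        refine ⟨?_, card_pair huv⟩
        intro z hz
        simp only [mem_insert, mem_singleton] at hz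
        rcases hz with rfl | rfl <;> assumption
      · have h5 : symmDiff (f i0) {u, v} = {x, v} := by
          rw [h]
          ext z
          simp only [Finset.mem_symmDiff, mem_insert, mem_singleton]
          constructor
          · rintro (⟨h1 | h1, h2⟩ | ⟨h1 | h1, h2⟩)
            · exact Or.inl h1
            · exact absurd (Or.inl h1) h2
            · exact absurd (Or.inr h1) h2
            · exact Or.inr h1
          · rintro (rfl | rfl)
            · left
              refine ⟨Or.inl rfl, ?_⟩
              rintro (h1 | h1)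
              · exact hxu h1
              · exact hxv h1
            · right
              refine ⟨Or.inr rfl, ?_⟩
              rintro (h1 | h1)
              · exact hxv h1.symm
              · exact huv h1.symm
        rw [h5]
        refine ⟨?_, card_pair hxv⟩
        intro z hz
        simp only [mem_insert, mem_singleton] at hz
        rcases hz with rfl | rfl <;> assumption
      · have h5 : symmDiff (f i0) {u, v} = {x, u} := by
          rw [h]
          ext z
          simp only [Finset.mem_symmDiff, mem_insert, mem_singleton]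
          constructor
          · rintro (⟨h1 | h1, h2⟩ | ⟨h1 | h1, h2⟩)
            · exact Or.inl h1
            · exact absurd (Or.inr h1) h2
            · exact Or.inr h1
            · exact absurd (Or.inr h1) h2
          · rintro (rfl | rfl)
            · left
              refine ⟨Or.inl rfl, ?_⟩
              rintro (h1 | h1)
              · exact hxu h1
              · exact hxv h1
            · right
              refine ⟨Or.inl rfl, ?_⟩
              rintro (h1 | h1)
              · exact hxu h1.symm
              · exact huv h1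
        rw [h5]
        refine ⟨?_, card_pair hxu⟩
        intro z hz
        simp only [mem_insert, mem_singleton] at hz
        rcases hz with rfl | rfl <;> assumption
    refine ⟨f1, u, v, huv, ?_, hpar1, ?_⟩
    · intro i
      by_cases hi : i = i0
      · subst hi
        rw [hf10]
        exact ⟨hnew.1, Or.inr hnew.2⟩
      · rw [hf1 i hi]
        exact hpick i
    · -- connectivity: one crossing pick only is impossible
      have hone : ∀ X : Finset B, Crosses (f i0) X → (∀ i, i ≠ i0 → ¬ Crosses (f i) X) → False := by
        intro X hc hn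
        have h5 := sum_cross f hf2 X
        have h6 : (∑ i, if Crosses (f i) X then (1 : ZMod 2) else 0) = 1 := by
          rw [Finset.sum_eq_single_of_mem i0 (mem_univ _)]
          · rw [if_pos hc]
          · intro i _ hi
            rw [if_neg (hn i hi)]
        rw [h6] at h5
        have h7 : ∑ K ∈ X, ∑ i, ind (f i) K = 0 := sum_eq_zero fun K _ => hall K
        rw [h7] at h5
        exact absurd h5 (by decide)
      intro X hX hX2
      by_contra hcon
      push Not at hcon
      have hoth : ∀ i, i ≠ i0 → ¬ Crosses (f i) X := by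
        intro i hi
        have := hcon i
        rwa [hf1 i hi] at this
      have hnc0 := hcon i0
      rw [hf10] at hnc0
      -- the pick of i0 does not cross X
      have hnf : ¬ Crosses (f i0) X := fun h => hone X h hoth
      have hnoX : ∀ i, ¬ Crosses (f i) X := by
        intro i
        by_cases hi : i = i0
        · rw [hi]; exact hnf
        · exact hoth i hi
      have huvX : ¬ (u ∈ X ↔ v ∈ X) := by
        intro h
        obtain ⟨i, hi⟩ := hsat X hX hX2 h
        exact hnoX i hi
      -- parity of the two picks
      have h5 := sum_ind (symmDiff (f i0) {u, v}) X (Or.inr hnew.2)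
      rw [if_neg hnc0] at h5
      have h6 := sum_ind (f i0) X (hf2 i0)
      rw [if_neg hnf] at h6
      have h7 := sum_ind ({u, v} : Finset B) X (Or.inr (card_pair huv))
      have h8 : Crosses ({u, v} : Finset B) X := by
        by_cases huX : u ∈ X
        · have hvX : v ∉ X := fun h => huvX ⟨fun _ => h, fun _ => huX⟩
          exact ⟨⟨u, by simp, huX⟩, v, by simp, hvX⟩
        · have hvX : v ∈ X := by
            by_contra hvX
            exact huvX ⟨fun h => absurd h huX, fun h => absurd h hvX⟩
          exact ⟨⟨v, by simp, hvX⟩, u, by simp, huX⟩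
      rw [if_pos h8] at h7
      have h9 : ∑ K ∈ X, ind (symmDiff (f i0) {u, v}) K
          = ∑ K ∈ X, ind (f i0) K + ∑ K ∈ X, ind ({u, v} : Finset B) K := by
        rw [← sum_add_distrib]
        exact sum_congr rfl fun K _ => ind_symm _ _ K
      rw [h5, h6, h7] at h9
      exact absurd h9 (by decide)

end Pool.Agent.ClawHam.TK
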