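import Pool.Agent.Lib.MP_e2dbb5_co.TK1

/-!
# The token game: row STEINER (helper58)

In a spanning tree of picks, the tree spanned by a vertex set `R` has all its leaves in `R`; hence
the number of its edges which cross `R`, plus twice the number of the picks inside `R`, is at most
`2 |R| - 2`.
-/

set_option autoImplicit false

open Finset

noncomputable section

namespace Pool.Agent.ClawHam.TK

open Classical

variable {B I : Type} [Fintype B] [Fintype I]

/-- the picks with vertices of `R` on both sides of their cut -/
def spa (f : I → Finset B) (J : Finset I) (R : Finset B) : Finset I :=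
  J.filter fun i => ∀ X, Cut f J i X → (X ∩ R).Nonempty

/-- the vertices outside `R` which belong to such a pick -/
def outer (f : I → Finset B) (J : Finset I) (R : Finset B) : Finset B :=
  univ.filter fun v => v ∉ R ∧ ∃ i ∈ spa f J R, v ∈ f i

/-- an outer vertex has at least two picks of the spanned tree -/
theorem outer_two {f : I → Finset B} {J : Finset I} {R : Finset B} (h : Tree f J) {v : B}
    (hv : v ∈ outer f J R) : 2 ≤ ((spa f J R).filter fun i => v ∈ f i).card := by
  simp only [outer, mem_filter, mem_univ, true_and] at hv
  obtain ⟨hvR, i, hi, hvi⟩ := hv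
  by_contra hcon
  have hone : ∀ j ∈ spa f J R, v ∈ f j → j = i := by
    intro j hj hvj
    by_contra hji
    apply hcon
    have h1 : ({j, i} : Finset I) ⊆ (spa f J R).filter fun i => v ∈ f i := by
      intro k hk
      simp only [mem_insert, mem_singleton] at hk
      rw [mem_filter]
      rcases hk with rfl | rfl
      · exact ⟨hj, hvj⟩
      · exact ⟨hi, hvi⟩
    have h2 := Finset.card_le_card h1
    rw [Finset.card_pair hji] at h2
    exact h2
  have hiJ : i ∈ J := (mem_filter.1 hi).1
  have hiR : ∀ X, Cut f J i X → (X ∩ R).Nonempty := (mem_filter.1 hi).2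
  -- the side of `v`
  obtain ⟨D, hD, hvD⟩ : ∃ D, Cut f J i D ∧ v ∈ D := by
    obtain ⟨X, hX⟩ := h.exists_cut hiJ
    by_cases hvX : v ∈ X
    · exact ⟨X, hX, hvX⟩
    · exact ⟨Xᶜ, hX.compl, by simpa using hvX⟩
  obtain ⟨x, u, hx, hu, hxu, hs⟩ := pair_crosses (h.two i hiJ) hD.1
  have hxv : x = v := by
    have h1 := hvi
    rw [hs] at h1
    simp only [mem_insert, mem_singleton] at h1
    rcases h1 with h1 | h1
    · exact h1.symm
    · exact absurd hvD (h1 ▸ hu)
  subst hxv
  -- the sides of the other picks at `v`
  have hex : ∀ j, ∃ X : Finset B, j ∈ J → j ≠ i → x ∈ f j → Cut f J j X ∧ X ∩ R = ∅ := by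
    intro j
    by_cases hj : j ∈ J ∧ j ≠ i ∧ x ∈ f j
    · have h1 : j ∉ spa f J R := fun h' => hj.2.1 (hone j h' hj.2.2)
      unfold spa at h1
      rw [mem_filter] at h1
      push Not at h1
      obtain ⟨X, hX, hXR⟩ := h1 hj.1
      exact ⟨X, fun _ _ _ => ⟨hX, hXR⟩⟩
    · exact ⟨∅, fun a b c => absurd ⟨a, b, c⟩ hj⟩
  choose F hF using hex
  have hvF : ∀ j ∈ J, j ≠ i → x ∈ f j → x ∉ F j := by
    intro j hj hji hxj hxF
    obtain ⟨hcut, hempty⟩ := hF j hj hji hxj
    have huF : u ∈ F j := by
      by_contra huF
      apply hcut.2 i hiJ (Ne.symm hji)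
      rw [hs]
      exact crosses_pair hxF huF
    have h1 : Dᶜ \ F j = ∅ := by
      apply h.empty_of (x := x)
      · simp [hxF]
      · intro k hk
        rw [not_crosses_iff]
        by_cases hki : k = i
        · right
          intro a ha
          rw [hki, hs] at ha
          simp only [mem_insert, mem_singleton] at ha
          rcases ha with rfl | rfl
          · simp [hxF]
          · simp [huF]
        · by_cases hkj : k = j
          · right
            intro a ha
            have h2 := not_crosses_iff.1 (hD.2 k hk hki)
            rcases h2 with h2 | h2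
            · simp [h2 ha]
            · rw [hkj] at h2
              exact absurd hvD (h2 x hxj)
          · have h2 := not_crosses_iff.1 (hD.2 k hk hki)
            have h3 := not_crosses_iff.1 (hcut.2 k hk hkj)
            rcases h2 with h2 | h2
            · right; intro a ha; simp [h2 ha]
            · rcases h3 with h3 | h3
              · right; intro a ha; simp [h3 ha]
              · left; intro a ha; simp [h2 a ha, h3 a ha]
    obtain ⟨y, hy⟩ := hiR Dᶜ hD.compl
    rw [mem_inter] at hy
    have hyF : y ∈ F j := by
      by_contra hyF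
      have h2 : y ∈ Dᶜ \ F j := mem_sdiff.2 ⟨hy.1, hyF⟩
      rw [h1] at h2
      simp at h2
    have h2 : y ∈ F j ∩ R := mem_inter.2 ⟨hyF, hy.2⟩
    rw [hempty] at h2
    simp at h2
  -- the rest of `D`
  obtain ⟨y, hy⟩ := hiR D hD
  rw [mem_inter] at hy
  have hY : (D.filter fun z => z ≠ x ∧ ∀ j ∈ J, j ≠ i → x ∈ f j → z ∉ F j) = ∅ := by
    apply h.empty_of (x := x)
    · simp
    · intro k hk
      rw [not_crosses_iff]
      by_cases hki : k = i
      · right
        intro a ha
        rw [hki, hs] at ha
        simp only [mem_insert, mem_singleton] at ha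
        rcases ha with rfl | rfl
        · simp
        · simp [hu]
      · by_cases hxk : x ∈ f k
        · right
          intro a ha haY
          rw [mem_filter] at haY
          obtain ⟨hcut, hempty⟩ := hF k hk hki hxk
          obtain ⟨p, q, hp, hq, hpq, hs2⟩ := pair_crosses (h.two k hk) hcut.1
          have hxF := hvF k hk hki hxk
          rw [hs2] at ha hxk
          simp only [mem_insert, mem_singleton] at ha hxk
          have hxq : x = q := by
            rcases hxk with h1 | h1
            · exact absurd hp (h1 ▸ hxF)
            · exact h1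
          rcases ha with h1 | h1
          · have hxk' : x ∈ f k := by rw [hs2, hxq]; simp
            exact haY.2.2 k hk hki hxk' (h1 ▸ hp)
          · exact haY.2.1 (h1.trans hxq.symm)
        · have h2 := not_crosses_iff.1 (hD.2 k hk hki)
          rcases h2 with h2 | h2
          · by_cases h3 : ∃ j ∈ J, j ≠ i ∧ x ∈ f j ∧ ∃ a ∈ f k, a ∈ F j
            · right
              obtain ⟨j, hj, hji, hxj, a, ha, haF⟩ := h3
              have hkj : k ≠ j := by rintro rfl; exact hxk hxj
              have h4 := not_crosses_iff.1 ((hF j hj hji hxj).1.2 k hk hkj)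
              intro c hc hcY
              rw [mem_filter] at hcY
              rcases h4 with h4 | h4
              · exact hcY.2.2 j hj hji hxj (h4 hc)
              · exact h4 a ha haF
            · left
              push Not at h3
              intro a ha
              rw [mem_filter]
              refine ⟨h2 ha, ?_, ?_⟩
              · rintro rfl; exact hxk ha
              · intro j hj hji hxj
                exact h3 j hj hji hxj a ha
          · right
            intro a ha haY
            exact h2 a ha (mem_filter.1 haY).1
  have h1 : y ∈ (D.filter fun z => z ≠ x ∧ ∀ j ∈ J, j ≠ i → x ∈ f j → z ∉ F j) := by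
    rw [mem_filter]
    refine ⟨hy.1, ?_, ?_⟩
    · rintro rfl; exact hvR hy.2
    · intro j hj hji hxj hyF
      have h2 : y ∈ F j ∩ R := mem_inter.2 ⟨hyF, hy.2⟩
      rw [(hF j hj hji hxj).2] at h2
      simp at h2
  rw [hY] at h1
  simp at h1

/-- STEINER -/
theorem rowSteiner : RowSteiner := by
  intro B I _ _ f J R h hR
  set O := outer f J R with hO
  set J0 := spa f J R with hJ0
  -- the tree inside `R ∪ O`
  have h1 : J0.card + 1 ≤ R.card + O.card := by
    have h2 := h.inside (R ∪ O) (hR.mono Finset.subset_union_left)
    have h3 : J0.card ≤ (J.filter fun i => f i ⊆ R ∪ O).card := by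
      apply Finset.card_le_card
      intro i hi
      rw [mem_filter]
      refine ⟨(mem_filter.1 hi).1, ?_⟩
      intro v hv
      rw [mem_union]
      by_cases hvR : v ∈ R
      · exact Or.inl hvR
      · right
        rw [hO]
        unfold outer
        rw [mem_filter]
        exact ⟨mem_univ v, hvR, i, hi, hv⟩
    have h4 := Finset.card_union_le R O
    omega
  -- double counting
  have h5 : 2 * O.card ≤ ∑ i ∈ J0, (f i ∩ O).card := by
    have h6 : ∑ v ∈ O, (J0.filter fun i => v ∈ f i).card = ∑ i ∈ J0, (f i ∩ O).card := by
      simp only [Finset.card_filter]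
      rw [Finset.sum_comm]
      apply Finset.sum_congr rfl
      intro i _
      rw [← Finset.sum_filter, ← Finset.card_eq_sum_ones]
      congr 1
      ext v
      simp only [mem_filter, mem_inter]
      exact and_comm
    rw [← h6]
    have h7 : ∑ v ∈ O, 2 ≤ ∑ v ∈ O, (J0.filter fun i => v ∈ f i).card :=
      Finset.sum_le_sum fun v hv => outer_two h hv
    rw [Finset.sum_const, smul_eq_mul] at h7
    omega
  -- the three kinds of picks
  have h8 : ∑ i ∈ J0, (f i ∩ O).card + (J0.filter fun i => Crosses (f i) R).card
      + 2 * (J0.filter fun i => f i ⊆ R).card ≤ 2 * J0.card := by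
    have h9 : ∑ i ∈ J0, (f i ∩ O).card + (J0.filter fun i => Crosses (f i) R).card
      + 2 * (J0.filter fun i => f i ⊆ R).card
      = ∑ i ∈ J0, ((f i ∩ O).card + (if Crosses (f i) R then 1 else 0)
        + 2 * (if f i ⊆ R then 1 else 0)) := by
      rw [Finset.sum_add_distrib, Finset.sum_add_distrib, Finset.card_filter, Finset.card_filter,
        Finset.mul_sum]
    rw [h9]
    have h10 : 2 * J0.card = ∑ i ∈ J0, 2 := by
      rw [Finset.sum_const, smul_eq_mul]; ring
    rw [h10]
    apply Finset.sum_le_sum
    intro i hi
    have hiJ : i ∈ J := (mem_filter.1 hi).1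
    have hdis : Disjoint R O := by
      rw [Finset.disjoint_left]
      intro v hv hvO
      rw [hO] at hvO
      unfold outer at hvO
      rw [mem_filter] at hvO
      exact hvO.2.1 hv
    have hcard : (f i ∩ R).card + (f i ∩ O).card ≤ 2 := by
      rw [← h.two i hiJ, ← Finset.card_union_of_disjoint]
      · apply Finset.card_le_card
        exact Finset.union_subset Finset.inter_subset_left Finset.inter_subset_left
      · exact Finset.disjoint_of_subset_left Finset.inter_subset_right
          (Finset.disjoint_of_subset_right Finset.inter_subset_right hdis)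
    by_cases hsub : f i ⊆ R
    · have h11 : ¬ Crosses (f i) R := not_crosses_iff.2 (Or.inl hsub)
      have h12 : f i ∩ R = f i := Finset.inter_eq_left.2 hsub
      rw [h12, h.two i hiJ] at hcard
      simp only [hsub, h11, if_true, if_false]
      omega
    · by_cases hcr : Crosses (f i) R
      · have h11 : 0 < (f i ∩ R).card := by
          obtain ⟨⟨a, ha, haR⟩, -⟩ := hcr
          exact Finset.card_pos.2 ⟨a, mem_inter.2 ⟨ha, haR⟩⟩
        simp only [hsub, hcr, if_true, if_false]
        omega
      · simp only [hsub, hcr, if_false]
        omega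
  have h13 : (J.filter fun i => Crosses (f i) R ∧ ∀ X, Cut f J i X → (X ∩ R).Nonempty).card
      = (J0.filter fun i => Crosses (f i) R).card := by
    congr 1
    ext i
    rw [hJ0]
    unfold spa
    simp only [mem_filter]
    tauto
  have h14 : inn f J R ≤ (J0.filter fun i => f i ⊆ R).card := by
    unfold inn
    apply Finset.card_le_card
    intro i hi
    rw [mem_filter] at hi ⊢
    refine ⟨?_, hi.2⟩
    rw [hJ0]
    unfold spa
    rw [mem_filter]
    refine ⟨hi.1, ?_⟩
    rintro X ⟨⟨⟨a, ha, haX⟩, -⟩, -⟩
    exact ⟨a, mem_inter.2 ⟨haX, hi.2 ha⟩⟩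
  rw [h13]
  omega

end Pool.Agent.ClawHam.TK
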