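import Pool.Agent.Lib.MP_e2dbb5_co.FB
import Pool.Agent.Lib.MP_e2dbb5_co.KV
import Pool.Agent.Lib.MP_e2dbb5_co.G0

/-!
# Vertices of degree four in one triple: definitions and rows (helper14)
-/

set_option autoImplicit false

open Finset

noncomputable section

namespace Pool.Agent.ClawHam

open Classical

namespace TS

/-- the number of hyperedges which cross `X` -/
def dg {B I : Type} [Fintype I] (e : I → Finset B) (X : Finset B) : ℕ :=
  (univ.filter fun i => Crosses (e i) X).card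

/-- `K` lies in a triple, and also in another triple or in a pair whose other vertex has degree at
most four -/
def BadV {B I : Type} [Fintype I] (e : I → Finset B) (K : B) : Prop :=
  ∃ i, K ∈ e i ∧ (e i).card = 3 ∧ ∃ i', i' ≠ i ∧ K ∈ e i' ∧
    ((e i').card = 3 ∨ ((e i').card = 2 ∧ ∃ x ∈ e i', x ≠ K ∧ dg e {x} ≤ 4))

/-- The lemma on hypergraphs of rank three with at most `m` bad vertices of degree four. -/
def HypTS (m : ℕ) : Prop :=
  ∀ (B I : Type) [Fintype B] [Fintype I] (e : I → Finset B),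
    (∀ i, (e i).card = 2 ∨ (e i).card = 3) → FourConn univ e → FiveEss univ e →
      (univ.filter fun K => dg e {K} = 4 ∧ BadV e K).card ≤ m → EvenConn univ e

/-- `v` lies in the triple `{v, a, b}` (the hyperedge `i₀`), in the pairs `{v, x₁}`, `{v, x₂}`,
`{v, x₃}` (the hyperedges `i₁`, `i₂`, `i₃`), and in no other hyperedge -/
structure Star {B I : Type} (e : I → Finset B) (v : B) (i₀ i₁ i₂ i₃ : I) (a b x₁ x₂ x₃ : B) :
    Prop where
  i01 : i₀ ≠ i₁
  i02 : i₀ ≠ i₂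
  i03 : i₀ ≠ i₃
  i12 : i₁ ≠ i₂
  i13 : i₁ ≠ i₃
  i23 : i₂ ≠ i₃
  e0 : e i₀ = {v, a, b}
  e1 : e i₁ = {v, x₁}
  e2 : e i₂ = {v, x₂}
  e3 : e i₃ = {v, x₃}
  va : v ≠ a
  vb : v ≠ b
  ab : a ≠ b
  vx1 : v ≠ x₁
  vx2 : v ≠ x₂
  vx3 : v ≠ x₃
  only : ∀ i, v ∈ e i → (e i).card ≤ 1 ∨ i = i₀ ∨ i = i₁ ∨ i = i₂ ∨ i = i₃

/-- The hypergraph without `v`: the triple becomes `{a, b, x₁}`, and there is a new pair
`{x₂, x₃}`. -/
def elim {B I : Type} (e : I → Finset B) (v : B) (i₀ i₁ i₂ i₃ : I) (a b x₁ x₂ x₃ : B) :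
    I → Finset B := fun i =>
  if i = i₀ then {a, b, x₁} else if i = i₁ then ∅ else if i = i₂ then {x₂, x₃} else
    if i = i₃ then ∅ else (e i).erase v

/-- what is preserved -/
def Keeps {B I : Type} [Fintype B] [Fintype I] (e e' : I → Finset B) (B₀ : Finset B) (v : B) :
    Prop :=
  FourConn (B₀.erase v) e' ∧ FiveEss (B₀.erase v) e' ∧
    ∀ w ∈ B₀.erase v, 5 ≤ dg e {w} → 5 ≤ dg e' {w}

/-- R1: the cut lemma -/
def RowCut : Prop :=
  ∀ (B I : Type) [Fintype B] [Fintype I] (B₀ : Finset B) (e : I → Finset B) (v : B)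
    (i₀ i₁ i₂ i₃ : I) (a b x₁ x₂ x₃ : B),
    (∀ i, e i ⊆ B₀ ∧ (e i).card ≤ 3) → FourConn B₀ e → FiveEss B₀ e → v ∈ B₀ →
    Star e v i₀ i₁ i₂ i₃ a b x₁ x₂ x₃ → 5 ≤ dg e {x₁} → 5 ≤ dg e {x₂} → 5 ≤ dg e {x₃} →
    Keeps e (elim e v i₀ i₁ i₂ i₃ a b x₁ x₂ x₃) B₀ v ∨
    Keeps e (elim e v i₀ i₂ i₁ i₃ a b x₂ x₁ x₃) B₀ v ∨
    Keeps e (elim e v i₀ i₃ i₁ i₂ a b x₃ x₁ x₂) B₀ v

/-- R2: the certificate `CertK` gives the algebraic one -/
def RowKA : Prop :=
  ∀ (B V I : Type) [Fintype B] [Nonempty B] [Fintype V] [Fintype I] (f : B → V),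
    Function.Injective f → ∀ (e : I → Finset B) (P : I → El V),
    (∀ i, elOf ((e i).image f) (P i)) → CertK e → AlgE (univ.image f) (univ.val.map P)

/-- R2': the count, with `CertK` -/
def RowCount : Prop :=
  ∀ (B I : Type) [Fintype B] [Nonempty B] [Fintype I] (e : I → Finset B),
    (∀ i, (e i).card = 2 ∨ (e i).card = 3) → FourConn univ e → FiveEss univ e →
      (Deg4T e).card ≤ 6 → CertK e

/-- R3: the induction -/
def RowInd : Prop := RowCut → RowKA → RowCount → HypTS 6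

/-- R4a: the relative form -/
def RowRel : Prop :=
  ∀ m : ℕ, HypTS m → ∀ (B I : Type) [Fintype B] [Fintype I] (B₀ : Finset B) (e : I → Finset B),
    (∀ i, e i ⊆ B₀ ∧ (e i).card ≤ 3) → FourConn B₀ e → FiveEss B₀ e →
    (univ.filter fun K => K ∈ B₀ ∧ dg e {K} ≤ 4 ∧ BadV e K).card ≤ m → EvenConn B₀ e

/-- A bad spot: four pairwise adjacent vertices, one of which, `v`, has exactly two other neighbours
`y`, `z`; they are adjacent, and no other vertex of the set is adjacent to one of them; some vertex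
of the set other than `v` has at most six neighbours. -/
def BadSpot {V : Type} (G : SimpleGraph V) (Q : Finset V) : Prop :=
  Q.card = 4 ∧ (∀ a ∈ Q, ∀ b ∈ Q, a ≠ b → G.Adj a b) ∧ ∃ v ∈ Q, ∃ y z, y ∉ Q ∧ z ∉ Q ∧
    G.Adj y z ∧ (∀ w, G.Adj v w ↔ (w ∈ Q ∧ w ≠ v) ∨ w = y ∨ w = z) ∧
    (∀ a ∈ Q, a ≠ v → ¬ G.Adj a y ∧ ¬ G.Adj a z) ∧
    ∃ a ∈ Q, a ≠ v ∧ (G.neighborSet a).ncard ≤ 6

/-- R4b: a bad vertex of degree four of the hypergraph of the big cells is a bad spot -/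
def RowBad : Prop :=
  ∀ (V C : Type) [Fintype V] [Fintype C] (G G' : SimpleGraph V) (inc : V → C → Prop),
    G ≤ G' → ClawFree G → Closed G' → Krausz G' inc → NoSmallCut G → NoSmallCut G' →
    (∃ u v, u ≠ v ∧ ¬ G.Adj u v) → (∀ v, ∃ K, Big inc K ∧ inc v K) →
    ∀ K : C, Big inc K → dg (hyp inc) {K} ≤ 4 → BadV (hyp inc) K →
      BadSpot G (univ.filter fun v => inc v K)

end TS

end Pool.Agent.ClawHam
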