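import Pool.Agent.Lib.MP_e2dbb5_co.TSAlg

/-!
# Splitting off a vertex of degree four (helper69)

`v` lies in the hyperedge `i₀` (two or three vertices), in the pairs `i₁`, `i₂`, `i₃`, and in no
other hyperedge. Splitting: `e i₀` becomes `e i₀ - v + x₁`, and there is a new pair `{x₂, x₃}`.
-/

set_option autoImplicit false
set_option linter.unusedSectionVars false

open Finset

noncomputable section

namespace Pool.Agent.ClawHam

open Classical

namespace TS

open G GK

/-- `v` lies in `e i₀`, in the pairs `{v, x₁}`, `{v, x₂}`, `{v, x₃}`, and in no other hyperedge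
with at least two vertices -/
structure StarG {B I : Type} (e : I → Finset B) (v : B) (i₀ i₁ i₂ i₃ : I) (x₁ x₂ x₃ : B) :
    Prop where
  i01 : i₀ ≠ i₁
  i02 : i₀ ≠ i₂
  i03 : i₀ ≠ i₃
  i12 : i₁ ≠ i₂
  i13 : i₁ ≠ i₃
  i23 : i₂ ≠ i₃
  e0 : v ∈ e i₀
  c0 : (e i₀).card = 2 ∨ (e i₀).card = 3
  e1 : e i₁ = {v, x₁}
  e2 : e i₂ = {v, x₂}
  e3 : e i₃ = {v, x₃}
  vx1 : v ≠ x₁
  vx2 : v ≠ x₂
  vx3 : v ≠ x₃
  only : ∀ i, v ∈ e i → (e i).card ≤ 1 ∨ i = i₀ ∨ i = i₁ ∨ i = i₂ ∨ i = i₃

/-- the split hypergraph -/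
def splitG {B I : Type} (e : I → Finset B) (v : B) (i₀ i₁ i₂ i₃ : I) (x₁ x₂ x₃ : B) :
    I → Finset B := fun i =>
  if i = i₀ then insert x₁ ((e i₀).erase v) else if i = i₁ then ∅ else
    if i = i₂ then {x₂, x₃} else if i = i₃ then ∅ else (e i).erase v

variable {V I : Type} [Fintype V] [Fintype I]

/-- **splitting off a vertex of degree four can be undone** -/
theorem algS_of_starG {e : I → Finset V} {v : V} {i₀ i₁ i₂ i₃ : I} {x₁ x₂ x₃ : V}
    (h : StarG e v i₀ i₁ i₂ i₃ x₁ x₂ x₃) {B₀ : Finset V} (hv : v ∈ B₀)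
    (hA : AlgS (B₀.erase v) (splitG e v i₀ i₁ i₂ i₃ x₁ x₂ x₃)) : AlgS B₀ e := by
  obtain ⟨i01, i02, i03, i12, i13, i23, e0, c0, e1, e2, e3, vx1, vx2, vx3, only⟩ := h
  -- the four hyperedges and the rest
  set R : Finset I := (((univ.erase i₀).erase i₁).erase i₂).erase i₃ with hR
  have hval : (univ : Finset I).val = i₀ ::ₘ i₁ ::ₘ i₂ ::ₘ i₃ ::ₘ R.val := by
    have h0 : (univ : Finset I) = insert i₀ (insert i₁ (insert i₂ (insert i₃ R))) := by
      ext j
      simp only [hR, Finset.mem_univ, Finset.mem_insert, Finset.mem_erase, true_iff]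
      tauto
    have h1 : i₃ ∉ R := by simp [hR]
    have h2 : i₂ ∉ insert i₃ R := by simp [hR, i23]
    have h3 : i₁ ∉ insert i₂ (insert i₃ R) := by simp [hR, i12, i13]
    have h4 : i₀ ∉ insert i₁ (insert i₂ (insert i₃ R)) := by simp [hR, i01, i02, i03]
    rw [h0, Finset.insert_val_of_notMem h4, Finset.insert_val_of_notMem h3,
      Finset.insert_val_of_notMem h2, Finset.insert_val_of_notMem h1]
  have hRmem : ∀ i, i ∈ R.val ↔ i ≠ i₀ ∧ i ≠ i₁ ∧ i ≠ i₂ ∧ i ≠ i₃ := by
    intro i
    rw [Finset.mem_val, hR]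
    simp only [Finset.mem_erase, Finset.mem_univ]
    tauto
  set s : Multiset (El V) := R.val.map fun i => elM (e i) with hs
  have hrest : (R.val.map fun i => elM (splitG e v i₀ i₁ i₂ i₃ x₁ x₂ x₃ i)) = s := by
    rw [hs]
    refine Multiset.map_congr rfl fun i hi => ?_
    obtain ⟨n0, n1, n2, n3⟩ := (hRmem i).1 hi
    unfold splitG
    rw [if_neg n0, if_neg n1, if_neg n2, if_neg n3]
    by_cases hvi : v ∈ e i
    · rcases only i hvi with h1 | h1 | h1 | h1 | h1
      · rw [elM_small h1, elM_small ((Finset.card_le_card (Finset.erase_subset _ _)).trans h1)]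
      · exact absurd h1 n0
      · exact absurd h1 n1
      · exact absurd h1 n2
      · exact absurd h1 n3
    · rw [Finset.erase_eq_of_notMem hvi]
  have hfree : Free v s := by
    intro P hP
    obtain ⟨i, hi, rfl⟩ := Multiset.mem_map.1 hP
    obtain ⟨n0, n1, n2, n3⟩ := (hRmem i).1 hi
    by_cases hvi : v ∈ e i
    · rcases only i hvi with h1 | h1 | h1 | h1 | h1
      · rw [elM_small h1]
        exact ⟨rfl, rfl⟩
      · exact absurd h1 n0
      · exact absurd h1 n1
      · exact absurd h1 n2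
      · exact absurd h1 n3
    · obtain ⟨h1, h2⟩ := elM_form (e i)
      have hz : ∀ x ∈ e i, ∀ y ∈ e i, (ev x y : Vec V) v = 0 := by
        intro x hx y hy
        rw [ev_apply, if_neg (fun h : v = x => hvi (h ▸ hx)), if_neg (fun h : v = y => hvi (h ▸ hy)),
          add_zero]
      constructor
      · rcases h1 with h1 | ⟨x, hx, y, hy, h1⟩
        · rw [h1]; rfl
        · rw [h1]; exact hz x hx y hy
      · rcases h2 with h2 | ⟨x, hx, y, hy, h2⟩
        · rw [h2]; rfl
        · rw [h2]; exact hz x hx y hy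
  have hone : ∀ x : V, v ≠ x → (ev v x : Vec V) v = 1 := by
    intro x hx
    rw [ev_apply, if_pos rfl, if_neg hx, add_zero]
  -- the element at `i₀`
  obtain ⟨a, d, hva, hd0, hle, hle'⟩ : ∃ (a : V) (d : Vec V), v ≠ a ∧ d v = 0 ∧
      OO (ev v a, d) ≤ OO (elM (e i₀)) ∧
      OO (elM (insert x₁ ((e i₀).erase v))) ≤ OO (ev a x₁, d) := by
    rcases c0 with c0 | c0
    · have h1 : ((e i₀).erase v).card = 1 := by rw [Finset.card_erase_of_mem e0, c0]
      obtain ⟨a, ha⟩ := Finset.card_eq_one.1 h1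
      have h2 : e i₀ = {v, a} := by rw [← Finset.insert_erase e0, ha]
      have hva : v ≠ a := by
        have h3 : a ∈ (e i₀).erase v := by rw [ha]; exact Finset.mem_singleton_self a
        exact (Finset.ne_of_mem_erase h3).symm
      refine ⟨a, 0, hva, rfl, ?_, ?_⟩
      · have h3 : elOf (e i₀) (elM (e i₀)) := elM_spec (Or.inl c0)
        have h4 := el_span h3 (x := v) (y := a) e0 (by rw [h2]; simp)
        exact GM.OO_mono h4 (Or.inl rfl)
      · rw [ha]
        have h5 : (insert x₁ {a} : Finset V) = {a, x₁} := Finset.pair_comm _ _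
        rw [h5]
        exact elM_le (pair_span a x₁)
    · have h1 : ((e i₀).erase v).card = 2 := by rw [Finset.card_erase_of_mem e0, c0]
      obtain ⟨a, b, hab, ha⟩ := Finset.card_eq_two.1 h1
      have h2 : e i₀ = {v, a, b} := by rw [← Finset.insert_erase e0, ha]
      have hva : v ≠ a := by
        have h3 : a ∈ (e i₀).erase v := by rw [ha]; simp
        exact (Finset.ne_of_mem_erase h3).symm
      have hvb : v ≠ b := by
        have h3 : b ∈ (e i₀).erase v := by rw [ha]; simp
        exact (Finset.ne_of_mem_erase h3).symm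
      refine ⟨a, ev a b, hva, ?_, ?_, ?_⟩
      · rw [ev_apply, if_neg hva, if_neg hvb, add_zero]
      · have h3 : elOf (e i₀) (elM (e i₀)) := elM_spec (Or.inr c0)
        exact el_le h3 e0 (by rw [h2]; simp) (by rw [h2]; simp)
      · rw [ha]
        have h5 : (insert x₁ {a, b} : Finset V) = {a, b, x₁} := by
          ext w
          simp only [Finset.mem_insert, Finset.mem_singleton]
          tauto
        rw [h5]
        exact elM_le (triple_span a b x₁)
  -- the small system
  have hsmall : AlgE (B₀.erase v) ((ev v a + ev v x₁, d) ::ₘ (ev v x₂ + ev v x₃, 0) ::ₘ s) := by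
    have q1 : (ev v a : Vec V) + ev v x₁ = ev a x₁ := by rw [ev_comm v a, ev_add]
    have q2 : (ev v x₂ : Vec V) + ev v x₃ = ev x₂ x₃ := by rw [ev_comm v x₂, ev_add]
    rw [q1, q2]
    refine GM.algE_mono ?_ hA
    have m0 : elM (splitG e v i₀ i₁ i₂ i₃ x₁ x₂ x₃ i₀) = elM (insert x₁ ((e i₀).erase v)) := by
      unfold splitG
      rw [if_pos rfl]
    have m1 : elM (splitG e v i₀ i₁ i₂ i₃ x₁ x₂ x₃ i₁) = (0, 0) := by
      unfold splitG
      rw [if_neg i01.symm, if_pos rfl]
      exact elM_small (by simp)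
    have m2 : elM (splitG e v i₀ i₁ i₂ i₃ x₁ x₂ x₃ i₂) = elM {x₂, x₃} := by
      unfold splitG
      rw [if_neg i02.symm, if_neg i12.symm, if_pos rfl]
    have m3 : elM (splitG e v i₀ i₁ i₂ i₃ x₁ x₂ x₃ i₃) = (0, 0) := by
      unfold splitG
      rw [if_neg i03.symm, if_neg i13.symm, if_neg i23.symm, if_pos rfl]
      exact elM_small (by simp)
    rw [hval, Multiset.map_cons, Multiset.map_cons, Multiset.map_cons, Multiset.map_cons, m0, m1,
      m2, m3, hrest, OP_cons, OP_cons, OP_cons, OP_cons, OP_cons, OP_cons, OO_zero]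
    have k2 : OO (elM {x₂, x₃}) ≤ OO (ev x₂ x₃, 0) := elM_le (pair_span x₂ x₃)
    have k3 : ∀ A : Submodule (ZMod 2) (RR V), 1 * A = A := fun A => one_mul A
    rw [k3, k3]
    exact mul_le_mul' hle' (mul_le_mul' k2 le_rfl)
  have hbig := rowElimD V B₀ s v (ev v a) d (ev v x₁) (ev v x₂) (ev v x₃) hv hfree
    (hone a hva) (hone x₁ vx1) (hone x₂ vx2) (hone x₃ vx3) hd0 hsmall
  -- the large system
  unfold AlgS
  refine GM.algE_mono ?_ hbig
  rw [hval, Multiset.map_cons, Multiset.map_cons, Multiset.map_cons, Multiset.map_cons, e1, e2,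
    e3, OP_cons, OP_cons, OP_cons, OP_cons, OP_cons, OP_cons, OP_cons, OP_cons]
  have kx : ∀ x, v ≠ x → OO (ev v x, 0) ≤ OO (elM {v, x}) := by
    intro x hx
    have h1 : elOf {v, x} (elM {v, x}) := elM_spec (Or.inl (Finset.card_pair hx))
    have h2 := el_span h1 (x := v) (y := x) (by simp) (by simp)
    exact GM.OO_mono h2 (Or.inl rfl)
  exact mul_le_mul' hle (mul_le_mul' (kx x₁ vx1) (mul_le_mul' (kx x₂ vx2)
    (mul_le_mul' (kx x₃ vx3) le_rfl)))

/-- KV gives the certificate of a family, on an embedded vertex set -/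
theorem algS_of_certK {B : Type} [Fintype B] (f : B → V) (hf : Function.Injective f)
    (e : I → Finset B) (he : ∀ i, (e i).card = 2 ∨ (e i).card = 3) (h : CertK e) :
    AlgS (univ.image f) fun i => (e i).image f :=
  algE_of_certK_emb f hf e (fun i => elM ((e i).image f)) (fun i => elM_spec (by
    rw [Finset.card_image_of_injective _ hf]
    exact he i)) h

/-- more hyperedges are allowed -/
theorem algS_sub {J : Type} [Fintype J] {B₀ : Finset V} (g : J → I) (hg : Function.Injective g)
    {e : I → Finset V} (h : AlgS B₀ fun j => e (g j)) : AlgS B₀ e := by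
  unfold AlgS at h ⊢
  have h1 : (univ : Finset I).val = (univ : Finset J).val.map g +
      (univ.filter fun i => ∀ j, g j ≠ i).val := by
    have h2 : (univ : Finset I) = (univ : Finset J).image g ∪
        univ.filter fun i => ∀ j, g j ≠ i := by
      ext i
      simp only [Finset.mem_univ, Finset.mem_union, Finset.mem_image, Finset.mem_filter, true_and,
        true_iff]
      by_cases h : ∃ j, g j = i
      · exact Or.inl h
      · exact Or.inr fun j hj => h ⟨j, hj⟩
    have h3 : Disjoint ((univ : Finset J).image g) (univ.filter fun i => ∀ j, g j ≠ i) := by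
      rw [Finset.disjoint_left]
      intro i hi hi'
      obtain ⟨j, -, hj⟩ := Finset.mem_image.1 hi
      exact (Finset.mem_filter.1 hi').2 j hj
    have h4 : ((univ : Finset J).image g).val = (univ : Finset J).val.map g :=
      Finset.image_val_of_injOn hg.injOn
    have h5 := congrArg Finset.val h2
    rw [← Finset.disjUnion_eq_union _ _ h3, Finset.disjUnion_val, h4] at h5
    exact h5
  rw [h1, Multiset.map_add, Multiset.map_map]
  refine GM.algE_mono ?_ h
  rw [OP_add]
  have h5 : (1 : Submodule (ZMod 2) (RR V)) ≤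
      OP ((univ.filter fun i => ∀ j, g j ≠ i).val.map fun i => elM (e i)) := by
    rw [Submodule.one_le]
    exact one_mem_OP _
  calc OP ((univ : Finset J).val.map fun j => elM (e (g j))) =
      OP ((univ : Finset J).val.map ((fun i => elM (e i)) ∘ g)) * 1 := by
        rw [show ∀ A : Submodule (ZMod 2) (RR V), A * 1 = A from fun A => mul_one A]
        rfl
    _ ≤ _ := mul_le_mul' le_rfl h5

end TS

end Pool.Agent.ClawHam
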