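import Pool.Agent.Lib.MP_e2dbb5_co.TS0
import Pool.Agent.Lib.MP_e2dbb5_co.TSG

/-!
# Row R4b (helper90)
-/

set_option autoImplicit false

open Finset

noncomputable section

namespace Pool.Agent.ClawHam

open Classical

namespace TS

theorem ncard_nbr {V : Type} [Fintype V] (G : SimpleGraph V) (a : V) :
    (G.neighborSet a).ncard = (univ.filter fun w => G.Adj a w).card := by
  rw [← Set.ncard_coe_finset]
  congr 1
  ext w
  simp

theorem rowBad : RowBad := by
  intro V C _ _ G G' inc hle hclaw hcl hK hN hcut hnc hbig K hbK hdeg hbad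
  obtain ⟨i, hi, hi3, j, hji, hj, hcase⟩ := hbad
  have hj2 : 2 ≤ (hyp inc j).card := by
    rcases hcase with h | h
    · omega
    · exact h.1.ge
  have hL : (hyp inc j).card = 3 ∨ ∃ L ∈ hyp inc j, L ≠ K ∧
      (univ.filter fun i => Crosses (hyp inc i) {L}).card ≤ 4 := by
    rcases hcase with h | h
    · exact Or.inl h
    · exact Or.inr h.2
  obtain ⟨h4, h6, v, hv, -, ⟨y, z, hy, hz, hyz, hw, hno⟩, a, ha, hav, ha6⟩ :=
    TSG.bad_of_cell hle hclaw hcl hK hN hcut hnc hbig hbK hdeg hji.symm hi hi3 hj hj2 hL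
  refine ⟨h4, h6, v, hv, y, z, hy, hz, hyz, hw, hno, a, ha, hav, ?_⟩
  rw [ncard_nbr]
  exact ha6

end TS

end Pool.Agent.ClawHam
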