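import Pool.Agent.Lib.MP_e2dbb5_co.TS0

/-!
# The cut lemma: elimination of a vertex of degree four in one triple (helper27)
-/

set_option autoImplicit false

open Finset

noncomputable section

namespace Pool.Agent.ClawHam

open Classical

namespace TS

/-- the indicator of a proposition -/
def ind (p : Prop) : ℕ := if p then 1 else 0

theorem ind_true {p : Prop} (h : p) : ind p = 1 := if_pos h
theorem ind_false {p : Prop} (h : ¬ p) : ind p = 0 := if_neg h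
theorem ind_le (p : Prop) : ind p ≤ 1 := by unfold ind; split_ifs <;> omega
theorem ind_congr {p q : Prop} (h : p ↔ q) : ind p = ind q := by
  rw [propext h]

theorem card_filter_ind {I : Type} [Fintype I] (p : I → Prop) [DecidablePred p] :
    (univ.filter p).card = ∑ i, ind (p i) := by
  rw [card_filter]
  refine sum_congr rfl fun i _ => ?_
  unfold ind
  by_cases h : p i
  · rw [if_pos h, if_pos h]
  · rw [if_neg h, if_neg h]

theorem crosses_three {B : Type} (p q r : B) (X : Finset B) :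
    Crosses {p, q, r} X ↔ (p ∈ X ∨ q ∈ X ∨ r ∈ X) ∧ (p ∉ X ∨ q ∉ X ∨ r ∉ X) := by
  unfold Crosses
  simp

theorem crosses_two {B : Type} (p q : B) (X : Finset B) :
    Crosses {p, q} X ↔ (p ∈ X ∨ q ∈ X) ∧ (p ∉ X ∨ q ∉ X) := by
  unfold Crosses
  simp

theorem not_crosses_empty {B : Type} (X : Finset B) : ¬ Crosses (∅ : Finset B) X := by
  unfold Crosses
  simp

theorem exists_three {B : Type} (s : Finset B) (h : s.card ≤ 3) (hne : s.Nonempty) :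
    ∃ p q r, s = {p, q, r} := by
  have h1 : 1 ≤ s.card := hne.card_pos
  rcases Nat.lt_or_ge s.card 2 with h2 | h2
  · obtain ⟨p, hp⟩ := card_eq_one.1 (by omega : s.card = 1)
    exact ⟨p, p, p, by rw [hp]; simp⟩
  · rcases Nat.lt_or_ge s.card 3 with h3 | h3
    · obtain ⟨p, q, _, hp⟩ := card_eq_two.1 (by omega : s.card = 2)
      exact ⟨p, q, q, by rw [hp]; simp⟩
    · obtain ⟨p, q, r, _, _, _, hp⟩ := card_eq_three.1 (by omega : s.card = 3)
      exact ⟨p, q, r, hp⟩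

/-- The inequality for one hyperedge with at most three vertices. -/
theorem cross_ineq {B : Type} (s : Finset B) (hs : s.card ≤ 3) (X₁ X₂ X₃ : Finset B) :
    ind (Crosses s (X₁ ∩ X₂ ∩ X₃)) + (ind (Crosses s (X₁ \ (X₂ ∪ X₃))) +
      ind (Crosses s (X₂ \ (X₁ ∪ X₃))) + ind (Crosses s (X₃ \ (X₁ ∪ X₂)))) ≤
      ind (Crosses s X₁) + ind (Crosses s X₂) + ind (Crosses s X₃) := by
  rcases s.eq_empty_or_nonempty with h0 | h0
  · subst h0
    simp only [ind_false (not_crosses_empty _)]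
    omega
  · obtain ⟨p, q, r, rfl⟩ := exists_three s hs h0
    simp only [crosses_three, mem_inter, mem_sdiff, mem_union]
    by_cases h1 : p ∈ X₁ <;> by_cases h2 : p ∈ X₂ <;> by_cases h3 : p ∈ X₃ <;>
    by_cases h4 : q ∈ X₁ <;> by_cases h5 : q ∈ X₂ <;> by_cases h6 : q ∈ X₃ <;>
    by_cases h7 : r ∈ X₁ <;> by_cases h8 : r ∈ X₂ <;> by_cases h9 : r ∈ X₃ <;>
    simp [ind, h1, h2, h3, h4, h5, h6, h7, h8, h9]

/-- the number of hyperedges without `v` which cross `X` -/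
def dd {B I : Type} [Fintype I] (e : I → Finset B) (v : B) (X : Finset B) : ℕ :=
  (univ.filter fun i => v ∉ e i ∧ Crosses (e i) X).card

theorem two_le_of_crosses {B : Type} {s X : Finset B} (h : Crosses s X) : 2 ≤ s.card := by
  obtain ⟨⟨p, hp, hpX⟩, q, hq, hqX⟩ := h
  have hne : p ≠ q := fun hh => hqX (hh ▸ hpX)
  have h2 : ({p, q} : Finset B) ⊆ s := by
    intro t ht
    rcases mem_insert.1 ht with rfl | ht
    · exact hp
    · rw [mem_singleton.1 ht]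
      exact hq
  calc 2 = ({p, q} : Finset B).card := (card_pair hne).symm
    _ ≤ s.card := card_le_card h2

theorem Star.swap12 {B I : Type} {e : I → Finset B} {v : B} {i₀ i₁ i₂ i₃ : I} {a b x₁ x₂ x₃ : B}
    (h : Star e v i₀ i₁ i₂ i₃ a b x₁ x₂ x₃) : Star e v i₀ i₂ i₁ i₃ a b x₂ x₁ x₃ where
  i01 := h.i02
  i02 := h.i01
  i03 := h.i03
  i12 := h.i12.symm
  i13 := h.i23
  i23 := h.i13
  e0 := h.e0
  e1 := h.e2
  e2 := h.e1
  e3 := h.e3
  va := h.va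
  vb := h.vb
  ab := h.ab
  vx1 := h.vx2
  vx2 := h.vx1
  vx3 := h.vx3
  only := fun i hi => by
    rcases h.only i hi with h1 | h1 | h1 | h1 | h1
    · exact Or.inl h1
    · exact Or.inr (Or.inl h1)
    · exact Or.inr (Or.inr (Or.inr (Or.inl h1)))
    · exact Or.inr (Or.inr (Or.inl h1))
    · exact Or.inr (Or.inr (Or.inr (Or.inr h1)))

theorem Star.swap23 {B I : Type} {e : I → Finset B} {v : B} {i₀ i₁ i₂ i₃ : I} {a b x₁ x₂ x₃ : B}
    (h : Star e v i₀ i₁ i₂ i₃ a b x₁ x₂ x₃) : Star e v i₀ i₁ i₃ i₂ a b x₁ x₃ x₂ where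
  i01 := h.i01
  i02 := h.i03
  i03 := h.i02
  i12 := h.i13
  i13 := h.i12
  i23 := h.i23.symm
  e0 := h.e0
  e1 := h.e1
  e2 := h.e3
  e3 := h.e2
  va := h.va
  vb := h.vb
  ab := h.ab
  vx1 := h.vx1
  vx2 := h.vx3
  vx3 := h.vx2
  only := fun i hi => by
    rcases h.only i hi with h1 | h1 | h1 | h1 | h1
    · exact Or.inl h1
    · exact Or.inr (Or.inl h1)
    · exact Or.inr (Or.inr (Or.inl h1))
    · exact Or.inr (Or.inr (Or.inr (Or.inr h1)))
    · exact Or.inr (Or.inr (Or.inr (Or.inl h1)))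

theorem split4 {B I : Type} [Fintype I] {e : I → Finset B} {v : B} {i₀ i₁ i₂ i₃ : I}
    {a b x₁ x₂ x₃ : B} (h : Star e v i₀ i₁ i₂ i₃ a b x₁ x₂ x₃) (X : Finset B) (p : I → Prop)
    [DecidablePred p] (hp : ∀ i, i ≠ i₀ → i ≠ i₁ → i ≠ i₂ → i ≠ i₃ → (p i ↔ v ∉ e i ∧ Crosses (e i) X)) :
    (univ.filter p).card = dd e v X + (ind (p i₀) + ind (p i₁) + ind (p i₂) + ind (p i₃)) := by
  have hv0 : v ∈ e i₀ := by rw [h.e0]; simp
  have hv1 : v ∈ e i₁ := by rw [h.e1]; simp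
  have hv2 : v ∈ e i₂ := by rw [h.e2]; simp
  have hv3 : v ∈ e i₃ := by rw [h.e3]; simp
  have key : ∀ i, ind (p i) = ind (v ∉ e i ∧ Crosses (e i) X) +
      ((if i = i₀ then ind (p i₀) else 0) + (if i = i₁ then ind (p i₁) else 0) +
        (if i = i₂ then ind (p i₂) else 0) + (if i = i₃ then ind (p i₃) else 0)) := by
    intro i
    by_cases h0 : i = i₀
    · subst h0
      rw [if_pos rfl, if_neg h.i01, if_neg h.i02, if_neg h.i03,
        ind_false (fun hh : v ∉ e i ∧ Crosses (e i) X => hh.1 hv0)]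
      omega
    · by_cases h1 : i = i₁
      · subst h1
        rw [if_neg h0, if_pos rfl, if_neg h.i12, if_neg h.i13,
          ind_false (fun hh : v ∉ e i ∧ Crosses (e i) X => hh.1 hv1)]
        omega
      · by_cases h2 : i = i₂
        · subst h2
          rw [if_neg h0, if_neg h1, if_pos rfl, if_neg h.i23,
            ind_false (fun hh : v ∉ e i ∧ Crosses (e i) X => hh.1 hv2)]
          omega
        · by_cases h3 : i = i₃
          · subst h3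
            rw [if_neg h0, if_neg h1, if_neg h2, if_pos rfl,
              ind_false (fun hh : v ∉ e i ∧ Crosses (e i) X => hh.1 hv3)]
            omega
          · rw [if_neg h0, if_neg h1, if_neg h2, if_neg h3, ind_congr (hp i h0 h1 h2 h3)]
            rfl
  rw [card_filter_ind, dd, card_filter_ind, sum_congr rfl fun i _ => key i]
  simp only [sum_add_distrib, sum_ite_eq', mem_univ, if_true]

theorem dg_out {B I : Type} [Fintype I] {e : I → Finset B} {v : B} {i₀ i₁ i₂ i₃ : I}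
    {a b x₁ x₂ x₃ : B} (h : Star e v i₀ i₁ i₂ i₃ a b x₁ x₂ x₃) (X : Finset B) (hvX : v ∉ X) :
    dg e X = dd e v X + (ind (a ∈ X ∨ b ∈ X) + ind (x₁ ∈ X) + ind (x₂ ∈ X) + ind (x₃ ∈ X)) := by
  have h2 : ∀ x, Crosses {v, x} X ↔ x ∈ X := by
    intro x
    rw [crosses_two]
    simp [hvX]
  have h3 : Crosses {v, a, b} X ↔ (a ∈ X ∨ b ∈ X) := by
    rw [crosses_three]
    simp [hvX]
  rw [dg, split4 h X _ ?_, h.e0, h.e1, h.e2, h.e3, ind_congr h3, ind_congr (h2 x₁),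
    ind_congr (h2 x₂), ind_congr (h2 x₃)]
  intro i h0 h1 h2' h3'
  refine ⟨fun hc => ⟨fun hv => ?_, hc⟩, fun hc => hc.2⟩
  have := two_le_of_crosses hc
  rcases h.only i hv with h4 | h4 | h4 | h4 | h4
  · omega
  · exact h0 h4
  · exact h1 h4
  · exact h2' h4
  · exact h3' h4

theorem dg_in {B I : Type} [Fintype I] {e : I → Finset B} {v : B} {i₀ i₁ i₂ i₃ : I}
    {a b x₁ x₂ x₃ : B} (h : Star e v i₀ i₁ i₂ i₃ a b x₁ x₂ x₃) (X : Finset B) (hvX : v ∉ X) :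
    dg e (insert v X) =
      dd e v X + (ind (a ∉ X ∨ b ∉ X) + ind (x₁ ∉ X) + ind (x₂ ∉ X) + ind (x₃ ∉ X)) := by
  have h2 : ∀ x, v ≠ x → (Crosses {v, x} (insert v X) ↔ x ∉ X) := by
    intro x hx
    rw [crosses_two]
    simp [hx.symm]
  have h3 : Crosses {v, a, b} (insert v X) ↔ (a ∉ X ∨ b ∉ X) := by
    rw [crosses_three]
    simp [h.va.symm, h.vb.symm]
  rw [dg, split4 h X _ ?_, h.e0, h.e1, h.e2, h.e3, ind_congr h3, ind_congr (h2 x₁ h.vx1),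
    ind_congr (h2 x₂ h.vx2), ind_congr (h2 x₃ h.vx3)]
  intro i h0 h1 h2' h3'
  by_cases hv : v ∈ e i
  · refine ⟨fun hc => ?_, fun hc => absurd hv hc.1⟩
    have := two_le_of_crosses hc
    rcases h.only i hv with h4 | h4 | h4 | h4 | h4
    · omega
    · exact absurd h4 h0
    · exact absurd h4 h1
    · exact absurd h4 h2'
    · exact absurd h4 h3'
  · refine ⟨fun hc => ⟨hv, ?_⟩, fun hc => ?_⟩
    · obtain ⟨⟨p, hp, hpX⟩, q, hq, hqX⟩ := hc
      refine ⟨⟨p, hp, ?_⟩, q, hq, fun hh => hqX (mem_insert_of_mem hh)⟩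
      rcases mem_insert.1 hpX with rfl | hpX
      · exact absurd hp hv
      · exact hpX
    · obtain ⟨-, ⟨p, hp, hpX⟩, q, hq, hqX⟩ := hc
      refine ⟨⟨p, hp, mem_insert_of_mem hpX⟩, q, hq, fun hh => ?_⟩
      rcases mem_insert.1 hh with rfl | hh
      · exact hv hq
      · exact hqX hh

theorem dg_elim {B I : Type} [Fintype I] {e : I → Finset B} {v : B} {i₀ i₁ i₂ i₃ : I}
    {a b x₁ x₂ x₃ : B} (h : Star e v i₀ i₁ i₂ i₃ a b x₁ x₂ x₃) (X : Finset B) :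
    dg (elim e v i₀ i₁ i₂ i₃ a b x₁ x₂ x₃) X =
      dd e v X + (ind ((a ∈ X ∨ b ∈ X ∨ x₁ ∈ X) ∧ (a ∉ X ∨ b ∉ X ∨ x₁ ∉ X)) +
        ind ((x₂ ∈ X ∨ x₃ ∈ X) ∧ (x₂ ∉ X ∨ x₃ ∉ X))) := by
  have e0 : elim e v i₀ i₁ i₂ i₃ a b x₁ x₂ x₃ i₀ = {a, b, x₁} := by
    unfold elim
    rw [if_pos rfl]
  have e1 : elim e v i₀ i₁ i₂ i₃ a b x₁ x₂ x₃ i₁ = ∅ := by
    unfold elim
    rw [if_neg h.i01.symm, if_pos rfl]
  have e2 : elim e v i₀ i₁ i₂ i₃ a b x₁ x₂ x₃ i₂ = {x₂, x₃} := by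
    unfold elim
    rw [if_neg h.i02.symm, if_neg h.i12.symm, if_pos rfl]
  have e3 : elim e v i₀ i₁ i₂ i₃ a b x₁ x₂ x₃ i₃ = ∅ := by
    unfold elim
    rw [if_neg h.i03.symm, if_neg h.i13.symm, if_neg h.i23.symm, if_pos rfl]
  rw [dg, split4 h X _ ?_]
  · rw [e0, e1, e2, e3, ind_congr (crosses_three a b x₁ X), ind_congr (crosses_two x₂ x₃ X),
      ind_false (not_crosses_empty X)]
    omega
  · intro i h0 h1 h2' h3'
    have ei : elim e v i₀ i₁ i₂ i₃ a b x₁ x₂ x₃ i = (e i).erase v := by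
      unfold elim
      rw [if_neg h0, if_neg h1, if_neg h2', if_neg h3']
    rw [ei]
    by_cases hv : v ∈ e i
    · refine ⟨fun hc => ?_, fun hc => absurd hv hc.1⟩
      have := two_le_of_crosses hc
      have h5 := card_erase_le (s := e i) (a := v)
      rcases h.only i hv with h4 | h4 | h4 | h4 | h4
      · omega
      · exact absurd h4 h0
      · exact absurd h4 h1
      · exact absurd h4 h2'
      · exact absurd h4 h3'
    · rw [erase_eq_of_notMem hv]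
      exact ⟨fun hc => ⟨hv, hc⟩, fun hc => hc.2⟩

theorem crosses_compl {B : Type} {s B₀ : Finset B} (hs : s ⊆ B₀) (X : Finset B) :
    Crosses s (B₀ \ X) ↔ Crosses s X := by
  constructor
  · rintro ⟨⟨p, hp, hpX⟩, q, hq, hqX⟩
    refine ⟨⟨q, hq, ?_⟩, p, hp, (mem_sdiff.1 hpX).2⟩
    by_contra hh
    exact hqX (mem_sdiff.2 ⟨hs hq, hh⟩)
  · rintro ⟨⟨p, hp, hpX⟩, q, hq, hqX⟩
    exact ⟨⟨q, hq, mem_sdiff.2 ⟨hs hq, hqX⟩⟩, p, hp, fun hh => (mem_sdiff.1 hh).2 hpX⟩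

theorem dg_compl {B I : Type} [Fintype I] {B₀ : Finset B} {e : I → Finset B}
    (he : ∀ i, e i ⊆ B₀) (X : Finset B) : dg e (B₀ \ X) = dg e X := by
  unfold dg
  congr 1
  ext i
  simp only [mem_filter, mem_univ, true_and]
  exact crosses_compl (he i) X

/-- the set `X` is an obstacle to the splitting with `x₁` in the triple -/
def Blocks {B I : Type} [Fintype I] (e : I → Finset B) (B₀ : Finset B) (v a b x₁ x₂ x₃ : B)
    (X : Finset B) : Prop :=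
  X ⊆ B₀.erase v ∧ x₁ ∈ X ∧ x₂ ∉ X ∧ x₃ ∉ X ∧ dd e v X + (ind (a ∉ X) + ind (b ∉ X)) ≤ 4

theorem key_in {B I : Type} [Fintype I] {B₀ : Finset B} {e : I → Finset B} {v : B}
    {i₀ i₁ i₂ i₃ : I} {a b x₁ x₂ x₃ : B} (h : Star e v i₀ i₁ i₂ i₃ a b x₁ x₂ x₃)
    (X : Finset B) (hX : X ⊆ B₀.erase v) (hx : x₁ ∈ X) (hnb : ¬ Blocks e B₀ v a b x₁ x₂ x₃ X) :
    min 5 (min (dg e X) (dg e (insert v X))) ≤ dg (elim e v i₀ i₁ i₂ i₃ a b x₁ x₂ x₃) X := by
  have hvX : v ∉ X := fun hh => (mem_erase.1 (hX hh)).1 rfl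
  by_contra hlt
  rw [dg_elim h, dg_out h X hvX, dg_in h X hvX] at hlt
  refine hnb ⟨hX, hx, fun h2 => hlt ?_, fun h3 => hlt ?_, ?_⟩
  · by_cases h3 : x₃ ∈ X <;> by_cases ha : a ∈ X <;> by_cases hb : b ∈ X <;>
      simp [ind, hx, h2, h3, ha, hb]
  · by_cases h2 : x₂ ∈ X <;> by_cases ha : a ∈ X <;> by_cases hb : b ∈ X <;>
      simp [ind, hx, h2, h3, ha, hb]
  · by_contra h5
    apply hlt
    by_cases h2 : x₂ ∈ X <;> by_cases h3 : x₃ ∈ X <;> by_cases ha : a ∈ X <;>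
      by_cases hb : b ∈ X <;> simp [ind, hx, h2, h3, ha, hb] at h5 ⊢ <;> omega

/-- no obstacle: the new hypergraph has what is needed -/
theorem keeps_of {B I : Type} [Fintype B] [Fintype I] {B₀ : Finset B} {e : I → Finset B} {v : B}
    {i₀ i₁ i₂ i₃ : I} {a b x₁ x₂ x₃ : B} (h : Star e v i₀ i₁ i₂ i₃ a b x₁ x₂ x₃)
    (he : ∀ i, e i ⊆ B₀) (h4 : FourConn B₀ e) (h5 : FiveEss B₀ e) (hv : v ∈ B₀)
    (hB : 4 ≤ B₀.card) (hnb : ∀ X, ¬ Blocks e B₀ v a b x₁ x₂ x₃ X) :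
    Keeps e (elim e v i₀ i₁ i₂ i₃ a b x₁ x₂ x₃) B₀ v := by
  have hmem : ∀ i, ∀ w ∈ e i, w ∈ B₀ := fun i w hw => he i hw
  have ha : a ∈ B₀ := hmem i₀ a (by rw [h.e0]; simp)
  have hb : b ∈ B₀ := hmem i₀ b (by rw [h.e0]; simp)
  have hx1 : x₁ ∈ B₀ := hmem i₁ x₁ (by rw [h.e1]; simp)
  have hx2 : x₂ ∈ B₀ := hmem i₂ x₂ (by rw [h.e2]; simp)
  have hx3 : x₃ ∈ B₀ := hmem i₃ x₃ (by rw [h.e3]; simp)
  set e' := elim e v i₀ i₁ i₂ i₃ a b x₁ x₂ x₃ with he'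
  have hsub : ∀ i, e' i ⊆ B₀.erase v := by
    intro i w hw
    rw [he', elim] at hw
    split_ifs at hw with h0 h1 h2 h3
    · simp only [mem_insert, mem_singleton] at hw
      rcases hw with rfl | rfl | rfl
      · exact mem_erase.2 ⟨h.va.symm, ha⟩
      · exact mem_erase.2 ⟨h.vb.symm, hb⟩
      · exact mem_erase.2 ⟨h.vx1.symm, hx1⟩
    · exact absurd hw (notMem_empty w)
    · simp only [mem_insert, mem_singleton] at hw
      rcases hw with rfl | rfl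
      · exact mem_erase.2 ⟨h.vx2.symm, hx2⟩
      · exact mem_erase.2 ⟨h.vx3.symm, hx3⟩
    · exact absurd hw (notMem_empty w)
    · exact mem_erase.2 ⟨(mem_erase.1 hw).1, he i (mem_erase.1 hw).2⟩
  have key : ∀ X, X ⊆ B₀.erase v → min 5 (min (dg e X) (dg e (insert v X))) ≤ dg e' X := by
    intro X hX
    have hvX : v ∉ X := fun hh => (mem_erase.1 (hX hh)).1 rfl
    by_cases hx : x₁ ∈ X
    · exact key_in h X hX hx (hnb X)
    · have hk := key_in h (B₀.erase v \ X) sdiff_subset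
        (mem_sdiff.2 ⟨mem_erase.2 ⟨h.vx1.symm, hx1⟩, hx⟩) (hnb _)
      rw [← he', dg_compl hsub X] at hk
      have e1 : insert v (B₀.erase v \ X) = B₀ \ X := by
        ext w
        simp only [mem_insert, mem_sdiff, mem_erase]
        constructor
        · rintro (rfl | ⟨⟨_, h1⟩, h2⟩)
          · exact ⟨hv, hvX⟩
          · exact ⟨h1, h2⟩
        · rintro ⟨h1, h2⟩
          by_cases hw : w = v
          · exact Or.inl hw
          · exact Or.inr ⟨⟨hw, h1⟩, h2⟩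
      have e2 : B₀.erase v \ X = B₀ \ insert v X := by
        ext w
        simp only [mem_insert, mem_sdiff, mem_erase]
        tauto
      rw [e1, dg_compl he X, e2, dg_compl he (insert v X)] at hk
      rw [min_comm (dg e X)]
      exact hk
  have hcard : (B₀.erase v).card + 1 = B₀.card := card_erase_add_one hv
  have hins : ∀ X, X ⊆ B₀.erase v → insert v X ⊆ B₀ := by
    intro X hX w hw
    rcases mem_insert.1 hw with rfl | hw
    · exact hv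
    · exact (mem_erase.1 (hX hw)).2
  have hci : ∀ X, X ⊆ B₀.erase v → (insert v X).card = X.card + 1 := by
    intro X hX
    exact card_insert_of_notMem fun hh => (mem_erase.1 (hX hh)).1 rfl
  refine ⟨?_, ?_, ?_⟩
  · intro X hX hne hneq
    have h1 := key X hX
    have h2 : 4 ≤ dg e X := h4 X (hX.trans (erase_subset _ _)) hne fun hh => by
      have hvX : v ∉ X := fun hh' => (mem_erase.1 (hX hh')).1 rfl
      exact hvX (hh ▸ hv)
    have h3 : 4 ≤ dg e (insert v X) := h4 _ (hins X hX) (insert_nonempty _ _) fun hh => by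
      apply hneq
      rw [← hh, erase_insert fun hh' => (mem_erase.1 (hX hh')).1 rfl]
    have h6 : 4 ≤ dg e' X := le_trans (le_min (by norm_num) (le_min h2 h3)) h1
    exact h6
  · intro X hX h2 h3
    have h1 := key X hX
    have h6 : 5 ≤ dg e X := h5 X (hX.trans (erase_subset _ _)) h2 (by omega)
    have h7 : 5 ≤ dg e (insert v X) :=
      h5 _ (hins X hX) (by rw [hci X hX]; omega) (by rw [hci X hX]; omega)
    have h8 : 5 ≤ dg e' X := le_trans (le_min le_rfl (le_min h6 h7)) h1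
    exact h8
  · intro w hw h5w
    have hX : ({w} : Finset B) ⊆ B₀.erase v := by simpa using hw
    have h1 := key {w} hX
    have h7 : 5 ≤ dg e (insert v {w}) :=
      h5 _ (hins _ hX) (by rw [hci _ hX, card_singleton]) (by rw [hci _ hX, card_singleton]; omega)
    exact le_trans (le_min le_rfl (le_min h5w h7)) h1

/-- the cut lemma -/
theorem rowCut4 (B I : Type) [Fintype B] [Fintype I] (B₀ : Finset B) (e : I → Finset B) (v : B)
    (i₀ i₁ i₂ i₃ : I) (a b x₁ x₂ x₃ : B)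
    (he : ∀ i, e i ⊆ B₀ ∧ (e i).card ≤ 3) (h4 : FourConn B₀ e) (h5 : FiveEss B₀ e)
    (hB : 4 ≤ B₀.card) (hv : v ∈ B₀)
    (h : Star e v i₀ i₁ i₂ i₃ a b x₁ x₂ x₃) (hx1 : 5 ≤ dg e {x₁}) (hx2 : 5 ≤ dg e {x₂})
    (hx3 : 5 ≤ dg e {x₃}) :
    Keeps e (elim e v i₀ i₁ i₂ i₃ a b x₁ x₂ x₃) B₀ v ∨
    Keeps e (elim e v i₀ i₂ i₁ i₃ a b x₂ x₁ x₃) B₀ v ∨
    Keeps e (elim e v i₀ i₃ i₁ i₂ a b x₃ x₁ x₂) B₀ v := by
  by_cases c1 : ∃ X, Blocks e B₀ v a b x₁ x₂ x₃ X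
  swap
  · exact Or.inl (keeps_of h (fun i => (he i).1) h4 h5 hv hB (not_exists.1 c1))
  by_cases c2 : ∃ X, Blocks e B₀ v a b x₂ x₁ x₃ X
  swap
  · exact Or.inr (Or.inl
      (keeps_of h.swap12 (fun i => (he i).1) h4 h5 hv hB (not_exists.1 c2)))
  by_cases c3 : ∃ X, Blocks e B₀ v a b x₃ x₁ x₂ X
  swap
  · exact Or.inr (Or.inr
      (keeps_of h.swap23.swap12 (fun i => (he i).1) h4 h5 hv hB (not_exists.1 c3)))
  exfalso
  obtain ⟨X₁, s1, m11, m12, m13, d1⟩ := c1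
  obtain ⟨X₂, s2, m22, m21, m23, d2⟩ := c2
  obtain ⟨X₃, s3, m33, m31, m32, d3⟩ := c3
  have hxB1 : x₁ ∈ B₀ := (mem_erase.1 (s1 m11)).2
  have hxB2 : x₂ ∈ B₀ := (mem_erase.1 (s2 m22)).2
  have hxB3 : x₃ ∈ B₀ := (mem_erase.1 (s3 m33)).2
  have hsum : dd e v (X₁ ∩ X₂ ∩ X₃) + (dd e v (X₁ \ (X₂ ∪ X₃)) + dd e v (X₂ \ (X₁ ∪ X₃)) +
      dd e v (X₃ \ (X₁ ∪ X₂))) ≤ dd e v X₁ + dd e v X₂ + dd e v X₃ := by
    unfold dd
    simp only [card_filter_ind]
    simp only [← sum_add_distrib]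
    refine sum_le_sum fun i _ => ?_
    by_cases hvi : v ∈ e i
    · have hf : ∀ X, ind (v ∉ e i ∧ Crosses (e i) X) = 0 := fun X => ind_false fun hh => hh.1 hvi
      simp only [hf]
      omega
    · have hf : ∀ X, ind (v ∉ e i ∧ Crosses (e i) X) = ind (Crosses (e i) X) :=
        fun X => ind_congr ⟨fun hh => hh.2, fun hh => ⟨hvi, hh⟩⟩
      simp only [hf]
      exact cross_ineq (e i) (he i).2 X₁ X₂ X₃
  have hY : ∀ (Y : Finset B) (x y : B), Y ⊆ B₀.erase v → x ∈ Y → y ∈ B₀ → y ≠ v → y ∉ Y →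
      5 ≤ dg e {x} → 5 ≤ dg e Y := by
    intro Y x y hYs hx hy hyv hyY hdx
    have hvY : v ∉ Y := fun hh => (mem_erase.1 (hYs hh)).1 rfl
    by_cases hc : 2 ≤ Y.card
    · refine h5 Y (hYs.trans (erase_subset _ _)) hc ?_
      have hs : insert v (insert y Y) ⊆ B₀ := by
        intro w hw
        rcases mem_insert.1 hw with rfl | hw
        · exact hv
        · rcases mem_insert.1 hw with rfl | hw
          · exact hy
          · exact (mem_erase.1 (hYs hw)).2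
      have := card_le_card hs
      rw [card_insert_of_notMem, card_insert_of_notMem hyY] at this
      · exact this
      · intro hh
        rcases mem_insert.1 hh with hh | hh
        · exact hyv hh.symm
        · exact hvY hh
    · have h1 : Y = {x} := by
        apply (eq_of_subset_of_card_le (singleton_subset_iff.2 hx) _).symm
        rw [card_singleton]
        omega
      rw [h1]
      exact hdx
  have y1 : 5 ≤ dg e (X₁ \ (X₂ ∪ X₃)) :=
    hY _ x₁ x₂ (sdiff_subset.trans s1) (by simp [m11, m21, m31]) hxB2 h.vx2.symm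
      (by simp [m12]) hx1
  have y2 : 5 ≤ dg e (X₂ \ (X₁ ∪ X₃)) :=
    hY _ x₂ x₁ (sdiff_subset.trans s2) (by simp [m22, m12, m32]) hxB1 h.vx1.symm
      (by simp [m21]) hx2
  have y3 : 5 ≤ dg e (X₃ \ (X₁ ∪ X₂)) :=
    hY _ x₃ x₁ (sdiff_subset.trans s3) (by simp [m33, m13, m23]) hxB1 h.vx1.symm
      (by simp [m31]) hx3
  have v1 : v ∉ X₁ := fun hh => (mem_erase.1 (s1 hh)).1 rfl
  have v2 : v ∉ X₂ := fun hh => (mem_erase.1 (s2 hh)).1 rfl
  have v3 : v ∉ X₃ := fun hh => (mem_erase.1 (s3 hh)).1 rfl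
  have z1 : 4 ≤ dg e (X₁ ∩ X₂ ∩ X₃) ∨ X₁ ∩ X₂ ∩ X₃ = ∅ := by
    rcases (X₁ ∩ X₂ ∩ X₃).eq_empty_or_nonempty with hz | hz
    · exact Or.inr hz
    · refine Or.inl (h4 _ (fun w hw => ?_) hz fun hh => ?_)
      · exact (mem_erase.1 (s1 (mem_inter.1 (mem_inter.1 hw).1).1)).2
      · have : v ∈ X₁ ∩ X₂ ∩ X₃ := hh ▸ hv
        exact v1 (mem_inter.1 (mem_inter.1 this).1).1
  rw [dg_out h _ (by simp [v1])] at y1
  rw [dg_out h _ (by simp [v2])] at y2
  rw [dg_out h _ (by simp [v3])] at y3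
  have z2 : a ∈ X₁ ∩ X₂ ∩ X₃ ∨ b ∈ X₁ ∩ X₂ ∩ X₃ → 3 ≤ dd e v (X₁ ∩ X₂ ∩ X₃) := by
    intro hab
    rcases z1 with z1 | z1
    · rw [dg_out h _ (by simp [v1]), ind_false (p := x₁ ∈ X₁ ∩ X₂ ∩ X₃) (by simp [m21]),
        ind_false (p := x₂ ∈ X₁ ∩ X₂ ∩ X₃) (by simp [m12]),
        ind_false (p := x₃ ∈ X₁ ∩ X₂ ∩ X₃) (by simp [m13])] at z1
      have := ind_le (a ∈ X₁ ∩ X₂ ∩ X₃ ∨ b ∈ X₁ ∩ X₂ ∩ X₃)
      omega
    · rw [z1] at hab
      simp at hab
  rw [ind_false (p := x₂ ∈ X₁ \ (X₂ ∪ X₃)) (by simp [m12]),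
    ind_false (p := x₃ ∈ X₁ \ (X₂ ∪ X₃)) (by simp [m13])] at y1
  rw [ind_false (p := x₁ ∈ X₂ \ (X₁ ∪ X₃)) (by simp [m21]),
    ind_false (p := x₃ ∈ X₂ \ (X₁ ∪ X₃)) (by simp [m23])] at y2
  rw [ind_false (p := x₁ ∈ X₃ \ (X₁ ∪ X₂)) (by simp [m31]),
    ind_false (p := x₂ ∈ X₃ \ (X₁ ∪ X₂)) (by simp [m32])] at y3
  have w1 := ind_le (x₁ ∈ X₁ \ (X₂ ∪ X₃))
  have w2 := ind_le (x₂ ∈ X₂ \ (X₁ ∪ X₃))
  have w3 := ind_le (x₃ ∈ X₃ \ (X₁ ∪ X₂))
  generalize ind (x₁ ∈ X₁ \ (X₂ ∪ X₃)) = t1 at *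
  generalize ind (x₂ ∈ X₂ \ (X₁ ∪ X₃)) = t2 at *
  generalize ind (x₃ ∈ X₃ \ (X₁ ∪ X₂)) = t3 at *
  generalize dd e v (X₁ ∩ X₂ ∩ X₃) = dz at *
  generalize dd e v (X₁ \ (X₂ ∪ X₃)) = u1 at *
  generalize dd e v (X₂ \ (X₁ ∪ X₃)) = u2 at *
  generalize dd e v (X₃ \ (X₁ ∪ X₂)) = u3 at *
  clear hY z1
  simp only [mem_inter, mem_sdiff, mem_union] at y1 y2 y3 z2
  by_cases a1 : a ∈ X₁ <;> by_cases a2 : a ∈ X₂ <;> by_cases a3 : a ∈ X₃ <;>
  by_cases b1 : b ∈ X₁ <;> by_cases b2 : b ∈ X₂ <;> by_cases b3 : b ∈ X₃ <;>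
  simp [ind, a1, a2, a3, b1, b2, b3] at y1 y2 y3 z2 d1 d2 d3 <;> omega

end TS

end Pool.Agent.ClawHam
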