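import Pool.Agent.Lib.MP_e2dbb5_co.TS0
import Pool.Agent.Lib.MP_e2dbb5_co.GKV2

/-!
# Row R2 (helper69)
-/

set_option autoImplicit false

noncomputable section

namespace Pool.Agent.ClawHam

namespace TS

theorem rowKA : RowKA := fun _ _ _ _ _ _ _ f hf e P hP h =>
  GK.algE_of_certK_emb f hf e P hP h

end TS

end Pool.Agent.ClawHam
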