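import Pool.Agent.Lib.MP_e2dbb5_co.TSInd
import Pool.Agent.Lib.MP_e2dbb5_co.TSRel
import Pool.Agent.Lib.MP_e2dbb5_co.TSBad

/-!
# Claw-free graphs with at most six bad spots (helper14)
-/

set_option autoImplicit false

open Finset

noncomputable section

namespace Pool.Agent.ClawHam

open Classical

namespace TS

/-- The main theorem for graphs with at most `m` bad spots. -/
theorem mainTS (m : ℕ) (hyp' : HypTS m) (V : Type) [Fintype V] [DecidableEq V]
    (G : SimpleGraph V) (hN : NoSmallCut G) (h3 : 3 ≤ Fintype.card V) (hclaw : ClawFree G)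
    (hm : (univ.filter fun Q : Finset V => BadSpot G Q).card ≤ m) :
    G.IsHamiltonian := by
  obtain ⟨G', hle, hcf, hcl, hham⟩ := (rowD2 rowd1) V G hclaw
  refine rowE5 V G (hham ?_)
  have hN' : NoSmallCut G' := by
    intro S A C h1 h2 h4 h5 h6 h7 h8
    exact hN S A C h1 h2 h4 h5 h6 h7 fun a ha c hc hac => h8 a ha c hc (hle hac)
  by_cases hcomp : ∀ u v, u ≠ v → G'.Adj u v
  · exact ham_of_complete G' h3 hcomp
  push Not at hcomp
  have hcompG : ∃ u v, u ≠ v ∧ ¬ G.Adj u v := by
    obtain ⟨u, v, h1, h2⟩ := hcomp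
    exact ⟨u, v, h1, fun h => h2 (hle h)⟩
  have hiso : ∀ v, ∃ w, G'.Adj v w := by
    intro v
    by_contra hno
    push Not at hno
    have h5 := hN' ∅ {v} ({v}ᶜ) (by
        intro w
        simp only [notMem_empty, mem_singleton, mem_compl, false_or]
        exact Classical.em _)
      (by simp) (by simp) (by simp) (singleton_nonempty v)
      (by
        rw [← card_pos, card_compl, card_singleton]
        omega)
      (by
        intro a ha c _ hac
        rw [mem_singleton] at ha
        rw [ha] at hac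
        exact hno c hac)
    simp at h5
  obtain ⟨C, _, inc, hK⟩ := D3.rowD3 V G' hcf hcl hiso
  have hbig := rowc0 V C G' inc hK hN' hcomp
  obtain ⟨hr, hfour⟩ := rowc1 V C G' inc hK hN' hbig
  have heven := rowRel m hyp' C (V ⊕ C) (bigs inc) (Pool.Agent.ClawHam.hyp inc) hr hfour
    (rowc5 V C G' inc hK hN' hbig) (by
      refine le_trans ?_ hm
      refine card_le_card_of_injOn (fun K => univ.filter fun v => inc v K) ?_ ?_
      · intro K hKm
        obtain ⟨h2, h4, h5⟩ := (mem_filter.1 hKm).2
        exact mem_filter.2 ⟨mem_univ _, rowBad V C G G' inc hle hclaw hcl hK hN hN' hcompG hbig K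
          (mem_filter.1 h2).2 h4 h5⟩
      · intro K hKm L hLm hKL
        obtain ⟨h2, -, -⟩ := (mem_filter.1 hKm).2
        have hbK : Big inc K := (mem_filter.1 h2).2
        unfold Big at hbK
        obtain ⟨a, ha, b, hb, hab⟩ := one_lt_card.1 (by omega : 1 <
          (univ.filter fun v => inc v K).card)
        have ha' : a ∈ univ.filter fun v => inc v L := by
          rw [← show (univ.filter fun v => inc v K) = univ.filter fun v => inc v L from hKL]
          exact ha
        have hb' : b ∈ univ.filter fun v => inc v L := by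
          rw [← show (univ.filter fun v => inc v K) = univ.filter fun v => inc v L from hKL]
          exact hb
        exact hK.uniq a b K L hab (mem_filter.1 ha).2 (mem_filter.1 hb).2 (mem_filter.1 ha').2
          (mem_filter.1 hb').2)
  have htwo : 2 ≤ (bigs inc).card := by
    by_contra hlt
    obtain ⟨u, v, huv, hadj⟩ := hcomp
    obtain ⟨K, hK1, hK2⟩ := hbig u
    obtain ⟨L, hL1, hL2⟩ := hbig v
    have hKL : K = L := by
      have h1 : (bigs inc).card ≤ 1 := by omega
      rw [card_le_one] at h1
      exact h1 K (by simp [bigs, hK1]) L (by simp [bigs, hL1])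
    exact hadj ((hK.adj_iff u v).2 ⟨huv, K, hK2, by rw [hKL]; exact hL2⟩)
  obtain ⟨F, hF⟩ := rowe1 V C G' inc hK hbig htwo heven
  obtain ⟨σ, hσ1, hσ2⟩ := rowe3 V C inc F hK.two hF (rowe2 V C inc F hK.two hK.ex hF.two hF.even)
  exact E4.rowE4 V G' σ h3 hσ1 fun v hv => (hK.adj_iff v (σ v)).2 ⟨hv, hσ2 v⟩

/-- at most six bad spots -/
theorem mainTS6 (V : Type) [Fintype V] [DecidableEq V] (G : SimpleGraph V) (hN : NoSmallCut G)
    (h3 : 3 ≤ Fintype.card V) (hclaw : ClawFree G)
    (hm : (univ.filter fun Q : Finset V => BadSpot G Q).card ≤ 6) : G.IsHamiltonian :=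
  mainTS 6 hypTS_six V G hN h3 hclaw hm

end TS

end Pool.Agent.ClawHam
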