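import Pool.Agent.Lib.MP_e2dbb5_co.TS0

/-!
# Three sets: an inequality for cuts of hypergraphs of rank three (helper90)
-/

set_option autoImplicit false
set_option linter.unusedSectionVars false

open Finset

noncomputable section

namespace Pool.Agent.ClawHam

open Classical

namespace TS

variable {B : Type}

/-- `0` or `1` -/
def cr (s X : Finset B) : ℕ := if Crosses s X then 1 else 0

theorem three_cases {s : Finset B} (h : s.card ≤ 3) : s = ∅ ∨ ∃ u v w, s = {u, v, w} := by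
  have h1 : s.card = 0 ∨ s.card = 1 ∨ s.card = 2 ∨ s.card = 3 := by omega
  rcases h1 with h1 | h1 | h1 | h1
  · exact Or.inl (card_eq_zero.1 h1)
  · obtain ⟨u, rfl⟩ := card_eq_one.1 h1
    exact Or.inr ⟨u, u, u, by simp⟩
  · obtain ⟨u, v, -, rfl⟩ := card_eq_two.1 h1
    exact Or.inr ⟨u, u, v, by simp⟩
  · obtain ⟨u, v, w, -, -, -, rfl⟩ := card_eq_three.1 h1
    exact Or.inr ⟨u, v, w, rfl⟩

theorem cr_empty (X : Finset B) : cr ∅ X = 0 := by
  unfold cr
  rw [if_neg]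
  rintro ⟨⟨a, ha, -⟩, -⟩
  exact notMem_empty a ha

/-- crossing of a set with three elements -/
def cb (a b c : Bool) : ℕ := if (a || b || c) && !(a && b && c) then 1 else 0

theorem cr_three (u v w : B) (X : Finset B) :
    cr {u, v, w} X = cb (decide (u ∈ X)) (decide (v ∈ X)) (decide (w ∈ X)) := by
  have h : Crosses {u, v, w} X ↔ ((decide (u ∈ X) || decide (v ∈ X) || decide (w ∈ X)) &&
      !(decide (u ∈ X) && decide (v ∈ X) && decide (w ∈ X))) = true := by
    unfold Crosses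
    simp only [mem_insert, mem_singleton]
    by_cases h1 : u ∈ X <;> by_cases h2 : v ∈ X <;> by_cases h3 : w ∈ X <;> simp [h1, h2, h3]
  unfold cr cb
  by_cases h1 : Crosses {u, v, w} X
  · rw [if_pos h1, if_pos (h.1 h1)]
  · rw [if_neg h1, if_neg fun h2 => h1 (h.2 h2)]

theorem cb_three : ∀ a1 a2 a3 b1 b2 b3 c1 c2 c3 : Bool,
    cb (a1 && a2 && a3) (b1 && b2 && b3) (c1 && c2 && c3) +
      cb (a1 && !a2 && !a3) (b1 && !b2 && !b3) (c1 && !c2 && !c3) +
      cb (a2 && !a1 && !a3) (b2 && !b1 && !b3) (c2 && !c1 && !c3) +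
      cb (a3 && !a1 && !a2) (b3 && !b1 && !b2) (c3 && !c1 && !c2) ≤
    cb a1 b1 c1 + cb a2 b2 c2 + cb a3 b3 c3 := by decide

theorem cr_le {s : Finset B} (h : s.card ≤ 3) (X₁ X₂ X₃ : Finset B) :
    cr s (X₁ ∩ X₂ ∩ X₃) + cr s ((X₁ \ X₂) \ X₃) + cr s ((X₂ \ X₁) \ X₃) + cr s ((X₃ \ X₁) \ X₂) ≤
      cr s X₁ + cr s X₂ + cr s X₃ := by
  rcases three_cases h with rfl | ⟨u, v, w, rfl⟩
  · simp only [cr_empty]
    omega
  · simp only [cr_three, mem_inter, mem_sdiff, Bool.decide_and, decide_not]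
    exact cb_three _ _ _ _ _ _ _ _ _

/-- the number of hyperedges in `J` which cross `X` -/
def dJ {I : Type} (J : Finset I) (e : I → Finset B) (X : Finset B) : ℕ :=
  (J.filter fun i => Crosses (e i) X).card

theorem dJ_eq {I : Type} (J : Finset I) (e : I → Finset B) (X : Finset B) :
    dJ J e X = ∑ i ∈ J, cr (e i) X := by
  unfold dJ cr
  rw [card_filter]

/-- **the inequality for three sets** -/
theorem dJ_le {I : Type} (J : Finset I) (e : I → Finset B) (h : ∀ i ∈ J, (e i).card ≤ 3)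
    (X₁ X₂ X₃ : Finset B) :
    dJ J e (X₁ ∩ X₂ ∩ X₃) + dJ J e ((X₁ \ X₂) \ X₃) + dJ J e ((X₂ \ X₁) \ X₃) +
      dJ J e ((X₃ \ X₁) \ X₂) ≤ dJ J e X₁ + dJ J e X₂ + dJ J e X₃ := by
  simp only [dJ_eq, ← sum_add_distrib]
  exact sum_le_sum fun i hi => cr_le (h i hi) X₁ X₂ X₃

end TS

end Pool.Agent.ClawHam
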