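import Pool.Agent.Lib.MP_e2dbb5_co.TSCount

/-!
# The bridge count for sets of triples, and the count of triples with a vertex of degree four
(helper49; the proofs of `cntS` and `certK_or_partS` are the ones of helper81 for `cnt` and
`certK_or_part`, with a stronger conclusion)
-/

set_option autoImplicit false

open Finset

noncomputable section

namespace Pool.Agent.ClawHam

open Classical

namespace Sk

/-- the bridge count, for all sets of triples -/
def CNTS : Prop :=
  ∀ (B I : Type) [Fintype B] [Nonempty B] [Fintype I] (e p : I → Finset B),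
    (∀ i, (e i).card = 2 ∨ (e i).card = 3) → Leg e p → ∀ R : Setoid B, R ≠ ⊤ →
      (∀ i, ∀ x ∈ p i, ∀ y ∈ p i, ¬ R x y →
        ¬ (sInf {E : Setoid B | R ≤ E ∧ ∀ j, j ≠ i → ∀ a ∈ p j, ∀ b ∈ p j, E a b}) x y) →
      (∀ i, (∀ a ∈ p i, ∀ b ∈ p i, R a b) → ∀ x ∈ e i, ∀ y ∈ e i, ¬ R x y →
        ¬ (sInf {E : Setoid B | R ≤ E ∧ ∀ j, j ≠ i → (∀ a ∈ p j, ∀ b ∈ p j, R a b) →
          ∀ a ∈ e j, ∀ b ∈ e j, E a b}) x y) →
      ¬ ((sInf {E : Setoid B | R ≤ E ∧ ∀ j, ∀ a ∈ p j, ∀ b ∈ p j, E a b}) = ⊤ ∧
        (sInf {E : Setoid B | R ≤ E ∧ ∀ j, (∀ a ∈ p j, ∀ b ∈ p j, R a b) →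
          ∀ a ∈ e j, ∀ b ∈ e j, E a b}) = ⊤) →
      ∃ (J : Finset I), (∀ i ∈ J, (e i).card = 3 ∧ ∀ x ∈ e i, ∀ y ∈ e i, x ≠ y → ¬ R x y) ∧
        (univ.filter fun i => ((e i).image (Quotient.mk R)).card = 2).card +
          2 * (univ.filter fun i => ((e i).image (Quotient.mk R)).card = 3).card + 3 ≤
          2 * Fintype.card (Quotient R) + J.card ∧
        (∀ J' ⊆ J, J'.Nonempty → J'.card + 1 ≤ (univ.filter fun q : Quotient R =>
          ∃ i ∈ J', ∃ x ∈ e i, Quotient.mk R x = q).card)

theorem cntS : CNTS := by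
  intro B I _ _ _ e p he hleg R hR hT hC hN
  set J0 : Finset I := univ.filter fun i => ∃ x ∈ p i, ∃ y ∈ p i, ¬ R x y with hJ0
  set L : Finset I := univ.filter fun i => ¬ ∃ x ∈ p i, ∃ y ∈ p i, ¬ R x y with hL
  have hLmem : ∀ i, i ∈ L ↔ ∀ a ∈ p i, ∀ b ∈ p i, R a b := by
    intro i
    rw [hL, Finset.mem_filter]
    push Not
    exact ⟨fun h => h.2, fun h => ⟨Finset.mem_univ _, h⟩⟩
  -- the trees
  have brT : ∀ S : Finset I, S ⊆ J0 → ∀ g ∈ S, ∀ x ∈ p g, ∀ y ∈ p g, ¬ R x y →
      ¬ jf R p (S.erase g) x y := by
    intro S _ g _ x hx y hy hxy h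
    refine hT g x hx y hy hxy (sInf_rel.2 fun E hE => ?_)
    exact sInf_rel.1 h E ⟨hE.1, fun j hj => hE.2 j (Finset.ne_of_mem_erase hj)⟩
  have brC : ∀ g ∈ L, ∀ x ∈ e g, ∀ y ∈ e g, ¬ R x y → ¬ jf R e (L.erase g) x y := by
    intro g hg x hx y hy hxy h
    refine hC g ((hLmem g).1 hg) x hx y hy hxy (sInf_rel.2 fun E hE => ?_)
    exact sInf_rel.1 h E ⟨hE.1, fun j hj => hE.2 j (Finset.ne_of_mem_erase hj)
      ((hLmem j).1 (Finset.mem_of_mem_erase hj))⟩
  have c1 := bridge_count R p J0 (brT J0 (Finset.Subset.refl _))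
  have c2 := bridge_count R e L brC
  -- the pairs
  have hpair : ∀ i ∈ J0, ((p i).image (Quotient.mk R)).card = 2 := by
    intro i hi
    obtain ⟨x, hx, y, hy, hxy⟩ := (Finset.mem_filter.1 hi).2
    have h1 : (p i).card ≤ 2 := by
      rcases hleg.1 i with h | h
      · rw [h]
        simp
      · omega
    have h2 := Finset.card_image_le (s := p i) (f := Quotient.mk R)
    have h3 : 1 < ((p i).image (Quotient.mk R)).card :=
      Finset.one_lt_card.2 ⟨_, Finset.mem_image_of_mem _ hx, _, Finset.mem_image_of_mem _ hy,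
        fun h => hxy (Quotient.exact h)⟩
    omega
  have hs1 : ∑ g ∈ J0, (((p g).image (Quotient.mk R)).card - 1) = J0.card := by
    rw [Finset.card_eq_sum_ones]
    exact Finset.sum_congr rfl fun i hi => by rw [hpair i hi]
  -- not both connected
  have hnot : 3 ≤ ncl (jf R p J0) + ncl (jf R e L) := by
    have h1 := ncl_pos (jf R p J0)
    have h2 := ncl_pos (jf R e L)
    by_contra hlt
    apply hN
    constructor
    · have h3 : jf R p J0 = ⊤ := by
        by_contra h
        have := ncl_two h
        omega
      rw [eq_top_iff, ← h3]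
      refine le_sInf fun E hE => jf_le hE.1 fun j _ => hE.2 j
    · have h3 : jf R e L = ⊤ := by
        by_contra h
        have := ncl_two h
        omega
      rw [eq_top_iff, ← h3]
      refine le_sInf fun E hE => jf_le hE.1 fun j hj => hE.2 j ((hLmem j).1 hj)
  -- sizes
  have hle3 : ∀ i, ((e i).image (Quotient.mk R)).card ≤ 3 := by
    intro i
    have := Finset.card_image_le (s := e i) (f := Quotient.mk R)
    rcases he i with h | h <;> omega
  have hge1 : ∀ i, 1 ≤ ((e i).image (Quotient.mk R)).card := by
    intro i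
    rw [Nat.succ_le_iff, Finset.card_pos, Finset.image_nonempty, ← Finset.card_pos]
    rcases he i with h | h <;> omega
  set J : Finset I := J0.filter fun i => ((e i).image (Quotient.mk R)).card = 3 with hJ
  have hJJ0 : J ⊆ J0 := Finset.filter_subset _ _
  refine ⟨J, ?_, ?_, ?_⟩
  · intro i hi
    have h1 := (Finset.mem_filter.1 hi).2
    have h2 : (e i).card = 3 := by
      have := Finset.card_image_le (s := e i) (f := Quotient.mk R)
      rcases he i with h | h <;> omega
    refine ⟨h2, fun x hx y hy hxy h => hxy ?_⟩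
    have h3 := Finset.card_image_iff.1 (h1.trans h2.symm)
    exact h3 hx hy (Quotient.sound h)
  · have h1 : (univ.filter fun i => ((e i).image (Quotient.mk R)).card = 2).card +
        2 * (univ.filter fun i => ((e i).image (Quotient.mk R)).card = 3).card =
        ∑ i, (((e i).image (Quotient.mk R)).card - 1) := by
      rw [Finset.card_filter, Finset.card_filter, Finset.mul_sum, ← Finset.sum_add_distrib]
      refine Finset.sum_congr rfl fun i _ => ?_
      have := hle3 i
      have := hge1 i
      split_ifs <;> omega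
    have h2 : ∑ i, (((e i).image (Quotient.mk R)).card - 1) =
        ∑ i ∈ J0, (((e i).image (Quotient.mk R)).card - 1) +
        ∑ i ∈ L, (((e i).image (Quotient.mk R)).card - 1) :=
      (Finset.sum_filter_add_sum_filter_not univ _ _).symm
    have h3 : ∑ i ∈ J0, (((e i).image (Quotient.mk R)).card - 1) = J0.card + J.card := by
      have e1 : J0.card = ∑ _i ∈ J0, 1 := Finset.card_eq_sum_ones _
      have e2 : J.card = ∑ i ∈ J0, if ((e i).image (Quotient.mk R)).card = 3 then 1 else 0 := by
        rw [hJ, Finset.card_filter]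
      rw [e1, e2, ← Finset.sum_add_distrib]
      refine Finset.sum_congr rfl fun i hi => ?_
      have h4 : ((p i).image (Quotient.mk R)).card ≤ ((e i).image (Quotient.mk R)).card :=
        Finset.card_le_card (Finset.image_subset_image (hleg.2 i))
      have h5 := hpair i hi
      have h6 := hle3 i
      split_ifs <;> omega
    have hn : Fintype.card (Quotient R) = ncl R := Fintype.card_congr (Equiv.refl _)
    rw [hn]
    omega
  · intro J' hJ'J hJne
    have hJJ0' : J' ⊆ J0 := hJ'J.trans hJJ0
    have c3 := bridge_count R p J' (brT J' hJJ0')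
    have hs3 : ∑ g ∈ J', (((p g).image (Quotient.mk R)).card - 1) = J'.card := by
      rw [Finset.card_eq_sum_ones]
      exact Finset.sum_congr rfl fun i hi => by rw [hpair i (hJJ0' hi)]
    set P : Finset B := J'.biUnion e with hP
    have hPne : P.Nonempty := by
      obtain ⟨i, hi⟩ := hJne
      have h1 : (e i).Nonempty := by
        rw [← Finset.card_pos]
        rcases he i with h | h <;> omega
      obtain ⟨x, hx⟩ := h1
      exact ⟨x, Finset.mem_biUnion.2 ⟨i, hi, hx⟩⟩
    have h4 : jf R p J' ≤ joinS R (P : Set B) := by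
      refine jf_le (le_joinS _ _) fun j hj a ha b hb => ?_
      exact joinS_mem _ _ (Finset.mem_coe.2 (Finset.mem_biUnion.2 ⟨j, hj, hleg.2 j ha⟩))
        (Finset.mem_coe.2 (Finset.mem_biUnion.2 ⟨j, hj, hleg.2 j hb⟩))
    have h5 := ncl_mono h4
    have h6 := le_ncl_joinS R P hPne
    have h7 : P.image (Quotient.mk R) = univ.filter fun q : Quotient R =>
        ∃ i ∈ J', ∃ x ∈ e i, Quotient.mk R x = q := by
      ext q
      rw [Finset.mem_image, Finset.mem_filter]
      constructor
      · rintro ⟨x, hx, rfl⟩
        obtain ⟨i, hi, hxi⟩ := Finset.mem_biUnion.1 hx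
        exact ⟨Finset.mem_univ _, i, hi, x, hxi, rfl⟩
      · rintro ⟨-, i, hi, x, hx, rfl⟩
        exact ⟨x, Finset.mem_biUnion.2 ⟨i, hi, hx⟩, rfl⟩
    rw [h7] at h6
    omega

end Sk

namespace TS

open Sk in
/-- a certificate, or a partition with few hyperedges (for all sets of triples) -/
theorem certK_or_partS (hS : Sk.SKEL) (hC : Sk.CNTS) (B I : Type) [Fintype B] [Nonempty B] [Fintype I]
    (e : I → Finset B) (he : ∀ i, (e i).card = 2 ∨ (e i).card = 3) : CertK e ∨
    ∃ (c : B → B) (J : Finset I), 2 ≤ (univ.image c).card ∧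
      (∀ i ∈ J, ((e i).image c).card = 3) ∧
      ∑ i, (((e i).image c).card - 1) + 3 ≤ 2 * (univ.image c).card + J.card ∧
      (∀ J' ⊆ J, J' = ∅ ∨ J'.card + 1 ≤ (J'.biUnion fun i => (e i).image c).card) := by
  rcases hS B I e he with h | ⟨p, R, hleg, hR, hT, hL, hN⟩
  · exact Or.inl h
  right
  obtain ⟨J, h1, h2, h3⟩ := hC B I e p he hleg R hR hT hL hN
  -- representatives
  have hinj : Function.Injective (fun q : Quotient R => q.out) := by
    intro q q' h
    have h' : q.out = q'.out := h
    rw [← q.out_eq, ← q'.out_eq, h']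
  have himg : ∀ s : Finset B, s.image (fun b => (Quotient.mk R b).out) =
      (s.image (Quotient.mk R)).image (fun q : Quotient R => q.out) := by
    intro s
    rw [Finset.image_image]
    rfl
  have hcard : ∀ s : Finset B, (s.image (fun b => (Quotient.mk R b).out)).card =
      (s.image (Quotient.mk R)).card := by
    intro s
    rw [himg, Finset.card_image_of_injective _ hinj]
  have huniv : ((univ : Finset B).image (Quotient.mk R)) = univ := by
    rw [Finset.eq_univ_iff_forall]
    intro q
    induction q using Quotient.inductionOn with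
    | h x => exact Finset.mem_image_of_mem _ (Finset.mem_univ x)
  have hp : ((univ : Finset B).image (fun b => (Quotient.mk R b).out)).card =
      Fintype.card (Quotient R) := by
    rw [hcard, huniv, Finset.card_univ]
  have hge1 : ∀ i, 1 ≤ ((e i).image (Quotient.mk R)).card := by
    intro i
    rw [Nat.succ_le_iff, Finset.card_pos, Finset.image_nonempty, ← Finset.card_pos]
    rcases he i with h | h <;> omega
  have hle3 : ∀ i, ((e i).image (Quotient.mk R)).card ≤ 3 := by
    intro i
    have := Finset.card_image_le (s := e i) (f := Quotient.mk R)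
    rcases he i with h | h <;> omega
  refine ⟨fun b => (Quotient.mk R b).out, J, ?_, ?_, ?_, ?_⟩
  · rw [hp]
    by_contra hlt
    apply hR
    rw [eq_top_iff]
    intro x y _
    exact Quotient.exact (Fintype.card_le_one_iff.1 (by omega) (Quotient.mk R x)
      (Quotient.mk R y))
  · intro i hi
    rw [hcard, ← (h1 i hi).1]
    refine Finset.card_image_of_injOn ?_
    intro x hx y hy hxy
    by_contra hne'
    exact (h1 i hi).2 x hx y hy hne' (Quotient.exact hxy)
  · rw [hp]
    have h4 : ∑ i, (((e i).image (fun b => (Quotient.mk R b).out)).card - 1) =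
        (univ.filter fun i => ((e i).image (Quotient.mk R)).card = 2).card +
        2 * (univ.filter fun i => ((e i).image (Quotient.mk R)).card = 3).card := by
      rw [Finset.card_filter, Finset.card_filter, Finset.mul_sum, ← Finset.sum_add_distrib]
      refine Finset.sum_congr rfl fun i _ => ?_
      rw [hcard]
      have := hle3 i
      have := hge1 i
      split_ifs <;> omega
    rw [h4]
    omega
  · intro J' hJ'
    rcases J'.eq_empty_or_nonempty with h | h
    · exact Or.inl h
    · right
      have h5 := h3 J' hJ' h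
      have h6 : (J'.biUnion fun i => (e i).image (fun b => (Quotient.mk R b).out)) =
          (univ.filter fun q : Quotient R => ∃ i ∈ J', ∃ x ∈ e i, Quotient.mk R x = q).image
            (fun q : Quotient R => q.out) := by
        ext b
        rw [Finset.mem_biUnion, Finset.mem_image]
        constructor
        · rintro ⟨i, hi, hb⟩
          obtain ⟨x, hx, rfl⟩ := Finset.mem_image.1 hb
          exact ⟨Quotient.mk R x, Finset.mem_filter.2 ⟨Finset.mem_univ _, i, hi, x, hx, rfl⟩, rfl⟩
        · rintro ⟨q, hq, rfl⟩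
          obtain ⟨i, hi, x, hx, rfl⟩ := (Finset.mem_filter.1 hq).2
          exact ⟨i, hi, Finset.mem_image.2 ⟨x, hx, rfl⟩⟩
      rw [h6, Finset.card_image_of_injective _ hinj]
      exact h5

open Cnt in
/-- a class of degree four which meets a hyperedge with three classes is a single vertex of the
hyperedge -/
theorem low_classS {B I : Type} [Fintype B] [Fintype I] (e : I → Finset B)
    (h5 : FiveEss univ e) (c : B → B) (i₀ : I) (hi : ((e i₀).image c).card = 3) (y : B)
    (hy : y ∈ (e i₀).image c)
    (hd : (univ.filter fun i => Crosses (e i) (univ.filter fun b => c b = y)).card = 4) :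
    ∃ b ∈ e i₀, dg e {b} = 4 := by
  obtain ⟨b, hb, hby⟩ := Finset.mem_image.1 hy
  set X : Finset B := univ.filter fun b => c b = y with hX
  have hbX : b ∈ X := Finset.mem_filter.2 ⟨Finset.mem_univ _, hby⟩
  have h2 : 2 ≤ (univ \ X : Finset B).card := by
    have h3 : ((e i₀).image c).card ≤ (univ \ X : Finset B).card + 1 := by
      have h4 : (e i₀).image c ⊆ insert y ((univ \ X : Finset B).image c) := by
        intro z hz
        obtain ⟨a, ha, haz⟩ := Finset.mem_image.1 hz
        by_cases h5 : z = y
        · exact Finset.mem_insert.2 (Or.inl h5)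
        · refine Finset.mem_insert.2 (Or.inr (Finset.mem_image.2 ⟨a, ?_, haz⟩))
          refine Finset.mem_sdiff.2 ⟨Finset.mem_univ _, fun h6 => h5 ?_⟩
          rw [← haz]
          exact (Finset.mem_filter.1 h6).2
      exact (Finset.card_le_card h4).trans ((Finset.card_insert_le _ _).trans
        (Nat.add_le_add_right Finset.card_image_le 1))
    omega
  have h3 : X.card + (univ \ X : Finset B).card = (univ : Finset B).card := by
    rw [Finset.card_sdiff_of_subset (Finset.subset_univ _)]
    have := Finset.card_le_card (Finset.subset_univ X)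
    omega
  have h4 : X.card ≤ 1 := by
    by_contra hlt
    have := h5 X (Finset.subset_univ _) (by omega) (by omega)
    omega
  have hXb : X = {b} := by
    have h6 : X.card = 1 := by
      have := Finset.card_pos.2 ⟨b, hbX⟩
      omega
    obtain ⟨a, ha⟩ := Finset.card_eq_one.1 h6
    rw [ha] at hbX
    rw [ha, Finset.mem_singleton.1 hbX]
  refine ⟨b, hb, ?_⟩
  unfold dg
  rw [← hXb]
  exact hd

open Cnt in
/-- at least six triples contain a vertex of degree four -/
theorem six_of_part (B I : Type) [Fintype B] [Fintype I] (e : I → Finset B)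
    (he : ∀ i, (e i).card = 2 ∨ (e i).card = 3) (h4 : FourConn univ e) (h5 : FiveEss univ e)
    (c : B → B) (J : Finset I) (hp : 2 ≤ (univ.image c).card)
    (hJ3 : ∀ i ∈ J, ((e i).image c).card = 3)
    (hsum : ∑ i, (((e i).image c).card - 1) + 3 ≤ 2 * (univ.image c).card + J.card)
    (hJ : ∀ J' ⊆ J, J' = ∅ ∨ J'.card + 1 ≤ (J'.biUnion fun i => (e i).image c).card) :
    6 ≤ (univ.filter fun i => (e i).card = 3 ∧ ∃ K ∈ e i, dg e {K} = 4).card := by
  set P := univ.image c with hP
  set d : B → ℕ := fun y =>
    (univ.filter fun i => Crosses (e i) (univ.filter fun b => c b = y)).card with hd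
  set J1 := J.filter fun i => ∃ y ∈ (e i).image c, d y = 4 with hJ1
  set J2 := J.filter fun i => ¬ ∃ y ∈ (e i).image c, d y = 4 with hJ2
  set W := J2.biUnion fun i => (e i).image c with hW
  have hWP : W ⊆ P := by
    intro y hy
    obtain ⟨i, _, hi⟩ := Finset.mem_biUnion.1 hy
    exact Finset.image_subset_image (Finset.subset_univ _) hi
  have hJ12 : J1.card + J2.card = J.card :=
    Finset.card_filter_add_card_filter_not (s := J) (fun i => ∃ y ∈ (e i).image c, d y = 4)
  -- all degrees are at least four
  have hd4 : ∀ y ∈ P, 4 ≤ d y := by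
    intro y hy
    obtain ⟨a, -, ha⟩ := Finset.mem_image.1 hy
    refine h4 _ (Finset.subset_univ _) ⟨a, Finset.mem_filter.2 ⟨Finset.mem_univ _, ha⟩⟩ ?_
    intro h2
    obtain ⟨z, hz, hzy⟩ := Finset.exists_mem_ne (by omega : 1 < P.card) y
    obtain ⟨b, -, hb⟩ := Finset.mem_image.1 hz
    have h3 : b ∈ (univ.filter fun b => c b = y) := by rw [h2]; exact Finset.mem_univ _
    exact hzy (hb ▸ (Finset.mem_filter.1 h3).2)
  -- the classes in `W` have degree at least five
  have hW5 : ∀ y ∈ W, 5 ≤ d y := by
    intro y hy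
    obtain ⟨i, hi, hyi⟩ := Finset.mem_biUnion.1 hy
    have h6 := hd4 y (hWP hy)
    have h7 : d y ≠ 4 := fun h => (Finset.mem_filter.1 hi).2 ⟨y, hyi, h⟩
    omega
  -- the triples in `J1` contain a vertex of degree four
  have hlow : J1.card ≤ (univ.filter fun i => (e i).card = 3 ∧ ∃ K ∈ e i, dg e {K} = 4).card := by
    refine Finset.card_le_card fun i hi => ?_
    obtain ⟨hi1, y, hy1, hy2⟩ := Finset.mem_filter.1 hi
    have h6 := hJ3 i hi1
    refine Finset.mem_filter.2 ⟨Finset.mem_univ _, ?_, low_classS e h5 c i h6 y hy1 hy2⟩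
    have := Finset.card_image_le (s := e i) (f := c)
    rcases he i with h | h <;> omega
  -- sum of the degrees
  have hsumd : 4 * P.card + W.card ≤ ∑ y ∈ P, d y := by
    have h7 : ∀ y ∈ P, 4 + (if y ∈ W then 1 else 0) ≤ d y := by
      intro y hy
      have := hd4 y hy
      split_ifs with h8
      · exact hW5 y h8
      · omega
    have h8 := Finset.sum_le_sum h7
    rw [Finset.sum_add_distrib, Finset.sum_const, smul_eq_mul, ← Finset.card_filter] at h8
    have h9 : (P.filter fun y => y ∈ W) = W := by
      ext y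
      simp only [Finset.mem_filter]
      exact ⟨fun h => h.2, fun h => ⟨hWP h, h⟩⟩
    rw [h9] at h8
    omega
  have hsumw : ∑ y ∈ P, d y = ∑ i, wt ((e i).image c).card := sum_crosses e c
  have hT : J.card ≤ (univ.filter fun i => ((e i).image c).card = 3).card :=
    Finset.card_le_card fun i hi => Finset.mem_filter.2 ⟨Finset.mem_univ _, hJ3 i hi⟩
  have h2 : ∑ i, wt ((e i).image c).card + (univ.filter fun i => ((e i).image c).card = 3).card =
      2 * ∑ i, (((e i).image c).card - 1) := by
    rw [Finset.card_filter, ← Finset.sum_add_distrib, Finset.mul_sum]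
    refine Finset.sum_congr rfl fun i _ => ?_
    have h11 : ((e i).image c).card ≤ 3 := by
      have := Finset.card_image_le (s := e i) (f := c)
      rcases he i with h | h <;> omega
    have h12 : 1 ≤ ((e i).image c).card := by
      rw [Nat.succ_le_iff, Finset.card_pos, Finset.image_nonempty, ← Finset.card_pos]
      rcases he i with h | h <;> omega
    unfold wt
    split_ifs <;> omega
  have h3 : J2.card ≤ W.card := by
    rcases hJ J2 (Finset.filter_subset _ _) with h | h
    · rw [h]
      simp
    · have h' : J2.card + 1 ≤ W.card := h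
      omega
  omega

/-- the certificate, if at most five triples contain a vertex of degree four -/
theorem certK_five (B I : Type) [Fintype B] [Nonempty B] [Fintype I] (e : I → Finset B)
    (he : ∀ i, (e i).card = 2 ∨ (e i).card = 3) (h4 : FourConn univ e) (h5 : FiveEss univ e)
    (hm : (univ.filter fun i => (e i).card = 3 ∧ ∃ K ∈ e i, dg e {K} = 4).card ≤ 5) :
    CertK e := by
  rcases certK_or_partS Sk.skel Sk.cntS B I e he with h | ⟨c, J, hp, hJ3, hsum, hJ⟩
  · exact h
  · have := six_of_part B I e he h4 h5 c J hp hJ3 hsum hJ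
    omega

end TS

end Pool.Agent.ClawHam
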