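import Pool.Agent.Lib.MP_e2dbb5_co.TSInd
import Pool.Agent.Lib.MP_e2dbb5_co.TTCount

/-!
# Hypergraphs with at most five bad triples (helper49)

The proofs follow helper14's `TSInd` and `TSRel`; bad triples are counted instead of bad vertices.
-/

set_option autoImplicit false

open Finset

noncomputable section

namespace Pool.Agent.ClawHam

open Classical

namespace TS

/-- a triple with a bad vertex of degree four -/
def BadT {B I : Type} [Fintype I] (e : I → Finset B) (B₀ : Finset B) (i : I) : Prop :=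
  (e i).card = 3 ∧ ∃ K ∈ e i, K ∈ B₀ ∧ dg e {K} = 4 ∧ BadV e K

/-- Few triples with a vertex of degree four. -/
theorem algS_baseT {B I : Type} [Fintype B] [Fintype I] (B₀ : Finset B) (e : I → Finset B)
    (hne : B₀.Nonempty) (he : ∀ i, e i ⊆ B₀ ∧ (e i).card ≤ 3) (hF : FourConn B₀ e)
    (hF5 : FiveEss B₀ e)
    (hm : (univ.filter fun i => (e i).card = 3 ∧ ∃ K ∈ e i, dg e {K} ≤ 4).card ≤ 5) :
    AlgS B₀ e := by
  set emb : {b // b ∈ B₀} ↪ B := Function.Embedding.subtype _ with hemb
  have hev : ∀ b : {b // b ∈ B₀}, emb b = b.1 := fun _ => rfl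
  set e' : {i // 2 ≤ (e i).card} → Finset {b // b ∈ B₀} := fun i => (e i.1).subtype (· ∈ B₀)
    with he'
  have hmem : ∀ (i : {i // 2 ≤ (e i).card}) (b : {b // b ∈ B₀}), b ∈ e' i ↔ b.1 ∈ e i.1 :=
    fun i b => mem_subtype
  have hcard : ∀ i : {i // 2 ≤ (e i).card}, (e' i).card = (e i.1).card := by
    intro i
    rw [he']
    simp only
    rw [card_subtype, filter_true_of_mem]
    intro x hx
    exact (he i.1).1 hx
  have hcard23 : ∀ i, (e' i).card = 2 ∨ (e' i).card = 3 := by
    intro i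
    rw [hcard]
    have h1 := (he i.1).2
    have h2 := i.2
    omega
  have hcross : ∀ X' : Finset {b // b ∈ B₀},
      (univ.filter fun i => Crosses (e i) (X'.map emb)).card ≤
        (univ.filter fun i : {i // 2 ≤ (e i).card} => Crosses (e' i) X').card := by
    intro X'
    refine le_trans (card_le_card ?_) (card_image_le
      (s := univ.filter fun i : {i // 2 ≤ (e i).card} => Crosses (e' i) X') (f := Subtype.val))
    intro i hi
    obtain ⟨⟨a, ha, haX⟩, b, hb, hbX⟩ := (mem_filter.1 hi).2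
    obtain ⟨a', ha', rfl⟩ := mem_map.1 haX
    have h2 : 2 ≤ (e i).card := by
      have h3 : 1 < (e i).card := by
        rw [one_lt_card]
        refine ⟨emb a', ha, b, hb, ?_⟩
        rintro rfl
        exact hbX haX
      omega
    refine mem_image.2 ⟨⟨i, h2⟩, mem_filter.2 ⟨mem_univ _, ⟨a', (hmem _ _).2 ha, ha'⟩,
      ⟨b, (he i).1 hb⟩, (hmem _ _).2 hb, ?_⟩, rfl⟩
    intro h3
    exact hbX (mem_map.2 ⟨_, h3, rfl⟩)
  haveI : Nonempty {b // b ∈ B₀} := by
    obtain ⟨b, hb⟩ := hne
    exact ⟨⟨b, hb⟩⟩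
  have hK : CertK e' := by
    refine certK_five {b // b ∈ B₀} {i // 2 ≤ (e i).card} e' hcard23 ?_ ?_ ?_
    · intro X' _ hne hX
      have h1 := hF (X'.map emb) (by
        intro b hb
        obtain ⟨c, _, rfl⟩ := mem_map.1 hb
        exact c.2) (by
        obtain ⟨c, hc⟩ := hne
        exact ⟨emb c, mem_map_of_mem _ hc⟩) (by
        intro h
        apply hX
        rw [eq_univ_iff_forall]
        intro c
        have h2 : emb c ∈ X'.map emb := by
          rw [h]
          exact c.2
        exact (mem_map' emb).1 h2)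
      exact h1.trans (hcross X')
    · intro X' _ hX2 hX3
      have h1 : (univ : Finset {b // b ∈ B₀}).card = B₀.card := by
        rw [card_univ, Fintype.card_coe]
      have h2 := hF5 (X'.map emb) (by
        intro b hb
        obtain ⟨c, _, rfl⟩ := mem_map.1 hb
        exact c.2) (by rw [card_map]; exact hX2) (by rw [card_map, ← h1]; exact hX3)
      exact h2.trans (hcross X')
    · refine le_trans ?_ hm
      refine card_le_card_of_injOn Subtype.val ?_ (Subtype.val_injective.injOn)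
      intro i hi
      obtain ⟨h1, K, h2, h3⟩ := (mem_filter.1 (mem_coe.1 hi)).2
      refine mem_coe.2 (mem_filter.2 ⟨mem_univ _, ?_, K.1, (hmem _ _).1 h2, ?_⟩)
      · rw [← hcard]
        exact h1
      · have h4 := hcross {K}
        rw [map_singleton] at h4
        exact h4.trans h3.le
  have h1 := algS_of_certK (Subtype.val : {b // b ∈ B₀} → B) Subtype.val_injective e' hcard23 hK
  have h2 : (univ : Finset {b // b ∈ B₀}).image Subtype.val = B₀ := by
    ext b
    simp
  have h3 : (fun i : {i // 2 ≤ (e i).card} => (e' i).image Subtype.val) = fun i => e i.1 := by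
    funext i
    ext b
    rw [mem_image]
    constructor
    · rintro ⟨c, hc, rfl⟩
      exact (hmem _ _).1 hc
    · intro hb
      exact ⟨⟨b, (he i.1).1 hb⟩, (hmem _ _).2 hb, rfl⟩
  rw [h2, h3] at h1
  exact algS_sub (Subtype.val : {i // 2 ≤ (e i).card} → I) Subtype.val_injective h1

/-- `v` is eliminated: nothing gets worse -/
theorem stepT {B I : Type} [Fintype B] [Fintype I] {B₀ : Finset B} {e : I → Finset B} {v : B}
    {i₀ i₁ i₂ i₃ : I} {a b x₁ x₂ x₃ : B} (hv : v ∈ B₀) (he : ∀ i, e i ⊆ B₀ ∧ (e i).card ≤ 3)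
    (hF : FourConn B₀ e) (h2 : 2 ≤ B₀.card) (hS : Star e v i₀ i₁ i₂ i₃ a b x₁ x₂ x₃)
    (h5 : 5 ≤ dg e {x₁}) (h5' : 5 ≤ dg e {x₂}) (h5'' : 5 ≤ dg e {x₃})
    (hk : Keeps e (elim e v i₀ i₁ i₂ i₃ a b x₁ x₂ x₃) B₀ v)
    (hm : (univ.filter fun i => BadT e B₀ i).card ≤ 5)
    (ih : (∀ i, elim e v i₀ i₁ i₂ i₃ a b x₁ x₂ x₃ i ⊆ B₀.erase v ∧
        (elim e v i₀ i₁ i₂ i₃ a b x₁ x₂ x₃ i).card ≤ 3) →
      FourConn (B₀.erase v) (elim e v i₀ i₁ i₂ i₃ a b x₁ x₂ x₃) →
      FiveEss (B₀.erase v) (elim e v i₀ i₁ i₂ i₃ a b x₁ x₂ x₃) →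
      (univ.filter fun i => BadT (elim e v i₀ i₁ i₂ i₃ a b x₁ x₂ x₃) (B₀.erase v) i).card ≤ 5 →
      AlgS (B₀.erase v) (elim e v i₀ i₁ i₂ i₃ a b x₁ x₂ x₃)) : AlgS B₀ e := by
  have e0 : elim e v i₀ i₁ i₂ i₃ a b x₁ x₂ x₃ i₀ = {a, b, x₁} := by
    unfold elim; rw [if_pos rfl]
  have e1 : elim e v i₀ i₁ i₂ i₃ a b x₁ x₂ x₃ i₁ = ∅ := by
    unfold elim; rw [if_neg hS.i01.symm, if_pos rfl]
  have e2 : elim e v i₀ i₁ i₂ i₃ a b x₁ x₂ x₃ i₂ = {x₂, x₃} := by
    unfold elim; rw [if_neg hS.i02.symm, if_neg hS.i12.symm, if_pos rfl]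
  have e3 : elim e v i₀ i₁ i₂ i₃ a b x₁ x₂ x₃ i₃ = ∅ := by
    unfold elim; rw [if_neg hS.i03.symm, if_neg hS.i13.symm, if_neg hS.i23.symm, if_pos rfl]
  have eo : ∀ i, i ≠ i₀ → i ≠ i₁ → i ≠ i₂ → i ≠ i₃ →
      elim e v i₀ i₁ i₂ i₃ a b x₁ x₂ x₃ i = (e i).erase v := by
    intro i h0 h1 h2 h3
    unfold elim; rw [if_neg h0, if_neg h1, if_neg h2, if_neg h3]
  set e' := elim e v i₀ i₁ i₂ i₃ a b x₁ x₂ x₃ with he'
  obtain ⟨hk4, hk5, hkd⟩ := hk
  have hmemB : ∀ i, ∀ x ∈ e i, x ∈ B₀ := fun i x hx => (he i).1 hx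
  have ha : a ∈ B₀.erase v := mem_erase.2 ⟨hS.va.symm, hmemB i₀ a (by rw [hS.e0]; simp)⟩
  have hb : b ∈ B₀.erase v := mem_erase.2 ⟨hS.vb.symm, hmemB i₀ b (by rw [hS.e0]; simp)⟩
  have hx1 : x₁ ∈ B₀.erase v := mem_erase.2 ⟨hS.vx1.symm, hmemB i₁ x₁ (by rw [hS.e1]; simp)⟩
  have hx2 : x₂ ∈ B₀.erase v := mem_erase.2 ⟨hS.vx2.symm, hmemB i₂ x₂ (by rw [hS.e2]; simp)⟩
  have hx3 : x₃ ∈ B₀.erase v := mem_erase.2 ⟨hS.vx3.symm, hmemB i₃ x₃ (by rw [hS.e3]; simp)⟩
  refine algS_of_star hS hv (ih ?_ hk4 hk5 ?_)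
  · intro i
    by_cases h0 : i = i₀
    · rw [h0, e0]
      refine ⟨?_, card_le_three⟩
      intro x hx
      simp only [mem_insert, mem_singleton] at hx
      rcases hx with rfl | rfl | rfl
      · exact ha
      · exact hb
      · exact hx1
    by_cases h1 : i = i₁
    · rw [h1, e1]
      exact ⟨empty_subset _, by simp⟩
    by_cases h2 : i = i₂
    · rw [h2, e2]
      refine ⟨?_, card_le_two.trans (by norm_num)⟩
      intro x hx
      simp only [mem_insert, mem_singleton] at hx
      rcases hx with rfl | rfl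
      · exact hx2
      · exact hx3
    by_cases h3 : i = i₃
    · rw [h3, e3]
      exact ⟨empty_subset _, by simp⟩
    rw [eo i h0 h1 h2 h3]
    exact ⟨erase_subset_erase _ (he i).1, card_erase_le.trans (he i).2⟩
  · refine le_trans (card_le_card ?_) hm
    intro j₀ hj₀
    obtain ⟨hcj₀, K, hKj₀, hKB, hK4, i, hKi, hci, i', hi', hKi', hor⟩ := (mem_filter.1 hj₀).2
    have hKv : K ≠ v := (mem_erase.1 hKB).1
    have hKB₀ : K ∈ B₀ := (mem_erase.1 hKB).2
    have hlow : ∀ w ∈ B₀.erase v, dg e' {w} ≤ 4 → dg e {w} ≤ 4 := by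
      intro w hw h
      by_contra h6
      have := hkd w hw (by omega)
      omega
    have hKle := hlow K hKB hK4.le
    have hK4' : dg e {K} = 4 := by
      have h6 : 4 ≤ dg e {K} := hF {K} (by rwa [singleton_subset_iff]) (singleton_nonempty _) (by
        intro h
        rw [← h, card_singleton] at h2
        omega)
      omega
    have hKx1 : K ≠ x₁ := by rintro rfl; omega
    have hKx2 : K ≠ x₂ := by rintro rfl; omega
    have hKx3 : K ≠ x₃ := by rintro rfl; omega
    -- the hyperedges of `K`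
    have hkey : ∀ j, K ∈ e' j → (j = i₀ ∧ K ∈ e i₀) ∨ (e' j = e j ∧ K ∈ e j) := by
      intro j hj
      by_cases h0 : j = i₀
      · left
        rw [h0, e0] at hj
        simp only [mem_insert, mem_singleton] at hj
        refine ⟨h0, ?_⟩
        rw [hS.e0]
        rcases hj with h | h | h
        · rw [h]; simp
        · rw [h]; simp
        · exact absurd h hKx1
      by_cases h1 : j = i₁
      · rw [h1, e1] at hj
        exact absurd hj (notMem_empty _)
      by_cases h2 : j = i₂
      · rw [h2, e2] at hj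
        simp only [mem_insert, mem_singleton] at hj
        rcases hj with h | h
        · exact absurd h hKx2
        · exact absurd h hKx3
      by_cases h3 : j = i₃
      · rw [h3, e3] at hj
        exact absurd hj (notMem_empty _)
      right
      rw [eo j h0 h1 h2 h3] at hj ⊢
      have hKj := (mem_erase.1 hj).2
      refine ⟨?_, hKj⟩
      refine erase_eq_of_notMem fun hvj => ?_
      rcases hS.only j hvj with h | h | h | h | h
      · exact hKv (card_le_one.1 h K hKj v hvj)
      · exact h0 h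
      · exact h1 h
      · exact h2 h
      · exact h3 h
    have hc0 : (e i₀).card = 3 := by
      rw [hS.e0]
      exact card_eq_three.2 ⟨v, a, b, hS.va, hS.vb, hS.ab, rfl⟩
    refine mem_filter.2 ⟨mem_univ _, ?_, K, ?_, hKB₀, hK4', i, ?_, ?_, i', hi', ?_, ?_⟩
    · rcases hkey j₀ hKj₀ with ⟨h, -⟩ | ⟨h, -⟩
      · rw [h]; exact hc0
      · rw [← h]; exact hcj₀
    · rcases hkey j₀ hKj₀ with ⟨h, h'⟩ | ⟨-, h⟩
      · rw [h]; exact h'
      · exact h
    · rcases hkey i hKi with ⟨h, h'⟩ | ⟨-, h⟩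
      · rw [h]; exact h'
      · exact h
    · rcases hkey i hKi with ⟨h, -⟩ | ⟨h, -⟩
      · rw [h]; exact hc0
      · rw [← h]; exact hci
    · rcases hkey i' hKi' with ⟨h, h'⟩ | ⟨-, h⟩
      · rw [h]; exact h'
      · exact h
    · rcases hkey i' hKi' with ⟨h, -⟩ | ⟨h, -⟩
      · left
        rw [h]; exact hc0
      · rcases hor with h7 | ⟨h7, x, hx, hxK, hdx⟩
        · left
          rw [← h]; exact h7
        · right
          refine ⟨by rw [← h]; exact h7, x, by rw [← h]; exact hx, hxK, ?_⟩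
          refine hlow x ?_ hdx
          have hx' : x ∈ e' i' := hx
          rw [h] at hx'
          refine mem_erase.2 ⟨?_, hmemB _ _ hx'⟩
          rintro rfl
          rcases hS.only i' hx' with h8 | h8 | h8 | h8 | h8
          · have h9 : (e' i').card = 2 := h7
            rw [h] at h9
            omega
          · have h9 : (e' i').card = 2 := h7
            rw [h, h8] at h9
            omega
          · rw [h8, e1] at h7
            simp at h7
          · rw [h8, e2] at hx
            simp only [mem_insert, mem_singleton] at hx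
            rcases hx with h9 | h9
            · exact hS.vx2 h9
            · exact hS.vx3 h9
          · rw [h8, e3] at h7
            simp at h7

/-- The induction. -/
theorem algT_ind (n : ℕ) : ∀ (B I : Type) [Fintype B] [Fintype I] (B₀ : Finset B)
    (e : I → Finset B), B₀.card = n → B₀.Nonempty → (∀ i, e i ⊆ B₀ ∧ (e i).card ≤ 3) →
    FourConn B₀ e → FiveEss B₀ e →
    (univ.filter fun i => BadT e B₀ i).card ≤ 5 → AlgS B₀ e := by
  induction n with
  | zero =>
    intro B I _ _ B₀ e hn hne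
    exact absurd (card_eq_zero.1 hn) hne.ne_empty
  | succ n ih =>
    intro B I _ _ B₀ e hn hne he hF hF5 hm
    by_cases h6 : B₀.card ≤ 6
    · refine algS_base B₀ e hne he hF hF5 ((card_le_card ?_).trans h6)
      intro K hK
      exact (mem_filter.1 hK).2.1
    by_cases hgood : ∃ v ∈ B₀, dg e {v} = 4 ∧ (∃ i, v ∈ e i ∧ (e i).card = 3) ∧ ¬ BadV e v
    · obtain ⟨v, hv, h4, ht, hb⟩ := hgood
      obtain ⟨i₀, i₁, i₂, i₃, a, b, x₁, x₂, x₃, hS, hx1, hx2, hx3⟩ :=
        exists_star (fun i => (he i).2) h4 ht hb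
      have hn' : (B₀.erase v).card = n := by
        rw [card_erase_of_mem hv, hn]
        rfl
      have hne' : (B₀.erase v).Nonempty := by
        rw [← card_pos]
        omega
      rcases rowCut4 B I B₀ e v i₀ i₁ i₂ i₃ a b x₁ x₂ x₃ he hF hF5 (by omega) hv hS hx1 hx2 hx3
        with hk | hk | hk
      · exact stepT hv he hF (by omega) hS hx1 hx2 hx3 hk hm fun h1 h2 h3 h4 =>
          ih B I _ _ hn' hne' h1 h2 h3 h4
      · have hS' : Star e v i₀ i₂ i₁ i₃ a b x₂ x₁ x₃ :=
          ⟨hS.i02, hS.i01, hS.i03, hS.i12.symm, hS.i23, hS.i13, hS.e0, hS.e2, hS.e1, hS.e3, hS.va,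
            hS.vb, hS.ab, hS.vx2, hS.vx1, hS.vx3, fun i hi => by
              rcases hS.only i hi with h | h | h | h | h
              · exact Or.inl h
              · exact Or.inr (Or.inl h)
              · exact Or.inr (Or.inr (Or.inr (Or.inl h)))
              · exact Or.inr (Or.inr (Or.inl h))
              · exact Or.inr (Or.inr (Or.inr (Or.inr h)))⟩
        exact stepT hv he hF (by omega) hS' hx2 hx1 hx3 hk hm fun h1 h2 h3 h4 =>
          ih B I _ _ hn' hne' h1 h2 h3 h4
      · have hS' : Star e v i₀ i₃ i₁ i₂ a b x₃ x₁ x₂ :=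
          ⟨hS.i03, hS.i01, hS.i02, hS.i13.symm, hS.i23.symm, hS.i12, hS.e0, hS.e3, hS.e1, hS.e2,
            hS.va, hS.vb, hS.ab, hS.vx3, hS.vx1, hS.vx2, fun i hi => by
              rcases hS.only i hi with h | h | h | h | h
              · exact Or.inl h
              · exact Or.inr (Or.inl h)
              · exact Or.inr (Or.inr (Or.inr (Or.inl h)))
              · exact Or.inr (Or.inr (Or.inr (Or.inr h)))
              · exact Or.inr (Or.inr (Or.inl h))⟩
        exact stepT hv he hF (by omega) hS' hx3 hx1 hx2 hk hm fun h1 h2 h3 h4 =>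
          ih B I _ _ hn' hne' h1 h2 h3 h4
    · refine algS_baseT B₀ e hne he hF hF5 (le_trans (card_le_card ?_) hm)
      intro i hi
      obtain ⟨hc, K, hKi, hK4⟩ := (mem_filter.1 hi).2
      have hKB : K ∈ B₀ := (he i).1 hKi
      have h7 : 4 ≤ dg e {K} := hF {K} (by rwa [singleton_subset_iff]) (singleton_nonempty _) (by
        intro h
        rw [← h, card_singleton] at h6
        omega)
      have h8 : dg e {K} = 4 := by omega
      refine mem_filter.2 ⟨mem_univ _, hc, K, hKi, hKB, h8, ?_⟩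
      by_contra hb
      exact hgood ⟨K, hKB, h8, ⟨i, hKi, hc⟩, hb⟩

/-- The lemma on hypergraphs of rank three with at most five bad triples. -/
def HypTT : Prop :=
  ∀ (B I : Type) [Fintype B] [Fintype I] (e : I → Finset B),
    (∀ i, (e i).card = 2 ∨ (e i).card = 3) → FourConn univ e → FiveEss univ e →
      (univ.filter fun i => (e i).card = 3 ∧ ∃ K ∈ e i, dg e {K} = 4 ∧ BadV e K).card ≤ 5 →
      EvenConn univ e

/-- **The lemma on hypergraphs with at most five bad triples.** -/
theorem hypTT : HypTT := by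
  intro B I _ _ e he hF hF5 hm
  rcases isEmpty_or_nonempty B with hB | hB
  · exact evenConn_empty e
  refine evenConn_of_algS he (algT_ind (univ : Finset B).card B I univ e rfl univ_nonempty
    (fun i => ⟨subset_univ _, by rcases he i with h | h <;> omega⟩) hF hF5
    (le_trans (card_le_card ?_) hm))
  intro i hi
  obtain ⟨hc, K, hKi, -, hK4, hb⟩ := (mem_filter.1 hi).2
  exact mem_filter.2 ⟨mem_univ _, hc, K, hKi, hK4, hb⟩

/-- the relative form of the lemma -/
theorem rowRelT (B I : Type) [Fintype B] [Fintype I] (B₀ : Finset B) (e : I → Finset B)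
    (he : ∀ i, e i ⊆ B₀ ∧ (e i).card ≤ 3) (hF : FourConn B₀ e) (hF5 : FiveEss B₀ e)
    (hm : (univ.filter fun i => (e i).card = 3 ∧ ∃ K ∈ e i, dg e {K} ≤ 4 ∧ BadV e K).card ≤ 5) :
    EvenConn B₀ e := by
  set emb : {b // b ∈ B₀} ↪ B := Function.Embedding.subtype _ with hemb
  have hev : ∀ b : {b // b ∈ B₀}, emb b = b.1 := fun _ => rfl
  set e' : {i // 2 ≤ (e i).card} → Finset {b // b ∈ B₀} := fun i => (e i.1).subtype (· ∈ B₀)
    with he'
  have hmem : ∀ (i : {i // 2 ≤ (e i).card}) (b : {b // b ∈ B₀}), b ∈ e' i ↔ b.1 ∈ e i.1 :=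
    fun i b => mem_subtype
  have hcard : ∀ i : {i // 2 ≤ (e i).card}, (e' i).card = (e i.1).card := by
    intro i
    rw [he']
    simp only
    rw [card_subtype, filter_true_of_mem]
    intro x hx
    exact (he i.1).1 hx
  have hcross : ∀ X' : Finset {b // b ∈ B₀},
      (univ.filter fun i => Crosses (e i) (X'.map emb)).card ≤
        (univ.filter fun i : {i // 2 ≤ (e i).card} => Crosses (e' i) X').card := by
    intro X'
    refine le_trans (card_le_card ?_) (card_image_le
      (s := univ.filter fun i : {i // 2 ≤ (e i).card} => Crosses (e' i) X') (f := Subtype.val))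
    intro i hi
    obtain ⟨⟨a, ha, haX⟩, b, hb, hbX⟩ := (mem_filter.1 hi).2
    obtain ⟨a', ha', rfl⟩ := mem_map.1 haX
    have h2 : 2 ≤ (e i).card := by
      have h3 : 1 < (e i).card := by
        rw [one_lt_card]
        refine ⟨emb a', ha, b, hb, ?_⟩
        rintro rfl
        exact hbX haX
      omega
    refine mem_image.2 ⟨⟨i, h2⟩, mem_filter.2 ⟨mem_univ _, ⟨a', (hmem _ _).2 ha, ha'⟩,
      ⟨b, (he i).1 hb⟩, (hmem _ _).2 hb, ?_⟩, rfl⟩
    intro h3
    exact hbX (mem_map.2 ⟨_, h3, rfl⟩)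
  obtain ⟨f', hf1, hf2, hf3⟩ := hypTT {b // b ∈ B₀} {i // 2 ≤ (e i).card} e' (by
    intro i
    rw [hcard]
    have h1 := (he i.1).2
    have h2 := i.2
    omega) (by
    intro X' _ hne hX
    have h1 := hF (X'.map emb) (by
      intro b hb
      obtain ⟨c, _, rfl⟩ := mem_map.1 hb
      exact c.2) (by
      obtain ⟨c, hc⟩ := hne
      exact ⟨emb c, mem_map_of_mem _ hc⟩) (by
      intro h
      apply hX
      rw [eq_univ_iff_forall]
      intro c
      have h2 : emb c ∈ X'.map emb := by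
        rw [h]
        exact c.2
      exact (mem_map' emb).1 h2)
    exact h1.trans (hcross X')) (by
    intro X' _ hX2 hX3
    have h1 : (univ : Finset {b // b ∈ B₀}).card = B₀.card := by
      rw [card_univ, Fintype.card_coe]
    have h2 := hF5 (X'.map emb) (by
      intro b hb
      obtain ⟨c, _, rfl⟩ := mem_map.1 hb
      exact c.2) (by rw [card_map]; exact hX2) (by rw [card_map, ← h1]; exact hX3)
    exact h2.trans (hcross X')) (by
    refine le_trans ?_ hm
    refine card_le_card_of_injOn Subtype.val ?_ (Subtype.val_injective.injOn)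
    intro j hj
    obtain ⟨hcj, c, hcj', h1, i, h2, h3, i', h4, h5, h6⟩ := (mem_filter.1 (mem_coe.1 hj)).2
    have hdg : ∀ x : {b // b ∈ B₀}, dg e {x.1} ≤ dg e' {x} := by
      intro x
      have h7 := hcross {x}
      rw [map_singleton] at h7
      exact h7
    refine mem_coe.2 (mem_filter.2 ⟨mem_univ _, ?_, c.1, (hmem _ _).1 hcj', (hdg c).trans h1.le,
      i.1, (hmem _ _).1 h2, ?_, i'.1, ?_, (hmem _ _).1 h5, ?_⟩)
    · rw [← hcard]
      exact hcj
    · rw [← hcard]
      exact h3
    · exact fun h7 => h4 (Subtype.ext h7)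
    · rcases h6 with h6 | ⟨h6, x, h7, h8, h9⟩
      · left
        rw [← hcard]
        exact h6
      · right
        refine ⟨?_, x.1, (hmem _ _).1 h7, fun h10 => h8 (Subtype.ext h10), (hdg x).trans h9⟩
        rw [← hcard]
        exact h6)
  obtain ⟨F, hpos, hneg⟩ : ∃ F : I → Finset B,
      (∀ i (h : 2 ≤ (e i).card), F i = (f' ⟨i, h⟩).map emb) ∧
        ∀ i, ¬ 2 ≤ (e i).card → F i = ∅ :=
    ⟨fun i => if h : 2 ≤ (e i).card then (f' ⟨i, h⟩).map emb else ∅, fun i h => dif_pos h,
      fun i h => dif_neg h⟩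
  refine ⟨F, ?_, ?_, ?_⟩
  · intro i
    by_cases h : 2 ≤ (e i).card
    · rw [hpos i h]
      refine ⟨?_, ?_⟩
      · intro b hb
        obtain ⟨c, hc, rfl⟩ := mem_map.1 hb
        exact (hmem _ _).1 ((hf1 _).1 hc)
      · rcases (hf1 ⟨i, h⟩).2 with h1 | h1
        · left
          rw [h1, map_empty]
        · right
          rw [card_map, h1]
    · rw [hneg i h]
      exact ⟨empty_subset _, Or.inl rfl⟩
  · intro K
    by_cases hK : K ∈ B₀
    · have h1 : (univ.filter fun i => K ∈ F i) =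
          (univ.filter fun i : {i // 2 ≤ (e i).card} => (⟨K, hK⟩ : {b // b ∈ B₀}) ∈ f' i).map
            (Function.Embedding.subtype _) := by
        ext i
        rw [mem_filter, mem_map]
        constructor
        · rintro ⟨_, h2⟩
          by_cases h : 2 ≤ (e i).card
          · rw [hpos i h, mem_map] at h2
            obtain ⟨c, hc, hcK⟩ := h2
            refine ⟨⟨i, h⟩, mem_filter.2 ⟨mem_univ _, ?_⟩, rfl⟩
            have h3 : c = ⟨K, hK⟩ := Subtype.ext hcK
            rwa [← h3]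
          · rw [hneg i h] at h2
            exact absurd h2 (notMem_empty _)
        · rintro ⟨j, hj, rfl⟩
          refine ⟨mem_univ _, ?_⟩
          have h2 : 2 ≤ (e (Function.Embedding.subtype _ j)).card := j.2
          rw [hpos _ h2]
          exact mem_map.2 ⟨⟨K, hK⟩, (mem_filter.1 hj).2, rfl⟩
      rw [h1, card_map]
      exact key _ _ _ (hf2 ⟨K, hK⟩)
    · have h1 : (univ.filter fun i => K ∈ F i) = ∅ := by
        rw [filter_eq_empty_iff]
        intro i _ h2
        by_cases h : 2 ≤ (e i).card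
        · rw [hpos i h, mem_map] at h2
          obtain ⟨c, _, rfl⟩ := h2
          exact hK c.2
        · rw [hneg i h] at h2
          exact absurd h2 (notMem_empty _)
      rw [h1, card_empty]
      exact Even.zero
  · intro X hXB hne hX
    obtain ⟨j, ⟨a, ha, haX⟩, b, hb, hbX⟩ := hf3 (X.subtype (· ∈ B₀)) (subset_univ _) (by
      obtain ⟨c, hc⟩ := hne
      exact ⟨⟨c, hXB hc⟩, mem_subtype.2 hc⟩) (by
      intro h
      apply hX
      refine Subset.antisymm hXB fun c hc => ?_
      have h1 : (⟨c, hc⟩ : {b // b ∈ B₀}) ∈ X.subtype (· ∈ B₀) := by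
        rw [h]
        exact mem_univ _
      exact mem_subtype.1 h1)
    refine ⟨j.1, ⟨a.1, ?_, mem_subtype.1 haX⟩, b.1, ?_, fun h => hbX (mem_subtype.2 h)⟩
    · rw [hpos _ j.2]
      exact mem_map.2 ⟨a, ha, rfl⟩
    · rw [hpos _ j.2]
      exact mem_map.2 ⟨b, hb, rfl⟩

end TS

end Pool.Agent.ClawHam
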