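import Pool.Agent.Lib.MP_e2dbb5_co.TSMain
import Pool.Agent.Lib.MP_e2dbb5_co.TTInd

/-!
# Claw-free graphs with at most five bad triangles (helper49)

The proofs of `no_edge` and `mainTT` follow helper90's `TSG` and helper14's `TSMain`.
-/

set_option autoImplicit false

open Finset

noncomputable section

namespace Pool.Agent.ClawHam

open Classical

namespace TS

/-- A bad triangle: three pairwise adjacent vertices such that no other vertex is adjacent to two
of them (so the triangle has no edge in common with another triangle), and one of the three, `v`,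
has exactly five neighbours, one of which is not in the triangle and has at most six neighbours. -/
def BadTriangle {V : Type} (G : SimpleGraph V) (T : Finset V) : Prop :=
  T.card = 3 ∧ (∀ a ∈ T, ∀ b ∈ T, a ≠ b → G.Adj a b) ∧
    (∀ w, w ∉ T → ∀ a ∈ T, ∀ b ∈ T, a ≠ b → G.Adj w a → ¬ G.Adj w b) ∧
    ∃ v ∈ T, (G.neighborSet v).ncard = 5 ∧
      ∃ a, a ∉ T ∧ G.Adj v a ∧ (G.neighborSet a).ncard ≤ 6

/-- no edges of the closure between a small cell and a big cell with a common vertex -/
theorem no_edge {V C : Type} [Fintype V] [Fintype C] {G' : SimpleGraph V} {inc : V → C → Prop}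
    (hcl : Closed G') (hK : Krausz G' inc) {K : C}
    (hK4' : 4 ≤ (univ.filter fun v => inc v K).card) {S : C} (hKS : K ≠ S)
    {v : V} (hvS : inc v S) (hvK : inc v K) :
    ∀ a y, inc a K → a ≠ v → inc y S → y ≠ v → ¬ G'.Adj a y := by
  have hvK' : v ∈ univ.filter fun w => inc w K := mem_filter.2 ⟨mem_univ _, hvK⟩
  have hdis : ∀ w, inc w K → inc w S → w = v := by
    intro w h1 h2
    by_contra hne
    exact hKS (hK.uniq w v K S hne h1 hvK h2 hvS)
  intro a y haK hav hyS hyv hay
  have hconn : NbrConn G' v := by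
    intro P ⟨c, hc, hPc⟩ ⟨d, hd, hPd⟩
    by_contra hno
    push Not at hno
    have hK1 : ∀ x x', inc x K → x ≠ v → inc x' K → x' ≠ v → P x → P x' := by
      intro x x' h1 h2 h3 h4 hP
      by_contra hP'
      have hne : x ≠ x' := by
        rintro rfl
        exact hP' hP
      exact hno x x' ((hK.adj_iff v x).2 ⟨h2.symm, K, hvK, h1⟩) hP
        ((hK.adj_iff v x').2 ⟨h4.symm, K, hvK, h3⟩) hP' ((hK.adj_iff x x').2 ⟨hne, K, h1, h3⟩)
    have hS1 : ∀ x x', inc x S → x ≠ v → inc x' S → x' ≠ v → P x → P x' := by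
      intro x x' h1 h2 h3 h4 hP
      by_contra hP'
      have hne : x ≠ x' := by
        rintro rfl
        exact hP' hP
      exact hno x x' ((hK.adj_iff v x).2 ⟨h2.symm, S, hvS, h1⟩) hP
        ((hK.adj_iff v x').2 ⟨h4.symm, S, hvS, h3⟩) hP' ((hK.adj_iff x x').2 ⟨hne, S, h1, h3⟩)
    have hva : G'.Adj v a := (hK.adj_iff v a).2 ⟨hav.symm, K, hvK, haK⟩
    have hvy : G'.Adj v y := (hK.adj_iff v y).2 ⟨hyv.symm, S, hvS, hyS⟩
    have hay' : P a ↔ P y := by
      constructor
      · intro h1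
        by_contra h2
        exact hno a y hva h1 hvy h2 hay
      · intro h1
        by_contra h2
        exact hno y a hvy h1 hva h2 hay.symm
    have hall : ∀ x, G'.Adj v x → (P x ↔ P a) := by
      intro x hx
      obtain ⟨hne, M, h1, h2⟩ := (hK.adj_iff v x).1 hx
      rcases hK.two v K S M hvK hvS h1 with h | h | h
      · exact absurd h hKS
      · subst h
        exact ⟨hK1 x a h2 hne.symm haK hav, hK1 a x haK hav h2 hne.symm⟩
      · subst h
        rw [hay']
        exact ⟨hS1 x y h2 hne.symm hyS hyv, hS1 y x hyS hyv h2 hne.symm⟩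
    exact hPd ((hall d hd).2 ((hall c hc).1 hPc))
  have hcomp := hcl v hconn
  -- another vertex of `K`
  obtain ⟨b, hb, hbne⟩ : ∃ b, inc b K ∧ b ≠ v ∧ b ≠ a := by
    have h1 : 2 < (univ.filter fun w => inc w K).card := by omega
    have h2 : 0 < (((univ.filter fun w => inc w K).erase v).erase a).card := by
      have h3 : a ∈ (univ.filter fun w => inc w K).erase v :=
        mem_erase.2 ⟨hav, mem_filter.2 ⟨mem_univ _, haK⟩⟩
      rw [card_erase_of_mem h3, card_erase_of_mem hvK']
      omega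
    obtain ⟨b, hb⟩ := card_pos.1 h2
    rw [mem_erase, mem_erase, mem_filter] at hb
    exact ⟨b, hb.2.2.2, hb.2.1, hb.1⟩
  have hva : G'.Adj v a := (hK.adj_iff v a).2 ⟨hav.symm, K, hvK, haK⟩
  have hvb : G'.Adj v b := (hK.adj_iff v b).2 ⟨hbne.1.symm, K, hvK, hb⟩
  have hvy : G'.Adj v y := (hK.adj_iff v y).2 ⟨hyv.symm, S, hvS, hyS⟩
  have hyK : ¬ inc y K := fun h => hyv (hdis y h hyS)
  have hby : b ≠ y := by
    rintro rfl
    exact hyK hb
  obtain ⟨-, M, haM, hyM⟩ := (hK.adj_iff a y).1 hay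
  obtain ⟨-, M', hbM', hyM'⟩ := (hK.adj_iff b y).1 (hcomp b y hvb hvy hby)
  have hMS : M ≠ S := by
    rintro rfl
    exact hav (hdis a haK haM)
  have hMS' : M' ≠ S := by
    rintro rfl
    exact hbne.1 (hdis b hb hbM')
  have hMM : M = M' := by
    rcases hK.two y S M M' hyS hyM hyM' with h | h | h
    · exact absurd h.symm hMS
    · exact absurd h.symm hMS'
    · exact h
  rw [← hMM] at hbM'
  have h6 := hK.uniq a b K M hbne.2.symm haK hb haM hbM'
  rw [← h6] at hyM
  exact hyK hyM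

/-- A triple with a bad vertex is a bad triangle. -/
theorem badTri_of_cell {V C : Type} [Fintype V] [Fintype C] {G G' : SimpleGraph V}
    {inc : V → C → Prop} (hle : G ≤ G')
    (hclaw : ClawFree G) (hcl : Closed G') (hK : Krausz G' inc) (hN : NoSmallCut G)
    (hcut : NoSmallCut G') (hnc : ∃ u v, u ≠ v ∧ ¬ G.Adj u v)
    (hbig : ∀ v, ∃ K, Big inc K ∧ inc v K) {i : V ⊕ C} (hi3 : (hyp inc i).card = 3) {K : C}
    (hi : K ∈ hyp inc i) (hdeg : dg (hyp inc) {K} ≤ 4) (hbad : BadV (hyp inc) K) :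
    ∃ S, i = Sum.inr S ∧ BadTriangle G (univ.filter fun w => inc w S) := by
  obtain ⟨S, rfl⟩ : ∃ S, i = Sum.inr S := by
    rcases i with v | S
    · exfalso
      have h1 : 2 < (hyp inc (Sum.inl v)).card := by omega
      obtain ⟨K, h2, L, h3, M, h4, h5, h6, h7⟩ := Finset.two_lt_card.1 h1
      rcases hK.two v K L M (Finset.mem_filter.1 h2).2.2 (Finset.mem_filter.1 h3).2.2
        (Finset.mem_filter.1 h4).2.2 with h | h | h
      · exact h5 h
      · exact h6 h
      · exact h7 h
    · exact ⟨S, rfl⟩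
  refine ⟨S, rfl, ?_⟩
  obtain ⟨hSsmall, hbK, v, hvS, hvK⟩ := (mem_filter.1 hi).2
  have hKS : K ≠ S := by
    rintro rfl
    exact hSsmall hbK
  obtain ⟨w₀, hw₀⟩ : ∃ w, ¬ inc w K := by
    obtain ⟨M, hM, hMK⟩ := Finset.exists_mem_ne (by omega : 1 < (hyp inc (Sum.inr S)).card) K
    obtain ⟨-, hbM, w, hwS, hwM⟩ := (mem_filter.1 hM).2
    refine ⟨w, fun hwK => ?_⟩
    rcases hK.two w K M S hwK hwM hwS with h | h | h
    · exact hMK h.symm
    · exact hKS h
    · rw [h] at hbM
      exact hSsmall hbM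
  have h4 := TSG.card_four hK hcut hbig hbK hdeg hw₀
  obtain ⟨h5, -, y, z, hyK, hzK, hyz, hadj, -⟩ :=
    TSG.spot_at hle hclaw hcl hK hN hnc h4 hSsmall hKS hvS hvK
  -- another hyperedge of `K`
  obtain ⟨j, hjS, hKj, hj2, hL⟩ : ∃ j, j ≠ Sum.inr S ∧ K ∈ hyp inc j ∧ 2 ≤ (hyp inc j).card ∧
      ((hyp inc j).card = 3 ∨ ∃ L ∈ hyp inc j, L ≠ K ∧
        (univ.filter fun i => Crosses (hyp inc i) {L}).card ≤ 4) := by
    obtain ⟨i₀, h1, h2, i', h6, h7, h8⟩ := hbad
    by_cases h : i₀ = Sum.inr S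
    · rw [h] at h6
      refine ⟨i', h6, h7, ?_, ?_⟩
      · rcases h8 with h9 | h9
        · omega
        · exact h9.1.ge
      · rcases h8 with h9 | h9
        · exact Or.inl h9
        · exact Or.inr h9.2
    · exact ⟨i₀, h, h1, by omega, Or.inl h2⟩
  obtain ⟨a, haK, hav, ha6⟩ :=
    TSG.second (G := G) hle hK hcut hbig hbK h4 hSsmall hvS hvK hjS hKj hj2 hL
  -- the vertices of `S`
  have hinS : ∀ w, G.Adj v w → w ∉ (univ.filter fun v => inc v K) → inc w S := by
    intro w hw hwK
    obtain ⟨-, M, h1, h2⟩ := (hK.adj_iff v w).1 (hle hw)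
    rcases hK.two v K S M hvK hvS h1 with h | h | h
    · exact absurd h hKS
    · rw [← h] at h2
      exact (hwK (mem_filter.2 ⟨mem_univ _, h2⟩)).elim
    · rwa [← h] at h2
  have hvy : G.Adj v y := (hadj y).2 (Or.inr (Or.inl rfl))
  have hvz : G.Adj v z := (hadj z).2 (Or.inr (Or.inr rfl))
  have hyS := hinS y hvy hyK
  have hzS := hinS z hvz hzK
  have hc3 : ({v, y, z} : Finset V).card = 3 :=
    card_eq_three.2 ⟨v, y, z, hvy.ne, hvz.ne, hyz.ne, rfl⟩
  have hS : (univ.filter fun w => inc w S) = {v, y, z} := by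
    refine (eq_of_subset_of_card_le ?_ ?_).symm
    · intro w hw
      rw [mem_insert, mem_insert, mem_singleton] at hw
      rw [mem_filter]
      rcases hw with rfl | rfl | rfl
      · exact ⟨mem_univ _, hvS⟩
      · exact ⟨mem_univ _, hyS⟩
      · exact ⟨mem_univ _, hzS⟩
    · rw [hc3]
      exact C1x.small_card hSsmall
  refine ⟨by rw [hS, hc3], ?_, ?_, v, mem_filter.2 ⟨mem_univ _, hvS⟩, ?_, a, ?_, ?_, ?_⟩
  · intro b hb c hc hbc
    rw [hS, mem_insert, mem_insert, mem_singleton] at hb hc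
    rcases hb with rfl | rfl | rfl <;> rcases hc with rfl | rfl | rfl
    · exact absurd rfl hbc
    · exact hvy
    · exact hvz
    · exact hvy.symm
    · exact absurd rfl hbc
    · exact hyz
    · exact hvz.symm
    · exact hyz.symm
    · exact absurd rfl hbc
  · intro w hwS b hb c hc hbc hwb hwc
    have hbS := (mem_filter.1 hb).2
    have hcS := (mem_filter.1 hc).2
    obtain ⟨M, hbM, hbM'⟩ := hbig b
    have hMS : M ≠ S := by
      rintro rfl
      exact hSsmall hbM
    obtain ⟨hne, N, h1, h2⟩ := (hK.adj_iff w b).1 (hle hwb)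
    have hwM : inc w M := by
      rcases hK.two b M S N hbM' hbS h2 with h | h | h
      · exact absurd h hMS
      · rw [h]
        exact h1
      · rw [← h] at h1
        exact (hwS (mem_filter.2 ⟨mem_univ _, h1⟩)).elim
    exact no_edge hcl hK hbM hMS hbS hbM' w c hwM hne hcS hbc.symm (hle hwc)
  · rw [ncard_nbr]
    exact h5
  · intro ha
    exact hKS (hK.uniq a v K S hav haK hvK (mem_filter.1 ha).2 hvS)
  · exact (hadj a).2 (Or.inl ⟨mem_filter.2 ⟨mem_univ _, haK⟩, hav⟩)
  · rw [ncard_nbr]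
    exact ha6

/-- The main theorem for graphs with at most five bad triangles. -/
theorem mainTT (V : Type) [Fintype V] [DecidableEq V]
    (G : SimpleGraph V) (hN : NoSmallCut G) (h3 : 3 ≤ Fintype.card V) (hclaw : ClawFree G)
    (hm : (univ.filter fun T : Finset V => BadTriangle G T).card ≤ 5) :
    G.IsHamiltonian := by
  obtain ⟨G', hle, hcf, hcl, hham⟩ := (rowD2 rowd1) V G hclaw
  refine rowE5 V G (hham ?_)
  have hN' : NoSmallCut G' := by
    intro S A C h1 h2 h4 h5 h6 h7 h8
    exact hN S A C h1 h2 h4 h5 h6 h7 fun a ha c hc hac => h8 a ha c hc (hle hac)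
  by_cases hcomp : ∀ u v, u ≠ v → G'.Adj u v
  · exact ham_of_complete G' h3 hcomp
  push Not at hcomp
  have hcompG : ∃ u v, u ≠ v ∧ ¬ G.Adj u v := by
    obtain ⟨u, v, h1, h2⟩ := hcomp
    exact ⟨u, v, h1, fun h => h2 (hle h)⟩
  have hiso : ∀ v, ∃ w, G'.Adj v w := by
    intro v
    by_contra hno
    push Not at hno
    have h5 := hN' ∅ {v} ({v}ᶜ) (by
        intro w
        simp only [notMem_empty, mem_singleton, mem_compl, false_or]
        exact Classical.em _)
      (by simp) (by simp) (by simp) (singleton_nonempty v)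
      (by
        rw [← card_pos, card_compl, card_singleton]
        omega)
      (by
        intro a ha c _ hac
        rw [mem_singleton] at ha
        rw [ha] at hac
        exact hno c hac)
    simp at h5
  obtain ⟨C, _, inc, hK⟩ := D3.rowD3 V G' hcf hcl hiso
  have hbig := rowc0 V C G' inc hK hN' hcomp
  obtain ⟨hr, hfour⟩ := rowc1 V C G' inc hK hN' hbig
  have heven := rowRelT C (V ⊕ C) (bigs inc) (Pool.Agent.ClawHam.hyp inc) hr hfour
    (rowc5 V C G' inc hK hN' hbig) (by
      have hcell : ∀ i : V ⊕ C, ((Pool.Agent.ClawHam.hyp inc i).card = 3 ∧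
          ∃ K ∈ Pool.Agent.ClawHam.hyp inc i, dg (Pool.Agent.ClawHam.hyp inc) {K} ≤ 4 ∧
            BadV (Pool.Agent.ClawHam.hyp inc) K) →
          ∃ S, i = Sum.inr S ∧ BadTriangle G (univ.filter fun w => inc w S) := by
        rintro i ⟨h1, K, h2, h4, h5⟩
        exact badTri_of_cell hle hclaw hcl hK hN hN' hcompG hbig h1 h2 h4 h5
      refine le_trans ?_ hm
      refine card_le_card_of_injOn
        (Sum.elim (fun _ => (∅ : Finset V)) fun S => univ.filter fun w => inc w S) ?_ ?_
      · intro i hi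
        obtain ⟨S, rfl, hS⟩ := hcell i (mem_filter.1 (mem_coe.1 hi)).2
        exact mem_coe.2 (mem_filter.2 ⟨mem_univ _, hS⟩)
      · intro i hi j hj hij
        obtain ⟨S, rfl, hS⟩ := hcell i (mem_filter.1 (mem_coe.1 hi)).2
        obtain ⟨S', rfl, hS'⟩ := hcell j (mem_filter.1 (mem_coe.1 hj)).2
        have hij' : (univ.filter fun w => inc w S) = univ.filter fun w => inc w S' := hij
        obtain ⟨a, ha, b, hb, hab⟩ := one_lt_card.1 (by
          have := hS.1
          omega : 1 < (univ.filter fun w => inc w S).card)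
        have ha' := ha
        have hb' := hb
        rw [hij'] at ha' hb'
        rw [hK.uniq a b S S' hab (mem_filter.1 ha).2 (mem_filter.1 hb).2 (mem_filter.1 ha').2
          (mem_filter.1 hb').2])
  have htwo : 2 ≤ (bigs inc).card := by
    by_contra hlt
    obtain ⟨u, v, huv, hadj⟩ := hcomp
    obtain ⟨K, hK1, hK2⟩ := hbig u
    obtain ⟨L, hL1, hL2⟩ := hbig v
    have hKL : K = L := by
      have h1 : (bigs inc).card ≤ 1 := by omega
      rw [card_le_one] at h1
      exact h1 K (by simp [bigs, hK1]) L (by simp [bigs, hL1])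
    exact hadj ((hK.adj_iff u v).2 ⟨huv, K, hK2, by rw [hKL]; exact hL2⟩)
  obtain ⟨F, hF⟩ := rowe1 V C G' inc hK hbig htwo heven
  obtain ⟨σ, hσ1, hσ2⟩ := rowe3 V C inc F hK.two hF (rowe2 V C inc F hK.two hK.ex hF.two hF.even)
  exact E4.rowE4 V G' σ h3 hσ1 fun v hv => (hK.adj_iff v (σ v)).2 ⟨hv, hσ2 v⟩

end TS

end Pool.Agent.ClawHam
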