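import Pool.Agent.Lib.MP_e2dbb5_co.Z5
import Pool.Agent.Lib.MP_e2dbb5_co.H0
import Pool.Agent.Lib.MP_e2dbb5_co.C1

/-!
# The reduction, complete
-/

set_option autoImplicit false

open Finset

namespace Pool.Agent.ClawHam

open Classical

/-- The main theorem, given the lemma on hypergraphs. -/
theorem main : Main :=
  main_of rowt1 (rowD2 rowd1) D3.rowD3 rowc0 rowc1 rowe1 rowe2 rowe3 E4.rowE4 rowE5 rowh0

end Pool.Agent.ClawHam
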