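import Pool.Agent.Lib.MP_e2dbb5_co.Defs

/-!
# Assembly of the reduction
-/

set_option autoImplicit false

open Finset

namespace Pool.Agent.ClawHam

open Classical

/-- a complete graph with at least three vertices is hamiltonian -/
theorem ham_of_complete {V : Type} [Fintype V] (G : SimpleGraph V) (h3 : 3 ≤ Fintype.card V)
    (h : ∀ u v, u ≠ v → G.Adj u v) : Ham G := by
  refine ⟨(univ : Finset V).toList, nodup_toList _, fun v => ?_, ?_, ?_, ?_⟩
  · rw [mem_toList]
    exact mem_univ v
  · rw [length_toList]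
    exact h3
  · have h1 : ((univ : Finset V).toList).Pairwise (· ≠ ·) := nodup_toList _
    exact (h1.imp fun {a b} hab => h a b hab).isChain
  · intro a ha b hb
    refine h a b ?_
    have hnd := nodup_toList (univ : Finset V)
    have hlen : 3 ≤ ((univ : Finset V).toList).length := by
      rw [length_toList]
      exact h3
    generalize (univ : Finset V).toList = l at ha hb hnd hlen
    rcases l with _ | ⟨x, l⟩
    · simp at hlen
    · rcases l with _ | ⟨y, l⟩
      · simp at hlen
      · have hb' : b = x := by simpa using hb.symm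
        have ha' : a ∈ (y :: l) := by
          rw [List.getLast?_cons_cons] at ha
          exact List.mem_of_getLast? ha
        rw [hb']
        rintro rfl
        exact (List.nodup_cons.1 hnd).1 ha'

theorem main_of (t1 : RowT1) (d2 : RowD2) (d3 : RowD3) (c0 : RowC0) (c1 : RowC1) (e1 : RowE1)
    (e2 : RowE2) (e3 : RowE3) (e4 : RowE4) (e5 : RowE5) (h0 : RowH0) : Main := by
  intro hyp' V _ _ G t ht h3 hclaw htough
  have hN : NoSmallCut G := t1 V G t ht htough
  obtain ⟨G', hle, hcf, hcl, hham⟩ := d2 V G hclaw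
  refine e5 V G (hham ?_)
  have hN' : NoSmallCut G' := by
    intro S A C h1 h2 h4 h5 h6 h7 h8
    exact hN S A C h1 h2 h4 h5 h6 h7 fun a ha c hc hac => h8 a ha c hc (hle hac)
  by_cases hcomp : ∀ u v, u ≠ v → G'.Adj u v
  · exact ham_of_complete G' h3 hcomp
  push Not at hcomp
  have hiso : ∀ v, ∃ w, G'.Adj v w := by
    intro v
    by_contra hno
    push Not at hno
    have h5 := hN' ∅ {v} ({v}ᶜ) (by
        intro w
        simp only [notMem_empty, mem_singleton, mem_compl, false_or]
        exact Classical.em _)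
      (by simp) (by simp) (by simp) (singleton_nonempty v)
      (by
        rw [← card_pos, card_compl, card_singleton]
        omega)
      (by
        intro a ha c _ hac
        rw [mem_singleton] at ha
        rw [ha] at hac
        exact hno c hac)
    simp at h5
  obtain ⟨C, _, inc, hK⟩ := d3 V G' hcf hcl hiso
  have hbig := c0 V C G' inc hK hN' hcomp
  obtain ⟨hr, hfour⟩ := c1 V C G' inc hK hN' hbig
  have heven := h0 hyp' C (V ⊕ C) (bigs inc) (Pool.Agent.ClawHam.hyp inc) hr hfour
  have htwo : 2 ≤ (bigs inc).card := by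
    by_contra hlt
    obtain ⟨u, v, huv, hadj⟩ := hcomp
    obtain ⟨K, hK1, hK2⟩ := hbig u
    obtain ⟨L, hL1, hL2⟩ := hbig v
    have hKL : K = L := by
      have h1 : (bigs inc).card ≤ 1 := by omega
      rw [card_le_one] at h1
      exact h1 K (by simp [bigs, hK1]) L (by simp [bigs, hL1])
    exact hadj ((hK.adj_iff u v).2 ⟨huv, K, hK2, by rw [hKL]; exact hL2⟩)
  obtain ⟨F, hF⟩ := e1 V C G' inc hK hbig htwo heven
  obtain ⟨σ, hσ1, hσ2⟩ := e3 V C inc F hK.two hF (e2 V C inc F hK.two hK.ex hF.two hF.even)
  exact e4 V G' σ h3 hσ1 fun v hv => (hK.adj_iff v (σ v)).2 ⟨hv, hσ2 v⟩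

end Pool.Agent.ClawHam
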