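import Pool.Agent.Lib.MP_e2dbb5_co.H5
import Pool.Agent.Lib.MP_e2dbb5_co.Z0
import Pool.Agent.Lib.MP_e2dbb5_co.T1
import Pool.Agent.Lib.MP_e2dbb5_co.D1
import Pool.Agent.Lib.MP_e2dbb5_co.D2
import Pool.Agent.Lib.MP_e2dbb5_co.D3
import Pool.Agent.Lib.MP_e2dbb5_co.C0
import Pool.Agent.Lib.MP_e2dbb5_co.RowE1
import Pool.Agent.Lib.MP_e2dbb5_co.E2
import Pool.Agent.Lib.MP_e2dbb5_co.E3
import Pool.Agent.Lib.MP_e2dbb5_co.E4
import Pool.Agent.Lib.MP_e2dbb5_co.E5

/-!
# Assembly of the reduction, with the weakest form of the lemma on hypergraphs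
-/

set_option autoImplicit false

open Finset

namespace Pool.Agent.ClawHam

open Classical

/-- The main theorem, given the lemma on hypergraphs in its weakest form. -/
theorem main5 (hyp' : HypLemma5) (V : Type) [Fintype V] [DecidableEq V] (G : SimpleGraph V)
    (t : ℝ) (ht : 2 < t) (h3 : 3 ≤ Fintype.card V) (hclaw : ClawFree G) (htough : Tough t G) :
    G.IsHamiltonian := by
  have hN : NoSmallCut G := rowt1 V G t ht htough
  obtain ⟨G', hle, hcf, hcl, hham⟩ := (rowD2 rowd1) V G hclaw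
  refine rowE5 V G (hham ?_)
  have hN' : NoSmallCut G' := by
    intro S A C h1 h2 h4 h5 h6 h7 h8
    exact hN S A C h1 h2 h4 h5 h6 h7 fun a ha c hc hac => h8 a ha c hc (hle hac)
  by_cases hcomp : ∀ u v, u ≠ v → G'.Adj u v
  · exact ham_of_complete G' h3 hcomp
  push Not at hcomp
  have hiso : ∀ v, ∃ w, G'.Adj v w := by
    intro v
    by_contra hno
    push Not at hno
    have h5 := hN' ∅ {v} ({v}ᶜ) (by
        intro w
        simp only [notMem_empty, mem_singleton, mem_compl, false_or]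
        exact Classical.em _)
      (by simp) (by simp) (by simp) (singleton_nonempty v)
      (by
        rw [← card_pos, card_compl, card_singleton]
        omega)
      (by
        intro a ha c _ hac
        rw [mem_singleton] at ha
        rw [ha] at hac
        exact hno c hac)
    simp at h5
  obtain ⟨C, _, inc, hK⟩ := D3.rowD3 V G' hcf hcl hiso
  have hbig := rowc0 V C G' inc hK hN' hcomp
  obtain ⟨hr, hfour⟩ := rowc1 V C G' inc hK hN' hbig
  have heven := rowh5 hyp' C (V ⊕ C) (bigs inc) (Pool.Agent.ClawHam.hyp inc) hr hfour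
    (rowc5 V C G' inc hK hN' hbig)
  have htwo : 2 ≤ (bigs inc).card := by
    by_contra hlt
    obtain ⟨u, v, huv, hadj⟩ := hcomp
    obtain ⟨K, hK1, hK2⟩ := hbig u
    obtain ⟨L, hL1, hL2⟩ := hbig v
    have hKL : K = L := by
      have h1 : (bigs inc).card ≤ 1 := by omega
      rw [card_le_one] at h1
      exact h1 K (by simp [bigs, hK1]) L (by simp [bigs, hL1])
    exact hadj ((hK.adj_iff u v).2 ⟨huv, K, hK2, by rw [hKL]; exact hL2⟩)
  obtain ⟨F, hF⟩ := rowe1 V C G' inc hK hbig htwo heven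
  obtain ⟨σ, hσ1, hσ2⟩ := rowe3 V C inc F hK.two hF (rowe2 V C inc F hK.two hK.ex hF.two hF.even)
  exact E4.rowE4 V G' σ h3 hσ1 fun v hv => (hK.adj_iff v (σ v)).2 ⟨hv, hσ2 v⟩

end Pool.Agent.ClawHam
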