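import Pool.Agent.Lib.MP_e2dbb5_co.E1D

/-!
# Assembly of the reduction, with skipped vertices
-/

set_option autoImplicit false

open Finset

noncomputable section

namespace Pool.Agent.ClawHam

open Classical

theorem evenDom_of_evenConn {B I : Type} [Fintype B] [Fintype I] {B₀ : Finset B}
    {e : I → Finset B} (h2 : 2 ≤ B₀.card) (h : EvenConn B₀ e) : EvenDom B₀ e := by
  obtain ⟨f, h3, h4, h5⟩ := h
  exact ⟨∅, B₀, f, fun K => ⟨fun h => ⟨h, notMem_empty _⟩, fun h => h.1⟩, h2, h3,
    fun i => disjoint_empty_right _, h4, h5, fun K hK => absurd hK (notMem_empty _),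
    fun K hK => absurd hK (notMem_empty _), fun K hK => absurd hK (notMem_empty _)⟩

theorem rowh5D (m : ℕ) (hL : HypLemmaD m) (B I : Type) [Fintype B] [Fintype I] (B₀ : Finset B)
    (e : I → Finset B) (he : ∀ i, e i ⊆ B₀ ∧ (e i).card ≤ 3) (h2B : 2 ≤ B₀.card)
    (hF : FourConn B₀ e) (hF5 : FiveEss B₀ e)
    (hm : (univ.filter fun K => K ∈ B₀ ∧ (univ.filter fun i => Crosses (e i) {K}).card ≤ 4 ∧
      ∃ i, K ∈ e i ∧ (e i).card = 3).card ≤ m) : EvenDom B₀ e := by
  set emb : {b // b ∈ B₀} ↪ B := Function.Embedding.subtype _ with hemb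
  have hev : ∀ b : {b // b ∈ B₀}, emb b = b.1 := fun _ => rfl
  set e' : {i // 2 ≤ (e i).card} → Finset {b // b ∈ B₀} := fun i => (e i.1).subtype (· ∈ B₀)
    with he'
  have hmem : ∀ (i : {i // 2 ≤ (e i).card}) (b : {b // b ∈ B₀}), b ∈ e' i ↔ b.1 ∈ e i.1 :=
    fun i b => mem_subtype
  have hcard : ∀ i : {i // 2 ≤ (e i).card}, (e' i).card = (e i.1).card := by
    intro i
    rw [he']
    simp only
    rw [card_subtype, filter_true_of_mem]
    intro x hx
    exact (he i.1).1 hx
  have hcross : ∀ X' : Finset {b // b ∈ B₀},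
      (univ.filter fun i => Crosses (e i) (X'.map emb)).card ≤
        (univ.filter fun i : {i // 2 ≤ (e i).card} => Crosses (e' i) X').card := by
    intro X'
    refine le_trans (card_le_card ?_) (card_image_le
      (s := univ.filter fun i : {i // 2 ≤ (e i).card} => Crosses (e' i) X') (f := Subtype.val))
    intro i hi
    obtain ⟨⟨a, ha, haX⟩, b, hb, hbX⟩ := (mem_filter.1 hi).2
    obtain ⟨a', ha', rfl⟩ := mem_map.1 haX
    have h2 : 2 ≤ (e i).card := by
      have h3 : 1 < (e i).card := by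
        rw [one_lt_card]
        refine ⟨emb a', ha, b, hb, ?_⟩
        rintro rfl
        exact hbX haX
      omega
    refine mem_image.2 ⟨⟨i, h2⟩, mem_filter.2 ⟨mem_univ _, ⟨a', (hmem _ _).2 ha, ha'⟩,
      ⟨b, (he i).1 hb⟩, (hmem _ _).2 hb, ?_⟩, rfl⟩
    intro h3
    exact hbX (mem_map.2 ⟨_, h3, rfl⟩)
  have hBcard : (univ : Finset {b // b ∈ B₀}).card = B₀.card := by
    rw [card_univ, Fintype.card_coe]
  obtain ⟨Sk, T', f', hT', hSc, hf1, hSd, hf2, hf3, hS4, hSs, hSu⟩ :=
    hL {b // b ∈ B₀} {i // 2 ≤ (e i).card} e' (by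
    intro i
    rw [hcard]
    have h1 := (he i.1).2
    have h2 := i.2
    omega) (by
    rw [Fintype.card_coe]
    exact h2B) (by
    intro X' _ hne hX
    have h1 := hF (X'.map emb) (by
      intro b hb
      obtain ⟨c, _, rfl⟩ := mem_map.1 hb
      exact c.2) (by
      obtain ⟨c, hc⟩ := hne
      exact ⟨emb c, mem_map_of_mem _ hc⟩) (by
      intro h
      apply hX
      rw [eq_univ_iff_forall]
      intro c
      have h2 : emb c ∈ X'.map emb := by
        rw [h]
        exact c.2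
      exact (mem_map' emb).1 h2)
    exact h1.trans (hcross X')) (by
    intro X' _ hX2 hX3
    have h1 : (univ : Finset {b // b ∈ B₀}).card = B₀.card := by
      rw [card_univ, Fintype.card_coe]
    have h2 := hF5 (X'.map emb) (by
      intro b hb
      obtain ⟨c, _, rfl⟩ := mem_map.1 hb
      exact c.2) (by rw [card_map]; exact hX2) (by rw [card_map, ← h1]; exact hX3)
    exact h2.trans (hcross X')) (by
    refine le_trans ?_ hm
    rw [← card_map emb]
    refine card_le_card ?_
    intro b hb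
    obtain ⟨c, hc, rfl⟩ := mem_map.1 hb
    obtain ⟨h1, i, h2, h3⟩ := mem_deg4T.1 hc
    refine mem_filter.2 ⟨mem_univ _, c.2, ?_, i.1, (hmem _ _).1 h2, ?_⟩
    · have h4 := hcross {c}
      rw [map_singleton] at h4
      exact h4.trans h1.le
    · rw [← hcard]
      exact h3)
  obtain ⟨F, hpos, hneg⟩ : ∃ F : I → Finset B,
      (∀ i (h : 2 ≤ (e i).card), F i = (f' ⟨i, h⟩).map emb) ∧
        ∀ i, ¬ 2 ≤ (e i).card → F i = ∅ :=
    ⟨fun i => if h : 2 ≤ (e i).card then (f' ⟨i, h⟩).map emb else ∅, fun i h => dif_pos h,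
      fun i h => dif_neg h⟩
  have hmS : ∀ (b : B) (hb : b ∈ B₀), b ∈ Sk.map emb ↔ (⟨b, hb⟩ : {b // b ∈ B₀}) ∈ Sk := by
    intro b hb
    rw [mem_map]
    constructor
    · rintro ⟨c, hc, hcb⟩
      have h3 : c = ⟨b, hb⟩ := Subtype.ext hcb
      rwa [← h3]
    · intro h
      exact ⟨_, h, rfl⟩
  have hmT : ∀ (b : B) (hb : b ∈ B₀), b ∈ T'.map emb ↔ (⟨b, hb⟩ : {b // b ∈ B₀}) ∈ T' := by
    intro b hb
    rw [mem_map]
    constructor
    · rintro ⟨c, hc, hcb⟩
      have h3 : c = ⟨b, hb⟩ := Subtype.ext hcb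
      rwa [← h3]
    · intro h
      exact ⟨_, h, rfl⟩
  have hTS : ∀ K, K ∈ T'.map emb ↔ K ∈ B₀ ∧ K ∉ Sk.map emb := by
    intro K
    constructor
    · intro h
      obtain ⟨c, hc, rfl⟩ := mem_map.1 h
      exact ⟨c.2, fun h' => ((hT' c).1 hc).2 ((mem_map' emb).1 h')⟩
    · rintro ⟨h1, h2⟩
      exact (hmT K h1).2 ((hT' _).2 ⟨mem_univ _, fun h => h2 ((hmS K h1).2 h)⟩)
  refine ⟨Sk.map emb, T'.map emb, F, hTS, ?_, ?_, ?_, ?_, ?_, ?_, ?_, ?_⟩
  · rw [card_map]
    exact hSc
  · intro i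
    by_cases h : 2 ≤ (e i).card
    · rw [hpos i h]
      refine ⟨?_, ?_⟩
      · intro b hb
        obtain ⟨c, hc, rfl⟩ := mem_map.1 hb
        exact (hmem _ _).1 ((hf1 _).1 hc)
      · rcases (hf1 ⟨i, h⟩).2 with h1 | h1
        · left
          rw [h1, map_empty]
        · right
          rw [card_map, h1]
    · rw [hneg i h]
      exact ⟨empty_subset _, Or.inl rfl⟩
  · intro i
    rw [Finset.disjoint_left]
    intro b hb hbS
    obtain ⟨c, hc, rfl⟩ := mem_map.1 hbS
    by_cases h : 2 ≤ (e i).card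
    · rw [hpos i h] at hb
      exact (Finset.disjoint_left.1 (hSd ⟨i, h⟩)) ((mem_map' emb).1 hb) hc
    · rw [hneg i h] at hb
      exact absurd hb (notMem_empty _)
  · intro K
    by_cases hK : K ∈ B₀
    · have h1 : (univ.filter fun i => K ∈ F i) =
          (univ.filter fun i : {i // 2 ≤ (e i).card} => (⟨K, hK⟩ : {b // b ∈ B₀}) ∈ f' i).map
            (Function.Embedding.subtype _) := by
        ext i
        rw [mem_filter, mem_map]
        constructor
        · rintro ⟨_, h2⟩
          by_cases h : 2 ≤ (e i).card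
          · rw [hpos i h, mem_map] at h2
            obtain ⟨c, hc, hcK⟩ := h2
            refine ⟨⟨i, h⟩, mem_filter.2 ⟨mem_univ _, ?_⟩, rfl⟩
            have h3 : c = ⟨K, hK⟩ := Subtype.ext hcK
            rwa [← h3]
          · rw [hneg i h] at h2
            exact absurd h2 (notMem_empty _)
        · rintro ⟨j, hj, rfl⟩
          refine ⟨mem_univ _, ?_⟩
          have h2 : 2 ≤ (e (Function.Embedding.subtype _ j)).card := j.2
          rw [hpos _ h2]
          exact mem_map.2 ⟨⟨K, hK⟩, (mem_filter.1 hj).2, rfl⟩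
      rw [h1, card_map]
      exact key _ _ _ (hf2 ⟨K, hK⟩)
    · have h1 : (univ.filter fun i => K ∈ F i) = ∅ := by
        rw [filter_eq_empty_iff]
        intro i _ h2
        by_cases h : 2 ≤ (e i).card
        · rw [hpos i h, mem_map] at h2
          obtain ⟨c, _, rfl⟩ := h2
          exact hK c.2
        · rw [hneg i h] at h2
          exact absurd h2 (notMem_empty _)
      rw [h1, card_empty]
      exact Even.zero
  · intro X hXB hne hX
    obtain ⟨j, ⟨a, ha, haX⟩, b, hb, hbX⟩ := hf3 (X.subtype (· ∈ B₀)) (by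
      intro c hc
      exact (mem_map' emb).1 (hXB (mem_subtype.1 hc))) (by
      obtain ⟨c, hc⟩ := hne
      exact ⟨⟨c, ((hTS c).1 (hXB hc)).1⟩, mem_subtype.2 hc⟩) (by
      intro h
      apply hX
      refine Subset.antisymm hXB fun c hc => ?_
      have hc1 := ((hTS c).1 hc).1
      have h1 : (⟨c, hc1⟩ : {b // b ∈ B₀}) ∈ X.subtype (· ∈ B₀) := by
        rw [h]
        exact (hmT c hc1).1 hc
      exact mem_subtype.1 h1)
    refine ⟨j.1, ⟨a.1, ?_, mem_subtype.1 haX⟩, b.1, ?_, fun h => hbX (mem_subtype.2 h)⟩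
    · rw [hpos _ j.2]
      exact mem_map.2 ⟨a, ha, rfl⟩
    · rw [hpos _ j.2]
      exact mem_map.2 ⟨b, hb, rfl⟩
  · intro K hK
    obtain ⟨c, hc, rfl⟩ := mem_map.1 hK
    have h4 := hcross {c}
    rw [map_singleton] at h4
    exact h4.trans (hS4 c hc)
  · intro K hK i hKi L hLi hLK hL'
    obtain ⟨c, hc, rfl⟩ := mem_map.1 hK
    obtain ⟨c', hc', rfl⟩ := mem_map.1 hL'
    have h2 : 2 ≤ (e i).card := by
      have h3 : 1 < (e i).card := by
        rw [one_lt_card]
        exact ⟨_, hLi, _, hKi, hLK⟩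
      omega
    exact hSs c hc ⟨i, h2⟩ ((hmem _ _).2 hKi) c' ((hmem _ _).2 hLi)
      (fun h => hLK (congrArg _ h)) hc'
  · intro K hK i hKi h3 h0
    obtain ⟨c, hc, rfl⟩ := mem_map.1 hK
    have h2 : 2 ≤ (e i).card := by omega
    rw [hpos i h2] at h0
    exact hSu c hc ⟨i, h2⟩ ((hmem _ _).2 hKi) (by rw [hcard]; exact h3) (map_eq_empty.1 h0)

/-- The main theorem, given the lemma on hypergraphs with skipped vertices, for graphs with at most
`m` vertices of degree five. -/
theorem mainD (m : ℕ) (hyp' : HypLemmaD m) (V : Type) [Fintype V] [DecidableEq V]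
    (G : SimpleGraph V) (hN : NoSmallCut G) (h3 : 3 ≤ Fintype.card V) (hclaw : ClawFree G)
    (hm : (univ.filter fun v => (univ.filter fun w => G.Adj v w).card = 5).card ≤ m) :
    G.IsHamiltonian := by
  obtain ⟨G', hle, hcf, hcl, hham⟩ := (rowD2 rowd1) V G hclaw
  refine rowE5 V G (hham ?_)
  have hN' : NoSmallCut G' := by
    intro S A C h1 h2 h4 h5 h6 h7 h8
    exact hN S A C h1 h2 h4 h5 h6 h7 fun a ha c hc hac => h8 a ha c hc (hle hac)
  by_cases hcomp : ∀ u v, u ≠ v → G'.Adj u v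
  · exact ham_of_complete G' h3 hcomp
  push Not at hcomp
  have hcompG : ∃ u v, u ≠ v ∧ ¬ G.Adj u v := by
    obtain ⟨u, v, h1, h2⟩ := hcomp
    exact ⟨u, v, h1, fun h => h2 (hle h)⟩
  have hiso : ∀ v, ∃ w, G'.Adj v w := by
    intro v
    by_contra hno
    push Not at hno
    have h5 := hN' ∅ {v} ({v}ᶜ) (by
        intro w
        simp only [notMem_empty, mem_singleton, mem_compl, false_or]
        exact Classical.em _)
      (by simp) (by simp) (by simp) (singleton_nonempty v)
      (by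
        rw [← card_pos, card_compl, card_singleton]
        omega)
      (by
        intro a ha c _ hac
        rw [mem_singleton] at ha
        rw [ha] at hac
        exact hno c hac)
    simp at h5
  obtain ⟨C, _, inc, hK⟩ := D3.rowD3 V G' hcf hcl hiso
  have hbig := rowc0 V C G' inc hK hN' hcomp
  obtain ⟨hr, hfour⟩ := rowc1 V C G' inc hK hN' hbig
  have htwo : 2 ≤ (bigs inc).card := by
    by_contra hlt
    obtain ⟨u, v, huv, hadj⟩ := hcomp
    obtain ⟨K, hK1, hK2⟩ := hbig u
    obtain ⟨L, hL1, hL2⟩ := hbig v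
    have hKL : K = L := by
      have h1 : (bigs inc).card ≤ 1 := by omega
      rw [card_le_one] at h1
      exact h1 K (by simp [bigs, hK1]) L (by simp [bigs, hL1])
    exact hadj ((hK.adj_iff u v).2 ⟨huv, K, hK2, by rw [hKL]; exact hL2⟩)
  have heven := rowh5D m hyp' C (V ⊕ C) (bigs inc) (Pool.Agent.ClawHam.hyp inc) hr htwo hfour
    (rowc5 V C G' inc hK hN' hbig) (by
      refine le_trans ?_ hm
      have h1 : ∀ K : C, ∃ v : V, K ∈ (univ.filter fun K => K ∈ bigs inc ∧
          (univ.filter fun i => Crosses (Pool.Agent.ClawHam.hyp inc i) {K}).card ≤ 4 ∧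
          ∃ i, K ∈ Pool.Agent.ClawHam.hyp inc i ∧ (Pool.Agent.ClawHam.hyp inc i).card = 3) →
          Big inc K ∧ inc v K ∧ (∃ S, inc v S ∧ ¬ Big inc S) ∧
            (univ.filter fun w => G.Adj v w).card = 5 := by
        intro K
        by_cases hKm : K ∈ (univ.filter fun K => K ∈ bigs inc ∧
          (univ.filter fun i => Crosses (Pool.Agent.ClawHam.hyp inc i) {K}).card ≤ 4 ∧
          ∃ i, K ∈ Pool.Agent.ClawHam.hyp inc i ∧ (Pool.Agent.ClawHam.hyp inc i).card = 3)
        · obtain ⟨h2, h4, h5⟩ := (mem_filter.1 hKm).2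
          have hbK : Big inc K := (mem_filter.1 h2).2
          obtain ⟨v, S, h6, h7, h8, h9⟩ := deg5 hK hN' hbig hbK h4 h5
          refine ⟨v, fun _ => ⟨hbK, h6, ⟨S, h7, h8⟩, ?_⟩⟩
          have h10 := five_le_deg hN hcompG v
          have h11 : (univ.filter fun w => G.Adj v w).card ≤
              (univ.filter fun w => G'.Adj v w).card := by
            refine card_le_card fun w hw => ?_
            exact mem_filter.2 ⟨mem_univ _, hle (mem_filter.1 hw).2⟩
          omega
        · obtain ⟨u, -⟩ := hcomp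
          exact ⟨u, fun h => absurd h hKm⟩
      choose j hj using h1
      refine card_le_card_of_injOn j ?_ ?_
      · intro K hKm
        exact mem_filter.2 ⟨mem_univ _, (hj K hKm).2.2.2⟩
      · intro K hKm L hLm hKL
        obtain ⟨hbK, h2, -⟩ := hj K hKm
        obtain ⟨hbL, h4, ⟨S, h5, h6⟩, -⟩ := hj L hLm
        rw [← hKL] at h4 h5
        rcases hK.two (j K) K L S h2 h4 h5 with h | h | h
        · exact h
        · rw [h] at hbK
          exact absurd hbK h6
        · rw [h] at hbL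
          exact absurd hbL h6)
  obtain ⟨F, hF⟩ := rowe1D hK hN' hcomp hbig heven
  obtain ⟨σ, hσ1, hσ2⟩ := rowe3 V C inc F hK.two hF (rowe2 V C inc F hK.two hK.ex hF.two hF.even)
  exact E4.rowE4 V G' σ h3 hσ1 fun v hv => (hK.adj_iff v (σ v)).2 ⟨hv, hσ2 v⟩

/-- The same for graphs which are more than 2-tough. -/
theorem mainDT (m : ℕ) (hyp' : HypLemmaD m) (V : Type) [Fintype V] [DecidableEq V]
    (G : SimpleGraph V) (t : ℝ) (ht : 2 < t) (h3 : 3 ≤ Fintype.card V) (hclaw : ClawFree G)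
    (htough : Tough t G)
    (hm : (univ.filter fun v => (univ.filter fun w => G.Adj v w).card = 5).card ≤ m) :
    G.IsHamiltonian :=
  mainD m hyp' V G (rowt1 V G t ht htough) h3 hclaw hm

/-- The main theorem, given the lemma on hypergraphs with skipped vertices. -/
theorem mainDall (hyp' : ∀ m, HypLemmaD m) (V : Type) [Fintype V] [DecidableEq V]
    (G : SimpleGraph V) (hN : NoSmallCut G) (h3 : 3 ≤ Fintype.card V) (hclaw : ClawFree G) :
    G.IsHamiltonian :=
  mainD _ (hyp' _) V G hN h3 hclaw le_rfl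

end Pool.Agent.ClawHam
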